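import Pool.Agent.QWF.StC

/-!
# QWF, module ABd
-/

set_option autoImplicit false

open MeasureTheory Filter Topology Set
open scoped ENNReal NNReal RealInnerProductSpace

namespace Pool.Agent.QWF


theorem thm_ABd (h1 : Pool.Agent.QWF.St_GBd) : St_ABd := by
  intro b hb Q k x a hC T
  obtain ⟨hQ, h0, hmax, hk⟩ := hC
  by_contra hcon
  push Not at hcon
  have hex : ∀ n : ℕ, ∃ t : ℝ, |t| ≤ T ∧ ¬ (|a t| ≤ n ∧ ‖x t‖ ≤ n) := by
    intro n
    obtain ⟨t, ht, hn⟩ := hcon n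
    exact ⟨t, ht, fun h => absurd h.2 (not_le.mpr (hn h.1))⟩
  choose t htT htn using hex
  obtain ⟨t0, _, φ, hφ, hl⟩ := (isCompact_Icc (a := -T) (b := T)).tendsto_subseq
    (x := t) (fun n => abs_le.mp (htT n))
  have hcont : Continuous k := continuousOn_univ.mp hmax.1.2.1
  have hlim : Tendsto (fun n => k (t (φ n))) atTop (𝓝 (k t0)) := (hcont.tendsto t0).comp hl
  have hne : k t0 ≠ 0 := by
    intro hz
    obtain ⟨κ, hκ, hkt⟩ := hk t0 (mem_univ _)
    have h3 : ‖κ‖ = 0 := by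
      have h4 : ‖gr (x t0) (a t0) κ‖ = ‖κ‖ := by
        unfold gr
        rw [(sh _).norm_map, (dl _).norm_map]
      rw [← h4, ← hkt, hz, norm_zero]
    rw [norm_eq_zero] at h3
    exact h0 (h3 ▸ hκ)
  have hch : ∀ n, ∃ κ ∈ Q, k (t (φ n)) = gr (x (t (φ n))) (a (t (φ n))) κ :=
    fun n => hk _ (mem_univ _)
  choose κ hκ hkκ using hch
  have hw : WTo (fun n => gr (x (t (φ n))) (a (t (φ n))) (κ n)) (k t0) := by
    intro w
    have h5 : Tendsto (fun n => (inner ℝ (k (t (φ n))) w : ℝ)) atTop (𝓝 (inner ℝ (k t0) w)) :=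
      hlim.inner tendsto_const_nhds
    refine h5.congr fun n => ?_
    rw [hkκ n]
  obtain ⟨B, hB⟩ := h1 Q κ (fun n => x (t (φ n))) (fun n => a (t (φ n))) (k t0) hQ hκ hw hne
  obtain ⟨N, hN⟩ := exists_nat_ge B
  have hφN : (N : ℝ) ≤ (φ N : ℝ) := by exact_mod_cast hφ.id_le N
  exact htn (φ N) ⟨(hB N).1.trans (hN.trans hφN), (hB N).2.trans (hN.trans hφN)⟩

end Pool.Agent.QWF
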