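import Pool.Agent.QWF.StA

/-!
# QWF, module Grp1: the translations
-/

set_option autoImplicit false

open MeasureTheory Filter Topology Set
open scoped ENNReal NNReal RealInnerProductSpace Pointwise

namespace Pool.Agent.QWF.Grp1x

lemma mpt (t : ℝ) : MeasurePreserving (fun z : S × ℝ => (z.1, z.2 - t)) mu mu :=
  mp_shift (g := fun _ => t) measurable_const

lemma mps (y : E) :
    MeasurePreserving (fun z : S × ℝ => (z.1, z.2 - inner ℝ y (z.1 : E))) mu mu :=
  mp_shift (g := fun w : S => inner ℝ y (w : E)) (by fun_prop)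

lemma tau_tau (s t : ℝ) (k : K) : tau s (tau t k) = tau (s + t) k := by
  apply Lp.ext
  have h := (mpt s).quasiMeasurePreserving.ae (tau_coe t k)
  filter_upwards [tau_coe s (tau t k), tau_coe (s + t) k, h] with z h1 h2 h3
  rw [h1, h2, h3]
  congr 2
  ring

lemma tau_zero (k : K) : tau 0 k = k := by
  apply Lp.ext
  filter_upwards [tau_coe 0 k] with z h1
  rw [h1, sub_zero]

lemma sh_sh (y z : E) (k : K) : sh y (sh z k) = sh (y + z) k := by
  apply Lp.ext
  have h := (mps y).quasiMeasurePreserving.ae (sh_coe z k)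
  filter_upwards [sh_coe y (sh z k), sh_coe (y + z) k, h] with p h1 h2 h3
  rw [h1, h2, h3]
  congr 2
  rw [inner_add_left]
  ring

lemma sh_zero (k : K) : sh 0 k = k := by
  apply Lp.ext
  filter_upwards [sh_coe 0 k] with z h1
  rw [h1, inner_zero_left, sub_zero]

lemma tau_sh (t : ℝ) (y : E) (k : K) : tau t (sh y k) = sh y (tau t k) := by
  apply Lp.ext
  have h := (mpt t).quasiMeasurePreserving.ae (sh_coe y k)
  have h' := (mps y).quasiMeasurePreserving.ae (tau_coe t k)
  filter_upwards [tau_coe t (sh y k), sh_coe y (tau t k), h, h'] with p h1 h2 h3 h4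
  rw [h1, h2, h3, h4]
  congr 2
  ring

lemma inner_tau (t : ℝ) (k k' : K) : inner ℝ (tau t k) k' = inner ℝ k (tau (-t) k') := by
  have h : tau t (tau (-t) k') = k' := by rw [tau_tau, add_neg_cancel, tau_zero]
  conv_lhs => rw [← h]
  exact LinearIsometry.inner_map_map _ _ _

lemma inner_sh (y : E) (k k' : K) : inner ℝ (sh y k) k' = inner ℝ k (sh (-y) k') := by
  have h : sh y (sh (-y) k') = k' := by rw [sh_sh, add_neg_cancel, sh_zero]
  conv_lhs => rw [← h]
  exact LinearIsometry.inner_map_map _ _ _

/-- The continuous map of a translation. -/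
def ct (t : ℝ) : C(S × ℝ, S × ℝ) := ⟨fun z => (z.1, z.2 - t), by fun_prop⟩

/-- The continuous map of a space translation. -/
noncomputable def cs (y : E) : C(S × ℝ, S × ℝ) :=
  ⟨fun z => (z.1, z.2 - inner ℝ y (z.1 : E)), by fun_prop⟩

lemma cont_ct : Continuous ct := by
  apply ContinuousMap.continuous_of_continuous_uncurry
  unfold ct Function.uncurry
  simp only [ContinuousMap.coe_mk]
  fun_prop

lemma cont_cs : Continuous cs := by
  apply ContinuousMap.continuous_of_continuous_uncurry
  unfold cs Function.uncurry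
  simp only [ContinuousMap.coe_mk]
  fun_prop

lemma cont_tau (k : K) : Continuous fun t => tau t k := by
  have h := Continuous.compMeasurePreservingLp (μ := mu) (ν := mu) (E := ℝ) (p := 2)
    (f := fun _ : ℝ => k) (g := ct) continuous_const cont_ct (fun t => mpt t) (by norm_num)
  exact h

lemma cont_sh (k : K) : Continuous fun y => sh y k := by
  have h := Continuous.compMeasurePreservingLp (μ := mu) (ν := mu) (E := ℝ) (p := 2)
    (f := fun _ : E => k) (g := cs) continuous_const cont_cs (fun y => mps y) (by norm_num)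
  exact h

end Pool.Agent.QWF.Grp1x

namespace Pool.Agent.QWF

/-- **Grp1** (translations). -/
theorem thm_Grp1 : St_Grp1 :=
  ⟨Grp1x.tau_tau, Grp1x.tau_zero, Grp1x.sh_sh, Grp1x.sh_zero, Grp1x.tau_sh, Grp1x.inner_tau,
    Grp1x.inner_sh, Grp1x.cont_tau, Grp1x.cont_sh⟩

end Pool.Agent.QWF
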