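import Pool.Agent.QWF.StB

set_option autoImplicit false

/-!
# QWF, Loc: local theory by Picard iteration, all exponents (port of QWE.Loc)
-/

open MeasureTheory Filter Topology Set
open scoped ENNReal NNReal RealInnerProductSpace Pointwise

namespace Pool.Agent.QWF


namespace Locx

/-- joint continuity of the free flow -/
theorem tau_cont (hG : St_Grp1) : Continuous fun p : ℝ × K => tau p.1 p.2 := by
  have hc := hG.2.2.2.2.2.2.2.1
  rw [continuous_iff_continuousAt]
  rintro ⟨s0, k0⟩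
  show Tendsto (fun p : ℝ × K => tau p.1 p.2) (𝓝 (s0, k0)) (𝓝 (tau s0 k0))
  rw [tendsto_iff_dist_tendsto_zero]
  have h1 : Tendsto (fun p : ℝ × K => dist p.2 k0 + dist (tau p.1 k0) (tau s0 k0))
      (𝓝 (s0, k0)) (𝓝 0) := by
    have e1 : Tendsto (fun p : ℝ × K => dist p.2 k0) (𝓝 (s0, k0)) (𝓝 0) := by
      have h : Continuous fun p : ℝ × K => dist p.2 k0 := continuous_snd.dist continuous_const
      have h2 := h.tendsto (s0, k0)
      simpa using h2
    have e2 : Tendsto (fun p : ℝ × K => dist (tau p.1 k0) (tau s0 k0)) (𝓝 (s0, k0)) (𝓝 0) := by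
      have h : Continuous fun p : ℝ × K => dist (tau p.1 k0) (tau s0 k0) :=
        ((hc k0).comp continuous_fst).dist continuous_const
      have h2 := h.tendsto (s0, k0)
      simpa using h2
    simpa using e1.add e2
  refine squeeze_zero (fun p => dist_nonneg) (fun p => ?_) h1
  calc dist (tau p.1 p.2) (tau s0 k0)
      ≤ dist (tau p.1 p.2) (tau p.1 k0) + dist (tau p.1 k0) (tau s0 k0) := dist_triangle _ _ _
    _ = dist p.2 k0 + dist (tau p.1 k0) (tau s0 k0) := by
        rw [(tau p.1).dist_map]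

/-- integrability of the Duhamel integrand -/
theorem int_tau (hG : St_Grp1) {μ : Measure ℝ} {G : ℝ → K} (h : Integrable G μ) (t : ℝ) :
    Integrable (fun r => tau (t - r) (G r)) μ := by
  have h1 : AEStronglyMeasurable (fun r => tau (t - r) (G r)) μ := by
    have h2 : AEStronglyMeasurable (fun r : ℝ => ((t - r, G r) : ℝ × K)) μ :=
      (by fun_prop : Continuous fun r : ℝ => t - r).aestronglyMeasurable.prodMk h.1
    have h3 := Continuous.comp_aestronglyMeasurable
      (g := fun p : ℝ × K => tau p.1 p.2) (f := fun r : ℝ => ((t - r, G r) : ℝ × K))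
      (tau_cont hG) h2
    exact h3
  rw [← integrable_norm_iff h1]
  have h2 : (fun r => ‖tau (t - r) (G r)‖) = fun r => ‖G r‖ :=
    funext fun r => (tau (t - r)).norm_map _
  rw [h2]
  exact h.norm

theorem ii_tau (hG : St_Grp1) {a b : ℝ} {G : ℝ → K} (h : IntegrableOn G (Icc a b) volume)
    (t : ℝ) {s s' : ℝ} (hs : s ∈ Icc a b) (hs' : s' ∈ Icc a b) :
    IntervalIntegrable (fun r => tau (t - r) (G r)) volume s s' := by
  rw [intervalIntegrable_iff]
  refine IntegrableOn.mono_set (int_tau hG h t) ?_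
  intro r hr
  have h1 := uIoc_subset_uIcc hr
  exact ordConnected_Icc.uIcc_subset hs hs' h1

theorem rb {b : ℝ} (hb : 0 < b) (x y : ℝ≥0∞) : x ^ (1 / b) ≤ y ↔ x ≤ y ^ b := by
  rw [one_div, ENNReal.rpow_inv_le_iff hb]

theorem pow_mono {b : ℝ} (hb : 0 ≤ b) {x y : ℝ≥0∞} (h : x ≤ y) : x ^ b ≤ y ^ b :=
  ENNReal.rpow_le_rpow h hb

theorem of_lt_top {b : ℝ} (hb : 0 ≤ b) (σ : ℝ) : ENNReal.ofReal σ ^ b < ⊤ :=
  ENNReal.rpow_lt_top_of_nonneg hb ENNReal.ofReal_ne_top

/-- measurability of the norms along a curve -/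
theorem sn_meas {b : ℝ} (hb : 4 < b) (hM : St_Meas) {J : Set ℝ} (hJ : MeasurableSet J) {k : ℝ → K}
    (hk : AEStronglyMeasurable k (volume.restrict J)) :
    AEMeasurable (fun r => sn b (k r)) (volume.restrict J) := (hM b hb k J hJ hk).1

theorem sn_fin {b : ℝ} (hb : 4 < b) (hM : St_Meas) {J : Set ℝ} (hJ : MeasurableSet J) {k : ℝ → K}
    (hk : AEStronglyMeasurable k (volume.restrict J)) (hS : SN b J k < ⊤) :
    ∀ᵐ r ∂(volume.restrict J), sn b (k r) < ⊤ := by
  have h := ae_lt_top' ((sn_meas hb hM hJ hk).pow_const b) hS.ne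
  filter_upwards [h] with r hr
  by_contra hc
  rw [not_lt, top_le_iff] at hc
  rw [hc, ENNReal.top_rpow_of_pos (by linarith)] at hr
  exact lt_irrefl _ hr

/-- the nonlinearity along a curve -/
theorem est1 {b C : ℝ} (hb : 4 < b) (hC0 : 0 < C)
    (hC : ∀ k : K, ‖NL b k‖ₑ ≤ ENNReal.ofReal C * sn b k ^ b * ‖k‖ₑ) (hM : St_Meas)
    {x y : ℝ} {k : ℝ → K} (hk : ContinuousOn k (Icc x y)) {σ B : ℝ} (hσ : 0 ≤ σ) (hB : 0 ≤ B)
    (hS : SN b (Icc x y) k ≤ ENNReal.ofReal σ ^ b) (hn : ∀ t ∈ Icc x y, ‖k t‖ ≤ B) :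
    IntegrableOn (fun r => NL b (k r)) (Icc x y) volume ∧
      ∫ r in Icc x y, ‖NL b (k r)‖ ≤ C * σ ^ b * B := by
  have hb0 : 0 ≤ b := by linarith
  have hm : AEStronglyMeasurable k (volume.restrict (Icc x y)) :=
    hk.aestronglyMeasurable measurableSet_Icc
  have hS' : SN b (Icc x y) k < ⊤ := hS.trans_lt (of_lt_top hb0 σ)
  have hf := sn_fin hb hM measurableSet_Icc hm hS'
  have hNm := (hM b hb k (Icc x y) measurableSet_Icc hm).2.2 hf
  have hle : ∫⁻ r in Icc x y, ‖NL b (k r)‖ₑ ≤ ENNReal.ofReal (C * σ ^ b * B) := by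
    calc ∫⁻ r in Icc x y, ‖NL b (k r)‖ₑ
        ≤ ∫⁻ r in Icc x y, (ENNReal.ofReal C * ENNReal.ofReal B) * sn b (k r) ^ b := by
          refine setLIntegral_mono_ae' measurableSet_Icc (Eventually.of_forall fun r hr => ?_)
          calc ‖NL b (k r)‖ₑ ≤ ENNReal.ofReal C * sn b (k r) ^ b * ‖k r‖ₑ := hC _
            _ ≤ ENNReal.ofReal C * sn b (k r) ^ b * ENNReal.ofReal B := by
                gcongr
                rw [← ofReal_norm]
                exact ENNReal.ofReal_le_ofReal (hn r hr)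
            _ = (ENNReal.ofReal C * ENNReal.ofReal B) * sn b (k r) ^ b := by ring
      _ = (ENNReal.ofReal C * ENNReal.ofReal B) * SN b (Icc x y) k := by
          rw [lintegral_const_mul'' _ ((sn_meas hb hM measurableSet_Icc hm).pow_const b)]
          rfl
      _ ≤ (ENNReal.ofReal C * ENNReal.ofReal B) * ENNReal.ofReal σ ^ b := by gcongr
      _ = ENNReal.ofReal (C * σ ^ b * B) := by
          rw [ENNReal.ofReal_rpow_of_nonneg hσ hb0, ← ENNReal.ofReal_mul hC0.le,
            ← ENNReal.ofReal_mul (by positivity)]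
          congr 1
          ring
  refine ⟨⟨hNm, hle.trans_lt ENNReal.ofReal_lt_top⟩, ?_⟩
  rw [integral_norm_eq_lintegral_enorm hNm]
  exact ENNReal.toReal_le_of_le_ofReal (by positivity) hle

/-- differences of the nonlinearity along two curves -/
theorem est2 {b C : ℝ} (hb : 4 < b) (hC0 : 0 < C)
    (hC : ∀ k k' : K, sn b k < ⊤ → sn b k' < ⊤ → ‖NL b k - NL b k'‖ₑ ≤ ENNReal.ofReal C *
      ((sn b k + sn b k') ^ (b - 1) * sn b (k - k') * (‖k‖ₑ + ‖k'‖ₑ) +
        (sn b k + sn b k') ^ b * ‖k - k'‖ₑ))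
    (hM : St_Meas) {x y : ℝ} {k k' : ℝ → K} (hk : ContinuousOn k (Icc x y))
    (hk' : ContinuousOn k' (Icc x y)) {σ B δ : ℝ} (hσ : 0 ≤ σ) (hB : 0 ≤ B) (hδ : 0 ≤ δ)
    (hS : SN b (Icc x y) k ≤ ENNReal.ofReal σ ^ b) (hn : ∀ t ∈ Icc x y, ‖k t‖ ≤ B)
    (hS' : SN b (Icc x y) k' ≤ ENNReal.ofReal σ ^ b) (hn' : ∀ t ∈ Icc x y, ‖k' t‖ ≤ B)
    (hSd : SN b (Icc x y) (fun t => k t - k' t) ≤ ENNReal.ofReal δ ^ b)
    (hnd : ∀ t ∈ Icc x y, ‖k t - k' t‖ ≤ δ) :
    ∫ r in Icc x y, ‖NL b (k r) - NL b (k' r)‖ ≤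
      C * ((2 * σ) ^ (b - 1) * δ * (2 * B) + (2 * σ) ^ b * δ) := by
  have hb0 : 0 ≤ b := by linarith
  have hb1 : 0 < b := by linarith
  have hI : MeasurableSet (Icc x y) := measurableSet_Icc
  have hm : AEStronglyMeasurable k (volume.restrict (Icc x y)) := hk.aestronglyMeasurable hI
  have hm' : AEStronglyMeasurable k' (volume.restrict (Icc x y)) := hk'.aestronglyMeasurable hI
  have hmd : AEStronglyMeasurable (fun t => k t - k' t) (volume.restrict (Icc x y)) := hm.sub hm'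
  have hSt : SN b (Icc x y) k < ⊤ := hS.trans_lt (of_lt_top hb0 σ)
  have hSt' : SN b (Icc x y) k' < ⊤ := hS'.trans_lt (of_lt_top hb0 σ)
  have hf := sn_fin hb hM hI hm hSt
  have hf' := sn_fin hb hM hI hm' hSt'
  have hNm := (hM b hb k (Icc x y) hI hm).2.2 hf
  have hNm' := (hM b hb k' (Icc x y) hI hm').2.2 hf'
  have a1 := sn_meas hb hM hI hm
  have a2 := sn_meas hb hM hI hm'
  have a3 := sn_meas hb hM hI hmd
  have a4 : AEMeasurable (fun r => sn b (k r) + sn b (k' r)) (volume.restrict (Icc x y)) :=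
    a1.add a2
  have m1 : AEMeasurable (fun r => (sn b (k r) + sn b (k' r)) ^ (b - 1) * sn b (k r - k' r))
      (volume.restrict (Icc x y)) := (a4.pow_const (b - 1)).mul a3
  -- Minkowski
  have hMk := ENNReal.lintegral_Lp_add_le (μ := volume.restrict (Icc x y)) (p := b) a1 a2
    (by linarith)
  have b1 : (∫⁻ r in Icc x y, sn b (k r) ^ b) ^ (1 / b) ≤ ENNReal.ofReal σ := (rb hb1 _ _).2 hS
  have b2 : (∫⁻ r in Icc x y, sn b (k' r) ^ b) ^ (1 / b) ≤ ENNReal.ofReal σ := (rb hb1 _ _).2 hS'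
  have b3 : (∫⁻ r in Icc x y, sn b (k r - k' r) ^ b) ^ (1 / b) ≤ ENNReal.ofReal δ :=
    (rb hb1 _ _).2 hSd
  have b4 : (∫⁻ r in Icc x y, (sn b (k r) + sn b (k' r)) ^ b) ^ (1 / b) ≤
      ENNReal.ofReal (2 * σ) := by
    refine hMk.trans ((add_le_add b1 b2).trans (le_of_eq ?_))
    rw [← ENNReal.ofReal_add hσ hσ]
    congr 1
    ring
  have b5 : ∫⁻ r in Icc x y, (sn b (k r) + sn b (k' r)) ^ b ≤ ENNReal.ofReal (2 * σ) ^ b :=
    (rb hb1 _ _).1 b4
  -- Hoelder
  have hH : ∫⁻ r in Icc x y, (sn b (k r) + sn b (k' r)) ^ (b - 1) * sn b (k r - k' r) ≤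
      ENNReal.ofReal (2 * σ) ^ (b - 1) * ENNReal.ofReal δ := by
    have hbne : b - 1 ≠ 0 := by linarith
    have hpq : (b / (b - 1)).HolderConjugate b := by
      rw [Real.holderConjugate_iff]
      constructor
      · rw [lt_div_iff₀ (by linarith)]
        linarith
      · field_simp
        ring
    have h := ENNReal.lintegral_mul_le_Lp_mul_Lq (volume.restrict (Icc x y)) hpq
      (a4.pow_const (b - 1)) a3
    refine h.trans ?_
    have e1 : ∀ z : ℝ≥0∞, (z ^ (b - 1)) ^ (b / (b - 1)) = z ^ b := by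
      intro z
      rw [← ENNReal.rpow_mul]
      congr 1
      field_simp
    simp only [e1]
    refine mul_le_mul' ?_ b3
    have e3 : (1 / (b / (b - 1)) : ℝ) = (1 / b) * (b - 1) := by
      field_simp
    rw [e3, ENNReal.rpow_mul]
    exact pow_mono (by linarith) b4
  have hle : ∫⁻ r in Icc x y, ‖NL b (k r) - NL b (k' r)‖ₑ ≤
      ENNReal.ofReal (C * ((2 * σ) ^ (b - 1) * δ * (2 * B) + (2 * σ) ^ b * δ)) := by
    calc ∫⁻ r in Icc x y, ‖NL b (k r) - NL b (k' r)‖ₑ
        ≤ ∫⁻ r in Icc x y, (ENNReal.ofReal C * ENNReal.ofReal (2 * B)) *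
            ((sn b (k r) + sn b (k' r)) ^ (b - 1) * sn b (k r - k' r)) +
            (ENNReal.ofReal C * ENNReal.ofReal δ) * (sn b (k r) + sn b (k' r)) ^ b := by
          refine lintegral_mono_ae ?_
          filter_upwards [hf, hf', ae_restrict_mem hI] with r h1 h2 h3
          have h4 : ‖k r‖ₑ + ‖k' r‖ₑ ≤ ENNReal.ofReal (2 * B) := by
            rw [two_mul, ENNReal.ofReal_add hB hB]
            refine add_le_add ?_ ?_
            · rw [← ofReal_norm]
              exact ENNReal.ofReal_le_ofReal (hn r h3)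
            · rw [← ofReal_norm]
              exact ENNReal.ofReal_le_ofReal (hn' r h3)
          have h5 : ‖k r - k' r‖ₑ ≤ ENNReal.ofReal δ := by
            rw [← ofReal_norm]
            exact ENNReal.ofReal_le_ofReal (hnd r h3)
          calc ‖NL b (k r) - NL b (k' r)‖ₑ ≤ ENNReal.ofReal C *
                ((sn b (k r) + sn b (k' r)) ^ (b - 1) * sn b (k r - k' r) *
                  (‖k r‖ₑ + ‖k' r‖ₑ) + (sn b (k r) + sn b (k' r)) ^ b * ‖k r - k' r‖ₑ) :=
                hC _ _ h1 h2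
            _ ≤ ENNReal.ofReal C *
                ((sn b (k r) + sn b (k' r)) ^ (b - 1) * sn b (k r - k' r) *
                  ENNReal.ofReal (2 * B) +
                (sn b (k r) + sn b (k' r)) ^ b * ENNReal.ofReal δ) := by
                gcongr
            _ = _ := by ring
      _ = (ENNReal.ofReal C * ENNReal.ofReal (2 * B)) *
            (∫⁻ r in Icc x y, (sn b (k r) + sn b (k' r)) ^ (b - 1) * sn b (k r - k' r)) +
            (ENNReal.ofReal C * ENNReal.ofReal δ) *
              ∫⁻ r in Icc x y, (sn b (k r) + sn b (k' r)) ^ b := by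
          rw [lintegral_add_left' (m1.const_mul _), lintegral_const_mul'' _ m1,
            lintegral_const_mul'' _ (a4.pow_const b)]
      _ ≤ (ENNReal.ofReal C * ENNReal.ofReal (2 * B)) *
            (ENNReal.ofReal (2 * σ) ^ (b - 1) * ENNReal.ofReal δ) +
            (ENNReal.ofReal C * ENNReal.ofReal δ) * ENNReal.ofReal (2 * σ) ^ b := by
          gcongr
      _ = ENNReal.ofReal (C * ((2 * σ) ^ (b - 1) * δ * (2 * B) + (2 * σ) ^ b * δ)) := by
          rw [ENNReal.ofReal_rpow_of_nonneg (by positivity) (by linarith : 0 ≤ b - 1),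
            ENNReal.ofReal_rpow_of_nonneg (by positivity) hb0,
            ← ENNReal.ofReal_mul (by positivity), ← ENNReal.ofReal_mul (by positivity),
            ← ENNReal.ofReal_mul (by positivity), ← ENNReal.ofReal_mul (by positivity),
            ← ENNReal.ofReal_mul (by positivity), ← ENNReal.ofReal_add (by positivity)
              (by positivity)]
          congr 1
          ring
  have hNd : AEStronglyMeasurable (fun r => NL b (k r) - NL b (k' r))
      (volume.restrict (Icc x y)) := hNm.sub hNm'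
  rw [integral_norm_eq_lintegral_enorm hNd]
  exact ENNReal.toReal_le_of_le_ofReal (by positivity) hle

/-- a continuous curve with bounds for the norm and the Strichartz norm -/
structure Gd (b x y B σ : ℝ) (d : ℝ → K) : Prop where
  c : ContinuousOn d (Icc x y)
  n : ∀ t ∈ Icc x y, ‖d t‖ ≤ B
  s : SN b (Icc x y) d ≤ ENNReal.ofReal σ ^ b

theorem Gd.am {b x y B σ : ℝ} {d : ℝ → K} (h : Gd b x y B σ d) :
    AEStronglyMeasurable d (volume.restrict (Icc x y)) :=
  h.c.aestronglyMeasurable measurableSet_Icc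

theorem Gd.mono {b x y B σ B' σ' : ℝ} {d : ℝ → K} (h : Gd b x y B σ d) (hb : 4 < b) (hB : B ≤ B')
    (hσ : σ ≤ σ') : Gd b x y B' σ' d :=
  ⟨h.c, fun t ht => (h.n t ht).trans hB,
    h.s.trans (pow_mono (by linarith) (ENNReal.ofReal_le_ofReal hσ))⟩

theorem Gd.congr {b x y B σ : ℝ} {d d' : ℝ → K} (h : Gd b x y B σ d)
    (he : ∀ t ∈ Icc x y, d' t = d t) : Gd b x y B σ d' := by
  refine ⟨h.c.congr he, fun t ht => ?_, ?_⟩
  · rw [he t ht]
    exact h.n t ht
  · have e : SN b (Icc x y) d' = SN b (Icc x y) d := by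
      unfold SN
      refine setLIntegral_congr_fun measurableSet_Icc fun t ht => ?_
      show sn b (d' t) ^ b = sn b (d t) ^ b
      rw [he t ht]
    rw [e]
    exact h.s

theorem Gd.neg {b x y B σ : ℝ} {d : ℝ → K} (h : Gd b x y B σ d) (hb : 4 < b) (hT : St_SNt) :
    Gd b x y B σ (fun t => - d t) := by
  refine ⟨h.c.neg, fun t ht => ?_, ?_⟩
  · rw [norm_neg]
    exact h.n t ht
  · rw [(hT b hb d d (Icc x y) measurableSet_Icc h.am h.am).2]
    exact h.s

theorem Gd.add {b x y B σ B' σ' : ℝ} {d d' : ℝ → K} (h : Gd b x y B σ d)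
    (h' : Gd b x y B' σ' d') (hb : 4 < b) (hT : St_SNt) (hσ : 0 ≤ σ) (hσ' : 0 ≤ σ') :
    Gd b x y (B + B') (σ + σ') (fun t => d t + d' t) := by
  have hb0 : 0 < b := by linarith
  refine ⟨h.c.add h'.c, fun t ht => ?_, ?_⟩
  · exact (norm_add_le _ _).trans (add_le_add (h.n t ht) (h'.n t ht))
  · rw [← rb hb0]
    refine (hT b hb d d' (Icc x y) measurableSet_Icc h.am h'.am).1.trans ?_
    rw [ENNReal.ofReal_add hσ hσ']
    exact add_le_add ((rb hb0 _ _).2 h.s) ((rb hb0 _ _).2 h'.s)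

/-- limits -/
theorem Gd.lim (hM : St_Meas) (hSnP : St_SnP) {b x y B σ : ℝ} (hb : 4 < b) {e : ℕ → ℝ → K}
    {e' : ℝ → K} (h : ∀ j, Gd b x y B σ (e j))
    (hl : ∀ t ∈ Icc x y, Tendsto (fun j => e j t) atTop (𝓝 (e' t)))
    (hc : ContinuousOn e' (Icc x y)) : Gd b x y B σ e' := by
  have hb0 : 0 ≤ b := by linarith
  refine ⟨hc, fun t ht => ?_, ?_⟩
  · exact le_of_tendsto (hl t ht).norm (Eventually.of_forall fun j => (h j).n t ht)
  · have hlsc : LowerSemicontinuous (fun k : K => sn b k ^ b) := by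
      have h1 := (hSnP b hb).2.2.2.2.2
      exact (ENNReal.continuous_rpow_const (y := b)).comp_lowerSemicontinuous h1
        (fun u v huv => pow_mono hb0 huv)
    have h2 : ∀ t ∈ Icc x y, sn b (e' t) ^ b ≤ liminf (fun j => sn b (e j t) ^ b) atTop := by
      intro t ht
      refine (LowerSemicontinuousAt.le_liminf (hlsc (e' t))).trans ?_
      exact liminf_le_liminf_of_le (hl t ht)
    calc SN b (Icc x y) e' = ∫⁻ t in Icc x y, sn b (e' t) ^ b := rfl
      _ ≤ ∫⁻ t in Icc x y, liminf (fun j => sn b (e j t) ^ b) atTop :=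
          setLIntegral_mono_ae' measurableSet_Icc (Eventually.of_forall h2)
      _ ≤ liminf (fun j => ∫⁻ t in Icc x y, sn b (e j t) ^ b) atTop :=
          lintegral_liminf_le' fun j =>
            (sn_meas hb hM measurableSet_Icc (h j).am).pow_const b
      _ ≤ ENNReal.ofReal σ ^ b := by
          refine liminf_le_of_le (by isBoundedDefault) fun c hc => ?_
          obtain ⟨j, hj⟩ := hc.exists
          exact hj.trans (h j).s

/-- Duhamel integrals -/
theorem duh {b C' : ℝ} (hb : 4 < b) (hC0 : 0 < C')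
    (hD : ∀ (x y t0 : ℝ) (G : ℝ → K), x ≤ t0 → t0 ≤ y →
      IntegrableOn G (Icc x y) volume →
      ContinuousOn (fun t => ∫ r in t0..t, tau (t - r) (G r)) (Icc x y) ∧
      (∀ t ∈ Icc x y, ‖∫ r in t0..t, tau (t - r) (G r)‖ ≤ ∫ r in Icc x y, ‖G r‖) ∧
      SN b (Icc x y) (fun t => ∫ r in t0..t, tau (t - r) (G r)) ≤
        ENNReal.ofReal (C' * ∫ r in Icc x y, ‖G r‖) ^ b)
    {x y t0 m : ℝ} {G : ℝ → K} (h1 : x ≤ t0) (h2 : t0 ≤ y)
    (hG : IntegrableOn G (Icc x y) volume) (hm : ∫ r in Icc x y, ‖G r‖ ≤ m) :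
    Gd b x y m (C' * m) (fun t => ∫ r in t0..t, tau (t - r) (G r)) := by
  obtain ⟨h3, h4, h5⟩ := hD x y t0 G h1 h2 hG
  refine ⟨h3, fun t ht => (h4 t ht).trans hm, h5.trans ?_⟩
  exact pow_mono (by linarith) (ENNReal.ofReal_le_ofReal (mul_le_mul_of_nonneg_left hm hC0.le))

/-- differences of Picard steps -/
theorem pic_sub (hG : St_Grp1) {b x y t0 : ℝ} (k0 : K) {k k' : ℝ → K}
    (h1 : x ≤ t0) (h2 : t0 ≤ y) (hk : IntegrableOn (fun r => NL b (k r)) (Icc x y) volume)
    (hk' : IntegrableOn (fun r => NL b (k' r)) (Icc x y) volume) (t : ℝ) (ht : t ∈ Icc x y) :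
    Pic b k0 t0 k t - Pic b k0 t0 k' t =
      - ∫ r in t0..t, tau (t - r) (NL b (k r) - NL b (k' r)) := by
  have e1 : (fun r => tau (t - r) (NL b (k r) - NL b (k' r))) =
      fun r => tau (t - r) (NL b (k r)) - tau (t - r) (NL b (k' r)) :=
    funext fun r => (tau (t - r)).map_sub _ _
  rw [e1, intervalIntegral.integral_sub (ii_tau hG hk t ⟨h1, h2⟩ ht)
    (ii_tau hG hk' t ⟨h1, h2⟩ ht)]
  unfold Pic
  abel

/-- the small number -/
theorem small {b A C C' η : ℝ} (hb : 4 < b) (hA : 0 < A) (hC : 0 < C) (hC' : 0 < C') (hη : 0 < η)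
    (h : η ≤ 1 / (2 * ((C + 1) * (C' + 1) * (16 * A + 4)))) :
    C * (2 * η) ^ b * (2 * A) ≤ A ∧ C' * (C * (2 * η) ^ b * (2 * A)) ≤ η ∧
    ∀ δ : ℝ, 0 ≤ δ →
      C * ((2 * (2 * η)) ^ (b - 1) * δ * (2 * (2 * A)) + (2 * (2 * η)) ^ b * δ) ≤ δ / 2 ∧
      C' * (C * ((2 * (2 * η)) ^ (b - 1) * δ * (2 * (2 * A)) + (2 * (2 * η)) ^ b * δ)) ≤
        δ / 2 := by
  have hΛ : 0 < (C + 1) * (C' + 1) * (16 * A + 4) := by positivity
  have h1 : (C + 1) * (C' + 1) * (16 * A + 4) * η ≤ 1 / 2 := by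
    rw [le_div_iff₀ (by positivity)] at h
    linarith
  have hCC : 1 ≤ (C + 1) * (C' + 1) := by nlinarith [mul_pos hC hC']
  have h4 : 4 * η ≤ 1 / 2 := by
    have : 4 * η ≤ (C + 1) * (C' + 1) * (16 * A + 4) * η := by
      have h3 : (4 : ℝ) ≤ (C + 1) * (C' + 1) * (16 * A + 4) := by nlinarith
      exact mul_le_mul_of_nonneg_right h3 hη.le
    linarith
  -- powers
  have pw : ∀ (z c e : ℝ), 0 < z → z ≤ 1 → e ≤ c → z ^ c ≤ z ^ e := fun z c e hz hz1 hce =>
    Real.rpow_le_rpow_of_exponent_ge hz hz1 hce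
  have p1 : (2 * (2 * η)) ^ (b - 1) ≤ 4 * η := by
    have := pw (2 * (2 * η)) (b - 1) 1 (by positivity) (by linarith) (by linarith)
    rw [Real.rpow_one] at this
    linarith
  have p2 : (2 * (2 * η)) ^ b ≤ 4 * η := by
    have := pw (2 * (2 * η)) b 1 (by positivity) (by linarith) (by linarith)
    rw [Real.rpow_one] at this
    linarith
  have p3 : (2 * η) ^ b ≤ 4 * η ^ 2 := by
    have := pw (2 * η) b 2 (by positivity) (by linarith) (by linarith)
    rw [Real.rpow_two] at this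
    linarith
  -- `C (16 A + 4) η ≤ 1/2` and the same with `C'`
  have k1 : C * (16 * A + 4) * η ≤ 1 / 2 := by
    refine le_trans ?_ h1
    refine mul_le_mul_of_nonneg_right ?_ hη.le
    refine mul_le_mul_of_nonneg_right ?_ (by positivity)
    nlinarith [mul_pos hC hC']
  have k2 : C' * (C * (16 * A + 4) * η) ≤ 1 / 2 := by
    refine le_trans (le_of_eq ?_) (le_trans (mul_le_mul_of_nonneg_right
      (mul_le_mul_of_nonneg_right (?_ : C * C' ≤ (C + 1) * (C' + 1))
        (by positivity : (0 : ℝ) ≤ 16 * A + 4)) hη.le) h1)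
    · ring
    · nlinarith [mul_pos hC hC']
  have hCη : C * η ≤ 1 / 8 := by nlinarith [mul_pos hC hη, mul_pos (mul_pos hC hA) hη]
  refine ⟨?_, ?_, ?_⟩
  · calc C * (2 * η) ^ b * (2 * A) ≤ C * (4 * η ^ 2) * (2 * A) := by gcongr
      _ = A * (8 * (C * η) * η) := by ring
      _ ≤ A * 1 := by
          refine mul_le_mul_of_nonneg_left ?_ hA.le
          nlinarith [mul_pos hC hη]
      _ = A := mul_one _
  · calc C' * (C * (2 * η) ^ b * (2 * A)) ≤ C' * (C * (4 * η ^ 2) * (2 * A)) := by gcongr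
      _ = η * (C' * (C * (8 * A) * η)) := by ring
      _ ≤ η * 1 := by
          refine mul_le_mul_of_nonneg_left ?_ hη.le
          have h5 : C' * (C * (8 * A) * η) ≤ C' * (C * (16 * A + 4) * η) := by
            have : 8 * A ≤ 16 * A + 4 := by linarith
            gcongr
          linarith
      _ = η := mul_one _
  · intro δ hδ
    have e : C * ((2 * (2 * η)) ^ (b - 1) * δ * (2 * (2 * A)) + (2 * (2 * η)) ^ b * δ) ≤
        C * (16 * A + 4) * η * δ := by
      calc C * ((2 * (2 * η)) ^ (b - 1) * δ * (2 * (2 * A)) + (2 * (2 * η)) ^ b * δ) ≤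
          C * ((4 * η) * δ * (2 * (2 * A)) + (4 * η) * δ) := by gcongr
        _ = C * (16 * A + 4) * η * δ := by ring
    constructor
    · calc _ ≤ C * (16 * A + 4) * η * δ := e
        _ ≤ (1 / 2) * δ := mul_le_mul_of_nonneg_right k1 hδ
        _ = δ / 2 := by ring
    · calc _ ≤ C' * (C * (16 * A + 4) * η * δ) := mul_le_mul_of_nonneg_left e hC'.le
        _ = C' * (C * (16 * A + 4) * η) * δ := by ring
        _ ≤ (1 / 2) * δ := mul_le_mul_of_nonneg_right k2 hδ
        _ = δ / 2 := by ring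

end Locx

open Locx in
/-- **Loc** -/
theorem thm_Loc (hG : St_Grp1) (hSnP : St_SnP) (hN : St_NLb) (hM : St_Meas)
    (hDu : St_DuhI) (hT : St_SNt) : St_Loc := by
  intro b hb
  obtain ⟨⟨C, hC0, hC1, hC2⟩, -⟩ := hN b hb
  obtain ⟨C', hC0', hD'⟩ := hDu b hb
  have hb0 : 0 ≤ b := by linarith
  have hD : ∀ (x y t0 : ℝ) (G : ℝ → K), x ≤ t0 → t0 ≤ y →
      IntegrableOn G (Icc x y) volume →
      ContinuousOn (fun t => ∫ r in t0..t, tau (t - r) (G r)) (Icc x y) ∧
      (∀ t ∈ Icc x y, ‖∫ r in t0..t, tau (t - r) (G r)‖ ≤ ∫ r in Icc x y, ‖G r‖) ∧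
      SN b (Icc x y) (fun t => ∫ r in t0..t, tau (t - r) (G r)) ≤
        ENNReal.ofReal (C' * ∫ r in Icc x y, ‖G r‖) ^ b := by
    intro x y t0 G h1 h2 h3
    obtain ⟨x1, x2, x3, -⟩ := hD' x y t0 G h1 h2 h3
    exact ⟨x1, x2, x3⟩
  obtain ⟨g1, g0, -, -, -, -, -, gc, -⟩ := id hG
  intro A hA
  refine ⟨1 / (2 * ((C + 1) * (C' + 1) * (16 * A + 4))), by positivity, ?_⟩
  intro k0 x y t0 η hk0 hat htb hη hηle hfree
  obtain ⟨sm1, sm2, sm3⟩ := small hb hA hC0 hC0' hη hηle
  have ht0 : t0 ∈ Icc x y := ⟨hat, htb⟩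
  have h2η : 0 ≤ 2 * η := by linarith
  have h2A : 0 ≤ 2 * A := by linarith
  -- the free evolution
  have hfr : Gd b x y A η (fun t => tau (t - t0) k0) := by
    refine ⟨?_, fun t _ => ?_, hfree⟩
    · exact ((gc k0).comp (continuous_id.sub continuous_const)).continuousOn
    · rw [(tau (t - t0)).norm_map]
      exact hk0
  -- one step
  have hstep : ∀ k : ℝ → K, Gd b x y (2 * A) (2 * η) k →
      IntegrableOn (fun r => NL b (k r)) (Icc x y) volume ∧
      Gd b x y A η (fun t => ∫ r in t0..t, tau (t - r) (NL b (k r))) ∧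
      Gd b x y (2 * A) (2 * η) (Pic b k0 t0 k) := by
    intro k hk
    obtain ⟨i1, i2⟩ := Locx.est1 hb hC0 hC1 hM hk.c h2η h2A hk.s hk.n
    have hd := (Locx.duh hb hC0' hD hat htb i1 i2).mono hb sm1 sm2
    refine ⟨i1, hd, ?_⟩
    have h := (Locx.Gd.add hfr (hd.neg hb hT) hb hT hη.le hη.le).mono hb
      (by linarith : A + A ≤ 2 * A) (by linarith : η + η ≤ 2 * η)
    refine h.congr fun t _ => ?_
    show Pic b k0 t0 k t = tau (t - t0) k0 + -∫ r in t0..t, tau (t - r) (NL b (k r))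
    unfold Pic
    rw [sub_eq_add_neg]
  -- differences of steps
  have hdiff : ∀ (k k' : ℝ → K) (δ : ℝ), 0 ≤ δ → Gd b x y (2 * A) (2 * η) k →
      Gd b x y (2 * A) (2 * η) k' → Gd b x y δ δ (fun t => k t - k' t) →
      Gd b x y (δ / 2) (δ / 2) (fun t => Pic b k0 t0 k t - Pic b k0 t0 k' t) := by
    intro k k' δ hδ hk hk' hkk
    have e2 := Locx.est2 hb hC0 hC2 hM hk.c hk'.c h2η h2A hδ hk.s hk.n hk'.s hk'.n hkk.s hkk.n
    obtain ⟨i1, -, -⟩ := hstep k hk
    obtain ⟨i2, -, -⟩ := hstep k' hk'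
    have i3 : IntegrableOn (fun r => NL b (k r) - NL b (k' r)) (Icc x y) volume := i1.sub i2
    have hd := ((Locx.duh hb hC0' hD hat htb i3 e2).mono hb (sm3 δ hδ).1 (sm3 δ hδ).2).neg hb hT
    exact hd.congr fun t ht => Locx.pic_sub hG k0 hat htb i1 i2 t ht
  -- the iterates
  have hX : ∀ n, Gd b x y (2 * A) (2 * η) (PicN b k0 t0 n) := by
    intro n
    induction n with
    | zero => exact hfr.mono hb (by linarith) (by linarith)
    | succ n ih => exact (hstep _ ih).2.2
  obtain ⟨δ, hδ⟩ : ∃ δ : ℝ, δ = A + η := ⟨_, rfl⟩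
  have hδ0 : 0 < δ := by rw [hδ]; linarith
  have hdn : ∀ n, Gd b x y (δ / 2 ^ n) (δ / 2 ^ n)
      (fun t => PicN b k0 t0 (n + 1) t - PicN b k0 t0 n t) := by
    intro n
    induction n with
    | zero =>
      have h := (((hstep _ (hX 0)).2.1).neg hb hT).mono hb (by rw [hδ]; linarith : A ≤ δ)
        (by rw [hδ]; linarith : η ≤ δ)
      rw [pow_zero, div_one]
      refine h.congr fun t _ => ?_
      show Pic b k0 t0 (PicN b k0 t0 0) t - PicN b k0 t0 0 t = _
      unfold Pic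
      show tau (t - t0) k0 - _ - tau (t - t0) k0 = _
      abel
    | succ n ih =>
      have h := hdiff _ _ _ (by positivity) (hX (n + 1)) (hX n) ih
      have e : δ / 2 ^ n / 2 = δ / 2 ^ (n + 1) := by rw [pow_succ]; field_simp
      rw [e] at h
      exact h
  have hdnj : ∀ n j, Gd b x y (2 * δ / 2 ^ n - 2 * δ / 2 ^ (n + 1 + j))
      (2 * δ / 2 ^ n - 2 * δ / 2 ^ (n + 1 + j))
      (fun t => PicN b k0 t0 (n + 1 + j) t - PicN b k0 t0 n t) := by
    intro n j
    induction j with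
    | zero =>
      have e : 2 * δ / 2 ^ n - 2 * δ / 2 ^ (n + 1 + 0) = δ / 2 ^ n := by
        rw [add_zero, pow_succ]
        field_simp
        ring
      rw [e]
      exact hdn n
    | succ j ih =>
      have hpos : 0 ≤ 2 * δ / 2 ^ n - 2 * δ / 2 ^ (n + 1 + j) := by
        rw [sub_nonneg]
        refine div_le_div_of_nonneg_left (by positivity) (by positivity) ?_
        exact pow_le_pow_right₀ one_le_two (by omega)
      have h := Locx.Gd.add ih (hdn (n + 1 + j)) hb hT hpos (by positivity)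
      have e : 2 * δ / 2 ^ n - 2 * δ / 2 ^ (n + 1 + j) + δ / 2 ^ (n + 1 + j) =
          2 * δ / 2 ^ n - 2 * δ / 2 ^ (n + 1 + (j + 1)) := by
        have e1 : (2 : ℝ) ^ (n + 1 + (j + 1)) = 2 ^ (n + 1 + j) * 2 := by
          rw [← add_assoc, pow_succ]
        rw [e1]
        field_simp
        ring
      rw [e] at h
      refine h.congr fun t _ => ?_
      show PicN b k0 t0 (n + 1 + j + 1) t - PicN b k0 t0 n t = _
      abel
  -- the limit
  have hdist : ∀ t ∈ Icc x y, ∀ n, dist (PicN b k0 t0 n t) (PicN b k0 t0 (n + 1) t) ≤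
      2 * δ / 2 / 2 ^ n := by
    intro t ht n
    rw [dist_comm, dist_eq_norm, mul_div_cancel_left₀ _ (two_ne_zero)]
    exact (hdn n).n t ht
  have hex : ∀ t, ∃ l, t ∈ Icc x y → Tendsto (fun n => PicN b k0 t0 n t) atTop (𝓝 l) := by
    intro t
    by_cases ht : t ∈ Icc x y
    · obtain ⟨l, hl⟩ := cauchySeq_tendsto_of_complete
        (cauchySeq_of_le_geometric_two (hdist t ht))
      exact ⟨l, fun _ => hl⟩
    · exact ⟨0, fun h => absurd h ht⟩
  choose k hk using hex
  have hkn : ∀ t ∈ Icc x y, ∀ n, dist (PicN b k0 t0 n t) (k t) ≤ 2 * δ / 2 ^ n := fun t ht n =>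
    dist_le_of_le_geometric_two_of_tendsto (hdist t ht) (hk t ht) n
  have htend : Tendsto (fun n : ℕ => 2 * δ / 2 ^ n) atTop (𝓝 0) := by
    have h := (tendsto_pow_atTop_nhds_zero_of_lt_one (r := (1 / 2 : ℝ)) (by norm_num)
      (by norm_num)).const_mul (2 * δ)
    rw [mul_zero] at h
    refine h.congr fun n => ?_
    rw [div_pow, one_pow]
    ring
  have hunif : TendstoUniformlyOn (fun n t => PicN b k0 t0 n t) k atTop (Icc x y) := by
    rw [Metric.tendstoUniformlyOn_iff]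
    intro ε hε
    filter_upwards [htend.eventually (gt_mem_nhds hε)] with n hn t ht
    rw [dist_comm]
    exact (hkn t ht n).trans_lt hn
  have hkc : ContinuousOn k (Icc x y) :=
    hunif.continuousOn (Eventually.of_forall fun n => (hX n).c).frequently
  have hkX : Gd b x y (2 * A) (2 * η) k := Locx.Gd.lim hM hSnP hb hX hk hkc
  have hkd : ∀ n, Gd b x y (2 * δ / 2 ^ n) (2 * δ / 2 ^ n)
      (fun t => k t - PicN b k0 t0 n t) := by
    intro n
    refine Locx.Gd.lim hM hSnP hb (e := fun j t => PicN b k0 t0 (n + 1 + j) t - PicN b k0 t0 n t)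
      (fun j => (hdnj n j).mono hb (by linarith [show 0 ≤ 2 * δ / 2 ^ (n + 1 + j) by positivity])
        (by linarith [show 0 ≤ 2 * δ / 2 ^ (n + 1 + j) by positivity])) ?_
      (hkc.sub (hX n).c)
    intro t ht
    refine Tendsto.sub_const ?_ _
    have h := (tendsto_add_atTop_iff_nat (n + 1)).2 (hk t ht)
    refine h.congr fun j => ?_
    rw [add_comm]
  -- the fixed point
  have hfix : ∀ t ∈ Icc x y, k t = Pic b k0 t0 k t := by
    intro t ht
    have h1 : Tendsto (fun n => PicN b k0 t0 (n + 1) t) atTop (𝓝 (Pic b k0 t0 k t)) := by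
      rw [tendsto_iff_dist_tendsto_zero]
      refine squeeze_zero (fun n => dist_nonneg) (fun n => ?_) htend
      have h2 := (hdiff k _ _ (by positivity) hkX (hX n) (hkd n)).n t ht
      rw [dist_comm, dist_eq_norm]
      refine h2.trans ?_
      have h3 : 0 ≤ 2 * δ / 2 ^ n := by positivity
      linarith
    exact tendsto_nhds_unique ((tendsto_add_atTop_iff_nat 1).2 (hk t ht)) h1
  have hNi := (hstep k hkX).1
  refine ⟨k, ⟨ordConnected_Icc, hkc, ?_, ?_⟩, ?_, hkX.s, hkX.n, hk⟩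
  · intro a' ha' b' hb'
    refine lt_of_le_of_lt ?_ (hkX.s.trans_lt (Locx.of_lt_top hb0 _))
    exact lintegral_mono_set (Icc_subset_Icc ha'.1 hb'.2)
  · intro s hs t ht
    have e1 := hfix s hs
    have e2 := hfix t ht
    have i1 := ii_tau hG hNi s ht0 hs
    have i2 := ii_tau hG hNi t ht0 hs
    have i3 := ii_tau hG hNi t hs ht
    have e3 : tau (t - s) (∫ r in t0..s, tau (s - r) (NL b (k r))) =
        ∫ r in t0..s, tau (t - r) (NL b (k r)) := by
      have h := (tau (t - s)).toContinuousLinearMap.intervalIntegral_comp_comm i1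
      have h2 : (∫ r in t0..s, (tau (t - s)).toContinuousLinearMap (tau (s - r) (NL b (k r)))) =
          ∫ r in t0..s, tau (t - r) (NL b (k r)) := by
        refine intervalIntegral.integral_congr fun r _ => ?_
        show tau (t - s) (tau (s - r) (NL b (k r))) = _
        rw [g1]
        congr 2
        ring
      rw [h2] at h
      exact h.symm
    have e4 : tau (t - s) (k s) =
        tau (t - t0) k0 - ∫ r in t0..s, tau (t - r) (NL b (k r)) := by
      rw [e1]
      unfold Pic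
      rw [map_sub, e3, g1]
      congr 3
      ring
    have e5 := intervalIntegral.integral_add_adjacent_intervals i2 i3
    rw [e4, e2]
    unfold Pic
    rw [← e5]
    abel
  · rw [hfix t0 ht0]
    unfold Pic
    rw [intervalIntegral.integral_same, sub_self, g0, sub_zero]

end Pool.Agent.QWF
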