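import Pool.Agent.QWF.StB
import Pool.Agent.QWF.Loc
import Pool.Agent.QWF.Grp1

set_option autoImplicit false

/-!
# QWF, ACq: a quadratic form along a Duhamel curve (Lean: helper15; port by helper96)
-/

open MeasureTheory Filter Topology Set
open scoped ENNReal NNReal RealInnerProductSpace

namespace Pool.Agent.QWF

open Pool.Agent.QWF.Locx (tau_cont int_tau ii_tau)

namespace ACqx

/-- local monotonicity implies global monotonicity -/
theorem chain {x y δ : ℝ} (hxy : x ≤ y) (hδ : 0 < δ) {ψ : ℝ → ℝ}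
    (h : ∀ s ∈ Icc x y, ∀ t ∈ Icc x y, s ≤ t → t - s ≤ δ → ψ t ≤ ψ s) : ψ y ≤ ψ x := by
  obtain ⟨n, hn⟩ := exists_nat_gt ((y - x) / δ)
  have h0 : (0 : ℝ) ≤ (y - x) / δ := div_nonneg (by linarith) hδ.le
  have hn0 : (0 : ℝ) < n := h0.trans_lt hn
  have hs : (y - x) / n ≤ δ := by
    rw [div_le_iff₀ hn0]
    rw [div_lt_iff₀ hδ] at hn
    linarith
  have hs0 : 0 ≤ (y - x) / n := div_nonneg (by linarith) hn0.le
  have hmem : ∀ j : ℕ, j ≤ n → x + j * ((y - x) / n) ∈ Icc x y := by
    intro j hj
    have hj' : (j : ℝ) ≤ n := by exact_mod_cast hj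
    constructor
    · have : 0 ≤ (j : ℝ) * ((y - x) / n) := by positivity
      linarith
    · have : (j : ℝ) * ((y - x) / n) ≤ n * ((y - x) / n) :=
        mul_le_mul_of_nonneg_right hj' hs0
      have h2 : (n : ℝ) * ((y - x) / n) = y - x := by field_simp
      linarith
  have key : ∀ j : ℕ, j ≤ n → ψ (x + j * ((y - x) / n)) ≤ ψ x := by
    intro j
    induction j with
    | zero => intro _; simp
    | succ j ih =>
      intro hj
      have hj' : j ≤ n := by omega
      refine le_trans ?_ (ih hj')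
      refine h _ (hmem j hj') _ (hmem (j + 1) hj) ?_ ?_
      · push_cast
        nlinarith
      · push_cast
        nlinarith
  have h2 := key n le_rfl
  have h3 : x + (n : ℝ) * ((y - x) / n) = y := by
    field_simp
    ring
  rwa [h3] at h2

/-- strong continuity of the flow is uniform on compact sets -/
theorem unif {Q : Set K} (hQ : IsCompact Q) {η : ℝ} (hη : 0 < η) :
    ∃ δ > 0, ∀ u : ℝ, |u| < δ → ∀ w ∈ Q, ‖tau u w - w‖ < η := by
  have hc : Continuous fun p : ℝ × K => ‖tau p.1 p.2 - p.2‖ :=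
    ((tau_cont Pool.Agent.QWF.thm_Grp1).sub continuous_snd).norm
  have ho : IsOpen {p : ℝ × K | ‖tau p.1 p.2 - p.2‖ < η} := isOpen_lt hc continuous_const
  have hs : ({0} : Set ℝ) ×ˢ Q ⊆ {p : ℝ × K | ‖tau p.1 p.2 - p.2‖ < η} := by
    rintro ⟨u, w⟩ ⟨hu, -⟩
    have hu' : u = 0 := hu
    subst hu'
    show ‖tau (0 : ℝ) w - w‖ < η
    rw [Pool.Agent.QWF.Grp1x.tau_zero w, sub_self, norm_zero]
    exact hη
  obtain ⟨A, B, hA, hB, h0, hQB, hAB⟩ := generalized_tube_lemma (s := ({0} : Set ℝ)) (t := Q)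
    isCompact_singleton hQ ho hs
  have h1 : A ∈ 𝓝 (0 : ℝ) := hA.mem_nhds (h0 (mem_singleton _))
  obtain ⟨δ, hδ, h2⟩ := Metric.mem_nhds_iff.1 h1
  refine ⟨δ, hδ, fun u hu w hw => ?_⟩
  have h3 : u ∈ A := h2 (by rw [Metric.mem_ball, Real.dist_eq, sub_zero]; exact hu)
  have h4 : ((u, w) : ℝ × K) ∈ {p : ℝ × K | ‖tau p.1 p.2 - p.2‖ < η} :=
    hAB (mk_mem_prod h3 (hQB hw))
  exact h4

/-- Riesz representation of the form -/
noncomputable def rz (Bf : K →L[ℝ] K →L[ℝ] ℝ) (w : K) : K :=
  (InnerProductSpace.toDual ℝ K).symm (Bf w)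

theorem rz_inner (Bf : K →L[ℝ] K →L[ℝ] ℝ) (w w' : K) : inner ℝ (rz Bf w) w' = Bf w w' :=
  InnerProductSpace.toDual_symm_apply

theorem rz_cont (Bf : K →L[ℝ] K →L[ℝ] ℝ) : Continuous (rz Bf) :=
  (InnerProductSpace.toDual ℝ K).symm.continuous.comp Bf.continuous

/-- integrability of the right side -/
theorem ii_form (Bf : K →L[ℝ] K →L[ℝ] ℝ) {x y : ℝ} {e g : ℝ → K}
    (he : ContinuousOn e (Icc x y)) (hg : IntegrableOn g (Icc x y) volume) :
    IntegrableOn (fun r => Bf (e r) (g r)) (Icc x y) volume := by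
  obtain ⟨M, hM⟩ : ∃ M, ∀ r ∈ Icc x y, ‖e r‖ ≤ M := by
    obtain ⟨M, hM⟩ := (isCompact_Icc.image_of_continuousOn he).isBounded.exists_norm_le
    exact ⟨M, fun r hr => hM _ (mem_image_of_mem e hr)⟩
  have hm : AEStronglyMeasurable (fun r => Bf (e r) (g r)) (volume.restrict (Icc x y)) := by
    have h1 : AEStronglyMeasurable e (volume.restrict (Icc x y)) :=
      he.aestronglyMeasurable measurableSet_Icc
    have h2 : AEStronglyMeasurable (fun r => (e r, g r)) (volume.restrict (Icc x y)) :=
      h1.prodMk hg.1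
    have hc : Continuous fun p : K × K => Bf p.1 p.2 := by fun_prop
    exact hc.comp_aestronglyMeasurable h2
  refine Integrable.mono' (hg.norm.const_mul (‖Bf‖ * M)) hm ?_
  filter_upwards [ae_restrict_mem measurableSet_Icc] with r hr
  calc ‖Bf (e r) (g r)‖ ≤ ‖Bf‖ * ‖e r‖ * ‖g r‖ := Bf.le_opNorm₂ _ _
    _ ≤ ‖Bf‖ * M * ‖g r‖ := by
        have := hM r hr
        gcongr

end ACqx

open ACqx in
theorem thm_ACq : St_ACq := by
  intro Bf x y e g hxy hsym hmono he hg hduh
  have hG := Pool.Agent.QWF.thm_Grp1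
  have hform := ii_form Bf he hg
  have hgn : IntegrableOn (fun r => ‖g r‖) (Icc x y) volume := hg.norm
  have iiF : ∀ s ∈ Icc x y, ∀ t ∈ Icc x y,
      IntervalIntegrable (fun r => Bf (e r) (g r)) volume s t := fun s hs t ht =>
    (hform.mono_set (uIcc_subset_Icc hs ht)).intervalIntegrable
  have iiN : ∀ s ∈ Icc x y, ∀ t ∈ Icc x y,
      IntervalIntegrable (fun r => ‖g r‖) volume s t := fun s hs t ht =>
    (hgn.mono_set (uIcc_subset_Icc hs ht)).intervalIntegrable
  have hx : x ∈ Icc x y := left_mem_Icc.2 hxy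
  have hy : y ∈ Icc x y := right_mem_Icc.2 hxy
  -- the approximate inequality
  have main : ∀ η : ℝ, 0 < η → Bf (e y) (e y) - Bf (e x) (e x) ≤
      - 2 * (∫ r in x..y, Bf (e r) (g r)) + (4 + ‖Bf‖) * η * ∫ r in x..y, ‖g r‖ := by
    intro η hη
    have hte : ContinuousOn (fun r => rz Bf (e r)) (Icc x y) :=
      (rz_cont Bf).comp_continuousOn he
    obtain ⟨δ1, hδ1, h1⟩ := unif (isCompact_Icc.image_of_continuousOn hte) hη
    have huc := isCompact_Icc.uniformContinuousOn_of_continuous hte
    rw [Metric.uniformContinuousOn_iff] at huc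
    obtain ⟨δ2, hδ2, h2⟩ := huc η hη
    have hprim : ContinuousOn (fun t => ∫ r in x..t, ‖g r‖) (Icc x y) := by
      have h := intervalIntegral.continuousOn_primitive_interval (μ := volume)
        (f := fun r => ‖g r‖) (a := x) (b := y) (by rwa [uIcc_of_le hxy])
      rwa [uIcc_of_le hxy] at h
    have hup := isCompact_Icc.uniformContinuousOn_of_continuous hprim
    rw [Metric.uniformContinuousOn_iff] at hup
    obtain ⟨δ3, hδ3, h3⟩ := hup η hη
    have hδ : 0 < min δ1 (min δ2 δ3) / 2 := by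
      have : 0 < min δ1 (min δ2 δ3) := lt_min hδ1 (lt_min hδ2 hδ3)
      linarith
    have hδl1 : min δ1 (min δ2 δ3) / 2 < δ1 := by
      have : 0 < min δ1 (min δ2 δ3) := lt_min hδ1 (lt_min hδ2 hδ3)
      have := min_le_left δ1 (min δ2 δ3)
      linarith
    have hδl2 : min δ1 (min δ2 δ3) / 2 < δ2 := by
      have : 0 < min δ1 (min δ2 δ3) := lt_min hδ1 (lt_min hδ2 hδ3)
      have := (min_le_right δ1 (min δ2 δ3)).trans (min_le_left δ2 δ3)
      linarith
    have hδl3 : min δ1 (min δ2 δ3) / 2 < δ3 := by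
      have : 0 < min δ1 (min δ2 δ3) := lt_min hδ1 (lt_min hδ2 hδ3)
      have := (min_le_right δ1 (min δ2 δ3)).trans (min_le_right δ2 δ3)
      linarith
    have hch := chain (ψ := fun t => Bf (e t) (e t) + 2 * (∫ r in x..t, Bf (e r) (g r)) -
      (4 + ‖Bf‖) * η * ∫ r in x..t, ‖g r‖) hxy hδ ?_
    · simp only [intervalIntegral.integral_same, mul_zero, add_zero, sub_zero] at hch
      linarith
    · intro s hs t ht hst hd
      have hN0 : 0 ≤ ∫ r in s..t, ‖g r‖ :=
        intervalIntegral.integral_nonneg hst fun r _ => norm_nonneg _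
      have hadd1 := intervalIntegral.integral_add_adjacent_intervals (iiF x hx s hs)
        (iiF s hs t ht)
      have hadd2 := intervalIntegral.integral_add_adjacent_intervals (iiN x hx s hs)
        (iiN s hs t ht)
      have hNη : (∫ r in s..t, ‖g r‖) ≤ η := by
        have h4 := h3 t ht s hs (by
          rw [Real.dist_eq, abs_of_nonneg (by linarith)]; linarith)
        rw [Real.dist_eq] at h4
        have h5 := (abs_lt.1 h4).2
        linarith
      set G : K := ∫ r in s..t, tau (s - r) (g r) with hGd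
      have hiiG := ii_tau hG hg s hs ht
      -- the step of the flow
      have e1 : e t = tau (t - s) (e s - G) := by
        rw [hduh s hs t ht, map_sub]
        congr 1
        have e2 : ∀ r, tau (t - r) (g r) = (tau (t - s)).toContinuousLinearMap
            (tau (s - r) (g r)) := by
          intro r
          show tau (t - r) (g r) = tau (t - s) (tau (s - r) (g r))
          rw [Pool.Agent.QWF.Grp1x.tau_tau]
          congr 2
          ring
        simp only [e2]
        rw [ContinuousLinearMap.intervalIntegral_comp_comm _ hiiG]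
        rfl
      have e3 : Bf (e t) (e t) ≤ Bf (e s) (e s) - 2 * Bf (e s) G + Bf G G := by
        rw [e1]
        refine (hmono (e s - G) (t - s) (by linarith)).trans (le_of_eq ?_)
        rw [map_sub (Bf (e s - G)), hsym (e s - G) (e s), hsym (e s - G) G, map_sub, map_sub,
          hsym G (e s)]
        ring
      have e4 : ‖G‖ ≤ ∫ r in s..t, ‖g r‖ := by
        rw [hGd]
        refine (intervalIntegral.norm_integral_le_integral_norm hst).trans (le_of_eq ?_)
        congr 1
        funext r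
        exact (tau (s - r)).norm_map _
      have e5 : Bf G G ≤ ‖Bf‖ * η * ∫ r in s..t, ‖g r‖ := by
        calc Bf G G ≤ ‖Bf G G‖ := le_abs_self _
          _ ≤ ‖Bf‖ * ‖G‖ * ‖G‖ := Bf.le_opNorm₂ _ _
          _ ≤ ‖Bf‖ * η * ∫ r in s..t, ‖g r‖ := by
              have h6 := e4.trans hNη
              gcongr
      have e6 : Bf (e s) G = ∫ r in s..t, Bf (e s) (tau (s - r) (g r)) := by
        rw [hGd, ← ContinuousLinearMap.intervalIntegral_comp_comm (Bf (e s)) hiiG]
      have hiiB : IntervalIntegrable (fun r => Bf (e s) (tau (s - r) (g r))) volume s t := by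
        have h6 := (Bf (e s)).integrable_comp hiiG.1
        have h7 := (Bf (e s)).integrable_comp hiiG.2
        exact ⟨h6, h7⟩
      have e7 : (∫ r in s..t, Bf (e r) (g r)) - Bf (e s) G ≤ 2 * η * ∫ r in s..t, ‖g r‖ := by
        rw [e6, ← intervalIntegral.integral_sub (iiF s hs t ht) hiiB,
          ← intervalIntegral.integral_const_mul]
        refine intervalIntegral.integral_mono_on hst ((iiF s hs t ht).sub hiiB)
          ((iiN s hs t ht).const_mul _) fun r hr => ?_
        have hr' : r ∈ Icc x y := ⟨hs.1.trans hr.1, hr.2.trans ht.2⟩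
        have h8 : Bf (e r) (g r) - Bf (e s) (tau (s - r) (g r)) =
            inner ℝ ((rz Bf (e r) - rz Bf (e s)) -
              (tau (r - s) (rz Bf (e s)) - rz Bf (e s))) (g r) := by
          rw [inner_sub_left, inner_sub_left, inner_sub_left, rz_inner, rz_inner,
            Pool.Agent.QWF.Grp1x.inner_tau, rz_inner]
          have : -(r - s) = s - r := by ring
          rw [this]
          ring
        rw [h8]
        have h9 : ‖tau (r - s) (rz Bf (e s)) - rz Bf (e s)‖ < η :=
          h1 (r - s) (by rw [abs_of_nonneg (by linarith [hr.1])]; linarith [hr.2]) _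
            (mem_image_of_mem _ hs)
        have h10 : ‖rz Bf (e r) - rz Bf (e s)‖ < η := by
          have := h2 r hr' s hs (by
            rw [Real.dist_eq, abs_of_nonneg (by linarith [hr.1])]; linarith [hr.2])
          rwa [dist_eq_norm] at this
        calc inner ℝ ((rz Bf (e r) - rz Bf (e s)) -
              (tau (r - s) (rz Bf (e s)) - rz Bf (e s))) (g r)
            ≤ ‖(rz Bf (e r) - rz Bf (e s)) -
              (tau (r - s) (rz Bf (e s)) - rz Bf (e s))‖ * ‖g r‖ := real_inner_le_norm _ _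
          _ ≤ 2 * η * ‖g r‖ := by
              refine mul_le_mul_of_nonneg_right ?_ (norm_nonneg _)
              refine (norm_sub_le _ _).trans ?_
              linarith
      show Bf (e t) (e t) + 2 * (∫ r in x..t, Bf (e r) (g r)) -
        (4 + ‖Bf‖) * η * (∫ r in x..t, ‖g r‖) ≤ Bf (e s) (e s) +
        2 * (∫ r in x..s, Bf (e r) (g r)) - (4 + ‖Bf‖) * η * ∫ r in x..s, ‖g r‖
      rw [← hadd1, ← hadd2]
      nlinarith
  -- the limit
  refine le_of_forall_pos_le_add fun ε hε => ?_
  set N := ∫ r in x..y, ‖g r‖ with hN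
  have hN0 : 0 ≤ N := intervalIntegral.integral_nonneg hxy fun r _ => norm_nonneg _
  have hB : 0 < (4 + ‖Bf‖) * (N + 1) := by positivity
  have h := main (ε / ((4 + ‖Bf‖) * (N + 1))) (by positivity)
  refine h.trans (add_le_add_right ?_ _)
  have h2 : (4 + ‖Bf‖) * (ε / ((4 + ‖Bf‖) * (N + 1))) * N = ε * (N / (N + 1)) := by
    field_simp
  rw [h2]
  have h3 : N / (N + 1) ≤ 1 := by
    rw [div_le_one (by linarith)]
    linarith
  nlinarith

end Pool.Agent.QWF
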