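import Pool.Agent.QWF.StA

/-!
# QWF, helper lemmas for FldP, ActP (test functions, weak derivatives)
-/

set_option autoImplicit false

open MeasureTheory Filter Topology Set
open scoped ENNReal NNReal RealInnerProductSpace ContDiff Pointwise

namespace Pool.Agent.QWF.Linx

lemma test_sch {φ : E → ℝ} (h : IsTest φ) : IsSch φ :=
  ⟨h.2.toSchwartzMap h.1, fun _ => rfl⟩

lemma test_pd {φ : E → ℝ} (h : IsTest φ) (i : Fin 4) : IsTest (pd i φ) := by
  refine ⟨?_, ?_⟩
  · unfold pd
    have h1 : ContDiff ℝ ∞ (fderiv ℝ φ) := h.1.fderiv_right (by norm_cast)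
    exact h1.clm_apply contDiff_const
  · unfold pd
    have h1 : HasCompactSupport (fderiv ℝ φ) := h.2.fderiv ℝ
    exact h1.comp_left (g := fun L : E →L[ℝ] ℝ => L (EuclideanSpace.single i (1 : ℝ))) rfl

lemma test_lap {φ : E → ℝ} (h : IsTest φ) : IsTest (lap φ) := by
  have h1 : ∀ i : Fin 4, IsTest (pd i (pd i φ)) := fun i => test_pd (test_pd h i) i
  refine ⟨?_, ?_⟩
  · unfold lap
    exact ContDiff.sum fun i _ => (h1 i).1
  · have h2 : ∀ s : Finset (Fin 4), HasCompactSupport (fun x => ∑ i ∈ s, pd i (pd i φ) x) := by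
      intro s
      induction s using Finset.induction_on with
      | empty =>
        simp only [Finset.sum_empty]
        exact HasCompactSupport.zero
      | insert a s ha ih =>
        simp only [Finset.sum_insert ha]
        exact (h1 a).2.add ih
    exact h2 Finset.univ

lemma int_mul {f φ : E → ℝ} (hf : LocallyIntegrable f volume) (hφ : IsTest φ) :
    Integrable (fun x => f x * φ x) volume := by
  have h := hf.integrable_smul_left_of_hasCompactSupport hφ.1.continuous hφ.2
  refine h.congr (Eventually.of_forall fun x => ?_)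
  simp only [smul_eq_mul]
  ring

lemma ae_lin {f f1 f2 : E → ℝ} {c : ℝ} (h : LocallyIntegrable f volume)
    (h1 : LocallyIntegrable f1 volume) (h2 : LocallyIntegrable f2 volume)
    (H : ∀ φ, IsTest φ → ∫ x, f x * φ x = (∫ x, f1 x * φ x) + c * ∫ x, f2 x * φ x) :
    f =ᵐ[volume] fun x => f1 x + c * f2 x := by
  have h2' : LocallyIntegrable (fun x => c * f2 x) volume := by
    have := h2.smul c
    exact this
  have h3 : LocallyIntegrable (fun x => f x - (f1 x + c * f2 x)) volume := h.sub (h1.add h2')
  have h4 := ae_eq_zero_of_integral_contDiff_smul_eq_zero h3 (fun g hg1 hg2 => by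
    have hg : IsTest g := ⟨hg1, hg2⟩
    have e1 : (fun x => g x • (f x - (f1 x + c * f2 x))) =
        fun x => f x * g x - (f1 x * g x + c * (f2 x * g x)) := by
      funext x
      simp only [smul_eq_mul]
      ring
    have i2 : Integrable (fun x => f1 x * g x + c * (f2 x * g x)) volume :=
      (int_mul h1 hg).add ((int_mul h2 hg).const_mul c)
    rw [e1, integral_sub (int_mul h hg) i2,
      integral_add (int_mul h1 hg) ((int_mul h2 hg).const_mul c), integral_const_mul, H g hg]
    ring)
  filter_upwards [h4] with x hx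
  linarith

lemma wd_lin {f f1 f2 g g1 g2 : E → ℝ} {c : ℝ} {i : Fin 4}
    (hf1 : LocallyIntegrable f1 volume) (hf2 : LocallyIntegrable f2 volume)
    (hg : LocallyIntegrable g volume) (hg1 : LocallyIntegrable g1 volume)
    (hg2 : LocallyIntegrable g2 volume) (w : WD i f g) (w1 : WD i f1 g1) (w2 : WD i f2 g2)
    (hl : f =ᵐ[volume] fun x => f1 x + c * f2 x) :
    g =ᵐ[volume] fun x => g1 x + c * g2 x := by
  refine ae_lin hg hg1 hg2 fun φ hφ => ?_
  have hp := test_pd hφ i
  have e1 : ∫ x, f x * pd i φ x = (∫ x, f1 x * pd i φ x) + c * ∫ x, f2 x * pd i φ x := by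
    have e2 : ∫ x, f x * pd i φ x = ∫ x, (f1 x * pd i φ x + c * (f2 x * pd i φ x)) := by
      apply integral_congr_ae
      filter_upwards [hl] with x hx
      rw [hx]
      ring
    rw [e2, integral_add (int_mul hf1 hp) ((int_mul hf2 hp).const_mul c), integral_const_mul]
  have a1 := w φ hφ
  have a2 := w1 φ hφ
  have a3 := w2 φ hφ
  rw [e1, a2, a3] at a1
  linarith

lemma wd_test {f : E → ℝ} (hf : IsTest f) (i : Fin 4) : WD i f (pd i f) := by
  intro φ hφ
  have hp := test_pd hf i
  have hq := test_pd hφ i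
  unfold pd
  refine integral_mul_fderiv_eq_neg_fderiv_mul_of_integrable ?_ ?_ ?_ ?_ ?_
  · exact int_mul (hp.1.continuous.locallyIntegrable) hφ
  · exact int_mul (hf.1.continuous.locallyIntegrable) hq
  · exact int_mul (hf.1.continuous.locallyIntegrable) hφ
  · intro x _
    exact (hf.1.differentiable (by simp)).differentiableAt
  · intro x _
    exact (hφ.1.differentiable (by simp)).differentiableAt

lemma wd_zero (i : Fin 4) : WD i (fun _ => (0 : ℝ)) (fun _ => (0 : ℝ)) := by
  intro φ _
  simp

lemma li_zero : LocallyIntegrable (fun _ : E => (0 : ℝ)) volume :=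
  (continuous_const (y := (0 : ℝ))).locallyIntegrable

lemma wd_eq {f F g G : E → ℝ} {i : Fin 4} (hF : LocallyIntegrable F volume)
    (hg : LocallyIntegrable g volume) (hG : LocallyIntegrable G volume)
    (w : WD i f g) (W : WD i F G) (hl : f =ᵐ[volume] F) : g =ᵐ[volume] G := by
  have h := wd_lin (c := 0) (f2 := fun _ => 0) (g2 := fun _ => 0) hF li_zero hg hG li_zero w W
    (wd_zero i) (by
      filter_upwards [hl] with x hx
      rw [hx]
      ring)
  filter_upwards [h] with x hx
  rw [hx]
  ring

lemma ae_uniq {f F : E → ℝ} (hf : LocallyIntegrable f volume) (hF : LocallyIntegrable F volume)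
    (H : ∀ φ, IsTest φ → ∫ x, f x * φ x = ∫ x, F x * φ x) : f =ᵐ[volume] F := by
  have h := ae_lin (c := 0) (f2 := fun _ => 0) hf hF li_zero (fun φ hφ => by
    rw [H φ hφ]
    ring)
  filter_upwards [h] with x hx
  rw [hx]
  ring

end Pool.Agent.QWF.Linx

namespace Pool.Agent.QWF.Fldx

open Linx

lemma int_mul' {f g : E → ℝ} (hf : IsTest f) (hg : IsTest g) :
    Integrable (fun x => f x * g x) (volume : Measure E) :=
  (hf.1.continuous.mul hg.1.continuous).integrable_of_hasCompactSupport hf.2.mul_right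

lemma ibp (i : Fin 4) {f g : E → ℝ} (hf : IsTest f) (hg : IsTest g) :
    ∫ x, f x * pd i g x = - ∫ x, pd i f x * g x := wd_test hf i g hg

lemma ibp_lap {f g : E → ℝ} (hf : IsTest f) (hg : IsTest g) :
    ∫ x, f x * lap g x = - ∑ i, ∫ x, pd i f x * pd i g x := by
  have h1 : ∫ x, f x * lap g x = ∑ i, ∫ x, f x * pd i (pd i g) x := by
    rw [← integral_finsetSum _ fun i _ => int_mul' hf (test_pd (test_pd hg i) i)]
    refine integral_congr_ae (Eventually.of_forall fun x => ?_)
    simp only [lap, Finset.mul_sum]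
  rw [h1, ← Finset.sum_neg_distrib]
  exact Finset.sum_congr rfl fun i _ => ibp i hf (test_pd hg i)

lemma ibp_lap2 {f g : E → ℝ} (hf : IsTest f) (hg : IsTest g) :
    ∫ x, f x * lap (lap g) x = ∫ x, lap f x * lap g x := by
  have h1 := ibp_lap hf (test_lap hg)
  have h2 := ibp_lap (test_lap hg) hf
  have h3 : ∫ x, lap f x * lap g x = ∫ x, lap g x * lap f x :=
    integral_congr_ae (Eventually.of_forall fun x => mul_comm _ _)
  rw [h1, h3, h2]
  congr 1
  refine Finset.sum_congr rfl fun i _ => ?_
  exact integral_congr_ae (Eventually.of_forall fun x => mul_comm _ _)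

lemma c0_pos : 0 < c0 := by unfold c0; positivity

lemma memLp_test {f : E → ℝ} (hf : IsTest f) (p : ℝ≥0∞) : MemLp f p (volume : Measure E) :=
  hf.1.continuous.memLp_of_hasCompactSupport hf.2

lemma test_sub {f g : E → ℝ} (hf : IsTest f) (hg : IsTest g) :
    IsTest (fun x => f x - g x) := ⟨hf.1.sub hg.1, hf.2.sub hg.2⟩

/-- pairing with a test function is continuous on `L^p` -/
lemma pair_cont (p : ℝ≥0∞) (hp : 1 ≤ p) {φ : E → ℝ} (hφ : IsTest φ) :
    ∃ D : ℝ, ∀ u : E → ℝ, MemLp u p volume → |∫ x, u x * φ x| ≤ D * (eLpNorm u p volume).toReal := by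
  obtain ⟨B, hB⟩ := hφ.1.continuous.bounded_above_of_compact_support hφ.2
  have hB0 : 0 ≤ B := (norm_nonneg _).trans (hB 0)
  set A : Set E := tsupport φ with hA
  have hAm : MeasurableSet A := (isClosed_tsupport φ).measurableSet
  have hAf : volume A ≠ ⊤ := hφ.2.isCompact.measure_lt_top.ne
  set e : ℝ := 1 / (1 : ℝ≥0∞).toReal - 1 / p.toReal with he
  have he0 : 0 ≤ e := by
    rw [he, ENNReal.toReal_one, div_one, sub_nonneg]
    by_cases hpt : p = ⊤
    · rw [hpt]; simp
    · have : 1 ≤ p.toReal := by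
        rw [← ENNReal.toReal_one]
        exact (ENNReal.toReal_le_toReal ENNReal.one_ne_top hpt).2 hp
      rw [div_le_one (by linarith)]
      exact this
  refine ⟨B * ((volume A) ^ e).toReal, fun u hu => ?_⟩
  have h1 : ‖∫ x, u x * φ x‖ₑ ≤ ENNReal.ofReal B * (eLpNorm u p volume * (volume A) ^ e) := by
    calc ‖∫ x, u x * φ x‖ₑ ≤ ∫⁻ x, ‖u x * φ x‖ₑ := enorm_integral_le_lintegral_enorm _
      _ ≤ ∫⁻ x, A.indicator (fun x => ENNReal.ofReal B * ‖u x‖ₑ) x := by
          apply lintegral_mono
          intro x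
          by_cases hx : x ∈ A
          · rw [indicator_of_mem hx]
            simp only [enorm_mul]
            rw [mul_comm]
            gcongr
            rw [← ofReal_norm]
            exact ENNReal.ofReal_le_ofReal (hB x)
          · rw [indicator_of_notMem hx]
            change ‖u x * φ x‖ₑ ≤ 0
            have h0 : φ x = 0 := image_eq_zero_of_notMem_tsupport hx
            simp [h0]
      _ = ENNReal.ofReal B * ∫⁻ x in A, ‖u x‖ₑ := by
          rw [lintegral_indicator hAm, lintegral_const_mul' _ _ ENNReal.ofReal_ne_top]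
      _ ≤ ENNReal.ofReal B * (eLpNorm u p volume * (volume A) ^ e) := by
          gcongr
          rw [← eLpNorm_one_eq_lintegral_enorm]
          have h := eLpNorm_le_eLpNorm_mul_rpow_measure_univ (μ := (volume : Measure E).restrict A)
            (p := 1) (q := p) (f := u) hp hu.1.restrict
          rw [Measure.restrict_apply_univ] at h
          exact h.trans (mul_le_mul_left (eLpNorm_mono_measure _ Measure.restrict_le_self) _)
  have h2 : ENNReal.ofReal B * (eLpNorm u p volume * (volume A) ^ e) ≠ ⊤ :=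
    ENNReal.mul_ne_top ENNReal.ofReal_ne_top
      (ENNReal.mul_ne_top hu.2.ne (ENNReal.rpow_ne_top_of_nonneg he0 hAf))
  have h3 := (ENNReal.toReal_le_toReal enorm_ne_top h2).2 h1
  rw [toReal_enorm, Real.norm_eq_abs, ENNReal.toReal_mul, ENNReal.toReal_mul,
    ENNReal.toReal_ofReal hB0] at h3
  linarith


end Pool.Agent.QWF.Fldx
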