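import Pool.Agent.QWF.StM
import Pool.Agent.QWF.Moll

set_option autoImplicit false

/-!
# QWF, ApW: approximation of functions with weak derivatives by test functions
-/

open MeasureTheory Filter Topology Set
open scoped ENNReal NNReal RealInnerProductSpace ContDiff

namespace Pool.Agent.QWF

namespace ApWx

open Pool.Agent.QWF.Moll

lemma hoel (p q : ℝ≥0∞) {r : ℝ≥0∞} (h : ENNReal.HolderTriple p q r) {f g : E → ℝ}
    (hf : AEStronglyMeasurable f volume) (hg : AEStronglyMeasurable g volume) :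
    eLpNorm (fun x => f x * g x) r volume ≤ eLpNorm f p volume * eLpNorm g q volume :=
  eLpNorm_smul_le_mul_eLpNorm (f := g) (φ := f) hg hf

/-! ### sequences tending to zero in `L^p` -/

/-- null sequence in `L^p` -/
def Z (p : ℝ≥0∞) (F : ℕ → E → ℝ) : Prop :=
  (∀ n, AEStronglyMeasurable (F n) volume) ∧ Tendsto (fun n => eLpNorm (F n) p volume) atTop (𝓝 0)

lemma Z.congr {p : ℝ≥0∞} {F G : ℕ → E → ℝ} (hF : Z p F) (h : ∀ n, F n = G n) : Z p G := by
  have : F = G := funext h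
  rwa [← this]

lemma Z.of_le {p : ℝ≥0∞} {F : ℕ → E → ℝ} {b : ℕ → ℝ≥0∞} (hm : ∀ n, AEStronglyMeasurable (F n) volume)
    (h : ∀ n, eLpNorm (F n) p volume ≤ b n) (hb : Tendsto b atTop (𝓝 0)) : Z p F :=
  ⟨hm, tendsto_of_tendsto_of_tendsto_of_le_of_le tendsto_const_nhds hb (fun _ => bot_le) h⟩

lemma Z.add {p : ℝ≥0∞} (hp : 1 ≤ p) {F G : ℕ → E → ℝ} (hF : Z p F) (hG : Z p G) :
    Z p (fun n x => F n x + G n x) := by
  refine Z.of_le (fun n => (hF.1 n).add (hG.1 n))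
    (fun n => eLpNorm_add_le (hF.1 n) (hG.1 n) hp) ?_
  simpa using hF.2.add hG.2

lemma Z.bdd {p : ℝ≥0∞} {F c : ℕ → E → ℝ} {B : ℝ} (hF : Z p F)
    (hc : ∀ n, AEStronglyMeasurable (c n) volume) (hB : ∀ n x, |c n x| ≤ B) :
    Z p (fun n x => c n x * F n x) := by
  refine Z.of_le (fun n => (hc n).mul (hF.1 n))
    (b := fun n => ENNReal.ofReal B * eLpNorm (F n) p volume) (fun n => ?_) ?_
  · refine eLpNorm_le_mul_eLpNorm_of_ae_le_mul (Eventually.of_forall fun x => ?_) p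
    rw [norm_mul]
    gcongr
    exact hB n x
  · have h := ENNReal.Tendsto.const_mul hF.2 (a := ENNReal.ofReal B) (Or.inr ENNReal.ofReal_ne_top)
    rwa [mul_zero] at h

lemma one_div_zero : Tendsto (fun n : ℕ => ENNReal.ofReal (1 / ((n : ℝ) + 1))) atTop (𝓝 0) := by
  have h := ENNReal.tendsto_ofReal (tendsto_one_div_add_atTop_nhds_zero_nat (𝕜 := ℝ))
  rwa [ENNReal.ofReal_zero] at h

lemma Z.small {p : ℝ≥0∞} {c F : ℕ → E → ℝ} {B : ℝ} {A : ℝ≥0∞} (hA : A ≠ ⊤)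
    (hc : ∀ n, AEStronglyMeasurable (c n) volume) (hF : ∀ n, AEStronglyMeasurable (F n) volume)
    (hB : ∀ n x, |c n x| ≤ B * (1 / ((n : ℝ) + 1))) (hb : ∀ n, eLpNorm (F n) p volume ≤ A) :
    Z p (fun n x => c n x * F n x) := by
  refine Z.of_le (fun n => (hc n).mul (hF n))
    (b := fun n => ENNReal.ofReal (1 / ((n : ℝ) + 1)) * (ENNReal.ofReal B * A)) (fun n => ?_) ?_
  · calc eLpNorm (fun x => c n x * F n x) p volume ≤
          ENNReal.ofReal (B * (1 / ((n : ℝ) + 1))) * eLpNorm (F n) p volume := by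
          refine eLpNorm_le_mul_eLpNorm_of_ae_le_mul (Eventually.of_forall fun x => ?_) p
          rw [norm_mul]
          gcongr
          exact hB n x
      _ ≤ ENNReal.ofReal (B * (1 / ((n : ℝ) + 1))) * A := by gcongr; exact hb n
      _ = ENNReal.ofReal (1 / ((n : ℝ) + 1)) * (ENNReal.ofReal B * A) := by
          rw [mul_comm B, ENNReal.ofReal_mul (by positivity)]
          ring
  · have h := ENNReal.Tendsto.mul_const one_div_zero (b := ENNReal.ofReal B * A)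
      (Or.inr (ENNReal.mul_ne_top ENNReal.ofReal_ne_top hA))
    rwa [zero_mul] at h

/-- dominated convergence -/
lemma Z.dom {p : ℝ≥0∞} (hp : 1 ≤ p) (hpt : p ≠ ⊤) {c : ℕ → E → ℝ} {w : E → ℝ} {B : ℝ}
    (hc : ∀ n, AEStronglyMeasurable (c n) volume) (hw : MemLp w p volume)
    (hB : ∀ n x, |c n x| ≤ B) (h0 : ∀ x, ∀ᶠ n in atTop, c n x = 0) :
    Z p (fun n x => c n x * w x) := by
  have hp0 : p ≠ 0 := (lt_of_lt_of_le zero_lt_one hp).ne'
  have hpr : 0 < p.toReal := ENNReal.toReal_pos hp0 hpt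
  refine ⟨fun n => (hc n).mul hw.1, ?_⟩
  have h1 : Tendsto (fun n => ∫⁻ x, ‖c n x * w x‖ₑ ^ p.toReal) atTop (𝓝 (∫⁻ _x : E, 0)) := by
    refine tendsto_lintegral_of_dominated_convergence'
      (fun x => (ENNReal.ofReal B * ‖w x‖ₑ) ^ p.toReal) (fun n => ?_) (fun n => ?_) ?_ ?_
    · exact (((hc n).mul hw.1).enorm).pow_const _
    · refine Eventually.of_forall fun x => ?_
      simp only
      gcongr
      rw [enorm_mul]
      gcongr
      rw [Real.enorm_eq_ofReal_abs]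
      exact ENNReal.ofReal_le_ofReal (hB n x)
    · have h2 : ∫⁻ x, (ENNReal.ofReal B * ‖w x‖ₑ) ^ p.toReal =
          ENNReal.ofReal B ^ p.toReal * ∫⁻ x, ‖w x‖ₑ ^ p.toReal := by
        rw [← lintegral_const_mul' _ _ (ENNReal.rpow_ne_top_of_nonneg hpr.le ENNReal.ofReal_ne_top)]
        refine lintegral_congr fun x => ?_
        rw [ENNReal.mul_rpow_of_nonneg _ _ hpr.le]
      rw [h2]
      refine ENNReal.mul_ne_top (ENNReal.rpow_ne_top_of_nonneg hpr.le ENNReal.ofReal_ne_top) ?_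
      exact (lintegral_rpow_enorm_lt_top_of_eLpNorm_lt_top hp0 hpt hw.2).ne
    · refine Eventually.of_forall fun x => ?_
      refine tendsto_const_nhds.congr' ?_
      filter_upwards [h0 x] with n hn
      rw [hn, zero_mul, enorm_zero, ENNReal.zero_rpow_of_pos hpr]
  rw [lintegral_zero] at h1
  have h2 : (fun n => eLpNorm (fun x => c n x * w x) p volume) =
      fun n => (∫⁻ x, ‖c n x * w x‖ₑ ^ p.toReal) ^ (1 / p.toReal) := by
    funext n
    rw [eLpNorm_eq_lintegral_rpow_enorm_toReal hp0 hpt]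
  rw [h2]
  have h3 := h1.ennrpow_const (1 / p.toReal)
  rwa [ENNReal.zero_rpow_of_pos (by positivity)] at h3

/-- Hoelder -/
lemma Z.hol {p q r : ℝ≥0∞} (h : ENNReal.HolderTriple p q r) {c F : ℕ → E → ℝ} {A : ℝ≥0∞}
    (hA : A ≠ ⊤) (hc : ∀ n, AEStronglyMeasurable (c n) volume)
    (hb : ∀ n, eLpNorm (c n) p volume ≤ A) (hF : Z q F) : Z r (fun n x => c n x * F n x) := by
  refine Z.of_le (fun n => (hc n).mul (hF.1 n)) (b := fun n => A * eLpNorm (F n) q volume)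
    (fun n => (hoel p q h (hc n) (hF.1 n)).trans (by gcongr; exact hb n)) ?_
  have h1 := ENNReal.Tendsto.const_mul hF.2 (a := A) (Or.inr hA)
  rwa [mul_zero] at h1

/-! ### cut-off functions -/

/-- the bump -/
noncomputable def bb : ContDiffBump (0 : E) := ⟨1, 2, one_pos, one_lt_two⟩

/-- cut-off functions -/
noncomputable def chi (n : ℕ) (x : E) : ℝ := bb (((n : ℝ) + 1)⁻¹ • x)

lemma bb_test : IsTest (bb : E → ℝ) := ⟨bb.contDiff, bb.hasCompactSupport⟩

lemma sc_test {h : E → ℝ} (hh : IsTest h) (n : ℕ) :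
    IsTest (fun x => h (((n : ℝ) + 1)⁻¹ • x)) :=
  ⟨hh.1.comp (contDiff_const_smul _), hh.2.comp_smul (inv_ne_zero (by positivity))⟩

lemma chi_test (n : ℕ) : IsTest (chi n) := sc_test bb_test n

lemma pd_sc {h : E → ℝ} (hh : IsTest h) (n : ℕ) (c : ℝ) (i : Fin 4) (x : E) :
    pd i (fun x => c * h (((n : ℝ) + 1)⁻¹ • x)) x = c * (((n : ℝ) + 1)⁻¹ * pd i h (((n : ℝ) + 1)⁻¹ • x)) := by
  have h1 : HasFDerivAt (fun x : E => ((n : ℝ) + 1)⁻¹ • x)
      (((n : ℝ) + 1)⁻¹ • ContinuousLinearMap.id ℝ E) x :=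
    (((n : ℝ) + 1)⁻¹ • ContinuousLinearMap.id ℝ E).hasFDerivAt
  have h3 := ((test_diff hh (((n : ℝ) + 1)⁻¹ • x)).hasFDerivAt.comp x h1).const_mul c
  unfold pd
  have h4 : (fun x => c * h (((n : ℝ) + 1)⁻¹ • x)) =
      fun y => c * (h ∘ fun x : E => ((n : ℝ) + 1)⁻¹ • x) y := rfl
  rw [h4, h3.fderiv]
  simp

lemma pd_chi (n : ℕ) (i : Fin 4) (x : E) :
    pd i (chi n) x = ((n : ℝ) + 1)⁻¹ * pd i bb (((n : ℝ) + 1)⁻¹ • x) := by
  have h := pd_sc bb_test n 1 i x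
  simp only [one_mul] at h
  exact h

lemma pd2_chi (n : ℕ) (i j : Fin 4) (x : E) :
    pd j (pd i (chi n)) x = ((n : ℝ) + 1)⁻¹ * (((n : ℝ) + 1)⁻¹ *
      pd j (pd i bb) (((n : ℝ) + 1)⁻¹ • x)) := by
  have h : pd i (chi n) = fun x => ((n : ℝ) + 1)⁻¹ * pd i bb (((n : ℝ) + 1)⁻¹ • x) :=
    funext fun x => pd_chi n i x
  rw [h]
  exact pd_sc (test_pd bb_test i) n _ j x

lemma chi_abs (n : ℕ) (x : E) : |chi n x| ≤ 1 := by
  unfold chi
  rw [abs_of_nonneg bb.nonneg]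
  exact bb.le_one

lemma chi_one (n : ℕ) (x : E) (hx : ‖x‖ ≤ n) : chi n x = 1 := by
  have hn : (0 : ℝ) < (n : ℝ) + 1 := by positivity
  refine bb.one_of_mem_closedBall ?_
  rw [mem_closedBall_zero_iff, norm_smul, Real.norm_of_nonneg (inv_nonneg.2 hn.le)]
  change _ ≤ (1 : ℝ)
  rw [inv_mul_le_iff₀ hn]
  linarith

/-- derivatives of the bump vanish in the unit ball -/
lemma pd_loc {h : E → ℝ} {c : ℝ} (hc : ∀ x ∈ Metric.ball (0 : E) 1, h x = c) (i : Fin 4) {x : E}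
    (hx : x ∈ Metric.ball (0 : E) 1) : pd i h x = 0 := by
  have h1 : h =ᶠ[𝓝 x] fun _ => c := by
    filter_upwards [Metric.isOpen_ball.mem_nhds hx] with y hy using hc y hy
  unfold pd
  rw [h1.fderiv_eq]
  simp

lemma bb_one {x : E} (hx : x ∈ Metric.ball (0 : E) 1) : bb x = 1 :=
  bb.one_of_mem_closedBall (Metric.ball_subset_closedBall hx)

lemma mem_small {n : ℕ} {x : E} (hx : ‖x‖ ≤ n) : ((n : ℝ) + 1)⁻¹ • x ∈ Metric.ball (0 : E) 1 := by
  have hn : (0 : ℝ) < (n : ℝ) + 1 := by positivity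
  rw [mem_ball_zero_iff, norm_smul, Real.norm_of_nonneg (inv_nonneg.2 hn.le), inv_mul_lt_iff₀ hn]
  linarith

lemma pd_chi_zero (n : ℕ) (i : Fin 4) (x : E) (hx : ‖x‖ ≤ n) : pd i (chi n) x = 0 := by
  rw [pd_chi, pd_loc (fun y hy => bb_one hy) i (mem_small hx), mul_zero]

/-- bounds of the derivatives -/
lemma bds : ∃ B : ℝ, 0 ≤ B ∧ (∀ i x, |pd i bb x| ≤ B) ∧ ∀ i j x, |pd j (pd i bb) x| ≤ B := by
  have h1 : ∀ i, ∃ C : ℝ, ∀ x, |pd i bb x| ≤ C := by
    intro i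
    obtain ⟨C, hC⟩ := (test_pd bb_test i).2.exists_bound_of_continuous
      (test_pd bb_test i).1.continuous
    exact ⟨C, hC⟩
  have h2 : ∀ i j, ∃ C : ℝ, ∀ x, |pd j (pd i bb) x| ≤ C := by
    intro i j
    have ht := test_pd (test_pd bb_test i) j
    obtain ⟨C, hC⟩ := ht.2.exists_bound_of_continuous ht.1.continuous
    exact ⟨C, hC⟩
  choose C1 hC1 using h1
  choose C2 hC2 using h2
  have hC1n : ∀ i, 0 ≤ C1 i := fun i => (abs_nonneg _).trans (hC1 i 0)
  have hC2n : ∀ i j, 0 ≤ C2 i j := fun i j => (abs_nonneg _).trans (hC2 i j 0)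
  refine ⟨(∑ i, C1 i) + ∑ i, ∑ j, C2 i j, ?_, fun i x => ?_, fun i j x => ?_⟩
  · exact add_nonneg (Finset.sum_nonneg fun i _ => hC1n i)
      (Finset.sum_nonneg fun i _ => Finset.sum_nonneg fun j _ => hC2n i j)
  · have e1 := Finset.single_le_sum (f := C1) (fun i _ => hC1n i) (Finset.mem_univ i)
    have e2 : 0 ≤ ∑ i, ∑ j, C2 i j :=
      Finset.sum_nonneg fun i _ => Finset.sum_nonneg fun j _ => hC2n i j
    exact (hC1 i x).trans (by linarith)
  · have e1 := Finset.single_le_sum (f := C2 i) (fun j _ => hC2n i j) (Finset.mem_univ j)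
    have e2 := Finset.single_le_sum (f := fun i => ∑ j, C2 i j)
      (fun i _ => Finset.sum_nonneg fun j _ => hC2n i j) (Finset.mem_univ i)
    have e3 : 0 ≤ ∑ i, C1 i := Finset.sum_nonneg fun i _ => hC1n i
    exact (hC2 i j x).trans (by linarith)

lemma test_meas {h : E → ℝ} (hh : IsTest h) : AEStronglyMeasurable h volume :=
  hh.1.continuous.aestronglyMeasurable

lemma supp_zero {h : E → ℝ} (h0 : ∀ x, 2 ≤ ‖x‖ → h x = 0) (n : ℕ) {x : E}
    (hx : x ∉ Metric.closedBall (0 : E) (2 * ((n : ℝ) + 1))) : h (((n : ℝ) + 1)⁻¹ • x) = 0 := by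
  have hn : (0 : ℝ) < (n : ℝ) + 1 := by positivity
  refine h0 _ ?_
  rw [norm_smul, Real.norm_of_nonneg (inv_nonneg.2 hn.le), le_inv_mul_iff₀ hn]
  rw [mem_closedBall_zero_iff, not_le] at hx
  linarith

lemma bb_supp (x : E) (hx : 2 ≤ ‖x‖) : bb x = 0 :=
  bb.zero_of_le_dist (by rw [dist_zero_right]; exact hx)

lemma pd_supp {h : E → ℝ} (hh : IsTest h) (h0 : ∀ x, 2 ≤ ‖x‖ → h x = 0) (i : Fin 4) (x : E)
    (hx : 2 ≤ ‖x‖) : pd i h x = 0 := by
  have h1 : Continuous (pd i h) := (test_pd hh i).1.continuous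
  -- the derivative vanishes on the open set, hence on its closure
  have h2 : ∀ y : E, 2 < ‖y‖ → pd i h y = 0 := by
    intro y hy
    have h3 : h =ᶠ[𝓝 y] fun _ => (0 : ℝ) := by
      have ho : IsOpen {z : E | 2 < ‖z‖} := isOpen_lt continuous_const continuous_norm
      filter_upwards [ho.mem_nhds hy] with z hz using h0 z (le_of_lt hz)
    unfold pd
    rw [h3.fderiv_eq]
    simp
  have h3 : Tendsto (fun t : ℝ => pd i h (t • x)) (𝓝[>] 1) (𝓝 (pd i h x)) := by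
    have h4 : Continuous (fun t : ℝ => pd i h (t • x)) := h1.comp (continuous_id.smul continuous_const)
    have h5 := (h4.tendsto 1).mono_left (nhdsWithin_le_nhds (s := Ioi (1 : ℝ)))
    simpa using h5
  have h4 : Tendsto (fun t : ℝ => pd i h (t • x)) (𝓝[>] 1) (𝓝 0) := by
    refine tendsto_const_nhds.congr' ?_
    filter_upwards [self_mem_nhdsWithin] with t ht
    rw [h2]
    rw [norm_smul, Real.norm_of_nonneg (by linarith [mem_Ioi.1 ht])]
    nlinarith [mem_Ioi.1 ht]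
  exact tendsto_nhds_unique h3 h4

/-- the `L^4` norms of the derivatives are bounded -/
lemma sc_bd {h : E → ℝ} {R B : ℝ} (hR : 0 < R) (hB : 0 ≤ B) (h1 : ∀ x, |h x| ≤ R⁻¹ * B)
    (h2 : ∀ x, x ∉ Metric.closedBall (0 : E) (2 * R) → h x = 0) :
    eLpNorm h 4 volume ≤ ENNReal.ofReal (B * 2) * volume (Metric.ball (0 : E) 1) ^ (1 / 4 : ℝ) := by
  have hR2 : 0 ≤ 2 * R := by positivity
  have hk : 0 ≤ R⁻¹ * B := by positivity
  calc eLpNorm h 4 volume
      ≤ eLpNorm ((Metric.closedBall (0 : E) (2 * R)).indicator fun _ => R⁻¹ * B) 4 volume := by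
        refine eLpNorm_mono fun x => ?_
        by_cases hx : x ∈ Metric.closedBall (0 : E) (2 * R)
        · rw [indicator_of_mem hx, Real.norm_of_nonneg hk]
          exact h1 x
        · rw [indicator_of_notMem hx, h2 x hx]
    _ = ‖R⁻¹ * B‖ₑ * volume (Metric.closedBall (0 : E) (2 * R)) ^ (1 / (4 : ℝ≥0∞).toReal) :=
        eLpNorm_indicator_const Metric.isClosed_closedBall.measurableSet (by norm_num) (by norm_num)
    _ = ENNReal.ofReal (B * 2) * volume (Metric.ball (0 : E) 1) ^ (1 / 4 : ℝ) := by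
        have hq : (0 : ℝ) ≤ 1 / 4 := by norm_num
        rw [ENNReal.toReal_ofNat, Measure.addHaar_closedBall _ _ hR2,
          ENNReal.mul_rpow_of_nonneg _ _ hq, Real.enorm_of_nonneg hk, ← mul_assoc,
          ENNReal.ofReal_rpow_of_nonneg (by positivity) hq, ← ENNReal.ofReal_mul hk]
        congr 2
        rw [finrank_euclideanSpace, Fintype.card_fin, ← Real.rpow_natCast (2 * R) 4,
          ← Real.rpow_mul hR2]
        norm_num
        field_simp

/-- bounds of the derivatives of the cut-off functions -/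
lemma chi_bds : ∃ (B : ℝ) (A : ℝ≥0∞), 0 ≤ B ∧ A ≠ ⊤ ∧
    (∀ n i x, |pd i (chi n) x| ≤ B * (1 / ((n : ℝ) + 1))) ∧
    (∀ n i j x, |pd j (pd i (chi n)) x| ≤ B * (1 / ((n : ℝ) + 1))) ∧
    (∀ n i, eLpNorm (pd i (chi n)) 4 volume ≤ A) ∧
    ∀ n i j, eLpNorm (pd j (pd i (chi n))) 4 volume ≤ ENNReal.ofReal (1 / ((n : ℝ) + 1)) * A := by
  obtain ⟨B, hB, hB1, hB2⟩ := bds
  have hn : ∀ n : ℕ, (0 : ℝ) < (n : ℝ) + 1 := fun n => by positivity
  have hn1 : ∀ n : ℕ, ((n : ℝ) + 1)⁻¹ ≤ 1 := fun n =>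
    inv_le_one_of_one_le₀ (by linarith [n.cast_nonneg (α := ℝ)])
  have b1 : ∀ n i x, |pd i (chi n) x| ≤ ((n : ℝ) + 1)⁻¹ * B := by
    intro n i x
    rw [pd_chi, abs_mul, abs_of_pos (inv_pos.2 (hn n))]
    exact mul_le_mul_of_nonneg_left (hB1 i _) (inv_nonneg.2 (hn n).le)
  have b2 : ∀ n i j x, |pd j (pd i (chi n)) x| ≤ ((n : ℝ) + 1)⁻¹ * (((n : ℝ) + 1)⁻¹ * B) := by
    intro n i j x
    rw [pd2_chi, abs_mul, abs_mul, abs_of_pos (inv_pos.2 (hn n))]
    exact mul_le_mul_of_nonneg_left (mul_le_mul_of_nonneg_left (hB2 i j _)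
      (inv_nonneg.2 (hn n).le)) (inv_nonneg.2 (hn n).le)
  have hv : volume (Metric.ball (0 : E) 1) ≠ ⊤ := measure_ball_lt_top.ne
  refine ⟨B, ENNReal.ofReal (B * 2) * volume (Metric.ball (0 : E) 1) ^ (1 / 4 : ℝ), hB,
    ENNReal.mul_ne_top ENNReal.ofReal_ne_top (ENNReal.rpow_ne_top_of_nonneg (by norm_num) hv),
    fun n i x => ?_, fun n i j x => ?_, fun n i => ?_, fun n i j => ?_⟩
  · refine (b1 n i x).trans (le_of_eq ?_)
    rw [one_div, mul_comm]
  · refine (b2 n i j x).trans ?_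
    rw [one_div, mul_comm B]
    have h1 : ((n : ℝ) + 1)⁻¹ * B ≤ B := by
      calc ((n : ℝ) + 1)⁻¹ * B ≤ 1 * B := mul_le_mul_of_nonneg_right (hn1 n) hB
        _ = B := one_mul B
    exact mul_le_mul_of_nonneg_left h1 (inv_nonneg.2 (hn n).le)
  · refine sc_bd (hn n) hB (b1 n i) fun x hx => ?_
    rw [pd_chi, supp_zero (pd_supp bb_test bb_supp i) n hx, mul_zero]
  · have h1 : eLpNorm (pd j (pd i (chi n))) 4 volume ≤ ENNReal.ofReal (((n : ℝ) + 1)⁻¹) *
        eLpNorm (fun x => ((n : ℝ) + 1)⁻¹ * pd j (pd i bb) (((n : ℝ) + 1)⁻¹ • x)) 4 volume := by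
      refine eLpNorm_le_mul_eLpNorm_of_ae_le_mul (Eventually.of_forall fun x => ?_) 4
      rw [pd2_chi, norm_mul, Real.norm_of_nonneg (inv_nonneg.2 (hn n).le)]
    rw [one_div]
    refine h1.trans ?_
    gcongr
    refine sc_bd (hn n) hB (fun x => ?_) fun x hx => ?_
    · rw [abs_mul, abs_of_pos (inv_pos.2 (hn n))]
      exact mul_le_mul_of_nonneg_left (hB2 i j _) (inv_nonneg.2 (hn n).le)
    · rw [supp_zero (pd_supp (test_pd bb_test i) (pd_supp bb_test bb_supp i) j) n hx, mul_zero]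

lemma chi_ev (x : E) : ∀ᶠ n : ℕ in atTop, ‖x‖ ≤ (n : ℝ) := by
  filter_upwards [eventually_ge_atTop ⌈‖x‖⌉₊] with n hn
  exact (Nat.le_ceil _).trans (by exact_mod_cast hn)

lemma chi_meas (n : ℕ) : AEStronglyMeasurable (chi n) volume := test_meas (chi_test n)

/-- `chi n * w - w` is a null sequence -/
lemma chi_sub {p : ℝ≥0∞} (hp : 1 ≤ p) (hpt : p ≠ ⊤) {w : E → ℝ} (hw : MemLp w p volume) :
    Z p (fun n x => (chi n x - 1) * w x) := by
  refine Z.dom hp hpt (B := 2) (fun n => (chi_meas n).sub aestronglyMeasurable_const) hw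
    (fun n x => ?_) fun x => ?_
  · have h1 := abs_le.1 (chi_abs n x)
    rw [abs_le]
    constructor <;> linarith
  · filter_upwards [chi_ev x] with n hn
    rw [chi_one n x hn, sub_self]

/-- mollifications -/
noncomputable def mw (w : E → ℝ) (n : ℕ) (x : E) : ℝ := mc (ph n) w x

lemma mw_meas {p : ℝ≥0∞} (hp : 1 ≤ p) {w : E → ℝ} (hw : MemLp w p volume) (n : ℕ) :
    AEStronglyMeasurable (mw w n) volume :=
  (mc_smooth (ph_test n) (hw.locallyIntegrable hp)).continuous.aestronglyMeasurable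

lemma mw_sub {p : ℝ≥0∞} (hp : 1 ≤ p) (hpt : p ≠ ⊤) {w : E → ℝ} (hw : MemLp w p volume) :
    Z p (fun n x => mw w n x - w x) :=
  ⟨fun n => (mw_meas hp hw n).sub hw.1, mc_tendsto hp hpt hw⟩

/-- `chi n * mw w n - w` is a null sequence -/
lemma cut_sub {p : ℝ≥0∞} (hp : 1 ≤ p) (hpt : p ≠ ⊤) {w : E → ℝ} (hw : MemLp w p volume) :
    Z p (fun n x => chi n x * mw w n x - w x) := by
  refine ((Z.bdd (mw_sub hp hpt hw) chi_meas chi_abs).add hp (chi_sub hp hpt hw)).congr fun n => ?_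
  funext x
  ring

lemma pd_mw {w g : E → ℝ} {i : Fin 4} (hw : LocallyIntegrable w volume) (h : WD i w g) (n : ℕ)
    (x : E) : pd i (mw w n) x = mw g n x := by
  unfold mw
  rw [pd_mc (ph_test n) hw, mc_wd (ph_test n) h]

lemma holder_q {a b : ℝ} (ha : 0 < a) (h : 1 / 4 + 1 / a = 1 / b) (hb : 0 < b) :
    ENNReal.HolderTriple 4 (ENNReal.ofReal a) (ENNReal.ofReal b) := by
  refine ⟨?_⟩
  have h5 : (4 : ℝ≥0∞)⁻¹ = ENNReal.ofReal (1 / 4) := by
    rw [one_div, ENNReal.ofReal_inv_of_pos (by norm_num)]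
    norm_num
  rw [h5, ← ENNReal.ofReal_inv_of_pos ha, ← ENNReal.ofReal_inv_of_pos hb,
    ← ENNReal.ofReal_add (by norm_num) (inv_nonneg.2 ha.le), ← one_div a, h, one_div]

lemma h12 {s : ℝ} (h0 : 0 < s) (h1 : s < 1 / 2) : ENNReal.HolderTriple 4 (q1 s) (q2 s) := by
  have h3 : 0 < 3 - 2 * s := by linarith
  have h2 : 0 < 5 - 2 * s := by linarith
  refine holder_q (by positivity) ?_ (by positivity)
  field_simp
  ring

lemma one_le_of {c : ℝ} (h0 : 0 < c) (h1 : c ≤ 8) : 1 ≤ ENNReal.ofReal (8 / c) := by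
  rw [← ENNReal.ofReal_one]
  refine ENNReal.ofReal_le_ofReal ?_
  rw [le_div_iff₀ h0]
  linarith

lemma q1_one {s : ℝ} (h0 : 0 < s) (h1 : s < 1 / 2) : 1 ≤ q1 s :=
  one_le_of (by linarith) (by linarith)

lemma q2_one {s : ℝ} (h0 : 0 < s) (h1 : s < 1 / 2) : 1 ≤ q2 s :=
  one_le_of (by linarith) (by linarith)

/-- tails -/
lemma tail {p : ℝ≥0∞} (hp : 1 ≤ p) (hpt : p ≠ ⊤) {w : E → ℝ} (hw : MemLp w p volume) :
    Z p (fun n x => {x : E | (n : ℝ) < ‖x‖}.indicator (fun _ => (1 : ℝ)) x * w x) := by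
  refine Z.dom hp hpt (B := 1) (fun n => ?_) hw (fun n x => ?_) fun x => ?_
  · exact aestronglyMeasurable_const.indicator (measurableSet_lt measurable_const measurable_norm)
  · by_cases h : x ∈ {x : E | (n : ℝ) < ‖x‖}
    · rw [indicator_of_mem h]; simp
    · rw [indicator_of_notMem h]; simp
  · filter_upwards [chi_ev x] with n hn
    rw [indicator_of_notMem]
    simpa using hn

/-- a factor which vanishes in the ball of radius `n`, bounded in `L^p` -/
lemma far {p q r : ℝ≥0∞} (h : ENNReal.HolderTriple p q r) (hq : 1 ≤ q) (hqt : q ≠ ⊤) (hr : 1 ≤ r)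
    {c : ℕ → E → ℝ} {A : ℝ≥0∞} (hA : A ≠ ⊤) (hc : ∀ n, AEStronglyMeasurable (c n) volume)
    (hb : ∀ n, eLpNorm (c n) p volume ≤ A) (h0 : ∀ (n : ℕ) (x : E), ‖x‖ ≤ n → c n x = 0) {w : E → ℝ}
    (hw : MemLp w q volume) : Z r (fun n x => c n x * mw w n x) := by
  have h1 := Z.hol h hA hc hb (mw_sub hq hqt hw)
  have h2 := Z.hol h hA hc hb (tail hq hqt hw)
  refine (h1.add hr h2).congr fun n => ?_
  funext x
  by_cases hx : x ∈ {x : E | (n : ℝ) < ‖x‖}
  · rw [indicator_of_mem hx]; ring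
  · rw [h0 n x (by simpa using hx)]; ring

lemma mw_smooth {p : ℝ≥0∞} (hp : 1 ≤ p) {w : E → ℝ} (hw : MemLp w p volume) (n : ℕ) :
    ContDiff ℝ ∞ (mw w n) := mc_smooth (ph_test n) (hw.locallyIntegrable hp)

lemma sm_diff {g : E → ℝ} (hg : ContDiff ℝ ∞ g) (x : E) : DifferentiableAt ℝ g x :=
  hg.differentiable (by simp) x

end ApWx

open ApWx Pool.Agent.QWF.Moll in
theorem thm_ApW : St_ApW := by
  intro s hs0 hs1 F G hF hG
  obtain ⟨B, A, hB, hA, hb1, hb2, hb3, hb4⟩ := chi_bds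
  have hq1 := q1_one hs0 hs1
  have hq2 := q2_one hs0 hs1
  have tq1 : q1 s ≠ ⊤ := ENNReal.ofReal_ne_top
  have tq2 : q2 s ≠ ⊤ := ENNReal.ofReal_ne_top
  have hpd : ∀ (n : ℕ) (i : Fin 4),
      pd i (fun x => chi n x * mw F n x) =
        fun x => pd i (chi n) x * mw F n x + chi n x * mw (G i) n x := by
    intro n i
    funext x
    rw [pd_mul (test_diff (chi_test n) x) (sm_diff (mw_smooth hq1 hF n) x),
      pd_mw (hF.locallyIntegrable hq1) (hG i).2 n]
  refine ⟨fun n x => chi n x * mw F n x, fun n => test_mul (chi_test n) (mw_smooth hq1 hF n),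
    (cut_sub hq1 tq1 hF).2, fun i => ?_⟩
  have e1 := far (h12 hs0 hs1) hq1 tq1 hq2 hA (fun n => test_meas (test_pd (chi_test n) i))
    (fun n => hb3 n i) (fun n x hx => pd_chi_zero n i x hx) hF
  have e2 := e1.add hq2 (cut_sub hq2 tq2 (hG i).1)
  refine (e2.congr fun n => ?_).2
  rw [hpd n i]
  funext x
  ring

end Pool.Agent.QWF
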