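import Pool.Agent.QWF.StA2

set_option autoImplicit false

/-!
# QWF, block B: nonlinear theory for `u_tt - Δu + |u|^b u = 0` in `ℝ⁴`, `b > 4`

Ports of block B of `Pool.Agent.QWP` (`d = 5`): every `St_X` is to be proved as `theorem thm_X : St_X` (possibly with other statements of QWF
as hypotheses) in `Pool/Agent/QWF/X.lean`. Copy the proof in `Pool/Agent/QWP/X.lean` and adapt: `Fin 5` becomes `Fin 4`, `2 < b` becomes `4 < b`, one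
namespace `Pool.Agent.QWF` (all definitions in QWF/Defs.lean, nothing is opened from QWE or QWP; purely abstract or real-variable facts of QWE, QWP may be used).
`s = sig b = 1/2 - 2/b ∈ (0, 1/2)`, `u = U s k`, `sn b k = ‖u‖_{4b}`, `S(J)`-norm `= (SN b J k)^{1/b}`, `q0 = 2b`, `q1 = 4b/(b+2)`, `F(u) = Fn b u = |u|^b u`. From block A: FldP, ActP,
ExBP, FreX, DrT, FSPP, GamP, StrS, SnP, LscP, DnsP. `rev` has a minus sign (`U rev = U`, `V rev = - V`, as before).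
-/

open MeasureTheory Filter Topology Set
open scoped ENNReal NNReal RealInnerProductSpace

namespace Pool.Agent.QWF

/-- **NLb** (bounds for the nonlinearity). Proved in the product estimates block: dual Sobolev for the source (`a = 2/b`, `1/ps = 1/2 + 1/(2b)`), `‖F'(u) ∇u‖_{ps} ≤ C ‖u‖_{4b}^b ‖∇u‖_{q1}`, `q1 = 4b/(b+2)`. -/
def St_NLb : Prop := ∀ b : ℝ, 4 < b →
  (∃ C : ℝ, 0 < C ∧ (∀ k : K, ‖NL b k‖ₑ ≤ ENNReal.ofReal C * sn b k ^ b * ‖k‖ₑ) ∧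
    ∀ k k' : K, sn b k < ⊤ → sn b k' < ⊤ → ‖NL b k - NL b k'‖ₑ ≤ ENNReal.ofReal C *
      ((sn b k + sn b k') ^ (b - 1) * sn b (k - k') * (‖k‖ₑ + ‖k'‖ₑ) +
        (sn b k + sn b k') ^ b * ‖k - k'‖ₑ)) ∧
  ∀ k : K, sn b k < ⊤ → MemLp (fun x => Fn b (U (sig b) k x)) (q1 (sig b)) volume ∧
    IsGam (sig b) (fun x => Fn b (U (sig b) k x)) (NL b k) ∧ (U (sig b) (NL b k) =ᵐ[volume] 0) ∧
    (V (sig b) (NL b k) =ᵐ[volume] fun x => Fn b (U (sig b) k x))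

/-- **NLw** (pairing with test states). Proof: IsGam of NLb. The functional `k ↦ ∫ F(U k) φ` is defined and continuous on all of `K`: `U k ∈ L^{q0}`, `q0 = 2b ≥ b + 1`
, `|F(u) - F(w)| ≤ (b+1) (|u|+|w|)^b |u-w|`, Hoelder on the support of `φ`: `≤ C_φ (‖u‖_{q0} + ‖w‖_{q0})^b ‖u-w‖_{q0}`, FldP. -/
def St_NLw : Prop := ∀ b : ℝ, 4 < b → ∀ φ : E → ℝ, IsTest φ →
  (∀ k : K, sn b k < ⊤ → inner ℝ (NL b k) (Rs (sig b) φ) = 0 ∧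
    inner ℝ (NL b k) (dRs (sig b) φ) = ∫ x, Fn b (U (sig b) k x) * φ x) ∧
  (∀ k : K, Integrable (fun x => Fn b (U (sig b) k x) * φ x) volume) ∧
  (Continuous fun k : K => ∫ x, Fn b (U (sig b) k x) * φ x) ∧
  ∃ C : ℝ, ∀ k : K, |∫ x, Fn b (U (sig b) k x) * φ x| ≤ C * ‖k‖ ^ (b + 1)

/-- **NLoP** (locality of the nonlinearity). Proof as QWP.NLo: by NLb the fields of `NL b k - NL b k'` are `0` and `F(u) - F(u')` a.e. (FldP); `U k = U k'` a.e. on `Ω` (ExBP), so they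
vanish a.e. on `Ω`. Second part: first part and L8P. -/
def St_NLoP : Prop := ∀ b : ℝ, 4 < b →
  (∀ (Ω : Set E) (k k' : K), IsOpen Ω → sn b k < ⊤ → sn b k' < ⊤ → Van (sig b) Ω (k - k') →
    Van (sig b) Ω (NL b k - NL b k')) ∧
  ∀ (y : E) (ρ : ℝ) (k k' : K), 0 ≤ ρ → sn b k < ⊤ → sn b k' < ⊤ → Van (sig b) (xt y ρ) (k - k') →
    na (sig b) {z | ρ < |z.2 - inner ℝ y (z.1 : E)|} (NL b k - NL b k') = 0

/-- **Meas** (measurability). Proof as QWP.Meas: first parts from LscP, SnP. Last part: on `{r : sn b (k r) < ⊤}` the functions `r ↦ ⟨NL b (k r), Rs s φ⟩`, `r ↦ ⟨NL b (k r), dRs s φ⟩` are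
measurable (NLw), the test states are total (DnsP), `QWE.Measx.pettis` (general Hilbert space, file QWE/Meas.lean). -/
def St_Meas : Prop := ∀ b : ℝ, 4 < b → ∀ (k : ℝ → K) (J : Set ℝ), MeasurableSet J →
  AEStronglyMeasurable k (volume.restrict J) →
  AEMeasurable (fun r => sn b (k r)) (volume.restrict J) ∧
  (∀ (p : ℝ≥0∞) (B : Set E), 1 ≤ p → MeasurableSet B →
    AEMeasurable (fun r => eLpNorm (B.indicator (U (sig b) (k r))) p volume) (volume.restrict J)) ∧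
  ((∀ᵐ r ∂(volume.restrict J), sn b (k r) < ⊤) →
    AEStronglyMeasurable (fun r => NL b (k r)) (volume.restrict J))

/-- **DuhI** (Duhamel integrals). Proof as QWP.DuhI, with StrS; the exponents `b` and `(b+2)/2` are `≥ 1`. -/
def St_DuhI : Prop := ∀ b : ℝ, 4 < b → ∃ C : ℝ, 0 < C ∧ ∀ (x y t0 : ℝ) (G : ℝ → K), x ≤ t0 → t0 ≤ y →
  IntegrableOn G (Icc x y) volume →
  ContinuousOn (fun t => ∫ r in t0..t, tau (t - r) (G r)) (Icc x y) ∧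
  (∀ t ∈ Icc x y, ‖∫ r in t0..t, tau (t - r) (G r)‖ ≤ ∫ r in Icc x y, ‖G r‖) ∧
  SN b (Icc x y) (fun t => ∫ r in t0..t, tau (t - r) (G r)) ≤
    ENNReal.ofReal (C * ∫ r in Icc x y, ‖G r‖) ^ b ∧
  ∫⁻ t in Icc x y, eLpNorm (U (sig b) (∫ r in t0..t, tau (t - r) (G r)))
      (ENNReal.ofReal (b * (b + 2))) volume ^ ((b + 2) / 2) ≤
    ENNReal.ofReal (C * ∫ r in Icc x y, ‖G r‖) ^ ((b + 2) / 2)

/-- **SNt** (triangle inequality). Proof: Minkowski in `L^b(J)`, SnP, Meas. -/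
def St_SNt : Prop := ∀ b : ℝ, 4 < b → ∀ (k k' : ℝ → K) (J : Set ℝ), MeasurableSet J →
  AEStronglyMeasurable k (volume.restrict J) → AEStronglyMeasurable k' (volume.restrict J) →
  (SN b J (fun t => k t + k' t)) ^ (1 / b) ≤ (SN b J k) ^ (1 / b) + (SN b J k') ^ (1 / b) ∧
  SN b J (fun t => - k t) = SN b J k

/-- One Picard step. -/
noncomputable def Pic (b : ℝ) (k0 : K) (t0 : ℝ) (k : ℝ → K) : ℝ → K :=
  fun t => tau (t - t0) k0 - ∫ r in t0..t, tau (t - r) (NL b (k r))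

/-- Picard iterates. -/
noncomputable def PicN (b : ℝ) (k0 : K) (t0 : ℝ) : ℕ → ℝ → K
  | 0 => fun t => tau (t - t0) k0
  | n + 1 => Pic b k0 t0 (PicN b k0 t0 n)

/-- **Loc** (local theory). Proof as QWP.Loc: `∫ ‖NL b k‖ ≤ C (2η)^b 2A`, `∫ ‖NL b k - NL b k'‖ ≤ C [(4η)^{b-1} ‖u-u'‖_S 4A + (4η)^b sup ‖k-k'‖]` (Hoelder in `t`, exponents `b/(b-1)`, `b`). -/
def St_Loc : Prop := ∀ b : ℝ, 4 < b → ∀ A : ℝ, 0 < A → ∃ η0 : ℝ, 0 < η0 ∧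
  ∀ (k0 : K) (x y t0 η : ℝ), ‖k0‖ ≤ A → x ≤ t0 → t0 ≤ y → 0 < η → η ≤ η0 →
  SN b (Icc x y) (fun t => tau (t - t0) k0) ≤ ENNReal.ofReal η ^ b →
  ∃ k : ℝ → K, IsSol b (Icc x y) k ∧ k t0 = k0 ∧ SN b (Icc x y) k ≤ ENNReal.ofReal (2 * η) ^ b ∧
    (∀ t ∈ Icc x y, ‖k t‖ ≤ 2 * A) ∧
    ∀ t ∈ Icc x y, Tendsto (fun n => PicN b k0 t0 n t) atTop (𝓝 (k t))

/-- **Uniq** (uniqueness). Proof as QWP.Uniq. -/
def St_Uniq : Prop := ∀ b : ℝ, 4 < b → ∀ (I J : Set ℝ) (k k' : ℝ → K) (t0 : ℝ), IsSol b I k → IsSol b J k' →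
  t0 ∈ I → t0 ∈ J → k t0 = k' t0 → ∀ t ∈ I, t ∈ J → k t = k' t

/-- **Glue** (gluing). Proof as QWP.Glue. -/
def St_Glue : Prop := ∀ b : ℝ, 4 < b → ∀ (I J : Set ℝ) (k k' : ℝ → K) (t0 : ℝ), IsSol b I k → IsSol b J k' →
  t0 ∈ I → t0 ∈ J → k t0 = k' t0 →
  ∃ k'' : ℝ → K, IsSol b (I ∪ J) k'' ∧ (∀ t ∈ I, k'' t = k t) ∧ ∀ t ∈ J, k'' t = k' t

/-- **Gron** (a priori bound). Proof as QWP.Gron. -/
def St_Gron : Prop := ∀ b : ℝ, 4 < b → ∃ C : ℝ, 0 < C ∧ ∀ (I : Set ℝ) (k : ℝ → K), IsSol b I k →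
  SN b I k < ⊤ → ∀ x ∈ I, ∀ t ∈ I, ‖k t‖ ≤ ‖k x‖ * Real.exp (C * (SN b I k).toReal)

/-- **MaxE** (maximal solutions). Proof as QWP.MaxE. -/
def St_MaxE : Prop := ∀ b : ℝ, 4 < b → ∀ (k0 : K) (t0 : ℝ), ∃ (I : Set ℝ) (k : ℝ → K), IsMax b I k ∧
  t0 ∈ I ∧ k t0 = k0 ∧
  ∀ (J : Set ℝ) (k' : ℝ → K), IsSol b J k' → t0 ∈ J → k' t0 = k0 → J ⊆ I ∧ ∀ t ∈ J, k' t = k t

/-- **Blow** (blow-up criterion and scattering). Proof as QWP.Blow. -/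
def St_Blow : Prop := ∀ b : ℝ, 4 < b → ∀ (I : Set ℝ) (k : ℝ → K) (t0 : ℝ), IsMax b I k → t0 ∈ I →
  (SN b (I ∩ Ici t0) k < ⊤ → Ici t0 ⊆ I ∧ (∃ B, ∀ t ∈ Ici t0, ‖k t‖ ≤ B) ∧
    ∃ kp, Tendsto (fun t => tau (-t) (k t)) atTop (𝓝 kp)) ∧
  (SN b (I ∩ Iic t0) k < ⊤ → Iic t0 ⊆ I ∧ (∃ B, ∀ t ∈ Iic t0, ‖k t‖ ≤ B) ∧
    ∃ km, Tendsto (fun t => tau (-t) (k t)) atBot (𝓝 km))

/-- **Small** (small data). Proof as QWP.Small. -/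
def St_Small : Prop := ∀ b : ℝ, 4 < b → ∃ d0 C : ℝ, 0 < d0 ∧ 0 < C ∧ ∀ (k0 : K) (t0 : ℝ), ‖k0‖ ≤ d0 →
  ∃ k : ℝ → K, IsSol b univ k ∧ k t0 = k0 ∧ (∀ t, ‖k t‖ ≤ 2 * ‖k0‖) ∧
    SN b univ k ≤ ENNReal.ofReal (C * ‖k0‖) ^ b ∧ Integrable (fun t => NL b (k t)) volume ∧
    ∫ t, ‖NL b (k t)‖ ≤ C * ‖k0‖ ^ (b + 1) ∧
    (∃ kp, Tendsto (fun t => tau (-t) (k t)) atTop (𝓝 kp)) ∧
    ∃ km, Tendsto (fun t => tau (-t) (k t)) atBot (𝓝 km)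

/-- **Pert** (perturbation lemma). Proof as QWP.Pert. -/
def St_Pert : Prop := ∀ b : ℝ, 4 < b → ∀ A M : ℝ, 0 < A → 0 < M → ∃ e1 C : ℝ, 0 < e1 ∧ 0 < C ∧
  ∀ (T ε : ℝ) (kt e : ℝ → K) (k0 : K), 0 ≤ T → 0 ≤ ε → ε ≤ e1 → ContinuousOn kt (Icc 0 T) →
    (∀ t ∈ Icc 0 T, ‖kt t‖ ≤ A) → SN b (Icc 0 T) kt ≤ ENNReal.ofReal M →
    IntegrableOn e (Icc 0 T) volume → ∫ r in Icc 0 T, ‖e r‖ ≤ ε →
    (∀ t ∈ Icc 0 T, kt t = tau t (kt 0) - ∫ r in (0 : ℝ)..t, tau (t - r) (NL b (kt r) - e r)) →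
    ‖k0 - kt 0‖ ≤ ε →
    ∃ k : ℝ → K, IsSol b (Icc 0 T) k ∧ k 0 = k0 ∧ (∀ t ∈ Icc 0 T, ‖k t - kt t‖ ≤ C * ε) ∧
      SN b (Icc 0 T) (fun t => k t - kt t) ≤ ENNReal.ofReal (C * ε) ^ b

/-- **Stab** (stability on compact intervals). Proof as QWP.Stab. -/
def St_Stab : Prop := ∀ b : ℝ, 4 < b → ∀ (x y t0 : ℝ) (k : ℝ → K) (k0 : ℕ → K), x ≤ t0 → t0 ≤ y →
  IsSol b (Icc x y) k → Tendsto k0 atTop (𝓝 (k t0)) →
  ∃ kn : ℕ → ℝ → K, (∀ᶠ n in atTop, IsSol b (Icc x y) (kn n) ∧ kn n t0 = k0 n) ∧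
    ∀ ε : ℝ, 0 < ε → ∀ᶠ n in atTop, (∀ t ∈ Icc x y, ‖kn n t - k t‖ < ε) ∧
      SN b (Icc x y) (fun t => kn n t - k t) < ENNReal.ofReal ε

/-- **GStab** (stability on a half line). Proof as QWP.GStab. -/
def St_GStab : Prop := ∀ b : ℝ, 4 < b → ∀ (k : ℝ → K) (k0 : ℕ → K), IsSol b (Ici 0) k →
  SN b (Ici 0) k < ⊤ → Tendsto k0 atTop (𝓝 (k 0)) →
  ∃ kn : ℕ → ℝ → K, ∀ᶠ n in atTop, IsSol b (Ici 0) (kn n) ∧ kn n 0 = k0 n ∧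
    SN b (Ici 0) (kn n) ≤ SN b (Ici 0) k + 1

/-- **Sym** (symmetries). Proof as QWP.Sym: `sn b (sh y k) = sn b k`, `sn b (dl a k) = e^{a/b} sn b k`, `sn b (rev k) = sn b k` (SnP with `gr 0 a`, `gr y 0`; Grp1, Grp2), `NL b (sh y k) = sh y (NL b k)`,
`NL b (dl a k) = e^a dl a (NL b k)` (`U (dl a k) = e^{2a/b} U k (e^a ·)`, `V (dl a w) = e^{(1+2/b)a} V w (e^a ·)`, ActP; `2(b+1)/b - 1 - 2/b = 1`), `NL b (rev k) = - rev (NL b k)`. -/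
def St_Sym : Prop := ∀ b : ℝ, 4 < b →
  (∀ y k, sn b (sh y k) = sn b k) ∧
  (∀ a k, sn b (dl a k) = ENNReal.ofReal (Real.exp (a / b)) * sn b k) ∧
  (∀ k, sn b (rev k) = sn b k) ∧ (∀ y k, NL b (sh y k) = sh y (NL b k)) ∧
  (∀ a k, NL b (dl a k) = Real.exp a • dl a (NL b k)) ∧ (∀ k, NL b (rev k) = - rev (NL b k)) ∧
  (∀ (I : Set ℝ) (k : ℝ → K), IsSol b I k →
    (∀ c : ℝ, IsSol b {t | t + c ∈ I} (fun t => k (t + c))) ∧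
    (∀ y : E, IsSol b I (fun t => sh y (k t))) ∧
    (∀ a : ℝ, IsSol b {t | Real.exp a * t ∈ I} (fun t => dl a (k (Real.exp a * t)))) ∧
    IsSol b {t | -t ∈ I} (fun t => rev (k (-t)))) ∧
  (∀ (J : Set ℝ) (k : ℝ → K), MeasurableSet J →
    (∀ c : ℝ, SN b {t | t + c ∈ J} (fun t => k (t + c)) = SN b J k) ∧
    (∀ y : E, SN b J (fun t => sh y (k t)) = SN b J k) ∧
    (∀ a : ℝ, SN b {t | Real.exp a * t ∈ J} (fun t => dl a (k (Real.exp a * t))) = SN b J k) ∧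
    SN b {t | -t ∈ J} (fun t => rev (k (-t))) = SN b J k)

/-- **NFSP** (finite speed of propagation). Proof as QWP.NFSP (NLoP, FSPP). -/
def St_NFSP : Prop := ∀ b : ℝ, 4 < b → ∀ (I : Set ℝ) (k k' : ℝ → K) (t0 : ℝ) (Ω : Set E), IsSol b I k →
  IsSol b I k' → t0 ∈ I → IsOpen Ω → Van (sig b) Ω (k t0 - k' t0) →
  ∀ t ∈ I, Van (sig b) (shr Ω |t - t0|) (k t - k' t)

/-- **Ext** (exterior small solution). Proof as QWP.Ext. -/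
def St_Ext : Prop := ∀ b : ℝ, 4 < b → ∃ d0 C : ℝ, 0 < d0 ∧ 0 < C ∧
  ∀ (I : Set ℝ) (k : ℝ → K) (t0 : ℝ) (Ω : Set E),
  IsSol b I k → t0 ∈ I → IsOpen Ω → ex (sig b) Ω (k t0) ≤ d0 →
  ∃ k' : ℝ → K, IsSol b univ k' ∧ k' t0 = pr (sig b) Ω (k t0) ∧ (∀ t, ‖k' t‖ ≤ 2 * ex (sig b) Ω (k t0)) ∧
    Integrable (fun t => NL b (k' t)) volume ∧ ∫ t, ‖NL b (k' t)‖ ≤ C * ex (sig b) Ω (k t0) ^ (b + 1) ∧
    (∃ kp, Tendsto (fun t => tau (-t) (k' t)) atTop (𝓝 kp)) ∧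
    (∃ km, Tendsto (fun t => tau (-t) (k' t)) atBot (𝓝 km)) ∧
    ∀ t ∈ I, Van (sig b) (shr Ω |t - t0|) (k t - k' t) ∧
      ex (sig b) (shr Ω |t - t0|) (k t) ≤ 2 * ex (sig b) Ω (k t0)

/-- **WEq** (the equation in the sense of distributions). Proof as QWP.WEq (`⟨tau t k, Rs s φ⟩' = ⟨tau t k, dRs s φ⟩`, `⟨tau t k, dRs s φ⟩' = ⟨tau t k, Rs s (lap φ)⟩`: DrT for `tau (-t)` of the test state). -/
def St_WEq : Prop := ∀ b : ℝ, 4 < b → ∀ (I : Set ℝ) (k : ℝ → K), IsSol b I k → ∀ x ∈ I, ∀ t ∈ I,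
  ∀ φ, IsTest φ →
  (∫ z, U (sig b) (k t) z * φ z) - (∫ z, U (sig b) (k x) z * φ z) = ∫ r in x..t, ∫ z, V (sig b) (k r) z * φ z ∧
  (∫ z, V (sig b) (k t) z * φ z) - (∫ z, V (sig b) (k x) z * φ z) =
    ∫ r in x..t, ∫ z, (U (sig b) (k r) z * lap φ z - Fn b (U (sig b) (k r) z) * φ z)

/-! ### Energy space

A finite energy pair `(u,v)` is represented by the element `e ∈ K` which has these fields on the level `s = -1/2`: `⟨e, Rs (-1/2) φ⟩ = ∫ u φ`,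
`⟨e, dRs (-1/2) φ⟩ = ∫ v φ`. For test functions `e = Theta (-1/2) f g`, `‖e‖² = c0 (Σ ‖∂_i f‖_2² + ‖g‖_2²)` (IsoP, Hs). The flow is again `tau` (FreX, valid for `-1/2 ≤ s < 1/2`).
No persistence of regularity is needed: En and Mor assume finite energy at ALL times (true for compactly supported solutions and after the decay estimate).
In QWP this was done with `Rk`, `dRk`: `⟨e, dRk φ⟩ = - ∫ u φ`, `⟨e, Rk (lap φ)⟩ = - ∫ v φ`; replace `dRk φ` by `- Rs (-1/2) φ`, `Rk (lap φ)` by `- dRs (-1/2) φ`, and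
`c0 • (dRk (lap f) - Rk (lap g))` by `Theta (-1/2) f g`. -/

/-- `(u,v)` is a finite energy pair, `G` is the weak gradient of `u`. -/
def FP (u v : E → ℝ) (G : Fin 4 → E → ℝ) : Prop := MemLp u 4 volume ∧ MemLp v 2 volume ∧
  ∀ i, MemLp (G i) 2 volume ∧ WD i u (G i)

/-- `e` represents the pair `(u,v)`. -/
def IsE (e : K) (u v : E → ℝ) : Prop :=
  ∀ φ, IsTest φ → inner ℝ e (Rs (-1 / 2) φ) = ∫ x, u x * φ x ∧ inner ℝ e (dRs (-1 / 2) φ) = ∫ x, v x * φ x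

/-- Bound `B` for the energy norms of a state. -/
def EB (s B : ℝ) (k : K) : Prop := (∀ i, eLpNorm (DU s k i) 2 volume ≤ ENNReal.ofReal B) ∧
  eLpNorm (V s k) 2 volume ≤ ENNReal.ofReal B ∧ eLpNorm (U s k) 4 volume ≤ ENNReal.ofReal B

/-- **EnU** (uniqueness in the energy space). Proof: `TS (-1/2) univ = ⊤` (DnsP with `s = -1/2`): the `Rs (-1/2) φ`, `dRs (-1/2) φ` span a dense subspace. -/
def St_EnU : Prop := ∀ e : K, (∀ φ, IsTest φ → inner ℝ e (Rs (-1 / 2) φ) = 0 ∧ inner ℝ e (dRs (-1 / 2) φ) = 0) → e = 0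

/-- **EnR** (representation of finite energy pairs, isometry). Proof. Fourth clause: IsoP (`s = -1/2`); fifth: DnsP; third for test pairs: `‖Theta (-1/2) f g‖² = c0 (hs 1 f + hs 0 g)` (IsoP), Hs, polarisation (LinJ). Finite energy pair: test
`f_n`, `g_n` with `f_n → u` in `L⁴`, `∂_i f_n → G i`, `g_n → v` in `L²` (cut off with `χ(·/M)`: `‖u ∇χ_M‖_2 ≤ ‖∇χ_M‖_4 ‖u‖_{L⁴(|x|>M)}`; mollify; as in QWP/EnR.lean); the `Theta (-1/2) f_n g_n` are Cauchy, their limit `e` has `IsE e u v`; third clause in the limit. Second clause: for `e ∈ K` there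
are test `f_n, g_n` with `Theta (-1/2) f_n g_n → e`, and `‖f‖_4 ≤ C (hs 1 f)^{1/2}` (SobP, `a = 1`) makes `f_n` Cauchy in `L⁴`, `∂_i f_n`, `g_n` Cauchy in `L²`. Uniqueness of the fields of `e` a.e.: test functions. -/
def St_EnR : Prop :=
  (∀ (u v : E → ℝ) (G : Fin 4 → E → ℝ), FP u v G → ∃ e : K, IsE e u v) ∧
  (∀ e : K, ∃ (u v : E → ℝ) (G : Fin 4 → E → ℝ), FP u v G ∧ IsE e u v) ∧
  (∀ (e e' : K) (u v u' v' : E → ℝ) (G G' : Fin 4 → E → ℝ), FP u v G → FP u' v' G' → IsE e u v → IsE e' u' v' →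
    inner ℝ e e' = c0 * ((∑ i, ∫ x, G i x * G' i x) + ∫ x, v x * v' x)) ∧
  (∀ f g : E → ℝ, IsTest f → IsTest g → IsE (Theta (-1 / 2) f g) f g) ∧
  (∀ (e : K) (ε : ℝ), 0 < ε → ∃ f g : E → ℝ, IsTest f ∧ IsTest g ∧ ‖e - Theta (-1 / 2) f g‖ < ε)

/-- **EnS** (states with finite energy norms). Proof: `DU s k i`, `V s k`, `U s k` are measurable and weak derivatives (FldP). `‖F(u)‖_2 ≤ ‖u‖_{4b}^b ‖u‖_4` (Hoelder, `1/4 + 1/4 = 1/2`); `|u|^{b+2}`: `4 ≤ b + 2 ≤ 2b = q0`, interpolation. Flow: FreX for the time `-t` gives `f1, f2` (the same for all `s`):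
`⟨tau t e, Rs (-1/2) φ⟩ = ⟨e, tau (-t) (Rs (-1/2) φ)⟩ = ⟨e, Rs (-1/2) f1 + dRs (-1/2) f2⟩ = ∫ U f1 + ∫ V f2 = ⟨k, Rs s f1 + dRs s f2⟩ = ⟨tau t k, Rs s φ⟩` (FldP), the same for `dRs`; so `tau t e` represents the fields of `tau t k`. -/
def St_EnS : Prop := ∀ b : ℝ, 4 < b → (∀ (k : K) (B : ℝ), EB (sig b) B k →
    FP (U (sig b) k) (V (sig b) k) (DU (sig b) k) ∧ MemLp (U (sig b) k) (ENNReal.ofReal (b + 2)) volume ∧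
    eLpNorm (fun x => Fn b (U (sig b) k x)) 2 volume ≤ sn b k ^ b * ENNReal.ofReal B) ∧
  ∀ (k e : K), IsE e (U (sig b) k) (V (sig b) k) →
    ∀ t : ℝ, IsE (tau t e) (U (sig b) (tau t k)) (V (sig b) (tau t k))

/-- **EnG** (energy sources). Proof as QWP.EnG: `g` is the element with `IsE g 0 F` (EnR with `u = 0`), unique by EnU, `‖g‖² = c0 ‖F‖_2²`. Measurability in `r`: `⟨g(r), Rs (-1/2) φ⟩ = 0`, `⟨g(r), dRs (-1/2) φ⟩ = ∫ F(U (k r)) φ` is continuous in `k r` (NLw), these vectors are total (EnU), `QWE.Measx.pettis`; on the null set where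
`sn b (k r) = ⊤` nothing is needed (a.e.). `∫ ‖g‖ ≤ C B ∫ sn^b < ∞` (EnS). -/
def St_EnG : Prop := ∀ b : ℝ, 4 < b → ∀ (x y B : ℝ) (k : ℝ → K), x ≤ y → IsSol b (Icc x y) k →
  (∀ t ∈ Icc x y, EB (sig b) B (k t)) → ∃ g : ℝ → K, IntegrableOn g (Icc x y) volume ∧
  ∀ᵐ r ∂(volume.restrict (Icc x y)), sn b (k r) < ⊤ ∧ MemLp (fun z => Fn b (U (sig b) (k r) z)) 2 volume ∧
    IsE (g r) 0 (fun z => Fn b (U (sig b) (k r) z))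

/-- **EnD** (Duhamel formula in the energy space). Proof as QWP.EnD: test both sides with `Rs (-1/2) φ` and `dRs (-1/2) φ` (EnU). `⟨e t, Rs (-1/2) φ⟩ = ∫ U (k t) φ = ⟨k t, Rs s φ⟩`; insert the Duhamel formula of `k`, move `tau` to the test state, FreX with `φ` and the time `x' - t`: `⟨k x', Rs s f1 + dRs s f2⟩ = ∫ U f1 + ∫ V f2 =
⟨e x', Rs (-1/2) f1 + dRs (-1/2) f2⟩ = ⟨e x', tau (x'-t) (Rs (-1/2) φ)⟩`; the source term in the same way (`⟨NL b k, Rs s f1 + dRs s f2⟩ = ∫ F(u) f2`, NLw, and `⟨g, Rs (-1/2) f1 + dRs (-1/2) f2⟩ = ∫ F(u) f2`), the inner product commutes with the Bochner integral. The same with `dRs`. Continuity of `e` follows from the formula. -/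
def St_EnD : Prop := ∀ b : ℝ, 4 < b → ∀ (x y B : ℝ) (k g e : ℝ → K), x ≤ y → IsSol b (Icc x y) k →
  (∀ t ∈ Icc x y, EB (sig b) B (k t)) → IntegrableOn g (Icc x y) volume →
  (∀ᵐ r ∂(volume.restrict (Icc x y)), sn b (k r) < ⊤ ∧ IsE (g r) 0 (fun z => Fn b (U (sig b) (k r) z))) →
  (∀ t ∈ Icc x y, IsE (e t) (U (sig b) (k t)) (V (sig b) (k t))) →
  ContinuousOn e (Icc x y) ∧
  ∀ x' ∈ Icc x y, ∀ t ∈ Icc x y, e t = tau (t - x') (e x') - ∫ r in x'..t, tau (t - r) (g r)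

/-- **ACq** (a quadratic form along a Duhamel curve; abstract). As QWP.ACq. `B` bounded symmetric bilinear form with `t ↦ B (tau t w) (tau t w)` non-increasing; `e t = tau (t-x) (e x) - ∫_x^t tau (t-r) (g r) dr`. Proof. Partition `x = t_0 < ... < t_n = y` of mesh `→ 0`: `e t_{j+1} = tau h (e t_j - g_j)`, `g_j = ∫_{t_j}^{t_{j+1}} tau (t_j - r) (g r) dr`, so
`B(e t_{j+1}, e t_{j+1}) ≤ B(e t_j - g_j, e t_j - g_j) = B(e t_j, e t_j) - 2 B(e t_j, g_j) + B(g_j, g_j)`. Sum: `Σ B(g_j,g_j) ≤ ‖B‖ max_j ‖g_j‖ ∫ ‖g‖ → 0`, and `Σ B(e t_j, g_j) = ∫ B(e t_{j(r)}, tau (t_{j(r)} - r) (g r)) dr → ∫ B(e r, g r) dr` (dominated convergence, strong continuity). With `B = ±` the inner product (invariant) this gives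
`‖e y‖² - ‖e x‖² = - 2 ∫ ⟨e, g⟩`. -/
def St_ACq : Prop := ∀ (Bf : K →L[ℝ] K →L[ℝ] ℝ) (x y : ℝ) (e g : ℝ → K), x ≤ y → (∀ w w', Bf w w' = Bf w' w) →
  (∀ (w : K) (t : ℝ), 0 ≤ t → Bf (tau t w) (tau t w) ≤ Bf w w) → ContinuousOn e (Icc x y) →
  IntegrableOn g (Icc x y) volume →
  (∀ x' ∈ Icc x y, ∀ t ∈ Icc x y, e t = tau (t - x') (e x') - ∫ r in x'..t, tau (t - r) (g r)) →
  Bf (e y) (e y) - Bf (e x) (e x) ≤ - 2 * ∫ r in x..y, Bf (e r) (g r)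

/-- **PotE** (potential energy). Proof as QWP.PotE. `p = b + 2`. By WEq and `‖V‖_2 ≤ B`: `U(k t) - U(k x') = ∫_{x'}^t V(k r) dr` in `L²` (Bochner: `r ↦ V(k r) ∈ L²` is bounded and weakly measurable). Choose a jointly measurable representative `v(r,z)` of `V(k r)(z)` and put `u~(t,z) = U(k x')(z) + ∫_{x'}^t v(r,z) dr` (for a.e. `z` integrable); `u~(t,·) = U(k t)` a.e. for
every `t`. For a.e. `z` the function `t ↦ |u~(t,z)|^p` is absolutely continuous with a.e. derivative `p F(u~) v` (`|·|^p` is `C¹`). Integrate over `z`: Fubini, `∫∫ |F(u)| |v| ≤ ∫ ‖F(u)‖_2 ‖V‖_2 < ∞` (EnS). [To avoid joint measurability: mollify in `x`, `u_n = ρ_n * u`, for which everything is continuous, and let `n → ∞`.] -/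
def St_PotE : Prop := ∀ b : ℝ, 4 < b → ∀ (x y B : ℝ) (k : ℝ → K), x ≤ y → IsSol b (Icc x y) k →
  (∀ t ∈ Icc x y, EB (sig b) B (k t)) →
  IntervalIntegrable (fun r => ∫ z, Fn b (U (sig b) (k r) z) * V (sig b) (k r) z) volume x y ∧
  (∫ z, |U (sig b) (k y) z| ^ (b + 2)) - (∫ z, |U (sig b) (k x) z| ^ (b + 2)) =
    (b + 2) * ∫ r in x..y, ∫ z, Fn b (U (sig b) (k r) z) * V (sig b) (k r) z

/-- **En** (energy conservation for solutions with finite energy at all times). Proof as QWP.En: `e t` with `IsE (e t) (U (k t)) (V (k t))` (EnR), EnG, EnD, ACq with `Bf = ±` inner product: `‖e y‖² - ‖e x‖² = - 2 ∫ ⟨e, g⟩ = - 2 c0 ∫∫ V F(u)` (EnR), `‖e t‖² = c0 (Σ ‖DU‖² + ‖V‖²)`; PotE. -/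
def St_En : Prop := ∀ b : ℝ, 4 < b → ∀ (x y B : ℝ) (k : ℝ → K), x ≤ y → IsSol b (Icc x y) k →
  (∀ t ∈ Icc x y, EB (sig b) B (k t)) → En b (k y) = En b (k x)

/-- **MorS** (static facts for the Morawetz multiplier), `a = ⟨x⟩ = √(1+|x|²)`, `Δa = ⟨x⟩⁻³ + 3⟨x⟩⁻¹` in `ℝ⁴`, `m(u,G) = (x·G)/⟨x⟩ + (1/2)(⟨x⟩⁻³ + 3⟨x⟩⁻¹) u`. As QWP.MorS with `4` replaced by `3` and Hardy in `ℝ⁴`: `‖u/⟨x⟩‖_2 ≤ C Σ ‖G i‖_2`; proof for test functions: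
`∫ u²/⟨x⟩² ≤ (1/2) ∫ u² div(x/⟨x⟩²) = - ∫ u (x·∇u)/⟨x⟩²` (`div(x/⟨x⟩²) = 4/⟨x⟩² - 2|x|²/⟨x⟩⁴ ≥ 2/⟨x⟩²`), Cauchy-Schwarz: `‖u/⟨x⟩‖_2 ≤ ‖∇u‖_2`; for finite energy pairs by density (EnR, or cut off and mollify).
`∫ F(u) m(u,G) = (b/(2(b+2))) ∫ Δa |u|^{b+2}`, `Δa ≥ 3/⟨x⟩`: `F(u) ∇a·G` is the product of `∇a` with the weak gradient of `|u|^{b+2}/(b+2)` (chain rule for `u ∈ L⁴`, `G ∈ L²`, `F(u) ∈ L²`, `|u|^{b+2} ∈ L¹`: mollify), cut off with `χ(·/M)` (the error is `≤ (C/M) ∫ |u|^{b+2}`), integrate by parts. -/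
def St_MorS : Prop := ∃ C : ℝ, 0 < C ∧ ∀ (u v : E → ℝ) (G : Fin 4 → E → ℝ), FP u v G →
  (MemLp (fun x => (∑ i, x i * G i x) / √(1 + ‖x‖ ^ 2) +
      (1 / (√(1 + ‖x‖ ^ 2)) ^ 3 + 3 / √(1 + ‖x‖ ^ 2)) / 2 * u x) 2 volume) ∧
  eLpNorm (fun x => (∑ i, x i * G i x) / √(1 + ‖x‖ ^ 2) +
      (1 / (√(1 + ‖x‖ ^ 2)) ^ 3 + 3 / √(1 + ‖x‖ ^ 2)) / 2 * u x) 2 volume ≤
    ENNReal.ofReal C * ∑ i, eLpNorm (G i) 2 volume ∧
  ∀ b : ℝ, 4 < b → MemLp (fun x => Fn b (u x)) 2 volume → MemLp u (ENNReal.ofReal (b + 2)) volume →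
    3 * b / (2 * (b + 2)) * ∫ x, |u x| ^ (b + 2) / √(1 + ‖x‖ ^ 2) ≤
      ∫ x, Fn b (u x) * ((∑ i, x i * G i x) / √(1 + ‖x‖ ^ 2) +
        (1 / (√(1 + ‖x‖ ^ 2)) ^ 3 + 3 / √(1 + ‖x‖ ^ 2)) / 2 * u x)

/-- **MorF** (the Morawetz form on the energy space decreases along the free flow). As QWP.MorF. Proof. `Bf e e' = (1/2)(∫ v m(u',G') + ∫ v' m(u,G))` is well defined (fields are determined by `e`: EnU, EnR), bilinear, `≤ C ‖e‖ ‖e'‖` (MorS, EnR). Monotone: by density (EnR, last clause) for test pairs; `tau t (Theta (-1/2) f g) = Theta (-1/2) f' g'`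
(FreX; use the smooth functions `u, v` of WvS: `f' = u(t,·)`, `g' = v(t,·)`, see the proof of FreX, or DrT), `d/dt ∫ g' m(f') = ∫ Δf' m(f') + ∫ g' m(g') = - ∫ D²a(∇f',∇f') + (1/4) ∫ Δ²a f'² + 0 ≤ 0`: `D²a ≥ 0`, `Δ²a = -3⟨x⟩⁻⁷(8 + 4|x|² + |x|⁴) ≤ 0` in `ℝ⁴`, `∫ g (∇a·∇g + (1/2)Δa g) = 0`. -/
def St_MorF : Prop := ∃ Bf : K →L[ℝ] K →L[ℝ] ℝ, (∀ w w', Bf w w' = Bf w' w) ∧
  (∀ (w : K) (t : ℝ), 0 ≤ t → Bf (tau t w) (tau t w) ≤ Bf w w) ∧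
  ∀ (e e' : K) (u v u' v' : E → ℝ) (G G' : Fin 4 → E → ℝ), FP u v G → FP u' v' G' → IsE e u v → IsE e' u' v' →
    Bf e e' = ((∫ x, v x * ((∑ i, x i * G' i x) / √(1 + ‖x‖ ^ 2) +
        (1 / (√(1 + ‖x‖ ^ 2)) ^ 3 + 3 / √(1 + ‖x‖ ^ 2)) / 2 * u' x)) +
      ∫ x, v' x * ((∑ i, x i * G i x) / √(1 + ‖x‖ ^ 2) +
        (1 / (√(1 + ‖x‖ ^ 2)) ^ 3 + 3 / √(1 + ‖x‖ ^ 2)) / 2 * u x)) / 2

/-- **Mor** (Morawetz inequality). Proof as QWP.Mor: `e t`, `g` as in En, ACq with `Bf` of MorF: `2 ∫_x^y Bf (e r) (g r) dr ≤ Bf (e x) (e x) - Bf (e y) (e y) ≤ C (‖e x‖² + ‖e y‖²) ≤ C' En b (k x)` (energy conservation, all terms of the energy are nonnegative), and `2 Bf (e r) (g r) = ∫ F(u) m(u,DU) ≥ (3b/(2(b+2))) ∫ |u|^{b+2}/⟨x⟩` (MorS, `m(0,0) = 0`). -/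
def St_Mor : Prop := ∀ b : ℝ, 4 < b → ∃ C : ℝ, 0 < C ∧ ∀ (x y B : ℝ) (k : ℝ → K), x ≤ y → IsSol b (Icc x y) k →
  (∀ t ∈ Icc x y, EB (sig b) B (k t)) →
  ∫⁻ t in Icc x y, ∫⁻ z, ENNReal.ofReal (|U (sig b) (k t) z| ^ (b + 2) / √(1 + ‖z‖ ^ 2)) ≤
    ENNReal.ofReal (C * En b (k x))

/-- **Z1** (energy zero). Proof as QWP.Z1: the terms are nonnegative, so `U = 0`, `V = 0` a.e., `k ⊥ TS s univ = K` (FldP, DnsP). -/
def St_Z1 : Prop := ∀ b : ℝ, 4 < b → ∀ (k : K) (B : ℝ), EB (sig b) B k → 0 ≤ En b k ∧ (En b k = 0 → k = 0)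

end Pool.Agent.QWF
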