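import Pool.Agent.QWF.StA

set_option autoImplicit false

/-!
# QWF, GamP: source elements (helper4)
-/

open MeasureTheory Filter Topology Set
open scoped ENNReal NNReal RealInnerProductSpace

namespace Pool.Agent.QWF

namespace GamPx

lemma test_sch {φ : E → ℝ} (h : IsTest φ) : IsSch φ :=
  ⟨h.2.toSchwartzMap h.1, fun _ => rfl⟩

lemma c0_pos : 0 < c0 := by unfold c0; positivity

lemma int_mul {f φ : E → ℝ} (hf : LocallyIntegrable f volume) (hφ : IsTest φ) :
    Integrable (fun x => f x * φ x) volume := by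
  have := hf.integrable_smul_right_of_hasCompactSupport hφ.1.continuous hφ.2
  simpa [smul_eq_mul] using this

lemma ae_zero {f : E → ℝ} (hf : LocallyIntegrable f volume)
    (h : ∀ φ, IsTest φ → ∫ x, f x * φ x = 0) : f =ᵐ[volume] 0 := by
  refine ae_eq_zero_of_integral_contDiff_smul_eq_zero hf fun g h1 h2 => ?_
  have h3 := h g ⟨h1, h2⟩
  simp only [smul_eq_mul]
  rw [← h3]
  exact integral_congr_ae (Eventually.of_forall fun x => mul_comm _ _)

lemma ae_eq {f g : E → ℝ} (hf : LocallyIntegrable f volume) (hg : LocallyIntegrable g volume)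
    (h : ∀ φ, IsTest φ → ∫ x, f x * φ x = ∫ x, g x * φ x) : f =ᵐ[volume] g := by
  have h1 := ae_zero (hf.sub hg) fun φ hφ => by
    have e : (fun x => (f - g) x * φ x) = fun x => f x * φ x - g x * φ x := by
      funext x; simp [sub_mul]
    rw [e, integral_sub (int_mul hf hφ) (int_mul hg hφ), h φ hφ, sub_self]
  filter_upwards [h1] with x hx
  simpa [sub_eq_zero] using hx

lemma one_le {x : ℝ} (h1 : 0 < x) (h2 : x < 8) : (1 : ℝ≥0∞) ≤ ENNReal.ofReal (8 / x) := by
  rw [← ENNReal.ofReal_one]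
  apply ENNReal.ofReal_le_ofReal
  rw [le_div_iff₀ h1]
  linarith

lemma eq_zero_of (hD : St_DnsP) {s : ℝ} (hs' : |s| < 1 / 2) (d : K)
    (h : ∀ φ, IsTest φ → inner ℝ d (Rs s φ) = (0 : ℝ) ∧ inner ℝ d (dRs s φ) = (0 : ℝ)) :
    d = 0 := by
  have hs2 := abs_lt.1 hs'
  have hle : TS s univ ≤ (Submodule.span ℝ {d})ᗮ := by
    apply Submodule.topologicalClosure_minimal _ _ (Submodule.isClosed_orthogonal _)
    rw [Submodule.span_le]
    rintro w ⟨φ, hφ, -, hw⟩
    rw [SetLike.mem_coe, Submodule.mem_orthogonal_singleton_iff_inner_right]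
    rcases hw with rfl | rfl
    · exact (h φ hφ).1
    · exact (h φ hφ).2
  rw [(hD s (by linarith) (by linarith)).1] at hle
  have := hle (Submodule.mem_top (x := d))
  rw [Submodule.mem_orthogonal_singleton_iff_inner_right] at this
  exact inner_self_eq_zero.1 this

/-- Riesz: a functional bounded by a seminorm `‖R φ‖`. -/
lemma riesz {T : Type*} [AddCommGroup T] [Module ℝ T] (R : T →ₗ[ℝ] K) (l : T →ₗ[ℝ] ℝ) {M : ℝ}
    (hM : 0 ≤ M) (h : ∀ φ, |l φ| ≤ M * ‖R φ‖) :
    ∃ w : K, w ∈ (LinearMap.range R).topologicalClosure ∧ ‖w‖ ≤ M ∧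
      ∀ φ, inner ℝ w (R φ) = l φ := by
  have hk : LinearMap.ker R ≤ LinearMap.ker l := by
    intro φ hφ
    rw [LinearMap.mem_ker] at hφ ⊢
    have := h φ
    rw [hφ, norm_zero, mul_zero] at this
    exact abs_nonpos_iff.1 this
  let f : LinearMap.range R →ₗ[ℝ] ℝ :=
    ((LinearMap.ker R).liftQ l hk) ∘ₗ (R.quotKerEquivRange.symm : LinearMap.range R →ₗ[ℝ] _)
  have hf : ∀ φ : T, f ⟨R φ, LinearMap.mem_range_self R φ⟩ = l φ := by
    intro φ
    have e : R.quotKerEquivRange.symm ⟨R φ, LinearMap.mem_range_self R φ⟩ =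
        (LinearMap.ker R).mkQ φ := by
      rw [LinearEquiv.symm_apply_eq]
      rfl
    simp only [f, LinearMap.comp_apply, LinearEquiv.coe_coe, e]
    exact Submodule.liftQ_apply _ _ _
  have hb : ∀ v : LinearMap.range R, ‖f v‖ ≤ M * ‖v‖ := by
    rintro ⟨v, φ, rfl⟩
    rw [hf φ]
    exact h φ
  obtain ⟨g, hg1, hg2⟩ := exists_extension_norm_eq (𝕜 := ℝ) (LinearMap.range R) (f.mkContinuous M hb)
  have hgM : ‖g‖ ≤ M := by
    rw [hg2]
    exact f.mkContinuous_norm_le hM hb
  let V := (LinearMap.range R).topologicalClosure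
  have : CompleteSpace V := (Submodule.isClosed_topologicalClosure _).completeSpace_coe
  let w0 : K := (InnerProductSpace.toDual ℝ K).symm g
  refine ⟨V.starProjection w0, Submodule.starProjection_apply_mem V w0, ?_, fun φ => ?_⟩
  · refine (V.norm_starProjection_apply_le w0).trans ?_
    rw [LinearIsometryEquiv.norm_map]
    exact hgM
  · have hm : R φ ∈ V := Submodule.le_topologicalClosure _ (LinearMap.mem_range_self R φ)
    rw [Submodule.inner_starProjection_left_eq_right, Submodule.starProjection_eq_self_iff.2 hm]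
    simp only [w0]
    rw [InnerProductSpace.toDual_symm_apply]
    have h1 := hg1 ⟨R φ, LinearMap.mem_range_self R φ⟩
    simp only at h1
    rw [h1]
    exact hf φ

/-- Test functions. -/
def TT : Submodule ℝ (E → ℝ) where
  carrier := {φ | IsTest φ}
  add_mem' := fun ha hb => ⟨ha.1.add hb.1, ha.2.add hb.2⟩
  zero_mem' := ⟨contDiff_const, HasCompactSupport.zero⟩
  smul_mem' := fun c a ha => ⟨contDiff_const.smul ha.1, ha.2.mono (Function.support_const_smul_subset c a)⟩

/-- `φ ↦ dRs s φ` is linear on test functions. -/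
lemma dRs_lin (hL : St_LinJ) {s : ℝ} (hs' : |s| < 1 / 2) {φ ψ : E → ℝ} (c : ℝ)
    (hφ : IsTest φ) (hψ : IsTest ψ) : dRs s (φ + c • ψ) = dRs s φ + c • dRs s ψ := by
  have hs2 := abs_lt.1 hs'
  exact ((hL 0 c φ ψ (test_sch hφ) (test_sch hψ)).2.2 s (by linarith) (by linarith)).2.1

lemma dRs_zero (hL : St_LinJ) {s : ℝ} (hs' : |s| < 1 / 2) : dRs s (0 : E → ℝ) = 0 := by
  have h := dRs_lin hL hs' 1 (TT.zero_mem) (TT.zero_mem)
  rw [smul_zero, add_zero, one_smul] at h
  have h2 : dRs s (0 : E → ℝ) + 0 = dRs s (0 : E → ℝ) + dRs s (0 : E → ℝ) := by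
    rw [add_zero]; exact h
  exact (add_left_cancel h2).symm

/-- The linear map `φ ↦ dRs s φ`. -/
noncomputable def dR (hL : St_LinJ) {s : ℝ} (hs' : |s| < 1 / 2) : TT →ₗ[ℝ] K where
  toFun φ := dRs s φ.1
  map_add' φ ψ := by
    have h := dRs_lin hL hs' 1 φ.2 ψ.2
    rw [one_smul, one_smul] at h
    exact h
  map_smul' c φ := by
    have h := dRs_lin hL hs' c TT.zero_mem φ.2
    rw [dRs_zero hL hs', zero_add, zero_add] at h
    exact h

end GamPx

open GamPx in
theorem thm_GamP (hL : St_LinJ) (hI : St_IsoP) (hD : St_DnsP) (hF : St_FldP) : St_GamP := by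
  intro s F B hs' hB hFl hb
  have hs2 := abs_lt.1 hs'
  have hint : ∀ φ : E → ℝ, IsTest φ → Integrable (fun x => F x * φ x) volume := fun φ hφ =>
    int_mul hFl hφ
  -- existence
  let l : TT →ₗ[ℝ] ℝ :=
    { toFun := fun φ => ∫ x, F x * φ.1 x
      map_add' := fun φ ψ => by
        rw [← integral_add (hint _ φ.2) (hint _ ψ.2)]
        congr 1
        ext x
        simp only [Submodule.coe_add, Pi.add_apply]
        ring
      map_smul' := fun c φ => by
        rw [RingHom.id_apply, smul_eq_mul, ← integral_const_mul]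
        congr 1
        ext x
        simp only [Submodule.coe_smul, Pi.smul_apply, smul_eq_mul]
        ring }
  have hc := c0_pos
  have hbd : ∀ φ : TT, |l φ| ≤ (√c0 * B) * ‖dR hL hs' φ‖ := by
    intro φ
    have h1 := hb φ.1 φ.2
    have h2 := (hI s φ.1 φ.1 (by linarith) (by linarith) (test_sch φ.2) (test_sch φ.2)).2.2.2.2.2.2.2.1
    rw [← h2, ← Real.sqrt_eq_rpow, Real.sqrt_mul hc.le, Real.sqrt_sq (norm_nonneg _)] at h1
    calc |l φ| ≤ B * (√c0 * ‖dRs s φ.1‖) := h1
      _ = (√c0 * B) * ‖dRs s φ.1‖ := by ring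
  obtain ⟨w, hw1, hw2, hw3⟩ := riesz (dR hL hs') l (by positivity) hbd
  have hw : IsGam s F w := by
    intro φ hφ
    refine ⟨?_, hw3 ⟨φ, hφ⟩⟩
    have hle : (LinearMap.range (dR hL hs')).topologicalClosure ≤ (ℝ ∙ (Rs s φ))ᗮ := by
      refine Submodule.topologicalClosure_minimal _ ?_ (Submodule.isClosed_orthogonal _)
      rintro _ ⟨ψ, rfl⟩
      rw [Submodule.mem_orthogonal_singleton_iff_inner_right]
      exact (hI s φ ψ.1 (by linarith) (by linarith) (test_sch hφ) (test_sch ψ.2)).2.2.2.2.1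
    have := hle hw1
    rw [Submodule.mem_orthogonal_singleton_iff_inner_right] at this
    rw [real_inner_comm]
    exact this
  have hu : ∀ w w', IsGam s F w → IsGam s F w' → w = w' := by
    intro w w' h1 h2
    rw [← sub_eq_zero]
    apply eq_zero_of hD hs'
    intro φ hφ
    rw [inner_sub_left, inner_sub_left, (h1 φ hφ).1, (h1 φ hφ).2, (h2 φ hφ).1, (h2 φ hφ).2]
    simp
  have hex : ∃ w, IsGam s F w := ⟨w, hw⟩
  have hGam : IsGam s F (Gam s F) := by
    rw [Gam, dif_pos hex]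
    exact hex.choose_spec
  obtain ⟨C, -, hfld, -⟩ := hF s hs'
  obtain ⟨f1, -, f3, -, -⟩ := hfld (Gam s F)
  have hUl : LocallyIntegrable (U s (Gam s F)) volume :=
    f1.1.locallyIntegrable (one_le (by linarith) (by linarith))
  have hVl : LocallyIntegrable (V s (Gam s F)) volume :=
    f3.1.locallyIntegrable (one_le (by linarith) (by linarith))
  refine ⟨hGam, ?_, ?_, ?_, fun w' hw' => hu _ _ hw' hGam⟩
  · rw [hu _ _ hGam hw]
    exact hw2
  · exact ae_zero hUl fun φ hφ => by rw [f1.2 φ hφ]; exact (hGam φ hφ).1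
  · exact ae_eq hVl hFl fun φ hφ => by rw [f3.2 φ hφ]; exact (hGam φ hφ).2

end Pool.Agent.QWF
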