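import Pool.Agent.QWF.StA2

set_option autoImplicit false

/-!
# QWF, block F: the statement in terms of functions, and the bridge (`d = 4`, all `b = p - 1 > 4`)

The final theorem is `St_Final`. Everything before speaks about `K`; here `u(t), v(t) = u_t(t)` are functions on `ℝ⁴`.
Critical regularity `s_c = 2 - 2/b = 3/2 + sig b`. Every `St_X` is to be proved as `theorem thm_X : St_X` in
`Pool/Agent/QWF/X.lean`; where it says `as QWP.X`, copy `Pool/Agent/QWP/X.lean` and adapt.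
-/

open MeasureTheory Filter Topology Set
open scoped ENNReal NNReal RealInnerProductSpace

namespace Pool.Agent.QWF

/-- Norm of `f` in the homogeneous Sobolev space `Ḣ^a(ℝ⁴)`, `0 < a < 2`, by duality with `Ḣ^{-a}`: the supremum of `|∫ f φ|` over the test
functions `φ` with `‖φ‖_{Ḣ^{-a}} ≤ 1` (`hs (-a) φ = ‖φ‖²_{Ḣ^{-a}} = ∫ (2π|ξ|)^{-2a} |φ^(ξ)|² dξ`); `⊤` if `f` is not locally integrable. -/
noncomputable def HD (a : ℝ) (f : E → ℝ) : ℝ≥0∞ := by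
  classical exact if LocallyIntegrable f volume then
    ⨆ (φ : E → ℝ) (_ : IsTest φ) (_ : hs (-a) φ ≤ 1), ENNReal.ofReal |∫ x, f x * φ x| else ⊤

/-- The norm of `(f, g)` in the critical space `Ḣ^{s_c} × Ḣ^{s_c - 1}`, `s_c = 2 - 2/b` (`⊤` outside the space). -/
noncomputable def HN (b : ℝ) (f g : E → ℝ) : ℝ≥0∞ := HD (2 - 2 / b) f + HD (1 - 2 / b) g

/-- `u` (with time derivative `v`) is a strong solution of `u_tt - Δu + |u|^b u = 0` on the interval `I`: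
`(u,v)` is a continuous curve in `Ḣ^{s_c} × Ḣ^{s_c - 1}`, `u ∈ L^b_loc(I; L^{4b})` (scale invariant), `u_t = v` and `v_t = Δu - |u|^b u` in the sense of
distributions. -/
def IsSoln (b : ℝ) (I : Set ℝ) (u v : ℝ → E → ℝ) : Prop :=
  I.OrdConnected ∧ (∀ t ∈ I, HN b (u t) (v t) < ⊤) ∧
  (∀ t ∈ I, Tendsto (fun s => HN b (fun x => u s x - u t x) (fun x => v s x - v t x)) (𝓝[I] t) (𝓝 0)) ∧
  (∀ s ∈ I, ∀ t ∈ I, ∫⁻ r in Icc s t, eLpNorm (u r) (ENNReal.ofReal (4 * b)) volume ^ b < ⊤) ∧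
  ∀ φ, IsTest φ → ∀ s ∈ I, ∀ t ∈ I,
    (∫ x, u t x * φ x) - (∫ x, u s x * φ x) = ∫ r in s..t, ∫ x, v r x * φ x ∧
    (∫ x, v t x * φ x) - (∫ x, v s x * φ x) =
      ∫ r in s..t, ∫ x, (u r x * lap φ x - |u r x| ^ b * u r x * φ x)

/-- `w` (with time derivative `z`) is a solution of the free wave equation `w_tt = Δw` on `ℝ`. -/
def IsFree (b : ℝ) (w z : ℝ → E → ℝ) : Prop :=
  (∀ t, HN b (w t) (z t) < ⊤) ∧
  (∀ t, Tendsto (fun s => HN b (fun x => w s x - w t x) (fun x => z s x - z t x)) (𝓝 t) (𝓝 0)) ∧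
  ∀ φ, IsTest φ → ∀ s t : ℝ,
    (∫ x, w t x * φ x) - (∫ x, w s x * φ x) = ∫ r in s..t, ∫ x, z r x * φ x ∧
    (∫ x, z t x * φ x) - (∫ x, z s x * φ x) = ∫ r in s..t, ∫ x, w r x * lap φ x

/-- Maximal lifespan. -/
def IsMaxSoln (b : ℝ) (I : Set ℝ) (u v : ℝ → E → ℝ) : Prop :=
  IsSoln b I u v ∧ I.Nonempty ∧ ∀ (J : Set ℝ) (u' v' : ℝ → E → ℝ), IsSoln b J u' v' → I ⊆ J →
    (∀ t ∈ I, u' t =ᵐ[volume] u t ∧ v' t =ᵐ[volume] v t) → J ⊆ I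

/-- **Final theorem**, `d = 4`, all `p = b + 1 > 5`: global existence, scattering in both directions, uniform space-time bound. -/
def St_Final : Prop := ∀ b : ℝ, 4 < b →
  (∀ (I : Set ℝ) (u v : ℝ → E → ℝ), IsMaxSoln b I u v →
    (∃ A : ℝ≥0, ∀ t ∈ I, HN b (u t) (v t) ≤ A) →
    I = univ ∧
    (∃ w z, IsFree b w z ∧
      Tendsto (fun t => HN b (fun x => u t x - w t x) (fun x => v t x - z t x)) atTop (𝓝 0)) ∧
    (∃ w z, IsFree b w z ∧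
      Tendsto (fun t => HN b (fun x => u t x - w t x) (fun x => v t x - z t x)) atBot (𝓝 0))) ∧
  ∀ A : ℝ≥0, ∃ L : ℝ≥0, ∀ (I : Set ℝ) (u v : ℝ → E → ℝ), IsSoln b I u v →
    (∀ t ∈ I, HN b (u t) (v t) ≤ A) →
    ∫⁻ t in I, eLpNorm (u t) (ENNReal.ofReal (4 * b)) volume ^ b ≤ L

/-- **Main internal theorem** (`L(A) < ∞`), proved in block G. -/
def St_LA : Prop := ∀ b : ℝ, 4 < b → ∀ A : ℝ, ∃ L : ℝ, ∀ (I : Set ℝ) (k : ℝ → K), IsSol b I k →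
  (∀ t ∈ I, ‖k t‖ ≤ A) → SN b I k ≤ ENNReal.ofReal L

/-- **HDl** (calculus of the duality norm), `0 < a < 2`. As QWP.HDl: Scaling `φ` by a positive number (`hs (-a) (cφ) = c² hs (-a) φ`, `hs ≥ 0`; if `hs (-a) φ = 0` then `‖cφ‖` is `≤ 1` for all `c`, so `∫ f φ = 0` when `HD a f < ⊤`). Sums: `|∫ (f+g) φ| ≤ |∫ f φ| + |∫ g φ|`. Changing `f` on a null set changes nothing. -/
def St_HDl : Prop := ∀ a : ℝ, 0 < a → a < 2 →
  (∀ f : E → ℝ, HD a f < ⊤ → LocallyIntegrable f volume ∧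
    ∀ φ, IsTest φ → |∫ x, f x * φ x| ≤ (HD a f).toReal * (hs (-a) φ) ^ (1 / 2 : ℝ)) ∧
  (∀ (f : E → ℝ) (B : ℝ), 0 ≤ B → LocallyIntegrable f volume →
    (∀ φ, IsTest φ → |∫ x, f x * φ x| ≤ B * (hs (-a) φ) ^ (1 / 2 : ℝ)) → HD a f ≤ ENNReal.ofReal B) ∧
  ∀ f g : E → ℝ, (f =ᵐ[volume] g) → HD a f = HD a g

/-- **Br1** (`K` is `Ḣ^{s_c} × Ḣ^{s_c-1}`), `s = sig b`, `s_c = 3/2 + s`. As QWP.Br1: `H1` = closed span of the `Rs s φ`, `H2` = closed span of the `dRs s φ`, `φ` test: orthogonal (IsoP), and `H1 + H2` is dense (DnsP, `TS s univ = ⊤`), so `K = H1 ⊕ H2`. (1) If `HN b f g < ⊤`, the functional `Rs s φ ↦ ∫ f φ` is well defined and bounded on the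
linear space of the `Rs s φ` (HDl and `c0 ‖Rs s φ‖² = hs (-3/2-s) φ`, IsoP; `Rs` is linear: `DnsPx.Rs_lin` or as in the proof of GamP, which is the same argument), so there is `k1 ∈ H1` with `⟨k1, Rs s φ⟩ = ∫ f φ`; in the same way `k2 ∈ H2` with `⟨k2, dRs s φ⟩ = ∫ g φ`; `k = k1 + k2`. `U s k` and `f` are locally
integrable with the same integrals against test functions, so they are equal a.e.; same for `V`. (2) For `k = k1 + k2`: `∫ U φ = ⟨k1, Rs s φ⟩`, so `HD (3/2+s) (U s k) ≤ ‖k1‖/√c0`, and `‖k1‖ ≤ √c0 HD (3/2+s) (U s k)` because `k1` is a limit of elements `Rs s φ_n` (`‖k1‖² = lim ⟨k1, Rs s φ_n⟩`). `‖k‖² = ‖k1‖² + ‖k2‖²`.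
(3) `⟨k - k', Rs s φ⟩ = 0 = ⟨k - k', dRs s φ⟩` (FldP), DnsP. Note `2 - 2/b = 3/2 + sig b`, `1 - 2/b = 1/2 + sig b`. -/
def St_Br1 : Prop := ∀ b : ℝ, 4 < b → ∃ c C : ℝ, 0 < c ∧ 0 < C ∧
  (∀ f g : E → ℝ, HN b f g < ⊤ → ∃ k : K, (U (sig b) k =ᵐ[volume] f) ∧ (V (sig b) k =ᵐ[volume] g)) ∧
  (∀ (f g : E → ℝ) (k : K), (U (sig b) k =ᵐ[volume] f) → (V (sig b) k =ᵐ[volume] g) →
    HN b f g ≤ ENNReal.ofReal C * ‖k‖ₑ ∧ ENNReal.ofReal c * ‖k‖ₑ ≤ HN b f g) ∧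
  ∀ k k' : K, (U (sig b) k =ᵐ[volume] U (sig b) k') → (V (sig b) k =ᵐ[volume] V (sig b) k') → k = k'

/-- **Br2** (a weak solution is a Duhamel solution). As QWP.Br2: Br1 gives `k : I → K`, continuous; `k'(t) = tau (t-x) (k x) - ∫_x^t tau (t-r) (NL b (k r)) dr` (NLb, NLw, Meas); `D = k - k'`: `⟨D(t), Rs s φ⟩' = ⟨D(t), dRs s φ⟩`,
`⟨D(t), dRs s φ⟩' = ⟨D(t), Rs s (lap φ)⟩`, `D(x) = 0`. The curve `W(t) = tau (t-t1) (Rs s φ)` is differentiable with derivative `- tau (t-t1) (dRs s φ)`, and `W(t) = Rs s f1 + dRs s f2`, `tau (t-t1) (dRs s φ) = Rs s (lap f2) + dRs s f1` with test functions `f1, f2` (FreX); so `t ↦ ⟨D(t), W(t)⟩` is constant.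
Derivative of `t ↦ tau t (Rs s φ)`: as QWP.DrRs (on the Fourier side `(e^{-2πirt} - 1)/t → - 2πir`, dominated). -/
def St_Br2 : Prop := ∀ b : ℝ, 4 < b → ∀ (I : Set ℝ) (u v : ℝ → E → ℝ), IsSoln b I u v →
  ∃ k : ℝ → K, IsSol b I k ∧ ∀ t ∈ I, (U (sig b) (k t) =ᵐ[volume] u t) ∧ (V (sig b) (k t) =ᵐ[volume] v t)

/-- **Br3** (a Duhamel solution is a weak solution; free waves). As QWP.Br3: WEq, Br1 for the norm (`U (k - k') = U k - U k'` a.e., FldP), GrA; free waves as WEq. -/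
def St_Br3 : Prop := ∀ b : ℝ, 4 < b →
  (∀ (I : Set ℝ) (k : ℝ → K), IsSol b I k → IsSoln b I (fun t => U (sig b) (k t)) (fun t => V (sig b) (k t))) ∧
  ∀ k : K, IsFree b (fun t => U (sig b) (tau t k)) (fun t => V (sig b) (tau t k))

/-- **FinalOf** (from `LA`). As QWP.FinalOf (GrA, FldP, MaxE, Blow, Br1, Br2, Br3). -/
def St_FinalOf : Prop := St_LA → St_Final

end Pool.Agent.QWF
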