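import Pool.Agent.QWF.StF
import Pool.Agent.QWF.StB

set_option autoImplicit false

/-!
# QWF, Br3: a Duhamel solution is a weak solution; free waves

Reusable: `Br3x.dtR`, `Br3x.dtV`, `Br3x.test_lap`.
-/

open MeasureTheory Filter Topology Set
open scoped ENNReal NNReal RealInnerProductSpace

namespace Pool.Agent.QWF

namespace Br3x

/-- The fundamental theorem for pairings. -/
lemma dt (hG : St_Grp1) {κ κ' : K}
    (hd : ∀ t, HasDerivAt (fun r => tau r κ) (-(tau t κ')) t) (k : K) (x t : ℝ) :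
    inner ℝ (tau t k) κ - inner ℝ (tau x k) κ = ∫ r in x..t, inner ℝ (tau r k) κ' := by
  have e : ∀ r, inner ℝ (tau r k) κ = inner ℝ k (tau (-r) κ) := fun r => hG.2.2.2.2.2.1 r k κ
  have h1 : ∀ r, HasDerivAt (fun r => inner ℝ (tau r k) κ) (inner ℝ (tau r k) κ') r := by
    intro r
    simp only [e, hG.2.2.2.2.2.1 r k κ']
    have h2 := (hd (-r)).scomp r (hasDerivAt_neg r)
    have h3 : HasDerivAt (fun r => inner ℝ k (tau (-r) κ)) (inner ℝ k ((-1 : ℝ) • -(tau (-r) κ'))) r :=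
      (innerSL ℝ k).hasFDerivAt.comp_hasDerivAt r h2
    simpa using h3
  have hc : Continuous fun r => inner ℝ (tau r k) κ' :=
    (hG.2.2.2.2.2.2.2.1 k).inner continuous_const
  exact (intervalIntegral.integral_eq_sub_of_hasDerivAt (fun r _ => h1 r)
    (hc.intervalIntegrable _ _)).symm

/-- Position field. -/
theorem dtR (hG : St_Grp1) (hD : St_DrT) {s : ℝ} (hs : |s| < 1 / 2) {φ : E → ℝ}
    (hφ : IsSch φ) (k : K) (x t : ℝ) : inner ℝ (tau t k) (Rs s φ) - inner ℝ (tau x k) (Rs s φ) =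
      ∫ r in x..t, inner ℝ (tau r k) (dRs s φ) := dt hG (fun t => (hD s φ (by linarith [(abs_lt.1 hs).1]) (abs_lt.1 hs).2 hφ t).1) k x t

/-- Velocity field. -/
theorem dtV (hG : St_Grp1) (hD : St_DrT) {s : ℝ} (hs : |s| < 1 / 2) {φ : E → ℝ}
    (hφ : IsSch φ) (k : K) (x t : ℝ) : inner ℝ (tau t k) (dRs s φ) - inner ℝ (tau x k) (dRs s φ) =
      ∫ r in x..t, inner ℝ (tau r k) (Rs s (lap φ)) := dt hG (fun t => (hD s φ (by linarith [(abs_lt.1 hs).1]) (abs_lt.1 hs).2 hφ t).2) k x t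

/-! ### norms -/

lemma HN_lt {b c C : ℝ} (hB : ∀ (f g : E → ℝ) (k : K), (U (sig b) k =ᵐ[volume] f) →
    (V (sig b) k =ᵐ[volume] g) → HN b f g ≤ ENNReal.ofReal C * ‖k‖ₑ ∧
      ENNReal.ofReal c * ‖k‖ₑ ≤ HN b f g)
    (k : K) : HN b (U (sig b) k) (V (sig b) k) < ⊤ :=
  (hB _ _ k (ae_eq_refl _) (ae_eq_refl _)).1.trans_lt
    (ENNReal.mul_lt_top ENNReal.ofReal_lt_top enorm_lt_top)

lemma HN_tendsto {b c C : ℝ} (hL : ∀ (c : ℝ) (k k' : K),
      (U (sig b) (k + c • k') =ᵐ[volume] fun x => U (sig b) k x + c * U (sig b) k' x) ∧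
      (V (sig b) (k + c • k') =ᵐ[volume] fun x => V (sig b) k x + c * V (sig b) k' x))
    (hB : ∀ (f g : E → ℝ) (k : K), (U (sig b) k =ᵐ[volume] f) →
    (V (sig b) k =ᵐ[volume] g) → HN b f g ≤ ENNReal.ofReal C * ‖k‖ₑ ∧
      ENNReal.ofReal c * ‖k‖ₑ ≤ HN b f g)
    {l : Filter ℝ} {k : ℝ → K} {k0 : K} (h : Tendsto k l (𝓝 k0)) :
    Tendsto (fun s => HN b (fun x => U (sig b) (k s) x - U (sig b) k0 x)
      (fun x => V (sig b) (k s) x - V (sig b) k0 x)) l (𝓝 0) := by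
  have h1 : Tendsto (fun s => ENNReal.ofReal C * ‖k s + (-1 : ℝ) • k0‖ₑ) l (𝓝 0) := by
    have h2 : Tendsto (fun s => k s + (-1 : ℝ) • k0) l (𝓝 0) := by
      have := h.add (tendsto_const_nhds (x := (-1 : ℝ) • k0))
      simpa using this
    have h3 := ENNReal.Tendsto.const_mul (a := ENNReal.ofReal C) h2.enorm
      (Or.inr ENNReal.ofReal_ne_top)
    simpa using h3
  refine tendsto_of_tendsto_of_tendsto_of_le_of_le tendsto_const_nhds h1 (fun _ => zero_le)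
    fun s => ?_
  obtain ⟨h4, h5⟩ := hL (-1) (k s) k0
  refine (hB _ _ (k s + (-1 : ℝ) • k0) ?_ ?_).1
  · filter_upwards [h4] with x hx
    rw [hx]; ring
  · filter_upwards [h5] with x hx
    rw [hx]; ring

lemma sig_lt {b : ℝ} (hb : 4 < b) : |sig b| < 1 / 2 := by
  unfold sig
  have h1 : 0 < 2 / b := by positivity
  have h2 : 2 / b < 1 / 2 := by
    rw [div_lt_iff₀ (by linarith)]
    linarith
  rw [abs_lt]
  constructor <;> linarith

lemma test_lap {φ : E → ℝ} (h : IsTest φ) : IsTest (lap φ) := by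
  have h1 : ∀ (i : Fin 4) {ψ : E → ℝ}, IsTest ψ → IsTest (pd i ψ) := by
    intro i ψ hψ
    refine ⟨?_, hψ.2.fderiv_apply ℝ _⟩
    exact (hψ.1.fderiv_right (m := ((⊤ : ℕ∞) : WithTop ℕ∞)) (by simp)).clm_apply contDiff_const
  refine ⟨ContDiff.sum fun i _ => (h1 i (h1 i h)).1, HasCompactSupport.intro h.2 fun x hx => ?_⟩
  refine Finset.sum_eq_zero fun i _ => ?_
  exact image_eq_zero_of_notMem_tsupport fun h2 =>
    hx (tsupport_fderiv_apply_subset ℝ _ (tsupport_fderiv_apply_subset ℝ _ h2))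

end Br3x

open Br3x in
theorem thm_Br3 (hG : St_Grp1) (hFt : St_Ft) (hD : St_DrT) (hF : St_FldP) (hW : St_WEq)
    (hB : St_Br1) : St_Br3 := by
  intro b hb
  have hs := sig_lt hb
  obtain ⟨C, hC, hFk, hL, -⟩ := hF (sig b) hs
  obtain ⟨c1, C1, -, -, -, hB, -⟩ := hB b hb
  have hL' : ∀ (c : ℝ) (k k' : K),
      (U (sig b) (k + c • k') =ᵐ[volume] fun x => U (sig b) k x + c * U (sig b) k' x) ∧
      (V (sig b) (k + c • k') =ᵐ[volume] fun x => V (sig b) k x + c * V (sig b) k' x) :=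
    fun c k k' => ⟨(hL c k k').1, (hL c k k').2.1⟩
  constructor
  · intro I k hk
    exact ⟨hk.1, fun t _ => HN_lt hB (k t), fun t ht => HN_tendsto hL' hB (hk.2.1 t ht),
      hk.2.2.1, fun φ hφ s hs' t ht => hW b hb I k hk s hs' t ht φ hφ⟩
  · intro k
    have hc := hG.2.2.2.2.2.2.2.1 k
    refine ⟨fun t => HN_lt hB (tau t k), fun t => HN_tendsto hL' hB (hc.tendsto t),
      fun φ hφ s t => ⟨?_, ?_⟩⟩
    · have hsch := hFt.1 φ hφ
      have e1 : ∀ r, ∫ x, U (sig b) (tau r k) x * φ x = inner ℝ (tau r k) (Rs (sig b) φ) :=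
        fun r => ((hFk (tau r k)).2.2.2.2.2 φ hsch).1
      have e2 : ∀ r, ∫ x, V (sig b) (tau r k) x * φ x = inner ℝ (tau r k) (dRs (sig b) φ) :=
        fun r => ((hFk (tau r k)).2.2.2.2.2 φ hsch).2
      simp only [e1, e2]
      exact dtR hG hD hs hsch k s t
    · have hsch := hFt.1 φ hφ
      have hsch' := hFt.1 _ (test_lap hφ)
      have e1 : ∀ r, ∫ x, U (sig b) (tau r k) x * lap φ x =
          inner ℝ (tau r k) (Rs (sig b) (lap φ)) :=
        fun r => ((hFk (tau r k)).2.2.2.2.2 _ hsch').1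
      have e2 : ∀ r, ∫ x, V (sig b) (tau r k) x * φ x = inner ℝ (tau r k) (dRs (sig b) φ) :=
        fun r => ((hFk (tau r k)).2.2.2.2.2 φ hsch).2
      simp only [e1, e2]
      exact dtV hG hD hs hsch k s t

end Pool.Agent.QWF
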