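import Pool.Agent.QWF.StC

/-!
# QWF, module C0: reduction to `0 ∉ Q`
-/

set_option autoImplicit false

open MeasureTheory Filter Topology Set
open scoped ENNReal NNReal RealInnerProductSpace

namespace Pool.Agent.QWF


namespace C0x

theorem norm_gr (y : E) (a : ℝ) (k : K) : ‖gr y a k‖ = ‖k‖ := by
  rw [gr, LinearIsometry.norm_map, LinearIsometry.norm_map]

theorem lower (hUniq : St_Uniq) (hSmall : St_Small) {b : ℝ} (hb : 4 < b) (I : Set ℝ) (k : ℝ → K)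
    (hk : IsSol b I k) (t1 : ℝ) (ht1 : t1 ∈ I) (h1 : k t1 ≠ 0) :
    ∃ m0 : ℝ, 0 < m0 ∧ ∀ t ∈ I, m0 ≤ ‖k t‖ := by
  obtain ⟨d0, C, hd0, _, hS⟩ := hSmall b hb
  have hn : 0 < ‖k t1‖ := norm_pos_iff.2 h1
  refine ⟨min d0 (‖k t1‖ / 2), lt_min hd0 (half_pos hn), fun t ht => ?_⟩
  by_contra hcon
  rw [not_le, lt_min_iff] at hcon
  obtain ⟨k', hk', h2, h3, _⟩ := hS (k t) t hcon.1.le
  have h4 : k' t1 = k t1 :=
    hUniq b hb univ I k' k t hk' hk (mem_univ t) ht h2 t1 (mem_univ t1) ht1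
  have h5 := h3 t1
  rw [h4] at h5
  linarith [hcon.2]

end C0x

open C0x in
/-- **C0**. -/
theorem thm_C0 (hUniq : St_Uniq) (hSmall : St_Small) : St_C0 := by
  rintro b hb I k Q x a hmax hQ hgr ⟨t1, ht1, h1⟩
  obtain ⟨m0, hm0, hlow⟩ := lower hUniq hSmall hb I k hmax.1 t1 ht1 h1
  refine ⟨Q ∩ {κ | m0 ≤ ‖κ‖}, hQ.inter_right (isClosed_le continuous_const continuous_norm),
    ?_, hmax, ?_⟩
  · rintro ⟨-, h⟩
    have h' : m0 ≤ ‖(0 : K)‖ := h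
    rw [norm_zero] at h'
    exact absurd h' (not_le.2 hm0)
  · intro t ht
    obtain ⟨κ, hκ, he⟩ := hgr t ht
    refine ⟨κ, ⟨hκ, ?_⟩, he⟩
    change m0 ≤ ‖κ‖
    rw [← norm_gr (x t) (a t) κ, ← he]
    exact hlow t ht

end Pool.Agent.QWF
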