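import Pool.Agent.QWF.StC

/-!
# QWF: lifespan of compact solutions (C1)
-/

set_option autoImplicit false

open MeasureTheory Filter Topology Set
open scoped ENNReal NNReal RealInnerProductSpace

namespace Pool.Agent.QWF


theorem thm_C1 (hC1a : St_C1a) (hCSy : St_CSy) (hMax : St_MaxE) (hGr : Pool.Agent.QWF.St_GrA) : St_C1 := by
  intro b hb Q hQ
  obtain ⟨c, hc, hc2⟩ := hC1a b hb Q hQ
  refine ⟨c, hc, ?_⟩
  intro I k x a hk t ht
  obtain ⟨-, -, g3, -⟩ := hGr
  have hs := (hCSy b hb).1 Q I k x a hk (x t) (a t) t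
  obtain ⟨κ, hκQ, hκ⟩ := hk.2.2.2 t ht
  obtain ⟨k1, hk1, hk10⟩ := hc2 κ hκQ
  obtain ⟨I2, k2, hmax2, h0I2, hk20, huni⟩ := hMax b hb κ 0
  have h0 : (0 : ℝ) ∈ {s : ℝ | t + Real.exp (-(a t)) * s ∈ I} := by
    rw [mem_ofPred_eq, mul_zero, add_zero]
    exact ht
  have hval : ig (x t) (a t) (k (t + Real.exp (-(a t)) * 0)) = κ := by
    rw [mul_zero, add_zero, hκ]
    exact (g3 (x t) (a t) κ).2
  obtain ⟨hsub, heq⟩ := huni _ _ hs.2.2.1.1 h0 hval
  have hsub2 : I2 ⊆ {s : ℝ | t + Real.exp (-(a t)) * s ∈ I} :=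
    hs.2.2.1.2.2.2 I2 k2 hmax2.1 hsub fun s hs' => (heq s hs').symm
  have hsub3 : Icc (-c) c ⊆ I2 :=
    (huni (Icc (-c) c) k1 hk1 ⟨by linarith, hc.le⟩ hk10).1
  intro r hr
  have hE := Real.exp_pos (a t)
  have hee : Real.exp (-(a t)) * Real.exp (a t) = 1 := by
    rw [← Real.exp_add]
    simp
  have h1 : Real.exp (a t) * (r - t) ∈ Icc (-c) c := by
    obtain ⟨hr1, hr2⟩ := hr
    constructor
    · have h2 := mul_le_mul_of_nonneg_left (show -(c * Real.exp (-(a t))) ≤ r - t by linarith) hE.le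
      have h3 : Real.exp (a t) * -(c * Real.exp (-(a t))) = -c := by
        linear_combination (-c) * hee
      linarith
    · have h2 := mul_le_mul_of_nonneg_left (show r - t ≤ c * Real.exp (-(a t)) by linarith) hE.le
      have h3 : Real.exp (a t) * (c * Real.exp (-(a t))) = c := by
        linear_combination c * hee
      linarith
  have h2 := hsub2 (hsub3 h1)
  rw [mem_ofPred_eq] at h2
  have h3 : t + Real.exp (-(a t)) * (Real.exp (a t) * (r - t)) = r := by
    linear_combination (r - t) * hee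
  rwa [h3] at h2

end Pool.Agent.QWF
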