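import Pool.Agent.QWF.StC

/-!
# QWF/C2b (helper96): energy of a state supported in a ball (`d = 4`, all `b > 4`)
-/

set_option autoImplicit false

open MeasureTheory Filter Topology Set
open scoped ENNReal NNReal RealInnerProductSpace

namespace Pool.Agent.QWF

namespace C2bx

/-- volume of the unit ball -/
noncomputable def om : ℝ := volume.real (Metric.ball (0 : E) 1)

theorem om_nonneg : 0 ≤ om := measureReal_nonneg

theorem norm_le {f : E → ℝ} {x0 : E} {r A : ℝ} (hr : 0 < r) (p q : ℝ) (hp : 0 < p) (hpq : p ≤ q)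
    (s : ℝ) (hs : 1 / p - 1 / q = s / 4)
    (hs0 : 0 ≤ s) (hf : MemLp f (ENNReal.ofReal q) volume)
    (hfA : eLpNorm f (ENNReal.ofReal q) volume ≤ ENNReal.ofReal A)
    (h0 : ∀ᵐ x, r < dist x x0 → f x = 0) :
    eLpNorm f (ENNReal.ofReal p) volume ≤ ENNReal.ofReal (A * (om ^ (s / 4) * r ^ s)) := by
  set B : Set E := Metric.closedBall x0 r with hB
  have hBm : MeasurableSet B := Metric.isClosed_closedBall.measurableSet
  have h1 : f =ᵐ[volume] B.indicator f := by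
    filter_upwards [h0] with x hx
    by_cases hxB : x ∈ B
    · rw [indicator_of_mem hxB]
    · rw [indicator_of_notMem hxB]
      apply hx
      rw [hB, Metric.mem_closedBall, not_le] at hxB
      exact hxB
  have hv : volume B = ENNReal.ofReal (r ^ 4 * om) := by
    have h2 : volume.real B = r ^ 4 * om := by
      have h3 := Measure.addHaar_real_closedBall (volume : Measure E) x0 hr.le
      rw [hB, h3, om]
      congr 2
      simp
    rw [← h2, Measure.real, ENNReal.ofReal_toReal]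
    exact (isCompact_closedBall x0 r).measure_lt_top.ne
  have hv0 : 0 ≤ r ^ 4 * om := mul_nonneg (by positivity) om_nonneg
  have hs4 : 0 ≤ s / 4 := by positivity
  have hq : 0 < q := hp.trans_le hpq
  calc eLpNorm f (ENNReal.ofReal p) volume
      = eLpNorm f (ENNReal.ofReal p) (volume.restrict B) := by
        rw [eLpNorm_congr_ae h1, eLpNorm_indicator_eq_eLpNorm_restrict hBm]
    _ ≤ eLpNorm f (ENNReal.ofReal q) (volume.restrict B) * (volume.restrict B) Set.univ ^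
          (1 / (ENNReal.ofReal p).toReal - 1 / (ENNReal.ofReal q).toReal) :=
        eLpNorm_le_eLpNorm_mul_rpow_measure_univ (ENNReal.ofReal_le_ofReal hpq)
          hf.aestronglyMeasurable.restrict
    _ = eLpNorm f (ENNReal.ofReal q) (volume.restrict B) * volume B ^ (s / 4) := by
        rw [Measure.restrict_apply_univ, ENNReal.toReal_ofReal hp.le, ENNReal.toReal_ofReal hq.le,
          hs]
    _ ≤ ENNReal.ofReal A * volume B ^ (s / 4) := by
        gcongr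
        exact (eLpNorm_mono_measure f Measure.restrict_le_self).trans hfA
    _ = _ := by
        rw [hv, ENNReal.ofReal_rpow_of_nonneg hv0 hs4,
          ← ENNReal.ofReal_mul' (Real.rpow_nonneg hv0 _)]
        congr 2
        rw [Real.mul_rpow (by positivity) om_nonneg, mul_comm]
        congr 1
        rw [← Real.rpow_natCast, ← Real.rpow_mul hr.le]
        congr 1
        push_cast
        ring

theorem rpow_eq {f : E → ℝ} (p : ℝ) (hp : 0 < p) (hf : MemLp f (ENNReal.ofReal p) volume) :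
    0 ≤ ∫ x, |f x| ^ p ∧
      ENNReal.ofReal (∫ x, |f x| ^ p) = eLpNorm f (ENNReal.ofReal p) volume ^ p := by
  have h0 : ∀ x, 0 ≤ |f x| ^ p := fun x => Real.rpow_nonneg (abs_nonneg _) _
  refine ⟨integral_nonneg h0, ?_⟩
  have hp0 : ENNReal.ofReal p ≠ 0 := by simpa using hp
  have h1 := lintegral_rpow_enorm_eq_rpow_eLpNorm' (μ := (volume : Measure E)) (f := f) hp
  rw [eLpNorm_eq_eLpNorm' hp0 ENNReal.ofReal_ne_top, ENNReal.toReal_ofReal hp.le, ← h1,
    ofReal_integral_eq_lintegral_ofReal _ (Eventually.of_forall h0)]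
  · refine lintegral_congr fun x => ?_
    rw [Real.enorm_eq_ofReal_abs, ENNReal.ofReal_rpow_of_nonneg (abs_nonneg _) hp.le]
  · have h4 := hf.integrable_norm_rpow hp0 ENNReal.ofReal_ne_top
    rw [ENNReal.toReal_ofReal hp.le] at h4
    simpa only [Real.norm_eq_abs] using h4

theorem key {f : E → ℝ} {x0 : E} {r A : ℝ} (hr : 0 < r) (hA : 0 ≤ A) (p q : ℝ) (hp : 0 < p)
    (hpq : p ≤ q) (s : ℝ) (hs : 1 / p - 1 / q = s / 4) (hs0 : 0 ≤ s)
    (hf : MemLp f (ENNReal.ofReal q) volume)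
    (hfA : eLpNorm f (ENNReal.ofReal q) volume ≤ ENNReal.ofReal A)
    (h0 : ∀ᵐ x, r < dist x x0 → f x = 0) :
    0 ≤ ∫ x, |f x| ^ p ∧
      ∫ x, |f x| ^ p ≤ A ^ p * (om ^ (s * p / 4) * r ^ (s * p)) := by
  have h1 := norm_le hr p q hp hpq s hs hs0 hf hfA h0
  have hm : MemLp f (ENNReal.ofReal p) volume :=
    ⟨hf.aestronglyMeasurable, h1.trans_lt ENNReal.ofReal_lt_top⟩
  obtain ⟨h2, h3⟩ := rpow_eq p hp hm
  refine ⟨h2, ?_⟩
  have hw0 : 0 ≤ om ^ (s / 4) := Real.rpow_nonneg om_nonneg _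
  have hr0 : 0 ≤ r ^ s := Real.rpow_nonneg hr.le _
  have hX : 0 ≤ A * (om ^ (s / 4) * r ^ s) := by positivity
  have h4 : ENNReal.ofReal (∫ x, |f x| ^ p) ≤
      ENNReal.ofReal ((A * (om ^ (s / 4) * r ^ s)) ^ p) := by
    rw [h3, ← ENNReal.ofReal_rpow_of_nonneg hX hp.le]
    exact ENNReal.rpow_le_rpow h1 hp.le
  have h5 := (ENNReal.ofReal_le_ofReal_iff (Real.rpow_nonneg hX p)).1 h4
  refine h5.trans (le_of_eq ?_)
  rw [Real.mul_rpow hA (by positivity), Real.mul_rpow hw0 hr0, ← Real.rpow_mul om_nonneg,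
    ← Real.rpow_mul hr.le]
  congr 3
  ring

end C2bx

open C2bx in
/-- **C2b** -/
theorem thm_C2b (hF : St_FldP) (hE : St_ExFP) : St_C2b := by
  intro b hb
  have hb0 : 0 < b := by linarith
  have hsb : |sig b| < 1 / 2 := by
    rw [sig, abs_lt]
    have h1 : 0 < 2 / b := by positivity
    have h2 : 2 / b < 1 := by rw [div_lt_one hb0]; linarith
    constructor <;> linarith
  set s : ℝ := sig b with hs
  have hs' := abs_lt.1 hsb
  have hq0 : q0 s = ENNReal.ofReal (2 * b) := by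
    rw [q0, hs, sig]
    congr 1
    field_simp
    ring
  have hq1 : q1 s = ENNReal.ofReal (4 * b / (b + 2)) := by
    rw [q1, hs, sig]
    congr 1
    have h1 : (3 : ℝ) - 2 * (1 / 2 - 2 / b) = 2 * (b + 2) / b := by field_simp; ring
    rw [h1]
    field_simp
    ring
  obtain ⟨C, hC, hFld, hLin, -⟩ := hF s hsb
  obtain ⟨_, _, hExF⟩ := hE s hsb
  have ho1 : 0 ≤ om ^ ((1 / 2 + s) / 4) := Real.rpow_nonneg om_nonneg _
  have ho2 : 0 ≤ om ^ ((1 + 2 * s) / 4) := Real.rpow_nonneg om_nonneg _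
  have hCb : 0 ≤ C ^ (b + 2) := Real.rpow_nonneg hC.le _
  set W : ℝ := om ^ ((1 + 2 * s) / 4) with hW
  set W1 : ℝ := om ^ ((1 / 2 + s) / 4) with hW1
  refine ⟨C * W1 + (3 * C ^ 2 + C ^ (b + 2)) * W + 1, by positivity, ?_⟩
  intro k x0 r hr hvan
  have hopen : IsOpen (xt x0 r) :=
    isOpen_lt (f := fun _ : E => r) (g := fun x : E => dist x x0) continuous_const
      (continuous_id.dist continuous_const)
  -- the fields of the zero element
  have hz := hLin (-1) 0 0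
  have hz0 : (0 : K) + (-1 : ℝ) • (0 : K) = 0 := by simp
  rw [hz0] at hz
  obtain ⟨hz1, hz2, hz3⟩ := hz
  have hEx := (hExF k (xt x0 r) hopen).2.2.2 0 (by rw [sub_zero]; exact hvan)
  have hU : ∀ᵐ x, r < dist x x0 → U s k x = 0 := by
    filter_upwards [hEx, hz1] with x h1 h2 hx
    rw [(h1 hx).1, h2]
    ring
  have hV : ∀ᵐ x, r < dist x x0 → V s k x = 0 := by
    filter_upwards [hEx, hz2] with x h1 h2 hx
    rw [(h1 hx).2.1, h2]
    ring
  have hD : ∀ i, ∀ᵐ x, r < dist x x0 → DU s k i x = 0 := by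
    intro i
    filter_upwards [hEx, hz3 i] with x h1 h2 hx
    rw [(h1 hx).2.2 i, h2]
    ring
  obtain ⟨hIU, hUn, hIV, hVn, hDn, -⟩ := hFld k
  have hA : 0 ≤ C * ‖k‖ := by positivity
  have hconv : ENNReal.ofReal C * ‖k‖ₑ = ENNReal.ofReal (C * ‖k‖) := by
    rw [ENNReal.ofReal_mul hC.le, ofReal_norm]
  rw [hconv, hq0] at hUn
  rw [hconv, hq1] at hVn
  have hUm : MemLp (U s k) (ENNReal.ofReal (2 * b)) volume := by
    rw [← hq0]; exact hIU.1
  have hVm : MemLp (V s k) (ENNReal.ofReal (4 * b / (b + 2))) volume := by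
    rw [← hq1]; exact hIV.1
  have hDm : ∀ i, MemLp (DU s k i) (ENNReal.ofReal (4 * b / (b + 2))) volume := fun i => by
    rw [← hq1]; exact (hDn i).1
  have hDl : ∀ i, eLpNorm (DU s k i) (ENNReal.ofReal (4 * b / (b + 2))) volume ≤
      ENNReal.ofReal (C * ‖k‖) := fun i => by
    rw [← hq1, ← hconv]; exact (hDn i).2.2
  have hb2 : 0 < b + 2 := by linarith
  have e1 : (2 : ℝ) ≤ 4 * b / (b + 2) := by
    rw [le_div_iff₀ hb2]; linarith
  have e2 : (4 : ℝ) ≤ 2 * b := by linarith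
  have e3 : b + 2 ≤ 2 * b := by linarith
  have f1 : 1 / (2 : ℝ) - 1 / (4 * b / (b + 2)) = (1 / 2 + s) / 4 := by
    rw [hs, sig]; field_simp; ring
  have f2 : 1 / (4 : ℝ) - 1 / (2 * b) = (1 / 2 + s) / 4 := by
    rw [hs, sig]; field_simp; ring
  have f3 : 1 / (b + 2) - 1 / (2 * b) = ((1 + 2 * s) / (b + 2)) / 4 := by
    rw [hs, sig]; field_simp; ring
  have hs1 : 0 ≤ 1 / 2 + s := by linarith
  have hs2 : 0 ≤ (1 + 2 * s) / (b + 2) := div_nonneg (by linarith) hb2.le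
  -- norms
  have nD : ∀ i, eLpNorm (DU s k i) (ENNReal.ofReal 2) volume ≤
      ENNReal.ofReal (C * ‖k‖ * (W1 * r ^ (1 / 2 + s))) := fun i =>
    norm_le hr 2 _ (by norm_num) e1 (1 / 2 + s) f1 hs1 (hDm i) (hDl i) (hD i)
  have nV : eLpNorm (V s k) (ENNReal.ofReal 2) volume ≤
      ENNReal.ofReal (C * ‖k‖ * (W1 * r ^ (1 / 2 + s))) :=
    norm_le hr 2 _ (by norm_num) e1 (1 / 2 + s) f1 hs1 hVm hVn hV
  have nU : eLpNorm (U s k) (ENNReal.ofReal 4) volume ≤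
      ENNReal.ofReal (C * ‖k‖ * (W1 * r ^ (1 / 2 + s))) :=
    norm_le hr 4 _ (by norm_num) e2 (1 / 2 + s) f2 hs1 hUm hUn hU
  have g2 : ENNReal.ofReal 2 = 2 := by simp
  have g3 : ENNReal.ofReal 4 = 4 := by simp
  rw [g2] at nV
  simp only [g2] at nD
  rw [g3] at nU
  -- integrals
  have kD := fun i => key hr hA 2 _ (by norm_num) e1 (1 / 2 + s) f1 hs1 (hDm i) (hDl i) (hD i)
  have kV := key hr hA 2 _ (by norm_num) e1 (1 / 2 + s) f1 hs1 hVm hVn hV
  have kU := key hr hA (b + 2) _ hb2 e3 _ f3 hs2 hUm hUn hU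
  have t1 : (1 / 2 + s) * 2 = 1 + 2 * s := by ring
  have t2 : (1 + 2 * s) / (b + 2) * (b + 2) = 1 + 2 * s := by field_simp
  have t3 : (C * ‖k‖) ^ (2 : ℝ) = C ^ 2 * ‖k‖ ^ 2 := by
    rw [Real.rpow_two]; ring
  have t4 : (C * ‖k‖) ^ (b + 2) = C ^ (b + 2) * ‖k‖ ^ (b + 2) :=
    Real.mul_rpow hC.le (norm_nonneg _)
  have sq : ∀ g : E → ℝ, (fun x => |g x| ^ (2 : ℝ)) = fun x => g x ^ 2 := fun g => by
    funext x
    rw [Real.rpow_two, sq_abs]
  have sq' : ∀ g : E → ℝ, ∫ x, |g x| ^ (2 : ℝ) = ∫ x, g x ^ 2 := fun g => by rw [sq g]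
  simp only [sq', t1, t3, ← hW] at kD
  rw [sq', t1, t3, ← hW] at kV
  rw [t2, t4, ← hW] at kU
  have hr1 : 0 ≤ r ^ (1 / 2 + s) := Real.rpow_nonneg hr.le _
  have hr2 : 0 ≤ r ^ (1 + 2 * s) := Real.rpow_nonneg hr.le _
  set R : ℝ := r ^ (1 + 2 * s) with hR
  set R1 : ℝ := r ^ (1 / 2 + s) with hR1
  have hkb : 0 ≤ ‖k‖ ^ (b + 2) := Real.rpow_nonneg (norm_nonneg _) _
  have hbd : C * ‖k‖ * (W1 * R1) ≤ (C * W1 + (3 * C ^ 2 + C ^ (b + 2)) * W + 1) * R1 * ‖k‖ := by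
    have : 0 ≤ ((3 * C ^ 2 + C ^ (b + 2)) * W + 1) * R1 * ‖k‖ := by positivity
    nlinarith [this]
  refine ⟨⟨fun i => (nD i).trans (ENNReal.ofReal_le_ofReal hbd),
    nV.trans (ENNReal.ofReal_le_ofReal hbd), nU.trans (ENNReal.ofReal_le_ofReal hbd)⟩, ?_, ?_⟩
  · unfold En
    have h1 : 0 ≤ ∑ i, ∫ x, DU s k i x ^ 2 := Finset.sum_nonneg fun i _ => (kD i).1
    have h2 := kV.1
    have h3 := kU.1
    rw [← hs]
    positivity
  · unfold En
    rw [← hs]
    have h1 : ∑ i, ∫ x, DU s k i x ^ 2 ≤ 4 * (C ^ 2 * ‖k‖ ^ 2 * (W * R)) := by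
      refine (Finset.sum_le_card_nsmul _ _ _ (fun i _ => (kD i).2)).trans ?_
      simp
    have h2 := kV.2
    have h3 := kU.2
    have h4 : (∫ x, |U s k x| ^ (b + 2)) / (b + 2) ≤ C ^ (b + 2) * ‖k‖ ^ (b + 2) * (W * R) := by
      refine (div_le_self kU.1 (by linarith)).trans h3
    have h7 : (∑ i, ∫ x, DU s k i x ^ 2) / 2 + (∫ x, V s k x ^ 2) / 2 +
        (∫ x, |U s k x| ^ (b + 2)) / (b + 2) ≤
        3 * (C ^ 2 * ‖k‖ ^ 2 * (W * R)) + C ^ (b + 2) * ‖k‖ ^ (b + 2) * (W * R) := by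
      linarith
    refine h7.trans ?_
    have g1 : 0 ≤ 3 * (C ^ 2 * ‖k‖ ^ (b + 2) * (W * R)) := by positivity
    have g2' : 0 ≤ C ^ (b + 2) * ‖k‖ ^ 2 * (W * R) := by positivity
    have g3' : 0 ≤ (C * W1 + 1) * R * (‖k‖ ^ 2 + ‖k‖ ^ (b + 2)) := by positivity
    have e3 : (C * W1 + (3 * C ^ 2 + C ^ (b + 2)) * W + 1) * R * (‖k‖ ^ 2 + ‖k‖ ^ (b + 2)) =
        3 * (C ^ 2 * ‖k‖ ^ 2 * (W * R)) + C ^ (b + 2) * ‖k‖ ^ (b + 2) * (W * R) +
        3 * (C ^ 2 * ‖k‖ ^ (b + 2) * (W * R)) + C ^ (b + 2) * ‖k‖ ^ 2 * (W * R) +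
        (C * W1 + 1) * R * (‖k‖ ^ 2 + ‖k‖ ^ (b + 2)) := by ring
    rw [e3]
    linarith

end Pool.Agent.QWF
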