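import Pool.Agent.QWF.StC

set_option autoImplicit false

/-!
# QWF, module C6: normalised compact solution
-/

open MeasureTheory Filter Topology Set
open scoped ENNReal NNReal RealInnerProductSpace

namespace Pool.Agent.QWF


theorem thm_C6 (h4 : St_C4) (h3 : St_C3) (h5 : Pool.Agent.QWF.St_C5) : St_C6 := by
  intro p hp Q k x a hC
  have hosc := h4 p hp Q k x a hC
  have h : ∀ n : ℕ, ∃ t : ℝ, ∀ s : ℝ, |s| ≤ (n : ℝ) + 1 →
      a t - Real.log 2 ≤ a (t + Real.exp (-(a t)) * s) := fun n =>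
    h5 a hosc ((n : ℝ) + 1) (by positivity)
  choose t ht using h
  choose κ hκQ hκ using fun n => hC.2.2.2 (t n) (mem_univ _)
  obtain ⟨κ', -, φ, hφ, hlim⟩ := hC.1.tendsto_subseq hκQ
  obtain ⟨k', x', a', hC', -, -, hb⟩ := h3 p hp Q k x a hC (t ∘ φ) (κ ∘ φ) κ'
    (fun n => ⟨hκQ _, hκ _⟩) hlim
  refine ⟨k', x', a', hC', fun s => hb s (-Real.log 2) ?_⟩
  obtain ⟨m, hm⟩ := exists_nat_ge |s|
  filter_upwards [eventually_ge_atTop m] with n hn
  have h1 : |s| ≤ (φ n : ℝ) + 1 := by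
    have h2 : m ≤ φ n := hn.trans (hφ.id_le n)
    have h3 : (m : ℝ) ≤ φ n := by exact_mod_cast h2
    linarith
  have h2 := ht (φ n) s h1
  simp only [Function.comp_apply]
  linarith

end Pool.Agent.QWF
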