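import Pool.Agent.QWF.StA

set_option autoImplicit false

/-!
# QWF, Ft: Fourier transform of Schwartz functions
-/

open MeasureTheory Filter Topology Set
open scoped ENNReal NNReal RealInnerProductSpace FourierTransform SchwartzMap LineDeriv

namespace Pool.Agent.QWF

namespace Ftx

theorem sch_pd {φ : E → ℝ} (h : IsSch φ) (i : Fin 4) : IsSch (pd i φ) := by
  obtain ⟨f, hf⟩ := h
  have he : φ = f := by
    funext x
    exact (hf x).symm
  refine ⟨∂_{EuclideanSpace.single i (1 : ℝ)} f, fun x => ?_⟩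
  rw [he]
  rfl

theorem sch_lap {φ : E → ℝ} (h : IsSch φ) : IsSch (lap φ) := by
  choose g hg using fun i : Fin 4 => sch_pd (sch_pd h i) i
  refine ⟨∑ i, g i, fun x => ?_⟩
  rw [sum_apply]
  exact Finset.sum_congr rfl fun i _ => hg i x

/-- complexification -/
theorem exists_cx {φ : E → ℝ} (h : IsSch φ) : ∃ f : 𝓢(E, ℂ), ∀ x, f x = (φ x : ℂ) := by
  obtain ⟨f, hf⟩ := h
  refine ⟨f.postcompCLM Complex.ofRealCLM, fun x => ?_⟩
  rw [SchwartzMap.postcompCLM_apply, hf x]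
  rfl

/-- `ft` is the Fourier transform of Mathlib. -/
theorem ft_eq {φ : E → ℝ} {f : 𝓢(E, ℂ)} (hf : ∀ x, f x = (φ x : ℂ)) (ξ : E) :
    ft φ ξ = 𝓕 f ξ := by
  rw [SchwartzMap.fourier_coe, Real.fourier_eq', ft]
  refine integral_congr_ae (Eventually.of_forall fun x => ?_)
  simp only [smul_eq_mul, hf]
  rw [mul_comm]
  congr 2
  push_cast
  ring

theorem ft_int {φ : E → ℝ} (h : IsSch φ) (ξ : E) : Integrable (fun x => (φ x : ℂ) *
    Complex.exp (-2 * Real.pi * Complex.I * ((inner ℝ x ξ : ℝ) : ℂ))) volume := by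
  obtain ⟨f, hf⟩ := Ftx.exists_cx h
  have h1 : Integrable (fun x => (φ x : ℂ)) volume := by
    have h2 : (fun x => (φ x : ℂ)) = f := by
      funext x
      exact (hf x).symm
    rw [h2]
    exact f.integrable
  refine h1.mul_bdd (c := 1) (by fun_prop) (Eventually.of_forall fun x => ?_)
  rw [show (-2 * Real.pi * Complex.I * ((inner ℝ x ξ : ℝ) : ℂ) : ℂ) =
    ((-2 * Real.pi * inner ℝ x ξ : ℝ) : ℂ) * Complex.I by push_cast; ring,
    Complex.norm_exp_ofReal_mul_I]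

theorem ft_pd {φ : E → ℝ} (h : IsSch φ) (i : Fin 4) (ξ : E) :
    ft (pd i φ) ξ = 2 * Real.pi * Complex.I * ((ξ i : ℝ) : ℂ) * ft φ ξ := by
  obtain ⟨f, hf⟩ := Ftx.exists_cx h
  have h1 : ∀ x, (∂_{EuclideanSpace.single i (1 : ℝ)} f : 𝓢(E, ℂ)) x = (pd i φ x : ℂ) := by
    intro x
    rw [SchwartzMap.lineDerivOp_apply_eq_fderiv]
    obtain ⟨g, hg⟩ := h
    have e1 : φ = g := by
      funext x
      exact (hg x).symm
    have e2 : (f : E → ℂ) = fun x => ((φ x : ℝ) : ℂ) := by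
      funext x
      exact hf x
    have h3 : HasFDerivAt φ (fderiv ℝ φ x) x := by
      rw [e1]
      exact g.differentiableAt.hasFDerivAt
    have h4 : HasFDerivAt (fun x => ((φ x : ℝ) : ℂ)) (Complex.ofRealCLM ∘L (fderiv ℝ φ x)) x :=
      Complex.ofRealCLM.hasFDerivAt.comp x h3
    rw [e2, h4.fderiv]
    rfl
  rw [ft_eq h1, ft_eq hf, SchwartzMap.fourier_lineDerivOp_eq]
  have h5 : (inner ℝ · (EuclideanSpace.single i (1 : ℝ)) : E → ℝ).HasTemperateGrowth := by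
    fun_prop
  rw [smul_apply, SchwartzMap.smulLeftCLM_apply_apply h5]
  rw [EuclideanSpace.inner_single_right]
  simp
  ring

theorem ft_sum {ι : Type} (s : Finset ι) (g : ι → E → ℝ) (hg : ∀ i ∈ s, IsSch (g i)) (ξ : E) :
    ft (fun x => ∑ i ∈ s, g i x) ξ = ∑ i ∈ s, ft (g i) ξ := by
  unfold ft
  rw [← integral_finsetSum s (fun i hi => ft_int (hg i hi) ξ)]
  refine integral_congr_ae (Eventually.of_forall fun x => ?_)
  show ((∑ i ∈ s, g i x : ℝ) : ℂ) * _ = _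
  rw [Complex.ofReal_sum, Finset.sum_mul]

theorem ft_lap {φ : E → ℝ} (h : IsSch φ) (ξ : E) :
    ft (lap φ) ξ = -(((2 * Real.pi * ‖ξ‖) ^ 2 : ℝ) : ℂ) * ft φ ξ := by
  have h1 : lap φ = fun x => ∑ i, pd i (pd i φ) x := rfl
  rw [h1, ft_sum _ _ (fun i _ => Ftx.sch_pd (Ftx.sch_pd h i) i)]
  have h2 : ∀ i : Fin 4, ft (pd i (pd i φ)) ξ =
      -((2 * Real.pi) ^ 2 * (((ξ i) ^ 2 : ℝ) : ℂ)) * ft φ ξ := by
    intro i
    rw [ft_pd (Ftx.sch_pd h i), ft_pd h]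
    push_cast
    linear_combination (4 * Real.pi ^ 2 * ((ξ i : ℝ) : ℂ) ^ 2 * ft φ ξ) * Complex.I_sq
  rw [Finset.sum_congr rfl fun i _ => h2 i, ← Finset.sum_mul]
  congr 1
  rw [Finset.sum_neg_distrib, ← Finset.mul_sum, ← Complex.ofReal_sum]
  have h3 : ‖ξ‖ ^ 2 = ∑ i, ξ i ^ 2 := by
    rw [EuclideanSpace.norm_sq_eq]
    simp only [Real.norm_eq_abs, sq_abs]
  have h4 : (2 * Real.pi * ‖ξ‖) ^ 2 = (2 * Real.pi) ^ 2 * ∑ i, ξ i ^ 2 := by
    rw [mul_pow, h3]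
  rw [h4, Complex.ofReal_mul]
  push_cast
  ring

theorem ft_neg (φ : E → ℝ) (ξ : E) : ft φ (-ξ) = (starRingEnd ℂ) (ft φ ξ) := by
  unfold ft
  rw [← integral_conj]
  refine integral_congr_ae (Eventually.of_forall fun x => ?_)
  simp only [map_mul, Complex.conj_ofReal, ← Complex.exp_conj, map_neg, Complex.conj_I, map_ofNat,
    inner_neg_right]
  congr 2
  push_cast
  ring

theorem ft_trans (φ : E → ℝ) (y ξ : E) : ft (fun x => φ (x - y)) ξ =
    Complex.exp (-2 * Real.pi * Complex.I * ((inner ℝ y ξ : ℝ) : ℂ)) * ft φ ξ := by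
  unfold ft
  rw [← integral_const_mul]
  rw [← integral_sub_right_eq_self (fun x => Complex.exp (-2 * Real.pi * Complex.I *
    ((inner ℝ y ξ : ℝ) : ℂ)) * ((φ x : ℂ) * Complex.exp (-2 * Real.pi * Complex.I *
      ((inner ℝ x ξ : ℝ) : ℂ)))) y]
  refine integral_congr_ae (Eventually.of_forall fun x => ?_)
  show (φ (x - y) : ℂ) * _ = _ * ((φ (x - y) : ℂ) * _)
  rw [mul_left_comm, ← Complex.exp_add]
  congr 2
  rw [inner_sub_left]
  push_cast
  ring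

theorem sch_trans {φ : E → ℝ} (h : IsSch φ) (y : E) : IsSch fun x => φ (x - y) := by
  obtain ⟨f, hf⟩ := h
  exact ⟨f.compSubConstCLM ℝ y, fun x => by rw [SchwartzMap.compSubConstCLM_apply, hf]⟩

theorem ft_cont {φ : E → ℝ} (h : IsSch φ) : Continuous (ft φ) := by
  obtain ⟨f, hf⟩ := Ftx.exists_cx h
  have h1 : ft φ = (𝓕 f : 𝓢(E, ℂ)) := by
    funext ξ
    exact ft_eq hf ξ
  rw [h1]
  exact (𝓕 f).continuous

theorem ft_decay {φ : E → ℝ} (h : IsSch φ) (N : ℕ) :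
    ∃ C : ℝ, ∀ ξ, ‖ft φ ξ‖ ≤ C / (1 + ‖ξ‖) ^ N := by
  obtain ⟨f, hf⟩ := Ftx.exists_cx h
  refine ⟨2 ^ N * (Finset.Iic (N, 0)).sup (fun m => SchwartzMap.seminorm ℝ m.1 m.2) (𝓕 f),
    fun ξ => ?_⟩
  have h1 := SchwartzMap.one_add_le_sup_seminorm_apply (𝕜 := ℝ) (m := (N, 0)) (k := N) (n := 0)
    le_rfl le_rfl (𝓕 f) ξ
  rw [norm_iteratedFDeriv_zero] at h1
  rw [ft_eq hf, le_div_iff₀ (by positivity), mul_comm]
  exact h1

theorem ft_pars {φ ψ : E → ℝ} (h : IsSch φ) (h' : IsSch ψ) :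
    ∫ x, φ x * ψ x = (∫ ξ, ft φ ξ * (starRingEnd ℂ) (ft ψ ξ)).re := by
  obtain ⟨f, hf⟩ := Ftx.exists_cx h
  obtain ⟨g, hg⟩ := Ftx.exists_cx h'
  have h1 := SchwartzMap.integral_inner_fourier_fourier g f
  have h2 : ∫ ξ, ft φ ξ * (starRingEnd ℂ) (ft ψ ξ) = ∫ ξ, inner ℂ (𝓕 g ξ) (𝓕 f ξ) := by
    refine integral_congr_ae (Eventually.of_forall fun ξ => ?_)
    simp only
    rw [RCLike.inner_apply, ft_eq hf, ft_eq hg]
  have h3 : ∫ x, inner ℂ (g x) (f x) = ((∫ x, φ x * ψ x : ℝ) : ℂ) := by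
    rw [← integral_complex_ofReal]
    refine integral_congr_ae (Eventually.of_forall fun x => ?_)
    simp only
    rw [RCLike.inner_apply, hf, hg, Complex.conj_ofReal, Complex.ofReal_mul]
  rw [h2, h1, h3, Complex.ofReal_re]

end Ftx

open Ftx in
/-- **Ft**. -/
theorem thm_Ft : St_Ft := by
  refine ⟨fun φ h => ⟨h.2.toSchwartzMap h.1, fun _ => rfl⟩, fun φ h => ⟨ft_cont h, ft_decay h,
    fun ψ h' => ft_pars h h', ft_pd h, ft_lap h, ft_neg φ, ft_trans φ,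
    Ftx.sch_pd h, Ftx.sch_lap h, sch_trans h⟩⟩

end Pool.Agent.QWF
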