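import Pool.Agent.QWF.StA
import Pool.Agent.QWF.Ft

set_option autoImplicit false

/-!
# QWF, CutM: multiplication by a test function in the homogeneous Sobolev spaces (port of QWP.CutM)
-/

open MeasureTheory Filter Topology Set
open scoped ENNReal NNReal RealInnerProductSpace FourierTransform SchwartzMap

namespace Pool.Agent.QWF


namespace CutMx

/-! ### the convolution formula -/

private lemma int_ft {φ : E → ℝ} (h : IsSch φ) : Integrable (ft φ) volume := by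
  obtain ⟨f, hf⟩ := Ftx.exists_cx h
  have h1 : ft φ = (𝓕 f : 𝓢(E, ℂ)) := funext fun ξ => Ftx.ft_eq hf ξ
  rw [h1]
  exact (𝓕 f).integrable

private lemma int_c {φ : E → ℝ} (h : IsSch φ) : Integrable (fun x => (φ x : ℂ)) volume := by
  obtain ⟨f, hf⟩ := Ftx.exists_cx h
  have h2 : (fun x => (φ x : ℂ)) = f := by
    funext x
    exact (hf x).symm
  rw [h2]
  exact f.integrable

private lemma inv_ft {φ : E → ℝ} (h : IsSch φ) (x : E) : (φ x : ℂ) =
    ∫ η, ft φ η * Complex.exp (2 * Real.pi * Complex.I * ((inner ℝ x η : ℝ) : ℂ)) := by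
  obtain ⟨f, hf⟩ := Ftx.exists_cx h
  have h1 : ft φ = (𝓕 f : 𝓢(E, ℂ)) := funext fun ξ => Ftx.ft_eq hf ξ
  have h2 : 𝓕⁻ (𝓕 f) = f := FourierTransform.fourierInv_fourier_eq f
  have h3 : f x = (𝓕⁻ (𝓕 f) : 𝓢(E, ℂ)) x := by rw [h2]
  rw [← hf x, h3, SchwartzMap.fourierInv_coe, Real.fourierInv_eq', h1]
  refine integral_congr_ae (Eventually.of_forall fun η => ?_)
  simp only [smul_eq_mul]
  rw [mul_comm, real_inner_comm]
  congr 2
  push_cast
  ring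

private lemma conv {χ f : E → ℝ} (hχ : IsSch χ) (hf : IsSch f) (ξ : E) :
    ft (fun x => χ x * f x) ξ = ∫ η, ft f η * ft χ (ξ - η) := by
  have h1 : ∀ x, ((χ x * f x : ℝ) : ℂ) *
      Complex.exp (-2 * Real.pi * Complex.I * ((inner ℝ x ξ : ℝ) : ℂ)) =
      ∫ η, ft f η * ((χ x : ℂ) *
        Complex.exp (-2 * Real.pi * Complex.I * ((inner ℝ x (ξ - η) : ℝ) : ℂ))) := by
    intro x
    rw [Complex.ofReal_mul, inv_ft hf x, mul_assoc, mul_comm, mul_assoc, mul_comm _ (χ x : ℂ),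
      ← integral_mul_const]
    refine integral_congr_ae (Eventually.of_forall fun η => ?_)
    simp only
    have e : Complex.exp (-2 * Real.pi * Complex.I * ((inner ℝ x (ξ - η) : ℝ) : ℂ)) =
        Complex.exp (2 * Real.pi * Complex.I * ((inner ℝ x η : ℝ) : ℂ)) *
          Complex.exp (-2 * Real.pi * Complex.I * ((inner ℝ x ξ : ℝ) : ℂ)) := by
      rw [← Complex.exp_add]
      congr 1
      rw [inner_sub_right]
      push_cast
      ring
    rw [e]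
    ring
  rw [ft]
  simp only [h1]
  have h2 : Integrable (Function.uncurry fun x η : E => ft f η * ((χ x : ℂ) *
      Complex.exp (-2 * Real.pi * Complex.I * ((inner ℝ x (ξ - η) : ℝ) : ℂ))))
      ((volume : Measure E).prod volume) := by
    have h3 := ((int_c hχ).mul_prod (int_ft hf)).mul_bdd (c := 1)
      (g := fun z : E × E =>
        Complex.exp (-2 * Real.pi * Complex.I * ((inner ℝ z.1 (ξ - z.2) : ℝ) : ℂ)))
      (by fun_prop) (Eventually.of_forall fun z => by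
        rw [show (-2 * Real.pi * Complex.I * ((inner ℝ z.1 (ξ - z.2) : ℝ) : ℂ) : ℂ) =
          ((-2 * Real.pi * inner ℝ z.1 (ξ - z.2) : ℝ) : ℂ) * Complex.I by push_cast; ring,
          Complex.norm_exp_ofReal_mul_I])
    refine h3.congr (Eventually.of_forall fun z => ?_)
    simp only [Function.uncurry]
    ring
  rw [integral_integral_swap h2]
  refine integral_congr_ae (Eventually.of_forall fun η => ?_)
  simp only [integral_const_mul]
  rfl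

private lemma conv_le {χ f : E → ℝ} (hχ : IsSch χ) (hf : IsSch f) (ξ : E) :
    ‖ft (fun x => χ x * f x) ξ‖ₑ ≤ ∫⁻ η, ‖ft f η‖ₑ * ‖ft χ (ξ - η)‖ₑ := by
  rw [conv hχ hf]
  refine (enorm_integral_le_lintegral_enorm _).trans_eq ?_
  simp only [enorm_mul]

/-! ### inequalities for the lower integral -/

private lemma cs {f g : E → ℝ≥0∞} (hf : Measurable f) (hg : Measurable g) :
    (∫⁻ x, f x * g x) ^ 2 ≤ (∫⁻ x, f x ^ 2) * ∫⁻ x, g x ^ 2 := by
  have h := ENNReal.lintegral_mul_le_Lp_mul_Lq (volume : Measure E) Real.HolderConjugate.two_two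
    hf.aemeasurable hg.aemeasurable
  simp only [Pi.mul_apply, ENNReal.rpow_two] at h
  calc (∫⁻ x, f x * g x) ^ 2 ≤
      ((∫⁻ x, f x ^ 2) ^ (1 / 2 : ℝ) * (∫⁻ x, g x ^ 2) ^ (1 / 2 : ℝ)) ^ 2 := by gcongr
    _ = (∫⁻ x, f x ^ 2) * ∫⁻ x, g x ^ 2 := by
      rw [mul_pow, ← ENNReal.rpow_natCast, ← ENNReal.rpow_natCast, ← ENNReal.rpow_mul,
        ← ENNReal.rpow_mul]
      norm_num

private lemma young1 {W G : E → ℝ≥0∞} (hW : Measurable W) (hG : Measurable G) :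
    ∫⁻ ξ, (∫⁻ η, W (ξ - η) * G η) ^ 2 ≤ (∫⁻ x, W x) ^ 2 * ∫⁻ x, G x ^ 2 := by
  have h1 : ∀ ξ, (∫⁻ η, W (ξ - η) * G η) ^ 2 ≤ (∫⁻ x, W x) * ∫⁻ η, W (ξ - η) * G η ^ 2 := by
    intro ξ
    have hm : Measurable fun η => W (ξ - η) ^ (1 / 2 : ℝ) :=
      (hW.comp (measurable_const.sub measurable_id)).pow_const _
    have h2 := cs hm (hm.mul hG)
    have e : ∀ η, (W (ξ - η) ^ (1 / 2 : ℝ)) ^ 2 = W (ξ - η) := by
      intro η
      rw [← ENNReal.rpow_natCast, ← ENNReal.rpow_mul]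
      norm_num
    have e1 : ∀ η, W (ξ - η) ^ (1 / 2 : ℝ) * (W (ξ - η) ^ (1 / 2 : ℝ) * G η) = W (ξ - η) * G η := by
      intro η
      rw [← mul_assoc, ← sq, e]
    have e2 : ∀ η, (W (ξ - η) ^ (1 / 2 : ℝ) * G η) ^ 2 = W (ξ - η) * G η ^ 2 := by
      intro η
      rw [mul_pow, e]
    simp only [Pi.mul_apply, e, e1, e2] at h2
    rwa [lintegral_sub_left_eq_self W ξ] at h2
  refine (lintegral_mono h1).trans ?_
  have hm2 : Measurable fun z : E × E => W (z.1 - z.2) * G z.2 ^ 2 :=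
    (hW.comp (measurable_fst.sub measurable_snd)).mul ((hG.comp measurable_snd).pow_const 2)
  rw [lintegral_const_mul _ (Measurable.lintegral_prod_right' hm2),
    lintegral_lintegral_swap hm2.aemeasurable]
  have h3 : ∀ η, ∫⁻ ξ, W (ξ - η) * G η ^ 2 = (∫⁻ x, W x) * G η ^ 2 := by
    intro η
    have hm : Measurable fun ξ => W (ξ - η) := hW.comp (measurable_id.sub measurable_const)
    rw [lintegral_mul_const _ hm, lintegral_sub_right_eq_self W η]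
  simp only [h3]
  rw [lintegral_const_mul _ (hG.pow_const 2), sq, mul_assoc]

private lemma young2 {Y H G : E → ℝ≥0∞} (hY : Measurable Y) (hH : Measurable H) (hG : Measurable G) :
    ∫⁻ ξ, (∫⁻ η, Y (ξ - η) * (H η * G η)) ^ 2 ≤
      ((∫⁻ x, Y x ^ 2) * ∫⁻ x, H x ^ 2) * ∫⁻ x, G x ^ 2 := by
  have h1 : ∀ ξ, (∫⁻ η, Y (ξ - η) * (H η * G η)) ^ 2 ≤
      (∫⁻ η, Y (ξ - η) ^ 2 * H η ^ 2) * ∫⁻ x, G x ^ 2 := by
    intro ξ
    have hm : Measurable fun η => Y (ξ - η) := hY.comp (measurable_const.sub measurable_id)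
    have h2 := cs (hm.mul hH) hG
    simp only [Pi.mul_apply, mul_pow, mul_assoc] at h2
    exact h2
  refine (lintegral_mono h1).trans ?_
  have hm2 : Measurable fun z : E × E => Y (z.1 - z.2) ^ 2 * H z.2 ^ 2 :=
    ((hY.comp (measurable_fst.sub measurable_snd)).pow_const 2).mul
      ((hH.comp measurable_snd).pow_const 2)
  rw [lintegral_mul_const _ (Measurable.lintegral_prod_right' hm2),
    lintegral_lintegral_swap hm2.aemeasurable]
  have h3 : ∀ η, ∫⁻ ξ, Y (ξ - η) ^ 2 * H η ^ 2 = (∫⁻ x, Y x ^ 2) * H η ^ 2 := by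
    intro η
    have hm : Measurable fun ξ => Y (ξ - η) ^ 2 :=
      (hY.comp (measurable_id.sub measurable_const)).pow_const 2
    rw [lintegral_mul_const _ hm, lintegral_sub_right_eq_self (fun x => Y x ^ 2) η]
  simp only [h3]
  rw [lintegral_const_mul _ (hH.pow_const 2)]

/-! ### the weight -/

private noncomputable def m (a : ℝ) (ξ : E) : ℝ≥0∞ := ENNReal.ofReal ((2 * Real.pi * ‖ξ‖) ^ a)

private lemma m_meas (a : ℝ) : Measurable (m a) := by
  unfold m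
  fun_prop

private lemma m_add {a : ℝ} (ha : 0 ≤ a) (ξ η : E) :
    m a ξ ≤ ENNReal.ofReal (2 ^ a) * (m a (ξ - η) + m a η) := by
  unfold m
  rw [← ENNReal.ofReal_add (by positivity) (by positivity), ← ENNReal.ofReal_mul (by positivity)]
  refine ENNReal.ofReal_le_ofReal ?_
  have key : ∀ x y : ℝ, 0 ≤ x → 0 ≤ y → (x + y) ^ a ≤ 2 ^ a * (x ^ a + y ^ a) := by
    intro x y hx hy
    have hxa : 0 ≤ x ^ a := by positivity
    have hya : 0 ≤ y ^ a := by positivity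
    rcases le_total x y with h | h
    · calc (x + y) ^ a ≤ (2 * y) ^ a := by
            refine Real.rpow_le_rpow (by positivity) (by linarith) ha
        _ = 2 ^ a * y ^ a := Real.mul_rpow (by norm_num) hy
        _ ≤ 2 ^ a * (x ^ a + y ^ a) := by gcongr; linarith
    · calc (x + y) ^ a ≤ (2 * x) ^ a := by
            refine Real.rpow_le_rpow (by positivity) (by linarith) ha
        _ = 2 ^ a * x ^ a := Real.mul_rpow (by norm_num) hx
        _ ≤ 2 ^ a * (x ^ a + y ^ a) := by gcongr; linarith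
  refine le_trans (Real.rpow_le_rpow (by positivity) ?_ ha)
    (key (2 * Real.pi * ‖ξ - η‖) (2 * Real.pi * ‖η‖) (by positivity) (by positivity))
  rw [← mul_add]
  have h1 : ‖ξ‖ ≤ ‖ξ - η‖ + ‖η‖ := by
    have := norm_add_le (ξ - η) η
    rwa [sub_add_cancel] at this
  gcongr

private lemma hs_eq (a : ℝ) {f : E → ℝ}
    (hi : Integrable (fun ξ => (2 * Real.pi * ‖ξ‖) ^ (2 * a) * ‖ft f ξ‖ ^ 2) volume) :
    ∫⁻ ξ, (m a ξ * ‖ft f ξ‖ₑ) ^ 2 = ENNReal.ofReal (hs a f) := by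
  rw [hs, ofReal_integral_eq_lintegral_ofReal hi (Eventually.of_forall fun ξ => by positivity)]
  refine lintegral_congr fun ξ => ?_
  rw [m, ← ofReal_norm, ← ENNReal.ofReal_mul (by positivity), ← ENNReal.ofReal_pow (by positivity),
    mul_pow, mul_comm 2 a, Real.rpow_mul (by positivity), Real.rpow_two]

private noncomputable def H (a : ℝ) (ξ : E) : ℝ≥0∞ :=
  (Metric.closedBall (0 : E) 1).indicator (m (-a)) ξ

private lemma H_meas (a : ℝ) : Measurable (H a) :=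
  (m_meas _).indicator Metric.isClosed_closedBall.measurableSet

private lemma F_le {a : ℝ} (ha : 0 ≤ a) {η : E} (hη : η ≠ 0) (F : ℝ≥0∞) :
    F ≤ m a η * F + H a η * (m a η * F) := by
  have hpos : 0 < 2 * Real.pi * ‖η‖ := by
    have := norm_pos_iff.2 hη
    positivity
  by_cases h : η ∈ Metric.closedBall (0 : E) 1
  · refine le_add_of_le_right (le_of_eq ?_)
    rw [H, indicator_of_mem h, m, m, ← mul_assoc, ← ENNReal.ofReal_mul (by positivity),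
      ← Real.rpow_add hpos]
    simp
  · refine le_add_of_le_left ?_
    have h1 : 1 < ‖η‖ := by simpa using h
    have h2 : (1 : ℝ) ≤ (2 * Real.pi * ‖η‖) ^ a := by
      refine Real.one_le_rpow ?_ ha
      nlinarith [Real.pi_gt_three]
    calc F = ENNReal.ofReal 1 * F := by simp
      _ ≤ m a η * F := by
        unfold m
        gcongr

/-- the main estimate -/
private lemma main1 (hI : St_IsoP) (hPsi : St_Psi) (hFt : St_Ft) {a : ℝ} (ha : 0 ≤ a)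
    (ha' : a < 2) {χ : E → ℝ} (hχ : IsSch χ) : ∃ C : ℝ≥0∞, C < ⊤ ∧
      ∀ f : E → ℝ, IsSch f → IsSch (fun x => χ x * f x) →
        ENNReal.ofReal (hs a fun x => χ x * f x) ≤ C * ENNReal.ofReal (hs a f) := by
  have hint : ∀ (b : ℝ) (φ : E → ℝ), -2 < b → IsSch φ →
      Integrable (fun ξ => (2 * Real.pi * ‖ξ‖) ^ (2 * b) * ‖ft φ ξ‖ ^ 2) volume := fun b φ hb hφ =>
    (hI 0 φ φ (by norm_num) (by norm_num) hφ hφ).2.2.2.2.2.2.2.2.2 b hb
  have hXm : Measurable fun ξ => ‖ft χ ξ‖ₑ := (hFt.2 χ hχ).1.measurable.enorm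
  -- the constants
  have hX : ∫⁻ ξ, ‖ft χ ξ‖ₑ < ⊤ := (int_ft hχ).2
  have hY : ∫⁻ ξ, m a ξ * ‖ft χ ξ‖ₑ < ⊤ := by
    obtain ⟨C, hC⟩ := (hFt.2 χ hχ).2.1 9
    have h1 : ∀ ξ, m a ξ * ‖ft χ ξ‖ₑ ≤
        ENNReal.ofReal ((2 * Real.pi) ^ a * |C| * (1 + ‖ξ‖) ^ (-(6 : ℝ))) := by
      intro ξ
      rw [m, ← ofReal_norm, ← ENNReal.ofReal_mul (by positivity)]
      refine ENNReal.ofReal_le_ofReal ?_
      have h0 : (1 : ℝ) ≤ 1 + ‖ξ‖ := by linarith [norm_nonneg ξ]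
      have h2 : (2 * Real.pi * ‖ξ‖) ^ a ≤ (2 * Real.pi) ^ a * (1 + ‖ξ‖) ^ (3 : ℝ) := by
        rw [Real.mul_rpow (by positivity) (norm_nonneg _)]
        gcongr
        calc ‖ξ‖ ^ a ≤ (1 + ‖ξ‖) ^ a := Real.rpow_le_rpow (norm_nonneg _) (by linarith) ha
          _ ≤ (1 + ‖ξ‖) ^ (3 : ℝ) := Real.rpow_le_rpow_of_exponent_le h0 (by linarith)
      have h3 : ‖ft χ ξ‖ ≤ |C| * (1 + ‖ξ‖) ^ (-(9 : ℝ)) := by
        refine (hC ξ).trans ?_
        rw [Real.rpow_neg (by positivity), ← div_eq_mul_inv]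
        have : (1 + ‖ξ‖) ^ (9 : ℝ) = (1 + ‖ξ‖) ^ 9 := by
          exact_mod_cast Real.rpow_natCast (1 + ‖ξ‖) 9
        rw [this]
        gcongr
        exact le_abs_self C
      calc (2 * Real.pi * ‖ξ‖) ^ a * ‖ft χ ξ‖ ≤
          ((2 * Real.pi) ^ a * (1 + ‖ξ‖) ^ (3 : ℝ)) * (|C| * (1 + ‖ξ‖) ^ (-(9 : ℝ))) := by gcongr
        _ = (2 * Real.pi) ^ a * |C| * ((1 + ‖ξ‖) ^ (3 : ℝ) * (1 + ‖ξ‖) ^ (-(9 : ℝ))) := by ring
        _ = (2 * Real.pi) ^ a * |C| * (1 + ‖ξ‖) ^ (-(6 : ℝ)) := by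
          rw [← Real.rpow_add (by positivity)]
          norm_num
    refine (lintegral_mono h1).trans_lt ?_
    have h4 : Integrable (fun ξ : E => (2 * Real.pi) ^ a * |C| * (1 + ‖ξ‖) ^ (-(6 : ℝ))) volume :=
      (integrable_one_add_norm (by
        rw [finrank_euclideanSpace]
        norm_num)).const_mul _
    exact h4.lintegral_lt_top
  have hY2 : ∫⁻ ξ, (m a ξ * ‖ft χ ξ‖ₑ) ^ 2 < ⊤ := by
    rw [hs_eq a (hint a χ (by linarith) hχ)]
    exact ENNReal.ofReal_lt_top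
  have hH2 : ∫⁻ ξ, H a ξ ^ 2 < ⊤ := by
    obtain ⟨ψ, hψ, -, hψ1, -⟩ := hPsi
    have h1 : ∀ ξ, H a ξ ^ 2 ≤ (m (-a) ξ * ‖ft ψ ξ‖ₑ) ^ 2 := by
      intro ξ
      by_cases h : ξ ∈ Metric.closedBall (0 : E) 1
      · rw [H, indicator_of_mem h, hψ1 ξ (by simpa using h)]
        simp
      · rw [H, indicator_of_notMem h]
        simp
    refine (lintegral_mono h1).trans_lt ?_
    rw [hs_eq (-a) (hint (-a) ψ (by linarith) hψ)]
    exact ENNReal.ofReal_lt_top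
  set X : E → ℝ≥0∞ := fun ξ => ‖ft χ ξ‖ₑ with hXd
  set Y : E → ℝ≥0∞ := fun ξ => m a ξ * ‖ft χ ξ‖ₑ with hYd
  have hYm : Measurable Y := (m_meas a).mul hXm
  have hWm : Measurable fun ξ => X ξ + Y ξ := hXm.add hYm
  have hW : ∫⁻ ξ, (X ξ + Y ξ) < ⊤ := by
    rw [lintegral_add_left hXm]
    exact ENNReal.add_lt_top.2 ⟨hX, hY⟩
  refine ⟨2 * ENNReal.ofReal (2 ^ a) ^ 2 *
    ((∫⁻ ξ, (X ξ + Y ξ)) ^ 2 + (∫⁻ ξ, Y ξ ^ 2) * ∫⁻ ξ, H a ξ ^ 2), ?_, ?_⟩
  · refine ENNReal.mul_lt_top (ENNReal.mul_lt_top (by simp) (ENNReal.pow_lt_top ENNReal.ofReal_lt_top))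
      (ENNReal.add_lt_top.2 ⟨ENNReal.pow_lt_top hW, ENNReal.mul_lt_top hY2 hH2⟩)
  · intro f hf hχf
    rw [← hs_eq a (hint a _ (by linarith) hχf), ← hs_eq a (hint a f (by linarith) hf)]
    set G : E → ℝ≥0∞ := fun ξ => m a ξ * ‖ft f ξ‖ₑ with hGd
    have hFm : Measurable fun ξ => ‖ft f ξ‖ₑ := (hFt.2 f hf).1.measurable.enorm
    have hGm : Measurable G := (m_meas a).mul hFm
    have h0 : ∀ᵐ η : E, η ≠ 0 := by
      rw [ae_iff]
      simp
    have p1 : ∀ ξ, m a ξ * ‖ft (fun x => χ x * f x) ξ‖ₑ ≤ ENNReal.ofReal (2 ^ a) *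
        ((∫⁻ η, (X (ξ - η) + Y (ξ - η)) * G η) + ∫⁻ η, Y (ξ - η) * (H a η * G η)) := by
      intro ξ
      have q0 : Measurable fun η => ‖ft f η‖ₑ * ‖ft χ (ξ - η)‖ₑ :=
        hFm.mul (hXm.comp (measurable_const.sub measurable_id))
      have q1 : Measurable fun η => (X (ξ - η) + Y (ξ - η)) * G η :=
        (hWm.comp (measurable_const.sub measurable_id)).mul hGm
      calc m a ξ * ‖ft (fun x => χ x * f x) ξ‖ₑ ≤
          m a ξ * ∫⁻ η, ‖ft f η‖ₑ * ‖ft χ (ξ - η)‖ₑ := by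
            gcongr
            exact conv_le hχ hf ξ
        _ = ∫⁻ η, m a ξ * (‖ft f η‖ₑ * ‖ft χ (ξ - η)‖ₑ) := (lintegral_const_mul _ q0).symm
        _ ≤ ∫⁻ η, ENNReal.ofReal (2 ^ a) *
            ((X (ξ - η) + Y (ξ - η)) * G η + Y (ξ - η) * (H a η * G η)) := by
          refine lintegral_mono_ae ?_
          filter_upwards [h0] with η hη
          calc m a ξ * (‖ft f η‖ₑ * ‖ft χ (ξ - η)‖ₑ) ≤
              (ENNReal.ofReal (2 ^ a) * (m a (ξ - η) + m a η)) * (‖ft f η‖ₑ * ‖ft χ (ξ - η)‖ₑ) := by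
                gcongr
                exact m_add ha ξ η
            _ = ENNReal.ofReal (2 ^ a) * (Y (ξ - η) * ‖ft f η‖ₑ + X (ξ - η) * G η) := by
                simp only [hXd, hYd, hGd]
                ring
            _ ≤ ENNReal.ofReal (2 ^ a) *
                (Y (ξ - η) * (G η + H a η * G η) + X (ξ - η) * G η) := by
                gcongr
                exact F_le ha hη _
            _ = ENNReal.ofReal (2 ^ a) *
                ((X (ξ - η) + Y (ξ - η)) * G η + Y (ξ - η) * (H a η * G η)) := by ring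
        _ = ENNReal.ofReal (2 ^ a) *
            ((∫⁻ η, (X (ξ - η) + Y (ξ - η)) * G η) + ∫⁻ η, Y (ξ - η) * (H a η * G η)) := by
          rw [lintegral_const_mul' _ _ ENNReal.ofReal_ne_top, lintegral_add_left q1]
    set A : E → ℝ≥0∞ := fun ξ => ∫⁻ η, (X (ξ - η) + Y (ξ - η)) * G η with hA
    set B : E → ℝ≥0∞ := fun ξ => ∫⁻ η, Y (ξ - η) * (H a η * G η) with hB
    have hAm : Measurable A := by
      have hm2 : Measurable fun z : E × E => (X (z.1 - z.2) + Y (z.1 - z.2)) * G z.2 :=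
        (hWm.comp (measurable_fst.sub measurable_snd)).mul (hGm.comp measurable_snd)
      exact hm2.lintegral_prod_right'
    have hsq : ∀ x y : ℝ≥0∞, (x + y) ^ 2 ≤ 2 * (x ^ 2 + y ^ 2) := by
      intro x y
      have h := ENNReal.rpow_add_le_mul_rpow_add_rpow x y (p := 2) (by norm_num)
      norm_num at h
      exact h
    have y1 : ∫⁻ ξ, A ξ ^ 2 ≤ (∫⁻ ξ, (X ξ + Y ξ)) ^ 2 * ∫⁻ x, G x ^ 2 := young1 hWm hGm
    have y2 : ∫⁻ ξ, B ξ ^ 2 ≤ ((∫⁻ ξ, Y ξ ^ 2) * ∫⁻ ξ, H a ξ ^ 2) * ∫⁻ x, G x ^ 2 :=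
      young2 hYm (H_meas a) hGm
    calc ∫⁻ ξ, (m a ξ * ‖ft (fun x => χ x * f x) ξ‖ₑ) ^ 2 ≤
        ∫⁻ ξ, ENNReal.ofReal (2 ^ a) ^ 2 * 2 * (A ξ ^ 2 + B ξ ^ 2) := by
          refine lintegral_mono fun ξ => ?_
          calc (m a ξ * ‖ft (fun x => χ x * f x) ξ‖ₑ) ^ 2 ≤
              (ENNReal.ofReal (2 ^ a) * (A ξ + B ξ)) ^ 2 := pow_le_pow_left' (p1 ξ) 2
            _ = ENNReal.ofReal (2 ^ a) ^ 2 * (A ξ + B ξ) ^ 2 := mul_pow _ _ _
            _ ≤ ENNReal.ofReal (2 ^ a) ^ 2 * (2 * (A ξ ^ 2 + B ξ ^ 2)) := by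
                gcongr
                exact hsq _ _
            _ = ENNReal.ofReal (2 ^ a) ^ 2 * 2 * (A ξ ^ 2 + B ξ ^ 2) := by ring
      _ = ENNReal.ofReal (2 ^ a) ^ 2 * 2 * ((∫⁻ ξ, A ξ ^ 2) + ∫⁻ ξ, B ξ ^ 2) := by
          rw [lintegral_const_mul' _ _ (ENNReal.mul_ne_top (by simp) (by simp)),
            lintegral_add_left (hAm.pow_const 2)]
      _ ≤ ENNReal.ofReal (2 ^ a) ^ 2 * 2 * ((∫⁻ ξ, (X ξ + Y ξ)) ^ 2 * (∫⁻ x, G x ^ 2) +
          ((∫⁻ ξ, Y ξ ^ 2) * ∫⁻ ξ, H a ξ ^ 2) * ∫⁻ x, G x ^ 2) := by gcongr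
      _ = 2 * ENNReal.ofReal (2 ^ a) ^ 2 *
          ((∫⁻ ξ, (X ξ + Y ξ)) ^ 2 + (∫⁻ ξ, Y ξ ^ 2) * ∫⁻ ξ, H a ξ ^ 2) * ∫⁻ x, G x ^ 2 := by
          ring

private lemma hs_nonneg (a : ℝ) (f : E → ℝ) : 0 ≤ hs a f :=
  integral_nonneg fun ξ => by positivity

private lemma sch_dil {f : E → ℝ} (hf : IsSch f) {M : ℝ} (hM : M ≠ 0) : IsSch fun x => f (M • x) := by
  obtain ⟨F, hF⟩ := hf
  let e : E ≃L[ℝ] E := ContinuousLinearEquiv.smulLeft (Units.mk0 M hM)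
  refine ⟨SchwartzMap.compCLMOfContinuousLinearEquiv ℝ e F, fun x => ?_⟩
  exact hF (M • x)

end CutMx

open CutMx in
theorem thm_CutM (hFt : St_Ft) (hI : St_IsoP) (hH : St_Hs) (hPsi : St_Psi) : St_CutM := by
  intro a χ ha ha' hχ
  obtain ⟨K, hK, hmain⟩ := main1 hI hPsi hFt ha ha' (hFt.1 χ hχ)
  have h1 : ∀ f : E → ℝ, IsSch f → IsSch fun x => χ x * f x := by
    intro f hf
    obtain ⟨F, hF⟩ := hf
    have e : (fun x => χ x * f x) = fun x => χ x * F x := by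
      funext x
      rw [hF]
    rw [e]
    exact hFt.1 _ ⟨hχ.1.mul F.smooth', hχ.2.mul_right⟩
  have h2 : ∀ f : E → ℝ, IsSch f → hs a (fun x => χ x * f x) ≤ (K.toReal + 1) * hs a f := by
    intro f hf
    have h3 := hmain f hf (h1 f hf)
    rw [← ENNReal.ofReal_toReal hK.ne, ← ENNReal.ofReal_mul ENNReal.toReal_nonneg,
      ENNReal.ofReal_le_ofReal_iff (mul_nonneg ENNReal.toReal_nonneg (hs_nonneg a f))] at h3
    have := hs_nonneg a f
    linarith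
  refine ⟨K.toReal + 1, by positivity, fun M f hM hf => ?_⟩
  have hg : IsSch fun x => f (M • x) := sch_dil hf hM.ne'
  have hMi : 0 < M⁻¹ := inv_pos.2 hM
  have e1 := hH.2.2.2.2.2.2.1 a M⁻¹ _ (by linarith) hMi hg
  have e2 := hH.2.2.2.2.2.2.1 a M⁻¹ _ (by linarith) hMi (h1 _ hg)
  have h3 : ∀ x : E, M • M⁻¹ • x = x := fun x => smul_inv_smul₀ hM.ne' x
  simp only [h3] at e1 e2
  rw [e1, e2]
  have h4 := h2 _ hg
  have h5 : (0 : ℝ) ≤ M⁻¹ ^ (2 * a - 4) := by positivity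
  calc M⁻¹ ^ (2 * a - 4) * hs a (fun x => χ x * f (M • x)) ≤
      M⁻¹ ^ (2 * a - 4) * ((K.toReal + 1) * hs a fun x => f (M • x)) :=
        mul_le_mul_of_nonneg_left h4 h5
    _ = (K.toReal + 1) * (M⁻¹ ^ (2 * a - 4) * hs a fun x => f (M • x)) := by ring

end Pool.Agent.QWF
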