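import Pool.Agent.QWF.StA

/-!
# QWF/D1P (helper96): a free wave leaves every half space that moves with speed one (`ℝ⁴`)
-/

set_option autoImplicit false

open MeasureTheory Filter Topology Set
open scoped ENNReal NNReal RealInnerProductSpace Pointwise ContDiff

namespace Pool.Agent.QWF

namespace D1Px

/-! ### Calculus -/

theorem pd_zero {O : Set E} (hO : IsOpen O) {a : E → ℝ} (ha : ∀ x ∈ O, a x = 0) (i : Fin 4) :
    ∀ x ∈ O, pd i a x = 0 := by
  intro x hx
  unfold pd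
  have h1 : a =ᶠ[𝓝 x] fun _ => (0 : ℝ) := by
    filter_upwards [hO.mem_nhds hx] with y hy using ha y hy
  rw [h1.fderiv_eq]
  simp

theorem pd_contDiff {f : E → ℝ} (hf : ContDiff ℝ ∞ f) (i : Fin 4) : ContDiff ℝ ∞ (pd i f) := by
  unfold pd
  exact (hf.fderiv_right (m := ∞) (by simp)).clm_apply contDiff_const

/-- the cut-off function -/
noncomputable def et (y : ℝ) : ℝ := Real.smoothTransition (y + 1)

theorem et_contDiff : ContDiff ℝ ∞ et :=
  Real.smoothTransition.contDiff.comp (contDiff_id.add contDiff_const)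

theorem et_zero {y : ℝ} (hy : y ≤ -1) : et y = 0 :=
  Real.smoothTransition.zero_of_nonpos (by linarith)

theorem et_one {y : ℝ} (hy : 0 ≤ y) : et y = 1 :=
  Real.smoothTransition.one_of_one_le (by linarith)

theorem et_abs (y : ℝ) : |et y| ≤ 1 := by
  unfold et
  rw [abs_of_nonneg (Real.smoothTransition.nonneg _)]
  exact Real.smoothTransition.le_one _

theorem det_contDiff : ContDiff ℝ ∞ (deriv et) :=
  ((contDiff_infty_iff_deriv).1 et_contDiff).2

theorem det_compact : HasCompactSupport (deriv et) := by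
  refine HasCompactSupport.intro (isCompact_Icc (a := (-1 : ℝ)) (b := 0)) ?_
  intro y hy
  rw [Set.mem_Icc, not_and_or, not_le, not_le] at hy
  rcases hy with hy | hy
  · have h1 : et =ᶠ[𝓝 y] fun _ => (0 : ℝ) := by
      filter_upwards [Iio_mem_nhds hy] with z hz using et_zero hz.le
    rw [h1.deriv_eq, deriv_const]
  · have h1 : et =ᶠ[𝓝 y] fun _ => (1 : ℝ) := by
      filter_upwards [Ioi_mem_nhds hy] with z hz using et_one hz.le
    rw [h1.deriv_eq, deriv_const]

/-! ### The region -/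

/-- the region -/
def rgn (e : E) (t D : ℝ) : Set E := {x | t - D ≤ inner ℝ x e ∧ ‖x‖ ≤ t + D}

theorem rgn_closed (e : E) (t D : ℝ) : IsClosed (rgn e t D) := by
  refine IsClosed.inter ?_ ?_
  · exact isClosed_le (f := fun _ : E => t - D) (g := fun x : E => inner ℝ x e)
      continuous_const (continuous_id.inner continuous_const)
  · exact isClosed_le (f := fun x : E => ‖x‖) (g := fun _ : E => t + D)
      continuous_norm continuous_const

theorem rgn_volume {e : E} (he : ‖e‖ = 1) {t D : ℝ} (hD : 0 < D) (ht : D ≤ t) :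
    volume (rgn e t D) ≤ ENNReal.ofReal (128 * D ^ 2 * t ^ 2) := by
  obtain ⟨b, hb⟩ := Orthonormal.exists_orthonormalBasis_extension_of_card_eq (ι := Fin 4)
    (𝕜 := ℝ) (E := E) (by simp) (v := fun _ => e) (s := {0}) (by
      rw [orthonormal_iff_ite]
      rintro ⟨i, hi⟩ ⟨j, hj⟩
      have hi' : i = 0 := hi
      have hj' : j = 0 := hj
      subst hi'
      subst hj'
      simp [he])
  have hb0 : b 0 = e := hb 0 rfl
  set ρ : ℝ := √(4 * t * D) with hρ
  have hρ0 : 0 ≤ ρ := Real.sqrt_nonneg _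
  have ht0 : 0 < t := by linarith
  have hρ2 : ρ ^ 2 = 4 * t * D := Real.sq_sqrt (by positivity)
  set Bx : Set (Fin 4 → ℝ) := Icc (fun i => if i = 0 then t - D else -ρ)
    (fun i => if i = 0 then t + D else ρ) with hBx
  have hsub : rgn e t D ⊆ b.repr ⁻¹' ((WithLp.ofLp : E → (Fin 4 → ℝ)) ⁻¹' Bx) := by
    rintro x ⟨hx1, hx2⟩
    have hr0 : (b.repr x).ofLp 0 = inner ℝ x e := by
      rw [OrthonormalBasis.repr_apply_apply, hb0, real_inner_comm]
    have hnorm : ‖x‖ ^ 2 = ∑ i, ((b.repr x).ofLp i) ^ 2 := by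
      rw [← LinearIsometryEquiv.norm_map b.repr x, EuclideanSpace.norm_sq_eq]
      simp
    have hxe : inner ℝ x e ≤ t + D := by
      have h1 : inner ℝ x e ≤ ‖x‖ * ‖e‖ := real_inner_le_norm x e
      rw [he, mul_one] at h1
      linarith
    have hle : ∀ i : Fin 4, i ≠ 0 → ((b.repr x).ofLp i) ^ 2 ≤ ρ ^ 2 := by
      intro i hi
      have h1 : ((b.repr x).ofLp 0) ^ 2 + ((b.repr x).ofLp i) ^ 2 ≤ ‖x‖ ^ 2 := by
        rw [hnorm, ← Finset.sum_pair (f := fun j => ((b.repr x).ofLp j) ^ 2) (Ne.symm hi)]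
        exact Finset.sum_le_sum_of_subset_of_nonneg (Finset.subset_univ _)
          (fun _ _ _ => sq_nonneg _)
      rw [hr0] at h1
      have h2 : (t - D) ^ 2 ≤ (inner ℝ x e) ^ 2 := pow_le_pow_left₀ (by linarith) hx1 2
      have h3 : ‖x‖ ^ 2 ≤ (t + D) ^ 2 := pow_le_pow_left₀ (norm_nonneg x) hx2 2
      rw [hρ2]
      nlinarith
    rw [Set.mem_preimage, Set.mem_preimage, hBx, Set.mem_Icc]
    constructor
    · intro i
      dsimp only
      by_cases hi : i = 0
      · rw [if_pos hi, hi, hr0]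
        exact hx1
      · rw [if_neg hi]
        exact (abs_le.1 (abs_le_of_sq_le_sq (hle i hi) hρ0)).1
    · intro i
      dsimp only
      by_cases hi : i = 0
      · rw [if_pos hi, hi, hr0]
        exact hxe
      · rw [if_neg hi]
        exact (abs_le.1 (abs_le_of_sq_le_sq (hle i hi) hρ0)).2
  have hBm : MeasurableSet Bx := measurableSet_Icc
  have hm1 : MeasurableSet ((WithLp.ofLp : E → (Fin 4 → ℝ)) ⁻¹' Bx) :=
    (PiLp.volume_preserving_ofLp (Fin 4)).measurable hBm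
  calc volume (rgn e t D) ≤ volume (b.repr ⁻¹' ((WithLp.ofLp : E → (Fin 4 → ℝ)) ⁻¹' Bx)) :=
        measure_mono hsub
    _ = volume ((WithLp.ofLp : E → (Fin 4 → ℝ)) ⁻¹' Bx) :=
        b.measurePreserving_repr.measure_preimage hm1.nullMeasurableSet
    _ = volume Bx := (PiLp.volume_preserving_ofLp (Fin 4)).measure_preimage
        hBm.nullMeasurableSet
    _ ≤ ENNReal.ofReal (128 * D ^ 2 * t ^ 2) := by
        rw [hBx, Real.volume_Icc_pi, ← ENNReal.ofReal_prod_of_nonneg]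
        · refine ENNReal.ofReal_le_ofReal ?_
          rw [Fin.prod_univ_four]
          have e1 : ((1 : Fin 4) = 0) = False := by simp
          have e2 : ((2 : Fin 4) = 0) = False := by simp
          have e3 : ((3 : Fin 4) = 0) = False := by simp
          simp only [e1, e2, e3, if_true, if_false]
          have e5 : (t + D - (t - D)) * (ρ - -ρ) * (ρ - -ρ) * (ρ - -ρ) =
              16 * D * ρ ^ 2 * ρ := by ring
          have e6 : ρ ≤ 2 * t := by
            rw [hρ]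
            refine Real.sqrt_le_iff.2 ⟨by positivity, ?_⟩
            nlinarith
          rw [e5, hρ2]
          have e7 : 0 ≤ 16 * D * (4 * t * D) := by positivity
          have e8 := mul_le_mul_of_nonneg_left e6 e7
          linarith
        · intro i _
          by_cases hi : i = 0
          · rw [if_pos hi, if_pos hi]; linarith
          · rw [if_neg hi, if_neg hi]; linarith

theorem int_le {e : E} (he : ‖e‖ = 1) {t D Q : ℝ} (hD : 0 < D) (ht : D ≤ t) {F : E → ℝ}
    (hF : ∀ x, |F x| ≤ Q) (h0 : ∀ x, x ∉ rgn e t D → F x = 0) :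
    ∫ x, F x * F x ≤ Q ^ 2 * (128 * D ^ 2 * t ^ 2) := by
  have hQ : 0 ≤ Q := (abs_nonneg _).trans (hF 0)
  have hv := rgn_volume he hD ht
  have hfin : volume (rgn e t D) < ⊤ := lt_of_le_of_lt hv ENNReal.ofReal_lt_top
  have hms : MeasurableSet (rgn e t D) := (rgn_closed e t D).measurableSet
  have h1 : ∫ x, F x * F x ≤ ∫ x, (rgn e t D).indicator (fun _ => Q ^ 2) x := by
    refine integral_mono_of_nonneg (Eventually.of_forall fun x => mul_self_nonneg _) ?_
      (Eventually.of_forall fun x => ?_)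
    · rw [integrable_indicator_iff hms]
      exact integrableOn_const hfin.ne
    · dsimp only
      by_cases hx : x ∈ rgn e t D
      · rw [indicator_of_mem hx, ← sq, ← sq_abs]
        exact pow_le_pow_left₀ (abs_nonneg _) (hF x) 2
      · rw [indicator_of_notMem hx, h0 x hx, mul_zero]
  refine h1.trans ?_
  rw [integral_indicator_const _ hms, smul_eq_mul, mul_comm]
  refine mul_le_mul_of_nonneg_left ?_ (sq_nonneg _)
  rw [Measure.real]
  refine (ENNReal.toReal_mono ENNReal.ofReal_ne_top hv).trans ?_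
  rw [ENNReal.toReal_ofReal (by positivity)]

/-! ### The wave -/

theorem half_open (e : E) (c : ℝ) : IsOpen (half e c) :=
  isOpen_lt (f := fun _ : E => c) (g := fun x : E => inner ℝ x e)
    continuous_const (continuous_id.inner continuous_const)

theorem isTest_loc (e : E) (s : ℝ) {f : E → ℝ} (hf : IsTest f) :
    IsTest (fun x : E => et (inner ℝ x e - s) * f x) := by
  refine ⟨?_, ?_⟩
  · refine ContDiff.mul ?_ hf.1
    exact et_contDiff.comp ((contDiff_id.inner ℝ contDiff_const).sub contDiff_const)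
  · exact HasCompactSupport.mul_left (f := fun x : E => et (inner ℝ x e - s)) hf.2

theorem loc_zero {e : E} {t D c M0 : ℝ} (hD : D = M0 + |c| + 1) (hM0 : 1 ≤ M0) (ht : D ≤ t)
    {f : E → ℝ} (hf : ∀ x, |t| + M0 ≤ ‖x‖ → f x = 0) :
    ∀ x ∈ (rgn e t D)ᶜ, (fun x : E => et (inner ℝ x e - (t + c)) * f x) x = 0 := by
  intro x hx
  have hc := neg_abs_le c
  have hc0 := abs_nonneg c
  have ht0 : 0 ≤ t := by linarith
  have hx' : inner ℝ x e < t - D ∨ t + D < ‖x‖ := by
    by_contra hno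
    push Not at hno
    exact hx hno
  dsimp only
  rcases hx' with h | h
  · rw [et_zero (by linarith), zero_mul]
  · rw [hf x (by
      rw [abs_of_nonneg ht0]
      linarith), mul_zero]

/-! ### Bounds of derivatives -/

theorem et_iter_bounded (n : ℕ) : ∃ B : ℝ, 0 ≤ B ∧ ∀ y, ‖iteratedFDeriv ℝ n et y‖ ≤ B := by
  rcases n with _ | n
  · refine ⟨1, zero_le_one, fun y => ?_⟩
    rw [norm_iteratedFDeriv_zero, Real.norm_eq_abs]
    exact et_abs y
  · have h1 : HasCompactSupport (fderiv ℝ et) := by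
      have h2 : fderiv ℝ et = fun y => ContinuousLinearMap.toSpanSingleton ℝ (deriv et y) := by
        funext y
        exact (toSpanSingleton_deriv).symm
      rw [h2]
      refine HasCompactSupport.comp_left
        (g := fun z : ℝ => ContinuousLinearMap.toSpanSingleton ℝ z) det_compact ?_
      exact ContinuousLinearMap.toSpanSingleton_zero ℝ
    have h3 : Continuous (iteratedFDeriv ℝ n (fderiv ℝ et)) := by
      refine ContDiff.continuous_iteratedFDeriv (n := ∞) ?_ ?_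
      · exact_mod_cast le_top
      · exact et_contDiff.fderiv_right (m := ∞) (by simp)
    obtain ⟨B, hB⟩ := (h1.iteratedFDeriv n).exists_bound_of_continuous h3
    refine ⟨B, (norm_nonneg _).trans (hB 0), fun y => ?_⟩
    rw [← norm_iteratedFDeriv_fderiv]
    exact hB y

theorem et_bound3 : ∃ B : ℝ, 0 ≤ B ∧ ∀ n ≤ 3, ∀ y, ‖iteratedFDeriv ℝ n et y‖ ≤ B := by
  choose B hB0 hB using et_iter_bounded
  refine ⟨∑ n ∈ Finset.range 4, B n, Finset.sum_nonneg fun n _ => hB0 n, fun n hn y => ?_⟩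
  exact (hB n y).trans (Finset.single_le_sum (f := B) (fun n _ => hB0 n)
    (Finset.mem_range.2 (by omega)))

theorem ridge_contDiff (e : E) (s : ℝ) : ContDiff ℝ ∞ (fun x : E => et (inner ℝ x e - s)) :=
  et_contDiff.comp ((contDiff_id.inner ℝ contDiff_const).sub contDiff_const)

theorem ridge_bound {B : ℝ} (hB : ∀ n ≤ 3, ∀ y, ‖iteratedFDeriv ℝ n et y‖ ≤ B) {e : E}
    (he : ‖e‖ = 1) (s : ℝ) (n : ℕ) (hn : n ≤ 3) (x : E) :
    ‖iteratedFDeriv ℝ n (fun x : E => et (inner ℝ x e - s)) x‖ ≤ B := by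
  have h1 : (fun x : E => et (inner ℝ x e - s)) = (fun y : ℝ => et (y - s)) ∘ (innerSL ℝ e) := by
    funext y
    rw [Function.comp_apply, innerSL_apply_apply, real_inner_comm]
  have h2 : ContDiff ℝ ∞ (fun y : ℝ => et (y - s)) :=
    et_contDiff.comp (contDiff_id.sub contDiff_const)
  rw [h1, ContinuousLinearMap.iteratedFDeriv_comp_right (innerSL ℝ e) h2 x
    (i := n) (by exact_mod_cast le_top)]
  refine (ContinuousMultilinearMap.norm_compContinuousLinearMap_le _ _).trans ?_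
  have h3 : ‖innerSL ℝ e‖ = 1 := by
    rw [innerSL_apply_norm, he]
  rw [Finset.prod_const, h3, one_pow, mul_one, iteratedFDeriv_comp_sub]
  exact hB n hn _

/-- derivatives of the localised functions -/
theorem loc_bound {B C0 : ℝ} (hB0 : 0 ≤ B) (hB : ∀ n ≤ 3, ∀ y, ‖iteratedFDeriv ℝ n et y‖ ≤ B)
    {e : E} (he : ‖e‖ = 1) (s : ℝ) {f : E → ℝ} (hf : ContDiff ℝ ∞ f)
    (hC : ∀ x, ∀ n ≤ 3, ‖iteratedFDeriv ℝ n f x‖ ≤ C0) (n : ℕ) (hn : n ≤ 3) (x : E) :
    ‖iteratedFDeriv ℝ n (fun x : E => et (inner ℝ x e - s) * f x) x‖ ≤ 8 * (B * C0) := by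
  have hC0 : 0 ≤ C0 := (norm_nonneg _).trans (hC 0 0 (by norm_num))
  refine (norm_iteratedFDeriv_mul_le (ridge_contDiff e s) hf x (n := n)
    (by exact_mod_cast le_top)).trans ?_
  calc ∑ i ∈ Finset.range (n + 1), (n.choose i : ℝ) *
        ‖iteratedFDeriv ℝ i (fun x : E => et (inner ℝ x e - s)) x‖ *
        ‖iteratedFDeriv ℝ (n - i) f x‖
      ≤ ∑ i ∈ Finset.range (n + 1), (n.choose i : ℝ) * (B * C0) := by
        refine Finset.sum_le_sum fun i hi => ?_
        rw [Finset.mem_range] at hi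
        rw [mul_assoc]
        refine mul_le_mul_of_nonneg_left ?_ (Nat.cast_nonneg _)
        exact mul_le_mul (ridge_bound hB he s i (by omega) x) (hC x (n - i) (by omega))
          (norm_nonneg _) hB0
    _ = (2 : ℝ) ^ n * (B * C0) := by
        rw [← Finset.sum_mul]
        congr 1
        have h := Nat.sum_range_choose n
        have h' : ((∑ m ∈ Finset.range (n + 1), n.choose m : ℕ) : ℝ) = ((2 ^ n : ℕ) : ℝ) := by
          rw [h]
        push_cast at h'
        exact h'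
    _ ≤ 8 * (B * C0) := by
        refine mul_le_mul_of_nonneg_right ?_ (mul_nonneg hB0 hC0)
        have h : (2 : ℝ) ^ n ≤ 2 ^ 3 := pow_le_pow_right₀ (by norm_num) hn
        linarith

theorem pd_iter_le {f : E → ℝ} (hf : ContDiff ℝ ∞ f) (i : Fin 4) (n : ℕ) (x : E) :
    ‖iteratedFDeriv ℝ n (pd i f) x‖ ≤ ‖iteratedFDeriv ℝ (n + 1) f x‖ := by
  have h1 : pd i f = (ContinuousLinearMap.apply ℝ ℝ (EuclideanSpace.single i (1 : ℝ) : E)) ∘
      (fderiv ℝ f) := by
    funext y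
    rfl
  rw [h1]
  refine (ContinuousLinearMap.norm_iteratedFDeriv_comp_left (N := ∞) _
    ((hf.fderiv_right (m := ∞) (by simp)).contDiffAt) (by exact_mod_cast le_top)).trans ?_
  rw [norm_iteratedFDeriv_fderiv]
  have h2 : ‖ContinuousLinearMap.apply ℝ ℝ (EuclideanSpace.single i (1 : ℝ) : E)‖ ≤ 1 := by
    refine ContinuousLinearMap.opNorm_le_bound _ zero_le_one fun L => ?_
    rw [ContinuousLinearMap.apply_apply, one_mul]
    refine (L.le_opNorm _).trans ?_
    simp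
  exact mul_le_of_le_one_left (norm_nonneg _) h2

theorem abs_pd3_le {f : E → ℝ} (hf : ContDiff ℝ ∞ f) (i j l : Fin 4) (x : E) :
    |pd l (pd j (pd i f)) x| ≤ ‖iteratedFDeriv ℝ 3 f x‖ := by
  have h0 : |pd l (pd j (pd i f)) x| = ‖iteratedFDeriv ℝ 0 (pd l (pd j (pd i f))) x‖ := by
    rw [norm_iteratedFDeriv_zero, Real.norm_eq_abs]
  rw [h0]
  refine (pd_iter_le (pd_contDiff (pd_contDiff hf i) j) l 0 x).trans ?_
  refine (pd_iter_le (pd_contDiff hf i) j 1 x).trans ?_
  exact pd_iter_le hf i 2 x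

theorem c0_nonneg : 0 ≤ c0 := by
  unfold c0
  positivity

/-- bound of `hs a` for functions with small derivatives on a small region -/
theorem hs_le (hHs : St_Hs) (hFt : St_Ft) {a : ℝ} (ha0 : 0 ≤ a) (ha3 : a ≤ 3) {e : E}
    (he : ‖e‖ = 1) {t D Q : ℝ} (hD : 0 < D) (ht : D ≤ t) {f : E → ℝ} (hf : IsTest f)
    (hQ : ∀ n ≤ 3, ∀ x, ‖iteratedFDeriv ℝ n f x‖ ≤ Q) (h0 : ∀ x ∈ (rgn e t D)ᶜ, f x = 0) :
    hs a f ≤ 64 * (Q ^ 2 * (128 * D ^ 2 * t ^ 2)) := by
  have hsch : IsSch f := hFt.1 f hf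
  obtain ⟨hH0, _, _, hH3, hint, _⟩ := hHs
  have hO : IsOpen (rgn e t D)ᶜ := (rgn_closed e t D).isOpen_compl
  set Y : ℝ := Q ^ 2 * (128 * D ^ 2 * t ^ 2) with hY
  have hY0 : 0 ≤ Y := by positivity
  have h1 : hs 0 f ≤ 64 * Y := by
    rw [hH0 f hsch]
    have h2 : ∫ x, f x ^ 2 = ∫ x, f x * f x := by
      congr 1
      funext x
      ring
    rw [h2]
    have h3 : ∫ x, f x * f x ≤ Y := by
      refine int_le he hD ht (fun x => ?_) (fun x hx => h0 x hx)
      have h4 := hQ 0 (by norm_num) x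
      rwa [norm_iteratedFDeriv_zero, Real.norm_eq_abs] at h4
    linarith
  have h2 : hs 3 f ≤ 64 * Y := by
    rw [hH3 f hsch]
    have h3 : ∀ i j l : Fin 4, ∫ x, pd l (pd j (pd i f)) x ^ 2 ≤ Y := by
      intro i j l
      have h4 : ∫ x, pd l (pd j (pd i f)) x ^ 2 =
          ∫ x, pd l (pd j (pd i f)) x * pd l (pd j (pd i f)) x := by
        congr 1
        funext x
        ring
      rw [h4]
      refine int_le he hD ht (fun x => (abs_pd3_le hf.1 i j l x).trans (hQ 3 le_rfl x)) ?_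
      intro x hx
      exact pd_zero hO (pd_zero hO (pd_zero hO h0 i) j) l x hx
    have h5 : ∀ i : Fin 4, ∑ j, ∑ l, ∫ x, pd l (pd j (pd i f)) x ^ 2 ≤ 16 * Y := by
      intro i
      have h6 : ∀ j : Fin 4, ∑ l, ∫ x, pd l (pd j (pd i f)) x ^ 2 ≤ 4 * Y := by
        intro j
        refine (Finset.sum_le_card_nsmul _ _ _ (fun l _ => h3 i j l)).trans ?_
        simp
      refine (Finset.sum_le_card_nsmul _ _ _ (fun j _ => h6 j)).trans ?_
      simp only [Finset.card_univ, Fintype.card_fin, nsmul_eq_mul]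
      push_cast
      linarith
    refine (Finset.sum_le_card_nsmul _ _ _ (fun i _ => h5 i)).trans ?_
    simp only [Finset.card_univ, Fintype.card_fin, nsmul_eq_mul]
    push_cast
    linarith
  have hn0 : 0 ≤ hs 0 f := by
    rw [hH0 f hsch]
    exact integral_nonneg fun x => sq_nonneg _
  have hn3 : 0 ≤ hs 3 f := by
    rw [hH3 f hsch]
    exact Finset.sum_nonneg fun i _ => Finset.sum_nonneg fun j _ => Finset.sum_nonneg fun l _ =>
      integral_nonneg fun x => sq_nonneg _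
  have h3 := hint 3 a f (by norm_num) ha0 (by exact_mod_cast ha3) hsch
  push_cast at h3
  refine h3.trans ?_
  have ha1 : 0 ≤ a / 3 := by positivity
  have ha2 : 0 ≤ 1 - a / 3 := by
    rw [sub_nonneg, div_le_one (by norm_num)]
    exact ha3
  have hX0 : 0 ≤ 64 * Y := by positivity
  calc hs 0 f ^ (1 - a / 3) * hs 3 f ^ (a / 3)
      ≤ (64 * Y) ^ (1 - a / 3) * (64 * Y) ^ (a / 3) := by
        refine mul_le_mul (Real.rpow_le_rpow hn0 h1 ha2) (Real.rpow_le_rpow hn3 h2 ha1)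
          (Real.rpow_nonneg hn3 _) (Real.rpow_nonneg hX0 _)
    _ = 64 * Y := by
        rw [← Real.rpow_add_of_nonneg hX0 ha2 ha1, sub_add_cancel, Real.rpow_one]

theorem main (hFt : St_Ft) (hHs : St_Hs) (hI : St_IsoP) (hF : St_FldP) (hX : St_ExBP)
    (hDc : St_DecayP) {s : ℝ} (hs1 : |s| < 1 / 2) {f g : E → ℝ} (hf : IsTest f)
    (hg : IsTest g) {e : E} (c : ℝ) (he : ‖e‖ = 1) :
    ∃ Kc T : ℝ, 0 ≤ Kc ∧ ∀ t, T ≤ t →
      ex s (half e (c + t)) (tau t (Theta s f g)) ^ 2 ≤ Kc / (1 + t) := by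
  obtain ⟨C, M0, hC, hM0, hdec⟩ := hDc f g hf hg
  obtain ⟨B, hB, hB1⟩ := et_bound3
  obtain ⟨_, _, _, hlin, hfld⟩ := hF s hs1
  have hXs := hX s hs1
  have hs2' := abs_lt.1 hs1
  have hs2 : -1 / 2 < s ∧ s < 1 / 2 := ⟨by linarith [hs2'.1], hs2'.2⟩
  set D : ℝ := M0 + |c| + 1 with hD
  have hD0 : 0 < D := by
    have := abs_nonneg c
    linarith
  set Q0 : ℝ := 8 * (B * C) with hQ0
  refine ⟨c0 * (128 * (Q0 ^ 2 * (128 * D ^ 2))), D, ?_, ?_⟩
  · have := c0_nonneg
    positivity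
  intro t ht
  obtain ⟨f', g', hf', hg', htau, hvan, hbd⟩ := hdec t
  have ht0 : 0 ≤ t := by linarith
  have htp : 0 < (1 + t) ^ (3 / 2 : ℝ) := Real.rpow_pos_of_pos (by linarith) _
  set C0 : ℝ := C / (1 + t) ^ (3 / 2 : ℝ) with hC0
  have hC00 : 0 ≤ C0 := by positivity
  have hbd' : ∀ x, ∀ n ≤ 3, ‖iteratedFDeriv ℝ n f' x‖ ≤ C0 ∧ ‖iteratedFDeriv ℝ n g' x‖ ≤ C0 := by
    intro x n hn
    have h := hbd x n hn
    rw [abs_of_nonneg ht0] at h
    exact h
  set a : E → ℝ := fun x => et (inner ℝ x e - (t + c)) * f' x with ha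
  set b : E → ℝ := fun x => et (inner ℝ x e - (t + c)) * g' x with hb
  have hat : IsTest a := isTest_loc e (t + c) hf'
  have hbt : IsTest b := isTest_loc e (t + c) hg'
  have hVan : Van s (half e (c + t)) (tau t (Theta s f g) - Theta s a b) := by
    have h1 : tau t (Theta s f g) - Theta s a b = Theta s f' g' + (-1 : ℝ) • Theta s a b := by
      rw [htau s hs2.1.le hs2.2, neg_one_smul, sub_eq_add_neg]
    rw [h1]
    have hl := hlin (-1) (Theta s f' g') (Theta s a b)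
    have hv1 := hfld f' g' hf' hg'
    have hv2 := hfld a b hat hbt
    have hone : ∀ x ∈ half e (c + t), et (inner ℝ x e - (t + c)) = 1 := by
      intro x hx
      have hx' : c + t < inner ℝ x e := hx
      exact et_one (by linarith)
    refine (hXs.2.2.2.2.2.2.1 _ _ (half_open e (c + t))).2 ⟨?_, ?_⟩
    · filter_upwards [hl.1, hv1.1, hv2.1] with x h2 h3 h4 hx
      rw [h2, h3, h4, ha]
      dsimp only
      rw [hone x hx]
      ring
    · filter_upwards [hl.2.1, hv1.2.1, hv2.2.1] with x h2 h3 h4 hx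
      rw [h2, h3, h4, hb]
      dsimp only
      rw [hone x hx]
      ring
  have hex : ex s (half e (c + t)) (tau t (Theta s f g)) ≤ ‖Theta s a b‖ :=
    (hXs.2.2.2.2.2.1 _ _ _ hVan).1
  have hex0 : 0 ≤ ex s (half e (c + t)) (tau t (Theta s f g)) := norm_nonneg _
  refine (pow_le_pow_left₀ hex0 hex 2).trans ?_
  rw [(hI s a b hs2.1.le hs2.2 (hFt.1 a hat) (hFt.1 b hbt)).2.2.2.2.2.2.2.2.1]
  have hza : ∀ x ∈ (rgn e t D)ᶜ, a x = 0 := loc_zero hD hM0 ht (fun x hx => (hvan x hx).1)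
  have hzb : ∀ x ∈ (rgn e t D)ᶜ, b x = 0 := loc_zero hD hM0 ht (fun x hx => (hvan x hx).2)
  set Q : ℝ := 8 * (B * C0) with hQ
  have hba : ∀ n ≤ 3, ∀ x, ‖iteratedFDeriv ℝ n a x‖ ≤ Q := fun n hn x =>
    loc_bound hB hB1 he (t + c) hf'.1 (fun x n hn => (hbd' x n hn).1) n hn x
  have hbb : ∀ n ≤ 3, ∀ x, ‖iteratedFDeriv ℝ n b x‖ ≤ Q := fun n hn x =>
    loc_bound hB hB1 he (t + c) hg'.1 (fun x n hn => (hbd' x n hn).2) n hn x
  have hI1 : hs (3 / 2 + s) a ≤ 64 * (Q ^ 2 * (128 * D ^ 2 * t ^ 2)) :=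
    hs_le hHs hFt (by linarith [hs2.1]) (by linarith [hs2.2]) he hD0 ht hat hba hza
  have hI2 : hs (1 / 2 + s) b ≤ 64 * (Q ^ 2 * (128 * D ^ 2 * t ^ 2)) :=
    hs_le hHs hFt (by linarith [hs2.1]) (by linarith [hs2.2]) he hD0 ht hbt hbb hzb
  have hsum : hs (3 / 2 + s) a + hs (1 / 2 + s) b ≤ 128 * (Q ^ 2 * (128 * D ^ 2 * t ^ 2)) := by
    linarith
  refine (mul_le_mul_of_nonneg_left hsum c0_nonneg).trans ?_
  rw [mul_div_assoc]
  refine mul_le_mul_of_nonneg_left ?_ c0_nonneg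
  have hQQ : Q = Q0 / (1 + t) ^ (3 / 2 : ℝ) := by
    rw [hQ, hQ0, hC0]
    ring
  have h2 : ((1 + t) ^ (3 / 2 : ℝ)) ^ 2 = (1 + t) ^ 3 := by
    rw [← Real.rpow_natCast, ← Real.rpow_mul (by linarith), ← Real.rpow_natCast]
    norm_num
  rw [hQQ, div_pow, h2, le_div_iff₀ (by positivity)]
  have h3 : 128 * (Q0 ^ 2 / (1 + t) ^ 3 * (128 * D ^ 2 * t ^ 2)) * (1 + t) =
      128 * (Q0 ^ 2 * (128 * D ^ 2)) * (t ^ 2 / (1 + t) ^ 2) := by
    have h4 : (1 + t) ≠ 0 := by linarith
    field_simp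
  rw [h3]
  refine mul_le_of_le_one_right (by positivity) ?_
  rw [div_le_one (by positivity)]
  nlinarith

end D1Px

open D1Px in
/-- **D1P** -/
theorem thm_D1P (hFt : St_Ft) (hHs : St_Hs) (hI : St_IsoP) (hDns : St_DnsP) (hF : St_FldP)
    (hX : St_ExBP) (hDc : St_DecayP) : St_D1P := by
  intro s k e c hs1 he
  have hs2' := abs_lt.1 hs1
  have hs2 : -1 / 2 < s ∧ s < 1 / 2 := ⟨by linarith [hs2'.1], hs2'.2⟩
  rw [Metric.tendsto_atTop]
  intro ε hε
  obtain ⟨f, g, hf, hg, hfg⟩ := (hDns s hs2.1.le hs2.2).2.1 k (ε / 2) (half_pos hε)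
  obtain ⟨Kc, T, hK, hmain⟩ := main hFt hHs hI hF hX hDc hs1 hf hg c he
  refine ⟨max T (4 * Kc / ε ^ 2 + 1), ?_⟩
  intro t ht
  have ht1 : T ≤ t := (le_max_left _ _).trans ht
  have ht2 : 4 * Kc / ε ^ 2 + 1 ≤ t := (le_max_right _ _).trans ht
  have h0 : 0 ≤ 4 * Kc / ε ^ 2 := by positivity
  have hex0 : 0 ≤ ex s (half e (c + t)) (tau t k) := norm_nonneg _
  rw [Real.dist_eq, sub_zero, abs_of_nonneg hex0]
  have h1 := hmain t ht1
  have h2 : Kc / (1 + t) < (ε / 2) ^ 2 := by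
    rw [div_lt_iff₀ (by linarith)]
    have h3 : 4 * Kc / ε ^ 2 < 1 + t := by linarith
    rw [div_lt_iff₀ (by positivity)] at h3
    nlinarith
  have h3 : ex s (half e (c + t)) (tau t (Theta s f g)) < ε / 2 :=
    lt_of_pow_lt_pow_left₀ 2 (by positivity) (h1.trans_lt h2)
  have h4 := (hX s hs1).1 (half e (c + t)) (tau t k) (tau t (Theta s f g))
  have h5 : ‖tau t k - tau t (Theta s f g)‖ = ‖k - Theta s f g‖ := by
    rw [← map_sub, LinearIsometry.norm_map]
  rw [h5] at h4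
  have h6 := le_abs_self
    (ex s (half e (c + t)) (tau t k) - ex s (half e (c + t)) (tau t (Theta s f g)))
  linarith

end Pool.Agent.QWF
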