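import Pool.Agent.QWF.StA2

set_option autoImplicit false

/-!
# QWF, block C, first part: group, tightness, sequences (needs only block A)

Every `St_X` is to be proved as `theorem thm_X : St_X` in `Pool/Agent/QWF/X.lean`.
-/

open MeasureTheory Filter Topology Set
open scoped ENNReal NNReal RealInnerProductSpace

namespace Pool.Agent.QWF

/-- **GrA** (the group of translations and dilations). As QWE.GrA (Grp1, Grp2), first clauses. -/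
def St_GrA : Prop :=
  (∀ (y y' : E) (a a' : ℝ) (k : K), gr y a (gr y' a' k) = gr (y + Real.exp (-a) • y') (a + a') k) ∧
  (∀ k : K, gr 0 0 k = k) ∧
  (∀ (y : E) (a : ℝ) (k : K), gr y a (ig y a k) = k ∧ ig y a (gr y a k) = k) ∧
  (∀ (y : E) (a : ℝ) (k : K), ‖gr y a k‖ = ‖k‖ ∧ ‖ig y a k‖ = ‖k‖) ∧
  (∀ (y : E) (a c : ℝ) (k k' : K), gr y a (k + c • k') = gr y a k + c • gr y a k') ∧
  (∀ (y : E) (a : ℝ) (k k' : K), inner ℝ (gr y a k) k' = inner ℝ k (ig y a k')) ∧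
  (∀ (t : ℝ) (y : E) (a : ℝ) (k : K), tau t (gr y a k) = gr y a (tau (Real.exp a * t) k)) ∧
  (Continuous fun z : E × ℝ × K => gr z.1 z.2.1 z.2.2)

/-- **GrP** (exterior seminorms and the group). As QWP.GrP: ActP with the set identities
`{z | x + e^{-a} z ∈ ext y R} = ext (e^a (y - x)) (e^a R)`, `{z | x + e^{-a} z ∈ half e c} = half e (e^a (c - ⟪x,e⟫))`. -/
def St_GrP : Prop := ∀ s : ℝ, |s| < 1 / 2 →
  (∀ (y : E) (R : ℝ) (x : E) (a : ℝ) (k : K),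
    ex s (xt y R) (gr x a k) = ex s (xt (Real.exp a • (y - x)) (Real.exp a * R)) k) ∧
  (∀ (e : E) (c : ℝ) (x : E) (a : ℝ) (k : K),
    ex s (half e c) (gr x a k) = ex s (half e (Real.exp a * (c - inner ℝ x e))) k)

/-- **G0a** (as QWE.G0a; `|{ω ∈ S : |y·ω| ≤ M'}| ≤ 8π M'/‖y‖` by SL1): a fixed element, transported by group elements that leave every compact set, tends weakly to `0`.
Proof. Both `κ` and `w` can be approximated in norm by bounded (`|·| ≤ B`) measurable functions vanishing for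
`|p| > M` (truncate; `gr` is an isometry), so assume this. Then
`|⟨gr y a κ, w⟩| ≤ ∫∫ e^{a/2} |κ(ω, e^a (p - y·ω))| |w(ω,p)|`. Case `a → -∞`: `≤ e^{a/2} B² 2M |S|`. Case `a → ∞`:
bound `w` by `B` and substitute `q = e^a (p - y·ω)`: `≤ e^{-a/2} B² 2M |S|`. Case `|a| ≤ B₀`, `‖y‖ → ∞`: the
integrand vanishes unless `|p| ≤ M` and `|p - y·ω| ≤ e^{B₀} M`, so `|y·ω| ≤ M' := (1 + e^{B₀}) M`, and
`|{ω ∈ S : |y·ω| ≤ M'}| ≤ 8π M'/‖y‖` (SL1 with `z = y`, `g` the indicator of `[-M', M']`), so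
it tends to `0`. -/
def St_G0a : Prop := ∀ (κ w : K) (y : ℕ → E) (a : ℕ → ℝ),
  (Tendsto a atTop atTop ∨ Tendsto a atTop atBot ∨
    ((∃ B, ∀ n, |a n| ≤ B) ∧ Tendsto (fun n => ‖y n‖) atTop atTop)) →
  Tendsto (fun n => (inner ℝ (gr (y n) (a n) κ) w : ℝ)) atTop (𝓝 0)

/-- **G0** [as QWE.G0] (paper G0). Proof from G0a: otherwise there are `w`, `ε > 0` and a subsequence with
`|⟨gr (y n) (a n) (k n), w⟩| ≥ ε`; along a further subsequence `k n → κ` (`Q` compact); the hypothesis on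
`(a, y)` passes to subsequences; `|⟨gr (y n) (a n) (k n - κ), w⟩| ≤ ‖k n - κ‖ ‖w‖ → 0` and G0a for `κ`:
contradiction. -/
def St_G0 : Prop := ∀ (Q : Set K) (k : ℕ → K) (y : ℕ → E) (a : ℕ → ℝ), IsCompact Q → (∀ n, k n ∈ Q) →
  (Tendsto a atTop atTop ∨ Tendsto a atTop atBot ∨
    ((∃ B, ∀ n, |a n| ≤ B) ∧ Tendsto (fun n => ‖y n‖) atTop atTop)) →
  WTo (fun n => gr (y n) (a n) (k n)) 0

/-- **GBd** [as QWE.GBd] (group elements stay bounded if a weak limit is not zero). Proof from G0. Weak convergence passes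
to subsequences. If `a` is not bounded above there is a subsequence with `a → ∞`, by G0 the weak limit is `0`,
weak limits are unique (test with `w = κ`): `κ = 0`. Same if `a` is not bounded below. If `|a n| ≤ B` for all `n`
and `‖y n‖` is unbounded: a subsequence with `‖y n‖ → ∞`, the third case of G0. -/
def St_GBd : Prop := ∀ (Q : Set K) (k : ℕ → K) (y : ℕ → E) (a : ℕ → ℝ) (κ : K), IsCompact Q →
  (∀ n, k n ∈ Q) → WTo (fun n => gr (y n) (a n) (k n)) κ → κ ≠ 0 →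
  ∃ B, ∀ n, |a n| ≤ B ∧ ‖y n‖ ≤ B

/-- **GLim** [as QWE.GLim] (closedness). Proof from GBd, GrA: norm convergence implies weak convergence, so `(y n, a n)` is
bounded (GBd); `closedBall × Icc × Q` is compact, take a convergent subsequence; joint continuity (GrA) and
uniqueness of limits give `κ = gr y' a' κ'`. -/
def St_GLim : Prop := ∀ (Q : Set K) (k : ℕ → K) (y : ℕ → E) (a : ℕ → ℝ) (κ : K), IsCompact Q →
  (∀ n, k n ∈ Q) → Tendsto (fun n => gr (y n) (a n) (k n)) atTop (𝓝 κ) → κ ≠ 0 →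
  ∃ φ : ℕ → ℕ, StrictMono φ ∧ ∃ (y' : E) (a' : ℝ) (κ' : K), κ' ∈ Q ∧
    Tendsto (y ∘ φ) atTop (𝓝 y') ∧ Tendsto (a ∘ φ) atTop (𝓝 a') ∧ Tendsto (k ∘ φ) atTop (𝓝 κ') ∧
    κ = gr y' a' κ'

/-- **C5** [as QWE.C5] (pure real analysis). `N = e^a`. Proof (paper C5). Otherwise there is `T > 0` such that for every `t` there is `s`,
`|s| ≤ T`, with `a(t') < a(t) - log 2` for `t' = t + e^{-a(t)} s`. Iterate: `t_0 = 0`, `t_{j+1} = t_j'`; `a(t_{j+1}) < a(t_j) - log 2`, so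
`a(t_j) > a(t_J) + (J-j) log 2` and `e^{-a(t_j)} ≤ 2^{-(J-j)} e^{-a(t_J)}` for `j < J`. Hence
`|t_0 - t_J| ≤ Σ_{j<J} T e^{-a(t_j)} ≤ T e^{-a(t_J)} Σ_{j<J} 2^{-(J-j)} ≤ T e^{-a(t_J)}`. The hypothesis at `t = t_J` with
`s = e^{a(t_J)} (t_0 - t_J)`, `|s| ≤ T`, gives `a(t_0) ≤ a(t_J) + C`, but `a(t_0) ≥ a(t_J) + J log 2`: contradiction for large `J`. -/
def St_C5 : Prop := ∀ a : ℝ → ℝ,
  (∀ T : ℝ, ∃ C : ℝ, ∀ t s : ℝ, |s| ≤ T → a (t + Real.exp (-(a t)) * s) ≤ a t + C) →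
  ∀ T : ℝ, 0 < T → ∃ t : ℝ, ∀ s : ℝ, |s| ≤ T → a t - Real.log 2 ≤ a (t + Real.exp (-(a t)) * s)

/-- **Tga** (uniform tightness of compact sets). As QWP.Tga (ExBP). -/
def St_Tga : Prop := ∀ s : ℝ, |s| < 1 / 2 → ∀ Q : Set K, IsCompact Q → ∀ ε : ℝ, 0 < ε → ∃ R0 : ℝ, 0 < R0 ∧
  ∀ R, R0 ≤ R → ∀ κ ∈ Q, ex s (xt 0 R) κ ≤ ε

/-- **L5B** (`L^{b+1}` norm on a ball by dyadic annuli). As QWP.L5B: on `ball y 1`: `∫ |u|^{b+1} ≤ C ‖u‖_{q0}^{b+1} ≤ C ‖k‖^{b+1}`. On the annulus `{2^j ≤ dist x y < 2^{j+1}}`, up to a null set contained in `ext y (2^j)`: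
`∫ |u|^{b+1} ≤ (vol B(2^{j+1}))^{1 - (b+1)/q0} ‖1_{ext} u‖_{q0}^{b+1} ≤ C 2^{(3/2+s) j} ex (xt y 2^j) k ^ (b+1)` (ExFP). -/
def St_L5B : Prop := ∀ b : ℝ, 4 < b → ∃ C : ℝ, 0 < C ∧ ∀ (k : K) (y : E) (m : ℝ → ℝ) (A : ℝ), ‖k‖ ≤ A →
  (∀ ρ, ex (sig b) (xt y ρ) k ≤ m ρ) → ∀ n : ℕ,
  ∫ x in Metric.ball y (2 ^ (n + 1)), |U (sig b) k x| ^ (b + 1) ≤
    C * (A ^ (b + 1) + ∑ j ∈ Finset.range (n + 1), (2 : ℝ) ^ ((3 / 2 + sig b) * j) * m (2 ^ j) ^ (b + 1))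

/-- **P4r** (a sequence lemma). As QWP.P4r with `b_n = 2^{(1+s)n} e_n`; the sum is now `C 2^{-n/2} Σ_{j ≤ n} 2^{j/2} δ^b b_j ≤ 4 C δ^b μ_n`. -/
def St_P4r : Prop := ∀ (b s : ℝ), 4 < b → |s| < 1 / 2 → ∀ (e : ℕ → ℝ) (C : ℝ) (M n0 : ℕ), (∀ n, 0 ≤ e n) →
  Tendsto e atTop (𝓝 0) → M ≤ n0 →
  (∀ n, n0 ≤ n → e n ≤ C * e (n - M) ^ (b + 1) + C * (2 : ℝ) ^ (-(3 / 2 + s) * n) *
    (1 + ∑ j ∈ Finset.range (n + 1), (2 : ℝ) ^ ((3 / 2 + s) * j) * e j ^ (b + 1))) →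
  ∃ D : ℝ, 0 < D ∧ ∀ n, e n ≤ D * (2 : ℝ) ^ (-(1 + s) * n)

end Pool.Agent.QWF
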