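import Pool.Agent.QWF.StB
import Pool.Agent.QWF.StC0

set_option autoImplicit false

/-!
# QWF, block C: compact solutions, first reductions (`d = 4`, all `b > 4`)

Ports of block C of QWP (and of the group statements of QWE): every `St_X` is to be proved as `theorem thm_X : St_X` (possibly with other
statements of QWF as hypotheses) in `Pool/Agent/QWF/X.lean`.
-/

open MeasureTheory Filter Topology Set
open scoped ENNReal NNReal RealInnerProductSpace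

namespace Pool.Agent.QWF

/-- **C0** (we may assume `0 ∉ Q`). As QWP.C0 (Small, Uniq, GrA). -/
def St_C0 : Prop := ∀ b : ℝ, 4 < b → ∀ (I : Set ℝ) (k : ℝ → K) (Q : Set K) (x : ℝ → E) (a : ℝ → ℝ), IsMax b I k →
  IsCompact Q → (∀ t ∈ I, ∃ κ ∈ Q, k t = gr (x t) (a t) κ) → (∃ t ∈ I, k t ≠ 0) →
  ∃ Q', CSol b Q' I k x a

/-- **CSy** (symmetries of compact solutions). As QWP.CSy (Sym, GrA). -/
def St_CSy : Prop := ∀ b : ℝ, 4 < b →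
  (∀ Q I k x a, CSol b Q I k x a → ∀ (y0 : E) (a0 t0 : ℝ),
    CSol b Q {s | t0 + Real.exp (-a0) * s ∈ I} (fun s => ig y0 a0 (k (t0 + Real.exp (-a0) * s)))
      (fun s => Real.exp a0 • (x (t0 + Real.exp (-a0) * s) - y0))
      (fun s => a (t0 + Real.exp (-a0) * s) - a0)) ∧
  (∀ Q I k x a, CSol b Q I k x a →
    CSol b (rev '' Q) {t | -t ∈ I} (fun t => rev (k (-t))) (fun t => x (-t)) (fun t => a (-t)))

/-- **C1a** (uniform time of existence for data in a compact set). As QWP.C1a (Loc, StrS, SNt; powers `b` in place of `4`). -/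
def St_C1a : Prop := ∀ b : ℝ, 4 < b → ∀ Q : Set K, IsCompact Q → ∃ c : ℝ, 0 < c ∧ ∀ κ ∈ Q,
  ∃ k : ℝ → K, IsSol b (Icc (-c) c) k ∧ k 0 = κ

/-- **C1** (lifespan). As QWP.C1 (C1a, CSy, MaxE). -/
def St_C1 : Prop := ∀ b : ℝ, 4 < b → ∀ Q : Set K, IsCompact Q → ∃ c : ℝ, 0 < c ∧ ∀ I k x a, CSol b Q I k x a →
  ∀ t ∈ I, Icc (t - c * Real.exp (-(a t))) (t + c * Real.exp (-(a t))) ⊆ I

/-- **C2a** (a compact solution that stops at the time `T` is supported in a backward cone). As QWP.C2a (C1, Tga, GrP, Ext, ExBP). -/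
def St_C2a : Prop := ∀ b : ℝ, 4 < b → ∀ Q I k x a, CSol b Q I k x a → ∀ T : ℝ, IsLUB I T →
  ∃ x0 : E, ∀ s ∈ I, ∀ ρ : ℝ, 0 < ρ → Van (sig b) (xt x0 (2 * ρ + T - s)) (k s)

/-- **C2b** (energy of a state supported in a small ball), `s = sig b`, `q0 = 2b`, `1/q1 = 1/4 + 1/(2b)`. As QWP.C2b, `vol = C r⁴`: `‖DU i‖_2 ≤ vol^{1/2 - 1/q1} ‖DU i‖_{q1} ≤ C r^{1/2+s} ‖k‖` (`4(1/4 - 1/(2b)) = 1 - 2/b = 1/2 + s`), the same for `V`; `‖U‖_4 ≤ vol^{1/4 - 1/q0} ‖U‖_{q0} ≤ C r^{1/2+s} ‖k‖`;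
`∫ |U|^{b+2} ≤ vol^{1 - (b+2)/q0} ‖U‖_{q0}^{b+2} ≤ C r^{1+2s} ‖k‖^{b+2}` (`4 - 2(b+2)/b = 2 - 4/b = 1 + 2s`). -/
def St_C2b : Prop := ∀ b : ℝ, 4 < b → ∃ C : ℝ, 0 < C ∧ ∀ (k : K) (x0 : E) (r : ℝ), 0 < r →
  Van (sig b) (xt x0 r) k →
  EB (sig b) (C * r ^ (1 / 2 + sig b) * ‖k‖) k ∧ 0 ≤ En b k ∧
  En b k ≤ C * r ^ (1 + 2 * sig b) * (‖k‖ ^ 2 + ‖k‖ ^ (b + 2))

/-- **C2** (compact solutions are global). As QWP.C2: suppose `T = sSup I` is finite; C2a with `ρ = T - s`: `Van (xt x0 (3 (T-s))) (k s)`. C2b: `EB (sig b) B (k t)` for `t ∈ [s, s']`, `B = C (3(T-s))^{1/2+sig b} A`, `A = sup_Q ‖κ‖`, and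
`0 ≤ En b (k s) ≤ C (3(T-s))^{1+2 sig b} (A² + A^{b+2})`. En on `[s,s']`: `En b (k s) = En b (k s')`, `s' → T`: `En b (k s) = 0`, so `k s = 0` (Z1), contradiction. Below: CSy (second part). -/
def St_C2 : Prop := ∀ b : ℝ, 4 < b → ∀ Q I k x a, CSol b Q I k x a → I = univ

/-- **C4** (bounded oscillation). As QWP.C4 (C3, G0, GrA). -/
def St_C4 : Prop := ∀ b : ℝ, 4 < b → ∀ Q k x a, CSol b Q univ k x a → ∀ T : ℝ, ∃ C : ℝ, ∀ t s : ℝ, |s| ≤ T →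
  a (t + Real.exp (-(a t)) * s) ≤ a t + C

/-- **C3** (hull). As QWP.C3 (CSy, MaxE, Stab, Uniq, GLim, C2). -/
def St_C3 : Prop := ∀ b : ℝ, 4 < b → ∀ Q k x a, CSol b Q univ k x a → ∀ (t : ℕ → ℝ) (κn : ℕ → K) (κ : K),
  (∀ n, κn n ∈ Q ∧ k (t n) = gr (x (t n)) (a (t n)) (κn n)) → Tendsto κn atTop (𝓝 κ) →
  ∃ k' x' a', CSol b Q univ k' x' a' ∧ k' 0 = κ ∧
    (∀ (s : ℕ → ℝ) (s0 : ℝ), Tendsto s atTop (𝓝 s0) →
      Tendsto (fun n => ig (x (t n)) (a (t n)) (k (t n + Real.exp (-(a (t n))) * s n))) atTop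
        (𝓝 (k' s0))) ∧
    ∀ s c : ℝ, (∀ᶠ n in atTop, c ≤ a (t n + Real.exp (-(a (t n))) * s) - a (t n)) → c ≤ a' s

/-- **C6** (normalised compact solution). As QWP.C6 (C3, C4, C5). -/
def St_C6 : Prop := ∀ b : ℝ, 4 < b → ∀ Q k x a, CSol b Q univ k x a → ∃ k' x' a', NSol b Q k' x' a'

/-- **Tgt** (tightness along a normalised solution). As QWP.Tgt (Tga, GrP). -/
def St_Tgt : Prop := ∀ b : ℝ, 4 < b → ∀ Q k x a, NSol b Q k x a → ∀ ε : ℝ, 0 < ε → ∃ R0 : ℝ, 0 < R0 ∧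
  ∀ R, R0 ≤ R → ∀ t, ex (sig b) (xt (x t) R) (k t) ≤ ε

/-- **ABd** (`N` and the centre are bounded on compact time intervals). As QWP.ABd (GBd). -/
def St_ABd : Prop := ∀ b : ℝ, 4 < b → ∀ Q k x a, CSol b Q univ k x a → ∀ T : ℝ, ∃ B : ℝ, ∀ t : ℝ, |t| ≤ T →
  |a t| ≤ B ∧ ‖x t‖ ≤ B

end Pool.Agent.QWF
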