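import Pool.Agent.QWF.StC

set_option autoImplicit false

/-!
# QWF, block E: the pointwise bound, decay of the exterior norm, end of the proof of (R) (`d = 4`, all `b > 4`)

Ports of block E of QWP: every `St_X` is to be proved as `theorem thm_X : St_X` (possibly with other statements of QWF as hypotheses) in
`Pool/Agent/QWF/X.lean`. Copy the proof in `Pool/Agent/QWP/X.lean` and adapt. `s = sig b`, `0 < s < 1/2`.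
-/

open MeasureTheory Filter Topology Set
open scoped ENNReal NNReal RealInnerProductSpace

namespace Pool.Agent.QWF

/-- **NLi** (integrability of the source along a solution). As QWP.NLi (Meas, NLb). -/
def St_NLi : Prop := ∀ b : ℝ, 4 < b → ∀ (I : Set ℝ) (k : ℝ → K), IsSol b I k →
  (∀ x ∈ I, ∀ y ∈ I, IntegrableOn (fun t => NL b (k t)) (Icc x y) volume ∧
    ∀ᵐ t ∂(volume.restrict (Icc x y)), sn b (k t) < ⊤) ∧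
  ∀ t0 ∈ I, ∀ t ∈ I, tau (t0 - t) (k t) = k t0 - ∫ r in t0..t, tau (t0 - r) (NL b (k r))

/-- **P1a** (the pointwise bound, outgoing side). As QWP.P1a with `na` (a seminorm bounded by the norm, NaB; `na A (∫ ..) ≤ ∫ na A (..)`, since `na A k` is the norm of a bounded operator applied to `k`). `k'` the exterior solution of Ext with
`k' t0 = pr (k t0)`, `Ω = xt (y t0) ρ`. `A = {z | ρ < z.2 - ⟪y t0, z.1⟫}`, `na A (tau (-r) w) = na {z | ρ + r < z.2 - ⟪y t0, z.1⟫} w` (NaB) `≤ na {z | ρ + r < |z.2 - ..|} w`. NLi: `na A (k t0) ≤ na A (tau (-r) (k (t0+r))) + ∫ na A (tau .. (NL b (k ..)))`;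
`na {ρ + r < |..|} (NL b (k (t0+r)) - NL b (k' (t0+r))) = 0` for a.e. `r` (NLoP), so the integral is `≤ ∫ ‖NL b (k' ..)‖ ≤ C ex^{b+1}`. First term: `{ρ + r < z.2 - ⟪y t0, z.1⟫} ⊆ {ρ + κ r < |z.2 - ⟪y (t0+r), z.1⟫|}`, L8P: `≤ ex (xt (y (t0+r)) (ρ + κ r)) (k (t0+r)) ≤ m (ρ + κ r) → 0`. -/
def St_P1a : Prop := ∀ b : ℝ, 4 < b → ∃ d C : ℝ, 0 < d ∧ 0 < C ∧
  ∀ (κ A : ℝ) (m : ℝ → ℝ) (k : ℝ → K) (y : ℝ → E),
  0 < κ → κ < 1 → Pth b κ A m k y → Tendsto m atTop (𝓝 0) → ∀ t ρ : ℝ, 0 ≤ ρ →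
  ex (sig b) (xt (y t) ρ) (k t) ≤ d →
  na (sig b) {z | ρ < z.2 - inner ℝ (y t) (z.1 : E)} (k t) ≤ C * ex (sig b) (xt (y t) ρ) (k t) ^ (b + 1)

/-- **PSy** (symmetries of paths). As QWP.PSy (Sym, ActP, GrP with `a = 0`). -/
def St_PSy : Prop := ∀ b : ℝ, 4 < b → ∀ (κ A : ℝ) (m : ℝ → ℝ) (k : ℝ → K) (y : ℝ → E), Pth b κ A m k y →
  Pth b κ A m (fun t => rev (k (-t))) (fun t => y (-t)) ∧
  (∀ t ρ, ex (sig b) (xt (y (-t)) ρ) (rev (k (-t))) = ex (sig b) (xt (y (-t)) ρ) (k (-t))) ∧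
  ∀ t0 : ℝ, Pth b κ A m (fun t => sh (-(y t0)) (k (t0 + t))) (fun t => y (t0 + t) - y t0) ∧
    ∀ ρ, ex (sig b) (xt 0 ρ) (sh (-(y t0)) (k t0)) = ex (sig b) (xt (y t0) ρ) (k t0)

/-- **P1** (the pointwise bound on each side). Proof: P1a; for the other side apply P1a to the reversed path (PSy) at the time `-t` and NaB (`rev`): the set `{z | ρ < z.2 - ⟪y t, z.1⟫}` becomes `{z | ρ < -(z.2 - ⟪y t, z.1⟫)}`. (The two sides are not put together: `na` is not additive.) -/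
def St_P1 : Prop := ∀ b : ℝ, 4 < b → ∃ d C : ℝ, 0 < d ∧ 0 < C ∧
  ∀ (κ A : ℝ) (m : ℝ → ℝ) (k : ℝ → K) (y : ℝ → E),
  0 < κ → κ < 1 → Pth b κ A m k y → Tendsto m atTop (𝓝 0) → ∀ t ρ : ℝ, 0 ≤ ρ →
  ex (sig b) (xt (y t) ρ) (k t) ≤ d →
  na (sig b) {z | ρ < z.2 - inner ℝ (y t) (z.1 : E)} (k t) ≤ C * ex (sig b) (xt (y t) ρ) (k t) ^ (b + 1) ∧
  na (sig b) {z | ρ < -(z.2 - inner ℝ (y t) (z.1 : E))} (k t) ≤ C * ex (sig b) (xt (y t) ρ) (k t) ^ (b + 1)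

/-- **P3a** (decomposition at time `0`). As QWP.P3a: NLi with `t0 = 0`, `t = T`; apply the bounded operator `Mul s ζ` (it commutes with the integral) and `k 0 = Mul s (1 - ζ) (k 0) + Mul s ζ (k 0)` (MulP). -/
def St_P3a : Prop := ∀ b : ℝ, 4 < b → ∀ (k : ℝ → K), IsSol b univ k → ∀ ζ : ℝ → ℝ, Sm ζ →
  HasCompactSupport (deriv ζ) → ∀ T : ℝ, 0 ≤ T →
  IntervalIntegrable (fun r => Mul (sig b) ζ (tau (-r) (NL b (k r)))) volume 0 T ∧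
  k 0 = Mul (sig b) (fun p => 1 - ζ p) (k 0) + Mul (sig b) ζ (tau (-T) (k T)) +
    ∫ r in (0 : ℝ)..T, Mul (sig b) ζ (tau (-r) (NL b (k r)))

/-- **P3b** (the first two terms). Proof. `c = κ/48`, `T = R/κ + R/12`. (i) `1 - θ = θp + θm`, `θp = (1 - θ) 1_{p > 0}`, `θm = (1-θ) 1_{p<0}`: smooth (`1 - θ = 0` for `|p| ≤ κ/24`), derivatives compactly supported (`θ` is constant for `|p| ≥ κ/12`). MulP (linearity in `ζ`, bound by `na` with `c = 0`):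
`‖Mul (1 - θ(·/R)) (k 0)‖ ≤ C na {z | κR/48 < z.2} (k 0) + C na {z | κR/48 < -z.2} (k 0)` (the closures of the supports are contained in `{κR/24 ≤ ± z.2}`), `y 0 = 0`, P1 with `ρ = κR/48`, `ex ≤ m ρ ≤ d`, `x ↦ x^{b+1}` monotone on `[0,∞)`. (ii) `Mul θ(·/R) (tau (-T) w) = tau (-T) (Mul θ((·-T)/R) w)` (MulP); the closure of
`{z | θ((z.2-T)/R) ≠ 0}` is contained in `{z | T - κR/12 ≤ z.2}`, there `z.2 - ⟪y T, z.1⟫ ≥ T - κR/12 - (1-κ) T = κT - κR/12 = R > R/2` (`‖y T‖ ≤ (1-κ) T`); P1 at the time `T` with `ρ = R/2`, `m (R/2) ≤ m (κR/48)`. -/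
def St_P3b : Prop := ∀ b : ℝ, 4 < b → ∃ d : ℝ, 0 < d ∧ ∀ (κ : ℝ) (θ : ℝ → ℝ), 0 < κ → κ < 1 → Sm θ →
  (∀ p, 0 ≤ θ p ∧ θ p ≤ 1) → (∀ p, |p| ≤ κ / 24 → θ p = 1) → (∀ p, κ / 12 ≤ |p| → θ p = 0) →
  ∃ C : ℝ, 0 < C ∧ ∀ (A : ℝ) (m : ℝ → ℝ) (k : ℝ → K) (y : ℝ → E) (R : ℝ), Pth b κ A m k y → Antitone m →
  Tendsto m atTop (𝓝 0) → y 0 = 0 → 0 < R → m (κ / 48 * R) ≤ d →
  ‖Mul (sig b) (fun p => 1 - θ (p / R)) (k 0)‖ ≤ C * m (κ / 48 * R) ^ (b + 1) ∧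
  ‖Mul (sig b) (fun p => θ (p / R)) (tau (-(R / κ + R / 12)) (k (R / κ + R / 12)))‖ ≤
    C * m (κ / 48 * R) ^ (b + 1)

/-- **Core** (the source in the core). Proof. `F := 1_{closedBall y r} (F(u) - F(u'))`, `u = U k`, `u' = U k'`: `u = u'` a.e. outside (ExFP), so `F = F(u) - F(u')` a.e., and `IsGam s F (NL b k - NL b k')` (NLb), so `NL b k - NL b k' = Gam s F` (GamP; the bound is
`|∫ F φ| = |⟨w, dRs s φ⟩| ≤ ‖w‖ ‖dRs s φ‖`, `c0 ‖dRs s φ‖² = hs (-1/2-s) φ` (IsoP), so `B = ‖w‖/√c0`; local integrability from `F(u) ∈ L^{q1}`). `∫ |F| ≤ ∫_{ball} |u|^{b+1} + ∫_{ball} |u'|^{b+1}` (the sphere is a null set), Hoelder with `q0 = 2b`: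
`∫_{ball y r} |u'|^{b+1} ≤ (C r⁴)^{1 - (b+1)/q0} ‖u'‖_{q0}^{b+1} ≤ C r^{3/2+s} ‖k'‖^{b+1}` (`4 - 2(b+1)/b = 2 - 2/b = 3/2 + s`). -/
def St_Core : Prop := ∀ b : ℝ, 4 < b → ∃ C : ℝ, 0 < C ∧ ∀ (k k' : K) (y : E) (r : ℝ), 0 < r →
  sn b k < ⊤ → sn b k' < ⊤ → Van (sig b) (xt y r) (k - k') →
  ∃ (F : E → ℝ) (B : ℝ), 0 ≤ B ∧ (∀ φ, IsTest φ → |∫ x, F x * φ x| ≤ B * (hs (-1 / 2 - sig b) φ) ^ (1 / 2 : ℝ)) ∧
    (∀ x, r < dist x y → F x = 0) ∧ NL b k - NL b k' = Gam (sig b) F ∧ Integrable F volume ∧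
    ∫ x, |F x| ≤ (∫ x in Metric.ball y r, |U (sig b) k x| ^ (b + 1)) +
      C * r ^ (3 / 2 + sig b) * ‖k'‖ ^ (b + 1)

/-- **P3c** (near field estimate of the core source). As QWP.P3c. `c = κ/24`. (1) `r > R/8`: `w = NL b k - NL b k'` has `na {cR < |z.2 - ⟪Y, z.1⟫|} w = 0` (NLoP). `Mul θ(·/R) (tau (-r) w) = tau (-r) (Mul θ((·-r)/R) w)` (MulP), the closure of `{z | θ((z.2-r)/R) ≠ 0}` lies in `{r - κR/12 ≤ z.2}`, there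
`z.2 - ⟪Y, z.1⟫ ≥ r - κR/12 - (1-κ) r = κ r - κR/12 > κR/24`; so the norm is `≤ C na {cR < |..|} w = 0` (MulP). (2) `r ≤ R/8`: Core with the radius `cR`; `F = 0` for `R/4 < ‖x‖`, as `‖Y‖ + cR ≤ (1-κ) R/8 + κR/24 ≤ R/4`. NFP (`θ` vanishes for `|p| ≥ 1/12`) with the radius `R`. -/
def St_P3c : Prop := ∀ b : ℝ, 4 < b → ∀ (κ : ℝ) (θ : ℝ → ℝ), 0 < κ → κ < 1 → Sm θ → (∀ p, 0 ≤ θ p ∧ θ p ≤ 1) →
  (∀ p, κ / 12 ≤ |p| → θ p = 0) → ∃ C : ℝ, 0 < C ∧ ∀ (R r : ℝ) (k k' : K) (Y : E), 0 < R → 0 ≤ r →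
  ‖Y‖ ≤ (1 - κ) * r → sn b k < ⊤ → sn b k' < ⊤ → Van (sig b) (xt Y (κ / 24 * R)) (k - k') →
  (R / 8 < r → Mul (sig b) (fun p => θ (p / R)) (tau (-r) (NL b k - NL b k')) = 0) ∧
  (r ≤ R / 8 → ex (sig b) (xt 0 R) (Mul (sig b) (fun p => θ (p / R)) (tau (-r) (NL b k - NL b k'))) ≤
    C * R ^ (-(5 / 2 : ℝ) - sig b) * ((∫ x in Metric.ball Y R, |U (sig b) k x| ^ (b + 1)) +
      R ^ (3 / 2 + sig b) * ‖k'‖ ^ (b + 1)))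

/-- **P3d** (exterior solutions on short time intervals). As QWP.P3d (Ext). -/
def St_P3d : Prop := ∀ b : ℝ, 4 < b → ∃ d C : ℝ, 0 < d ∧ 0 < C ∧
  ∀ (κ A : ℝ) (m : ℝ → ℝ) (k : ℝ → K) (y : ℝ → E),
  0 < κ → κ < 1 → Pth b κ A m k y → ∀ ρ t1 : ℝ, 0 < ρ → m ρ ≤ d →
  ∃ k' : ℝ → K, IsSol b univ k' ∧ (∀ t, ‖k' t‖ ≤ 2 * m ρ) ∧ Integrable (fun t => NL b (k' t)) volume ∧
    ∫ t, ‖NL b (k' t)‖ ≤ C * m ρ ^ (b + 1) ∧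
    ∀ t, |t - t1| ≤ ρ / 2 → Van (sig b) (xt (y t) (2 * ρ)) (k t - k' t)

/-- **P3e** (the Duhamel term). As QWP.P3e from P3c, P3d, NLi, MulP (`‖Mul θ(·/R) w‖ ≤ C ‖w‖`, uniformly in `R`). -/
def St_P3e : Prop := ∀ b : ℝ, 4 < b → ∃ d : ℝ, 0 < d ∧ ∀ (κ : ℝ) (θ : ℝ → ℝ), 0 < κ → κ < 1 → Sm θ →
  (∀ p, 0 ≤ θ p ∧ θ p ≤ 1) → (∀ p, κ / 12 ≤ |p| → θ p = 0) → ∃ C : ℝ, 0 < C ∧
  ∀ (A : ℝ) (m : ℝ → ℝ) (k : ℝ → K) (y : ℝ → E) (R B : ℝ), 0 < R → Pth b κ A m k y → y 0 = 0 →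
    m (κ / 48 * R) ≤ d → (∀ t, ∫ x in Metric.ball (y t) R, |U (sig b) (k t) x| ^ (b + 1) ≤ B) →
    ex (sig b) (xt 0 R) (∫ r in (0 : ℝ)..(R / κ + R / 12),
      Mul (sig b) (fun p => θ (p / R)) (tau (-r) (NL b (k r)))) ≤
      C * m (κ / 48 * R) ^ (b + 1) + C * R ^ (-(3 / 2 : ℝ) - sig b) * B

/-- **P3** (the nonlinear recursion at time `0`). As QWP.P3 from P3a, P3b, P3e, L5B (`2^{-M} ≤ κ/48`). -/
def St_P3 : Prop := ∀ b : ℝ, 4 < b → ∀ (κ A : ℝ) (m : ℝ → ℝ), 0 < κ → κ < 1 → Antitone m →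
  Tendsto m atTop (𝓝 0) →
  ∃ (C : ℝ) (M n0 : ℕ), M ≤ n0 ∧ ∀ (k : ℝ → K) (y : ℝ → E), Pth b κ A m k y → y 0 = 0 → ∀ n : ℕ, n0 ≤ n →
    ex (sig b) (xt 0 (2 ^ n)) (k 0) ≤ C * m (2 ^ (n - M)) ^ (b + 1) +
      C * (2 : ℝ) ^ (-(3 / 2 + sig b) * n) *
      (1 + ∑ j ∈ Finset.range (n + 1), (2 : ℝ) ^ ((3 / 2 + sig b) * j) * m (2 ^ j) ^ (b + 1))

/-- **P4** (decay of the exterior norm). As QWP.P4 (P3, PSy, P4r, ExBP). -/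
def St_P4 : Prop := ∀ b : ℝ, 4 < b → ∀ (κ A : ℝ) (k : ℝ → K) (y : ℝ → E), 0 < κ → κ < 1 →
  Pth b κ A (epsb b k y) k y → Tendsto (epsb b k y) atTop (𝓝 0) →
  ∃ D : ℝ, 0 < D ∧ ∀ (n : ℕ) (t : ℝ),
    ex (sig b) (xt (y t) (2 ^ n)) (k t) ≤ D * (2 : ℝ) ^ (-(1 + sig b) * n)

/-- **NPth** (a normalised compact solution with a subluminal centre is a path). As QWP.NPth (GrA, ExBP, Tgt). -/
def St_NPth : Prop := ∀ b : ℝ, 4 < b → ∀ Q k x a, NSol b Q k x a → ∀ (y : ℝ → E) (κ C : ℝ), 0 < κ → κ < 1 →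
  (∀ s t : ℝ, dist (y t) (y s) ≤ (1 - κ) * |t - s|) → (∀ t, dist (x t) (y t) ≤ C) →
  (∃ A : ℝ, Pth b κ A (epsb b k y) k y) ∧ Tendsto (epsb b k y) atTop (𝓝 0)

/-- **E1** (energy tails). As QWP.E1. Annuli `{2^j < dist x y ≤ 2^{j+1}}`, `j ≥ n`, contained in `ext y (2^j)`, Hoelder as in C2b and ExFP: `∫ |DU i|² ≤ C 2^{(1+2s)j} ex² ≤ C D² 2^{(1+2s)j - (2+2s)j} = C D² 2^{-j}`, the same for `V`;
`‖1_{annulus} U‖_4 ≤ C 2^{(1/2+s)j} ex ≤ C D 2^{-j/2}` (summable: `U ∈ L⁴`); `∫ |U|^{b+2} ≤ C 2^{(1+2s)j} ex^{b+2} ≤ C D^{b+2} 2^{-j}` (`1 + 2s - (1+s)(b+2) ≤ 1 + 2s - 2(1+s) = -1`). On `closedBall y 1`: Hoelder with the full norms (FldP). -/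
def St_E1 : Prop := ∀ b : ℝ, 4 < b → ∀ D : ℝ, ∃ C : ℝ, 0 < C ∧ ∀ (k : K) (y : E), ‖k‖ ≤ D →
  (∀ n : ℕ, ex (sig b) (xt y (2 ^ n)) k ≤ D * (2 : ℝ) ^ (-(1 + sig b) * n)) →
  EB (sig b) C k ∧ ∀ n : ℕ,
    (∑ i, ∫ x in xt y (2 ^ n), DU (sig b) k i x ^ 2) + (∫ x in xt y (2 ^ n), V (sig b) k x ^ 2) +
      (∫ x in xt y (2 ^ n), |U (sig b) k x| ^ (b + 2)) ≤ C * (2 : ℝ) ^ (-(n : ℝ))

/-- **UV0** (the position cannot vanish on a time interval). Proof. By continuity of `t ↦ ∫ U (k t) φ = ⟨k t, Rs s φ⟩` it vanishes for ALL `t ∈ [0,1]`, for every test function `φ`; WEq (first part): `∫_x^t ∫ V (k r) φ dr = 0` for `x, t ∈ [0,1]`, and `r ↦ ∫ V (k r) φ = ⟨k r, dRs s φ⟩` is continuous,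
so it vanishes on `[0,1]`. So `k 0 ⊥ Rs s φ, dRs s φ` for all test `φ`: `k 0 = 0` (DnsP). -/
def St_UV0 : Prop := ∀ b : ℝ, 4 < b → ∀ (k : ℝ → K), IsSol b univ k →
  (∀ᵐ r ∂(volume.restrict (Icc (0 : ℝ) 1)), U (sig b) (k r) =ᵐ[volume] 0) → k 0 = 0

/-- **E3a** (lower bound near the core). As QWP.E3a: `U (k (t_n + e^{-a} r)) z = e^{(2/b) a} U (k_n r) (e^a (z - x t_n))` (ActP), change of variables `e^{(2/b)(b+2)a} e^{-4a} e^{-a} = e^{-(3 - 4/b) a}`; LscP with `p = b + 2`, Fatou, UV0, C3. -/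
def St_E3a : Prop := ∀ b : ℝ, 4 < b → ∀ Q k x a, CSol b Q univ k x a → ∃ C1 c' : ℝ, 0 < C1 ∧ 0 < c' ∧ ∀ t : ℝ,
  ENNReal.ofReal (c' * Real.exp (-((3 - 4 / b) * a t))) ≤
    ∫⁻ r in Icc t (t + Real.exp (-(a t))),
      ∫⁻ z in Metric.closedBall (x t) (C1 * Real.exp (-(a t))), ENNReal.ofReal (|U (sig b) (k r) z| ^ (b + 2))

/-- **E3** (the frequency scale is unbounded). As QWP.E3 (E3a; `3 - 4/b > 0`). -/
def St_E3 : Prop := ∀ b : ℝ, 4 < b → ∀ Q k x a, NSol b Q k x a → ∀ (y : ℝ → E) (C B : ℝ),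
  (∀ s t : ℝ, dist (y t) (y s) ≤ |t - s|) → (∀ t, dist (x t) (y t) ≤ C) →
  (∀ T : ℝ, 0 < T → ∫⁻ t in Icc 0 T, ∫⁻ z, ENNReal.ofReal (|U (sig b) (k t) z| ^ (b + 2) / √(1 + ‖z‖ ^ 2)) ≤
    ENNReal.ofReal B) →
  ∀ L : ℝ, ∃ t, L < a t

/-- **E4a** (splitting of the energy). As QWP.E4a: Hoelder as in C2b on `closedBall x ρ` (`≤ C ρ^{1+2s} (A² + A^{b+2})`) and on `closedBall y R ∩ ext x ρ` (`≤ C R^{1+2s} (e² + e^{b+2})`, `e = ex (xt x ρ) k`, ExFP). `FE` and `|U|^{b+2} ∈ L¹` follow from `EB` (EnS). -/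
def St_E4a : Prop := ∀ b : ℝ, 4 < b → ∀ A : ℝ, ∃ C : ℝ, 0 < C ∧ ∀ (k : K) (x y : E) (ρ R B : ℝ), ‖k‖ ≤ A →
  EB (sig b) B k → 0 < ρ → 0 < R →
  En b k ≤ (∑ i, ∫ z in xt y R, DU (sig b) k i z ^ 2) + (∫ z in xt y R, V (sig b) k z ^ 2) +
    (∫ z in xt y R, |U (sig b) k z| ^ (b + 2)) + C * ρ ^ (1 + 2 * sig b) +
    C * R ^ (1 + 2 * sig b) * (ex (sig b) (xt x ρ) k ^ 2 + ex (sig b) (xt x ρ) k ^ (b + 2))

/-- **E4** (the energy is zero). As QWP.E4: E1 gives `EB (sig b) C (k t)` for all `t`, so En on all intervals and Z1 apply (no persistence needed); E4a, Tga, GrP. -/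
def St_E4 : Prop := ∀ b : ℝ, 4 < b → ∀ Q k x a, NSol b Q k x a → ∀ (y : ℝ → E) (D : ℝ),
  (∀ (n : ℕ) (t : ℝ), ex (sig b) (xt (y t) (2 ^ n)) (k t) ≤ D * (2 : ℝ) ^ (-(1 + sig b) * n)) →
  (∀ L : ℝ, ∃ t, L < a t) → False

/-- **D5** (proved in block D): a normalised compact solution is subluminal. See StD.lean for the proof. -/
def St_D5 : Prop := ∀ b : ℝ, 4 < b → ∀ Q k x a, NSol b Q k x a → ∃ (y : ℝ → E) (κ C : ℝ), 0 < κ ∧ κ < 1 ∧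
  (∀ s t : ℝ, dist (y t) (y s) ≤ (1 - κ) * |t - s|) ∧ ∀ t, dist (x t) (y t) ≤ C

/-- **R** (rigidity). As QWP.R: C0, C2, C6, D5, NPth, P4; E1 (`max D A`): `EB (sig b) C (k t)` for all `t`; Mor on `[0,T]`: the hypothesis of E3 (with a `B` independent of `T`: `En b (k 0)`); E3: `a` is unbounded; E4. -/
def St_R : Prop := ∀ b : ℝ, 4 < b → ∀ (I : Set ℝ) (k : ℝ → K) (Q : Set K) (x : ℝ → E) (a : ℝ → ℝ), IsMax b I k →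
  IsCompact Q → (∀ t ∈ I, ∃ κ ∈ Q, k t = gr (x t) (a t) κ) → ∀ t ∈ I, k t = 0

end Pool.Agent.QWF
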