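import Pool.Agent.QWF.StG

set_option autoImplicit false

/-!
# QWF, Dcy: decay of test states
-/

open MeasureTheory Filter Topology Set
open scoped ENNReal NNReal RealInnerProductSpace ContDiff

namespace Pool.Agent.QWF

namespace Dcyx

lemma test_pd {f : E → ℝ} (hf : IsTest f) (i : Fin 4) : IsTest (pd i f) := by
  refine ⟨?_, ?_⟩
  · exact (hf.1.fderiv_right (m := ∞) (by norm_num)).clm_apply contDiff_const
  · exact (hf.2.fderiv (𝕜 := ℝ)).comp_left
      (g := fun L : E →L[ℝ] ℝ => L (EuclideanSpace.single i (1 : ℝ))) rfl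

lemma supp_pd {φ : E → ℝ} (i : Fin 4) : tsupport (pd i φ) ⊆ tsupport φ := by
  refine closure_minimal (fun x hx => ?_) (isClosed_tsupport φ)
  by_contra hc
  refine hx ?_
  have h1 := image_eq_zero_of_notMem_tsupport (f := fderiv ℝ φ)
    (fun h => hc (tsupport_fderiv_subset ℝ h))
  unfold pd
  rw [h1]
  rfl

lemma test_lap {φ : E → ℝ} (h : IsTest φ) : IsTest (lap φ) := by
  refine ⟨?_, ?_⟩
  · have : ContDiff ℝ ∞ fun x => ∑ i, pd i (pd i φ) x :=
      ContDiff.sum fun i _ => (test_pd (test_pd h i) i).1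
    exact this
  · refine h.2.mono' fun x hx => ?_
    by_contra hc
    refine hx ?_
    unfold lap
    refine Finset.sum_eq_zero fun i _ => ?_
    exact image_eq_zero_of_notMem_tsupport fun h1 => hc (supp_pd i (supp_pd i h1))

lemma test_zero : IsTest (fun _ : E => (0 : ℝ)) := ⟨contDiff_const, HasCompactSupport.zero⟩

lemma test_sub {f g : E → ℝ} (hf : IsTest f) (hg : IsTest g) : IsTest fun x => f x - g x := by
  have h : (fun x => f x - g x) = f + (-g) := by
    funext x
    simp [sub_eq_add_neg]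
  refine ⟨hf.1.sub hg.1, ?_⟩
  rw [h]
  exact hf.2.add (hg.2.comp_left (g := fun y : ℝ => -y) neg_zero)

lemma test_neg {f : E → ℝ} (hf : IsTest f) : IsTest fun x => - f x :=
  ⟨hf.1.neg, hf.2.comp_left (g := fun y : ℝ => -y) neg_zero⟩

lemma int_mul {f g : E → ℝ} (hf : IsTest f) (hg : IsTest g) : Integrable (fun x => f x * g x) :=
  (hf.1.continuous.mul hg.1.continuous).integrable_of_hasCompactSupport hf.2.mul_right

/-- Test functions are determined by their integrals against test functions. -/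
lemma eq_of_pair {a b : E → ℝ} (ha : IsTest a) (hb : IsTest b)
    (h : ∀ ψ, IsTest ψ → ∫ x, a x * ψ x = ∫ x, b x * ψ x) : a = b := by
  have ht := test_sub ha hb
  have h1 := h _ ht
  have h2 : ∫ x, (a x - b x) ^ 2 = 0 := by
    have h3 : ∫ x, (a x - b x) ^ 2 = ∫ x, (a x * (a x - b x) - b x * (a x - b x)) := by
      refine integral_congr_ae (Eventually.of_forall fun x => ?_)
      simp only
      ring
    rw [h3, integral_sub (int_mul ha ht) (int_mul hb ht), h1, sub_self]
  have hi : Integrable (fun x => (a x - b x) ^ 2) := by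
    refine (int_mul ht ht).congr (Eventually.of_forall fun x => ?_)
    simp only
    ring
  have h4 := (integral_eq_zero_iff_of_nonneg (fun x => sq_nonneg _) hi).1 h2
  have hc : Continuous fun x => (a x - b x) ^ 2 := (ha.1.continuous.sub hb.1.continuous).pow 2
  have h5 := hc.ae_eq_iff_eq (μ := (volume : Measure E)) continuous_zero
  have h6 := h5.1 h4
  funext x
  have h7 := congrFun h6 x
  simp only [Pi.zero_apply] at h7
  nlinarith [sq_nonneg (a x - b x), pow_eq_zero_iff (two_ne_zero) |>.1 h7]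

lemma eq_of_ft (hFt : St_Ft) {a b : E → ℝ} (ha : IsTest a) (hb : IsTest b)
    (h : ∀ ξ, ft a ξ = ft b ξ) : a = b := by
  apply eq_of_pair ha hb
  intro ψ hψ
  rw [(hFt.2 a (hFt.1 a ha)).2.2.1 ψ (hFt.1 ψ hψ), (hFt.2 b (hFt.1 b hb)).2.2.1 ψ (hFt.1 ψ hψ)]
  congr 2
  funext ξ
  rw [h ξ]

lemma ft_of_mul {P Q : E → ℂ} (hP : Continuous P) (hQ : Continuous Q)
    (h : ∀ ξ : E, ((2 * Real.pi * ‖ξ‖ : ℝ) : ℂ) * P ξ = ((2 * Real.pi * ‖ξ‖ : ℝ) : ℂ) * Q ξ)
    (ξ : E) : P ξ = Q ξ := by
  have hd : Dense ({0}ᶜ : Set E) := dense_compl_singleton 0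
  have : P = Q := Continuous.ext_on hd hP hQ fun x hx => by
    have h2 : ((2 * Real.pi * ‖x‖ : ℝ) : ℂ) ≠ 0 := by
      have h3 : (2 * Real.pi * ‖x‖ : ℝ) ≠ 0 := by
        have := norm_pos_iff.2 (show x ≠ 0 from hx)
        positivity
      exact_mod_cast h3
    exact mul_left_cancel₀ h2 (h x)
  rw [this]

end Dcyx

open Dcyx in
/-- **Dcy** (decay of test states). -/
theorem thm_Dcy (hG : St_Grp1) (hFt : St_Ft) (hIso : St_IsoP) (hHs : St_Hs) (hF : St_FreX)
    (hD : St_DecayP) : St_Dcy := by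
  intro φ hφ
  have sch : ∀ {u : E → ℝ}, IsTest u → IsSch u := fun h => hFt.1 _ h
  obtain ⟨C1, M1, hC1, hM1, hdec⟩ := hD (fun _ => 0) φ test_zero hφ
  obtain ⟨M2, hM2⟩ : ∃ M2 : ℝ, ∀ y, M2 ≤ ‖y‖ → φ y = 0 := by
    obtain ⟨M, hM⟩ := hφ.2.isCompact.isBounded.subset_ball (0 : E)
    refine ⟨M, fun y hy => ?_⟩
    by_contra hne
    have h1 := hM (subset_tsupport φ (Function.mem_support.2 hne))
    rw [mem_ball_zero_iff] at h1
    linarith
  have hs0 : 0 ≤ hs 0 φ := integral_nonneg fun ξ => by positivity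
  have hs1 : 0 ≤ hs 1 φ := integral_nonneg fun ξ => by positivity
  refine ⟨C1 + hs 0 φ + hs 1 φ, max M1 M2, by positivity, hM1.trans (le_max_left _ _), ?_⟩
  intro t
  obtain ⟨-, f1, f2, t1, t2, hst, hsup, hf1, hf2⟩ := hF (fun _ => 0) (fun _ => 0) φ t test_zero
    test_zero hφ
  refine ⟨f1, f2, t1, t2, fun s hs hs' => ⟨(hst s hs hs').1, (hst s hs hs').2, ?_⟩, ?_, ?_, ?_⟩
  · -- the functions for the Laplacian
    obtain ⟨-, h1, h2, u1, u2, hst', -, hh1, hh2⟩ := hF (fun _ => 0) (fun _ => 0) (lap φ) t test_zero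
      test_zero (test_lap hφ)
    have e1 : h1 = lap f1 := by
      apply eq_of_ft hFt u1 (test_lap t1)
      intro ξ
      rw [hh1, (hFt.2 φ (sch hφ)).2.2.2.2.1, (hFt.2 f1 (sch t1)).2.2.2.2.1, hf1]
      ring
    have e2 : h2 = lap f2 := by
      apply eq_of_ft hFt u2 (test_lap t2)
      apply ft_of_mul (hFt.2 h2 (sch u2)).1 (hFt.2 _ (sch (test_lap t2))).1
      intro ξ
      rw [hh2, (hFt.2 φ (sch hφ)).2.2.2.2.1, (hFt.2 f2 (sch t2)).2.2.2.2.1]
      linear_combination (((2 * Real.pi * ‖ξ‖) ^ 2 : ℝ) : ℂ) * hf2 ξ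
    rw [← e1, ← e2]
    exact hst' s hs hs'
  · intro x hx
    apply hsup x
    intro y hy
    apply hM2
    have h1 : ‖x‖ ≤ ‖y‖ + dist y x := by
      rw [dist_eq_norm]
      have := norm_sub_norm_le x y
      rw [norm_sub_rev] at this
      linarith
    have := le_max_right M1 M2
    linarith
  · -- sup bounds
    obtain ⟨f', g', tf, tg, hT, -, hb⟩ := hdec t
    have hT0 := hT 0 (by norm_num) (by norm_num)
    have key : ∀ ψ, IsTest ψ → ∫ x, f' x * ψ x = ∫ x, (- f2 x) * ψ x ∧
        ∫ x, g' x * ψ x = ∫ x, f1 x * ψ x := by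
      intro ψ hψ
      obtain ⟨-, p1, p2, v1, v2, hsp, -, hp1, hp2⟩ := hF (fun _ => 0) (fun _ => 0) ψ (-t) test_zero
        test_zero hψ
      obtain ⟨q1, q2⟩ := hsp 0 (by norm_num) (by norm_num)
      have i1 := (hIso 0 f' ψ (by norm_num) (by norm_num) (sch tf) (sch hψ)).2.2.2.2.2.1 g' (sch tg)
      have i2 := (hIso 0 g' ψ (by norm_num) (by norm_num) (sch tg) (sch hψ)).2.2.2.2.2.1 f' (sch tf)
      have a1 := (hG.2.2.2.2.2.1 t (Theta 0 (fun _ => 0) φ) (Rs 0 ψ))
      have a2 := (hG.2.2.2.2.2.1 t (Theta 0 (fun _ => 0) φ) (dRs 0 ψ))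
      have z : ∀ w : E → ℝ, IsTest w → inner ℝ (Theta 0 (fun _ => 0) φ) (Rs 0 w) = 0 ∧
          inner ℝ (Theta 0 (fun _ => 0) φ) (dRs 0 w) = ∫ x, φ x * w x := by
        intro w hw
        refine ⟨?_, ?_⟩
        · rw [((hIso 0 (fun _ => 0) w (by norm_num) (by norm_num) (sch test_zero)
            (sch hw)).2.2.2.2.2.1 φ (sch hφ)).1]
          simp
        · exact ((hIso 0 φ w (by norm_num) (by norm_num) (sch hφ)
            (sch hw)).2.2.2.2.2.1 (fun _ => 0) (sch test_zero)).2
      constructor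
      · rw [← i1.1, ← hT0, a1, q1, inner_add_right, (z p1 v1).1, (z p2 v2).2, zero_add,
          (hFt.2 φ (sch hφ)).2.2.1 p2 (sch v2)]
        have hn := (hFt.2 (fun x => - f2 x) (sch (test_neg t2))).2.2.1 ψ (sch hψ)
        rw [hn]
        congr 2
        funext ξ
        revert ξ
        have hft : ∀ ξ, ft (fun x => - f2 x) ξ = - ft f2 ξ := by
          intro ξ
          simp only [ft]
          rw [← integral_neg]
          refine integral_congr_ae (Eventually.of_forall fun x => ?_)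
          simp only
          push_cast
          ring
        apply ft_of_mul
        · exact (hFt.2 φ (sch hφ)).1.mul (Complex.continuous_conj.comp (hFt.2 p2 (sch v2)).1)
        · exact (hFt.2 _ (sch (test_neg t2))).1.mul (Complex.continuous_conj.comp (hFt.2 ψ (sch hψ)).1)
        · intro ξ
          rw [hft]
          have c1 := congrArg (starRingEnd ℂ) (hp2 ξ)
          rw [map_mul, map_mul, map_neg, Complex.conj_ofReal, Complex.conj_ofReal] at c1
          have c2 : Real.sin (2 * Real.pi * -t * ‖ξ‖) = - Real.sin (2 * Real.pi * t * ‖ξ‖) := by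
            rw [← Real.sin_neg]
            congr 1
            ring
          rw [c2] at c1
          push_cast at c1 ⊢
          have c3 := hf2 ξ
          push_cast at c3
          linear_combination (ft φ ξ) * c1 + ((starRingEnd ℂ) (ft ψ ξ)) * c3
      · rw [← i2.2, ← hT0, a2, q2, inner_add_right, (z _ (test_lap v2)).1, (z p1 v1).2, zero_add,
          (hFt.2 φ (sch hφ)).2.2.1 p1 (sch v1), (hFt.2 f1 (sch t1)).2.2.1 ψ (sch hψ)]
        congr 2
        funext ξ
        have c2 : Real.cos (2 * Real.pi * -t * ‖ξ‖) = Real.cos (2 * Real.pi * t * ‖ξ‖) := by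
          rw [← Real.cos_neg]
          congr 1
          ring
        rw [hp1, hf1, c2, map_mul, Complex.conj_ofReal]
        ring
    have e1 : g' = f1 := eq_of_pair tg t1 fun ψ hψ => (key ψ hψ).2
    have e2 : f' = fun x => - f2 x := eq_of_pair tf (test_neg t2) fun ψ hψ => (key ψ hψ).1
    intro x n hn
    obtain ⟨b1, b2⟩ := hb x n hn
    have hle : C1 / (1 + |t|) ^ (3 / 2 : ℝ) ≤ (C1 + hs 0 φ + hs 1 φ) / (1 + |t|) ^ (3 / 2 : ℝ) := by
      apply div_le_div_of_nonneg_right _ (by positivity)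
      linarith
    constructor
    · rw [← e1]
      exact b2.trans hle
    · have e3 : f2 = - f' := by
        rw [e2]
        funext x
        simp
      rw [e3, iteratedFDeriv_neg, Pi.neg_apply, norm_neg]
      exact b1.trans hle
  · -- L² bounds
    have m1 : hs 1 f1 ≤ hs 1 φ := by
      refine integral_mono_of_nonneg (Eventually.of_forall fun ξ => by positivity)
        ((hIso 0 φ φ (by norm_num) (by norm_num) (sch hφ) (sch hφ)).2.2.2.2.2.2.2.2.2 1 (by norm_num))
        (Eventually.of_forall fun ξ => ?_)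
      simp only
      rw [hf1, norm_mul, Complex.norm_real, Real.norm_eq_abs, mul_pow, sq_abs]
      have := Real.cos_sq_le_one (2 * Real.pi * t * ‖ξ‖)
      have h0 : (0 : ℝ) ≤ ‖ft φ ξ‖ ^ 2 := by positivity
      gcongr
      nlinarith
    have m2 : hs 1 f2 ≤ hs 0 φ := by
      refine integral_mono_of_nonneg (Eventually.of_forall fun ξ => by positivity)
        ((hIso 0 φ φ (by norm_num) (by norm_num) (sch hφ) (sch hφ)).2.2.2.2.2.2.2.2.2 0 (by norm_num))
        (Eventually.of_forall fun ξ => ?_)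
      simp only
      have h1 := congrArg (fun z : ℂ => ‖z‖) (hf2 ξ)
      simp only [norm_mul, norm_neg, Complex.norm_real, Real.norm_eq_abs] at h1
      have h2 : (2 * Real.pi * ‖ξ‖) ^ (2 * (1 : ℝ)) * ‖ft f2 ξ‖ ^ 2 =
          (|Real.sin (2 * Real.pi * t * ‖ξ‖)| * ‖ft φ ξ‖) ^ 2 := by
        rw [← h1, mul_one, Real.rpow_two, abs_norm, abs_of_pos Real.pi_pos, abs_of_pos (by norm_num : (0:ℝ) < 2)]
        ring
      rw [h2, mul_pow, sq_abs, mul_zero, Real.rpow_zero, one_mul]
      have := Real.sin_sq_le_one (2 * Real.pi * t * ‖ξ‖)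
      have h0 : (0 : ℝ) ≤ ‖ft φ ξ‖ ^ 2 := by positivity
      nlinarith
    intro i
    have s1 : ∫ x, pd i f1 x ^ 2 ≤ hs 1 f1 := by
      rw [hHs.2.1 f1 (sch t1)]
      exact Finset.single_le_sum (f := fun i => ∫ x, pd i f1 x ^ 2)
        (fun j _ => integral_nonneg fun x => sq_nonneg _) (Finset.mem_univ i)
    have s2 : ∫ x, pd i f2 x ^ 2 ≤ hs 1 f2 := by
      rw [hHs.2.1 f2 (sch t2)]
      exact Finset.single_le_sum (f := fun i => ∫ x, pd i f2 x ^ 2)
        (fun j _ => integral_nonneg fun x => sq_nonneg _) (Finset.mem_univ i)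
    constructor <;> linarith

end Pool.Agent.QWF
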