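import Pool.Agent.QWF.StG
import Pool.Agent.QWF.Loc

/-!
# QWF, Dec: decoupling of a fixed solution and a weakly vanishing sequence of solutions (port of QWE.Dec)
-/

set_option autoImplicit false

open MeasureTheory Filter Topology Set
open scoped ENNReal NNReal RealInnerProductSpace

namespace Pool.Agent.QWF


namespace Decx

theorem pow_rb {b : ℝ} (hb : 4 < b) (x : ℝ≥0∞) : (x ^ (1 / b)) ^ b = x := by
  rw [← ENNReal.rpow_mul, one_div, inv_mul_cancel₀ (by linarith), ENNReal.rpow_one]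

theorem pow_rb' {b : ℝ} (hb : 4 < b) (x : ℝ≥0∞) : (x ^ b) ^ (1 / b) = x := by
  rw [← ENNReal.rpow_mul, one_div, mul_inv_cancel₀ (by linarith), ENNReal.rpow_one]

theorem SN_congr {b : ℝ} {J : Set ℝ} (hJ : MeasurableSet J) {k k' : ℝ → K} (h : ∀ t ∈ J, k t = k' t) :
    SN b J k = SN b J k' := by
  unfold SN
  exact setLIntegral_congr_fun hJ fun t ht => by simp only [h t ht]

/-- integrability of the nonlinearity along a curve -/
theorem nl_int (hMe : St_Meas) (hNL : St_NLb) {b : ℝ} (hb : 4 < b) {T : ℝ} {k : ℝ → K}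
    (hk : ContinuousOn k (Icc 0 T)) (hS : SN b (Icc 0 T) k < ⊤) {B : ℝ} (hB : 0 ≤ B)
    (hn : ∀ t ∈ Icc 0 T, ‖k t‖ ≤ B) :
    IntegrableOn (fun r => NL b (k r)) (Icc 0 T) volume := by
  obtain ⟨⟨C, hC, hC1, -⟩, -⟩ := hNL b hb
  refine (Locx.est1 hb hC hC1 hMe hk (σ := (SN b (Icc 0 T) k ^ (1 / b)).toReal)
    ENNReal.toReal_nonneg hB ?_ hn).1
  have hb1 : 0 ≤ 1 / b := by
    have h0 : 0 < b := by linarith
    positivity
  rw [ENNReal.ofReal_toReal (ENNReal.rpow_ne_top_of_nonneg hb1 hS.ne), pow_rb hb]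

/-- the orbit of a solution with finite Strichartz norm is compact in the interaction picture -/
theorem compact_orbit (hG : St_Grp1) (hMx : St_MaxE) (hB : St_Blow) {b : ℝ} (hb : 4 < b)
    {J : Set ℝ} {a : ℝ → K} (ha : ASol b J a) : ∃ C1 : Set K, IsCompact C1 ∧ ∀ t ∈ J, tau (-t) (a t) ∈ C1 := by
  obtain ⟨hJ, hsol, hS⟩ := ha
  have hc : ContinuousOn (fun t => tau (-t) (a t)) J := by
    have h1 : ContinuousOn (fun t : ℝ => ((-t, a t) : ℝ × K)) J :=
      continuousOn_id.neg.prodMk hsol.2.1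
    exact (Locx.tau_cont hG).comp_continuousOn h1
  rcases hJ with rfl | ⟨Ts, hTs, rfl⟩
  · obtain ⟨I, k, hmax, h0I, hk0, huni⟩ := hMx b hb (a 0) 0
    obtain ⟨hsub, heq⟩ := huni (Ici 0) a hsol (mem_Ici.2 le_rfl) rfl
    have hSN : SN b (I ∩ Ici 0) k < ⊤ := by
      rw [inter_eq_right.2 hsub, ← SN_congr measurableSet_Ici heq]
      exact hS
    obtain ⟨kp, hkp⟩ := ((hB b hb I k 0 hmax h0I).1 hSN).2.2
    have hkp2 : Tendsto (fun t => tau (-t) (a t)) atTop (𝓝 kp) := by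
      refine hkp.congr' ?_
      filter_upwards [eventually_ge_atTop 0] with t ht
      rw [heq t ht]
    have hf : Continuous (fun t : ℝ => tau (-|t|) (a |t|)) :=
      hc.comp_continuous continuous_abs fun t => abs_nonneg t
    have hf2 : Tendsto (fun t : ℝ => tau (-|t|) (a |t|)) (cocompact ℝ) (𝓝 kp) :=
      hkp2.comp tendsto_norm_cocompact_atTop
    refine ⟨_, hf2.isCompact_insert_range_of_cocompact hf, fun t ht => Or.inr ⟨t, ?_⟩⟩
    have ht0 : (0 : ℝ) ≤ t := ht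
    simp only [abs_of_nonneg ht0]
  · exact ⟨_, isCompact_Icc.image_of_continuousOn hc, fun t ht => mem_image_of_mem _ ht⟩

end Decx

open Decx in
theorem thm_Dec (h11 : St_G11) (h8 : St_G8) (hP : St_Pert) (hU : St_Uniq) (hGr : St_Gron)
    (hT : St_SNt) (hMe : St_Meas) (hNL : St_NLb) (hB : St_Blow) (hMx : St_MaxE)
    (hG1 : St_Grp1) : St_Dec := by
  intro b hb A M J a T t β k hJa hβ hTJ ht hk hk0
  have hb0 : 0 < b := by linarith
  have hb1 : 0 ≤ 1 / b := by positivity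
  have hJa' := hJa
  obtain ⟨hJ, hsol, hSJ⟩ := hJa
  have hβ1 := hβ.1
  have h0J : (0 : ℝ) ∈ J := by
    rcases hJ with rfl | ⟨Ts, hTs, rfl⟩
    · exact mem_Ici.2 le_rfl
    · exact ⟨le_rfl, hTs⟩
  have hsub : ∀ n, Icc 0 (T n) ⊆ J := fun n => hsol.1.out h0J (hTJ n)
  obtain ⟨Cg, -, hg⟩ := hGr b hb
  obtain ⟨A', hA'⟩ : ∃ A', A' = ‖a 0‖ * Real.exp (Cg * (SN b J a).toReal) := ⟨_, rfl⟩
  have hA'b : ∀ t ∈ J, ‖a t‖ ≤ A' := fun t ht => hA' ▸ hg J a hsol hSJ 0 h0J t ht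
  have hA'0 : 0 ≤ A' := by rw [hA']; positivity
  have hA0 : 0 ≤ A := (norm_nonneg _).trans ((hβ1 0).2.2.1 0 ⟨le_rfl, (hβ1 0).1⟩)
  obtain ⟨e, he⟩ : ∃ e : ℕ → ℝ → K, e = fun n r => NL b (a r + β n r) - NL b (a r) - NL b (β n r) :=
    ⟨_, rfl⟩
  obtain ⟨ε, hε⟩ : ∃ ε : ℕ → ℝ, ε = fun n => (∫⁻ r in Icc 0 (T n), ‖e n r‖ₑ).toReal := ⟨_, rfl⟩
  have hε0 : Tendsto ε atTop (𝓝 0) := by
    have h1 := h11 b hb A M J a T β hJa' hβ hTJ
    have h2 := (ENNReal.tendsto_toReal ENNReal.zero_ne_top).comp h1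
    rw [ENNReal.toReal_zero] at h2
    rw [hε, he]
    exact h2
  have hεn : ∀ n, 0 ≤ ε n := fun n => by rw [hε]; exact ENNReal.toReal_nonneg
  -- measurability and bounds for the sum
  have hac : ∀ n, ContinuousOn a (Icc 0 (T n)) := fun n => hsol.2.1.mono (hsub n)
  have hbc : ∀ n, ContinuousOn (β n) (Icc 0 (T n)) := fun n => (hβ1 n).2.1.2.1
  have hsc : ∀ n, ContinuousOn (fun s => a s + β n s) (Icc 0 (T n)) := fun n =>
    (hac n).add (hbc n)
  have hSa : ∀ n, SN b (Icc 0 (T n)) a ≤ SN b J a := fun n => lintegral_mono_set (hsub n)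
  have hSb : ∀ n, SN b (Icc 0 (T n)) (β n) ≤ ENNReal.ofReal M := fun n => (hβ1 n).2.2.2
  obtain ⟨Q, hQ⟩ : ∃ Q : ℝ≥0∞, Q = (SN b J a ^ (1 / b) + ENNReal.ofReal M ^ (1 / b)) ^ b :=
    ⟨_, rfl⟩
  have hQT : Q ≠ ⊤ := by
    rw [hQ]
    refine ENNReal.rpow_ne_top_of_nonneg hb0.le (ENNReal.add_ne_top.2 ⟨?_, ?_⟩)
    · exact ENNReal.rpow_ne_top_of_nonneg hb1 hSJ.ne
    · exact ENNReal.rpow_ne_top_of_nonneg hb1 ENNReal.ofReal_ne_top
  have hSs : ∀ n, SN b (Icc 0 (T n)) (fun s => a s + β n s) ≤ Q := by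
    intro n
    have h1 := (hT b hb a (β n) (Icc 0 (T n)) measurableSet_Icc
      ((hac n).aestronglyMeasurable measurableSet_Icc)
      ((hbc n).aestronglyMeasurable measurableSet_Icc)).1
    rw [hQ, ← pow_rb hb (SN b (Icc 0 (T n)) (fun s => a s + β n s))]
    refine ENNReal.rpow_le_rpow (h1.trans (add_le_add ?_ ?_)) hb0.le
    · exact ENNReal.rpow_le_rpow (hSa n) hb1
    · exact ENNReal.rpow_le_rpow (hSb n) hb1
  obtain ⟨A1, hA1⟩ : ∃ A1, A1 = A' + A + 1 := ⟨_, rfl⟩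
  have hA10 : 0 < A1 := by rw [hA1]; positivity
  obtain ⟨M1, hM1⟩ : ∃ M1, M1 = Q.toReal + 1 := ⟨_, rfl⟩
  have hM10 : 0 < M1 := by rw [hM1]; positivity
  have hQM1 : Q ≤ ENNReal.ofReal M1 := by
    rw [← ENNReal.ofReal_toReal hQT, hM1]
    exact ENNReal.ofReal_le_ofReal (by linarith)
  have hsn : ∀ n, ∀ s ∈ Icc 0 (T n), ‖a s + β n s‖ ≤ A1 := by
    intro n s hs
    refine (norm_add_le _ _).trans ?_
    have h1 := hA'b s (hsub n hs)
    have h2 := (hβ1 n).2.2.1 s hs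
    rw [hA1]
    linarith
  obtain ⟨e1, C, he1, hC, hpert⟩ := hP b hb A1 M1 hA10 hM10
  -- comparison with the sum
  have main : ∀ n, ε n ≤ e1 → (∀ s ∈ Icc 0 (T n), ‖k n s - (a s + β n s)‖ ≤ C * ε n) ∧
      SN b (Icc 0 (T n)) (fun s => k n s - (a s + β n s)) ≤ ENNReal.ofReal (C * ε n) ^ b := by
    intro n hn
    have hTn : 0 ≤ T n := (hβ1 n).1
    have i1 : IntegrableOn (fun r => NL b (a r)) (Icc 0 (T n)) volume :=
      nl_int hMe hNL hb (hac n) ((hSa n).trans_lt hSJ) hA'0 fun s hs => hA'b s (hsub n hs)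
    have i2 : IntegrableOn (fun r => NL b (β n r)) (Icc 0 (T n)) volume :=
      nl_int hMe hNL hb (hbc n) ((hSb n).trans_lt ENNReal.ofReal_lt_top) hA0 (hβ1 n).2.2.1
    have i3 : IntegrableOn (fun r => NL b (a r + β n r)) (Icc 0 (T n)) volume :=
      nl_int hMe hNL hb (hsc n) ((hSs n).trans_lt hQT.lt_top) hA10.le (hsn n)
    have i4 : IntegrableOn (e n) (Icc 0 (T n)) volume := by
      rw [he]
      exact (i3.sub i1).sub i2
    have i5 : ∫ r in Icc 0 (T n), ‖e n r‖ ≤ ε n := by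
      rw [integral_norm_eq_lintegral_enorm i4.1, hε]
    have i6 : ∀ s ∈ Icc 0 (T n), a s + β n s = tau s (a 0 + β n 0) -
        ∫ r in (0 : ℝ)..s, tau (s - r) (NL b (a r + β n r) - e n r) := by
      intro s hs
      have h1 := hsol.2.2.2 0 h0J s (hsub n hs)
      have h2 := (hβ1 n).2.1.2.2.2 0 ⟨le_rfl, hTn⟩ s hs
      rw [sub_zero] at h1 h2
      have h3 : ∀ r, tau (s - r) (NL b (a r + β n r) - e n r) =
          tau (s - r) (NL b (a r)) + tau (s - r) (NL b (β n r)) := by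
        intro r
        rw [← map_add]
        congr 1
        simp only [he]
        abel
      simp only [h3]
      rw [intervalIntegral.integral_add (Locx.ii_tau hG1 i1 s ⟨le_rfl, hTn⟩ hs)
        (Locx.ii_tau hG1 i2 s ⟨le_rfl, hTn⟩ hs), map_add]
      calc a s + β n s = (tau s (a 0) - ∫ r in (0 : ℝ)..s, tau (s - r) (NL b (a r))) +
            (tau s (β n 0) - ∫ r in (0 : ℝ)..s, tau (s - r) (NL b (β n r))) := by
            rw [← h1, ← h2]
        _ = _ := by abel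
    obtain ⟨kn, hkn1, hkn2, hkn3, hkn4⟩ := hpert (T n) (ε n) (fun s => a s + β n s) (e n) (k n 0) hTn
      (hεn n) hn (hsc n) (hsn n) ((hSs n).trans hQM1) i4 i5 i6 (by
        rw [hk0 n, sub_self, norm_zero]
        exact hεn n)
    have heq : ∀ s ∈ Icc 0 (T n), k n s = kn s := fun s hs =>
      hU b hb _ _ (k n) kn 0 (hk n) hkn1 ⟨le_rfl, hTn⟩ ⟨le_rfl, hTn⟩ hkn2.symm s hs hs
    refine ⟨fun s hs => ?_, ?_⟩
    · rw [heq s hs]
      exact hkn3 s hs
    · refine le_trans (le_of_eq (SN_congr measurableSet_Icc fun s hs => ?_)) hkn4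
      rw [heq s hs]
  have hev : ∀ᶠ n in atTop, ε n ≤ e1 := (hε0.eventually_lt_const he1).mono fun n hn => hn.le
  refine ⟨?_, ?_, ?_⟩
  · have h1 : Tendsto (fun n => C * ε n) atTop (𝓝 0) := by
      have h2 := hε0.const_mul C
      rwa [mul_zero] at h2
    refine squeeze_zero_norm' ?_ h1
    filter_upwards [hev] with n hn
    have h2 := (main n hn).1 (t n) (ht n)
    rwa [← sub_sub] at h2
  · obtain ⟨C1, hC1, hC1m⟩ := compact_orbit hG1 hMx hB hb hJa'
    have h1 := h8 b hb A M T t β C1 (fun n => tau (-(t n)) (a (t n))) hβ ht hC1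
      fun n => hC1m (t n) (hsub n (ht n))
    refine h1.congr fun n => ?_
    rw [LinearIsometry.inner_map_map, real_inner_comm]
  · refine ⟨((Q ^ (1 / b) + ENNReal.ofReal (C * e1)) ^ b).toReal, ?_⟩
    filter_upwards [hev] with n hn
    have hfin : (Q ^ (1 / b) + ENNReal.ofReal (C * e1)) ^ b ≠ ⊤ :=
      ENNReal.rpow_ne_top_of_nonneg hb0.le (ENNReal.add_ne_top.2
        ⟨ENNReal.rpow_ne_top_of_nonneg hb1 hQT, ENNReal.ofReal_ne_top⟩)
    rw [ENNReal.ofReal_toReal hfin]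
    have hkc : ContinuousOn (k n) (Icc 0 (T n)) := (hk n).2.1
    have h1 := (hT b hb (fun s => a s + β n s) (fun s => k n s - (a s + β n s)) (Icc 0 (T n))
      measurableSet_Icc ((hsc n).aestronglyMeasurable measurableSet_Icc)
      ((hkc.sub (hsc n)).aestronglyMeasurable measurableSet_Icc)).1
    have h2 : SN b (Icc 0 (T n)) (fun s => a s + β n s + (k n s - (a s + β n s))) =
        SN b (Icc 0 (T n)) (k n) := SN_congr measurableSet_Icc fun s _ => by abel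
    rw [h2] at h1
    rw [← pow_rb hb (SN b (Icc 0 (T n)) (k n))]
    refine ENNReal.rpow_le_rpow (h1.trans (add_le_add ?_ ?_)) hb0.le
    · exact ENNReal.rpow_le_rpow (hSs n) hb1
    · refine (ENNReal.rpow_le_rpow (main n hn).2 hb1).trans ?_
      rw [pow_rb' hb]
      exact ENNReal.ofReal_le_ofReal (mul_le_mul_of_nonneg_left hn hC.le)

end Pool.Agent.QWF
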