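import Pool.Agent.QWF.StA

set_option autoImplicit false

/-!
# QWF, DecayP: decay of test states with derivatives up to order 3
-/

open MeasureTheory Filter Topology Set
open scoped ENNReal NNReal RealInnerProductSpace ContDiff FourierTransform

namespace Pool.Agent.QWF

namespace DecayPx

/-! ### Fourier transform of test functions -/

lemma ft_eq (φ : E → ℝ) (ξ : E) : ft φ ξ = 𝓕 (fun x => (φ x : ℂ)) ξ := by
  rw [Real.fourier_eq', ft]
  refine integral_congr_ae (Eventually.of_forall fun x => ?_)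
  simp only [smul_eq_mul]
  rw [mul_comm]
  congr 2
  push_cast
  ring

lemma test_int {φ : E → ℝ} (h : IsTest φ) : Integrable (fun x => (φ x : ℂ)) volume :=
  (h.1.continuous.integrable_of_hasCompactSupport h.2).ofReal

lemma exp_norm (a : ℝ) : ‖Complex.exp (2 * Real.pi * Complex.I * (a : ℂ))‖ = 1 := by
  rw [show (2 * Real.pi * Complex.I * (a : ℂ)) = ((2 * Real.pi * a : ℝ) : ℂ) * Complex.I by
    push_cast; ring, Complex.norm_exp_ofReal_mul_I]

lemma exp_norm' (a : ℝ) : ‖Complex.exp (-2 * Real.pi * Complex.I * (a : ℂ))‖ = 1 := by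
  rw [show (-2 * Real.pi * Complex.I * (a : ℂ)) = ((-2 * Real.pi * a : ℝ) : ℂ) * Complex.I by
    push_cast; ring, Complex.norm_exp_ofReal_mul_I]

lemma ft_int {φ : E → ℝ} (h : IsTest φ) (ξ : E) : Integrable (fun x => (φ x : ℂ) *
    Complex.exp (-2 * Real.pi * Complex.I * ((inner ℝ x ξ : ℝ) : ℂ))) volume :=
  (test_int h).mul_bdd (c := 1) (by fun_prop) (Eventually.of_forall fun x => (exp_norm' _).le)

lemma ft_integrable (hFt : St_Ft) {φ : E → ℝ} (h : IsTest φ) : Integrable (ft φ) volume := by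
  obtain ⟨hc, hd, -⟩ := hFt.2 φ (hFt.1 φ h)
  obtain ⟨C, hC⟩ := hd 5
  have h1 : Integrable (fun ξ : E => C * (1 + ‖ξ‖) ^ (-(5 : ℝ))) volume :=
    (integrable_one_add_norm (by norm_num)).const_mul C
  refine h1.mono' hc.aestronglyMeasurable (Eventually.of_forall fun ξ => (hC ξ).trans_eq ?_)
  have h2 : 0 < 1 + ‖ξ‖ := by positivity
  rw [Real.rpow_neg h2.le, div_eq_mul_inv]
  norm_num

lemma inv (hFt : St_Ft) {φ : E → ℝ} (h : IsTest φ) (x : E) :
    (φ x : ℂ) = ∫ ξ, ft φ ξ *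
      Complex.exp (2 * Real.pi * Complex.I * ((inner ℝ x ξ : ℝ) : ℂ)) := by
  have h1 : 𝓕 (fun x => (φ x : ℂ)) = ft φ := funext fun ξ => (ft_eq φ ξ).symm
  have hc : Continuous fun x => (φ x : ℂ) := Complex.continuous_ofReal.comp h.1.continuous
  have h2 := hc.fourierInv_fourier_eq (test_int h) (by rw [h1]; exact ft_integrable hFt h)
  have h3 := congrFun h2 x
  rw [h1, Real.fourierInv_eq'] at h3
  rw [← h3]
  refine integral_congr_ae (Eventually.of_forall fun ξ => ?_)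
  simp only [smul_eq_mul]
  rw [mul_comm, real_inner_comm]
  congr 2
  push_cast
  ring

lemma ft_inj (hFt : St_Ft) {φ ψ : E → ℝ} (h : IsTest φ) (h' : IsTest ψ)
    (he : ∀ ξ, ξ ≠ 0 → ft φ ξ = ft ψ ξ) : φ = ψ := by
  funext x
  have h1 : (φ x : ℂ) = ψ x := by
    rw [inv hFt h x, inv hFt h' x]
    refine integral_congr_ae ?_
    have h2 : ∀ᵐ ξ : E, ξ ≠ 0 := by
      rw [ae_iff]
      simp
    filter_upwards [h2] with ξ hξ
    rw [he ξ hξ]
  exact_mod_cast h1

/-! ### Nice functions of one variable -/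

/-- twice differentiable with decay -/
structure NC (N : ℕ) (D : ℝ) (f f1 f2 : ℝ → ℂ) : Prop where
  d1 : ∀ r, HasDerivAt f (f1 r) r
  d2 : ∀ r, HasDerivAt f1 (f2 r) r
  c : Continuous f2
  b : ∀ r, ‖f r‖ ≤ D / (1 + |r|) ^ N ∧ ‖f1 r‖ ≤ D / (1 + |r|) ^ N ∧ ‖f2 r‖ ≤ D / (1 + |r|) ^ N

lemma NC.mul_r {N : ℕ} {D : ℝ} {f f1 f2 : ℝ → ℂ} (h : NC (N + 1) D f f1 f2) :
    NC N (3 * D) (fun r => (r : ℂ) * f r) (fun r => f r + (r : ℂ) * f1 r)
      (fun r => 2 * f1 r + (r : ℂ) * f2 r) := by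
  have hr : ∀ r : ℝ, HasDerivAt (fun r : ℝ => (r : ℂ)) 1 r := fun r =>
    Complex.ofRealCLM.hasDerivAt
  have hc : Continuous f1 := continuous_iff_continuousAt.2 fun r => (h.d2 r).continuousAt
  refine ⟨fun r => ?_, fun r => ?_, by
    have := h.c
    fun_prop, fun r => ?_⟩
  · have h1 := (hr r).mul (h.d1 r)
    rw [one_mul] at h1
    exact h1
  · have h1 := (h.d1 r).add ((hr r).mul (h.d2 r))
    have h2 : f1 r + (1 * f1 r + (r : ℂ) * f2 r) = 2 * f1 r + (r : ℂ) * f2 r := by ring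
    rw [h2] at h1
    exact h1
  · obtain ⟨b0, b1, b2⟩ := h.b r
    have hp : 0 < 1 + |r| := by positivity
    have hD : 0 ≤ D / (1 + |r|) ^ (N + 1) := (norm_nonneg _).trans b0
    have key : (1 + |r|) * (D / (1 + |r|) ^ (N + 1)) = D / (1 + |r|) ^ N := by
      rw [pow_succ]
      field_simp
    have h3 : D / (1 + |r|) ^ (N + 1) ≤ D / (1 + |r|) ^ N := by
      rw [← key]
      have := abs_nonneg r
      nlinarith
    have hm : ∀ z : ℂ, ‖z‖ ≤ D / (1 + |r|) ^ (N + 1) → ‖(r : ℂ) * z‖ ≤ D / (1 + |r|) ^ N := by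
      intro z hz
      rw [norm_mul, Complex.norm_real, Real.norm_eq_abs, ← key]
      have := abs_nonneg r
      gcongr
      linarith
    have h4 : 3 * D / (1 + |r|) ^ N = 3 * (D / (1 + |r|) ^ N) := by ring
    have h5 : 0 ≤ D / (1 + |r|) ^ N := hD.trans h3
    rw [h4]
    refine ⟨(hm _ b0).trans (by linarith), ?_, ?_⟩
    · refine (norm_add_le _ _).trans ?_
      have := hm _ b1
      linarith
    · refine (norm_add_le _ _).trans ?_
      have := hm _ b2
      rw [norm_mul, Complex.norm_ofNat]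
      linarith

lemma NC.cmul {N : ℕ} {D : ℝ} {f f1 f2 : ℝ → ℂ} (h : NC N D f f1 f2) (k : ℂ) :
    NC N (‖k‖ * D) (fun r => k * f r) (fun r => k * f1 r) (fun r => k * f2 r) := by
  refine ⟨fun r => (h.d1 r).const_mul k, fun r => (h.d2 r).const_mul k, by
    have := h.c
    fun_prop, fun r => ?_⟩
  obtain ⟨b0, b1, b2⟩ := h.b r
  have h4 : ‖k‖ * D / (1 + |r|) ^ N = ‖k‖ * (D / (1 + |r|) ^ N) := by ring
  rw [h4, norm_mul, norm_mul, norm_mul]
  have := norm_nonneg k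
  exact ⟨by gcongr, by gcongr, by gcongr⟩

lemma NC.add {N : ℕ} {D D' : ℝ} {f f1 f2 g g1 g2 : ℝ → ℂ} (h : NC N D f f1 f2)
    (h' : NC N D' g g1 g2) :
    NC N (D + D') (fun r => f r + g r) (fun r => f1 r + g1 r) (fun r => f2 r + g2 r) := by
  refine ⟨fun r => (h.d1 r).add (h'.d1 r), fun r => (h.d2 r).add (h'.d2 r), h.c.add h'.c,
    fun r => ?_⟩
  obtain ⟨b0, b1, b2⟩ := h.b r
  obtain ⟨c0, c1, c2⟩ := h'.b r
  rw [add_div]
  exact ⟨(norm_add_le _ _).trans (by linarith), (norm_add_le _ _).trans (by linarith),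
    (norm_add_le _ _).trans (by linarith)⟩

lemma NC.neg {N : ℕ} {D : ℝ} {f f1 f2 : ℝ → ℂ} (h : NC N D f f1 f2) :
    NC N D (fun r => f (-r)) (fun r => -f1 (-r)) (fun r => f2 (-r)) := by
  refine ⟨fun r => ?_, fun r => ?_, h.c.comp continuous_neg, fun r => ?_⟩
  · have h1 := (h.d1 (-r)).scomp r (hasDerivAt_neg r)
    rw [neg_smul, one_smul] at h1
    exact h1
  · have h1 := ((h.d2 (-r)).scomp r (hasDerivAt_neg r)).neg
    rw [neg_smul, one_smul, neg_neg] at h1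
    exact h1
  · have := h.b (-r)
    rw [abs_neg] at this
    rw [norm_neg]
    exact this

lemma NC.mono {N M : ℕ} {D : ℝ} {f f1 f2 : ℝ → ℂ} (h : NC N D f f1 f2) (hM : M ≤ N) :
    NC M D f f1 f2 := by
  refine ⟨h.d1, h.d2, h.c, fun r => ?_⟩
  obtain ⟨b0, b1, b2⟩ := h.b r
  have hp : 1 ≤ 1 + |r| := by linarith [abs_nonneg r]
  have hD : 0 ≤ D := by
    have := (norm_nonneg _).trans b0
    by_contra hc
    exact absurd this (not_le.2 (div_neg_of_neg_of_pos (not_le.1 hc) (by positivity)))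
  have : D / (1 + |r|) ^ N ≤ D / (1 + |r|) ^ M := by
    gcongr
  exact ⟨b0.trans this, b1.trans this, b2.trans this⟩

lemma sq_le (r : ℝ) : 1 + r ^ 2 ≤ (1 + |r|) ^ 2 := by
  have := abs_nonneg r
  nlinarith [sq_abs r]

lemma int_b (D : ℝ) : IntegrableOn (fun r : ℝ => D * (1 + r ^ 2)⁻¹) (Ioi 0) volume :=
  (integrable_inv_one_add_sq.const_mul D).integrableOn

lemma int_val (D : ℝ) : ∫ r in Ioi (0 : ℝ), D * (1 + r ^ 2)⁻¹ = D * (Real.pi / 2) := by
  rw [integral_const_mul, integral_Ioi_inv_one_add_sq, Real.arctan_zero, sub_zero]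

/-- decay of a Fourier integral over the half line -/
lemma half {D : ℝ} {a a1 a2 : ℝ → ℂ} (h : NC 2 D a a1 a2) (h0 : a 0 = 0) (h0' : a1 0 = 0)
    (p : ℝ) : ‖∫ r in Ioi (0 : ℝ), a r * Complex.exp (2 * Real.pi * Complex.I * ((r * p : ℝ) : ℂ))‖ ≤
      Real.pi * D / (1 + p ^ 2) := by
  have hb : ∀ r, ‖a r‖ ≤ D * (1 + r ^ 2)⁻¹ ∧ ‖a1 r‖ ≤ D * (1 + r ^ 2)⁻¹ ∧
      ‖a2 r‖ ≤ D * (1 + r ^ 2)⁻¹ := by
    intro r
    obtain ⟨b0, b1, b2⟩ := h.b r
    have hD : 0 ≤ D := by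
      have := (norm_nonneg _).trans b0
      by_contra hc
      exact absurd this (not_le.2 (div_neg_of_neg_of_pos (not_le.1 hc) (by positivity)))
    have : D / (1 + |r|) ^ 2 ≤ D * (1 + r ^ 2)⁻¹ := by
      rw [div_eq_mul_inv]
      gcongr
      exact sq_le r
    exact ⟨b0.trans this, b1.trans this, b2.trans this⟩
  have ca : Continuous a := continuous_iff_continuousAt.2 fun r => (h.d1 r).continuousAt
  have ca1 : Continuous a1 := continuous_iff_continuousAt.2 fun r => (h.d2 r).continuousAt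
  obtain ⟨e, he⟩ : ∃ e : ℝ → ℂ, e = fun r =>
    Complex.exp (2 * Real.pi * Complex.I * ((r * p : ℝ) : ℂ)) := ⟨_, rfl⟩
  have hen : ∀ r, ‖e r‖ = 1 := fun r => by rw [he]; exact exp_norm _
  have hec : Continuous e := by rw [he]; fun_prop
  obtain ⟨c, hc⟩ : ∃ c : ℂ, c = 2 * Real.pi * Complex.I * p := ⟨_, rfl⟩
  have hed : ∀ r, HasDerivAt e (c * e r) r := by
    intro r
    have h1 : HasDerivAt (fun r : ℝ => 2 * Real.pi * Complex.I * ((r * p : ℝ) : ℂ)) c r := by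
      have h2 : HasDerivAt (fun r : ℝ => ((r : ℝ) : ℂ)) 1 r := Complex.ofRealCLM.hasDerivAt
      have h3 := h2.const_mul c
      rw [mul_one] at h3
      refine h3.congr_of_eventuallyEq (Eventually.of_forall fun r => ?_)
      simp only [hc]
      push_cast
      ring
    have h2 := h1.cexp
    rw [mul_comm (Complex.exp _) c] at h2
    rw [he]
    exact h2
  have hi : ∀ {g : ℝ → ℂ}, Continuous g → (∀ r, ‖g r‖ ≤ D * (1 + r ^ 2)⁻¹) →
      IntegrableOn (fun r => g r * e r) (Ioi 0) volume := by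
    intro g hg hgb
    refine (int_b D).mono' (hg.mul hec).aestronglyMeasurable (Eventually.of_forall fun r => ?_)
    rw [norm_mul, hen, mul_one]
    exact hgb r
  have hn : ∀ {g : ℝ → ℂ}, Continuous g → (∀ r, ‖g r‖ ≤ D * (1 + r ^ 2)⁻¹) →
      ‖∫ r in Ioi (0 : ℝ), g r * e r‖ ≤ D * (Real.pi / 2) := by
    intro g hg hgb
    rw [← int_val]
    refine norm_integral_le_of_norm_le (int_b D) (Eventually.of_forall fun r => ?_)
    rw [norm_mul, hen, mul_one]
    exact hgb r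
  have key : ∫ r in Ioi (0 : ℝ), (a2 r * e r - c ^ 2 * (a r * e r)) = 0 := by
    have h1 := integral_Ioi_of_hasDerivAt_of_tendsto' (a := (0 : ℝ)) (m := (0 : ℂ))
      (f := fun r => (a1 r - c * a r) * e r)
      (f' := fun r => a2 r * e r - c ^ 2 * (a r * e r)) (fun r _ => ?_) ?_ ?_
    · rw [h1, h0, h0']
      ring
    · have h2 := ((h.d2 r).sub ((h.d1 r).const_mul c)).mul (hed r)
      refine h2.congr_deriv ?_
      simp only [Pi.sub_apply]
      ring
    · exact (hi h.c fun r => (hb r).2.2).sub ((hi ca fun r => (hb r).1).const_mul _)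
    · have hz : Tendsto (fun r : ℝ => (1 + ‖c‖) * (D * (1 + r ^ 2)⁻¹)) atTop (𝓝 0) := by
        have h4 : Tendsto (fun r : ℝ => 1 + r ^ 2) atTop atTop :=
          tendsto_atTop_add_const_left _ _ (tendsto_pow_atTop (by norm_num))
        have h5 := (h4.inv_tendsto_atTop.const_mul D).const_mul (1 + ‖c‖)
        rw [mul_zero, mul_zero] at h5
        exact h5
      refine squeeze_zero_norm (fun r => ?_) hz
      rw [norm_mul, hen, mul_one]
      refine (norm_sub_le _ _).trans ?_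
      rw [norm_mul]
      have := mul_le_mul_of_nonneg_left (hb r).1 (norm_nonneg c)
      linarith [(hb r).2.1]
  rw [integral_sub (hi h.c fun r => (hb r).2.2) ((hi ca fun r => (hb r).1).const_mul _),
    integral_const_mul, sub_eq_zero] at key
  have h1 := hn ca fun r => (hb r).1
  have h2 := hn h.c fun r => (hb r).2.2
  rw [key, norm_mul, norm_pow] at h2
  have h3 : ‖c‖ ^ 2 = 4 * Real.pi ^ 2 * p ^ 2 := by
    rw [hc]
    simp only [norm_mul, Complex.norm_I, Complex.norm_real, Complex.norm_ofNat, mul_one,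
      Real.norm_eq_abs]
    rw [mul_pow, mul_pow, sq_abs, sq_abs]
    ring
  rw [h3] at h2
  have h4 : (∫ r in Ioi (0 : ℝ), a r * Complex.exp (2 * Real.pi * Complex.I * ((r * p : ℝ) : ℂ))) =
      ∫ r in Ioi (0 : ℝ), a r * e r := by rw [he]
  rw [h4, le_div_iff₀ (by positivity)]
  have h5 := norm_nonneg (∫ r in Ioi (0 : ℝ), a r * e r)
  have h6 : p ^ 2 * ‖∫ r in Ioi (0 : ℝ), a r * e r‖ ≤
      4 * Real.pi ^ 2 * p ^ 2 * ‖∫ r in Ioi (0 : ℝ), a r * e r‖ := by
    have h7 : 1 ≤ 4 * Real.pi ^ 2 := by nlinarith [Real.pi_gt_three]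
    have h8 : 0 ≤ p ^ 2 * ‖∫ r in Ioi (0 : ℝ), a r * e r‖ := by positivity
    nlinarith
  linarith

/-! ### The transform along rays -/

lemma test_in {φ : E → ℝ} (h : IsTest φ) (w : E) : IsTest fun x => inner ℝ x w * φ x :=
  ⟨(contDiff_id.inner ℝ contDiff_const).mul h.1, h.2.mul_left⟩

lemma test_co {φ : E → ℝ} (h : IsTest φ) (i : Fin 4) : IsTest fun x => x i * φ x :=
  ⟨ContDiff.mul (by fun_prop) h.1, h.2.mul_left⟩

lemma ft_in {φ : E → ℝ} (h : IsTest φ) (w ξ : E) : ft (fun x => inner ℝ x w * φ x) ξ =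
    ∑ i, (w i : ℂ) * ft (fun x => x i * φ x) ξ := by
  unfold ft
  simp only [← integral_const_mul]
  rw [← integral_finsetSum _ (fun i _ => (ft_int (test_co h i) ξ).const_mul _)]
  refine integral_congr_ae (Eventually.of_forall fun x => ?_)
  simp only
  have h1 : (inner ℝ x w : ℝ) = ∑ i, w i * x i := by
    rw [PiLp.inner_apply]
    refine Finset.sum_congr rfl fun i _ => ?_
    simp
  rw [h1]
  push_cast
  rw [Finset.sum_mul, Finset.sum_mul]
  refine Finset.sum_congr rfl fun i _ => ?_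
  ring

lemma ft_in_bd {φ : E → ℝ} (h : IsTest φ) {w : E} (hw : ‖w‖ = 1) (ξ : E) :
    ‖ft (fun x => inner ℝ x w * φ x) ξ‖ ≤ ∑ i, ‖ft (fun x => x i * φ x) ξ‖ := by
  rw [ft_in h]
  refine (norm_sum_le _ _).trans (Finset.sum_le_sum fun i _ => ?_)
  rw [norm_mul, Complex.norm_real]
  have h1 : ‖w i‖ ≤ 1 := by
    rw [← hw]
    exact PiLp.norm_apply_le w i
  have := norm_nonneg (ft (fun x => x i * φ x) ξ)
  nlinarith

lemma kn (z : ℂ) : ‖-2 * Real.pi * Complex.I * z‖ = 2 * Real.pi * ‖z‖ := by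
  rw [norm_mul]
  congr 1
  simp only [norm_mul, norm_neg, Complex.norm_I, Complex.norm_real, Complex.norm_ofNat, mul_one]
  rw [Real.norm_of_nonneg Real.pi_pos.le]

lemma ft_der {φ : E → ℝ} (h : IsTest φ) (w : E) (r : ℝ) :
    HasDerivAt (fun r : ℝ => ft φ (r • w))
      (-2 * Real.pi * Complex.I * ft (fun x => inner ℝ x w * φ x) (r • w)) r := by
  have hφ := h.1.continuous
  have h1 := hasDerivAt_integral_of_dominated_loc_of_deriv_le (μ := (volume : Measure E))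
    (s := (univ : Set ℝ)) (x₀ := r) (bound := fun x => 2 * Real.pi * ‖((inner ℝ x w * φ x : ℝ) : ℂ)‖)
    (F := fun (r : ℝ) (x : E) => (φ x : ℂ) *
      Complex.exp (-2 * Real.pi * Complex.I * ((inner ℝ x (r • w) : ℝ) : ℂ)))
    (F' := fun (r : ℝ) (x : E) => -2 * Real.pi * Complex.I * (((inner ℝ x w * φ x : ℝ) : ℂ) *
      Complex.exp (-2 * Real.pi * Complex.I * ((inner ℝ x (r • w) : ℝ) : ℂ))))
    Filter.univ_mem (Eventually.of_forall fun r => (ft_int h (r • w)).aestronglyMeasurable)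
    (ft_int h (r • w)) ((ft_int (test_in h w) (r • w)).const_mul _).aestronglyMeasurable
    (Eventually.of_forall fun x r _ => ?_) ((test_int (test_in h w)).norm.const_mul _)
    (Eventually.of_forall fun x r _ => ?_)
  · have h2 := h1.2
    rw [integral_const_mul] at h2
    exact h2
  · rw [kn, norm_mul, exp_norm', mul_one]
  · have h2 : HasDerivAt (fun r : ℝ => -2 * Real.pi * Complex.I * ((inner ℝ x (r • w) : ℝ) : ℂ))
        (-2 * Real.pi * Complex.I * ((inner ℝ x w : ℝ) : ℂ)) r := by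
      have h3 : HasDerivAt (fun r : ℝ => ((r : ℝ) : ℂ)) 1 r := Complex.ofRealCLM.hasDerivAt
      have h4 := h3.const_mul (-2 * Real.pi * Complex.I * ((inner ℝ x w : ℝ) : ℂ))
      rw [mul_one] at h4
      refine h4.congr_of_eventuallyEq (Eventually.of_forall fun r => ?_)
      simp only [inner_smul_right]
      push_cast
      ring
    have h3 := h2.cexp.const_mul (φ x : ℂ)
    refine h3.congr_deriv ?_
    push_cast
    ring

lemma dec (hFt : St_Ft) {φ : E → ℝ} (h : IsTest φ) (N : ℕ) : ∃ C : ℝ, 0 ≤ C ∧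
    ∀ ξ, ‖ft φ ξ‖ ≤ C / (1 + ‖ξ‖) ^ N := by
  obtain ⟨-, hd, -⟩ := hFt.2 φ (hFt.1 φ h)
  obtain ⟨C, hC⟩ := hd N
  refine ⟨|C|, abs_nonneg _, fun ξ => (hC ξ).trans ?_⟩
  gcongr
  exact le_abs_self C

lemma NC_ft (hFt : St_Ft) {φ : E → ℝ} (h : IsTest φ) (N : ℕ) : ∃ D : ℝ, 0 ≤ D ∧ ∀ w : E,
    ‖w‖ = 1 → ∃ f1 f2, NC N D (fun r => ft φ (r • w)) f1 f2 := by
  obtain ⟨C0, hC0, h0⟩ := dec hFt h N
  choose C1 hC1 h1 using fun i => dec hFt (test_co h i) N
  choose C2 hC2 h2 using fun (q : Fin 4 × Fin 4) => dec hFt (test_co (test_co h q.1) q.2) N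
  have hs1 : 0 ≤ ∑ i, C1 i := Finset.sum_nonneg fun i _ => hC1 i
  have hs2 : 0 ≤ ∑ i, ∑ j, C2 (i, j) :=
    Finset.sum_nonneg fun i _ => Finset.sum_nonneg fun j _ => hC2 _
  have hpi := Real.pi_pos
  refine ⟨C0 + 2 * Real.pi * ∑ i, C1 i + 2 * Real.pi * (2 * Real.pi * ∑ i, ∑ j, C2 (i, j)),
    by positivity, fun w hw => ?_⟩
  refine ⟨fun r => -2 * Real.pi * Complex.I * ft (fun x => inner ℝ x w * φ x) (r • w),
    fun r => -2 * Real.pi * Complex.I * (-2 * Real.pi * Complex.I *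
      ft (fun x => inner ℝ x w * (inner ℝ x w * φ x)) (r • w)), fun r => ft_der h w r, fun r =>
      (ft_der (test_in h w) w r).const_mul _, ?_, fun r => ?_⟩
  · have h3 := (hFt.2 _ (hFt.1 _ (test_in (test_in h w) w))).1
    have h4 : Continuous fun r : ℝ => ft (fun x => inner ℝ x w * (inner ℝ x w * φ x)) (r • w) :=
      h3.comp (by fun_prop)
    fun_prop
  · have hrw : ‖r • w‖ = |r| := by rw [norm_smul, hw, mul_one, Real.norm_eq_abs]
    have hp : 0 < (1 + |r|) ^ N := by positivity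
    have e0 := h0 (r • w)
    have e1 : ‖ft (fun x => inner ℝ x w * φ x) (r • w)‖ ≤ (∑ i, C1 i) / (1 + |r|) ^ N := by
      refine (ft_in_bd h hw _).trans ?_
      rw [Finset.sum_div]
      refine Finset.sum_le_sum fun i _ => ?_
      have := h1 i (r • w)
      rwa [hrw] at this
    have e2 : ‖ft (fun x => inner ℝ x w * (inner ℝ x w * φ x)) (r • w)‖ ≤
        (∑ i, ∑ j, C2 (i, j)) / (1 + |r|) ^ N := by
      refine (ft_in_bd (test_in h w) hw _).trans ?_
      rw [Finset.sum_div]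
      refine Finset.sum_le_sum fun i _ => ?_
      have h5 : (fun x : E => x i * (inner ℝ x w * φ x)) = fun x => inner ℝ x w * (x i * φ x) := by
        funext x
        ring
      rw [h5]
      refine (ft_in_bd (test_co h i) hw _).trans ?_
      rw [Finset.sum_div]
      refine Finset.sum_le_sum fun j _ => ?_
      have := h2 (i, j) (r • w)
      rwa [hrw] at this
    rw [hrw] at e0
    rw [kn, kn, kn, add_div, add_div, mul_div_assoc, mul_div_assoc, mul_div_assoc]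
    have p0 : 0 ≤ C0 / (1 + |r|) ^ N := div_nonneg hC0 hp.le
    have p1 : 0 ≤ 2 * Real.pi * ((∑ i, C1 i) / (1 + |r|) ^ N) := by positivity
    have p2 : 0 ≤ 2 * Real.pi * (2 * Real.pi * ((∑ i, ∑ j, C2 (i, j)) / (1 + |r|) ^ N)) := by
      positivity
    refine ⟨by linarith, ?_, ?_⟩
    · have := mul_le_mul_of_nonneg_left e1 (by positivity : 0 ≤ 2 * Real.pi)
      linarith
    · have := mul_le_mul_of_nonneg_left (mul_le_mul_of_nonneg_left e2
        (by positivity : 0 ≤ 2 * Real.pi)) (by positivity : 0 ≤ 2 * Real.pi)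
      linarith

/-! ### The symbol -/

/-- the symbol -/
noncomputable def Z (F G : ℝ → ℂ) (r : ℝ) : ℂ :=
  ((|2 * Real.pi * r| ^ 3 : ℝ) : ℂ) * F r +
    Complex.I * ((|2 * Real.pi * r| * (2 * Real.pi * r) : ℝ) : ℂ) * G r

/-- the symbol for `0 ≤ r` -/
noncomputable def ZA (F G : ℝ → ℂ) (r : ℝ) : ℂ :=
  (((2 * Real.pi) ^ 3 : ℝ) : ℂ) * ((r : ℂ) * ((r : ℂ) * ((r : ℂ) * F r))) +
    Complex.I * (((2 * Real.pi) ^ 2 : ℝ) : ℂ) * ((r : ℂ) * ((r : ℂ) * G r))

lemma Z_pos (F G : ℝ → ℂ) {r : ℝ} (hr : 0 ≤ r) : Z F G r = ZA F G r := by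
  unfold Z ZA
  rw [abs_of_nonneg (by have := Real.pi_pos; positivity)]
  push_cast
  ring

lemma Z_neg (F G : ℝ → ℂ) {r : ℝ} (hr : 0 ≤ r) : Z F G (-r) = -ZA F G (-r) := by
  unfold Z ZA
  rw [mul_neg, abs_neg, abs_of_nonneg (by have := Real.pi_pos; positivity)]
  push_cast
  ring

lemma Z_norm (F G : ℝ → ℂ) (r : ℝ) : ‖Z F G r‖ = ‖ZA F G r‖ := by
  rcases le_total 0 r with h | h
  · rw [Z_pos F G h]
  · have := Z_neg F G (neg_nonneg.2 h)
    rw [neg_neg] at this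
    rw [this, norm_neg]

/-- the constant -/
noncomputable def kc (D D' : ℝ) : ℝ :=
  ‖(((2 * Real.pi) ^ 3 : ℝ) : ℂ)‖ * (3 * (3 * (3 * D))) +
    ‖Complex.I * (((2 * Real.pi) ^ 2 : ℝ) : ℂ)‖ * (3 * (3 * D'))

lemma ZA_NC {D D' : ℝ} {F F1 F2 G G1 G2 : ℝ → ℂ} (hF : NC 5 D F F1 F2) (hG : NC 5 D' G G1 G2) :
    ∃ f1 f2, NC 2 (kc D D') (ZA F G) f1 f2 ∧ ZA F G 0 = 0 ∧ f1 0 = 0 := by
  have h1 := (hF.mul_r.mul_r.mul_r.cmul (((2 * Real.pi) ^ 3 : ℝ) : ℂ))
  have h2 := ((hG.mul_r.mul_r.mono (by norm_num : 2 ≤ 3)).cmul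
    (Complex.I * (((2 * Real.pi) ^ 2 : ℝ) : ℂ)))
  refine ⟨_, _, h1.add h2, ?_, ?_⟩
  · unfold ZA
    simp
  · simp

lemma Z_b {D D' : ℝ} {F F1 F2 G G1 G2 : ℝ → ℂ} (hF : NC 5 D F F1 F2) (hG : NC 5 D' G G1 G2)
    (r : ℝ) : ‖Z F G r‖ ≤ kc D D' * (1 + r ^ 2)⁻¹ := by
  obtain ⟨f1, f2, h, -, -⟩ := ZA_NC hF hG
  rw [Z_norm]
  have b0 := (h.b r).1
  have hD : 0 ≤ kc D D' := by
    have := (norm_nonneg _).trans b0
    by_contra hc
    exact absurd this (not_le.2 (div_neg_of_neg_of_pos (not_le.1 hc) (by positivity)))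
  refine b0.trans ?_
  rw [div_eq_mul_inv]
  gcongr
  exact sq_le r

lemma Z_bd {D D' : ℝ} {F F1 F2 G G1 G2 : ℝ → ℂ} (hF : NC 5 D F F1 F2) (hG : NC 5 D' G G1 G2)
    (p : ℝ) : ‖∫ r, Z F G r * Complex.exp (2 * Real.pi * Complex.I * ((r * p : ℝ) : ℂ))‖ ≤
      2 * Real.pi * kc D D' * (1 + p ^ 2)⁻¹ := by
  obtain ⟨f1, f2, h, h0, h0'⟩ := ZA_NC hF hG
  have cF : Continuous F := continuous_iff_continuousAt.2 fun r => (hF.d1 r).continuousAt
  have cG : Continuous G := continuous_iff_continuousAt.2 fun r => (hG.d1 r).continuousAt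
  have cZ : Continuous (Z F G) := by
    unfold Z
    fun_prop
  have hi : Integrable (fun r => Z F G r *
      Complex.exp (2 * Real.pi * Complex.I * ((r * p : ℝ) : ℂ))) volume := by
    refine (integrable_inv_one_add_sq.const_mul (kc D D')).mono'
      (cZ.mul (by fun_prop)).aestronglyMeasurable (Eventually.of_forall fun r => ?_)
    rw [norm_mul, exp_norm, mul_one]
    exact Z_b hF hG r
  rw [← intervalIntegral.integral_Iic_add_Ioi hi.integrableOn hi.integrableOn (b := 0)]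
  have e1 : ∫ r in Ioi (0 : ℝ), Z F G r *
      Complex.exp (2 * Real.pi * Complex.I * ((r * p : ℝ) : ℂ)) = ∫ r in Ioi (0 : ℝ), ZA F G r *
      Complex.exp (2 * Real.pi * Complex.I * ((r * p : ℝ) : ℂ)) := by
    refine setIntegral_congr_fun measurableSet_Ioi fun r hr => ?_
    rw [Z_pos F G (le_of_lt hr)]
  have e2 : ∫ r in Iic (0 : ℝ), Z F G r *
      Complex.exp (2 * Real.pi * Complex.I * ((r * p : ℝ) : ℂ)) = -∫ r in Ioi (0 : ℝ), ZA F G (-r) *
      Complex.exp (2 * Real.pi * Complex.I * ((r * (-p) : ℝ) : ℂ)) := by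
    have e3 := integral_comp_neg_Iic (0 : ℝ) (fun r => Z F G (-r) *
      Complex.exp (2 * Real.pi * Complex.I * (((-r) * p : ℝ) : ℂ)))
    simp only [neg_neg, neg_zero] at e3
    rw [e3, ← integral_neg]
    refine setIntegral_congr_fun measurableSet_Ioi fun r hr => ?_
    rw [Z_neg F G (le_of_lt hr), neg_mul, show -r * p = r * -p by ring]
  have b1 := half h h0 h0' p
  have b2 := half h.neg (by rw [neg_zero]; exact h0) (by rw [neg_zero, h0', neg_zero]) (-p)
  rw [neg_sq] at b2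
  rw [e1, e2]
  refine (norm_add_le _ _).trans ?_
  rw [norm_neg]
  have e4 : 2 * Real.pi * kc D D' * (1 + p ^ 2)⁻¹ =
      Real.pi * kc D D' / (1 + p ^ 2) + Real.pi * kc D D' / (1 + p ^ 2) := by
    ring
  rw [e4]
  exact add_le_add b2 b1

/-! ### The representation -/

/-- the Fourier transforms of the position field at time `t` for the data `f, g` -/
def HM (t : ℝ) (f g U : E → ℝ) : Prop := ∀ ξ, ((2 * Real.pi * ‖ξ‖ : ℝ) : ℂ) * ft U ξ =
  ((2 * Real.pi * ‖ξ‖ * Real.cos (2 * Real.pi * t * ‖ξ‖) : ℝ) : ℂ) * ft f ξ +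
      ((Real.sin (2 * Real.pi * t * ‖ξ‖) : ℝ) : ℂ) * ft g ξ

lemma W_pt {t : ℝ} {f g U : E → ℝ} (hM : HM t f g U) (w : E) (hw : ‖w‖ = 1) (r c : ℝ) :
    Z (fun r => ft f (r • w)) (fun r => ft g (r • w)) r *
      Complex.exp (2 * Real.pi * Complex.I * ((r * (c - t) : ℝ) : ℂ)) +
    Z (fun r => ft f (r • -w)) (fun r => ft g (r • -w)) (-r) *
      Complex.exp (2 * Real.pi * Complex.I * ((-r * (-c - t) : ℝ) : ℂ)) =
    2 * (((2 * Real.pi) ^ 3 : ℝ) : ℂ) * (((‖r • w‖ ^ 3 : ℝ) : ℂ) * (ft U (r • w) *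
      Complex.exp (2 * Real.pi * Complex.I * ((r * c : ℝ) : ℂ)))) := by
  have hn : ‖r • w‖ = |r| := by rw [norm_smul, hw, mul_one, Real.norm_eq_abs]
  have h1 := hM (r • w)
  rw [hn] at h1 ⊢
  have e1 : Complex.exp (2 * Real.pi * Complex.I * ((r * (c - t) : ℝ) : ℂ)) =
      Complex.exp (2 * Real.pi * Complex.I * ((r * c : ℝ) : ℂ)) *
        (((Real.cos (2 * Real.pi * t * r) : ℝ) : ℂ) -
          ((Real.sin (2 * Real.pi * t * r) : ℝ) : ℂ) * Complex.I) := by
    rw [show 2 * Real.pi * Complex.I * ((r * (c - t) : ℝ) : ℂ) =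
      2 * Real.pi * Complex.I * ((r * c : ℝ) : ℂ) + (-(2 * Real.pi * t * r) : ℂ) * Complex.I by
        push_cast; ring, Complex.exp_add, Complex.exp_mul_I, Complex.cos_neg, Complex.sin_neg]
    push_cast
    ring
  have e2 : Complex.exp (2 * Real.pi * Complex.I * ((-r * (-c - t) : ℝ) : ℂ)) =
      Complex.exp (2 * Real.pi * Complex.I * ((r * c : ℝ) : ℂ)) *
        (((Real.cos (2 * Real.pi * t * r) : ℝ) : ℂ) +
          ((Real.sin (2 * Real.pi * t * r) : ℝ) : ℂ) * Complex.I) := by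
    rw [show 2 * Real.pi * Complex.I * ((-r * (-c - t) : ℝ) : ℂ) =
      2 * Real.pi * Complex.I * ((r * c : ℝ) : ℂ) + ((2 * Real.pi * t * r) : ℂ) * Complex.I by
        push_cast; ring, Complex.exp_add, Complex.exp_mul_I]
    push_cast
    ring
  have e3 : -r • -w = r • w := by rw [neg_smul_neg]
  rw [e1, e2]
  unfold Z
  simp only [e3]
  rw [mul_neg, abs_neg]
  rcases abs_cases r with ⟨ha, hr⟩ | ⟨ha, hr⟩
  · have hb : |2 * Real.pi * r| = 2 * Real.pi * r := abs_of_nonneg (by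
      have := Real.pi_pos
      positivity)
    rw [hb]
    rw [ha] at h1 ⊢
    push_cast at h1 ⊢
    linear_combination (-2 * (2 * Real.pi * r : ℂ) ^ 2 *
      Complex.exp (2 * Real.pi * Complex.I * (r * c))) * h1 +
      (-2 * (2 * Real.pi * r : ℂ) ^ 2 * Complex.sin (2 * Real.pi * t * r) * ft g (r • w) *
        Complex.exp (2 * Real.pi * Complex.I * (r * c))) * Complex.I_sq
  · have hb : |2 * Real.pi * r| = -(2 * Real.pi * r) := abs_of_neg (by
      have := Real.pi_pos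
      have : 0 < 2 * Real.pi * -r := mul_pos (by positivity) (by linarith)
      linarith)
    rw [hb]
    rw [ha] at h1 ⊢
    rw [show 2 * Real.pi * t * -r = -(2 * Real.pi * t * r) by ring, Real.cos_neg, Real.sin_neg]
      at h1
    push_cast at h1 ⊢
    linear_combination (-2 * (2 * Real.pi * r : ℂ) ^ 2 *
      Complex.exp (2 * Real.pi * Complex.I * (r * c))) * h1 +
      (2 * (2 * Real.pi * r : ℂ) ^ 2 * Complex.sin (2 * Real.pi * t * r) * ft g (r • w) *
        Complex.exp (2 * Real.pi * Complex.I * (r * c))) * Complex.I_sq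

lemma rep (hFt : St_Ft) (hPol : St_Pol) {t : ℝ} {f g U : E → ℝ} (hf : IsTest f) (hg : IsTest g)
    (hU : IsTest U) (hM : HM t f g U) (x : E) : (U x : ℂ) = (c0 : ℂ) * ∫ w : S,
      (∫ r : ℝ, Z (fun r => ft f (r • (w : E))) (fun r => ft g (r • (w : E))) r *
        Complex.exp (2 * Real.pi * Complex.I * ((r * (inner ℝ x (w : E) - t) : ℝ) : ℂ))) ∂sg := by
  obtain ⟨D, hD, hfN⟩ := NC_ft hFt hf 5
  obtain ⟨D', hD', hgN⟩ := NC_ft hFt hg 5
  have cf := (hFt.2 _ (hFt.1 _ hf)).1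
  have cg := (hFt.2 _ (hFt.1 _ hg)).1
  have cU := (hFt.2 _ (hFt.1 _ hU)).1
  obtain ⟨W, hW⟩ : ∃ W : S × ℝ → ℂ, W = fun z =>
      Z (fun r => ft f (r • (z.1 : E))) (fun r => ft g (r • (z.1 : E))) z.2 *
        Complex.exp (2 * Real.pi * Complex.I * ((z.2 * (inner ℝ x (z.1 : E) - t) : ℝ) : ℂ)) :=
    ⟨_, rfl⟩
  have hWc : Continuous W := by
    rw [hW]
    unfold Z
    have c1 : Continuous fun z : S × ℝ => ft f (z.2 • (z.1 : E)) := cf.comp (by fun_prop)
    have c2 : Continuous fun z : S × ℝ => ft g (z.2 • (z.1 : E)) := cg.comp (by fun_prop)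
    fun_prop
  have hWb : ∀ z, ‖W z‖ ≤ kc D D' * (1 + z.2 ^ 2)⁻¹ := by
    intro z
    obtain ⟨a1, a2, h1⟩ := hfN z.1 (norm_eq_of_mem_sphere z.1)
    obtain ⟨b1, b2, h2⟩ := hgN z.1 (norm_eq_of_mem_sphere z.1)
    rw [hW]
    simp only
    rw [norm_mul, exp_norm, mul_one]
    exact Z_b h1 h2 z.2
  have hWi : Integrable W mu := by
    have h1 : Integrable (fun z : S × ℝ => kc D D' * (1 + z.2 ^ 2)⁻¹) mu :=
      (integrable_const (kc D D')).mul_prod integrable_inv_one_add_sq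
    exact h1.mono' hWc.aestronglyMeasurable (Eventually.of_forall hWb)
  have hWn : Integrable (fun z : S × ℝ => W (-z.1, -z.2)) mu := mp_rev.integrable_comp_of_integrable hWi
  have hWe : ∫ z : S × ℝ, W (-z.1, -z.2) ∂mu = ∫ z, W z ∂mu := by
    have h1 := integral_map (μ := mu) (φ := fun z : S × ℝ => (-z.1, -z.2))
      mp_rev.measurable.aemeasurable (f := W) (by
        rw [mp_rev.map_eq]
        exact hWc.aestronglyMeasurable)
    rw [mp_rev.map_eq] at h1
    exact h1.symm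
  obtain ⟨H, hH⟩ : ∃ H : E → ℂ, H = fun ξ => ((‖ξ‖ ^ 3 : ℝ) : ℂ) * (ft U ξ *
      Complex.exp (2 * Real.pi * Complex.I * ((inner ℝ x ξ : ℝ) : ℂ))) := ⟨_, rfl⟩
  have hHc : Continuous H := by
    rw [hH]
    fun_prop
  have hp := (hPol H hHc.aestronglyMeasurable).2
  have h3 : ∫ ξ, ((‖ξ‖ ^ (-3 : ℝ) : ℝ) : ℂ) * H ξ = (U x : ℂ) := by
    rw [inv hFt hU x]
    refine integral_congr_ae ?_
    have h2 : ∀ᵐ ξ : E, ξ ≠ 0 := by
      rw [ae_iff]
      simp
    filter_upwards [h2] with ξ hξ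
    rw [hH]
    simp only
    have h4 : ‖ξ‖ ^ (-3 : ℝ) * ‖ξ‖ ^ 3 = 1 := by
      have := norm_pos_iff.2 hξ
      rw [Real.rpow_neg this.le]
      norm_cast
      exact inv_mul_cancel₀ (by positivity)
    rw [← mul_assoc, ← Complex.ofReal_mul, h4, Complex.ofReal_one, one_mul]
  have h4 : ∫ z : S × ℝ, (W z + W (-z.1, -z.2)) ∂mu =
      2 * (((2 * Real.pi) ^ 3 : ℝ) : ℂ) * ∫ z : S × ℝ, H (z.2 • (z.1 : E)) ∂mu := by
    rw [← integral_const_mul]
    refine integral_congr_ae (Eventually.of_forall fun z => ?_)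
    have h5 := W_pt hM (z.1 : E) (norm_eq_of_mem_sphere z.1) z.2 (inner ℝ x (z.1 : E))
    rw [hW, hH]
    simp only
    have h6 : ((-z.1 : S) : E) = -(z.1 : E) := rfl
    rw [h6, inner_neg_right, inner_smul_right]
    exact h5
  rw [integral_add hWi hWn, hWe, hp, h3] at h4
  have h5 : ∫ z, W z ∂mu = ∫ w : S, (∫ r : ℝ, W (w, r)) ∂sg := integral_prod W hWi
  have h6 : (c0 : ℂ) * ((2 * Real.pi) ^ 3 * 2 : ℝ) = 1 := by
    rw [← Complex.ofReal_mul]
    unfold c0
    have := Real.pi_pos.ne'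
    rw [show 1 / (16 * Real.pi ^ 3) * ((2 * Real.pi) ^ 3 * 2) = 1 by field_simp; norm_num]
    simp
  have h7 : ∫ z, W z ∂mu = ((2 * Real.pi) ^ 3 * 2 : ℝ) * (U x : ℂ) := by
    have h8 : (2 : ℂ) ≠ 0 := two_ne_zero
    refine mul_left_cancel₀ h8 ?_
    push_cast at h4 ⊢
    linear_combination h4
  rw [h5] at h7
  have h8 : (c0 : ℂ) * ∫ w : S, (∫ r : ℝ, W (w, r)) ∂sg = U x := by
    rw [h7, ← mul_assoc, h6, one_mul]
  rw [← h8, hW]

lemma U_bd (hFt : St_Ft) (hPol : St_Pol) {f g : E → ℝ} (hf : IsTest f) (hg : IsTest g) :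
    ∃ B : ℝ, 0 ≤ B ∧ ∀ (t : ℝ) (U : E → ℝ), IsTest U → HM t f g U → ∀ x,
      |U x| ≤ B * ∫ w : S, (1 + (inner ℝ x (w : E) - t) ^ 2)⁻¹ ∂sg := by
  obtain ⟨D, hD, hfN⟩ := NC_ft hFt hf 5
  obtain ⟨D', hD', hgN⟩ := NC_ft hFt hg 5
  have hk : 0 ≤ kc D D' := by
    unfold kc
    positivity
  have hc : 0 < c0 := by
    unfold c0
    have := Real.pi_pos
    positivity
  have hpi := Real.pi_pos
  refine ⟨c0 * (2 * Real.pi * kc D D'), by positivity, fun t U hU hM x => ?_⟩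
  have h1 := congrArg norm (rep hFt hPol hf hg hU hM x)
  rw [Complex.norm_real, norm_mul, Complex.norm_real, Real.norm_eq_abs, Real.norm_of_nonneg hc.le] at h1
  rw [h1, mul_assoc c0]
  refine mul_le_mul_of_nonneg_left ?_ hc.le
  rw [← integral_const_mul]
  refine norm_integral_le_of_norm_le ?_ (Eventually.of_forall fun w => ?_)
  · have hcont : Continuous fun w : S => 2 * Real.pi * kc D D' *
        (1 + (inner ℝ x (w : E) - t) ^ 2)⁻¹ := by
      refine continuous_const.mul (Continuous.inv₀ (by fun_prop) fun w => ?_)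
      positivity
    exact hcont.integrable_of_hasCompactSupport (HasCompactSupport.of_compactSpace _)
  · obtain ⟨a1, a2, h1⟩ := hfN w (norm_eq_of_mem_sphere w)
    obtain ⟨b1, b2, h2⟩ := hgN w (norm_eq_of_mem_sphere w)
    exact Z_bd h1 h2 _

/-! ### Integrals over the sphere -/

lemma kap_int : Integrable (fun q : ℝ => (1 + |q|) ^ (-(3 / 2 : ℝ))) volume := by
  have h := integrable_one_add_norm (E := ℝ) (μ := volume) (r := 3 / 2) (by
    rw [Module.finrank_self]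
    norm_num)
  exact h

/-- the weight of the slices -/
lemma slice_bd {M R t p : ℝ} (hM : 1 ≤ M) (hR : 0 < R) (hRt : R ≤ |t| + M) (hp : |p| ≤ R) :
    4 * Real.pi / R * √(1 - p ^ 2 / R ^ 2) * (1 + (p - t) ^ 2)⁻¹ ≤
      8 * Real.pi * √(2 * M) * R ^ (-(3 / 2 : ℝ)) * (1 + |p - t|) ^ (-(3 / 2 : ℝ)) := by
  have hpi := Real.pi_pos
  have h1 : 1 - p ^ 2 / R ^ 2 ≤ 2 * M / R * (1 + |p - t|) := by
    have h2 : |t| - |p| ≤ |p - t| := by
      have := abs_sub_abs_le_abs_sub t p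
      rwa [abs_sub_comm] at this
    have h3 : R - |p| ≤ M * (1 + |p - t|) := by
      have := abs_nonneg (p - t)
      nlinarith
    have h4 : 1 - p ^ 2 / R ^ 2 = (R - |p|) * (R + |p|) / R ^ 2 := by
      have : p ^ 2 = |p| ^ 2 := (sq_abs p).symm
      rw [this]
      field_simp
      ring
    rw [h4, div_le_iff₀ (by positivity)]
    have h5 : 2 * M / R * (1 + |p - t|) * R ^ 2 = (M * (1 + |p - t|)) * (2 * R) := by
      field_simp
    rw [h5]
    have h6 : 0 ≤ R - |p| := by linarith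
    have h7 := abs_nonneg p
    exact mul_le_mul h3 (by linarith) (by linarith) (h6.trans h3)
  have hq : 0 < 1 + |p - t| := by positivity
  have h2 : √(1 - p ^ 2 / R ^ 2) ≤ √(2 * M) * R ^ (-(1 / 2 : ℝ)) * (1 + |p - t|) ^ (1 / 2 : ℝ) := by
    refine (Real.sqrt_le_sqrt h1).trans (le_of_eq ?_)
    rw [Real.sqrt_mul (by positivity), Real.sqrt_div' _ hR.le, Real.sqrt_eq_rpow (1 + |p - t|),
      Real.sqrt_eq_rpow R, div_eq_mul_inv, ← Real.rpow_neg hR.le]
  have h3 : (1 + (p - t) ^ 2)⁻¹ ≤ 2 * (1 + |p - t|) ^ (-2 : ℝ) := by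
    rw [Real.rpow_neg hq.le]
    have h4 : (1 + |p - t|) ^ (2 : ℝ) = (1 + |p - t|) ^ 2 := by norm_cast
    rw [h4, ← div_eq_mul_inv, inv_eq_one_div, div_le_div_iff₀ (by positivity) (by positivity)]
    nlinarith [sq_abs (p - t), sq_nonneg (1 - |p - t|)]
  have h5 : R ^ (-(3 / 2 : ℝ)) = R⁻¹ * R ^ (-(1 / 2 : ℝ)) := by
    rw [← Real.rpow_neg_one, ← Real.rpow_add hR]
    norm_num
  have h6 : (1 + |p - t|) ^ (-(3 / 2 : ℝ)) = (1 + |p - t|) ^ (1 / 2 : ℝ) *
      (1 + |p - t|) ^ (-2 : ℝ) := by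
    rw [← Real.rpow_add hq]
    norm_num
  rw [h5, h6]
  calc 4 * Real.pi / R * √(1 - p ^ 2 / R ^ 2) * (1 + (p - t) ^ 2)⁻¹
      ≤ 4 * Real.pi / R * (√(2 * M) * R ^ (-(1 / 2 : ℝ)) * (1 + |p - t|) ^ (1 / 2 : ℝ)) *
        (2 * (1 + |p - t|) ^ (-2 : ℝ)) := by gcongr
    _ = _ := by
      rw [div_eq_mul_inv]
      ring

lemma sph (hSL : St_SL1) {M : ℝ} (hM : 1 ≤ M) : ∃ C : ℝ, 0 ≤ C ∧ ∀ (t : ℝ) (x : E),
    ‖x‖ ≤ |t| + M →
      ∫ w : S, (1 + (inner ℝ x (w : E) - t) ^ 2)⁻¹ ∂sg ≤ C / (1 + |t|) ^ (3 / 2 : ℝ) := by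
  have hpi := Real.pi_pos
  obtain ⟨J, hJ⟩ : ∃ J : ℝ, J = ∫ q : ℝ, (1 + |q|) ^ (-(3 / 2 : ℝ)) := ⟨_, rfl⟩
  have hJ0 : 0 ≤ J := by
    rw [hJ]
    exact integral_nonneg fun q => by positivity
  obtain ⟨m, hm⟩ : ∃ m : ℝ, m = (sg univ).toReal := ⟨_, rfl⟩
  have hm0 : 0 ≤ m := by
    rw [hm]
    exact ENNReal.toReal_nonneg
  have hcont : ∀ (t : ℝ) (x : E), Continuous fun w : S => (1 + (inner ℝ x (w : E) - t) ^ 2)⁻¹ := by
    intro t x
    exact Continuous.inv₀ (by fun_prop) fun w => by positivity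
  have hint : ∀ (t : ℝ) (x : E), Integrable (fun w : S => (1 + (inner ℝ x (w : E) - t) ^ 2)⁻¹) sg :=
    fun t x => (hcont t x).integrable_of_hasCompactSupport (HasCompactSupport.of_compactSpace _)
  -- trivial bound
  have htriv : ∀ (t : ℝ) (x : E) (b : ℝ), (∀ w : S, (1 + (inner ℝ x (w : E) - t) ^ 2)⁻¹ ≤ b) →
      ∫ w : S, (1 + (inner ℝ x (w : E) - t) ^ 2)⁻¹ ∂sg ≤ b * m := by
    intro t x b hb
    refine (integral_mono (hint t x) (integrable_const b) hb).trans (le_of_eq ?_)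
    rw [integral_const, smul_eq_mul, hm, mul_comm]
    rfl
  refine ⟨8 * m + 64 * Real.pi * √(2 * M) * J, by positivity, fun t x hx => ?_⟩
  have ht0 := abs_nonneg t
  have hq : 0 < (1 + |t|) ^ (3 / 2 : ℝ) := by positivity
  have hA : 0 ≤ 64 * Real.pi * √(2 * M) * J := by positivity
  rw [add_div]
  rcases le_or_gt |t| 1 with h1 | h1
  · have h2 := htriv t x 1 fun w => by
      rw [inv_le_one₀ (by positivity)]
      nlinarith [sq_nonneg (inner ℝ x (w : E) - t)]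
    have h3 : (1 + |t|) ^ (3 / 2 : ℝ) ≤ 8 := by
      calc (1 + |t|) ^ (3 / 2 : ℝ) ≤ 2 ^ (3 / 2 : ℝ) := by
            gcongr
            linarith
        _ ≤ 2 ^ (3 : ℝ) := Real.rpow_le_rpow_of_exponent_le (by norm_num) (by norm_num)
        _ = 8 := by norm_num
    have h4 : m ≤ 8 * m / (1 + |t|) ^ (3 / 2 : ℝ) := by
      rw [le_div_iff₀ hq]
      nlinarith
    have h5 : 0 ≤ 64 * Real.pi * √(2 * M) * J / (1 + |t|) ^ (3 / 2 : ℝ) := by positivity
    linarith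
  · have h8 : (1 + |t|) ^ (3 / 2 : ℝ) ≤ (1 + |t|) ^ (2 : ℝ) :=
      Real.rpow_le_rpow_of_exponent_le (by linarith) (by norm_num)
    have h9 : (1 + |t|) ^ (2 : ℝ) = (1 + |t|) ^ 2 := by norm_cast
    rw [h9] at h8
    rcases le_or_gt ‖x‖ (|t| / 2) with h2 | h2
    · have h3 := htriv t x (1 + (|t| / 2) ^ 2)⁻¹ fun w => by
        have h4 : |t| / 2 ≤ |inner ℝ x (w : E) - t| := by
          have h5 : |(inner ℝ x (w : E) : ℝ)| ≤ ‖x‖ := by
            have := norm_inner_le_norm (𝕜 := ℝ) x (w : E)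
            rwa [norm_eq_of_mem_sphere w, mul_one] at this
          have h6 := abs_sub_abs_le_abs_sub t (inner ℝ x (w : E))
          rw [abs_sub_comm] at h6
          linarith
        have h5 : (|t| / 2) ^ 2 ≤ (inner ℝ x (w : E) - t) ^ 2 := by
          rw [← sq_abs (inner ℝ x (w : E) - t)]
          gcongr
        gcongr
      have h4 : (1 + (|t| / 2) ^ 2)⁻¹ * m ≤ 8 * m / (1 + |t|) ^ (3 / 2 : ℝ) := by
        rw [← div_eq_inv_mul, div_le_div_iff₀ (by positivity) hq]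
        have h10 : (1 + |t|) ^ (3 / 2 : ℝ) ≤ 8 * (1 + (|t| / 2) ^ 2) := by nlinarith
        calc m * (1 + |t|) ^ (3 / 2 : ℝ) ≤ m * (8 * (1 + (|t| / 2) ^ 2)) := by gcongr
          _ = 8 * m * (1 + (|t| / 2) ^ 2) := by ring
      have h5 : 0 ≤ 64 * Real.pi * √(2 * M) * J / (1 + |t|) ^ (3 / 2 : ℝ) := by positivity
      linarith
    · have hR : 0 < ‖x‖ := by linarith
      have hx0 : x ≠ 0 := norm_pos_iff.1 hR
      have hg : Measurable fun p : ℝ => ENNReal.ofReal (1 + (p - t) ^ 2)⁻¹ := by fun_prop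
      have h3 := hSL x hx0 _ hg
      have h4 : ∫ w : S, (1 + (inner ℝ x (w : E) - t) ^ 2)⁻¹ ∂sg =
          (∫⁻ w : S, ENNReal.ofReal (1 + (inner ℝ x (w : E) - t) ^ 2)⁻¹ ∂sg).toReal :=
        integral_eq_lintegral_of_nonneg_ae (Eventually.of_forall fun w => by
          simp only [Pi.zero_apply]
          positivity) (hcont t x).aestronglyMeasurable
      have h5 : ∫⁻ p in Icc (-‖x‖) ‖x‖, ENNReal.ofReal (4 * Real.pi / ‖x‖ *
          √(1 - p ^ 2 / ‖x‖ ^ 2)) * ENNReal.ofReal (1 + (p - t) ^ 2)⁻¹ ≤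
          ENNReal.ofReal (8 * Real.pi * √(2 * M) * ‖x‖ ^ (-(3 / 2 : ℝ)) * J) := by
        have h6 : ∫⁻ p : ℝ, ENNReal.ofReal (8 * Real.pi * √(2 * M) * ‖x‖ ^ (-(3 / 2 : ℝ)) *
            (1 + |p - t|) ^ (-(3 / 2 : ℝ))) =
            ENNReal.ofReal (8 * Real.pi * √(2 * M) * ‖x‖ ^ (-(3 / 2 : ℝ)) * J) := by
          rw [← ofReal_integral_eq_lintegral_ofReal ((kap_int.comp_sub_right t).const_mul _)
            (Eventually.of_forall fun p => by
              simp only [Pi.zero_apply]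
              positivity), integral_const_mul, hJ,
            integral_sub_right_eq_self (fun q : ℝ => (1 + |q|) ^ (-(3 / 2 : ℝ))) t]
        rw [← h6]
        refine (setLIntegral_mono' measurableSet_Icc fun p hp => ?_).trans
          (setLIntegral_le_lintegral _ _)
        rw [← ENNReal.ofReal_mul (by positivity)]
        refine ENNReal.ofReal_le_ofReal ?_
        exact slice_bd hM hR hx (abs_le.2 hp)
      have h6 : ∫ w : S, (1 + (inner ℝ x (w : E) - t) ^ 2)⁻¹ ∂sg ≤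
          8 * Real.pi * √(2 * M) * ‖x‖ ^ (-(3 / 2 : ℝ)) * J := by
        rw [h4, h3]
        have h7 := ENNReal.toReal_mono ENNReal.ofReal_ne_top h5
        rwa [ENNReal.toReal_ofReal (by positivity)] at h7
      have h7 : ‖x‖ ^ (-(3 / 2 : ℝ)) ≤ 8 / (1 + |t|) ^ (3 / 2 : ℝ) := by
        have h10 : (1 + |t|) / 4 ≤ ‖x‖ := by linarith
        have h11 : ‖x‖ ^ (-(3 / 2 : ℝ)) ≤ ((1 + |t|) / 4) ^ (-(3 / 2 : ℝ)) :=
          Real.rpow_le_rpow_of_nonpos (by positivity) h10 (by norm_num)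
        refine h11.trans (le_of_eq ?_)
        rw [Real.rpow_neg (by positivity), Real.div_rpow (by positivity) (by norm_num), inv_div]
        congr 1
        rw [show (4 : ℝ) = 2 ^ (2 : ℝ) by norm_num, ← Real.rpow_mul (by norm_num)]
        norm_num
      have h10 : 8 * Real.pi * √(2 * M) * ‖x‖ ^ (-(3 / 2 : ℝ)) * J ≤
          64 * Real.pi * √(2 * M) * J / (1 + |t|) ^ (3 / 2 : ℝ) := by
        calc 8 * Real.pi * √(2 * M) * ‖x‖ ^ (-(3 / 2 : ℝ)) * J ≤
              8 * Real.pi * √(2 * M) * (8 / (1 + |t|) ^ (3 / 2 : ℝ)) * J := by gcongr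
          _ = _ := by ring
      have h12 : 0 ≤ 8 * m / (1 + |t|) ^ (3 / 2 : ℝ) := by positivity
      linarith

/-- sup bound -/
lemma sup_bd (hSL : St_SL1) (hFt : St_Ft) (hPol : St_Pol) {f g : E → ℝ} (hf : IsTest f)
    (hg : IsTest g) {M : ℝ} (hM1 : 1 ≤ M) :
    ∃ C : ℝ, 0 ≤ C ∧ ∀ (t : ℝ) (U : E → ℝ), IsTest U → HM t f g U →
      (∀ x, |t| + M ≤ ‖x‖ → U x = 0) → ∀ x, |U x| ≤ C / (1 + |t|) ^ (3 / 2 : ℝ) := by
  obtain ⟨B, hB, hb⟩ := U_bd hFt hPol hf hg
  obtain ⟨C, hC, hs⟩ := sph hSL hM1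
  refine ⟨B * C, by positivity, fun t U hU hM hz x => ?_⟩
  rcases le_total ‖x‖ (|t| + M) with h | h
  · refine (hb t U hU hM x).trans ?_
    rw [mul_div_assoc]
    exact mul_le_mul_of_nonneg_left (hs t x h) hB
  · rw [hz x h, abs_zero]
    positivity

/-! ### Derivatives -/

lemma test_pd {φ : E → ℝ} (h : IsTest φ) (i : Fin 4) : IsTest (pd i φ) := by
  refine ⟨?_, ?_⟩
  · exact (h.1.fderiv_right (m := ∞) (by simp)).clm_apply contDiff_const
  · exact (h.2.fderiv ℝ).comp_left (g := fun L : E →L[ℝ] ℝ => L (EuclideanSpace.single i 1)) rfl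

lemma supp_pd {φ : E → ℝ} (i : Fin 4) : tsupport (pd i φ) ⊆ tsupport φ := by
  refine closure_minimal (fun x hx => ?_) (isClosed_tsupport φ)
  by_contra hc
  refine hx ?_
  have h1 := image_eq_zero_of_notMem_tsupport (f := fderiv ℝ φ)
    (fun h => hc (tsupport_fderiv_subset ℝ h))
  unfold pd
  rw [h1]
  rfl

lemma HM_pd (hFt : St_Ft) {t : ℝ} {f g U : E → ℝ} (hf : IsTest f) (hg : IsTest g) (hU : IsTest U)
    (h : HM t f g U) (i : Fin 4) : HM t (pd i f) (pd i g) (pd i U) := by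
  intro ξ
  rw [(hFt.2 _ (hFt.1 _ hf)).2.2.2.1, (hFt.2 _ (hFt.1 _ hg)).2.2.2.1,
    (hFt.2 _ (hFt.1 _ hU)).2.2.2.1]
  linear_combination (2 * Real.pi * Complex.I * ((ξ i : ℝ) : ℂ)) * h ξ

/-- iterated coordinate derivatives -/
noncomputable def DD : (n : ℕ) → (Fin n → Fin 4) → (E → ℝ) → E → ℝ
  | 0, _, F => F
  | n + 1, i, F => pd (i 0) (DD n (Fin.tail i) F)

lemma DD_test {F : E → ℝ} (h : IsTest F) : ∀ (n : ℕ) (i : Fin n → Fin 4), IsTest (DD n i F)
  | 0, _ => h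
  | n + 1, i => test_pd (DD_test h n _) _

lemma DD_supp (F : E → ℝ) : ∀ (n : ℕ) (i : Fin n → Fin 4), tsupport (DD n i F) ⊆ tsupport F
  | 0, _ => subset_rfl
  | n + 1, i => (supp_pd _).trans (DD_supp F n _)

lemma DD_HM (hFt : St_Ft) {t : ℝ} {f g U : E → ℝ} (hf : IsTest f) (hg : IsTest g)
    (hU : IsTest U) (h : HM t f g U) : ∀ (n : ℕ) (i : Fin n → Fin 4),
      HM t (DD n i f) (DD n i g) (DD n i U)
  | 0, _ => h
  | n + 1, i => HM_pd hFt (DD_test hf n _) (DD_test hg n _) (DD_test hU n _)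
      (DD_HM hFt hf hg hU h n _) _

lemma DD_iter {F : E → ℝ} (h : IsTest F) (n : ℕ) : ∀ (i : Fin n → Fin 4) (x : E),
    iteratedFDeriv ℝ n F x (fun j => EuclideanSpace.single (i j) (1 : ℝ)) = DD n i F x := by
  induction n with
  | zero =>
    intro i x
    simp [DD]
  | succ n ih =>
    intro i x
    rw [iteratedFDeriv_succ_apply_left]
    have h1 : DifferentiableAt ℝ (iteratedFDeriv ℝ n F) x :=
      (h.1.differentiable_iteratedFDeriv (m := n) (by exact_mod_cast WithTop.coe_lt_top _)) x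
    have h2 := h1.hasFDerivAt.continuousMultilinear_apply_const
      (Fin.tail fun j => EuclideanSpace.single (i j) (1 : ℝ))
    have h3 : (fun y => iteratedFDeriv ℝ n F y
        (Fin.tail fun j => EuclideanSpace.single (i j) (1 : ℝ))) = DD n (Fin.tail i) F := by
      funext y
      exact ih (Fin.tail i) y
    rw [h3] at h2
    change _ = pd (i 0) (DD n (Fin.tail i) F) x
    unfold pd
    rw [h2.fderiv]
    rfl

lemma multi_bd {n : ℕ} (T : ContinuousMultilinearMap ℝ (fun _ : Fin n => E) ℝ) :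
    ‖T‖ ≤ ∑ i : Fin n → Fin 4, |T (fun j => EuclideanSpace.single (i j) (1 : ℝ))| := by
  refine T.opNorm_le_bound (Finset.sum_nonneg fun i _ => abs_nonneg _) fun m => ?_
  have h1 : m = fun j => ∑ k : Fin 4, (m j k) • EuclideanSpace.single k (1 : ℝ) := by
    funext j
    have := (EuclideanSpace.basisFun (Fin 4) ℝ).sum_repr (m j)
    simp only [EuclideanSpace.basisFun_repr, EuclideanSpace.basisFun_apply] at this
    exact this.symm
  have h2 : T m = ∑ i : Fin n → Fin 4, (∏ j, m j (i j)) *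
      T (fun j => EuclideanSpace.single (i j) (1 : ℝ)) := by
    conv_lhs => rw [h1]
    rw [ContinuousMultilinearMap.map_sum]
    refine Finset.sum_congr rfl fun i _ => ?_
    rw [ContinuousMultilinearMap.map_smul_univ, smul_eq_mul]
  rw [h2, Real.norm_eq_abs]
  refine (Finset.abs_sum_le_sum_abs _ _).trans ?_
  rw [Finset.sum_mul]
  refine Finset.sum_le_sum fun i _ => ?_
  rw [abs_mul, Finset.abs_prod, mul_comm]
  refine mul_le_mul_of_nonneg_left ?_ (abs_nonneg _)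
  refine Finset.prod_le_prod (fun j _ => abs_nonneg _) fun j _ => ?_
  have := PiLp.norm_apply_le (m j) (i j)
  rwa [Real.norm_eq_abs] at this

/-- all derivatives of order at most three -/
lemma all_bd (hSL : St_SL1) (hFt : St_Ft) (hPol : St_Pol) {f g : E → ℝ} (hf : IsTest f)
    (hg : IsTest g) {R : ℝ} (hR : 0 ≤ R) : ∃ C : ℝ, 0 ≤ C ∧ ∀ (t : ℝ) (U : E → ℝ), IsTest U →
      HM t f g U → tsupport U ⊆ Metric.closedBall 0 (|t| + R) → ∀ x, ∀ n ≤ 3,
        ‖iteratedFDeriv ℝ n U x‖ ≤ C / (1 + |t|) ^ (3 / 2 : ℝ) := by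
  have hM : 1 ≤ R + 1 := by linarith
  choose C hC0 hC using fun (n : ℕ) (i : Fin n → Fin 4) =>
    sup_bd hSL hFt hPol (DD_test hf n i) (DD_test hg n i) hM
  have hnn : ∀ n, 0 ≤ ∑ i : Fin n → Fin 4, C n i := fun n => Finset.sum_nonneg fun i _ => hC0 n i
  refine ⟨∑ n ∈ Finset.range 4, ∑ i : Fin n → Fin 4, C n i, Finset.sum_nonneg fun n _ => hnn n,
    fun t U hU hH hs x n hn => ?_⟩
  refine (multi_bd _).trans ?_
  have h1 : ∑ i : Fin n → Fin 4, |iteratedFDeriv ℝ n U x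
      (fun j => EuclideanSpace.single (i j) (1 : ℝ))| ≤
      (∑ i : Fin n → Fin 4, C n i) / (1 + |t|) ^ (3 / 2 : ℝ) := by
    rw [Finset.sum_div]
    refine Finset.sum_le_sum fun i _ => ?_
    rw [DD_iter hU n i x]
    refine hC n i t _ (DD_test hU n i) (DD_HM hFt hf hg hU hH n i) (fun y hy => ?_) x
    refine image_eq_zero_of_notMem_tsupport fun h => ?_
    have h2 := hs (DD_supp U n i h)
    rw [mem_closedBall_zero_iff] at h2
    linarith
  refine h1.trans ?_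
  gcongr
  exact Finset.single_le_sum (f := fun n => ∑ i : Fin n → Fin 4, C n i) (fun n _ => hnn n)
    (Finset.mem_range.2 (by omega))

lemma test_lap {φ : E → ℝ} (h : IsTest φ) : IsTest (lap φ) := by
  refine ⟨?_, ?_⟩
  · have : ContDiff ℝ ∞ fun x => ∑ i, pd i (pd i φ) x :=
      ContDiff.sum fun i _ => (test_pd (test_pd h i) i).1
    exact this
  · refine h.2.mono' fun x hx => ?_
    by_contra hc
    refine hx ?_
    unfold lap
    refine Finset.sum_eq_zero fun i _ => ?_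
    exact image_eq_zero_of_notMem_tsupport fun h1 => hc (supp_pd i (supp_pd i h1))

lemma test_sub {φ ψ : E → ℝ} (h : IsTest φ) (h' : IsTest ψ) : IsTest fun x => φ x - ψ x :=
  ⟨h.1.sub h'.1, h.2.sub h'.2⟩

/-- test functions are determined by their pairings -/
lemma eq_of_pair {φ ψ : E → ℝ} (h : IsTest φ) (h' : IsTest ψ)
    (he : ∀ χ, IsTest χ → ∫ x, φ x * χ x = ∫ x, ψ x * χ x) : φ = ψ := by
  have h1 := he _ (test_sub h h')
  have hd := test_sub h h'
  have i1 : Integrable (fun x => φ x * (φ x - ψ x)) volume :=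
    (h.1.continuous.mul hd.1.continuous).integrable_of_hasCompactSupport h.2.mul_right
  have i2 : Integrable (fun x => ψ x * (φ x - ψ x)) volume :=
    (h'.1.continuous.mul hd.1.continuous).integrable_of_hasCompactSupport h'.2.mul_right
  have h2 : ∫ x, (φ x - ψ x) ^ 2 = 0 := by
    have e1 : ∀ x, (φ x - ψ x) ^ 2 = φ x * (φ x - ψ x) - ψ x * (φ x - ψ x) := fun x => by ring
    simp only [e1]
    rw [integral_sub i1 i2, h1, sub_self]
  have i3 : Integrable (fun x => (φ x - ψ x) ^ 2) volume := by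
    have e1 : (fun x => (φ x - ψ x) ^ 2) = fun x => φ x * (φ x - ψ x) - ψ x * (φ x - ψ x) := by
      funext x
      ring
    rw [e1]
    exact i1.sub i2
  have h3 := (integral_eq_zero_iff_of_nonneg (fun x => sq_nonneg (φ x - ψ x)) i3).1 h2
  have h4 := (Continuous.ae_eq_iff_eq volume (hd.1.continuous.pow 2) continuous_zero).1 h3
  funext x
  have h5 := congrFun h4 x
  simp only [Pi.zero_apply] at h5
  have h6 := pow_eq_zero_iff (two_ne_zero) |>.1 h5
  linarith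

/-- integrability of the products of transforms -/
lemma prod_int (hFt : St_Ft) {φ ψ : E → ℝ} (h : IsTest φ) (h' : IsTest ψ) :
    Integrable (fun ξ => ft φ ξ * (starRingEnd ℂ) (ft ψ ξ)) volume := by
  obtain ⟨C, hC, hb⟩ := dec hFt h' 0
  have hc := (hFt.2 _ (hFt.1 _ h')).1
  refine (ft_integrable hFt h).mul_bdd (c := C) (by fun_prop) (Eventually.of_forall fun ξ => ?_)
  have := hb ξ
  rw [pow_zero, div_one] at this
  rwa [RCLike.norm_conj]

/-- Parseval -/
lemma pars (hFt : St_Ft) {φ ψ : E → ℝ} (h : IsTest φ) (h' : IsTest ψ) :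
    ∫ x, φ x * ψ x = (∫ ξ, ft φ ξ * (starRingEnd ℂ) (ft ψ ξ)).re :=
  (hFt.2 _ (hFt.1 _ h)).2.2.1 ψ (hFt.1 _ h')

end DecayPx

open DecayPx in
/-- **DecayP** -/
theorem thm_DecayP (hG : St_Grp1) (hSL : St_SL1) (hFt : St_Ft) (hPol : St_Pol) (hI : St_IsoP)
    (hW : St_WvS) (hFr : St_FreX) : St_DecayP := by
  intro f g hf hg
  have hlf := test_lap hf
  obtain ⟨ρ1, hρ1⟩ := hf.2.isBounded.subset_closedBall (0 : E)
  obtain ⟨ρ2, hρ2⟩ := hg.2.isBounded.subset_closedBall (0 : E)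
  obtain ⟨R, hR⟩ : ∃ R : ℝ, R = |ρ1| + |ρ2| := ⟨_, rfl⟩
  have hR0 : 0 ≤ R := by
    rw [hR]
    positivity
  obtain ⟨C1, hC1, hb1⟩ := all_bd hSL hFt hPol hf hg hR0
  obtain ⟨C2, hC2, hb2⟩ := all_bd hSL hFt hPol hg hlf hR0
  obtain ⟨u, v, -, -, -, -, hvan, huv⟩ := hW f g hf hg
  refine ⟨C1 + C2 + 1, R + 1, by positivity, by linarith, fun t => ?_⟩
  obtain ⟨hu, hv, hftu, hftv⟩ := huv t
  obtain ⟨⟨f', g', hf', hg', htau, -⟩, -⟩ := hFr f g f t hf hg hf
  -- the fields vanish outside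
  have hout : ∀ x : E, |t| + R < ‖x‖ → u (t, x) = 0 ∧ v (t, x) = 0 := by
    intro x hx
    refine hvan t x fun y hy => ?_
    have h1 : ‖x‖ ≤ ‖y‖ + |t| := by
      have := norm_sub_norm_le x y
      rw [dist_comm, dist_eq_norm] at hy
      linarith
    have h2 : R < ‖y‖ := by linarith
    rw [hR] at h2
    constructor
    · refine image_eq_zero_of_notMem_tsupport fun h3 => ?_
      have h4 := hρ1 h3
      rw [mem_closedBall_zero_iff] at h4
      have := le_abs_self ρ1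
      have := abs_nonneg ρ2
      linarith
    · refine image_eq_zero_of_notMem_tsupport fun h3 => ?_
      have h4 := hρ2 h3
      rw [mem_closedBall_zero_iff] at h4
      have := le_abs_self ρ2
      have := abs_nonneg ρ1
      linarith
  have hsup : ∀ {F : E → ℝ}, (∀ x : E, |t| + R < ‖x‖ → F x = 0) →
      tsupport F ⊆ Metric.closedBall 0 (|t| + R) := by
    intro F hF
    refine closure_minimal (fun x hx => ?_) Metric.isClosed_closedBall
    rw [mem_closedBall_zero_iff]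
    by_contra hc
    exact hx (hF x (not_le.1 hc))
  have hMu : HM t f g (fun x => u (t, x)) := hftu
  have hMv : HM t g (lap f) (fun x => v (t, x)) := by
    intro ξ
    rw [hftv ξ, (hFt.2 _ (hFt.1 _ hf)).2.2.2.2.1 ξ]
    push_cast
    ring
  -- identification of the fields
  have hξ : ∀ᵐ ξ : E, ξ ≠ 0 := by
    rw [ae_iff]
    simp
  have key : ∀ χ, IsTest χ → (∫ x, f' x * χ x = ∫ x, u (t, x) * χ x) ∧
      ∫ x, g' x * χ x = ∫ x, v (t, x) * χ x := by
    intro χ hχ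
    obtain ⟨-, f1, f2, hf1, hf2, hst, -, hft1, hft2⟩ := hFr f g χ (-t) hf hg hχ
    have hs0 := hst 0 (by norm_num) (by norm_num)
    have hlf2 := test_lap hf2
    have sch := hFt.1
    have i0 := fun (a b φ : E → ℝ) (ha : IsTest a) (hb : IsTest b) (hφ : IsTest φ) =>
      (hI 0 a φ (by norm_num) (by norm_num) (sch a ha) (sch φ hφ)).2.2.2.2.2.1 b (sch b hb)
    have tadj : ∀ w : K, inner ℝ (Theta 0 f' g') w = inner ℝ (Theta 0 f g) (tau (-t) w) := by
      intro w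
      rw [← htau 0 (by norm_num) (by norm_num), hG.2.2.2.2.2.1]
    have hr : ∀ ξ : E, ξ ≠ 0 → (2 * Real.pi * ‖ξ‖ : ℝ) ≠ 0 := by
      intro ξ hξ
      have := norm_pos_iff.2 hξ
      have := Real.pi_pos
      positivity
    have hcos : ∀ ξ : E, Real.cos (2 * Real.pi * -t * ‖ξ‖) = Real.cos (2 * Real.pi * t * ‖ξ‖) := by
      intro ξ
      rw [show 2 * Real.pi * -t * ‖ξ‖ = -(2 * Real.pi * t * ‖ξ‖) by ring, Real.cos_neg]
    have hsin : ∀ ξ : E, Real.sin (2 * Real.pi * -t * ‖ξ‖) = -Real.sin (2 * Real.pi * t * ‖ξ‖) := by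
      intro ξ
      rw [show 2 * Real.pi * -t * ‖ξ‖ = -(2 * Real.pi * t * ‖ξ‖) by ring, Real.sin_neg]
    constructor
    · have e1 : ∫ x, f' x * χ x = (∫ x, f x * f1 x) + ∫ x, g x * f2 x := by
        rw [← (i0 f' g' χ hf' hg' hχ).1, tadj, hs0.1, inner_add_right, (i0 f g f1 hf hg hf1).1,
          (i0 g f f2 hg hf hf2).2]
      rw [e1, pars hFt hf hf1, pars hFt hg hf2, pars hFt hu hχ, ← Complex.add_re,
        ← integral_add (prod_int hFt hf hf1) (prod_int hFt hg hf2)]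
      congr 1
      refine integral_congr_ae ?_
      filter_upwards [hξ] with ξ hξ
      have h0 := hr ξ hξ
      have h0' : ((2 * Real.pi * ‖ξ‖ : ℝ) : ℂ) ≠ 0 := by exact_mod_cast h0
      refine mul_left_cancel₀ h0' ?_
      have a1 := congrArg (starRingEnd ℂ) (hft1 ξ)
      have a2 := congrArg (starRingEnd ℂ) (hft2 ξ)
      rw [map_mul, Complex.conj_ofReal, hcos] at a1
      rw [map_mul, map_mul, map_neg, Complex.conj_ofReal, Complex.conj_ofReal, hsin] at a2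
      rw [a1]
      have a3 := hMu ξ
      push_cast at a2 a3 ⊢
      linear_combination (ft g ξ) * a2 - (starRingEnd ℂ (ft χ ξ)) * a3
    · have e1 : ∫ x, g' x * χ x = (∫ x, f x * lap f2 x) + ∫ x, g x * f1 x := by
        rw [← (i0 g' f' χ hg' hf' hχ).2, tadj, hs0.2, inner_add_right,
          (i0 f g (lap f2) hf hg hlf2).1, (i0 g f f1 hg hf hf1).2]
      rw [e1, pars hFt hf hlf2, pars hFt hg hf1, pars hFt hv hχ, ← Complex.add_re,
        ← integral_add (prod_int hFt hf hlf2) (prod_int hFt hg hf1)]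
      congr 1
      refine integral_congr_ae (Eventually.of_forall fun ξ => ?_)
      simp only
      have a1 := congrArg (starRingEnd ℂ) (hft1 ξ)
      have a2 := congrArg (starRingEnd ℂ) (hft2 ξ)
      rw [map_mul, Complex.conj_ofReal, hcos] at a1
      rw [map_mul, map_mul, map_neg, Complex.conj_ofReal, Complex.conj_ofReal, hsin] at a2
      rw [a1, (hFt.2 _ (hFt.1 _ hf2)).2.2.2.2.1 ξ, map_mul, map_neg, Complex.conj_ofReal, hftv ξ]
      push_cast at a2 ⊢
      linear_combination (-(2 * Real.pi * ‖ξ‖ : ℂ) * ft f ξ) * a2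
  have hfu : f' = fun x => u (t, x) := eq_of_pair hf' hu fun χ hχ => (key χ hχ).1
  have hgv : g' = fun x => v (t, x) := eq_of_pair hg' hv fun χ hχ => (key χ hχ).2
  refine ⟨f', g', hf', hg', htau, fun x hx => ?_, fun x n hn => ?_⟩
  · rw [hfu, hgv]
    exact hout x (by linarith)
  · rw [hfu, hgv]
    have hp : 0 < (1 + |t|) ^ (3 / 2 : ℝ) := by positivity
    have h1 := hb1 t _ hu hMu (hsup fun x hx => (hout x hx).1) x n hn
    have h2 := hb2 t _ hv hMv (hsup fun x hx => (hout x hx).2) x n hn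
    refine ⟨h1.trans ?_, h2.trans ?_⟩
    · gcongr
      linarith
    · gcongr
      linarith

end Pool.Agent.QWF
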