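import Pool.Agent.QWF.StM
import Pool.Agent.QWF.Linx

set_option autoImplicit false

/-!
# QWF: auxiliary lemmas for the product block
-/

open MeasureTheory Filter Topology Set
open scoped ENNReal NNReal RealInnerProductSpace ContDiff

namespace Pool.Agent.QWF

namespace Mx

theorem hasDeriv {b : ℝ} (hb : 2 < b) (u : ℝ) : HasDerivAt (Fn b) ((b + 1) * |u| ^ b) u := by
  have h1 := (hasDerivAt_abs_rpow u (p := b) (by linarith)).mul (hasDerivAt_id u)
  have h2 : b * |u| ^ (b - 2) * u * id u + |u| ^ b * 1 = (b + 1) * |u| ^ b := by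
    rcases eq_or_ne u 0 with h | h
    · rw [h]
      simp only [id, mul_zero, zero_add, mul_one, abs_zero]
      rw [Real.zero_rpow (by linarith : b ≠ 0)]
      ring
    · have h3 : |u| ^ b = |u| ^ (b - 2) * u ^ 2 := by
        have h4 : 0 < |u| := abs_pos.2 h
        have h5 : |u| ^ b = |u| ^ (b - 2) * |u| ^ (2 : ℝ) := by
          rw [← Real.rpow_add h4]
          congr 1
          ring
        rw [h5, Real.rpow_two, sq_abs]
      rw [h3]
      simp only [id]
      ring
  rw [h2] at h1
  exact h1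

theorem diff {b : ℝ} (hb : 2 < b) (u w : ℝ) :
    |Fn b u - Fn b w| ≤ (b + 1) * ((|u| + |w|) ^ b * |u - w|) := by
  have h1 : ∀ x ∈ Set.uIcc w u, HasDerivWithinAt (Fn b) ((b + 1) * |x| ^ b) (Set.uIcc w u) x :=
    fun x _ => (hasDeriv hb x).hasDerivWithinAt
  have h2 : ∀ x ∈ Set.uIcc w u, ‖(b + 1) * |x| ^ b‖ ≤ (b + 1) * (|u| + |w|) ^ b := by
    intro x hx
    rw [Real.norm_of_nonneg (mul_nonneg (by linarith) (Real.rpow_nonneg (abs_nonneg x) _))]
    have h3 : |x| ≤ |u| + |w| := by
      rcases le_total w u with h | h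
      · rw [Set.uIcc_of_le h] at hx
        rw [abs_le]
        constructor
        · have := neg_abs_le w
          have := abs_nonneg u
          linarith [hx.1]
        · have := le_abs_self u
          have := abs_nonneg w
          linarith [hx.2]
      · rw [Set.uIcc_of_ge h] at hx
        rw [abs_le]
        constructor
        · have := neg_abs_le u
          have := abs_nonneg w
          linarith [hx.1]
        · have := le_abs_self w
          have := abs_nonneg u
          linarith [hx.2]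
    exact mul_le_mul_of_nonneg_left (Real.rpow_le_rpow (abs_nonneg x) h3 (by linarith))
      (by linarith)
  have h4 := (convex_uIcc w u).norm_image_sub_le_of_norm_hasDerivWithin_le h1 h2
    Set.left_mem_uIcc Set.right_mem_uIcc
  rw [Real.norm_eq_abs, Real.norm_eq_abs] at h4
  linarith

theorem cont_Fn {b : ℝ} (hb : 2 < b) : Continuous (Fn b) :=
  continuous_iff_continuousAt.2 fun u => (hasDeriv hb u).continuousAt

theorem holder {p q r : ℝ} (hp : 0 < p) (hq : 0 < q) (hr : 0 < r) (h : p⁻¹ + q⁻¹ = r⁻¹) :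
    ENNReal.HolderTriple (ENNReal.ofReal p) (ENNReal.ofReal q) (ENNReal.ofReal r) := by
  constructor
  rw [← ENNReal.ofReal_inv_of_pos hp, ← ENNReal.ofReal_inv_of_pos hq,
    ← ENNReal.ofReal_inv_of_pos hr, ← ENNReal.ofReal_add (inv_nonneg.2 hp.le) (inv_nonneg.2 hq.le),
    h]

lemma between {f : E → ℝ} {p q r : ℝ} (hp : 0 < p) (hpr : p ≤ r) (hrq : r ≤ q)
    (h1 : MemLp f (ENNReal.ofReal p) volume) (h2 : MemLp f (ENNReal.ofReal q) volume) :
    MemLp f (ENNReal.ofReal r) volume := by
  have hr : 0 < r := by linarith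
  have hq : 0 < q := by linarith
  have i1 := (integrable_norm_rpow_iff h1.1 (ENNReal.ofReal_pos.2 hp).ne' ENNReal.ofReal_ne_top).2 h1
  have i2 := (integrable_norm_rpow_iff h2.1 (ENNReal.ofReal_pos.2 hq).ne' ENNReal.ofReal_ne_top).2 h2
  refine (integrable_norm_rpow_iff h1.1 (ENNReal.ofReal_pos.2 hr).ne' ENNReal.ofReal_ne_top).1 ?_
  rw [ENNReal.toReal_ofReal hp.le] at i1
  rw [ENNReal.toReal_ofReal hq.le] at i2
  rw [ENNReal.toReal_ofReal hr.le]
  refine (i1.add i2).mono' ?_ (Eventually.of_forall fun x => ?_)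
  · exact (h1.1.aemeasurable.norm.pow_const r).aestronglyMeasurable
  · have h0 := norm_nonneg (f x)
    rw [Real.norm_of_nonneg (Real.rpow_nonneg h0 _)]
    simp only [Pi.add_apply]
    rcases le_total ‖f x‖ 1 with h | h
    · have h3 := Real.rpow_le_rpow_of_exponent_ge' h0 h hp.le hpr
      have h4 := Real.rpow_nonneg h0 q
      linarith
    · have h3 := Real.rpow_le_rpow_of_exponent_le h hrq
      have h4 := Real.rpow_nonneg h0 p
      linarith

lemma s_pos {b : ℝ} (hb : 4 < b) : 0 < sig b := by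
  unfold sig
  have h2 : 2 / b < 1 / 2 := by rw [div_lt_div_iff₀ (by linarith) (by norm_num)]; linarith
  linarith

lemma s_lt {b : ℝ} (hb : 4 < b) : sig b < 1 / 2 := by
  unfold sig
  have h1 : 0 < 2 / b := by positivity
  linarith

lemma s_abs {b : ℝ} (hb : 4 < b) : |sig b| < 1 / 2 := by
  rw [abs_lt]; exact ⟨by linarith [s_pos hb], s_lt hb⟩

lemma q0_sig {b : ℝ} (hb : 2 < b) : q0 (sig b) = ENNReal.ofReal (2 * b) := by
  unfold q0 sig
  congr 1
  have : b ≠ 0 := by linarith
  field_simp
  ring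

lemma q1_sig {b : ℝ} (hb : 2 < b) : q1 (sig b) = ENNReal.ofReal (4 * b / (b + 2)) := by
  unfold q1 sig
  congr 1
  have h1 : b ≠ 0 := by linarith
  have h2 : b + 2 ≠ 0 := by linarith
  have h3 : (3 - 2 * (1 / 2 - 2 / b)) = 2 * (b + 2) / b := by
    field_simp
    ring
  rw [h3]
  field_simp
  ring

lemma q2_sig {b : ℝ} (hb : 2 < b) : q2 (sig b) = ENNReal.ofReal (2 * b / (b + 1)) := by
  unfold q2 sig
  congr 1
  have h1 : b ≠ 0 := by linarith
  have h2 : b + 1 ≠ 0 := by linarith
  have h3 : (5 - 2 * (1 / 2 - 2 / b)) = 4 * (b + 1) / b := by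
    field_simp
    ring
  rw [h3]
  field_simp
  ring

end Mx

end Pool.Agent.QWF
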