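import Pool.Agent.QWF.ApW
import Pool.Agent.QWF.Mx

set_option autoImplicit false

/-!
# QWF, module DenX: test states are dense also for `sn`
-/

open MeasureTheory Filter Topology Set
open scoped ENNReal NNReal RealInnerProductSpace ContDiff

namespace Pool.Agent.QWF

namespace DenXx

open Moll ApWx

theorem fub {F : E → ℝ} {g : E × E → ℝ} (hF : LocallyIntegrable F volume) (hg : Continuous g) {R : ℝ}
    (hR : ∀ t x, g (t, x) ≠ 0 → ‖t‖ ≤ R ∧ ‖x‖ ≤ R) :
    ∫ x, ∫ t, F t * g (t, x) = ∫ t, F t * ∫ x, g (t, x) := by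
  have hK : HasCompactSupport g := by
    refine HasCompactSupport.intro ((isCompact_closedBall (0 : E) R).prod
      (isCompact_closedBall (0 : E) R)) ?_
    rintro ⟨t, x⟩ h
    by_contra h0
    exact h ⟨by simpa using (hR t x h0).1, by simpa using (hR t x h0).2⟩
  obtain ⟨M, hM⟩ := hK.exists_bound_of_continuous hg
  have hM0 : 0 ≤ M := (norm_nonneg _).trans (hM 0)
  have i1 : Integrable ((Metric.closedBall (0 : E) R).indicator F) volume :=
    (integrable_indicator_iff measurableSet_closedBall).2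
      (hF.integrableOn_isCompact (isCompact_closedBall 0 R))
  have i2 : Integrable ((Metric.closedBall (0 : E) R).indicator fun _ => M) volume :=
    (integrable_indicator_iff measurableSet_closedBall).2
      (continuous_const.continuousOn.integrableOn_compact (isCompact_closedBall 0 R))
  have i3 : Integrable (fun z : E × E => F z.1 * g z) (volume.prod volume) := by
    refine (i1.mul_prod i2).mono ?_ ?_
    · exact (hF.aestronglyMeasurable.comp_quasiMeasurePreserving
        Measure.quasiMeasurePreserving_fst).mul hg.aestronglyMeasurable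
    · refine Eventually.of_forall fun z => ?_
      by_cases h0 : g z = 0
      · rw [h0, mul_zero, norm_zero]; exact norm_nonneg _
      · have h1 := hR z.1 z.2 h0
        rw [indicator_of_mem (by simpa using h1.1), indicator_of_mem (by simpa using h1.2), norm_mul,
          norm_mul, Real.norm_of_nonneg hM0]
        gcongr
        exact hM z
  have i4 : Integrable (Function.uncurry fun (x t : E) => F t * g (t, x)) (volume.prod volume) :=
    i3.swap
  rw [integral_integral_swap i4]
  refine integral_congr_ae (Eventually.of_forall fun t => ?_)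
  exact integral_const_mul _ _


/-- the mollified state -/
noncomputable def ms (ρ : E → ℝ) (k : K) : K := ∫ z, ρ z • sh z k

theorem ms_tendsto (hG1 : St_Grp1) (k : K) :
    Tendsto (fun n => ms (ph n) k) atTop (𝓝 k) := by
  have hsh : Continuous fun y => sh y k := hG1.2.2.2.2.2.2.2.2 k
  have hr : Tendsto (fun n => (bp n).rOut) atTop (𝓝 0) := tendsto_one_div_add_atTop_nhds_zero_nat
  have h1 := ContDiffBump.convolution_tendsto_right_of_continuous (μ := (volume : Measure E))
    (φ := bp) (l := atTop) hr (g := fun z : E => sh (-z) k) (hsh.comp continuous_neg) 0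
  have h2 : sh (-(0 : E)) k = k := by
    rw [neg_zero]
    exact hG1.2.2.2.1 k
  rw [h2] at h1
  refine h1.congr fun n => ?_
  rw [convolution_def]
  unfold ms ph
  refine integral_congr_ae (Eventually.of_forall fun z => ?_)
  simp only [ContinuousLinearMap.lsmul_apply, zero_sub, neg_neg]

theorem ms_inner (hG1 : St_Grp1) {ρ : E → ℝ} (hρ : IsTest ρ) (k w : K) :
    inner ℝ (ms ρ k) w = ∫ t, ρ t * inner ℝ (sh t k) w := by
  have hsh : Continuous fun y => sh y k := hG1.2.2.2.2.2.2.2.2 k
  have hint : Integrable (fun t => ρ t • sh t k) volume :=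
    (hρ.1.continuous.smul hsh).integrable_of_hasCompactSupport hρ.2.smul_right
  unfold ms
  rw [real_inner_comm, ← integral_inner hint]
  congr 1; ext t
  rw [inner_smul_right, real_inner_comm]

/-- Fubini for the mollified field -/
theorem fub2 {ρ φ w : E → ℝ} (hρ : IsTest ρ) (hφ : IsTest φ) (hw : LocallyIntegrable w volume) :
    ∫ t, ρ t * ∫ x, w x * φ (x + t) = ∫ x, mc ρ w x * φ x := by
  obtain ⟨R1, hR1⟩ := hρ.2.isCompact.isBounded.subset_closedBall (0 : E)
  obtain ⟨R2, hR2⟩ := hφ.2.isCompact.isBounded.subset_closedBall (0 : E)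
  have b1 : ∀ x, ρ x ≠ 0 → ‖x‖ ≤ |R1| := by
    intro x hx
    have h := hR1 (subset_tsupport _ hx)
    rw [mem_closedBall_zero_iff] at h
    exact h.trans (le_abs_self _)
  have b2 : ∀ x, φ x ≠ 0 → ‖x‖ ≤ |R2| := by
    intro x hx
    have h := hR2 (subset_tsupport _ hx)
    rw [mem_closedBall_zero_iff] at h
    exact h.trans (le_abs_self _)
  have h1 : ∫ t, ∫ x, w x * (ρ t * φ (x + t)) = ∫ x, w x * ∫ t, ρ t * φ (x + t) := by
    refine DenXx.fub (g := fun z : E × E => ρ z.2 * φ (z.1 + z.2)) (R := |R1| + |R2|)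
      hw ?_ ?_
    · exact (hρ.1.continuous.comp continuous_snd).mul
        (hφ.1.continuous.comp (continuous_fst.add continuous_snd))
    · intro x t h
      have h2 := b1 t (left_ne_zero_of_mul h)
      have h3 := b2 (x + t) (right_ne_zero_of_mul h)
      have h4 : ‖x‖ ≤ ‖x + t‖ + ‖t‖ := by
        have := norm_sub_le (x + t) t
        rwa [add_sub_cancel_right] at this
      refine ⟨by linarith, h2.trans (le_add_of_nonneg_right (abs_nonneg _))⟩
  have h2 : ∫ x, ∫ y, w y * (ρ (x - y) * φ x) = ∫ y, w y * ∫ x, ρ (x - y) * φ x := by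
    refine DenXx.fub (g := fun z : E × E => ρ (z.2 - z.1) * φ z.2) (R := |R1| + |R2|)
      hw ?_ ?_
    · exact (hρ.1.continuous.comp (continuous_snd.sub continuous_fst)).mul
        (hφ.1.continuous.comp continuous_snd)
    · intro y x h
      have h2 := b1 (x - y) (left_ne_zero_of_mul h)
      have h3 := b2 x (right_ne_zero_of_mul h)
      have h4 : ‖y‖ ≤ ‖x‖ + ‖x - y‖ := by
        have := norm_sub_le x (x - y)
        rwa [sub_sub_cancel] at this
      refine ⟨by linarith, h3.trans (le_add_of_nonneg_left (abs_nonneg _))⟩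
  have e1 : ∫ t, ρ t * ∫ x, w x * φ (x + t) = ∫ t, ∫ x, w x * (ρ t * φ (x + t)) := by
    refine integral_congr_ae (Eventually.of_forall fun t => ?_)
    simp only
    rw [← integral_const_mul]
    refine integral_congr_ae (Eventually.of_forall fun x => ?_)
    simp only
    ring
  have e2 : ∫ x, mc ρ w x * φ x = ∫ x, ∫ y, w y * (ρ (x - y) * φ x) := by
    refine integral_congr_ae (Eventually.of_forall fun x => ?_)
    simp only
    rw [mc_apply', ← integral_mul_const]
    refine integral_congr_ae (Eventually.of_forall fun y => ?_)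
    simp only
    ring
  rw [e1, e2, h1, h2]
  refine integral_congr_ae (Eventually.of_forall fun y => ?_)
  simp only
  congr 1
  rw [← integral_sub_right_eq_self (fun t => ρ t * φ (y + t)) y]
  refine integral_congr_ae (Eventually.of_forall fun x => ?_)
  simp only
  rw [add_sub_cancel]

/-- fields of the mollified state -/
theorem ms_fields (hG1 : St_Grp1) (hG2 : St_Grp2) {s : ℝ}
    (hs : |s| < 1 / 2) (hF : St_FldP) (hA : St_ActP) {ρ : E → ℝ} (hρ : IsTest ρ) (k : K) :
    (U s (ms ρ k) =ᵐ[volume] mc ρ (U s k)) ∧ (V s (ms ρ k) =ᵐ[volume] mc ρ (V s k)) := by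
  obtain ⟨C', -, hF', -⟩ := hF s hs
  obtain ⟨hs1, hs2⟩ := abs_lt.1 hs
  have hq0 : (1 : ℝ≥0∞) ≤ q0 s := by
    unfold q0
    rw [← ENNReal.ofReal_one]
    apply ENNReal.ofReal_le_ofReal
    rw [le_div_iff₀ (by linarith)]
    linarith
  have hq1 : (1 : ℝ≥0∞) ≤ q1 s := by
    unfold q1
    rw [← ENNReal.ofReal_one]
    apply ENNReal.ofReal_le_ofReal
    rw [le_div_iff₀ (by linarith)]
    linarith
  have lU : ∀ k : K, LocallyIntegrable (U s k) volume := fun k =>
    (hF' k).1.1.locallyIntegrable hq0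
  have lV : ∀ k : K, LocallyIntegrable (V s k) volume := fun k =>
    (hF' k).2.2.1.1.locallyIntegrable hq1
  have hgr : ∀ t, gr t 0 k = sh t k := by
    intro t
    rw [gr, hG2.2.1]
  have hAU : ∀ t, U s (sh t k) =ᵐ[volume] fun x => U s k (x - t) := by
    intro t
    have h3 := ((hA s hs).1 t 0 k).1
    rw [hgr] at h3
    simpa using h3
  have hAV : ∀ t, V s (sh t k) =ᵐ[volume] fun x => V s k (x - t) := by
    intro t
    have h3 := ((hA s hs).1 t 0 k).2.1
    rw [hgr] at h3
    simpa using h3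
  constructor
  · refine Linx.ae_uniq (lU _) (mc_smooth hρ (lU k)).continuous.locallyIntegrable ?_
    intro φ hφ
    rw [(hF' (ms ρ k)).1.2 φ hφ, ms_inner hG1 hρ, ← fub2 hρ hφ (lU k)]
    refine integral_congr_ae (Eventually.of_forall fun t => ?_)
    simp only
    congr 1
    rw [← (hF' (sh t k)).1.2 φ hφ, ← integral_sub_right_eq_self (fun x => U s k x * φ (x + t)) t]
    refine integral_congr_ae ?_
    filter_upwards [hAU t] with x hx
    rw [hx, sub_add_cancel]
  · refine Linx.ae_uniq (lV _) (mc_smooth hρ (lV k)).continuous.locallyIntegrable ?_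
    intro φ hφ
    rw [(hF' (ms ρ k)).2.2.1.2 φ hφ, ms_inner hG1 hρ, ← fub2 hρ hφ (lV k)]
    refine integral_congr_ae (Eventually.of_forall fun t => ?_)
    simp only
    congr 1
    rw [← (hF' (sh t k)).2.2.1.2 φ hφ, ← integral_sub_right_eq_self (fun x => V s k x * φ (x + t)) t]
    refine integral_congr_ae ?_
    filter_upwards [hAV t] with x hx
    rw [hx, sub_add_cancel]

/-- the fields determine the state -/
theorem eq_of_fields {s : ℝ} (hs : |s| < 1 / 2) (hD : St_DnsP) (hF : St_FldP) {k k' : K}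
    (hU : U s k =ᵐ[volume] U s k') (hV : V s k =ᵐ[volume] V s k') : k = k' := by
  obtain ⟨C', -, hF', -⟩ := hF s hs
  rw [← sub_eq_zero]
  have hle : TS s univ ≤ (Submodule.span ℝ {k - k'})ᗮ := by
    apply Submodule.topologicalClosure_minimal _ _ (Submodule.isClosed_orthogonal _)
    rw [Submodule.span_le]
    rintro w ⟨φ, hφ, -, hw⟩
    rw [SetLike.mem_coe, Submodule.mem_orthogonal_singleton_iff_inner_right]
    rcases hw with rfl | rfl
    · rw [inner_sub_left, ← (hF' k).1.2 φ hφ, ← (hF' k').1.2 φ hφ, sub_eq_zero]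
      refine integral_congr_ae ?_
      filter_upwards [hU] with x hx
      rw [hx]
    · rw [inner_sub_left, ← (hF' k).2.2.1.2 φ hφ, ← (hF' k').2.2.1.2 φ hφ, sub_eq_zero]
      refine integral_congr_ae ?_
      filter_upwards [hV] with x hx
      rw [hx]
  rw [(hD s (by linarith [(abs_lt.1 hs).1]) (abs_lt.1 hs).2).1] at hle
  have := hle (Submodule.mem_top (x := k - k'))
  rw [Submodule.mem_orthogonal_singleton_iff_inner_right] at this
  exact inner_self_eq_zero.1 this

end DenXx

open DenXx Moll ApWx in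
theorem thm_DenX (hG1 : St_Grp1) (hG2 : St_Grp2) (hD : St_DnsP)
    (hF : St_FldP) (hA : St_ActP) (hC : St_CutP) : St_DenX := by
  intro b k ε hb hk hε
  have hs := Mx.s_abs hb
  obtain ⟨hs1, hs2⟩ := abs_lt.1 hs
  obtain ⟨C', -, hF', hlin, htest⟩ := hF (sig b) hs
  obtain ⟨C, X, -, -, -, hX, hXχ⟩ := hC (sig b) hs
  have hp : (1 : ℝ≥0∞) ≤ ENNReal.ofReal (4 * b) := by
    rw [← ENNReal.ofReal_one]
    exact ENNReal.ofReal_le_ofReal (by linarith)
  have hpt : ENNReal.ofReal (4 * b) ≠ ⊤ := ENNReal.ofReal_ne_top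
  have hw : MemLp (U (sig b) k) (ENNReal.ofReal (4 * b)) volume := ⟨(hF' k).1.1.1, hk⟩
  have hwl : LocallyIntegrable (U (sig b) k) volume := hw.locallyIntegrable hp
  have hq1 : (1 : ℝ≥0∞) ≤ q1 (sig b) := by
    unfold q1
    rw [← ENNReal.ofReal_one]
    apply ENNReal.ofReal_le_ofReal
    rw [le_div_iff₀ (by linarith)]
    linarith
  have hvl : LocallyIntegrable (V (sig b) k) volume := (hF' k).2.2.1.1.locallyIntegrable hq1
  have hε2 : (0 : ℝ≥0∞) < ENNReal.ofReal (ε / 2) := ENNReal.ofReal_pos.2 (by linarith)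
  -- mollification
  have hz1 := mw_sub hp hpt hw
  obtain ⟨n, hn1, hn2⟩ : ∃ n : ℕ, ‖k - ms (ph n) k‖ < ε / 2 ∧
      eLpNorm (fun x => mw (U (sig b) k) n x - U (sig b) k x) (ENNReal.ofReal (4 * b)) volume <
        ENNReal.ofReal (ε / 2) := by
    have h1 : ∀ᶠ n in atTop, ‖k - ms (ph n) k‖ < ε / 2 := by
      have := (ms_tendsto hG1 k)
      rw [Metric.tendsto_nhds] at this
      filter_upwards [this (ε / 2) (by linarith)] with n hn
      rwa [dist_comm, dist_eq_norm] at hn
    have h2 := hz1.2.eventually (gt_mem_nhds hε2)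
    exact (h1.and h2).exists
  have hm1 : MemLp (mw (U (sig b) k) n) (ENNReal.ofReal (4 * b)) volume := by
    have h1 : MemLp (fun x => mw (U (sig b) k) n x - U (sig b) k x) (ENNReal.ofReal (4 * b)) volume :=
      ⟨hz1.1 n, hn2.trans ENNReal.ofReal_lt_top⟩
    have h2 := h1.add hw
    refine h2.ae_eq (Eventually.of_forall fun x => ?_)
    simp
  obtain ⟨fU, fV⟩ := ms_fields hG1 hG2 hs hF hA (ph_test n) k
  -- cut-off
  choose χ hχt hχb hχ1 hχf using hXχ
  have hz2 : Z (ENNReal.ofReal (4 * b)) (fun M x => (χ M x - 1) * mw (U (sig b) k) n x) := by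
    refine Z.dom hp hpt (B := 2) (fun M => (test_meas (hχt M)).sub aestronglyMeasurable_const) hm1
      (fun M x => ?_) fun x => ?_
    · have := hχb M x
      rw [abs_le]
      constructor <;> linarith
    · filter_upwards [chi_ev x] with M hM
      rw [hχ1 M x (by linarith), sub_self]
  obtain ⟨M, hM1, hM2⟩ : ∃ M : ℕ, ‖ms (ph n) k - X M (ms (ph n) k)‖ < ε / 2 ∧
      eLpNorm (fun x => (χ M x - 1) * mw (U (sig b) k) n x) (ENNReal.ofReal (4 * b)) volume <
        ENNReal.ofReal (ε / 2) := by
    have h1 : ∀ᶠ M in atTop, ‖ms (ph n) k - X M (ms (ph n) k)‖ < ε / 2 := by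
      have := hX (ms (ph n) k)
      rw [Metric.tendsto_nhds] at this
      filter_upwards [this (ε / 2) (by linarith)] with M hM
      rwa [dist_comm, dist_eq_norm] at hM
    have h2 := hz2.2.eventually (gt_mem_nhds hε2)
    exact (h1.and h2).exists
  have hft : IsTest (fun x => χ M x * mc (ph n) (U (sig b) k) x) :=
    test_mul (hχt M) (mc_smooth (ph_test n) hwl)
  have hgt : IsTest (fun x => χ M x * mc (ph n) (V (sig b) k) x) :=
    test_mul (hχt M) (mc_smooth (ph_test n) hvl)
  obtain ⟨tU, tV, -⟩ := htest _ _ hft hgt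
  have heq : X M (ms (ph n) k) = Theta (sig b) (fun x => χ M x * mc (ph n) (U (sig b) k) x)
      (fun x => χ M x * mc (ph n) (V (sig b) k) x) := by
    refine eq_of_fields hs hD hF ?_ ?_
    · filter_upwards [(hχf M (ms (ph n) k)).1, fU, tU] with x h1 h2 h3
      rw [h1, h2, h3]
    · filter_upwards [(hχf M (ms (ph n) k)).2, fV, tV] with x h1 h2 h3
      rw [h1, h2, h3]
  refine ⟨_, _, hft, hgt, ?_, ?_⟩
  · rw [← heq]
    calc ‖k - X M (ms (ph n) k)‖ = ‖(k - ms (ph n) k) + (ms (ph n) k - X M (ms (ph n) k))‖ := by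
          rw [sub_add_sub_cancel]
      _ ≤ ‖k - ms (ph n) k‖ + ‖ms (ph n) k - X M (ms (ph n) k)‖ := norm_add_le _ _
      _ < ε := by linarith
  · have h1 := (hlin (-1) k (Theta (sig b) (fun x => χ M x * mc (ph n) (U (sig b) k) x)
      (fun x => χ M x * mc (ph n) (V (sig b) k) x))).1
    rw [neg_one_smul, ← sub_eq_add_neg] at h1
    unfold sn
    have h2 : U (sig b) (k - Theta (sig b) (fun x => χ M x * mc (ph n) (U (sig b) k) x)
        (fun x => χ M x * mc (ph n) (V (sig b) k) x)) =ᵐ[volume]
        fun x => -((mw (U (sig b) k) n x - U (sig b) k x) + (χ M x - 1) * mw (U (sig b) k) n x) := by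
      filter_upwards [h1, tU] with x h3 h4
      rw [h3, h4]
      unfold mw
      ring
    rw [eLpNorm_congr_ae h2]
    have h3 : eLpNorm (fun x => -((mw (U (sig b) k) n x - U (sig b) k x) +
        (χ M x - 1) * mw (U (sig b) k) n x)) (ENNReal.ofReal (4 * b)) volume =
        eLpNorm ((fun x => mw (U (sig b) k) n x - U (sig b) k x) +
          fun x => (χ M x - 1) * mw (U (sig b) k) n x) (ENNReal.ofReal (4 * b)) volume :=
      eLpNorm_neg _ _ _
    rw [h3]
    refine (eLpNorm_add_le (hz1.1 n) (hz2.1 M) hp).trans_lt ?_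
    refine (ENNReal.add_lt_add hn2 hM2).trans_le (le_of_eq ?_)
    rw [← ENNReal.ofReal_add (by linarith) (by linarith), add_halves]

end Pool.Agent.QWF
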