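import Pool.Agent.QWF.Ft

/-!
# QWF, DnsP: density of the test states (port of QWP.DnsP; helper9)
-/

set_option autoImplicit false

open MeasureTheory Filter Topology Set
open scoped ENNReal NNReal RealInnerProductSpace Pointwise FourierTransform SchwartzMap LineDeriv
  ContDiff

namespace Pool.Agent.QWF

open Ftx (sch_pd sch_lap exists_cx)

namespace DnsPx

/-! ### Schwartz functions and test functions -/

theorem sch_smE {φ : E → ℝ} (h : IsSch φ) : SmE φ := by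
  obtain ⟨f, hf⟩ := h
  have he : φ = f := by
    funext x
    exact (hf x).symm
  rw [he]
  exact f.smooth ⊤

theorem test_sch {φ : E → ℝ} (h : IsTest φ) : IsSch φ :=
  ⟨h.2.toSchwartzMap h.1, fun _ => rfl⟩

theorem sch_diff {φ : E → ℝ} (h : IsSch φ) : Differentiable ℝ φ := by
  obtain ⟨f, hf⟩ := h
  have he : φ = f := by
    funext x
    exact (hf x).symm
  rw [he]
  exact f.differentiable

theorem sch_lineDeriv {φ : E → ℝ} (h : IsSch φ) (v : E) : IsSch (fun x => fderiv ℝ φ x v) := by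
  obtain ⟨f, hf⟩ := h
  have he : φ = f := by
    funext x
    exact (hf x).symm
  refine ⟨∂_{v} f, fun x => ?_⟩
  rw [he]
  rfl

theorem sch_int {φ : E → ℝ} (h : IsSch φ) : Integrable φ := by
  obtain ⟨f, hf⟩ := h
  have he : φ = f := by
    funext x
    exact (hf x).symm
  rw [he]
  exact f.integrable

theorem sch_lin {φ ψ : E → ℝ} (hφ : IsSch φ) (hψ : IsSch ψ) (c : ℝ) :
    IsSch (fun x => φ x + c * ψ x) := by
  obtain ⟨f, hf⟩ := hφ
  obtain ⟨g, hg⟩ := hψ
  refine ⟨f + c • g, fun x => ?_⟩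
  show f x + c * g x = φ x + c * ψ x
  rw [hf, hg]

theorem test_lin {φ ψ : E → ℝ} (hφ : IsTest φ) (hψ : IsTest ψ) (c : ℝ) :
    IsTest (fun x => φ x + c * ψ x) :=
  ⟨hφ.1.add (contDiff_const.mul hψ.1), hφ.2.add (hψ.2.mul_left)⟩

theorem test_pd {φ : E → ℝ} (h : IsTest φ) (i : Fin 4) : IsTest (pd i φ) := by
  refine ⟨?_, ?_⟩
  · have h1 : ContDiff ℝ ∞ (fderiv ℝ φ) := h.1.fderiv_right (by exact_mod_cast le_top)
    exact h1.clm_apply contDiff_const
  · exact h.2.fderiv_apply (𝕜 := ℝ) (EuclideanSpace.single i (1 : ℝ))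

theorem test_lap {φ : E → ℝ} (h : IsTest φ) : IsTest (lap φ) := by
  refine ⟨?_, ?_⟩
  · show ContDiff ℝ ∞ fun x => ∑ i, pd i (pd i φ) x
    exact ContDiff.sum fun i _ => (test_pd (test_pd h i) i).1
  · have h1 : ∀ s : Finset (Fin 4), HasCompactSupport fun x => ∑ i ∈ s, pd i (pd i φ) x := by
      intro s
      classical
      induction s using Finset.induction_on with
      | empty =>
        simp only [Finset.sum_empty]
        exact HasCompactSupport.zero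
      | insert a s ha ih =>
        simp only [Finset.sum_insert ha]
        exact (test_pd (test_pd h a) a).2.add ih
    exact h1 Finset.univ

/-! ### Linearity -/

theorem pd_lin {φ ψ : E → ℝ} (hφ : IsSch φ) (hψ : IsSch ψ) (c : ℝ) (i : Fin 4) :
    pd i (fun x => φ x + c * ψ x) = fun x => pd i φ x + c * pd i ψ x := by
  funext x
  have h1 : HasFDerivAt (fun x => φ x + c * ψ x) (fderiv ℝ φ x + c • fderiv ℝ ψ x) x :=
    ((sch_diff hφ) x).hasFDerivAt.add (((sch_diff hψ) x).hasFDerivAt.const_mul c)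
  unfold pd
  rw [h1.fderiv]
  rfl

theorem lap_lin {φ ψ : E → ℝ} (hφ : IsSch φ) (hψ : IsSch ψ) (c : ℝ) :
    lap (fun x => φ x + c * ψ x) = fun x => lap φ x + c * lap ψ x := by
  funext x
  unfold lap
  rw [Finset.mul_sum, ← Finset.sum_add_distrib]
  refine Finset.sum_congr rfl fun i _ => ?_
  rw [pd_lin hφ hψ c i, pd_lin (sch_pd hφ i) (sch_pd hψ i) c i]

/-! ### Cut-off -/

/-- sequences of smooth functions with uniformly bounded derivatives -/
def UB (u : ℕ → E → ℝ) : Prop := (∀ n, SmE (u n)) ∧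
  ∀ m : ℕ, ∃ C : ℝ, ∀ n x, ‖iteratedFDeriv ℝ m (u n) x‖ ≤ C

theorem UB_mul {u v : ℕ → E → ℝ} (hu : UB u) (hv : UB v) : UB fun n x => u n x * v n x := by
  refine ⟨fun n => (hu.1 n).mul (hv.1 n), fun m => ?_⟩
  choose C hC using hu.2
  choose D hD using hv.2
  refine ⟨∑ i ∈ Finset.range (m + 1), (m.choose i : ℝ) * C i * D (m - i), fun n x => ?_⟩
  refine (norm_iteratedFDeriv_mul_le (N := ((⊤ : ℕ∞) : WithTop ℕ∞)) (hu.1 n) (hv.1 n) x
    (by exact_mod_cast le_top)).trans ?_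
  refine Finset.sum_le_sum fun i _ => ?_
  have h1 := hC i n x
  have h2 := hD (m - i) n x
  have h3 : 0 ≤ C i := (norm_nonneg _).trans h1
  gcongr

theorem UB_pd {u : ℕ → E → ℝ} (hu : UB u) (i : Fin 4) : UB fun n => pd i (u n) := by
  have hs : ∀ n, ContDiff ℝ ((⊤ : ℕ∞) : WithTop ℕ∞) (fderiv ℝ (u n)) := fun n =>
    (hu.1 n).fderiv_right (by exact_mod_cast le_top)
  refine ⟨fun n => (hs n).clm_apply contDiff_const, fun m => ?_⟩
  obtain ⟨C, hC⟩ := hu.2 (m + 1)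
  refine ⟨‖(EuclideanSpace.single i (1 : ℝ) : E)‖ * C, fun n x => ?_⟩
  refine (norm_iteratedFDeriv_clm_apply_const (N := ((⊤ : ℕ∞) : WithTop ℕ∞))
    (hs n).contDiffAt (by exact_mod_cast le_top)).trans ?_
  rw [norm_iteratedFDeriv_fderiv]
  exact mul_le_mul_of_nonneg_left (hC n x) (norm_nonneg _)

theorem UB_lap {u : ℕ → E → ℝ} (hu : UB u) : UB fun n => lap (u n) := by
  have h1 : ∀ i, UB fun n => pd i (pd i (u n)) := fun i => UB_pd (UB_pd hu i) i
  refine ⟨fun n => ContDiff.sum fun i _ => (h1 i).1 n, fun m => ?_⟩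
  choose C hC using fun i => (h1 i).2 m
  refine ⟨∑ i, C i, fun n x => ?_⟩
  have h2 : iteratedFDeriv ℝ m (lap (u n)) x = ∑ i, iteratedFDeriv ℝ m (pd i (pd i (u n))) x :=
    iteratedFDeriv_fun_sum_apply fun i _ =>
      (((h1 i).1 n).of_le (by exact_mod_cast le_top)).contDiffAt
  rw [h2]
  exact (norm_sum_le _ _).trans (Finset.sum_le_sum fun i _ => hC i n x)

theorem UB_bound {u : ℕ → E → ℝ} (hu : UB u) : ∃ C : ℝ, ∀ n x, |u n x| ≤ C := by
  obtain ⟨C, hC⟩ := hu.2 0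
  refine ⟨C, fun n x => ?_⟩
  have h1 := hC n x
  rwa [norm_iteratedFDeriv_zero] at h1

/-- the bump function -/
noncomputable def bmp : ContDiffBump (0 : E) := ⟨1, 2, one_pos, one_lt_two⟩

/-- the cut-off functions -/
noncomputable def chi (n : ℕ) (x : E) : ℝ := bmp (((n : ℝ) + 1)⁻¹ • x)

theorem UB_chi : UB chi := by
  refine ⟨fun n => bmp.contDiff.comp (contDiff_const_smul _), fun m => ?_⟩
  have hc : HasCompactSupport (iteratedFDeriv ℝ m (bmp : E → ℝ)) :=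
    bmp.hasCompactSupport.iteratedFDeriv m
  have hcont : Continuous (iteratedFDeriv ℝ m (bmp : E → ℝ)) :=
    (bmp.contDiff (n := (m : ℕ∞))).continuous_iteratedFDeriv le_rfl
  obtain ⟨C, hC⟩ := hcont.bounded_above_of_compact_support hc
  refine ⟨C, fun n x => ?_⟩
  have h1 : iteratedFDeriv ℝ m (chi n) x =
      (((n : ℝ) + 1)⁻¹) ^ m • iteratedFDeriv ℝ m (bmp : E → ℝ) (((n : ℝ) + 1)⁻¹ • x) := by
    have h2 := iteratedFDeriv_comp_const_smul (𝕜 := ℝ) (f := (bmp : E → ℝ)) (i := m)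
      (((n : ℝ) + 1)⁻¹) bmp.contDiff
    exact congrFun h2 x
  rw [h1, norm_smul]
  have h3 : ‖(((n : ℝ) + 1)⁻¹) ^ m‖ ≤ 1 := by
    rw [norm_pow]
    apply pow_le_one₀ (norm_nonneg _)
    rw [norm_inv]
    apply inv_le_one_of_one_le₀
    rw [Real.norm_of_nonneg (by positivity)]
    have : (0 : ℝ) ≤ n := by positivity
    linarith
  calc ‖(((n : ℝ) + 1)⁻¹) ^ m‖ * ‖iteratedFDeriv ℝ m (bmp : E → ℝ) (((n : ℝ) + 1)⁻¹ • x)‖
      ≤ 1 * C := mul_le_mul h3 (hC _) (norm_nonneg _) zero_le_one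
    _ = C := one_mul C

theorem UB_sch {f : E → ℝ} (hf : IsSch f) : UB fun _ => f := by
  refine ⟨fun _ => sch_smE hf, fun m => ?_⟩
  obtain ⟨g, hg⟩ := hf
  have he : f = g := by
    funext x
    exact (hg x).symm
  obtain ⟨C, hC⟩ := g.decay 0 m
  refine ⟨C, fun _ x => ?_⟩
  have h1 := hC.2 x
  rw [pow_zero, one_mul] at h1
  rw [he]
  exact h1

/-- the cut-off Schwartz function -/
noncomputable def cut (f : E → ℝ) (n : ℕ) (x : E) : ℝ := chi n x * f x

theorem chi_nonneg (n : ℕ) (x : E) : 0 ≤ chi n x := bmp.nonneg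

theorem chi_le_one (n : ℕ) (x : E) : chi n x ≤ 1 := bmp.le_one

theorem chi_one (n : ℕ) (x : E) (hx : ‖x‖ ≤ n + 1) : chi n x = 1 := by
  apply bmp.one_of_mem_closedBall
  rw [mem_closedBall_zero_iff, norm_smul, norm_inv, Real.norm_of_nonneg (by positivity)]
  show ((n : ℝ) + 1)⁻¹ * ‖x‖ ≤ 1
  rw [inv_mul_le_iff₀ (by positivity), mul_one]
  exact hx

theorem cut_test {f : E → ℝ} (hf : IsSch f) (n : ℕ) : IsTest (cut f n) := by
  refine ⟨(UB_chi.1 n).mul (sch_smE hf), ?_⟩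
  apply HasCompactSupport.mul_right
  refine HasCompactSupport.intro (isCompact_closedBall (0 : E) (2 * ((n : ℝ) + 1))) fun x hx => ?_
  rw [mem_closedBall_zero_iff, not_le] at hx
  have h1 : ((n : ℝ) + 1)⁻¹ • x ∉ Function.support (bmp : E → ℝ) := by
    rw [bmp.support_eq, mem_ball_zero_iff, norm_smul, norm_inv,
      Real.norm_of_nonneg (by positivity), not_lt]
    show (2 : ℝ) ≤ ((n : ℝ) + 1)⁻¹ * ‖x‖
    rw [le_inv_mul_iff₀ (by positivity)]
    linarith
  exact Function.notMem_support.1 h1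

theorem cut_le (f : E → ℝ) (n : ℕ) (x : E) : |cut f n x| ≤ |f x| := by
  unfold cut
  rw [abs_mul, abs_of_nonneg (chi_nonneg n x)]
  exact mul_le_of_le_one_left (abs_nonneg _) (chi_le_one n x)

theorem UB_cut {f : E → ℝ} (hf : IsSch f) : UB (cut f) := UB_mul UB_chi (UB_sch hf)

theorem cut_ev (f : E → ℝ) (x : E) : ∀ᶠ n in atTop, cut f n =ᶠ[𝓝 x] f := by
  obtain ⟨N, hN⟩ := exists_nat_gt ‖x‖
  filter_upwards [eventually_ge_atTop N] with n hn
  have h1 : Metric.ball x 1 ∈ 𝓝 x := Metric.ball_mem_nhds x one_pos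
  filter_upwards [h1] with y hy
  unfold cut
  rw [chi_one n y, one_mul]
  have h2 : ‖y‖ ≤ ‖x‖ + 1 := by
    have h3 : ‖y - x‖ < 1 := by rwa [mem_ball_iff_norm] at hy
    have h4 : ‖y‖ ≤ ‖y - x‖ + ‖x‖ := by
      have := norm_add_le (y - x) x
      rwa [sub_add_cancel] at this
    linarith
  have h5 : (N : ℝ) ≤ n := by exact_mod_cast hn
  linarith

theorem pd_ev {u v : E → ℝ} {x : E} (h : u =ᶠ[𝓝 x] v) (i : Fin 4) : pd i u =ᶠ[𝓝 x] pd i v := by
  filter_upwards [h.fderiv (𝕜 := ℝ)] with y hy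
  unfold pd
  rw [hy]

theorem lap_ev {u v : E → ℝ} {x : E} (h : u =ᶠ[𝓝 x] v) : lap u =ᶠ[𝓝 x] lap v := by
  have h1 : ∀ᶠ y in 𝓝 x, ∀ i, pd i (pd i u) y = pd i (pd i v) y :=
    eventually_all.2 fun i => pd_ev (pd_ev h i) i
  filter_upwards [h1] with y hy
  exact Finset.sum_congr rfl fun i _ => hy i

theorem ft_smooth {ψ : E → ℝ} (h : IsSch ψ) : ContDiff ℝ ((⊤ : ℕ∞) : WithTop ℕ∞) (ft ψ) := by
  obtain ⟨f, hf⟩ := exists_cx h
  have e : ft ψ = (𝓕 f : 𝓢(E, ℂ)) := by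
    funext ξ
    rw [SchwartzMap.fourier_coe, Real.fourier_eq']
    unfold ft
    apply integral_congr_ae
    filter_upwards with x
    simp only [smul_eq_mul, hf]
    rw [mul_comm]
    congr 2
    push_cast
    ring
  rw [e]
  exact (𝓕 f : 𝓢(E, ℂ)).smooth ⊤

theorem J0_congr {a : ℝ} {φ ψ : E → ℝ} (h : ft φ = ft ψ) : J0 a φ = J0 a ψ := by
  unfold J0 J0F
  rw [h]

theorem J1_congr {a : ℝ} {φ ψ : E → ℝ} (h : ft φ = ft ψ) : J1 a φ = J1 a ψ := by
  unfold J1 J1F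
  rw [h]

/-- Fourier support away from zero and infinity. -/
def FS (ψ : E → ℝ) : Prop :=
  IsSch ψ ∧ HasCompactSupport (ft ψ) ∧ (∀ᶠ ξ in 𝓝 (0 : E), ft ψ ξ = 0)

/-- multiplication by powers on the Fourier side -/
theorem inv_pow (hF : St_Ft) (hI : St_FtI) {ψ : E → ℝ} (h : FS ψ) (c : ℝ) :
    ∃ g : E → ℝ, FS g ∧ ∀ ξ, ft g ξ = (((2 * Real.pi * ‖ξ‖) ^ c : ℝ) : ℂ) * ft ψ ξ := by
  obtain ⟨hs, hc, h0⟩ := h
  obtain ⟨G, hG⟩ : ∃ G : E → ℂ, G = fun ξ => (((2 * Real.pi * ‖ξ‖) ^ c : ℝ) : ℂ) * ft ψ ξ :=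
    ⟨_, rfl⟩
  have hG0 : ∀ᶠ ξ in 𝓝 (0 : E), G ξ = 0 := by
    filter_upwards [h0] with ξ hξ
    rw [hG]
    simp [hξ]
  have hGc : HasCompactSupport G := by
    rw [hG]
    exact hc.mul_left
  have hGs : ContDiff ℝ ((⊤ : ℕ∞) : WithTop ℕ∞) G := by
    rw [contDiff_iff_contDiffAt]
    intro ξ
    by_cases hξ : ξ = 0
    · rw [hξ]
      have : G =ᶠ[𝓝 0] fun _ => 0 := hG0
      exact contDiffAt_const.congr_of_eventuallyEq this
    · rw [hG]
      apply ContDiffAt.mul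
      · apply Complex.ofRealCLM.contDiff.contDiffAt.comp
        apply ContDiffAt.rpow_const_of_ne
        · exact contDiffAt_const.mul (contDiffAt_norm ℝ hξ)
        · have : 0 < ‖ξ‖ := norm_pos_iff.2 hξ
          positivity
      · exact (ft_smooth hs).contDiffAt
  obtain ⟨g, hg, hgG⟩ := hI G hGs hGc (by
    intro ξ
    rw [hG]
    dsimp only
    rw [(hF.2 ψ hs).2.2.2.2.2.1 ξ, norm_neg, map_mul, Complex.conj_ofReal])
  have hgG' : ft g = G := funext hgG
  refine ⟨g, ⟨hg, by rw [hgG']; exact hGc, by rw [hgG']; exact hG0⟩, fun ξ => ?_⟩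
  rw [hgG ξ, hG]

theorem inv_lap (hF : St_Ft) (hI : St_FtI) {ψ : E → ℝ} (h : FS ψ) :
    ∃ g : E → ℝ, FS g ∧ ft (lap g) = ft (fun x => 0 + (-1) * ψ x) := by
  obtain ⟨g, hg, hgψ⟩ := inv_pow hF hI h (-2)
  refine ⟨g, hg, ?_⟩
  funext ξ
  have h1 : ft (fun x => 0 + (-1) * ψ x) ξ = - ft ψ ξ := by
    unfold ft
    rw [← integral_neg]
    refine integral_congr_ae (Eventually.of_forall fun x => ?_)
    push_cast
    ring
  rw [(hF.2 g hg.1).2.2.2.2.1 ξ, hgψ ξ, h1]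
  by_cases hξ : ξ = 0
  · have h2 := h.2.2.self_of_nhds
    rw [hξ, h2]
    simp
  · have h2 : 0 < ‖ξ‖ := norm_pos_iff.2 hξ
    have h3 : 0 < 2 * Real.pi * ‖ξ‖ := by positivity
    have h4 : (((2 * Real.pi * ‖ξ‖) ^ 2 : ℝ) : ℂ) * (((2 * Real.pi * ‖ξ‖) ^ (-2 : ℝ) : ℝ) : ℂ) = 1 := by
      rw [← Complex.ofReal_mul, ← Real.rpow_natCast, ← Real.rpow_add h3]
      norm_num
    calc _ = -(((((2 * Real.pi * ‖ξ‖) ^ 2 : ℝ) : ℂ) * (((2 * Real.pi * ‖ξ‖) ^ (-2 : ℝ) : ℝ) : ℂ)) *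
          ft ψ ξ) := by ring
      _ = _ := by rw [h4, one_mul]

theorem J_change {a c : ℝ} {ψ g : E → ℝ} (h0 : ft ψ 0 = 0)
    (h : ∀ ξ, ft g ξ = (((2 * Real.pi * ‖ξ‖) ^ c : ℝ) : ℂ) * ft ψ ξ) :
    J0 (a + c) g = J0 a ψ ∧ J1 (a + c) g = J1 a ψ := by
  have key : ∀ (w : S) (r : ℝ), ((|2 * Real.pi * r| ^ (-(a + c)) : ℝ) : ℂ) * ft g (r • (w : E)) =
      ((|2 * Real.pi * r| ^ (-a) : ℝ) : ℂ) * ft ψ (r • (w : E)) := by
    intro w r
    rw [h]
    by_cases hr : r = 0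
    · rw [hr, zero_smul, h0]
      simp
    · have h1 : 2 * Real.pi * ‖r • (w : E)‖ = |2 * Real.pi * r| := by
        rw [norm_smul, abs_mul, abs_of_pos (show (0 : ℝ) < 2 * Real.pi by positivity)]
        simp
      have h2 : 0 < |2 * Real.pi * r| := abs_pos.2 (mul_ne_zero (by positivity) hr)
      rw [h1, ← mul_assoc, ← Complex.ofReal_mul, ← Real.rpow_add h2]
      congr 3
      ring
  constructor
  · unfold J0
    congr 1
    funext z
    unfold J0F
    congr 1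
    refine integral_congr_ae (Eventually.of_forall fun r => ?_)
    dsimp only
    rw [key z.1 r]
  · unfold J1
    congr 1
    funext z
    unfold J1F
    congr 1
    refine integral_congr_ae (Eventually.of_forall fun r => ?_)
    dsimp only
    have h1 := key z.1 r
    calc _ = (((|2 * Real.pi * r| ^ (-(a + c)) : ℝ) : ℂ) * ft g (r • (z.1 : E))) *
          (2 * Real.pi * Complex.I * (r : ℂ)) *
          Complex.exp (2 * Real.pi * Complex.I * ((r * z.2 : ℝ) : ℂ)) := by ring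
      _ = _ := by
        rw [h1]
        ring

/-- A closed subspace containing the basic states is everything. -/
theorem top_ofR (hD : St_Dns0) {s : ℝ} (hs0 : -1 / 2 ≤ s) (hs1 : s < 1 / 2) (T : Submodule ℝ K)
    (hT : IsClosed (T : Set K)) (h1 : ∀ ψ, FS ψ → Rs s ψ ∈ T) (h2 : ∀ ψ, FS ψ → dRs s ψ ∈ T) :
    T = ⊤ := by
  have h3 := (hD s hs0 hs1).1
  rw [eq_top_iff, ← h3]
  apply Submodule.topologicalClosure_minimal _ _ hT
  rw [Submodule.span_le]
  rintro w ⟨ψ, a, b, c, hw | hw⟩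
  · rw [hw]
    exact h1 ψ ⟨a, b, c⟩
  · rw [hw]
    exact h2 ψ ⟨a, b, c⟩

theorem top_ofJ (hF : St_Ft) (hI : St_FtI) (hD : St_Dns0) (a : ℝ) (T : Submodule ℝ K)
    (hT : IsClosed (T : Set K)) (h1 : ∀ ψ, FS ψ → J0 a ψ ∈ T) (h2 : ∀ ψ, FS ψ → J1 a ψ ∈ T) :
    T = ⊤ := by
  have h3 := (hD 0 (by norm_num) (by norm_num)).2
  rw [eq_top_iff, ← h3]
  apply Submodule.topologicalClosure_minimal _ _ hT
  rw [Submodule.span_le]
  rintro w ⟨ψ, b, c, d, hw⟩
  obtain ⟨g, hg, hgψ⟩ := inv_pow hF hI (ψ := ψ) ⟨b, c, d⟩ a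
  obtain ⟨e0, e1⟩ := J_change (a := 0) d.self_of_nhds hgψ
  rw [zero_add] at e0 e1
  rcases hw with hw | hw
  · rw [hw, ← e0]
    exact h1 g hg
  · rw [hw, ← e1]
    exact h2 g hg

theorem c0_pos : 0 < c0 := by
  unfold c0
  positivity

theorem int_prod {f φ : E → ℝ} (hf : IsSch f) (hφ : IsSch φ) : Integrable fun x => f x * φ x := by
  obtain ⟨C, hC⟩ := UB_bound (UB_sch hφ)
  refine (sch_int hf).mul_bdd (c := C) (sch_smE hφ).continuous.aestronglyMeasurable ?_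
  filter_upwards with x
  exact hC 0 x

theorem dct {p : ℝ≥0∞} (hp0 : p ≠ 0) (hpt : p ≠ ⊤) {f : E → ℝ} (hf : MemLp f p volume)
    {F : ℕ → E → ℝ} (hFm : ∀ n, Measurable (F n)) (hle : ∀ n x, |F n x| ≤ |f x|)
    (h0 : ∀ x, ∀ᶠ n in atTop, F n x = 0) :
    Tendsto (fun n => eLpNorm (F n) p volume) atTop (𝓝 0) := by
  have hp : 0 < p.toReal := ENNReal.toReal_pos hp0 hpt
  simp only [eLpNorm_eq_lintegral_rpow_enorm_toReal hp0 hpt]
  have h1 : Tendsto (fun n => ∫⁻ x, ‖F n x‖ₑ ^ p.toReal) atTop (𝓝 (∫⁻ _x : E, 0)) := by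
    apply tendsto_lintegral_of_dominated_convergence (fun x => ‖f x‖ₑ ^ p.toReal)
    · intro n
      exact (hFm n).enorm.pow_const _
    · intro n
      filter_upwards with x
      apply ENNReal.rpow_le_rpow _ hp.le
      rw [Real.enorm_eq_ofReal_abs, Real.enorm_eq_ofReal_abs]
      exact ENNReal.ofReal_le_ofReal (hle n x)
    · have h2 := hf.2
      rw [eLpNorm_eq_lintegral_rpow_enorm_toReal hp0 hpt] at h2
      intro h3
      rw [h3, ENNReal.top_rpow_of_pos (by positivity)] at h2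
      exact lt_irrefl _ h2
    · filter_upwards with x
      apply tendsto_nhds_of_eventually_eq
      filter_upwards [h0 x] with n hn
      rw [hn, enorm_zero, ENNReal.zero_rpow_of_pos hp]
  rw [lintegral_zero] at h1
  have h2 := (ENNReal.continuous_rpow_const (y := 1 / p.toReal)).tendsto 0
  rw [ENNReal.zero_rpow_of_pos (by positivity)] at h2
  exact h2.comp h1

/-- The remainder of the cut-off. -/
noncomputable def rem (f : E → ℝ) (n : ℕ) (x : E) : ℝ := f x + (-1) * cut f n x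

theorem rem_sch {f : E → ℝ} (hf : IsSch f) (n : ℕ) : IsSch (rem f n) :=
  sch_lin hf (test_sch (cut_test hf n)) (-1)

theorem rem_le (f : E → ℝ) (n : ℕ) (x : E) : |rem f n x| ≤ |f x| := by
  unfold rem cut
  have e : f x + (-1) * (chi n x * f x) = (1 - chi n x) * f x := by ring
  rw [e, abs_mul]
  have h1 := chi_nonneg n x
  have h2 := chi_le_one n x
  have h3 : |1 - chi n x| ≤ 1 := by
    rw [abs_le]
    constructor <;> linarith
  exact mul_le_of_le_one_left (abs_nonneg _) h3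

theorem rem_ev (f : E → ℝ) (x : E) : ∀ᶠ n in atTop, rem f n x = 0 := by
  filter_upwards [cut_ev f x] with n hn
  unfold rem
  rw [hn.self_of_nhds]
  ring

theorem rem_UB {f : E → ℝ} (hf : IsSch f) : UB (rem f) := by
  have h1 := UB_sch hf
  have h2 := UB_cut hf
  refine ⟨fun n => (h1.1 n).add (contDiff_const.mul (h2.1 n)), fun m => ?_⟩
  obtain ⟨C, hC⟩ := h1.2 m
  obtain ⟨D, hD⟩ := h2.2 m
  refine ⟨C + D, fun n x => ?_⟩
  have e : rem f n = f + (-1 : ℝ) • cut f n := rfl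
  have hs1 : ContDiffAt ℝ m f x := ((h1.1 n).of_le (by exact_mod_cast le_top)).contDiffAt
  have hs2 : ContDiffAt ℝ m (cut f n) x := ((h2.1 n).of_le (by exact_mod_cast le_top)).contDiffAt
  have hs3 : ContDiffAt ℝ m ((-1 : ℝ) • cut f n) x := hs2.const_smul (-1 : ℝ)
  rw [e, iteratedFDeriv_add_apply hs1 hs3, iteratedFDeriv_const_smul_apply hs2]
  refine (norm_add_le _ _).trans (add_le_add (hC n x) ?_)
  rw [norm_smul]
  simpa using hD n x

theorem sch_memLp {f : E → ℝ} (hf : IsSch f) (p : ℝ≥0∞) : MemLp f p volume := by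
  obtain ⟨g, hg⟩ := hf
  have e : f = g := funext fun x => (hg x).symm
  rw [e]
  exact g.memLp p volume

theorem rem_Lp {f : E → ℝ} (hf : IsSch f) {p : ℝ≥0∞} (hp0 : p ≠ 0) (hpt : p ≠ ⊤) :
    Tendsto (fun n => eLpNorm (rem f n) p volume) atTop (𝓝 0) :=
  dct hp0 hpt (sch_memLp hf p) (fun n => (sch_smE (rem_sch hf n)).continuous.measurable)
    (rem_le f) (rem_ev f)

theorem hs_nonneg (a : ℝ) (φ : E → ℝ) : 0 ≤ hs a φ := by
  unfold hs
  apply integral_nonneg
  intro ξ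
  positivity

theorem hs3_eq (hF : St_Ft) {φ : E → ℝ} (hφ : IsSch φ) :
    hs 3 φ = - ∫ x, φ x * lap (lap (lap φ)) x := by
  have h1 := sch_lap hφ
  have h2 := sch_lap h1
  have h3 := sch_lap h2
  rw [(hF.2 φ hφ).2.2.1 _ h3]
  have e : ∀ ξ, ft φ ξ * (starRingEnd ℂ) (ft (lap (lap (lap φ))) ξ) =
      ((-((2 * Real.pi * ‖ξ‖) ^ (2 * 3 : ℝ) * ‖ft φ ξ‖ ^ 2) : ℝ) : ℂ) := by
    intro ξ
    rw [(hF.2 _ h2).2.2.2.2.1 ξ, (hF.2 _ h1).2.2.2.2.1 ξ, (hF.2 _ hφ).2.2.2.2.1 ξ]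
    simp only [map_mul, map_neg, Complex.conj_ofReal]
    have e1 : (2 * Real.pi * ‖ξ‖) ^ (2 * 3 : ℝ) = (2 * Real.pi * ‖ξ‖) ^ 6 := by
      rw [← Real.rpow_natCast]
      norm_num
    have e2 : ft φ ξ * (starRingEnd ℂ) (ft φ ξ) = ((‖ft φ ξ‖ ^ 2 : ℝ) : ℂ) := by
      rw [Complex.mul_conj, Complex.normSq_eq_norm_sq]
    rw [e1]
    push_cast
    push_cast at e2
    linear_combination (-(2 * (Real.pi : ℂ) * (‖ξ‖ : ℂ)) ^ 6) * e2
  simp only [e]
  rw [integral_complex_ofReal, Complex.ofReal_re, integral_neg, neg_neg]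
  rfl

theorem hs3_bd (hF : St_Ft) {f : E → ℝ} (hf : IsSch f) : ∃ B : ℝ, ∀ n, hs 3 (rem f n) ≤ B := by
  obtain ⟨C, hC⟩ := UB_bound (UB_lap (UB_lap (UB_lap (rem_UB hf))))
  refine ⟨∫ x, |f x| * C, fun n => ?_⟩
  rw [hs3_eq hF (rem_sch hf n)]
  refine (neg_le_abs _).trans ?_
  rw [← Real.norm_eq_abs]
  apply norm_integral_le_of_norm_le ((sch_int hf).abs.mul_const C)
  filter_upwards with x
  rw [norm_mul, Real.norm_eq_abs, Real.norm_eq_abs]
  exact mul_le_mul (rem_le f n x) (hC n x) (abs_nonneg _) (abs_nonneg _)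

theorem hs0_tend (hH : St_Hs) {f : E → ℝ} (hf : IsSch f) :
    Tendsto (fun n => hs 0 (rem f n)) atTop (𝓝 0) := by
  have h1 : Tendsto (fun n => ∫ x, rem f n x ^ 2) atTop (𝓝 (∫ _x : E, (0 : ℝ))) := by
    apply tendsto_integral_of_dominated_convergence (fun x => f x * f x)
    · intro n
      exact ((sch_smE (rem_sch hf n)).continuous.pow 2).aestronglyMeasurable
    · exact int_prod hf hf
    · intro n
      filter_upwards with x
      have h2 := rem_le f n x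
      rw [norm_pow, Real.norm_eq_abs, ← sq, ← sq_abs (f x)]
      gcongr
    · filter_upwards with x
      apply tendsto_nhds_of_eventually_eq
      filter_upwards [rem_ev f x] with n hn
      rw [hn]
      ring
  rw [integral_zero] at h1
  refine h1.congr fun n => ?_
  rw [hH.1 _ (rem_sch hf n)]

theorem hs_tend (hF : St_Ft) (hH : St_Hs) {f : E → ℝ} (hf : IsSch f) {a : ℝ} (ha : 0 ≤ a)
    (ha3 : a < 3) : Tendsto (fun n => hs a (rem f n)) atTop (𝓝 0) := by
  obtain ⟨B, hB⟩ := hs3_bd hF hf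
  have hexp : 0 < 1 - a / 3 := by
    have : a / 3 < 1 := by
      rw [div_lt_one (by norm_num)]
      exact ha3
    linarith
  have h1 : ∀ n, hs a (rem f n) ≤ hs 0 (rem f n) ^ (1 - a / 3) * B ^ (a / 3) := by
    intro n
    have h2 := hH.2.2.2.2.1 3 a (rem f n) (by norm_num) ha (by exact_mod_cast ha3.le) (rem_sch hf n)
    push_cast at h2
    refine h2.trans ?_
    apply mul_le_mul_of_nonneg_left _ (Real.rpow_nonneg (hs_nonneg _ _) _)
    exact Real.rpow_le_rpow (hs_nonneg _ _) (hB n) (by positivity)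
  have h3 : Tendsto (fun n => hs 0 (rem f n) ^ (1 - a / 3) * B ^ (a / 3)) atTop (𝓝 0) := by
    have h4 := (hs0_tend hH hf).rpow_const (p := 1 - a / 3) (Or.inr hexp.le)
    rw [Real.zero_rpow hexp.ne'] at h4
    have h5 := h4.mul_const (B ^ (a / 3))
    rwa [zero_mul] at h5
  exact tendsto_of_tendsto_of_tendsto_of_le_of_le tendsto_const_nhds h3
    (fun n => hs_nonneg _ _) h1

theorem hsm_tend (hS : St_SobP) {f : E → ℝ} (hf : IsSch f) {a : ℝ} (ha : 0 < a) (ha5 : a < 2) :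
    Tendsto (fun n => hs (-a) (rem f n)) atTop (𝓝 0) := by
  obtain ⟨C, hC, hb⟩ := hS a ha ha5
  have hp0 : ENNReal.ofReal (8 / (4 + 2 * a)) ≠ 0 := by
    apply (ENNReal.ofReal_pos.2 _).ne'
    positivity
  have h1 : Tendsto (fun n => ENNReal.ofReal ((hs (-a) (rem f n)) ^ (1 / 2 : ℝ))) atTop (𝓝 0) := by
    have h2 := ENNReal.Tendsto.const_mul (rem_Lp hf hp0 ENNReal.ofReal_ne_top)
      (Or.inr (ENNReal.ofReal_ne_top (r := C)))
    rw [mul_zero] at h2
    exact tendsto_of_tendsto_of_tendsto_of_le_of_le tendsto_const_nhds h2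
      (fun n => zero_le) (fun n => (hb _ (rem_sch hf n)).2)
  have h3 : Tendsto (fun n => (hs (-a) (rem f n)) ^ (1 / 2 : ℝ)) atTop (𝓝 0) := by
    have h4 := (ENNReal.tendsto_toReal ENNReal.zero_ne_top).comp h1
    rw [ENNReal.toReal_zero] at h4
    refine h4.congr fun n => ?_
    simp only [Function.comp]
    rw [ENNReal.toReal_ofReal (Real.rpow_nonneg (hs_nonneg _ _) _)]
  have h5 := h3.pow 2
  rw [zero_pow two_ne_zero] at h5
  refine h5.congr fun n => ?_
  rw [← Real.rpow_natCast, ← Real.rpow_mul (hs_nonneg _ _)]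
  norm_num

theorem norm_tend {w : ℕ → K} {w0 : K} {h : ℕ → ℝ} {c : ℝ} (hc : 0 < c)
    (he : ∀ n, c * ‖w0 - w n‖ ^ 2 = h n) (hh : Tendsto h atTop (𝓝 0)) :
    Tendsto w atTop (𝓝 w0) := by
  rw [tendsto_iff_norm_sub_tendsto_zero]
  have h1 : Tendsto (fun n => √(c⁻¹ * h n)) atTop (𝓝 0) := by
    have h2 := (hh.const_mul c⁻¹).sqrt
    rwa [mul_zero, Real.sqrt_zero] at h2
  refine h1.congr fun n => ?_
  rw [← he n, ← mul_assoc, inv_mul_cancel₀ hc.ne', one_mul, Real.sqrt_sq (norm_nonneg _),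
    norm_sub_rev]

theorem cut_tend (hS : St_SobP) (hH : St_Hs) (hP : St_IsoP) (hL : St_LinJ) {s : ℝ}
    (hs0 : -1 / 2 ≤ s) (hs1 : s < 1 / 2) {ψ : E → ℝ} (hψ : IsSch ψ) :
    Tendsto (fun n => Rs s (cut ψ n)) atTop (𝓝 (Rs s ψ)) ∧
    Tendsto (fun n => dRs s (cut ψ n)) atTop (𝓝 (dRs s ψ)) := by
  have hlin : ∀ n, Rs s (rem ψ n) = Rs s ψ + (-1 : ℝ) • Rs s (cut ψ n) ∧
      dRs s (rem ψ n) = dRs s ψ + (-1 : ℝ) • dRs s (cut ψ n) := by
    intro n
    have h1 := (hL 0 (-1) ψ (cut ψ n) hψ (test_sch (cut_test hψ n))).2.2 s hs0 hs1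
    exact ⟨h1.1, h1.2.1⟩
  constructor
  · apply norm_tend c0_pos _ (hsm_tend hS hψ (a := 3 / 2 + s) (by linarith) (by linarith))
    intro n
    have h2 := (hP s _ _ hs0 hs1 hψ (rem_sch hψ n)).2.2.2.2.2.2.1
    have e : Rs s ψ - Rs s (cut ψ n) = Rs s (rem ψ n) := by
      rw [(hlin n).1, neg_one_smul, sub_eq_add_neg]
    rw [e, h2]
    congr 1
    ring
  · have hn : ∀ n, c0 * ‖dRs s ψ - dRs s (cut ψ n)‖ ^ 2 = hs (-(1 / 2 + s)) (rem ψ n) := by
      intro n
      have h2 := (hP s _ _ hs0 hs1 hψ (rem_sch hψ n)).2.2.2.2.2.2.2.1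
      have e : dRs s ψ - dRs s (cut ψ n) = dRs s (rem ψ n) := by
        rw [(hlin n).2, neg_one_smul, sub_eq_add_neg]
      rw [e, h2]
      congr 1
      ring
    apply norm_tend c0_pos hn
    rcases eq_or_lt_of_le hs0 with h0 | h0
    · have h1 : -(1 / 2 + s) = 0 := by linarith
      rw [h1]
      exact hs0_tend hH hψ
    · exact hsm_tend hS hψ (by linarith) (by linarith)

theorem Theta_tend (hF : St_Ft) (hP : St_IsoP) (hL : St_LinJ) (hH : St_Hs) {s : ℝ}
    (hs0 : -1 / 2 ≤ s) (hs1 : s < 1 / 2) {f g : E → ℝ} (hf : IsSch f) (hg : IsSch g) :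
    Tendsto (fun n => Theta s (cut f n) (cut g n)) atTop (𝓝 (Theta s f g)) := by
  have h1 := hs_tend hF hH hf (a := 3 / 2 + s) (by linarith) (by linarith)
  have h2 := hs_tend hF hH hg (a := 1 / 2 + s) (by linarith) (by linarith)
  have h3 := (h1.add h2).const_mul c0
  rw [add_zero, mul_zero] at h3
  apply norm_tend one_pos _ h3
  intro n
  have e : Theta s f g - Theta s (cut f n) (cut g n) = Theta s (rem f n) (rem g n) := by
    rw [show rem f n = fun x => f x + (-1) * cut f n x from rfl,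
      show rem g n = fun x => g x + (-1) * cut g n x from rfl,
      ((hL 0 (-1) f g hf hg).2.2 s hs0 hs1).2.2 (cut f n) (cut g n) (test_sch (cut_test hf n))
        (test_sch (cut_test hg n)),
      neg_one_smul, sub_eq_add_neg]
  rw [e, one_mul, (hP s _ _ hs0 hs1 (rem_sch hf n) (rem_sch hg n)).2.2.2.2.2.2.2.2.1]

theorem TS_top (hD : St_Dns0) (hS : St_SobP) (hH : St_Hs) (hP : St_IsoP) (hL : St_LinJ) {s : ℝ}
    (hs0 : -1 / 2 ≤ s) (hs1 : s < 1 / 2) : TS s univ = ⊤ := by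
  have hcl : IsClosed (TS s univ : Set K) := Submodule.isClosed_topologicalClosure _
  have hm : ∀ φ, IsTest φ → Rs s φ ∈ TS s univ ∧ dRs s φ ∈ TS s univ := by
    intro φ hφ
    constructor
    · exact Submodule.le_topologicalClosure _
        (Submodule.subset_span ⟨φ, hφ, subset_univ _, Or.inl rfl⟩)
    · exact Submodule.le_topologicalClosure _
        (Submodule.subset_span ⟨φ, hφ, subset_univ _, Or.inr rfl⟩)
  apply top_ofR hD hs0 hs1 _ hcl
  · intro ψ hψ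
    exact hcl.mem_of_tendsto (cut_tend hS hH hP hL hs0 hs1 hψ.1).1
      (Eventually.of_forall fun n => (hm _ (cut_test hψ.1 n)).1)
  · intro ψ hψ
    exact hcl.mem_of_tendsto (cut_tend hS hH hP hL hs0 hs1 hψ.1).2
      (Eventually.of_forall fun n => (hm _ (cut_test hψ.1 n)).2)

theorem test0 : IsTest (fun _ : E => (0 : ℝ)) := ⟨contDiff_const, HasCompactSupport.zero⟩

theorem e0 : (fun _ : E => (0 : ℝ) + (-1) * 0) = fun _ => 0 := by
  funext x
  ring

theorem Theta0 (hL : St_LinJ) {s : ℝ} (hs0 : -1 / 2 ≤ s) (hs1 : s < 1 / 2) :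
    Theta s (fun _ : E => (0 : ℝ)) (fun _ => 0) = 0 := by
  have h1 := ((hL 0 (-1) _ _ (test_sch test0) (test_sch test0)).2.2 s hs0 hs1).2.2 _ _
    (test_sch test0) (test_sch test0)
  rw [e0, neg_one_smul, add_neg_cancel] at h1
  exact h1

/-- The submodule of test states. -/
noncomputable def tst (hL : St_LinJ) {s : ℝ} (hs0 : -1 / 2 ≤ s) (hs1 : s < 1 / 2) :
    Submodule ℝ K where
  carrier := {k | ∃ f g : E → ℝ, IsTest f ∧ IsTest g ∧ k = Theta s f g}
  add_mem' := by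
    rintro _ _ ⟨f, g, hf, hg, rfl⟩ ⟨f', g', hf', hg', rfl⟩
    refine ⟨fun x => f x + 1 * f' x, fun x => g x + 1 * g' x, test_lin hf hf' 1, test_lin hg hg' 1, ?_⟩
    rw [((hL 0 1 f g (test_sch hf) (test_sch hg)).2.2 s hs0 hs1).2.2 _ _ (test_sch hf')
      (test_sch hg'), one_smul]
  zero_mem' := ⟨fun _ => 0, fun _ => 0, test0, test0, (Theta0 hL hs0 hs1).symm⟩
  smul_mem' := by
    rintro c _ ⟨f, g, hf, hg, rfl⟩
    refine ⟨fun x => 0 + c * f x, fun x => 0 + c * g x, test_lin test0 hf c,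
      test_lin test0 hg c, ?_⟩
    rw [((hL 0 c _ _ (test_sch test0) (test_sch test0)).2.2 s hs0 hs1).2.2 _ _ (test_sch hf)
      (test_sch hg), Theta0 hL hs0 hs1, zero_add]

theorem tst_top (hF : St_Ft) (hI : St_FtI) (hD : St_Dns0) (hP : St_IsoP) (hL : St_LinJ)
    (hH : St_Hs) {s : ℝ} (hs0 : -1 / 2 ≤ s) (hs1 : s < 1 / 2) :
    (tst hL hs0 hs1).topologicalClosure = ⊤ := by
  have hcl : IsClosed ((tst hL hs0 hs1).topologicalClosure : Set K) :=
    Submodule.isClosed_topologicalClosure _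
  have hm : ∀ f g, IsSch f → IsSch g → Theta s f g ∈ (tst hL hs0 hs1).topologicalClosure := by
    intro f g hf hg
    refine hcl.mem_of_tendsto (Theta_tend hF hP hL hH hs0 hs1 hf hg)
      (Eventually.of_forall fun n => ?_)
    exact Submodule.le_topologicalClosure _ ⟨_, _, cut_test hf n, cut_test hg n, rfl⟩
  have hl0 : lap (fun _ : E => (0 : ℝ)) = fun _ => 0 := by
    have h1 := lap_lin (test_sch test0) (test_sch test0) (-1)
    rw [e0] at h1
    rw [h1]
    funext x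
    ring
  have ha0 : -s < 3 / 2 := by linarith
  have hJ0 : J0 (-s) (fun _ : E => (0 : ℝ)) = 0 := by
    unfold J0
    have h1 : J0F (-s) (fun _ : E => (0 : ℝ)) = 0 := by
      funext z
      unfold J0F ft
      simp
    rw [h1]
    have h2 : MemLp (0 : S × ℝ → ℝ) 2 mu := MemLp.zero
    unfold toK
    rw [dif_pos h2]
    exact MemLp.toLp_zero h2
  have hJ1 : J1 (-s) (fun _ : E => (0 : ℝ)) = 0 := by
    unfold J1
    have h1 : J1F (-s) (fun _ : E => (0 : ℝ)) = 0 := by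
      funext z
      unfold J1F ft
      simp
    rw [h1]
    have h2 : MemLp (0 : S × ℝ → ℝ) 2 mu := MemLp.zero
    unfold toK
    rw [dif_pos h2]
    exact MemLp.toLp_zero h2
  have hneg0 : ∀ ψ : E → ℝ, IsSch ψ → ∀ g : E → ℝ, ft (lap g) = ft (fun x => 0 + (-1) * ψ x) →
      J1 (-s) (lap g) = - J1 (-s) ψ ∧ J0 (-s) (lap g) = - J0 (-s) ψ := by
    intro ψ hψ g hg
    have e : ∀ ξ, ft (fun x => 0 + (-1) * ψ x) ξ = - ft ψ ξ := by
      intro ξ
      unfold ft
      rw [← integral_neg]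
      refine integral_congr_ae (Eventually.of_forall fun x => ?_)
      push_cast
      ring
    rw [J1_congr hg, J0_congr hg]
    have tn : ∀ F : S × ℝ → ℝ, toK (fun z => - F z) = - toK F := by
      intro F
      unfold toK
      by_cases h : MemLp F 2 mu
      · have h' : MemLp (fun z => - F z) 2 mu := h.neg
        rw [dif_pos h, dif_pos h']
        exact MemLp.toLp_neg h
      · have h' : ¬ MemLp (fun z => - F z) 2 mu := by
          intro h2
          apply h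
          have h3 := h2.neg
          have h4 : -(fun z => - F z) = F := by
            funext z
            simp
          rwa [h4] at h3
        rw [dif_neg h, dif_neg h', neg_zero]
    constructor
    · unfold J1
      rw [← tn]
      congr 1
      funext z
      unfold J1F
      rw [← Complex.neg_re, ← integral_neg]
      congr 1
      refine integral_congr_ae (Eventually.of_forall fun r => ?_)
      dsimp only
      rw [e]
      ring
    · unfold J0
      rw [← tn]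
      congr 1
      funext z
      unfold J0F
      rw [← Complex.neg_re, ← integral_neg]
      congr 1
      refine integral_congr_ae (Eventually.of_forall fun r => ?_)
      dsimp only
      rw [e]
      ring
  have hc := c0_pos.ne'
  apply top_ofJ hF hI hD (-s) _ hcl
  · intro ψ hψ
    obtain ⟨g, hg, e⟩ := inv_lap hF hI hψ
    have h2 := hm (fun _ => 0) g (test_sch test0) hg.1
    have h3 : Theta s (fun _ => 0) g = c0 • J0 (-s) ψ := by
      unfold Theta
      rw [hl0, hJ1, zero_sub, (hneg0 ψ hψ.1 g e).2, neg_neg]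
    rw [h3] at h2
    have h4 := Submodule.smul_mem _ c0⁻¹ h2
    rwa [smul_smul, inv_mul_cancel₀ hc, one_smul] at h4
  · intro ψ hψ
    obtain ⟨g, hg, e⟩ := inv_lap hF hI hψ
    have h2 := hm g (fun _ => 0) hg.1 (test_sch test0)
    have h3 : Theta s g (fun _ => 0) = (-c0) • J1 (-s) ψ := by
      unfold Theta
      rw [hl0, hJ0, sub_zero, (hneg0 ψ hψ.1 g e).1, smul_neg, neg_smul]
    rw [h3] at h2
    have h4 := Submodule.smul_mem _ (-c0)⁻¹ h2
    rwa [smul_smul, inv_mul_cancel₀ (neg_ne_zero.2 hc), one_smul] at h4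

theorem dense (hF : St_Ft) (hI : St_FtI) (hD : St_Dns0) (hP : St_IsoP) (hL : St_LinJ)
    (hH : St_Hs) {s : ℝ} (hs0 : -1 / 2 ≤ s) (hs1 : s < 1 / 2) (k : K) (ε : ℝ) (hε : 0 < ε) :
    ∃ f g : E → ℝ, IsTest f ∧ IsTest g ∧ ‖k - Theta s f g‖ < ε := by
  have h1 : k ∈ (tst hL hs0 hs1).topologicalClosure := by
    rw [tst_top hF hI hD hP hL hH hs0 hs1]
    trivial
  rw [← SetLike.mem_coe, Submodule.topologicalClosure_coe, Metric.mem_closure_iff] at h1
  obtain ⟨w, ⟨f, g, hf, hg, hw⟩, hd⟩ := h1 ε hε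
  refine ⟨f, g, hf, hg, ?_⟩
  rw [hw, dist_eq_norm] at hd
  exact hd

end DnsPx

open DnsPx in
theorem thm_DnsP (hF : St_Ft) (hI : St_FtI) (hPJ : St_PJ) (hN : St_NcR) (hP : St_IsoP)
    (hL : St_LinJ) (hH : St_Hs) (hS : St_SobP) (hD : St_Dns0) : St_DnsP := by
  intro s hs0 hs1
  refine ⟨TS_top hD hS hH hP hL hs0 hs1, dense hF hI hD hP hL hH hs0 hs1, ?_⟩
  intro hab
  have hab' := abs_lt.1 hab
  have hcl : IsClosed (PS s univ : Set K) := Submodule.isClosed_topologicalClosure _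
  have nu : ∀ {A : Set (S × ℝ)} {h : S × ℝ → ℝ}, Nice A h → Nice univ h := by
    rintro A h ⟨g, a, b, c, _⟩
    exact ⟨g, a, b, c, subset_univ _⟩
  have hJ : ∀ φ, IsTest φ → J0 s φ ∈ PS s univ ∧ J1 s φ ∈ PS s univ := by
    intro φ hφ
    obtain ⟨ρ, hρ⟩ := hφ.2.isBounded.subset_ball 0
    obtain ⟨n1, n2⟩ := hN φ 0 ρ hφ hρ
    obtain ⟨e1, e2⟩ := (hPJ s hab).2 φ hφ
    rw [← e1, ← e2]
    exact ⟨Submodule.le_topologicalClosure _ (Submodule.subset_span ⟨_, nu n1, rfl⟩),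
      Submodule.le_topologicalClosure _ (Submodule.subset_span ⟨_, nu n2, rfl⟩)⟩
  have hT : ∀ f g, IsTest f → IsTest g → Theta (-s) f g ∈ PS s univ := by
    intro f g hf hg
    unfold Theta
    rw [neg_neg]
    exact Submodule.smul_mem _ _ (Submodule.sub_mem _ (hJ _ (test_lap hf)).2 (hJ _ (test_lap hg)).1)
  rw [eq_top_iff]
  intro k _
  rw [← SetLike.mem_coe, ← hcl.closure_eq, Metric.mem_closure_iff]
  intro ε hε
  obtain ⟨f, g, hf, hg, h⟩ := dense hF hI hD hP hL hH (s := -s) (by linarith) (by linarith) k ε hε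
  exact ⟨_, hT f g hf hg, by rw [dist_eq_norm]; exact h⟩

end Pool.Agent.QWF
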