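import Pool.Agent.QWF.StG
import Pool.Agent.QWF.DnsP

set_option autoImplicit false

/-!
# QWF/Dns2: density of the two classes of test states
-/

open MeasureTheory Filter Topology Set
open scoped ENNReal NNReal RealInnerProductSpace ContDiff

namespace Pool.Agent.QWF

namespace Dns2x

open DnsPx

/-- linearity -/
lemma lin (hL : St_LinJ) {s : ℝ} (hs0 : -1 / 2 ≤ s) (hs1 : s < 1 / 2) {T : (E → ℝ) → E → ℝ}
    (hTs : ∀ φ, IsTest φ → IsSch (T φ))
    (hTl : ∀ (φ ψ : E → ℝ) (c : ℝ), IsTest φ → IsTest ψ →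
      T (fun x => φ x + c * ψ x) = fun x => T φ x + c * T ψ x)
    {φ ψ : E → ℝ} (hφ : IsTest φ) (hψ : IsTest ψ) (c : ℝ) :
    Rs s (T fun x => φ x + c * ψ x) = Rs s (T φ) + c • Rs s (T ψ) ∧
      dRs s (T fun x => φ x + c * ψ x) = dRs s (T φ) + c • dRs s (T ψ) := by
  rw [hTl φ ψ c hφ hψ]
  have h1 := (hL 0 c _ _ (hTs φ hφ) (hTs ψ hψ)).2.2 s hs0 hs1
  exact ⟨h1.1, h1.2.1⟩

/-- elements of the span -/
lemma form (hL : St_LinJ) {s : ℝ} (hs0 : -1 / 2 ≤ s) (hs1 : s < 1 / 2) {T : (E → ℝ) → E → ℝ}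
    (hTs : ∀ φ, IsTest φ → IsSch (T φ))
    (hTl : ∀ (φ ψ : E → ℝ) (c : ℝ), IsTest φ → IsTest ψ →
      T (fun x => φ x + c * ψ x) = fun x => T φ x + c * T ψ x) {w : K}
    (hw : w ∈ Submodule.span ℝ {w : K | ∃ φ, IsTest φ ∧ (w = Rs s (T φ) ∨ w = dRs s (T φ))}) :
    ∃ φ ψ : E → ℝ, IsTest φ ∧ IsTest ψ ∧ w = Rs s (T φ) + dRs s (T ψ) := by
  have hz := lin hL hs0 hs1 hTs hTl test0 test0 (-1)
  rw [e0, neg_one_smul, neg_one_smul, add_neg_cancel, add_neg_cancel] at hz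
  induction hw using Submodule.span_induction with
  | mem w hw =>
    obtain ⟨φ, hφ, hw⟩ := hw
    rcases hw with hw | hw
    · exact ⟨φ, fun _ => 0, hφ, test0, by rw [hw, hz.2, add_zero]⟩
    · exact ⟨fun _ => 0, φ, test0, hφ, by rw [hw, hz.1, zero_add]⟩
  | zero => exact ⟨fun _ => 0, fun _ => 0, test0, test0, by rw [hz.1, hz.2, add_zero]⟩
  | add a b _ _ ha hb =>
    obtain ⟨φ, ψ, h1, h2, rfl⟩ := ha
    obtain ⟨φ', ψ', h1', h2', rfl⟩ := hb
    refine ⟨fun x => φ x + 1 * φ' x, fun x => ψ x + 1 * ψ' x, test_lin h1 h1' 1,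
      test_lin h2 h2' 1, ?_⟩
    rw [(lin hL hs0 hs1 hTs hTl h1 h1' 1).1, (lin hL hs0 hs1 hTs hTl h2 h2' 1).2, one_smul, one_smul]
    abel
  | smul c a _ ha =>
    obtain ⟨φ, ψ, h1, h2, rfl⟩ := ha
    refine ⟨fun x => 0 + c * φ x, fun x => 0 + c * ψ x, test_lin test0 h1 c, test_lin test0 h2 c, ?_⟩
    rw [(lin hL hs0 hs1 hTs hTl test0 h1 c).1, (lin hL hs0 hs1 hTs hTl test0 h2 c).2, hz.1, hz.2,
      zero_add, zero_add, smul_add]

/-- density -/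
lemma dens (hL : St_LinJ) {s : ℝ} (hs0 : -1 / 2 ≤ s) (hs1 : s < 1 / 2) {T : (E → ℝ) → E → ℝ}
    (hTs : ∀ φ, IsTest φ → IsSch (T φ))
    (hTl : ∀ (φ ψ : E → ℝ) (c : ℝ), IsTest φ → IsTest ψ →
      T (fun x => φ x + c * ψ x) = fun x => T φ x + c * T ψ x)
    (htop : (Submodule.span ℝ {w : K | ∃ φ, IsTest φ ∧
      (w = Rs s (T φ) ∨ w = dRs s (T φ))}).topologicalClosure = ⊤) (k : K) {ε : ℝ} (hε : 0 < ε) :
    ∃ φ ψ : E → ℝ, IsTest φ ∧ IsTest ψ ∧ ‖k - (Rs s (T φ) + dRs s (T ψ))‖ < ε := by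
  have h1 : k ∈ (Submodule.span ℝ {w : K | ∃ φ, IsTest φ ∧
      (w = Rs s (T φ) ∨ w = dRs s (T φ))}).topologicalClosure := by
    rw [htop]
    trivial
  rw [← SetLike.mem_coe, Submodule.topologicalClosure_coe, Metric.mem_closure_iff] at h1
  obtain ⟨w, hw, hd⟩ := h1 ε hε
  obtain ⟨φ, ψ, h2, h3, rfl⟩ := form hL hs0 hs1 hTs hTl hw
  exact ⟨φ, ψ, h2, h3, by rwa [dist_eq_norm] at hd⟩

lemma sch_lap (hF : St_Ft) {φ : E → ℝ} (h : IsSch φ) : IsSch (lap φ) :=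
  (hF.2 φ h).2.2.2.2.2.2.2.2.1

lemma hs_lap (hF : St_Ft) {φ : E → ℝ} (hφ : IsSch φ) (a : ℝ) : hs a (lap φ) = hs (a + 2) φ := by
  unfold hs
  have hne : ∀ᵐ ξ : E ∂volume, ξ ≠ 0 := by
    rw [ae_iff]
    simp
  refine integral_congr_ae ?_
  filter_upwards [hne] with ξ hξ
  have h0 : 0 < 2 * Real.pi * ‖ξ‖ := by
    have := norm_pos_iff.2 hξ
    positivity
  rw [(hF.2 φ hφ).2.2.2.2.1 ξ, norm_mul, norm_neg, Complex.norm_real, Real.norm_eq_abs,
    abs_of_nonneg (by positivity : (0 : ℝ) ≤ (2 * Real.pi * ‖ξ‖) ^ 2)]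
  have h1 : (2 * Real.pi * ‖ξ‖) ^ (2 * (a + 2)) =
      (2 * Real.pi * ‖ξ‖) ^ (2 * a) * (2 * Real.pi * ‖ξ‖) ^ 4 := by
    rw [show 2 * (a + 2) = 2 * a + ((4 : ℕ) : ℝ) by push_cast; ring, Real.rpow_add h0,
      Real.rpow_natCast]
  rw [h1]
  ring

lemma lap_tend (hF : St_Ft) (hP : St_IsoP) (hL : St_LinJ) (hH : St_Hs) {s : ℝ} (hs : |s| < 1 / 2)
    {g : E → ℝ} (hg : IsSch g) :
    Tendsto (fun n => Rs s (lap (cut g n))) atTop (𝓝 (Rs s (lap g))) ∧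
    Tendsto (fun n => dRs s (lap (cut g n))) atTop (𝓝 (dRs s (lap g))) := by
  have hab := abs_lt.1 hs
  have hs0 : -1 / 2 ≤ s := by linarith [hab.1]
  have hs1 : s < 1 / 2 := hab.2
  have e : ∀ n, lap (rem g n) = fun x => lap g x + (-1) * lap (cut g n) x := fun n =>
    lap_lin hg (test_sch (cut_test hg n)) (-1)
  have hlin : ∀ n, Rs s (lap (rem g n)) = Rs s (lap g) + (-1 : ℝ) • Rs s (lap (cut g n)) ∧
      dRs s (lap (rem g n)) = dRs s (lap g) + (-1 : ℝ) • dRs s (lap (cut g n)) := by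
    intro n
    rw [e n]
    have h1 := (hL 0 (-1) (lap g) (lap (cut g n)) (sch_lap hF hg)
      (sch_lap hF (test_sch (cut_test hg n)))).2.2 s hs0 hs1
    exact ⟨h1.1, h1.2.1⟩
  constructor
  · apply norm_tend c0_pos _ (hs_tend hF hH hg (a := 1 / 2 - s) (by linarith) (by linarith))
    intro n
    have h2 := (hP s _ _ hs0 hs1 (sch_lap hF hg) (sch_lap hF (rem_sch hg n))).2.2.2.2.2.2.1
    have e2 : Rs s (lap g) - Rs s (lap (cut g n)) = Rs s (lap (rem g n)) := by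
      rw [(hlin n).1, neg_one_smul, sub_eq_add_neg]
    rw [e2, h2, hs_lap hF (rem_sch hg n)]
    congr 1
    ring
  · apply norm_tend c0_pos _ (hs_tend hF hH hg (a := 3 / 2 - s) (by linarith) (by linarith))
    intro n
    have h2 := (hP s _ _ hs0 hs1 (sch_lap hF hg) (sch_lap hF (rem_sch hg n))).2.2.2.2.2.2.2.1
    have e2 : dRs s (lap g) - dRs s (lap (cut g n)) = dRs s (lap (rem g n)) := by
      rw [(hlin n).2, neg_one_smul, sub_eq_add_neg]
    rw [e2, h2, hs_lap hF (rem_sch hg n)]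
    congr 1
    ring

end Dns2x

open DnsPx Dns2x in
/-- **Dns2** -/
theorem thm_Dns2 (hF : St_Ft) (hI : St_FtI) (hP : St_IsoP) (hL : St_LinJ) (hH : St_Hs)
    (hD : St_Dns0) (hDns : St_DnsP) : St_Dns2 := by
  intro s hs k ε hε
  have hab := abs_lt.1 hs
  have hs0 : -1 / 2 ≤ s := by linarith [hab.1]
  have hs1 : s < 1 / 2 := hab.2
  constructor
  · refine dens hL hs0 hs1 (T := fun φ => φ) (fun φ hφ => test_sch hφ) (fun φ ψ c _ _ => rfl) ?_ k hε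
    rw [eq_top_iff, ← (hDns s hs0 hs1).1]
    refine Submodule.topologicalClosure_mono (Submodule.span_mono ?_)
    rintro w ⟨φ, hφ, -, hw⟩
    exact ⟨φ, hφ, hw⟩
  · refine dens hL hs0 hs1 (T := lap) (fun φ hφ => sch_lap hF (test_sch hφ))
      (fun φ ψ c hφ hψ => lap_lin (test_sch hφ) (test_sch hψ) c) ?_ k hε
    have hcl : IsClosed ((Submodule.span ℝ {w : K | ∃ φ, IsTest φ ∧
      (w = Rs s (lap φ) ∨ w = dRs s (lap φ))}).topologicalClosure : Set K) :=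
      Submodule.isClosed_topologicalClosure _
    have hz : Rs s (fun _ : E => (0 : ℝ)) = 0 ∧ dRs s (fun _ : E => (0 : ℝ)) = 0 := by
      have h1 := (hL 0 (-1) _ _ (test_sch test0) (test_sch test0)).2.2 s hs0 hs1
      rw [e0, neg_one_smul, add_neg_cancel, neg_one_smul, add_neg_cancel] at h1
      exact ⟨h1.1, h1.2.1⟩
    have key : ∀ ψ, FS ψ → ∃ g, IsSch g ∧ Rs s (lap g) = - Rs s ψ ∧ dRs s (lap g) = - dRs s ψ := by
      intro ψ hψ
      obtain ⟨g, hg, e⟩ := inv_lap hF hI hψ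
      have h1 := (hL 0 (-1) (fun _ => 0) ψ (test_sch test0) hψ.1).2.2 s hs0 hs1
      refine ⟨g, hg.1, ?_, ?_⟩
      · have h2 : Rs s (lap g) = Rs s (fun x => 0 + (-1) * ψ x) := by
          unfold Rs
          rw [J1_congr e]
        rw [h2, h1.1, hz.1, zero_add, neg_one_smul]
      · have h2 : dRs s (lap g) = dRs s (fun x => 0 + (-1) * ψ x) := by
          unfold dRs
          rw [J0_congr e]
        rw [h2, h1.2.1, hz.2, zero_add, neg_one_smul]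
    apply top_ofR hD hs0 hs1 _ hcl
    · intro ψ hψ
      obtain ⟨g, hg, e1, -⟩ := key ψ hψ
      have h2 := hcl.mem_of_tendsto (lap_tend hF hP hL hH hs hg).1 (Eventually.of_forall fun n =>
        Submodule.le_topologicalClosure _ (Submodule.subset_span ⟨_, cut_test hg n, Or.inl rfl⟩))
      rw [e1] at h2
      exact (Submodule.neg_mem_iff _).1 h2
    · intro ψ hψ
      obtain ⟨g, hg, -, e1⟩ := key ψ hψ
      have h2 := hcl.mem_of_tendsto (lap_tend hF hP hL hH hs hg).2 (Eventually.of_forall fun n =>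
        Submodule.le_topologicalClosure _ (Submodule.subset_span ⟨_, cut_test hg n, Or.inr rfl⟩))
      rw [e1] at h2
      exact (Submodule.neg_mem_iff _).1 h2

end Pool.Agent.QWF
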