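import Pool.Agent.QWF.StA

set_option autoImplicit false

/-!
# QWF, module DrT: derivative of the test states along the flow
-/

open MeasureTheory Filter Topology Set
open scoped ENNReal NNReal RealInnerProductSpace

namespace Pool.Agent.QWF

namespace DrTx

/-- Integrability of the product on `(S × ℝ) × [0, h]`. -/
lemma integrable_aux {G : K} {g : S × ℝ → ℝ} (hG : (G : S × ℝ → ℝ) =ᵐ[mu] g) (hg : Continuous g)
    (k : K) (h : ℝ) :
    Integrable (fun q : ℝ × (S × ℝ) => g (q.2.1, q.2.2 - q.1) * k q.2)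
      ((volume.restrict (Set.uIoc 0 h)).prod mu) := by
  have hmeas : AEStronglyMeasurable (fun q : ℝ × (S × ℝ) => g (q.2.1, q.2.2 - q.1) * k q.2)
      ((volume.restrict (Set.uIoc 0 h)).prod mu) := by
    refine AEStronglyMeasurable.mul ?_ ?_
    · exact (hg.comp (by fun_prop : Continuous fun q : ℝ × (S × ℝ) =>
        ((q.2.1, q.2.2 - q.1) : S × ℝ))).aestronglyMeasurable
    · exact (Lp.aestronglyMeasurable k).comp_snd
  have hae : ∀ r : ℝ, (fun z : S × ℝ => g (z.1, z.2 - r) * k z) =ᵐ[mu]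
      fun z => (tau r G : S × ℝ → ℝ) z * k z := by
    intro r
    have h1 := (mp_shift (g := fun _ => r) measurable_const).quasiMeasurePreserving.ae hG
    filter_upwards [tau_coe r G, h1] with z h2 h3
    rw [h2, h3]
  have hint : ∀ r : ℝ, Integrable (fun z : S × ℝ => g (z.1, z.2 - r) * k z) mu := by
    intro r
    refine (integrable_congr (hae r)).2 ?_
    exact (Lp.memLp (tau r G)).integrable_mul (Lp.memLp k)
  rw [integrable_prod_iff hmeas]
  refine ⟨Eventually.of_forall hint, ?_⟩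
  have hbd : ∀ r : ℝ, ∫ z, ‖g (z.1, z.2 - r) * k z‖ ∂mu ≤ ‖G‖ * ‖k‖ := by
    intro r
    have h1 : ∫ z, ‖g (z.1, z.2 - r) * k z‖ ∂mu =
        ∫ z, ‖(tau r G : S × ℝ → ℝ) z‖ * ‖(k : S × ℝ → ℝ) z‖ ∂mu := by
      refine integral_congr_ae ?_
      filter_upwards [hae r] with z hz
      rw [hz, norm_mul]
    rw [h1]
    have h2 := integral_mul_norm_le_Lp_mul_Lq (μ := mu) (f := (tau r G : S × ℝ → ℝ))
      (g := (k : S × ℝ → ℝ)) (p := 2) (q := 2) Real.HolderConjugate.two_two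
      (by simpa using Lp.memLp (tau r G)) (by simpa using Lp.memLp k)
    refine h2.trans (le_of_eq ?_)
    have h3 : ∀ f : K, (∫ z, ‖(f : S × ℝ → ℝ) z‖ ^ (2 : ℝ) ∂mu) ^ ((1 : ℝ) / 2) = ‖f‖ := by
      intro f
      have h4 : ‖f‖ ^ 2 = ∫ z, ‖(f : S × ℝ → ℝ) z‖ ^ (2 : ℝ) ∂mu := by
        rw [← real_inner_self_eq_norm_sq, L2.inner_def]
        refine integral_congr_ae (Eventually.of_forall fun z => ?_)
        simp only
        rw [real_inner_self_eq_norm_sq, Real.rpow_two]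
      rw [← h4, ← Real.sqrt_eq_rpow, Real.sqrt_sq (norm_nonneg _)]
    rw [h3, h3, LinearIsometry.norm_map]
  have hm2 : AEStronglyMeasurable (fun r : ℝ => ∫ z, ‖g (z.1, z.2 - r) * k z‖ ∂mu)
      (volume.restrict (Set.uIoc 0 h)) := hmeas.norm.integral_prod_right'
  have _i : IsFiniteMeasure (volume.restrict (Set.uIoc 0 h)) := by
    unfold Set.uIoc
    infer_instance
  refine Integrable.mono' (integrable_const (‖G‖ * ‖k‖)) hm2 (Eventually.of_forall fun r => ?_)
  rw [Real.norm_of_nonneg (integral_nonneg fun z => norm_nonneg _)]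
  exact hbd r

lemma tau_eq (hGrp : St_Grp1) {F G : K} {f g : S × ℝ → ℝ}
    (hF : (F : S × ℝ → ℝ) =ᵐ[mu] f) (hG : (G : S × ℝ → ℝ) =ᵐ[mu] g) (hg : Continuous g)
    (hd : ∀ (w : S) (p : ℝ), HasDerivAt (fun p => f (w, p)) (g (w, p)) p) (h : ℝ) :
    tau h F = F - ∫ r in (0 : ℝ)..h, tau r G := by
  obtain ⟨_, _, _, _, _, _, _, hcont, _⟩ := hGrp
  have hcG := hcont G
  refine ext_inner_left ℝ fun k => ?_
  rw [inner_sub_right]
  have h1 : inner ℝ k (∫ r in (0 : ℝ)..h, tau r G) = ∫ r in (0 : ℝ)..h, inner ℝ k (tau r G) := by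
    have := (innerSL ℝ k).intervalIntegral_comp_comm
      ((hcG.intervalIntegrable (μ := volume) 0 h))
    exact this.symm
  rw [h1]
  have hFh : (fun z : S × ℝ => f (z.1, z.2 - h)) =ᵐ[mu] (tau h F : S × ℝ → ℝ) := by
    have h2 := (mp_shift (g := fun _ => h) measurable_const).quasiMeasurePreserving.ae hF
    filter_upwards [tau_coe h F, h2] with z h3 h4
    rw [h3, h4]
  have hftc : ∀ z : S × ℝ, f z - f (z.1, z.2 - h) = ∫ r in (0 : ℝ)..h, g (z.1, z.2 - r) := by
    intro z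
    have h2 : ∀ r ∈ Set.uIcc 0 h, HasDerivAt (fun r => - f (z.1, z.2 - r)) (g (z.1, z.2 - r)) r := by
      intro r _
      have h3 : HasDerivAt (fun r : ℝ => z.2 - r) (-1) r := by
        simpa using (hasDerivAt_id r).const_sub z.2
      have h4 := (hd z.1 (z.2 - r)).comp r h3
      have h5 := h4.neg
      have h6 : -(g (z.1, z.2 - r) * -1) = g (z.1, z.2 - r) := by ring
      rw [h6] at h5
      exact h5
    have h3 := intervalIntegral.integral_eq_sub_of_hasDerivAt h2
      ((hg.comp (by fun_prop : Continuous fun r : ℝ => ((z.1, z.2 - r) : S × ℝ))).intervalIntegrable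
        _ _)
    rw [h3]
    simp only [sub_zero]
    ring
  -- Fubini
  have hint := integrable_aux hG hg k h
  have hswap : ∫ z, (∫ r in (0 : ℝ)..h, g (z.1, z.2 - r)) * k z ∂mu =
      ∫ r in (0 : ℝ)..h, ∫ z, g (z.1, z.2 - r) * k z ∂mu := by
    have h2 : ∀ z : S × ℝ, (∫ r in (0 : ℝ)..h, g (z.1, z.2 - r)) * k z =
        ∫ r in (0 : ℝ)..h, g (z.1, z.2 - r) * k z := by
      intro z
      rw [intervalIntegral.integral_mul_const]
    simp_rw [h2]
    simp only [intervalIntegral.intervalIntegral_eq_integral_uIoc, smul_eq_mul]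
    rw [integral_const_mul]
    congr 1
    exact integral_integral_swap hint.swap
  have hinner : ∀ r, inner ℝ k (tau r G) = ∫ z, g (z.1, z.2 - r) * k z ∂mu := by
    intro r
    rw [L2.inner_def]
    refine integral_congr_ae ?_
    have h2 := (mp_shift (g := fun _ => r) measurable_const).quasiMeasurePreserving.ae hG
    filter_upwards [tau_coe r G, h2] with z h3 h4
    rw [h3, h4]
    simp
  simp_rw [hinner]
  rw [← hswap]
  have e1 : inner ℝ k (tau h F) = ∫ z, f (z.1, z.2 - h) * k z ∂mu := by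
    rw [L2.inner_def]
    refine integral_congr_ae ?_
    filter_upwards [hFh] with z hz
    rw [← hz]
    simp
  have e2 : inner ℝ k F = ∫ z, f z * k z ∂mu := by
    rw [L2.inner_def]
    refine integral_congr_ae ?_
    filter_upwards [hF] with z hz
    rw [← hz]
    simp
  have i1 : Integrable (fun z : S × ℝ => f (z.1, z.2 - h) * k z) mu := by
    refine (integrable_congr ?_).2 ((Lp.memLp (tau h F)).integrable_mul (Lp.memLp k))
    filter_upwards [hFh] with z hz
    rw [hz]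
    rfl
  have i2 : Integrable (fun z : S × ℝ => f z * k z) mu := by
    refine (integrable_congr ?_).2 ((Lp.memLp F).integrable_mul (Lp.memLp k))
    filter_upwards [hF] with z hz
    rw [← hz]
    rfl
  rw [e1, e2]
  have e3 : ∫ z, (∫ r in (0 : ℝ)..h, g (z.1, z.2 - r)) * k z ∂mu =
      ∫ z, (f z * k z - f (z.1, z.2 - h) * k z) ∂mu := by
    refine integral_congr_ae (Eventually.of_forall fun z => ?_)
    simp only
    rw [← hftc z]
    ring
  rw [e3, integral_sub i2 i1]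
  ring

lemma hasDeriv_tau (hGrp : St_Grp1) {F G : K} {f g : S × ℝ → ℝ}
    (hF : (F : S × ℝ → ℝ) =ᵐ[mu] f) (hG : (G : S × ℝ → ℝ) =ᵐ[mu] g) (hg : Continuous g)
    (hd : ∀ (w : S) (p : ℝ), HasDerivAt (fun p => f (w, p)) (g (w, p)) p) (t : ℝ) :
    HasDerivAt (fun t => tau t F) (- tau t G) t := by
  have hcG : Continuous fun r => tau r G := hGrp.2.2.2.2.2.2.2.1 G
  have h1 : (fun t => tau t F) = fun t => F - ∫ r in (0 : ℝ)..t, tau r G := by
    funext t
    exact tau_eq hGrp hF hG hg hd t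
  rw [h1]
  have h2 := intervalIntegral.integral_hasDerivAt_right (hcG.intervalIntegrable 0 t)
    (hcG.stronglyMeasurableAtFilter _ _) hcG.continuousAt
  exact h2.const_sub F

end DrTx

open DrTx in
theorem thm_DrT (hGrp : St_Grp1) (hPar : St_Par) (hJD : St_JD) : St_DrT := by
  intro s φ hs1 hs2 hφ t
  obtain ⟨_, p2, _⟩ := hPar (1 + s) 0 0 φ φ hφ hφ
  obtain ⟨p3, _⟩ := hPar (s - 1) 0 0 φ φ hφ hφ
  obtain ⟨_, p4, _⟩ := hPar (s - 1) 0 0 φ φ hφ hφ
  obtain ⟨c1, m1⟩ := p2 (by linarith)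
  obtain ⟨c2, m2⟩ := p3 (by linarith)
  obtain ⟨c3, m3⟩ := p4 (by linarith)
  obtain ⟨_, d2, _, _, _, d6⟩ := hJD (1 + s) φ hφ
  obtain ⟨d1, _⟩ := hJD (s - 1) φ hφ
  have e1 : 1 + s - 2 = s - 1 := by ring
  rw [e1] at d2 d6
  have hR : (Rs s φ : S × ℝ → ℝ) =ᵐ[mu] fun z => - J1F (1 + s) φ z := by
    unfold Rs J1
    filter_upwards [Lp.coeFn_neg (toK (J1F (1 + s) φ)), toK_coe m1] with z h1 h2
    rw [h1, Pi.neg_apply, h2]
  have hdR : (dRs s φ : S × ℝ → ℝ) =ᵐ[mu] J0F (s - 1) φ := by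
    unfold dRs J0
    exact toK_coe m2
  have hRl : Rs s (lap φ) = J1 (s - 1) φ := by
    unfold Rs
    rw [d6, neg_neg]
  refine ⟨?_, ?_⟩
  · refine hasDeriv_tau hGrp hR hdR c2 (fun w p => ?_) t
    have := (d2 (by linarith) w p).neg
    rw [neg_neg] at this
    exact this
  · rw [hRl]
    refine hasDeriv_tau hGrp hdR (toK_coe m3) c3 (fun w p => d1 (by linarith) w p) t

end Pool.Agent.QWF
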