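import Pool.Agent.QWF.StB
import Pool.Agent.QWE.DuhI

set_option autoImplicit false

/-!
# QWF, DuhI: Duhamel integrals
-/

open MeasureTheory Filter Topology Set
open scoped ENNReal NNReal RealInnerProductSpace

namespace Pool.Agent.QWF


namespace DuhIx

theorem sig_lt {b : ℝ} (hb : 4 < b) : |sig b| < 1 / 2 := by
  have hb0 : 0 < b := by linarith
  have h1 : 0 < 2 / b := by positivity
  have h2 : 2 / b < 1 := by
    rw [div_lt_one hb0]
    linarith
  rw [sig, abs_lt]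
  constructor
  · linarith
  · linarith

lemma tau_cont (hG : St_Grp1) : Continuous (fun q : ℝ × K => tau q.1 q.2) := by
  obtain ⟨_, _, _, _, _, _, _, hc, _⟩ := hG
  rw [continuous_iff_continuousAt]
  rintro ⟨s, k⟩
  rw [ContinuousAt, tendsto_iff_norm_sub_tendsto_zero]
  have h1 : ∀ q : ℝ × K, ‖tau q.1 q.2 - tau s k‖ ≤ ‖q.2 - k‖ + ‖tau q.1 k - tau s k‖ := by
    intro q
    have h2 : tau q.1 q.2 - tau s k = tau q.1 (q.2 - k) + (tau q.1 k - tau s k) := by
      rw [map_sub]; abel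
    rw [h2]
    refine le_trans (norm_add_le _ _) ?_
    rw [LinearIsometry.norm_map]
  have h3 : Tendsto (fun q : ℝ × K => ‖q.2 - k‖ + ‖tau q.1 k - tau s k‖) (𝓝 (s, k)) (𝓝 0) := by
    have h4 : Continuous (fun q : ℝ × K => ‖q.2 - k‖ + ‖tau q.1 k - tau s k‖) :=
      (continuous_snd.sub continuous_const).norm.add
        (((hc k).comp continuous_fst).sub continuous_const).norm
    have h5 := h4.tendsto (s, k)
    simpa using h5
  exact squeeze_zero (fun q => norm_nonneg _) h1 h3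

theorem N_lsc (hLsc : St_LscP) {s : ℝ} (hs : |s| < 1 / 2) (p : ℝ≥0∞) (hp : 1 ≤ p) :
    LowerSemicontinuous (fun k : K => eLpNorm (U s k) p volume) := by
  have h := (hLsc s p univ hs hp MeasurableSet.univ).1
  simpa using h

theorem N_add (hFld : St_FldP) {s : ℝ} (hs : |s| < 1 / 2) (p : ℝ≥0∞) (hp : 1 ≤ p) (k k' : K) :
    eLpNorm (U s (k + k')) p volume ≤ eLpNorm (U s k) p volume + eLpNorm (U s k') p volume := by
  obtain ⟨C, -, hF, hL, -⟩ := hFld s hs
  have h1 := (hL 1 k k').1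
  rw [one_smul] at h1
  rw [eLpNorm_congr_ae h1]
  simp only [one_mul]
  exact eLpNorm_add_le (hF k).1.1.1 (hF k').1.1.1 hp

theorem N_smul (hFld : St_FldP) {s : ℝ} (hs : |s| < 1 / 2) (p : ℝ≥0∞) (c : ℝ) (k : K) :
    eLpNorm (U s (c • k)) p volume ≤ ENNReal.ofReal |c| * eLpNorm (U s k) p volume := by
  obtain ⟨C, -, -, hL, -⟩ := hFld s hs
  have h0 : U s (0 : K) =ᵐ[volume] fun _ => 0 := by
    have h1 := (hL (-1) 0 0).1
    rw [smul_zero, add_zero] at h1
    filter_upwards [h1] with x hx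
    linarith
  have h1 := (hL c 0 k).1
  rw [zero_add] at h1
  have h2 : U s (c • k) =ᵐ[volume] c • U s k := by
    filter_upwards [h0, h1] with x hx1 hx2
    rw [hx2, hx1, zero_add, Pi.smul_apply, smul_eq_mul]
  rw [eLpNorm_congr_ae h2, eLpNorm_const_smul, Real.enorm_eq_ofReal_abs]

end DuhIx

open Pool.Agent.QWE.DuhIx (gen_cont gen_norm gen_strich) in
/-- **DuhI** (Duhamel integrals). -/
theorem thm_DuhI (hG1 : St_Grp1) (hFld : St_FldP) (hLsc : St_LscP)
    (hStr : St_StrS) : St_DuhI := by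
  intro b hb
  obtain ⟨C, hC, hS⟩ := hStr b hb
  refine ⟨C, hC, ?_⟩
  intro x y t0 G hx hy hGi
  have hs := DuhIx.sig_lt hb
  have htc := DuhIx.tau_cont hG1
  have p1 : (1 : ℝ≥0∞) ≤ ENNReal.ofReal (4 * b) := by
    rw [← ENNReal.ofReal_one]
    exact ENNReal.ofReal_le_ofReal (by linarith)
  have p2 : (1 : ℝ≥0∞) ≤ ENNReal.ofReal (b * (b + 2)) := by
    rw [← ENNReal.ofReal_one]
    refine ENNReal.ofReal_le_ofReal ?_
    nlinarith
  refine ⟨gen_cont tau htc hG1.1 x y t0 G hx hy hGi, gen_norm tau x y t0 G hx hy hGi, ?_, ?_⟩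
  · exact gen_strich tau htc (fun k : K => sn b k)
      (DuhIx.N_lsc hLsc hs _ p1) (DuhIx.N_add hFld hs _ p1) (DuhIx.N_smul hFld hs _) b
      (by linarith) C hC (fun k => (hS k).1) x y t0 G hx hy hGi
  · exact gen_strich tau htc
      (fun k : K => eLpNorm (U (sig b) k) (ENNReal.ofReal (b * (b + 2))) volume)
      (DuhIx.N_lsc hLsc hs _ p2) (DuhIx.N_add hFld hs _ p2) (DuhIx.N_smul hFld hs _) ((b + 2) / 2)
      (by linarith) C hC (fun k => (hS k).2) x y t0 G hx hy hGi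

end Pool.Agent.QWF
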