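import Pool.Agent.QWF.StE

set_option autoImplicit false

/-!
# QWF, E3a: lower bound near the core
-/

open MeasureTheory Filter Topology Set
open scoped ENNReal NNReal RealInnerProductSpace

namespace Pool.Agent.QWF


namespace E3ax

lemma sig_lt {b : ℝ} (hb : 4 < b) : |sig b| < 1 / 2 := by
  have h1 : 0 < 2 / b := by positivity
  have h2 : 2 / b < 1 := by rw [div_lt_one (by linarith)]; linarith
  unfold sig
  rw [abs_lt]
  constructor <;> linarith

/-- the local power. -/
noncomputable def F (b : ℝ) (κ : K) (M : ℝ) : ℝ≥0∞ :=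
  ∫⁻ z in Metric.closedBall (0 : E) M, ENNReal.ofReal (|U (sig b) κ z| ^ (b + 2))

lemma pow_b {b : ℝ} (hb : 4 < b) (f : E → ℝ) (B : Set E) :
    eLpNorm f (ENNReal.ofReal (b + 2)) (volume.restrict B) ^ (b + 2) =
      ∫⁻ x in B, ENNReal.ofReal (|f x| ^ (b + 2)) := by
  have e0 : ((b + 2).toNNReal : ℝ) = b + 2 := Real.coe_toNNReal _ (by linarith)
  have h4 := eLpNorm_nnreal_pow_eq_lintegral (f := f) (μ := volume.restrict B)
    (p := (b + 2).toNNReal) (by
      rw [Ne, Real.toNNReal_eq_zero, not_le]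
      linarith)
  rw [e0] at h4
  have h5 : eLpNorm f (ENNReal.ofReal (b + 2)) (volume.restrict B) ^ (b + 2) =
      ∫⁻ x in B, ‖f x‖ₑ ^ (b + 2) := h4
  rw [h5]
  apply lintegral_congr
  intro x
  rw [Real.enorm_eq_ofReal_abs, ENNReal.ofReal_rpow_of_nonneg (abs_nonneg _) (by linarith)]

lemma F_eq {b : ℝ} (hb : 4 < b) (κ : K) (M : ℝ) : F b κ M =
    eLpNorm ((Metric.closedBall (0 : E) M).indicator (U (sig b) κ)) (ENNReal.ofReal (b + 2)) volume ^
      (b + 2) := by
  rw [eLpNorm_indicator_eq_eLpNorm_restrict Metric.isClosed_closedBall.measurableSet, pow_b hb]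
  rfl

lemma F_lsc {b : ℝ} (hb : 4 < b) (hLsc : St_LscP) (M : ℝ) :
    LowerSemicontinuous (fun κ : K => F b κ M) := by
  have h1 := (hLsc (sig b) (ENNReal.ofReal (b + 2)) (Metric.closedBall (0 : E) M) (sig_lt hb) (by
    rw [← ENNReal.ofReal_one]
    exact ENNReal.ofReal_le_ofReal (by linarith)) Metric.isClosed_closedBall.measurableSet).1
  have h2 := Continuous.comp_lowerSemicontinuous (ENNReal.continuous_rpow_const (y := b + 2)) h1
    (fun a c hac => ENNReal.rpow_le_rpow hac (by linarith))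
  have h3 : (fun κ : K => F b κ M) = (fun x : ℝ≥0∞ => x ^ (b + 2)) ∘
      (fun κ : K => eLpNorm ((Metric.closedBall (0 : E) M).indicator (U (sig b) κ))
        (ENNReal.ofReal (b + 2)) volume) := by
    funext κ
    exact F_eq hb κ M
  rw [h3]
  exact h2

lemma F_meas {b : ℝ} (hb : 4 < b) (hLsc : St_LscP) (M : ℝ) (g : ℝ → K) (hg : Continuous g) :
    Measurable fun s => F b (g s) M := by
  have h1 : LowerSemicontinuous ((fun κ : K => F b κ M) ∘ g) :=
    LowerSemicontinuous.comp (f := fun κ : K => F b κ M) (F_lsc hb hLsc M) hg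
  exact h1.measurable

lemma F_mono (b : ℝ) (κ : K) {M M' : ℝ} (h : M ≤ M') : F b κ M ≤ F b κ M' :=
  lintegral_mono_set (Metric.closedBall_subset_closedBall h)

lemma F_zero {b : ℝ} (hb : 4 < b) (hFld : St_FldP) (κ : K) (h : ∀ M : ℕ, F b κ M = 0) :
    U (sig b) κ =ᵐ[volume] 0 := by
  obtain ⟨C, -, hC, -⟩ := hFld (sig b) (sig_lt hb)
  have hm : AEStronglyMeasurable (U (sig b) κ) volume := (hC κ).1.1.1
  have h1 : ∀ M : ℕ, (Metric.closedBall (0 : E) M).indicator (U (sig b) κ) =ᵐ[volume] 0 := by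
    intro M
    have h2 := h M
    rw [F_eq hb, ENNReal.rpow_eq_zero_iff_of_pos (by linarith)] at h2
    exact (eLpNorm_eq_zero_iff (hm.indicator Metric.isClosed_closedBall.measurableSet) (by
      rw [Ne, ENNReal.ofReal_eq_zero, not_le]
      linarith)).1 h2
  filter_upwards [ae_all_iff.2 h1] with z hz
  obtain ⟨M, hM⟩ := exists_nat_ge ‖z‖
  have h3 := hz M
  rwa [indicator_of_mem (mem_closedBall_zero_iff.2 hM)] at h3

/-- scaling. -/
lemma lint_scale (c : ℝ) (hc : 0 < c) (f : E → ℝ≥0∞) :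
    ∫⁻ z, f (c • z) = ENNReal.ofReal ((c ^ 4)⁻¹) * ∫⁻ z, f z := by
  have h1 := (Homeomorph.smulOfNeZero c hc.ne' : E ≃ₜ E).measurableEmbedding.lintegral_map
    (μ := (volume : Measure E)) f
  have h2 : Measure.map (⇑(Homeomorph.smulOfNeZero c hc.ne' : E ≃ₜ E)) (volume : Measure E) =
      ENNReal.ofReal ((c ^ 4)⁻¹) • (volume : Measure E) := by
    have h3 := Measure.map_addHaar_smul (volume : Measure E) hc.ne'
    rw [finrank_euclideanSpace, Fintype.card_fin, abs_of_pos (by positivity)] at h3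
    exact h3
  rw [h2, lintegral_smul_measure, smul_eq_mul] at h1
  exact h1.symm

lemma lint_time (t c : ℝ) (hc : 0 < c) (f : ℝ → ℝ≥0∞) :
    ∫⁻ s, f (t + c * s) = ENNReal.ofReal (c⁻¹) * ∫⁻ s, f s := by
  have h1 := (Homeomorph.mulLeft₀ c hc.ne').measurableEmbedding.lintegral_map
    (μ := (volume : Measure ℝ)) (fun s => f (t + s))
  have h2 : Measure.map (⇑(Homeomorph.mulLeft₀ c hc.ne')) (volume : Measure ℝ) =
      ENNReal.ofReal (c⁻¹) • (volume : Measure ℝ) := by
    have h3 := Real.map_volume_mul_left hc.ne'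
    rw [abs_of_pos (by positivity)] at h3
    exact h3
  rw [h2, lintegral_smul_measure, smul_eq_mul, lintegral_add_left_eq_self] at h1
  exact h1.symm

lemma lint_ball {b : ℝ} (hb : 4 < b) (hAct : St_ActP) (x : E) (a : ℝ) (κ : K) (C : ℝ) :
    ∫⁻ z in Metric.closedBall x (C * Real.exp (-a)),
      ENNReal.ofReal (|U (sig b) (gr x a κ) z| ^ (b + 2)) =
      ENNReal.ofReal (Real.exp (-((2 - 4 / b) * a))) * F b κ C := by
  obtain ⟨h1, -⟩ := hAct (sig b) (sig_lt hb)
  have hm : ∀ (y : E) (r : ℝ), MeasurableSet (Metric.closedBall y r) := fun y r =>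
    Metric.isClosed_closedBall.measurableSet
  have hb0 : b ≠ 0 := by linarith
  have hes : 1 / 2 - sig b = 2 / b := by
    unfold sig
    ring
  have e1 : ∫⁻ z in Metric.closedBall x (C * Real.exp (-a)),
      ENNReal.ofReal (|U (sig b) (gr x a κ) z| ^ (b + 2)) =
      ∫⁻ z in Metric.closedBall x (C * Real.exp (-a)),
      ENNReal.ofReal (Real.exp ((2 + 4 / b) * a)) *
        ENNReal.ofReal (|U (sig b) κ (Real.exp a • (z - x))| ^ (b + 2)) := by
    apply lintegral_congr_ae
    filter_upwards [ae_restrict_of_ae (h1 x a κ).1] with z hz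
    rw [hz, hes, ← ENNReal.ofReal_mul (Real.exp_pos _).le, abs_mul, abs_of_pos (Real.exp_pos _),
      Real.mul_rpow (Real.exp_pos _).le (abs_nonneg _), ← Real.exp_mul]
    congr 3
    field_simp
    ring
  have e2 : ∫⁻ z in Metric.closedBall x (C * Real.exp (-a)),
      ENNReal.ofReal (Real.exp ((2 + 4 / b) * a)) *
        ENNReal.ofReal (|U (sig b) κ (Real.exp a • (z - x))| ^ (b + 2)) =
      ∫⁻ z in Metric.closedBall 0 (C * Real.exp (-a)),
      ENNReal.ofReal (Real.exp ((2 + 4 / b) * a)) *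
        ENNReal.ofReal (|U (sig b) κ (Real.exp a • z)| ^ (b + 2)) := by
    rw [← lintegral_indicator (hm _ _), ← lintegral_indicator (hm _ _)]
    rw [← lintegral_sub_right_eq_self (fun z => (Metric.closedBall 0 (C * Real.exp (-a))).indicator
      (fun z => ENNReal.ofReal (Real.exp ((2 + 4 / b) * a)) *
        ENNReal.ofReal (|U (sig b) κ (Real.exp a • z)| ^ (b + 2))) z) x]
    apply lintegral_congr
    intro z
    by_cases hz : z ∈ Metric.closedBall x (C * Real.exp (-a))
    · have hz' : z - x ∈ Metric.closedBall (0 : E) (C * Real.exp (-a)) := by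
        rw [Metric.mem_closedBall, dist_eq_norm] at hz
        rwa [mem_closedBall_zero_iff]
      rw [indicator_of_mem hz, indicator_of_mem hz']
    · have hz' : z - x ∉ Metric.closedBall (0 : E) (C * Real.exp (-a)) := by
        rw [Metric.mem_closedBall, dist_eq_norm] at hz
        rwa [mem_closedBall_zero_iff]
      rw [indicator_of_notMem hz, indicator_of_notMem hz']
  have hea := Real.exp_pos a
  have e4 : ∫⁻ z in Metric.closedBall 0 (C * Real.exp (-a)),
        ENNReal.ofReal (Real.exp ((2 + 4 / b) * a)) *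
          ENNReal.ofReal (|U (sig b) κ (Real.exp a • z)| ^ (b + 2)) =
      ENNReal.ofReal (Real.exp ((2 + 4 / b) * a)) *
        (ENNReal.ofReal ((Real.exp a ^ 4)⁻¹) * F b κ C) := by
    rw [lintegral_const_mul' _ _ ENNReal.ofReal_ne_top]
    congr 1
    unfold F
    rw [← lintegral_indicator (hm _ _), ← lintegral_indicator (hm _ _), ← lint_scale _ hea]
    apply lintegral_congr
    intro z
    have hiff : z ∈ Metric.closedBall (0 : E) (C * Real.exp (-a)) ↔
        Real.exp a • z ∈ Metric.closedBall (0 : E) C := by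
      rw [mem_closedBall_zero_iff, mem_closedBall_zero_iff, norm_smul, Real.norm_eq_abs,
        abs_of_pos hea, Real.exp_neg, ← div_eq_mul_inv, le_div_iff₀ hea, mul_comm]
    by_cases hz : z ∈ Metric.closedBall (0 : E) (C * Real.exp (-a))
    · rw [indicator_of_mem hz, indicator_of_mem (hiff.1 hz)]
    · rw [indicator_of_notMem hz, indicator_of_notMem (fun h => hz (hiff.2 h))]
  rw [e1, e2, e4, ← mul_assoc, ← ENNReal.ofReal_mul (Real.exp_pos _).le]
  congr 2
  rw [← Real.exp_nat_mul, ← Real.exp_neg, ← Real.exp_add]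
  congr 1
  push_cast
  ring

/-- the change of variables. -/
lemma lint_total {b : ℝ} (hb : 4 < b) (hGrA : St_GrA) (hAct : St_ActP) (k : ℝ → K) (x : E) (a t C : ℝ) :
    ∫⁻ s in Icc t (t + Real.exp (-a)), ∫⁻ z in Metric.closedBall x (C * Real.exp (-a)),
      ENNReal.ofReal (|U (sig b) (k s) z| ^ (b + 2)) =
    ENNReal.ofReal (Real.exp (-((3 - 4 / b) * a))) *
      ∫⁻ s in Icc (0 : ℝ) 1, F b (ig x a (k (t + Real.exp (-a) * s))) C := by
  have hid := hGrA.2.2.1
  have hc := Real.exp_pos (-a)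
  have e1 : ∀ s, ∫⁻ z in Metric.closedBall x (C * Real.exp (-a)),
      ENNReal.ofReal (|U (sig b) (k s) z| ^ (b + 2)) = ENNReal.ofReal (Real.exp (-((2 - 4 / b) * a))) *
        F b (ig x a (k s)) C := by
    intro s
    rw [← lint_ball hb hAct x a (ig x a (k s)) C, (hid x a (k s)).1]
  rw [lintegral_congr e1, lintegral_const_mul' _ _ ENNReal.ofReal_ne_top]
  rw [← lintegral_indicator measurableSet_Icc, ← lintegral_indicator measurableSet_Icc]
  have h1 := lint_time t (Real.exp (-a)) hc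
    ((Icc t (t + Real.exp (-a))).indicator fun s => F b (ig x a (k s)) C)
  have h2 : ∀ s, (Icc t (t + Real.exp (-a))).indicator (fun s => F b (ig x a (k s)) C)
      (t + Real.exp (-a) * s) =
      (Icc (0 : ℝ) 1).indicator (fun s => F b (ig x a (k (t + Real.exp (-a) * s))) C) s := by
    intro s
    have hiff : t + Real.exp (-a) * s ∈ Icc t (t + Real.exp (-a)) ↔ s ∈ Icc (0 : ℝ) 1 := by
      rw [mem_Icc, mem_Icc]
      constructor
      · rintro ⟨h3, h4⟩
        constructor <;> by_contra h5 <;> push Not at h5 <;> nlinarith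
      · rintro ⟨h3, h4⟩
        constructor <;> nlinarith
    by_cases hs : s ∈ Icc (0 : ℝ) 1
    · rw [indicator_of_mem hs, indicator_of_mem (hiff.2 hs)]
    · rw [indicator_of_notMem hs, indicator_of_notMem (fun h => hs (hiff.1 h))]
  rw [lintegral_congr h2] at h1
  rw [h1, ← mul_assoc, ← ENNReal.ofReal_mul (Real.exp_pos _).le]
  congr 2
  rw [← Real.exp_neg, neg_neg, ← Real.exp_add]
  congr 1
  ring

end E3ax

open E3ax in
theorem thm_E3a (hFld : St_FldP) (hC3 : St_C3) (hLsc : St_LscP) (hUV0 : St_UV0) (hAct : St_ActP)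
    (hGrA : St_GrA) : St_E3a := by
  intro b hb Q k x a hk
  by_contra hcon
  push Not at hcon
  have hn : ∀ n : ℕ, ∃ t : ℝ, ∫⁻ s in Icc (0 : ℝ) 1,
      F b (ig (x t) (a t) (k (t + Real.exp (-(a t)) * s))) ((n : ℝ) + 1) ≤
      ENNReal.ofReal (1 / ((n : ℝ) + 1)) := by
    intro n
    obtain ⟨t, ht⟩ := hcon ((n : ℝ) + 1) (1 / ((n : ℝ) + 1)) (by positivity) (by positivity)
    refine ⟨t, ?_⟩
    rw [lint_total hb hGrA hAct, ENNReal.ofReal_mul (by positivity),
      mul_comm (ENNReal.ofReal (1 / ((n : ℝ) + 1)))] at ht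
    have h0 : ENNReal.ofReal (Real.exp (-((3 - 4 / b) * a t))) ≠ 0 := by
      rw [Ne, ENNReal.ofReal_eq_zero, not_le]
      exact Real.exp_pos _
    exact ((ENNReal.mul_lt_mul_iff_right h0 ENNReal.ofReal_ne_top).1 ht).le
  choose t ht using hn
  obtain ⟨hQ, h0, hmax, hkQ⟩ := hk
  choose κ hκQ hκ using fun n => hkQ (t n) (mem_univ _)
  obtain ⟨κ0, hκ0, φ, hφ, hlim⟩ := hQ.tendsto_subseq hκQ
  obtain ⟨k', x', a', hk', hk'0, hconv, -⟩ := hC3 b hb Q k x a ⟨hQ, h0, hmax, hkQ⟩ (fun n => t (φ n))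
    (fun n => κ (φ n)) κ0 (fun n => ⟨hκQ _, hκ _⟩) hlim
  have hkc : Continuous k := by
    rw [← continuousOn_univ]
    exact hmax.1.2.1
  have hgc : ∀ (y : E) (c : ℝ), Continuous fun κ : K => ig y c κ := by
    intro y c
    have h : Continuous fun z : E × ℝ × K => gr z.1 z.2.1 z.2.2 := hGrA.2.2.2.2.2.2.2
    have h1 : Continuous fun κ : K => ((-(Real.exp c • y), -c, κ) : E × ℝ × K) :=
      continuous_const.prodMk (continuous_const.prodMk continuous_id)
    exact (h.comp h1).congr fun κ => rfl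
  set kn : ℕ → ℝ → K := fun n s => ig (x (t (φ n))) (a (t (φ n)))
    (k (t (φ n) + Real.exp (-(a (t (φ n)))) * s)) with hkn
  have hknc : ∀ n, Continuous (kn n) := fun n => (hgc _ _).comp (hkc.comp (by fun_prop))
  have hknlim : ∀ s, Tendsto (fun n => kn n s) atTop (𝓝 (k' s)) := fun s =>
    hconv (fun _ => s) s tendsto_const_nhds
  have hzero : ∀ M : ℕ, ∫⁻ s in Icc (0 : ℝ) 1, F b (k' s) M = 0 := by
    intro M
    have hmeas : ∀ n, Measurable fun s => F b (kn n s) M := fun n =>
      F_meas hb hLsc M (kn n) (hknc n)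
    have h1 : ∀ s, F b (k' s) M ≤ liminf (fun n => F b (kn n s) M) atTop := by
      intro s
      have h0 : LowerSemicontinuousAt (fun κ : K => F b κ M) (k' s) := F_lsc hb hLsc M (k' s)
      refine (lowerSemicontinuousAt_iff_le_liminf.1 h0).trans ?_
      exact liminf_le_liminf_of_le (u := fun κ : K => F b κ M) (hknlim s)
    have h2 : ∫⁻ s in Icc (0 : ℝ) 1, F b (k' s) M ≤
        liminf (fun n => ∫⁻ s in Icc (0 : ℝ) 1, F b (kn n s) M) atTop :=
      (lintegral_mono h1).trans (lintegral_liminf_le hmeas)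
    have h3 : Tendsto (fun n => ∫⁻ s in Icc (0 : ℝ) 1, F b (kn n s) M) atTop (𝓝 0) := by
      have h4 : Tendsto (fun n : ℕ => ENNReal.ofReal (1 / ((n : ℝ) + 1))) atTop (𝓝 0) := by
        rw [← ENNReal.ofReal_zero]
        exact ENNReal.tendsto_ofReal tendsto_one_div_add_atTop_nhds_zero_nat
      refine tendsto_of_tendsto_of_tendsto_of_le_of_le' tendsto_const_nhds h4
        (Eventually.of_forall fun n => bot_le) ?_
      filter_upwards [eventually_ge_atTop M] with n hMn
      have h5 := ht (φ n)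
      have h6 : n ≤ φ n := hφ.id_le n
      have h7 : (M : ℝ) ≤ (φ n : ℝ) + 1 := by
        have : (M : ℝ) ≤ (φ n : ℝ) := by exact_mod_cast hMn.trans h6
        linarith
      calc ∫⁻ s in Icc (0 : ℝ) 1, F b (kn n s) M
          ≤ ∫⁻ s in Icc (0 : ℝ) 1, F b (kn n s) ((φ n : ℝ) + 1) :=
            lintegral_mono fun s => F_mono b _ h7
        _ ≤ ENNReal.ofReal (1 / ((φ n : ℝ) + 1)) := h5
        _ ≤ ENNReal.ofReal (1 / ((n : ℝ) + 1)) := by
            apply ENNReal.ofReal_le_ofReal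
            have : (n : ℝ) ≤ (φ n : ℝ) := by exact_mod_cast h6
            gcongr
    rw [h3.liminf_eq] at h2
    exact le_antisymm h2 bot_le
  have hk'c : Continuous k' := by
    rw [← continuousOn_univ]
    exact hk'.2.2.1.1.2.1
  have hae : ∀ᵐ s ∂(volume.restrict (Icc (0 : ℝ) 1)), ∀ M : ℕ, F b (k' s) M = 0 := by
    rw [ae_all_iff]
    intro M
    have hmeas : Measurable fun s => F b (k' s) M := F_meas hb hLsc M k' hk'c
    have h1 := (lintegral_eq_zero_iff hmeas).1 (hzero M)
    filter_upwards [h1] with s hs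
    exact hs
  have hU : ∀ᵐ s ∂(volume.restrict (Icc (0 : ℝ) 1)), U (sig b) (k' s) =ᵐ[volume] 0 := by
    filter_upwards [hae] with s hs
    exact F_zero hb hFld (k' s) hs
  have h3 := hUV0 b hb k' hk'.2.2.1.1 hU
  rw [hk'0] at h3
  rw [h3] at hκ0
  exact h0 hκ0

end Pool.Agent.QWF
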