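import Pool.Agent.QWF.StE

set_option autoImplicit false

/-!
# QWF, E4: the energy is zero
-/

open MeasureTheory Filter Topology Set
open scoped ENNReal NNReal RealInnerProductSpace

namespace Pool.Agent.QWF

namespace E4x

lemma sig_lt {b : ℝ} (hb : 4 < b) : |sig b| < 1 / 2 := by
  unfold sig
  have h1 : 0 < 2 / b := by positivity
  have h2 : 2 / b < 1 / 2 := by
    rw [div_lt_iff₀ (by linarith)]
    linarith
  rw [abs_lt]
  constructor <;> linarith

lemma sig_pos {b : ℝ} (hb : 4 < b) : 0 < sig b := by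
  unfold sig
  have h2 : 2 / b < 1 / 2 := by
    rw [div_lt_iff₀ (by linarith)]
    linarith
  linarith

lemma sol_mono {b : ℝ} {k : ℝ → K} (h : IsSol b univ k) (x y : ℝ) : IsSol b (Icc x y) k := by
  obtain ⟨-, h2, h3, h4⟩ := h
  exact ⟨ordConnected_Icc, h2.mono (subset_univ _), fun x _ y _ => h3 x (mem_univ _) y (mem_univ _),
    fun x _ t _ => h4 x (mem_univ _) t (mem_univ _)⟩

end E4x

open E4x in
theorem thm_E4 (hGrA : St_GrA) (hGrP : St_GrP) (hTga : St_Tga) (hEn : St_En)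
    (hZ1 : St_Z1) (hE1 : St_E1) (hE4a : St_E4a) : St_E4 := by
  intro b hb Q k x a hN y D hD ha
  have hs := abs_lt.1 (sig_lt hb)
  obtain ⟨⟨hQ, h0, hmax, hk⟩, -⟩ := hN
  obtain ⟨-, -, -, hnorm, -⟩ := hGrA
  obtain ⟨hext, -⟩ := hGrP (sig b) (sig_lt hb)
  obtain ⟨A, hA⟩ := hQ.isBounded.exists_norm_le
  have hkA : ∀ t, ‖k t‖ ≤ A := by
    intro t
    obtain ⟨κ, hκ, e⟩ := hk t (mem_univ _)
    rw [e, (hnorm _ _ _).1]
    exact hA κ hκ
  obtain ⟨C1, hC1, h1⟩ := hE1 b hb (max A D)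
  obtain ⟨C2, hC2, h2⟩ := hE4a b hb A
  have hF : ∀ t, EB (sig b) C1 (k t) ∧ ∀ n : ℕ,
      (∑ i, ∫ z in xt (y t) (2 ^ n), DU (sig b) (k t) i z ^ 2) +
      (∫ z in xt (y t) (2 ^ n), V (sig b) (k t) z ^ 2) +
      (∫ z in xt (y t) (2 ^ n), |U (sig b) (k t) z| ^ (b + 2)) ≤ C1 * (2 : ℝ) ^ (-(n : ℝ)) := by
    intro t
    refine h1 (k t) (y t) ((hkA t).trans (le_max_left _ _)) fun n => (hD n t).trans ?_
    exact mul_le_mul_of_nonneg_right (le_max_right _ _) (by positivity)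
  have hsol : IsSol b univ k := hmax.1
  have hcons : ∀ t, En b (k t) = En b (k 0) := by
    intro t
    rcases le_total 0 t with ht | ht
    · exact hEn b hb 0 t C1 k ht (sol_mono hsol 0 t) (fun r _ => (hF r).1)
    · exact (hEn b hb t 0 C1 k ht (sol_mono hsol t 0) (fun r _ => (hF r).1)).symm
  have hle : ∀ ε : ℝ, 0 < ε → En b (k 0) ≤ 3 * ε := by
    intro ε hε
    -- the tail
    obtain ⟨n, hn⟩ : ∃ n : ℕ, C1 * (2 : ℝ) ^ (-(n : ℝ)) ≤ ε := by
      obtain ⟨n, hn⟩ := exists_pow_lt_of_lt_one (show 0 < ε / C1 by positivity)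
        (show (1 / 2 : ℝ) < 1 by norm_num)
      refine ⟨n, ?_⟩
      rw [lt_div_iff₀ hC1] at hn
      rw [Real.rpow_neg (by norm_num), Real.rpow_natCast, ← inv_pow]
      have e : (1 / 2 : ℝ) = 2⁻¹ := by norm_num
      rw [e] at hn
      linarith
    obtain ⟨R, hR⟩ : ∃ R : ℝ, R = 2 ^ n := ⟨_, rfl⟩
    have hR0 : 0 < R := by rw [hR]; positivity
    obtain ⟨R', hR'⟩ : ∃ R' : ℝ, R' = R ^ (1 + 2 * sig b) := ⟨_, rfl⟩
    have hR'0 : 0 < R' := by rw [hR']; exact Real.rpow_pos_of_pos hR0 _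
    -- the small ball
    obtain ⟨ρ, hρ⟩ : ∃ ρ : ℝ, ρ = min 1 (ε / C2) := ⟨_, rfl⟩
    have hρ0 : 0 < ρ := by rw [hρ]; exact lt_min one_pos (by positivity)
    have hρ1 : ρ ≤ 1 := by rw [hρ]; exact min_le_left _ _
    have hρ2 : C2 * ρ ^ (1 + 2 * sig b) ≤ ε := by
      have h3 : ρ ≤ ε / C2 := by rw [hρ]; exact min_le_right _ _
      rw [le_div_iff₀ hC2] at h3
      have h4 : ρ ^ (1 + 2 * sig b) ≤ ρ := by
        have h5 := Real.rpow_le_rpow_of_exponent_ge hρ0 hρ1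
          (show (1 : ℝ) ≤ 1 + 2 * sig b by linarith [sig_pos hb])
        rwa [Real.rpow_one] at h5
      nlinarith
    -- the intermediate region
    obtain ⟨e, he⟩ : ∃ e : ℝ, e = min 1 (ε / (2 * C2 * R')) := ⟨_, rfl⟩
    have he0 : 0 < e := by rw [he]; exact lt_min one_pos (by positivity)
    have he1 : e ≤ 1 := by rw [he]; exact min_le_left _ _
    have he2 : C2 * R' * (e ^ 2 + e ^ (b + 2)) ≤ ε := by
      have h3 : e ≤ ε / (2 * C2 * R') := by rw [he]; exact min_le_right _ _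
      rw [le_div_iff₀ (by positivity)] at h3
      have h4 : e ^ 2 ≤ e := by nlinarith
      have h5 : e ^ (b + 2) ≤ e := by
        have := Real.rpow_le_rpow_of_exponent_ge he0 he1 (show (1 : ℝ) ≤ b + 2 by linarith)
        rwa [Real.rpow_one] at this
      have h6 : C2 * R' * (e ^ 2 + e ^ (b + 2)) ≤ C2 * R' * (e + e) :=
        mul_le_mul_of_nonneg_left (by linarith) (by positivity)
      linarith
    obtain ⟨R0, hR00, hT⟩ := hTga (sig b) (sig_lt hb) Q hQ e he0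
    obtain ⟨t, ht⟩ := ha (Real.log (R0 / ρ))
    have hexp : R0 ≤ Real.exp (a t) * ρ := by
      have h3 : R0 / ρ < Real.exp (a t) := by
        rw [← Real.exp_log (show 0 < R0 / ρ by positivity)]
        exact Real.exp_lt_exp.2 ht
      rw [div_lt_iff₀ hρ0] at h3
      exact h3.le
    obtain ⟨κ, hκ, ek⟩ := hk t (mem_univ _)
    have hex : ex (sig b) (xt (x t) ρ) (k t) ≤ e := by
      rw [ek, hext, sub_self, smul_zero]
      exact hT _ hexp κ hκ
    have hex0 : 0 ≤ ex (sig b) (xt (x t) ρ) (k t) := norm_nonneg _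
    have h3 := h2 (k t) (x t) (y t) ρ R C1 (hkA t) (hF t).1 hρ0 hR0
    have h4 := (hF t).2 n
    rw [← hR] at h4
    rw [← hR'] at h3
    have h5 : C2 * R' * (ex (sig b) (xt (x t) ρ) (k t) ^ 2 +
        ex (sig b) (xt (x t) ρ) (k t) ^ (b + 2)) ≤ C2 * R' * (e ^ 2 + e ^ (b + 2)) := by
      have h6 : ex (sig b) (xt (x t) ρ) (k t) ^ (b + 2) ≤ e ^ (b + 2) :=
        Real.rpow_le_rpow hex0 hex (by linarith)
      have h7 : ex (sig b) (xt (x t) ρ) (k t) ^ 2 ≤ e ^ 2 := pow_le_pow_left₀ hex0 hex 2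
      exact mul_le_mul_of_nonneg_left (add_le_add h7 h6) (by positivity)
    rw [← hcons t]
    linarith
  have hz : En b (k 0) = 0 := by
    refine le_antisymm (le_of_forall_pos_le_add fun ε hε => ?_) (hZ1 b hb (k 0) C1 (hF 0).1).1
    have h3 := hle (ε / 3) (by positivity)
    linarith
  have hk0 := (hZ1 b hb (k 0) C1 (hF 0).1).2 hz
  obtain ⟨κ, hκ, e⟩ := hk 0 (mem_univ _)
  have h3 : ‖κ‖ = 0 := by
    rw [← (hnorm (x 0) (a 0) κ).1, ← e, hk0, norm_zero]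
  rw [norm_eq_zero] at h3
  rw [h3] at hκ
  exact h0 hκ

end Pool.Agent.QWF
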