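import Pool.Agent.QWF.StE

set_option autoImplicit false

/-!
# QWF, E4a: splitting of the energy
-/

open MeasureTheory Filter Topology Set
open scoped ENNReal NNReal RealInnerProductSpace

namespace Pool.Agent.QWF


namespace E4ax

/-- the volume of the unit ball. -/
noncomputable def v1 : ℝ := (volume (Metric.ball (0 : E) 1)).toReal

lemma v1_nonneg : 0 ≤ v1 := ENNReal.toReal_nonneg

lemma vol_le (z : E) (r : ℝ) (hr : 0 ≤ r) (B : Set E) (hB : B ⊆ Metric.closedBall z r) :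
    volume B ≤ ENNReal.ofReal (r ^ 4 * v1) := by
  refine (measure_mono hB).trans (le_of_eq ?_)
  rw [Measure.addHaar_closedBall _ _ hr, finrank_euclideanSpace, Fintype.card_fin, v1,
    ENNReal.ofReal_mul (by positivity), ENNReal.ofReal_toReal measure_ball_lt_top.ne]

lemma isOpen_ext (y : E) (ρ : ℝ) : IsOpen (xt y ρ) :=
  isOpen_lt continuous_const (continuous_id.dist continuous_const)

/-- splitting of an integral. -/
lemma split (g : E → ℝ) (hg : Integrable g volume) (hg0 : ∀ x, 0 ≤ g x) (x y : E) (ρ R : ℝ) :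
    ∫ z, g z ≤ (∫ z in xt y R, g z) + (∫ z in Metric.closedBall x ρ, g z) +
      ∫ z in Metric.closedBall y R ∩ xt x ρ, g z := by
  have m1 : MeasurableSet (xt y R) := (isOpen_ext y R).measurableSet
  have m2 : MeasurableSet (Metric.closedBall x ρ) := Metric.isClosed_closedBall.measurableSet
  have m3 : MeasurableSet (Metric.closedBall y R ∩ xt x ρ) :=
    Metric.isClosed_closedBall.measurableSet.inter (isOpen_ext x ρ).measurableSet
  rw [← integral_indicator m1, ← integral_indicator m2, ← integral_indicator m3,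
    ← integral_add (hg.indicator m1) (hg.indicator m2)]
  have e2 := integral_add ((hg.indicator m1).add (hg.indicator m2)) (hg.indicator m3)
  refine le_trans ?_ (le_of_eq e2)
  refine integral_mono hg (((hg.indicator m1).add (hg.indicator m2)).add (hg.indicator m3)) ?_
  intro z
  have n1 : 0 ≤ (xt y R).indicator g z := indicator_nonneg (fun x _ => hg0 x) z
  have n2 : 0 ≤ (Metric.closedBall x ρ).indicator g z := indicator_nonneg (fun x _ => hg0 x) z
  have n3 : 0 ≤ (Metric.closedBall y R ∩ xt x ρ).indicator g z :=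
    indicator_nonneg (fun x _ => hg0 x) z
  change g z ≤ (xt y R).indicator g z + (Metric.closedBall x ρ).indicator g z +
    (Metric.closedBall y R ∩ xt x ρ).indicator g z
  by_cases h1 : z ∈ xt y R
  · rw [indicator_of_mem h1 g]
    linarith
  by_cases h2 : z ∈ Metric.closedBall x ρ
  · rw [indicator_of_mem h2 g]
    linarith
  have h3 : z ∈ Metric.closedBall y R ∩ xt x ρ := by
    refine ⟨?_, ?_⟩
    · exact Metric.mem_closedBall.2 (not_lt.1 h1)
    · exact not_le.1 fun h => h2 (Metric.mem_closedBall.2 h)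
  rw [indicator_of_mem h3 g]
  linarith

lemma restrict_le (f : E → ℝ) (p : ℝ≥0∞) (Ω B : Set E) (hΩ : IsOpen Ω) (hB : B ⊆ Ω) (c : ℝ≥0∞)
    (h : eLpNorm (Ω.indicator f) p volume ≤ c) : eLpNorm f p (volume.restrict B) ≤ c := by
  rw [eLpNorm_indicator_eq_eLpNorm_restrict hΩ.measurableSet] at h
  exact (eLpNorm_mono_measure f (Measure.restrict_mono hB le_rfl)).trans h

lemma full_le (f : E → ℝ) (p : ℝ≥0∞) (B : Set E) (C A : ℝ) (hC : 0 ≤ C) (k : K) (hk : ‖k‖ ≤ A)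
    (h : eLpNorm f p volume ≤ ENNReal.ofReal C * ‖k‖ₑ) :
    eLpNorm f p (volume.restrict B) ≤ ENNReal.ofReal (C * A) := by
  refine (eLpNorm_mono_measure f Measure.restrict_le_self).trans (h.trans ?_)
  rw [← ofReal_norm, ← ENNReal.ofReal_mul hC]
  exact ENNReal.ofReal_le_ofReal (mul_le_mul_of_nonneg_left hk hC)

lemma sig_lt {b : ℝ} (hb : 4 < b) : |sig b| < 1 / 2 := by
  unfold sig
  have h1 : 0 < 2 / b := by positivity
  have h2 : 2 / b < 1 := by
    rw [div_lt_one (by linarith)]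
    linarith
  rw [abs_lt]
  constructor <;> linarith

/-- Hoelder on a set of finite measure, in terms of integrals (real exponents). -/
lemma holder (q p : ℝ) (hq : 0 < q) (hp : q ≤ p)
    (f : E → ℝ) (hf : AEStronglyMeasurable f volume) (B : Set E) (v c : ℝ)
    (hv : volume B ≤ ENNReal.ofReal v) (hv0 : 0 ≤ v) (hc0 : 0 ≤ c)
    (hc : eLpNorm f (ENNReal.ofReal p) (volume.restrict B) ≤ ENNReal.ofReal c) :
    ∫ x in B, |f x| ^ q ≤ c ^ q * v ^ (1 - q / p) := by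
  have hp0 : 0 < p := lt_of_lt_of_le hq hp
  have hfB : AEStronglyMeasurable f (volume.restrict B) := hf.restrict
  have h1 := eLpNorm_le_eLpNorm_mul_rpow_measure_univ (μ := volume.restrict B)
    (ENNReal.ofReal_le_ofReal hp) hfB
  rw [Measure.restrict_apply_univ, ENNReal.toReal_ofReal hq.le, ENNReal.toReal_ofReal hp0.le] at h1
  have hs : 0 ≤ 1 / q - 1 / p := by
    rw [sub_nonneg]
    exact one_div_le_one_div_of_le hq hp
  have hs' : 0 ≤ 1 - q / p := by
    rw [sub_nonneg, div_le_one hp0]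
    exact hp
  have hqs : (1 / q - 1 / p) * q = 1 - q / p := by
    field_simp
  have h3 : eLpNorm f (ENNReal.ofReal q) (volume.restrict B) ^ q =
      ∫⁻ x in B, ENNReal.ofReal (|f x| ^ q) := by
    rw [eLpNorm_eq_lintegral_rpow_enorm_toReal (by simpa using hq) ENNReal.ofReal_ne_top,
      ENNReal.toReal_ofReal hq.le, ← ENNReal.rpow_mul, one_div, inv_mul_cancel₀ hq.ne',
      ENNReal.rpow_one]
    apply lintegral_congr
    intro x
    rw [← ENNReal.ofReal_rpow_of_nonneg (abs_nonneg _) hq.le, ← Real.enorm_eq_ofReal_abs]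
  have hm : AEStronglyMeasurable (fun x => |f x| ^ q) (volume.restrict B) :=
    (hfB.norm.aemeasurable.pow_const q).aestronglyMeasurable
  rw [integral_eq_lintegral_of_nonneg_ae
    (Eventually.of_forall fun x => Real.rpow_nonneg (abs_nonneg _) _) hm, ← h3]
  refine ENNReal.toReal_le_of_le_ofReal (mul_nonneg (Real.rpow_nonneg hc0 _)
    (Real.rpow_nonneg hv0 _)) ?_
  calc eLpNorm f (ENNReal.ofReal q) (volume.restrict B) ^ q
      ≤ (eLpNorm f (ENNReal.ofReal p) (volume.restrict B) * volume B ^ (1 / q - 1 / p)) ^ q :=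
        ENNReal.rpow_le_rpow h1 hq.le
    _ = eLpNorm f (ENNReal.ofReal p) (volume.restrict B) ^ q * volume B ^ (1 - q / p) := by
        rw [ENNReal.mul_rpow_of_nonneg _ _ hq.le, ← ENNReal.rpow_mul, hqs]
    _ ≤ ENNReal.ofReal c ^ q * ENNReal.ofReal v ^ (1 - q / p) :=
        mul_le_mul' (ENNReal.rpow_le_rpow hc hq.le) (ENNReal.rpow_le_rpow hv hs')
    _ = ENNReal.ofReal (c ^ q * v ^ (1 - q / p)) := by
        rw [ENNReal.ofReal_rpow_of_nonneg hc0 hq.le, ENNReal.ofReal_rpow_of_nonneg hv0 hs',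
          ← ENNReal.ofReal_mul (Real.rpow_nonneg hc0 _)]

lemma rpow_vol {b : ℝ} (r : ℝ) (hr : 0 ≤ r) :
    (r ^ 4 * v1) ^ ((1 + 2 * sig b) / 4) = r ^ (1 + 2 * sig b) * v1 ^ ((1 + 2 * sig b) / 4) := by
  rw [Real.mul_rpow (by positivity) v1_nonneg, ← Real.rpow_natCast r 4, ← Real.rpow_mul hr]
  congr 2
  push_cast
  ring

lemma holder2 {b : ℝ} (hb : 4 < b) (f : E → ℝ) (hf : AEStronglyMeasurable f volume) (z : E)
    (r : ℝ) (hr : 0 ≤ r)
    (B : Set E) (hB : B ⊆ Metric.closedBall z r) (c : ℝ) (hc0 : 0 ≤ c)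
    (hc : eLpNorm f (q1 (sig b)) (volume.restrict B) ≤ ENNReal.ofReal c) :
    ∫ x in B, f x ^ 2 ≤ c ^ 2 * r ^ (1 + 2 * sig b) * v1 ^ ((1 + 2 * sig b) / 4) := by
  have hs := abs_lt.1 (sig_lt hb)
  have h3 : 0 < 3 - 2 * sig b := by linarith [hs.2]
  have h := holder 2 (8 / (3 - 2 * sig b)) (by norm_num)
    (by rw [le_div_iff₀ h3]; linarith [hs.1]) f hf B (r ^ 4 * v1) c (vol_le z r hr B hB)
    (mul_nonneg (by positivity) v1_nonneg) hc0 hc
  have e1 : 1 - 2 / (8 / (3 - 2 * sig b)) = (1 + 2 * sig b) / 4 := by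
    field_simp
    ring
  rw [e1, rpow_vol r hr] at h
  have e2 : ∀ x : ℝ, |x| ^ (2 : ℝ) = x ^ 2 := fun x => by
    rw [Real.rpow_two, sq_abs]
  simp only [e2] at h
  rw [Real.rpow_two] at h
  linarith

lemma holder6 {b : ℝ} (hb : 4 < b) (f : E → ℝ) (hf : AEStronglyMeasurable f volume) (z : E)
    (r : ℝ) (hr : 0 ≤ r)
    (B : Set E) (hB : B ⊆ Metric.closedBall z r) (c : ℝ) (hc0 : 0 ≤ c)
    (hc : eLpNorm f (q0 (sig b)) (volume.restrict B) ≤ ENNReal.ofReal c) :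
    ∫ x in B, |f x| ^ (b + 2) ≤
      c ^ (b + 2) * r ^ (1 + 2 * sig b) * v1 ^ ((1 + 2 * sig b) / 4) := by
  have hs := abs_lt.1 (sig_lt hb)
  have hb0 : b ≠ 0 := by linarith
  have e0 : 8 / (1 - 2 * sig b) = 2 * b := by
    unfold sig
    field_simp
    ring
  have hc' : eLpNorm f (ENNReal.ofReal (2 * b)) (volume.restrict B) ≤ ENNReal.ofReal c := by
    rw [← e0]
    exact hc
  have h := holder (b + 2) (2 * b) (by linarith) (by linarith) f hf B (r ^ 4 * v1) c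
    (vol_le z r hr B hB) (mul_nonneg (by positivity) v1_nonneg) hc0 hc'
  have e1 : 1 - (b + 2) / (2 * b) = (1 + 2 * sig b) / 4 := by
    unfold sig
    field_simp
    ring
  rw [e1, rpow_vol r hr] at h
  linarith

end E4ax

open E4ax in
theorem thm_E4a (hFld : St_FldP) (hExF : St_ExFP) (hEnS : St_EnS) : St_E4a := by
  intro b hb A
  obtain ⟨C1, hC1, h1, -⟩ := hFld (sig b) (sig_lt hb)
  obtain ⟨C2, hC2, h2⟩ := hExF (sig b) (sig_lt hb)
  have hw : 0 ≤ v1 ^ ((1 + 2 * sig b) / 4) := Real.rpow_nonneg v1_nonneg _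
  set w : ℝ := v1 ^ ((1 + 2 * sig b) / 4) with hw'
  by_cases hA : 0 ≤ A
  swap
  · exact ⟨1, one_pos, fun k x y ρ R B hk => absurd ((norm_nonneg k).trans hk) hA⟩
  have hCA : 0 ≤ C1 * A := mul_nonneg hC1.le hA
  have p1 : 0 ≤ (C1 * A) ^ (b + 2) := Real.rpow_nonneg hCA _
  have p2 : 0 ≤ C2 ^ (b + 2) := Real.rpow_nonneg hC2.le _
  refine ⟨5 * (C1 * A) ^ 2 * w + (C1 * A) ^ (b + 2) * w + 5 * C2 ^ 2 * w + C2 ^ (b + 2) * w + 1,
    by positivity, ?_⟩
  intro k x y ρ R B hk hEB hρ hR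
  obtain ⟨⟨hU10, hUn⟩, hU2, hU3⟩ := h1 k
  obtain ⟨hVn, hDU, -⟩ := hU3.2
  obtain ⟨⟨-, hV2m, hD2m⟩, hUb, -⟩ := (hEnS b hb).1 k B hEB
  obtain ⟨g1, g2, g3, -⟩ := h2 k (xt x ρ) (isOpen_ext x ρ)
  have he0 : 0 ≤ ex (sig b) (xt x ρ) k := norm_nonneg _
  set e : ℝ := ex (sig b) (xt x ρ) k with he
  have hCe : 0 ≤ C2 * e := mul_nonneg hC2.le he0
  have hr1 : 0 ≤ ρ ^ (1 + 2 * sig b) := Real.rpow_nonneg hρ.le _
  have hr2 : 0 ≤ R ^ (1 + 2 * sig b) := Real.rpow_nonneg hR.le _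
  set r1 : ℝ := ρ ^ (1 + 2 * sig b) with hr1'
  set r2 : ℝ := R ^ (1 + 2 * sig b) with hr2'
  have key2 : ∀ f : E → ℝ, MemLp f 2 volume →
      eLpNorm f (q1 (sig b)) volume ≤ ENNReal.ofReal C1 * ‖k‖ₑ →
      eLpNorm ((xt x ρ).indicator f) (q1 (sig b)) volume ≤ ENNReal.ofReal (C2 * e) →
      ∫ z, f z ^ 2 ≤ (∫ z in xt y R, f z ^ 2) + (C1 * A) ^ 2 * r1 * w +
        (C2 * e) ^ 2 * r2 * w := by
    intro f hf hf1 hf2
    have s1 := split (fun z => f z ^ 2) hf.integrable_sq (fun z => sq_nonneg _) x y ρ R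
    have s2 := holder2 hb f hf.1 x ρ hρ.le (Metric.closedBall x ρ) subset_rfl (C1 * A) hCA
      (full_le f _ _ C1 A hC1.le k hk hf1)
    have s3 := holder2 hb f hf.1 y R hR.le (Metric.closedBall y R ∩ xt x ρ) inter_subset_left
      (C2 * e) hCe (restrict_le f _ (xt x ρ) _ (isOpen_ext x ρ) inter_subset_right _ hf2)
    linarith
  have hV2 := key2 (V (sig b) k) hV2m hVn g3
  have hD2 : ∀ i, _ := fun i => key2 (DU (sig b) k i) (hD2m i).1 (hDU i).2.2 (g2 i)
  have hD3 : ∑ i : Fin 4, ∫ z, DU (sig b) k i z ^ 2 ≤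
      ∑ i : Fin 4, ((∫ z in xt y R, DU (sig b) k i z ^ 2) +
      (C1 * A) ^ 2 * r1 * w + (C2 * e) ^ 2 * r2 * w) :=
    Finset.sum_le_sum fun i _ => hD2 i
  rw [Finset.sum_add_distrib, Finset.sum_add_distrib, Finset.sum_const, Finset.sum_const,
    Finset.card_univ, Fintype.card_fin, nsmul_eq_mul, nsmul_eq_mul] at hD3
  have hU6 : ∫ z, |U (sig b) k z| ^ (b + 2) ≤ (∫ z in xt y R, |U (sig b) k z| ^ (b + 2)) +
        (C1 * A) ^ (b + 2) * r1 * w + C2 ^ (b + 2) * e ^ (b + 2) * r2 * w := by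
    have hint : Integrable (fun z => |U (sig b) k z| ^ (b + 2)) volume := by
      have hb2 : 0 < b + 2 := by linarith
      have h := hUb.integrable_norm_rpow (by simpa using hb2) ENNReal.ofReal_ne_top
      rw [ENNReal.toReal_ofReal hb2.le] at h
      exact h
    have s1 := split (fun z => |U (sig b) k z| ^ (b + 2)) hint
      (fun z => Real.rpow_nonneg (abs_nonneg _) _) x y ρ R
    have s2 := holder6 hb (U (sig b) k) hUb.1 x ρ hρ.le (Metric.closedBall x ρ) subset_rfl (C1 * A)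
      hCA (full_le _ _ _ C1 A hC1.le k hk hU2)
    have s3 := holder6 hb (U (sig b) k) hUb.1 y R hR.le (Metric.closedBall y R ∩ xt x ρ)
      inter_subset_left
      (C2 * e) hCe (restrict_le _ _ (xt x ρ) _ (isOpen_ext x ρ) inter_subset_right _ g1)
    rw [Real.mul_rpow hC2.le he0] at s3
    linarith
  have n1 : 0 ≤ ∑ i, ∫ z, DU (sig b) k i z ^ 2 :=
    Finset.sum_nonneg fun i _ => integral_nonneg fun z => by positivity
  have n2 : 0 ≤ ∫ z, V (sig b) k z ^ 2 := integral_nonneg fun z => by positivity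
  have n3 : 0 ≤ ∫ z, |U (sig b) k z| ^ (b + 2) :=
    integral_nonneg fun z => Real.rpow_nonneg (abs_nonneg _) _
  have hEn : En b k ≤ (∑ i, ∫ z, DU (sig b) k i z ^ 2) + (∫ z, V (sig b) k z ^ 2) +
      ∫ z, |U (sig b) k z| ^ (b + 2) := by
    unfold En
    have h3 : (∫ z, |U (sig b) k z| ^ (b + 2)) / (b + 2) ≤ ∫ z, |U (sig b) k z| ^ (b + 2) :=
      div_le_self n3 (by linarith)
    linarith
  have n4 : 0 ≤ e ^ (b + 2) := Real.rpow_nonneg he0 _
  set eb : ℝ := e ^ (b + 2) with heb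
  set c1b : ℝ := (C1 * A) ^ (b + 2) with hc1b
  set c2b : ℝ := C2 ^ (b + 2) with hc2b
  have b1 : 5 * ((C1 * A) ^ 2 * r1 * w) + c1b * r1 * w ≤
      (5 * (C1 * A) ^ 2 * w + c1b * w + 5 * C2 ^ 2 * w + c2b * w + 1) * r1 := by
    have : 0 ≤ (5 * C2 ^ 2 * w + c2b * w + 1) * r1 := by positivity
    linarith
  have b2 : 5 * ((C2 * e) ^ 2 * r2 * w) + c2b * eb * r2 * w ≤
      (5 * (C1 * A) ^ 2 * w + c1b * w + 5 * C2 ^ 2 * w + c2b * w + 1) * r2 *
        (e ^ 2 + eb) := by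
    have t1 : 0 ≤ (5 * (C1 * A) ^ 2 * w + c1b * w + 1) * r2 * (e ^ 2 + eb) := by
      positivity
    have t2 : 0 ≤ 5 * C2 ^ 2 * w * r2 * eb := by positivity
    have t3 : 0 ≤ c2b * w * r2 * e ^ 2 := by positivity
    nlinarith
  push_cast at hD3
  linarith

end Pool.Agent.QWF
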