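import Pool.Agent.QWF.Linx

/-!
# QWF, module FldP: the fields and their bounds (helper18)
-/

set_option autoImplicit false

open MeasureTheory Filter Topology Set
open scoped ENNReal NNReal RealInnerProductSpace ContDiff Pointwise

namespace Pool.Agent.QWF


namespace FldPx

open Pool.Agent.QWF.Linx (test_sch test_pd test_lap int_mul ae_lin wd_lin wd_test wd_eq ae_uniq)
open Pool.Agent.QWF.Fldx (int_mul' ibp memLp_test test_sub pair_cont c0_pos)

lemma rng {s : ℝ} (hs' : |s| < 1 / 2) : -1 / 2 ≤ s ∧ s < 1 / 2 := by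
  have h := abs_lt.1 hs'
  exact ⟨by linarith [h.1], h.2⟩

lemma thR (hI : St_IsoP) {s : ℝ} (hs' : |s| < 1 / 2) {f g φ : E → ℝ} (hf : IsTest f)
    (hg : IsTest g) (hφ : IsSch φ) : inner ℝ (Theta s f g) (Rs s φ) = ∫ x, f x * φ x :=
  ((hI s f φ (rng hs').1 (rng hs').2 (test_sch hf) hφ).2.2.2.2.2.1 g (test_sch hg)).1

lemma thD (hI : St_IsoP) {s : ℝ} (hs' : |s| < 1 / 2) {f g φ : E → ℝ} (hf : IsTest f)
    (hg : IsTest g) (hφ : IsSch φ) : inner ℝ (Theta s f g) (dRs s φ) = ∫ x, g x * φ x :=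
  ((hI s g φ (rng hs').1 (rng hs').2 (test_sch hg) hφ).2.2.2.2.2.1 f (test_sch hf)).2

lemma hs_nonneg (a : ℝ) (f : E → ℝ) : 0 ≤ hs a f := by
  unfold hs
  exact integral_nonneg fun ξ => by positivity

lemma root_le {x c y : ℝ} (hx : 0 ≤ x) (hc : 0 < c) (hy : 0 ≤ y) (h : c * x ≤ y ^ 2) :
    x ^ (1 / 2 : ℝ) ≤ √(1 / c) * y := by
  rw [← Real.sqrt_eq_rpow]
  have h3 : x ≤ (1 / c) * y ^ 2 := by
    rw [div_mul_eq_mul_div, one_mul, le_div_iff₀ hc]
    linarith
  calc √x ≤ √((1 / c) * y ^ 2) := Real.sqrt_le_sqrt h3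
    _ = √(1 / c) * y := by
        rw [Real.sqrt_mul (by positivity), Real.sqrt_sq hy]

lemma nrm (hI : St_IsoP) {s : ℝ} (hs' : |s| < 1 / 2) {f g : E → ℝ} (hf : IsTest f)
    (hg : IsTest g) : ‖Theta s f g‖ ^ 2 = c0 * (hs (3 / 2 + s) f + hs (1 / 2 + s) g) :=
  (hI s f g (rng hs').1 (rng hs').2 (test_sch hf) (test_sch hg)).2.2.2.2.2.2.2.2.1

lemma bd (hI : St_IsoP) {s : ℝ} (hs' : |s| < 1 / 2) {f g : E → ℝ} (hf : IsTest f)
    (hg : IsTest g) : (hs (3 / 2 + s) f) ^ (1 / 2 : ℝ) ≤ √(1 / c0) * ‖Theta s f g‖ ∧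
      (hs (1 / 2 + s) g) ^ (1 / 2 : ℝ) ≤ √(1 / c0) * ‖Theta s f g‖ := by
  have h1 := nrm hI hs' hf hg
  have h2 := hs_nonneg (3 / 2 + s) f
  have h3 := hs_nonneg (1 / 2 + s) g
  have hc := c0_pos
  constructor
  · refine root_le h2 hc (norm_nonneg _) ?_
    rw [h1]
    nlinarith
  · refine root_le h3 hc (norm_nonneg _) ?_
    rw [h1]
    nlinarith

/-- from a bound by `hs` to a bound by the norm -/
lemma toE {C x y : ℝ} {N : ℝ≥0∞} {k : K} (hC : 0 ≤ C) (hy : 0 ≤ y)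
    (h : N ≤ ENNReal.ofReal (C * x)) (hx : x ≤ y * ‖k‖) : N ≤ ENNReal.ofReal (C * y) * ‖k‖ₑ := by
  refine h.trans ?_
  rw [← ofReal_norm k, ← ENNReal.ofReal_mul (by positivity)]
  apply ENNReal.ofReal_le_ofReal
  calc C * x ≤ C * (y * ‖k‖) := by gcongr
    _ = C * y * ‖k‖ := by ring

lemma eq_zero_of (hD : St_DnsP) {s : ℝ} (hs' : |s| < 1 / 2) (d : K)
    (h : ∀ φ, IsTest φ → inner ℝ d (Rs s φ) = (0 : ℝ) ∧ inner ℝ d (dRs s φ) = (0 : ℝ)) :
    d = 0 := by
  have hle : TS s univ ≤ (Submodule.span ℝ {d})ᗮ := by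
    apply Submodule.topologicalClosure_minimal _ _ (Submodule.isClosed_orthogonal _)
    rw [Submodule.span_le]
    rintro w ⟨φ, hφ, -, hw⟩
    rw [SetLike.mem_coe, Submodule.mem_orthogonal_singleton_iff_inner_right]
    rcases hw with rfl | rfl
    · exact (h φ hφ).1
    · exact (h φ hφ).2
  rw [(hD s (rng hs').1 (rng hs').2).1] at hle
  have := hle (Submodule.mem_top (x := d))
  rw [Submodule.mem_orthogonal_singleton_iff_inner_right] at this
  exact inner_self_eq_zero.1 this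

lemma theta_sub (hI : St_IsoP) (hD : St_DnsP) {s : ℝ} (hs' : |s| < 1 / 2) {f g f' g' : E → ℝ}
    (hf : IsTest f) (hg : IsTest g) (hf' : IsTest f') (hg' : IsTest g') :
    Theta s (fun x => f x - f' x) (fun x => g x - g' x) = Theta s f g - Theta s f' g' := by
  rw [← sub_eq_zero]
  apply eq_zero_of hD hs'
  intro φ hφ
  have hsc := test_sch hφ
  have hF := test_sub hf hf'
  have hG := test_sub hg hg'
  constructor
  · rw [inner_sub_left, inner_sub_left, thR hI hs' hF hG hsc, thR hI hs' hf hg hsc,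
      thR hI hs' hf' hg' hsc]
    have : ∫ x, (f x - f' x) * φ x = (∫ x, f x * φ x) - ∫ x, f' x * φ x := by
      rw [← integral_sub (int_mul' hf hφ) (int_mul' hf' hφ)]
      congr 1
      ext x
      ring
    rw [this]
    ring
  · rw [inner_sub_left, inner_sub_left, thD hI hs' hF hG hsc, thD hI hs' hf hg hsc,
      thD hI hs' hf' hg' hsc]
    have : ∫ x, (g x - g' x) * φ x = (∫ x, g x * φ x) - ∫ x, g' x * φ x := by
      rw [← integral_sub (int_mul' hg hφ) (int_mul' hg' hφ)]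
      congr 1
      ext x
      ring
    rw [this]
    ring

/-- extension from test states -/
lemma ext_test (hI : St_IsoP) (hD : St_DnsP) {s : ℝ} (hs' : |s| < 1 / 2) (p : ℝ≥0∞)
    (hp : 1 ≤ p) (C : ℝ) (hC : 0 ≤ C) (ψ : (E → ℝ) → K)
    (H : ∀ f g : E → ℝ, IsTest f → IsTest g → ∃ h : E → ℝ, MemLp h p volume ∧
      eLpNorm h p volume ≤ ENNReal.ofReal C * ‖Theta s f g‖ₑ ∧
      ∀ φ, IsTest φ → ∫ x, h x * φ x = inner ℝ (Theta s f g) (ψ φ)) (k : K) :
    ∃ h : E → ℝ, MemLp h p volume ∧ eLpNorm h p volume ≤ ENNReal.ofReal C * ‖k‖ₑ ∧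
      ∀ φ, IsTest φ → ∫ x, h x * φ x = inner ℝ k (ψ φ) := by
  have : Fact (1 ≤ p) := ⟨hp⟩
  have hseq : ∀ n : ℕ, ∃ f g : E → ℝ, IsTest f ∧ IsTest g ∧ ‖k - Theta s f g‖ < (1 / 2) ^ n :=
    fun n => (hD s (rng hs').1 (rng hs').2).2.1 k _ (by positivity)
  choose f g hf hg hfg using hseq
  choose h hm hb hh using fun n => H (f n) (g n) (hf n) (hg n)
  set d : ℕ → K := fun n => Theta s (f n) (g n) with hd
  have hdlim : Tendsto d atTop (𝓝 k) := by
    rw [tendsto_iff_norm_sub_tendsto_zero]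
    have h0 : Tendsto (fun n : ℕ => (1 / 2 : ℝ) ^ n) atTop (𝓝 0) :=
      tendsto_pow_atTop_nhds_zero_of_lt_one (by norm_num) (by norm_num)
    refine squeeze_zero (fun n => norm_nonneg _) (fun n => ?_) h0
    rw [← norm_neg, neg_sub]
    exact (hfg n).le
  have hli : ∀ {u : E → ℝ}, MemLp u p volume → LocallyIntegrable u volume := fun hu =>
    hu.locallyIntegrable hp
  have hdiff : ∀ n m, eLpNorm (h n - h m) p volume ≤ ENNReal.ofReal C * ‖d n - d m‖ₑ := by
    intro n m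
    obtain ⟨h', hm', hb', hh'⟩ := H _ _ (test_sub (hf n) (hf m)) (test_sub (hg n) (hg m))
    rw [theta_sub hI hD hs' (hf n) (hg n) (hf m) (hg m)] at hb' hh'
    have hae : (h n - h m) =ᵐ[volume] h' := by
      apply ae_uniq (hli ((hm n).sub (hm m))) (hli hm')
      intro φ hφ
      rw [hh' φ hφ, inner_sub_left, ← hh n φ hφ, ← hh m φ hφ,
        ← integral_sub (int_mul (hli (hm n)) hφ) (int_mul (hli (hm m)) hφ)]
      congr 1
      ext x
      simp only [Pi.sub_apply]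
      ring
    rw [eLpNorm_congr_ae hae]
    exact hb'
  set a : ℕ → Lp ℝ p (volume : Measure E) := fun n => (hm n).toLp (h n) with ha
  have hadist : ∀ n m, dist (a n) (a m) ≤ C * dist (d n) (d m) := by
    intro n m
    rw [dist_eq_norm, dist_eq_norm, ha]
    simp only
    rw [← MemLp.toLp_sub, Lp.norm_toLp]
    refine ENNReal.toReal_le_of_le_ofReal (by positivity) ((hdiff n m).trans_eq ?_)
    rw [ENNReal.ofReal_mul hC, ofReal_norm]
  have hcau : CauchySeq a := by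
    rw [Metric.cauchySeq_iff]
    intro ε hε
    have hdc := hdlim.cauchySeq
    rw [Metric.cauchySeq_iff] at hdc
    obtain ⟨N, hN⟩ := hdc (ε / (C + 1)) (by positivity)
    refine ⟨N, fun m hm' n hn => ?_⟩
    have h1 := hN m hm' n hn
    have h2 := hadist m n
    rw [lt_div_iff₀ (by positivity)] at h1
    have h3 : 0 ≤ dist (d m) (d n) := dist_nonneg
    nlinarith
  obtain ⟨A, hA⟩ := cauchySeq_tendsto_of_complete hcau
  have hnorm : ∀ n, ‖a n‖ ≤ C * ‖d n‖ := by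
    intro n
    rw [ha]
    simp only
    rw [Lp.norm_toLp]
    refine ENNReal.toReal_le_of_le_ofReal (by positivity) ((hb n).trans_eq ?_)
    rw [ENNReal.ofReal_mul hC, ofReal_norm]
  refine ⟨A, Lp.memLp A, ?_, ?_⟩
  · rw [← Lp.enorm_def, ← ofReal_norm A, ← ofReal_norm k, ← ENNReal.ofReal_mul hC]
    apply ENNReal.ofReal_le_ofReal
    exact le_of_tendsto_of_tendsto' hA.norm (hdlim.norm.const_mul C) hnorm
  · intro φ hφ
    obtain ⟨D, hDφ⟩ := pair_cont p hp hφ
    have l1 : Tendsto (fun n => ∫ x, h n x * φ x) atTop (𝓝 (∫ x, A x * φ x)) := by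
      rw [tendsto_iff_dist_tendsto_zero]
      have h0 : Tendsto (fun n => D * ‖a n - A‖) atTop (𝓝 (D * 0)) :=
        (tendsto_iff_norm_sub_tendsto_zero.1 hA).const_mul D
      rw [mul_zero] at h0
      refine squeeze_zero (fun n => dist_nonneg) (fun n => ?_) h0
      rw [Real.dist_eq, ← integral_sub (int_mul (hli (hm n)) hφ)
        (int_mul (hli (Lp.memLp A)) hφ)]
      have e1 : ∫ x, (h n x * φ x - A x * φ x) = ∫ x, (h n - (A : E → ℝ)) x * φ x := by
        congr 1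
        ext x
        simp only [Pi.sub_apply]
        ring
      rw [e1]
      refine (hDφ _ ((hm n).sub (Lp.memLp A))).trans (le_of_eq ?_)
      congr 1
      rw [Lp.norm_def]
      congr 1
      apply eLpNorm_congr_ae
      filter_upwards [Lp.coeFn_sub (a n) A, (hm n).coeFn_toLp] with x h1 h2
      rw [h1, Pi.sub_apply, Pi.sub_apply, ← h2]
    have l2 : Tendsto (fun n => ∫ x, h n x * φ x) atTop (𝓝 (inner ℝ k (ψ φ))) := by
      have h1 : Tendsto (fun n => inner ℝ (d n) (ψ φ)) atTop (𝓝 (inner ℝ k (ψ φ))) :=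
        hdlim.inner tendsto_const_nhds
      refine h1.congr fun n => ?_
      rw [hh n φ hφ]
    exact tendsto_nhds_unique l1 l2

/-- The test formulas for the fields and Schwartz functions. -/
lemma sch (hD : St_DnsP) {s : ℝ} (hs' : |s| < 1 / 2) (C : ℝ) (hC : 0 < C) (p q : ℝ≥0∞)
    [hpq : ENNReal.HolderTriple p q 1] (V : K → E → ℝ)
    (hV : ∀ k : K, MemLp (V k) p volume ∧ eLpNorm (V k) p volume ≤ ENNReal.ofReal C * ‖k‖ₑ)
    (hadd : ∀ (c : ℝ) (k k' : K), V (k + c • k') =ᵐ[volume] fun x => V k x + c * V k' x)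
    (φ : E → ℝ) (hφm : MemLp φ q volume) (ψ : K)
    (hth : ∀ f g : E → ℝ, IsTest f → IsTest g →
      ∫ x, V (Theta s f g) x * φ x = inner ℝ (Theta s f g) ψ)
    (k : K) : ∫ x, V k x * φ x = inner ℝ k ψ := by
  set A : ℝ := (eLpNorm φ q volume).toReal with hA
  -- the bound for all k
  have hb : ∀ k : K, |∫ x, V k x * φ x| ≤ C * ‖k‖ * A := by
    intro k
    have h1 : eLpNorm (fun x => V k x * φ x) 1 volume ≤
        eLpNorm (V k) p volume * eLpNorm φ q volume := by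
      exact eLpNorm_smul_le_mul_eLpNorm (φ := V k) (f := φ) hφm.1 (hV k).1.1
    have h2 : eLpNorm (fun x => V k x * φ x) 1 volume ≤ ENNReal.ofReal (C * ‖k‖ * A) := by
      refine h1.trans ?_
      rw [hA, ENNReal.ofReal_mul (by positivity), ENNReal.ofReal_mul hC.le,
        ENNReal.ofReal_toReal hφm.2.ne]
      gcongr
      refine (hV k).2.trans ?_
      rw [← ofReal_norm]
    rw [← Real.norm_eq_abs]
    refine (norm_integral_le_lintegral_norm _).trans ?_
    refine ENNReal.toReal_le_of_le_ofReal (by positivity) (le_trans (le_of_eq ?_) h2)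
    rw [eLpNorm_one_eq_lintegral_enorm]
    simp only [ofReal_norm]
  have hint : ∀ k : K, Integrable (fun x => V k x * φ x) volume := by
    intro k
    have := MemLp.integrable_mul (p := p) (q := q) (hV k).1 hφm
    exact this
  -- difference
  have hdiff : ∀ k k' : K, (∫ x, V k x * φ x) - ∫ x, V k' x * φ x = ∫ x, V (k - k') x * φ x := by
    intro k k'
    rw [← integral_sub (hint k) (hint k')]
    apply integral_congr_ae
    have h1 := hadd (-1) k k'
    have e : k + (-1 : ℝ) • k' = k - k' := by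
      rw [neg_one_smul, sub_eq_add_neg]
    rw [e] at h1
    filter_upwards [h1] with x hx
    rw [hx]
    ring
  have key : ∀ ε : ℝ, 0 < ε → |(∫ x, V k x * φ x) - inner ℝ k ψ| ≤
      ε * (C * A + ‖ψ‖) := by
    intro ε hε
    obtain ⟨f, g, hf, hg, hfg⟩ := (hD s (rng hs').1 (rng hs').2).2.1 k ε hε
    have h1 := hth f g hf hg
    have h2 : (∫ x, V k x * φ x) - inner ℝ k ψ =
        (∫ x, V (k - Theta s f g) x * φ x) - inner ℝ (k - Theta s f g) ψ := by
      rw [← hdiff, inner_sub_left, h1]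
      ring
    rw [h2]
    have h3 := hb (k - Theta s f g)
    have h4 := abs_real_inner_le_norm (k - Theta s f g) ψ
    have hA0 : 0 ≤ A := ENNReal.toReal_nonneg
    calc |(∫ x, V (k - Theta s f g) x * φ x) - inner ℝ (k - Theta s f g) ψ| ≤
        |∫ x, V (k - Theta s f g) x * φ x| + |inner ℝ (k - Theta s f g) ψ| := abs_sub _ _
      _ ≤ C * ‖k - Theta s f g‖ * A + ‖k - Theta s f g‖ * ‖ψ‖ := add_le_add h3 h4
      _ ≤ C * ε * A + ε * ‖ψ‖ := by gcongr
      _ = ε * (C * A + ‖ψ‖) := by ring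
  have h0 : |(∫ x, V k x * φ x) - inner ℝ k ψ| ≤ 0 := by
    set B : ℝ := C * A + ‖ψ‖ with hB
    have hB0 : 0 ≤ B := by positivity
    refine le_of_forall_pos_le_add fun ε hε => ?_
    have h1 := key (ε / (B + 1)) (by positivity)
    refine h1.trans ?_
    rw [zero_add, div_mul_eq_mul_div, div_le_iff₀ (by positivity)]
    nlinarith
  have h1 := abs_nonpos_iff.1 h0
  linarith

lemma holder {x : ℝ} (h1 : 0 < x) (h2 : x < 8) :
    ENNReal.HolderTriple (ENNReal.ofReal (8 / x)) (ENNReal.ofReal (8 / (8 - x))) 1 := by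
  constructor
  have h3 : 0 < 8 - x := by linarith
  rw [← ENNReal.ofReal_inv_of_pos (by positivity), ← ENNReal.ofReal_inv_of_pos (by positivity),
    ← ENNReal.ofReal_add (by positivity) (by positivity), inv_one]
  have : (8 / x)⁻¹ + (8 / (8 - x))⁻¹ = 1 := by
    rw [inv_div, inv_div]
    ring
  rw [this, ENNReal.ofReal_one]

lemma one_le {x : ℝ} (h1 : 0 < x) (h2 : x < 8) : (1 : ℝ≥0∞) ≤ ENNReal.ofReal (8 / x) := by
  rw [← ENNReal.ofReal_one]
  apply ENNReal.ofReal_le_ofReal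
  rw [le_div_iff₀ h1]
  linarith

lemma memLp_sch {φ : E → ℝ} (hφ : IsSch φ) (p : ℝ≥0∞) : MemLp φ p (volume : Measure E) := by
  obtain ⟨Φ, hΦ⟩ := hφ
  exact (Φ.memLp p (volume : Measure E)).ae_eq (Eventually.of_forall hΦ)

end FldPx

open FldPx
open Pool.Agent.QWF.Linx (test_sch test_pd test_lap int_mul ae_lin wd_lin wd_test wd_eq ae_uniq)
open Pool.Agent.QWF.Fldx (int_mul' ibp memLp_test test_sub pair_cont c0_pos)

/-- the fields of all states -/
theorem FldPx.fields (hI : St_IsoP) (hS : St_SobP) (hD : St_DnsP) (hH : St_Hs) {s : ℝ}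
    (hs' : |s| < 1 / 2) : ∃ C : ℝ, 0 < C ∧ ∀ k : K,
    (IsU s k (U s k) ∧ eLpNorm (U s k) (q0 s) volume ≤ ENNReal.ofReal C * ‖k‖ₑ) ∧
    (IsV s k (V s k) ∧ eLpNorm (V s k) (q1 s) volume ≤ ENNReal.ofReal C * ‖k‖ₑ) ∧
    ∀ i, MemLp (DU s k i) (q1 s) volume ∧ WD i (U s k) (DU s k i) ∧
      eLpNorm (DU s k i) (q1 s) volume ≤ ENNReal.ofReal C * ‖k‖ₑ := by
  obtain ⟨b1, b2⟩ := abs_lt.1 hs'
  obtain ⟨C0, hC0, hSob0⟩ := hS (3 / 2 + s) (by linarith) (by linarith)
  obtain ⟨C1, hC1, hSob1⟩ := hS (1 / 2 + s) (by linarith) (by linarith)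
  have e0 : (8 : ℝ) / (4 - 2 * (3 / 2 + s)) = 8 / (1 - 2 * s) := by
    congr 1
    ring
  have e1 : (8 : ℝ) / (4 - 2 * (1 / 2 + s)) = 8 / (3 - 2 * s) := by
    congr 1
    ring
  rw [e0] at hSob0
  rw [e1] at hSob1
  have hc := c0_pos
  set K0 : ℝ := √(1 / c0) with hK0
  have hK0p : 0 < K0 := Real.sqrt_pos.2 (by positivity)
  set C : ℝ := C0 * K0 + C1 * K0 with hC
  have hCp : 0 < C := by positivity
  have h0 : (1 : ℝ≥0∞) ≤ q0 s := one_le (by linarith) (by linarith)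
  have h1 : (1 : ℝ≥0∞) ≤ q1 s := one_le (by linarith) (by linarith)
  have hm1 : ∀ a : ℝ, a ≤ C → ∀ k : K, ENNReal.ofReal a * ‖k‖ₑ ≤ ENNReal.ofReal C * ‖k‖ₑ :=
    fun a ha k => by gcongr
  have l0 : C0 * K0 ≤ C := by
    have : 0 < C1 * K0 := by positivity
    linarith
  have l1 : C1 * K0 ≤ C := by
    have : 0 < C0 * K0 := by positivity
    linarith
  refine ⟨C, hCp, fun k => ?_⟩
  -- position field
  obtain ⟨F, hF1, hF2, hF3⟩ := ext_test hI hD hs' (q0 s) h0 C hCp.le (fun φ => Rs s φ) (by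
    intro f g hf hg
    refine ⟨f, memLp_test hf _, ?_, fun φ hφ => (thR hI hs' hf hg (test_sch hφ)).symm⟩
    exact (toE hC0.le hK0p.le (hSob0 f (test_sch hf)).1 (bd hI hs' hf hg).1).trans
      (hm1 _ l0 _)) k
  have hUex : ∃ g, IsU s k g := ⟨F, hF1, hF3⟩
  have hU : IsU s k (U s k) := by
    have e : U s k = hUex.choose := by simp only [U, dif_pos hUex]
    rw [e]
    exact hUex.choose_spec
  have hUF : U s k =ᵐ[volume] F := by
    apply ae_uniq (hU.1.locallyIntegrable h0) (hF1.locallyIntegrable h0)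
    intro φ hφ
    rw [hF3 φ hφ, hU.2 φ hφ]
  -- velocity field
  obtain ⟨G, hG1, hG2, hG3⟩ := ext_test hI hD hs' (q1 s) h1 C hCp.le (fun φ => dRs s φ) (by
    intro f g hf hg
    refine ⟨g, memLp_test hg _, ?_, fun φ hφ => (thD hI hs' hf hg (test_sch hφ)).symm⟩
    exact (toE hC1.le hK0p.le (hSob1 g (test_sch hg)).1 (bd hI hs' hf hg).2).trans
      (hm1 _ l1 _)) k
  have hVex : ∃ g, IsV s k g := ⟨G, hG1, hG3⟩
  have hV : IsV s k (V s k) := by
    have e : V s k = hVex.choose := by simp only [V, dif_pos hVex]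
    rw [e]
    exact hVex.choose_spec
  have hVG : V s k =ᵐ[volume] G := by
    apply ae_uniq (hV.1.locallyIntegrable h1) (hG1.locallyIntegrable h1)
    intro φ hφ
    rw [hG3 φ hφ, hV.2 φ hφ]
  refine ⟨⟨hU, (eLpNorm_congr_ae hUF).trans_le hF2⟩, ⟨hV, (eLpNorm_congr_ae hVG).trans_le hG2⟩,
    fun i => ?_⟩
  obtain ⟨g, g1, g2, g3⟩ := ext_test hI hD hs' (q1 s) h1 C hCp.le (fun φ => - Rs s (pd i φ)) (by
    intro f g hf hg
    refine ⟨pd i f, memLp_test (test_pd hf i) _, ?_, fun φ hφ => ?_⟩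
    · have r1 := (hSob1 (pd i f) (test_sch (test_pd hf i))).1
      have r2 : (hs (1 / 2 + s) (pd i f)) ^ (1 / 2 : ℝ) ≤ K0 * ‖Theta s f g‖ := by
        refine le_trans ?_ (bd hI hs' hf hg).1
        apply Real.rpow_le_rpow (hs_nonneg _ _) _ (by norm_num)
        have r3 := hH.2.2.2.2.2.1 (1 / 2 + s) f (by linarith) (test_sch hf)
        have r4 : 1 / 2 + s + 1 = 3 / 2 + s := by ring
        rw [r4] at r3
        rw [← r3]
        exact Finset.single_le_sum (fun j _ => hs_nonneg (1 / 2 + s) (pd j f)) (Finset.mem_univ i)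
      exact (toE hC1.le hK0p.le r1 r2).trans (hm1 _ l1 _)
    · rw [inner_neg_right, thR hI hs' hf hg (test_sch (test_pd hφ i)), ibp i hf hφ, neg_neg]) k
  have hwd : WD i (U s k) g := by
    intro φ hφ
    rw [g3 φ hφ, inner_neg_right, neg_neg, hU.2 _ (test_pd hφ i)]
  have hex : ∃ g : E → ℝ, MemLp g (q1 s) volume ∧ WD i (U s k) g := ⟨g, g1, hwd⟩
  have hsp : MemLp (DU s k i) (q1 s) volume ∧ WD i (U s k) (DU s k i) := by
    have e : DU s k i = hex.choose := by simp only [DU, dif_pos hex]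
    rw [e]
    exact hex.choose_spec
  have hae : DU s k i =ᵐ[volume] g := by
    apply ae_uniq (hsp.1.locallyIntegrable h1) (g1.locallyIntegrable h1)
    intro φ hφ
    have e1 := hsp.2 φ hφ
    have e2 := hwd φ hφ
    linarith
  exact ⟨hsp.1, hsp.2, (eLpNorm_congr_ae hae).trans_le g2⟩

theorem thm_FldP (hI : St_IsoP) (hH : St_Hs) (hS : St_SobP) (hD : St_DnsP) : St_FldP := by
  intro s hs'
  obtain ⟨b1, b2⟩ := abs_lt.1 hs'
  obtain ⟨C, hC, hF⟩ := FldPx.fields hI hS hD hH hs'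
  have h0 : (1 : ℝ≥0∞) ≤ q0 s := one_le (by linarith) (by linarith)
  have h1 : (1 : ℝ≥0∞) ≤ q1 s := one_le (by linarith) (by linarith)
  have liU : ∀ k : K, LocallyIntegrable (U s k) volume := fun k =>
    (hF k).1.1.1.locallyIntegrable h0
  have liV : ∀ k : K, LocallyIntegrable (V s k) volume := fun k =>
    (hF k).2.1.1.1.locallyIntegrable h1
  have liDU : ∀ (k : K) i, LocallyIntegrable (DU s k i) volume := fun k i =>
    ((hF k).2.2 i).1.locallyIntegrable h1
  have aU : ∀ (c : ℝ) (k k' : K), U s (k + c • k') =ᵐ[volume] fun x => U s k x + c * U s k' x := by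
    intro c k k'
    refine ae_lin (liU _) (liU _) (liU _) fun φ hφ => ?_
    rw [(hF _).1.1.2 φ hφ, (hF _).1.1.2 φ hφ, (hF _).1.1.2 φ hφ, inner_add_left,
      real_inner_smul_left]
  have aV : ∀ (c : ℝ) (k k' : K), V s (k + c • k') =ᵐ[volume] fun x => V s k x + c * V s k' x := by
    intro c k k'
    refine ae_lin (liV _) (liV _) (liV _) fun φ hφ => ?_
    rw [(hF _).2.1.1.2 φ hφ, (hF _).2.1.1.2 φ hφ, (hF _).2.1.1.2 φ hφ, inner_add_left,
      real_inner_smul_left]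
  have aDU : ∀ (c : ℝ) (k k' : K) (i : Fin 4),
      DU s (k + c • k') i =ᵐ[volume] fun x => DU s k i x + c * DU s k' i x := fun c k k' i =>
    wd_lin (liU _) (liU _) (liDU _ i) (liDU _ i) (liDU _ i) ((hF _).2.2 i).2.1
      ((hF _).2.2 i).2.1 ((hF _).2.2 i).2.1 (aU c k k')
  have tU : ∀ f g : E → ℝ, IsTest f → IsTest g → U s (Theta s f g) =ᵐ[volume] f := by
    intro f g hf hg
    refine ae_uniq (liU _) hf.1.continuous.locallyIntegrable fun φ hφ => ?_
    rw [(hF _).1.1.2 φ hφ, thR hI hs' hf hg (test_sch hφ)]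
  have tV : ∀ f g : E → ℝ, IsTest f → IsTest g → V s (Theta s f g) =ᵐ[volume] g := by
    intro f g hf hg
    refine ae_uniq (liV _) hg.1.continuous.locallyIntegrable fun φ hφ => ?_
    rw [(hF _).2.1.1.2 φ hφ, thD hI hs' hf hg (test_sch hφ)]
  have tDU : ∀ f g : E → ℝ, IsTest f → IsTest g → ∀ i,
      DU s (Theta s f g) i =ᵐ[volume] pd i f :=
    fun f g hf hg i => wd_eq hf.1.continuous.locallyIntegrable (liDU _ i)
      (test_pd hf i).1.continuous.locallyIntegrable ((hF _).2.2 i).2.1 (wd_test hf i)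
      (tU f g hf hg)
  have hol0 : ENNReal.HolderTriple (q0 s) (ENNReal.ofReal (8 / (8 - (1 - 2 * s)))) 1 :=
    holder (by linarith) (by linarith)
  have hol1 : ENNReal.HolderTriple (q1 s) (ENNReal.ofReal (8 / (8 - (3 - 2 * s)))) 1 :=
    holder (by linarith) (by linarith)
  refine ⟨C, hC, fun k => ⟨(hF k).1.1, (hF k).1.2, (hF k).2.1.1, (hF k).2.1.2, (hF k).2.2, ?_⟩,
    fun c k k' => ⟨aU c k k', aV c k k', aDU c k k'⟩,
    fun f g hf hg => ⟨tU f g hf hg, tV f g hf hg, tDU f g hf hg⟩⟩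
  intro φ hφ
  constructor
  · refine sch hD hs' C hC (q0 s) (ENNReal.ofReal (8 / (8 - (1 - 2 * s)))) (fun k => U s k) (fun k => ⟨(hF k).1.1.1, (hF k).1.2⟩) aU φ
      (memLp_sch hφ _) (Rs s φ) (fun f g hf hg => ?_) k
    rw [thR hI hs' hf hg hφ]
    apply integral_congr_ae
    filter_upwards [tU f g hf hg] with x hx
    rw [hx]
  · refine sch hD hs' C hC (q1 s) (ENNReal.ofReal (8 / (8 - (3 - 2 * s)))) (fun k => V s k) (fun k => ⟨(hF k).2.1.1.1, (hF k).2.1.2⟩) aV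
      φ (memLp_sch hφ _) (dRs s φ) (fun f g hf hg => ?_) k
    rw [thD hI hs' hf hg hφ]
    apply integral_congr_ae
    filter_upwards [tV f g hf hg] with x hx
    rw [hx]

end Pool.Agent.QWF
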