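import Pool.Agent.QWF.StB2
import Pool.Agent.QWF.Linx
import Pool.Agent.QWF.FldP

set_option autoImplicit false

/-!
# QWF / EnR: representation of finite energy pairs (port of QWP.EnR)
-/

open MeasureTheory Filter Topology Set
open scoped ENNReal NNReal RealInnerProductSpace ContDiff

namespace Pool.Agent.QWF

namespace EnRx

open Linx Fldx

lemma isE_th (hI : St_IsoP) {f g : E → ℝ} (hf : IsTest f) (hg : IsTest g) :
    IsE (Theta (-1 / 2) f g) f g := by
  intro φ hφ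
  have h1 := hI (-1 / 2) f φ (by norm_num) (by norm_num) (test_sch hf) (test_sch hφ)
  have h2 := hI (-1 / 2) g φ (by norm_num) (by norm_num) (test_sch hg) (test_sch hφ)
  exact ⟨(h1.2.2.2.2.2.1 g (test_sch hg)).1, (h2.2.2.2.2.2.1 f (test_sch hf)).2⟩

lemma theta_eq (hJ : St_JD) {f g : E → ℝ} (hg : IsTest g) :
    Theta (-1 / 2) f g = c0 • (dRs (-1 / 2) g - Rs (-1 / 2) (lap f)) := by
  have h1 := (hJ (-(-1 / 2)) g (test_sch hg)).2.2.2.2.1
  unfold Theta Rs dRs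
  rw [h1]
  have e1 : (1 + -1 / 2 : ℝ) = -(-1 / 2) := by norm_num
  have e2 : (-1 / 2 - 1 : ℝ) = -(-1 / 2) - 2 := by norm_num
  rw [e1, e2]
  congr 1
  abel

lemma uniq (hU : St_EnU) {e e' : K} {u v : E → ℝ} (h : IsE e u v) (h' : IsE e' u v) : e = e' := by
  rw [← sub_eq_zero]
  refine hU _ fun φ hφ => ⟨?_, ?_⟩
  · rw [inner_sub_left, (h φ hφ).1, (h' φ hφ).1, sub_self]
  · rw [inner_sub_left, (h φ hφ).2, (h' φ hφ).2, sub_self]

lemma in_L2 {a b : E → ℝ} (ha : MemLp a 2 volume) (hb : MemLp b 2 volume) :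
    ∫ x, a x * b x = inner ℝ (ha.toLp a) (hb.toLp b) := by
  rw [L2.inner_def]
  refine integral_congr_ae ?_
  filter_upwards [ha.coeFn_toLp, hb.coeFn_toLp] with x h1 h2
  rw [h1, h2]
  simp [mul_comm]

/-- gradient components in `L²` -/
noncomputable def P (i : Fin 4) {f : E → ℝ} (hf : IsTest f) : Lp ℝ 2 (volume : Measure E) :=
  (memLp_test (test_pd hf i) 2).toLp (pd i f)

/-- velocity in `L²` -/
noncomputable def Q {f : E → ℝ} (hf : IsTest f) : Lp ℝ 2 (volume : Measure E) :=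
  (memLp_test hf 2).toLp f

lemma inner_th (hI : St_IsoP) (hJ : St_JD) {f g f' g' : E → ℝ} (hf : IsTest f) (hg : IsTest g)
    (hf' : IsTest f') (hg' : IsTest g') : inner ℝ (Theta (-1 / 2) f g) (Theta (-1 / 2) f' g') =
      c0 * ((∑ i, inner ℝ (P i hf) (P i hf')) + inner ℝ (Q hg) (Q hg')) := by
  have h := isE_th hI hf hg
  have h1 := (h _ (test_lap hf')).1
  have h2 := (h _ hg').2
  have h3 : inner ℝ (Theta (-1 / 2) f g) (Theta (-1 / 2) f' g') =
      c0 * (inner ℝ (Theta (-1 / 2) f g) (dRs (-1 / 2) g') -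
        inner ℝ (Theta (-1 / 2) f g) (Rs (-1 / 2) (lap f'))) := by
    rw [theta_eq hJ (f := f') hg', real_inner_smul_right, inner_sub_right]
  rw [h3, h1, h2, ibp_lap hf hf']
  unfold P Q
  simp only [← in_L2]
  ring

lemma norm_th (hI : St_IsoP) (hJ : St_JD) {f g f' g' : E → ℝ} (hf : IsTest f) (hg : IsTest g)
    (hf' : IsTest f') (hg' : IsTest g') : ‖Theta (-1 / 2) f g - Theta (-1 / 2) f' g'‖ ^ 2 =
      c0 * ((∑ i, ‖P i hf - P i hf'‖ ^ 2) + ‖Q hg - Q hg'‖ ^ 2) := by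
  simp only [norm_sub_sq_real, Finset.sum_add_distrib, Finset.sum_sub_distrib, ← Finset.mul_sum]
  simp only [← real_inner_self_eq_norm_sq, inner_th hI hJ hf hg hf hg,
    inner_th hI hJ hf hg hf' hg', inner_th hI hJ hf' hg' hf' hg']
  ring

lemma lim_pair {p : ℝ≥0∞} (hp : 1 ≤ p) {f : ℕ → E → ℝ} {u φ : E → ℝ} (hm : ∀ n, MemLp (f n) p volume)
    (hu : MemLp u p volume) (hz : Tendsto (fun n => eLpNorm (fun x => f n x - u x) p volume) atTop (𝓝 0))
    (hφ : IsTest φ) : Tendsto (fun n => ∫ x, f n x * φ x) atTop (𝓝 (∫ x, u x * φ x)) := by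
  obtain ⟨D, hD⟩ := pair_cont p hp hφ
  rw [tendsto_iff_dist_tendsto_zero]
  have h0 : Tendsto (fun n => D * (eLpNorm (fun x => f n x - u x) p volume).toReal) atTop (𝓝 0) := by
    have := ((ENNReal.tendsto_toReal ENNReal.zero_ne_top).comp hz).const_mul D
    simpa using this
  refine squeeze_zero (fun n => dist_nonneg) (fun n => ?_) h0
  rw [Real.dist_eq, ← integral_sub (int_mul ((hm n).locallyIntegrable hp) hφ)
    (int_mul (hu.locallyIntegrable hp) hφ)]
  refine le_trans (le_of_eq ?_) (hD (fun x => f n x - u x) ((hm n).sub hu))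
  congr 2
  ext x
  ring

lemma lim_L2 {f : ℕ → E → ℝ} {u : E → ℝ} (hm : ∀ n, MemLp (f n) 2 volume) (hu : MemLp u 2 volume)
    (hz : Tendsto (fun n => eLpNorm (fun x => f n x - u x) 2 volume) atTop (𝓝 0)) :
    Tendsto (fun n => (hm n).toLp (f n)) atTop (𝓝 (hu.toLp u)) :=
  (Lp.tendsto_Lp_iff_tendsto_eLpNorm'' _ hm _ hu).2 hz

/-- convergence of test states -/
lemma conv (hI : St_IsoP) (hJ : St_JD) {u v : E → ℝ} {G : Fin 4 → E → ℝ} (h : FP u v G)
    {f g : ℕ → E → ℝ} (hf : ∀ n, IsTest (f n)) (hg : ∀ n, IsTest (g n))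
    (h1 : Tendsto (fun n => eLpNorm (fun x => f n x - u x) 4 volume) atTop (𝓝 0))
    (h2 : ∀ i, Tendsto (fun n => eLpNorm (fun x => pd i (f n) x - G i x) 2 volume) atTop (𝓝 0))
    (h3 : Tendsto (fun n => eLpNorm (fun x => g n x - v x) 2 volume) atTop (𝓝 0)) :
    ∃ e : K, IsE e u v ∧ Tendsto (fun n => Theta (-1 / 2) (f n) (g n)) atTop (𝓝 e) := by
  have hcau : CauchySeq fun n => Theta (-1 / 2) (f n) (g n) := by
    rw [cauchySeq_iff_tendsto_dist_atTop_0]
    have c1 : ∀ i, Tendsto (fun n : ℕ × ℕ => ‖P i (hf n.1) - P i (hf n.2)‖) atTop (𝓝 0) := by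
      intro i
      have c := (lim_L2 (fun n => memLp_test (test_pd (hf n) i) 2) (h.2.2 i).1 (h2 i)).cauchySeq
      rw [cauchySeq_iff_tendsto_dist_atTop_0] at c
      refine c.congr fun n => ?_
      rw [dist_eq_norm]
      rfl
    have c2 : Tendsto (fun n : ℕ × ℕ => ‖Q (hg n.1) - Q (hg n.2)‖) atTop (𝓝 0) := by
      have c := (lim_L2 (fun n => memLp_test (hg n) 2) h.2.1 h3).cauchySeq
      rw [cauchySeq_iff_tendsto_dist_atTop_0] at c
      refine c.congr fun n => ?_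
      rw [dist_eq_norm]
      rfl
    have c3 : Tendsto (fun n : ℕ × ℕ => c0 * ((∑ i, ‖P i (hf n.1) - P i (hf n.2)‖ ^ 2) +
        ‖Q (hg n.1) - Q (hg n.2)‖ ^ 2)) atTop (𝓝 0) := by
      have := ((tendsto_finsetSum Finset.univ fun i _ => (c1 i).pow 2).add (c2.pow 2)).const_mul c0
      simpa using this
    have c4 := (Real.continuous_sqrt.tendsto 0).comp c3
    rw [Real.sqrt_zero] at c4
    refine c4.congr fun n => ?_
    simp only [Function.comp_apply]
    rw [← norm_th hI hJ (hf n.1) (hg n.1) (hf n.2) (hg n.2), Real.sqrt_sq (norm_nonneg _),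
      dist_eq_norm]
  obtain ⟨e, he⟩ := cauchySeq_tendsto_of_complete hcau
  refine ⟨e, fun φ hφ => ⟨?_, ?_⟩, he⟩
  · have l1 : Tendsto (fun n => inner ℝ (Theta (-1 / 2) (f n) (g n)) (Rs (-1 / 2) φ)) atTop
        (𝓝 (inner ℝ e (Rs (-1 / 2) φ))) := he.inner tendsto_const_nhds
    have l2 := lim_pair (by norm_num) (fun n => memLp_test (hf n) 4) h.1 h1 hφ
    refine tendsto_nhds_unique l1 (l2.congr fun n => ?_)
    exact ((isE_th hI (hf n) (hg n) φ hφ).1).symm
  · have l1 : Tendsto (fun n => inner ℝ (Theta (-1 / 2) (f n) (g n)) (dRs (-1 / 2) φ)) atTop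
        (𝓝 (inner ℝ e (dRs (-1 / 2) φ))) := he.inner tendsto_const_nhds
    have l2 := lim_pair (by norm_num) (fun n => memLp_test (hg n) 2) h.2.1 h3 hφ
    refine tendsto_nhds_unique l1 (l2.congr fun n => ?_)
    exact ((isE_th hI (hf n) (hg n) φ hφ).2).symm

lemma theta_sub (hI : St_IsoP) (hU : St_EnU) {f g f' g' : E → ℝ}
    (hf : IsTest f) (hg : IsTest g) (hf' : IsTest f') (hg' : IsTest g') :
    Theta (-1 / 2) (fun x => f x - f' x) (fun x => g x - g' x) =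
      Theta (-1 / 2) f g - Theta (-1 / 2) f' g' := by
  refine uniq hU (isE_th hI (test_sub hf hf') (test_sub hg hg')) fun φ hφ => ⟨?_, ?_⟩
  · rw [inner_sub_left, (isE_th hI hf hg φ hφ).1, (isE_th hI hf' hg' φ hφ).1,
      ← integral_sub (int_mul' hf hφ) (int_mul' hf' hφ)]
    congr 1
    ext x
    ring
  · rw [inner_sub_left, (isE_th hI hf hg φ hφ).2, (isE_th hI hf' hg' φ hφ).2,
      ← integral_sub (int_mul' hg hφ) (int_mul' hg' hφ)]
    congr 1
    ext x
    ring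

/-- extension from test states -/
lemma ext_test (hI : St_IsoP) (hU : St_EnU) (hD : St_DnsP) (p : ℝ≥0∞)
    (hp : 1 ≤ p) (C : ℝ) (hC : 0 ≤ C) (ψ : (E → ℝ) → K)
    (H : ∀ f g : E → ℝ, IsTest f → IsTest g → ∃ h : E → ℝ, MemLp h p volume ∧
      eLpNorm h p volume ≤ ENNReal.ofReal C * ‖Theta (-1 / 2) f g‖ₑ ∧
      ∀ φ, IsTest φ → ∫ x, h x * φ x = inner ℝ (Theta (-1 / 2) f g) (ψ φ)) (k : K) :
    ∃ h : E → ℝ, MemLp h p volume ∧ eLpNorm h p volume ≤ ENNReal.ofReal C * ‖k‖ₑ ∧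
      ∀ φ, IsTest φ → ∫ x, h x * φ x = inner ℝ k (ψ φ) := by
  have : Fact (1 ≤ p) := ⟨hp⟩
  have hseq : ∀ n : ℕ, ∃ f g : E → ℝ, IsTest f ∧ IsTest g ∧ ‖k - Theta (-1 / 2) f g‖ < (1 / 2) ^ n :=
    fun n => (hD (-1 / 2) (by norm_num) (by norm_num)).2.1 k _ (by positivity)
  choose f g hf hg hfg using hseq
  choose h hm hb hh using fun n => H (f n) (g n) (hf n) (hg n)
  set d : ℕ → K := fun n => Theta (-1 / 2) (f n) (g n) with hd
  have hdlim : Tendsto d atTop (𝓝 k) := by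
    rw [tendsto_iff_norm_sub_tendsto_zero]
    have h0 : Tendsto (fun n : ℕ => (1 / 2 : ℝ) ^ n) atTop (𝓝 0) :=
      tendsto_pow_atTop_nhds_zero_of_lt_one (by norm_num) (by norm_num)
    refine squeeze_zero (fun n => norm_nonneg _) (fun n => ?_) h0
    rw [← norm_neg, neg_sub]
    exact (hfg n).le
  have hli : ∀ {u : E → ℝ}, MemLp u p volume → LocallyIntegrable u volume := fun hu =>
    hu.locallyIntegrable hp
  have hdiff : ∀ n m, eLpNorm (h n - h m) p volume ≤ ENNReal.ofReal C * ‖d n - d m‖ₑ := by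
    intro n m
    obtain ⟨h', hm', hb', hh'⟩ := H _ _ (test_sub (hf n) (hf m)) (test_sub (hg n) (hg m))
    rw [theta_sub hI hU (hf n) (hg n) (hf m) (hg m)] at hb' hh'
    have hae : (h n - h m) =ᵐ[volume] h' := by
      apply ae_uniq (hli ((hm n).sub (hm m))) (hli hm')
      intro φ hφ
      rw [hh' φ hφ, inner_sub_left, ← hh n φ hφ, ← hh m φ hφ,
        ← integral_sub (int_mul (hli (hm n)) hφ) (int_mul (hli (hm m)) hφ)]
      congr 1
      ext x
      simp only [Pi.sub_apply]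
      ring
    rw [eLpNorm_congr_ae hae]
    exact hb'
  set a : ℕ → Lp ℝ p (volume : Measure E) := fun n => (hm n).toLp (h n) with ha
  have hadist : ∀ n m, dist (a n) (a m) ≤ C * dist (d n) (d m) := by
    intro n m
    rw [dist_eq_norm, dist_eq_norm, ha]
    simp only
    rw [← MemLp.toLp_sub, Lp.norm_toLp]
    refine ENNReal.toReal_le_of_le_ofReal (by positivity) ((hdiff n m).trans_eq ?_)
    rw [ENNReal.ofReal_mul hC, ofReal_norm]
  have hcau : CauchySeq a := by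
    rw [Metric.cauchySeq_iff]
    intro ε hε
    have hdc := hdlim.cauchySeq
    rw [Metric.cauchySeq_iff] at hdc
    obtain ⟨N, hN⟩ := hdc (ε / (C + 1)) (by positivity)
    refine ⟨N, fun m hm' n hn => ?_⟩
    have h1 := hN m hm' n hn
    have h2 := hadist m n
    rw [lt_div_iff₀ (by positivity)] at h1
    have h3 : 0 ≤ dist (d m) (d n) := dist_nonneg
    nlinarith
  obtain ⟨A, hA⟩ := cauchySeq_tendsto_of_complete hcau
  have hnorm : ∀ n, ‖a n‖ ≤ C * ‖d n‖ := by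
    intro n
    rw [ha]
    simp only
    rw [Lp.norm_toLp]
    refine ENNReal.toReal_le_of_le_ofReal (by positivity) ((hb n).trans_eq ?_)
    rw [ENNReal.ofReal_mul hC, ofReal_norm]
  refine ⟨A, Lp.memLp A, ?_, ?_⟩
  · rw [← Lp.enorm_def, ← ofReal_norm A, ← ofReal_norm k, ← ENNReal.ofReal_mul hC]
    apply ENNReal.ofReal_le_ofReal
    exact le_of_tendsto_of_tendsto' hA.norm (hdlim.norm.const_mul C) hnorm
  · intro φ hφ
    obtain ⟨D, hDφ⟩ := pair_cont p hp hφ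
    have l1 : Tendsto (fun n => ∫ x, h n x * φ x) atTop (𝓝 (∫ x, A x * φ x)) := by
      rw [tendsto_iff_dist_tendsto_zero]
      have h0 : Tendsto (fun n => D * ‖a n - A‖) atTop (𝓝 (D * 0)) :=
        (tendsto_iff_norm_sub_tendsto_zero.1 hA).const_mul D
      rw [mul_zero] at h0
      refine squeeze_zero (fun n => dist_nonneg) (fun n => ?_) h0
      rw [Real.dist_eq, ← integral_sub (int_mul (hli (hm n)) hφ)
        (int_mul (hli (Lp.memLp A)) hφ)]
      have e1 : ∫ x, (h n x * φ x - A x * φ x) = ∫ x, (h n - (A : E → ℝ)) x * φ x := by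
        congr 1
        ext x
        simp only [Pi.sub_apply]
        ring
      rw [e1]
      refine (hDφ _ ((hm n).sub (Lp.memLp A))).trans (le_of_eq ?_)
      congr 1
      rw [Lp.norm_def]
      congr 1
      apply eLpNorm_congr_ae
      filter_upwards [Lp.coeFn_sub (a n) A, (hm n).coeFn_toLp] with x h1 h2
      rw [h1, Pi.sub_apply, Pi.sub_apply, ← h2]
    have l2 : Tendsto (fun n => ∫ x, h n x * φ x) atTop (𝓝 (inner ℝ k (ψ φ))) := by
      have h1 : Tendsto (fun n => inner ℝ (d n) (ψ φ)) atTop (𝓝 (inner ℝ k (ψ φ))) :=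
        hdlim.inner tendsto_const_nhds
      refine h1.congr fun n => ?_
      rw [hh n φ hφ]
    exact tendsto_nhds_unique l1 l2

/-- the norm of a test state -/
lemma theta_bound (hI : St_IsoP) (hJ : St_JD) {f g : E → ℝ} (hf : IsTest f) (hg : IsTest g) :
    (∀ i, eLpNorm (pd i f) 2 volume ≤ ENNReal.ofReal (√(1 / c0)) * ‖Theta (-1 / 2) f g‖ₑ) ∧
      eLpNorm g 2 volume ≤ ENNReal.ofReal (√(1 / c0)) * ‖Theta (-1 / 2) f g‖ₑ := by
  have hc := c0_pos
  have h1 := inner_th hI hJ hf hg hf hg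
  simp only [real_inner_self_eq_norm_sq] at h1
  have key : ∀ x : ℝ, 0 ≤ x → c0 * x ^ 2 ≤ ‖Theta (-1 / 2) f g‖ ^ 2 →
      x ≤ √(1 / c0) * ‖Theta (-1 / 2) f g‖ := by
    intro x hx h
    rw [← Real.sqrt_sq hx, ← Real.sqrt_sq (norm_nonneg (Theta (-1 / 2) f g)), ← Real.sqrt_mul (by positivity)]
    apply Real.sqrt_le_sqrt
    rw [div_mul_eq_mul_div, one_mul, le_div_iff₀ hc]
    linarith
  have hS : 0 ≤ ∑ i, ‖P i hf‖ ^ 2 := Finset.sum_nonneg fun i _ => by positivity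
  constructor
  · intro i
    have h2 : ‖P i hf‖ ^ 2 ≤ ∑ i, ‖P i hf‖ ^ 2 :=
      Finset.single_le_sum (f := fun i => ‖P i hf‖ ^ 2) (fun i _ => by positivity) (Finset.mem_univ i)
    have h3 := key ‖P i hf‖ (norm_nonneg _) (by
      rw [h1]
      have : 0 ≤ ‖Q hg‖ ^ 2 := by positivity
      nlinarith)
    have h4 : eLpNorm (pd i f) 2 volume = ENNReal.ofReal ‖P i hf‖ := by
      rw [P, Lp.norm_toLp, ENNReal.ofReal_toReal (memLp_test (test_pd hf i) 2).eLpNorm_ne_top]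
    rw [h4, ← ofReal_norm (Theta (-1 / 2) f g), ← ENNReal.ofReal_mul (Real.sqrt_nonneg _)]
    exact ENNReal.ofReal_le_ofReal h3
  · have h3 := key ‖Q hg‖ (norm_nonneg _) (by
      rw [h1]
      nlinarith)
    have h4 : eLpNorm g 2 volume = ENNReal.ofReal ‖Q hg‖ := by
      rw [Q, Lp.norm_toLp, ENNReal.ofReal_toReal (memLp_test hg 2).eLpNorm_ne_top]
    rw [h4, ← ofReal_norm (Theta (-1 / 2) f g), ← ENNReal.ofReal_mul (Real.sqrt_nonneg _)]
    exact ENNReal.ofReal_le_ofReal h3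

lemma fp_test {f g : E → ℝ} (hf : IsTest f) (hg : IsTest g) : FP f g fun i => pd i f :=
  ⟨memLp_test hf 4, memLp_test hg 2, fun i => ⟨memLp_test (test_pd hf i) 2, wd_test hf i⟩⟩

end EnRx

open EnRx Linx Fldx in
/-- **EnR** (representation of finite energy pairs). -/
theorem thm_EnR (hI : St_IsoP) (hJ : St_JD) (hD : St_DnsP) (hU : St_EnU) (hFP : St_FPa) :
    St_EnR := by
  obtain ⟨C, hC, hFP⟩ := hFP
  refine ⟨fun u v G h => ?_, fun e => ?_, fun e e' u v u' v' G G' h h' he he' => ?_,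
    fun f g hf hg => isE_th hI hf hg, fun e ε hε => ?_⟩
  · obtain ⟨-, -, f, g, hfg, h1, h2, h3⟩ := hFP u v G h
    obtain ⟨e, he, -⟩ := conv hI hJ h (fun n => (hfg n).1) (fun n => (hfg n).2) h1 h2 h3
    exact ⟨e, he⟩
  · have hc1 : 0 ≤ √(1 / c0) := Real.sqrt_nonneg _
    obtain ⟨u, hu, -, hu'⟩ := ext_test hI hU hD 4 (by norm_num) (C * (4 * √(1 / c0))) (by positivity)
      (fun φ => Rs (-1 / 2) φ) (fun f g hf hg => by
        refine ⟨f, memLp_test hf 4, ?_, fun φ hφ => ((isE_th hI hf hg φ hφ).1).symm⟩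
        refine (hFP f g _ (fp_test hf hg)).1.trans ?_
        have e2 : ∑ i, eLpNorm (pd i f) 2 volume ≤
            4 * (ENNReal.ofReal (√(1 / c0)) * ‖Theta (-1 / 2) f g‖ₑ) := by
          refine (Finset.sum_le_sum fun i _ => (theta_bound hI hJ hf hg).1 i).trans (le_of_eq ?_)
          rw [Finset.sum_const, Finset.card_univ, Fintype.card_fin, nsmul_eq_mul]
          norm_num
        calc ENNReal.ofReal C * ∑ i, eLpNorm (pd i f) 2 volume ≤
              ENNReal.ofReal C * (4 * (ENNReal.ofReal (√(1 / c0)) * ‖Theta (-1 / 2) f g‖ₑ)) := by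
              gcongr
          _ = ENNReal.ofReal (C * (4 * √(1 / c0))) * ‖Theta (-1 / 2) f g‖ₑ := by
              rw [ENNReal.ofReal_mul hC.le, ENNReal.ofReal_mul (by norm_num), ENNReal.ofReal_ofNat]
              ring) e
    obtain ⟨v, hv, -, hv'⟩ := ext_test hI hU hD 2 (by norm_num) (√(1 / c0)) hc1
      (fun φ => dRs (-1 / 2) φ) (fun f g hf hg =>
        ⟨g, memLp_test hg 2, (theta_bound hI hJ hf hg).2, fun φ hφ => ((isE_th hI hf hg φ hφ).2).symm⟩) e
    have hW : ∀ i, ∃ w : E → ℝ, MemLp w 2 volume ∧ eLpNorm w 2 volume ≤ ENNReal.ofReal (√(1 / c0)) * ‖e‖ₑ ∧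
        ∀ φ, IsTest φ → ∫ x, w x * φ x = inner ℝ e (- Rs (-1 / 2) (pd i φ)) := fun i =>
      ext_test hI hU hD 2 (by norm_num) (√(1 / c0)) hc1 (fun φ => - Rs (-1 / 2) (pd i φ)) (fun f g hf hg => by
        refine ⟨pd i f, memLp_test (test_pd hf i) 2, (theta_bound hI hJ hf hg).1 i, fun φ hφ => ?_⟩
        rw [inner_neg_right, (isE_th hI hf hg _ (test_pd hφ i)).1, ibp i hf hφ, neg_neg]) e
    choose G hG1 _ hG2 using hW
    refine ⟨u, v, G, ⟨hu, hv, fun i => ⟨hG1 i, fun φ hφ => ?_⟩⟩, fun φ hφ => ⟨(hu' φ hφ).symm, (hv' φ hφ).symm⟩⟩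
    rw [hG2 i φ hφ, hu' _ (test_pd hφ i), inner_neg_right, neg_neg]
  · obtain ⟨-, -, f, g, hfg, h1, h2, h3⟩ := hFP u v G h
    have hf := fun n => (hfg n).1
    have hg := fun n => (hfg n).2
    obtain ⟨e1, he1, l1⟩ := conv hI hJ h hf hg h1 h2 h3
    obtain ⟨-, -, f', g', hfg', h1', h2', h3'⟩ := hFP u' v' G' h'
    have hf' := fun n => (hfg' n).1
    have hg' := fun n => (hfg' n).2
    obtain ⟨e2, he2, l2⟩ := conv hI hJ h' hf' hg' h1' h2' h3'
    rw [uniq hU he he1, uniq hU he' he2]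
    have l3 : Tendsto (fun n => inner ℝ (Theta (-1 / 2) (f n) (g n)) (Theta (-1 / 2) (f' n) (g' n))) atTop
        (𝓝 (inner ℝ e1 e2)) := l1.inner l2
    refine tendsto_nhds_unique l3 ?_
    have l4 : ∀ i, Tendsto (fun n => inner ℝ (P i (hf n)) (P i (hf' n))) atTop
        (𝓝 (∫ x, G i x * G' i x)) := by
      intro i
      rw [in_L2 (h.2.2 i).1 (h'.2.2 i).1]
      exact (lim_L2 (fun n => memLp_test (test_pd (hf n) i) 2) (h.2.2 i).1 (h2 i)).inner
        (lim_L2 (fun n => memLp_test (test_pd (hf' n) i) 2) (h'.2.2 i).1 (h2' i))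
    have l5 : Tendsto (fun n => inner ℝ (Q (hg n)) (Q (hg' n))) atTop (𝓝 (∫ x, v x * v' x)) := by
      rw [in_L2 h.2.1 h'.2.1]
      exact (lim_L2 (fun n => memLp_test (hg n) 2) h.2.1 h3).inner
        (lim_L2 (fun n => memLp_test (hg' n) 2) h'.2.1 h3')
    refine (((tendsto_finsetSum Finset.univ fun i _ => l4 i).add l5).const_mul c0).congr fun n => ?_
    exact (inner_th hI hJ (hf n) (hg n) (hf' n) (hg' n)).symm
  · exact (hD (-1 / 2) (by norm_num) (by norm_num)).2.1 e ε hε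

end Pool.Agent.QWF
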