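import Pool.Agent.QWF.StB

set_option autoImplicit false

/-!
# QWF, EnS: states with finite energy norms
-/

open MeasureTheory Filter Topology Set
open scoped ENNReal NNReal RealInnerProductSpace ContDiff

namespace Pool.Agent.QWF

namespace EnSx

lemma sig_lt {b : ℝ} (hb : 4 < b) : |sig b| < 1 / 2 := by
  unfold sig
  have h1 : 0 < 2 / b := by positivity
  have h2 : 2 / b < 1 := by
    rw [div_lt_one (by linarith)]
    linarith
  rw [abs_lt]
  constructor <;> linarith

lemma q0_sig {b : ℝ} (hb : 4 < b) : q0 (sig b) = ENNReal.ofReal (2 * b) := by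
  unfold q0 sig
  congr 1
  have : b ≠ 0 := by linarith
  field_simp
  ring

lemma e4 : ENNReal.ofReal 4 = 4 := by norm_num

lemma between {f : E → ℝ} {p q r : ℝ} (hp : 0 < p) (hpr : p ≤ r) (hrq : r ≤ q)
    (h1 : MemLp f (ENNReal.ofReal p) volume) (h2 : MemLp f (ENNReal.ofReal q) volume) :
    MemLp f (ENNReal.ofReal r) volume := by
  have hr : 0 < r := by linarith
  have hq : 0 < q := by linarith
  have i1 := (integrable_norm_rpow_iff h1.1 (ENNReal.ofReal_pos.2 hp).ne' ENNReal.ofReal_ne_top).2 h1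
  have i2 := (integrable_norm_rpow_iff h2.1 (ENNReal.ofReal_pos.2 hq).ne' ENNReal.ofReal_ne_top).2 h2
  refine (integrable_norm_rpow_iff h1.1 (ENNReal.ofReal_pos.2 hr).ne' ENNReal.ofReal_ne_top).1 ?_
  rw [ENNReal.toReal_ofReal hp.le] at i1
  rw [ENNReal.toReal_ofReal hq.le] at i2
  rw [ENNReal.toReal_ofReal hr.le]
  refine (i1.add i2).mono' ?_ (Eventually.of_forall fun x => ?_)
  · exact (h1.1.aemeasurable.norm.pow_const r).aestronglyMeasurable
  · have h0 := norm_nonneg (f x)
    rw [Real.norm_of_nonneg (Real.rpow_nonneg h0 _)]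
    simp only [Pi.add_apply]
    rcases le_total ‖f x‖ 1 with h | h
    · have h3 := Real.rpow_le_rpow_of_exponent_ge' h0 h hp.le hpr
      have h4 := Real.rpow_nonneg h0 q
      linarith
    · have h3 := Real.rpow_le_rpow_of_exponent_le h hrq
      have h4 := Real.rpow_nonneg h0 p
      linarith

lemma triple : ENNReal.HolderTriple 4 4 2 := by
  refine ⟨?_⟩
  have e1 : (4 : ℝ≥0∞)⁻¹ = ENNReal.ofReal (4⁻¹) := by
    rw [ENNReal.ofReal_inv_of_pos (by norm_num)]; norm_num
  have e3 : (2 : ℝ≥0∞)⁻¹ = ENNReal.ofReal (2⁻¹) := by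
    rw [ENNReal.ofReal_inv_of_pos (by norm_num)]; norm_num
  rw [e1, e3, ← ENNReal.ofReal_add (by norm_num) (by norm_num)]
  norm_num

lemma test_pd {f : E → ℝ} (hf : IsTest f) (i : Fin 4) : IsTest (pd i f) := by
  refine ⟨?_, ?_⟩
  · exact (hf.1.fderiv_right (m := ∞) (by simp)).clm_apply contDiff_const
  · exact hf.2.fderiv_apply ℝ _

lemma test_lap {f : E → ℝ} (hf : IsTest f) : IsTest (lap f) := by
  refine ⟨?_, ?_⟩
  · unfold lap
    exact ContDiff.sum fun i _ => (test_pd (test_pd hf i) i).1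
  · have h1 : lap f = ∑ i, pd i (pd i f) := by
      funext x; simp [lap]
    rw [h1]
    have h2 : ∀ s : Finset (Fin 4), HasCompactSupport (∑ i ∈ s, pd i (pd i f)) := by
      intro s
      induction s using Finset.induction_on with
      | empty => simpa using (HasCompactSupport.zero : HasCompactSupport (0 : E → ℝ))
      | insert i s hi ih =>
        rw [Finset.sum_insert hi]
        exact (test_pd (test_pd hf i) i).2.add ih
    exact h2 _

end EnSx

open EnSx in
theorem thm_EnS (hFld : St_FldP) (hFre : St_FreX) (hGrp : St_Grp1) : St_EnS := by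
  intro b hb
  have hs := sig_lt hb
  obtain ⟨C, -, hk, -, -⟩ := hFld (sig b) hs
  constructor
  · intro k B ⟨hD, hV, hU⟩
    obtain ⟨hIU, -, hIV, -, hDU, -⟩ := hk k
    have mU : MemLp (U (sig b) k) 4 volume :=
      ⟨hIU.1.1, lt_of_le_of_lt hU ENNReal.ofReal_lt_top⟩
    refine ⟨⟨mU, ⟨hIV.1.1, lt_of_le_of_lt hV ENNReal.ofReal_lt_top⟩, fun i =>
      ⟨⟨(hDU i).1.1, lt_of_le_of_lt (hD i) ENNReal.ofReal_lt_top⟩, (hDU i).2.1⟩⟩, ?_, ?_⟩
    · have m0 := hIU.1
      rw [q0_sig hb] at m0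
      rw [← e4] at mU
      exact between (by norm_num) (by linarith) (by linarith) mU m0
    · have hm : AEStronglyMeasurable (fun x => |U (sig b) k x| ^ b) volume :=
        (hIU.1.1.aemeasurable.norm.pow_const b).aestronglyMeasurable
      have h1 := @eLpNorm_smul_le_mul_eLpNorm ℝ E ℝ _ volume _ _ _ _ 4 4 2
        (U (sig b) k) hIU.1.1 (fun x => |U (sig b) k x| ^ b) hm triple
      have h2 : eLpNorm (fun x => |U (sig b) k x| ^ b) 4 volume = sn b k ^ b := by
        have h3 := eLpNorm_norm_rpow (p := 4) (μ := (volume : Measure E)) (U (sig b) k)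
          (show 0 < b by linarith)
        have h4 : (4 : ℝ≥0∞) * ENNReal.ofReal b = ENNReal.ofReal (4 * b) := by
          rw [ENNReal.ofReal_mul (by norm_num)]
          norm_num
        rw [h4] at h3
        exact h3
      rw [h2] at h1
      calc eLpNorm (fun x => Fn b (U (sig b) k x)) 2 volume
          ≤ sn b k ^ b * eLpNorm (U (sig b) k) 4 volume := h1
        _ ≤ sn b k ^ b * ENNReal.ofReal B := by gcongr
  · intro k e he t φ hφ
    obtain ⟨-, -, -, -, -, hmv, -⟩ := hGrp
    obtain ⟨-, f1, f2, hf1, hf2, hX, -⟩ := hFre φ φ φ (-t) hφ hφ hφ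
    have h0 := abs_lt.1 hs
    obtain ⟨h5, h6⟩ := hX (sig b) (by linarith) h0.2
    obtain ⟨h2, h3⟩ := hX (-1 / 2) le_rfl (by norm_num)
    obtain ⟨hIU, -, hIV, -, -, -⟩ := hk k
    obtain ⟨hIU', -, hIV', -, -, -⟩ := hk (tau t k)
    constructor
    · rw [hmv, h2, inner_add_right, (he f1 hf1).1, (he f2 hf2).2, hIU'.2 φ hφ, hmv, h5,
        inner_add_right, ← hIU.2 f1 hf1, ← hIV.2 f2 hf2]
    · rw [hmv, h3, inner_add_right, (he f1 hf1).2, (he (lap f2) (test_lap hf2)).1, hIV'.2 φ hφ,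
        hmv, h6, inner_add_right, ← hIU.2 _ (test_lap hf2), ← hIV.2 f1 hf1]

end Pool.Agent.QWF
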