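import Pool.Agent.QWF.StB2
import Pool.Agent.QWF.Moll

set_option autoImplicit false

/-!
# QWF / FPa: approximation of finite energy pairs, Sobolev, Hardy in `ℝ⁴`

Port of parts of QWE/FEd.lean, QWE/MorI.lean, QWE/Sob.lean.
-/

open MeasureTheory Filter Topology Set
open scoped ENNReal NNReal RealInnerProductSpace ContDiff Pointwise

namespace Pool.Agent.QWF

namespace FPax

open Moll

lemma ht {p q r : ℝ≥0∞} (hp : p ≠ 0) (hq : q ≠ 0) (hr : r ≠ 0)
    (h : p.toReal⁻¹ + q.toReal⁻¹ = r.toReal⁻¹) : ENNReal.HolderTriple p q r := by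
  refine ⟨?_⟩
  have h1 : p⁻¹ ≠ ⊤ := ENNReal.inv_ne_top.2 hp
  have h2 : q⁻¹ ≠ ⊤ := ENNReal.inv_ne_top.2 hq
  have h3 : r⁻¹ ≠ ⊤ := ENNReal.inv_ne_top.2 hr
  rw [← ENNReal.toReal_eq_toReal_iff' (ENNReal.add_ne_top.2 ⟨h1, h2⟩) h3,
    ENNReal.toReal_add h1 h2, ENNReal.toReal_inv, ENNReal.toReal_inv, ENNReal.toReal_inv]
  exact h

lemma hoel (p q : ℝ≥0∞) {r : ℝ≥0∞} (h : ENNReal.HolderTriple p q r) {f g : E → ℝ}
    (hf : AEStronglyMeasurable f volume) (hg : AEStronglyMeasurable g volume) :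
    eLpNorm (fun x => f x * g x) r volume ≤ eLpNorm f p volume * eLpNorm g q volume :=
  eLpNorm_smul_le_mul_eLpNorm (f := g) (φ := f) hg hf

lemma test_memLp {f : E → ℝ} (hf : IsTest f) (p : ℝ≥0∞) : MemLp f p volume :=
  hf.1.continuous.memLp_of_hasCompactSupport hf.2

lemma int_sq {G : E → ℝ} (h : MemLp G 2 volume) :
    ∫ x, G x ^ 2 = (eLpNorm G 2 volume).toReal ^ 2 := by
  rw [h.eLpNorm_eq_integral_rpow_norm (by norm_num) (by norm_num)]
  have h0 : 0 ≤ ∫ x, ‖G x‖ ^ (2 : ℝ≥0∞).toReal :=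
    integral_nonneg fun x => by positivity
  rw [ENNReal.toReal_ofReal (by positivity)]
  simp only [ENNReal.toReal_ofNat]
  rw [← Real.rpow_natCast, ← Real.rpow_mul (by simpa using h0)]
  norm_num

/-! ### sequences tending to zero in `L^p` -/

/-- null sequence in `L^p` -/
def Z (p : ℝ≥0∞) (F : ℕ → E → ℝ) : Prop :=
  (∀ n, AEStronglyMeasurable (F n) volume) ∧ Tendsto (fun n => eLpNorm (F n) p volume) atTop (𝓝 0)

lemma Z.congr {p : ℝ≥0∞} {F G : ℕ → E → ℝ} (hF : Z p F) (h : ∀ n, F n = G n) : Z p G := by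
  have : F = G := funext h
  rwa [← this]

lemma Z.of_le {p : ℝ≥0∞} {F : ℕ → E → ℝ} {b : ℕ → ℝ≥0∞} (hm : ∀ n, AEStronglyMeasurable (F n) volume)
    (h : ∀ n, eLpNorm (F n) p volume ≤ b n) (hb : Tendsto b atTop (𝓝 0)) : Z p F :=
  ⟨hm, tendsto_of_tendsto_of_tendsto_of_le_of_le tendsto_const_nhds hb (fun _ => bot_le) h⟩

lemma Z.add {p : ℝ≥0∞} (hp : 1 ≤ p) {F G : ℕ → E → ℝ} (hF : Z p F) (hG : Z p G) :
    Z p (fun n x => F n x + G n x) := by
  refine Z.of_le (fun n => (hF.1 n).add (hG.1 n))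
    (fun n => eLpNorm_add_le (hF.1 n) (hG.1 n) hp) ?_
  simpa using hF.2.add hG.2

lemma Z.bdd {p : ℝ≥0∞} {F c : ℕ → E → ℝ} {B : ℝ} (hF : Z p F)
    (hc : ∀ n, AEStronglyMeasurable (c n) volume) (hB : ∀ n x, |c n x| ≤ B) :
    Z p (fun n x => c n x * F n x) := by
  refine Z.of_le (fun n => (hc n).mul (hF.1 n))
    (b := fun n => ENNReal.ofReal B * eLpNorm (F n) p volume) (fun n => ?_) ?_
  · refine eLpNorm_le_mul_eLpNorm_of_ae_le_mul (Eventually.of_forall fun x => ?_) p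
    rw [norm_mul]
    gcongr
    exact hB n x
  · have h := ENNReal.Tendsto.const_mul hF.2 (a := ENNReal.ofReal B) (Or.inr ENNReal.ofReal_ne_top)
    rwa [mul_zero] at h

lemma one_div_zero : Tendsto (fun n : ℕ => ENNReal.ofReal (1 / ((n : ℝ) + 1))) atTop (𝓝 0) := by
  have h := ENNReal.tendsto_ofReal (tendsto_one_div_add_atTop_nhds_zero_nat (𝕜 := ℝ))
  rwa [ENNReal.ofReal_zero] at h

lemma Z.small {p : ℝ≥0∞} {c F : ℕ → E → ℝ} {B : ℝ} {A : ℝ≥0∞} (hA : A ≠ ⊤)
    (hc : ∀ n, AEStronglyMeasurable (c n) volume) (hF : ∀ n, AEStronglyMeasurable (F n) volume)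
    (hB : ∀ n x, |c n x| ≤ B * (1 / ((n : ℝ) + 1))) (hb : ∀ n, eLpNorm (F n) p volume ≤ A) :
    Z p (fun n x => c n x * F n x) := by
  refine Z.of_le (fun n => (hc n).mul (hF n))
    (b := fun n => ENNReal.ofReal (1 / ((n : ℝ) + 1)) * (ENNReal.ofReal B * A)) (fun n => ?_) ?_
  · calc eLpNorm (fun x => c n x * F n x) p volume ≤
          ENNReal.ofReal (B * (1 / ((n : ℝ) + 1))) * eLpNorm (F n) p volume := by
          refine eLpNorm_le_mul_eLpNorm_of_ae_le_mul (Eventually.of_forall fun x => ?_) p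
          rw [norm_mul]
          gcongr
          exact hB n x
      _ ≤ ENNReal.ofReal (B * (1 / ((n : ℝ) + 1))) * A := by gcongr; exact hb n
      _ = ENNReal.ofReal (1 / ((n : ℝ) + 1)) * (ENNReal.ofReal B * A) := by
          rw [mul_comm B, ENNReal.ofReal_mul (by positivity)]
          ring
  · have h := ENNReal.Tendsto.mul_const one_div_zero (b := ENNReal.ofReal B * A)
      (Or.inr (ENNReal.mul_ne_top ENNReal.ofReal_ne_top hA))
    rwa [zero_mul] at h

/-- dominated convergence -/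
lemma Z.dom {p : ℝ≥0∞} (hp : 1 ≤ p) (hpt : p ≠ ⊤) {c : ℕ → E → ℝ} {w : E → ℝ} {B : ℝ}
    (hc : ∀ n, AEStronglyMeasurable (c n) volume) (hw : MemLp w p volume)
    (hB : ∀ n x, |c n x| ≤ B) (h0 : ∀ x, ∀ᶠ n in atTop, c n x = 0) :
    Z p (fun n x => c n x * w x) := by
  have hp0 : p ≠ 0 := (lt_of_lt_of_le zero_lt_one hp).ne'
  have hpr : 0 < p.toReal := ENNReal.toReal_pos hp0 hpt
  refine ⟨fun n => (hc n).mul hw.1, ?_⟩
  have h1 : Tendsto (fun n => ∫⁻ x, ‖c n x * w x‖ₑ ^ p.toReal) atTop (𝓝 (∫⁻ _x : E, 0)) := by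
    refine tendsto_lintegral_of_dominated_convergence'
      (fun x => (ENNReal.ofReal B * ‖w x‖ₑ) ^ p.toReal) (fun n => ?_) (fun n => ?_) ?_ ?_
    · exact (((hc n).mul hw.1).enorm).pow_const _
    · refine Eventually.of_forall fun x => ?_
      simp only
      gcongr
      rw [enorm_mul]
      gcongr
      rw [Real.enorm_eq_ofReal_abs]
      exact ENNReal.ofReal_le_ofReal (hB n x)
    · have h2 : ∫⁻ x, (ENNReal.ofReal B * ‖w x‖ₑ) ^ p.toReal =
          ENNReal.ofReal B ^ p.toReal * ∫⁻ x, ‖w x‖ₑ ^ p.toReal := by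
        rw [← lintegral_const_mul' _ _ (ENNReal.rpow_ne_top_of_nonneg hpr.le ENNReal.ofReal_ne_top)]
        refine lintegral_congr fun x => ?_
        rw [ENNReal.mul_rpow_of_nonneg _ _ hpr.le]
      rw [h2]
      refine ENNReal.mul_ne_top (ENNReal.rpow_ne_top_of_nonneg hpr.le ENNReal.ofReal_ne_top) ?_
      exact (lintegral_rpow_enorm_lt_top_of_eLpNorm_lt_top hp0 hpt hw.2).ne
    · refine Eventually.of_forall fun x => ?_
      refine tendsto_const_nhds.congr' ?_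
      filter_upwards [h0 x] with n hn
      rw [hn, zero_mul, enorm_zero, ENNReal.zero_rpow_of_pos hpr]
  rw [lintegral_zero] at h1
  have h2 : (fun n => eLpNorm (fun x => c n x * w x) p volume) =
      fun n => (∫⁻ x, ‖c n x * w x‖ₑ ^ p.toReal) ^ (1 / p.toReal) := by
    funext n
    rw [eLpNorm_eq_lintegral_rpow_enorm_toReal hp0 hpt]
  rw [h2]
  have h3 := h1.ennrpow_const (1 / p.toReal)
  rwa [ENNReal.zero_rpow_of_pos (by positivity)] at h3

/-- Hoelder -/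
lemma Z.hol {p q r : ℝ≥0∞} (h : ENNReal.HolderTriple p q r) {c F : ℕ → E → ℝ} {A : ℝ≥0∞}
    (hA : A ≠ ⊤) (hc : ∀ n, AEStronglyMeasurable (c n) volume)
    (hb : ∀ n, eLpNorm (c n) p volume ≤ A) (hF : Z q F) : Z r (fun n x => c n x * F n x) := by
  refine Z.of_le (fun n => (hc n).mul (hF.1 n)) (b := fun n => A * eLpNorm (F n) q volume)
    (fun n => (hoel p q h (hc n) (hF.1 n)).trans (by gcongr; exact hb n)) ?_
  have h1 := ENNReal.Tendsto.const_mul hF.2 (a := A) (Or.inr hA)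
  rwa [mul_zero] at h1

/-! ### cut-off functions -/

/-- the bump -/
noncomputable def bb : ContDiffBump (0 : E) := ⟨1, 2, one_pos, one_lt_two⟩

/-- cut-off functions -/
noncomputable def chi (n : ℕ) (x : E) : ℝ := bb (((n : ℝ) + 1)⁻¹ • x)

lemma bb_test : IsTest (bb : E → ℝ) := ⟨bb.contDiff, bb.hasCompactSupport⟩

lemma sc_test {h : E → ℝ} (hh : IsTest h) (n : ℕ) :
    IsTest (fun x => h (((n : ℝ) + 1)⁻¹ • x)) :=
  ⟨hh.1.comp (contDiff_const_smul _), hh.2.comp_smul (inv_ne_zero (by positivity))⟩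

lemma chi_test (n : ℕ) : IsTest (chi n) := sc_test bb_test n

lemma pd_sc {h : E → ℝ} (hh : IsTest h) (n : ℕ) (c : ℝ) (i : Fin 4) (x : E) :
    pd i (fun x => c * h (((n : ℝ) + 1)⁻¹ • x)) x = c * (((n : ℝ) + 1)⁻¹ * pd i h (((n : ℝ) + 1)⁻¹ • x)) := by
  have h1 : HasFDerivAt (fun x : E => ((n : ℝ) + 1)⁻¹ • x)
      (((n : ℝ) + 1)⁻¹ • ContinuousLinearMap.id ℝ E) x :=
    (((n : ℝ) + 1)⁻¹ • ContinuousLinearMap.id ℝ E).hasFDerivAt
  have h3 := ((test_diff hh (((n : ℝ) + 1)⁻¹ • x)).hasFDerivAt.comp x h1).const_mul c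
  unfold pd
  have h4 : (fun x => c * h (((n : ℝ) + 1)⁻¹ • x)) =
      fun y => c * (h ∘ fun x : E => ((n : ℝ) + 1)⁻¹ • x) y := rfl
  rw [h4, h3.fderiv]
  simp

lemma pd_chi (n : ℕ) (i : Fin 4) (x : E) :
    pd i (chi n) x = ((n : ℝ) + 1)⁻¹ * pd i bb (((n : ℝ) + 1)⁻¹ • x) := by
  have h := pd_sc bb_test n 1 i x
  simp only [one_mul] at h
  exact h

lemma pd2_chi (n : ℕ) (i j : Fin 4) (x : E) :
    pd j (pd i (chi n)) x = ((n : ℝ) + 1)⁻¹ * (((n : ℝ) + 1)⁻¹ *
      pd j (pd i bb) (((n : ℝ) + 1)⁻¹ • x)) := by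
  have h : pd i (chi n) = fun x => ((n : ℝ) + 1)⁻¹ * pd i bb (((n : ℝ) + 1)⁻¹ • x) :=
    funext fun x => pd_chi n i x
  rw [h]
  exact pd_sc (test_pd bb_test i) n _ j x

lemma chi_abs (n : ℕ) (x : E) : |chi n x| ≤ 1 := by
  unfold chi
  rw [abs_of_nonneg bb.nonneg]
  exact bb.le_one

lemma chi_one (n : ℕ) (x : E) (hx : ‖x‖ ≤ n) : chi n x = 1 := by
  have hn : (0 : ℝ) < (n : ℝ) + 1 := by positivity
  refine bb.one_of_mem_closedBall ?_
  rw [mem_closedBall_zero_iff, norm_smul, Real.norm_of_nonneg (inv_nonneg.2 hn.le)]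
  change _ ≤ (1 : ℝ)
  rw [inv_mul_le_iff₀ hn]
  linarith

/-- derivatives of the bump vanish in the unit ball -/
lemma pd_loc {h : E → ℝ} {c : ℝ} (hc : ∀ x ∈ Metric.ball (0 : E) 1, h x = c) (i : Fin 4) {x : E}
    (hx : x ∈ Metric.ball (0 : E) 1) : pd i h x = 0 := by
  have h1 : h =ᶠ[𝓝 x] fun _ => c := by
    filter_upwards [Metric.isOpen_ball.mem_nhds hx] with y hy using hc y hy
  unfold pd
  rw [h1.fderiv_eq]
  simp

lemma bb_one {x : E} (hx : x ∈ Metric.ball (0 : E) 1) : bb x = 1 :=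
  bb.one_of_mem_closedBall (Metric.ball_subset_closedBall hx)

lemma mem_small {n : ℕ} {x : E} (hx : ‖x‖ ≤ n) : ((n : ℝ) + 1)⁻¹ • x ∈ Metric.ball (0 : E) 1 := by
  have hn : (0 : ℝ) < (n : ℝ) + 1 := by positivity
  rw [mem_ball_zero_iff, norm_smul, Real.norm_of_nonneg (inv_nonneg.2 hn.le), inv_mul_lt_iff₀ hn]
  linarith

lemma pd_chi_zero (n : ℕ) (i : Fin 4) (x : E) (hx : ‖x‖ ≤ n) : pd i (chi n) x = 0 := by
  rw [pd_chi, pd_loc (fun y hy => bb_one hy) i (mem_small hx), mul_zero]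

/-- bounds of the derivatives -/
lemma bds : ∃ B : ℝ, 0 ≤ B ∧ (∀ i x, |pd i bb x| ≤ B) ∧ ∀ i j x, |pd j (pd i bb) x| ≤ B := by
  have h1 : ∀ i, ∃ C : ℝ, ∀ x, |pd i bb x| ≤ C := by
    intro i
    obtain ⟨C, hC⟩ := (test_pd bb_test i).2.exists_bound_of_continuous
      (test_pd bb_test i).1.continuous
    exact ⟨C, hC⟩
  have h2 : ∀ i j, ∃ C : ℝ, ∀ x, |pd j (pd i bb) x| ≤ C := by
    intro i j
    have ht := test_pd (test_pd bb_test i) j
    obtain ⟨C, hC⟩ := ht.2.exists_bound_of_continuous ht.1.continuous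
    exact ⟨C, hC⟩
  choose C1 hC1 using h1
  choose C2 hC2 using h2
  have hC1n : ∀ i, 0 ≤ C1 i := fun i => (abs_nonneg _).trans (hC1 i 0)
  have hC2n : ∀ i j, 0 ≤ C2 i j := fun i j => (abs_nonneg _).trans (hC2 i j 0)
  refine ⟨(∑ i, C1 i) + ∑ i, ∑ j, C2 i j, ?_, fun i x => ?_, fun i j x => ?_⟩
  · exact add_nonneg (Finset.sum_nonneg fun i _ => hC1n i)
      (Finset.sum_nonneg fun i _ => Finset.sum_nonneg fun j _ => hC2n i j)
  · have e1 := Finset.single_le_sum (f := C1) (fun i _ => hC1n i) (Finset.mem_univ i)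
    have e2 : 0 ≤ ∑ i, ∑ j, C2 i j :=
      Finset.sum_nonneg fun i _ => Finset.sum_nonneg fun j _ => hC2n i j
    exact (hC1 i x).trans (by linarith)
  · have e1 := Finset.single_le_sum (f := C2 i) (fun j _ => hC2n i j) (Finset.mem_univ j)
    have e2 := Finset.single_le_sum (f := fun i => ∑ j, C2 i j)
      (fun i _ => Finset.sum_nonneg fun j _ => hC2n i j) (Finset.mem_univ i)
    have e3 : 0 ≤ ∑ i, C1 i := Finset.sum_nonneg fun i _ => hC1n i
    exact (hC2 i j x).trans (by linarith)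

lemma test_meas {h : E → ℝ} (hh : IsTest h) : AEStronglyMeasurable h volume :=
  hh.1.continuous.aestronglyMeasurable

lemma supp_zero {h : E → ℝ} (h0 : ∀ x, 2 ≤ ‖x‖ → h x = 0) (n : ℕ) {x : E}
    (hx : x ∉ Metric.closedBall (0 : E) (2 * ((n : ℝ) + 1))) : h (((n : ℝ) + 1)⁻¹ • x) = 0 := by
  have hn : (0 : ℝ) < (n : ℝ) + 1 := by positivity
  refine h0 _ ?_
  rw [norm_smul, Real.norm_of_nonneg (inv_nonneg.2 hn.le), le_inv_mul_iff₀ hn]
  rw [mem_closedBall_zero_iff, not_le] at hx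
  linarith

lemma bb_supp (x : E) (hx : 2 ≤ ‖x‖) : bb x = 0 :=
  bb.zero_of_le_dist (by rw [dist_zero_right]; exact hx)

lemma pd_supp {h : E → ℝ} (hh : IsTest h) (h0 : ∀ x, 2 ≤ ‖x‖ → h x = 0) (i : Fin 4) (x : E)
    (hx : 2 ≤ ‖x‖) : pd i h x = 0 := by
  have h1 : Continuous (pd i h) := (test_pd hh i).1.continuous
  -- the derivative vanishes on the open set, hence on its closure
  have h2 : ∀ y : E, 2 < ‖y‖ → pd i h y = 0 := by
    intro y hy
    have h3 : h =ᶠ[𝓝 y] fun _ => (0 : ℝ) := by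
      have ho : IsOpen {z : E | 2 < ‖z‖} := isOpen_lt continuous_const continuous_norm
      filter_upwards [ho.mem_nhds hy] with z hz using h0 z (le_of_lt hz)
    unfold pd
    rw [h3.fderiv_eq]
    simp
  have h3 : Tendsto (fun t : ℝ => pd i h (t • x)) (𝓝[>] 1) (𝓝 (pd i h x)) := by
    have h4 : Continuous (fun t : ℝ => pd i h (t • x)) := h1.comp (continuous_id.smul continuous_const)
    have h5 := (h4.tendsto 1).mono_left (nhdsWithin_le_nhds (s := Ioi (1 : ℝ)))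
    simpa using h5
  have h4 : Tendsto (fun t : ℝ => pd i h (t • x)) (𝓝[>] 1) (𝓝 0) := by
    refine tendsto_const_nhds.congr' ?_
    filter_upwards [self_mem_nhdsWithin] with t ht
    rw [h2]
    rw [norm_smul, Real.norm_of_nonneg (by linarith [mem_Ioi.1 ht])]
    nlinarith [mem_Ioi.1 ht]
  exact tendsto_nhds_unique h3 h4

/-- the `L^4` norms of the derivatives are bounded -/
lemma sc_bd {h : E → ℝ} {R B : ℝ} (hR : 0 < R) (hB : 0 ≤ B) (h1 : ∀ x, |h x| ≤ R⁻¹ * B)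
    (h2 : ∀ x, x ∉ Metric.closedBall (0 : E) (2 * R) → h x = 0) :
    eLpNorm h 4 volume ≤ ENNReal.ofReal (B * 2) * volume (Metric.ball (0 : E) 1) ^ (1 / 4 : ℝ) := by
  have hR2 : 0 ≤ 2 * R := by positivity
  have hk : 0 ≤ R⁻¹ * B := by positivity
  calc eLpNorm h 4 volume
      ≤ eLpNorm ((Metric.closedBall (0 : E) (2 * R)).indicator fun _ => R⁻¹ * B) 4 volume := by
        refine eLpNorm_mono fun x => ?_
        by_cases hx : x ∈ Metric.closedBall (0 : E) (2 * R)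
        · rw [indicator_of_mem hx, Real.norm_of_nonneg hk]
          exact h1 x
        · rw [indicator_of_notMem hx, h2 x hx]
    _ = ‖R⁻¹ * B‖ₑ * volume (Metric.closedBall (0 : E) (2 * R)) ^ (1 / (4 : ℝ≥0∞).toReal) :=
        eLpNorm_indicator_const Metric.isClosed_closedBall.measurableSet (by norm_num) (by norm_num)
    _ = ENNReal.ofReal (B * 2) * volume (Metric.ball (0 : E) 1) ^ (1 / 4 : ℝ) := by
        have hq : (0 : ℝ) ≤ 1 / 4 := by norm_num
        rw [ENNReal.toReal_ofNat, Measure.addHaar_closedBall _ _ hR2,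
          ENNReal.mul_rpow_of_nonneg _ _ hq, Real.enorm_of_nonneg hk, ← mul_assoc,
          ENNReal.ofReal_rpow_of_nonneg (by positivity) hq, ← ENNReal.ofReal_mul hk]
        congr 2
        rw [finrank_euclideanSpace, Fintype.card_fin, ← Real.rpow_natCast (2 * R) 4,
          ← Real.rpow_mul hR2]
        norm_num
        field_simp

/-- bounds of the derivatives of the cut-off functions -/
lemma chi_bds : ∃ (B : ℝ) (A : ℝ≥0∞), 0 ≤ B ∧ A ≠ ⊤ ∧
    (∀ n i x, |pd i (chi n) x| ≤ B * (1 / ((n : ℝ) + 1))) ∧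
    (∀ n i j x, |pd j (pd i (chi n)) x| ≤ B * (1 / ((n : ℝ) + 1))) ∧
    (∀ n i, eLpNorm (pd i (chi n)) 4 volume ≤ A) ∧
    ∀ n i j, eLpNorm (pd j (pd i (chi n))) 4 volume ≤ ENNReal.ofReal (1 / ((n : ℝ) + 1)) * A := by
  obtain ⟨B, hB, hB1, hB2⟩ := bds
  have hn : ∀ n : ℕ, (0 : ℝ) < (n : ℝ) + 1 := fun n => by positivity
  have hn1 : ∀ n : ℕ, ((n : ℝ) + 1)⁻¹ ≤ 1 := fun n =>
    inv_le_one_of_one_le₀ (by linarith [n.cast_nonneg (α := ℝ)])
  have b1 : ∀ n i x, |pd i (chi n) x| ≤ ((n : ℝ) + 1)⁻¹ * B := by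
    intro n i x
    rw [pd_chi, abs_mul, abs_of_pos (inv_pos.2 (hn n))]
    exact mul_le_mul_of_nonneg_left (hB1 i _) (inv_nonneg.2 (hn n).le)
  have b2 : ∀ n i j x, |pd j (pd i (chi n)) x| ≤ ((n : ℝ) + 1)⁻¹ * (((n : ℝ) + 1)⁻¹ * B) := by
    intro n i j x
    rw [pd2_chi, abs_mul, abs_mul, abs_of_pos (inv_pos.2 (hn n))]
    exact mul_le_mul_of_nonneg_left (mul_le_mul_of_nonneg_left (hB2 i j _)
      (inv_nonneg.2 (hn n).le)) (inv_nonneg.2 (hn n).le)
  have hv : volume (Metric.ball (0 : E) 1) ≠ ⊤ := measure_ball_lt_top.ne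
  refine ⟨B, ENNReal.ofReal (B * 2) * volume (Metric.ball (0 : E) 1) ^ (1 / 4 : ℝ), hB,
    ENNReal.mul_ne_top ENNReal.ofReal_ne_top (ENNReal.rpow_ne_top_of_nonneg (by norm_num) hv),
    fun n i x => ?_, fun n i j x => ?_, fun n i => ?_, fun n i j => ?_⟩
  · refine (b1 n i x).trans (le_of_eq ?_)
    rw [one_div, mul_comm]
  · refine (b2 n i j x).trans ?_
    rw [one_div, mul_comm B]
    have h1 : ((n : ℝ) + 1)⁻¹ * B ≤ B := by
      calc ((n : ℝ) + 1)⁻¹ * B ≤ 1 * B := mul_le_mul_of_nonneg_right (hn1 n) hB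
        _ = B := one_mul B
    exact mul_le_mul_of_nonneg_left h1 (inv_nonneg.2 (hn n).le)
  · refine sc_bd (hn n) hB (b1 n i) fun x hx => ?_
    rw [pd_chi, supp_zero (pd_supp bb_test bb_supp i) n hx, mul_zero]
  · have h1 : eLpNorm (pd j (pd i (chi n))) 4 volume ≤ ENNReal.ofReal (((n : ℝ) + 1)⁻¹) *
        eLpNorm (fun x => ((n : ℝ) + 1)⁻¹ * pd j (pd i bb) (((n : ℝ) + 1)⁻¹ • x)) 4 volume := by
      refine eLpNorm_le_mul_eLpNorm_of_ae_le_mul (Eventually.of_forall fun x => ?_) 4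
      rw [pd2_chi, norm_mul, Real.norm_of_nonneg (inv_nonneg.2 (hn n).le)]
    rw [one_div]
    refine h1.trans ?_
    gcongr
    refine sc_bd (hn n) hB (fun x => ?_) fun x hx => ?_
    · rw [abs_mul, abs_of_pos (inv_pos.2 (hn n))]
      exact mul_le_mul_of_nonneg_left (hB2 i j _) (inv_nonneg.2 (hn n).le)
    · rw [supp_zero (pd_supp (test_pd bb_test i) (pd_supp bb_test bb_supp i) j) n hx, mul_zero]

lemma chi_ev (x : E) : ∀ᶠ n : ℕ in atTop, ‖x‖ ≤ (n : ℝ) := by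
  filter_upwards [eventually_ge_atTop ⌈‖x‖⌉₊] with n hn
  exact (Nat.le_ceil _).trans (by exact_mod_cast hn)

lemma chi_meas (n : ℕ) : AEStronglyMeasurable (chi n) volume := test_meas (chi_test n)

/-- `chi n * w - w` is a null sequence -/
lemma chi_sub {p : ℝ≥0∞} (hp : 1 ≤ p) (hpt : p ≠ ⊤) {w : E → ℝ} (hw : MemLp w p volume) :
    Z p (fun n x => (chi n x - 1) * w x) := by
  refine Z.dom hp hpt (B := 2) (fun n => (chi_meas n).sub aestronglyMeasurable_const) hw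
    (fun n x => ?_) fun x => ?_
  · have h1 := abs_le.1 (chi_abs n x)
    rw [abs_le]
    constructor <;> linarith
  · filter_upwards [chi_ev x] with n hn
    rw [chi_one n x hn, sub_self]

/-- mollifications -/
noncomputable def mw (w : E → ℝ) (n : ℕ) (x : E) : ℝ := mc (ph n) w x

lemma mw_meas {p : ℝ≥0∞} (hp : 1 ≤ p) {w : E → ℝ} (hw : MemLp w p volume) (n : ℕ) :
    AEStronglyMeasurable (mw w n) volume :=
  (mc_smooth (ph_test n) (hw.locallyIntegrable hp)).continuous.aestronglyMeasurable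

lemma mw_sub {p : ℝ≥0∞} (hp : 1 ≤ p) (hpt : p ≠ ⊤) {w : E → ℝ} (hw : MemLp w p volume) :
    Z p (fun n x => mw w n x - w x) :=
  ⟨fun n => (mw_meas hp hw n).sub hw.1, mc_tendsto hp hpt hw⟩

/-- `chi n * mw w n - w` is a null sequence -/
lemma cut_sub {p : ℝ≥0∞} (hp : 1 ≤ p) (hpt : p ≠ ⊤) {w : E → ℝ} (hw : MemLp w p volume) :
    Z p (fun n x => chi n x * mw w n x - w x) := by
  refine ((Z.bdd (mw_sub hp hpt hw) chi_meas chi_abs).add hp (chi_sub hp hpt hw)).congr fun n => ?_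
  funext x
  ring

lemma pd_mw {w g : E → ℝ} {i : Fin 4} (hw : LocallyIntegrable w volume) (h : WD i w g) (n : ℕ)
    (x : E) : pd i (mw w n) x = mw g n x := by
  unfold mw
  rw [pd_mc (ph_test n) hw, mc_wd (ph_test n) h]

/-- the basis vectors. -/
noncomputable def eb (i : Fin 4) : E := EuclideanSpace.single i (1 : ℝ)

/-- `1 / √(1 + |x|²)`. -/
noncomputable def rr (x : E) : ℝ := (√(1 + ‖x‖ ^ 2))⁻¹

lemma rr_pos (x : E) : 0 < rr x := by
  unfold rr
  positivity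

lemma rr_sq (x : E) : rr x ^ 2 * (1 + ‖x‖ ^ 2) = 1 := by
  unfold rr
  rw [inv_pow, Real.sq_sqrt (by positivity)]
  exact inv_mul_cancel₀ (by positivity)

lemma norm_sq (x : E) : ‖x‖ ^ 2 = ∑ i, x i ^ 2 := EuclideanSpace.real_norm_sq_eq x

lemma rr_smooth : ContDiff ℝ ((⊤ : ℕ∞) : WithTop ℕ∞) rr := by
  unfold rr
  have h1 : ContDiff ℝ ((⊤ : ℕ∞) : WithTop ℕ∞) (fun x : E => 1 + ‖x‖ ^ 2) :=
    contDiff_const.add (contDiff_norm_sq ℝ)
  have h2 : ContDiff ℝ ((⊤ : ℕ∞) : WithTop ℕ∞) (fun x : E => √(1 + ‖x‖ ^ 2)) :=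
    h1.sqrt (fun x => by positivity)
  exact h2.inv (fun x => by positivity)

/-- derivative along a basis vector as a derivative in one variable. -/
lemma hd_of_diff {F : E → ℝ} (hF : Differentiable ℝ F) (j : Fin 4) (x : E) :
    HasDerivAt (fun t : ℝ => F (x + t • eb j)) (pd j F x) 0 := by
  have h1 : HasDerivAt (fun t : ℝ => x + t • eb j) (eb j) 0 := by
    have h2 := ((hasDerivAt_id (0 : ℝ)).smul_const (eb j)).const_add x
    simpa using h2
  have h3 : HasFDerivAt F (fderiv ℝ F x) (x + (0 : ℝ) • eb j) := by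
    rw [zero_smul, add_zero]
    exact (hF x).hasFDerivAt
  have h4 := h3.comp_hasDerivAt (0 : ℝ) h1
  exact h4

lemma pd_eq_of_hd {F : E → ℝ} (hF : Differentiable ℝ F) (j : Fin 4) (x : E) (c : ℝ)
    (h : HasDerivAt (fun t : ℝ => F (x + t • eb j)) c 0) : pd j F x = c :=
  (hd_of_diff hF j x).unique h

/-- coordinates. -/
lemma hd_coord (i j : Fin 4) (x : E) :
    HasDerivAt (fun t : ℝ => (x + t • eb j) i) (if i = j then 1 else 0) 0 := by
  have h1 : (fun t : ℝ => (x + t • eb j) i) = fun t : ℝ => x i + t * (if i = j then 1 else 0) := by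
    funext t
    simp [eb]
  rw [h1]
  have h2 := ((hasDerivAt_id (0 : ℝ)).mul_const (if i = j then (1 : ℝ) else 0)).const_add (x i)
  simpa using h2

lemma hd_rr (j : Fin 4) (x : E) :
    HasDerivAt (fun t : ℝ => rr (x + t • eb j)) (- x j * rr x ^ 3) 0 := by
  have h1 : (fun t : ℝ => rr (x + t • eb j)) =
      fun t : ℝ => (√(1 + ∑ i, ((x + t • eb j) i) ^ 2))⁻¹ := by
    funext t
    unfold rr
    rw [norm_sq]
  rw [h1]
  have h2 : HasDerivAt (fun t : ℝ => ∑ i, ((x + t • eb j) i) ^ 2) (2 * x j) 0 := by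
    have h3 : HasDerivAt (fun t : ℝ => ∑ i, ((x + t • eb j) i) ^ 2)
        (∑ i, 2 * ((x + (0 : ℝ) • eb j) i) * (if i = j then 1 else 0)) 0 := by
      refine HasDerivAt.fun_sum fun i _ => ?_
      have h4 := (hd_coord i j x).fun_pow 2
      refine h4.congr_deriv ?_
      norm_num
    refine h3.congr_deriv ?_
    simp
  have h5 : HasDerivAt (fun t : ℝ => 1 + ∑ i, ((x + t • eb j) i) ^ 2) (2 * x j) 0 :=
    h2.const_add 1
  have h6 : (1 + ∑ i, ((x + (0 : ℝ) • eb j) i) ^ 2) = 1 + ‖x‖ ^ 2 := by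
    rw [norm_sq, zero_smul, add_zero]
  have h7 : (1 + ∑ i, ((x + (0 : ℝ) • eb j) i) ^ 2) ≠ 0 := by
    rw [h6]
    positivity
  have h8 := (h5.sqrt h7)
  have h9 : √(1 + ∑ i, ((x + (0 : ℝ) • eb j) i) ^ 2) ≠ 0 := by
    rw [h6]
    positivity
  have h10 := h8.inv h9
  refine h10.congr_deriv ?_
  rw [h6]
  unfold rr
  have h11 : √(1 + ‖x‖ ^ 2) ≠ 0 := by positivity
  field_simp

/-- the integral of a derivative. -/
lemma int_pd {F : E → ℝ} (hF : ContDiff ℝ 1 F) (hs : HasCompactSupport F) (j : Fin 4) :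
    ∫ x, pd j F x = 0 := by
  have hd : Differentiable ℝ F := hF.differentiable (by norm_num)
  have h1 : Continuous (fun x => fderiv ℝ F x (eb j)) :=
    (hF.continuous_fderiv (by norm_num)).clm_apply continuous_const
  have h2 : HasCompactSupport (fun x => fderiv ℝ F x (eb j)) := hs.fderiv_apply ℝ (eb j)
  have h3 : Integrable (fun x => fderiv ℝ F x (eb j)) volume := h1.integrable_of_hasCompactSupport h2
  have h4 : Integrable F volume := hF.continuous.integrable_of_hasCompactSupport hs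
  have h5 := integral_mul_fderiv_eq_neg_fderiv_mul_of_integrable (𝕜 := ℝ) (μ := (volume : Measure E))
    (f := fun _ : E => (1 : ℝ)) (g := F) (v := eb j) (by simp) (by simpa using h3) (by simpa using h4)
    (fun _ _ => differentiableAt_const _) (fun x _ => hd x)
  simpa [pd, eb] using h5

lemma test_diff' {f : E → ℝ} (hf : IsTest f) : Differentiable ℝ f :=
  hf.1.differentiable (by simp)

lemma cont_coord (j : Fin 4) : ContDiff ℝ ((⊤ : ℕ∞) : WithTop ℕ∞) (fun x : E => x j) :=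
  (EuclideanSpace.proj (𝕜 := ℝ) j).contDiff

/-! ### Hardy's inequality for test functions -/

/-- the vector field -/
noncomputable def Fj (f : E → ℝ) (j : Fin 4) (x : E) : ℝ := x j * rr x ^ 2 * f x ^ 2

lemma Fj_smooth {f : E → ℝ} (hf : IsTest f) (j : Fin 4) : ContDiff ℝ ∞ (Fj f j) := by
  unfold Fj
  exact ((cont_coord j).mul (rr_smooth.pow 2)).mul (hf.1.pow 2)

lemma Fj_supp {f : E → ℝ} (hf : IsTest f) (j : Fin 4) : HasCompactSupport (Fj f j) := by
  refine hf.2.mono' ?_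
  refine (Function.support_subset_iff'.2 fun x hx => ?_).trans (subset_tsupport f)
  have h1 : f x = 0 := by simpa using hx
  unfold Fj
  rw [h1]
  ring

lemma pd_Fj {f : E → ℝ} (hf : IsTest f) (j : Fin 4) (x : E) :
    pd j (Fj f j) x = rr x ^ 2 * f x ^ 2 + x j * (2 * rr x * (-x j * rr x ^ 3)) * f x ^ 2 +
      x j * rr x ^ 2 * (2 * f x * pd j f x) := by
  refine pd_eq_of_hd ((Fj_smooth hf j).differentiable (by simp)) j x _ ?_
  have h1 := hd_coord j j x
  have h2 := (hd_rr j x).fun_pow 2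
  have h3 := (hd_of_diff (test_diff' hf) j x).fun_pow 2
  have h4 := (h1.mul h2).mul h3
  refine h4.congr_deriv ?_
  simp only [if_true, zero_smul, add_zero]
  norm_num
  ring

lemma hardy_pt {f : E → ℝ} (hf : IsTest f) (x : E) :
    (rr x * f x) ^ 2 - ∑ j, pd j f x ^ 2 ≤ ∑ j, pd j (Fj f j) x := by
  have h0 := rr_sq x
  rw [norm_sq] at h0
  simp only [pd_Fj hf]
  simp only [Fin.sum_univ_four] at h0 ⊢
  generalize rr x = r at *
  generalize f x = w at *
  generalize pd 0 f x = g0 at *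
  generalize pd 1 f x = g1 at *
  generalize pd 2 f x = g2 at *
  generalize pd 3 f x = g3 at *
  generalize x 0 = a0 at *
  generalize x 1 = a1 at *
  generalize x 2 = a2 at *
  generalize x 3 = a3 at *
  -- `r² |a|² = 1 - r²`
  have h1 : r ^ 2 * (a0 ^ 2 + a1 ^ 2 + a2 ^ 2 + a3 ^ 2) = 1 - r ^ 2 := by linarith
  have h2 : 0 ≤ (g0 + r ^ 2 * w * a0) ^ 2 + (g1 + r ^ 2 * w * a1) ^ 2 + (g2 + r ^ 2 * w * a2) ^ 2 +
      (g3 + r ^ 2 * w * a3) ^ 2 := by positivity
  have h3 : (g0 + r ^ 2 * w * a0) ^ 2 + (g1 + r ^ 2 * w * a1) ^ 2 + (g2 + r ^ 2 * w * a2) ^ 2 +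
      (g3 + r ^ 2 * w * a3) ^ 2 = (g0 ^ 2 + g1 ^ 2 + g2 ^ 2 + g3 ^ 2) +
      2 * r ^ 2 * w * (a0 * g0 + a1 * g1 + a2 * g2 + a3 * g3) +
      r ^ 2 * w ^ 2 * (1 - r ^ 2) := by
    rw [← h1]
    ring
  have h4 : 0 ≤ r ^ 4 * w ^ 2 := by positivity
  have h5 : r ^ 2 * w ^ 2 + a0 * (2 * r * (-a0 * r ^ 3)) * w ^ 2 + a0 * r ^ 2 * (2 * w * g0) +
      (r ^ 2 * w ^ 2 + a1 * (2 * r * (-a1 * r ^ 3)) * w ^ 2 + a1 * r ^ 2 * (2 * w * g1)) +
      (r ^ 2 * w ^ 2 + a2 * (2 * r * (-a2 * r ^ 3)) * w ^ 2 + a2 * r ^ 2 * (2 * w * g2)) +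
      (r ^ 2 * w ^ 2 + a3 * (2 * r * (-a3 * r ^ 3)) * w ^ 2 + a3 * r ^ 2 * (2 * w * g3)) =
      4 * r ^ 2 * w ^ 2 - 2 * r ^ 2 * w ^ 2 * (1 - r ^ 2) +
      2 * r ^ 2 * w * (a0 * g0 + a1 * g1 + a2 * g2 + a3 * g3) := by
    rw [← h1]
    ring
  rw [h5]
  nlinarith

lemma test_sq_int {f : E → ℝ} (hf : IsTest f) : Integrable (fun x => f x ^ 2) volume :=
  (hf.1.continuous.pow 2).integrable_of_hasCompactSupport (by
    refine hf.2.mono' ?_
    refine (Function.support_subset_iff'.2 fun x hx => ?_).trans (subset_tsupport f)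
    have h1 : f x = 0 := by simpa using hx
    change f x ^ 2 = 0
    rw [h1]
    ring)

lemma rr_mul_test {f : E → ℝ} (hf : IsTest f) : IsTest (fun x => rr x * f x) :=
  ⟨rr_smooth.mul hf.1, hf.2.mul_left⟩

lemma hardy_test {f : E → ℝ} (hf : IsTest f) :
    eLpNorm (fun x => rr x * f x) 2 volume ≤ ∑ i, eLpNorm (pd i f) 2 volume := by
  have h1 : ∫ x, (∑ j, pd j (Fj f j) x) = 0 := by
    rw [integral_finsetSum _ fun j _ => ?_]
    · refine Finset.sum_eq_zero fun j _ => ?_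
      exact int_pd ((Fj_smooth hf j).of_le (by exact_mod_cast le_top)) (Fj_supp hf j) j
    · have ht := test_pd (φ := Fj f j) ⟨Fj_smooth hf j, Fj_supp hf j⟩ j
      exact ht.1.continuous.integrable_of_hasCompactSupport ht.2
  have i1 : Integrable (fun x => (rr x * f x) ^ 2) volume := test_sq_int (rr_mul_test hf)
  have i2 : ∀ j, Integrable (fun x => pd j f x ^ 2) volume := fun j => test_sq_int (test_pd hf j)
  have i3 : Integrable (fun x => ∑ j, pd j f x ^ 2) volume := integrable_finsetSum _ fun j _ => i2 j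
  have i4 : Integrable (fun x => ∑ j, pd j (Fj f j) x) volume := by
    refine integrable_finsetSum _ fun j _ => ?_
    have ht := test_pd (φ := Fj f j) ⟨Fj_smooth hf j, Fj_supp hf j⟩ j
    exact ht.1.continuous.integrable_of_hasCompactSupport ht.2
  have h2 : ∫ x, ((rr x * f x) ^ 2 - ∑ j, pd j f x ^ 2) ≤ 0 := by
    rw [← h1]
    exact integral_mono (i1.sub i3) i4 fun x => hardy_pt hf x
  rw [integral_sub i1 i3, integral_finsetSum _ fun j _ => i2 j] at h2
  have m0 : MemLp (fun x => rr x * f x) 2 volume := test_memLp (rr_mul_test hf) 2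
  have m1 : ∀ j, MemLp (pd j f) 2 volume := fun j => test_memLp (test_pd hf j) 2
  rw [int_sq m0] at h2
  have h3 : ∀ j, ∫ x, pd j f x ^ 2 = (eLpNorm (pd j f) 2 volume).toReal ^ 2 := fun j =>
    int_sq (m1 j)
  simp only [h3] at h2
  have h4 : ∑ j, (eLpNorm (pd j f) 2 volume).toReal ^ 2 ≤ (∑ j, (eLpNorm (pd j f) 2 volume).toReal) ^ 2 :=
    Finset.sum_sq_le_sq_sum_of_nonneg fun j _ => ENNReal.toReal_nonneg
  have h5 : (eLpNorm (fun x => rr x * f x) 2 volume).toReal ≤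
      ∑ j, (eLpNorm (pd j f) 2 volume).toReal := by
    have e1 : 0 ≤ ∑ j, (eLpNorm (pd j f) 2 volume).toReal :=
      Finset.sum_nonneg fun j _ => ENNReal.toReal_nonneg
    refine abs_le_of_sq_le_sq' ?_ e1 |>.2
    nlinarith [sq_nonneg (eLpNorm (fun x => rr x * f x) 2 volume).toReal]
  rw [← ENNReal.toReal_sum fun j _ => (m1 j).2.ne] at h5
  exact (ENNReal.toReal_le_toReal m0.2.ne (ENNReal.sum_ne_top.2 fun j _ => (m1 j).2.ne)).1 h5

/-! ### the gradient -/

private lemma fderiv_le (f : E → ℝ) (x : E) : ‖fderiv ℝ f x‖ ≤ ∑ i, ‖pd i f x‖ := by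
  refine ContinuousLinearMap.opNorm_le_bound _ (Finset.sum_nonneg fun i _ => norm_nonneg _) ?_
  intro v
  have h1 : v = ∑ i, v i • EuclideanSpace.single i (1 : ℝ) := by
    ext j
    simp [Pi.single_apply]
  calc ‖fderiv ℝ f x v‖ = ‖∑ i, v i * pd i f x‖ := by
        conv_lhs => rw [h1]
        rw [map_sum]
        congr 1
        refine Finset.sum_congr rfl fun i _ => ?_
        rw [map_smul, smul_eq_mul]
        rfl
    _ ≤ ∑ i, ‖v i * pd i f x‖ := norm_sum_le _ _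
    _ ≤ ∑ i, ‖pd i f x‖ * ‖v‖ := by
        refine Finset.sum_le_sum fun i _ => ?_
        rw [norm_mul, mul_comm]
        exact mul_le_mul_of_nonneg_left (PiLp.norm_apply_le v i) (norm_nonneg _)
    _ = (∑ i, ‖pd i f x‖) * ‖v‖ := by rw [Finset.sum_mul]

private lemma grad_le {f : E → ℝ} (hf : IsTest f) (p : ℝ≥0∞) (hp : 1 ≤ p) :
    eLpNorm (fderiv ℝ f) p volume ≤ ∑ i, eLpNorm (pd i f) p volume := by
  calc eLpNorm (fderiv ℝ f) p volume ≤ eLpNorm (∑ i, fun x => ‖pd i f x‖) p volume := by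
        refine eLpNorm_mono fun x => ?_
        rw [Finset.sum_apply, Real.norm_of_nonneg (Finset.sum_nonneg fun i _ => norm_nonneg _)]
        exact fderiv_le f x
    _ ≤ ∑ i, eLpNorm (fun x => ‖pd i f x‖) p volume :=
        eLpNorm_sum_le (fun i _ => (test_pd hf i).1.continuous.norm.aestronglyMeasurable) hp
    _ = ∑ i, eLpNorm (pd i f) p volume := by
        refine Finset.sum_congr rfl fun i _ => ?_
        exact eLpNorm_norm _

lemma gns1 : ∃ C : ℝ≥0, ∀ f : E → ℝ, IsTest f →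
    eLpNorm f 4 volume ≤ C * ∑ i, eLpNorm (pd i f) 2 volume := by
  refine ⟨SNormLESNormFDerivOfEqConst ℝ (volume : Measure E) ((2 : ℝ≥0) : ℝ), fun f hf => ?_⟩
  have h := eLpNorm_le_eLpNorm_fderiv_of_eq (volume : Measure E) (u := f) (p := 2) (p' := 4)
    (hf.1.of_le (by simp)) hf.2 (by norm_num) (by simp) (by simp; norm_num)
  have e : (((4 : ℝ≥0) : ℝ≥0∞)) = 4 := by norm_num
  rw [e] at h
  refine h.trans ?_
  have := grad_le hf ((2 : ℝ≥0) : ℝ≥0∞) (by norm_num)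
  gcongr
  exact this

/-! ### approximation -/

/-- the part of `u` far away tends to zero -/
lemma ind_z {u : E → ℝ} (hu : MemLp u 4 volume) :
    Z 4 (fun n x => ({x : E | (n : ℝ) < ‖x‖}.indicator (fun _ => (1 : ℝ)) x) * u x) := by
  refine Z.dom (by norm_num) (by norm_num) (B := 1) (fun n => ?_) hu (fun n x => ?_) fun x => ?_
  · exact aestronglyMeasurable_const.indicator (measurableSet_lt measurable_const measurable_norm)
  · by_cases hx : x ∈ {x : E | (n : ℝ) < ‖x‖}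
    · rw [indicator_of_mem hx, abs_one]
    · rw [indicator_of_notMem hx, abs_zero]
      exact zero_le_one
  · filter_upwards [chi_ev x] with n hn
    exact indicator_of_notMem (by simpa using hn) _

/-- the derivative of the cut-off function times the mollification -/
lemma cut_der {u : E → ℝ} (hu : MemLp u 4 volume) (i : Fin 4) :
    Z 2 (fun n x => pd i (chi n) x * mw u n x) := by
  obtain ⟨B, A, hB, hA, hb1, hb2, hb3, hb4⟩ := chi_bds
  have h4 : ENNReal.HolderTriple 4 4 2 := ht (by norm_num) (by norm_num) (by norm_num) (by norm_num)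
  have z1 : Z 2 (fun n x => pd i (chi n) x * (mw u n x - u x)) :=
    Z.hol h4 hA (fun n => test_meas (test_pd (chi_test n) i)) (fun n => hb3 n i)
      (mw_sub (by norm_num) (by norm_num) hu)
  have z2 : Z 2 (fun n x => pd i (chi n) x *
      (({x : E | (n : ℝ) < ‖x‖}.indicator (fun _ => (1 : ℝ)) x) * u x)) :=
    Z.hol h4 hA (fun n => test_meas (test_pd (chi_test n) i)) (fun n => hb3 n i) (ind_z hu)
  refine (z1.add (by norm_num) z2).congr fun n => ?_
  funext x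
  by_cases hx : ‖x‖ ≤ n
  · rw [pd_chi_zero n i x hx]
    ring
  · rw [indicator_of_mem (show x ∈ {x : E | (n : ℝ) < ‖x‖} from not_le.1 hx)]
    ring

/-- density of test functions, convergence in every `L^p` -/
lemma apxZ {w : E → ℝ} {g : Fin 4 → E → ℝ} (hw : MemLp w 4 volume)
    (hg : ∀ i, MemLp (g i) 2 volume ∧ WD i w (g i)) :
    ∃ ψ : ℕ → E → ℝ, (∀ n, IsTest (ψ n)) ∧
      (∀ p : ℝ≥0∞, 1 ≤ p → p ≠ ⊤ → MemLp w p volume → Z p (fun n x => ψ n x - w x)) ∧
      ∀ i, Z 2 (fun n x => pd i (ψ n) x - g i x) := by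
  have hwl : LocallyIntegrable w volume := hw.locallyIntegrable (by norm_num)
  have hsm : ∀ n, ContDiff ℝ ∞ (mw w n) := fun n => mc_smooth (ph_test n) hwl
  refine ⟨fun n x => chi n x * mw w n x, fun n => test_mul (chi_test n) (hsm n),
    fun p hp hpt hwp => cut_sub hp hpt hwp, fun i => ?_⟩
  have h1 := cut_der hw i
  have h2 := cut_sub (p := 2) (by norm_num) (by norm_num) (hg i).1
  refine (h1.add (by norm_num) h2).congr fun n => ?_
  funext x
  rw [pd_mul (test_diff (chi_test n) x) ((hsm n).differentiable (by simp) x)]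
  have h3 : pd i (mw w n) x = mw (g i) n x := by
    unfold mw
    rw [pd_mc (ph_test n) hwl, mc_wd (ph_test n) (hg i).2]
  rw [h3]
  ring

/-- density of test functions, as in QWP/MorS.lean -/
lemma apx {u : E → ℝ} {G : Fin 4 → E → ℝ} (hu : MemLp u 4 volume)
    (hG : ∀ i, MemLp (G i) 2 volume ∧ WD i u (G i)) :
    ∃ f : ℕ → E → ℝ, (∀ n, IsTest (f n)) ∧
      (∀ i, Tendsto (fun n => eLpNorm (fun x => pd i (f n) x - G i x) 2 volume) atTop (𝓝 0)) ∧
      ∀ p : ℝ≥0∞, 1 ≤ p → p ≠ ⊤ → MemLp u p volume →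
        Tendsto (fun n => eLpNorm (fun x => f n x - u x) p volume) atTop (𝓝 0) := by
  obtain ⟨ψ, hψ, z0, z1⟩ := apxZ hu hG
  exact ⟨ψ, hψ, fun i => (z1 i).2, fun p hp hpt hup => (z0 p hp hpt hup).2⟩

lemma ext_bd {c : E → ℝ} (hc : Continuous c) {p C : ℝ≥0∞} (hC : C ≠ ⊤)
    (hb : ∀ f, IsTest f → eLpNorm (fun x => c x * f x) p volume ≤ C * ∑ i, eLpNorm (pd i f) 2 volume)
    {w : E → ℝ} {g : Fin 4 → E → ℝ} (hw : MemLp w 4 volume)
    (hg : ∀ i, MemLp (g i) 2 volume ∧ WD i w (g i)) :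
    eLpNorm (fun x => c x * w x) p volume ≤ C * ∑ i, eLpNorm (g i) 2 volume := by
  obtain ⟨ψ, hψ, z0', z1⟩ := apxZ hw hg
  have z0 := z0' 4 (by norm_num) (by norm_num) hw
  have m : TendstoInMeasure volume ψ atTop w :=
    tendstoInMeasure_of_tendsto_eLpNorm (p := 4) (by norm_num) (fun n => test_meas (hψ n)) hw.1 z0.2
  obtain ⟨ns, hns, hae⟩ := m.exists_seq_tendsto_ae
  have h1 := Lp.eLpNorm_lim_le_liminf_eLpNorm (μ := volume) (p := p)
    (f := fun n x => c x * ψ (ns n) x)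
    (fun n => (hc.mul (hψ _).1.continuous).aestronglyMeasurable) (fun x => c x * w x) (by
      filter_upwards [hae] with x hx
      exact hx.const_mul _)
  refine h1.trans ?_
  have h2 : ∀ n, eLpNorm (fun x => c x * ψ (ns n) x) p volume ≤
      C * ∑ i, (eLpNorm (fun x => pd i (ψ (ns n)) x - g i x) 2 volume + eLpNorm (g i) 2 volume) := by
    intro n
    refine (hb _ (hψ _)).trans ?_
    gcongr with i hi
    have e1 : pd i (ψ (ns n)) = fun x => (pd i (ψ (ns n)) x - g i x) + g i x := by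
      funext x
      ring
    calc eLpNorm (pd i (ψ (ns n))) 2 volume =
          eLpNorm (fun x => (pd i (ψ (ns n)) x - g i x) + g i x) 2 volume := by rw [← e1]
      _ ≤ _ := eLpNorm_add_le ((z1 i).1 _) (hg i).1.1 (by norm_num)
  have h3 : Tendsto (fun n => C * ∑ i, (eLpNorm (fun x => pd i (ψ (ns n)) x - g i x) 2 volume +
      eLpNorm (g i) 2 volume)) atTop (𝓝 (C * ∑ i, eLpNorm (g i) 2 volume)) := by
    refine ENNReal.Tendsto.const_mul ?_ (Or.inr hC)
    refine tendsto_finsetSum _ fun i _ => ?_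
    have h4 := ((z1 i).2.comp hns.tendsto_atTop).add_const (eLpNorm (g i) 2 volume)
    rw [zero_add] at h4
    exact h4
  calc atTop.liminf (fun n => eLpNorm (fun x => c x * ψ (ns n) x) p volume)
      ≤ atTop.liminf (fun n => C * ∑ i, (eLpNorm (fun x => pd i (ψ (ns n)) x - g i x) 2 volume +
        eLpNorm (g i) 2 volume)) := liminf_le_liminf (Eventually.of_forall h2)
    _ = _ := h3.liminf_eq

end FPax

open FPax Moll

/-- **FPa** -/
theorem thm_FPa : St_FPa := by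
  obtain ⟨C, hC⟩ := gns1
  have hC1 : (C : ℝ≥0∞) ≤ ENNReal.ofReal ((C : ℝ) + 1) := by
    rw [ENNReal.ofReal_add (NNReal.coe_nonneg C) zero_le_one, ENNReal.ofReal_coe_nnreal]
    exact le_self_add
  have hC2 : (1 : ℝ≥0∞) ≤ ENNReal.ofReal ((C : ℝ) + 1) := by
    rw [ENNReal.one_le_ofReal]
    have := NNReal.coe_nonneg C
    linarith
  refine ⟨(C : ℝ) + 1, by positivity, fun u v G h => ⟨?_, ?_, ?_⟩⟩
  · have h1 := ext_bd (c := fun _ => 1) continuous_const (p := 4) (C := ENNReal.ofReal ((C : ℝ) + 1))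
      ENNReal.ofReal_ne_top (fun f hf => ?_) h.1 h.2.2
    · simpa only [one_mul] using h1
    · simp only [one_mul]
      refine (hC f hf).trans ?_
      gcongr
  · have h1 := ext_bd (c := rr) rr_smooth.continuous (p := 2) (C := ENNReal.ofReal ((C : ℝ) + 1))
      ENNReal.ofReal_ne_top (fun f hf => ?_) h.1 h.2.2
    · refine le_trans (le_of_eq ?_) h1
      congr 1
      funext x
      unfold rr
      rw [div_eq_mul_inv, mul_comm]
    · refine (hardy_test hf).trans ?_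
      calc ∑ i, eLpNorm (pd i f) 2 volume = 1 * ∑ i, eLpNorm (pd i f) 2 volume := (one_mul _).symm
        _ ≤ _ := by gcongr
  · obtain ⟨ψ, hψ, z0', z1⟩ := apxZ h.1 h.2.2
    have z0 := z0' 4 (by norm_num) (by norm_num) h.1
    have hvl : LocallyIntegrable v volume := h.2.1.locallyIntegrable (by norm_num)
    refine ⟨ψ, fun n x => chi n x * mw v n x, fun n => ⟨hψ n, ?_⟩, z0.2, fun i => (z1 i).2, ?_⟩
    · exact test_mul (chi_test n) (mc_smooth (ph_test n) hvl)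
    · exact (cut_sub (by norm_num) (by norm_num) h.2.1).2

end Pool.Agent.QWF
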