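import Pool.Agent.QWF.StA

set_option autoImplicit false

/-!
# QWF, FSPP: finite speed of propagation, all `s` (helper4; after QWE.FSP of helper98)
-/

open MeasureTheory Filter Topology Set
open scoped ENNReal NNReal RealInnerProductSpace

namespace Pool.Agent.QWF


namespace FSPPx

private lemma supp {φ F : E → ℝ} {Ω : Set E} {t : ℝ} (hφ : IsTest φ)
    (hs : tsupport φ ⊆ shr Ω |t|) (h : ∀ x, (∀ y, dist y x ≤ |t| → φ y = 0) → F x = 0) :
    tsupport F ⊆ Ω := by
  have hc : IsCompact (tsupport φ) := hφ.2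
  have h1 : Metric.cthickening |t| (tsupport φ) ⊆ Ω := by
    rw [hc.cthickening_eq_biUnion_closedBall (abs_nonneg t)]
    intro x hx
    obtain ⟨y, hy, hxy⟩ := mem_iUnion₂.1 hx
    obtain ⟨b, hb, hb2⟩ := hs hy
    exact hb2 (Metric.mem_ball.2 ((Metric.mem_closedBall.1 hxy).trans_lt hb))
  refine (closure_minimal ?_ Metric.isClosed_cthickening).trans h1
  intro x hx
  by_contra hx2
  refine hx (h x fun y hy => image_eq_zero_of_notMem_tsupport fun hy2 => hx2 ?_)
  rw [hc.cthickening_eq_biUnion_closedBall (abs_nonneg t)]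
  refine mem_iUnion₂.2 ⟨y, hy2, ?_⟩
  rwa [Metric.mem_closedBall, dist_comm]

private lemma van_iff {s : ℝ} {Ω : Set E} {k : K} : Van s Ω k ↔
    ∀ φ, IsTest φ → tsupport φ ⊆ Ω → inner ℝ k (Rs s φ) = 0 ∧ inner ℝ k (dRs s φ) = 0 := by
  constructor
  · intro h φ hφ hs
    have hm : ∀ w, (w = Rs s φ ∨ w = dRs s φ) → inner ℝ k w = 0 := by
      intro w hw
      have h1 : w ∈ TS s Ω := by
        refine Submodule.le_topologicalClosure _ (Submodule.subset_span ?_)
        exact ⟨φ, hφ, hs, hw⟩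
      rw [real_inner_comm]
      exact (Submodule.mem_orthogonal _ _).1 h w h1
    exact ⟨hm _ (Or.inl rfl), hm _ (Or.inr rfl)⟩
  · intro h
    have h1 : TS s Ω ≤ (ℝ ∙ k)ᗮ := by
      refine Submodule.topologicalClosure_minimal _ ?_ (Submodule.isClosed_orthogonal _)
      rw [Submodule.span_le]
      rintro w ⟨φ, hφ, hs, rfl | rfl⟩
      · exact Submodule.mem_orthogonal_singleton_iff_inner_right.2 (h φ hφ hs).1
      · exact Submodule.mem_orthogonal_singleton_iff_inner_right.2 (h φ hφ hs).2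
    refine (Submodule.mem_orthogonal _ _).2 fun u hu => ?_
    rw [real_inner_comm]
    exact Submodule.mem_orthogonal_singleton_iff_inner_right.1 (h1 hu)

private lemma test_pd {φ : E → ℝ} (h : IsTest φ) (i : Fin 4) : IsTest (pd i φ) := by
  have hs : ContDiff ℝ ((⊤ : ℕ∞) : WithTop ℕ∞) (fderiv ℝ φ) :=
    ContDiff.fderiv_right h.1 (by exact_mod_cast le_top)
  exact ⟨hs.clm_apply contDiff_const, h.2.fderiv_apply ℝ _⟩

private lemma tsupport_pd (φ : E → ℝ) (i : Fin 4) : tsupport (pd i φ) ⊆ tsupport φ := by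
  refine (closure_mono ?_).trans (tsupport_fderiv_subset ℝ (f := φ))
  intro x hx
  rw [Function.mem_support] at hx ⊢
  intro h0
  apply hx
  change fderiv ℝ φ x _ = 0
  rw [h0]
  rfl

private lemma tsupport_lap (φ : E → ℝ) : tsupport (lap φ) ⊆ tsupport φ := by
  refine closure_minimal ?_ (isClosed_tsupport φ)
  intro x hx
  by_contra hc
  apply hx
  change ∑ i, pd i (pd i φ) x = 0
  apply Finset.sum_eq_zero
  intro i _
  exact image_eq_zero_of_notMem_tsupport fun h =>
    hc (((tsupport_pd (pd i φ) i).trans (tsupport_pd φ i)) h)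

private lemma test_lap {φ : E → ℝ} (h : IsTest φ) : IsTest (lap φ) := by
  have h1 : ∀ i, IsTest (pd i (pd i φ)) := fun i => test_pd (test_pd h i) i
  refine ⟨ContDiff.sum fun i _ => (h1 i).1, ?_⟩
  exact h.2.mono' ((subset_tsupport (lap φ)).trans (tsupport_lap φ))

end FSPPx

open FSPPx in
theorem thm_FSPP (hG : St_Grp1) (hE : St_ExBP) (hF : St_FreX) : St_FSPP := by
  have key : ∀ (s : ℝ) (Ω : Set E) (t : ℝ) (k : K), |s| < 1 / 2 → Van s Ω k →
      Van s (shr Ω |t|) (tau t k) := by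
    intro s Ω t k hsi hk
    rw [van_iff] at hk ⊢
    intro φ hφ hs
    have hs' : tsupport φ ⊆ shr Ω |(-t)| := by rwa [abs_neg]
    obtain ⟨hs1, hs2⟩ := abs_lt.1 hsi
    obtain ⟨-, f1, f2, h1, h2, h3, h4, -⟩ := hF φ φ φ (-t) hφ hφ hφ
    have h3' := h3 s (by linarith) hs2
    have u1 := supp hφ hs' fun x hx => (h4 x hx).1
    have u2 := supp hφ hs' fun x hx => (h4 x hx).2
    rw [hG.2.2.2.2.2.1 t k (Rs s φ), hG.2.2.2.2.2.1 t k (dRs s φ), h3'.1, h3'.2, inner_add_right,
      inner_add_right, (hk f1 h1 u1).1, (hk f2 h2 u2).2,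
      (hk (lap f2) (test_lap h2) ((tsupport_lap f2).trans u2)).1, (hk f1 h1 u1).2]
    simp
  intro s Ω t k hsi _
  refine ⟨key s Ω t k hsi, ?_⟩
  obtain ⟨-, -, -, -, h5, h6, -⟩ := hE s hsi
  have h1 := key s Ω t _ hsi (h5 Ω k)
  rw [map_sub] at h1
  have h2 := (h6 _ _ _ h1).1
  rwa [LinearIsometry.norm_map] at h2

end Pool.Agent.QWF
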