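import Pool.Agent.QWF.StA

set_option autoImplicit false

/-!
# QWF, module FreX: free evolution of the states

The two families of states are real parts of Fourier integrals in `p`; `tau t` multiplies the
amplitude by `e^{-2πi r t}`. The identities of amplitudes are checked at `ξ = r w`.
-/

open MeasureTheory Filter Topology Set
open scoped ENNReal NNReal RealInnerProductSpace ContDiff

namespace Pool.Agent.QWF

namespace FreXx

/-- Amplitude of `J0F`. -/
noncomputable def A0 (a : ℝ) (φ : E → ℝ) (w : S) (r : ℝ) : ℂ :=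
  ((|2 * Real.pi * r| ^ (-a) : ℝ) : ℂ) * ft φ (r • (w : E))

/-- Amplitude of `J1F`. -/
noncomputable def A1 (a : ℝ) (φ : E → ℝ) (w : S) (r : ℝ) : ℂ :=
  ((|2 * Real.pi * r| ^ (-a) : ℝ) : ℂ) * (2 * Real.pi * Complex.I * (r : ℂ)) * ft φ (r • (w : E))

/-- Real part of the Fourier integral. -/
noncomputable def FI (A : ℝ → ℂ) (p : ℝ) : ℝ :=
  (∫ r : ℝ, A r * Complex.exp (2 * Real.pi * Complex.I * ((r * p : ℝ) : ℂ))).re

lemma J0_FI (a : ℝ) (φ : E → ℝ) (z : S × ℝ) : J0F a φ z = FI (A0 a φ z.1) z.2 := rfl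

lemma J1_FI (a : ℝ) (φ : E → ℝ) (z : S × ℝ) : J1F a φ z = FI (A1 a φ z.1) z.2 := rfl

lemma FI_shift (A : ℝ → ℂ) (t p : ℝ) : FI A (p - t) =
    FI (fun r => A r * Complex.exp (-2 * Real.pi * Complex.I * ((r * t : ℝ) : ℂ))) p := by
  unfold FI
  congr 1
  refine integral_congr_ae (Eventually.of_forall fun r => ?_)
  simp only
  rw [mul_assoc (A r), ← Complex.exp_add]
  congr 2
  push_cast
  ring

lemma norm_e (r p : ℝ) : ‖Complex.exp (2 * Real.pi * Complex.I * ((r * p : ℝ) : ℂ))‖ = 1 := by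
  have : (2 * Real.pi * Complex.I * ((r * p : ℝ) : ℂ) : ℂ) = ((2 * Real.pi * (r * p) : ℝ) : ℂ) * Complex.I := by
    push_cast; ring
  rw [this, Complex.norm_exp_ofReal_mul_I]

lemma FI_int {A : ℝ → ℂ} (hA : Integrable A) (p : ℝ) :
    Integrable fun r : ℝ => A r * Complex.exp (2 * Real.pi * Complex.I * ((r * p : ℝ) : ℂ)) := by
  refine hA.mul_bdd (c := 1) (by fun_prop) (Eventually.of_forall fun r => ?_)
  rw [norm_e]

lemma FI_lin {A B : ℝ → ℂ} (hA : Integrable A) (hB : Integrable B) (c d p : ℝ) :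
    FI (fun r => (c : ℂ) * A r + (d : ℂ) * B r) p = c * FI A p + d * FI B p := by
  unfold FI
  have h : ∫ r : ℝ, ((c : ℂ) * A r + (d : ℂ) * B r) *
      Complex.exp (2 * Real.pi * Complex.I * ((r * p : ℝ) : ℂ)) =
      (c : ℂ) * (∫ r : ℝ, A r * Complex.exp (2 * Real.pi * Complex.I * ((r * p : ℝ) : ℂ))) +
      (d : ℂ) * ∫ r : ℝ, B r * Complex.exp (2 * Real.pi * Complex.I * ((r * p : ℝ) : ℂ)) := by
    rw [← integral_const_mul, ← integral_const_mul,
      ← integral_add ((FI_int hA p).const_mul _) ((FI_int hB p).const_mul _)]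
    refine integral_congr_ae (Eventually.of_forall fun r => ?_)
    simp only
    ring
  rw [h, Complex.add_re, Complex.re_ofReal_mul, Complex.re_ofReal_mul]

/-! ### Integrability of the amplitudes -/

lemma int_aux {c : ℝ} (h1 : -1 < c) {N : ℕ} (h2 : c + 1 < N) :
    Integrable (fun r : ℝ => |r| ^ c * (1 + |r|) ^ (-(N : ℝ))) := by
  have h := (integrable_fun_norm_addHaar (volume : Measure ℝ)
    (f := fun y : ℝ => y ^ c * (1 + y) ^ (-(N : ℝ)))).2 ?_
  · simpa [Real.norm_eq_abs] using h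
  · simp only [Module.finrank_self, Nat.sub_self, pow_zero, one_smul]
    rw [← Ioc_union_Ioi_eq_Ioi zero_le_one, integrableOn_union]
    have hN : (-(N : ℝ)) ≤ 0 := by
      have : (0 : ℝ) ≤ N := Nat.cast_nonneg N
      linarith
    constructor
    · have h3 : IntegrableOn (fun y : ℝ => y ^ c) (Ioc 0 1) :=
        (intervalIntegrable_iff_integrableOn_Ioc_of_le zero_le_one).1
          (intervalIntegral.intervalIntegrable_rpow' h1)
      refine h3.mono' (by fun_prop) ?_
      refine (ae_restrict_iff' measurableSet_Ioc).2 (Eventually.of_forall fun y hy => ?_)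
      have h4 : (1 + y) ^ (-(N : ℝ)) ≤ 1 :=
        Real.rpow_le_one_of_one_le_of_nonpos (by linarith [hy.1]) hN
      have h5 : 0 ≤ y ^ c := Real.rpow_nonneg hy.1.le _
      have h6 : 0 ≤ (1 + y) ^ (-(N : ℝ)) := Real.rpow_nonneg (by linarith [hy.1]) _
      rw [Real.norm_eq_abs, abs_of_nonneg (mul_nonneg h5 h6)]
      nlinarith
    · have h3 : IntegrableOn (fun y : ℝ => y ^ (c - N)) (Ioi 1) :=
        integrableOn_Ioi_rpow_of_lt (by linarith) zero_lt_one
      refine h3.mono' (by fun_prop) ?_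
      refine (ae_restrict_iff' measurableSet_Ioi).2 (Eventually.of_forall fun y hy => ?_)
      have hy0 : (0 : ℝ) < y := lt_trans zero_lt_one hy
      have h4 : (1 + y) ^ (-(N : ℝ)) ≤ y ^ (-(N : ℝ)) :=
        Real.rpow_le_rpow_of_nonpos hy0 (by linarith) hN
      have h5 : 0 ≤ y ^ c := Real.rpow_nonneg hy0.le _
      have h6 : 0 ≤ (1 + y) ^ (-(N : ℝ)) := Real.rpow_nonneg (by linarith) _
      rw [Real.norm_eq_abs, abs_of_nonneg (mul_nonneg h5 h6)]
      calc y ^ c * (1 + y) ^ (-(N : ℝ)) ≤ y ^ c * y ^ (-(N : ℝ)) := by gcongr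
        _ = y ^ (c - N) := by rw [← Real.rpow_add hy0]; ring_nf

lemma norm_rw (w : S) (r : ℝ) : ‖r • (w : E)‖ = |r| := by
  rw [norm_smul, Real.norm_eq_abs, norm_eq_of_mem_sphere, mul_one]

lemma A0_meas (hFt : St_Ft) {φ : E → ℝ} (hφ : IsSch φ) (a : ℝ) (w : S) :
    AEStronglyMeasurable (A0 a φ w) volume := by
  have h1 : Continuous fun r : ℝ => ft φ (r • (w : E)) :=
    (hFt.2 φ hφ).1.comp (by fun_prop)
  have h2 : Measurable fun r : ℝ => ((|2 * Real.pi * r| ^ (-a) : ℝ) : ℂ) := by fun_prop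
  exact h2.aestronglyMeasurable.mul h1.aestronglyMeasurable

lemma A1_meas (hFt : St_Ft) {φ : E → ℝ} (hφ : IsSch φ) (a : ℝ) (w : S) :
    AEStronglyMeasurable (A1 a φ w) volume := by
  have h1 : Continuous fun r : ℝ => ft φ (r • (w : E)) :=
    (hFt.2 φ hφ).1.comp (by fun_prop)
  have h2 : Measurable fun r : ℝ => ((|2 * Real.pi * r| ^ (-a) : ℝ) : ℂ) *
    (2 * Real.pi * Complex.I * (r : ℂ)) := by fun_prop
  exact h2.aestronglyMeasurable.mul h1.aestronglyMeasurable

lemma A0_int (hFt : St_Ft) {φ : E → ℝ} (hφ : IsSch φ) {a : ℝ} (ha : a < 1) (w : S) :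
    Integrable (A0 a φ w) := by
  obtain ⟨N, hN⟩ := exists_nat_gt (-a + 1)
  obtain ⟨C, hC⟩ := (hFt.2 φ hφ).2.1 N
  have h := (int_aux (c := -a) (by linarith) hN).const_mul (C * (2 * Real.pi) ^ (-a))
  refine h.mono' (A0_meas hFt hφ a w) (Eventually.of_forall fun r => ?_)
  have h1 := hC (r • (w : E))
  rw [norm_rw] at h1
  have h2 : (1 + |r|) ^ (-(N : ℝ)) = ((1 + |r|) ^ N)⁻¹ := by
    rw [Real.rpow_neg (by positivity), Real.rpow_natCast]
  rw [A0, norm_mul, Complex.norm_real, Real.norm_eq_abs,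
    abs_of_nonneg (Real.rpow_nonneg (abs_nonneg _) _), abs_mul,
    abs_of_pos Real.two_pi_pos, Real.mul_rpow Real.two_pi_pos.le (abs_nonneg _), h2]
  have h3 : 0 ≤ (2 * Real.pi) ^ (-a) * |r| ^ (-a) := by positivity
  calc (2 * Real.pi) ^ (-a) * |r| ^ (-a) * ‖ft φ (r • (w : E))‖
      ≤ (2 * Real.pi) ^ (-a) * |r| ^ (-a) * (C / (1 + |r|) ^ N) := by gcongr
    _ = C * (2 * Real.pi) ^ (-a) * (|r| ^ (-a) * ((1 + |r|) ^ N)⁻¹) := by
        rw [div_eq_mul_inv]; ring

lemma A1_int (hFt : St_Ft) {φ : E → ℝ} (hφ : IsSch φ) {a : ℝ} (ha : a < 2) (w : S) :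
    Integrable (A1 a φ w) := by
  refine (A0_int hFt hφ (a := a - 1) (by linarith) w).norm.mono' (A1_meas hFt hφ a w)
    (Eventually.of_forall fun r => ?_)
  have h1 : ‖(2 * Real.pi * Complex.I * (r : ℂ) : ℂ)‖ = |2 * Real.pi * r| := by
    rw [norm_mul, norm_mul, norm_mul, Complex.norm_I, Complex.norm_real, Complex.norm_real,
      abs_mul, abs_mul]
    simp
  have h2 : |2 * Real.pi * r| ^ (-a) * |2 * Real.pi * r| ≤ |2 * Real.pi * r| ^ (-(a - 1)) := by
    rcases (abs_nonneg (2 * Real.pi * r)).eq_or_lt with h | h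
    · rw [← h, mul_zero]; exact Real.rpow_nonneg le_rfl _
    · have : -(a - 1) = -a + 1 := by ring
      rw [this, Real.rpow_add h, Real.rpow_one]
  rw [A1, A0, norm_mul, norm_mul _ (2 * Real.pi * Complex.I * (r : ℂ)), h1, norm_mul,
    Complex.norm_real, Complex.norm_real, Real.norm_eq_abs, Real.norm_eq_abs,
    abs_of_nonneg (Real.rpow_nonneg (abs_nonneg _) _),
    abs_of_nonneg (Real.rpow_nonneg (abs_nonneg _) _)]
  gcongr

/-! ### Passage to `K` -/

lemma tau_toK {F G : S × ℝ → ℝ} (hF : MemLp F 2 mu) (hG : MemLp G 2 mu) (t : ℝ)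
    (h : ∀ z : S × ℝ, F (z.1, z.2 - t) = G z) : tau t (toK F) = toK G := by
  apply Lp.ext
  have hq := (mp_shift (g := fun _ => t) measurable_const).quasiMeasurePreserving.ae (toK_coe hF)
  filter_upwards [tau_coe t (toK F), toK_coe hG, hq] with z h1 h2 h3
  rw [h1, h2, ← h z]
  exact h3

lemma toK_lin {F G : S × ℝ → ℝ} (hF : MemLp F 2 mu) (hG : MemLp G 2 mu) (c d : ℝ) :
    c • toK F + d • toK G = toK fun z => c * F z + d * G z := by
  have hH : MemLp (fun z => c * F z + d * G z) 2 mu := (hF.const_mul c).add (hG.const_mul d)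
  apply Lp.ext
  filter_upwards [Lp.coeFn_add (c • toK F) (d • toK G), Lp.coeFn_smul c (toK F),
    Lp.coeFn_smul d (toK G), toK_coe hF, toK_coe hG, toK_coe hH] with z h1 h2 h3 h4 h5 h6
  rw [h1, h6, Pi.add_apply, h2, h3, Pi.smul_apply, Pi.smul_apply, h4, h5, smul_eq_mul, smul_eq_mul]

/-- Transfer of an identity of amplitudes to `K`. -/
lemma key (hFt : St_Ft) (hPar : St_Par) {a a' b b' t : ℝ} (ha : a < 1 / 2) (ha' : a' < 3 / 2)
    (hb : b < 1 / 2) (hb' : b' < 3 / 2) {φ0 φ1 ψ0 ψ1 : E → ℝ} (h0 : IsSch φ0) (h1 : IsSch φ1)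
    (k0 : IsSch ψ0) (k1 : IsSch ψ1) (c c' d d' : ℝ)
    (H : ∀ (w : S) (r : ℝ), ((c : ℂ) * A0 a φ0 w r + (c' : ℂ) * A1 a' φ1 w r) *
      Complex.exp (-2 * Real.pi * Complex.I * ((r * t : ℝ) : ℂ)) =
      (d : ℂ) * A0 b ψ0 w r + (d' : ℂ) * A1 b' ψ1 w r) :
    tau t (c • J0 a φ0 + c' • J1 a' φ1) = d • J0 b ψ0 + d' • J1 b' ψ1 := by
  have m0 : MemLp (J0F a φ0) 2 mu := ((hPar a 0 0 φ0 φ0 h0 h0).1 ha).2
  have m1 : MemLp (J1F a' φ1) 2 mu := ((hPar a' 0 0 φ1 φ1 h1 h1).2.1 ha').2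
  have n0 : MemLp (J0F b ψ0) 2 mu := ((hPar b 0 0 ψ0 ψ0 k0 k0).1 hb).2
  have n1 : MemLp (J1F b' ψ1) 2 mu := ((hPar b' 0 0 ψ1 ψ1 k1 k1).2.1 hb').2
  rw [J0, J1, J0, J1, toK_lin m0 m1, toK_lin n0 n1]
  refine tau_toK ((m0.const_mul c).add (m1.const_mul c')) ((n0.const_mul d).add (n1.const_mul d'))
    t fun z => ?_
  change c * J0F a φ0 (z.1, z.2 - t) + c' * J1F a' φ1 (z.1, z.2 - t) =
    d * J0F b ψ0 z + d' * J1F b' ψ1 z
  rw [J0_FI, J1_FI, J0_FI, J1_FI]
  simp only
  rw [← FI_lin (A0_int hFt h0 (by linarith) z.1) (A1_int hFt h1 (by linarith) z.1),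
    ← FI_lin (A0_int hFt k0 (by linarith) z.1) (A1_int hFt k1 (by linarith) z.1), FI_shift]
  congr 1
  funext r
  exact H z.1 r

/-- The exponential factor in terms of `|r|`. -/
lemma sgn_exp (t r : ℝ) : ∃ σ : ℝ, σ ^ 2 = 1 ∧ 2 * Real.pi * r = σ * |2 * Real.pi * r| ∧
    Complex.exp (-2 * Real.pi * Complex.I * ((r * t : ℝ) : ℂ)) =
      ((Real.cos (2 * Real.pi * t * |r|) : ℝ) : ℂ) -
        Complex.I * σ * ((Real.sin (2 * Real.pi * t * |r|) : ℝ) : ℂ) := by
  have e1 : Complex.exp (-2 * Real.pi * Complex.I * ((r * t : ℝ) : ℂ)) =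
      ((Real.cos (2 * Real.pi * t * r) : ℝ) : ℂ) -
        Complex.I * ((Real.sin (2 * Real.pi * t * r) : ℝ) : ℂ) := by
    have : (-2 * Real.pi * Complex.I * ((r * t : ℝ) : ℂ) : ℂ) =
      ((-(2 * Real.pi * t * r) : ℝ) : ℂ) * Complex.I := by push_cast; ring
    rw [this, Complex.exp_mul_I, ← Complex.ofReal_cos, ← Complex.ofReal_sin, Real.cos_neg,
      Real.sin_neg]
    push_cast
    ring
  rcases le_total 0 r with h | h
  · refine ⟨1, by norm_num, ?_, ?_⟩
    · rw [abs_of_nonneg (by positivity), one_mul]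
    · rw [e1, abs_of_nonneg h]; push_cast; ring
  · refine ⟨-1, by norm_num, ?_, ?_⟩
    · rw [abs_of_nonpos (mul_nonpos_of_nonneg_of_nonpos Real.two_pi_pos.le h)]; ring
    · rw [e1, abs_of_nonpos h]
      have : 2 * Real.pi * t * -r = -(2 * Real.pi * t * r) := by ring
      rw [this, Real.cos_neg, Real.sin_neg]
      push_cast
      ring

lemma two_pi_r (σ r X : ℝ) (h : 2 * Real.pi * r = σ * X) :
    (2 * Real.pi * Complex.I * (r : ℂ) : ℂ) = Complex.I * σ * X := by
  have h1 : ((2 * Real.pi * r : ℝ) : ℂ) = ((σ * X : ℝ) : ℂ) := by rw [h]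
  push_cast at h1
  linear_combination Complex.I * h1

lemma test_zero : IsTest (fun _ : E => (0 : ℝ)) := ⟨contDiff_const, HasCompactSupport.zero⟩

lemma ft_zero (ξ : E) : ft (fun _ : E => (0 : ℝ)) ξ = 0 := by simp [ft]

lemma ft_neg_fun (u : E → ℝ) (ξ : E) : ft (fun x => - u x) ξ = - ft u ξ := by
  simp only [ft]
  rw [← integral_neg]
  refine integral_congr_ae (Eventually.of_forall fun x => ?_)
  simp only
  push_cast
  ring

lemma test_neg {u : E → ℝ} (h : IsTest u) : IsTest fun x => - u x :=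
  ⟨h.1.neg, h.2.comp_left (g := fun y : ℝ => -y) neg_zero⟩

/-- Continuity at the origin. -/
lemma eq_of_ne {P Q : E → ℂ} (hP : Continuous P) (hQ : Continuous Q)
    (h : ∀ ξ : E, ξ ≠ 0 → P ξ = Q ξ) (ξ : E) : P ξ = Q ξ := by
  have hd : Dense ({0}ᶜ : Set E) := dense_compl_singleton 0
  have : P = Q := Continuous.ext_on hd hP hQ fun x hx => h x hx
  rw [this]

end FreXx

open FreXx

theorem thm_FreX (hFt : St_Ft) (hPar : St_Par) (hJD : St_JD) (hW : St_WvS) : St_FreX := by
  intro f g φ t hf hg hφ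
  have sch : ∀ {u : E → ℝ}, IsTest u → IsSch u := fun h => hFt.1 _ h
  constructor
  · obtain ⟨u, v, -, -, -, -, hsup, hft⟩ := hW f g hf hg
    obtain ⟨tu, tv, eu, ev⟩ := hft t
    refine ⟨fun x => u (t, x), fun x => v (t, x), tu, tv, fun s hs1 hs2 => ?_, fun x hx => hsup t x hx⟩
    have hT : ∀ {a b : E → ℝ}, IsTest a → IsTest b → Theta s a b =
        c0 • ((1 : ℝ) • J0 (-s - 2) b + (-1 : ℝ) • J1 (-s - 2) a) := by
      intro a b ha hb
      rw [Theta, (hJD (-s) a (sch ha)).2.2.2.2.2, (hJD (-s) b (sch hb)).2.2.2.2.1]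
      congr 1
      rw [one_smul, neg_one_smul]
      abel
    rw [hT hf hg, hT tu tv, map_smul]
    congr 1
    refine key hFt hPar (by linarith) (by linarith) (by linarith) (by linarith) (sch hg) (sch hf)
      (sch tv) (sch tu) _ _ _ _ fun w r => ?_
    obtain ⟨σ, hσ, hx, he⟩ := sgn_exp t r
    rw [he]
    have eu' := eu (r • (w : E))
    have ev' := ev (r • (w : E))
    rw [norm_rw] at eu' ev'
    have hX : |2 * Real.pi * r| = 2 * Real.pi * |r| := by
      rw [abs_mul, abs_of_pos Real.two_pi_pos]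
    simp only [A0, A1]
    rw [two_pi_r σ r _ hx, hX]
    have hσ' : (σ : ℂ) ^ 2 = 1 := by rw [← Complex.ofReal_pow, hσ, Complex.ofReal_one]
    push_cast at eu' ev' ⊢
    rw [ev']
    linear_combination ((((2 * Real.pi * |r|) ^ (-(-s - 2)) : ℝ) : ℂ) * Complex.I * σ) * eu' +
      ((((2 * Real.pi * |r|) ^ (-(-s - 2)) : ℝ) : ℂ) * Real.pi * (|r| : ℝ) * ft f (r • (w : E)) *
        Complex.sin (2 * Real.pi * t * (|r| : ℝ)) * 2) * (Complex.I ^ 2 * hσ' + Complex.I_sq)
  · obtain ⟨u, v, -, -, -, -, hsup, hft⟩ := hW φ (fun _ => 0) hφ test_zero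
    obtain ⟨u', v', -, -, -, -, hsup', hft'⟩ := hW (fun _ => 0) φ test_zero hφ
    obtain ⟨tu, -, eu, -⟩ := hft t
    obtain ⟨tu', -, eu', -⟩ := hft' t
    have e1 : ∀ ξ, ft (fun x => u (t, x)) ξ =
        ((Real.cos (2 * Real.pi * t * ‖ξ‖) : ℝ) : ℂ) * ft φ ξ := by
      refine eq_of_ne (hFt.2 _ (sch tu)).1 ?_ fun ξ hξ => ?_
      · exact (Complex.continuous_ofReal.comp (by fun_prop)).mul (hFt.2 _ (sch hφ)).1
      · have h1 := eu ξ
        have h2 : ((2 * Real.pi * ‖ξ‖ : ℝ) : ℂ) ≠ 0 := by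
          have : (2 * Real.pi * ‖ξ‖ : ℝ) ≠ 0 := by
            have := norm_pos_iff.2 hξ
            positivity
          exact_mod_cast this
        rw [ft_zero, mul_zero, add_zero] at h1
        apply mul_left_cancel₀ h2
        rw [h1]
        push_cast
        ring
    have e2 : ∀ ξ, ((2 * Real.pi * ‖ξ‖ : ℝ) : ℂ) * ft (fun x => - u' (t, x)) ξ =
        -((Real.sin (2 * Real.pi * t * ‖ξ‖) : ℝ) : ℂ) * ft φ ξ := by
      intro ξ
      have h1 := eu' ξ
      rw [ft_zero, mul_zero, zero_add] at h1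
      rw [ft_neg_fun, mul_neg, h1]
      ring
    have tn : IsTest (fun x => - u' (t, x)) := test_neg tu'
    refine ⟨fun x => u (t, x), fun x => - u' (t, x), tu, tn, fun s hs1 hs2 => ?_, fun x hx => ?_,
      e1, e2⟩
    · constructor
      · have h := key hFt hPar (a := s - 1) (a' := 1 + s) (b := s - 1) (b' := 1 + s) (t := t)
          (by linarith) (by linarith) (by linarith) (by linarith) (sch hφ) (sch hφ)
          (sch tn) (sch tu) 0 (-1) 1 (-1) fun w r => ?_
        · rw [zero_smul, zero_add, neg_one_smul, one_smul, neg_one_smul] at h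
          rw [Rs, Rs, dRs, h]
          abel
        · obtain ⟨σ, hσ, hx, he⟩ := sgn_exp t r
          rw [he]
          have f1 := e1 (r • (w : E))
          have f2 := e2 (r • (w : E))
          rw [norm_rw] at f1 f2
          have hX : |2 * Real.pi * r| = 2 * Real.pi * |r| := by
            rw [abs_mul, abs_of_pos Real.two_pi_pos]
          simp only [A0, A1]
          rw [two_pi_r σ r _ hx, hX]
          have hσ' : (σ : ℂ) ^ 2 = 1 := by rw [← Complex.ofReal_pow, hσ, Complex.ofReal_one]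
          rcases (by positivity : (0 : ℝ) ≤ 2 * Real.pi * |r|).eq_or_lt with h0 | h0
          · rw [← h0, Real.zero_rpow (by linarith), Real.zero_rpow (by linarith)]
            push_cast
            ring
          · have h1 : (2 * Real.pi * |r|) ^ (-(1 + s)) * (2 * Real.pi * |r|) =
                (2 * Real.pi * |r|) ^ (-s) := by
              rw [← Real.rpow_add_one h0.ne']; ring_nf
            have h2 : (2 * Real.pi * |r|) ^ (-(s - 1)) =
                (2 * Real.pi * |r|) ^ (-s) * (2 * Real.pi * |r|) := by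
              rw [← Real.rpow_add_one h0.ne']; ring_nf
            rw [h2]
            generalize (2 * Real.pi * |r|) ^ (-(1 + s)) = P at *
            generalize (2 * Real.pi * |r|) ^ (-s) = Q at *
            have h1' : (P : ℂ) * (2 * Real.pi * (|r| : ℝ)) = Q := by exact_mod_cast h1
            push_cast at f1 f2 ⊢
            rw [f1]
            linear_combination (Complex.I ^ 2 * σ ^ 2 * ft φ (r • (w : E)) *
                Complex.sin (2 * Real.pi * t * (|r| : ℝ))) * h1' - (Q : ℂ) * f2 +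
              ((Q : ℂ) * ft φ (r • (w : E)) * Complex.sin (2 * Real.pi * t * (|r| : ℝ))) *
                (Complex.I ^ 2 * hσ' + Complex.I_sq)
      · have h := key hFt hPar (a := s - 1) (a' := 1 + s) (b := s - 1) (b' := s - 1) (t := t)
          (by linarith) (by linarith) (by linarith) (by linarith) (sch hφ) (sch hφ)
          (sch tu) (sch tn) 1 0 1 1 fun w r => ?_
        · rw [zero_smul, add_zero, one_smul, one_smul, one_smul] at h
          have hj := (hJD (1 + s) _ (sch tn)).2.2.2.2.2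
          have hs' : 1 + s - 2 = s - 1 := by ring
          rw [hs'] at hj
          rw [dRs, dRs, Rs, h, hj]
          abel
        · obtain ⟨σ, hσ, hx, he⟩ := sgn_exp t r
          rw [he]
          have f1 := e1 (r • (w : E))
          have f2 := e2 (r • (w : E))
          rw [norm_rw] at f1 f2
          have hX : |2 * Real.pi * r| = 2 * Real.pi * |r| := by
            rw [abs_mul, abs_of_pos Real.two_pi_pos]
          simp only [A0, A1]
          rw [two_pi_r σ r _ hx, hX]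
          generalize (2 * Real.pi * |r|) ^ (-(s - 1)) = P at *
          push_cast at f1 f2 ⊢
          rw [f1]
          linear_combination (-(P : ℂ) * Complex.I * σ) * f2
    · exact ⟨(hsup t x fun y hy => ⟨hx y hy, rfl⟩).1, by
        have := (hsup' t x fun y hy => ⟨rfl, hx y hy⟩).1
        simp only [this, neg_zero]⟩

end Pool.Agent.QWF
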