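import Pool.Agent.QWF.StC0

set_option autoImplicit false

/-!
# QWF, G0a: weak limits under leaving group elements, fixed element
-/

open MeasureTheory Filter Topology Set
open scoped ENNReal NNReal RealInnerProductSpace

namespace Pool.Agent.QWF

namespace G0ax

/-- Bounded by `B` and zero for `|p| > M`. -/
def Nc (B M : ℝ) (f : S × ℝ → ℝ) : Prop :=
  0 ≤ B ∧ 0 ≤ M ∧ (∀ z, |f z| ≤ B) ∧ ∀ z, M < |z.2| → f z = 0

lemma approx (k : K) (ε : ℝ) (hε : 0 < ε) :
    ∃ (f : S × ℝ → ℝ) (B M : ℝ) (hm : MemLp f 2 mu), Nc B M f ∧ ‖k - hm.toLp f‖ ≤ ε := by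
  obtain ⟨f, hfc, hfe, hf, hm⟩ := (Lp.memLp k).exists_hasCompactSupport_eLpNorm_sub_le
    (by norm_num) (ε := ENNReal.ofReal ε) (by
      rw [Ne, ENNReal.ofReal_eq_zero, not_le]
      exact hε)
  have hkg : ‖k - hm.toLp f‖ ≤ ε := by
    rw [Lp.norm_def]
    refine ENNReal.toReal_le_of_le_ofReal hε.le ?_
    refine le_trans (le_of_eq ?_) hfe
    apply eLpNorm_congr_ae
    filter_upwards [Lp.coeFn_sub k (hm.toLp f), hm.coeFn_toLp] with z h1 h2
    rw [h1, Pi.sub_apply, Pi.sub_apply, h2]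
  obtain ⟨B, hB⟩ := hf.bounded_above_of_compact_support hfc
  have hcs : IsCompact (tsupport f) := hfc
  obtain ⟨M, hM⟩ := hcs.exists_bound_of_continuousOn (f := fun z : S × ℝ => z.2)
    (by fun_prop)
  refine ⟨f, max B 0, max M 0, hm, ⟨le_max_right _ _, le_max_right _ _, ?_, ?_⟩, hkg⟩
  · intro z
    exact (hB z).trans (le_max_left _ _)
  · intro z hz
    by_contra hne
    have h1 : z ∈ tsupport f := subset_tsupport f (Function.mem_support.2 hne)
    have h2 := hM z h1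
    rw [Real.norm_eq_abs] at h2
    exact absurd (hz.trans_le h2) (not_lt.2 (le_max_left _ _))

/-- The strip. -/
def Stp (M : ℝ) : Set (S × ℝ) := univ ×ˢ Icc (-M) M

lemma mu_stp (M : ℝ) : mu (Stp M) < ⊤ := by
  unfold Stp
  rw [Measure.prod_prod, Real.volume_Icc]
  exact ENNReal.mul_lt_top (measure_lt_top _ _) ENNReal.ofReal_lt_top

/-- The set where the integrand does not vanish. -/
def Aset (M1 M2 : ℝ) (y : E) (a : ℝ) : Set (S × ℝ) :=
  {z | |z.2| ≤ M2 ∧ |Real.exp a * (z.2 - inner ℝ y (z.1 : E))| ≤ M1}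

lemma meas_A (M1 M2 : ℝ) (y : E) (a : ℝ) : MeasurableSet (Aset M1 M2 y a) := by
  have h1 : IsClosed {z : S × ℝ | |z.2| ≤ M2} := isClosed_le (by fun_prop) continuous_const
  have h2 : IsClosed {z : S × ℝ | |Real.exp a * (z.2 - inner ℝ y (z.1 : E))| ≤ M1} :=
    isClosed_le (by fun_prop) continuous_const
  exact (h1.inter h2).measurableSet

lemma A_sub (M1 M2 : ℝ) (y : E) (a : ℝ) : Aset M1 M2 y a ⊆ Stp M2 := by
  intro z hz
  exact ⟨mem_univ _, abs_le.1 hz.1⟩

lemma inner_bound {f g : S × ℝ → ℝ} {B1 M1 B2 M2 : ℝ} (hf : Nc B1 M1 f) (hg : Nc B2 M2 g)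
    (hfm : MemLp f 2 mu) (hgm : MemLp g 2 mu) (y : E) (a : ℝ) :
    |(inner ℝ (gr y a (hfm.toLp f)) (hgm.toLp g) : ℝ)| ≤
      Real.exp (a / 2) * (B1 * B2) * (mu (Aset M1 M2 y a)).toReal := by
  have hA : mu (Aset M1 M2 y a) < ⊤ := (measure_mono (A_sub M1 M2 y a)).trans_lt (mu_stp M2)
  have h1 : (inner ℝ (gr y a (hfm.toLp f)) (hgm.toLp g) : ℝ) =
      ∫ z, (Real.exp (a / 2) * f (z.1, Real.exp a * (z.2 - inner ℝ y (z.1 : E)))) * g z ∂mu := by
    rw [MeasureTheory.L2.inner_def]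
    apply integral_congr_ae
    have hmp := (mp_shift (g := fun w : S => inner ℝ y (w : E)) (by fun_prop)).quasiMeasurePreserving
    have h3 := hmp.ae (dl_coe a (hfm.toLp f))
    have h4 := hmp.ae ((qmp_scale (Real.exp_pos a)).ae hfm.coeFn_toLp)
    filter_upwards [sh_coe y (dl a (hfm.toLp f)), hgm.coeFn_toLp, h3, h4] with z h5 h6 h7 h8
    show inner ℝ ((sh y (dl a (hfm.toLp f)) : K) z) ((hgm.toLp g : K) z) = _
    rw [h5, h6, h7, h8, RCLike.inner_apply, conj_trivial]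
    ring
  rw [h1, ← Real.norm_eq_abs]
  have h2 : Integrable ((Aset M1 M2 y a).indicator fun _ => Real.exp (a / 2) * (B1 * B2)) mu :=
    (integrable_indicator_iff (meas_A M1 M2 y a)).2
      (integrableOn_const hA.ne ENNReal.coe_ne_top)
  have h3 := norm_integral_le_of_norm_le h2 (f := fun z : S × ℝ =>
    (Real.exp (a / 2) * f (z.1, Real.exp a * (z.2 - inner ℝ y (z.1 : E)))) * g z)
    (Eventually.of_forall (fun z => by
      by_cases hz : z ∈ Aset M1 M2 y a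
      · rw [indicator_of_mem hz, norm_mul, norm_mul, Real.norm_of_nonneg (Real.exp_pos _).le,
          mul_assoc]
        have h4 : ‖f (z.1, Real.exp a * (z.2 - inner ℝ y (z.1 : E)))‖ ≤ B1 := hf.2.2.1 _
        have h5 : ‖g z‖ ≤ B2 := hg.2.2.1 _
        exact mul_le_mul_of_nonneg_left (mul_le_mul h4 h5 (norm_nonneg _) hf.1)
          (Real.exp_pos _).le
      · rw [indicator_of_notMem hz]
        by_cases h4 : |z.2| ≤ M2
        · have h5 : M1 < |Real.exp a * (z.2 - inner ℝ y (z.1 : E))| := by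
            by_contra hc
            exact hz ⟨h4, not_lt.1 hc⟩
          rw [hf.2.2.2 (z.1, Real.exp a * (z.2 - inner ℝ y (z.1 : E))) h5, mul_zero, zero_mul,
            norm_zero]
        · rw [hg.2.2.2 z (not_le.1 h4), mul_zero, norm_zero]))
  refine h3.trans (le_of_eq ?_)
  rw [integral_indicator_const _ (meas_A M1 M2 y a), smul_eq_mul, mul_comm]
  rfl

/-- Density argument. -/
lemma reduce (y : ℕ → E) (a : ℕ → ℝ)
    (h : ∀ (f g : S × ℝ → ℝ) (B1 M1 B2 M2 : ℝ) (hfm : MemLp f 2 mu) (hgm : MemLp g 2 mu),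
      Nc B1 M1 f → Nc B2 M2 g →
      Tendsto (fun n => (inner ℝ (gr (y n) (a n) (hfm.toLp f)) (hgm.toLp g) : ℝ)) atTop (𝓝 0))
    (κ w : K) : Tendsto (fun n => (inner ℝ (gr (y n) (a n) κ) w : ℝ)) atTop (𝓝 0) := by
  rw [Metric.tendsto_atTop]
  intro ε hε
  obtain ⟨f, B1, M1, hfm, hf, hf2⟩ := approx κ (ε / (4 * (‖w‖ + 1))) (by positivity)
  obtain ⟨g, B2, M2, hgm, hg, hg2⟩ := approx w (ε / (4 * (‖hfm.toLp f‖ + 1))) (by positivity)
  obtain ⟨N, hN⟩ := (Metric.tendsto_atTop.1 (h f g B1 M1 B2 M2 hfm hgm hf hg)) (ε / 4)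
    (by positivity)
  refine ⟨N, fun n hn => ?_⟩
  have h1 := hN n hn
  rw [Real.dist_eq, sub_zero] at h1 ⊢
  have hgr : gr (y n) (a n) κ = gr (y n) (a n) (hfm.toLp f) +
      gr (y n) (a n) (κ - hfm.toLp f) := by
    unfold gr
    rw [map_sub, map_sub]
    abel
  have h2 : (inner ℝ (gr (y n) (a n) κ) w : ℝ) =
      inner ℝ (gr (y n) (a n) (hfm.toLp f)) (hgm.toLp g) +
      inner ℝ (gr (y n) (a n) (hfm.toLp f)) (w - hgm.toLp g) +
      inner ℝ (gr (y n) (a n) (κ - hfm.toLp f)) w := by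
    rw [hgr, inner_add_left, inner_sub_right]
    ring
  have hn1 : ∀ v : K, ‖gr (y n) (a n) v‖ = ‖v‖ := by
    intro v
    unfold gr
    rw [LinearIsometry.norm_map, LinearIsometry.norm_map]
  have h3 : |(inner ℝ (gr (y n) (a n) (hfm.toLp f)) (w - hgm.toLp g) : ℝ)| ≤ ε / 4 := by
    refine (abs_real_inner_le_norm _ _).trans ?_
    rw [hn1]
    have hp : 0 < ‖hfm.toLp f‖ + 1 := by positivity
    calc ‖hfm.toLp f‖ * ‖w - hgm.toLp g‖ ≤
        (‖hfm.toLp f‖ + 1) * (ε / (4 * (‖hfm.toLp f‖ + 1))) :=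
          mul_le_mul (by linarith) hg2 (norm_nonneg _) hp.le
      _ = ε / 4 := by field_simp
  have h4 : |(inner ℝ (gr (y n) (a n) (κ - hfm.toLp f)) w : ℝ)| ≤ ε / 4 := by
    refine (abs_real_inner_le_norm _ _).trans ?_
    rw [hn1]
    have hp : 0 < ‖w‖ + 1 := by positivity
    calc ‖κ - hfm.toLp f‖ * ‖w‖ ≤ (ε / (4 * (‖w‖ + 1))) * (‖w‖ + 1) :=
          mul_le_mul hf2 (by linarith) (norm_nonneg _) (by positivity)
      _ = ε / 4 := by field_simp
  rw [h2]
  calc |(inner ℝ (gr (y n) (a n) (hfm.toLp f)) (hgm.toLp g) : ℝ) +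
      inner ℝ (gr (y n) (a n) (hfm.toLp f)) (w - hgm.toLp g) +
      inner ℝ (gr (y n) (a n) (κ - hfm.toLp f)) w| ≤
      |(inner ℝ (gr (y n) (a n) (hfm.toLp f)) (hgm.toLp g) : ℝ)| +
      |(inner ℝ (gr (y n) (a n) (hfm.toLp f)) (w - hgm.toLp g) : ℝ)| +
      |(inner ℝ (gr (y n) (a n) (κ - hfm.toLp f)) w : ℝ)| := abs_add_three _ _ _
    _ < ε := by linarith

/-- Case `a → -∞`. -/
lemma case_bot (y : ℕ → E) (a : ℕ → ℝ) (ha : Tendsto a atTop atBot) (κ w : K) :
    Tendsto (fun n => (inner ℝ (gr (y n) (a n) κ) w : ℝ)) atTop (𝓝 0) := by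
  apply reduce
  intro f g B1 M1 B2 M2 hfm hgm hf hg
  have h1 : Tendsto (fun n => Real.exp (a n / 2) * (B1 * B2) * (mu (Stp M2)).toReal) atTop
      (𝓝 0) := by
    have h2 : Tendsto (fun n => a n / 2) atTop atBot := ha.atBot_div_const (by norm_num)
    have h3 := ((Real.tendsto_exp_atBot.comp h2).mul_const (B1 * B2)).mul_const
      (mu (Stp M2)).toReal
    rw [zero_mul, zero_mul] at h3
    exact h3
  refine squeeze_zero_norm (fun n => ?_) h1
  rw [Real.norm_eq_abs]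
  refine (inner_bound hf hg hfm hgm (y n) (a n)).trans ?_
  apply mul_le_mul_of_nonneg_left
  · exact ENNReal.toReal_mono (mu_stp M2).ne (measure_mono (A_sub M1 M2 (y n) (a n)))
  · exact mul_nonneg (Real.exp_pos _).le (mul_nonneg hf.1 hg.1)

lemma inner_gr (h1 : St_Grp1) (h2 : St_Grp2) (y : E) (a : ℝ) (k k' : K) :
    (inner ℝ (gr y a k) k' : ℝ) = inner ℝ (gr (-(Real.exp a • y)) (-a) k') k := by
  obtain ⟨_, _, _, _, _, _, g7, _, _⟩ := h1
  obtain ⟨_, _, _, _, d5, _, _, _, d9, _⟩ := h2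
  unfold gr
  rw [g7, d9, real_inner_comm, d5]
  congr 3
  rw [smul_neg, smul_smul, ← Real.exp_add, neg_add_cancel, Real.exp_zero, one_smul]

/-- The measure of a band of the sphere. -/
lemma band (hSL : St_SL1) (z : E) (hz : z ≠ 0) (M : ℝ) (_hM : 0 ≤ M) :
    sg {w : S | |(inner ℝ z (w : E) : ℝ)| ≤ M} ≤ ENNReal.ofReal (8 * Real.pi * M / ‖z‖) := by
  have hzn : 0 < ‖z‖ := norm_pos_iff.2 hz
  have hmeas : Measurable ((Icc (-M) M).indicator (fun _ : ℝ => (1 : ℝ≥0∞))) :=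
    measurable_const.indicator measurableSet_Icc
  have h1 := hSL z hz _ hmeas
  have h2 : ∫⁻ w : S, (Icc (-M) M).indicator (fun _ : ℝ => (1 : ℝ≥0∞)) (inner ℝ z (w : E)) ∂sg =
      sg {w : S | |(inner ℝ z (w : E) : ℝ)| ≤ M} := by
    have hms : MeasurableSet {w : S | |(inner ℝ z (w : E) : ℝ)| ≤ M} :=
      (isClosed_le (by fun_prop) continuous_const).measurableSet
    rw [← lintegral_indicator_one hms]
    apply lintegral_congr
    intro w
    by_cases hw : |(inner ℝ z (w : E) : ℝ)| ≤ M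
    · have hm : (inner ℝ z (w : E) : ℝ) ∈ Icc (-M) M := abs_le.1 hw
      rw [indicator_of_mem hm, indicator_of_mem (show w ∈ {w : S |
        |(inner ℝ z (w : E) : ℝ)| ≤ M} from hw)]
      rfl
    · have hm : (inner ℝ z (w : E) : ℝ) ∉ Icc (-M) M := fun h => hw (abs_le.2 h)
      rw [indicator_of_notMem hm, indicator_of_notMem
        (show w ∉ {w : S | |(inner ℝ z (w : E) : ℝ)| ≤ M} from hw)]
  rw [← h2, h1]
  calc ∫⁻ p in Icc (-‖z‖) ‖z‖, ENNReal.ofReal (4 * Real.pi / ‖z‖ * √(1 - p ^ 2 / ‖z‖ ^ 2)) *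
        (Icc (-M) M).indicator (fun _ : ℝ => (1 : ℝ≥0∞)) p
      ≤ ∫⁻ p, (Icc (-M) M).indicator (fun _ : ℝ => ENNReal.ofReal (4 * Real.pi / ‖z‖)) p := by
        refine (setLIntegral_le_lintegral _ _).trans (lintegral_mono fun p => ?_)
        by_cases hp : p ∈ Icc (-M) M
        · rw [indicator_of_mem hp, indicator_of_mem hp, mul_one]
          apply ENNReal.ofReal_le_ofReal
          have h3 : 0 ≤ p ^ 2 / ‖z‖ ^ 2 := by positivity
          have h4 : 0 ≤ 4 * Real.pi / ‖z‖ := by positivity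
          have h5 : √(1 - p ^ 2 / ‖z‖ ^ 2) ≤ 1 := by
            refine (Real.sqrt_le_sqrt (y := 1) (by linarith)).trans (le_of_eq Real.sqrt_one)
          nlinarith
        · rw [indicator_of_notMem hp, indicator_of_notMem hp, mul_zero]
    _ = ENNReal.ofReal (8 * Real.pi * M / ‖z‖) := by
        rw [lintegral_indicator_const measurableSet_Icc, Real.volume_Icc,
          ← ENNReal.ofReal_mul (by positivity)]
        congr 1
        ring

/-- Third case. -/
lemma case_y (hSL : St_SL1) (y : ℕ → E) (a : ℕ → ℝ) (B0 : ℝ) (ha : ∀ n, |a n| ≤ B0)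
    (hy : Tendsto (fun n => ‖y n‖) atTop atTop) (κ w : K) :
    Tendsto (fun n => (inner ℝ (gr (y n) (a n) κ) w : ℝ)) atTop (𝓝 0) := by
  apply reduce
  intro f g B1 M1 B2 M2 hfm hgm hf hg
  obtain ⟨M', hM'⟩ : ∃ M' : ℝ, M' = M2 + Real.exp B0 * M1 := ⟨_, rfl⟩
  have hM'0 : 0 ≤ M' := by
    rw [hM']
    have h1 := hf.2.1
    have h2 := hg.2.1
    positivity
  have hlim : Tendsto (fun n => Real.exp (B0 / 2) * (B1 * B2) *
      ((8 * Real.pi * M' / ‖y n‖) * (2 * M2))) atTop (𝓝 0) := by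
    have h3 : Tendsto (fun n => 8 * Real.pi * M' / ‖y n‖) atTop (𝓝 0) :=
      hy.const_div_atTop _
    have h4 := (h3.mul_const (2 * M2)).const_mul (Real.exp (B0 / 2) * (B1 * B2))
    rw [zero_mul, mul_zero] at h4
    exact h4
  refine squeeze_zero_norm' ?_ hlim
  filter_upwards [hy.eventually_gt_atTop 0] with n hn
  have hyn : y n ≠ 0 := norm_pos_iff.1 hn
  rw [Real.norm_eq_abs]
  refine (inner_bound hf hg hfm hgm (y n) (a n)).trans ?_
  have hsub : Aset M1 M2 (y n) (a n) ⊆ {w : S | |(inner ℝ (y n) (w : E) : ℝ)| ≤ M'} ×ˢ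
      Icc (-M2) M2 := by
    intro z hz
    refine ⟨?_, abs_le.1 hz.1⟩
    show |(inner ℝ (y n) (z.1 : E) : ℝ)| ≤ M'
    have h5 : |z.2 - inner ℝ (y n) (z.1 : E)| ≤ Real.exp B0 * M1 := by
      have h6 := hz.2
      rw [abs_mul, abs_of_pos (Real.exp_pos _)] at h6
      have h7 : |z.2 - inner ℝ (y n) (z.1 : E)| = Real.exp (-(a n)) *
          (Real.exp (a n) * |z.2 - inner ℝ (y n) (z.1 : E)|) := by
        rw [← mul_assoc, ← Real.exp_add, neg_add_cancel, Real.exp_zero, one_mul]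
      rw [h7]
      have h8 : Real.exp (-(a n)) ≤ Real.exp B0 := by
        apply Real.exp_le_exp.2
        have := (abs_le.1 (ha n)).1
        linarith
      exact mul_le_mul h8 h6 (mul_nonneg (Real.exp_pos _).le (abs_nonneg _)) (Real.exp_pos _).le
    have h6 : (inner ℝ (y n) (z.1 : E) : ℝ) = z.2 - (z.2 - inner ℝ (y n) (z.1 : E)) := by ring
    rw [h6, hM']
    exact (abs_sub _ _).trans (add_le_add hz.1 h5)
  have hmu : (mu (Aset M1 M2 (y n) (a n))).toReal ≤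
      (8 * Real.pi * M' / ‖y n‖) * (2 * M2) := by
    have hM2 := hg.2.1
    apply ENNReal.toReal_le_of_le_ofReal (by positivity)
    refine (measure_mono hsub).trans ?_
    rw [Measure.prod_prod, Real.volume_Icc, ENNReal.ofReal_mul (by positivity)]
    refine mul_le_mul' (band hSL (y n) hyn M' hM'0) (le_of_eq ?_)
    congr 1
    ring
  have hexp : Real.exp (a n / 2) ≤ Real.exp (B0 / 2) := by
    apply Real.exp_le_exp.2
    have := (abs_le.1 (ha n)).2
    linarith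
  have hB : 0 ≤ B1 * B2 := mul_nonneg hf.1 hg.1
  apply mul_le_mul (mul_le_mul_of_nonneg_right hexp hB) hmu ENNReal.toReal_nonneg
  positivity

end G0ax

theorem thm_G0a (h1 : St_Grp1) (h2 : St_Grp2) (hSL : St_SL1) : St_G0a := by
  intro κ w y a h
  rcases h with h | h | ⟨⟨B, hB⟩, h⟩
  · have h3 : Tendsto (fun n => -(a n)) atTop atBot := tendsto_neg_atTop_atBot.comp h
    have h4 := G0ax.case_bot (fun n => -(Real.exp (a n) • y n)) (fun n => -(a n)) h3 w κ
    refine h4.congr (fun n => ?_)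
    exact (G0ax.inner_gr h1 h2 (y n) (a n) κ w).symm
  · exact G0ax.case_bot y a h κ w
  · exact G0ax.case_y hSL y a B hB h κ w

end Pool.Agent.QWF
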