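import Pool.Agent.QWF.StA2

set_option autoImplicit false

/-!
# QWF / WkP: local compactness
-/

open MeasureTheory Filter Topology Set
open scoped ENNReal NNReal RealInnerProductSpace Pointwise ContDiff Convolution

namespace Pool.Agent.QWF


namespace WkPx

/-- weakly convergent sequences are bounded -/
theorem bdd {k : ℕ → K} {k' : K} (h : WTo k k') : ∃ A : ℝ, 0 ≤ A ∧ ∀ n, ‖k n‖ ≤ A := by
  obtain ⟨C, hC⟩ := banach_steinhaus (g := fun n => innerSL ℝ (k n)) (fun w => by
    obtain ⟨C, hC⟩ := (h w).norm.bddAbove_range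
    exact ⟨C, fun n => hC ⟨n, rfl⟩⟩)
  have hC' : ∀ n, ‖k n‖ ≤ C := fun n => by
    rw [← innerSL_apply_norm ℝ (k n)]
    exact hC n
  exact ⟨C, (norm_nonneg _).trans (hC' 0), hC'⟩

/-- a bump function -/
theorem bump : ∃ ρ : E → ℝ, IsTest ρ ∧ ∫ x, ρ x = 1 ∧ (∀ x, ρ (-x) = ρ x) ∧
    ∀ x, 1 ≤ ‖x‖ → ρ x = 0 := by
  let b : ContDiffBump (0 : E) := ⟨1 / 2, 1, by norm_num, by norm_num⟩
  refine ⟨b.normed volume, ⟨b.contDiff_normed, b.hasCompactSupport_normed⟩, b.integral_normed,
    fun x => b.normed_neg x, fun x hx => ?_⟩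
  by_contra h
  have h1 : x ∈ Function.support (b.normed volume) := h
  rw [b.support_normed_eq, mem_ball_zero_iff] at h1
  exact absurd h1 (not_lt.2 hx)

theorem conv_eq (ρ g : E → ℝ) {ε : ℝ} (hε : 0 < ε) (x : E) :
    ∫ y, ρ y * g (x - ε • y) = (ε ^ 4)⁻¹ * ∫ t, ρ (ε⁻¹ • t) * g (x - t) := by
  have h1 := Measure.integral_comp_smul (volume : Measure E)
    (fun t => ρ (ε⁻¹ • t) * g (x - t)) ε
  simp only [smul_smul, inv_mul_cancel₀ hε.ne', one_smul] at h1
  rw [h1, finrank_euclideanSpace_fin, abs_of_pos (by positivity), smul_eq_mul]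

theorem conv_eq' (ρ g : E → ℝ) {ε : ℝ} (hε : 0 < ε) (x : E) :
    ∫ y, ρ y * g (x - ε • y) = (ε ^ 4)⁻¹ * ∫ z, ρ (ε⁻¹ • (x - z)) * g z := by
  rw [conv_eq ρ g hε x, ← integral_sub_left_eq_self _ volume x]
  simp only [sub_sub_cancel]

theorem conv_congr (ρ : E → ℝ) {g g' : E → ℝ} (h : g =ᵐ[volume] g') {ε : ℝ} (hε : 0 < ε) (x : E) :
    ∫ y, ρ y * g (x - ε • y) = ∫ y, ρ y * g' (x - ε • y) := by
  rw [conv_eq' ρ g hε, conv_eq' ρ g' hε]
  congr 1
  refine integral_congr_ae ?_
  filter_upwards [h] with z hz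
  rw [hz]

theorem ker_test {ρ : E → ℝ} (hρ : IsTest ρ) (hρ1 : ∀ x, 1 ≤ ‖x‖ → ρ x = 0) {ε : ℝ} (hε : 0 < ε)
    (x : E) : IsTest (fun z => ρ (ε⁻¹ • (x - z))) := by
  refine ⟨hρ.1.comp (by fun_prop), HasCompactSupport.intro (isCompact_closedBall x ε) ?_⟩
  intro z hz
  rw [Metric.mem_closedBall, not_le, dist_eq_norm, ← norm_neg, neg_sub] at hz
  refine hρ1 _ ?_
  rw [norm_smul, norm_inv, Real.norm_of_nonneg hε.le, ← div_eq_inv_mul, le_div_iff₀ hε, one_mul]
  exact hz.le

/-- dominated convergence in `L²` -/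
theorem tend2 {f : E → ℝ≥0∞} (hf : ∫⁻ x, f x ^ (2 : ℝ) ≠ ⊤)
    {F : ℕ → E → ℝ} (hF : ∀ n, AEStronglyMeasurable (F n) volume) (hle : ∀ n x, ‖F n x‖ₑ ≤ f x)
    (hlim : ∀ x, Tendsto (fun n => F n x) atTop (𝓝 0)) :
    Tendsto (fun n => eLpNorm (F n) 2 volume) atTop (𝓝 0) := by
  have e20 : (2 : ℝ≥0∞).toReal = 2 := by norm_num
  have h1 : Tendsto (fun n => ∫⁻ x, ‖F n x‖ₑ ^ (2 : ℝ)) atTop (𝓝 (∫⁻ _x : E, 0)) := by
    refine tendsto_lintegral_of_dominated_convergence' (fun x => f x ^ (2 : ℝ))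
      (fun n => (hF n).enorm.pow_const 2) (fun n => ?_) hf ?_
    · refine Eventually.of_forall fun x => ?_
      exact ENNReal.rpow_le_rpow (hle n x) (by norm_num)
    · refine Eventually.of_forall fun x => ?_
      have h2 : Tendsto (fun n => ‖F n x‖ₑ) atTop (𝓝 0) := by
        have h3 := (hlim x).enorm
        rwa [enorm_zero] at h3
      have h4 := (ENNReal.continuous_rpow_const (y := 2)).tendsto 0 |>.comp h2
      rw [ENNReal.zero_rpow_of_pos (by norm_num)] at h4
      exact h4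
  rw [lintegral_zero] at h1
  have h5 := (ENNReal.continuous_rpow_const (y := 1 / 2)).tendsto 0 |>.comp h1
  rw [ENNReal.zero_rpow_of_pos (by norm_num)] at h5
  refine h5.congr fun n => ?_
  rw [eLpNorm_eq_lintegral_rpow_enorm_toReal (by norm_num) (by norm_num), e20]
  rfl

/-- the mollified functions tend to zero -/
theorem conv_tend {ρ : E → ℝ} (hρ : IsTest ρ) (hρ1 : ∀ x, 1 ≤ ‖x‖ → ρ x = 0) {F : ℕ → E → ℝ}
    (hF : ∀ n, Continuous (F n)) {q : ℝ≥0∞} (hq : 1 ≤ q) {A : ℝ≥0∞} (hA : A < ⊤)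
    (hb : ∀ n, eLpNorm (F n) q volume ≤ A)
    (hw : ∀ φ, IsTest φ → Tendsto (fun n => ∫ x, F n x * φ x) atTop (𝓝 0)) {ε : ℝ} (hε : 0 < ε)
    (M : ℝ) : Tendsto (fun n => eLpNorm ((Metric.ball (0 : E) M).indicator
      (fun x => ∫ y, ρ y * F n (x - ε • y))) 2 volume) atTop (𝓝 0) := by
  obtain ⟨R, hR⟩ := hρ.2.exists_bound_of_continuous hρ.1.continuous
  obtain ⟨B', hB'⟩ : ∃ B' : Set E, B' = Metric.closedBall 0 (M + ε) := ⟨_, rfl⟩
  have hB'm : MeasurableSet B' := by rw [hB']; exact measurableSet_closedBall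
  have hB'f : volume B' < ⊤ := by rw [hB']; exact measure_closedBall_lt_top
  have hexp : 0 ≤ 1 / (1 : ℝ≥0∞).toReal - 1 / q.toReal := by
    rcases eq_or_ne q ⊤ with h | h
    · rw [h]; norm_num
    · have h2 : 1 ≤ q.toReal := by
        have := ENNReal.toReal_mono h hq
        simpa using this
      rw [ENNReal.toReal_one, div_one, sub_nonneg, div_le_one (by linarith)]
      exact h2
  obtain ⟨D, hD⟩ : ∃ D : ℝ≥0∞, D = A * volume B' ^ (1 / (1 : ℝ≥0∞).toReal - 1 / q.toReal) :=
    ⟨_, rfl⟩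
  have hDt : D < ⊤ := by
    rw [hD]
    exact ENNReal.mul_lt_top hA (ENNReal.rpow_lt_top_of_nonneg hexp hB'f.ne)
  have hL1 : ∀ n, ∫⁻ z in B', ‖F n z‖ₑ ≤ D := by
    intro n
    have h1 := eLpNorm_le_eLpNorm_mul_rpow_measure_univ (μ := volume.restrict B') hq
      (hF n).aestronglyMeasurable
    rw [eLpNorm_one_eq_lintegral_enorm, Measure.restrict_apply_univ] at h1
    refine h1.trans ?_
    rw [hD]
    gcongr
    exact (eLpNorm_mono_measure _ Measure.restrict_le_self).trans (hb n)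
  obtain ⟨Λ, hΛ⟩ : ∃ Λ : ℝ≥0∞, Λ = ENNReal.ofReal (ε ^ 4)⁻¹ * (ENNReal.ofReal R * D) := ⟨_, rfl⟩
  have hΛt : Λ < ⊤ := by
    rw [hΛ]
    exact ENNReal.mul_lt_top ENNReal.ofReal_lt_top (ENNReal.mul_lt_top ENNReal.ofReal_lt_top hDt)
  have hbd : ∀ n, ∀ x ∈ Metric.ball (0 : E) M, ‖∫ y, ρ y * F n (x - ε • y)‖ₑ ≤ Λ := by
    intro n x hx
    rw [mem_ball_zero_iff] at hx
    rw [conv_eq' ρ (F n) hε, enorm_mul, hΛ]
    refine mul_le_mul' ?_ ?_
    · rw [Real.enorm_eq_ofReal (by positivity)]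
    · refine (enorm_integral_le_lintegral_enorm _).trans ?_
      calc ∫⁻ z, ‖ρ (ε⁻¹ • (x - z)) * F n z‖ₑ
          ≤ ∫⁻ z, B'.indicator (fun z => ENNReal.ofReal R * ‖F n z‖ₑ) z := by
            refine lintegral_mono fun z => ?_
            by_cases hz : z ∈ B'
            · rw [indicator_of_mem hz, enorm_mul]
              gcongr
              rw [← ofReal_norm]
              exact ENNReal.ofReal_le_ofReal (hR _)
            · have h1 : ρ (ε⁻¹ • (x - z)) = 0 := by
                refine hρ1 _ ?_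
                rw [norm_smul, norm_inv, Real.norm_of_nonneg hε.le, ← div_eq_inv_mul,
                  le_div_iff₀ hε, one_mul]
                rw [hB', mem_closedBall_zero_iff, not_le] at hz
                have h2 : ‖z‖ ≤ ‖x‖ + ‖x - z‖ := by
                  have := norm_sub_le x (x - z)
                  rwa [sub_sub_cancel] at this
                linarith
              rw [h1, zero_mul, enorm_zero]
              exact zero_le
        _ = ENNReal.ofReal R * ∫⁻ z in B', ‖F n z‖ₑ := by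
            rw [lintegral_indicator hB'm, lintegral_const_mul' _ _ ENNReal.ofReal_ne_top]
        _ ≤ ENNReal.ofReal R * D := by
            gcongr
            exact hL1 n
  refine tend2 (f := (Metric.ball (0 : E) M).indicator fun _ => Λ) ?_ (fun n => ?_) (fun n x => ?_)
    fun x => ?_
  · have h1 : ∀ x : E, ((Metric.ball (0 : E) M).indicator (fun _ => Λ) x) ^ (2 : ℝ) =
        (Metric.ball (0 : E) M).indicator (fun _ => Λ ^ (2 : ℝ)) x := by
      intro x
      by_cases hx : x ∈ Metric.ball (0 : E) M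
      · rw [indicator_of_mem hx, indicator_of_mem hx]
      · rw [indicator_of_notMem hx, indicator_of_notMem hx, ENNReal.zero_rpow_of_pos (by norm_num)]
    rw [lintegral_congr h1, lintegral_indicator measurableSet_ball, setLIntegral_const]
    exact (ENNReal.mul_lt_top (ENNReal.rpow_lt_top_of_nonneg (by norm_num) hΛt.ne)
      measure_ball_lt_top).ne
  · refine AEStronglyMeasurable.indicator ?_ measurableSet_ball
    have h1 : Continuous (fun p : E × E => ρ p.2 * F n (p.1 - ε • p.2)) := by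
      have := hρ.1.continuous
      have := hF n
      fun_prop
    exact h1.stronglyMeasurable.integral_prod_right.aestronglyMeasurable
  · by_cases hx : x ∈ Metric.ball (0 : E) M
    · rw [indicator_of_mem hx, indicator_of_mem hx]
      exact hbd n x hx
    · rw [indicator_of_notMem hx, enorm_zero]
      exact zero_le
  · by_cases hx : x ∈ Metric.ball (0 : E) M
    · have h1 := (hw _ (ker_test hρ hρ1 hε x)).const_mul (ε ^ 4)⁻¹
      rw [mul_zero] at h1
      refine h1.congr fun n => ?_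
      rw [indicator_of_mem hx, conv_eq' ρ (F n) hε]
      congr 1
      exact integral_congr_ae (Eventually.of_forall fun z => mul_comm _ _)
    · simp only [indicator_of_notMem hx]
      exact tendsto_const_nhds

/-- local `L²` bounds -/
theorem loc2 {q : ℝ≥0∞} (hq : 2 ≤ q) (M : ℝ) : ∃ c : ℝ≥0∞, c < ⊤ ∧ ∀ f : E → ℝ,
    AEStronglyMeasurable f volume →
    eLpNorm ((Metric.ball (0 : E) M).indicator f) 2 volume ≤ c * eLpNorm f q volume := by
  have hexp : 0 ≤ 1 / (2 : ℝ≥0∞).toReal - 1 / q.toReal := by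
    rcases eq_or_ne q ⊤ with h | h
    · rw [h]; norm_num
    · have h2 : 2 ≤ q.toReal := by
        have := ENNReal.toReal_mono h hq
        simpa using this
      rw [sub_nonneg]
      have e : (2 : ℝ≥0∞).toReal = 2 := by norm_num
      rw [e]
      exact one_div_le_one_div_of_le (by norm_num) h2
  refine ⟨volume (Metric.ball (0 : E) M) ^ (1 / (2 : ℝ≥0∞).toReal - 1 / q.toReal),
    ENNReal.rpow_lt_top_of_nonneg hexp measure_ball_lt_top.ne, fun f hf => ?_⟩
  rw [eLpNorm_indicator_eq_eLpNorm_restrict measurableSet_ball]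
  have h1 := eLpNorm_le_eLpNorm_mul_rpow_measure_univ
    (μ := volume.restrict (Metric.ball (0 : E) M)) hq hf.restrict
  rw [Measure.restrict_apply_univ] at h1
  refine h1.trans ?_
  rw [mul_comm]
  gcongr
  exact Measure.restrict_le_self

theorem red {X : K → E → ℝ} {q : ℝ≥0∞} (hq : 2 ≤ q) {C : ℝ}
    (hX : ∀ k, MemLp (X k) q volume)
    (hXb : ∀ k, eLpNorm (X k) q volume ≤ ENNReal.ofReal C * ‖k‖ₑ)
    (hlin : ∀ k k', X (k + (1 : ℝ) • k') =ᵐ[volume] fun x => X k x + 1 * X k' x)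
    {k κ : ℕ → K} (hk : Tendsto (fun n => ‖k n - κ n‖) atTop (𝓝 0)) (M : ℝ)
    (h : Tendsto (fun n => eLpNorm ((Metric.ball (0 : E) M).indicator (X (κ n))) 2 volume)
      atTop (𝓝 0)) :
    Tendsto (fun n => eLpNorm ((Metric.ball (0 : E) M).indicator (X (k n))) 2 volume)
      atTop (𝓝 0) := by
  obtain ⟨c, hc, hloc⟩ := loc2 hq M
  have h1 : Tendsto (fun n => eLpNorm ((Metric.ball (0 : E) M).indicator (X (κ n))) 2 volume +
      c * (ENNReal.ofReal C * ‖k n - κ n‖ₑ)) atTop (𝓝 0) := by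
    have h2 : Tendsto (fun n => ‖k n - κ n‖ₑ) atTop (𝓝 0) := by
      have h3 := ENNReal.tendsto_ofReal hk
      rw [ENNReal.ofReal_zero] at h3
      refine h3.congr fun n => ?_
      rw [ofReal_norm]
    have h4 := ENNReal.Tendsto.const_mul (a := ENNReal.ofReal C) h2
      (Or.inr ENNReal.ofReal_ne_top)
    rw [mul_zero] at h4
    have h5 := ENNReal.Tendsto.const_mul (a := c) h4 (Or.inr hc.ne)
    rw [mul_zero] at h5
    have h6 := h.add h5
    rw [add_zero] at h6
    exact h6
  refine tendsto_of_tendsto_of_tendsto_of_le_of_le tendsto_const_nhds h1 (fun n => zero_le)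
    fun n => ?_
  have e1 : κ n + (1 : ℝ) • (k n - κ n) = k n := by
    rw [one_smul, add_sub_cancel]
  have h2 := hlin (κ n) (k n - κ n)
  rw [e1] at h2
  have h3 : (Metric.ball (0 : E) M).indicator (X (k n)) =ᵐ[volume]
      (Metric.ball (0 : E) M).indicator (X (κ n)) +
        (Metric.ball (0 : E) M).indicator (X (k n - κ n)) := by
    filter_upwards [h2] with x hx
    by_cases hxB : x ∈ Metric.ball (0 : E) M
    · rw [Pi.add_apply, indicator_of_mem hxB, indicator_of_mem hxB, indicator_of_mem hxB, hx,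
        one_mul]
    · rw [Pi.add_apply, indicator_of_notMem hxB, indicator_of_notMem hxB, indicator_of_notMem hxB,
        add_zero]
  dsimp only
  rw [eLpNorm_congr_ae h3]
  refine (eLpNorm_add_le ((hX _).1.indicator measurableSet_ball)
    ((hX _).1.indicator measurableSet_ball) (by norm_num)).trans ?_
  gcongr
  refine (hloc _ (hX _).1).trans ?_
  gcongr
  exact hXb _

theorem comb {F : ℕ → E → ℝ} {G : ℝ → ℕ → E → ℝ} {B : Set E} {D : ℝ≥0∞} (hD : D < ⊤) {τ : ℝ}
    (hB : MeasurableSet B) (hF : ∀ n, AEStronglyMeasurable (F n) volume)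
    (hG : ∀ ε, 0 < ε → ∀ n, AEStronglyMeasurable (G ε n) volume) (hτ : 0 < τ)
    (h1 : ∀ ε, 0 < ε → ∀ n, eLpNorm (B.indicator fun x => F n x - G ε n x) 2 volume ≤
      D * ENNReal.ofReal (ε ^ τ))
    (h2 : ∀ ε, 0 < ε → Tendsto (fun n => eLpNorm (B.indicator (G ε n)) 2 volume) atTop (𝓝 0)) :
    Tendsto (fun n => eLpNorm (B.indicator (F n)) 2 volume) atTop (𝓝 0) := by
  rw [ENNReal.tendsto_nhds_zero]
  intro δ hδ
  have hδ2 : 0 < δ / 2 := ENNReal.half_pos hδ.ne'
  have h3 : Tendsto (fun ε : ℝ => D * ENNReal.ofReal (ε ^ τ)) (𝓝[>] 0) (𝓝 0) := by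
    have h4 : Tendsto (fun ε : ℝ => ε ^ τ) (𝓝[>] 0) (𝓝 0) := by
      have h5 := (Real.continuous_rpow_const hτ.le).tendsto 0
      rw [Real.zero_rpow hτ.ne'] at h5
      exact h5.mono_left nhdsWithin_le_nhds
    have h6 := ENNReal.tendsto_ofReal h4
    rw [ENNReal.ofReal_zero] at h6
    have h7 := ENNReal.Tendsto.const_mul (a := D) h6 (Or.inr hD.ne)
    rw [mul_zero] at h7
    exact h7
  obtain ⟨ε, hε1, hε⟩ := ((h3.eventually (ge_mem_nhds hδ2)).and self_mem_nhdsWithin).exists
  have hε0 : 0 < ε := hε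
  filter_upwards [(h2 ε hε0).eventually (ge_mem_nhds hδ2)] with n hn
  have e : B.indicator (F n) = (B.indicator fun x => F n x - G ε n x) + B.indicator (G ε n) := by
    funext x
    by_cases hx : x ∈ B
    · rw [Pi.add_apply, indicator_of_mem hx, indicator_of_mem hx, indicator_of_mem hx]
      ring
    · rw [Pi.add_apply, indicator_of_notMem hx, indicator_of_notMem hx, indicator_of_notMem hx,
        add_zero]
  rw [e]
  calc eLpNorm ((B.indicator fun x => F n x - G ε n x) + B.indicator (G ε n)) 2 volume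
      ≤ eLpNorm (B.indicator fun x => F n x - G ε n x) 2 volume +
        eLpNorm (B.indicator (G ε n)) 2 volume :=
        eLpNorm_add_le (((hF n).sub (hG ε hε0 n)).indicator hB) ((hG ε hε0 n).indicator hB)
          (by norm_num)
    _ ≤ δ / 2 + δ / 2 := add_le_add ((h1 ε hε0 n).trans hε1) hn
    _ = δ := ENNReal.add_halves δ

theorem norm_le_sum (L : E →L[ℝ] ℝ) : ‖L‖ ≤ ∑ i, |L (EuclideanSpace.single i (1 : ℝ))| := by
  refine L.opNorm_le_bound (Finset.sum_nonneg fun i _ => abs_nonneg _) fun x => ?_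
  have h1 : x = ∑ i, x i • EuclideanSpace.single i (1 : ℝ) := by
    ext j
    simp [Pi.single_apply]
  have h2 : L x = ∑ i, x i * L (EuclideanSpace.single i (1 : ℝ)) := by
    conv_lhs => rw [h1]
    rw [map_sum]
    exact Finset.sum_congr rfl fun i _ => by rw [map_smul, smul_eq_mul]
  rw [h2, Finset.sum_mul]
  refine (norm_sum_le _ _).trans (Finset.sum_le_sum fun i _ => ?_)
  rw [norm_mul, mul_comm, Real.norm_eq_abs (L _)]
  gcongr
  exact PiLp.norm_apply_le x i

theorem sob : ∃ c : ℝ≥0∞, c < ⊤ ∧ ∀ u : E → ℝ, ContDiff ℝ 1 u → HasCompactSupport u →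
    eLpNorm u 4 volume ≤ c * ∑ i, eLpNorm (pd i u) 2 volume := by
  refine ⟨(SNormLESNormFDerivOfEqConst ℝ (volume : Measure E) (2 : ℝ≥0) : ℝ≥0∞),
    ENNReal.coe_lt_top, fun u hu h2u => ?_⟩
  have h1 := eLpNorm_le_eLpNorm_fderiv_of_eq (μ := (volume : Measure E)) hu h2u
    (p := 2) (p' := 4) (by norm_num) (by rw [finrank_euclideanSpace_fin]; norm_num)
    (by rw [finrank_euclideanSpace_fin]; norm_num)
  have e1 : (((4 : ℝ≥0)) : ℝ≥0∞) = 4 := by norm_num
  have e2 : (((2 : ℝ≥0)) : ℝ≥0∞) = 2 := by norm_num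
  rw [e1, e2] at h1
  refine h1.trans ?_
  gcongr
  have h3 : eLpNorm (fderiv ℝ u) 2 volume ≤ eLpNorm (∑ i, fun x => |pd i u x|) 2 volume := by
    refine eLpNorm_mono fun x => ?_
    rw [Finset.sum_apply, Real.norm_of_nonneg (Finset.sum_nonneg fun i _ => abs_nonneg _)]
    exact norm_le_sum _
  refine h3.trans ?_
  have hc : ∀ i, Continuous (pd i u) := fun i => by
    unfold pd
    exact (hu.continuous_fderiv (by norm_num)).clm_apply continuous_const
  refine (eLpNorm_sum_le (fun i _ => (hc i).abs.aestronglyMeasurable) (by norm_num)).trans ?_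
  refine Finset.sum_le_sum fun i _ => le_of_eq ?_
  exact eLpNorm_norm (pd i u)

theorem conv_test {ρ f : E → ℝ} (hρ : IsTest ρ) (hf : IsTest f) {ε : ℝ} (hε : 0 < ε) :
    ContDiff ℝ 1 (fun x => f x - ∫ y, ρ y * f (x - ε • y)) ∧
    HasCompactSupport (fun x => f x - ∫ y, ρ y * f (x - ε • y)) ∧
    ∀ i x, pd i (fun x => f x - ∫ y, ρ y * f (x - ε • y)) x =
      pd i f x - ∫ y, ρ y * pd i f (x - ε • y) := by
  obtain ⟨P, hP⟩ : ∃ P : E → ℝ, P = fun t => ρ (ε⁻¹ • t) := ⟨_, rfl⟩
  have hPc : ContDiff ℝ ∞ P := by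
    rw [hP]
    exact hρ.1.comp (by fun_prop)
  have hPs : HasCompactSupport P := by
    rw [hP]
    exact hρ.2.comp_homeomorph (Homeomorph.smulOfNeZero ε⁻¹ (inv_ne_zero hε.ne'))
  have hPl : LocallyIntegrable P volume := hPc.continuous.locallyIntegrable
  have hcv : ∀ (g : E → ℝ) (x : E), ∫ y, ρ y * g (x - ε • y) =
      (ε ^ 4)⁻¹ * (P ⋆[ContinuousLinearMap.mul ℝ ℝ, volume] g) x := by
    intro g x
    rw [conv_eq ρ g hε, convolution, hP]
    rfl
  have hf1 : ContDiff ℝ 1 f := hf.1.of_le (by norm_num)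
  have e1 : (fun x => f x - ∫ y, ρ y * f (x - ε • y)) =
      fun x => f x - (ε ^ 4)⁻¹ * (P ⋆[ContinuousLinearMap.mul ℝ ℝ, volume] f) x := by
    funext x
    rw [hcv f x]
  have hfd : Continuous (fderiv ℝ f) := hf1.continuous_fderiv (by norm_num)
  refine ⟨?_, ?_, ?_⟩
  · rw [e1]
    exact hf1.sub (contDiff_const.mul (hf.2.contDiff_convolution_right _ hPl hf1))
  · rw [e1]
    have h1 : HasCompactSupport (P ⋆[ContinuousLinearMap.mul ℝ ℝ, volume] f) :=
      HasCompactSupport.convolution _ hPs hf.2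
    have h2 : HasCompactSupport fun x =>
        (ε ^ 4)⁻¹ * (P ⋆[ContinuousLinearMap.mul ℝ ℝ, volume] f) x := h1.mul_left
    exact hf.2.sub h2
  · intro i x
    rw [e1, hcv (pd i f) x]
    have h1 := hf.2.hasFDerivAt_convolution_right (ContinuousLinearMap.mul ℝ ℝ) hPl hf1 x
    have h2 := (hf1.differentiable (by norm_num) x).hasFDerivAt.sub (h1.const_mul (ε ^ 4)⁻¹)
    have h3 := h2.fderiv
    unfold pd
    have h4 : fderiv ℝ (fun x => f x -
        (ε ^ 4)⁻¹ * (P ⋆[ContinuousLinearMap.mul ℝ ℝ, volume] f) x) x = _ := h3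
    rw [h4, sub_apply, smul_apply, smul_eq_mul,
      convolution_precompR_apply _ hPl (hf.2.fderiv ℝ) hfd]

end WkPx

open WkPx in
theorem thm_WkP (hDns : St_DnsP) (hFld : St_FldP) (hMol : St_MolP) : St_WkP := by
  intro s k M hs hk
  have hs' := abs_lt.1 hs
  obtain ⟨ρ, hρ, hρi, hρn, hρ1⟩ := bump
  obtain ⟨C, hC, hF, hLin, hT⟩ := hFld s hs
  obtain ⟨C', hC', hM⟩ := hMol s ρ hs hρ hρi hρn
  obtain ⟨A, hA, hkA⟩ := bdd hk
  have hq0 : 2 ≤ q0 s := by
    rw [q0, show (2 : ℝ≥0∞) = ENNReal.ofReal 2 by norm_num]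
    refine ENNReal.ofReal_le_ofReal ?_
    rw [le_div_iff₀ (by linarith)]
    linarith
  have hq1 : 2 ≤ q1 s := by
    rw [q1, show (2 : ℝ≥0∞) = ENNReal.ofReal 2 by norm_num]
    refine ENNReal.ofReal_le_ofReal ?_
    rw [le_div_iff₀ (by linarith)]
    linarith
  have hq0' : 1 ≤ q0 s := le_trans (by norm_num) hq0
  have hq1' : 1 ≤ q1 s := le_trans (by norm_num) hq1
  -- approximation by test states
  have hpos : ∀ n : ℕ, (0 : ℝ) < 1 / ((n : ℝ) + 1) := fun n => by positivity
  choose f g hf hg hfg using fun n => (hDns s (by linarith) hs'.2).2.1 (k n) (1 / ((n : ℝ) + 1)) (hpos n)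
  obtain ⟨κ, hκ⟩ : ∃ κ : ℕ → K, κ = fun n => Theta s (f n) (g n) := ⟨_, rfl⟩
  have hκn : ∀ n, κ n = Theta s (f n) (g n) := fun n => by rw [hκ]
  have hd : Tendsto (fun n => ‖k n - κ n‖) atTop (𝓝 0) := by
    refine squeeze_zero (fun n => norm_nonneg _) (fun n => ?_)
      tendsto_one_div_add_atTop_nhds_zero_nat
    rw [hκn]
    exact (hfg n).le
  have hκb : ∀ n, ‖κ n‖ ≤ A + 1 := by
    intro n
    have h1 : ‖κ n‖ ≤ ‖k n‖ + ‖k n - κ n‖ := by
      have := norm_sub_le (k n) (k n - κ n)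
      rwa [sub_sub_cancel] at this
    have h2 : ‖k n - κ n‖ ≤ 1 := by
      rw [hκn]
      refine (hfg n).le.trans ?_
      rw [div_le_one (by positivity)]
      linarith [Nat.cast_nonneg (α := ℝ) n]
    linarith [hkA n]
  have hκe : ∀ n, ‖κ n‖ₑ ≤ ENNReal.ofReal (A + 1) := fun n => by
    rw [← ofReal_norm]
    exact ENNReal.ofReal_le_ofReal (hκb n)
  have hκw : ∀ w : K, Tendsto (fun n => inner ℝ (κ n) w) atTop (𝓝 0) := by
    intro w
    have h1 := hk w
    rw [inner_zero_left] at h1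
    have h2 : Tendsto (fun n => inner ℝ (k n - κ n) w) atTop (𝓝 0) := by
      refine squeeze_zero_norm (fun n => norm_inner_le_norm _ _) ?_
      have := hd.mul_const ‖w‖
      rwa [zero_mul] at this
    have h3 := h1.sub h2
    rw [sub_zero] at h3
    refine h3.congr fun n => ?_
    rw [← inner_sub_left, sub_sub_cancel]
  have hUf : ∀ n, U s (κ n) =ᵐ[volume] f n := fun n => by
    rw [hκn]
    exact (hT _ _ (hf n) (hg n)).1
  have hVg : ∀ n, V s (κ n) =ᵐ[volume] g n := fun n => by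
    rw [hκn]
    exact (hT _ _ (hf n) (hg n)).2.1
  have hDf : ∀ n i, DU s (κ n) i =ᵐ[volume] pd i (f n) := fun n i => by
    rw [hκn]
    exact (hT _ _ (hf n) (hg n)).2.2 i
  have hpdt : ∀ (i : Fin 4) (φ : E → ℝ), IsTest φ → IsTest (pd i φ) := by
    intro i φ hφ
    refine ⟨?_, ?_⟩
    · unfold pd
      exact (hφ.1.fderiv_right (by simp)).clm_apply contDiff_const
    · refine (hφ.2.fderiv ℝ).mono ?_
      intro x hx hx0
      apply hx
      unfold pd
      rw [hx0]
      rfl
  have hBm : MeasurableSet (Metric.ball (0 : E) M) := measurableSet_ball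
  have hcont : ∀ (h : E → ℝ), Continuous h → ∀ ε : ℝ, AEStronglyMeasurable
      (fun x => ∫ y, ρ y * h (x - ε • y)) volume := by
    intro h hh ε
    have h1 : Continuous (fun p : E × E => ρ p.2 * h (p.1 - ε • p.2)) := by
      have := hρ.1.continuous
      fun_prop
    exact h1.stronglyMeasurable.integral_prod_right.aestronglyMeasurable
  have hbig : ENNReal.ofReal C * ENNReal.ofReal (A + 1) < ⊤ :=
    ENNReal.mul_lt_top ENNReal.ofReal_lt_top ENNReal.ofReal_lt_top
  have hτ : 0 < 1 / 2 + s := by linarith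
  -- bounds from MolP for continuous representatives
  have hmolX : ∀ (X h : E → ℝ), X =ᵐ[volume] h → ∀ ε : ℝ, 0 < ε → ∀ n : ℕ,
      eLpNorm (fun x => X x - ∫ y, ρ y * X (x - ε • y)) 2 volume ≤
        ENNReal.ofReal (C' * ε ^ (1 / 2 + s)) * ‖κ n‖ₑ →
      eLpNorm (fun x => h x - ∫ y, ρ y * h (x - ε • y)) 2 volume ≤
        ENNReal.ofReal C' * ENNReal.ofReal (A + 1) * ENNReal.ofReal (ε ^ (1 / 2 + s)) := by
    intro X h hXh ε hε n hle
    have e1 : (fun x => h x - ∫ y, ρ y * h (x - ε • y)) =ᵐ[volume]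
        fun x => X x - ∫ y, ρ y * X (x - ε • y) := by
      filter_upwards [hXh] with x hx
      rw [hx, conv_congr ρ hXh hε x]
    rw [eLpNorm_congr_ae e1]
    refine hle.trans ?_
    rw [ENNReal.ofReal_mul hC'.le, mul_right_comm]
    gcongr
    exact hκe n
  have hD1 : ENNReal.ofReal C' * ENNReal.ofReal (A + 1) < ⊤ :=
    ENNReal.mul_lt_top ENNReal.ofReal_lt_top ENNReal.ofReal_lt_top
  have hDi : ∀ i n ε, 0 < ε →
      eLpNorm (fun x => pd i (f n) x - ∫ y, ρ y * pd i (f n) (x - ε • y)) 2 volume ≤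
        ENNReal.ofReal C' * ENNReal.ofReal (A + 1) * ENNReal.ofReal (ε ^ (1 / 2 + s)) := by
    intro i n ε hε
    exact hmolX _ _ (hDf n i) ε hε n ((hM (κ n) ε hε).1 i)
  refine ⟨?_, fun i => ?_, ?_⟩
  · refine red (X := U s) hq0 (fun k => (hF k).1.1) (fun k => (hF k).2.1)
      (fun k k' => (hLin 1 k k').1) hd M ?_
    obtain ⟨c, hc, hsob⟩ := sob
    obtain ⟨cB, hcB, hloc⟩ := loc2 (q := 4) (by norm_num) M
    have h1 : Tendsto (fun n => eLpNorm ((Metric.ball (0 : E) M).indicator (f n)) 2 volume)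
        atTop (𝓝 0) := by
      refine comb (G := fun ε n x => ∫ y, ρ y * f n (x - ε • y))
        (D := cB * (c * ∑ _i : Fin 4, ENNReal.ofReal C' * ENNReal.ofReal (A + 1))) ?_ hBm
        (fun n => (hf n).1.continuous.aestronglyMeasurable)
        (fun ε _ n => hcont _ (hf n).1.continuous ε) hτ ?_ ?_
      · refine ENNReal.mul_lt_top hcB (ENNReal.mul_lt_top hc ?_)
        exact ENNReal.sum_lt_top.2 fun i _ => hD1
      · intro ε hε n
        obtain ⟨u1, u2, u3⟩ := conv_test hρ (hf n) hε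
        refine (hloc _ u1.continuous.aestronglyMeasurable).trans ?_
        rw [mul_assoc, mul_assoc]
        gcongr
        refine (hsob _ u1 u2).trans ?_
        gcongr
        rw [Finset.sum_mul]
        refine Finset.sum_le_sum fun i _ => ?_
        rw [funext (u3 i)]
        exact hDi i n ε hε
      · intro ε hε
        refine conv_tend hρ hρ1 (fun n => (hf n).1.continuous) hq0' hbig (fun n => ?_) ?_ hε M
        · rw [eLpNorm_congr_ae (hUf n).symm]
          refine ((hF _).2.1).trans ?_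
          gcongr
          exact hκe n
        · intro φ hφ
          refine (hκw (Rs s φ)).congr fun n => ?_
          rw [← (hF (κ n)).1.2 φ hφ]
          refine integral_congr_ae ?_
          filter_upwards [hUf n] with x hx
          rw [hx]
    refine h1.congr fun n => ?_
    refine eLpNorm_congr_ae ?_
    filter_upwards [hUf n] with x hx
    by_cases hxB : x ∈ Metric.ball (0 : E) M
    · rw [indicator_of_mem hxB, indicator_of_mem hxB, hx]
    · rw [indicator_of_notMem hxB, indicator_of_notMem hxB]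
  · refine red (X := fun k => DU s k i) hq1 (fun k => ((hF k).2.2.2.2.1 i).1)
      (fun k => ((hF k).2.2.2.2.1 i).2.2) (fun k k' => (hLin 1 k k').2.2 i) hd M ?_
    have h1 : Tendsto (fun n => eLpNorm ((Metric.ball (0 : E) M).indicator (pd i (f n))) 2 volume)
        atTop (𝓝 0) := by
      refine comb (G := fun ε n x => ∫ y, ρ y * pd i (f n) (x - ε • y)) hD1 hBm
        (fun n => (hpdt i _ (hf n)).1.continuous.aestronglyMeasurable)
        (fun ε _ n => hcont _ (hpdt i _ (hf n)).1.continuous ε) hτ ?_ ?_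
      · intro ε hε n
        exact (eLpNorm_indicator_le _).trans (hDi i n ε hε)
      · intro ε hε
        refine conv_tend hρ hρ1 (fun n => (hpdt i _ (hf n)).1.continuous) hq1' hbig
          (fun n => ?_) ?_ hε M
        · rw [eLpNorm_congr_ae (hDf n i).symm]
          refine (((hF _).2.2.2.2.1 i).2.2).trans ?_
          gcongr
          exact hκe n
        · intro φ hφ
          have h2 := (hκw (Rs s (pd i φ))).neg
          rw [neg_zero] at h2
          refine h2.congr fun n => ?_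
          rw [← (hF (κ n)).1.2 _ (hpdt i φ hφ), ((hF (κ n)).2.2.2.2.1 i).2.1 φ hφ, neg_neg]
          refine integral_congr_ae ?_
          filter_upwards [hDf n i] with x hx
          rw [hx]
    refine h1.congr fun n => ?_
    refine eLpNorm_congr_ae ?_
    filter_upwards [hDf n i] with x hx
    by_cases hxB : x ∈ Metric.ball (0 : E) M
    · rw [indicator_of_mem hxB, indicator_of_mem hxB, hx]
    · rw [indicator_of_notMem hxB, indicator_of_notMem hxB]
  · refine red (X := V s) hq1 (fun k => (hF k).2.2.1.1) (fun k => (hF k).2.2.2.1)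
      (fun k k' => (hLin 1 k k').2.1) hd M ?_
    have h1 : Tendsto (fun n => eLpNorm ((Metric.ball (0 : E) M).indicator (g n)) 2 volume)
        atTop (𝓝 0) := by
      refine comb (G := fun ε n x => ∫ y, ρ y * g n (x - ε • y)) hD1 hBm
        (fun n => (hg n).1.continuous.aestronglyMeasurable)
        (fun ε _ n => hcont _ (hg n).1.continuous ε) hτ ?_ ?_
      · intro ε hε n
        exact (eLpNorm_indicator_le _).trans
          (hmolX _ _ (hVg n) ε hε n (hM (κ n) ε hε).2)
      · intro ε hε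
        refine conv_tend hρ hρ1 (fun n => (hg n).1.continuous) hq1' hbig (fun n => ?_) ?_ hε M
        · rw [eLpNorm_congr_ae (hVg n).symm]
          refine ((hF _).2.2.2.1).trans ?_
          gcongr
          exact hκe n
        · intro φ hφ
          refine (hκw (dRs s φ)).congr fun n => ?_
          rw [← (hF (κ n)).2.2.1.2 φ hφ]
          refine integral_congr_ae ?_
          filter_upwards [hVg n] with x hx
          rw [hx]
    refine h1.congr fun n => ?_
    refine eLpNorm_congr_ae ?_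
    filter_upwards [hVg n] with x hx
    by_cases hxB : x ∈ Metric.ball (0 : E) M
    · rw [indicator_of_mem hxB, indicator_of_mem hxB, hx]
    · rw [indicator_of_notMem hxB, indicator_of_notMem hxB]

end Pool.Agent.QWF
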