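import Pool.Agent.QWF.StG
import Pool.Agent.QWF.WkP

set_option autoImplicit false

/-!
# QWF / LocC: the local size (helper45)
-/

open MeasureTheory Filter Topology Set
open scoped ENNReal NNReal RealInnerProductSpace

namespace Pool.Agent.QWF

namespace LocCx

theorem sig_lt {b : ℝ} (hb : 4 < b) : |sig b| < 1 / 2 := by
  have h1 : 0 < 2 / b := by positivity
  have h2 : 2 / b < 1 := by rw [div_lt_one (by linarith)]; linarith
  rw [abs_lt, sig]
  constructor <;> linarith

theorem sig_pos {b : ℝ} (hb : 4 < b) : 0 < sig b := by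
  have h2 : 2 / b < 1 / 2 := by rw [div_lt_div_iff₀ (by linarith) (by norm_num)]; linarith
  rw [sig]
  linarith

/-- local norm of a linear field: bound and subadditivity -/
theorem fld {X : K → E → ℝ} {q : ℝ≥0∞} (hq : 2 ≤ q) {C : ℝ} (M : ℝ)
    (hX : ∀ k, MemLp (X k) q volume)
    (hXb : ∀ k, eLpNorm (X k) q volume ≤ ENNReal.ofReal C * ‖k‖ₑ)
    (hlin : ∀ k k', X (k + (1 : ℝ) • k') =ᵐ[volume] fun x => X k x + 1 * X k' x) :
    ∃ c : ℝ≥0∞, c < ⊤ ∧ ∀ k k' : K,
      eLpNorm ((Metric.ball (0 : E) M).indicator (X k)) 2 volume ≤ c * ‖k‖ₑ ∧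
      eLpNorm ((Metric.ball (0 : E) M).indicator (X (k + k'))) 2 volume ≤
        eLpNorm ((Metric.ball (0 : E) M).indicator (X k)) 2 volume +
        eLpNorm ((Metric.ball (0 : E) M).indicator (X k')) 2 volume := by
  obtain ⟨c, hc, hloc⟩ := WkPx.loc2 hq M
  refine ⟨c * ENNReal.ofReal C, ENNReal.mul_lt_top hc ENNReal.ofReal_lt_top, fun k k' => ⟨?_, ?_⟩⟩
  · refine (hloc _ (hX k).1).trans ?_
    rw [mul_assoc]
    gcongr
    exact hXb k
  · have h1 := hlin k k'
    rw [one_smul] at h1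
    have h2 : (Metric.ball (0 : E) M).indicator (X (k + k')) =ᵐ[volume]
        (Metric.ball (0 : E) M).indicator (X k) + (Metric.ball (0 : E) M).indicator (X k') := by
      filter_upwards [h1] with x hx
      by_cases hxB : x ∈ Metric.ball (0 : E) M
      · rw [Pi.add_apply, indicator_of_mem hxB, indicator_of_mem hxB, indicator_of_mem hxB, hx,
          one_mul]
      · rw [Pi.add_apply, indicator_of_notMem hxB, indicator_of_notMem hxB,
          indicator_of_notMem hxB, add_zero]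
    rw [eLpNorm_congr_ae h2]
    exact eLpNorm_add_le ((hX _).1.indicator measurableSet_ball)
      ((hX _).1.indicator measurableSet_ball) (by norm_num)

end LocCx

open LocCx in
theorem thm_LocC (hFld : St_FldP) (hWk : St_WkP) : St_LocC := by
  intro b m hb
  have hs := sig_lt hb
  have hs' := abs_lt.1 hs
  obtain ⟨C, hC, hF, hLin, hT⟩ := hFld (sig b) hs
  have hq0 : 2 ≤ q0 (sig b) := by
    rw [q0, show (2 : ℝ≥0∞) = ENNReal.ofReal 2 by norm_num]
    refine ENNReal.ofReal_le_ofReal ?_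
    rw [le_div_iff₀ (by linarith)]
    linarith
  have hq1 : 2 ≤ q1 (sig b) := by
    rw [q1, show (2 : ℝ≥0∞) = ENNReal.ofReal 2 by norm_num]
    refine ENNReal.ofReal_le_ofReal ?_
    rw [le_div_iff₀ (by linarith)]
    linarith
  obtain ⟨cU, hcU, hU⟩ := fld (X := U (sig b)) hq0 m (fun k => (hF k).1.1) (fun k => (hF k).2.1)
    (fun k k' => (hLin 1 k k').1)
  have hD' : ∀ i, ∃ c : ℝ≥0∞, c < ⊤ ∧ ∀ k k' : K,
      eLpNorm ((Metric.ball (0 : E) m).indicator (DU (sig b) k i)) 2 volume ≤ c * ‖k‖ₑ ∧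
      eLpNorm ((Metric.ball (0 : E) m).indicator (DU (sig b) (k + k') i)) 2 volume ≤
        eLpNorm ((Metric.ball (0 : E) m).indicator (DU (sig b) k i)) 2 volume +
        eLpNorm ((Metric.ball (0 : E) m).indicator (DU (sig b) k' i)) 2 volume := fun i =>
    fld (X := fun k => DU (sig b) k i) hq1 m (fun k => ((hF k).2.2.2.2.1 i).1)
      (fun k => ((hF k).2.2.2.2.1 i).2.2) (fun k k' => (hLin 1 k k').2.2 i)
  choose cD hcD hD using hD'
  obtain ⟨D, hD0⟩ : ∃ D : ℝ≥0∞, D = cU + ∑ i, cD i := ⟨_, rfl⟩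
  have hDt : D < ⊤ := by
    rw [hD0]
    exact ENNReal.add_lt_top.2 ⟨hcU, ENNReal.sum_lt_top.2 fun i _ => hcD i⟩
  have hbd : ∀ k : K, loc b m k ≤ D * ‖k‖ₑ := by
    intro k
    rw [hD0, add_mul, Finset.sum_mul, loc]
    exact add_le_add (hU k 0).1 (Finset.sum_le_sum fun i _ => (hD i k 0).1)
  have hsub : ∀ k k' : K, loc b m (k + k') ≤ loc b m k + loc b m k' := by
    intro k k'
    have h1 : ∀ a1 a2 b1 b2 : ℝ≥0∞, a1 + a2 + (b1 + b2) =
        (a1 + b1) + (a2 + b2) := by intros; ring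
    rw [loc, loc, loc, h1]
    refine add_le_add (hU k k').2 ?_
    rw [← Finset.sum_add_distrib]
    exact Finset.sum_le_sum fun i _ => (hD i k k').2
  refine ⟨⟨D.toReal + 1, by positivity, fun k k' => ⟨(hbd k).trans ?_, hsub k k'⟩⟩, ?_, ?_⟩
  · gcongr
    rw [ENNReal.ofReal_add (by positivity) (by norm_num), ENNReal.ofReal_toReal hDt.ne]
    exact le_self_add
  · refine continuous_of_le_add_edist D hDt.ne fun k k' => ?_
    have h1 : k = k' + (k - k') := by abel
    calc loc b m k = loc b m (k' + (k - k')) := by rw [← h1]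
      _ ≤ loc b m k' + loc b m (k - k') := hsub _ _
      _ ≤ loc b m k' + D * edist k k' := by
          gcongr
          rw [edist_eq_enorm_sub]
          exact hbd _
  · intro k hk
    obtain ⟨h1, h2, -⟩ := hWk (sig b) k m hs hk
    have h3 : Tendsto (fun n => ∑ i, eLpNorm ((Metric.ball (0 : E) m).indicator
        (DU (sig b) (k n) i)) 2 volume) atTop (𝓝 (∑ _i : Fin 4, 0)) :=
      tendsto_finsetSum _ fun i _ => h2 i
    rw [Finset.sum_const_zero] at h3
    have h4 := h1.add h3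
    rw [add_zero] at h4
    exact h4.congr fun n => rfl

end Pool.Agent.QWF
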