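import Pool.Agent.QWF.StG
import Pool.Agent.QWF.LocC

set_option autoImplicit false

/-!
# QWF, G10: dispersion (helper45)
-/

open MeasureTheory Filter Topology Set
open scoped ENNReal NNReal RealInnerProductSpace ContDiff

namespace Pool.Agent.QWF

namespace G10x

open LocCx (sig_lt sig_pos)

/-- The norm of a bounded function supported in a ball. -/
theorem ball_norm {q : ℝ} (hq : 0 < q) (h : E → ℝ) (R B : ℝ) (hR : 0 ≤ R)
    (h1 : ∀ x, |h x| ≤ B) (h2 : ∀ x, R < ‖x‖ → h x = 0) :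
    eLpNorm h (ENNReal.ofReal q) volume ≤
      ENNReal.ofReal (((volume (Metric.ball (0 : E) 1)).toReal * R ^ 4) ^ (1 / q) * B) := by
  have hv' : volume (Metric.ball (0 : E) 1) =
      ENNReal.ofReal (volume (Metric.ball (0 : E) 1)).toReal := by
    rw [ENNReal.ofReal_toReal measure_ball_lt_top.ne]
  have e1 : h = (Metric.closedBall (0 : E) R).indicator h := by
    funext x
    by_cases hx : x ∈ Metric.closedBall (0 : E) R
    · rw [indicator_of_mem hx]
    · rw [indicator_of_notMem hx]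
      apply h2
      rw [mem_closedBall_zero_iff, not_le] at hx
      exact hx
  rw [e1, eLpNorm_indicator_eq_eLpNorm_restrict measurableSet_closedBall]
  have e2 := eLpNorm_le_of_ae_bound (p := ENNReal.ofReal q) (f := h) (C := B)
    (μ := volume.restrict (Metric.closedBall (0 : E) R)) (Eventually.of_forall h1)
  refine e2.trans (le_of_eq ?_)
  rw [Measure.restrict_apply_univ, Measure.addHaar_closedBall _ _ hR,
    ENNReal.toReal_ofReal hq.le, ENNReal.ofReal_mul (by positivity), inv_eq_one_div,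
    ← ENNReal.ofReal_rpow_of_nonneg (by positivity) (by positivity), finrank_euclideanSpace_fin]
  congr 2
  rw [hv', ← ENNReal.ofReal_mul (by positivity), ENNReal.toReal_ofReal (by positivity)]
  congr 1
  ring

/-- the bound tends to zero -/
theorem bound_tend {q : ℝ} (hq : 8 / 3 < q) (v M0 C : ℝ) (hv : 0 ≤ v) (hM : 1 ≤ M0) (hC : 0 ≤ C) :
    Tendsto (fun t : ℝ => ENNReal.ofReal ((v * (t + M0) ^ 4) ^ (1 / q) *
      (C / (1 + |t|) ^ (3 / 2 : ℝ)))) atTop (𝓝 0) := by
  have hq0 : 0 < q := by linarith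
  have h4 : 0 < 3 / 2 - 4 / q := by
    have : 4 / q < 3 / 2 := by
      rw [div_lt_iff₀ hq0]
      linarith
    linarith
  have hmain : Tendsto (fun t : ℝ => (16 * v) ^ (1 / q) * C * t ^ (-(3 / 2 - 4 / q))) atTop
      (𝓝 0) := by
    have := (tendsto_rpow_neg_atTop h4).const_mul ((16 * v) ^ (1 / q) * C)
    rwa [mul_zero] at this
  have h5 : Tendsto (fun t : ℝ => (v * (t + M0) ^ 4) ^ (1 / q) *
      (C / (1 + |t|) ^ (3 / 2 : ℝ))) atTop (𝓝 0) := by
    refine squeeze_zero' ?_ ?_ hmain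
    · exact Eventually.of_forall fun t => by positivity
    · filter_upwards [eventually_ge_atTop M0] with t ht
      have htp : 0 < t := by linarith
      have h6 : C / (1 + |t|) ^ (3 / 2 : ℝ) ≤ C * t ^ (-(3 / 2 : ℝ)) := by
        rw [Real.rpow_neg htp.le, ← div_eq_mul_inv, abs_of_pos htp]
        gcongr
        linarith
      have h7 : (v * (t + M0) ^ 4) ^ (1 / q) ≤ (16 * v) ^ (1 / q) * t ^ (4 / q) := by
        have h8 : v * (t + M0) ^ 4 ≤ (16 * v) * t ^ 4 := by
          have h9 : (t + M0) ^ 4 ≤ (2 * t) ^ 4 := by gcongr; linarith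
          have h10 : v * (t + M0) ^ 4 ≤ v * (2 * t) ^ 4 := mul_le_mul_of_nonneg_left h9 hv
          refine h10.trans (le_of_eq ?_)
          ring
        calc (v * (t + M0) ^ 4) ^ (1 / q) ≤ ((16 * v) * t ^ 4) ^ (1 / q) :=
              Real.rpow_le_rpow (by positivity) h8 (by positivity)
          _ = (16 * v) ^ (1 / q) * t ^ (4 / q) := by
              rw [Real.mul_rpow (by positivity) (by positivity), ← Real.rpow_natCast t 4,
                ← Real.rpow_mul htp.le]
              congr 2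
              push_cast
              ring
      calc (v * (t + M0) ^ 4) ^ (1 / q) * (C / (1 + |t|) ^ (3 / 2 : ℝ)) ≤
          ((16 * v) ^ (1 / q) * t ^ (4 / q)) * (C * t ^ (-(3 / 2 : ℝ))) := by gcongr
        _ = (16 * v) ^ (1 / q) * C * (t ^ (4 / q) * t ^ (-(3 / 2 : ℝ))) := by ring
        _ = (16 * v) ^ (1 / q) * C * t ^ (-(3 / 2 - 4 / q)) := by
            rw [← Real.rpow_add htp]
            congr 2
            ring
  rw [← ENNReal.ofReal_zero]
  exact (ENNReal.continuous_ofReal.tendsto 0).comp h5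

theorem q1_gt {b : ℝ} (hb : 4 < b) : 8 / 3 < 8 / (3 - 2 * sig b) := by
  have h := abs_lt.1 (sig_lt hb)
  have h2 := sig_pos hb
  have h1 : 0 < 3 - 2 * sig b := by linarith
  rw [lt_div_iff₀ h1]
  linarith

theorem ifd_pd {φ : E → ℝ} (h : IsTest φ) (i : Fin 4) (m : ℕ) (x : E) :
    ‖iteratedFDeriv ℝ m (pd i φ) x‖ ≤ ‖iteratedFDeriv ℝ (m + 1) φ x‖ := by
  have hs : ContDiff ℝ ((⊤ : ℕ∞) : WithTop ℕ∞) (fderiv ℝ φ) :=
    ContDiff.fderiv_right h.1 (by exact_mod_cast le_top)
  have h1 := norm_iteratedFDeriv_clm_apply_const (N := ((⊤ : ℕ∞) : WithTop ℕ∞)) (n := m)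
    (f := fderiv ℝ φ) (x := x) (c := (EuclideanSpace.single i (1 : ℝ) : E))
    hs.contDiffAt (by exact_mod_cast le_top)
  rw [norm_iteratedFDeriv_fderiv] at h1
  have h2 : ‖(EuclideanSpace.single i (1 : ℝ) : E)‖ = 1 := by simp
  rw [h2, one_mul] at h1
  exact h1

theorem pd_zero {f : E → ℝ} {R : ℝ} (h : ∀ x, R ≤ ‖x‖ → f x = 0) (i : Fin 4) (x : E)
    (hx : R < ‖x‖) : pd i f x = 0 := by
  have h1 : f =ᶠ[𝓝 x] fun _ => 0 := by
    have h2 : {y : E | R < ‖y‖} ∈ 𝓝 x :=
      (isOpen_lt continuous_const continuous_norm).mem_nhds hx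
    filter_upwards [h2] with y hy
    exact h y (le_of_lt hy)
  unfold pd
  rw [h1.fderiv_eq]
  simp

/-- decay of the norms of the derivatives -/
theorem tn_test (hDec : St_DecayP) (hF : St_FldP) {b : ℝ} (hb : 4 < b)
    (f g : E → ℝ) (hf : IsTest f) (hg : IsTest g) :
    Tendsto (fun t => tn b (tau t (Theta (sig b) f g))) atTop (𝓝 0) := by
  obtain ⟨C, M0, hC, hM0, hdec⟩ := hDec f g hf hg
  obtain ⟨hs1, hs2⟩ := abs_lt.1 (sig_lt hb)
  unfold tn
  rw [← Finset.sum_const_zero (s := (Finset.univ : Finset (Fin 4)))]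
  refine tendsto_finsetSum _ fun i _ => ?_
  refine tendsto_of_tendsto_of_tendsto_of_le_of_le' tendsto_const_nhds
    (bound_tend (q1_gt hb) (volume (Metric.ball (0 : E) 1)).toReal M0 C (by positivity) hM0 hC.le)
    (Eventually.of_forall fun _ => bot_le) ?_
  filter_upwards [eventually_ge_atTop (1 : ℝ)] with t ht
  have htp : 0 < t := by linarith
  obtain ⟨f', g', hf', hg', hfg', hsupp, hbd⟩ := hdec t
  rw [hfg' _ (by linarith) hs2]
  obtain ⟨-, -, -, -, hth⟩ := hF (sig b) (sig_lt hb)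
  rw [eLpNorm_congr_ae ((hth f' g' hf' hg').2.2 i)]
  have h1 : ∀ x, |pd i f' x| ≤ C / (1 + |t|) ^ (3 / 2 : ℝ) := by
    intro x
    have h0 : |pd i f' x| = ‖iteratedFDeriv ℝ 0 (pd i f') x‖ := by
      rw [norm_iteratedFDeriv_zero, Real.norm_eq_abs]
    rw [h0]
    exact (ifd_pd hf' i 0 x).trans (hbd x 1 (by norm_num)).1
  have h2 : ∀ x, t + M0 < ‖x‖ → pd i f' x = 0 := fun x hx =>
    pd_zero (R := t + M0) (fun y hy => (hsupp y (by rwa [abs_of_pos htp])).1) i x hx
  exact ball_norm (by linarith [q1_gt hb] : (0 : ℝ) < 8 / (3 - 2 * sig b)) (pd i f') (t + M0)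
    (C / (1 + |t|) ^ (3 / 2 : ℝ)) (by linarith) h1 h2

theorem tn_add (hF : St_FldP) {b : ℝ} (hb : 4 < b) (k k' : K) :
    tn b (k + k') ≤ tn b k + tn b k' := by
  unfold tn
  obtain ⟨_, _, hfl, hlin, -⟩ := hF (sig b) (sig_lt hb)
  rw [← Finset.sum_add_distrib]
  refine Finset.sum_le_sum fun i _ => ?_
  have h1 := (hlin 1 k k').2.2 i
  rw [one_smul] at h1
  rw [eLpNorm_congr_ae h1]
  have h2 : (fun x => DU (sig b) k i x + 1 * DU (sig b) k' i x) =
      DU (sig b) k i + DU (sig b) k' i := by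
    funext x
    rw [one_mul]
    rfl
  rw [h2]
  refine eLpNorm_add_le ((hfl k).2.2.2.2.1 i).1.aestronglyMeasurable
    ((hfl k').2.2.2.2.1 i).1.aestronglyMeasurable ?_
  unfold q1
  rw [← ENNReal.ofReal_one]
  exact ENNReal.ofReal_le_ofReal (by linarith [q1_gt hb])

end G10x

open G10x in
/-- **G10** (dispersion) -/
theorem thm_G10 (hDec : St_DecayP) (hDns : St_DnsP) (hF : St_FldP)
    (hNLd : St_NLd) (hG : St_Grp1) : St_G10 := by
  intro b hb
  refine ⟨fun k k' => tn_add hF hb k k', fun k kp hlim => ?_⟩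
  obtain ⟨hs1, hs2⟩ := abs_lt.1 (LocCx.sig_lt hb)
  obtain ⟨C, hC, htn, -⟩ := hNLd b hb
  obtain ⟨g1, g2, -⟩ := hG
  rw [ENNReal.tendsto_nhds_zero]
  intro ε hε
  by_cases hεt : ε = ⊤
  · exact Eventually.of_forall fun t => by rw [hεt]; exact le_top
  obtain ⟨e, he⟩ : ∃ e, e = ε.toReal := ⟨_, rfl⟩
  have he0 : 0 < e := by rw [he]; exact ENNReal.toReal_pos hε.ne' hεt
  have heε : ENNReal.ofReal e = ε := by rw [he]; exact ENNReal.ofReal_toReal hεt
  obtain ⟨f, g, hf, hg, hfg⟩ := (hDns (sig b) (by linarith) hs2).2.1 kp (e / (4 * C))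
    (by positivity)
  have hmain := tn_test hDec hF hb f g hf hg
  rw [ENNReal.tendsto_nhds_zero] at hmain
  have hev1 := hmain (ENNReal.ofReal (e / 2)) (ENNReal.ofReal_pos.2 (by positivity))
  have hev2 : ∀ᶠ t in atTop, ‖tau (-t) (k t) - kp‖ < e / (4 * C) := by
    have := Metric.tendsto_nhds.1 hlim (e / (4 * C)) (by positivity)
    refine this.mono fun t ht => ?_
    rwa [dist_eq_norm] at ht
  filter_upwards [hev1, hev2] with t ht1 ht2
  obtain ⟨w, hw⟩ : ∃ w : K, w = k t - tau t (Theta (sig b) f g) := ⟨_, rfl⟩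
  have hkt : k t = tau t (Theta (sig b) f g) + w := by
    rw [hw]; abel
  have hwn : ‖w‖ ≤ e / (2 * C) := by
    have h1 : w = tau t (tau (-t) (k t) - Theta (sig b) f g) := by
      rw [hw, map_sub, g1, add_neg_cancel, g2]
    rw [h1, LinearIsometry.norm_map]
    have h2 : tau (-t) (k t) - Theta (sig b) f g =
        (tau (-t) (k t) - kp) + (kp - Theta (sig b) f g) := by abel
    rw [h2]
    refine (norm_add_le _ _).trans ?_
    have h3 : e / (2 * C) = e / (4 * C) + e / (4 * C) := by field_simp; norm_num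
    rw [h3]
    exact add_le_add ht2.le hfg.le
  have hwe : tn b w ≤ ENNReal.ofReal (e / 2) := by
    refine (htn w).trans ?_
    rw [← ofReal_norm, ← ENNReal.ofReal_mul hC.le]
    apply ENNReal.ofReal_le_ofReal
    calc C * ‖w‖ ≤ C * (e / (2 * C)) := by gcongr
      _ = e / 2 := by field_simp
  rw [hkt]
  refine (tn_add hF hb _ _).trans ((add_le_add ht1 hwe).trans (le_of_eq ?_))
  rw [← ENNReal.ofReal_add (by positivity) (by positivity), ← heε]
  congr 1
  ring

end Pool.Agent.QWF
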