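import Pool.Agent.QWF.StA

set_option autoImplicit false

/-!
# QWF, block D: subluminality (`d = 4`, `b > 4`)

Port of `QWP/StD.lean` (all modules are proved in `Pool/Agent/QWP`, Intp in `Pool/Agent/QWE`): the proofs are the same. `|sig b| < 1/2`
for `b > 4` (`abs_sig_lt`, below).
-/

open MeasureTheory Filter Topology Set
open scoped ENNReal NNReal RealInnerProductSpace

namespace Pool.Agent.QWF

/-- **HBP** (half spaces). Copy QWP/HBP.lean. -/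
def St_HBP : Prop := ∀ s : ℝ, |s| < 1 / 2 →
  (∀ (e : E) (c : ℝ), IsOpen (half e c)) ∧
  (∀ (e : E) (c c' : ℝ) (k : K), c ≤ c' → ex s (half e c') k ≤ ex s (half e c) k) ∧
  (∀ (e : E) (c : ℝ), ‖e‖ = 1 → half e c ⊆ xt 0 c ∧ Metric.ball 0 c ⊆ half e (-c)) ∧
  (∀ (e : E) (c t : ℝ), ‖e‖ = 1 → 0 ≤ t → shr (half e c) t = half e (c + t)) ∧
  (∀ (e y : E) (c a : ℝ) (k : K),
    ex s (half e c) (gr y a k) = ex s (half e (Real.exp a * (c - inner ℝ y e))) k) ∧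
  (∀ (e : E) (c t : ℝ) (k : K), ‖e‖ = 1 →
    ex s (half e (c - t)) k ≤ ex s (half e c) k + ‖sh (t • e) k - k‖)

/-- **HcpP** (uniformity on compact sets). Copy QWP/HcpP.lean. -/
def St_HcpP : Prop := ∀ (s : ℝ) (Q : Set K) (d : ℝ), |s| < 1 / 2 → IsCompact Q → 0 < d → ∃ C0 : ℝ, 0 < C0 ∧
  ∀ κ ∈ Q, ∀ e : E, ‖e‖ = 1 → ex s (half e C0) κ ≤ d ∧ ‖κ‖ - d ≤ ex s (half e (-C0)) κ

/-- **HscP** (semicontinuity in all variables). Copy QWP/HscP.lean. -/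
def St_HscP : Prop := ∀ s : ℝ, |s| < 1 / 2 →
  (∀ (W : ℕ → K) (W' : K) (e : ℕ → E) (e' : E) (b : ℕ → ℝ) (b' b1 ε : ℝ),
    Tendsto W atTop (𝓝 W') → Tendsto e atTop (𝓝 e') → Tendsto b atTop (𝓝 b') → b1 < b' → 0 < ε →
    ∀ᶠ n in atTop, ex s (half (e n) (b n)) (W n) ≤ ex s (half e' b1) W' + ε) ∧
  (∀ (W : ℕ → K) (W' : K) (e : ℕ → E) (e' : E) (b : ℕ → ℝ) (b' d : ℝ),
    Tendsto W atTop (𝓝 W') → Tendsto e atTop (𝓝 e') → Tendsto b atTop (𝓝 b') →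
    (∀ n, ex s (half (e n) (b n)) (W n) ≤ d) → ex s (half e' b') W' ≤ d)

/-- **D2** (small data in a half space moving with speed one). Copy QWP/D2.lean. -/
def St_D2 : Prop := ∀ b : ℝ, 4 < b → ∃ d0 : ℝ, 0 < d0 ∧ ∀ (k : ℝ → K) (e : E) (c t0 : ℝ), IsSol b univ k → ‖e‖ = 1 →
  ex (sig b) (half e c) (k t0) ≤ d0 →
  (∀ t, t0 ≤ t → ex (sig b) (half e (c + (t - t0))) (k t) ≤ 2 * ex (sig b) (half e c) (k t0)) ∧
  Tendsto (fun t => ex (sig b) (half e (c + (t - t0))) (k t)) atTop (𝓝 0)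

/-- **D3** (gain over the speed of light). Copy QWP/D3.lean. -/
def St_D3 : Prop := ∀ b : ℝ, 4 < b → ∃ d0 : ℝ, 0 < d0 ∧
  ∀ (Q : Set K) (k : ℝ → K) (x : ℝ → E) (a : ℝ → ℝ) (d1 : ℝ), CSol b Q univ k x a →
  0 < d1 → d1 ≤ d0 → (∀ κ ∈ Q, d1 < ‖κ‖) → ∃ Tb s1 : ℝ, 0 < s1 ∧ s1 < Tb ∧
  ∀ (t : ℝ) (e : E) (c : ℝ), ‖e‖ = 1 → ex (sig b) (half e c) (k t) ≤ d1 →
    ex (sig b) (half e (c + (Tb - s1) * Real.exp (-(a t)))) (k (t + Tb * Real.exp (-(a t)))) ≤ d1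

/-- **D4** (speed of the centre). Copy QWP/D4.lean. -/
def St_D4 : Prop := ∀ b : ℝ, 4 < b → ∀ (Q : Set K) (k : ℝ → K) (x : ℝ → E) (a : ℝ → ℝ), NSol b Q k x a →
  ∃ kap C : ℝ, 0 < kap ∧ kap < 1 ∧ ∀ s t, dist (x t) (x s) ≤ (1 - kap) * |t - s| + C

/-- **Intp** (interpolation; elementary). Copy QWE/Intp.lean. -/
def St_Intp : Prop := ∀ (x : ℝ → E) (kap C : ℝ), 0 < kap → kap < 1 →
  (∀ s t, dist (x t) (x s) ≤ (1 - kap) * |t - s| + C) →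
  ∃ (y : ℝ → E) (kap' C' : ℝ), 0 < kap' ∧ kap' < 1 ∧
    (∀ s t, dist (y t) (y s) ≤ (1 - kap') * |t - s|) ∧ ∀ t, dist (x t) (y t) ≤ C'

/-- `s = 1/2 - 2/b` is in `(0, 1/2)`. -/
lemma sig_pos {b : ℝ} (hb : 4 < b) : 0 < sig b := by
  unfold sig
  have h2 : 2 / b < 1 / 2 := by rw [div_lt_div_iff₀ (by linarith) (by norm_num)]; linarith
  linarith

lemma sig_lt {b : ℝ} (hb : 4 < b) : sig b < 1 / 2 := by
  unfold sig
  have h1 : 0 < 2 / b := by positivity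
  linarith

lemma abs_sig_lt {b : ℝ} (hb : 4 < b) : |sig b| < 1 / 2 := by
  rw [abs_lt]; exact ⟨by linarith [sig_pos hb], sig_lt hb⟩

end Pool.Agent.QWF
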