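import Pool.Agent.QWF.StG
import Pool.Agent.QWF.StC0
import Pool.Agent.QWF.StC

set_option autoImplicit false

/-!
# QWF, G16: a two sided compact solution
-/

open MeasureTheory Filter Topology Set
open scoped ENNReal NNReal RealInnerProductSpace

namespace Pool.Agent.QWF


namespace G16x

/-- A solution with the same value at one time is a restriction of the maximal solution. -/
lemma max_sub {p : ℝ} (hp : 4 < p) (hM : St_MaxE) {I J : Set ℝ} {k k' : ℝ → K} {t0 : ℝ} (hI : IsMax p I k) (h0 : t0 ∈ I)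
    (hJ : IsSol p J k') (h1 : t0 ∈ J) (h : k' t0 = k t0) : J ⊆ I ∧ ∀ t ∈ J, k' t = k t := by
  obtain ⟨Im, km, hm, hm0, hkm, hall⟩ := hM p hp (k t0) t0
  obtain ⟨h2, h3⟩ := hall I k hI.1 h0 rfl
  obtain ⟨h4, h5⟩ := hall J k' hJ h1 h
  have h6 : Im ⊆ I := hI.2.2.2 Im km hm.1 h2 fun t ht => (h3 t ht).symm
  exact ⟨h4.trans h6, fun t ht => by rw [h5 t ht, ← h3 t (h6 (h4 ht))]⟩

/-- A sequence exhausting the forward part of the lifespan. -/
lemma exists_seq {I : Set ℝ} (hI : I.OrdConnected) (ho : IsOpen I) (h0 : (0 : ℝ) ∈ I) :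
    ∃ t : ℕ → ℝ, (∀ n, t n ∈ I ∧ 0 ≤ t n) ∧ ∀ T ∈ I, ∀ᶠ n in atTop, T ≤ t n := by
  by_cases hb : BddAbove I
  · obtain ⟨u, -, hu, huI⟩ := exists_seq_tendsto_sSup ⟨0, h0⟩ hb
    refine ⟨fun n => max (u n) 0, fun n => ⟨?_, le_max_right _ _⟩, fun T hT => ?_⟩
    · show max (u n) 0 ∈ I
      rcases le_total (u n) 0 with h | h
      · rw [max_eq_right h]; exact h0
      · rw [max_eq_left h]; exact huI n
    · have hlt : T < sSup I := by
        obtain ⟨ε, hε, hball⟩ := Metric.isOpen_iff.1 ho T hT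
        have : T + ε / 2 ∈ I := hball (by
          rw [Metric.mem_ball, Real.dist_eq]
          have : T + ε / 2 - T = ε / 2 := by ring
          rw [this, abs_of_pos (by linarith)]; linarith)
        have := le_csSup hb this
        linarith
      filter_upwards [hu.eventually (lt_mem_nhds hlt)] with n hn
      exact hn.le.trans (le_max_left _ _)
  · refine ⟨fun n => n, fun n => ⟨?_, Nat.cast_nonneg n⟩, fun T hT => ?_⟩
    · rw [not_bddAbove_iff] at hb
      obtain ⟨y, hy, hny⟩ := hb n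
      exact hI.out h0 hy ⟨Nat.cast_nonneg n, hny.le⟩
    · exact (tendsto_natCast_atTop_atTop.eventually (eventually_ge_atTop T))

end G16x

open G16x in
theorem thm_G16 (h15 : St_G15) (hL : St_GLim) (hBd : St_GBd) (hC : St_C1a) (hSt : St_Stab)
    (hM : St_MaxE) (hSc : St_ScM) (hN : St_SNc) (hW : St_WkS) (hG : St_GrA) : St_G16 := by
  classical
  intro p hp Ac I a hcr
  replace h15 := h15 p hp
  replace hC := hC p hp
  replace hSt := hSt p hp
  replace hSc := hSc p hp
  replace hN := hN p hp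
  obtain ⟨Q, x, b, hQc, hQ0, hQ⟩ := h15 Ac I a hcr
  obtain ⟨-, hIm, h0I, -, -⟩ := hcr
  obtain ⟨c, hc, hC1⟩ := hC Q hQc
  -- values of the rescaled solutions at `0`
  have hmem : ∀ t ∈ I, 0 ≤ t → resc a t (x t) (b t) 0 ∈ Q := by
    intro t ht h0
    obtain ⟨κ, hκ, hak⟩ := hQ t ht h0
    have : resc a t (x t) (b t) 0 = κ := by
      unfold resc
      rw [zero_mul, add_zero, hak]
      exact (hG.2.2.1 _ _ _).2
    rw [this]; exact hκ
  -- lifespan
  have hlife : ∀ t ∈ I, 0 ≤ t → t + c * Real.exp (-(b t)) ∈ I := by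
    intro t ht h0
    obtain ⟨k', hk', hk0⟩ := hC1 _ (hmem t ht h0)
    have hm := (hSc I a t (x t) (b t)).2.1 hIm
    have h1 : (0 : ℝ) ∈ {s : ℝ | t + s * Real.exp (-(b t)) ∈ I} := by
      show t + 0 * Real.exp (-(b t)) ∈ I
      rw [zero_mul, add_zero]; exact ht
    have h2 := (max_sub hp hM hm h1 hk' ⟨by linarith, hc.le⟩ hk0).1 ⟨by linarith, le_rfl⟩
    exact h2
  obtain ⟨u, hu, huT⟩ := exists_seq hIm.1.1 hIm.2.1 h0I
  obtain ⟨κ, hκQ, ν, hν, hνlim⟩ := hQc.tendsto_subseq (fun n => hmem (u n) (hu n).1 (hu n).2)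
  set t : ℕ → ℝ := fun n => u (ν n) with ht
  have htI : ∀ n, t n ∈ I := fun n => (hu _).1
  have ht0 : ∀ n, 0 ≤ t n := fun n => (hu _).2
  have htT : ∀ T ∈ I, ∀ᶠ n in atTop, T ≤ t n := fun T hT =>
    hν.tendsto_atTop.eventually (huT T hT)
  set kn : ℕ → ℝ → K := fun n => resc a (t n) (x (t n)) (b (t n)) with hkn
  set In : ℕ → Set ℝ := fun n => {s : ℝ | t n + s * Real.exp (-(b (t n))) ∈ I} with hIn
  have hmaxn : ∀ n, IsMax p (In n) (kn n) := fun n => (hSc I a _ _ _).2.1 hIm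
  have h0n : ∀ n, (0 : ℝ) ∈ In n := fun n => by
    show t n + 0 * _ ∈ I
    rw [zero_mul, add_zero]; exact htI n
  have hkn0 : Tendsto (fun n => kn n 0) atTop (𝓝 κ) := hνlim
  obtain ⟨I', k, hk, h0', hk0, -⟩ := hM p hp κ 0
  have hκ0 : κ ≠ 0 := fun h => hQ0 (h ▸ hκQ)
  have hkne : ∀ s ∈ I', k s ≠ 0 := by
    intro s hs h
    have := hN.2.2.2.2.2 I' k s hk.1 hs h 0 h0'
    rw [hk0] at this
    exact hκ0 this
  -- uniform convergence on compact intervals
  have hstab : ∀ α β : ℝ, α ≤ 0 → 0 ≤ β → Icc α β ⊆ I' → ∀ ε : ℝ, 0 < ε →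
      ∀ᶠ n in atTop, Icc α β ⊆ In n ∧ ∀ s ∈ Icc α β, ‖kn n s - k s‖ < ε := by
    intro α β hα hβ hsub ε hε
    have hsol : IsSol p (Icc α β) k := hN.1 _ _ _ hk.1 hsub ordConnected_Icc
    obtain ⟨k', hk1, hk2⟩ := hSt α β 0 k (fun n => kn n 0) hα hβ hsol (by rw [hk0]; exact hkn0)
    filter_upwards [hk1, hk2 ε hε] with n h1 h2
    obtain ⟨h3, h4⟩ := max_sub hp hM (hmaxn n) (h0n n) h1.1 ⟨hα, hβ⟩ h1.2
    exact ⟨h3, fun s hs => by rw [← h4 s hs]; exact h2.1 s hs⟩
  have hsubs : ∀ s ∈ I', Icc (min s 0) (max s 0) ⊆ I' := by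
    intro s hs z hz
    rcases le_total s 0 with h | h
    · rw [min_eq_left h, max_eq_right h] at hz; exact hk.1.1.out hs h0' hz
    · rw [min_eq_right h, max_eq_left h] at hz; exact hk.1.1.out h0' hs hz
  have hpt : ∀ s ∈ I', ∀ ε : ℝ, 0 < ε → ∀ᶠ n in atTop, s ∈ In n ∧ ‖kn n s - k s‖ < ε := by
    intro s hs ε hε
    have hsm : s ∈ Icc (min s 0) (max s 0) := ⟨min_le_left _ _, le_max_left _ _⟩
    filter_upwards [hstab _ _ (min_le_right _ _) (le_max_right _ _) (hsubs s hs) ε hε] with n hn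
    exact ⟨hn.1 hsm, hn.2 s hsm⟩
  -- the times stay nonnegative
  have hpos : ∀ s ∈ I', ∀ᶠ n in atTop, 0 ≤ t n + s * Real.exp (-(b (t n))) := by
    intro s hs
    rcases le_or_gt 0 s with hs0 | hs0
    · exact Eventually.of_forall fun n => by
        have := ht0 n
        positivity
    by_contra hcon
    have hfr : ∃ᶠ n in atTop, t n + s * Real.exp (-(b (t n))) < 0 := by
      intro h
      exact hcon (h.mono fun n hn => not_lt.1 hn)
    obtain ⟨ρ, hρ, hρs⟩ := extraction_of_frequently_atTop hfr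
    set σ : ℕ → ℝ := fun n => -(t (ρ n) * Real.exp (b (t (ρ n)))) with hσ
    have hσm : ∀ n, σ n ∈ Icc s 0 := by
      intro n
      have h1 := hρs n
      have h2 := Real.exp_pos (b (t (ρ n)))
      have h3 : (t (ρ n) + s * Real.exp (-(b (t (ρ n))))) * Real.exp (b (t (ρ n))) < 0 :=
        mul_neg_of_neg_of_pos h1 h2
      have h4 : Real.exp (-(b (t (ρ n)))) * Real.exp (b (t (ρ n))) = 1 := by
        rw [← Real.exp_add]; simp
      refine ⟨?_, ?_⟩
      · have : t (ρ n) * Real.exp (b (t (ρ n))) + s < 0 := by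
          calc t (ρ n) * Real.exp (b (t (ρ n))) + s
              = (t (ρ n) + s * Real.exp (-(b (t (ρ n))))) * Real.exp (b (t (ρ n))) := by
                rw [add_mul, mul_assoc, h4, mul_one]
            _ < 0 := h3
        simp only [hσ]; linarith
      · have := ht0 (ρ n)
        simp only [hσ, Left.neg_nonpos_iff]; positivity
    obtain ⟨σ', hσ', ξ, hξ, hξlim⟩ := isCompact_Icc.tendsto_subseq hσm
    have hsub0 : Icc s 0 ⊆ I' := fun z hz => hk.1.1.out hs h0' hz
    -- the values converge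
    have hval : Tendsto (fun n => kn (ρ (ξ n)) (σ (ξ n))) atTop (𝓝 (k σ')) := by
      rw [Metric.tendsto_atTop']
      intro ε hε
      have hc1 : ContinuousWithinAt k (Icc s 0) σ' := (hk.1.2.1.mono hsub0) σ' hσ'
      have hc2 : Tendsto (fun n => k (σ (ξ n))) atTop (𝓝 (k σ')) :=
        hc1.tendsto.comp (tendsto_nhdsWithin_iff.2
          ⟨hξlim, Eventually.of_forall fun n => hσm (ξ n)⟩)
      have hc3 := (Metric.tendsto_nhds.1 hc2 (ε / 2) (by linarith))
      have hc4 := ((hρ.comp hξ).tendsto_atTop).eventually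
        (hstab s 0 hs0.le le_rfl hsub0 (ε / 2) (by linarith))
      have hc5 := hc3.and hc4
      rw [eventually_atTop] at hc5
      obtain ⟨N, hNN⟩ := hc5
      refine ⟨N, fun n hn => ?_⟩
      obtain ⟨h1, h2⟩ := hNN n (by omega)
      have h3 := h2.2 (σ (ξ n)) (hσm _)
      simp only [Function.comp] at h3
      calc dist (kn (ρ (ξ n)) (σ (ξ n))) (k σ')
          ≤ dist (kn (ρ (ξ n)) (σ (ξ n))) (k (σ (ξ n))) + dist (k (σ (ξ n))) (k σ') :=
            dist_triangle _ _ _
        _ < ε / 2 + ε / 2 := by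
            rw [dist_eq_norm]
            exact add_lt_add h3 h1
        _ = ε := by ring
    have hvaleq : ∀ n, kn (ρ (ξ n)) (σ (ξ n)) =
        gr (-(Real.exp (b (t (ρ (ξ n)))) • x (t (ρ (ξ n))))) (-(b (t (ρ (ξ n))))) (a 0) := by
      intro n
      have h4 : Real.exp (b (t (ρ (ξ n)))) * Real.exp (-(b (t (ρ (ξ n))))) = 1 := by
        rw [← Real.exp_add]; simp
      simp only [hkn, resc, ig, hσ]
      congr 2
      rw [neg_mul, mul_assoc, h4]; ring
    have hwt : WTo (fun n => gr (-(Real.exp (b (t (ρ (ξ n)))) • x (t (ρ (ξ n)))))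
        (-(b (t (ρ (ξ n))))) (a 0)) (k σ') := by
      have h5 := hW.2.2.2.2.2.1 _ _ hval
      intro w
      refine (h5 w).congr fun n => ?_
      show inner ℝ (kn (ρ (ξ n)) (σ (ξ n))) w = _
      rw [hvaleq]
    obtain ⟨B, hB⟩ := hBd {a 0} (fun _ => a 0) _ _ (k σ') isCompact_singleton (fun _ => rfl) hwt
      (hkne σ' (hsub0 hσ'))
    -- lower bound for the lifespan steps and upper bound for the times
    set γ : ℝ := c * Real.exp (-B) with hγ
    have hγp : 0 < γ := by positivity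
    have hstep : ∀ n, t (ρ (ξ n)) + γ ∈ I := by
      intro n
      have h6 := hlife _ (htI (ρ (ξ n))) (ht0 _)
      have h7 : b (t (ρ (ξ n))) ≤ B := by
        have := (hB n).1
        rw [abs_neg] at this
        exact (le_abs_self _).trans this
      refine hIm.1.1.out (htI (ρ (ξ n))) h6 ⟨by linarith, ?_⟩
      have : Real.exp (-B) ≤ Real.exp (-(b (t (ρ (ξ n))))) := Real.exp_le_exp.2 (by linarith)
      have := mul_le_mul_of_nonneg_left this hc.le
      linarith
    have hbdd : ∀ n, t (ρ (ξ n)) ≤ -s * Real.exp B := by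
      intro n
      have h6 := (hσm (ξ n)).1
      have h7 : -B ≤ b (t (ρ (ξ n))) := by
        have := (hB n).1
        rw [abs_neg] at this
        exact (abs_le.1 this).1
      have h8 : t (ρ (ξ n)) * Real.exp (-B) ≤ -s := by
        have h9 : Real.exp (-B) ≤ Real.exp (b (t (ρ (ξ n)))) := Real.exp_le_exp.2 h7
        have h10 := mul_le_mul_of_nonneg_left h9 (ht0 (ρ (ξ n)))
        simp only [hσ] at h6
        linarith
      have h11 : Real.exp (-B) * Real.exp B = 1 := by rw [← Real.exp_add]; simp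
      calc t (ρ (ξ n)) = t (ρ (ξ n)) * Real.exp (-B) * Real.exp B := by rw [mul_assoc, h11, mul_one]
        _ ≤ -s * Real.exp B := by gcongr
    have hba : BddAbove (range fun n => t (ρ (ξ n))) := ⟨_, by rintro _ ⟨n, rfl⟩; exact hbdd n⟩
    obtain ⟨y, ⟨n0, rfl⟩, hy⟩ := exists_lt_of_lt_csSup (range_nonempty fun n => t (ρ (ξ n)))
      (show sSup (range fun n => t (ρ (ξ n))) - γ < sSup (range fun n => t (ρ (ξ n))) by linarith)
    have hev := ((hρ.comp hξ).tendsto_atTop).eventually (htT _ (hstep n0))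
    obtain ⟨m, hm⟩ := hev.exists
    have hle : t (ρ (ξ m)) ≤ sSup (range fun n => t (ρ (ξ n))) := le_csSup hba ⟨m, rfl⟩
    simp only [Function.comp] at hm
    simp only at hy
    linarith
  -- every value of the limit is in the orbit of `Q`
  have hfin : ∀ s ∈ I', ∃ (y' : E) (b' : ℝ), ∃ κ' ∈ Q, k s = gr y' b' κ' := by
    intro s hs
    have hin : ∀ᶠ n in atTop, s ∈ In n := (hpt s hs 1 one_pos).mono fun n hn => hn.1
    obtain ⟨N, hNN⟩ := (hin.and (hpos s hs)).exists_forall_of_atTop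
    have hex : ∀ n, ∃ κ' ∈ Q, kn (n + N) s =
        gr (-(Real.exp (b (t (n + N))) • x (t (n + N))) +
          Real.exp (b (t (n + N))) • x (t (n + N) + s * Real.exp (-(b (t (n + N))))))
          (-(b (t (n + N))) + b (t (n + N) + s * Real.exp (-(b (t (n + N)))))) κ' := by
      intro n
      obtain ⟨h1, h2⟩ := hNN (n + N) (by omega)
      obtain ⟨κ', hκ', hak⟩ := hQ _ h1 h2
      refine ⟨κ', hκ', ?_⟩
      simp only [hkn, resc, ig]
      rw [hak, hG.1, neg_neg]
    choose κn hκn hkκ using hex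
    have hlim : Tendsto (fun n => gr (-(Real.exp (b (t (n + N))) • x (t (n + N))) +
          Real.exp (b (t (n + N))) • x (t (n + N) + s * Real.exp (-(b (t (n + N))))))
          (-(b (t (n + N))) + b (t (n + N) + s * Real.exp (-(b (t (n + N)))))) (κn n)) atTop
          (𝓝 (k s)) := by
      have h1 : Tendsto (fun n => kn n s) atTop (𝓝 (k s)) := by
        rw [Metric.tendsto_nhds]
        intro ε hε
        filter_upwards [hpt s hs ε hε] with n hn
        rw [dist_eq_norm]; exact hn.2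
      have h2 := (tendsto_add_atTop_iff_nat N).2 h1
      exact h2.congr fun n => hkκ n
    obtain ⟨-, -, y', b', κ', hκ', -, -, -, hfin⟩ := hL Q κn _ _ (k s) hQc hκn hlim (hkne s hs)
    exact ⟨y', b', κ', hκ', hfin⟩
  choose! x' b' hxb using hfin
  exact ⟨Q, I', k, x', b', hQc, hQ0, hk, hxb⟩

end Pool.Agent.QWF
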