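import Pool.Agent.QWF.StG
import Pool.Agent.QWF.StB

set_option autoImplicit false

/-!
# QWF / G2 (concentration)
-/

open MeasureTheory Filter Topology Set
open scoped ENNReal NNReal RealInnerProductSpace

namespace Pool.Agent.QWF


namespace G2x

theorem abs_sg {b : ℝ} (hb : 4 < b) : |sig b| < 1 / 2 := by
  rw [sig, abs_lt]
  have h1 : 0 < 2 / b := by positivity
  have h2 : 2 / b < 1 := by rw [div_lt_one (by linarith)]; linarith
  constructor <;> linarith

theorem q0_sig {b : ℝ} (hb : 4 < b) : q0 (sig b) = ENNReal.ofReal (4 * b / 2) := by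
  rw [q0, sig]
  congr 1
  have : b ≠ 0 := by linarith
  field_simp
  ring

/-- Lyapunov: `‖u‖_{4b}^b ≤ ‖u‖_{q0}^{(b-2)/2} ‖u‖_{r'}^{(b+2)/2}`. -/
theorem lyap {b : ℝ} (hb : 4 < b) {u : E → ℝ} (hu : AEStronglyMeasurable u volume) :
    eLpNorm u (ENNReal.ofReal (4 * b)) volume ^ b ≤ eLpNorm u (q0 (sig b)) volume ^ ((b - 2) / 2) *
      eLpNorm u (ENNReal.ofReal (b * (b + 2))) volume ^ ((b + 2) / 2) := by
  have hb0 : 0 < b := by linarith
  have hb2 : 0 < b - 2 := by linarith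
  have hpq : (b / (b - 2)).HolderConjugate (b / 2) := by
    rw [Real.holderConjugate_iff]
    refine ⟨by rw [lt_div_iff₀ hb2]; linarith, ?_⟩
    field_simp
    ring
  have hm : AEMeasurable (fun x => ‖u x‖ₑ) volume := hu.enorm
  have h1 := ENNReal.lintegral_mul_le_Lp_mul_Lq (volume : Measure E) hpq
    (f := fun x => ‖u x‖ₑ ^ (4 * (b - 2) / 2)) (g := fun x => ‖u x‖ₑ ^ (4 * (b + 2) / 2))
    (hm.pow_const _) (hm.pow_const _)
  have e1 : ∀ x, ((fun x => ‖u x‖ₑ ^ (4 * (b - 2) / 2)) * (fun x => ‖u x‖ₑ ^ (4 * (b + 2) / 2))) x =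
      ‖u x‖ₑ ^ (4 * b) := by
    intro x
    simp only [Pi.mul_apply]
    rw [← ENNReal.rpow_add_of_nonneg _ _ (by positivity) (by positivity)]
    congr 1; ring
  have e2 : ∀ x, (‖u x‖ₑ ^ (4 * (b - 2) / 2)) ^ (b / (b - 2)) = ‖u x‖ₑ ^ (4 * b / 2) := by
    intro x; rw [← ENNReal.rpow_mul]; congr 1; field_simp
  have e3 : ∀ x, (‖u x‖ₑ ^ (4 * (b + 2) / 2)) ^ (b / 2) = ‖u x‖ₑ ^ (b * (b + 2)) := by
    intro x; rw [← ENNReal.rpow_mul]; congr 1; ring
  simp only [e1, e2, e3] at h1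
  have n1 : ENNReal.ofReal (4 * b) ≠ 0 := by
    rw [Ne, ENNReal.ofReal_eq_zero, not_le]; positivity
  have n2 : ENNReal.ofReal (4 * b / 2) ≠ 0 := by
    rw [Ne, ENNReal.ofReal_eq_zero, not_le]; positivity
  have n3 : ENNReal.ofReal (b * (b + 2)) ≠ 0 := by
    rw [Ne, ENNReal.ofReal_eq_zero, not_le]; positivity
  rw [q0_sig hb, eLpNorm_eq_lintegral_rpow_enorm_toReal n1 ENNReal.ofReal_ne_top,
    eLpNorm_eq_lintegral_rpow_enorm_toReal n2 ENNReal.ofReal_ne_top,
    eLpNorm_eq_lintegral_rpow_enorm_toReal n3 ENNReal.ofReal_ne_top,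
    ENNReal.toReal_ofReal (by positivity), ENNReal.toReal_ofReal (by positivity),
    ENNReal.toReal_ofReal (by positivity), ← ENNReal.rpow_mul, ← ENNReal.rpow_mul,
    ← ENNReal.rpow_mul]
  have h2 := ENNReal.rpow_le_rpow h1 (by norm_num : (0 : ℝ) ≤ 1 / 4)
  rw [ENNReal.mul_rpow_of_nonneg _ _ (by norm_num : (0 : ℝ) ≤ 1 / 4), ← ENNReal.rpow_mul,
    ← ENNReal.rpow_mul] at h2
  have x1 : 1 / (4 * b) * b = 1 / 4 := by field_simp
  have x2 : 1 / (4 * b / 2) * ((b - 2) / 2) = 1 / (b / (b - 2)) * (1 / 4) := by field_simp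
  have x3 : 1 / (b * (b + 2)) * ((b + 2) / 2) = 1 / (b / 2) * (1 / 4) := by
    have : b + 2 ≠ 0 := by linarith
    field_simp
    ring
  rw [x1, x2, x3]
  exact h2

/-- Bound of the second Strichartz norm by Duhamel and Strichartz. -/
theorem bound2 (hStr : St_StrS) (hDuh : St_DuhI) (hNLb : St_NLb) (hMeas : St_Meas) (hFld : St_FldP)
    (hGrp : Pool.Agent.QWF.St_Grp1) {b : ℝ} (hb : 4 < b) :
    ∃ C : ℝ, 0 < C ∧ ∀ (A : ℝ), 0 ≤ A → ∀ (t0 t1 : ℝ) (k : ℝ → K), t0 ≤ t1 → IsSol b (Icc t0 t1) k →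
      (∀ t ∈ Icc t0 t1, ‖k t‖ ≤ A) → SN b (Icc t0 t1) k = 1 →
      ∫⁻ t in Icc t0 t1, eLpNorm (U (sig b) (k t)) (ENNReal.ofReal (b * (b + 2))) volume ^
        ((b + 2) / 2) ≤ ENNReal.ofReal (C * A ^ ((b + 2) / 2)) := by
  have hb0 : 0 < b := by linarith
  obtain ⟨C1, hC1, hS⟩ := hStr b hb
  obtain ⟨C2, hC2, hD⟩ := hDuh b hb
  obtain ⟨⟨C3, hC3, hN, -⟩, -⟩ := hNLb b hb
  obtain ⟨-, -, -, -, -, -, -, hcont, -⟩ := hGrp
  obtain ⟨CF, -, hfl, hlin, -⟩ := hFld (sig b) (abs_sg hb)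
  set m : ℝ := (b + 2) / 2 with hm
  set r' : ℝ≥0∞ := ENNReal.ofReal (b * (b + 2)) with hr'
  have hm1 : 1 ≤ m := by rw [hm]; linarith
  have hm0 : 0 ≤ m := by linarith
  have hr1 : 1 ≤ r' := by
    rw [hr', ENNReal.one_le_ofReal]
    nlinarith
  refine ⟨2 ^ (m - 1) * (C1 ^ m + (C2 * C3) ^ m), by positivity, ?_⟩
  intro A hA t0 t1 k h01 hsol hbd hSN
  obtain ⟨-, hkc, -, hduh⟩ := hsol
  have hms : MeasurableSet (Icc t0 t1) := measurableSet_Icc
  have hkm : AEStronglyMeasurable k (volume.restrict (Icc t0 t1)) :=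
    hkc.aestronglyMeasurable hms
  have hM := hMeas b hb k (Icc t0 t1) hms hkm
  have hsnm : AEMeasurable (fun r => sn b (k r)) (volume.restrict (Icc t0 t1)) := hM.1
  have hfin : ∀ᵐ r ∂(volume.restrict (Icc t0 t1)), sn b (k r) < ⊤ := by
    have h1 : ∀ᵐ r ∂(volume.restrict (Icc t0 t1)), sn b (k r) ^ b < ⊤ := by
      refine ae_lt_top' (hsnm.pow_const b) ?_
      change SN b (Icc t0 t1) k ≠ ⊤
      rw [hSN]; exact ENNReal.one_ne_top
    filter_upwards [h1] with r hr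
    by_contra hcon
    rw [not_lt, top_le_iff] at hcon
    rw [hcon, ENNReal.top_rpow_of_pos hb0] at hr
    exact lt_irrefl _ hr
  have hNm := hM.2.2 hfin
  -- integral of the norm of the nonlinearity
  have hNle : ∫⁻ r in Icc t0 t1, ‖NL b (k r)‖ₑ ≤ ENNReal.ofReal (C3 * A) := by
    calc ∫⁻ r in Icc t0 t1, ‖NL b (k r)‖ₑ
        ≤ ∫⁻ r in Icc t0 t1, ENNReal.ofReal (C3 * A) * sn b (k r) ^ b := by
          refine setLIntegral_mono_ae' hms (Eventually.of_forall fun r hr => ?_)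
          refine (hN (k r)).trans ?_
          rw [ENNReal.ofReal_mul hC3.le]
          have hkr : ‖k r‖ₑ ≤ ENNReal.ofReal A := by
            rw [← ofReal_norm]; exact ENNReal.ofReal_le_ofReal (hbd r hr)
          calc ENNReal.ofReal C3 * sn b (k r) ^ b * ‖k r‖ₑ
              ≤ ENNReal.ofReal C3 * sn b (k r) ^ b * ENNReal.ofReal A := by gcongr
            _ = ENNReal.ofReal C3 * ENNReal.ofReal A * sn b (k r) ^ b := by ring
      _ = ENNReal.ofReal (C3 * A) * SN b (Icc t0 t1) k := by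
          rw [lintegral_const_mul'' _ (hsnm.pow_const b)]; rfl
      _ = ENNReal.ofReal (C3 * A) := by rw [hSN, mul_one]
  have hNint : IntegrableOn (fun r => NL b (k r)) (Icc t0 t1) volume :=
    ⟨hNm, lt_of_le_of_lt hNle ENNReal.ofReal_lt_top⟩
  have hNr : ∫ r in Icc t0 t1, ‖NL b (k r)‖ ≤ C3 * A := by
    rw [integral_norm_eq_lintegral_enorm hNm]
    exact ENNReal.toReal_le_of_le_ofReal (by positivity) hNle
  have hNr0 : 0 ≤ ∫ r in Icc t0 t1, ‖NL b (k r)‖ := integral_nonneg fun r => norm_nonneg _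
  obtain ⟨-, -, -, hD30⟩ := hD t0 t1 t0 (fun r => NL b (k r)) le_rfl h01 hNint
  have ht0 : t0 ∈ Icc t0 t1 := ⟨le_rfl, h01⟩
  have hUm : ∀ κ : K, AEStronglyMeasurable (U (sig b) κ) volume := fun κ =>
    (hfl κ).1.1.aestronglyMeasurable
  have key : ∀ t ∈ Icc t0 t1, eLpNorm (U (sig b) (k t)) r' volume ^ m ≤
      2 ^ (m - 1) * (eLpNorm (U (sig b) (tau (t - t0) (k t0))) r' volume ^ m +
        eLpNorm (U (sig b) (∫ r in t0..t, tau (t - r) (NL b (k r)))) r' volume ^ m) := by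
    intro t ht
    have e1 := hduh t0 ht0 t ht
    have h2 : U (sig b) (k t) =ᵐ[volume] U (sig b) (tau (t - t0) (k t0)) -
        U (sig b) (∫ r in t0..t, tau (t - r) (NL b (k r))) := by
      have h3 := (hlin (-1) (tau (t - t0) (k t0)) (∫ r in t0..t, tau (t - r) (NL b (k r)))).1
      have e2 : tau (t - t0) (k t0) + (-1 : ℝ) • (∫ r in t0..t, tau (t - r) (NL b (k r))) = k t := by
        rw [e1, neg_one_smul, ← sub_eq_add_neg]
      rw [e2] at h3
      filter_upwards [h3] with x hx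
      rw [hx, Pi.sub_apply]; ring
    rw [eLpNorm_congr_ae h2]
    refine le_trans ?_ (ENNReal.rpow_add_le_mul_rpow_add_rpow _ _ hm1)
    exact ENNReal.rpow_le_rpow (eLpNorm_sub_le (hUm _) (hUm _) hr1) hm0
  have hmm1 : AEMeasurable (fun t => eLpNorm (U (sig b) (tau (t - t0) (k t0))) r' volume)
      (volume.restrict (Icc t0 t1)) := by
    have hc : Continuous fun t => tau (t - t0) (k t0) := (hcont (k t0)).comp (continuous_sub_right t0)
    have := (hMeas b hb (fun t => tau (t - t0) (k t0)) (Icc t0 t1) hms hc.aestronglyMeasurable).2.1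
      r' univ hr1 MeasurableSet.univ
    simp only [indicator_univ] at this
    exact this
  have hfree : ∫⁻ t in Icc t0 t1, eLpNorm (U (sig b) (tau (t - t0) (k t0))) r' volume ^ m ≤
      ENNReal.ofReal (C1 ^ m * A ^ m) := by
    calc ∫⁻ t in Icc t0 t1, eLpNorm (U (sig b) (tau (t - t0) (k t0))) r' volume ^ m
        ≤ ∫⁻ t, eLpNorm (U (sig b) (tau (t - t0) (k t0))) r' volume ^ m := setLIntegral_le_lintegral _ _
      _ = ∫⁻ t, eLpNorm (U (sig b) (tau t (k t0))) r' volume ^ m :=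
          lintegral_sub_right_eq_self (fun t => eLpNorm (U (sig b) (tau t (k t0))) r' volume ^ m) t0
      _ ≤ (ENNReal.ofReal C1 * ‖k t0‖ₑ) ^ m := (hS (k t0)).2
      _ ≤ (ENNReal.ofReal C1 * ENNReal.ofReal A) ^ m := by
          have hkr : ‖k t0‖ₑ ≤ ENNReal.ofReal A := by
            rw [← ofReal_norm]; exact ENNReal.ofReal_le_ofReal (hbd t0 ht0)
          gcongr
      _ = ENNReal.ofReal (C1 ^ m * A ^ m) := by
          rw [← ENNReal.ofReal_mul hC1.le, ENNReal.ofReal_rpow_of_nonneg (by positivity) hm0,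
            Real.mul_rpow hC1.le hA]
  have hduh2 : ∫⁻ t in Icc t0 t1,
      eLpNorm (U (sig b) (∫ r in t0..t, tau (t - r) (NL b (k r)))) r' volume ^ m ≤
      ENNReal.ofReal ((C2 * C3) ^ m * A ^ m) := by
    refine hD30.trans ?_
    rw [ENNReal.ofReal_rpow_of_nonneg (by positivity) hm0, ← Real.mul_rpow (by positivity) hA]
    refine ENNReal.ofReal_le_ofReal ?_
    refine Real.rpow_le_rpow (by positivity) ?_ hm0
    calc C2 * ∫ r in Icc t0 t1, ‖NL b (k r)‖ ≤ C2 * (C3 * A) := by gcongr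
      _ = C2 * C3 * A := by ring
  have h2top : (2 : ℝ≥0∞) ^ (m - 1) = ENNReal.ofReal (2 ^ (m - 1)) := by
    rw [← ENNReal.ofReal_rpow_of_nonneg (by norm_num) (by linarith)]; simp
  calc ∫⁻ t in Icc t0 t1, eLpNorm (U (sig b) (k t)) r' volume ^ m
      ≤ ∫⁻ t in Icc t0 t1, 2 ^ (m - 1) *
        (eLpNorm (U (sig b) (tau (t - t0) (k t0))) r' volume ^ m +
        eLpNorm (U (sig b) (∫ r in t0..t, tau (t - r) (NL b (k r)))) r' volume ^ m) :=
        setLIntegral_mono' hms key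
    _ = 2 ^ (m - 1) * ((∫⁻ t in Icc t0 t1, eLpNorm (U (sig b) (tau (t - t0) (k t0))) r' volume ^ m) +
        ∫⁻ t in Icc t0 t1,
          eLpNorm (U (sig b) (∫ r in t0..t, tau (t - r) (NL b (k r)))) r' volume ^ m) := by
        rw [lintegral_const_mul' _ _ (by rw [h2top]; exact ENNReal.ofReal_ne_top),
          lintegral_add_left' (hmm1.pow_const m)]
    _ ≤ 2 ^ (m - 1) * (ENNReal.ofReal (C1 ^ m * A ^ m) + ENNReal.ofReal ((C2 * C3) ^ m * A ^ m)) := by
        gcongr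
    _ = ENNReal.ofReal (2 ^ (m - 1) * (C1 ^ m + (C2 * C3) ^ m) * A ^ m) := by
        rw [← ENNReal.ofReal_add (by positivity) (by positivity), h2top,
          ← ENNReal.ofReal_mul (by positivity)]
        congr 1; ring

end G2x

open G2x in
theorem thm_G2 (hRS : St_RSobK) (hStr : St_StrS) (hDuh : St_DuhI) (hNLb : St_NLb) (hMeas : St_Meas)
    (hFld : St_FldP) (hGrp : Pool.Agent.QWF.St_Grp1) : St_G2 := by
  intro b hb ψ hψ A
  have hb0 : 0 < b := by linarith
  have hb2 : 0 < b - 2 := by linarith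
  have hs := abs_sg hb
  have hsl := abs_lt.1 hs
  obtain ⟨C0, hC0, hR⟩ := hRS (sig b) ψ hs hψ
  obtain ⟨C, hC, hB⟩ := bound2 hStr hDuh hNLb hMeas hFld hGrp hb
  obtain ⟨CF, -, hfl, -, -⟩ := hFld (sig b) hs
  set A' : ℝ := max A 1 with hA'
  have hA1 : (1 : ℝ) ≤ A' := le_max_right _ _
  have hA0 : (0 : ℝ) < A' := lt_of_lt_of_le one_pos hA1
  set e2 : ℝ := (1 - 2 * sig b) / 4 with he2
  have he2p : 0 < e2 := by rw [he2]; linarith
  have he1p : 0 < 1 - e2 := by rw [he2]; linarith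
  set Y : ℝ := C * A' ^ ((b + 2) / 2) with hYdef
  have hYpos : 0 < Y := by positivity
  set X : ℝ := (1 / (2 * Y)) ^ (2 / (b - 2)) with hXdef
  have hXpos : 0 < X := by positivity
  set c : ℝ := (X / (C0 * A' ^ e2)) ^ (1 / (1 - e2)) with hcdef
  have hcpos : 0 < c := by positivity
  have hc1 : c ^ (1 - e2) = X / (C0 * A' ^ e2) := by
    rw [hcdef, ← Real.rpow_mul (by positivity), one_div, inv_mul_cancel₀ he1p.ne', Real.rpow_one]
  refine ⟨c, hcpos, ?_⟩
  intro t0 t1 k hsol hbd hSN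
  have h01 : t0 ≤ t1 := by
    by_contra hcon
    rw [Icc_eq_empty hcon] at hSN
    simp [SN] at hSN
  have hbd' : ∀ t ∈ Icc t0 t1, ‖k t‖ ≤ A' := fun t ht => (hbd t ht).trans (le_max_left _ _)
  have h30 := hB A' hA0.le t0 t1 k h01 hsol hbd' hSN
  by_contra hcon
  push Not at hcon
  have hUm : ∀ κ : K, AEStronglyMeasurable (U (sig b) κ) volume := fun κ =>
    (hfl κ).1.1.aestronglyMeasurable
  have h10 : ∀ t ∈ Icc t0 t1, eLpNorm (U (sig b) (k t)) (q0 (sig b)) volume ≤ ENNReal.ofReal X := by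
    intro t ht
    refine (hR (k t) c hcpos.le fun y a => (hcon t ht y a).le).trans ?_
    refine ENNReal.ofReal_le_ofReal ?_
    have h5 : ‖k t‖ ^ e2 ≤ A' ^ e2 :=
      Real.rpow_le_rpow (norm_nonneg _) (hbd' t ht) he2p.le
    rw [hc1]
    have hpos : 0 < A' ^ e2 := by positivity
    calc C0 * (X / (C0 * A' ^ e2)) * ‖k t‖ ^ e2 ≤ C0 * (X / (C0 * A' ^ e2)) * A' ^ e2 := by gcongr
      _ = X := by field_simp
  have hle : SN b (Icc t0 t1) k ≤ ENNReal.ofReal (1 / 2) := by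
    calc SN b (Icc t0 t1) k = ∫⁻ t in Icc t0 t1, sn b (k t) ^ b := rfl
      _ ≤ ∫⁻ t in Icc t0 t1, ENNReal.ofReal X ^ ((b - 2) / 2) *
            eLpNorm (U (sig b) (k t)) (ENNReal.ofReal (b * (b + 2))) volume ^
              ((b + 2) / 2) := by
          refine setLIntegral_mono' measurableSet_Icc fun t ht => ?_
          refine (lyap hb (hUm (k t))).trans ?_
          have h6 := ENNReal.rpow_le_rpow (h10 t ht) (by linarith : (0 : ℝ) ≤ (b - 2) / 2)
          gcongr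
      _ = ENNReal.ofReal X ^ ((b - 2) / 2) *
            ∫⁻ t in Icc t0 t1, eLpNorm (U (sig b) (k t))
              (ENNReal.ofReal (b * (b + 2))) volume ^ ((b + 2) / 2) :=
          lintegral_const_mul' _ _ (ENNReal.rpow_ne_top_of_nonneg (by linarith) ENNReal.ofReal_ne_top)
      _ ≤ ENNReal.ofReal X ^ ((b - 2) / 2) * ENNReal.ofReal Y := by gcongr
      _ = ENNReal.ofReal (1 / 2) := by
          rw [ENNReal.ofReal_rpow_of_nonneg hXpos.le (by linarith), hXdef,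
            ← Real.rpow_mul (by positivity)]
          have h7 : 2 / (b - 2) * ((b - 2) / 2) = 1 := by field_simp
          rw [h7, Real.rpow_one, ← ENNReal.ofReal_mul (by positivity)]
          congr 1
          field_simp
  rw [hSN] at hle
  have h2 : ENNReal.ofReal (1 / 2) < 1 := by
    rw [ENNReal.ofReal_lt_one]; norm_num
  exact absurd hle (not_le.2 h2)

end Pool.Agent.QWF
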