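import Pool.Agent.QWF.StG
import Pool.Agent.QWF.Loc

set_option autoImplicit false

/-!
# QWF, G5: weak nullity for bounded times, all exponents (port of QWE.G5, helper15)
-/

open MeasureTheory Filter Topology Set
open scoped ENNReal NNReal RealInnerProductSpace ContDiff

namespace Pool.Agent.QWF


namespace G5x

open Locx (tau_cont int_tau ii_tau)
open Locx (pow_mono of_lt_top sn_meas sn_fin)

theorem mu_sep : MeasureTheory.IsSeparable mu := by
  have : MeasurableSpace.CountablyGenerated (S × ℝ) := inferInstance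
  have : SFinite mu := inferInstance
  infer_instance

/-- `K` is separable -/
theorem K_sc : SecondCountableTopology K := by
  have h1 : Fact ((2 : ℝ≥0∞) ≠ ⊤) := ⟨by norm_num⟩
  have h2 := mu_sep
  exact Lp.SecondCountableTopology

/-- weakly continuous curves are strongly measurable -/
theorem pettis {J : Set ℝ} (hJ : MeasurableSet J) (k : ℝ → K)
    (h : ∀ w : K, ContinuousOn (fun t => inner ℝ (k t) w) J) :
    AEStronglyMeasurable k (volume.restrict J) := by
  have hsc := K_sc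
  obtain ⟨u, hu⟩ := TopologicalSpace.exists_dense_seq K
  obtain ⟨V, hV⟩ : ∃ V : ℕ → Submodule ℝ K, ∀ n, V n = Submodule.span ℝ (u '' {i | i < n}) :=
    ⟨_, fun n => rfl⟩
  have hfd : ∀ n, FiniteDimensional ℝ (V n) := by
    intro n
    rw [hV n]
    exact FiniteDimensional.span_of_finite ℝ ((finite_lt_nat n).image u)
  have hmono : Monotone V := by
    intro m n hmn
    rw [hV m, hV n]
    exact Submodule.span_mono (image_mono fun i hi => lt_of_lt_of_le hi hmn)
  have htop : ⊤ ≤ (⨆ n, V n).topologicalClosure := by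
    intro x _
    have h1 : Set.range u ⊆ ((⨆ n, V n : Submodule ℝ K) : Set K) := by
      rintro _ ⟨i, rfl⟩
      have h2 : u i ∈ V (i + 1) := by
        rw [hV]
        exact Submodule.subset_span ⟨i, Nat.lt_succ_self i, rfl⟩
      exact (le_iSup V (i + 1)) h2
    have h2 : x ∈ closure (Set.range u) := by
      rw [hu.closure_range]
      exact mem_univ x
    exact closure_mono h1 h2
  have hmeas : ∀ n, AEStronglyMeasurable (fun t => (V n).starProjection (k t))
      (volume.restrict J) := by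
    intro n
    have hc : ContinuousOn (fun t => (V n).starProjection (k t)) J := by
      have e : ∀ x : K, (V n).starProjection x =
          ∑ i, (inner ℝ ((stdOrthonormalBasis ℝ (V n) i : V n) : K) x) •
            ((stdOrthonormalBasis ℝ (V n) i : V n) : K) := by
        intro x
        have h1 := (stdOrthonormalBasis ℝ (V n)).orthogonalProjectionOnto_apply_eq_sum x
        have h2 : (V n).starProjection x = ((V n).orthogonalProjectionOnto x : K) := rfl
        rw [h2, h1, Submodule.coe_sum]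
        rfl
      simp only [e]
      refine continuousOn_finsetSum _ fun i _ => ?_
      have h3 : ContinuousOn
          (fun t => (inner ℝ ((stdOrthonormalBasis ℝ (V n) i : V n) : K) (k t) : ℝ)) J :=
        (h ((stdOrthonormalBasis ℝ (V n) i : V n) : K)).congr fun t _ => real_inner_comm _ _
      exact h3.smul continuousOn_const
    exact hc.aestronglyMeasurable hJ
  refine aestronglyMeasurable_of_tendsto_ae atTop hmeas (Eventually.of_forall fun t => ?_)
  exact Submodule.starProjection_tendsto_self V hmono (k t) htop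

theorem inner_int {a b : ℝ} {F : ℝ → K} (hF : IntervalIntegrable F volume a b) (w : K) :
    inner ℝ (∫ r in a..b, F r) w = ∫ r in a..b, inner ℝ (F r) w := by
  have h := (innerSL ℝ w).intervalIntegral_comp_comm hF
  have e2 : ∀ x : K, (innerSL ℝ w) x = inner ℝ x w := fun x => real_inner_comm x w
  simp only [e2] at h
  exact h.symm


theorem sig_lt {b : ℝ} (hb : 4 < b) : |sig b| < 1 / 2 := by
  have h1 : 0 < 2 / b := by positivity
  have h2 : 2 / b < 1 := by rw [div_lt_one (by linarith)]; linarith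
  rw [sig, abs_lt]
  constructor <;> linarith

/-- the nonlinearity along a measurable curve is integrable -/
theorem nl_int {b C : ℝ} (hb : 4 < b)
    (hC : ∀ k : K, ‖NL b k‖ₑ ≤ ENNReal.ofReal C * sn b k ^ b * ‖k‖ₑ) (hM : St_Meas)
    {x y : ℝ} {k : ℝ → K} (hm : AEStronglyMeasurable k (volume.restrict (Icc x y))) {B : ℝ}
    (hS : SN b (Icc x y) k < ⊤) (hn : ∀ t ∈ Icc x y, ‖k t‖ ≤ B) :
    IntegrableOn (fun r => NL b (k r)) (Icc x y) volume := by
  have hf := sn_fin hb hM measurableSet_Icc hm hS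
  have hNm := (hM b hb k (Icc x y) measurableSet_Icc hm).2.2 hf
  refine ⟨hNm, ?_⟩
  show ∫⁻ r in Icc x y, ‖NL b (k r)‖ₑ < ⊤
  calc ∫⁻ r in Icc x y, ‖NL b (k r)‖ₑ
      ≤ ∫⁻ r in Icc x y, (ENNReal.ofReal C * ENNReal.ofReal B) * sn b (k r) ^ b := by
        refine setLIntegral_mono_ae' measurableSet_Icc (Eventually.of_forall fun r hr => ?_)
        calc ‖NL b (k r)‖ₑ ≤ ENNReal.ofReal C * sn b (k r) ^ b * ‖k r‖ₑ := hC _
          _ ≤ ENNReal.ofReal C * sn b (k r) ^ b * ENNReal.ofReal B := by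
              gcongr
              rw [← ofReal_norm]
              exact ENNReal.ofReal_le_ofReal (hn r hr)
          _ = (ENNReal.ofReal C * ENNReal.ofReal B) * sn b (k r) ^ b := by ring
    _ = (ENNReal.ofReal C * ENNReal.ofReal B) * SN b (Icc x y) k := by
        rw [lintegral_const_mul'' _ ((sn_meas hb hM measurableSet_Icc hm).pow_const b)]
        rfl
    _ < ⊤ := ENNReal.mul_lt_top (ENNReal.mul_lt_top ENNReal.ofReal_lt_top
        ENNReal.ofReal_lt_top) hS

/-- the Duhamel formula in weak form -/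
theorem wduh (hG : St_Grp1) {b t : ℝ} {γ : ℝ → K} (h : IsSol b (Icc 0 t) γ)
    (hi : IntegrableOn (fun r => NL b (γ r)) (Icc 0 t) volume) {s' s : ℝ} (hs' : s' ∈ Icc 0 t)
    (hs : s ∈ Icc 0 t) (w : K) :
    inner ℝ (γ s) w = inner ℝ (γ s') (tau (s' - s) w) -
      ∫ r in s'..s, inner ℝ (NL b (γ r)) (tau (r - s) w) := by
  have hadj := hG.2.2.2.2.2.1
  rw [h.2.2.2 s' hs' s hs, inner_sub_left, hadj, inner_int (ii_tau hG hi s hs' hs)]
  rw [neg_sub]
  congr 1
  refine intervalIntegral.integral_congr fun r _ => ?_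
  show inner ℝ (tau (s - r) (NL b (γ r))) w = inner ℝ (NL b (γ r)) (tau (r - s) w)
  rw [hadj, neg_sub]

theorem dense_cls {b : ℝ} (hb : 4 < b) (hD : St_Dns2) :
    Dense {w : K | ∃ f g : E → ℝ, IsTest f ∧ IsTest g ∧ w = Rs (sig b) f + dRs (sig b) g} := by
  intro k
  rw [Metric.mem_closure_iff]
  intro ε hε
  obtain ⟨f, g, hf, hg, h⟩ := (hD (sig b) (sig_lt hb) k ε hε).1
  exact ⟨Rs (sig b) f + dRs (sig b) g, ⟨f, g, hf, hg, rfl⟩, by rw [dist_eq_norm]; exact h⟩

theorem test_pd {φ : E → ℝ} (h : IsTest φ) (i : Fin 4) : IsTest (pd i φ) := by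
  refine ⟨?_, ?_⟩
  · exact (h.1.fderiv_right (m := ∞) (by simp)).clm_apply contDiff_const
  · exact (h.2.fderiv ℝ).comp_left (g := fun L : E →L[ℝ] ℝ => L (EuclideanSpace.single i 1)) rfl

theorem supp_pd {φ : E → ℝ} (i : Fin 4) : tsupport (pd i φ) ⊆ tsupport φ := by
  refine closure_minimal (fun x hx => ?_) (isClosed_tsupport φ)
  by_contra hc
  refine hx ?_
  have h1 := image_eq_zero_of_notMem_tsupport (f := fderiv ℝ φ)
    (fun h => hc (tsupport_fderiv_subset ℝ h))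
  unfold pd
  rw [h1]
  rfl

theorem test_lap {φ : E → ℝ} (h : IsTest φ) : IsTest (lap φ) := by
  refine ⟨?_, ?_⟩
  · have : ContDiff ℝ ∞ fun x => ∑ i, pd i (pd i φ) x :=
      ContDiff.sum fun i _ => (test_pd (test_pd h i) i).1
    exact this
  · refine h.2.mono' fun x hx => ?_
    by_contra hc
    refine hx ?_
    unfold lap
    refine Finset.sum_eq_zero fun i _ => ?_
    exact image_eq_zero_of_notMem_tsupport fun h1 => hc (supp_pd i (supp_pd i h1))

theorem test_add {f g : E → ℝ} (hf : IsTest f) (hg : IsTest g) : IsTest fun x => f x + 1 * g x := by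
  have h : (fun x => f x + 1 * g x) = f + g := by
    funext x
    simp
  rw [h]
  exact ⟨hf.1.add hg.1, hf.2.add hg.2⟩

/-- the class of test states is invariant under the flow -/
theorem tau_cls (hFt : St_Ft) (hF : St_FreX) (hL : St_LinJ) {s : ℝ} (hs : |s| < 1 / 2) {f g : E → ℝ}
    (hf : IsTest f) (hg : IsTest g) (t : ℝ) : ∃ f' g' : E → ℝ, IsTest f' ∧ IsTest g' ∧
      tau t (Rs s f + dRs s g) = Rs s f' + dRs s g' := by
  obtain ⟨hs1, hs2⟩ := abs_lt.1 hs
  obtain ⟨-, f1, f2, tf1, tf2, h1, -⟩ := hF f f f t hf hf hf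
  obtain ⟨-, g1, g2, tg1, tg2, h2, -⟩ := hF g g g t hg hg hg
  refine ⟨fun x => f1 x + 1 * lap g2 x, fun x => f2 x + 1 * g1 x, test_add tf1 (test_lap tg2),
    test_add tf2 tg1, ?_⟩
  have l1 := ((hL 0 1 f1 (lap g2) (hFt.1 _ tf1) (hFt.1 _ (test_lap tg2))).2.2 s (by linarith) hs2).1
  have l2 := ((hL 0 1 f2 g1 (hFt.1 _ tf2) (hFt.1 _ tg1)).2.2 s (by linarith) hs2).2.1
  rw [map_add, (h1 s (by linarith) hs2).1, (h2 s (by linarith) hs2).2, l1, l2, one_smul, one_smul]
  abel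

theorem zero_sol {b C : ℝ} (hb : 4 < b) (hSn : St_SnP)
    (hC : ∀ k : K, ‖NL b k‖ₑ ≤ ENNReal.ofReal C * sn b k ^ b * ‖k‖ₑ) (t : ℝ) :
    IsSol b (Icc 0 t) (fun _ => (0 : K)) := by
  have hN : NL b (0 : K) = 0 := by
    have h := hC 0
    rw [enorm_zero, mul_zero, nonpos_iff_eq_zero, enorm_eq_zero] at h
    exact h
  refine ⟨ordConnected_Icc, continuousOn_const, fun x _ y _ => ?_, fun s _ r _ => ?_⟩
  · show ∫⁻ _ in Icc x y, sn b (0 : K) ^ b < ⊤
    rw [(hSn b hb).2.2.2.2.1, ENNReal.zero_rpow_of_pos (by linarith)]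
    simp
  · simp [hN]

theorem pair_bd {b A t C : ℝ} (hb : 4 < b) (hC0 : 0 < C) {w : K}
    (hw : ∀ (s : ℝ) (k : K), |s| ≤ t → sn b k < ⊤ → |inner ℝ (NL b k) (tau s w)| ≤ C * ‖k‖ ^ (b + 1))
    {γ : ℝ → K} (hn : ∀ s ∈ Icc 0 t, ‖γ s‖ ≤ A)
    (hf : ∀ᵐ r ∂(volume.restrict (Icc 0 t)), sn b (γ r) < ⊤) {s s' : ℝ} (hs : s ∈ Icc 0 t)
    (hs' : s' ∈ Icc 0 t) :
    ∀ᵐ r, r ∈ uIoc s' s → ‖(inner ℝ (NL b (γ r)) (tau (r - s) w) : ℝ)‖ ≤ C * A ^ (b + 1) := by
  have h1 := (ae_restrict_iff' measurableSet_Icc).1 hf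
  filter_upwards [h1] with r hr hr2
  have hr3 : r ∈ Icc 0 t := ordConnected_Icc.uIcc_subset hs' hs (uIoc_subset_uIcc hr2)
  have h2 : |r - s| ≤ t := by
    rw [abs_le]
    constructor <;> linarith [hr3.1, hr3.2, hs.1, hs.2]
  refine (hw (r - s) (γ r) h2 (hr hr3)).trans ?_
  refine mul_le_mul_of_nonneg_left ?_ hC0.le
  exact Real.rpow_le_rpow (norm_nonneg _) (hn r hr3) (by linarith)

theorem equi (hG : St_Grp1) {b A t C : ℝ} (hb : 4 < b) (hC0 : 0 < C) {w : K}
    (hw : ∀ (s : ℝ) (k : K), |s| ≤ t → sn b k < ⊤ → |inner ℝ (NL b k) (tau s w)| ≤ C * ‖k‖ ^ (b + 1))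
    {γ : ℝ → K} (h : IsSol b (Icc 0 t) γ) (hn : ∀ s ∈ Icc 0 t, ‖γ s‖ ≤ A)
    (hi : IntegrableOn (fun r => NL b (γ r)) (Icc 0 t) volume)
    (hf : ∀ᵐ r ∂(volume.restrict (Icc 0 t)), sn b (γ r) < ⊤) {s s' : ℝ} (hs : s ∈ Icc 0 t)
    (hs' : s' ∈ Icc 0 t) :
    |(inner ℝ (γ s) w - inner ℝ (γ s') w : ℝ)| ≤
      A * ‖tau (s' - s) w - w‖ + C * A ^ (b + 1) * |s - s'| := by
  rw [wduh hG h hi hs' hs w]
  have e : (inner ℝ (γ s') (tau (s' - s) w) - (∫ r in s'..s, inner ℝ (NL b (γ r)) (tau (r - s) w)) -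
      inner ℝ (γ s') w : ℝ) = inner ℝ (γ s') (tau (s' - s) w - w) -
        ∫ r in s'..s, inner ℝ (NL b (γ r)) (tau (r - s) w) := by
    rw [inner_sub_right]
    ring
  rw [e, ← Real.norm_eq_abs]
  refine (norm_sub_le _ _).trans (add_le_add ?_ ?_)
  · refine (norm_inner_le_norm _ _).trans ?_
    exact mul_le_mul_of_nonneg_right (hn s' hs') (norm_nonneg _)
  · exact intervalIntegral.norm_integral_le_of_norm_le_const_ae
      (pair_bd hb hC0 hw hn hf hs hs')

/-- lower semicontinuity of the Strichartz norm under weak convergence at every time -/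
theorem sn_lim {b : ℝ} (hb : 4 < b) (hNc : St_NLc) (hM : St_Meas) {t : ℝ} {γ : ℕ → ℝ → K} {k : ℝ → K} {m : ℝ≥0∞}
    (hm : ∀ n, AEStronglyMeasurable (γ n) (volume.restrict (Icc 0 t)))
    (hS : ∀ n, SN b (Icc 0 t) (γ n) ≤ m) (hk : ∀ s ∈ Icc 0 t, WTo (fun n => γ n s) (k s)) :
    SN b (Icc 0 t) k ≤ m := by
  have hb0 : 0 ≤ b := by linarith
  have hp : ∀ x : ℕ → ℝ≥0∞, (liminf x atTop) ^ b = liminf (fun n => x n ^ b) atTop := by
    intro x
    exact Monotone.map_liminf_of_continuousAt (f := fun y : ℝ≥0∞ => y ^ b)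
      (fun y z hyz => pow_mono hb0 hyz) x (ENNReal.continuous_rpow_const).continuousAt
  calc SN b (Icc 0 t) k = ∫⁻ r in Icc 0 t, sn b (k r) ^ b := rfl
    _ ≤ ∫⁻ r in Icc 0 t, liminf (fun n => sn b (γ n r) ^ b) atTop := by
        refine setLIntegral_mono_ae' measurableSet_Icc (Eventually.of_forall fun r hr => ?_)
        rw [← hp]
        exact pow_mono hb0 ((hNc b hb).1 _ _ (hk r hr))
    _ ≤ liminf (fun n => ∫⁻ r in Icc 0 t, sn b (γ n r) ^ b) atTop :=
        lintegral_liminf_le' fun n => (sn_meas hb hM measurableSet_Icc (hm n)).pow_const b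
    _ ≤ m := by
        refine liminf_le_of_le (by isBoundedDefault) fun c hc => ?_
        obtain ⟨j, hj⟩ := hc.exists
        exact hj.trans (hS j)

theorem pair_meas (hG : St_Grp1) {b t : ℝ} {γ : ℝ → K} (s : ℝ) (w : K)
    (hi : IntegrableOn (fun r => NL b (γ r)) (Icc 0 t) volume) :
    AEStronglyMeasurable (fun r => (inner ℝ (NL b (γ r)) (tau (r - s) w) : ℝ))
      (volume.restrict (Icc 0 t)) := by
  have hc := hG.2.2.2.2.2.2.2.1 w
  have h1 : Continuous fun r : ℝ => tau (r - s) w := hc.comp (continuous_id.sub continuous_const)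
  exact hi.1.inner h1.aestronglyMeasurable

/-- a curve that satisfies the Duhamel formula with base point `0` and zero data is a solution -/
theorem sol_of (hG : St_Grp1) (hDu : St_DuhI) {b : ℝ} (hb : 4 < b) {t : ℝ} (ht : 0 ≤ t) {k : ℝ → K}
    (hi : IntegrableOn (fun r => NL b (k r)) (Icc 0 t) volume) (hS : SN b (Icc 0 t) k < ⊤)
    (hk : ∀ s ∈ Icc 0 t, k s = - ∫ r in (0 : ℝ)..s, tau (s - r) (NL b (k r))) :
    IsSol b (Icc 0 t) k := by
  obtain ⟨g1, -⟩ := id hG
  obtain ⟨C', -, hD'⟩ := hDu b hb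
  have h0 : (0 : ℝ) ∈ Icc 0 t := ⟨le_refl _, ht⟩
  refine ⟨ordConnected_Icc, ?_, ?_, ?_⟩
  · refine ((hD' 0 t 0 _ le_rfl ht hi).1.neg).congr fun s hs => ?_
    exact hk s hs
  · intro a' ha' b' hb'
    refine lt_of_le_of_lt ?_ hS
    exact lintegral_mono_set (Icc_subset_Icc ha'.1 hb'.2)
  · intro s hs s2 hs2
    have i1 := ii_tau hG hi s h0 hs
    have i2 := ii_tau hG hi s2 h0 hs
    have i3 := ii_tau hG hi s2 hs hs2
    have e3 : tau (s2 - s) (∫ r in (0 : ℝ)..s, tau (s - r) (NL b (k r))) =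
        ∫ r in (0 : ℝ)..s, tau (s2 - r) (NL b (k r)) := by
      have h := (tau (s2 - s)).toContinuousLinearMap.intervalIntegral_comp_comm i1
      have h2 : (∫ r in (0 : ℝ)..s, (tau (s2 - s)).toContinuousLinearMap
          (tau (s - r) (NL b (k r)))) = ∫ r in (0 : ℝ)..s, tau (s2 - r) (NL b (k r)) := by
        refine intervalIntegral.integral_congr fun r _ => ?_
        show tau (s2 - s) (tau (s - r) (NL b (k r))) = _
        rw [g1]
        congr 2
        ring
      rw [h2] at h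
      exact h.symm
    have e5 := intervalIntegral.integral_add_adjacent_intervals i2 i3
    rw [hk s2 hs2, hk s hs, map_neg, e3, ← e5]
    abel

theorem core (hWS : St_WkS) (hWC : St_WkC) (hNc : St_NLc)
    (hNb : St_NLb) (hM : St_Meas) (hU : St_Uniq) (hDu : St_DuhI) (hF : St_FreX) (hL : St_LinJ) (hFt : St_Ft) (hD : St_Dns2)
    (hG : St_Grp1) (hSn : St_SnP) {b : ℝ} (hb : 4 < b) {A M t : ℝ} (ht : 0 ≤ t) {γ : ℕ → ℝ → K} (hs : ∀ n, IsSol b (Icc 0 t) (γ n))
    (hn : ∀ n, ∀ s ∈ Icc 0 t, ‖γ n s‖ ≤ A)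
    (hS : ∀ n, SN b (Icc 0 t) (γ n) ≤ ENNReal.ofReal M) (h0 : WTo (fun n => γ n 0) 0) :
    ∃ φ : ℕ → ℕ, StrictMono φ ∧ WTo (fun n => γ (φ n) t) 0 := by
  obtain ⟨⟨C, hC0, hC1, hC2⟩, -⟩ := hNb b hb
  have h0t : (0 : ℝ) ∈ Icc 0 t := ⟨le_refl _, ht⟩
  have htt : t ∈ Icc 0 t := ⟨ht, le_refl _⟩
  have hA : 0 ≤ A := (norm_nonneg _).trans (hn 0 0 h0t)
  have hm : ∀ n, AEStronglyMeasurable (γ n) (volume.restrict (Icc 0 t)) := fun n =>
    (hs n).2.1.aestronglyMeasurable measurableSet_Icc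
  have hSt : ∀ n, SN b (Icc 0 t) (γ n) < ⊤ := fun n => (hS n).trans_lt ENNReal.ofReal_lt_top
  have hi : ∀ n, IntegrableOn (fun r => NL b (γ n r)) (Icc 0 t) volume := fun n =>
    nl_int hb hC1 hM (hm n) (hSt n) (hn n)
  have hf : ∀ n, ∀ᵐ r ∂(volume.restrict (Icc 0 t)), sn b (γ n r) < ⊤ := fun n =>
    sn_fin hb hM measurableSet_Icc (hm n) (hSt n)
  -- equicontinuity
  obtain ⟨φ, k, hφ, hk1, hk2⟩ := hWC A t γ
    {w : K | ∃ f g : E → ℝ, IsTest f ∧ IsTest g ∧ w = Rs (sig b) f + dRs (sig b) g} ht (dense_cls hb hD) hn (by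
      rintro w ⟨f, g, hf1, hg1, rfl⟩ ε hε
      obtain ⟨C3, hC3, hw⟩ := (hNc b hb).2.2 f g t hf1 hg1
      obtain ⟨w, hww⟩ : ∃ w, w = Rs (sig b) f + dRs (sig b) g := ⟨_, rfl⟩
      rw [← hww] at hw ⊢
      have hc := hG.2.2.2.2.2.2.2.1 w
      have hc0 : tau 0 w = w := hG.2.1 w
      have h1 : Tendsto (fun s => ‖tau s w - w‖) (𝓝 0) (𝓝 0) := by
        have h2 : Continuous fun s => ‖tau s w - w‖ := (hc.sub continuous_const).norm
        have h3 := h2.tendsto 0
        rw [hc0, sub_self, norm_zero] at h3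
        exact h3
      have h4 : ∀ᶠ s in 𝓝 (0 : ℝ), ‖tau s w - w‖ < ε / (2 * (A + 1)) :=
        h1.eventually (gt_mem_nhds (by positivity))
      rw [Metric.eventually_nhds_iff] at h4
      obtain ⟨δ1, hδ1, h5⟩ := h4
      refine ⟨min (δ1 / 2) (ε / (2 * (C3 * A ^ (b + 1) + 1))), by positivity, ?_⟩
      intro n s hs1 s' hs2 hss
      refine (equi hG hb hC3 hw (hs n) (hn n) (hi n) (hf n) hs1 hs2).trans ?_
      have h6 : ‖tau (s' - s) w - w‖ < ε / (2 * (A + 1)) := by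
        refine h5 ?_
        rw [dist_zero_right, Real.norm_eq_abs, abs_sub_comm]
        exact (hss.trans (min_le_left _ _)).trans_lt (by linarith)
      have h7 : |s - s'| ≤ ε / (2 * (C3 * A ^ (b + 1) + 1)) := hss.trans (min_le_right _ _)
      have h8 : A * ‖tau (s' - s) w - w‖ ≤ ε / 2 := by
        calc A * ‖tau (s' - s) w - w‖ ≤ (A + 1) * (ε / (2 * (A + 1))) := by
              refine mul_le_mul (by linarith) h6.le (norm_nonneg _) (by positivity)
          _ = ε / 2 := by field_simp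
      have h9 : C3 * A ^ (b + 1) * |s - s'| ≤ ε / 2 := by
        have h10 : 0 ≤ C3 * A ^ (b + 1) := by positivity
        calc C3 * A ^ (b + 1) * |s - s'| ≤ (C3 * A ^ (b + 1) + 1) * (ε / (2 * (C3 * A ^ (b + 1) + 1))) := by
              refine mul_le_mul (by linarith) h7 (abs_nonneg _) (by positivity)
          _ = ε / 2 := by field_simp
      linarith)
  refine ⟨φ, hφ, ?_⟩
  -- properties of the limit
  have hkn : ∀ s ∈ Icc 0 t, ‖k s‖ ≤ A := fun s hs => (hk1 s hs).1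
  have hkw : ∀ s ∈ Icc 0 t, WTo (fun n => γ (φ n) s) (k s) := fun s hs => (hk1 s hs).2
  have hkm : AEStronglyMeasurable k (volume.restrict (Icc 0 t)) := pettis measurableSet_Icc k hk2
  have hkS : SN b (Icc 0 t) k ≤ ENNReal.ofReal M :=
    sn_lim hb hNc hM (fun n => hm (φ n)) (fun n => hS (φ n)) hkw
  have hkSt : SN b (Icc 0 t) k < ⊤ := hkS.trans_lt ENNReal.ofReal_lt_top
  have hki : IntegrableOn (fun r => NL b (k r)) (Icc 0 t) volume := nl_int hb hC1 hM hkm hkSt hkn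
  have hkf := sn_fin hb hM measurableSet_Icc hkm hkSt
  -- initial value
  have hk0 : k 0 = 0 := by
    have h1 := hWS.2.2.2.1 (fun n => γ n 0) 0 φ h0 hφ
    exact hWS.2.2.2.2.1 _ _ _ (hkw 0 h0t) h1
  -- limit in the Duhamel formula
  have hlim : ∀ s ∈ Icc 0 t, ∀ f g : E → ℝ, IsTest f → IsTest g →
      inner ℝ (k s) ((Rs (sig b) f + dRs (sig b) g)) =
        - ∫ r in (0 : ℝ)..s, inner ℝ (NL b (k r)) (tau (r - s) ((Rs (sig b) f + dRs (sig b) g))) := by
    intro s hs1 f g hf1 hg1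
    obtain ⟨C3, hC3, hw⟩ := (hNc b hb).2.2 f g t hf1 hg1
    have e1 : Tendsto (fun n => (inner ℝ (γ (φ n) s) ((Rs (sig b) f + dRs (sig b) g)) : ℝ)) atTop
        (𝓝 (inner ℝ (k s) ((Rs (sig b) f + dRs (sig b) g)))) := hkw s hs1 ((Rs (sig b) f + dRs (sig b) g))
    have e2 : Tendsto (fun n => (inner ℝ (γ (φ n) 0) (tau (0 - s) ((Rs (sig b) f + dRs (sig b) g))) : ℝ)) atTop
        (𝓝 0) := by
      have h1 := hkw 0 h0t (tau (0 - s) ((Rs (sig b) f + dRs (sig b) g)))
      rw [hk0, inner_zero_left] at h1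
      exact h1
    have hsub : uIoc 0 s ⊆ Icc 0 t := fun r hr =>
      ordConnected_Icc.uIcc_subset h0t hs1 (uIoc_subset_uIcc hr)
    have e3 : Tendsto (fun n => ∫ r in (0 : ℝ)..s,
        (inner ℝ (NL b (γ (φ n) r)) (tau (r - s) ((Rs (sig b) f + dRs (sig b) g))) : ℝ)) atTop
        (𝓝 (∫ r in (0 : ℝ)..s, inner ℝ (NL b (k r)) (tau (r - s) ((Rs (sig b) f + dRs (sig b) g))))) := by
      refine intervalIntegral.tendsto_integral_filter_of_dominated_convergence
        (fun _ => C3 * A ^ (b + 1)) ?_ ?_ intervalIntegrable_const ?_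
      · exact Eventually.of_forall fun n =>
          (pair_meas hG s ((Rs (sig b) f + dRs (sig b) g)) (hi (φ n))).mono_measure (Measure.restrict_mono_set _ hsub)
      · exact Eventually.of_forall fun n => pair_bd hb hC3 hw (hn (φ n)) (hf (φ n)) hs1 h0t
      · have h1 := (ae_restrict_iff' measurableSet_Icc).1 (ae_all_iff.2 fun n => hf (φ n))
        have h2 := (ae_restrict_iff' measurableSet_Icc).1 hkf
        filter_upwards [h1, h2] with r hr1 hr2 hr3
        have hr := hsub hr3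
        obtain ⟨f', g', hf', hg', he⟩ := tau_cls hFt hF hL (sig_lt hb) hf1 hg1 (r - s)
        rw [he]
        exact (hNc b hb).2.1 _ _ f' g' hf' hg' (hkw r hr) (hr1 hr) (hr2 hr)
    have e4 := e2.sub e3
    have e5 : (fun n => (inner ℝ (γ (φ n) 0) (tau (0 - s) ((Rs (sig b) f + dRs (sig b) g))) : ℝ) -
        ∫ r in (0 : ℝ)..s, (inner ℝ (NL b (γ (φ n) r)) (tau (r - s) ((Rs (sig b) f + dRs (sig b) g))) : ℝ)) =
        fun n => inner ℝ (γ (φ n) s) ((Rs (sig b) f + dRs (sig b) g)) :=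
      funext fun n => (wduh hG (hs (φ n)) (hi (φ n)) h0t hs1 ((Rs (sig b) f + dRs (sig b) g))).symm
    rw [e5, zero_sub] at e4
    exact tendsto_nhds_unique e1 e4
  have hadj := hG.2.2.2.2.2.1
  have hkd : ∀ s ∈ Icc 0 t, k s = - ∫ r in (0 : ℝ)..s, tau (s - r) (NL b (k r)) := by
    intro s hs1
    refine ext_inner_right ℝ fun v => ?_
    have h1 : Continuous fun v : K => (inner ℝ (k s) v : ℝ) := continuous_const.inner continuous_id
    have h2 : Continuous fun v : K =>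
        (inner ℝ (- ∫ r in (0 : ℝ)..s, tau (s - r) (NL b (k r))) v : ℝ) :=
      continuous_const.inner continuous_id
    refine congrFun (Continuous.ext_on (dense_cls hb hD) h1 h2 ?_) v
    rintro w ⟨f, g, hf1, hg1, rfl⟩
    show (inner ℝ (k s) ((Rs (sig b) f + dRs (sig b) g)) : ℝ) = inner ℝ (- ∫ r in (0 : ℝ)..s, tau (s - r) (NL b (k r)))
      ((Rs (sig b) f + dRs (sig b) g))
    rw [hlim s hs1 f g hf1 hg1, inner_neg_left, inner_int (ii_tau hG hki s h0t hs1)]
    congr 1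
    refine intervalIntegral.integral_congr fun r _ => ?_
    show inner ℝ (NL b (k r)) (tau (r - s) ((Rs (sig b) f + dRs (sig b) g))) = inner ℝ (tau (s - r) (NL b (k r))) ((Rs (sig b) f + dRs (sig b) g))
    rw [hadj, neg_sub]
  have hsol := sol_of hG hDu hb ht hki hkSt hkd
  have hz := hU b hb (Icc 0 t) (Icc 0 t) k (fun _ => 0) 0 hsol (zero_sol hb hSn hC1 t) h0t h0t hk0 t htt htt
  have h1 := hkw t htt
  rw [hz] at h1
  exact h1

end G5x

open G5x

/-- **G5** -/
theorem thm_G5 (hWS : St_WkS) (hWC : St_WkC) (hNc : St_NLc)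
    (hNb : St_NLb) (hM : St_Meas) (hU : St_Uniq) (hDu : St_DuhI) (hF : St_FreX) (hL : St_LinJ) (hFt : St_Ft) (hD : St_Dns2)
    (hG : St_Grp1) (hSn : St_SnP) : St_G5 := by
  intro b hb A M T β hβ t ht
  by_contra hcon
  obtain ⟨w, ε, φ, hε, hφ, hbb⟩ := hWS.2.2.2.2.2.2.2.2 _ _ hcon
  have hT : ∀ n, t ≤ T (φ n) := by
    intro n
    by_contra hc
    have h1 := hbb n
    simp only [if_neg hc, sub_self, abs_zero] at h1
    linarith
  have hsub : ∀ n, Icc 0 t ⊆ Icc 0 (T (φ n)) := fun n => Icc_subset_Icc le_rfl (hT n)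
  obtain ⟨ψ, hψ, h2⟩ := core hWS hWC hNc hNb hM hU hDu hF hL hFt hD hG hSn hb (A := A) (M := M) ht
    (γ := fun n => β (φ n))
    (fun n => by
      obtain ⟨-, ⟨-, h3, h4, h5⟩, -⟩ := hβ.1 (φ n)
      exact ⟨ordConnected_Icc, h3.mono (hsub n), fun x hx y hy => h4 x (hsub n hx) y (hsub n hy),
        fun x hx y hy => h5 x (hsub n hx) y (hsub n hy)⟩)
    (fun n s hs => (hβ.1 (φ n)).2.2.1 s (hsub n hs))
    (fun n => (lintegral_mono_set (hsub n)).trans (hβ.1 (φ n)).2.2.2)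
    (hWS.2.2.2.1 (fun n => β n 0) 0 φ hβ.2 hφ)
  have h3 := h2 w
  rw [inner_zero_left] at h3
  have h4 : ∀ᶠ n in atTop, |(inner ℝ (β (φ (ψ n)) t) w : ℝ)| < ε := by
    have h5 := h3.abs
    rw [abs_zero] at h5
    exact h5.eventually (gt_mem_nhds hε)
  obtain ⟨n, hn⟩ := h4.exists
  have h5 := hbb (ψ n)
  simp only [if_pos (hT (ψ n)), inner_zero_left, sub_zero] at h5
  linarith

end Pool.Agent.QWF
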