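import Pool.Agent.QWF.StG
import Pool.Agent.QWF.StB

set_option autoImplicit false

/-!
# QWF, G7: smallness of the pairing for large times
-/

open MeasureTheory Filter Topology Set
open scoped ENNReal NNReal RealInnerProductSpace ContDiff

namespace Pool.Agent.QWF

namespace G7x

lemma sig_lt {b : ℝ} (hb : 4 < b) : |sig b| < 1 / 2 := by
  have hb0 : 0 < b := by linarith
  have h1 : 0 < 2 / b := by positivity
  have h2 : 2 / b < 1 := by rw [div_lt_one hb0]; linarith
  unfold sig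
  rw [abs_lt]
  constructor <;> linarith

lemma q1_sig {b : ℝ} (hb : 4 < b) : q1 (sig b) = ENNReal.ofReal (4 * b / (b + 2)) := by
  unfold q1 sig
  congr 1
  have h1 : b ≠ 0 := by linarith
  have h2 : b + 2 ≠ 0 := by linarith
  have h3 : (3 - 2 * (1 / 2 - 2 / b)) = 2 * (b + 2) / b := by
    field_simp
    ring
  rw [h3]
  field_simp
  ring

lemma q2_sig {b : ℝ} (hb : 4 < b) : q2 (sig b) = ENNReal.ofReal (2 * b / (b + 1)) := by
  unfold q2 sig
  congr 1
  have h1 : b ≠ 0 := by linarith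
  have h2 : b + 1 ≠ 0 := by linarith
  have h3 : (5 - 2 * (1 / 2 - 2 / b)) = 4 * (b + 1) / b := by
    field_simp
    ring
  rw [h3]
  field_simp
  ring

/-- Hoelder triples of real exponents. -/
lemma holder {p q r : ℝ} (hp : 0 < p) (hq : 0 < q) (hr : 0 < r) (h : 1 / p + 1 / q = 1 / r) :
    ENNReal.HolderTriple (ENNReal.ofReal p) (ENNReal.ofReal q) (ENNReal.ofReal r) := by
  refine ⟨?_⟩
  rw [← ENNReal.ofReal_inv_of_pos hp, ← ENNReal.ofReal_inv_of_pos hq,
    ← ENNReal.ofReal_inv_of_pos hr, ← ENNReal.ofReal_add (by positivity) (by positivity)]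
  congr 1
  rw [one_div, one_div, one_div] at h
  exact h

lemma test_pd {f : E → ℝ} (hf : IsTest f) (i : Fin 4) : IsTest (pd i f) := by
  refine ⟨?_, ?_⟩
  · exact (hf.1.fderiv_right (m := ∞) (by norm_num)).clm_apply contDiff_const
  · exact (hf.2.fderiv (𝕜 := ℝ)).comp_left
      (g := fun L : E →L[ℝ] ℝ => L (EuclideanSpace.single i (1 : ℝ))) rfl

lemma supp_pd {φ : E → ℝ} (i : Fin 4) : tsupport (pd i φ) ⊆ tsupport φ := by
  refine closure_minimal (fun x hx => ?_) (isClosed_tsupport φ)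
  by_contra hc
  refine hx ?_
  have h1 := image_eq_zero_of_notMem_tsupport (f := fderiv ℝ φ)
    (fun h => hc (tsupport_fderiv_subset ℝ h))
  unfold pd
  rw [h1]
  rfl

lemma test_lap {φ : E → ℝ} (h : IsTest φ) : IsTest (lap φ) := by
  refine ⟨?_, ?_⟩
  · have : ContDiff ℝ ∞ fun x => ∑ i, pd i (pd i φ) x :=
      ContDiff.sum fun i _ => (test_pd (test_pd h i) i).1
    exact this
  · refine h.2.mono' fun x hx => ?_
    by_contra hc
    refine hx ?_
    unfold lap
    refine Finset.sum_eq_zero fun i _ => ?_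
    exact image_eq_zero_of_notMem_tsupport fun h1 => hc (supp_pd i (supp_pd i h1))

lemma pd_le (i : Fin 4) (f : E → ℝ) (x : E) : |pd i f x| ≤ ‖iteratedFDeriv ℝ 1 f x‖ := by
  have h1 : |pd i f x| ≤ ‖fderiv ℝ f x‖ * ‖(EuclideanSpace.single i (1 : ℝ) : E)‖ :=
    (fderiv ℝ f x).le_opNorm _
  have h2 : ‖(EuclideanSpace.single i (1 : ℝ) : E)‖ = 1 := by simp
  rw [h2, mul_one] at h1
  rwa [norm_iteratedFDeriv_one]

/-- Interpolation between the sup norm and the `L²` norm. -/
lemma interp {y D C : ℝ} (hy : 2 < y) (hD : 0 ≤ D) (hC : 0 ≤ C) {h : E → ℝ}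
    (hi : Integrable (fun x => h x ^ 2)) (h1 : ∀ x, |h x| ≤ D)
    (h2 : ∫ x, h x ^ 2 ≤ C) :
    eLpNorm h (ENNReal.ofReal y) volume ≤ ENNReal.ofReal ((D ^ (y - 2) * C) ^ (1 / y)) := by
  have hy0 : 0 < y := by linarith
  have e1 : ∫⁻ x, ‖h x‖ₑ ^ y ≤ ENNReal.ofReal (D ^ (y - 2) * C) := by
    calc ∫⁻ x, ‖h x‖ₑ ^ y ≤ ∫⁻ x, ENNReal.ofReal (D ^ (y - 2)) * ENNReal.ofReal (h x ^ 2) := by
          refine lintegral_mono fun x => ?_
          rw [Real.enorm_eq_ofReal_abs, ENNReal.ofReal_rpow_of_nonneg (abs_nonneg _) hy0.le,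
            ← ENNReal.ofReal_mul (Real.rpow_nonneg hD _)]
          apply ENNReal.ofReal_le_ofReal
          have e2 : |h x| ^ y ≤ |h x| ^ (y - 2) * h x ^ 2 := by
            rcases (abs_nonneg (h x)).eq_or_lt with h0 | h0
            · rw [← h0, Real.zero_rpow hy0.ne']
              positivity
            · rw [← sq_abs, ← Real.rpow_two, ← Real.rpow_add h0]
              apply le_of_eq
              congr 1
              ring
          refine e2.trans (mul_le_mul_of_nonneg_right ?_ (sq_nonneg _))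
          exact Real.rpow_le_rpow (abs_nonneg _) (h1 x) (by linarith)
      _ = ENNReal.ofReal (D ^ (y - 2)) * ENNReal.ofReal (∫ x, h x ^ 2) := by
          rw [lintegral_const_mul' _ _ ENNReal.ofReal_ne_top,
            ofReal_integral_eq_lintegral_ofReal hi (Eventually.of_forall fun x => sq_nonneg _)]
      _ ≤ ENNReal.ofReal (D ^ (y - 2) * C) := by
          rw [ENNReal.ofReal_mul (Real.rpow_nonneg hD _)]
          exact mul_le_mul' le_rfl (ENNReal.ofReal_le_ofReal h2)
  rw [eLpNorm_eq_lintegral_rpow_enorm_toReal (by simpa using hy0) ENNReal.ofReal_ne_top,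
    ENNReal.toReal_ofReal hy0.le, ← ENNReal.ofReal_rpow_of_nonneg (by positivity) (by positivity)]
  exact ENNReal.rpow_le_rpow e1 (by positivity)

/-- The size of the factor for large times. -/
lemma small {y C : ℝ} (hy : 2 < y) (L ε : ℝ) (hε : 0 < ε) : ∃ R0 : ℝ, 0 ≤ R0 ∧ ∀ r : ℝ,
    R0 ≤ r → L * ((C / (1 + |r|) ^ (3 / 2 : ℝ)) ^ (y - 2) * C) ^ (1 / y) ≤ ε := by
  have h1 : Tendsto (fun r : ℝ => (1 + |r|) ^ (3 / 2 : ℝ)) atTop atTop := by
    refine (tendsto_rpow_atTop (by norm_num : (0 : ℝ) < 3 / 2)).comp ?_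
    exact tendsto_atTop_add_const_left _ _ tendsto_abs_atTop_atTop
  have h2 : Tendsto (fun r : ℝ => C / (1 + |r|) ^ (3 / 2 : ℝ)) atTop (𝓝 0) :=
    h1.const_div_atTop C
  have h3 : Tendsto (fun r : ℝ => (C / (1 + |r|) ^ (3 / 2 : ℝ)) ^ (y - 2)) atTop (𝓝 0) := by
    have := h2.rpow_const (p := y - 2) (Or.inr (by linarith))
    rwa [Real.zero_rpow (by linarith)] at this
  have h4 : Tendsto (fun r : ℝ => ((C / (1 + |r|) ^ (3 / 2 : ℝ)) ^ (y - 2) * C) ^ (1 / y)) atTop
      (𝓝 0) := by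
    have h5 := (h3.mul_const C).rpow_const (p := 1 / y) (Or.inr (by positivity))
    rwa [zero_mul, Real.zero_rpow (by positivity)] at h5
  have h6 := h4.const_mul L
  rw [mul_zero] at h6
  obtain ⟨R, hR⟩ := eventually_atTop.1 (h6.eventually_le_const hε)
  exact ⟨max R 0, le_max_right _ _, fun r hr => hR r ((le_max_left _ _).trans hr)⟩

/-- The norm of the gradient of the nonlinearity. -/
lemma grad {b : ℝ} (hb : 4 < b) {u g : E → ℝ} (hu : AEStronglyMeasurable u volume)
    (hg : AEStronglyMeasurable g volume) :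
    eLpNorm (fun x => (b + 1) * |u x| ^ b * g x) (q2 (sig b)) volume ≤
      ENNReal.ofReal (b + 1) * eLpNorm u (ENNReal.ofReal (4 * b)) volume ^ b *
        eLpNorm g (q1 (sig b)) volume := by
  have hb0 : 0 < b := by linarith
  have i1 : ENNReal.HolderTriple (ENNReal.ofReal 4) (ENNReal.ofReal (4 * b / (b + 2)))
      (ENNReal.ofReal (2 * b / (b + 1))) := by
    refine holder (by norm_num) (by positivity) (by positivity) ?_
    field_simp
    ring
  rw [q1_sig hb, q2_sig hb]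
  have hm : AEStronglyMeasurable (fun x => |u x| ^ b) (volume : Measure E) :=
    (Real.continuous_rpow_const hb0.le).comp_aestronglyMeasurable hu.norm
  have h1 : (fun x => (b + 1) * |u x| ^ b * g x) = (b + 1) • fun x => |u x| ^ b * g x := by
    funext x
    simp only [Pi.smul_apply, smul_eq_mul]
    ring
  rw [h1, eLpNorm_const_smul, Real.enorm_eq_ofReal (by linarith), mul_assoc]
  refine mul_le_mul' le_rfl ?_
  have h2 : eLpNorm (fun x => |u x| ^ b * g x) (ENNReal.ofReal (2 * b / (b + 1))) volume ≤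
      eLpNorm (fun x => |u x| ^ b) (ENNReal.ofReal 4) volume *
        eLpNorm g (ENNReal.ofReal (4 * b / (b + 2))) volume :=
    eLpNorm_smul_le_mul_eLpNorm (φ := fun x => |u x| ^ b) (f := g) hg hm
  have h3 : eLpNorm (fun x => |u x| ^ b) (ENNReal.ofReal 4) volume =
      eLpNorm u (ENNReal.ofReal (4 * b)) volume ^ b := by
    have h := eLpNorm_norm_rpow (μ := (volume : Measure E)) (p := ENNReal.ofReal 4) (q := b) u hb0
    rw [← ENNReal.ofReal_mul (by norm_num)] at h
    exact h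
  rwa [h3] at h2

/-- Hoelder pairing. -/
lemma pair {b : ℝ} (hb : 4 < b) {G h : E → ℝ} (hG : AEStronglyMeasurable G volume)
    (hh : AEStronglyMeasurable h volume) :
    ‖∫ x, G x * h x‖ₑ ≤ eLpNorm G (q2 (sig b)) volume *
      eLpNorm h (ENNReal.ofReal (2 * b / (b - 1))) volume := by
  have hb1 : 0 < b - 1 := by linarith
  have i1 : ENNReal.HolderTriple (ENNReal.ofReal (2 * b / (b + 1))) (ENNReal.ofReal (2 * b / (b - 1)))
      (ENNReal.ofReal 1) := by
    refine holder (by positivity) (by positivity) (by norm_num) ?_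
    have : b ≠ 0 := by linarith
    field_simp
    ring
  rw [q2_sig hb]
  refine (enorm_integral_le_lintegral_enorm _).trans ?_
  have h1 : eLpNorm (fun x => G x * h x) (ENNReal.ofReal 1) volume ≤
      eLpNorm G (ENNReal.ofReal (2 * b / (b + 1))) volume *
        eLpNorm h (ENNReal.ofReal (2 * b / (b - 1))) volume :=
    eLpNorm_smul_le_mul_eLpNorm (φ := G) (f := h) hh hG
  rw [ENNReal.ofReal_one, eLpNorm_one_eq_lintegral_enorm] at h1
  exact h1

end G7x

open G7x in
/-- **G7** (smallness of the pairing for large times). -/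
theorem thm_G7 (hDcy : St_Dcy) (hNLg : St_NLg) (hNLw : St_NLw) (hFld : St_FldP) : St_G7 := by
  intro b hb φ ψ hφ hψ ε hε
  have hs := sig_lt hb
  obtain ⟨C1, M1, hC1, -, hD1⟩ := hDcy φ hφ
  obtain ⟨C2, M2, hC2, -, hD2⟩ := hDcy ψ hψ
  obtain ⟨CF, hCF, hF, -⟩ := hFld (sig b) hs
  have hb0 : 0 < b := by linarith
  have hb1 : 0 < b - 1 := by linarith
  have hy : 2 < 2 * b / (b - 1) := by
    rw [lt_div_iff₀ hb1]
    linarith
  obtain ⟨R0, hR0, hR⟩ := small (C := C1 + C2) hy (8 * (b + 1) * CF) ε hε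
  refine ⟨R0, fun k r hr hk => ?_⟩
  obtain ⟨f1, f2, tf1, tf2, hst, -, hsup, hL2⟩ := hD1 r
  obtain ⟨g1, g2, tg1, tg2, hst', -, hsup', hL2'⟩ := hD2 r
  obtain ⟨hs1, hs2⟩ := abs_lt.1 hs
  obtain ⟨-, -, q1', -⟩ := hst (sig b) (by linarith) hs2
  obtain ⟨-, -, -, q2'⟩ := hst' (sig b) (by linarith) hs2
  obtain ⟨-, hWD⟩ := hNLg b k hb hk
  set u := U (sig b) k with hu
  set η : ℝ := (((C1 + C2) / (1 + |r|) ^ (3 / 2 : ℝ)) ^ (2 * b / (b - 1) - 2) * (C1 + C2)) ^
    (1 / (2 * b / (b - 1))) with hη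
  have hη0 : 0 ≤ η := by positivity
  -- one Laplacian
  have key : ∀ g : E → ℝ, IsTest g →
      (∀ x, ‖iteratedFDeriv ℝ 1 g x‖ ≤ (C1 + C2) / (1 + |r|) ^ (3 / 2 : ℝ)) →
      (∀ i, ∫ x, pd i g x ^ 2 ≤ C1 + C2) →
      ‖∫ x, Fn b (u x) * lap g x‖ₑ ≤ ENNReal.ofReal (4 * (b + 1) * CF * η) * sn b k ^ b * ‖k‖ₑ := by
    intro g hg hg1 hg2
    have h1 : ∫ x, Fn b (u x) * lap g x = ∑ i, ∫ x, Fn b (u x) * pd i (pd i g) x := by
      rw [← integral_finsetSum]
      · refine integral_congr_ae (Eventually.of_forall fun x => ?_)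
        simp only [lap]
        rw [Finset.mul_sum]
      · intro i _
        exact (hNLw b hb _ (test_pd (test_pd hg i) i)).2.1 k
    rw [h1]
    refine (enorm_sum_le _ _).trans ?_
    have h2 : ∀ i : Fin 4, ‖∫ x, Fn b (u x) * pd i (pd i g) x‖ₑ ≤
        ENNReal.ofReal ((b + 1) * CF * η) * sn b k ^ b * ‖k‖ₑ := by
      intro i
      rw [(hWD i).2 (pd i g) (test_pd hg i), enorm_neg]
      refine (pair hb (hWD i).1.1 (test_pd hg i).1.continuous.aestronglyMeasurable).trans ?_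
      have h3 := grad hb (hF k).1.1.1 ((hF k).2.2.2.2.1 i).1.1
      have h4 := interp hy (D := (C1 + C2) / (1 + |r|) ^ (3 / 2 : ℝ)) (C := C1 + C2) (by positivity)
        (by positivity)
        (by
          refine ((test_pd hg i).1.continuous.pow 2).integrable_of_hasCompactSupport ?_
          exact (test_pd hg i).2.comp_left (g := fun y : ℝ => y ^ 2) (by norm_num))
        (fun x => (pd_le i g x).trans (hg1 x)) (hg2 i)
      have h5 := ((hF k).2.2.2.2.1 i).2.2
      calc eLpNorm (fun x => (b + 1) * |u x| ^ b * DU (sig b) k i x) (q2 (sig b)) volume *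
          eLpNorm (pd i g) (ENNReal.ofReal (2 * b / (b - 1))) volume
          ≤ (ENNReal.ofReal (b + 1) * sn b k ^ b * (ENNReal.ofReal CF * ‖k‖ₑ)) * ENNReal.ofReal η :=
            mul_le_mul' (h3.trans (mul_le_mul' le_rfl h5)) h4
        _ = ENNReal.ofReal ((b + 1) * CF * η) * sn b k ^ b * ‖k‖ₑ := by
            rw [ENNReal.ofReal_mul (by positivity), ENNReal.ofReal_mul (by positivity)]
            ring
    calc ∑ i : Fin 4, ‖∫ x, Fn b (u x) * pd i (pd i g) x‖ₑ
        ≤ ∑ _i : Fin 4, ENNReal.ofReal ((b + 1) * CF * η) * sn b k ^ b * ‖k‖ₑ :=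
          Finset.sum_le_sum fun i _ => h2 i
      _ = ENNReal.ofReal (4 * (b + 1) * CF * η) * sn b k ^ b * ‖k‖ₑ := by
          rw [Finset.sum_const, Finset.card_univ, Fintype.card_fin, nsmul_eq_mul, ← mul_assoc,
            ← mul_assoc]
          have e : 4 * (b + 1) * CF * η = 4 * ((b + 1) * CF * η) := by ring
          rw [e, ENNReal.ofReal_mul (by norm_num : (0 : ℝ) ≤ 4)]
          norm_num
  have c0' : ∀ C : ℝ, C ≤ C1 + C2 → C / (1 + |r|) ^ (3 / 2 : ℝ) ≤
      (C1 + C2) / (1 + |r|) ^ (3 / 2 : ℝ) := fun C hC =>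
    div_le_div_of_nonneg_right hC (by positivity)
  have k1 := key f2 tf2 (fun x => ((hsup x 1 (by norm_num)).2).trans (c0' C1 (by linarith)))
    (fun i => ((hL2 i).2).trans (by linarith))
  have k2 := key g1 tg1 (fun x => ((hsup' x 1 (by norm_num)).1).trans (c0' C2 (by linarith)))
    (fun i => ((hL2' i).1).trans (by linarith))
  have e1 : (inner ℝ (NL b k) (tau r (Rs (sig b) (lap φ) + dRs (sig b) (lap ψ))) : ℝ) =
      (∫ x, Fn b (u x) * lap f2 x) + ∫ x, Fn b (u x) * lap g1 x := by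
    rw [map_add, q1', q2', inner_add_right, inner_add_right, inner_add_right,
      ((hNLw b hb _ (test_lap tf1)).1 k hk).1, ((hNLw b hb _ (test_lap tf2)).1 k hk).2,
      ((hNLw b hb _ (test_lap (test_lap tg2))).1 k hk).1, ((hNLw b hb _ (test_lap tg1)).1 k hk).2,
      zero_add, zero_add]
  rw [e1]
  refine (enorm_add_le _ _).trans ((add_le_add k1 k2).trans ?_)
  rw [← add_mul, ← add_mul, ← ENNReal.ofReal_add (by positivity) (by positivity)]
  refine mul_le_mul' (mul_le_mul' (ENNReal.ofReal_le_ofReal ?_) le_rfl) le_rfl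
  have h := hR r hr
  rw [← hη] at h
  linarith

end Pool.Agent.QWF
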