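import Pool.Agent.QWF.StG
import Pool.Agent.QWF.Loc
import Pool.Agent.QWF.G5

set_option autoImplicit false

/-!
# QWF, G8: weak nullity for all times, interaction picture, all exponents (port of QWE.G8, helper15)
-/

open MeasureTheory Filter Topology Set
open scoped ENNReal NNReal RealInnerProductSpace

namespace Pool.Agent.QWF


namespace G8x

open Locx G5x

/-- the late times. -/
lemma tail {b : ℝ} (hb0 : 4 < b) {A M ε R0 : ℝ} {T t M' : ℝ} {γ : ℝ → K} {κ : K} (hM : St_Meas)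
    (hε : 0 ≤ ε)
    (h7 : ∀ (k : K) (r : ℝ), R0 ≤ r → sn b k < ⊤ → ‖(inner ℝ (NL b k) (tau r κ) : ℝ)‖ₑ ≤
      ENNReal.ofReal ε * sn b k ^ b * ‖k‖ₑ)
    (hm : AEStronglyMeasurable γ (volume.restrict (Icc 0 T)))
    (hn : ∀ s ∈ Icc 0 T, ‖γ s‖ ≤ A) (hS : SN b (Icc 0 T) γ ≤ ENNReal.ofReal M)
    (htT : t ≤ T) (hM1 : R0 ≤ M') (hM0 : 0 ≤ M') (hA : 0 ≤ A) :
    |∫ r in Ioc M' t, (inner ℝ (NL b (γ r)) (tau r κ) : ℝ)| ≤ ε * A * |M| := by
  have hsub : Ioc M' t ⊆ Icc 0 T := fun r hr => ⟨by linarith [hr.1], hr.2.trans htT⟩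
  have hf := sn_fin hb0 hM measurableSet_Icc hm (hS.trans_lt ENNReal.ofReal_lt_top)
  have hf' : ∀ᵐ r ∂(volume.restrict (Ioc M' t)), sn b (γ r) < ⊤ :=
    ae_restrict_of_ae_restrict_of_subset hsub hf
  have h1 : ‖∫ r in Ioc M' t, (inner ℝ (NL b (γ r)) (tau r κ) : ℝ)‖ₑ ≤
      ENNReal.ofReal (ε * A * |M|) := by
    refine (enorm_integral_le_lintegral_enorm _).trans ?_
    calc ∫⁻ r in Ioc M' t, ‖(inner ℝ (NL b (γ r)) (tau r κ) : ℝ)‖ₑ
        ≤ ∫⁻ r in Ioc M' t, (ENNReal.ofReal ε * ENNReal.ofReal A) * sn b (γ r) ^ b := by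
          refine lintegral_mono_ae ?_
          filter_upwards [hf', ae_restrict_mem measurableSet_Ioc] with r hr hr2
          refine (h7 (γ r) r (hM1.trans hr2.1.le) hr).trans ?_
          have h2 : ‖γ r‖ₑ ≤ ENNReal.ofReal A := by
            rw [← ofReal_norm]
            exact ENNReal.ofReal_le_ofReal (hn r (hsub hr2))
          calc ENNReal.ofReal ε * sn b (γ r) ^ b * ‖γ r‖ₑ
              ≤ ENNReal.ofReal ε * sn b (γ r) ^ b * ENNReal.ofReal A := mul_le_mul' le_rfl h2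
            _ = (ENNReal.ofReal ε * ENNReal.ofReal A) * sn b (γ r) ^ b := by ring
      _ = (ENNReal.ofReal ε * ENNReal.ofReal A) * ∫⁻ r in Ioc M' t, sn b (γ r) ^ b :=
          lintegral_const_mul' _ _ (ENNReal.mul_ne_top ENNReal.ofReal_ne_top ENNReal.ofReal_ne_top)
      _ ≤ (ENNReal.ofReal ε * ENNReal.ofReal A) * ENNReal.ofReal M :=
          mul_le_mul' le_rfl ((lintegral_mono_set hsub).trans hS)
      _ ≤ ENNReal.ofReal (ε * A * |M|) := by
          rw [← ENNReal.ofReal_mul hε, ← ENNReal.ofReal_mul (mul_nonneg hε hA)]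
          exact ENNReal.ofReal_le_ofReal (mul_le_mul_of_nonneg_left (le_abs_self M)
            (mul_nonneg hε hA))
  rw [Real.enorm_eq_ofReal_abs] at h1
  exact (ENNReal.ofReal_le_ofReal_iff (by positivity)).1 h1

lemma NL_zero {b C : ℝ} (hC : ∀ k : K, ‖NL b k‖ₑ ≤ ENNReal.ofReal C * sn b k ^ b * ‖k‖ₑ) :
    NL b (0 : K) = 0 := by
  have h := hC 0
  rw [enorm_zero, mul_zero, nonpos_iff_eq_zero, enorm_eq_zero] at h
  exact h

/-- the early times. -/
lemma early {b : ℝ} (hb0 : 4 < b) (hG5 : St_G5) (hNc : St_NLc) (hNb : St_NLb) (hM : St_Meas) (hSn : St_SnP)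
    (hF : St_FreX) (hL : St_LinJ) (hFt : St_Ft) (hG : St_Grp1) {A M : ℝ} {T t : ℕ → ℝ} {β : ℕ → ℝ → K}
    (hβ : BetaSeq b A M T β) (ht : ∀ n, t n ∈ Icc 0 (T n))
    (hi : ∀ n, IntegrableOn (fun r => NL b (β n r)) (Icc 0 (T n)) volume)
    {f g : E → ℝ} (hf : IsTest f) (hg : IsTest g) (M' : ℝ) :
    Tendsto (fun n => ∫ r in Ioc 0 (min M' (t n)),
      (inner ℝ (NL b (β n r)) (tau r (Rs (sig b) f + dRs (sig b) g)) : ℝ)) atTop (𝓝 0) := by
  obtain ⟨⟨C, hC0, hC1, -⟩, -⟩ := hNb b hb0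
  obtain ⟨C3, hC30, hC3⟩ := (hNc b hb0).2.2 f g M' hf hg
  have hA : 0 ≤ A := (norm_nonneg _).trans ((hβ.1 0).2.2.1 0 ⟨le_rfl, (hβ.1 0).1⟩)
  have hfin : ∀ n, ∀ᵐ r ∂(volume.restrict (Icc 0 (T n))), sn b (β n r) < ⊤ := by
    intro n
    obtain ⟨h1, h2, h3, h4⟩ := hβ.1 n
    exact sn_fin hb0 hM measurableSet_Icc (h2.2.1.aestronglyMeasurable measurableSet_Icc)
      (lt_of_le_of_lt h4 ENNReal.ofReal_lt_top)
  have hfin' : ∀ᵐ r : ℝ, ∀ n, r ∈ Icc 0 (T n) → sn b (β n r) < ⊤ := by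
    rw [ae_all_iff]
    intro n
    exact (ae_restrict_iff' measurableSet_Icc).1 (hfin n)
  have hconv : ∀ n, ∫ r in Ioc 0 (min M' (t n)),
      (inner ℝ (NL b (β n r)) (tau r (Rs (sig b) f + dRs (sig b) g)) : ℝ) = ∫ r in Ioc 0 M',
      (Iic (t n)).indicator (fun r => (inner ℝ (NL b (β n r)) (tau r (Rs (sig b) f + dRs (sig b) g)) : ℝ)) r := by
    intro n
    rw [setIntegral_indicator measurableSet_Iic]
    congr 2
    ext r
    simp only [mem_Ioc, mem_inter_iff, mem_Iic, le_min_iff]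
    tauto
  simp_rw [hconv]
  have key : Tendsto (fun n => ∫ r in Ioc 0 M',
      (Iic (t n)).indicator (fun r => (inner ℝ (NL b (β n r)) (tau r (Rs (sig b) f + dRs (sig b) g)) : ℝ)) r) atTop
      (𝓝 (∫ _ in Ioc 0 M', (0 : ℝ))) := by
    apply tendsto_integral_of_dominated_convergence (fun _ => C3 * A ^ (b + 1))
    · intro n
      rw [aestronglyMeasurable_indicator_iff measurableSet_Iic,
        Measure.restrict_restrict measurableSet_Iic]
      have h1 := pair_meas hG 0 (Rs (sig b) f + dRs (sig b) g) (hi n)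
      have h2 : AEStronglyMeasurable (fun r => (inner ℝ (NL b (β n r)) (tau r (Rs (sig b) f + dRs (sig b) g)) : ℝ))
          (volume.restrict (Icc 0 (T n))) := by
        refine h1.congr (Eventually.of_forall fun r => ?_)
        simp only [sub_zero]
      apply h2.mono_measure
      apply Measure.restrict_mono _ le_rfl
      intro r hr
      exact ⟨hr.2.1.le, (mem_Iic.1 hr.1).trans (ht n).2⟩
    · exact integrable_const _
    · intro n
      filter_upwards [ae_restrict_of_ae hfin', ae_restrict_mem measurableSet_Ioc] with r hr hr2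
      by_cases hrt : r ∈ Iic (t n)
      · rw [indicator_of_mem hrt]
        have hr3 : r ∈ Icc 0 (T n) := ⟨hr2.1.le, (mem_Iic.1 hrt).trans (ht n).2⟩
        have hr4 : |r| ≤ M' := by
          rw [abs_of_pos hr2.1]
          exact hr2.2
        refine (hC3 r (β n r) hr4 (hr n hr3)).trans ?_
        exact mul_le_mul_of_nonneg_left (Real.rpow_le_rpow (norm_nonneg _)
          ((hβ.1 n).2.2.1 r hr3) (by linarith)) hC30.le
      · rw [indicator_of_notMem hrt, norm_zero]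
        positivity
    · filter_upwards [ae_restrict_of_ae hfin', ae_restrict_mem measurableSet_Ioc] with r hr hr2
      obtain ⟨f', g', hf', hg', he⟩ := tau_cls hFt hF hL (sig_lt hb0) hf hg r
      have hw := hG5 b hb0 A M T β hβ r hr2.1.le
      have hsn : ∀ n, sn b (if r ≤ T n then β n r else 0) < ⊤ := by
        intro n
        split_ifs with h
        · exact hr n ⟨hr2.1.le, h⟩
        · rw [(hSn b hb0).2.2.2.2.1]
          exact ENNReal.zero_lt_top
      have h1 := (hNc b hb0).2.1 _ 0 f' g' hf' hg' hw hsn (by rw [(hSn b hb0).2.2.2.2.1]; exact ENNReal.zero_lt_top)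
      rw [NL_zero hC1, inner_zero_left] at h1
      refine squeeze_zero_norm
        (a := fun n => ‖(inner ℝ (NL b (if r ≤ T n then β n r else 0))
          (Rs (sig b) f' + dRs (sig b) g') : ℝ)‖) ?_
        (by simpa using h1.norm)
      intro n
      by_cases hrt : r ∈ Iic (t n)
      · rw [indicator_of_mem hrt, he, if_pos ((mem_Iic.1 hrt).trans (ht n).2)]
      · rw [indicator_of_notMem hrt, norm_zero]
        exact norm_nonneg _
  simpa using key

/-- the test states. -/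
lemma step1 {b : ℝ} (hb0 : 4 < b) (hG5 : St_G5) (hG7 : St_G7) (hNc : St_NLc) (hNb : St_NLb) (hM : St_Meas)
    (hSn : St_SnP) (hF : St_FreX) (hL : St_LinJ) (hFt : St_Ft) (hG : St_Grp1) {A M : ℝ} {T t : ℕ → ℝ} {β : ℕ → ℝ → K}
    (hβ : BetaSeq b A M T β) (ht : ∀ n, t n ∈ Icc 0 (T n)) {f g : E → ℝ} (hf : IsTest f)
    (hg : IsTest g) :
    Tendsto (fun n => (inner ℝ (tau (-(t n)) (β n (t n))) (Rs (sig b) (lap f) + dRs (sig b) (lap g)) : ℝ)) atTop (𝓝 0) := by
  obtain ⟨⟨C, hC0, hCb, -⟩, -⟩ := id (hNb b hb0)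
  have hA : 0 ≤ A := (norm_nonneg _).trans ((hβ.1 0).2.2.1 0 ⟨le_rfl, (hβ.1 0).1⟩)
  have hm : ∀ n, AEStronglyMeasurable (β n) (volume.restrict (Icc 0 (T n))) := fun n =>
    (hβ.1 n).2.1.2.1.aestronglyMeasurable measurableSet_Icc
  have hi : ∀ n, IntegrableOn (fun r => NL b (β n r)) (Icc 0 (T n)) volume := fun n =>
    nl_int hb0 hCb hM (hm n) (lt_of_le_of_lt (hβ.1 n).2.2.2 ENNReal.ofReal_lt_top)
      (hβ.1 n).2.2.1
  have hform : ∀ (n : ℕ) (M' : ℝ), 0 ≤ M' →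
      (inner ℝ (tau (-(t n)) (β n (t n))) (Rs (sig b) (lap f) + dRs (sig b) (lap g)) : ℝ) = inner ℝ (β n 0) (Rs (sig b) (lap f) + dRs (sig b) (lap g)) -
        ((∫ r in Ioc 0 (min M' (t n)), (inner ℝ (NL b (β n r)) (tau r (Rs (sig b) (lap f) + dRs (sig b) (lap g))) : ℝ)) +
          ∫ r in Ioc M' (t n), (inner ℝ (NL b (β n r)) (tau r (Rs (sig b) (lap f) + dRs (sig b) (lap g))) : ℝ)) := by
    intro n M' hM'
    have h0 : (0 : ℝ) ∈ Icc 0 (T n) := ⟨le_rfl, (hβ.1 n).1⟩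
    have hadj := hG.2.2.2.2.2.1
    rw [hadj, neg_neg, wduh hG (hβ.1 n).2.1 (hi n) h0 (ht n) (tau (t n) (Rs (sig b) (lap f) + dRs (sig b) (lap g))), hG.1,
      zero_sub, neg_add_cancel, hG.2.1]
    congr 1
    have h1 : ∀ r : ℝ, tau (r - t n) (tau (t n) (Rs (sig b) (lap f) + dRs (sig b) (lap g))) = tau r (Rs (sig b) (lap f) + dRs (sig b) (lap g)) := by
      intro r
      rw [hG.1]
      congr 2
      ring
    simp_rw [h1]
    rw [intervalIntegral.integral_of_le (ht n).1]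
    have h2 : Ioc 0 (t n) = Ioc 0 (min M' (t n)) ∪ Ioc M' (t n) := by
      ext r
      simp only [mem_Ioc, mem_union, le_min_iff]
      constructor
      · rintro ⟨a, b⟩
        rcases le_or_gt r M' with h | h
        · exact Or.inl ⟨a, h, b⟩
        · exact Or.inr ⟨h, b⟩
      · rintro (⟨a, _, b⟩ | ⟨a, b⟩)
        · exact ⟨a, b⟩
        · exact ⟨by linarith, b⟩
    have h3 : Disjoint (Ioc 0 (min M' (t n))) (Ioc M' (t n)) := by
      rw [Set.disjoint_left]
      intro r hr hr2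
      have := (le_min_iff.1 hr.2).1
      linarith [hr2.1]
    have hgi : IntegrableOn (fun r => (inner ℝ (NL b (β n r)) (tau r (Rs (sig b) (lap f) + dRs (sig b) (lap g))) : ℝ))
        (Icc 0 (T n)) volume := by
      have h4 := pair_meas hG 0 (Rs (sig b) (lap f) + dRs (sig b) (lap g)) (hi n)
      refine Integrable.mono' ((hi n).norm.mul_const ‖(Rs (sig b) (lap f) + dRs (sig b) (lap g))‖) ?_ ?_
      · refine h4.congr (Eventually.of_forall fun r => ?_)
        simp only [sub_zero]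
      · refine Eventually.of_forall fun r => ?_
        refine (norm_inner_le_norm _ _).trans ?_
        rw [LinearIsometry.norm_map]
    rw [h2, setIntegral_union h3 measurableSet_Ioc]
    · apply hgi.mono_set
      intro r hr
      exact ⟨hr.1.le, ((le_min_iff.1 hr.2).2).trans (ht n).2⟩
    · apply hgi.mono_set
      intro r hr
      exact ⟨by linarith [hr.1], hr.2.trans (ht n).2⟩
  rw [Metric.tendsto_atTop]
  intro ε hε
  obtain ⟨η, hη⟩ : ∃ η : ℝ, η = ε / (4 * ((A + 1) * (|M| + 1))) := ⟨_, rfl⟩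
  have hη0 : 0 < η := by
    rw [hη]
    positivity
  have hηs : η * A * |M| ≤ ε / 4 := by
    calc η * A * |M| ≤ η * (A + 1) * (|M| + 1) := by
          have := abs_nonneg M
          gcongr <;> linarith
      _ = ε / 4 := by
          rw [hη]
          field_simp
  obtain ⟨R0, hC7⟩ := hG7 b hb0 f g hf hg η hη0
  obtain ⟨M', hM1, hM2⟩ : ∃ M' : ℝ, 1 ≤ M' ∧ R0 ≤ M' :=
    ⟨max 1 R0, le_max_left _ _, le_max_right _ _⟩
  have e1 := (Metric.tendsto_atTop.1 (hβ.2 (Rs (sig b) (lap f) + dRs (sig b) (lap g)))) (ε / 4) (by positivity)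
  have e2 := (Metric.tendsto_atTop.1
    (early hb0 hG5 hNc hNb hM hSn hF hL hFt hG hβ ht hi
      (test_lap hf) (test_lap hg) M')) (ε / 4) (by positivity)
  obtain ⟨N1, hN1⟩ := e1
  obtain ⟨N2, hN2⟩ := e2
  refine ⟨max N1 N2, fun n hn => ?_⟩
  have a1 := hN1 n (le_of_max_le_left hn)
  have a2 := hN2 n (le_of_max_le_right hn)
  have a3 := tail hb0 hM hη0.le hC7 (hm n) (hβ.1 n).2.2.1 (hβ.1 n).2.2.2 (ht n).2 hM2
    (by linarith) hA
  rw [inner_zero_left, Real.dist_eq, sub_zero] at a1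
  rw [Real.dist_eq, sub_zero] at a2
  rw [Real.dist_eq, sub_zero, hform n M' (by linarith)]
  have b1 := abs_sub (inner ℝ (β n 0) (Rs (sig b) (lap f) + dRs (sig b) (lap g)) : ℝ)
    ((∫ r in Ioc 0 (min M' (t n)), (inner ℝ (NL b (β n r)) (tau r (Rs (sig b) (lap f) + dRs (sig b) (lap g))) : ℝ)) +
          ∫ r in Ioc M' (t n), (inner ℝ (NL b (β n r)) (tau r (Rs (sig b) (lap f) + dRs (sig b) (lap g))) : ℝ))
  have b2 := abs_add_le
    (∫ r in Ioc 0 (min M' (t n)), (inner ℝ (NL b (β n r)) (tau r (Rs (sig b) (lap f) + dRs (sig b) (lap g))) : ℝ))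
    (∫ r in Ioc M' (t n), (inner ℝ (NL b (β n r)) (tau r (Rs (sig b) (lap f) + dRs (sig b) (lap g))) : ℝ))
  linarith

end G8x

open Locx G5x G8x in
theorem thm_G8 (hG5 : St_G5) (hG7 : St_G7) (hNc : St_NLc) (hNb : St_NLb) (hM : St_Meas)
    (hSn : St_SnP) (hF : St_FreX) (hL : St_LinJ) (hFt : St_Ft) (hD : St_Dns2) (hG : St_Grp1) : St_G8 := by
  intro b hb0 A M T t β C1 c hβ ht hC1 hc
  have hA : 0 ≤ A := (norm_nonneg _).trans ((hβ.1 0).2.2.1 0 ⟨le_rfl, (hβ.1 0).1⟩)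
  have hb : ∀ n, ‖tau (-(t n)) (β n (t n))‖ ≤ A := by
    intro n
    rw [LinearIsometry.norm_map]
    exact (hβ.1 n).2.2.1 (t n) (ht n)
  have hclose : ∀ (n : ℕ) (x y : K), |(inner ℝ (tau (-(t n)) (β n (t n))) x : ℝ)| ≤
      |(inner ℝ (tau (-(t n)) (β n (t n))) y : ℝ)| + A * ‖x - y‖ := by
    intro n x y
    have h1 : (inner ℝ (tau (-(t n)) (β n (t n))) x : ℝ) =
        inner ℝ (tau (-(t n)) (β n (t n))) y + inner ℝ (tau (-(t n)) (β n (t n))) (x - y) := by
      rw [← inner_add_right]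
      congr 1
      abel
    rw [h1]
    refine (abs_add_le _ _).trans (add_le_add le_rfl ?_)
    exact (abs_real_inner_le_norm _ _).trans (mul_le_mul_of_nonneg_right (hb n) (norm_nonneg _))
  have step2 : ∀ κ : K, ∀ ε : ℝ, 0 < ε → ∀ᶠ n in atTop,
      |(inner ℝ (tau (-(t n)) (β n (t n))) κ : ℝ)| < ε := by
    intro κ ε hε
    obtain ⟨f, g, hf, hg, hfg⟩ := (hD (sig b) (sig_lt hb0) κ (ε / (2 * (A + 1))) (by positivity)).2
    have h1 := (Metric.tendsto_atTop.1
      (step1 hb0 hG5 hG7 hNc hNb hM hSn hF hL hFt hG hβ ht hf hg)) (ε / 2) (by positivity)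
    obtain ⟨N, hN⟩ := h1
    filter_upwards [eventually_ge_atTop N] with n hn
    have h2 := hN n hn
    rw [Real.dist_eq, sub_zero] at h2
    have h3 := hclose n κ (Rs (sig b) (lap f) + dRs (sig b) (lap g))
    have h4 : A * ‖κ - (Rs (sig b) (lap f) + dRs (sig b) (lap g))‖ ≤ ε / 2 := by
      calc A * ‖κ - (Rs (sig b) (lap f) + dRs (sig b) (lap g))‖ ≤ (A + 1) * (ε / (2 * (A + 1))) :=
            mul_le_mul (by linarith) hfg.le (norm_nonneg _) (by positivity)
        _ = ε / 2 := by field_simp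
    linarith
  rw [Metric.tendsto_atTop]
  intro ε hε
  obtain ⟨s, hs1, hs2, hs3⟩ := hC1.finite_cover_balls (e := ε / (2 * (A + 1))) (by positivity)
  have h1 : ∀ᶠ n in atTop, ∀ κ ∈ s,
      |(inner ℝ (tau (-(t n)) (β n (t n))) κ : ℝ)| < ε / 2 := by
    rw [eventually_all_finite hs2]
    intro κ _
    exact step2 κ (ε / 2) (by positivity)
  obtain ⟨N, hN⟩ := eventually_atTop.1 h1
  refine ⟨N, fun n hn => ?_⟩
  rw [Real.dist_eq, sub_zero]
  have h2 := hs3 (hc n)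
  simp only [mem_iUnion, Metric.mem_ball, exists_prop] at h2
  obtain ⟨κ, hκ, hd⟩ := h2
  rw [dist_eq_norm] at hd
  have h3 := hclose n (c n) κ
  have h4 := hN n hn κ hκ
  have h5 : A * ‖c n - κ‖ ≤ ε / 2 := by
    calc A * ‖c n - κ‖ ≤ (A + 1) * (ε / (2 * (A + 1))) :=
          mul_le_mul (by linarith) hd.le (norm_nonneg _) (by positivity)
      _ = ε / 2 := by field_simp
  linarith

end Pool.Agent.QWF
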