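import Pool.Agent.QWF.StC0

set_option autoImplicit false

/-!
# QWF, module GLim
-/

open MeasureTheory Filter Topology Set
open scoped ENNReal NNReal RealInnerProductSpace

namespace Pool.Agent.QWF

namespace GLimx

/-- an abstract compactness argument -/
lemma sub3 {A B C : Type} [MetricSpace A] [MetricSpace B] [MetricSpace C]
    {s : Set A} {t : Set B} {u : Set C} (hs : IsCompact s) (ht : IsCompact t) (hu : IsCompact u)
    (x : ℕ → A) (y : ℕ → B) (z : ℕ → C) (hx : ∀ n, x n ∈ s) (hy : ∀ n, y n ∈ t)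
    (hz : ∀ n, z n ∈ u) :
    ∃ φ : ℕ → ℕ, StrictMono φ ∧ ∃ a b c, c ∈ u ∧ Tendsto (x ∘ φ) atTop (𝓝 a) ∧
      Tendsto (y ∘ φ) atTop (𝓝 b) ∧ Tendsto (z ∘ φ) atTop (𝓝 c) := by
  obtain ⟨a, _, φ1, h1, l1⟩ := hs.tendsto_subseq hx
  obtain ⟨b, _, φ2, h2, l2⟩ := ht.tendsto_subseq (x := y ∘ φ1) (fun n => hy _)
  obtain ⟨c, hc, φ3, h3, l3⟩ := hu.tendsto_subseq (x := z ∘ φ1 ∘ φ2) (fun n => hz _)
  refine ⟨φ1 ∘ φ2 ∘ φ3, h1.comp (h2.comp h3), a, b, c, hc, ?_, ?_, l3⟩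
  · exact l1.comp (h2.tendsto_atTop.comp h3.tendsto_atTop)
  · exact l2.comp h3.tendsto_atTop

lemma lim3 {A B C D : Type} [TopologicalSpace A] [TopologicalSpace B] [TopologicalSpace C]
    [TopologicalSpace D] (f : A → B → C → D) (hf : Continuous fun z : A × B × C => f z.1 z.2.1 z.2.2)
    {x : ℕ → A} {y : ℕ → B} {z : ℕ → C} {a : A} {b : B} {c : C} (hx : Tendsto x atTop (𝓝 a))
    (hy : Tendsto y atTop (𝓝 b)) (hz : Tendsto z atTop (𝓝 c)) :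
    Tendsto (fun n => f (x n) (y n) (z n)) atTop (𝓝 (f a b c)) :=
  (hf.tendsto (a, b, c)).comp (hx.prodMk_nhds (hy.prodMk_nhds hz))

end GLimx

theorem thm_GLim (h1 : St_GBd) (h2 : St_GrA) : St_GLim := by
  intro Q k y a κ hQ hk hlim hκ
  have hw : WTo (fun n => gr (y n) (a n) (k n)) κ := fun w => hlim.inner tendsto_const_nhds
  obtain ⟨B, hB⟩ := h1 Q k y a κ hQ hk hw hκ
  have hy : ∀ n, y n ∈ Metric.closedBall (0 : E) B := fun n =>
    mem_closedBall_zero_iff.mpr (hB n).2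
  have ha : ∀ n, a n ∈ Icc (-B) B := fun n => abs_le.mp (hB n).1
  obtain ⟨φ, hφ, y', a', κ', hm, l1, l2, l3⟩ := GLimx.sub3 (isCompact_closedBall (0 : E) B)
    (isCompact_Icc (a := -B) (b := B)) hQ y a k hy ha hk
  refine ⟨φ, hφ, y', a', κ', hm, l1, l2, l3, ?_⟩
  have h3 := GLimx.lim3 gr h2.2.2.2.2.2.2.2 l1 l2 l3
  exact tendsto_nhds_unique (hlim.comp hφ.tendsto_atTop) h3

end Pool.Agent.QWF
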