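import Pool.Agent.QWF.StM
import Pool.Agent.QWF.Linx

set_option autoImplicit false

/-!
# QWF / GamQ: source elements
-/

open MeasureTheory Filter Topology Set
open scoped ENNReal NNReal RealInnerProductSpace ContDiff

namespace Pool.Agent.QWF

namespace GamQx

open Pool.Agent.QWF.Linx (test_sch test_pd int_mul)
open Pool.Agent.QWF.Fldx (pair_cont c0_pos)

/-- Cauchy-Schwarz -/
theorem cs (hF : St_Ft) (hH : St_Hs) {s : ℝ} (hs' : |s| < 1 / 2) {f φ : E → ℝ} (hf : IsTest f)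
    (hφ : IsTest φ) :
    |∫ x, f x * φ x| ≤ (hs (1 / 2 + s) f) ^ (1 / 2 : ℝ) * (hs (-1 / 2 - s) φ) ^ (1 / 2 : ℝ) := by
  have h := abs_lt.1 hs'
  have h1 := hH.2.2.2.2.2.2.2.2 (1 / 2 + s) f φ (by linarith) (by linarith) (hF.1 f hf) (hF.1 φ hφ)
  rwa [show -(1 / 2 + s) = -1 / 2 - s by ring] at h1

theorem hs_nonneg (a : ℝ) (f : E → ℝ) : 0 ≤ hs a f := by
  unfold hs
  exact integral_nonneg fun ξ => by positivity

theorem one_le_q1 {s : ℝ} (hs' : |s| < 1 / 2) : 1 ≤ q1 s := by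
  have h := abs_lt.1 hs'
  rw [q1, ← ENNReal.ofReal_one]
  refine ENNReal.ofReal_le_ofReal ?_
  rw [le_div_iff₀ (by linarith)]
  linarith

/-- passage to the limit -/
theorem main (hF : St_Ft) (hH : St_Hs) (hG : St_GamP) {s : ℝ} (hs' : |s| < 1 / 2) {F : E → ℝ}
    (hFL : MemLp F (q1 s) volume) {f : ℕ → E → ℝ} (hf : ∀ n, IsTest (f n))
    (hlim : Tendsto (fun n => eLpNorm (fun x => f n x - F x) (q1 s) volume) atTop (𝓝 0))
    {N : ℕ → ℝ≥0∞} {B : ℝ≥0∞} (hB : B < ⊤)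
    (hN : ∀ n, ENNReal.ofReal ((hs (1 / 2 + s) (f n)) ^ (1 / 2 : ℝ)) ≤ N n)
    (hNB : Tendsto N atTop (𝓝 B)) :
    IsGam s F (Gam s F) ∧ ‖Gam s F‖ₑ ≤ ENNReal.ofReal (√c0) * B := by
  have hli : LocallyIntegrable F volume := hFL.locallyIntegrable (one_le_q1 hs')
  have key : ∀ φ, IsTest φ → |∫ x, F x * φ x| ≤ B.toReal * (hs (-1 / 2 - s) φ) ^ (1 / 2 : ℝ) := by
    intro φ hφ
    obtain ⟨D, hD⟩ := pair_cont (q1 s) (one_le_q1 hs') hφ
    have hfL : ∀ n, MemLp (f n) (q1 s) volume := fun n =>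
      (hf n).1.continuous.memLp_of_hasCompactSupport (hf n).2
    have h1 : Tendsto (fun n => (eLpNorm (fun x => f n x - F x) (q1 s) volume).toReal) atTop
        (𝓝 0) := by
      have h7 := (ENNReal.continuousAt_toReal ENNReal.zero_ne_top).tendsto.comp hlim
      rw [ENNReal.toReal_zero] at h7
      exact h7
    have h2 : Tendsto (fun n => ∫ x, f n x * φ x) atTop (𝓝 (∫ x, F x * φ x)) := by
      rw [tendsto_iff_dist_tendsto_zero]
      have h0 := h1.const_mul D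
      rw [mul_zero] at h0
      refine squeeze_zero (fun n => dist_nonneg) (fun n => ?_) h0
      rw [Real.dist_eq, ← integral_sub (int_mul ((hfL n).locallyIntegrable (one_le_q1 hs')) hφ)
        (int_mul hli hφ)]
      have e1 : ∫ x, (f n x * φ x - F x * φ x) = ∫ x, (fun x => f n x - F x) x * φ x := by
        congr 1
        ext x
        ring
      rw [e1]
      exact hD _ ((hfL n).sub hFL)
    have h3 : Tendsto (fun n => ENNReal.ofReal |∫ x, f n x * φ x|) atTop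
        (𝓝 (ENNReal.ofReal |∫ x, F x * φ x|)) :=
      ENNReal.tendsto_ofReal h2.abs
    have h4 : Tendsto (fun n => N n * ENNReal.ofReal ((hs (-1 / 2 - s) φ) ^ (1 / 2 : ℝ))) atTop
        (𝓝 (B * ENNReal.ofReal ((hs (-1 / 2 - s) φ) ^ (1 / 2 : ℝ)))) :=
      ENNReal.Tendsto.mul_const hNB (Or.inr ENNReal.ofReal_ne_top)
    have h5 : ENNReal.ofReal |∫ x, F x * φ x| ≤
        B * ENNReal.ofReal ((hs (-1 / 2 - s) φ) ^ (1 / 2 : ℝ)) := by
      refine le_of_tendsto_of_tendsto' h3 h4 fun n => ?_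
      refine (ENNReal.ofReal_le_ofReal (cs hF hH hs' (hf n) hφ)).trans ?_
      rw [ENNReal.ofReal_mul (Real.rpow_nonneg (hs_nonneg _ _) _)]
      gcongr
      exact hN n
    have h6 := ENNReal.toReal_mono (ENNReal.mul_lt_top hB ENNReal.ofReal_lt_top).ne h5
    rw [ENNReal.toReal_ofReal (abs_nonneg _), ENNReal.toReal_mul,
      ENNReal.toReal_ofReal (Real.rpow_nonneg (hs_nonneg _ _) _)] at h6
    exact h6
  obtain ⟨g1, g2, -⟩ := hG s F B.toReal hs' ENNReal.toReal_nonneg hli key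
  refine ⟨g1, ?_⟩
  rw [← ofReal_norm]
  refine (ENNReal.ofReal_le_ofReal g2).trans ?_
  rw [ENNReal.ofReal_mul (Real.sqrt_nonneg _), ENNReal.ofReal_toReal hB.ne]

theorem add_le {a b : E → ℝ} {p : ℝ≥0∞} (hp : 1 ≤ p) (ha : AEStronglyMeasurable a volume)
    (hb : AEStronglyMeasurable b volume) :
    eLpNorm a p volume ≤ eLpNorm b p volume + eLpNorm (fun x => a x - b x) p volume := by
  have e : a = b + fun x => a x - b x := by
    funext x
    simp
  calc eLpNorm a p volume = eLpNorm (b + fun x => a x - b x) p volume := by rw [← e]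
    _ ≤ _ := eLpNorm_add_le hb (ha.sub hb) hp

end GamQx

open GamQx in
open Pool.Agent.QWF.Linx (test_pd) in
open Pool.Agent.QWF.Fldx (c0_pos) in
theorem thm_GamQ (hF : St_Ft) (hH : St_Hs) (hG : St_GamP) (hSo : St_SoD) (hAp : St_ApW) :
    St_GamQ := by
  intro s hs1 hs2
  have hs' : |s| < 1 / 2 := abs_lt.2 ⟨by linarith, hs2⟩
  obtain ⟨C, hC, hSo⟩ := hSo s hs1 hs2
  have hq2 : 1 ≤ q2 s := by
    rw [q2, ← ENNReal.ofReal_one]
    refine ENNReal.ofReal_le_ofReal ?_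
    rw [le_div_iff₀ (by linarith)]
    linarith
  have hc0 : 0 < √c0 := Real.sqrt_pos.2 c0_pos
  refine ⟨√c0 * C, by positivity, fun F G hFL hGL => ?_⟩
  obtain ⟨f, hf, hlim, hd⟩ := hAp s hs1 hs2 F G hFL hGL
  have hB : ENNReal.ofReal C * ∑ i, eLpNorm (G i) (q2 s) volume < ⊤ :=
    ENNReal.mul_lt_top ENNReal.ofReal_lt_top
      (ENNReal.sum_lt_top.2 fun i _ => (hGL i).1.eLpNorm_lt_top)
  have hN : Tendsto (fun n => ENNReal.ofReal C * ∑ i, (eLpNorm (G i) (q2 s) volume +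
      eLpNorm (fun x => pd i (f n) x - G i x) (q2 s) volume)) atTop
      (𝓝 (ENNReal.ofReal C * ∑ i, eLpNorm (G i) (q2 s) volume)) := by
    refine ENNReal.Tendsto.const_mul ?_ (Or.inr ENNReal.ofReal_ne_top)
    refine tendsto_finsetSum _ fun i _ => ?_
    have := (hd i).const_add (eLpNorm (G i) (q2 s) volume)
    rwa [add_zero] at this
  obtain ⟨g1, g2⟩ := main hF hH hG hs' hFL hf hlim hB (fun n => (hSo (f n) (hf n)).trans
    (by
      gcongr with i _
      exact GamQx.add_le hq2 (test_pd (hf n) i).1.continuous.aestronglyMeasurable (hGL i).1.1)) hN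
  refine ⟨g1, g2.trans (le_of_eq ?_)⟩
  rw [ENNReal.ofReal_mul hc0.le, mul_assoc]

end Pool.Agent.QWF
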