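import Pool.Agent.QWF.StC0

/-!
# QWF, module GrP: exterior seminorms and the group
-/

set_option autoImplicit false

open MeasureTheory Filter Topology Set
open scoped ENNReal NNReal RealInnerProductSpace

namespace Pool.Agent.QWF

namespace GrPx

lemma exp_smul (a : ℝ) (y : E) : Real.exp a • Real.exp (-a) • y = y := by
  rw [smul_smul, ← Real.exp_add, add_neg_cancel, Real.exp_zero, one_smul]

lemma ext_set (y x : E) (a R : ℝ) :
    {z : E | x + Real.exp (-a) • z ∈ xt y R} = xt (Real.exp a • (y - x)) (Real.exp a * R) := by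
  ext z
  change R < dist (x + Real.exp (-a) • z) y ↔ Real.exp a * R < dist z (Real.exp a • (y - x))
  have h1 : dist z (Real.exp a • (y - x)) = Real.exp a * dist (x + Real.exp (-a) • z) y := by
    rw [dist_eq_norm, dist_eq_norm]
    have h3 : z - Real.exp a • (y - x) = Real.exp a • (x + Real.exp (-a) • z - y) := by
      rw [smul_sub, smul_sub, smul_add, exp_smul]
      abel
    rw [h3, norm_smul, Real.norm_eq_abs, abs_of_pos (Real.exp_pos a)]
  rw [h1]
  exact (mul_lt_mul_iff_right₀ (Real.exp_pos a)).symm

lemma half_set (e x : E) (a c : ℝ) :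
    {z : E | x + Real.exp (-a) • z ∈ half e c} = half e (Real.exp a * (c - inner ℝ x e)) := by
  ext z
  change c < inner ℝ (x + Real.exp (-a) • z) e ↔ Real.exp a * (c - inner ℝ x e) < inner ℝ z e
  rw [inner_add_left, real_inner_smul_left]
  have h1 : (inner ℝ z e : ℝ) = Real.exp a * (Real.exp (-a) * inner ℝ z e) := by
    rw [← mul_assoc, ← Real.exp_add, add_neg_cancel, Real.exp_zero, one_mul]
  constructor
  · intro h
    rw [h1]
    exact mul_lt_mul_of_pos_left (by linarith) (Real.exp_pos a)
  · intro h
    rw [h1] at h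
    have := lt_of_mul_lt_mul_left h (Real.exp_pos a).le
    linarith

end GrPx


/-- **GrP** (exterior seminorms and the group). -/
theorem thm_GrP (hA : St_ActP) : St_GrP := by
  intro s hs
  refine ⟨?_, ?_⟩
  · intro y R x a k
    rw [(hA s hs).2.2.1, GrPx.ext_set]
  · intro e c x a k
    rw [(hA s hs).2.2.1, GrPx.half_set]

end Pool.Agent.QWF
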