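import Pool.Agent.QWF.StA

/-!
# QWF, module Grp2: dilations and reversal
-/

set_option autoImplicit false

open MeasureTheory Filter Topology Set
open scoped ENNReal NNReal RealInnerProductSpace Pointwise

namespace Pool.Agent.QWF.Grp2x

lemma mpt (t : ℝ) : MeasurePreserving (fun z : S × ℝ => (z.1, z.2 - t)) mu mu :=
  mp_shift (g := fun _ => t) measurable_const

lemma mps (y : E) :
    MeasurePreserving (fun z : S × ℝ => (z.1, z.2 - inner ℝ y (z.1 : E))) mu mu :=
  mp_shift (g := fun w : S => inner ℝ y (w : E)) (by fun_prop)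

lemma dl_dl (a b : ℝ) (k : K) : dl a (dl b k) = dl (a + b) k := by
  apply Lp.ext
  have h := (qmp_scale (Real.exp_pos a)).ae (dl_coe b k)
  filter_upwards [dl_coe a (dl b k), dl_coe (a + b) k, h] with z h1 h2 h3
  rw [h1, h2, h3, ← mul_assoc, ← Real.exp_add, ← mul_assoc, ← Real.exp_add]
  congr 2
  · ring
  · rw [add_comm b a]

lemma dl_zero (k : K) : dl 0 k = k := by
  apply Lp.ext
  filter_upwards [dl_coe 0 k] with z h1
  rw [h1]
  simp

lemma rev_rev (k : K) : rev (rev k) = k := by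
  apply Lp.ext
  have h := mp_rev.quasiMeasurePreserving.ae (rev_coe k)
  filter_upwards [rev_coe (rev k), h] with z h1 h2
  rw [h1, h2]
  simp

lemma tau_dl (a t : ℝ) (k : K) : tau t (dl a k) = dl a (tau (Real.exp a * t) k) := by
  apply Lp.ext
  have h := (mpt t).quasiMeasurePreserving.ae (dl_coe a k)
  have h' := (qmp_scale (Real.exp_pos a)).ae (tau_coe (Real.exp a * t) k)
  filter_upwards [tau_coe t (dl a k), dl_coe a (tau (Real.exp a * t) k), h, h'] with z h1 h2 h3 h4
  rw [h1, h2, h3, h4]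
  congr 3
  ring

lemma sh_dl (a : ℝ) (y : E) (k : K) : sh y (dl a k) = dl a (sh (Real.exp a • y) k) := by
  apply Lp.ext
  have h := (mps y).quasiMeasurePreserving.ae (dl_coe a k)
  have h' := (qmp_scale (Real.exp_pos a)).ae (sh_coe (Real.exp a • y) k)
  filter_upwards [sh_coe y (dl a k), dl_coe a (sh (Real.exp a • y) k), h, h'] with z h1 h2 h3 h4
  rw [h1, h2, h3, h4]
  congr 3
  rw [real_inner_smul_left]
  ring

lemma rev_tau (t : ℝ) (k : K) : rev (tau t k) = tau (-t) (rev k) := by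
  apply Lp.ext
  have h := mp_rev.quasiMeasurePreserving.ae (tau_coe t k)
  have h' := (mpt (-t)).quasiMeasurePreserving.ae (rev_coe k)
  filter_upwards [rev_coe (tau t k), tau_coe (-t) (rev k), h, h'] with z h1 h2 h3 h4
  rw [h1, h2, h3, h4]
  have e : -z.2 - t = -(z.2 - -t) := by ring
  rw [e]

lemma rev_sh (y : E) (k : K) : rev (sh y k) = sh y (rev k) := by
  apply Lp.ext
  have h := mp_rev.quasiMeasurePreserving.ae (sh_coe y k)
  have h' := (mps y).quasiMeasurePreserving.ae (rev_coe k)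
  filter_upwards [rev_coe (sh y k), sh_coe y (rev k), h, h'] with z h1 h2 h3 h4
  rw [h1, h2, h3, h4]
  have : ((-z.1 : S) : E) = -(z.1 : E) := rfl
  have e : -z.2 - inner ℝ y ((-z.1 : S) : E) = -(z.2 - inner ℝ y (z.1 : E)) := by
    rw [this, inner_neg_right]
    ring
  rw [e]

lemma rev_dl (a : ℝ) (k : K) : rev (dl a k) = dl a (rev k) := by
  apply Lp.ext
  have h := mp_rev.quasiMeasurePreserving.ae (dl_coe a k)
  have h' := (qmp_scale (Real.exp_pos a)).ae (rev_coe k)
  filter_upwards [rev_coe (dl a k), dl_coe a (rev k), h, h'] with z h1 h2 h3 h4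
  rw [h1, h2, h3, h4]
  have e : Real.exp a * -z.2 = -(Real.exp a * z.2) := by ring
  rw [e]
  ring

lemma inner_dl (a : ℝ) (k k' : K) : inner ℝ (dl a k) k' = inner ℝ k (dl (-a) k') := by
  have h : dl a (dl (-a) k') = k' := by rw [dl_dl, add_neg_cancel, dl_zero]
  conv_lhs => rw [← h]
  exact LinearIsometry.inner_map_map _ _ _

/-- For continuous functions with compact support the inner product with the dilated function is
continuous in the parameter. -/
lemma cont_inner (f : S × ℝ → ℝ) (hf : Continuous f) (hc : HasCompactSupport f)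
    (hm : MemLp f 2 mu) :
    Continuous fun a : ℝ => (inner ℝ (dl a (hm.toLp f)) (hm.toLp f) : ℝ) := by
  have h1 : ∀ a : ℝ, (inner ℝ (dl a (hm.toLp f)) (hm.toLp f) : ℝ) =
      ∫ z in tsupport f, (Real.exp (a / 2) * f (z.1, Real.exp a * z.2)) * f z ∂mu := by
    intro a
    rw [MeasureTheory.L2.inner_def]
    have h2 : ∫ z, (inner ℝ ((dl a (hm.toLp f) : K) z) ((hm.toLp f : K) z) : ℝ) ∂mu =
        ∫ z, (Real.exp (a / 2) * f (z.1, Real.exp a * z.2)) * f z ∂mu := by
      apply integral_congr_ae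
      have h3 := (qmp_scale (Real.exp_pos a)).ae hm.coeFn_toLp
      filter_upwards [dl_coe a (hm.toLp f), hm.coeFn_toLp, h3] with z h4 h5 h6
      rw [h4, h5, h6, RCLike.inner_apply, conj_trivial]
      ring
    rw [h2]
    symm
    apply setIntegral_eq_integral_of_forall_compl_eq_zero
    intro z hz
    rw [image_eq_zero_of_notMem_tsupport hz, mul_zero]
  simp_rw [h1]
  exact continuous_parametric_integral_of_continuous (by fun_prop) hc

lemma cont_dl (k : K) : Continuous fun a => dl a k := by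
  rw [Metric.continuous_iff]
  intro a0 ε hε
  obtain ⟨f, hfc, hfe, hf, hm⟩ := (Lp.memLp k).exists_hasCompactSupport_eLpNorm_sub_le
    (by norm_num) (ε := ENNReal.ofReal (ε / 4)) (by
      rw [Ne, ENNReal.ofReal_eq_zero, not_le]
      positivity)
  set g : K := hm.toLp f with hg
  have hkg : ‖k - g‖ ≤ ε / 4 := by
    rw [Lp.norm_def]
    refine ENNReal.toReal_le_of_le_ofReal (by positivity) ?_
    refine le_trans (le_of_eq ?_) hfe
    apply eLpNorm_congr_ae
    filter_upwards [Lp.coeFn_sub k g, hm.coeFn_toLp] with z h1 h2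
    rw [h1, Pi.sub_apply, Pi.sub_apply, hg, h2]
  -- the function g
  have h0 := (cont_inner f hf hfc hm).tendsto 0
  rw [dl_zero] at h0
  have h1 : ∀ a : ℝ, ‖dl a g - dl a0 g‖ ^ 2 = 2 * (‖g‖ ^ 2 - inner ℝ (dl (a - a0) g) g) := by
    intro a
    have h2 : inner ℝ (dl a g) (dl a0 g) = inner ℝ (dl (a - a0) g) g := by
      have h3 : dl a g = dl a0 (dl (a - a0) g) := by
        rw [dl_dl]
        congr 2
        ring
      rw [h3]
      exact LinearIsometry.inner_map_map _ _ _
    rw [norm_sub_sq_real, LinearIsometry.norm_map, LinearIsometry.norm_map, h2]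
    ring
  have h2 : Tendsto (fun a : ℝ => 2 * (‖g‖ ^ 2 - (inner ℝ (dl (a - a0) g) g : ℝ))) (𝓝 a0) (𝓝 0) := by
    have h3 : Tendsto (fun a : ℝ => a - a0) (𝓝 a0) (𝓝 0) := by
      have : Tendsto (fun a : ℝ => a - a0) (𝓝 a0) (𝓝 (a0 - a0)) := by
        exact (continuous_id.sub continuous_const).tendsto a0
      rwa [sub_self] at this
    have h4 := (h0.comp h3).const_sub (‖g‖ ^ 2)
    have h5 := h4.const_mul 2
    have h6 : 2 * (‖g‖ ^ 2 - (inner ℝ g g : ℝ)) = 0 := by
      rw [real_inner_self_eq_norm_sq]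
      ring
    rw [← h6]
    exact h5
  have h3 : ∀ᶠ a in 𝓝 a0, ‖dl a g - dl a0 g‖ ^ 2 < (ε / 4) ^ 2 := by
    have h4 := h2.eventually (gt_mem_nhds (show (0 : ℝ) < (ε / 4) ^ 2 by positivity))
    filter_upwards [h4] with a ha
    rw [h1]
    exact ha
  obtain ⟨δ, hδ, hδ'⟩ := Metric.eventually_nhds_iff.1 h3
  refine ⟨δ, hδ, fun a ha => ?_⟩
  have h4 := hδ' ha
  have h5 : ‖dl a g - dl a0 g‖ < ε / 4 := lt_of_pow_lt_pow_left₀ 2 (by positivity) h4
  rw [dist_eq_norm]
  have h6 : dl a k - dl a0 k = dl a (k - g) + (dl a g - dl a0 g) - dl a0 (k - g) := by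
    rw [map_sub, map_sub]
    abel
  rw [h6]
  calc ‖dl a (k - g) + (dl a g - dl a0 g) - dl a0 (k - g)‖ ≤
      ‖dl a (k - g)‖ + ‖dl a g - dl a0 g‖ + ‖dl a0 (k - g)‖ := by
        refine (norm_sub_le _ _).trans ?_
        gcongr
        exact norm_add_le _ _
    _ < ε / 4 + ε / 4 + ε / 4 + ε / 4 := by
        rw [LinearIsometry.norm_map, LinearIsometry.norm_map]
        linarith
    _ = ε := by ring

end Pool.Agent.QWF.Grp2x

namespace Pool.Agent.QWF

/-- **Grp2** (dilations, reversal). -/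
theorem thm_Grp2 : St_Grp2 :=
  ⟨Grp2x.dl_dl, Grp2x.dl_zero, Grp2x.rev_rev, Grp2x.tau_dl, Grp2x.sh_dl, Grp2x.rev_tau,
    Grp2x.rev_sh, Grp2x.rev_dl, Grp2x.inner_dl, Grp2x.cont_dl⟩

end Pool.Agent.QWF
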