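import Pool.Agent.QWF.StA2

set_option autoImplicit false

/-!
# QWF, HTb: calculus of the Hilbert transform on the line
-/

open MeasureTheory Filter Topology Set
open scoped ENNReal NNReal RealInnerProductSpace

namespace Pool.Agent.QWF

namespace HTbx

/-- the kernel -/
noncomputable def kk (φ : ℝ → ℝ) (q p : ℝ) : ℝ := (φ (q - p) - φ (q + p)) / p

theorem HT_eq (φ : ℝ → ℝ) (q : ℝ) : HT φ q = (1 / Real.pi) * ∫ p in Ioi (0 : ℝ), kk φ q p := rfl

theorem sm_cont {φ : ℝ → ℝ} (h : Sm φ) : Continuous φ := ContDiff.continuous h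

theorem sm_diff {φ : ℝ → ℝ} (h : Sm φ) : Differentiable ℝ φ := ContDiff.differentiable h (by simp)

theorem sm_deriv {φ : ℝ → ℝ} (h : Sm φ) : Sm (deriv φ) := (contDiff_infty_iff_deriv.1 h).2

theorem sm_iter {φ : ℝ → ℝ} (h : Sm φ) (k : ℕ) : Sm (iteratedDeriv k φ) := by
  induction k with
  | zero => rw [iteratedDeriv_zero]; exact h
  | succ k ih =>
    rw [iteratedDeriv_succ]
    exact sm_deriv ih

theorem cs_iter {φ : ℝ → ℝ} (h : HasCompactSupport φ) (k : ℕ) :
    HasCompactSupport (iteratedDeriv k φ) := by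
  induction k with
  | zero => rw [iteratedDeriv_zero]; exact h
  | succ k ih =>
    rw [iteratedDeriv_succ]
    exact ih.deriv

theorem ex_supp {φ : ℝ → ℝ} (hc : HasCompactSupport φ) : ∃ R : ℝ, 0 < R ∧ ∀ p, R < |p| → φ p = 0 := by
  obtain ⟨R, hR⟩ := hc.isCompact.isBounded.subset_closedBall (0 : ℝ)
  refine ⟨max R 1, by positivity, fun p hp => ?_⟩
  by_contra h
  have h1 := hR (subset_tsupport φ h)
  rw [Metric.mem_closedBall, Real.dist_eq, sub_zero] at h1
  exact absurd (h1.trans (le_max_left R 1)) (not_le.2 hp)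

theorem ex_bd {φ : ℝ → ℝ} (hφ : Sm φ) (hc : HasCompactSupport φ) :
    ∃ B : ℝ, 0 ≤ B ∧ ∀ p, |deriv φ p| ≤ B := by
  obtain ⟨B, hB⟩ := hc.deriv.exists_bound_of_continuous (sm_cont (sm_deriv hφ))
  exact ⟨B, (norm_nonneg _).trans (hB 0), fun p => hB p⟩

theorem kk_le {φ : ℝ → ℝ} (hφ : Sm φ) {B : ℝ} (hB : ∀ p, |deriv φ p| ≤ B) (q p : ℝ) (hp : 0 < p) :
    |kk φ q p| ≤ 2 * B := by
  have h1 := Convex.norm_image_sub_le_of_norm_deriv_le (f := φ) (C := B) (s := univ)
    (x := q + p) (y := q - p) (fun x _ => sm_diff hφ x) (fun x _ => hB x) convex_univ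
    (mem_univ _) (mem_univ _)
  rw [Real.norm_eq_abs, Real.norm_eq_abs] at h1
  have h2 : |q - p - (q + p)| = 2 * p := by
    have : q - p - (q + p) = -(2 * p) := by ring
    rw [this, abs_neg, abs_of_pos (by linarith)]
  rw [h2] at h1
  unfold kk
  rw [abs_div, abs_of_pos hp, div_le_iff₀ hp]
  linarith

theorem kk_zero {φ : ℝ → ℝ} {R : ℝ} (hR : ∀ p, R < |p| → φ p = 0) (q p : ℝ) (hp : |q| + R < p) :
    kk φ q p = 0 := by
  have h0 : 0 ≤ |q| := abs_nonneg q
  have h1 : R < |q - p| := by
    have := abs_sub_abs_le_abs_sub p q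
    rw [abs_sub_comm] at this
    have h2 := le_abs_self p
    linarith
  have h3 : R < |q + p| := by
    have := abs_sub_abs_le_abs_sub p (-q)
    rw [abs_neg, sub_neg_eq_add, add_comm] at this
    have h2 := le_abs_self p
    linarith
  unfold kk
  rw [hR _ h1, hR _ h3, sub_zero, zero_div]

theorem kk_meas {φ : ℝ → ℝ} (hφ : Sm φ) (q : ℝ) : Measurable (kk φ q) := by
  unfold kk
  exact (((sm_cont hφ).comp (continuous_const.sub continuous_id)).sub
    ((sm_cont hφ).comp (continuous_const.add continuous_id))).measurable.div measurable_id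

theorem kk_meas2 {φ : ℝ → ℝ} (hφ : Sm φ) : Measurable (fun z : ℝ × ℝ => kk φ z.1 z.2) := by
  unfold kk
  exact (((sm_cont hφ).comp (continuous_fst.sub continuous_snd)).sub
    ((sm_cont hφ).comp (continuous_fst.add continuous_snd))).measurable.div measurable_snd

theorem ind_int (M B : ℝ) :
    Integrable ((Ioc (0 : ℝ) M).indicator fun _ => B) (volume.restrict (Ioi (0 : ℝ))) := by
  refine Integrable.mono_measure ?_ Measure.restrict_le_self
  rw [integrable_indicator_iff measurableSet_Ioc]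
  exact integrableOn_const (by simp)

theorem kk_ind {φ : ℝ → ℝ} (hφ : Sm φ) {B R : ℝ} (hB : ∀ p, |deriv φ p| ≤ B)
    (hR : ∀ p, R < |p| → φ p = 0) (q M : ℝ) (hM : |q| + R ≤ M) (p : ℝ) (hp : 0 < p) :
    |kk φ q p| ≤ (Ioc (0 : ℝ) M).indicator (fun _ => 2 * B) p := by
  by_cases h : p ≤ M
  · rw [indicator_of_mem (show p ∈ Ioc (0 : ℝ) M from ⟨hp, h⟩)]
    exact kk_le hφ hB q p hp
  · rw [indicator_of_notMem (fun h1 => h h1.2), kk_zero hR q p (hM.trans_lt (not_le.1 h)), abs_zero]

theorem kk_int {φ : ℝ → ℝ} (hφ : Sm φ) (hc : HasCompactSupport φ) (q : ℝ) :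
    Integrable (kk φ q) (volume.restrict (Ioi (0 : ℝ))) := by
  obtain ⟨B, hB0, hB⟩ := ex_bd hφ hc
  obtain ⟨R, hR0, hR⟩ := ex_supp hc
  refine Integrable.mono' (ind_int (|q| + R) (2 * B)) (kk_meas hφ q).aestronglyMeasurable ?_
  filter_upwards [ae_restrict_mem measurableSet_Ioi] with p hp
  exact kk_ind hφ hB hR q _ le_rfl p hp

/-- derivative of the Hilbert transform -/
theorem hasDeriv {φ : ℝ → ℝ} (hφ : Sm φ) (hc : HasCompactSupport φ) (q : ℝ) :
    HasDerivAt (HT φ) (HT (deriv φ) q) q := by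
  obtain ⟨B, hB0, hB⟩ := ex_bd (sm_deriv hφ) hc.deriv
  obtain ⟨R, hR0, hR⟩ := ex_supp hc.deriv
  have h1 := hasDerivAt_integral_of_dominated_loc_of_deriv_le
    (μ := volume.restrict (Ioi (0 : ℝ))) (F := fun q p => kk φ q p)
    (F' := fun q p => kk (deriv φ) q p) (x₀ := q) (s := Metric.ball q 1)
    (bound := (Ioc (0 : ℝ) (|q| + 1 + R)).indicator fun _ => 2 * B)
    (Metric.ball_mem_nhds q one_pos)
    (Eventually.of_forall fun q => (kk_meas hφ q).aestronglyMeasurable) (kk_int hφ hc q)
    (kk_meas (sm_deriv hφ) q).aestronglyMeasurable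
    (by
      filter_upwards [ae_restrict_mem measurableSet_Ioi] with p hp
      intro x hx
      refine kk_ind (sm_deriv hφ) hB hR x _ ?_ p hp
      rw [Metric.mem_ball, Real.dist_eq] at hx
      have h2 : |x| ≤ |x - q| + |q| := by
        have := abs_add_le (x - q) q
        rwa [sub_add_cancel] at this
      linarith)
    (ind_int _ _)
    (by
      refine Eventually.of_forall fun p x _ => ?_
      have e1 : HasDerivAt (fun x => φ (x - p)) (deriv φ (x - p)) x :=
        (sm_diff hφ (x - p)).hasDerivAt.comp_sub_const x p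
      have e2 : HasDerivAt (fun x => φ (x + p)) (deriv φ (x + p)) x :=
        (sm_diff hφ (x + p)).hasDerivAt.comp_add_const x p
      exact (e1.sub e2).div_const p)
  exact h1.2.const_mul (1 / Real.pi)

theorem iter {φ : ℝ → ℝ} (hφ : Sm φ) (hc : HasCompactSupport φ) (k : ℕ) :
    iteratedDeriv k (HT φ) = HT (iteratedDeriv k φ) := by
  induction k with
  | zero => rw [iteratedDeriv_zero, iteratedDeriv_zero]
  | succ k ih =>
    rw [iteratedDeriv_succ, ih, iteratedDeriv_succ]
    funext q
    exact (hasDeriv (sm_iter hφ k) (cs_iter hc k) q).deriv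

theorem smooth {φ : ℝ → ℝ} (hφ : Sm φ) (hc : HasCompactSupport φ) : Sm (HT φ) := by
  refine contDiff_of_differentiable_iteratedDeriv fun m _ => ?_
  rw [iter hφ hc m]
  exact fun q => (hasDeriv (sm_iter hφ m) (cs_iter hc m) q).differentiableAt

/-- the two halves of the line -/
theorem halves {f : ℝ → ℝ} (hf : Integrable f) :
    ∫ p in Ioi (0 : ℝ), (f p + f (-p)) = ∫ p, f p := by
  have h1 : ∫ p in Ioi (0 : ℝ), f (-p) = ∫ p in Iic (0 : ℝ), f p := by
    rw [integral_comp_neg_Ioi, neg_zero]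
  have h2 : Integrable (fun p => f (-p)) := hf.comp_neg
  rw [integral_add hf.integrableOn h2.integrableOn, h1]
  have h3 := setIntegral_union (μ := (volume : Measure ℝ)) (f := f) (s := Ioi (0 : ℝ))
    (t := Iic (0 : ℝ)) (by
      rw [disjoint_comm]
      exact Iic_disjoint_Ioi le_rfl) measurableSet_Iic hf.integrableOn hf.integrableOn
  rw [← h3, union_comm, Iic_union_Ioi, setIntegral_univ]

theorem bound {φ : ℝ → ℝ} (hφ : Sm φ) (hc : HasCompactSupport φ) (B q : ℝ)
    (hB : ∀ p, |deriv φ p| ≤ B) : |HT φ q| ≤ 2 * B + ∫ p, |φ p| := by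
  have hB0 : 0 ≤ B := (abs_nonneg _).trans (hB 0)
  have hint : Integrable (fun p => |φ p|) :=
    ((sm_cont hφ).integrable_of_hasCompactSupport hc).abs
  have hq : Integrable (fun p => |φ (q - p)|) := hint.comp_sub_left q
  have h1 : |∫ p in Ioi (0 : ℝ), kk φ q p| ≤
      ∫ p in Ioi (0 : ℝ), ((Ioc (0 : ℝ) 1).indicator (fun _ => 2 * B) p +
        (|φ (q - p)| + |φ (q - -p)|)) := by
    rw [← Real.norm_eq_abs]
    refine norm_integral_le_of_norm_le (g := fun p => (Ioc (0 : ℝ) 1).indicator (fun _ => 2 * B) p +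
        (|φ (q - p)| + |φ (q - -p)|)) ?_ ?_
    · refine (ind_int 1 (2 * B)).add (Integrable.add hq.integrableOn ?_)
      have := hq.comp_neg
      exact this.integrableOn
    · filter_upwards [ae_restrict_mem measurableSet_Ioi] with p hp
      have hp0 : 0 < p := hp
      rw [Real.norm_eq_abs]
      by_cases h : p ≤ 1
      · rw [indicator_of_mem (show p ∈ Ioc (0 : ℝ) 1 from ⟨hp0, h⟩)]
        have := kk_le hφ hB q p hp0
        have h2 := abs_nonneg (φ (q - p))
        have h3 := abs_nonneg (φ (q - -p))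
        linarith
      · rw [indicator_of_notMem (fun h1 => h h1.2), zero_add, sub_neg_eq_add]
        unfold kk
        rw [abs_div, abs_of_pos hp0, div_le_iff₀ hp0]
        have h2 := abs_sub (φ (q - p)) (φ (q + p))
        have h3 := abs_nonneg (φ (q - p))
        have h4 := abs_nonneg (φ (q + p))
        have h5 : 1 ≤ p := (not_le.1 h).le
        nlinarith
  have h2 : ∫ p in Ioi (0 : ℝ), ((Ioc (0 : ℝ) 1).indicator (fun _ => 2 * B) p +
        (|φ (q - p)| + |φ (q - -p)|)) = 2 * B + ∫ p, |φ p| := by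
    have e0 : Integrable (fun p => |φ (q - p)| + |φ (q - -p)|) (volume.restrict (Ioi (0 : ℝ))) :=
      Integrable.add hq.integrableOn hq.comp_neg.integrableOn
    rw [integral_add (ind_int 1 (2 * B)) e0]
    have e1 : ∫ p in Ioi (0 : ℝ), (Ioc (0 : ℝ) 1).indicator (fun _ => 2 * B) p = 2 * B := by
      rw [setIntegral_indicator measurableSet_Ioc]
      have : Ioi (0 : ℝ) ∩ Ioc 0 1 = Ioc 0 1 := inter_eq_right.2 Ioc_subset_Ioi_self
      rw [this, setIntegral_const]
      simp
    have e2 := halves (f := fun p => |φ (q - p)|) hq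
    rw [e1, e2]
    congr 1
    exact integral_sub_left_eq_self (fun p => |φ p|) volume q
  have h3 : |HT φ q| ≤ 1 / Real.pi * (2 * B + ∫ p, |φ p|) := by
    rw [HT_eq, abs_mul, abs_of_pos (by positivity)]
    refine mul_le_mul_of_nonneg_left (h1.trans h2.le) (by positivity)
  refine h3.trans ?_
  have h4 : 0 ≤ ∫ p, |φ p| := integral_nonneg fun p => abs_nonneg _
  have h5 : 1 / Real.pi ≤ 1 := by
    rw [div_le_one Real.pi_pos]
    linarith [Real.pi_gt_three]
  nlinarith

/-- off the support -/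
theorem off {φ : ℝ → ℝ} (hφ : Sm φ) (hc : HasCompactSupport φ) (r q : ℝ) (_ : 0 < r)
    (hz : ∀ p, r ≤ |p| → φ p = 0) (hq : r < |q|) :
    HT φ q = (1 / Real.pi) * ∫ p, φ p / (q - p) := by
  have hint : Integrable φ := (sm_cont hφ).integrable_of_hasCompactSupport hc
  have h1 : Integrable (fun p => φ (q - p) / p) := by
    refine Integrable.mono' (g := fun p => |φ (q - p)| / (|q| - r))
      ((hint.comp_sub_left q).abs.div_const _)
      (((sm_cont hφ).comp (continuous_const.sub continuous_id)).measurable.div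
        measurable_id).aestronglyMeasurable (Eventually.of_forall fun p => ?_)
    rw [Real.norm_eq_abs, abs_div]
    by_cases h : r ≤ |q - p|
    · rw [hz _ h]
      simp
    · have h2 : |q| - r ≤ |p| := by
        have := abs_sub_abs_le_abs_sub q (q - p)
        rw [sub_sub_cancel] at this
        have h3 := (not_le.1 h).le
        linarith
      have h3 : 0 < |q| - r := by linarith
      exact div_le_div_of_nonneg_left (abs_nonneg _) h3 h2
  rw [HT_eq]
  congr 1
  have h2 : ∀ p, kk φ q p = φ (q - p) / p + φ (q - -p) / (-p) := by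
    intro p
    unfold kk
    rw [sub_neg_eq_add, div_neg, sub_div, sub_eq_add_neg]
  simp only [h2]
  rw [halves (f := fun p => φ (q - p) / p) h1]
  have h3 := integral_sub_left_eq_self (fun p => φ p / (q - p)) (volume : Measure ℝ) q
  rw [← h3]
  refine integral_congr_ae (Eventually.of_forall fun p => ?_)
  show φ (q - p) / p = φ (q - p) / (q - (q - p))
  rw [sub_sub_cancel]

/-- dilations -/
theorem dil (φ : ℝ → ℝ) (l c q : ℝ) (hl : 0 < l) :
    HT (fun p => φ (l * p + c)) q = HT φ (l * q + c) := by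
  rw [HT_eq, HT_eq]
  congr 1
  have h1 := integral_comp_mul_left_Ioi (fun p => kk φ (l * q + c) p) 0 hl
  rw [mul_zero] at h1
  have h2 : ∀ p, kk (fun p => φ (l * p + c)) q p = l * kk φ (l * q + c) (l * p) := by
    intro p
    have e1 : l * (q - p) + c = l * q + c - l * p := by ring
    have e2 : l * (q + p) + c = l * q + c + l * p := by ring
    show (φ (l * (q - p) + c) - φ (l * (q + p) + c)) / p =
      l * ((φ (l * q + c - l * p) - φ (l * q + c + l * p)) / (l * p))
    rw [e1, e2]
    by_cases hp : p = 0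
    · rw [hp]
      simp
    · field_simp
  simp only [h2]
  rw [integral_const_mul, h1, smul_eq_mul, ← mul_assoc, mul_inv_cancel₀ hl.ne', one_mul]

/-- integrability on the product -/
theorem prod_int {φ g : ℝ → ℝ} (hφ : Sm φ) (hc : HasCompactSupport φ) (hg : Continuous g)
    (hgc : HasCompactSupport g) :
    Integrable (fun z : ℝ × ℝ => kk φ z.1 z.2 * g z.1)
      ((volume : Measure ℝ).prod (volume.restrict (Ioi (0 : ℝ)))) := by
  obtain ⟨B, hB0, hB⟩ := ex_bd hφ hc
  obtain ⟨R, hR0, hR⟩ := ex_supp hc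
  obtain ⟨R', hR0', hR'⟩ := ex_supp hgc
  have hgi : Integrable (fun q => |g q|) := (hg.integrable_of_hasCompactSupport hgc).abs
  refine Integrable.mono' (hgi.mul_prod (ind_int (R' + R) (2 * B)))
    ((kk_meas2 hφ).mul (hg.measurable.comp measurable_fst)).aestronglyMeasurable ?_
  have h0 : ∀ᵐ z : ℝ × ℝ ∂((volume : Measure ℝ).prod (volume.restrict (Ioi (0 : ℝ)))), 0 < z.2 := by
    have : ∀ᵐ p ∂(volume.restrict (Ioi (0 : ℝ))), 0 < p := ae_restrict_mem measurableSet_Ioi
    exact Measure.quasiMeasurePreserving_snd.ae this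
  filter_upwards [h0] with z hz
  rw [norm_mul, mul_comm, Real.norm_eq_abs, Real.norm_eq_abs]
  by_cases h : |z.1| ≤ R'
  · exact mul_le_mul_of_nonneg_left (kk_ind hφ hB hR z.1 _ (by linarith) z.2 hz) (abs_nonneg _)
  · rw [hR' z.1 (not_le.1 h)]
    simp

theorem anti_pt {φ g : ℝ → ℝ} (hφ : Sm φ) (hc : HasCompactSupport φ) (hg : Sm g)
    (hgc : HasCompactSupport g) (p : ℝ) :
    ∫ q, kk φ q p * g q = - ∫ q, φ q * kk g q p := by
  have i1 : ∀ c : ℝ, Integrable (fun q => φ (q + c) * g q) := fun c =>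
    (((sm_cont hφ).comp (continuous_id.add continuous_const)).mul
      (sm_cont hg)).integrable_of_hasCompactSupport hgc.mul_left
  have i2 : ∀ c : ℝ, Integrable (fun q => φ q * g (q + c)) := fun c =>
    ((sm_cont hφ).mul ((sm_cont hg).comp
      (continuous_id.add continuous_const))).integrable_of_hasCompactSupport hc.mul_right
  have e1 : ∀ c : ℝ, ∫ q, φ (q + c) * g q = ∫ q, φ q * g (q + -c) := by
    intro c
    have := integral_add_right_eq_self (μ := (volume : Measure ℝ)) (fun q => φ q * g (q + -c)) c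
    rw [← this]
    refine integral_congr_ae (Eventually.of_forall fun q => ?_)
    show φ (q + c) * g q = φ (q + c) * g (q + c + -c)
    rw [add_neg_cancel_right]
  have e2 : ∀ q, kk φ q p * g q = (φ (q + -p) * g q - φ (q + p) * g q) / p := by
    intro q
    unfold kk
    rw [← sub_eq_add_neg]
    ring
  have e3 : ∀ q, φ q * kk g q p = (φ q * g (q + -p) - φ q * g (q + p)) / p := by
    intro q
    unfold kk
    rw [← sub_eq_add_neg]
    ring
  simp only [e2, e3]
  rw [integral_div, integral_div, integral_sub (i1 _) (i1 _), integral_sub (i2 _) (i2 _), e1, e1,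
    neg_neg]
  ring

/-- antisymmetry -/
theorem anti {φ g : ℝ → ℝ} (hφ : Sm φ) (hc : HasCompactSupport φ) (hg : Sm g)
    (hgc : HasCompactSupport g) : ∫ q, HT φ q * g q = - ∫ q, φ q * HT g q := by
  have h1 := integral_integral_swap (f := fun q p => kk φ q p * g q)
    (prod_int hφ hc (sm_cont hg) hgc)
  have h2 := integral_integral_swap (f := fun q p => kk g q p * φ q)
    (prod_int hg hgc (sm_cont hφ) hc)
  have e1 : ∀ q, HT φ q * g q = 1 / Real.pi * ∫ p in Ioi (0 : ℝ), kk φ q p * g q := by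
    intro q
    rw [HT_eq, integral_mul_const]
    ring
  have e2 : ∀ q, φ q * HT g q = 1 / Real.pi * ∫ p in Ioi (0 : ℝ), kk g q p * φ q := by
    intro q
    rw [HT_eq, integral_mul_const]
    ring
  simp only [e1, e2]
  rw [integral_const_mul, integral_const_mul, h1, h2, ← mul_neg, ← integral_neg]
  congr 1
  refine integral_congr_ae (Eventually.of_forall fun p => ?_)
  show ∫ q, kk φ q p * g q = - ∫ q, kk g q p * φ q
  rw [anti_pt hφ hc hg hgc p]
  congr 2
  funext q
  ring

end HTbx

open HTbx in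
/-- **HTb** (calculus of the Hilbert transform) -/
theorem thm_HTb : St_HTb := by
  intro φ hφ hc
  refine ⟨smooth hφ hc, fun q => (hasDeriv hφ hc q).deriv, fun B q hB => bound hφ hc B q hB,
    fun g hg hgc => ⟨?_, anti hφ hc hg hgc⟩, fun r q hr hz hq => off hφ hc r q hr hz hq,
    fun l c q hl => dil φ l c q hl⟩
  exact ((sm_cont (smooth hφ hc)).mul (sm_cont hg)).integrable_of_hasCompactSupport hgc.mul_left

end Pool.Agent.QWF
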