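import Pool.Agent.QWF.StA2

set_option autoImplicit false

/-!
QWF.HTr : the Hilbert transform of the Radon transform and of its derivative in terms of the Fourier integrals
`J1F 1`, `J0F (-1)` (Abel regularisation on the Fourier side, Fubini, dominated convergence on both sides).
-/

open MeasureTheory Filter Topology Set
open scoped ENNReal NNReal RealInnerProductSpace ContDiff

namespace Pool.Agent.QWF

namespace HTrx

/-- The regularised symbol `- i sgn r e^{-e |r|}`. -/
noncomputable def kc (e r : ℝ) : ℂ :=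
  -Complex.I * ((Real.sign r : ℝ) : ℂ) * ((Real.exp (-(e * |r|)) : ℝ) : ℂ)

/-- Its inverse Fourier transform. -/
noncomputable def Qk (e p : ℝ) : ℝ := 4 * Real.pi * p / (e ^ 2 + 4 * Real.pi ^ 2 * p ^ 2)

/-- The character. -/
noncomputable def ch (r p : ℝ) : ℂ := Complex.exp (2 * Real.pi * Complex.I * ((r * p : ℝ) : ℂ))

lemma ch_norm (r p : ℝ) : ‖ch r p‖ = 1 := by
  have h : 2 * (Real.pi : ℂ) * Complex.I * ((r * p : ℝ) : ℂ) = ((2 * Real.pi * (r * p) : ℝ) : ℂ) * Complex.I := by
    push_cast; ring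
  rw [ch, h]; exact Complex.norm_exp_ofReal_mul_I _

lemma ch_add (r p q : ℝ) : ch r (p + q) = ch r p * ch r q := by
  simp only [ch]; rw [← Complex.exp_add]; congr 1; push_cast; ring

lemma ch_cont : Continuous (Function.uncurry ch) := by
  unfold ch Function.uncurry
  refine Complex.continuous_exp.comp (continuous_const.mul (Complex.continuous_ofReal.comp ?_))
  exact continuous_fst.mul continuous_snd

lemma sign_meas : Measurable Real.sign := by
  unfold Real.sign
  exact Measurable.ite measurableSet_Iio measurable_const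
    (Measurable.ite measurableSet_Ioi measurable_const measurable_const)

lemma sign_le (r : ℝ) : |Real.sign r| ≤ 1 := by
  rcases Real.sign_apply_eq r with h | h | h <;> rw [h] <;> simp

lemma kc_meas (e : ℝ) : Measurable (kc e) := by
  unfold kc
  refine (measurable_const.mul (Complex.measurable_ofReal.comp sign_meas)).mul
    (Complex.measurable_ofReal.comp ?_)
  exact (by fun_prop : Continuous fun r : ℝ => Real.exp (-(e * |r|))).measurable

lemma kc_le {e : ℝ} (he : 0 ≤ e) (r : ℝ) : ‖kc e r‖ ≤ 1 := by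
  unfold kc
  rw [norm_mul, norm_mul, norm_neg, Complex.norm_I, Complex.norm_real, Complex.norm_real, one_mul,
    Real.norm_eq_abs, Real.norm_eq_abs, abs_of_pos (Real.exp_pos _)]
  have h1 : Real.exp (-(e * |r|)) ≤ 1 := by
    rw [Real.exp_le_one_iff]; have := mul_nonneg he (abs_nonneg r); linarith
  exact mul_le_one₀ (sign_le r) (Real.exp_pos _).le h1

lemma kc_pos (e p : ℝ) {r : ℝ} (hr : 0 < r) :
    kc e r * ch r p = -Complex.I * Complex.exp (((-e : ℝ) + 2 * Real.pi * p * Complex.I) * r) := by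
  unfold kc ch
  rw [Real.sign_of_pos hr, abs_of_pos hr, Complex.ofReal_exp, Complex.ofReal_one, mul_one, mul_assoc,
    ← Complex.exp_add]
  congr 2
  push_cast; ring

lemma kc_neg (e p : ℝ) {r : ℝ} (hr : r < 0) :
    kc e r * ch r p = Complex.I * Complex.exp (((e : ℝ) + 2 * Real.pi * p * Complex.I) * r) := by
  unfold kc ch
  rw [Real.sign_of_neg hr, abs_of_neg hr, Complex.ofReal_exp]
  have h : -Complex.I * ((-1 : ℝ) : ℂ) = Complex.I := by push_cast; ring
  rw [h, mul_assoc, ← Complex.exp_add]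
  congr 2
  push_cast; ring

lemma re1 (e p : ℝ) : (((-e : ℝ) : ℂ) + 2 * Real.pi * p * Complex.I).re = -e := by
  simp

lemma re2 (e p : ℝ) : ((e : ℂ) + 2 * Real.pi * p * Complex.I).re = e := by
  simp

lemma kc_int_on {e : ℝ} (he : 0 < e) (p : ℝ) :
    IntegrableOn (fun r => kc e r * ch r p) (Iic 0) volume ∧
      IntegrableOn (fun r => kc e r * ch r p) (Ioi 0) volume := by
  constructor
  · rw [integrableOn_Iic_iff_integrableOn_Iio]
    have h := (integrableOn_exp_mul_complex_Iic (a := (e : ℂ) + 2 * Real.pi * p * Complex.I)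
      (by rw [re2]; exact he) 0).mono_set Iio_subset_Iic_self
    exact IntegrableOn.congr_fun (h.const_mul Complex.I) (fun r hr => (kc_neg e p hr).symm) measurableSet_Iio
  · have h := integrableOn_exp_mul_complex_Ioi (a := ((-e : ℝ) : ℂ) + 2 * Real.pi * p * Complex.I)
      (by rw [re1]; linarith) 0
    exact IntegrableOn.congr_fun (h.const_mul (-Complex.I)) (fun r hr => (kc_pos e p hr).symm) measurableSet_Ioi

lemma kc_int {e : ℝ} (he : 0 < e) : Integrable (kc e) volume := by
  have h := kc_int_on he 0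
  have h1 := h.1.union h.2
  rw [Iic_union_Ioi, integrableOn_univ] at h1
  have h2 : (fun r => kc e r * ch r 0) = kc e := by
    funext r; simp [ch]
  rwa [h2] at h1

lemma Q_eq {e : ℝ} (he : 0 < e) (p : ℝ) : ∫ r, kc e r * ch r p = ((Qk e p : ℝ) : ℂ) := by
  obtain ⟨h1, h2⟩ := kc_int_on he p
  rw [← intervalIntegral.integral_Iic_add_Ioi h1 h2, integral_Iic_eq_integral_Iio,
    setIntegral_congr_fun measurableSet_Iio (fun r hr => kc_neg e p hr),
    setIntegral_congr_fun measurableSet_Ioi (fun r hr => kc_pos e p hr), integral_const_mul,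
    integral_const_mul, ← integral_Iic_eq_integral_Iio,
    integral_exp_mul_complex_Iic (a := (e : ℂ) + 2 * Real.pi * p * Complex.I) (by rw [re2]; exact he) 0,
    integral_exp_mul_complex_Ioi (a := ((-e : ℝ) : ℂ) + 2 * Real.pi * p * Complex.I)
      (by rw [re1]; linarith) 0]
  have ha : ((e : ℂ) + 2 * Real.pi * p * Complex.I) ≠ 0 := by
    intro h; have := congrArg Complex.re h; rw [re2] at this; simp at this; linarith
  have hb : (((-e : ℝ) : ℂ) + 2 * Real.pi * p * Complex.I) ≠ 0 := by
    intro h; have := congrArg Complex.re h; rw [re1] at this; simp at this; linarith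
  have hc : (e ^ 2 + 4 * Real.pi ^ 2 * p ^ 2) ≠ 0 := by
    have : 0 ≤ 4 * Real.pi ^ 2 * p ^ 2 := by positivity
    have : 0 < e ^ 2 := by positivity
    linarith
  have hc' : ((e : ℂ) ^ 2 + 4 * Real.pi ^ 2 * p ^ 2) ≠ 0 := by exact_mod_cast hc
  unfold Qk
  push_cast at hb ⊢
  rw [mul_zero, mul_zero, Complex.exp_zero]
  have hI : Complex.I ^ 2 = -1 := Complex.I_sq
  rw [show Complex.I * (1 / ((e : ℂ) + 2 * Real.pi * p * Complex.I)) +
      -Complex.I * (-1 / (-(e : ℂ) + 2 * Real.pi * p * Complex.I)) =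
      (Complex.I * (-(e : ℂ) + 2 * Real.pi * p * Complex.I) +
        ((e : ℂ) + 2 * Real.pi * p * Complex.I) * Complex.I) /
      (((e : ℂ) + 2 * Real.pi * p * Complex.I) * (-(e : ℂ) + 2 * Real.pi * p * Complex.I)) by
    rw [← div_add_div _ _ ha hb]; ring]
  rw [div_eq_div_iff (mul_ne_zero ha hb) hc']
  linear_combination (4 * Real.pi * p * e ^ 2 : ℂ) * hI

lemma Q_nonneg {e p : ℝ} (he : 0 < e) (hp : 0 < p) : 0 ≤ Qk e p := by
  unfold Qk; positivity

lemma Q_le {e p : ℝ} (he : 0 < e) (hp : 0 < p) : Qk e p ≤ 1 / (Real.pi * p) := by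
  unfold Qk
  have hpi := Real.pi_pos
  rw [div_le_div_iff₀ (by positivity) (by positivity)]
  nlinarith [sq_nonneg e]

lemma Q_odd (e p : ℝ) : Qk e (-p) = - Qk e p := by
  unfold Qk
  rw [neg_sq, mul_neg, neg_div]

lemma Q_lim {p : ℝ} (hp : 0 < p) {e : ℕ → ℝ} (he : Tendsto e atTop (𝓝 0)) :
    Tendsto (fun n => Qk (e n) p) atTop (𝓝 (1 / (Real.pi * p))) := by
  have hpi := Real.pi_pos
  have h0 : (0 : ℝ) ^ 2 + 4 * Real.pi ^ 2 * p ^ 2 ≠ 0 := by positivity
  have h := ((tendsto_const_nhds (x := 4 * Real.pi * p)).div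
    ((he.pow 2).add (tendsto_const_nhds (x := 4 * Real.pi ^ 2 * p ^ 2))) h0)
  have h1 : 4 * Real.pi * p / ((0 : ℝ) ^ 2 + 4 * Real.pi ^ 2 * p ^ 2) = 1 / (Real.pi * p) := by
    field_simp; ring
  rw [h1] at h
  exact h

lemma Q_cont {e : ℝ} (he : 0 < e) : Continuous (Qk e) := by
  unfold Qk
  refine Continuous.div (by fun_prop) (by fun_prop) fun p => ?_
  positivity

/-- Fubini on the regularised Fourier side. -/
lemma fub {φ : ℝ → ℝ} (hφ : Continuous φ) (hc : HasCompactSupport φ) {e : ℝ} (he : 0 < e) (q : ℝ) :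
    ∫ r, kc e r * (∫ p, (φ p : ℂ) * ch r (-p)) * ch r q = ((∫ p, φ p * Qk e (q - p) : ℝ) : ℂ) := by
  have hi : Integrable (fun p => (φ p : ℂ)) volume := (hφ.integrable_of_hasCompactSupport hc).ofReal
  have h1 : ∀ r, kc e r * (∫ p, (φ p : ℂ) * ch r (-p)) * ch r q =
      ∫ p, kc e r * ((φ p : ℂ) * ch r (q - p)) := by
    intro r
    rw [integral_const_mul, mul_assoc, ← integral_mul_const]
    congr 1
    refine integral_congr_ae (Eventually.of_forall fun p => ?_)
    change (φ p : ℂ) * ch r (-p) * ch r q = (φ p : ℂ) * ch r (q - p)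
    rw [mul_assoc, ← ch_add, neg_add_eq_sub]
  simp only [h1]
  rw [integral_integral_swap]
  · rw [← integral_complex_ofReal]
    refine integral_congr_ae (Eventually.of_forall fun p => ?_)
    change ∫ r, kc e r * ((φ p : ℂ) * ch r (q - p)) = ((φ p * Qk e (q - p) : ℝ) : ℂ)
    rw [Complex.ofReal_mul, ← Q_eq he (q - p), ← integral_const_mul]
    refine integral_congr_ae (Eventually.of_forall fun r => ?_)
    change kc e r * ((φ p : ℂ) * ch r (q - p)) = (φ p : ℂ) * (kc e r * ch r (q - p))
    ring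
  · have h2 := (kc_int he).mul_prod (ν := volume) hi
    have h3 : Function.uncurry (fun r p => kc e r * ((φ p : ℂ) * ch r (q - p))) =
        fun z : ℝ × ℝ => ch z.1 (q - z.2) * (kc e z.1 * (φ z.2 : ℂ)) := by
      funext z; simp only [Function.uncurry]; ring
    rw [h3]
    refine h2.bdd_mul (c := 1) ?_ (Eventually.of_forall fun z => (ch_norm _ _).le)
    exact (ch_cont.comp (continuous_fst.prodMk (continuous_const.sub continuous_snd))).aestronglyMeasurable

/-- The regularised Hilbert transform as an integral over the half line. -/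
lemma half {φ : ℝ → ℝ} (hφ : Continuous φ) (hc : HasCompactSupport φ) {e : ℝ} (he : 0 < e) (q : ℝ) :
    ∫ p, φ p * Qk e (q - p) = ∫ p in Ioi (0 : ℝ), (φ (q - p) - φ (q + p)) * Qk e p := by
  have hi : ∀ a : ℝ → ℝ, Continuous a → Integrable (fun p => φ p * a p) volume := fun a ha =>
    (hφ.mul ha).integrable_of_hasCompactSupport hc.mul_right
  have hA : Integrable (fun p => φ (q - p) * Qk e p) volume := by
    have h := (hi (fun p => Qk e (q - p)) ((Q_cont he).comp (continuous_const.sub continuous_id))).comp_sub_left q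
    have h2 : (fun p => φ (q - p) * Qk e (q - (q - p))) = fun p => φ (q - p) * Qk e p := by
      funext p; rw [sub_sub_cancel]
    rwa [h2] at h
  have h1 : ∫ p, φ p * Qk e (q - p) = ∫ p, φ (q - p) * Qk e p := by
    rw [← integral_sub_left_eq_self (fun p => φ p * Qk e (q - p)) volume q]
    simp only [sub_sub_cancel]
  rw [h1, ← intervalIntegral.integral_Iic_add_Ioi hA.integrableOn hA.integrableOn]
  have h3 : ∫ p in Iic (0 : ℝ), φ (q - p) * Qk e p = ∫ p in Ioi (0 : ℝ), - (φ (q + p) * Qk e p) := by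
    have h := integral_comp_neg_Iic (0 : ℝ) (fun p => - (φ (q + p) * Qk e p))
    rw [neg_zero] at h
    rw [← h]
    refine integral_congr_ae (Eventually.of_forall fun p => ?_)
    change φ (q - p) * Qk e p = - (φ (q + -p) * Qk e (-p))
    rw [Q_odd, ← sub_eq_add_neg]; ring
  have hB : Integrable (fun p => φ (q + p) * Qk e p) volume := by
    have h := hA.comp_neg
    have h2 : (fun p => φ (q - -p) * Qk e (-p)) = fun p => - (φ (q + p) * Qk e p) := by
      funext p; rw [Q_odd, sub_neg_eq_add]; ring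
    rw [h2] at h
    have h3 := h.neg
    simpa using h3
  have hBn : Integrable (fun p => -(φ (q + p) * Qk e p)) volume := hB.neg
  rw [h3, ← integral_add hBn.integrableOn hA.integrableOn]
  refine integral_congr_ae (Eventually.of_forall fun p => ?_)
  change - (φ (q + p) * Qk e p) + φ (q - p) * Qk e p = (φ (q - p) - φ (q + p)) * Qk e p
  ring

/-- Hilbert transform on the Fourier side. -/
lemma main {φ φ' : ℝ → ℝ} (hd : ∀ p, HasDerivAt φ (φ' p) p) (hφ' : Continuous φ') (hc : HasCompactSupport φ)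
    (hF : Integrable (fun r => ∫ p, (φ p : ℂ) * ch r (-p)) volume) (q : ℝ) :
    ((HT φ q : ℝ) : ℂ) = ∫ r, -Complex.I * ((Real.sign r : ℝ) : ℂ) * (∫ p, (φ p : ℂ) * ch r (-p)) * ch r q := by
  have hφ : Continuous φ := continuous_iff_continuousAt.2 fun p => (hd p).continuousAt
  set F : ℝ → ℂ := fun r => ∫ p, (φ p : ℂ) * ch r (-p) with hFd
  set e : ℕ → ℝ := fun n => 1 / ((n : ℝ) + 1) with hed
  have he : ∀ n, 0 < e n := fun n => by rw [hed]; positivity
  have he0 : Tendsto e atTop (𝓝 0) := tendsto_one_div_add_atTop_nhds_zero_nat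
  have hpi := Real.pi_pos
  -- the Fourier side
  have hL : Tendsto (fun n => ∫ r, kc (e n) r * F r * ch r q) atTop
      (𝓝 (∫ r, -Complex.I * ((Real.sign r : ℝ) : ℂ) * F r * ch r q)) := by
    refine tendsto_integral_of_dominated_convergence (fun r => ‖F r‖) (fun n => ?_) hF.norm
      (fun n => Eventually.of_forall fun r => ?_) (Eventually.of_forall fun r => ?_)
    · exact ((kc_meas _).aestronglyMeasurable.mul hF.aestronglyMeasurable).mul
        (ch_cont.comp (continuous_id.prodMk continuous_const)).aestronglyMeasurable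
    · rw [norm_mul, norm_mul, ch_norm, mul_one]
      calc ‖kc (e n) r‖ * ‖F r‖ ≤ 1 * ‖F r‖ := by gcongr; exact kc_le (he n).le r
        _ = ‖F r‖ := one_mul _
    · refine Tendsto.mul (Tendsto.mul ?_ tendsto_const_nhds) tendsto_const_nhds
      unfold kc
      have h1 : Tendsto (fun n => Real.exp (-(e n * |r|))) atTop (𝓝 1) := by
        have h2 : Tendsto (fun n => -(e n * |r|)) atTop (𝓝 0) := by
          have := (he0.mul_const |r|).neg
          simpa using this
        have h3 := (Real.continuous_exp.tendsto 0).comp h2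
        rw [Real.exp_zero] at h3
        exact h3
      have h4 := (Complex.continuous_ofReal.tendsto 1).comp h1
      have h5 := h4.const_mul (-Complex.I * ((Real.sign r : ℝ) : ℂ))
      rw [Complex.ofReal_one, mul_one] at h5
      exact h5
  -- the other side
  obtain ⟨R, hR⟩ : ∃ R : ℝ, ∀ p, R ≤ |p| → φ p = 0 := by
    obtain ⟨R, hR⟩ := hc.isCompact.isBounded.subset_closedBall (0 : ℝ)
    refine ⟨R + 1, fun p hp => ?_⟩
    by_contra hne
    have h1 := hR (subset_tsupport _ (Function.mem_support.2 hne))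
    rw [Metric.mem_closedBall, Real.dist_eq, sub_zero] at h1
    linarith
  have hc' : HasCompactSupport φ' := by
    refine HasCompactSupport.intro (isCompact_Icc (a := -R) (b := R)) fun p hp => ?_
    have h1 : φ =ᶠ[𝓝 p] fun _ => 0 := by
      have h2 : (Icc (-R) R)ᶜ ∈ 𝓝 p := isClosed_Icc.isOpen_compl.mem_nhds hp
      filter_upwards [h2] with x hx
      apply hR
      by_contra hlt
      push Not at hlt
      exact hx (abs_le.1 hlt.le)
    exact (hd p).unique ((hasDerivAt_const p (0 : ℝ)).congr_of_eventuallyEq h1)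
  obtain ⟨B, hB⟩ := hφ'.bounded_above_of_compact_support hc'
  have hB0 : 0 ≤ B := (norm_nonneg _).trans (hB 0)
  have hlip : ∀ x y, |φ x - φ y| ≤ B * |x - y| := by
    intro x y
    have h := Convex.norm_image_sub_le_of_norm_hasDerivWithin_le (f := φ) (f' := φ') (C := B)
      (s := univ) (x := y) (y := x) (fun p _ => (hd p).hasDerivWithinAt) (fun p _ => hB p) convex_univ
      (mem_univ _) (mem_univ _)
    simpa [Real.norm_eq_abs] using h
  set g : ℝ → ℝ := fun p => φ (q - p) - φ (q + p) with hg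
  have hgc : Continuous g := (hφ.comp (continuous_const.sub continuous_id)).sub
    (hφ.comp (continuous_const.add continuous_id))
  have hg1 : ∀ p, 0 < p → |g p| ≤ 2 * B * p := by
    intro p hp
    have h := hlip (q - p) (q + p)
    have h2 : |q - p - (q + p)| = 2 * p := by
      rw [show q - p - (q + p) = -(2 * p) by ring, abs_neg, abs_of_pos (by linarith)]
    rw [h2] at h
    calc |g p| ≤ B * (2 * p) := h
      _ = 2 * B * p := by ring
  have hg2 : ∀ p, |q| + R < p → g p = 0 := by
    intro p hp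
    have h1 : φ (q - p) = 0 := hR _ (by
      have := abs_sub_abs_le_abs_sub p q
      rw [abs_sub_comm] at this
      have h3 := le_abs_self p
      linarith)
    have h2 : φ (q + p) = 0 := hR _ (by
      have := abs_sub_abs_le_abs_sub p (-q)
      rw [abs_neg, sub_neg_eq_add, add_comm p q] at this
      have h3 := le_abs_self p
      linarith)
    simp only [hg, h1, h2, sub_zero]
  set b : ℝ → ℝ := (Ioc (0 : ℝ) (|q| + |R| + 1)).indicator fun _ => 2 * B / Real.pi with hb
  have hbi : Integrable b (volume.restrict (Ioi (0 : ℝ))) := by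
    refine Integrable.integrableOn ?_
    rw [hb, integrable_indicator_iff measurableSet_Ioc]
    exact integrableOn_const (by simp)
  have hM : Tendsto (fun n => ∫ p in Ioi (0 : ℝ), g p * Qk (e n) p) atTop
      (𝓝 (∫ p in Ioi (0 : ℝ), g p * (1 / (Real.pi * p)))) := by
    refine tendsto_integral_of_dominated_convergence b (fun n => ?_) hbi (fun n => ?_) ?_
    · exact (hgc.mul (Q_cont (he n))).aestronglyMeasurable
    · filter_upwards [ae_restrict_mem measurableSet_Ioi] with p hp
      have hp : 0 < p := hp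
      by_cases hm : p ∈ Ioc (0 : ℝ) (|q| + |R| + 1)
      · rw [hb, indicator_of_mem hm, norm_mul, Real.norm_eq_abs, Real.norm_eq_abs,
          abs_of_nonneg (Q_nonneg (he n) hp)]
        calc |g p| * Qk (e n) p ≤ (2 * B * p) * (1 / (Real.pi * p)) := by
              gcongr
              · exact Q_nonneg (he n) hp
              · exact hg1 p hp
              · exact Q_le (he n) hp
          _ = 2 * B / Real.pi := by field_simp
      · have h1 : |q| + |R| + 1 < p := by
          by_contra hlt; push Not at hlt; exact hm ⟨hp, hlt⟩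
        have h2 : g p = 0 := hg2 p (by have := le_abs_self R; linarith)
        rw [hb, indicator_of_notMem hm, h2, zero_mul, norm_zero]
    · filter_upwards [ae_restrict_mem measurableSet_Ioi] with p hp
      exact (Q_lim hp he0).const_mul (g p)
  have hE : ∀ n, ∫ r, kc (e n) r * F r * ch r q = ((∫ p in Ioi (0 : ℝ), g p * Qk (e n) p : ℝ) : ℂ) := by
    intro n
    rw [← half hφ hc (he n) q]
    exact fub hφ hc (he n) q
  have hM' := (Complex.continuous_ofReal.tendsto _).comp hM
  have hU := tendsto_nhds_unique hL (hM'.congr fun n => (hE n).symm)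
  rw [hU]
  congr 1
  unfold HT
  rw [← integral_const_mul]
  refine setIntegral_congr_fun measurableSet_Ioi fun p hp => ?_
  change 1 / Real.pi * ((φ (q - p) - φ (q + p)) / p) = (φ (q - p) - φ (q + p)) * (1 / (Real.pi * p))
  have hp : 0 < p := hp
  field_simp

lemma ftr (φ : ℝ → ℝ) (r : ℝ) : ∫ p, (φ p : ℂ) * ch r (-p) =
    ∫ p, (φ p : ℂ) * Complex.exp (-2 * Real.pi * Complex.I * r * p) := by
  refine integral_congr_ae (Eventually.of_forall fun p => ?_)
  simp only [ch]
  congr 2
  push_cast; ring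

lemma slice (hFSl : St_FSl) {ψ : E → ℝ} (hψ : IsSch ψ) (w : S) (r : ℝ) :
    ∫ p, (Rad ψ (w, p) : ℂ) * ch r (-p) = ft ψ (r • (w : E)) := by
  rw [ftr, hFSl ψ hψ w r, ft]
  refine integral_congr_ae (Eventually.of_forall fun x => ?_)
  simp only [inner_smul_right]
  congr 2
  push_cast; ring

lemma ch_deriv (r p : ℝ) : HasDerivAt (fun p : ℝ => ch r (-p)) (-(2 * Real.pi * Complex.I * r) * ch r (-p)) p := by
  have h1 : HasDerivAt (fun p : ℝ => ((r * -p : ℝ) : ℂ)) (((r * -1 : ℝ)) : ℂ) p :=
    HasDerivAt.ofReal_comp (((hasDerivAt_id p).neg).const_mul r)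
  have h2 := (h1.const_mul (2 * Real.pi * Complex.I)).cexp
  unfold ch
  refine h2.congr_deriv ?_
  push_cast; ring

lemma slice' (hRadT : St_RadT) (hFSl : St_FSl) {ψ : E → ℝ} (ht : IsTest ψ) (hψ : IsSch ψ) (w : S) (r : ℝ)
    (hc : HasCompactSupport fun p => Rad ψ (w, p)) (hc' : HasCompactSupport fun p => dRad ψ (w, p)) :
    ∫ p, (dRad ψ (w, p) : ℂ) * ch r (-p) = 2 * Real.pi * Complex.I * r * ft ψ (r • (w : E)) := by
  obtain ⟨h1, h2, -, h4, -⟩ := hRadT ψ ht
  have k1 : Continuous fun p => Rad ψ (w, p) := h1.comp (continuous_const.prodMk continuous_id)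
  have k2 : Continuous fun p => dRad ψ (w, p) := h2.comp (continuous_const.prodMk continuous_id)
  have k3 : Continuous fun p : ℝ => ch r (-p) := ch_cont.comp (continuous_const.prodMk continuous_neg)
  have i1 : Integrable (fun p => (Rad ψ (w, p) : ℂ)) volume := (k1.integrable_of_hasCompactSupport hc).ofReal
  have i2 : Integrable (fun p => (dRad ψ (w, p) : ℂ)) volume := (k2.integrable_of_hasCompactSupport hc').ofReal
  have hb : ∀ p : ℝ, ‖ch r (-p)‖ ≤ 1 := fun p => (ch_norm _ _).le
  have j1 : Integrable (fun p => (Rad ψ (w, p) : ℂ) * ch r (-p)) volume :=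
    i1.mul_bdd (c := 1) k3.aestronglyMeasurable (Eventually.of_forall hb)
  have j2 : Integrable (fun p => (dRad ψ (w, p) : ℂ) * ch r (-p)) volume :=
    i2.mul_bdd (c := 1) k3.aestronglyMeasurable (Eventually.of_forall hb)
  have j3 : Integrable (fun p => (Rad ψ (w, p) : ℂ) * (-(2 * Real.pi * Complex.I * r) * ch r (-p))) volume := by
    have h := j1.const_mul (-(2 * Real.pi * Complex.I * r))
    refine h.congr (Eventually.of_forall fun p => ?_)
    change -(2 * Real.pi * Complex.I * r) * ((Rad ψ (w, p) : ℂ) * ch r (-p)) = _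
    ring
  have key := integral_mul_deriv_eq_deriv_mul_of_integrable (u := fun p => (Rad ψ (w, p) : ℂ))
    (v := fun p => ch r (-p)) (u' := fun p => (dRad ψ (w, p) : ℂ))
    (v' := fun p => -(2 * Real.pi * Complex.I * r) * ch r (-p))
    (fun p _ => HasDerivAt.ofReal_comp (h4 w p).1) (fun p _ => ch_deriv r p) j3 j2 j1
  have h5 : ∫ p, (Rad ψ (w, p) : ℂ) * (-(2 * Real.pi * Complex.I * r) * ch r (-p)) =
      -(2 * Real.pi * Complex.I * r) * ft ψ (r • (w : E)) := by
    rw [← slice hFSl hψ w r, ← integral_const_mul]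
    refine integral_congr_ae (Eventually.of_forall fun p => ?_)
    change (Rad ψ (w, p) : ℂ) * (-(2 * Real.pi * Complex.I * r) * ch r (-p)) =
      -(2 * Real.pi * Complex.I * r) * ((Rad ψ (w, p) : ℂ) * ch r (-p))
    ring
  rw [h5] at key
  have key2 := congrArg Neg.neg key
  rw [neg_neg] at key2
  rw [← key2]; ring

lemma ft_int (hFt : St_Ft) {ψ : E → ℝ} (hψ : IsSch ψ) (w : S) :
    Integrable (fun r : ℝ => ft ψ (r • (w : E))) volume ∧
      Integrable (fun r : ℝ => 2 * Real.pi * Complex.I * r * ft ψ (r • (w : E))) volume := by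
  obtain ⟨h1, h2, -⟩ := hFt.2 ψ hψ
  have hw : ‖(w : E)‖ = 1 := norm_eq_of_mem_sphere w
  have hc : Continuous fun r : ℝ => ft ψ (r • (w : E)) := h1.comp (continuous_id.smul continuous_const)
  obtain ⟨C, hC⟩ := h2 3
  have hn : ∀ r : ℝ, ‖r • (w : E)‖ = |r| := fun r => by rw [norm_smul, hw, mul_one, Real.norm_eq_abs]
  have hC' : ∀ r : ℝ, ‖ft ψ (r • (w : E))‖ ≤ C / (1 + |r|) ^ 3 := fun r => by
    have := hC (r • (w : E)); rwa [hn] at this
  have hC0 : 0 ≤ C := by
    have := (norm_nonneg _).trans (hC' 0)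
    simpa using this
  have hi := (integrable_inv_one_add_sq).const_mul C
  have hi2 := (integrable_inv_one_add_sq).const_mul (2 * Real.pi * C)
  constructor
  · refine hi.mono' hc.aestronglyMeasurable (Eventually.of_forall fun r => (hC' r).trans ?_)
    rw [div_eq_mul_inv]
    gcongr
    nlinarith [abs_nonneg r, sq_abs r, mul_nonneg (abs_nonneg r) (sq_nonneg r), pow_nonneg (abs_nonneg r) 3]
  · refine hi2.mono' ?_ (Eventually.of_forall fun r => ?_)
    · exact ((continuous_const.mul Complex.continuous_ofReal).mul hc).aestronglyMeasurable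
    · have h3 : ‖2 * (Real.pi : ℂ) * Complex.I * r‖ = 2 * Real.pi * |r| := by
        rw [norm_mul, norm_mul, norm_mul, Complex.norm_I, Complex.norm_real, Complex.norm_real, mul_one,
          Real.norm_eq_abs, Real.norm_eq_abs, abs_of_pos Real.pi_pos]
        simp
      rw [norm_mul, h3]
      have hpi := Real.pi_pos
      calc 2 * Real.pi * |r| * ‖ft ψ (r • (w : E))‖ ≤ 2 * Real.pi * |r| * (C / (1 + |r|) ^ 3) := by
            gcongr; exact hC' r
        _ = 2 * Real.pi * C * (|r| / (1 + |r|) ^ 3) := by ring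
        _ ≤ 2 * Real.pi * C * (1 + r ^ 2)⁻¹ := by
            gcongr
            rw [div_le_iff₀ (by positivity), inv_mul_eq_div, le_div_iff₀ (by positivity)]
            nlinarith [abs_nonneg r, sq_abs r, pow_nonneg (abs_nonneg r) 3]

lemma supp (hRadT : St_RadT) {ψ : E → ℝ} (ht : IsTest ψ) (w : S) :
    HasCompactSupport (fun p => Rad ψ (w, p)) ∧ HasCompactSupport (fun p => dRad ψ (w, p)) := by
  obtain ⟨-, -, h3, -⟩ := hRadT ψ ht
  obtain ⟨R, hR⟩ := ht.2.isCompact.isBounded.subset_closedBall (0 : E)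
  have h : ∀ p : ℝ, p ∉ Icc (-R) R → Rad ψ (w, p) = 0 ∧ dRad ψ (w, p) = 0 := by
    intro p hp
    refine h3 0 R hR (w, p) ?_
    change R ≤ |p - inner ℝ (0 : E) (w : E)|
    rw [inner_zero_left, sub_zero]
    by_contra hlt
    push Not at hlt
    exact hp (abs_le.1 hlt.le)
  exact ⟨HasCompactSupport.intro isCompact_Icc fun p hp => (h p hp).1,
    HasCompactSupport.intro isCompact_Icc fun p hp => (h p hp).2⟩

lemma test_pd {f : E → ℝ} (hf : IsTest f) (i : Fin 4) : IsTest (pd i f) := by
  refine ⟨?_, ?_⟩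
  · exact (hf.1.fderiv_right (m := ∞) (by simp)).clm_apply contDiff_const
  · exact hf.2.fderiv_apply ℝ _

lemma test_lap {f : E → ℝ} (hf : IsTest f) : IsTest (lap f) := by
  have h : lap f = fun x => ∑ i, pd i (pd i f) x := rfl
  have h2 : lap f = ∑ i, pd i (pd i f) := by funext x; simp [lap]
  refine ⟨?_, ?_⟩
  · rw [h]
    exact ContDiff.sum fun i _ => (test_pd (test_pd hf i) i).1
  · rw [h2]
    have : ∀ s : Finset (Fin 4), HasCompactSupport (∑ i ∈ s, pd i (pd i f)) := by
      intro s
      induction s using Finset.induction_on with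
      | empty => rw [Finset.sum_empty]; exact HasCompactSupport.zero
      | insert i s hi ih => rw [Finset.sum_insert hi]; exact (test_pd (test_pd hf i) i).2.add ih
    exact this _

lemma symb1 (r : ℝ) : -Complex.I * ((Real.sign r : ℝ) : ℂ) =
    -(((|2 * Real.pi * r| ^ (-1 : ℝ) : ℝ) : ℂ) * (2 * Real.pi * Complex.I * (r : ℂ))) := by
  have hpi := Real.pi_pos
  rcases lt_trichotomy r 0 with h | h | h
  · have h1 : |2 * Real.pi * r| = -(2 * Real.pi * r) := abs_of_neg (by nlinarith)
    rw [Real.sign_of_neg h, Real.rpow_neg_one, h1]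
    have h2 : (r : ℂ) ≠ 0 := by exact_mod_cast h.ne
    have h3 : (Real.pi : ℂ) ≠ 0 := by exact_mod_cast hpi.ne'
    push_cast
    field_simp
  · subst h; simp
  · have h1 : |2 * Real.pi * r| = 2 * Real.pi * r := abs_of_pos (by positivity)
    rw [Real.sign_of_pos h, Real.rpow_neg_one, h1]
    have h2 : (r : ℂ) ≠ 0 := by exact_mod_cast h.ne'
    have h3 : (Real.pi : ℂ) ≠ 0 := by exact_mod_cast hpi.ne'
    push_cast
    field_simp

lemma symb2 (r : ℝ) : -Complex.I * ((Real.sign r : ℝ) : ℂ) * (2 * Real.pi * Complex.I * (r : ℂ)) =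
    ((|2 * Real.pi * r| ^ (-(-1) : ℝ) : ℝ) : ℂ) := by
  have hpi := Real.pi_pos
  rw [neg_neg, Real.rpow_one]
  have hI : Complex.I ^ 2 = -1 := Complex.I_sq
  rcases lt_trichotomy r 0 with h | h | h
  · have h1 : |2 * Real.pi * r| = -(2 * Real.pi * r) := abs_of_neg (by nlinarith)
    rw [Real.sign_of_neg h, h1]
    push_cast
    linear_combination (2 * Real.pi * r : ℂ) * hI
  · subst h; simp
  · have h1 : |2 * Real.pi * r| = 2 * Real.pi * r := abs_of_pos (by positivity)
    rw [Real.sign_of_pos h, h1]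
    push_cast
    linear_combination -(2 * Real.pi * r : ℂ) * hI

end HTrx

open HTrx in
theorem thm_HTr (hRadT : St_RadT) (hFSl : St_FSl) (hFt : St_Ft) : St_HTr := by
  intro ψ ht w q
  have hψ : IsSch ψ := hFt.1 ψ ht
  obtain ⟨hcR, hcD⟩ := supp hRadT ht w
  obtain ⟨hI1, hI2⟩ := ft_int hFt hψ w
  obtain ⟨h1, h2, -, h4, -⟩ := hRadT ψ ht
  have k2 : Continuous fun p => dRad ψ (w, p) := h2.comp (continuous_const.prodMk continuous_id)
  have k3 : Continuous fun p => Rad (lap ψ) (w, p) :=
    (hRadT (lap ψ) (test_lap ht)).1.comp (continuous_const.prodMk continuous_id)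
  have hS : (fun r => ∫ p, (Rad ψ (w, p) : ℂ) * ch r (-p)) = fun r => ft ψ (r • (w : E)) := by
    funext r; exact slice hFSl hψ w r
  have hS' : (fun r => ∫ p, (dRad ψ (w, p) : ℂ) * ch r (-p)) =
      fun r : ℝ => 2 * Real.pi * Complex.I * r * ft ψ (r • (w : E)) := by
    funext r; exact slice' hRadT hFSl ht hψ w r hcR hcD
  constructor
  · have h := main (fun p => (h4 w p).1) k2 hcR (by rw [hS]; exact hI1) q
    have h' := congrArg Complex.re h
    rw [Complex.ofReal_re] at h'
    rw [h', J1F, ← Complex.neg_re, ← integral_neg]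
    congr 1
    refine integral_congr_ae (Eventually.of_forall fun r => ?_)
    change -Complex.I * ((Real.sign r : ℝ) : ℂ) * (∫ p, (Rad ψ (w, p) : ℂ) * ch r (-p)) * ch r q =
      -(((|2 * Real.pi * r| ^ (-1 : ℝ) : ℝ) : ℂ) * (2 * Real.pi * Complex.I * (r : ℂ)) *
        ft ψ (r • (w : E)) * Complex.exp (2 * Real.pi * Complex.I * ((r * q : ℝ) : ℂ)))
    rw [slice hFSl hψ w r, symb1 r, ch]
    ring
  · have h := main (fun p => (h4 w p).2) k3 hcD (by rw [hS']; exact hI2) q
    have h' := congrArg Complex.re h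
    rw [Complex.ofReal_re] at h'
    rw [h', J0F]
    congr 1
    refine integral_congr_ae (Eventually.of_forall fun r => ?_)
    change -Complex.I * ((Real.sign r : ℝ) : ℂ) * (∫ p, (dRad ψ (w, p) : ℂ) * ch r (-p)) * ch r q =
      ((|2 * Real.pi * r| ^ (-(-1) : ℝ) : ℝ) : ℂ) * ft ψ (r • (w : E)) *
        Complex.exp (2 * Real.pi * Complex.I * ((r * q : ℝ) : ℂ))
    rw [slice' hRadT hFSl ht hψ w r hcR hcD, ← symb2 r, ch]
    ring

end Pool.Agent.QWF
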