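import Pool.Agent.QWF.StD

/-!
# QWF, module HscP: semicontinuity of half space norms in all variables
-/

set_option autoImplicit false

open MeasureTheory Filter Topology Set
open scoped ENNReal NNReal RealInnerProductSpace

namespace Pool.Agent.QWF


namespace HscPx

theorem inner_lower (x e e' : E) (R : ℝ) (hx : ‖x‖ ≤ R) :
    inner ℝ x e - R * ‖e - e'‖ ≤ inner ℝ x e' := by
  have h1 : inner ℝ x e' = inner ℝ x e - inner ℝ x (e - e') := by
    rw [inner_sub_right]; ring
  have h2 : inner ℝ x (e - e') ≤ ‖x‖ * ‖e - e'‖ := real_inner_le_norm _ _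
  have h3 : ‖x‖ * ‖e - e'‖ ≤ R * ‖e - e'‖ := by gcongr
  linarith

end HscPx

theorem thm_HscP (hEx : St_ExBP) (hCut : St_CutP) (hHB : St_HBP) : St_HscP := by
  intro s hs
  obtain ⟨x1, x2, x3, x4, x5, x6, x7, x8, x9, -, -⟩ := hEx s hs
  obtain ⟨hop, -, -, -, -, -⟩ := hHB s hs
  obtain ⟨C, X, -, c2, c3, c4, -⟩ := hCut s hs
  constructor
  · intro W W' e e' b b' b1 ε hW he hb hb1 hε
    set H := half e' b1 with hH
    set D := W' - pr s H W' with hD
    have hVD : Van s H D := x5 H W'
    obtain ⟨M, hM⟩ : ∃ M, ‖X M D - D‖ < ε / 2 := by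
      have h := (Metric.tendsto_nhds.1 (c4 D)) (ε / 2) (by linarith)
      obtain ⟨M, hM⟩ := h.exists
      exact ⟨M, by rwa [dist_eq_norm] at hM⟩
    have v1 : Van s (xt 0 (2 * (M : ℝ) + 2)) (X M D) := c2 M D
    have v2 : Van s H (X M D) := c3 M D H (hop e' b1) hVD
    have hopext : IsOpen (xt 0 (2 * (M : ℝ) + 2)) :=
      isOpen_lt continuous_const (continuous_id.dist continuous_const)
    obtain ⟨u1, w1⟩ := (x7 _ _ hopext).1 v1
    obtain ⟨u2, w2⟩ := (x7 _ _ (hop e' b1)).1 v2
    have t1 : Tendsto (fun n => b n - (2 * (M : ℝ) + 2) * ‖e n - e'‖) atTop (𝓝 b') := by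
      have h1 : Tendsto (fun n => ‖e n - e'‖) atTop (𝓝 0) := tendsto_iff_norm_sub_tendsto_zero.1 he
      have h2 := hb.sub (h1.const_mul (2 * (M : ℝ) + 2))
      simpa using h2
    have t2 : Tendsto (fun n => ‖W n - W'‖) atTop (𝓝 0) := tendsto_iff_norm_sub_tendsto_zero.1 hW
    filter_upwards [t1.eventually_const_lt hb1, t2.eventually_lt_const (show (0 : ℝ) < ε / 2 by linarith)]
      with n hn1 hn2
    have hsub : ∀ x ∈ half (e n) (b n), x ∈ H ∨ x ∈ xt 0 (2 * (M : ℝ) + 2) := by
      intro x hx
      by_cases h0 : x ∈ xt 0 (2 * (M : ℝ) + 2)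
      · exact Or.inr h0
      · left
        have h1 : ‖x‖ ≤ 2 * (M : ℝ) + 2 := by
          have h2 : ¬ (2 * (M : ℝ) + 2 < dist x 0) := h0
          rw [dist_zero_right] at h2
          exact not_lt.1 h2
        have h2 := HscPx.inner_lower x (e n) e' _ h1
        have h3 : b n < inner ℝ x (e n) := hx
        change b1 < inner ℝ x e'
        linarith
    have v3 : Van s (half (e n) (b n)) (X M D) := by
      rw [x7 _ _ (hop _ _)]
      constructor
      · filter_upwards [u1, u2] with x h1 h2 hx
        exact (hsub x hx).elim h2 h1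
      · filter_upwards [w1, w2] with x h1 h2 hx
        exact (hsub x hx).elim h2 h1
    have h1 : ex s (half (e n) (b n)) (W n) ≤ ‖W n - X M D‖ :=
      (x6 (half (e n) (b n)) (W n) (W n - X M D) (by rwa [sub_sub_cancel])).1
    have h2 : W n - X M D = (W n - W') + pr s H W' - (X M D - D) := by
      rw [hD]; abel
    have h3 : ‖W n - X M D‖ ≤ ‖W n - W'‖ + ‖pr s H W'‖ + ‖X M D - D‖ := by
      rw [h2]
      exact (norm_sub_le _ _).trans (by gcongr; exact norm_add_le _ _)
    have h4 : ex s H W' = ‖pr s H W'‖ := rfl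
    linarith
  · intro W W' e e' b b' d hW he hb hd
    let Om : ℕ → Set E := fun m => half e' (b' + 1 / ((m : ℝ) + 1)) ∩ Metric.ball 0 m
    have hOmo : ∀ m, IsOpen (Om m) := fun m => (hop _ _).inter Metric.isOpen_ball
    have hOmm : Monotone Om := by
      intro m m' hm x hx
      refine ⟨?_, Metric.ball_subset_ball (by exact_mod_cast hm) hx.2⟩
      have h1 : b' + 1 / ((m : ℝ) + 1) < inner ℝ x e' := hx.1
      have h2 : 1 / ((m' : ℝ) + 1) ≤ 1 / ((m : ℝ) + 1) := by
        apply one_div_le_one_div_of_le (by positivity)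
        have : (m : ℝ) ≤ m' := by exact_mod_cast hm
        linarith
      change b' + 1 / ((m' : ℝ) + 1) < inner ℝ x e'
      linarith
    have hU : ⋃ m, Om m = half e' b' := by
      apply Subset.antisymm
      · refine iUnion_subset fun m x hx => ?_
        have h1 : b' + 1 / ((m : ℝ) + 1) < inner ℝ x e' := hx.1
        have h2 : 0 < 1 / ((m : ℝ) + 1) := by positivity
        change b' < inner ℝ x e'
        linarith
      · intro x hx
        have h1 : b' < inner ℝ x e' := hx
        obtain ⟨m1, hm1⟩ := exists_nat_one_div_lt (sub_pos.2 h1)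
        obtain ⟨m2, hm2⟩ := exists_nat_gt ‖x‖
        rw [mem_iUnion]
        refine ⟨max m1 m2, ?_, ?_⟩
        · change b' + 1 / (((max m1 m2 : ℕ) : ℝ) + 1) < inner ℝ x e'
          have h2 : 1 / (((max m1 m2 : ℕ) : ℝ) + 1) ≤ 1 / ((m1 : ℝ) + 1) := by
            apply one_div_le_one_div_of_le (by positivity)
            have : (m1 : ℝ) ≤ ((max m1 m2 : ℕ) : ℝ) := by exact_mod_cast le_max_left m1 m2
            linarith
          linarith
        · rw [mem_ball_zero_iff]
          exact hm2.trans_le (by exact_mod_cast le_max_right m1 m2)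
    have key : ∀ m, ex s (Om m) W' ≤ d := by
      intro m
      have t1 : Tendsto (fun n => b n + (m : ℝ) * ‖e' - e n‖) atTop (𝓝 b') := by
        have h1 : Tendsto (fun n => ‖e' - e n‖) atTop (𝓝 0) := by
          have := tendsto_iff_norm_sub_tendsto_zero.1 he
          simpa [norm_sub_rev] using this
        have h2 := hb.add (h1.const_mul (m : ℝ))
        simpa using h2
      have t2 : Tendsto (fun n => d + ‖W n - W'‖) atTop (𝓝 d) := by
        have h1 : Tendsto (fun n => ‖W n - W'‖) atTop (𝓝 0) := tendsto_iff_norm_sub_tendsto_zero.1 hW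
        simpa using h1.const_add d
      refine ge_of_tendsto t2 ?_
      have h0 : b' < b' + 1 / ((m : ℝ) + 1) := by
        have : 0 < 1 / ((m : ℝ) + 1) := by positivity
        linarith
      filter_upwards [t1.eventually_lt_const h0] with n hn
      have hsub : Om m ⊆ half (e n) (b n) := by
        intro x hx
        have h1 : b' + 1 / ((m : ℝ) + 1) < inner ℝ x e' := hx.1
        have h2 : ‖x‖ ≤ m := (mem_ball_zero_iff.1 hx.2).le
        have h3 := HscPx.inner_lower x e' (e n) _ h2
        change b n < inner ℝ x (e n)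
        linarith
      have h1 := x3 _ _ (W n) hsub
      have h2 := hd n
      have h3 := abs_le.1 (x1 (Om m) (W n) W')
      linarith [h3.1]
    have h9 := x9 Om W' hOmm hOmo
    rw [hU] at h9
    exact le_of_tendsto' h9 key

end Pool.Agent.QWF
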