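import Pool.Agent.QWF.StA

set_option autoImplicit false

/-!
# QWF, IsoP: the isometry
-/

open MeasureTheory Filter Topology Set
open scoped ENNReal NNReal RealInnerProductSpace

namespace Pool.Agent.QWF

namespace IsoPx

lemma ae_ne : ∀ᵐ ξ : E, ξ ≠ 0 := by
  have h : ({0} : Set E)ᶜ ∈ ae (volume : Measure E) := by
    rw [mem_ae_iff, compl_compl]
    exact measure_singleton 0
  filter_upwards [h] with x hx using hx

lemma sphere_norm (z : S × ℝ) : ‖z.2 • (z.1 : E)‖ = |z.2| := by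
  rw [norm_smul, norm_eq_of_mem_sphere, mul_one, Real.norm_eq_abs]

lemma abs_eq (z : S × ℝ) : |2 * Real.pi * z.2| = 2 * Real.pi * ‖z.2 • (z.1 : E)‖ := by
  rw [sphere_norm, abs_mul, abs_of_pos Real.two_pi_pos]

lemma meas (hFt : St_Ft) {φ ψ : E → ℝ} (hφ : IsSch φ) (hψ : IsSch ψ) (a : ℝ) :
    AEStronglyMeasurable (fun ξ : E => (((2 * Real.pi * ‖ξ‖) ^ a : ℝ) : ℂ) * ft φ ξ *
      (starRingEnd ℂ) (ft ψ ξ)) volume := by
  have h1 : Measurable fun ξ : E => (((2 * Real.pi * ‖ξ‖) ^ a : ℝ) : ℂ) := by fun_prop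
  have h2 : Continuous (ft φ) := (hFt.2 φ hφ).1
  have h3 : Continuous fun ξ => (starRingEnd ℂ) (ft ψ ξ) :=
    Complex.continuous_conj.comp (hFt.2 ψ hψ).1
  exact ((h1.aestronglyMeasurable).mul h2.aestronglyMeasurable).mul h3.aestronglyMeasurable

/-- Polar coordinates. -/
lemma polar (hFt : St_Ft) (hPol : St_Pol) {φ ψ : E → ℝ} (hφ : IsSch φ) (hψ : IsSch ψ) (a : ℝ) :
    c0 * (∫ z : S × ℝ, ((|2 * Real.pi * z.2| ^ a : ℝ) : ℂ) * ft φ (z.2 • (z.1 : E)) *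
      (starRingEnd ℂ) (ft ψ (z.2 • (z.1 : E))) ∂mu).re =
    (∫ ξ, (((2 * Real.pi * ‖ξ‖) ^ (a - 3) : ℝ) : ℂ) * (ft φ ξ * (starRingEnd ℂ) (ft ψ ξ))).re := by
  have h1 := (hPol _ (meas hFt hφ hψ a)).2
  simp only [abs_eq]
  rw [h1, ← Complex.re_ofReal_mul, ← integral_const_mul, ← integral_const_mul]
  congr 1
  refine integral_congr_ae ?_
  filter_upwards [ae_ne] with ξ hξ
  have hn : 0 < ‖ξ‖ := norm_pos_iff.2 hξ
  have hp : (0 : ℝ) < 2 * Real.pi := Real.two_pi_pos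
  have e1 : c0 * 2 * ‖ξ‖ ^ (-3 : ℝ) = (2 * Real.pi * ‖ξ‖) ^ (-3 : ℝ) := by
    have h4 : (-3 : ℝ) = ((-3 : ℤ) : ℝ) := by norm_num
    rw [h4, Real.rpow_intCast, Real.rpow_intCast]
    unfold c0
    have : Real.pi ≠ 0 := Real.pi_ne_zero
    field_simp
    norm_num
  have e2 : (2 * Real.pi * ‖ξ‖) ^ (a - 3) =
      (2 * Real.pi * ‖ξ‖) ^ (-3 : ℝ) * (2 * Real.pi * ‖ξ‖) ^ a := by
    rw [← Real.rpow_add (by positivity)]
    congr 1
    ring
  rw [e2, ← e1]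
  push_cast
  ring

lemma hs_eq (a : ℝ) (φ : E → ℝ) :
    (∫ ξ, (((2 * Real.pi * ‖ξ‖) ^ (2 * a) : ℝ) : ℂ) * (ft φ ξ * (starRingEnd ℂ) (ft φ ξ))).re =
      hs a φ := by
  have h1 : ∀ ξ, (((2 * Real.pi * ‖ξ‖) ^ (2 * a) : ℝ) : ℂ) * (ft φ ξ * (starRingEnd ℂ) (ft φ ξ)) =
      (((2 * Real.pi * ‖ξ‖) ^ (2 * a) * ‖ft φ ξ‖ ^ 2 : ℝ) : ℂ) := by
    intro ξ
    rw [Complex.mul_conj']
    push_cast
    ring
  simp only [h1]
  rw [integral_complex_ofReal, Complex.ofReal_re]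
  rfl

/-- Odd functions have integral zero. -/
lemma odd_zero (G : S × ℝ → ℂ) (h : ∀ z, G (-z.1, -z.2) = - G z) : ∫ z, G z ∂mu = 0 := by
  have hemb : MeasurableEmbedding fun z : S × ℝ => (-z.1, -z.2) := by
    have h1 : (fun z : S × ℝ => (-z.1, -z.2)) = Prod.map (fun w : S => -w) (fun p : ℝ => -p) := rfl
    rw [h1]
    exact ((Homeomorph.neg S).prodCongr (Homeomorph.neg ℝ)).measurableEmbedding
  have h1 := mp_rev.integral_comp hemb G
  simp only [h] at h1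
  rw [integral_neg] at h1
  have h2 : (2 : ℂ) * ∫ z, G z ∂mu = 0 := by linear_combination -h1
  exact (mul_eq_zero.1 h2).resolve_left two_ne_zero

lemma cross (hG : St_Grp1) (hPar : St_Par) (a a' : ℝ) {f φ : E → ℝ}
    (ha : a < 1 / 2) (ha' : a' < 3 / 2) (hf : IsSch f) (hφ : IsSch φ) :
    inner ℝ (J0 a f) (J1 a' φ) = 0 := by
  have h1 := (hPar a a' 0 f φ hf hφ).2.2.2.2 ha ha'
  rw [hG.2.1] at h1
  rw [h1, odd_zero, Complex.zero_re]
  intro z
  have e1 : (-z.2) • ((-z.1 : S) : E) = z.2 • (z.1 : E) := by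
    have h2 : ((-z.1 : S) : E) = -(z.1 : E) := rfl
    rw [h2, smul_neg, neg_smul, neg_neg]
  simp only [e1, mul_neg, abs_neg, mul_zero, Complex.ofReal_neg, neg_mul]

lemma diag0 (hG : St_Grp1) (hFt : St_Ft) (hPar : St_Par) (hPol : St_Pol)
    (a a' : ℝ) {f φ : E → ℝ} (ha : a < 1 / 2) (ha' : a' < 1 / 2) (hf : IsSch f)
    (hφ : IsSch φ) :
    c0 * inner ℝ (J0 a f) (J0 a' φ) = (∫ ξ, (((2 * Real.pi * ‖ξ‖) ^ (-a - a' - 3) : ℝ) : ℂ) *
      (ft f ξ * (starRingEnd ℂ) (ft φ ξ))).re := by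
  have h1 := (hPar a a' 0 f φ hf hφ).2.2.1 ha ha'
  rw [hG.2.1] at h1
  rw [h1, ← polar hFt hPol hf hφ]
  simp only [mul_zero, Complex.ofReal_zero, Complex.exp_zero, mul_one]

lemma diag1 (hG : St_Grp1) (hFt : St_Ft) (hPar : St_Par) (hPol : St_Pol)
    (a a' : ℝ) {f φ : E → ℝ} (ha : a < 3 / 2) (ha' : a' < 3 / 2) (hf : IsSch f)
    (hφ : IsSch φ) :
    c0 * inner ℝ (J1 a f) (J1 a' φ) =
      (∫ ξ, (((2 * Real.pi * ‖ξ‖) ^ (2 - a - a' - 3) : ℝ) : ℂ) *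
        (ft f ξ * (starRingEnd ℂ) (ft φ ξ))).re := by
  have h1 := (hPar a a' 0 f φ hf hφ).2.2.2.1 ha ha'
  rw [hG.2.1] at h1
  rw [h1, ← polar hFt hPol hf hφ]
  simp only [mul_zero, Complex.ofReal_zero, Complex.exp_zero, mul_one]

lemma norm0 (hG : St_Grp1) (hFt : St_Ft) (hPar : St_Par) (hPol : St_Pol)
    (a : ℝ) {φ : E → ℝ} (ha : a < 1 / 2) (hφ : IsSch φ) :
    c0 * ‖J0 a φ‖ ^ 2 = QWF.hs (-a - 3 / 2) φ := by
  rw [← real_inner_self_eq_norm_sq, diag0 hG hFt hPar hPol a a ha ha hφ hφ, ← hs_eq]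
  have e : -a - a - 3 = 2 * (-a - 3 / 2) := by ring
  rw [e]

lemma norm1 (hG : St_Grp1) (hFt : St_Ft) (hPar : St_Par) (hPol : St_Pol)
    (a : ℝ) {φ : E → ℝ} (ha : a < 3 / 2) (hφ : IsSch φ) :
    c0 * ‖J1 a φ‖ ^ 2 = QWF.hs (-a - 1 / 2) φ := by
  rw [← real_inner_self_eq_norm_sq, diag1 hG hFt hPar hPol a a ha ha hφ hφ, ← hs_eq]
  have e : 2 - a - a - 3 = 2 * (-a - 1 / 2) := by ring
  rw [e]

/-- Pairing at total exponent zero. -/
lemma zero_pair (hFt : St_Ft) {f φ : E → ℝ} (hf : IsSch f) (hφ : IsSch φ) :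
    (∫ ξ, (((2 * Real.pi * ‖ξ‖) ^ (0 : ℝ) : ℝ) : ℂ) * (ft f ξ * (starRingEnd ℂ) (ft φ ξ))).re =
      ∫ x, f x * φ x := by
  simp only [Real.rpow_zero, Complex.ofReal_one, one_mul]
  exact ((hFt.2 f hf).2.2.1 φ hφ).symm

/-- Integrability. -/
lemma integ (hFt : St_Ft) {φ : E → ℝ} (hφ : IsSch φ) (a : ℝ) (ha : -2 < a) :
    Integrable (fun ξ : E => (2 * Real.pi * ‖ξ‖) ^ (2 * a) * ‖ft φ ξ‖ ^ 2) volume := by
  obtain ⟨N, hN⟩ := exists_nat_gt (5 + 2 * a)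
  obtain ⟨C0, hC0⟩ := (hFt.2 φ hφ).2.1 0
  obtain ⟨C1, hC1⟩ := (hFt.2 φ hφ).2.1 N
  simp only [pow_zero, div_one] at hC0
  have hC0' : 0 ≤ C0 := (norm_nonneg _).trans (hC0 0)
  have hC1' : 0 ≤ C1 := by
    have h := (norm_nonneg _).trans (hC1 0)
    rw [norm_zero, add_zero, one_pow, div_one] at h
    exact h
  set g : ℝ → ℝ := fun r => if r ≤ 1 then (2 * Real.pi) ^ (2 * a) * C0 ^ 2 * r ^ (2 * a)
    else (2 * Real.pi) ^ (2 * a) * C1 ^ 2 * r ^ (2 * a - 2 * N) with hg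
  have hgint : Integrable (fun ξ : E => g ‖ξ‖) volume := by
    rw [integrable_fun_norm_addHaar, finrank_euclideanSpace_fin]
    have h1 : Ioi (0 : ℝ) = Ioc 0 1 ∪ Ioi 1 := by
      rw [Ioc_union_Ioi_eq_Ioi zero_le_one]
    rw [h1, integrableOn_union]
    constructor
    · have h2 : IntegrableOn (fun r : ℝ => (2 * Real.pi) ^ (2 * a) * C0 ^ 2 * r ^ (3 + 2 * a))
          (Ioc 0 1) volume := by
        have h3 := intervalIntegral.intervalIntegrable_rpow' (r := 3 + 2 * a) (a := 0) (b := 1)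
          (by linarith)
        rw [intervalIntegrable_iff_integrableOn_Ioc_of_le zero_le_one] at h3
        exact h3.const_mul _
      refine h2.congr_fun ?_ measurableSet_Ioc
      intro r hr
      simp only [hg, smul_eq_mul, if_pos hr.2]
      rw [Real.rpow_add hr.1]
      have e4 : r ^ (3 : ℝ) = r ^ 3 := by
        rw [← Real.rpow_natCast]
        norm_num
      rw [e4]
      norm_num
      ring
    · have h2 : IntegrableOn (fun r : ℝ => (2 * Real.pi) ^ (2 * a) * C1 ^ 2 *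
          r ^ (3 + (2 * a - 2 * N))) (Ioi 1) volume := by
        have h3 := integrableOn_Ioi_rpow_of_lt (a := 3 + (2 * a - 2 * N)) (c := 1) (by
          have hN0 : (0 : ℝ) < N := by linarith
          linarith) one_pos
        exact h3.const_mul _
      refine h2.congr_fun ?_ measurableSet_Ioi
      intro r hr
      have hr1 : (1 : ℝ) < r := hr
      simp only [hg, smul_eq_mul, if_neg (not_le.2 hr1)]
      rw [Real.rpow_add (by linarith)]
      have e4 : r ^ (3 : ℝ) = r ^ 3 := by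
        rw [← Real.rpow_natCast]
        norm_num
      rw [e4]
      norm_num
      ring
  refine hgint.mono ?_ ?_
  · have h1 : Measurable fun ξ : E => (2 * Real.pi * ‖ξ‖) ^ (2 * a) := by fun_prop
    have h2 : Continuous fun ξ => ‖ft φ ξ‖ ^ 2 := ((hFt.2 φ hφ).1.norm).pow 2
    exact h1.aestronglyMeasurable.mul h2.aestronglyMeasurable
  · filter_upwards [ae_ne] with ξ hξ
    have hn : 0 < ‖ξ‖ := norm_pos_iff.2 hξ
    have hp : (0 : ℝ) < 2 * Real.pi := Real.two_pi_pos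
    rw [Real.norm_of_nonneg (by positivity), Real.norm_eq_abs]
    refine le_trans ?_ (le_abs_self _)
    rw [Real.mul_rpow hp.le hn.le]
    simp only [hg]
    split_ifs with h
    · calc (2 * Real.pi) ^ (2 * a) * ‖ξ‖ ^ (2 * a) * ‖ft φ ξ‖ ^ 2
          ≤ (2 * Real.pi) ^ (2 * a) * ‖ξ‖ ^ (2 * a) * C0 ^ 2 := by
            gcongr
            exact hC0 ξ
        _ = (2 * Real.pi) ^ (2 * a) * C0 ^ 2 * ‖ξ‖ ^ (2 * a) := by ring
    · have h2 : ‖ft φ ξ‖ ≤ C1 / ‖ξ‖ ^ N := by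
        refine (hC1 ξ).trans ?_
        gcongr
        linarith
      have h3 : ‖ξ‖ ^ (2 * a - 2 * N) = ‖ξ‖ ^ (2 * a) / (‖ξ‖ ^ N) ^ 2 := by
        rw [Real.rpow_sub hn]
        congr 1
        rw [← pow_mul, ← Real.rpow_natCast]
        congr 1
        push_cast
        ring
      calc (2 * Real.pi) ^ (2 * a) * ‖ξ‖ ^ (2 * a) * ‖ft φ ξ‖ ^ 2
          ≤ (2 * Real.pi) ^ (2 * a) * ‖ξ‖ ^ (2 * a) * (C1 / ‖ξ‖ ^ N) ^ 2 := by
            gcongr
        _ = (2 * Real.pi) ^ (2 * a) * C1 ^ 2 * ‖ξ‖ ^ (2 * a - 2 * N) := by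
            rw [h3, div_pow]
            ring

lemma c0_pos : 0 < c0 := by
  unfold c0
  positivity

section pairings

variable (hG : St_Grp1) (hFt : St_Ft) (hPar : St_Par) (hPol : St_Pol) (hJD : St_JD)
  (s : ℝ) {f φ : E → ℝ} (hs1 : -1 / 2 ≤ s) (hs2 : s < 1 / 2) (hf : IsSch f) (hφ : IsSch φ)

include hJD hf in
lemma J0_lap : J0 (-s) (lap f) = - J0 (-s - 2) f := (hJD (-s) f hf).2.2.2.2.1

include hJD hf in
lemma J1_lap : J1 (-s) (lap f) = - J1 (-s - 2) f := (hJD (-s) f hf).2.2.2.2.2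

include hG hFt hPar hPol hJD hs1 hs2 hf hφ in
lemma pair11 : c0 * inner ℝ (J1 (-s) (lap f)) (Rs s φ) = ∫ x, f x * φ x := by
  rw [J1_lap hJD s hf, Rs, inner_neg_neg, diag1 hG hFt hPar hPol (-s - 2) (1 + s) (by linarith)
    (by linarith) hf hφ, ← zero_pair hFt hf hφ]
  have e : 2 - (-s - 2) - (1 + s) - 3 = 0 := by ring
  rw [e]

include hG hFt hPar hPol hJD hs1 hs2 hf hφ in
lemma pair00 : c0 * inner ℝ (J0 (-s) (lap f)) (dRs s φ) = - ∫ x, f x * φ x := by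
  rw [J0_lap hJD s hf, dRs, inner_neg_left, mul_neg, diag0 hG hFt hPar hPol (-s - 2) (s - 1)
    (by linarith) (by linarith) hf hφ, ← zero_pair hFt hf hφ]
  have e : -(-s - 2) - (s - 1) - 3 = 0 := by ring
  rw [e]

include hG hPar hJD hs1 hs2 hf hφ in
lemma pair01 : inner ℝ (J0 (-s) (lap f)) (Rs s φ) = 0 := by
  rw [J0_lap hJD s hf, Rs, inner_neg_neg, cross hG hPar (-s - 2) (1 + s) (by linarith)
    (by linarith) hf hφ]

include hG hPar hJD hs1 hs2 hf hφ in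
lemma pair10 : inner ℝ (J1 (-s) (lap f)) (dRs s φ) = 0 := by
  rw [J1_lap hJD s hf, dRs, inner_neg_left, real_inner_comm, cross hG hPar (s - 1) (-s - 2)
    (by linarith) (by linarith) hφ hf, neg_zero]

end pairings

end IsoPx

open IsoPx

theorem thm_IsoP (hG : St_Grp1) (hFt : St_Ft) (hPol : St_Pol) (hPar : St_Par) (hJD : St_JD) :
    St_IsoP := by
  intro s f φ hs1 hs2 hf hφ
  have hc := c0_pos
  refine ⟨pair11 hG hFt hPar hPol hJD s hs1 hs2 hf hφ, pair00 hG hFt hPar hPol hJD s hs1 hs2 hf hφ,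
    pair01 hG hPar hJD s hs1 hs2 hf hφ, pair10 hG hPar hJD s hs1 hs2 hf hφ, ?_, ?_, ?_, ?_, ?_,
    fun a ha => integ hFt hφ a ha⟩
  · rw [Rs, dRs, inner_neg_left, real_inner_comm, cross hG hPar (s - 1) (1 + s) (by linarith)
      (by linarith) hφ hf, neg_zero]
  · intro g hg
    constructor
    · rw [Theta, inner_smul_left, inner_sub_left, pair01 hG hPar hJD s hs1 hs2 hg hφ, sub_zero]
      exact pair11 hG hFt hPar hPol hJD s hs1 hs2 hf hφ
    · rw [Theta, inner_smul_left, inner_sub_left, pair10 hG hPar hJD s hs1 hs2 hg hφ, zero_sub]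
      have h := pair00 hG hFt hPar hPol hJD s hs1 hs2 hf hφ
      rw [mul_neg]
      exact neg_eq_iff_eq_neg.2 h
  · rw [Rs, norm_neg, norm1 hG hFt hPar hPol (1 + s) (by linarith) hφ]
    congr 1
    ring
  · rw [dRs, norm0 hG hFt hPar hPol (s - 1) (by linarith) hφ]
    congr 1
    ring
  · have h1 : c0 * ‖J1 (-s) (lap f)‖ ^ 2 = QWF.hs (3 / 2 + s) f := by
      rw [J1_lap hJD s hf, norm_neg, norm1 hG hFt hPar hPol (-s - 2) (by linarith) hf]
      congr 1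
      ring
    have h2 : c0 * ‖J0 (-s) (lap φ)‖ ^ 2 = QWF.hs (1 / 2 + s) φ := by
      rw [J0_lap hJD s hφ, norm_neg, norm0 hG hFt hPar hPol (-s - 2) (by linarith) hφ]
      congr 1
      ring
    have h3 : inner ℝ (J1 (-s) (lap f)) (J0 (-s) (lap φ)) = 0 := by
      rw [J0_lap hJD s hφ, J1_lap hJD s hf, inner_neg_neg, real_inner_comm,
        cross hG hPar (-s - 2) (-s - 2) (by linarith) (by linarith) hφ hf]
    rw [Theta, norm_smul, mul_pow, norm_sub_sq_real, h3, Real.norm_of_nonneg hc.le, ← h1, ← h2]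
    ring

end Pool.Agent.QWF
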