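import Pool.Agent.QWF.StA2
import Pool.Agent.QWP.StA2

set_option autoImplicit false

/-!
# QWF, KerL: the kernel in mixed norms (Lean: helper15)
-/

open MeasureTheory Filter Topology Set
open scoped ENNReal NNReal RealInnerProductSpace

namespace Pool.Agent.QWF

namespace KerLx

/-- Young inequality for the trilinear form -/
theorem young {r : ℝ} (hr : 2 < r) {a b κ : E → ℝ≥0∞} (ha : Measurable a) (hb : Measurable b)
    (hκ : Measurable κ) :
    ∫⁻ x, ∫⁻ y, a x * b y * κ (x - y) ≤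
      (∫⁻ x, a x ^ (r / (r - 1))) ^ ((r - 1) / r) * (∫⁻ x, b x ^ (r / (r - 1))) ^ ((r - 1) / r) *
        (∫⁻ z, κ z ^ (r / 2)) ^ (2 / r) := by
  have hr0 : 0 < r := by linarith
  have hr1 : 0 < r - 1 := by linarith
  obtain ⟨p, hp⟩ : ∃ p, p = r / (r - 1) := ⟨_, rfl⟩
  have hp0 : 0 < p := by rw [hp]; positivity
  rw [← hp]
  obtain ⟨A, hA⟩ : ∃ A, A = ∫⁻ x, a x ^ p := ⟨_, rfl⟩
  obtain ⟨B, hB⟩ : ∃ B, B = ∫⁻ x, b x ^ p := ⟨_, rfl⟩
  obtain ⟨Q, hQ⟩ : ∃ Q, Q = ∫⁻ z, κ z ^ (r / 2) := ⟨_, rfl⟩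
  rw [← hA, ← hB, ← hQ]
  have e0 : 0 ≤ 1 - 2 / r := by
    rw [sub_nonneg, div_le_one hr0]
    linarith
  have e1 : 0 ≤ 1 / r := by positivity
  obtain ⟨f, hf⟩ : ∃ f : Fin 3 → E × E → ℝ≥0∞, f = ![fun z => a z.1 ^ p * b z.2 ^ p,
      fun z => a z.1 ^ p * κ (z.1 - z.2) ^ (r / 2),
      fun z => b z.2 ^ p * κ (z.1 - z.2) ^ (r / 2)] := ⟨_, rfl⟩
  obtain ⟨ex, hex⟩ : ∃ ex : Fin 3 → ℝ, ex = ![1 - 2 / r, 1 / r, 1 / r] := ⟨_, rfl⟩
  have m0 : Measurable (f 0) := by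
    rw [hf]
    show Measurable fun z : E × E => a z.1 ^ p * b z.2 ^ p
    fun_prop
  have m1 : Measurable (f 1) := by
    rw [hf]
    show Measurable fun z : E × E => a z.1 ^ p * κ (z.1 - z.2) ^ (r / 2)
    fun_prop
  have m2 : Measurable (f 2) := by
    rw [hf]
    show Measurable fun z : E × E => b z.2 ^ p * κ (z.1 - z.2) ^ (r / 2)
    fun_prop
  have hH := ENNReal.lintegral_prod_norm_pow_le (μ := (volume : Measure E).prod (volume : Measure E))
    (Finset.univ : Finset (Fin 3)) (f := f) (p := ex)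
    (fun i _ => by
      fin_cases i
      · exact m0.aemeasurable
      · exact m1.aemeasurable
      · exact m2.aemeasurable)
    (by rw [Fin.sum_univ_three, hex]
        show (1 - 2 / r) + 1 / r + 1 / r = 1
        ring)
    (fun i _ => by
      rw [hex]
      fin_cases i
      · exact e0
      · exact e1
      · exact e1)
  simp only [Fin.prod_univ_three] at hH
  have i0 : ∫⁻ z, f 0 z ∂((volume : Measure E).prod (volume : Measure E)) = A * B := by
    rw [hf, hA, hB]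
    exact lintegral_prod_mul (f := fun x => a x ^ p) (g := fun x => b x ^ p)
      (ha.pow_const p).aemeasurable (hb.pow_const p).aemeasurable
  have i1 : ∫⁻ z, f 1 z ∂((volume : Measure E).prod (volume : Measure E)) = A * Q := by
    rw [lintegral_prod _ m1.aemeasurable, hf, hA, hQ]
    show ∫⁻ x, ∫⁻ y, a x ^ p * κ (x - y) ^ (r / 2) = _
    rw [← lintegral_mul_const _ (by fun_prop)]
    refine lintegral_congr fun x => ?_
    rw [lintegral_const_mul _ (by fun_prop)]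
    congr 1
    exact lintegral_sub_left_eq_self (fun z => κ z ^ (r / 2)) x
  have i2 : ∫⁻ z, f 2 z ∂((volume : Measure E).prod (volume : Measure E)) = B * Q := by
    rw [lintegral_prod_symm _ m2.aemeasurable, hf, hB, hQ]
    show ∫⁻ y, ∫⁻ x, b y ^ p * κ (x - y) ^ (r / 2) = _
    rw [← lintegral_mul_const _ (by fun_prop)]
    refine lintegral_congr fun y => ?_
    rw [lintegral_const_mul _ (by fun_prop)]
    congr 1
    exact lintegral_sub_right_eq_self (fun z => κ z ^ (r / 2)) y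
  rw [i0, i1, i2] at hH
  have hpt : ∀ z : E × E, f 0 z ^ ex 0 * f 1 z ^ ex 1 * f 2 z ^ ex 2 =
      a z.1 * b z.2 * κ (z.1 - z.2) := by
    intro z
    rw [hf, hex]
    show (a z.1 ^ p * b z.2 ^ p) ^ (1 - 2 / r) * (a z.1 ^ p * κ (z.1 - z.2) ^ (r / 2)) ^ (1 / r) *
      (b z.2 ^ p * κ (z.1 - z.2) ^ (r / 2)) ^ (1 / r) = _
    rw [ENNReal.mul_rpow_of_nonneg _ _ e0, ENNReal.mul_rpow_of_nonneg _ _ e1,
      ENNReal.mul_rpow_of_nonneg _ _ e1]
    simp only [← ENNReal.rpow_mul]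
    have h1 : ∀ x : ℝ≥0∞, x ^ (p * (1 - 2 / r)) * x ^ (p * (1 / r)) = x := by
      intro x
      rw [← ENNReal.rpow_add_of_nonneg _ _ (by positivity) (by positivity)]
      have : p * (1 - 2 / r) + p * (1 / r) = 1 := by
        rw [hp]
        field_simp
        ring
      rw [this, ENNReal.rpow_one]
    have h2 : ∀ x : ℝ≥0∞, x ^ (r / 2 * (1 / r)) * x ^ (r / 2 * (1 / r)) = x := by
      intro x
      rw [← ENNReal.rpow_add_of_nonneg _ _ (by positivity) (by positivity)]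
      have : r / 2 * (1 / r) + r / 2 * (1 / r) = 1 := by
        field_simp
        ring
      rw [this, ENNReal.rpow_one]
    have h3 := h1 (a z.1)
    have h4 := h1 (b z.2)
    have h5 := h2 (κ (z.1 - z.2))
    calc a z.1 ^ (p * (1 - 2 / r)) * b z.2 ^ (p * (1 - 2 / r)) *
          (a z.1 ^ (p * (1 / r)) * κ (z.1 - z.2) ^ (r / 2 * (1 / r))) *
          (b z.2 ^ (p * (1 / r)) * κ (z.1 - z.2) ^ (r / 2 * (1 / r)))
        = (a z.1 ^ (p * (1 - 2 / r)) * a z.1 ^ (p * (1 / r))) *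
          (b z.2 ^ (p * (1 - 2 / r)) * b z.2 ^ (p * (1 / r))) *
          (κ (z.1 - z.2) ^ (r / 2 * (1 / r)) * κ (z.1 - z.2) ^ (r / 2 * (1 / r))) := by ring
      _ = a z.1 * b z.2 * κ (z.1 - z.2) := by rw [h3, h4, h5]
  simp only [hpt] at hH
  have hL : ∫⁻ x, ∫⁻ y, a x * b y * κ (x - y) =
      ∫⁻ z : E × E, a z.1 * b z.2 * κ (z.1 - z.2) ∂((volume : Measure E).prod volume) := by
    rw [lintegral_prod _ (by fun_prop)]
  rw [hL]
  refine hH.trans (le_of_eq ?_)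
  rw [hex]
  show (A * B) ^ (1 - 2 / r) * (A * Q) ^ (1 / r) * (B * Q) ^ (1 / r) = _
  rw [ENNReal.mul_rpow_of_nonneg _ _ e0, ENNReal.mul_rpow_of_nonneg _ _ e1,
    ENNReal.mul_rpow_of_nonneg _ _ e1]
  have h1 : ∀ x : ℝ≥0∞, x ^ (1 - 2 / r) * x ^ (1 / r) = x ^ ((r - 1) / r) := by
    intro x
    rw [← ENNReal.rpow_add_of_nonneg _ _ e0 e1]
    congr 1
    field_simp
    ring
  have h2 : ∀ x : ℝ≥0∞, x ^ (1 / r) * x ^ (1 / r) = x ^ (2 / r) := by
    intro x
    rw [← ENNReal.rpow_add_of_nonneg _ _ e1 e1]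
    congr 1
    ring
  calc A ^ (1 - 2 / r) * B ^ (1 - 2 / r) * (A ^ (1 / r) * Q ^ (1 / r)) *
        (B ^ (1 / r) * Q ^ (1 / r))
      = (A ^ (1 - 2 / r) * A ^ (1 / r)) * (B ^ (1 - 2 / r) * B ^ (1 / r)) *
        (Q ^ (1 / r) * Q ^ (1 / r)) := by ring
    _ = A ^ ((r - 1) / r) * B ^ ((r - 1) / r) * Q ^ (2 / r) := by rw [h1, h1, h2]

/-- scaling -/
theorem scale {τ : ℝ} (hτ : 0 < τ) {G : E → ℝ≥0∞} (hG : Measurable G) :
    ∫⁻ z, G z = ENNReal.ofReal (τ ^ 4) * ∫⁻ z, G (τ • z) := by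
  have h1 := Measure.map_addHaar_smul (volume : Measure E) hτ.ne'
  have h2 : Module.finrank ℝ E = 4 := by simp
  rw [h2] at h1
  have h3 : ∫⁻ z, G (τ • z) = ∫⁻ z, G z ∂(Measure.map (fun z : E => τ • z) volume) := by
    rw [lintegral_map hG (measurable_const_smul τ)]
  rw [h3, h1, lintegral_smul_measure, smul_eq_mul, ← mul_assoc, ← ENNReal.ofReal_mul (by positivity),
    abs_of_pos (by positivity), mul_inv_cancel₀ (by positivity), ENNReal.ofReal_one, one_mul]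

/-- the `L^{r/2}` norm of the kernel -/
theorem kern {s q r : ℝ} (hq : 2 < q) (hr : 0 < r)
    (h : 1 / q + 4 / r = 1 / 2 - s) : ∃ C : ℝ, 0 < C ∧ ∀ τ : ℝ, τ ≠ 0 →
    (∫⁻ z : E, ENNReal.ofReal ((|τ| + ‖z‖) ^ (-1 + 2 * s)) ^ (r / 2)) ^ (2 / r) ≤
      ENNReal.ofReal C * ENNReal.ofReal (|τ| ^ (-(2 / q))) := by
  have hq0 : 0 < q := by linarith
  have h5 : 4 < (1 - 2 * s) * (r / 2) := by
    have h1 : 4 / r < 1 / 2 - s := by
      have : 0 < 1 / q := by positivity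
      linarith
    rw [div_lt_iff₀ hr] at h1
    linarith
  have hfin := finite_integral_one_add_norm (E := E) (μ := volume)
    (r := (1 - 2 * s) * (r / 2)) (by
      have h2 : Module.finrank ℝ E = 4 := by simp
      rw [h2]
      exact_mod_cast h5)
  obtain ⟨A, hA⟩ : ∃ A, A = ∫⁻ z : E, ENNReal.ofReal ((1 + ‖z‖) ^ (-((1 - 2 * s) * (r / 2)))) :=
    ⟨_, rfl⟩
  rw [← hA] at hfin
  have hAr : A ^ (2 / r) ≠ ⊤ := ENNReal.rpow_ne_top_of_nonneg (by positivity) hfin.ne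
  refine ⟨(A ^ (2 / r)).toReal + 1, by positivity, ?_⟩
  intro τ hτ
  have ht : 0 < |τ| := abs_pos.2 hτ
  have hpt : ∀ z : E, ENNReal.ofReal ((|τ| + ‖z‖) ^ (-1 + 2 * s)) ^ (r / 2) =
      ENNReal.ofReal ((|τ| + ‖z‖) ^ (-((1 - 2 * s) * (r / 2)))) := by
    intro z
    rw [ENNReal.ofReal_rpow_of_pos (by positivity), ← Real.rpow_mul (by positivity)]
    congr 2
    ring
  simp only [hpt]
  rw [scale ht (by fun_prop)]
  have hpt2 : ∀ z : E, ENNReal.ofReal ((|τ| + ‖|τ| • z‖) ^ (-((1 - 2 * s) * (r / 2)))) =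
      ENNReal.ofReal (|τ| ^ (-((1 - 2 * s) * (r / 2)))) *
        ENNReal.ofReal ((1 + ‖z‖) ^ (-((1 - 2 * s) * (r / 2)))) := by
    intro z
    rw [norm_smul, Real.norm_eq_abs, abs_abs, ← ENNReal.ofReal_mul (by positivity),
      ← Real.mul_rpow (by positivity) (by positivity)]
    congr 2
    ring
  simp only [hpt2]
  rw [lintegral_const_mul _ (by fun_prop), ← hA, ← mul_assoc, ← ENNReal.ofReal_mul (by positivity),
    ENNReal.mul_rpow_of_nonneg _ _ (by positivity), ENNReal.ofReal_rpow_of_pos (by positivity)]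
  have e1 : (|τ| ^ 4 * |τ| ^ (-((1 - 2 * s) * (r / 2)))) ^ (2 / r) = |τ| ^ (-(2 / q)) := by
    have e2 : |τ| ^ 4 = |τ| ^ (4 : ℝ) := by norm_cast
    rw [e2, ← Real.rpow_add ht, ← Real.rpow_mul ht.le]
    congr 1
    have e3 : (4 + -((1 - 2 * s) * (r / 2))) * (2 / r) = 2 * (4 / r) - (1 - 2 * s) := by
      field_simp
      ring
    rw [e3]
    have e4 : 4 / r = 1 / 2 - s - 1 / q := by linarith
    rw [e4]
    ring
  rw [e1, mul_comm]
  refine mul_le_mul_left ?_ _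
  rw [← ENNReal.ofReal_toReal hAr]
  refine ENNReal.ofReal_le_ofReal ?_
  rw [ENNReal.toReal_ofReal (ENNReal.toReal_nonneg)]
  linarith

end KerLx

open KerLx

/-- **KerL** -/
theorem thm_KerL (hH : Pool.Agent.QWP.St_HLSP) : St_KerL := by
  intro s q r hs hs' hq hr h
  have hq0 : 0 < q := by linarith
  have hq1 : 0 < q - 1 := by linarith
  have hr5 : 4 < r := by
    have h1 : 4 / r < 1 := by
      have : 0 < 1 / q := by positivity
      linarith
    rw [div_lt_one hr] at h1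
    exact h1
  obtain ⟨C1, hC1, hk⟩ := kern hq hr h
  obtain ⟨C2, hC2, hh⟩ := hH (2 / q) (by positivity) (by rw [div_lt_one hq0]; exact hq)
  refine ⟨C1 * C2, by positivity, ?_⟩
  intro F hF
  obtain ⟨f, hf⟩ : ∃ f : ℝ → ℝ≥0∞, f = fun t => (∫⁻ x, F t x ^ (r / (r - 1))) ^ ((r - 1) / r) :=
    ⟨_, rfl⟩
  have hfm : Measurable f := by
    rw [hf]
    refine Measurable.pow_const ?_ _
    exact Measurable.lintegral_prod_right (hF.pow_const _)
  have hFt : ∀ t, Measurable (F t) := fun t => hF.comp measurable_prodMk_left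
  have h1 : ∫⁻ t, ∫⁻ t', ∫⁻ x, ∫⁻ y, F t x * F t' y *
      ENNReal.ofReal ((|t - t'| + ‖x - y‖) ^ (-1 + 2 * s)) ≤
      ∫⁻ t, ∫⁻ t', ENNReal.ofReal C1 * (f t * f t' * ENNReal.ofReal (|t - t'| ^ (-(2 / q)))) := by
    refine lintegral_mono fun t => ?_
    refine lintegral_mono_ae ?_
    have h2 : ∀ᵐ t' : ℝ, t' ≠ t := by
      have : ({t} : Set ℝ)ᶜ ∈ ae (volume : Measure ℝ) := by
        rw [mem_ae_iff, compl_compl]
        exact Real.volume_singleton
      filter_upwards [this] with x hx using hx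
    filter_upwards [h2] with t' ht'
    have h3 := young (r := r) (by linarith) (hFt t) (hFt t')
      (κ := fun z => ENNReal.ofReal ((|t - t'| + ‖z‖) ^ (-1 + 2 * s))) (by fun_prop)
    refine h3.trans ?_
    have h4 := hk (t - t') (sub_ne_zero.2 (Ne.symm ht'))
    rw [hf]
    calc _ ≤ (∫⁻ x, F t x ^ (r / (r - 1))) ^ ((r - 1) / r) *
          (∫⁻ x, F t' x ^ (r / (r - 1))) ^ ((r - 1) / r) *
          (ENNReal.ofReal C1 * ENNReal.ofReal (|t - t'| ^ (-(2 / q)))) := by gcongr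
      _ = _ := by ring
  refine h1.trans ?_
  have h2 : ∫⁻ t, ∫⁻ t', ENNReal.ofReal C1 *
      (f t * f t' * ENNReal.ofReal (|t - t'| ^ (-(2 / q)))) =
      ENNReal.ofReal C1 * ∫⁻ t, ∫⁻ t', f t * f t' * ENNReal.ofReal (|t - t'| ^ (-(2 / q))) := by
    have h3 : ∀ t, ∫⁻ t', ENNReal.ofReal C1 *
        (f t * f t' * ENNReal.ofReal (|t - t'| ^ (-(2 / q)))) =
        ENNReal.ofReal C1 * ∫⁻ t', f t * f t' * ENNReal.ofReal (|t - t'| ^ (-(2 / q))) := by
      intro t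
      rw [lintegral_const_mul _ (by fun_prop)]
    simp only [h3]
    rw [lintegral_const_mul]
    have h4 : Measurable (Function.uncurry fun t t' : ℝ => f t * f t' *
      ENNReal.ofReal (|t - t'| ^ (-(2 / q)))) := by
      unfold Function.uncurry
      fun_prop
    exact h4.lintegral_prod_right
  rw [h2, ENNReal.ofReal_mul hC1.le, mul_assoc]
  refine mul_le_mul_right ?_ _
  refine (hh f f hfm hfm).trans (le_of_eq ?_)
  have e1 : 2 / (2 - 2 / q) = q / (q - 1) := by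
    field_simp
  have e2 : (2 - 2 / q) / 2 = (q - 1) / q := by
    field_simp
  rw [e1, e2, mul_assoc, ← ENNReal.rpow_add_of_nonneg _ _ (by positivity) (by positivity)]
  have e3 : (q - 1) / q + (q - 1) / q = 2 * (q - 1) / q := by ring
  rw [e3, hf]
  congr 2
  refine lintegral_congr fun t => ?_
  rw [ENNReal.rpow_mul]

end Pool.Agent.QWF
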