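import Pool.Agent.QWF.StA2

set_option autoImplicit false
set_option linter.unusedVariables false

/-!
# QWF, KerP: the kernel of `T T*` in `ℝ⁴`, `0 < s < 1/2` (port of QWP/KerP, KerPa, KerPb, KerPc by helper7)
-/

open MeasureTheory Filter Topology Set
open scoped ENNReal NNReal RealInnerProductSpace ContDiff Pointwise

namespace Pool.Agent.QWF

namespace KerPx

/-! ### the profile -/

noncomputable def P (t : ℝ) : ℝ := √(max 0 (1 - t ^ 2))

lemma P_meas : Measurable P := by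
  unfold P
  exact (measurable_const.max (by fun_prop)).sqrt

lemma P_nonneg (t : ℝ) : 0 ≤ P t := Real.sqrt_nonneg _

lemma P_le (t : ℝ) : P t ≤ 1 := by
  unfold P
  rw [Real.sqrt_le_iff]
  exact ⟨zero_le_one, max_le (by norm_num) (by nlinarith [sq_nonneg t])⟩

lemma Kc_eq (t : ℝ) (z : E) : Kc t z = 4 * Real.pi / ‖z‖ * P (t / ‖z‖) := by
  unfold Kc P
  rw [div_pow]

lemma Kc_zero (t : ℝ) : Kc t 0 = 0 := by
  rw [Kc_eq, norm_zero, div_zero, zero_mul]

lemma Kc_meas : Measurable (fun q : ℝ × E => Kc q.1 q.2) := by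
  have h : (fun q : ℝ × E => Kc q.1 q.2) = fun q : ℝ × E =>
      4 * Real.pi / ‖q.2‖ * P (q.1 / ‖q.2‖) := by
    funext q
    exact Kc_eq _ _
  rw [h]
  have h1 : Measurable fun q : ℝ × E => ‖q.2‖ := by fun_prop
  exact (measurable_const.div h1).mul (P_meas.comp (measurable_fst.div h1))

lemma Kc_meas' (t : ℝ) : Measurable fun q : E × E => Kc t (q.1 - q.2) := by
  have h : (fun q : E × E => Kc t (q.1 - q.2)) = fun q : E × E =>
      4 * Real.pi / ‖q.1 - q.2‖ * P (t / ‖q.1 - q.2‖) := by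
    funext q
    exact Kc_eq _ _
  rw [h]
  have h1 : Measurable fun q : E × E => ‖q.1 - q.2‖ := by fun_prop
  exact (measurable_const.div h1).mul (P_meas.comp (measurable_const.div h1))

lemma Kc_abs (t : ℝ) (z : E) : |Kc t z| ≤ 4 * Real.pi * ‖z‖ ^ (-1 : ℝ) := by
  rw [Kc_eq, abs_mul, abs_of_nonneg (P_nonneg _), abs_of_nonneg (by positivity), Real.rpow_neg_one,
    div_eq_mul_inv]
  have h1 := P_le (t / ‖z‖)
  have h2 : 0 ≤ 4 * Real.pi * ‖z‖⁻¹ := by positivity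
  nlinarith

/-- the integrand of the profile -/
noncomputable def F (ε δ e t t' : ℝ) : ℝ := (ε * P t + δ * P t') * |t - t'| ^ e

/-- the integrand of the kernel -/
noncomputable def H (ε δ e t t' : ℝ) (z : E) : ℝ :=
  (ε * Kc t z + δ * Kc t' z) * |t - t'| ^ e

lemma H_zero (ε δ e t t' : ℝ) : H ε δ e t t' 0 = 0 := by
  unfold H
  rw [Kc_zero, Kc_zero]
  ring

lemma H_meas (ε δ e : ℝ) :
    Measurable (fun q : (ℝ × E) × ℝ => H ε δ e q.1.1 q.2 q.1.2) := by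
  unfold H
  have h1 : Measurable fun q : (ℝ × E) × ℝ => Kc q.1.1 q.1.2 := Kc_meas.comp measurable_fst
  have h2 : Measurable fun q : (ℝ × E) × ℝ => Kc q.2 q.1.2 :=
    Kc_meas.comp (measurable_snd.prodMk (measurable_snd.comp measurable_fst))
  have h3 : Measurable fun q : (ℝ × E) × ℝ => |q.1.1 - q.2| ^ e := by
    refine Measurable.pow_const ?_ e
    have : Measurable fun q : (ℝ × E) × ℝ => q.1.1 - q.2 := by fun_prop
    exact this.abs
  exact ((h1.const_mul ε).add (h2.const_mul δ)).mul h3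

lemma H_scale (ε δ e t τ : ℝ) {z : E} (hz : z ≠ 0) :
    H ε δ e t (‖z‖ * τ) z = 4 * Real.pi * ‖z‖ ^ (e - 1) * F ε δ e (t / ‖z‖) τ := by
  have hn : 0 < ‖z‖ := norm_pos_iff.2 hz
  unfold H F
  rw [Kc_eq, Kc_eq, mul_div_cancel_left₀ _ hn.ne']
  have h1 : |t - ‖z‖ * τ| = ‖z‖ * |t / ‖z‖ - τ| := by
    rw [← abs_of_pos hn, ← abs_mul, abs_of_pos hn]
    congr 1
    field_simp
  rw [h1, Real.mul_rpow hn.le (abs_nonneg _), Real.rpow_sub_one hn.ne']
  ring

variable {ε δ e : ℝ}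

lemma H_int (hI : ∀ t, Integrable (F ε δ e t)) (t : ℝ) (z : E) :
    Integrable fun t' => H ε δ e t t' z := by
  by_cases hz : z = 0
  · subst hz
    simp only [H_zero]
    exact integrable_zero _ _ _
  · have hn : ‖z‖ ≠ 0 := norm_ne_zero_iff.2 hz
    rw [← integrable_comp_mul_left_iff _ hn]
    simp only [H_scale ε δ e t _ hz]
    exact (hI _).const_mul _

lemma scale_int {g : ℝ → ℝ} {a : ℝ} (ha : 0 < a) : ∫ x, g x = a * ∫ x, g (a * x) := by
  rw [Measure.integral_comp_mul_left, abs_of_pos (inv_pos.2 ha), smul_eq_mul, ← mul_assoc,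
    mul_inv_cancel₀ ha.ne', one_mul]

lemma H_eq (t : ℝ) {z : E} (hz : z ≠ 0) :
    ∫ t', H ε δ e t t' z = 4 * Real.pi * ‖z‖ ^ e * ∫ τ, F ε δ e (t / ‖z‖) τ := by
  have hn : 0 < ‖z‖ := norm_pos_iff.2 hz
  rw [scale_int hn]
  simp only [H_scale ε δ e t _ hz]
  rw [integral_const_mul, Real.rpow_sub_one hn.ne']
  field_simp

lemma H_abs {C0 : ℝ} (hA : ∀ t, ∫ τ, |F ε δ e t τ| ≤ C0) (t : ℝ) (z : E) :
    ∫ t', |H ε δ e t t' z| ≤ 4 * Real.pi * C0 * ‖z‖ ^ e := by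
  have hC0 : 0 ≤ C0 := (integral_nonneg fun _ => abs_nonneg _).trans (hA 0)
  by_cases hz : z = 0
  · subst hz
    simp only [H_zero, abs_zero, integral_zero]
    positivity
  have hn : 0 < ‖z‖ := norm_pos_iff.2 hz
  rw [scale_int hn]
  simp only [H_scale ε δ e t _ hz, abs_mul]
  rw [integral_const_mul, Real.rpow_sub_one hn.ne', abs_of_nonneg (by positivity : 0 ≤ ‖z‖ ^ e / ‖z‖),
    abs_of_nonneg (by positivity : (0 : ℝ) ≤ 4), abs_of_nonneg (by positivity : 0 ≤ Real.pi)]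
  have h1 := hA (t / ‖z‖)
  have h2 : ‖z‖ * (4 * Real.pi * (‖z‖ ^ e / ‖z‖) * ∫ τ, |F ε δ e (t / ‖z‖) τ|) =
      4 * Real.pi * ‖z‖ ^ e * ∫ τ, |F ε δ e (t / ‖z‖) τ| := by
    field_simp
  rw [h2]
  have h3 : 0 ≤ 4 * Real.pi * ‖z‖ ^ e := by positivity
  calc 4 * Real.pi * ‖z‖ ^ e * ∫ τ, |F ε δ e (t / ‖z‖) τ|
      ≤ 4 * Real.pi * ‖z‖ ^ e * C0 := by gcongr
    _ = _ := by ring

/-! ### convolution estimates -/

lemma loc_rpow {e : ℝ} (he : -4 < e) : LocallyIntegrable (fun z : E => ‖z‖ ^ e) volume := by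
  have hd : Module.finrank ℝ E = 4 := by simp
  refine locallyIntegrable_of_norm_le_rpow (C := 1) (α := -e) (by rw [hd]; norm_num)
    (by rw [hd]; push_cast; linarith) (Eventually.of_forall fun z => ?_) ?_
  · rw [neg_neg, one_mul, Real.norm_eq_abs, abs_of_nonneg (by positivity)]
  · exact (measurable_norm.pow_const e).aestronglyMeasurable

/-- the majorant -/
lemma maj {φ ψ : E → ℝ} (hφ : IsTest φ) (hψ : IsTest ψ) {e : ℝ} (he : -4 < e) :
    Integrable (fun q : E × E => φ q.1 * ψ q.2 * ‖q.1 - q.2‖ ^ e) (volume.prod volume) := by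
  have hm : AEStronglyMeasurable (fun q : E × E => φ q.1 * ψ q.2 * ‖q.1 - q.2‖ ^ e)
      (volume.prod volume) := by
    refine Measurable.aestronglyMeasurable ?_
    have h1 : Measurable fun q : E × E => φ q.1 := hφ.1.continuous.measurable.comp measurable_fst
    have h2 : Measurable fun q : E × E => ψ q.2 := hψ.1.continuous.measurable.comp measurable_snd
    have h3 : Measurable fun q : E × E => ‖q.1 - q.2‖ := by fun_prop
    exact (h1.mul h2).mul (h3.pow_const e)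
  have hψa : HasCompactSupport fun y => |ψ y| := hψ.2.norm
  have hψc : Continuous fun y => |ψ y| := hψ.1.continuous.abs
  have hloc := loc_rpow he
  rw [integrable_prod_iff hm]
  constructor
  · refine Eventually.of_forall fun x => ?_
    have h1 := hψ.2.convolutionExists_left (ContinuousLinearMap.mul ℝ ℝ) hψ.1.continuous hloc x
    have h2 : Integrable (fun y => ψ y * ‖x - y‖ ^ e) volume := h1
    have h3 := h2.const_mul (φ x)
    refine h3.congr (Eventually.of_forall fun y => ?_)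
    show φ x * (ψ y * ‖x - y‖ ^ e) = φ x * ψ y * ‖x - y‖ ^ e
    ring
  · have h1 : Continuous (MeasureTheory.convolution (fun y => |ψ y|) (fun z : E => ‖z‖ ^ e)
        (ContinuousLinearMap.mul ℝ ℝ) volume) :=
      hψa.continuous_convolution_left (ContinuousLinearMap.mul ℝ ℝ) hψc hloc
    have h2 : (fun x => ∫ y, ‖φ x * ψ y * ‖x - y‖ ^ e‖) = fun x => |φ x| *
        MeasureTheory.convolution (fun y => |ψ y|) (fun z : E => ‖z‖ ^ e)
        (ContinuousLinearMap.mul ℝ ℝ) volume x := by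
      funext x
      have h3 : MeasureTheory.convolution (fun y => |ψ y|) (fun z : E => ‖z‖ ^ e)
        (ContinuousLinearMap.mul ℝ ℝ) volume x = ∫ y, |ψ y| * ‖x - y‖ ^ e := rfl
      rw [h3, ← integral_const_mul]
      refine integral_congr_ae (Eventually.of_forall fun y => ?_)
      show ‖φ x * ψ y * ‖x - y‖ ^ e‖ = |φ x| * (|ψ y| * ‖x - y‖ ^ e)
      rw [norm_mul, norm_mul, Real.norm_eq_abs, Real.norm_eq_abs, Real.norm_eq_abs,
        abs_of_nonneg (by positivity : 0 ≤ ‖x - y‖ ^ e)]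
      ring
    show Integrable (fun x => ∫ y, ‖φ x * ψ y * ‖x - y‖ ^ e‖) volume
    rw [h2]
    exact (hφ.1.continuous.abs.mul h1).integrable_of_hasCompactSupport hφ.2.norm.mul_right

lemma Kc_int {φ ψ : E → ℝ} (hφ : IsTest φ) (hψ : IsTest ψ) (t : ℝ) :
    Integrable (fun q : E × E => φ q.1 * ψ q.2 * Kc t (q.1 - q.2)) (volume.prod volume) := by
  have h1 := ((maj hφ hψ (e := -1) (by norm_num)).norm).const_mul (4 * Real.pi)
  refine h1.mono' ?_ (Eventually.of_forall fun q => ?_)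
  · refine Measurable.aestronglyMeasurable ?_
    have h1 : Measurable fun q : E × E => φ q.1 := hφ.1.continuous.measurable.comp measurable_fst
    have h2 : Measurable fun q : E × E => ψ q.2 := hψ.1.continuous.measurable.comp measurable_snd
    have h3 : Measurable fun q : E × E => Kc t (q.1 - q.2) := Kc_meas' t
    exact (h1.mul h2).mul h3
  · rw [norm_mul, norm_mul, norm_mul, norm_mul, Real.norm_eq_abs (Kc _ _),
      Real.norm_eq_abs (‖q.1 - q.2‖ ^ _), abs_of_nonneg (by positivity : 0 ≤ ‖q.1 - q.2‖ ^ (-1 : ℝ))]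
    have h2 := Kc_abs t (q.1 - q.2)
    have h3 : 0 ≤ ‖φ q.1‖ * ‖ψ q.2‖ := by positivity
    calc ‖φ q.1‖ * ‖ψ q.2‖ * |Kc t (q.1 - q.2)| ≤
        ‖φ q.1‖ * ‖ψ q.2‖ * (4 * Real.pi * ‖q.1 - q.2‖ ^ (-1 : ℝ)) := by gcongr
      _ = _ := by ring

lemma H_meas' (ε δ e t : ℝ) :
    Measurable (fun r : (E × E) × ℝ => H ε δ e t r.2 (r.1.1 - r.1.2)) := by
  unfold H
  have h0 : Measurable fun r : (E × E) × ℝ => ‖r.1.1 - r.1.2‖ := by fun_prop
  have h1 : Measurable fun r : (E × E) × ℝ => Kc t (r.1.1 - r.1.2) := by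
    have h : (fun r : (E × E) × ℝ => Kc t (r.1.1 - r.1.2)) = fun r : (E × E) × ℝ =>
        4 * Real.pi / ‖r.1.1 - r.1.2‖ * P (t / ‖r.1.1 - r.1.2‖) := by
      funext r
      exact Kc_eq _ _
    rw [h]
    exact (measurable_const.div h0).mul (P_meas.comp (measurable_const.div h0))
  have h2 : Measurable fun r : (E × E) × ℝ => Kc r.2 (r.1.1 - r.1.2) := by
    have h : (fun r : (E × E) × ℝ => Kc r.2 (r.1.1 - r.1.2)) = fun r : (E × E) × ℝ =>
        4 * Real.pi / ‖r.1.1 - r.1.2‖ * P (r.2 / ‖r.1.1 - r.1.2‖) := by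
      funext r
      exact Kc_eq _ _
    rw [h]
    exact (measurable_const.div h0).mul (P_meas.comp (measurable_snd.div h0))
  have h3 : Measurable fun r : (E × E) × ℝ => |t - r.2| ^ e := by
    refine Measurable.pow_const ?_ e
    have : Measurable fun r : (E × E) × ℝ => t - r.2 := by fun_prop
    exact this.abs
  exact ((h1.const_mul ε).add (h2.const_mul δ)).mul h3

/-- the bilinear form -/
noncomputable def A (φ ψ : E → ℝ) (t : ℝ) : ℝ :=
  ∫ q : E × E, φ q.1 * ψ q.2 * Kc t (q.1 - q.2) ∂(volume.prod volume)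

/-- Fubini for the kernel -/
lemma fub {φ ψ : E → ℝ} (hφ : IsTest φ) (hψ : IsTest ψ) (he : -4 < e)
    (hI : ∀ t, Integrable (F ε δ e t)) {C0 : ℝ} (hA : ∀ t, ∫ τ, |F ε δ e t τ| ≤ C0) (t : ℝ) :
    ∫ t', (ε * A φ ψ t + δ * A φ ψ t') * |t - t'| ^ e =
      ∫ q : E × E, φ q.1 * ψ q.2 * (∫ t', H ε δ e t t' (q.1 - q.2)) ∂(volume.prod volume) := by
  have hφm : Measurable φ := hφ.1.continuous.measurable
  have hψm : Measurable ψ := hψ.1.continuous.measurable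
  have hm : Measurable (fun r : (E × E) × ℝ => φ r.1.1 * ψ r.1.2 *
      H ε δ e t r.2 (r.1.1 - r.1.2)) := by
    have h1 : Measurable fun r : (E × E) × ℝ => φ r.1.1 :=
      hφm.comp (measurable_fst.comp measurable_fst)
    have h2 : Measurable fun r : (E × E) × ℝ => ψ r.1.2 :=
      hψm.comp (measurable_snd.comp measurable_fst)
    exact (h1.mul h2).mul (H_meas' ε δ e t)
  have hint : Integrable (Function.uncurry fun (q : E × E) (t' : ℝ) => φ q.1 * ψ q.2 *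
      H ε δ e t t' (q.1 - q.2)) ((volume.prod volume).prod volume) := by
    have hm' : AEStronglyMeasurable (Function.uncurry fun (q : E × E) (t' : ℝ) => φ q.1 * ψ q.2 *
      H ε δ e t t' (q.1 - q.2)) ((volume.prod volume).prod volume) := hm.aestronglyMeasurable
    rw [integrable_prod_iff hm']
    constructor
    · exact Eventually.of_forall fun q => (H_int hI t (q.1 - q.2)).const_mul (φ q.1 * ψ q.2)
    · have h1 := ((maj hφ hψ he).norm).const_mul (4 * Real.pi * C0)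
      refine h1.mono' hm'.norm.integral_prod_right' (Eventually.of_forall fun q => ?_)
      have hC0 : 0 ≤ C0 := (integral_nonneg fun _ => abs_nonneg _).trans (hA 0)
      have h2 : ∫ t', ‖Function.uncurry (fun (q : E × E) (t' : ℝ) => φ q.1 * ψ q.2 *
          H ε δ e t t' (q.1 - q.2)) (q, t')‖ =
          ‖φ q.1 * ψ q.2‖ * ∫ t', |H ε δ e t t' (q.1 - q.2)| := by
        rw [← integral_const_mul]
        refine integral_congr_ae (Eventually.of_forall fun t' => ?_)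
        show ‖φ q.1 * ψ q.2 * H ε δ e t t' (q.1 - q.2)‖ = _
        rw [norm_mul, Real.norm_eq_abs (H _ _ _ _ _ _)]
      rw [h2, Real.norm_eq_abs, abs_of_nonneg (mul_nonneg (norm_nonneg _)
        (integral_nonneg fun _ => abs_nonneg _))]
      have h3 := H_abs hA t (q.1 - q.2)
      calc ‖φ q.1 * ψ q.2‖ * ∫ t', |H ε δ e t t' (q.1 - q.2)| ≤
          ‖φ q.1 * ψ q.2‖ * (4 * Real.pi * C0 * ‖q.1 - q.2‖ ^ e) := by gcongr
        _ = 4 * Real.pi * C0 * ‖φ q.1 * ψ q.2 * ‖q.1 - q.2‖ ^ e‖ := by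
          rw [norm_mul (φ q.1 * ψ q.2), Real.norm_eq_abs (‖q.1 - q.2‖ ^ e),
            abs_of_nonneg (by positivity : 0 ≤ ‖q.1 - q.2‖ ^ e)]
          ring
  have h1 := integral_integral_swap hint
  have h2 : ∀ q : E × E, ∫ t', φ q.1 * ψ q.2 * H ε δ e t t' (q.1 - q.2) =
      φ q.1 * ψ q.2 * ∫ t', H ε δ e t t' (q.1 - q.2) := fun q => integral_const_mul _ _
  simp only [h2] at h1
  rw [h1]
  refine integral_congr_ae (Eventually.of_forall fun t' => ?_)
  show (ε * A φ ψ t + δ * A φ ψ t') * |t - t'| ^ e =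
    ∫ q : E × E, φ q.1 * ψ q.2 * H ε δ e t t' (q.1 - q.2) ∂(volume.prod volume)
  unfold A H
  rw [← integral_const_mul, ← integral_const_mul, ← integral_add ((Kc_int hφ hψ t).const_mul ε)
    ((Kc_int hφ hψ t').const_mul δ), ← integral_mul_const]
  refine integral_congr_ae (Eventually.of_forall fun q => ?_)
  show (ε * (φ q.1 * ψ q.2 * Kc t (q.1 - q.2)) + δ * (φ q.1 * ψ q.2 * Kc t' (q.1 - q.2))) *
    |t - t'| ^ e = φ q.1 * ψ q.2 * ((ε * Kc t (q.1 - q.2) + δ * Kc t' (q.1 - q.2)) * |t - t'| ^ e)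
  ring

/-! ### the pairing of Radon transforms -/

/-- continuous, vanishing for large `p` -/
structure NiceC (u : S × ℝ → ℝ) : Prop where
  c : Continuous u
  s : ∃ M, ∀ z, M ≤ |z.2| → u z = 0

lemma nice_both (hR : St_RadT) {φ : E → ℝ} (h : IsTest φ) : NiceC (Rad φ) ∧ NiceC (dRad φ) := by
  obtain ⟨h1, h2, h3, -⟩ := hR φ h
  obtain ⟨ρ, hρ⟩ := h.2.isBounded.subset_closedBall (0 : E)
  refine ⟨⟨h1, ρ, fun z hz => (h3 0 ρ hρ z (by simpa using hz)).1⟩,
    ⟨h2, ρ, fun z hz => (h3 0 ρ hρ z (by simpa using hz)).2⟩⟩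

lemma nice_bdd {u : S × ℝ → ℝ} (hu : NiceC u) : ∃ C, ∀ z, |u z| ≤ C := by
  obtain ⟨M, hM⟩ := hu.s
  have h : HasCompactSupport u := by
    refine HasCompactSupport.intro (isCompact_univ.prod (isCompact_Icc (a := -M) (b := M)))
      fun z hz => hM z ?_
    by_contra h2
    exact hz ⟨mem_univ _, abs_le.1 (not_le.1 h2).le⟩
  obtain ⟨C, hC⟩ := hu.c.bounded_above_of_compact_support h
  exact ⟨C, hC⟩

lemma nice_cs {u : S × ℝ → ℝ} (hu : NiceC u) : HasCompactSupport u := by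
  obtain ⟨M, hM⟩ := hu.s
  refine HasCompactSupport.intro (isCompact_univ.prod (isCompact_Icc (a := -M) (b := M)))
    fun z hz => hM z ?_
  by_contra h2
  exact hz ⟨mem_univ _, abs_le.1 (not_le.1 h2).le⟩

lemma nice_int {u v : S × ℝ → ℝ} (hu : Continuous u) (hv : NiceC v) (t : ℝ) :
    Integrable (fun z : S × ℝ => u (z.1, z.2 - t) * v z) mu := by
  obtain ⟨M, hM⟩ := hv.s
  have h : HasCompactSupport (fun z : S × ℝ => u (z.1, z.2 - t) * v z) := by
    refine HasCompactSupport.intro (isCompact_univ.prod (isCompact_Icc (a := -M) (b := M)))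
      fun z hz => ?_
    rw [hM z, mul_zero]
    by_contra h2
    exact hz ⟨mem_univ _, abs_le.1 (not_le.1 h2).le⟩
  refine Continuous.integrable_of_hasCompactSupport ?_ h
  exact (hu.comp (by fun_prop)).mul hv.c

/-- inner products in `K` in terms of continuous representatives -/
lemma inner_eq {k k' : K} {u v : S × ℝ → ℝ} (h : (k : S × ℝ → ℝ) =ᵐ[mu] u)
    (h' : (k' : S × ℝ → ℝ) =ᵐ[mu] v) (t : ℝ) :
    inner ℝ (tau t k) k' = ∫ z, u (z.1, z.2 - t) * v z ∂mu := by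
  rw [L2.inner_def]
  refine integral_congr_ae ?_
  have h2 := (mp_shift (g := fun _ => t) measurable_const).quasiMeasurePreserving.ae h
  filter_upwards [tau_coe t k, h2, h'] with z h3 h4 h5
  rw [h3, h4, h5]
  simp only [RCLike.inner_apply, conj_trivial]
  ring

lemma pair (hR : St_RadT) {H : S × ℝ → ℝ} (hH : Continuous H) {φ : E → ℝ} (h : IsTest φ)
    (t : ℝ) : ∫ z, H (z.1, z.2 - t) * Rad φ z ∂mu =
      ∫ x, φ x * ∫ w : S, H (w, inner ℝ x (w : E) - t) ∂sg := by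
  have h1 : Integrable (fun z : S × ℝ => H (z.1, z.2 - t) * Rad φ z) mu :=
    nice_int hH (nice_both hR h).1 t
  rw [integral_prod _ h1]
  have h2 : ∀ w : S, ∫ p, H (w, p - t) * Rad φ (w, p) =
      ∫ x, φ x * H (w, inner ℝ x (w : E) - t) := by
    intro w
    have h3 := (hR φ h).2.2.2.2 w (fun p => H (w, p - t)) (hH.comp (by fun_prop))
    rw [← h3]
    exact integral_congr_ae (Eventually.of_forall fun p => mul_comm _ _)
  simp only [h2]
  have h4 : Integrable (Function.uncurry fun (w : S) (x : E) =>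
      φ x * H (w, inner ℝ x (w : E) - t)) (sg.prod volume) := by
    have hc : HasCompactSupport (Function.uncurry fun (w : S) (x : E) =>
        φ x * H (w, inner ℝ x (w : E) - t)) := by
      refine HasCompactSupport.intro (isCompact_univ.prod h.2) fun z hz => ?_
      have : φ z.2 = 0 := image_eq_zero_of_notMem_tsupport fun h5 => hz ⟨mem_univ _, h5⟩
      simp only [Function.uncurry, this, zero_mul]
    refine Continuous.integrable_of_hasCompactSupport ?_ hc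
    refine (h.1.continuous.comp continuous_snd).mul (hH.comp ?_)
    fun_prop
  rw [integral_integral_swap h4]
  exact integral_congr_ae (Eventually.of_forall fun x => integral_const_mul _ _)

/-- `|∂_p|^0 R φ` is `R φ` -/
lemma J0_eq (hPJ : St_PJ) (hN : St_NcR) {φ : E → ℝ} (hφ : IsTest φ) : J0 0 φ = toK (Rad φ) := by
  have h0 : |(0 : ℝ)| < 1 / 2 := by norm_num
  obtain ⟨ρ, hρ⟩ := hφ.2.isBounded.subset_ball (0 : E)
  have hn : Nice univ (Rad φ) := by
    obtain ⟨g, h1, h2, h3, -⟩ := (hN φ 0 ρ hφ hρ).1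
    exact ⟨g, h1, h2, h3, subset_univ _⟩
  rw [← ((hPJ 0 h0).2 φ hφ).1, ((hPJ 0 h0).1 _ hn).2.2.1]

lemma inA (hR : St_RadT) (hPJ : St_PJ) (hN : St_NcR) {a φ : E → ℝ} (ha : IsTest a)
    (h : IsTest φ) (t : ℝ) :
    inner ℝ (tau t (J0 0 a)) (J0 0 φ) =
      ∫ x, φ x * ∫ w : S, Rad a (w, inner ℝ x (w : E) - t) ∂sg := by
  have ma : MemLp (Rad a) 2 mu :=
    (nice_both hR ha).1.c.memLp_of_hasCompactSupport (nice_cs (nice_both hR ha).1)
  have mφ : MemLp (Rad φ) 2 mu :=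
    (nice_both hR h).1.c.memLp_of_hasCompactSupport (nice_cs (nice_both hR h).1)
  rw [J0_eq hPJ hN ha, J0_eq hPJ hN h, inner_eq (toK_coe ma) (toK_coe mφ) t,
    pair hR (nice_both hR ha).1.c h t]

/-! ### the Fourier side -/

lemma norm_char' (x : ℝ) : ‖Complex.exp (-2 * Real.pi * Complex.I * (x : ℂ))‖ = 1 := by
  have : -2 * Real.pi * Complex.I * (x : ℂ) = ((-2 * Real.pi * x : ℝ) : ℂ) * Complex.I := by
    push_cast; ring
  rw [this, Complex.norm_exp_ofReal_mul_I]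

lemma int_aux {c : ℝ} (h1 : -1 < c) (h2 : c < 3) :
    Integrable (fun r : ℝ => |r| ^ c * (1 + |r|) ^ (-(4 : ℝ))) := by
  have h := (integrable_fun_norm_addHaar (volume : Measure ℝ)
    (f := fun y : ℝ => y ^ c * (1 + y) ^ (-(4 : ℝ)))).2 ?_
  · simpa [Real.norm_eq_abs] using h
  · simp only [Module.finrank_self, Nat.sub_self, pow_zero, one_smul]
    rw [← Ioc_union_Ioi_eq_Ioi zero_le_one, integrableOn_union]
    constructor
    · have h3 : IntegrableOn (fun y : ℝ => y ^ c) (Ioc 0 1) :=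
        (intervalIntegrable_iff_integrableOn_Ioc_of_le zero_le_one).1
          (intervalIntegral.intervalIntegrable_rpow' h1)
      refine h3.mono' (by fun_prop) ?_
      refine (ae_restrict_iff' measurableSet_Ioc).2 (Eventually.of_forall fun y hy => ?_)
      have h4 : (1 + y) ^ (-(4 : ℝ)) ≤ 1 :=
        Real.rpow_le_one_of_one_le_of_nonpos (by linarith [hy.1]) (by norm_num)
      have h5 : 0 ≤ y ^ c := Real.rpow_nonneg hy.1.le _
      have h6 : 0 ≤ (1 + y) ^ (-(4 : ℝ)) := Real.rpow_nonneg (by linarith [hy.1]) _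
      rw [Real.norm_eq_abs, abs_of_nonneg (mul_nonneg h5 h6)]
      nlinarith
    · have h3 : IntegrableOn (fun y : ℝ => y ^ (c - 4)) (Ioi 1) :=
        integrableOn_Ioi_rpow_of_lt (by linarith) zero_lt_one
      refine h3.mono' (by fun_prop) ?_
      refine (ae_restrict_iff' measurableSet_Ioi).2 (Eventually.of_forall fun y hy => ?_)
      have hy0 : (0 : ℝ) < y := lt_trans zero_lt_one hy
      have h4 : (1 + y) ^ (-(4 : ℝ)) ≤ y ^ (-(4 : ℝ)) :=
        Real.rpow_le_rpow_of_nonpos hy0 (by linarith) (by norm_num)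
      have h5 : 0 ≤ y ^ c := Real.rpow_nonneg hy0.le _
      have h6 : 0 ≤ (1 + y) ^ (-(4 : ℝ)) := Real.rpow_nonneg (by linarith) _
      rw [Real.norm_eq_abs, abs_of_nonneg (mul_nonneg h5 h6)]
      calc y ^ c * (1 + y) ^ (-(4 : ℝ)) ≤ y ^ c * y ^ (-(4 : ℝ)) := by gcongr
        _ = y ^ (c - 4) := by rw [← Real.rpow_add hy0]; ring_nf

lemma norm_pt (w : S) (r : ℝ) : ‖r • (w : E)‖ = |r| := by
  rw [norm_smul, norm_eq_of_mem_sphere w, mul_one, Real.norm_eq_abs]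

/-- the integrand -/
noncomputable def gF (φ ψ : E → ℝ) (r : ℝ) (w : S) : ℂ :=
  ft φ (r • (w : E)) * (starRingEnd ℂ) (ft ψ (r • (w : E)))

/-- the multiplier -/
noncomputable def mF (c t r : ℝ) : ℂ :=
  ((|2 * Real.pi * r| ^ c : ℝ) : ℂ) * Complex.exp (-2 * Real.pi * Complex.I * ((r * t : ℝ) : ℂ))

/-- the spherical mean of the product of the Fourier transforms -/
noncomputable def G0 (φ ψ : E → ℝ) (r : ℝ) : ℂ := ∫ w : S, gF φ ψ r w ∂sg

section Fourier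

variable {φ ψ : E → ℝ}

lemma g_cont (hFt : St_Ft) (hφ : IsSch φ) (hψ : IsSch ψ) :
    Continuous fun z : ℝ × S => gF φ ψ z.1 z.2 := by
  have h0 : Continuous fun z : ℝ × S => z.1 • (z.2 : E) :=
    continuous_fst.smul (continuous_subtype_val.comp continuous_snd)
  exact ((hFt.2 φ hφ).1.comp h0).mul (Complex.continuous_conj.comp ((hFt.2 ψ hψ).1.comp h0))

lemma g_bound (hFt : St_Ft) (hφ : IsSch φ) (hψ : IsSch ψ) (N : ℕ) :
    ∃ B : ℝ, 0 ≤ B ∧ ∀ (w : S) (r : ℝ), ‖gF φ ψ r w‖ ≤ B / (1 + |r|) ^ N := by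
  obtain ⟨C, hC⟩ := (hFt.2 φ hφ).2.1 N
  obtain ⟨C', hC'⟩ := (hFt.2 ψ hψ).2.1 0
  have h0 : 0 ≤ C := by
    have h := (norm_nonneg _).trans (hC 0)
    simpa using h
  have h0' : 0 ≤ C' := by
    have h := (norm_nonneg _).trans (hC' 0)
    simpa using h
  refine ⟨C * C', by positivity, fun w r => ?_⟩
  have h1 := hC (r • (w : E))
  have h2 := hC' (r • (w : E))
  rw [norm_pt] at h1 h2
  rw [pow_zero, div_one] at h2
  unfold gF
  rw [norm_mul, RCLike.norm_conj]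
  calc ‖ft φ (r • (w : E))‖ * ‖ft ψ (r • (w : E))‖ ≤ (C / (1 + |r|) ^ N) * C' := by
        gcongr
    _ = C * C' / (1 + |r|) ^ N := by ring

lemma G0_cont (hFt : St_Ft) (hφ : IsSch φ) (hψ : IsSch ψ) : Continuous (G0 φ ψ) := by
  have h := continuous_parametric_integral_of_continuous (μ := sg)
    (f := fun (r : ℝ) (w : S) => gF φ ψ r w)
    (g_cont hFt hφ hψ) isCompact_univ
  have e : G0 φ ψ = fun r => ∫ w : S, gF φ ψ r w ∂(sg.restrict univ) := by
    funext r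
    rw [Measure.restrict_univ]
    rfl
  rw [e]
  exact h

lemma G0_bound (hFt : St_Ft) (hφ : IsSch φ) (hψ : IsSch ψ) (N : ℕ) :
    ∃ B : ℝ, ∀ r, ‖G0 φ ψ r‖ ≤ B / (1 + |r|) ^ N := by
  obtain ⟨B, hB0, hB⟩ := g_bound hFt hφ hψ N
  refine ⟨B * sg.real univ, fun r => ?_⟩
  have h := norm_integral_le_of_norm_le_const (μ := sg) (C := B / (1 + |r|) ^ N)
    (f := fun w : S => gF φ ψ r w)
    (Eventually.of_forall fun w => hB w r)
  refine h.trans (le_of_eq ?_)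
  ring

lemma gF_neg (hFt : St_Ft) (hφ : IsSch φ) (hψ : IsSch ψ) (r : ℝ) (w : S) :
    gF φ ψ (-r) w = (starRingEnd ℂ) (gF φ ψ r w) := by
  unfold gF
  rw [neg_smul, map_mul, (hFt.2 φ hφ).2.2.2.2.2.1, (hFt.2 ψ hψ).2.2.2.2.2.1]

lemma G0_neg (hFt : St_Ft) (hφ : IsSch φ) (hψ : IsSch ψ) (r : ℝ) :
    G0 φ ψ (-r) = (starRingEnd ℂ) (G0 φ ψ r) := by
  unfold G0
  rw [← integral_conj]
  exact integral_congr_ae (Eventually.of_forall fun w => gF_neg hFt hφ hψ r w)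

lemma mF_neg (c t r : ℝ) : mF c t (-r) = (starRingEnd ℂ) (mF c t r) := by
  unfold mF
  rw [map_mul, Complex.conj_ofReal, ← Complex.exp_conj]
  have h1 : |2 * Real.pi * -r| = |2 * Real.pi * r| := by rw [mul_neg, abs_neg]
  rw [h1]
  congr 2
  simp only [map_mul, map_neg, Complex.conj_ofReal, Complex.conj_I, map_ofNat]
  push_cast
  ring

lemma J_real (hFt : St_Ft) (hφ : IsSch φ) (hψ : IsSch ψ) (c t : ℝ) :
    (((∫ r : ℝ, mF c t r * G0 φ ψ r).re : ℝ) : ℂ) = ∫ r : ℝ, mF c t r * G0 φ ψ r := by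
  rw [← Complex.conj_eq_iff_re, ← integral_conj]
  rw [← integral_neg_eq_self]
  refine integral_congr_ae (Eventually.of_forall fun r => ?_)
  show (starRingEnd ℂ) (mF c t (-r) * G0 φ ψ (-r)) = mF c t r * G0 φ ψ r
  rw [map_mul, mF_neg, G0_neg hFt hφ hψ, Complex.conj_conj, Complex.conj_conj]

lemma mF_norm (c t r : ℝ) : ‖mF c t r‖ = (2 * Real.pi) ^ c * |r| ^ c := by
  unfold mF
  rw [norm_mul, Complex.norm_real, Real.norm_eq_abs,
    abs_of_nonneg (Real.rpow_nonneg (abs_nonneg _) _), norm_char', mul_one, abs_mul,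
    abs_of_pos Real.two_pi_pos, Real.mul_rpow Real.two_pi_pos.le (abs_nonneg _)]

lemma mF_meas (c t : ℝ) : Measurable (mF c t) := by
  unfold mF
  have h1 : Measurable fun r : ℝ => ((|2 * Real.pi * r| ^ c : ℝ) : ℂ) := by
    refine Complex.measurable_ofReal.comp ?_
    exact (measurable_const.mul measurable_id).abs.pow_const c
  have h2 : Measurable fun r : ℝ => Complex.exp (-2 * Real.pi * Complex.I * ((r * t : ℝ) : ℂ)) := by
    refine Complex.measurable_exp.comp ?_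
    refine measurable_const.mul (Complex.measurable_ofReal.comp ?_)
    exact measurable_id.mul measurable_const
  exact h1.mul h2

lemma int_mg (hFt : St_Ft) (hφ : IsSch φ) (hψ : IsSch ψ) {c : ℝ} (h1 : -1 < c) (h2 : c < 3) (t : ℝ) :
    Integrable (fun z : S × ℝ => mF c t z.2 * gF φ ψ z.2 z.1) (sg.prod volume) := by
  obtain ⟨B, hB0, hB⟩ := g_bound hFt hφ hψ 4
  have h3 : Integrable (fun r : ℝ => (B * (2 * Real.pi) ^ c) * (|r| ^ c * (1 + |r|) ^ (-(4 : ℝ)))) :=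
    (int_aux h1 h2).const_mul _
  have h4 : Integrable (fun z : S × ℝ => (B * (2 * Real.pi) ^ c) *
      (|z.2| ^ c * (1 + |z.2|) ^ (-(4 : ℝ)))) (sg.prod volume) := h3.comp_snd sg
  have h5 : Measurable fun z : S × ℝ => gF φ ψ z.2 z.1 :=
    ((g_cont hFt hφ hψ).comp continuous_swap).measurable
  have h6 : Measurable fun z : S × ℝ => mF c t z.2 := (mF_meas c t).comp measurable_snd
  refine h4.mono' (h6.mul h5).aestronglyMeasurable (Eventually.of_forall fun z => ?_)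
  have h7 := hB z.1 z.2
  have h8 : (1 + |z.2|) ^ (-(4 : ℝ)) = ((1 + |z.2|) ^ 4)⁻¹ := by
    rw [Real.rpow_neg (by positivity)]
    norm_cast
  rw [norm_mul, mF_norm, h8]
  calc (2 * Real.pi) ^ c * |z.2| ^ c * ‖gF φ ψ z.2 z.1‖ ≤
        (2 * Real.pi) ^ c * |z.2| ^ c * (B / (1 + |z.2|) ^ 4) := by gcongr
    _ = _ := by rw [div_eq_mul_inv]; ring

lemma fubF (hFt : St_Ft) (hφ : IsSch φ) (hψ : IsSch ψ) {c : ℝ} (h1 : -1 < c) (h2 : c < 3) (t : ℝ) :
    ∫ z : S × ℝ, mF c t z.2 * gF φ ψ z.2 z.1 ∂(sg.prod volume) =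
    ∫ r : ℝ, mF c t r * G0 φ ψ r := by
  rw [integral_prod_symm _ (int_mg hFt hφ hψ h1 h2 t)]
  refine integral_congr_ae (Eventually.of_forall fun r => ?_)
  show ∫ w : S, mF c t r * gF φ ψ r w ∂sg = mF c t r * ∫ w : S, gF φ ψ r w ∂sg
  exact integral_const_mul _ _

/-- the pairing of the states on the Fourier side -/
lemma inner_Rs (hFt : St_Ft) (hPar : St_Par) (hφ : IsSch φ) (hψ : IsSch ψ) {s : ℝ}
    (hs0 : 0 < s) (hs : s < 1 / 2) (t : ℝ) :
    ((inner ℝ (tau t (Rs s φ)) (Rs s ψ) : ℝ) : ℂ) = ∫ r : ℝ, mF (-(2 * s)) t r * G0 φ ψ r := by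
  have h1 := (hPar (1 + s) (1 + s) t φ ψ hφ hψ).2.2.2.1 (by linarith) (by linarith)
  have h3 : 2 - (1 + s) - (1 + s) = -(2 * s) := by ring
  have h4 : (∫ z : S × ℝ, ((|2 * Real.pi * z.2| ^ (-(2 * s)) : ℝ) : ℂ) *
      Complex.exp (-2 * Real.pi * Complex.I * ((z.2 * t : ℝ) : ℂ)) * ft φ (z.2 • (z.1 : E)) *
        (starRingEnd ℂ) (ft ψ (z.2 • (z.1 : E))) ∂mu) =
      ∫ z : S × ℝ, mF (-(2 * s)) t z.2 * gF φ ψ z.2 z.1 ∂(sg.prod volume) := by
    refine integral_congr_ae (Eventually.of_forall fun z => ?_)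
    simp only [mF, gF]
    ring
  rw [h3, h4, fubF hFt hφ hψ (by linarith) (by linarith)] at h1
  have h5 : inner ℝ (tau t (Rs s φ)) (Rs s ψ) =
      inner ℝ (tau t (J1 (1 + s) φ)) (J1 (1 + s) ψ) := by
    unfold Rs
    rw [map_neg, inner_neg_neg]
  rw [h5, h1]
  exact J_real hFt hφ hψ _ t

/-- the bilinear form on the Fourier side -/
lemma inner_Rk (hFt : St_Ft) (hPar : St_Par) (hφ : IsSch φ) (hψ : IsSch ψ) (t : ℝ) :
    ((inner ℝ (tau t (J0 0 φ)) (J0 0 ψ) : ℝ) : ℂ) = ∫ r : ℝ,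
      Complex.exp (-2 * Real.pi * Complex.I * ((r * t : ℝ) : ℂ)) * G0 φ ψ r := by
  have h1 := (hPar 0 0 t φ ψ hφ hψ).2.2.1 (by norm_num) (by norm_num)
  have h3 : -(0 : ℝ) - 0 = 0 := by ring
  have h4 : (∫ z : S × ℝ, ((|2 * Real.pi * z.2| ^ (0 : ℝ) : ℝ) : ℂ) *
      Complex.exp (-2 * Real.pi * Complex.I * ((z.2 * t : ℝ) : ℂ)) * ft φ (z.2 • (z.1 : E)) *
        (starRingEnd ℂ) (ft ψ (z.2 • (z.1 : E))) ∂mu) =
      ∫ z : S × ℝ, mF 0 t z.2 * gF φ ψ z.2 z.1 ∂(sg.prod volume) := by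
    refine integral_congr_ae (Eventually.of_forall fun z => ?_)
    simp only [mF, gF]
    ring
  rw [h3, h4, fubF hFt hφ hψ (by norm_num) (by norm_num)] at h1
  rw [h1, J_real hFt hφ hψ 0 t]
  refine integral_congr_ae (Eventually.of_forall fun r => ?_)
  show mF 0 t r * G0 φ ψ r = _
  unfold mF
  rw [Real.rpow_zero, Complex.ofReal_one, one_mul]

end Fourier

/-! ### the bilinear form -/

lemma Kc_neg (t : ℝ) (x y : E) : Kc t (x - y) = Kc t (y - x) := by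
  rw [Kc_eq, Kc_eq, norm_sub_rev]

lemma A_eq (hR : St_RadT) (hPJ : St_PJ) (hN : St_NcR) (hS : St_Sph) {φ ψ : E → ℝ}
    (hφ : IsTest φ) (hψ : IsTest ψ) (t : ℝ) :
    inner ℝ (tau t (J0 0 φ)) (J0 0 ψ) = A φ ψ t := by
  rw [inA hR hPJ hN hφ hψ t]
  unfold A
  rw [integral_prod_symm _ (Kc_int hφ hψ t)]
  refine integral_congr_ae (Eventually.of_forall fun x => ?_)
  show ψ x * ∫ w : S, Rad φ (w, inner ℝ x (w : E) - t) ∂sg = ∫ y, φ y * ψ x * Kc t (y - x)
  rw [hS φ hφ t x, ← integral_const_mul]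
  refine integral_congr_ae (Eventually.of_forall fun y => ?_)
  show ψ x * (φ y * Kc t (x - y)) = φ y * ψ x * Kc t (y - x)
  rw [Kc_neg t x y]
  ring

lemma Kc_van {t : ℝ} {z : E} (h : ‖z‖ ≤ |t|) : Kc t z = 0 := by
  by_cases hz : z = 0
  · rw [hz, Kc_zero]
  · have hn : 0 < ‖z‖ := norm_pos_iff.2 hz
    rw [Kc_eq]
    have h1 : P (t / ‖z‖) = 0 := by
      unfold P
      rw [max_eq_left, Real.sqrt_zero]
      rw [div_pow, sub_nonpos, one_le_div (by positivity), ← sq_abs t]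
      gcongr
    rw [h1, mul_zero]

lemma test_bdd {φ : E → ℝ} (hφ : IsTest φ) : ∃ M : ℝ, ∀ x, φ x ≠ 0 → ‖x‖ ≤ M := by
  obtain ⟨M, hM⟩ := hφ.2.isCompact.isBounded.exists_norm_le
  exact ⟨M, fun x hx => hM x (subset_tsupport φ hx)⟩

lemma A_supp {φ ψ : E → ℝ} (hφ : IsTest φ) (hψ : IsTest ψ) :
    HasCompactSupport fun t => ((A φ ψ t : ℝ) : ℂ) := by
  obtain ⟨M, hM⟩ := test_bdd hφ
  obtain ⟨M', hM'⟩ := test_bdd hψ
  refine HasCompactSupport.intro (isCompact_closedBall (0 : ℝ) (M + M')) fun t ht => ?_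
  rw [Metric.mem_closedBall, dist_zero_right, Real.norm_eq_abs, not_le] at ht
  have h1 : A φ ψ t = 0 := by
    unfold A
    rw [← integral_zero (E × E) ℝ (μ := (volume : Measure E).prod volume)]
    refine integral_congr_ae (Eventually.of_forall fun q => ?_)
    show φ q.1 * ψ q.2 * Kc t (q.1 - q.2) = 0
    by_cases h2 : φ q.1 = 0
    · rw [h2, zero_mul, zero_mul]
    by_cases h3 : ψ q.2 = 0
    · rw [h3, mul_zero, zero_mul]
    have h4 : ‖q.1 - q.2‖ ≤ |t| := by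
      have h5 := norm_sub_le q.1 q.2
      have h6 := hM _ h2
      have h7 := hM' _ h3
      linarith
    rw [Kc_van h4, mul_zero]
  rw [h1, Complex.ofReal_zero]

/-- the bounds for `s > 0` -/
lemma prof_pos (hB : St_KerB) {α : ℝ} (h0 : 0 < α) (h1 : α < 1) : ∃ C0 CB : ℝ, 0 < CB ∧
    (∀ t, Integrable (F 0 1 (α - 1) t)) ∧ (∀ t, ∫ τ, |F 0 1 (α - 1) t τ| ≤ C0) ∧
    ∀ t, |∫ τ, F 0 1 (α - 1) t τ| ≤ CB * (1 + |t|) ^ (α - 1) := by
  obtain ⟨C, hC, hK⟩ := hB α h0 h1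
  have e1 : ∀ t, F 0 1 (α - 1) t = fun t' => √(max 0 (1 - t' ^ 2)) * |t - t'| ^ (α - 1) := by
    intro t
    funext t'
    unfold F P
    ring
  refine ⟨C, C, hC, fun t => ?_, fun t => ?_, fun t => ?_⟩
  · rw [e1 t]
    exact (hK t).1
  · have h2 : ∀ τ, |F 0 1 (α - 1) t τ| = F 0 1 (α - 1) t τ := by
      intro τ
      refine abs_of_nonneg ?_
      rw [e1 t]
      positivity
    simp only [h2]
    rw [e1 t]
    refine (le_abs_self _).trans ((hK t).2.trans ?_)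
    have h3 : (1 + |t|) ^ (α - 1) ≤ 1 := by
      refine Real.rpow_le_one_of_one_le_of_nonpos ?_ (by linarith)
      have := abs_nonneg t
      linarith
    nlinarith
  · rw [e1 t]
    exact (hK t).2

/-- the identity, from a pointwise identity in `t` -/
lemma ident {φ ψ : E → ℝ} (hφ : IsTest φ) (hψ : IsTest ψ) {ε δ e c C0 : ℝ} (he : -4 < e)
    (hI : ∀ t, Integrable (F ε δ e t)) (hA : ∀ t, ∫ τ, |F ε δ e t τ| ≤ C0) (t : ℝ) :
    c * (∫ t', (ε * A φ ψ t + δ * A φ ψ t') * |t - t'| ^ e) =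
      ∫ x, ∫ y, φ x * ψ y * (c * ∫ t', H ε δ e t t' (x - y)) := by
  have hC0 : 0 ≤ C0 := (integral_nonneg fun _ => abs_nonneg _).trans (hA 0)
  have hN : Measurable fun q : E × E => c * ∫ t', H ε δ e t t' (q.1 - q.2) := by
    have h1 : StronglyMeasurable fun q : E × E => ∫ t', H ε δ e t t' (q.1 - q.2) :=
      (H_meas' ε δ e t).stronglyMeasurable.integral_prod_right
    exact h1.measurable.const_mul c
  have hint : Integrable (fun q : E × E => φ q.1 * ψ q.2 * (c * ∫ t', H ε δ e t t' (q.1 - q.2)))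
      (volume.prod volume) := by
    have h1 := ((maj hφ hψ he).norm).const_mul (|c| * (4 * Real.pi * C0))
    refine h1.mono' ?_ (Eventually.of_forall fun q => ?_)
    · refine Measurable.aestronglyMeasurable ?_
      have h2 : Measurable fun q : E × E => φ q.1 := hφ.1.continuous.measurable.comp measurable_fst
      have h3 : Measurable fun q : E × E => ψ q.2 := hψ.1.continuous.measurable.comp measurable_snd
      exact (h2.mul h3).mul hN
    · have h2 : |∫ t', H ε δ e t t' (q.1 - q.2)| ≤ 4 * Real.pi * C0 * ‖q.1 - q.2‖ ^ e :=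
        (abs_integral_le_integral_abs).trans (H_abs hA t (q.1 - q.2))
      rw [norm_mul (φ q.1 * ψ q.2), norm_mul (φ q.1 * ψ q.2), Real.norm_eq_abs (c * _),
        Real.norm_eq_abs (‖q.1 - q.2‖ ^ e), abs_of_nonneg (by positivity : 0 ≤ ‖q.1 - q.2‖ ^ e),
        abs_mul]
      calc ‖φ q.1 * ψ q.2‖ * (|c| * |∫ t', H ε δ e t t' (q.1 - q.2)|) ≤
          ‖φ q.1 * ψ q.2‖ * (|c| * (4 * Real.pi * C0 * ‖q.1 - q.2‖ ^ e)) := by gcongr
        _ = _ := by ring
  rw [fub hφ hψ he hI hA t, ← integral_const_mul]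
  rw [← integral_prod _ hint]
  refine integral_congr_ae (Eventually.of_forall fun q => ?_)
  show c * (φ q.1 * ψ q.2 * ∫ t', H ε δ e t t' (q.1 - q.2)) =
    φ q.1 * ψ q.2 * (c * ∫ t', H ε δ e t t' (q.1 - q.2))
  ring

/-- the bound of the kernel -/
lemma N_bound {ε δ e c CB : ℝ} (hc : 0 < c)
    (hB : ∀ t, |∫ τ, F ε δ e t τ| ≤ CB * (1 + |t|) ^ e) (t : ℝ) {z : E} (hz : z ≠ 0) :
    |c * ∫ t', H ε δ e t t' z| ≤ c * (4 * Real.pi) * CB * (|t| + ‖z‖) ^ e := by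
  have hn : 0 < ‖z‖ := norm_pos_iff.2 hz
  have ht : 0 ≤ |t| := abs_nonneg t
  rw [H_eq t hz, abs_mul, abs_of_pos hc, abs_mul, abs_of_nonneg (by positivity)]
  have h1 := hB (t / ‖z‖)
  rw [abs_div, abs_of_pos hn] at h1
  have h2 : ‖z‖ ^ e * (1 + |t| / ‖z‖) ^ e = (|t| + ‖z‖) ^ e := by
    rw [← Real.mul_rpow hn.le (by positivity)]
    congr 1
    field_simp
    ring
  calc c * (4 * Real.pi * ‖z‖ ^ e * |∫ τ, F ε δ e (t / ‖z‖) τ|) ≤
      c * (4 * Real.pi * ‖z‖ ^ e * (CB * (1 + |t| / ‖z‖) ^ e)) := by gcongr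
    _ = c * (4 * Real.pi) * CB * (‖z‖ ^ e * (1 + |t| / ‖z‖) ^ e) := by ring
    _ = _ := by rw [h2]

/-- the general step -/
lemma core {ε δ e c C0 CB s : ℝ} (he : -4 < e) (hc : 0 < c) (hCB : 0 < CB)
    (hI : ∀ t, Integrable (F ε δ e t)) (hA : ∀ t, ∫ τ, |F ε δ e t τ| ≤ C0)
    (hB : ∀ t, |∫ τ, F ε δ e t τ| ≤ CB * (1 + |t|) ^ e) (hs : e = -1 + 2 * s)
    (hid : ∀ (t : ℝ) (φ ψ : E → ℝ), IsTest φ → IsTest ψ → inner ℝ (tau t (Rs s φ)) (Rs s ψ) =
      c * (∫ t', (ε * A φ ψ t + δ * A φ ψ t') * |t - t'| ^ e)) :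
    ∃ (C : ℝ) (N : ℝ → E → ℝ), 0 < C ∧ Measurable (Function.uncurry N) ∧
    (∀ t z, z ≠ 0 → |N t z| ≤ C * (|t| + ‖z‖) ^ (-1 + 2 * s)) ∧
    ∀ (t : ℝ) (φ ψ : E → ℝ), IsTest φ → IsTest ψ →
      inner ℝ (tau t (Rs s φ)) (Rs s ψ) = ∫ x, ∫ y, φ x * ψ y * N t (x - y) := by
  refine ⟨c * (4 * Real.pi) * CB, fun t z => c * ∫ t', H ε δ e t t' z, by positivity, ?_,
    fun t z hz => ?_, fun t φ ψ hφ hψ => ?_⟩
  · have h1 : StronglyMeasurable fun q : ℝ × E => ∫ t', H ε δ e q.1 t' q.2 :=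
      (H_meas ε δ e).stronglyMeasurable.integral_prod_right
    exact h1.measurable.const_mul c
  · rw [← hs]
    exact N_bound hc hB t hz
  · rw [hid t φ ψ hφ hψ]
    exact ident hφ hψ he hI hA t

/-- the Fourier side as an integral in `t'`, case `s > 0` -/
lemma id_pos {C1 C2 α s : ℝ} (hs : α = 2 * s) (hs0 : 0 < s) (hs' : s < 1 / 2)
    (hFt : St_Ft) (hPar : St_Par) (hR : St_RadT) (hPJ : St_PJ) (hN : St_NcR) (hS : St_Sph)
    (hz : ∀ (G A : ℝ → ℂ), Continuous G →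
      (∀ N : ℕ, ∃ B : ℝ, ∀ r, ‖G r‖ ≤ B / (1 + |r|) ^ N) →
      (∀ t, A t = ∫ r : ℝ, Complex.exp (-2 * Real.pi * Complex.I * ((r * t : ℝ) : ℂ)) * G r) →
      HasCompactSupport A → ∀ t,
      (∫ r : ℝ, ((|2 * Real.pi * r| ^ α : ℝ) : ℂ) *
        Complex.exp (-2 * Real.pi * Complex.I * ((r * t : ℝ) : ℂ)) * G r =
        C1 * ∫ t', (A t - A t') * ((|t - t'| ^ (-1 - α) : ℝ) : ℂ)) ∧
      (∫ r : ℝ, ((|2 * Real.pi * r| ^ (-α) : ℝ) : ℂ) *
        Complex.exp (-2 * Real.pi * Complex.I * ((r * t : ℝ) : ℂ)) * G r =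
        C2 * ∫ t', A t' * ((|t - t'| ^ (α - 1) : ℝ) : ℂ)))
    (t : ℝ) (φ ψ : E → ℝ) (hφ : IsTest φ) (hψ : IsTest ψ) :
    inner ℝ (tau t (Rs s φ)) (Rs s ψ) =
      C2 * (∫ t', (0 * A φ ψ t + 1 * A φ ψ t') * |t - t'| ^ (α - 1)) := by
  have h1 := inner_Rs hFt hPar (hFt.1 φ hφ) (hFt.1 ψ hψ) hs0 hs' t
  have h2 := (hz (G0 φ ψ) (fun t => ((A φ ψ t : ℝ) : ℂ)) (G0_cont hFt (hFt.1 φ hφ) (hFt.1 ψ hψ))
    (G0_bound hFt (hFt.1 φ hφ) (hFt.1 ψ hψ))
    (fun t => by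
      rw [← A_eq hR hPJ hN hS hφ hψ t]
      exact inner_Rk hFt hPar (hFt.1 φ hφ) (hFt.1 ψ hψ) t) (A_supp hφ hψ) t).2
  rw [hs] at h2
  have h3 : ∫ r : ℝ, mF (-(2 * s)) t r * G0 φ ψ r = ∫ r : ℝ, ((|2 * Real.pi * r| ^ (-(2 * s)) : ℝ) : ℂ) *
        Complex.exp (-2 * Real.pi * Complex.I * ((r * t : ℝ) : ℂ)) * G0 φ ψ r := rfl
  rw [h3, h2] at h1
  rw [← hs] at h1
  have h4 : ∫ t', ((A φ ψ t' : ℝ) : ℂ) * ((|t - t'| ^ (α - 1) : ℝ) : ℂ) =
      ((∫ t', (0 * A φ ψ t + 1 * A φ ψ t') * |t - t'| ^ (α - 1) : ℝ) : ℂ) := by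
    rw [← integral_complex_ofReal]
    refine integral_congr_ae (Eventually.of_forall fun t' => ?_)
    show ((A φ ψ t' : ℝ) : ℂ) * ((|t - t'| ^ (α - 1) : ℝ) : ℂ) =
      (((0 * A φ ψ t + 1 * A φ ψ t') * |t - t'| ^ (α - 1) : ℝ) : ℂ)
    push_cast
    ring
  rw [h4, ← Complex.ofReal_mul] at h1
  exact Complex.ofReal_injective h1

end KerPx

/-- **KerP** -/
theorem thm_KerP (hFt : St_Ft) (hPar : St_Par) (hPJ : St_PJ) (hN : St_NcR) (hB : St_KerB)
    (hRsz : Pool.Agent.QWP.St_Rsz) (hR : St_RadT) (hS : St_Sph) : St_KerP := by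
  intro s h0 h1
  obtain ⟨C1, C2, hC1, hC2, hz⟩ := hRsz (2 * s) (by linarith) (by linarith)
  obtain ⟨C0, CB, hCB, hI0, hA0, hB0⟩ := KerPx.prof_pos hB (α := 2 * s) (by linarith)
    (by linarith)
  exact KerPx.core (by linarith) hC2 hCB hI0 hA0 hB0 (by ring) fun t φ ψ hφ hψ =>
    KerPx.id_pos rfl h0 h1 hFt hPar hR hPJ hN hS hz t φ ψ hφ hψ

end Pool.Agent.QWF
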