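import Pool.Agent.QWF.StA

/-!
# QWF: exterior locality (`L8P`)
-/

set_option autoImplicit false

open MeasureTheory Filter Topology Set
open scoped ENNReal NNReal RealInnerProductSpace ContDiff

namespace Pool.Agent.QWF

namespace L8Px

/-! ### test functions and smooth functions -/

lemma test_pd (i : Fin 4) {φ : E → ℝ} (h : IsTest φ) : IsTest (pd i φ) := by
  refine ⟨?_, h.2.fderiv_apply ℝ _⟩
  exact (h.1.fderiv_right (m := ∞) (by simp)).clm_apply contDiff_const

lemma tsupport_pd (i : Fin 4) (φ : E → ℝ) : tsupport (pd i φ) ⊆ tsupport φ :=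
  tsupport_fderiv_apply_subset ℝ _

lemma lap_zero {φ : E → ℝ} {x : E} (h : x ∉ tsupport φ) : lap φ x = 0 := by
  refine Finset.sum_eq_zero fun i _ => ?_
  exact image_eq_zero_of_notMem_tsupport fun h2 => h (tsupport_pd i φ (tsupport_pd i _ h2))

lemma test_lap {φ : E → ℝ} (h : IsTest φ) : IsTest (lap φ) := by
  refine ⟨?_, HasCompactSupport.intro h.2 fun x hx => lap_zero hx⟩
  exact ContDiff.sum fun i _ => (test_pd i (test_pd i h)).1

lemma sch {f : E → ℝ} (hf : IsTest f) : IsSch f :=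
  ⟨hf.2.toSchwartzMap hf.1, fun _ => rfl⟩

lemma sm_pd (i : Fin 4) {f : E → ℝ} (hf : SmE f) : SmE (pd i f) := by
  have h1 : ContDiff ℝ ∞ (fderiv ℝ f) := ContDiff.fderiv_right (m := ∞) hf (by simp)
  exact h1.clm_apply contDiff_const

lemma sm_lap {f : E → ℝ} (hf : SmE f) : SmE (lap f) :=
  ContDiff.sum fun i _ => sm_pd i (sm_pd i hf)

lemma int_mul {f g : E → ℝ} (hf : SmE f) (hg : IsTest g) :
    Integrable (fun x => f x * g x) (volume : Measure E) :=
  (hf.continuous.mul hg.1.continuous).integrable_of_hasCompactSupport hg.2.mul_left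

lemma ibp (i : Fin 4) {f g : E → ℝ} (hf : SmE f) (hg : IsTest g) :
    ∫ x, f x * pd i g x = - ∫ x, pd i f x * g x := by
  have h := integral_mul_fderiv_eq_neg_fderiv_mul_of_integrable (μ := (volume : Measure E))
    (f := f) (g := g) (v := EuclideanSpace.single i (1 : ℝ))
    (int_mul (sm_pd i hf) hg) (int_mul hf (test_pd i hg)) (int_mul hf hg)
    (fun x _ => (hf.differentiable (by simp)) x) (fun x _ => (hg.1.differentiable (by simp)) x)
  exact h

lemma ibp_lap {f g : E → ℝ} (hf : SmE f) (hg : IsTest g) :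
    ∫ x, f x * lap g x = ∫ x, lap f x * g x := by
  have h1 : ∫ x, f x * lap g x = ∑ i, ∫ x, f x * pd i (pd i g) x := by
    rw [← integral_finsetSum _ fun i _ => int_mul hf (test_pd i (test_pd i hg))]
    refine integral_congr_ae (Eventually.of_forall fun x => ?_)
    simp only [lap, Finset.mul_sum]
  have h2 : ∫ x, lap f x * g x = ∑ i, ∫ x, pd i (pd i f) x * g x := by
    rw [← integral_finsetSum _ fun i _ => int_mul (sm_pd i (sm_pd i hf)) hg]
    refine integral_congr_ae (Eventually.of_forall fun x => ?_)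
    simp only [lap, Finset.sum_mul]
  rw [h1, h2]
  refine Finset.sum_congr rfl fun i _ => ?_
  rw [ibp i hf (test_pd i hg), ibp i (sm_pd i hf) hg, neg_neg]

/-! ### size of the derivatives -/

lemma iter_pd (i : Fin 4) {f : E → ℝ} (hf : SmE f) (n : ℕ) (x : E) :
    ‖iteratedFDeriv ℝ n (pd i f) x‖ ≤ ‖iteratedFDeriv ℝ (n + 1) f x‖ := by
  have h1 : pd i f = (ContinuousLinearMap.apply ℝ ℝ (EuclideanSpace.single i (1 : ℝ) : E)) ∘
      (fderiv ℝ f) := rfl
  have h2 : ContDiff ℝ ∞ (fderiv ℝ f) := ContDiff.fderiv_right (m := ∞) hf (by simp)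
  rw [h1]
  refine le_trans (ContinuousLinearMap.norm_iteratedFDeriv_comp_left
    (ContinuousLinearMap.apply ℝ ℝ (EuclideanSpace.single i (1 : ℝ) : E))
    (n := n) (h2.contDiffAt (x := x)) (by exact_mod_cast le_top)) ?_
  rw [norm_iteratedFDeriv_fderiv]
  have h3 : ‖ContinuousLinearMap.apply ℝ ℝ (EuclideanSpace.single i (1 : ℝ) : E)‖ ≤ 1 := by
    refine ContinuousLinearMap.opNorm_le_bound _ (by norm_num) fun L => ?_
    simp only [ContinuousLinearMap.apply_apply]
    refine le_trans (L.le_opNorm _) ?_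
    simp
  calc _ ≤ 1 * ‖iteratedFDeriv ℝ (n + 1) f x‖ := mul_le_mul_of_nonneg_right h3 (norm_nonneg _)
    _ = _ := one_mul _

lemma iter_lap {f : E → ℝ} (hf : SmE f) (n : ℕ) (x : E) :
    ‖iteratedFDeriv ℝ n (lap f) x‖ ≤ 4 * ‖iteratedFDeriv ℝ (n + 2) f x‖ := by
  have h1 : lap f = fun x => ∑ i, pd i (pd i f) x := rfl
  rw [h1, iteratedFDeriv_fun_sum_apply fun i _ =>
    ((sm_pd i (sm_pd i hf)).contDiffAt (x := x)).of_le (by exact_mod_cast le_top)]
  refine le_trans (norm_sum_le _ _) ?_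
  have h2 : ∀ i ∈ (Finset.univ : Finset (Fin 4)), ‖iteratedFDeriv ℝ n (pd i (pd i f)) x‖ ≤
      ‖iteratedFDeriv ℝ (n + 2) f x‖ := by
    intro i _
    exact le_trans (iter_pd i (sm_pd i hf) n x) (iter_pd i hf (n + 1) x)
  refine le_trans (Finset.sum_le_sum h2) ?_
  simp

lemma lap_le {f : E → ℝ} (hf : SmE f) (x : E) : |lap f x| ≤ 4 * ‖iteratedFDeriv ℝ 2 f x‖ := by
  have h := iter_lap hf 0 x
  rw [norm_iteratedFDeriv_zero, Real.norm_eq_abs] at h
  exact h

lemma memLp_decay {φ : E → ℝ} (hc : Continuous φ) (C : ℝ) (n : ℕ)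
    (hφ : ∀ x, |φ x| ≤ C / (1 + ‖x‖) ^ n) (q : ℝ) (hq : 0 < q) (hnq : 4 < n * q) :
    MemLp φ (ENNReal.ofReal q) volume := by
  have hC : 0 ≤ C := by
    have h := hφ 0
    simp only [norm_zero, add_zero, one_pow, div_one] at h
    exact le_trans (abs_nonneg _) h
  have h0 : ENNReal.ofReal q ≠ 0 := by
    rw [ne_eq, ENNReal.ofReal_eq_zero, not_le]
    exact hq
  rw [← integrable_norm_rpow_iff hc.aestronglyMeasurable h0 ENNReal.ofReal_ne_top,
    ENNReal.toReal_ofReal hq.le]
  have h1 : Integrable (fun x : E => (1 + ‖x‖) ^ (-((n : ℝ) * q))) volume := by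
    apply integrable_one_add_norm
    rw [finrank_euclideanSpace_fin]
    exact_mod_cast hnq
  refine (h1.const_mul (C ^ q)).mono' ?_ ?_
  · exact (hc.norm.rpow_const fun x => Or.inr hq.le).aestronglyMeasurable
  · refine Eventually.of_forall fun x => ?_
    have hx : 0 < 1 + ‖x‖ := by positivity
    rw [Real.norm_of_nonneg (by positivity)]
    calc ‖φ x‖ ^ q ≤ (C / (1 + ‖x‖) ^ n) ^ q := by
          apply Real.rpow_le_rpow (norm_nonneg _) _ hq.le
          rw [Real.norm_eq_abs]; exact hφ x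
      _ = C ^ q * (1 + ‖x‖) ^ (-((n : ℝ) * q)) := by
          rw [Real.div_rpow hC (by positivity), Real.rpow_neg hx.le, ← Real.rpow_natCast,
            ← Real.rpow_mul hx.le]
          rfl

/-! ### Hoelder -/

lemma holder {a b : ℝ} (ha : 0 < a) (hb : 0 < b) (hab : a + b = 8) :
    ENNReal.HolderTriple (ENNReal.ofReal (8 / a)) (ENNReal.ofReal (8 / b)) 1 := by
  refine ⟨?_⟩
  rw [← ENNReal.ofReal_inv_of_pos (by positivity), ← ENNReal.ofReal_inv_of_pos (by positivity),
    ← ENNReal.ofReal_add (by positivity) (by positivity), inv_one]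
  have h : (8 / a)⁻¹ + (8 / b)⁻¹ = 1 := by
    field_simp
    exact hab
  rw [h, ENNReal.ofReal_one]

lemma pair_le {a b : ℝ} (ha : 0 < a) (hb : 0 < b) (hab : a + b = 8) {F φ : E → ℝ}
    (hF : MemLp F (ENNReal.ofReal (8 / a)) volume) (hφ : MemLp φ (ENNReal.ofReal (8 / b)) volume)
    (D : ℝ) (hD : 0 ≤ D) (hFD : eLpNorm F (ENNReal.ofReal (8 / a)) volume ≤ ENNReal.ofReal D) :
    Integrable (fun x => F x * φ x) volume ∧
      |∫ x, F x * φ x| ≤ D * (eLpNorm φ (ENNReal.ofReal (8 / b)) volume).toReal := by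
  have := holder ha hb hab
  have hi : Integrable (fun x => F x * φ x) volume := hF.integrable_mul hφ
  refine ⟨hi, ?_⟩
  have h1 : |∫ x, F x * φ x| ≤ (eLpNorm (fun x => F x * φ x) 1 volume).toReal := by
    rw [eLpNorm_one_eq_lintegral_enorm, ← integral_norm_eq_lintegral_enorm hi.aestronglyMeasurable,
      ← Real.norm_eq_abs]
    exact norm_integral_le_integral_norm _
  have h2 : eLpNorm (fun x => F x * φ x) 1 volume ≤
      eLpNorm F (ENNReal.ofReal (8 / a)) volume * eLpNorm φ (ENNReal.ofReal (8 / b)) volume := by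
    have h := eLpNorm_smul_le_mul_eLpNorm (p := ENNReal.ofReal (8 / a))
      (q := ENNReal.ofReal (8 / b)) (r := 1) hφ.aestronglyMeasurable hF.aestronglyMeasurable
    exact h
  have h3 : eLpNorm (fun x => F x * φ x) 1 volume ≤
      ENNReal.ofReal D * eLpNorm φ (ENNReal.ofReal (8 / b)) volume :=
    le_trans h2 (mul_le_mul_left hFD _)
  have h4 : ENNReal.ofReal D * eLpNorm φ (ENNReal.ofReal (8 / b)) volume ≠ ⊤ :=
    ENNReal.mul_ne_top ENNReal.ofReal_ne_top hφ.eLpNorm_ne_top
  have h5 := ENNReal.toReal_mono h4 h3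
  rw [ENNReal.toReal_mul, ENNReal.toReal_ofReal hD] at h5
  exact le_trans h1 h5

/-! ### a nice function against a state whose fields vanish -/

lemma key (hPJ : St_PJ) (hDns : St_DnsP) (hFld : St_FldP) (hDec : St_DecX) (s : ℝ) (hs : |s| < 1 / 2)
    (h : S × ℝ → ℝ) (hh : Nice univ h) :
    ∃ f g φ1 φ2 : E → ℝ, SmE f ∧ SmE g ∧ φ1 = lap g ∧ φ2 = lap f ∧
      (∀ (y : E) (ρ : ℝ), (∀ z : S × ℝ, |z.2 - inner ℝ y (z.1 : E)| < ρ → h z = 0) →
        ∀ x, dist x y < ρ → f x = 0 ∧ g x = 0) ∧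
      ∀ k : K, inner ℝ k (JK s h) = c0 * ((∫ x, U s k x * φ1 x) - ∫ x, V s k x * φ2 x) := by
  have hs' := abs_lt.1 hs
  obtain ⟨f, g, hf, hg, ⟨C0, hC0⟩, hdual, hsupp, _⟩ := hDec h hh
  obtain ⟨C, hC, hF1, hF2, hF3⟩ := hFld s hs
  refine ⟨f, g, lap g, lap f, hf, hg, rfl, rfl, hsupp, ?_⟩
  have m1 : MemLp (lap g) (ENNReal.ofReal (8 / (7 + 2 * s))) volume := by
    apply memLp_decay (sm_lap hg).continuous (4 * C0) 4
    · intro x
      refine le_trans (lap_le hg x) ?_
      have := (hC0 2 (by norm_num) x).2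
      rw [mul_div_assoc]
      linarith
    · have : 0 < 7 + 2 * s := by linarith
      positivity
    · have : 0 < 7 + 2 * s := by linarith
      rw [← mul_div_assoc, lt_div_iff₀ this]
      norm_num
      linarith
  have m2 : MemLp (lap f) (ENNReal.ofReal (8 / (5 + 2 * s))) volume := by
    apply memLp_decay (sm_lap hf).continuous (4 * C0) 3
    · intro x
      refine le_trans (lap_le hf x) ?_
      have := (hC0 2 (by norm_num) x).1
      rw [mul_div_assoc]
      linarith
    · have : 0 < 5 + 2 * s := by linarith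
      positivity
    · have : 0 < 5 + 2 * s := by linarith
      rw [← mul_div_assoc, lt_div_iff₀ this]
      norm_num
      linarith
  -- integrability and bounds
  have b1 : ∀ k : K, Integrable (fun x => U s k x * lap g x) volume ∧
      |∫ x, U s k x * lap g x| ≤
        (C * ‖k‖) * (eLpNorm (lap g) (ENNReal.ofReal (8 / (7 + 2 * s))) volume).toReal := by
    intro k
    have h1 := (hF1 k).1.1
    have h2 := (hF1 k).2.1
    rw [q0] at h1 h2
    refine pair_le (by linarith) (by linarith) (by ring) h1 m1 (C * ‖k‖) (by positivity) ?_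
    rw [ENNReal.ofReal_mul hC.le, ofReal_norm]
    exact h2
  have b2 : ∀ k : K, Integrable (fun x => V s k x * lap f x) volume ∧
      |∫ x, V s k x * lap f x| ≤
        (C * ‖k‖) * (eLpNorm (lap f) (ENNReal.ofReal (8 / (5 + 2 * s))) volume).toReal := by
    intro k
    have h1 := (hF1 k).2.2.1.1
    have h2 := (hF1 k).2.2.2.1
    rw [q1] at h1 h2
    refine pair_le (by linarith) (by linarith) (by ring) h1 m2 (C * ‖k‖) (by positivity) ?_
    rw [ENNReal.ofReal_mul hC.le, ofReal_norm]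
    exact h2
  set n1 := (eLpNorm (lap g) (ENNReal.ofReal (8 / (7 + 2 * s))) volume).toReal with hn1
  set n2 := (eLpNorm (lap f) (ENNReal.ofReal (8 / (5 + 2 * s))) volume).toReal with hn2
  have hn10 : 0 ≤ n1 := ENNReal.toReal_nonneg
  have hn20 : 0 ≤ n2 := ENNReal.toReal_nonneg
  have hc0 : 0 < c0 := by
    rw [c0]; positivity
  -- the functional
  set T : K → ℝ := fun k => c0 * ((∫ x, U s k x * lap g x) - ∫ x, V s k x * lap f x) -
    inner ℝ k (JK s h) with hT
  have Tadd : ∀ k k' : K, T (k + k') = T k + T k' := by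
    intro k k'
    have h1 := (hF2 1 k k').1
    have h2 := (hF2 1 k k').2.1
    rw [one_smul] at h1 h2
    have e1 : ∫ x, U s (k + k') x * lap g x =
        (∫ x, U s k x * lap g x) + ∫ x, U s k' x * lap g x := by
      rw [← integral_add (b1 k).1 (b1 k').1]
      refine integral_congr_ae ?_
      filter_upwards [h1] with x hx
      rw [hx]; ring
    have e2 : ∫ x, V s (k + k') x * lap f x =
        (∫ x, V s k x * lap f x) + ∫ x, V s k' x * lap f x := by
      rw [← integral_add (b2 k).1 (b2 k').1]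
      refine integral_congr_ae ?_
      filter_upwards [h2] with x hx
      rw [hx]; ring
    simp only [hT]
    rw [e1, e2, inner_add_left]
    ring
  have Tbd : ∀ k : K, |T k| ≤ (c0 * (C * n1 + C * n2) + ‖JK s h‖) * ‖k‖ := by
    intro k
    have h1 := (b1 k).2
    have h2 := (b2 k).2
    have h3 : |inner ℝ k (JK s h)| ≤ ‖k‖ * ‖JK s h‖ := abs_real_inner_le_norm _ _
    have h4 : |(∫ x, U s k x * lap g x) - ∫ x, V s k x * lap f x| ≤
        (C * ‖k‖) * n1 + (C * ‖k‖) * n2 := le_trans (abs_sub _ _) (add_le_add h1 h2)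
    have h5 : |T k| ≤ c0 * |(∫ x, U s k x * lap g x) - ∫ x, V s k x * lap f x| +
        |inner ℝ k (JK s h)| := by
      simp only [hT]
      refine le_trans (abs_sub _ _) ?_
      rw [abs_mul, abs_of_pos hc0]
    have h6 := mul_le_mul_of_nonneg_left h4 hc0.le
    nlinarith
  have Ttest : ∀ a b : E → ℝ, IsTest a → IsTest b → T (Theta s a b) = 0 := by
    intro a b ha hb
    have h1 := (hF3 a b ha hb).1
    have h2 := (hF3 a b ha hb).2.1
    have e1 : ∫ x, U s (Theta s a b) x * lap g x = ∫ x, g x * lap a x := by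
      rw [ibp_lap hg ha]
      refine integral_congr_ae ?_
      filter_upwards [h1] with x hx
      rw [hx, mul_comm]
    have e2 : ∫ x, V s (Theta s a b) x * lap f x = ∫ x, f x * lap b x := by
      rw [ibp_lap hf hb]
      refine integral_congr_ae ?_
      filter_upwards [h2] with x hx
      rw [hx, mul_comm]
    have hPJh := (hPJ s hs).1 h hh
    have d1 := hdual (lap a) (test_lap ha)
    have d2 := hdual (lap b) (test_lap hb)
    have p1 := (hPJh.2.2.2.2.2.2.2.2 (lap a) (sch (test_lap ha))).2.1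
    have p2 := (hPJh.2.2.2.2.2.2.2.2 (lap b) (sch (test_lap hb))).1
    simp only [hT]
    rw [e1, e2, d1.2, d2.1, Theta, real_inner_comm, inner_smul_right, inner_sub_right, p1, p2]
    ring
  intro k
  have hTk : T k = 0 := by
    by_contra hne
    have hpos : 0 < |T k| := abs_pos.2 hne
    set D := c0 * (C * n1 + C * n2) + ‖JK s h‖ with hD
    have hD0 : 0 ≤ D := by positivity
    obtain ⟨a, b, ha, hb, hab⟩ := (hDns s (by linarith) (by linarith)).2.1 k (|T k| / (D + 1)) (by positivity)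
    have h1 : T k = T (Theta s a b) + T (k - Theta s a b) := by
      rw [← Tadd]
      congr 1
      abel
    rw [Ttest a b ha hb, zero_add] at h1
    have h2 := Tbd (k - Theta s a b)
    rw [← h1] at h2
    have h3 : D * ‖k - Theta s a b‖ ≤ D * (|T k| / (D + 1)) := mul_le_mul_of_nonneg_left hab.le hD0
    have h4 : D * (|T k| / (D + 1)) < |T k| := by
      rw [← mul_div_assoc, div_lt_iff₀ (by positivity)]
      nlinarith
    linarith
  simp only [hT] at hTk
  linarith

lemma lap_zero_open {f : E → ℝ} {Ω : Set E} (hΩ : IsOpen Ω) (hf : ∀ x ∈ Ω, f x = 0) :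
    ∀ x ∈ Ω, lap f x = 0 := by
  have pd0 : ∀ (u : E → ℝ) (i : Fin 4), (∀ x ∈ Ω, u x = 0) → ∀ x ∈ Ω, pd i u x = 0 := by
    intro u i hu x hx
    have h1 : u =ᶠ[𝓝 x] fun _ => 0 := by
      filter_upwards [hΩ.mem_nhds hx] with z hz
      exact hu z hz
    rw [pd, h1.fderiv_eq]
    simp
  intro x hx
  exact Finset.sum_eq_zero fun i _ => pd0 _ i (pd0 f i hf) x hx

lemma ts_le (hPJ : St_PJ) (hDns : St_DnsP) (hFld : St_FldP) (hEx : St_ExBP) (hDec : St_DecX)
    (s : ℝ) (hs : |s| < 1 / 2) (y : E) (ρ : ℝ) :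
    PS s {z | ρ < |z.2 - inner ℝ y (z.1 : E)|} ≤ TS s (xt y ρ) := by
  have hcl : IsClosed (TS s (xt y ρ) : Set K) := Submodule.isClosed_topologicalClosure _
  refine Submodule.topologicalClosure_minimal _ ?_ hcl
  rw [Submodule.span_le]
  rintro w ⟨h, hn, rfl⟩
  have hnu : Nice univ h := by
    obtain ⟨g, hg1, hg2, hg3, _⟩ := hn
    exact ⟨g, hg1, hg2, hg3, subset_univ _⟩
  have hz : ∀ z : S × ℝ, |z.2 - inner ℝ y (z.1 : E)| < ρ → h z = 0 := by
    intro z hz
    by_contra hne
    obtain ⟨g, _, _, _, hg4⟩ := hn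
    have : z ∈ closure {z | h z ≠ 0} := subset_closure hne
    have h2 := hg4 this
    simp only [mem_ofPred_eq] at h2
    linarith
  obtain ⟨f, g, φ1, φ2, hf, hg, h1, h2, hsupp, hkey⟩ := key hPJ hDns hFld hDec s hs h hnu
  have hopen : IsOpen (xt y ρ) := by
    show IsOpen {x | ρ < dist x y}
    exact isOpen_lt continuous_const (continuous_id.dist continuous_const)
  rw [SetLike.mem_coe, ← Submodule.orthogonal_orthogonal (TS s (xt y ρ)), Submodule.mem_orthogonal]
  intro k hk
  have hV : Van s (xt y ρ) k := hk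
  obtain ⟨hu, hv⟩ := ((hEx s hs).2.2.2.2.2.2.1 (xt y ρ) k hopen).1 hV
  have hball : IsOpen (Metric.ball y ρ) := Metric.isOpen_ball
  have hf0 : ∀ x ∈ Metric.ball y ρ, f x = 0 := fun x hx => (hsupp y ρ hz x (Metric.mem_ball.1 hx)).1
  have hg0 : ∀ x ∈ Metric.ball y ρ, g x = 0 := fun x hx => (hsupp y ρ hz x (Metric.mem_ball.1 hx)).2
  have hφ1 : ∀ x ∈ Metric.ball y ρ, φ1 x = 0 := by
    rw [h1]; exact lap_zero_open hball hg0
  have hφ2 : ∀ x ∈ Metric.ball y ρ, φ2 x = 0 := by
    rw [h2]; exact lap_zero_open hball hf0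
  have hsph : ∀ᵐ x : E, x ∉ Metric.sphere y ρ := by
    rw [ae_iff]
    simp only [not_not, ofPred_mem_eq]
    exact Measure.addHaar_sphere _ _ _
  have cases : ∀ x : E, x ∉ Metric.sphere y ρ → x ∈ Metric.ball y ρ ∨ x ∈ xt y ρ := by
    intro x hx
    rcases lt_trichotomy (dist x y) ρ with h | h | h
    · exact Or.inl h
    · exact absurd h hx
    · exact Or.inr h
  have e1 : ∫ x, U s k x * φ1 x = 0 := by
    rw [← integral_zero E ℝ (μ := volume)]
    refine integral_congr_ae ?_
    filter_upwards [hsph, hu] with x hx1 hx2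
    rcases cases x hx1 with h | h
    · rw [hφ1 x h, mul_zero]
    · rw [hx2 h, zero_mul]
  have e2 : ∫ x, V s k x * φ2 x = 0 := by
    rw [← integral_zero E ℝ (μ := volume)]
    refine integral_congr_ae ?_
    filter_upwards [hsph, hv] with x hx1 hx2
    rcases cases x hx1 with h | h
    · rw [hφ2 x h, mul_zero]
    · rw [hx2 h, zero_mul]
  rw [hkey k, e1, e2]
  ring

end L8Px

open L8Px in
/-- **L8P** (exterior locality). -/
theorem thm_L8P (hPJ : St_PJ) (hDns : St_DnsP) (hFld : St_FldP) (hEx : St_ExBP) (hDec : St_DecX) :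
    St_L8P := by
  intro s y ρ k hs _
  have hle := ts_le hPJ hDns hFld hEx hDec s hs y ρ
  have h1 : na s {z | ρ < |z.2 - inner ℝ y (z.1 : E)|} k ≤ ex s (xt y ρ) k := by
    rw [na, ex, pr]
    have h2 := Submodule.starProjection_comp_starProjection_of_le hle
    have h3 : (PS s {z | ρ < |z.2 - inner ℝ y (z.1 : E)|}).starProjection k =
        (PS s {z | ρ < |z.2 - inner ℝ y (z.1 : E)|}).starProjection
          ((TS s (xt y ρ)).starProjection k) := by
      rw [← ContinuousLinearMap.comp_apply, h2]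
    rw [h3]
    exact Submodule.norm_starProjection_apply_le _ _
  refine ⟨h1, fun hV => ?_⟩
  have h4 : ex s (xt y ρ) k = 0 := ((hEx s hs).2.2.2.1 (xt y ρ) k).1 hV
  rw [h4] at h1
  exact le_antisymm h1 (norm_nonneg _)

end Pool.Agent.QWF
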