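import Pool.Agent.QWF.DefsM

set_option autoImplicit false

/-!
# QWF, block M: the nonlinearity, by the dual Sobolev inequality (`d = 4`, `b > 4`)

Port of the case `b ≤ 4` of `QWP/StM.lean`. `s = sig b = 1/2 - 2/b ∈ (0, 1/2)`, `F = Fn b`. Exponents: `1/q0 = 1/(2b)`, `1/q1 = 1/4 + 1/(2b)`,
`1/q2 = 1/2 + 1/(2b)`; `sn b k` is the norm of `u = U (sig b) k` in `L^{4b}`. The norm of a source is bounded by its gradient in `L^{q2}`; `1/4 + 1/q1 = 1/q2`.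
-/

open MeasureTheory Filter Topology Set
open scoped ENNReal NNReal RealInnerProductSpace

namespace Pool.Agent.QWF

/-- **SoD** (dual Sobolev bound for test sources). Proof as QWP.SoD. Hs: `hs (1/2+s) F = Σ_i hs (s-1/2) (∂_i F)`; SobP (dual part) with `a = 1/2 - s`: `hs (s-1/2) f ≤ C ‖f‖²_{8/(4+2a)}`, `8/(4+2a) = 8/(5-2s)`. -/
def St_SoD : Prop := ∀ s : ℝ, 0 < s → s < 1 / 2 → ∃ C : ℝ, 0 < C ∧ ∀ F : E → ℝ, IsTest F →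
  ENNReal.ofReal ((hs (1 / 2 + s) F) ^ (1 / 2 : ℝ)) ≤
    ENNReal.ofReal C * ∑ i, eLpNorm (pd i F) (q2 s) volume

/-- **ApW** (approximation of functions with weak derivatives by test functions). Proof as the first part of QWP.ApW (`1/q2 = 1/4 + 1/q1`, `‖∂_i χ_M‖_4` does not depend on `M`). -/
def St_ApW : Prop := ∀ s : ℝ, 0 < s → s < 1 / 2 →
  ∀ (F : E → ℝ) (G : Fin 4 → E → ℝ), MemLp F (q1 s) volume → (∀ i, MemLp (G i) (q2 s) volume ∧ WD i F (G i)) →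
    ∃ f : ℕ → E → ℝ, (∀ n, IsTest (f n)) ∧ Tendsto (fun n => eLpNorm (fun x => f n x - F x) (q1 s) volume) atTop (𝓝 0) ∧
      ∀ i, Tendsto (fun n => eLpNorm (fun x => pd i (f n) x - G i x) (q2 s) volume) atTop (𝓝 0)

/-- **GamQ** (sources). Proof as QWP.GamQ (ApW, SoD, Ft, GamP): `|∫ F φ| ≤ (hs (1/2+s) F)^{1/2} (hs (-1/2-s) φ)^{1/2}`. -/
def St_GamQ : Prop := ∀ s : ℝ, 0 < s → s < 1 / 2 → ∃ C : ℝ, 0 < C ∧ ∀ (F : E → ℝ) (G : Fin 4 → E → ℝ),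
  MemLp F (q1 s) volume → (∀ i, MemLp (G i) (q2 s) volume ∧ WD i F (G i)) →
  IsGam s F (Gam s F) ∧ ‖Gam s F‖ₑ ≤ ENNReal.ofReal C * ∑ i, eLpNorm (G i) (q2 s) volume

/-- **DenX** (test states are dense also for `sn`). Proof as QWP.DenX. -/
def St_DenX : Prop := ∀ (b : ℝ) (k : K) (ε : ℝ), 4 < b → sn b k < ⊤ → 0 < ε → ∃ f g : E → ℝ,
  IsTest f ∧ IsTest g ∧ ‖k - Theta (sig b) f g‖ < ε ∧ sn b (k - Theta (sig b) f g) < ENNReal.ofReal ε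

/-- **NLg** (weak gradient of `F(u)`). Proof as QWP.NLg: `u ∈ L^{2b} ∩ L^{4b}`: `2b ≤ (b+1) q1 = 4b(b+1)/(b+2) ≤ 4b`, `|u|^b DU_i ∈ L^{q2}` (`1/4 + 1/q1 = 1/q2`). -/
def St_NLg : Prop := ∀ (b : ℝ) (k : K), 4 < b → sn b k < ⊤ →
  MemLp (fun x => Fn b (U (sig b) k x)) (q1 (sig b)) volume ∧
  ∀ i, MemLp (fun x => (b + 1) * |U (sig b) k x| ^ b * DU (sig b) k i x) (q2 (sig b)) volume ∧
    WD i (fun x => Fn b (U (sig b) k x)) (fun x => (b + 1) * |U (sig b) k x| ^ b * DU (sig b) k i x)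

/-- **NLd** (bounds for the nonlinearity, refined). Proof as QWP.NLd, case `b ≤ 4` there (first derivatives only). -/
def St_NLd : Prop := ∀ b : ℝ, 4 < b → ∃ C : ℝ, 0 < C ∧
  (∀ k : K, tn b k ≤ ENNReal.ofReal C * ‖k‖ₑ) ∧
  (∀ k : K, ‖NL b k‖ₑ ≤ ENNReal.ofReal C * sn b k ^ b * ‖k‖ₑ) ∧
  (∀ k k' : K, sn b k < ⊤ → sn b k' < ⊤ → ‖NL b k - NL b k'‖ₑ ≤ ENNReal.ofReal C *
    ((sn b k + sn b k') ^ (b - 1) * sn b (k - k') * (‖k‖ₑ + ‖k'‖ₑ) + (sn b k + sn b k') ^ b * tn b (k - k'))) ∧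
  ∀ k : K, sn b k < ⊤ → IsGam (sig b) (fun x => Fn b (U (sig b) k x)) (NL b k) ∧
    (U (sig b) (NL b k) =ᵐ[volume] 0) ∧ (V (sig b) (NL b k) =ᵐ[volume] fun x => Fn b (U (sig b) k x))

end Pool.Agent.QWF
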