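import Pool.Agent.QWF.DefsG
import Pool.Agent.QWF.StM

set_option autoImplicit false

/-!
# QWF, block G: Part II, compactness (`d = 4`, `b > 4`)

Port of `QWP/StG.lean` (all modules are proved in `Pool/Agent/QWP` resp. `Pool/Agent/QWE`). Every `St_X` is to be proved as `theorem thm_X : St_X`
(with other statements of QWF as hypotheses) in `Pool/Agent/QWF/X.lean`. `s = sig b = 1/2 - 2/b ∈ (0, 1/2)`; `u = U s k ∈ L^{q0}`, `q0 = 2b`;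
`∇u ∈ L^{q1}`, `1/q1 = (b+2)/(4b)`; `1/q2 = (b+1)/(2b)`. `SN b` is the `b`-TH power of the norm of `L^b L^{4b}`. Differences to `d = 5`: only one case in the interaction
(first derivatives), the nonlinearity is paired with the test states `Rs s φ + dRs s ψ` (`⟨NL b k, Rs s φ + dRs s ψ⟩ = ∫ F(u) ψ`, NLw; `tau` preserves this class, FreX),
and the decay of the pairing (G7) is replaced by a bound with the Strichartz size. The statements of blocks B, C (StB.lean, StC.lean) may be used as hypotheses.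
-/

open MeasureTheory Filter Topology Set
open scoped ENNReal NNReal RealInnerProductSpace

namespace Pool.Agent.QWF

/-! ### Bubbles -/

/-- **RSobK** (refined Sobolev inequality on `K`). Copy QWP/RSobK.lean, from RSob with `a = 3/2 + s` (`2 - a = 1/2 - s`, `8/(4-2a) = 8/(1-2s) = q0`), ActP, FldP, DnsP, IsoP. `4a/((4-2a) q0) = a/2 = 1 - (1-2s)/4`, `2/q0 = (1-2s)/4`. -/
def St_RSobK : Prop := ∀ (s : ℝ) (ψ : E → ℝ), |s| < 1 / 2 → IsPsi ψ → ∃ C : ℝ, 0 < C ∧ ∀ (k : K) (B : ℝ), 0 ≤ B →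
  (∀ (y : E) (l : ℝ), |inner ℝ (ig y l k) (Rs s ψ)| ≤ B) →
  eLpNorm (U s k) (q0 s) volume ≤
    ENNReal.ofReal (C * B ^ (1 - (1 - 2 * s) / 4) * ‖k‖ ^ ((1 - 2 * s) / 4))

/-- **PsiNZP** (the bubble functionals separate points). Copy QWP/PsiNZP.lean. -/
def St_PsiNZP : Prop := ∀ (s : ℝ) (ψ : E → ℝ), |s| < 1 / 2 → IsPsi ψ → ∀ k : K,
  (∀ (y : E) (l : ℝ), inner ℝ (ig y l k) (Rs s ψ) = 0 ∧ inner ℝ (ig y l k) (dRs s ψ) = 0) → k = 0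

/-- **G2** (concentration). Copy QWP/G2.lean; second pair `(b+2)/2`, `r' = b(b+2)`: `1/(4b) = θ/q0 + (1-θ)/r'`, `θ = (b-2)/(2b)`, so again `‖u‖_{4b}^b ≤ ‖u‖_{q0}^{(b-2)/2} ‖u‖_{r'}^{(b+2)/2}`. -/
def St_G2 : Prop := ∀ b : ℝ, 4 < b → ∀ ψ : E → ℝ, IsPsi ψ → ∀ A : ℝ, ∃ c : ℝ, 0 < c ∧
  ∀ (t0 t1 : ℝ) (k : ℝ → K), IsSol b (Icc t0 t1) k → (∀ t ∈ Icc t0 t1, ‖k t‖ ≤ A) → SN b (Icc t0 t1) k = 1 →
  ∃ t ∈ Icc t0 t1, ∃ (y : E) (l : ℝ), c ≤ |inner ℝ (ig y l (k t)) (Rs (sig b) ψ)|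

/-! ### Test states for the nonlinearity -/

/-- **Dns2** (density). First claim: TS s univ = ⊤ (DnsP) and LinJ (the set is a submodule; closure). Second claim: Dns0: it is enough to approximate `Rs s ψ`, `dRs s ψ` with Schwartz `ψ`, `ft ψ ∈ C_c^∞(E∖0)`; `ψ = lap f`, `f` Schwartz (FtI, Ft; functions with the same `ft` are equal), `f_m = χ(·/m) f` test functions;
`c0 ‖Rs s (lap (f - f_m))‖² = hs (-3/2-s) (lap (f - f_m)) = hs (1/2-s) (f - f_m) → 0`, `c0 ‖dRs s (..)‖² = hs (3/2-s) (f - f_m) → 0` (IsoP; `hs a (lap f) = hs (a+2) f`, see QWP/Dns2.lean; Hs, interpolation; cut-off as in QWP/DnsP.lean, QWP/Dns2.lean). -/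
def St_Dns2 : Prop := ∀ s : ℝ, |s| < 1 / 2 → ∀ (k : K) (ε : ℝ), 0 < ε →
  (∃ φ ψ : E → ℝ, IsTest φ ∧ IsTest ψ ∧ ‖k - (Rs s φ + dRs s ψ)‖ < ε) ∧
  ∃ φ ψ : E → ℝ, IsTest φ ∧ IsTest ψ ∧ ‖k - (Rs s (lap φ) + dRs s (lap ψ))‖ < ε

/-- **Dcy** (decay of test states). Proof. `f1, f2` from FreX for `φ` (second part) and the same for `lap φ`: the functions for `lap φ` are `lap f1`, `lap f2`, because of the formulas for `ft f1`, `ft f2` (`ft (lap f) = -(2π|ξ|)² ft f`, Ft; continuous integrable `ft` determines the function).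
Sup bounds and supports: let `(f', g')` be the pair of DecayP for the data `(0, φ)`: `f1 = g'`, `f2 = - f'` (test `tau t (Theta s 0 φ) = Theta s f' g'` with `Rs s ψ`, `dRs s ψ`, use FreX for `ψ` and `-t`, the Fourier formulas and Parseval (Ft): `∫ f' ψ = ∫ φ f2^{ψ,-t} = - ∫ f2 ψ`, `∫ g' ψ = ∫ φ f1^{ψ,-t} = ∫ f1 ψ`; or compare with WvS).
`L²` bounds: `Σ_i ∫ (∂_i f1)² = hs 1 f1 ≤ hs 1 φ`, `Σ_i ∫ (∂_i f2)² = hs 1 f2 ≤ hs 0 φ` (Hs, Fourier formulas). -/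
def St_Dcy : Prop := ∀ φ : E → ℝ, IsTest φ → ∃ C M0 : ℝ, 0 < C ∧ 1 ≤ M0 ∧
  ∀ t : ℝ, ∃ f1 f2 : E → ℝ, IsTest f1 ∧ IsTest f2 ∧
    (∀ s : ℝ, -1 / 2 ≤ s → s < 1 / 2 →
      tau t (Rs s φ) = Rs s f1 + dRs s f2 ∧ tau t (dRs s φ) = Rs s (lap f2) + dRs s f1 ∧
      tau t (Rs s (lap φ)) = Rs s (lap f1) + dRs s (lap f2) ∧
      tau t (dRs s (lap φ)) = Rs s (lap (lap f2)) + dRs s (lap f1)) ∧
    (∀ x, |t| + M0 ≤ ‖x‖ → f1 x = 0 ∧ f2 x = 0) ∧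
    (∀ x, ∀ n ≤ 3, ‖iteratedFDeriv ℝ n f1 x‖ ≤ C / (1 + |t|) ^ (3 / 2 : ℝ) ∧
      ‖iteratedFDeriv ℝ n f2 x‖ ≤ C / (1 + |t|) ^ (3 / 2 : ℝ)) ∧
    ∀ i, ∫ x, pd i f1 x ^ 2 ≤ C ∧ ∫ x, pd i f2 x ^ 2 ≤ C

/-! ### Weak convergence -/

/-- **WkS** (weak convergence in the separable Hilbert space `K`). Copy QWE/WkS.lean. -/
def St_WkS : Prop :=
  (∀ (k : ℕ → K) (A : ℝ), (∀ n, ‖k n‖ ≤ A) → ∃ φ : ℕ → ℕ, StrictMono φ ∧ ∃ k' : K, ‖k'‖ ≤ A ∧ WTo (k ∘ φ) k') ∧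
  (∀ (k : ℕ → K) (k' : K), WTo k k' → ∃ A, ∀ n, ‖k n‖ ≤ A) ∧
  (∀ (k : ℕ → K) (k' : K) (A : ℝ), WTo k k' → (∀ n, ‖k n‖ ≤ A) → ‖k'‖ ≤ A) ∧
  (∀ (k : ℕ → K) (k' : K) (φ : ℕ → ℕ), WTo k k' → StrictMono φ → WTo (k ∘ φ) k') ∧
  (∀ (k : ℕ → K) (k' k'' : K), WTo k k' → WTo k k'' → k' = k'') ∧
  (∀ (k : ℕ → K) (k' : K), Tendsto k atTop (𝓝 k') → WTo k k') ∧
  (∀ (k : ℕ → K) (k' : K), WTo k k' → Tendsto (fun n => ‖k n‖) atTop (𝓝 ‖k'‖) → Tendsto k atTop (𝓝 k')) ∧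
  (∀ (k : ℕ → K) (k' : K) (A : ℝ) (D : Set K), Dense D → (∀ n, ‖k n‖ ≤ A) →
    (∀ w ∈ D, Tendsto (fun n => inner ℝ (k n) w) atTop (𝓝 (inner ℝ k' w))) → WTo k k') ∧
  (∀ (k : ℕ → K) (k' : K), ¬ WTo k k' → ∃ (w : K) (ε : ℝ) (φ : ℕ → ℕ), 0 < ε ∧ StrictMono φ ∧
    ∀ n, ε ≤ |inner ℝ (k (φ n)) w - inner ℝ k' w|)

/-- **WkC** (weak compactness of equicontinuous curves). Copy QWE/WkC.lean. -/
def St_WkC : Prop := ∀ (A M : ℝ) (β : ℕ → ℝ → K) (D : Set K), 0 ≤ M → Dense D →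
  (∀ n, ∀ t ∈ Icc 0 M, ‖β n t‖ ≤ A) →
  (∀ w ∈ D, ∀ ε : ℝ, 0 < ε → ∃ δ : ℝ, 0 < δ ∧ ∀ n, ∀ s ∈ Icc 0 M, ∀ t ∈ Icc 0 M, |s - t| ≤ δ →
    |inner ℝ (β n s) w - inner ℝ (β n t) w| ≤ ε) →
  ∃ (φ : ℕ → ℕ) (k : ℝ → K), StrictMono φ ∧
    (∀ t ∈ Icc 0 M, ‖k t‖ ≤ A ∧ WTo (fun n => β (φ n) t) (k t)) ∧
    ∀ w, ContinuousOn (fun t => inner ℝ (k t) w) (Icc 0 M)

/-- **NLc** (weak continuity of the nonlinearity). Hypotheses WkP, NLw, FldP, LscP, Dcy, WkS. As QWP.NLc. First: the same. Second: NLw, `⟨NL b k, Rs s φ + dRs s ψ⟩ = ∫ F(u) ψ`; `|F(u_n) - F(u)| ≤ C |u_n - u| (|u_n| + |u|)^b`, `(|u_n| + |u|)^b` is bounded in `L²` (`q0 = 2b`) and `u_n → u` in `L²(B)`.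
Third: `tau r (Rs s φ + dRs s ψ) = Rs s (..) + dRs s (f2 + f1')` (Dcy for `φ` and `ψ`), `|f2 + f1'| ≤ C`, supported in a fixed ball for `|r| ≤ M`, `∫_B |u|^{b+1} ≤ C ‖u‖_{q0}^{b+1}` (`b + 1 ≤ 2b`). -/
def St_NLc : Prop := ∀ b : ℝ, 4 < b →
  (∀ (k : ℕ → K) (k' : K), WTo k k' → sn b k' ≤ liminf (fun n => sn b (k n)) atTop) ∧
  (∀ (k : ℕ → K) (k' : K) (φ ψ : E → ℝ), IsTest φ → IsTest ψ → WTo k k' → (∀ n, sn b (k n) < ⊤) → sn b k' < ⊤ →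
    Tendsto (fun n => inner ℝ (NL b (k n)) (Rs (sig b) φ + dRs (sig b) ψ)) atTop
      (𝓝 (inner ℝ (NL b k') (Rs (sig b) φ + dRs (sig b) ψ)))) ∧
  (∀ (φ ψ : E → ℝ) (M : ℝ), IsTest φ → IsTest ψ → ∃ C : ℝ, 0 < C ∧ ∀ (r : ℝ) (k : K), |r| ≤ M → sn b k < ⊤ →
    |inner ℝ (NL b k) (tau r (Rs (sig b) φ + dRs (sig b) ψ))| ≤ C * ‖k‖ ^ (b + 1))

/-- **G5** (weak nullity for bounded times). Hypotheses WkS, WkC, NLc, NLb, Meas, Uniq, DuhI, FreX, Dns2, Grp1, SnP, LinJ. Copy QWP/G5.lean with the dense class `Rs s φ + dRs s ψ` (Dns2, first claim; `tau t` preserves the class: FreX, LinJ). -/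
def St_G5 : Prop := ∀ b : ℝ, 4 < b → ∀ (A M : ℝ) (T : ℕ → ℝ) (β : ℕ → ℝ → K), BetaSeq b A M T β →
  ∀ t : ℝ, 0 ≤ t → WTo (fun n => if t ≤ T n then β n t else 0) 0

/-- **G7** (smallness of the pairing for large times). Hypotheses Dcy, NLg, NLw, FldP. Proof. `tau r (Rs s (lap φ) + dRs s (lap ψ)) = Rs s (..) + dRs s (lap f2 + lap f1')` (`f2` for `φ`, `f1'` for `ψ`, Dcy), so the pairing is `∫ F(u) lap f2 + ∫ F(u) lap f1'` (NLw) `= - Σ_i ∫ (b+1) |u|^b DU_i (∂_i f2 + ∂_i f1')` (NLg: `WD i` with the test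
functions `∂_i f2`, `∂_i f1'`). Hoelder: `‖|u|^b DU_i‖_{q2} ≤ sn^b ‖DU_i‖_{q1} ≤ C sn^b ‖k‖`, dual exponent `y = 2b/(b-1) > 2`; `‖∂_i f‖_y^y ≤ (sup |∂_i f|)^{y-2} ∫ (∂_i f)² ≤ C (1+r)^{-(3/2)(y-2)}`, which tends to `0`. -/
def St_G7 : Prop := ∀ b : ℝ, 4 < b → ∀ φ ψ : E → ℝ, IsTest φ → IsTest ψ → ∀ ε : ℝ, 0 < ε → ∃ R0 : ℝ,
  ∀ (k : K) (r : ℝ), R0 ≤ r → sn b k < ⊤ →
  ‖(inner ℝ (NL b k) (tau r (Rs (sig b) (lap φ) + dRs (sig b) (lap ψ))) : ℝ)‖ₑ ≤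
    ENNReal.ofReal ε * sn b k ^ b * ‖k‖ₑ

/-- **G8** (weak nullity for all times, interaction picture). Hypotheses G5, G7, NLc, NLb, Meas, Dns2, FreX, Grp1, SnP, LinJ, WkS. As QWP.G8 with the dense class `Rs s (lap φ) + dRs s (lap ψ)` (Dns2, second claim). The tail: `∫_{M'}^{t n} |⟨NL b (β n r), tau r κ⟩| dr ≤ ε ∫ sn^b ‖β n r‖ ≤ ε M A` for `M' ≥ R0(ε)` (G7). -/
def St_G8 : Prop := ∀ b : ℝ, 4 < b → ∀ (A M : ℝ) (T t : ℕ → ℝ) (β : ℕ → ℝ → K) (C1 : Set K) (c : ℕ → K),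
  BetaSeq b A M T β → (∀ n, t n ∈ Icc 0 (T n)) → IsCompact C1 → (∀ n, c n ∈ C1) →
  Tendsto (fun n => inner ℝ (tau (-(t n)) (β n (t n))) (c n)) atTop (𝓝 0)

/-! ### Interaction -/

/-- **LocC** (the local size). Copy QWP/LocC.lean, without second derivatives (`q0, q1 ≥ 2`; FldP, WkP). -/
def St_LocC : Prop := ∀ b m : ℝ, 4 < b → (∃ C : ℝ, 0 < C ∧ ∀ k k' : K, loc b m k ≤ ENNReal.ofReal C * ‖k‖ₑ ∧
    loc b m (k + k') ≤ loc b m k + loc b m k') ∧ (Continuous fun k : K => loc b m k) ∧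
  ∀ k : ℕ → K, WTo k 0 → Tendsto (fun n => loc b m (k n)) atTop (𝓝 0)

/-- **G9** (local smallness). Copy QWP/G9.lean. -/
def St_G9 : Prop := ∀ b : ℝ, 4 < b → ∀ (A M m R p : ℝ) (T : ℕ → ℝ) (β : ℕ → ℝ → K), BetaSeq b A M T β → 0 < p →
  Tendsto (fun n => ∫⁻ t in Icc 0 (min R (T n)), loc b m (β n t) ^ p) atTop (𝓝 0)

/-- **G10** (dispersion). Copy QWP/G10.lean, first derivatives only: `‖∂_i f'‖_{q1} ≤ C (1+|t|)^{-3/2} (1+|t|)^{4/q1}` (DecayP; support in a ball of radius `|t| + M0`), `4/q1 = 1 + 2/b < 3/2`. -/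
def St_G10 : Prop := ∀ b : ℝ, 4 < b → (∀ k k' : K, tn b (k + k') ≤ tn b k + tn b k') ∧
  ∀ (k : ℝ → K) (kp : K), Tendsto (fun t => tau (-t) (k t)) atTop (𝓝 kp) → Tendsto (fun t => tn b (k t)) atTop (𝓝 0)

/-- **MolK** (regularisation). Copy QWP/MolK.lean (`1/z = 1 - 1/(4b)`). -/
def St_MolK : Prop := ∀ b : ℝ, 4 < b → ∃ P : ℕ → K →L[ℝ] K, (∀ k, Tendsto (fun n => P n k) atTop (𝓝 k)) ∧
  (∀ n k, ‖P n k‖ ≤ ‖k‖) ∧ (∀ n k, sn b (P n k) ≤ sn b k) ∧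
  (∀ n, ∃ C : ℝ, 0 < C ∧ ∀ k, sn b (P n k) ≤ ENNReal.ofReal C * ‖k‖ₑ) ∧
  ∀ k, sn b k < ⊤ → Tendsto (fun n => sn b (k - P n k)) atTop (𝓝 0)

/-- **ApxP** (approximation along a solution by finitely many test states). Copy QWP/ApxP.lean. -/
def St_ApxP : Prop := ∀ b : ℝ, 4 < b → ∀ (J : Set ℝ) (a : ℝ → K), ASol b J a → ∀ ε : ℝ, 0 < ε →
  ∃ (m : ℝ) (N : ℕ) (j : ℝ → ℕ) (f g : ℕ → E → ℝ), 0 ≤ m ∧ Measurable j ∧ (∀ t, j t ≤ N) ∧ (∀ t, m < t → j t = 0) ∧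
    (∀ i, IsTest (f i) ∧ IsTest (g i)) ∧ (∀ x, f 0 x = 0 ∧ g 0 x = 0) ∧
    (∀ t ∈ J, ‖Theta (sig b) (f (j t)) (g (j t))‖ ≤ ‖a t‖ + ε) ∧
    (∀ t ∈ J, tn b (a t - Theta (sig b) (f (j t)) (g (j t))) ≤ ENNReal.ofReal ε) ∧
    ∫⁻ t in J, sn b (a t - Theta (sig b) (f (j t)) (g (j t))) ^ b ≤ ENNReal.ofReal ε

/-- **LocI** (interpolation on a ball, for functions). Copy QWP/LocI.lean. -/
def St_LocI : Prop := ∀ (m r q : ℝ), 0 ≤ m → 1 ≤ r → r < q → 2 ≤ q → ∃ C θ : ℝ, 0 < C ∧ 0 < θ ∧ θ ≤ 1 ∧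
  ∀ w : E → ℝ, AEStronglyMeasurable w volume →
    eLpNorm ((Metric.ball (0 : E) m).indicator w) (ENNReal.ofReal r) volume ≤ ENNReal.ofReal C *
      eLpNorm ((Metric.ball (0 : E) m).indicator w) 2 volume ^ θ *
      eLpNorm w (ENNReal.ofReal q) volume ^ (1 - θ)

/-- **Qst** (interaction with a fixed test state). Copy QWP/QstA.lean (the case `b ≤ 4` there; here for all `b > 4`): in `L^{q2}`, `q2 = 2b/(b+1) < 2`: `b q2 < q0 = 2b`; `‖1_B |w|^{b-1} DU_i‖_{q2} ≤ sn^{b-1} ‖1_B DU_i‖_y`, `1/y = 1/q2 - (b-1)/(4b) = 1/4 + 3/(4b) > 1/q1 = 1/4 + 1/(2b)`. -/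
def St_Qst : Prop := ∀ b : ℝ, 4 < b → ∀ f g : E → ℝ, IsTest f → IsTest g → ∃ C θ m N : ℝ, 0 < C ∧ 0 < θ ∧ 0 ≤ m ∧
  0 ≤ N ∧ ∀ k' : K, sn b k' < ⊤ →
  ‖NL b (Theta (sig b) f g + k') - NL b (Theta (sig b) f g) - NL b k'‖ₑ ≤
    ENNReal.ofReal C * loc b m k' ^ θ * (1 + sn b k') ^ (b - 1) * (1 + ‖k'‖ₑ) ^ N

/-- **G11** (interaction vanishes). Copy QWP/G11.lean (with Qst in place of QstA, QstB). -/
def St_G11 : Prop := ∀ b : ℝ, 4 < b → ∀ (A M : ℝ) (J : Set ℝ) (a : ℝ → K) (T : ℕ → ℝ) (β : ℕ → ℝ → K), ASol b J a →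
  BetaSeq b A M T β → (∀ n, T n ∈ J) →
  Tendsto (fun n => ∫⁻ t in Icc 0 (T n), ‖NL b (a t + β n t) - NL b (a t) - NL b (β n t)‖ₑ) atTop (𝓝 0)

/-- **Dec** (decoupling). Copy QWP/Dec.lean. -/
def St_Dec : Prop := ∀ b : ℝ, 4 < b → ∀ (A M : ℝ) (J : Set ℝ) (a : ℝ → K) (T t : ℕ → ℝ) (β k : ℕ → ℝ → K), ASol b J a →
  BetaSeq b A M T β → (∀ n, T n ∈ J) → (∀ n, t n ∈ Icc 0 (T n)) → (∀ n, IsSol b (Icc 0 (T n)) (k n)) →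
  (∀ n, k n 0 = a 0 + β n 0) →
  Tendsto (fun n => k n (t n) - a (t n) - β n (t n)) atTop (𝓝 0) ∧
  Tendsto (fun n => (inner ℝ (a (t n)) (β n (t n)) : ℝ)) atTop (𝓝 0) ∧
  ∃ B : ℝ, ∀ᶠ n in atTop, SN b (Icc 0 (T n)) (k n) ≤ ENNReal.ofReal B

/-! ### The compactness theorem -/

/-- **SNc** (elementary facts on solutions and `SN`). Copy QWP/SNc.lean. -/
def St_SNc : Prop := ∀ b : ℝ, 4 < b →
  (∀ (I I' : Set ℝ) (k : ℝ → K), IsSol b I k → I' ⊆ I → I'.OrdConnected → IsSol b I' k) ∧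
  (∀ (I : Set ℝ) (k : ℝ → K) (r : ℝ≥0∞), IsSol b I k → r < SN b I k →
    ∃ s ∈ I, ∃ t ∈ I, s ≤ t ∧ r < SN b (Icc s t) k) ∧
  (∀ (I : Set ℝ) (k : ℝ → K) (s : ℝ) (r : ℝ≥0∞), IsSol b I k → s ∈ I → r < SN b (I ∩ Ici s) k →
    ∃ t ∈ I, s ≤ t ∧ r < SN b (Icc s t) k) ∧
  (∀ (I : Set ℝ) (k : ℝ → K) (s : ℝ), IsSol b I k → s ∈ I →
    ContinuousOn (fun t => (SN b (Icc s t) k).toReal) (I ∩ Ici s) ∧
    ContinuousOn (fun t => (SN b (Icc t s) k).toReal) (I ∩ Iic s)) ∧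
  (∀ (k : ℝ → K) (x y z : ℝ), x ≤ y → y ≤ z → SN b (Icc x z) k = SN b (Icc x y) k + SN b (Icc y z) k) ∧
  (∀ (I : Set ℝ) (k : ℝ → K) (s : ℝ), IsSol b I k → s ∈ I → k s = 0 → ∀ t ∈ I, k t = 0)

/-- **ScM** (rescaled solutions). Copy QWP/ScM.lean. -/
def St_ScM : Prop := ∀ b : ℝ, 4 < b → ∀ (I : Set ℝ) (k : ℝ → K) (t0 : ℝ) (y : E) (l : ℝ),
  (IsSol b I k → IsSol b {t | t0 + t * Real.exp (-l) ∈ I} (resc k t0 y l)) ∧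
  (IsMax b I k → IsMax b {t | t0 + t * Real.exp (-l) ∈ I} (resc k t0 y l)) ∧
  (MeasurableSet I → SN b {t | t0 + t * Real.exp (-l) ∈ I} (resc k t0 y l) = SN b I k) ∧
  ∀ t, ‖resc k t0 y l t‖ = ‖k (t0 + t * Real.exp (-l))‖

/-- **G12** (one bubble takes everything). Copy QWP/G12.lean. -/
def St_G12 : Prop := ∀ b : ℝ, 4 < b → ∀ Ac : ℝ, (∀ A' < Ac, LA b A' < ⊤) →
  ∀ (τ δ : ℕ → ℝ) (k : ℕ → ℝ → K) (φ : K), (∀ n, 0 ≤ τ n) → (∀ n, IsSol b (Icc 0 (τ n)) (k n)) →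
  Tendsto δ atTop (𝓝 0) → (∀ n, ∀ t ∈ Icc 0 (τ n), ‖k n t‖ ≤ Ac + δ n) →
  Tendsto (fun n => SN b (Icc 0 (τ n)) (k n)) atTop (𝓝 ⊤) → WTo (fun n => k n 0) φ → φ ≠ 0 →
  Tendsto (fun n => k n 0) atTop (𝓝 φ)

/-- **G13a** (passing to the limit in a sequence of blowing up solutions). Copy QWP/G13a.lean. -/
def St_G13a : Prop := ∀ b : ℝ, 4 < b → ∀ (Ac : ℝ) (τ δ : ℕ → ℝ) (k : ℕ → ℝ → K) (φ : K), (∀ n, 0 ≤ τ n) →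
  (∀ n, IsSol b (Icc 0 (τ n)) (k n)) → Tendsto δ atTop (𝓝 0) →
  (∀ n, ∀ t ∈ Icc 0 (τ n), ‖k n t‖ ≤ Ac + δ n) →
  Tendsto (fun n => SN b (Icc 0 (τ n)) (k n)) atTop (𝓝 ⊤) → Tendsto (fun n => k n 0) atTop (𝓝 φ) →
  ∃ (I : Set ℝ) (a : ℝ → K), IsMax b I a ∧ (0 : ℝ) ∈ I ∧ a 0 = φ ∧ (∀ t ∈ I, 0 ≤ t → ‖a t‖ ≤ Ac) ∧
    SN b (I ∩ Ici 0) a = ⊤ ∧
    ∀ T ∈ I, 0 ≤ T → (∀ᶠ n in atTop, T ≤ τ n) ∧ ∀ ε : ℝ, 0 < ε →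
      ∀ᶠ n in atTop, (∀ t ∈ Icc 0 T, ‖k n t - a t‖ < ε) ∧
        SN b (Icc 0 T) (fun t => k n t - a t) < ENNReal.ofReal ε

/-- **G13** (critical element). Copy QWP/G13.lean. -/
def St_G13 : Prop := ∀ b : ℝ, 4 < b → (∃ A : ℝ, LA b A = ⊤) → ∃ (Ac : ℝ) (I : Set ℝ) (a : ℝ → K), Crit b Ac I a

/-- **G14** (forward precompactness modulo symmetries). Copy QWP/G14.lean. -/
def St_G14 : Prop := ∀ b : ℝ, 4 < b → ∀ (Ac : ℝ) (I : Set ℝ) (a : ℝ → K), Crit b Ac I a → ∀ t : ℕ → ℝ,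
  (∀ n, t n ∈ I ∧ 0 ≤ t n) → (∀ T ∈ I, ∀ᶠ n in atTop, T ≤ t n) →
  ∃ (φ : ℕ → ℕ) (y : ℕ → E) (l : ℕ → ℝ) (κ : K), StrictMono φ ∧ κ ≠ 0 ∧
    Tendsto (fun n => ig (y n) (l n) (a (t (φ n)))) atTop (𝓝 κ)

/-- **FbPP** (the bubble functional). Copy QWP/FbPP.lean. -/
def St_FbPP : Prop := ∀ (s : ℝ) (ψ : E → ℝ), |s| < 1 / 2 → IsPsi ψ →
  (∃ C : ℝ, ∀ k k' : K, |Fb s ψ k - Fb s ψ k'| ≤ C * ‖k - k'‖) ∧
  (∀ (k : K) (y : E) (l : ℝ), Fb s ψ (gr y l k) = Fb s ψ k) ∧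
  (∀ k : K, k ≠ 0 → 0 < Fb s ψ k ∧ ∃ (y : E) (l : ℝ),
    Fb s ψ k / 2 ≤ max |inner ℝ (ig y l k) (Rs s ψ)| |inner ℝ (ig y l k) (dRs s ψ)|)

/-- **G15** (choice of the parameters). Copy QWP/G15.lean. -/
def St_G15 : Prop := ∀ b : ℝ, 4 < b → ∀ (Ac : ℝ) (I : Set ℝ) (a : ℝ → K), Crit b Ac I a →
  ∃ (Q : Set K) (x : ℝ → E) (l : ℝ → ℝ), IsCompact Q ∧ (0 : K) ∉ Q ∧
    ∀ t ∈ I, 0 ≤ t → ∃ κ ∈ Q, a t = gr (x t) (l t) κ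

/-- **G16** (a two sided compact solution). Copy QWP/G16.lean. -/
def St_G16 : Prop := ∀ b : ℝ, 4 < b → ∀ (Ac : ℝ) (I : Set ℝ) (a : ℝ → K), Crit b Ac I a →
  ∃ (Q : Set K) (I' : Set ℝ) (k : ℝ → K) (x : ℝ → E) (l : ℝ → ℝ), CSol b Q I' k x l

end Pool.Agent.QWF
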