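import Pool.Agent.QWF.JD

set_option autoImplicit false

/-!
# QWF, LinJ: linearity of the states
-/

open MeasureTheory Filter Topology Set
open scoped ENNReal NNReal RealInnerProductSpace

namespace Pool.Agent.QWF

namespace LinJx

open JDx

lemma sch_add {φ ψ : E → ℝ} (hφ : IsSch φ) (hψ : IsSch ψ) (c : ℝ) : IsSch fun x => φ x + c * ψ x := by
  obtain ⟨f, hf⟩ := hφ
  obtain ⟨g, hg⟩ := hψ
  refine ⟨f + c • g, fun x => ?_⟩
  rw [SchwartzMap.add_apply, SchwartzMap.smul_apply, hf, hg, smul_eq_mul]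

lemma sch_int {φ : E → ℝ} (hφ : IsSch φ) : Integrable φ volume := by
  obtain ⟨f, hf⟩ := hφ
  have h : φ = f := funext fun x => (hf x).symm
  rw [h]
  exact f.integrable

lemma ft_add {φ ψ : E → ℝ} (hφ : IsSch φ) (hψ : IsSch ψ) (c : ℝ) (ξ : E) :
    ft (fun x => φ x + c * ψ x) ξ = ft φ ξ + (c : ℂ) * ft ψ ξ := by
  have key : ∀ {φ : E → ℝ}, IsSch φ → Integrable (fun x => (φ x : ℂ) *
      Complex.exp (-2 * Real.pi * Complex.I * ((inner ℝ x ξ : ℝ) : ℂ))) volume := by
    intro φ hφ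
    have hI : Integrable (fun x => (φ x : ℂ)) volume := (sch_int hφ).ofReal
    refine hI.mono (hI.aestronglyMeasurable.mul
      (Continuous.aestronglyMeasurable (by fun_prop))) (Eventually.of_forall fun x => ?_)
    have : -2 * Real.pi * Complex.I * ((inner ℝ x ξ : ℝ) : ℂ) =
        ((-2 * Real.pi * inner ℝ x ξ : ℝ) : ℂ) * Complex.I := by
      push_cast; ring
    rw [norm_mul, this, Complex.norm_exp_ofReal_mul_I, mul_one]
  unfold ft
  rw [← integral_const_mul, ← integral_add (key hφ) ((key hψ).const_mul _)]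
  refine integral_congr_ae (Eventually.of_forall fun x => ?_)
  simp only
  push_cast
  ring

lemma int_exp {G : ℝ → ℂ} (h1 : Integrable G) (p : ℝ) :
    Integrable (fun r : ℝ => G r * Complex.exp (2 * Real.pi * Complex.I * ((r * p : ℝ) : ℂ))) := by
  refine h1.mono (h1.aestronglyMeasurable.mul (Continuous.aestronglyMeasurable (by fun_prop)))
    (Eventually.of_forall fun r => ?_)
  rw [norm_mul, norm_char, mul_one]

lemma toK_add {f g h : S × ℝ → ℝ} (c : ℝ) (hg : MemLp g 2 mu) (hh : MemLp h 2 mu)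
    (he : ∀ z, f z = g z + c * h z) : toK f = toK g + c • toK h := by
  have h0 : f = g + c • h := funext he
  subst h0
  apply Lp.ext
  filter_upwards [toK_coe (hg.add (hh.const_smul c)), toK_coe hg, toK_coe hh,
    Lp.coeFn_add (toK g) (c • toK h), Lp.coeFn_smul c (toK h)] with z h1 h2 h3 h4 h5
  rw [h1, h4, Pi.add_apply, Pi.add_apply, h5, Pi.smul_apply, Pi.smul_apply, h2, h3]

end LinJx

open JDx LinJx in
theorem thm_LinJ (hFt : St_Ft) (hPar : St_Par) : St_LinJ := by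
  have hJD := thm_JD hFt
  have h0 : ∀ (a c : ℝ) (φ ψ : E → ℝ), IsSch φ → IsSch ψ → a < 1 / 2 →
      J0 a (fun x => φ x + c * ψ x) = J0 a φ + c • J0 a ψ := by
    intro a c φ ψ hφ hψ ha
    refine toK_add c ((hPar a a 0 φ φ hφ hφ).1 ha).2 ((hPar a a 0 ψ ψ hψ hψ).1 ha).2 fun z => ?_
    have i1 := int_exp (amp_int (rap_ft hFt hφ) z.1 (c := -a) (by linarith)) z.2
    have i2 := int_exp (amp_int (rap_ft hFt hψ) z.1 (c := -a) (by linarith)) z.2
    unfold J0F
    rw [← Complex.re_ofReal_mul, ← Complex.add_re, ← integral_const_mul,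
      ← integral_add i1 (i2.const_mul _)]
    congr 1
    refine integral_congr_ae (Eventually.of_forall fun r => ?_)
    simp only [ft_add hφ hψ]
    ring
  have h1 : ∀ (a c : ℝ) (φ ψ : E → ℝ), IsSch φ → IsSch ψ → a < 3 / 2 →
      J1 a (fun x => φ x + c * ψ x) = J1 a φ + c • J1 a ψ := by
    intro a c φ ψ hφ hψ ha
    refine toK_add c ((hPar a a 0 φ φ hφ hφ).2.1 ha).2 ((hPar a a 0 ψ ψ hψ hψ).2.1 ha).2 fun z => ?_
    have i1 := int_exp (amp_int1 (rap_ft hFt hφ) z.1 (c := a) (by linarith)) z.2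
    have i2 := int_exp (amp_int1 (rap_ft hFt hψ) z.1 (c := a) (by linarith)) z.2
    unfold J1F
    rw [← Complex.re_ofReal_mul, ← Complex.add_re, ← integral_const_mul,
      ← integral_add i1 (i2.const_mul _)]
    congr 1
    refine integral_congr_ae (Eventually.of_forall fun r => ?_)
    simp only [ft_add hφ hψ]
    ring
  intro a c φ ψ hφ hψ
  refine ⟨h0 a c φ ψ hφ hψ, h1 a c φ ψ hφ hψ, fun s hs1 hs2 => ⟨?_, ?_, ?_⟩⟩
  · unfold Rs
    rw [h1 (1 + s) c φ ψ hφ hψ (by linarith), smul_neg]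
    abel
  · exact h0 (s - 1) c φ ψ hφ hψ (by linarith)
  · intro f g hf hg
    have e1 : ∀ φ, IsSch φ → J1 (-s) (lap φ) = - J1 (-s - 2) φ := fun φ h => (hJD (-s) φ h).2.2.2.2.2
    have e0 : ∀ φ, IsSch φ → J0 (-s) (lap φ) = - J0 (-s - 2) φ := fun φ h => (hJD (-s) φ h).2.2.2.2.1
    unfold Theta
    rw [e1 _ (sch_add hφ hf c), e0 _ (sch_add hψ hg c), e1 _ hφ, e0 _ hψ, e1 _ hf, e0 _ hg,
      h1 _ c φ f hφ hf (by linarith), h0 _ c ψ g hψ hg (by linarith), smul_comm c c0, ← smul_add]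
    congr 1
    rw [smul_sub, smul_neg, smul_neg]
    abel

end Pool.Agent.QWF
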