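import Pool.Agent.QWF.StA2

/-!
# QWF, module LscP: lower semicontinuity of the norms of the fields
-/

set_option autoImplicit false

open MeasureTheory Filter Topology Set
open scoped ENNReal NNReal RealInnerProductSpace

namespace Pool.Agent.QWF.LscPx


/-- A bounded a.e. linear map into `L^q` has lower semicontinuous `L^p` norms. -/
lemma lsc (F : K → E → ℝ) (q p : ℝ≥0∞) (B : Set E) (C : ℝ) (hq : q ≠ 0) (hB : MeasurableSet B)
    (h1 : ∀ k, MemLp (F k) q volume) (h2 : ∀ k, eLpNorm (F k) q volume ≤ ENNReal.ofReal C * ‖k‖ₑ)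
    (h3 : ∀ (c : ℝ) (k k' : K), F (k + c • k') =ᵐ[volume] fun x => F k x + c * F k' x) :
    LowerSemicontinuous (fun k : K => eLpNorm (B.indicator (F k)) p volume) := by
  intro k0 y hy
  by_contra hcon
  rw [Filter.not_eventually] at hcon
  obtain ⟨u, hu1, hu2⟩ := Filter.exists_seq_forall_of_frequently hcon
  have hdiff : ∀ n, eLpNorm (F (u n) - F k0) q volume ≤ ENNReal.ofReal C * ‖u n - k0‖ₑ := by
    intro n
    have e1 : F (u n - k0) =ᵐ[volume] F (u n) - F k0 := by
      have h := h3 (-1) (u n) k0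
      have e : u n + (-1 : ℝ) • k0 = u n - k0 := by rw [neg_one_smul, sub_eq_add_neg]
      rw [e] at h
      filter_upwards [h] with x hx
      rw [hx, Pi.sub_apply]
      ring
    rw [← eLpNorm_congr_ae e1]
    exact h2 _
  have hlim : Tendsto (fun n => eLpNorm (F (u n) - F k0) q volume) atTop (𝓝 0) := by
    have h4 : Tendsto (fun n => ENNReal.ofReal C * ‖u n - k0‖ₑ) atTop (𝓝 0) := by
      have h5 : Tendsto (fun n => ‖u n - k0‖ₑ) atTop (𝓝 0) := by
        have h6 : Tendsto (fun n => u n - k0) atTop (𝓝 (k0 - k0)) := hu1.sub_const k0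
        rw [sub_self] at h6
        have h7 := h6.enorm
        rwa [enorm_zero] at h7
      have h8 := ENNReal.Tendsto.const_mul (a := ENNReal.ofReal C) h5 (Or.inr ENNReal.ofReal_ne_top)
      rwa [mul_zero] at h8
    exact tendsto_of_tendsto_of_tendsto_of_le_of_le tendsto_const_nhds h4 (fun _ => zero_le)
      hdiff
  have hmeas : TendstoInMeasure volume (fun n => F (u n)) atTop (F k0) :=
    tendstoInMeasure_of_tendsto_eLpNorm hq (fun n => (h1 (u n)).1) (h1 k0).1 hlim
  obtain ⟨ns, hns1, hns2⟩ := hmeas.exists_seq_tendsto_ae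
  have hfat := Lp.eLpNorm_lim_le_liminf_eLpNorm (p := p) (μ := (volume : Measure E))
    (f := fun n => B.indicator (F (u (ns n)))) (fun n => (h1 (u (ns n))).1.indicator hB)
    (B.indicator (F k0)) (by
      filter_upwards [hns2] with x hx
      by_cases hxB : x ∈ B
      · simp only [indicator_of_mem hxB]
        exact hx
      · simp only [indicator_of_notMem hxB]
        exact tendsto_const_nhds)
  have hle : liminf (fun n => eLpNorm (B.indicator (F (u (ns n)))) p volume) atTop ≤ y := by
    refine liminf_le_of_frequently_le' (Eventually.frequently (Eventually.of_forall fun n => ?_))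
    exact not_lt.1 (hu2 (ns n))
  exact absurd (lt_of_lt_of_le hy (hfat.trans hle)) (lt_irrefl _)

end Pool.Agent.QWF.LscPx

namespace Pool.Agent.QWF


/-- **LscP** (lower semicontinuity). -/
theorem thm_LscP (hF : St_FldP) : St_LscP := by
  intro s p B hs hp hB
  obtain ⟨C, hC, hF1, hF2, -⟩ := hF s hs
  have hs' := abs_lt.1 hs
  have h0 : q0 s ≠ 0 := by
    unfold q0
    rw [Ne, ENNReal.ofReal_eq_zero, not_le]
    have : 0 < 1 - 2 * s := by linarith [hs'.2]
    positivity
  have h1 : q1 s ≠ 0 := by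
    unfold q1
    rw [Ne, ENNReal.ofReal_eq_zero, not_le]
    have : 0 < 3 - 2 * s := by linarith [hs'.2]
    positivity
  refine ⟨?_, fun i => ?_, ?_⟩
  · exact LscPx.lsc (fun k => U s k) (q0 s) p B C h0 hB (fun k => (hF1 k).1.1)
      (fun k => (hF1 k).2.1) (fun c k k' => (hF2 c k k').1)
  · exact LscPx.lsc (fun k => DU s k i) (q1 s) p B C h1 hB
      (fun k => ((hF1 k).2.2.2.2.1 i).1) (fun k => ((hF1 k).2.2.2.2.1 i).2.2)
      (fun c k k' => (hF2 c k k').2.2 i)
  · exact LscPx.lsc (fun k => V s k) (q1 s) p B C h1 hB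
      (fun k => (hF1 k).2.2.1.1) (fun k => (hF1 k).2.2.2.1) (fun c k k' => (hF2 c k k').2.1)

end Pool.Agent.QWF
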