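import Pool.Agent.QWF.StB

set_option autoImplicit false

/-!
# QWF, MaxE: maximal solutions
-/

open MeasureTheory Filter Topology Set
open scoped ENNReal NNReal RealInnerProductSpace Pointwise

namespace Pool.Agent.QWF


namespace MaxEx

lemma sol_mono {b : ℝ} {J J' : Set ℝ} {k : ℝ → K} (h : IsSol b J k) (h1 : J' ⊆ J)
    (h2 : J'.OrdConnected) : IsSol b J' k :=
  ⟨h2, h.2.1.mono h1, fun x hx y hy => h.2.2.1 x (h1 hx) y (h1 hy),
    fun s hs t ht => h.2.2.2 s (h1 hs) t (h1 ht)⟩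

lemma local_ex (hStr : St_StrS) (hLoc : St_Loc) {b : ℝ} (hb : 4 < b) (k0 : K) (t0 : ℝ) :
    ∃ δ : ℝ, 0 < δ ∧ ∃ k : ℝ → K, IsSol b (Icc (t0 - δ) (t0 + δ)) k ∧ k t0 = k0 := by
  obtain ⟨η0, hη0, hloc⟩ := hLoc b hb (‖k0‖ + 1) (by positivity)
  obtain ⟨C, _, hstr⟩ := hStr b hb
  have hb0 : 0 ≤ b := by linarith
  have hfin : ∫⁻ t, sn b (tau (t - t0) k0) ^ b ≠ ⊤ := by
    have h1 : ∫⁻ t, sn b (tau (t - t0) k0) ^ b = ∫⁻ t, sn b (tau t k0) ^ b :=
      lintegral_sub_right_eq_self (fun t => sn b (tau t k0) ^ b) t0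
    rw [h1]
    refine ne_top_of_le_ne_top ?_ (hstr k0).1
    exact ENNReal.rpow_ne_top_of_nonneg hb0 (ENNReal.mul_ne_top ENNReal.ofReal_ne_top enorm_ne_top)
  have hε : (ENNReal.ofReal η0) ^ b ≠ 0 := by
    have h1 : 0 < ENNReal.ofReal η0 := ENNReal.ofReal_pos.2 hη0
    exact (ENNReal.rpow_pos h1 ENNReal.ofReal_ne_top).ne'
  obtain ⟨δ', hδ', hs⟩ := exists_pos_setLIntegral_lt_of_measure_lt hfin hε
  obtain ⟨r, hr0, hr1⟩ := ENNReal.lt_iff_exists_nnreal_btwn.1 hδ'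
  have hr0' : 0 < (r : ℝ) := by exact_mod_cast hr0
  refine ⟨(r : ℝ) / 2, by positivity, ?_⟩
  have hvol : volume (Icc (t0 - (r : ℝ) / 2) (t0 + (r : ℝ) / 2)) < δ' := by
    rw [Real.volume_Icc]
    have h2 : t0 + (r : ℝ) / 2 - (t0 - (r : ℝ) / 2) = r := by ring
    rw [h2, ENNReal.ofReal_coe_nnreal]
    exact hr1
  obtain ⟨k, hk, hk0, _⟩ := hloc k0 (t0 - (r : ℝ) / 2) (t0 + (r : ℝ) / 2) t0 η0
    (by linarith [norm_nonneg k0]) (by linarith) (by linarith) hη0 le_rfl (hs _ hvol).le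
  exact ⟨k, hk, hk0⟩

end MaxEx

theorem thm_MaxE (hStr : St_StrS) (hLoc : St_Loc) (hUniq : St_Uniq) (hGlue : St_Glue) :
    St_MaxE := by
  classical
  intro b hb k0 t0
  have hUniq := hUniq b hb
  have hGlue := hGlue b hb
  -- the family of open intervals which carry a solution
  have hval : ∀ t : ℝ, ∃ v : K, ∀ J k', IsOpen J → t0 ∈ J → IsSol b J k' → k' t0 = k0 → t ∈ J →
      k' t = v := by
    intro t
    by_cases h : ∃ (J : Set ℝ) (k' : ℝ → K), IsOpen J ∧ t0 ∈ J ∧ IsSol b J k' ∧ k' t0 = k0 ∧ t ∈ J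
    · obtain ⟨J, k', h1, h2, h3, h4, h5⟩ := h
      refine ⟨k' t, ?_⟩
      intro J1 k1 _ g2 g3 g4 g5
      exact hUniq J1 J k1 k' t0 g3 h3 g2 h2 (g4.trans h4.symm) t g5 h5
    · refine ⟨0, ?_⟩
      intro J1 k1 g1 g2 g3 g4 g5
      exact absurd ⟨J1, k1, g1, g2, g3, g4, g5⟩ h
  choose k hk using hval
  let I : Set ℝ := {t | ∃ (J : Set ℝ) (k' : ℝ → K), IsOpen J ∧ t0 ∈ J ∧ IsSol b J k' ∧
    k' t0 = k0 ∧ t ∈ J}
  -- two points lie in one member
  have htwo : ∀ x ∈ I, ∀ y ∈ I, ∃ (J : Set ℝ) (k' : ℝ → K), IsOpen J ∧ t0 ∈ J ∧ IsSol b J k' ∧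
      k' t0 = k0 ∧ x ∈ J ∧ y ∈ J := by
    rintro x ⟨J1, k1, h1, h2, h3, h4, h5⟩ y ⟨J2, k2, g1, g2, g3, g4, g5⟩
    obtain ⟨k'', q1, q2, q3⟩ := hGlue J1 J2 k1 k2 t0 h3 g3 h2 g2 (h4.trans g4.symm)
    exact ⟨J1 ∪ J2, k'', h1.union g1, Or.inl h2, q1, (q2 t0 h2).trans h4, Or.inl h5, Or.inr g5⟩
  have hsub : ∀ (J : Set ℝ) (k' : ℝ → K), IsOpen J → t0 ∈ J → IsSol b J k' → k' t0 = k0 →
      J ⊆ I ∧ ∀ t ∈ J, k' t = k t := by
    intro J k' h1 h2 h3 h4
    exact ⟨fun t ht => ⟨J, k', h1, h2, h3, h4, ht⟩, fun t ht => hk t J k' h1 h2 h3 h4 ht⟩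
  have hI : IsSol b I k := by
    refine ⟨⟨?_⟩, ?_, ?_, ?_⟩
    · intro x hx y hy
      obtain ⟨J, k', h1, h2, h3, h4, h5, h6⟩ := htwo x hx y hy
      exact (h3.1.out h5 h6).trans (hsub J k' h1 h2 h3 h4).1
    · intro t ht
      obtain ⟨J, k', h1, h2, h3, h4, h5⟩ := ht
      have h6 : ContinuousAt k' t := (h3.2.1 t h5).continuousAt (h1.mem_nhds h5)
      have h7 : k' =ᶠ[𝓝 t] k := by
        filter_upwards [h1.mem_nhds h5] with s hs
        exact hk s J k' h1 h2 h3 h4 hs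
      exact (h6.congr h7).continuousWithinAt
    · intro x hx y hy
      obtain ⟨J, k', h1, h2, h3, h4, h5, h6⟩ := htwo x hx y hy
      have h7 : SN b (Icc x y) k = SN b (Icc x y) k' := by
        unfold SN
        apply setLIntegral_congr_fun measurableSet_Icc
        intro t ht
        show sn b (k t) ^ b = sn b (k' t) ^ b
        rw [hk t J k' h1 h2 h3 h4 (h3.1.out h5 h6 ht)]
      rw [h7]
      exact h3.2.2.1 x h5 y h6
    · intro s hs t ht
      obtain ⟨J, k', h1, h2, h3, h4, h5, h6⟩ := htwo s hs t ht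
      have h7 := h3.2.2.2 s h5 t h6
      rw [← hk t J k' h1 h2 h3 h4 h6, ← hk s J k' h1 h2 h3 h4 h5, h7]
      congr 1
      apply intervalIntegral.integral_congr
      intro r hr
      show tau (t - r) (NL b (k' r)) = tau (t - r) (NL b (k r))
      rw [hk r J k' h1 h2 h3 h4 (h3.1.uIcc_subset h5 h6 hr)]
  have hIo : IsOpen I := by
    rw [isOpen_iff_mem_nhds]
    rintro t ⟨J, k', h1, h2, h3, h4, h5⟩
    exact mem_of_superset (h1.mem_nhds h5) (hsub J k' h1 h2 h3 h4).1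
  have ht0 : t0 ∈ I := by
    obtain ⟨δ, hδ, k1, g1, g2⟩ := MaxEx.local_ex hStr hLoc hb k0 t0
    refine ⟨Ioo (t0 - δ) (t0 + δ), k1, isOpen_Ioo, ⟨by linarith, by linarith⟩,
      MaxEx.sol_mono g1 Ioo_subset_Icc_self ordConnected_Ioo, g2, ⟨by linarith, by linarith⟩⟩
  have hk0 : k t0 = k0 := by
    obtain ⟨J, k', h1, h2, h3, h4, h5⟩ := ht0
    rw [← hk t0 J k' h1 h2 h3 h4 h5, h4]
  have hall : ∀ (J : Set ℝ) (k' : ℝ → K), IsSol b J k' → t0 ∈ J → k' t0 = k0 →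
      J ⊆ I ∧ ∀ t ∈ J, k' t = k t := by
    intro J k' h1 h2 h3
    have hJI : J ⊆ I := by
      intro t ht
      obtain ⟨δ1, hδ1, k1, g1, g2⟩ := MaxEx.local_ex hStr hLoc hb (k' t) t
      obtain ⟨δ2, hδ2, k2, q1, q2⟩ := MaxEx.local_ex hStr hLoc hb k0 t0
      obtain ⟨k3, p1, p2, _⟩ := hGlue J (Icc (t - δ1) (t + δ1)) k' k1 t h1 g1 ht
        ⟨by linarith, by linarith⟩ g2.symm
      obtain ⟨k4, r1, r2, _⟩ := hGlue (J ∪ Icc (t - δ1) (t + δ1)) (Icc (t0 - δ2) (t0 + δ2)) k3 k2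
        t0 p1 q1 (Or.inl h2) ⟨by linarith, by linarith⟩ (by rw [p2 t0 h2, h3, q2])
      have hε : 0 < min δ1 δ2 := lt_min hδ1 hδ2
      have hsubs : Ioo (min t0 t - min δ1 δ2) (max t0 t + min δ1 δ2) ⊆
          (J ∪ Icc (t - δ1) (t + δ1)) ∪ Icc (t0 - δ2) (t0 + δ2) := by
        intro x hx
        have m1 : min δ1 δ2 ≤ δ1 := min_le_left _ _
        have m2 : min δ1 δ2 ≤ δ2 := min_le_right _ _
        by_cases hxm : x ∈ Set.uIcc t0 t
        · exact Or.inl (Or.inl (h1.1.uIcc_subset h2 ht hxm))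
        · rw [Set.mem_uIcc] at hxm
          rcases le_total t0 t with hle | hle
          · rw [min_eq_left hle, max_eq_right hle] at hx
            by_cases hx1 : x < t0
            · exact Or.inr ⟨by linarith [hx.1], by linarith⟩
            · have hx2 : t < x := by
                by_contra hc
                exact hxm (Or.inl ⟨not_lt.1 hx1, not_lt.1 hc⟩)
              exact Or.inl (Or.inr ⟨by linarith, by linarith [hx.2]⟩)
          · rw [min_eq_right hle, max_eq_left hle] at hx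
            by_cases hx1 : x < t
            · exact Or.inl (Or.inr ⟨by linarith [hx.1], by linarith⟩)
            · have hx2 : t0 < x := by
                by_contra hc
                exact hxm (Or.inr ⟨not_lt.1 hx1, not_lt.1 hc⟩)
              exact Or.inr ⟨by linarith, by linarith [hx.2]⟩
      refine ⟨Ioo (min t0 t - min δ1 δ2) (max t0 t + min δ1 δ2), k4, isOpen_Ioo, ?_,
        MaxEx.sol_mono r1 hsubs ordConnected_Ioo, ?_, ?_⟩
      · exact ⟨by linarith [min_le_left t0 t], by linarith [le_max_left t0 t]⟩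
      · rw [r2 t0 (Or.inl h2), p2 t0 h2, h3]
      · exact ⟨by linarith [min_le_right t0 t], by linarith [le_max_right t0 t]⟩
    exact ⟨hJI, fun t ht => hUniq J I k' k t0 h1 hI h2 ht0 (h3.trans hk0.symm) t ht (hJI ht)⟩
  refine ⟨I, k, ⟨hI, hIo, ⟨t0, ht0⟩, ?_⟩, ht0, hk0, hall⟩
  intro J k' h1 h2 h3
  exact (hall J k' h1 (h2 ht0) ((h3 t0 ht0).trans hk0)).1

end Pool.Agent.QWF
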