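import Pool.Agent.QWF.StG
import Pool.Agent.QWF.Moll

set_option autoImplicit false

/-!
# QWF, module MolK: regularisation by convolution
-/

open MeasureTheory Filter Topology Set
open scoped ENNReal NNReal RealInnerProductSpace ContDiff

namespace Pool.Agent.QWF


namespace MolKx

open Pool.Agent.QWF.Moll

lemma int_mul {f φ : E → ℝ} (hf : LocallyIntegrable f volume) (hφ : IsTest φ) :
    Integrable (fun x => f x * φ x) volume := by
  have := hf.integrable_smul_right_of_hasCompactSupport hφ.1.continuous hφ.2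
  simpa [smul_eq_mul] using this

lemma ae_zero {f : E → ℝ} (hf : LocallyIntegrable f volume)
    (h : ∀ φ, IsTest φ → ∫ x, f x * φ x = 0) : f =ᵐ[volume] 0 := by
  refine ae_eq_zero_of_integral_contDiff_smul_eq_zero hf fun g h1 h2 => ?_
  have h3 := h g ⟨h1, h2⟩
  simp only [smul_eq_mul]
  rw [← h3]
  exact integral_congr_ae (Eventually.of_forall fun x => mul_comm _ _)

lemma ae_eq {f g : E → ℝ} (hf : LocallyIntegrable f volume) (hg : LocallyIntegrable g volume)
    (h : ∀ φ, IsTest φ → ∫ x, f x * φ x = ∫ x, g x * φ x) : f =ᵐ[volume] g := by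
  have h1 := ae_zero (hf.sub hg) fun φ hφ => by
    have e : (fun x => (f - g) x * φ x) = fun x => f x * φ x - g x * φ x := by
      funext x; simp [sub_mul]
    rw [e, integral_sub (int_mul hf hφ) (int_mul hg hφ), h φ hφ, sub_self]
  filter_upwards [h1] with x hx
  simpa [sub_eq_zero] using hx

theorem fub {F : E → ℝ} {g : E × E → ℝ} (hF : LocallyIntegrable F volume) (hg : Continuous g) {R : ℝ}
    (hR : ∀ t x, g (t, x) ≠ 0 → ‖t‖ ≤ R ∧ ‖x‖ ≤ R) :
    ∫ x, ∫ t, F t * g (t, x) = ∫ t, F t * ∫ x, g (t, x) := by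
  have hK : HasCompactSupport g := by
    refine HasCompactSupport.intro ((isCompact_closedBall (0 : E) R).prod
      (isCompact_closedBall (0 : E) R)) ?_
    rintro ⟨t, x⟩ h
    by_contra h0
    exact h ⟨by simpa using (hR t x h0).1, by simpa using (hR t x h0).2⟩
  obtain ⟨M, hM⟩ := hK.exists_bound_of_continuous hg
  have hM0 : 0 ≤ M := (norm_nonneg _).trans (hM 0)
  have i1 : Integrable ((Metric.closedBall (0 : E) R).indicator F) volume :=
    (integrable_indicator_iff measurableSet_closedBall).2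
      (hF.integrableOn_isCompact (isCompact_closedBall 0 R))
  have i2 : Integrable ((Metric.closedBall (0 : E) R).indicator fun _ => M) volume :=
    (integrable_indicator_iff measurableSet_closedBall).2
      (continuous_const.continuousOn.integrableOn_compact (isCompact_closedBall 0 R))
  have i3 : Integrable (fun z : E × E => F z.1 * g z) (volume.prod volume) := by
    refine (i1.mul_prod i2).mono ?_ ?_
    · exact (hF.aestronglyMeasurable.comp_quasiMeasurePreserving
        Measure.quasiMeasurePreserving_fst).mul hg.aestronglyMeasurable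
    · refine Eventually.of_forall fun z => ?_
      by_cases h0 : g z = 0
      · rw [h0, mul_zero, norm_zero]; exact norm_nonneg _
      · have h1 := hR z.1 z.2 h0
        rw [indicator_of_mem (by simpa using h1.1), indicator_of_mem (by simpa using h1.2), norm_mul,
          norm_mul, Real.norm_of_nonneg hM0]
        gcongr
        exact hM z
  have i4 : Integrable (Function.uncurry fun (x t : E) => F t * g (t, x)) (volume.prod volume) :=
    i3.swap
  rw [integral_integral_swap i4]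
  refine integral_congr_ae (Eventually.of_forall fun t => ?_)
  exact integral_const_mul _ _

/-- the mollified state -/
noncomputable def ms (ρ : E → ℝ) (k : K) : K := ∫ z, ρ z • sh z k

theorem ms_tendsto (hG1 : St_Grp1) (k : K) :
    Tendsto (fun n => ms (ph n) k) atTop (𝓝 k) := by
  have hsh : Continuous fun y => sh y k := hG1.2.2.2.2.2.2.2.2 k
  have hr : Tendsto (fun n => (bp n).rOut) atTop (𝓝 0) := tendsto_one_div_add_atTop_nhds_zero_nat
  have h1 := ContDiffBump.convolution_tendsto_right_of_continuous (μ := (volume : Measure E))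
    (φ := bp) (l := atTop) hr (g := fun z : E => sh (-z) k) (hsh.comp continuous_neg) 0
  have h2 : sh (-(0 : E)) k = k := by
    rw [neg_zero]
    exact hG1.2.2.2.1 k
  rw [h2] at h1
  refine h1.congr fun n => ?_
  rw [convolution_def]
  unfold ms ph
  refine integral_congr_ae (Eventually.of_forall fun z => ?_)
  simp only [ContinuousLinearMap.lsmul_apply, zero_sub, neg_neg]

theorem ms_inner (hG1 : St_Grp1) {ρ : E → ℝ} (hρ : IsTest ρ) (k w : K) :
    inner ℝ (ms ρ k) w = ∫ t, ρ t * inner ℝ (sh t k) w := by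
  have hsh : Continuous fun y => sh y k := hG1.2.2.2.2.2.2.2.2 k
  have hint : Integrable (fun t => ρ t • sh t k) volume :=
    (hρ.1.continuous.smul hsh).integrable_of_hasCompactSupport hρ.2.smul_right
  unfold ms
  rw [real_inner_comm, ← integral_inner hint]
  congr 1; ext t
  rw [inner_smul_right, real_inner_comm]

/-- Fubini for the mollified field -/
theorem fub2 {ρ φ w : E → ℝ} (hρ : IsTest ρ) (hφ : IsTest φ) (hw : LocallyIntegrable w volume) :
    ∫ t, ρ t * ∫ x, w x * φ (x + t) = ∫ x, mc ρ w x * φ x := by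
  obtain ⟨R1, hR1⟩ := hρ.2.isCompact.isBounded.subset_closedBall (0 : E)
  obtain ⟨R2, hR2⟩ := hφ.2.isCompact.isBounded.subset_closedBall (0 : E)
  have b1 : ∀ x, ρ x ≠ 0 → ‖x‖ ≤ |R1| := by
    intro x hx
    have h := hR1 (subset_tsupport _ hx)
    rw [mem_closedBall_zero_iff] at h
    exact h.trans (le_abs_self _)
  have b2 : ∀ x, φ x ≠ 0 → ‖x‖ ≤ |R2| := by
    intro x hx
    have h := hR2 (subset_tsupport _ hx)
    rw [mem_closedBall_zero_iff] at h
    exact h.trans (le_abs_self _)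
  have h1 : ∫ t, ∫ x, w x * (ρ t * φ (x + t)) = ∫ x, w x * ∫ t, ρ t * φ (x + t) := by
    refine fub (g := fun z : E × E => ρ z.2 * φ (z.1 + z.2)) (R := |R1| + |R2|)
      hw ?_ ?_
    · exact (hρ.1.continuous.comp continuous_snd).mul
        (hφ.1.continuous.comp (continuous_fst.add continuous_snd))
    · intro x t h
      have h2 := b1 t (left_ne_zero_of_mul h)
      have h3 := b2 (x + t) (right_ne_zero_of_mul h)
      have h4 : ‖x‖ ≤ ‖x + t‖ + ‖t‖ := by
        have := norm_sub_le (x + t) t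
        rwa [add_sub_cancel_right] at this
      refine ⟨by linarith, h2.trans (le_add_of_nonneg_right (abs_nonneg _))⟩
  have h2 : ∫ x, ∫ y, w y * (ρ (x - y) * φ x) = ∫ y, w y * ∫ x, ρ (x - y) * φ x := by
    refine fub (g := fun z : E × E => ρ (z.2 - z.1) * φ z.2) (R := |R1| + |R2|)
      hw ?_ ?_
    · exact (hρ.1.continuous.comp (continuous_snd.sub continuous_fst)).mul
        (hφ.1.continuous.comp continuous_snd)
    · intro y x h
      have h2 := b1 (x - y) (left_ne_zero_of_mul h)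
      have h3 := b2 x (right_ne_zero_of_mul h)
      have h4 : ‖y‖ ≤ ‖x‖ + ‖x - y‖ := by
        have := norm_sub_le x (x - y)
        rwa [sub_sub_cancel] at this
      refine ⟨by linarith, h3.trans (le_add_of_nonneg_left (abs_nonneg _))⟩
  have e1 : ∫ t, ρ t * ∫ x, w x * φ (x + t) = ∫ t, ∫ x, w x * (ρ t * φ (x + t)) := by
    refine integral_congr_ae (Eventually.of_forall fun t => ?_)
    simp only
    rw [← integral_const_mul]
    refine integral_congr_ae (Eventually.of_forall fun x => ?_)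
    simp only
    ring
  have e2 : ∫ x, mc ρ w x * φ x = ∫ x, ∫ y, w y * (ρ (x - y) * φ x) := by
    refine integral_congr_ae (Eventually.of_forall fun x => ?_)
    simp only
    rw [mc_apply', ← integral_mul_const]
    refine integral_congr_ae (Eventually.of_forall fun y => ?_)
    simp only
    ring
  rw [e1, e2, h1, h2]
  refine integral_congr_ae (Eventually.of_forall fun y => ?_)
  simp only
  congr 1
  rw [← integral_sub_right_eq_self (fun t => ρ t * φ (y + t)) y]
  refine integral_congr_ae (Eventually.of_forall fun x => ?_)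
  simp only
  rw [add_sub_cancel]

/-- fields of the mollified state -/
theorem ms_fields (hG1 : St_Grp1) (hG2 : St_Grp2) {s : ℝ}
    (hs : |s| < 1 / 2) (hF : St_FldP) (hA : St_ActP) {ρ : E → ℝ} (hρ : IsTest ρ) (k : K) :
    U s (ms ρ k) =ᵐ[volume] mc ρ (U s k) := by
  obtain ⟨C', -, hF', -⟩ := hF s hs
  obtain ⟨hs1, hs2⟩ := abs_lt.1 hs
  have hq0 : (1 : ℝ≥0∞) ≤ q0 s := by
    unfold q0
    rw [← ENNReal.ofReal_one]
    apply ENNReal.ofReal_le_ofReal
    rw [le_div_iff₀ (by linarith)]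
    linarith
  have hq1 : (1 : ℝ≥0∞) ≤ q1 s := by
    unfold q1
    rw [← ENNReal.ofReal_one]
    apply ENNReal.ofReal_le_ofReal
    rw [le_div_iff₀ (by linarith)]
    linarith
  have lU : ∀ k : K, LocallyIntegrable (U s k) volume := fun k =>
    (hF' k).1.1.locallyIntegrable hq0
  have lV : ∀ k : K, LocallyIntegrable (V s k) volume := fun k =>
    (hF' k).2.2.1.1.locallyIntegrable hq1
  have hgr : ∀ t, gr t 0 k = sh t k := by
    intro t
    rw [gr, hG2.2.1]
  have hAU : ∀ t, U s (sh t k) =ᵐ[volume] fun x => U s k (x - t) := by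
    intro t
    have h3 := ((hA s hs).1 t 0 k).1
    rw [hgr] at h3
    simpa using h3
  have hAV : ∀ t, V s (sh t k) =ᵐ[volume] fun x => V s k (x - t) := by
    intro t
    have h3 := ((hA s hs).1 t 0 k).2.1
    rw [hgr] at h3
    simpa using h3
  refine ae_eq (lU _) (mc_smooth hρ (lU k)).continuous.locallyIntegrable ?_
  intro φ hφ
  rw [(hF' (ms ρ k)).1.2 φ hφ, ms_inner hG1 hρ, ← fub2 hρ hφ (lU k)]
  refine integral_congr_ae (Eventually.of_forall fun t => ?_)
  simp only
  congr 1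
  rw [← (hF' (sh t k)).1.2 φ hφ, ← integral_sub_right_eq_self (fun x => U s k x * φ (x + t)) t]
  refine integral_congr_ae ?_
  filter_upwards [hAU t] with x hx
  rw [hx, sub_add_cancel]


/-- the probability measure with density `φ` -/
theorem nu_prob {φ : E → ℝ} (hφ : IsTest φ) (h0 : ∀ x, 0 ≤ φ x) (hi : ∫ x, φ x = 1) :
    IsProbabilityMeasure ((volume : Measure E).withDensity fun y => ENNReal.ofReal (φ y)) := by
  have hφi : Integrable φ volume := hφ.1.continuous.integrable_of_hasCompactSupport hφ.2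
  refine ⟨?_⟩
  rw [withDensity_apply _ MeasurableSet.univ, Measure.restrict_univ,
    ← ofReal_integral_eq_lintegral_ofReal hφi (Eventually.of_forall h0), hi, ENNReal.ofReal_one]

/-- Jensen -/
theorem mc_pt {p : ℝ≥0∞} (h1 : 1 ≤ p) {φ w : E → ℝ} (hφ : IsTest φ) (h0 : ∀ x, 0 ≤ φ x)
    (hi : ∫ x, φ x = 1) (hw : StronglyMeasurable w) (x : E) :
    ‖mc φ w x‖ₑ ≤ eLpNorm (fun y => w (x - y)) p
      ((volume : Measure E).withDensity fun y => ENNReal.ofReal (φ y)) := by
  have := nu_prob hφ h0 hi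
  have hφm : Measurable φ := hφ.1.continuous.measurable
  have hmx : Measurable (fun y => w (x - y)) := hw.measurable.comp (measurable_const.sub measurable_id)
  have e2 : ‖mc φ w x‖ₑ ≤ eLpNorm (fun y => w (x - y)) 1
      ((volume : Measure E).withDensity fun y => ENNReal.ofReal (φ y)) := by
    rw [mc_apply, eLpNorm_one_eq_lintegral_enorm,
      lintegral_withDensity_eq_lintegral_mul _ (by fun_prop) hmx.enorm]
    refine (enorm_integral_le_lintegral_enorm _).trans (lintegral_mono fun y => ?_)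
    rw [enorm_mul, Real.enorm_eq_ofReal (h0 y)]
    rfl
  exact e2.trans (eLpNorm_le_eLpNorm_of_exponent_le h1 hmx.aestronglyMeasurable)

/-- Young with a probability density -/
theorem mc_le {p : ℝ≥0∞} (h1 : 1 ≤ p) (hp : p ≠ ⊤) {φ w : E → ℝ} (hφ : IsTest φ)
    (h0 : ∀ x, 0 ≤ φ x) (hi : ∫ x, φ x = 1) (hw : StronglyMeasurable w) :
    eLpNorm (mc φ w) p volume ≤ eLpNorm w p volume := by
  have hp0 : p ≠ 0 := (lt_of_lt_of_le zero_lt_one h1).ne'
  have hpr : 0 < p.toReal := ENNReal.toReal_pos hp0 hp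
  have hφm : Measurable φ := hφ.1.continuous.measurable
  have hνp := nu_prob hφ h0 hi
  obtain ⟨ν, hν⟩ : ∃ ν : Measure E, ν = volume.withDensity (fun y => ENNReal.ofReal (φ y)) := ⟨_, rfl⟩
  rw [← hν] at hνp
  have hmeas : Measurable (fun q : E × E => w (q.1 - q.2)) :=
    hw.measurable.comp (measurable_fst.sub measurable_snd)
  have hpt : ∀ x, ‖mc φ w x‖ₑ ^ p.toReal ≤ ∫⁻ y, ‖w (x - y)‖ₑ ^ p.toReal ∂ν := by
    intro x
    have e3 := mc_pt h1 hφ h0 hi hw x
    rw [← hν, eLpNorm_eq_lintegral_rpow_enorm_toReal hp0 hp] at e3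
    calc ‖mc φ w x‖ₑ ^ p.toReal ≤
          ((∫⁻ y, ‖w (x - y)‖ₑ ^ p.toReal ∂ν) ^ (1 / p.toReal)) ^ p.toReal := by gcongr
      _ = ∫⁻ y, ‖w (x - y)‖ₑ ^ p.toReal ∂ν := by
          rw [← ENNReal.rpow_mul, one_div_mul_cancel hpr.ne', ENNReal.rpow_one]
  rw [eLpNorm_eq_lintegral_rpow_enorm_toReal hp0 hp, eLpNorm_eq_lintegral_rpow_enorm_toReal hp0 hp]
  refine ENNReal.rpow_le_rpow ?_ (by positivity)
  refine (lintegral_mono hpt).trans ?_
  rw [lintegral_lintegral_swap (by fun_prop)]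
  have h3 : ∀ y : E, ∫⁻ x, ‖w (x - y)‖ₑ ^ p.toReal = ∫⁻ x, ‖w x‖ₑ ^ p.toReal := fun y =>
    lintegral_sub_right_eq_self (fun x => ‖w x‖ₑ ^ p.toReal) y
  simp only [h3]
  rw [lintegral_const, measure_univ, mul_one]

/-- pointwise bound -/
theorem mc_sup {p : ℝ≥0∞} (h1 : 1 ≤ p) (hp : p ≠ ⊤) {φ w : E → ℝ} (hφ : IsTest φ)
    (h0 : ∀ x, 0 ≤ φ x) (hi : ∫ x, φ x = 1) {M : ℝ} (hM : ∀ x, φ x ≤ M) (hw : StronglyMeasurable w)
    (x : E) : ‖mc φ w x‖ₑ ≤ ENNReal.ofReal M ^ (1 / p.toReal) * eLpNorm w p volume := by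
  refine (mc_pt h1 hφ h0 hi hw x).trans ?_
  have hle : (volume : Measure E).withDensity (fun y => ENNReal.ofReal (φ y)) ≤
      ENNReal.ofReal M • volume := by
    rw [← withDensity_const]
    exact withDensity_mono (Eventually.of_forall fun y => ENNReal.ofReal_le_ofReal (hM y))
  refine (eLpNorm_mono_measure _ hle).trans ?_
  rw [eLpNorm_smul_measure_of_ne_top hp, smul_eq_mul]
  have hmp : MeasurePreserving (fun y : E => x - y) volume volume := Measure.measurePreserving_sub_left volume x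
  have h2 : eLpNorm (fun y => w (x - y)) p volume = eLpNorm w p volume :=
    eLpNorm_comp_measurePreserving hw.aestronglyMeasurable hmp
  rw [h2]
  simp

/-- interpolation with `L^∞` -/
theorem interp {q : ℝ} (hq : 0 < q) {v : E → ℝ} {M : ℝ≥0∞} (hM : M ≠ ⊤)
    (h : ∀ᵐ x, ‖v x‖ₑ ≤ M) :
    eLpNorm v (ENNReal.ofReal (2 * q)) volume ≤
      M ^ (1 / 2 : ℝ) * eLpNorm v (ENNReal.ofReal q) volume ^ (1 / 2 : ℝ) := by
  have hq0 : ENNReal.ofReal q ≠ 0 := by
    rw [Ne, ENNReal.ofReal_eq_zero, not_le]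
    exact hq
  have hq2 : ENNReal.ofReal (2 * q) ≠ 0 := by
    rw [Ne, ENNReal.ofReal_eq_zero, not_le]
    linarith
  rw [eLpNorm_eq_lintegral_rpow_enorm_toReal hq0 ENNReal.ofReal_ne_top,
    eLpNorm_eq_lintegral_rpow_enorm_toReal hq2 ENNReal.ofReal_ne_top,
    ENNReal.toReal_ofReal hq.le, ENNReal.toReal_ofReal (by linarith)]
  have h1 : ∫⁻ x, ‖v x‖ₑ ^ (2 * q) ≤ ∫⁻ x, M ^ q * ‖v x‖ₑ ^ q := by
    refine lintegral_mono_ae ?_
    filter_upwards [h] with x hx
    rw [two_mul, ENNReal.rpow_add_of_nonneg _ _ hq.le hq.le]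
    gcongr
  rw [lintegral_const_mul' _ _ (ENNReal.rpow_ne_top_of_nonneg hq.le hM)] at h1
  calc (∫⁻ x, ‖v x‖ₑ ^ (2 * q)) ^ (1 / (2 * q)) ≤ (M ^ q * ∫⁻ x, ‖v x‖ₑ ^ q) ^ (1 / (2 * q)) := by
        gcongr
    _ = M ^ (1 / 2 : ℝ) * ((∫⁻ x, ‖v x‖ₑ ^ q) ^ (1 / q)) ^ (1 / 2 : ℝ) := by
        rw [ENNReal.mul_rpow_of_nonneg _ _ (by positivity), ← ENNReal.rpow_mul, ← ENNReal.rpow_mul]
        congr 2
        · field_simp
        · field_simp

theorem sh_int (hG1 : St_Grp1) (n : ℕ) (k : K) :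
    Integrable (fun z => ph n z • sh z k) volume :=
  ((ph_test n).1.continuous.smul (hG1.2.2.2.2.2.2.2.2 k)).integrable_of_hasCompactSupport
    (ph_test n).2.smul_right

theorem ms_norm (n : ℕ) (k : K) : ‖ms (ph n) k‖ ≤ ‖k‖ := by
  unfold ms
  refine (norm_integral_le_integral_norm _).trans (le_of_eq ?_)
  have h1 : ∀ z : E, ‖ph n z • sh z k‖ = ph n z * ‖k‖ := fun z => by
    rw [norm_smul, (sh z).norm_map, Real.norm_of_nonneg (ph_nonneg n z)]
  simp only [h1]
  rw [integral_mul_const, ph_int, one_mul]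

theorem exP (hG1 : St_Grp1) :
    ∃ P : ℕ → K →L[ℝ] K, ∀ n k, P n k = ms (ph n) k := by
  refine ⟨fun n => LinearMap.mkContinuous
    { toFun := fun k => ms (ph n) k
      map_add' := fun k k' => ?_
      map_smul' := fun c k => ?_ } 1 fun k => ?_, fun n k => rfl⟩
  · unfold ms
    rw [← integral_add (sh_int hG1 n k) (sh_int hG1 n k')]
    congr 1; ext1 z
    rw [map_add, smul_add]
  · unfold ms
    rw [RingHom.id_apply, ← integral_smul]
    congr 1; ext1 z
    rw [map_smul, smul_comm]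
  · rw [one_mul]
    exact ms_norm n k

theorem abs_sg {b : ℝ} (hb : 4 < b) : |sig b| < 1 / 2 := by
  rw [sig, abs_lt]
  have h1 : 0 < 2 / b := by positivity
  have h2 : 2 / b < 1 := by rw [div_lt_one (by linarith)]; linarith
  constructor <;> linarith

theorem q0_sig {b : ℝ} (hb : 4 < b) : q0 (sig b) = ENNReal.ofReal (4 * b / 2) := by
  rw [q0, sig]
  congr 1
  have : b ≠ 0 := by linarith
  field_simp
  ring

end MolKx

open MolKx Pool.Agent.QWF.Moll in
theorem thm_MolK (hG1 : St_Grp1) (hG2 : St_Grp2) (hF : St_FldP)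
    (hA : St_ActP) : St_MolK := by
  intro b hb
  have hs := abs_sg hb
  obtain ⟨C, hC, hF', hlin, -⟩ := hF (sig b) hs
  obtain ⟨P, hP⟩ := exP hG1
  have hp : (1 : ℝ≥0∞) ≤ ENNReal.ofReal (4 * b) := by
    rw [← ENNReal.ofReal_one]
    exact ENNReal.ofReal_le_ofReal (by linarith)
  have hpt : ENNReal.ofReal (4 * b) ≠ ⊤ := ENNReal.ofReal_ne_top
  have hq : (1 : ℝ≥0∞) ≤ ENNReal.ofReal (4 * b / 2) := by
    rw [← ENNReal.ofReal_one]
    exact ENNReal.ofReal_le_ofReal (by linarith)
  have hfld : ∀ n k, U (sig b) (P n k) =ᵐ[volume] mc (ph n) (U (sig b) k) := fun n k => by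
    rw [hP]
    exact ms_fields hG1 hG2 hs hF hA (ph_test n) k
  have hmeas : ∀ k, AEStronglyMeasurable (U (sig b) k) volume := fun k => (hF' k).1.1.1
  refine ⟨P, ?_, ?_, ?_, ?_, ?_⟩
  · intro k
    simp only [hP]
    exact ms_tendsto hG1 k
  · intro n k
    rw [hP]
    exact ms_norm n k
  · intro n k
    obtain ⟨w, hw, huw⟩ := hmeas k
    unfold sn
    rw [eLpNorm_congr_ae (hfld n k), mc_congr huw, eLpNorm_congr_ae huw]
    exact mc_le hp hpt (ph_test n) (ph_nonneg n) (ph_int n) hw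
  · intro n
    obtain ⟨M, hM⟩ := (ph_test n).2.exists_bound_of_continuous (ph_test n).1.continuous
    have hM' : ∀ x, ph n x ≤ M := fun x => (le_abs_self _).trans (hM x)
    obtain ⟨A, hA'⟩ : ∃ A : ℝ≥0∞, A = ENNReal.ofReal M ^ (1 / (ENNReal.ofReal (4 * b / 2)).toReal) :=
      ⟨_, rfl⟩
    have hAt : A ≠ ⊤ := by
      rw [hA']
      exact ENNReal.rpow_ne_top_of_nonneg (by positivity) ENNReal.ofReal_ne_top
    refine ⟨A.toReal ^ (1 / 2 : ℝ) * C + 1, by positivity, fun k => ?_⟩
    obtain ⟨w, hw, huw⟩ := hmeas k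
    have h1 : ∀ᵐ x, ‖U (sig b) (P n k) x‖ₑ ≤ A * (ENNReal.ofReal C * ‖k‖ₑ) := by
      filter_upwards [hfld n k] with x hx
      rw [hx, mc_congr huw]
      refine (mc_sup hq ENNReal.ofReal_ne_top (ph_test n) (ph_nonneg n) (ph_int n) hM' hw x).trans ?_
      rw [← hA']
      gcongr
      rw [← eLpNorm_congr_ae huw]
      have := (hF' k).2.1
      rwa [q0_sig hb] at this
    have hkt : A * (ENNReal.ofReal C * ‖k‖ₑ) ≠ ⊤ :=
      ENNReal.mul_ne_top hAt (ENNReal.mul_ne_top ENNReal.ofReal_ne_top enorm_ne_top)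
    have h2 := interp (q := 4 * b / 2) (by linarith) hkt h1
    have h3 : eLpNorm (U (sig b) (P n k)) (ENNReal.ofReal (4 * b / 2)) volume ≤
        ENNReal.ofReal C * ‖k‖ₑ := by
      have h4 := (hF' (P n k)).2.1
      rw [q0_sig hb] at h4
      refine h4.trans ?_
      gcongr
      rw [enorm_le_iff_norm_le, hP]
      exact ms_norm n k
    have e0 : 2 * (4 * b / 2) = 4 * b := by ring
    rw [e0] at h2
    unfold sn
    calc eLpNorm (U (sig b) (P n k)) (ENNReal.ofReal (4 * b)) volume ≤ _ := h2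
      _ ≤ (A * (ENNReal.ofReal C * ‖k‖ₑ)) ^ (1 / 2 : ℝ) * (ENNReal.ofReal C * ‖k‖ₑ) ^ (1 / 2 : ℝ) := by
          gcongr
      _ = A ^ (1 / 2 : ℝ) * (ENNReal.ofReal C * ‖k‖ₑ) := by
          rw [ENNReal.mul_rpow_of_nonneg _ _ (by norm_num), mul_assoc, ← ENNReal.rpow_add_of_nonneg
            _ _ (by norm_num) (by norm_num)]
          norm_num
      _ = ENNReal.ofReal (A.toReal ^ (1 / 2 : ℝ) * C) * ‖k‖ₑ := by
          rw [ENNReal.ofReal_mul (by positivity), ← ENNReal.ofReal_rpow_of_nonneg (by positivity)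
            (by norm_num), ENNReal.ofReal_toReal hAt, mul_assoc]
      _ ≤ ENNReal.ofReal (A.toReal ^ (1 / 2 : ℝ) * C + 1) * ‖k‖ₑ := by
          gcongr
          linarith
  · intro k hk
    have hw : MemLp (U (sig b) k) (ENNReal.ofReal (4 * b)) volume := ⟨hmeas k, hk⟩
    refine (mc_tendsto hp hpt hw).congr fun n => ?_
    unfold sn
    have h1 := (hlin (-1) k (P n k)).1
    rw [neg_one_smul, ← sub_eq_add_neg] at h1
    have h2 : U (sig b) (k - P n k) =ᵐ[volume]
        -fun x => mc (ph n) (U (sig b) k) x - U (sig b) k x := by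
      filter_upwards [h1, hfld n k] with x h3 h4
      rw [h3, h4, Pi.neg_apply]
      ring
    rw [eLpNorm_congr_ae h2, eLpNorm_neg]

end Pool.Agent.QWF
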