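import Pool.Agent.QWF.StA2

set_option autoImplicit false

/-!
# QWF / MolP: mollification error
-/

open MeasureTheory Filter Topology Set
open scoped ENNReal NNReal RealInnerProductSpace ContDiff

namespace Pool.Agent.QWF


namespace MolPx

/-- the kernel `z ↦ ε^{-4} ρ((x - z)/ε)` -/
noncomputable def kr (ρ : E → ℝ) (ε : ℝ) (x : E) (z : E) : ℝ :=
  |(ε ^ 4)⁻¹| * ρ (ε⁻¹ • (x - z))

theorem mo_eq (ρ F : E → ℝ) {ε : ℝ} (hε : 0 < ε) (x : E) :
    ∫ y, ρ y * F (x - ε • y) = ∫ z, F z * kr ρ ε x z := by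
  have h1 : (fun y : E => ρ y * F (x - ε • y)) =
      fun y => (fun w : E => ρ (ε⁻¹ • w) * F (x - w)) (ε • y) := by
    funext y
    simp only []
    rw [smul_smul, inv_mul_cancel₀ hε.ne', one_smul]
  rw [h1, Measure.integral_comp_smul volume (fun w : E => ρ (ε⁻¹ • w) * F (x - w)) ε]
  have h2 : ∫ w : E, ρ (ε⁻¹ • w) * F (x - w) = ∫ z : E, ρ (ε⁻¹ • (x - z)) * F z := by
    rw [← integral_sub_left_eq_self (fun z : E => ρ (ε⁻¹ • (x - z)) * F z) volume x]
    congr 1
    funext w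
    rw [sub_sub_cancel]
  rw [h2, finrank_euclideanSpace_fin, smul_eq_mul, ← integral_const_mul]
  congr 1
  funext z
  rw [kr]; ring

theorem test_kr {ρ : E → ℝ} (hρ : IsTest ρ) {ε : ℝ} (hε : 0 < ε) (x : E) : IsTest (kr ρ ε x) := by
  constructor
  · have : kr ρ ε x = fun z => |(ε ^ 4)⁻¹| * ρ (ε⁻¹ • (x - z)) := rfl
    rw [this]
    refine contDiff_const.mul (hρ.1.comp ?_)
    fun_prop
  · have h1 : HasCompactSupport (fun z : E => ρ (ε⁻¹ • (x - z))) := by
      have := hρ.2.comp_homeomorph ((Homeomorph.subLeft x).trans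
        (Homeomorph.smulOfNeZero ε⁻¹ (inv_ne_zero hε.ne')))
      exact this
    exact h1.mul_left

theorem test_sub {f g : E → ℝ} (hf : IsTest f) (hg : IsTest g) : IsTest fun x => f x - g x :=
  ⟨hf.1.sub hg.1, hf.2.sub hg.2⟩

theorem test_mo {ρ f : E → ℝ} (hρ : IsTest ρ) (hf : IsTest f) {ε : ℝ} (hε : 0 < ε) :
    IsTest fun x => ∫ y, ρ y * f (x - ε • y) := by
  have h0 : IsTest (fun z : E => |(ε ^ 4)⁻¹| * ρ (ε⁻¹ • z)) := by
    constructor
    · exact contDiff_const.mul (hρ.1.comp (by fun_prop))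
    · have h1 : HasCompactSupport (fun z : E => ρ (ε⁻¹ • z)) :=
        hρ.2.comp_homeomorph (Homeomorph.smulOfNeZero ε⁻¹ (inv_ne_zero hε.ne'))
      exact h1.mul_left
  have e : (fun x => ∫ y, ρ y * f (x - ε • y)) =
      MeasureTheory.convolution (fun z : E => |(ε ^ 4)⁻¹| * ρ (ε⁻¹ • z)) f
        (ContinuousLinearMap.mul ℝ ℝ) volume := by
    funext x
    rw [mo_eq ρ f hε x, convolution_def]
    rw [← integral_sub_left_eq_self (fun z : E => f z * kr ρ ε x z) volume x]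
    congr 1
    funext w
    rw [kr, sub_sub_cancel, ContinuousLinearMap.mul_apply']
    ring
  rw [e]
  constructor
  · exact hf.2.contDiff_convolution_right _ (h0.1.continuous.locallyIntegrable) hf.1
  · exact h0.2.convolution _ hf.2

theorem ft_mo {ρ f : E → ℝ} (hρ : IsTest ρ) (hf : IsTest f) {ε : ℝ} (_hε : 0 < ε) (ξ : E) :
    ft (fun x => ∫ y, ρ y * f (x - ε • y)) ξ = ft ρ (ε • ξ) * ft f ξ := by
  have hρi : Integrable ρ volume := hρ.1.continuous.integrable_of_hasCompactSupport hρ.2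
  have hfi : Integrable f volume := hf.1.continuous.integrable_of_hasCompactSupport hf.2
  -- the character
  have hex : ∀ t : ℝ, ‖Complex.exp (-2 * Real.pi * Complex.I * (t : ℂ))‖ = 1 := by
    intro t
    rw [show (-2 * Real.pi * Complex.I * (t : ℂ) : ℂ) = ((-2 * Real.pi * t : ℝ) : ℂ) * Complex.I by
      push_cast; ring, Complex.norm_exp_ofReal_mul_I]
  have hmp : MeasurePreserving (fun z : E × E => (z.1, z.2 - ε • z.1)) (volume.prod volume)
      (volume.prod volume) := by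
    refine MeasurePreserving.skew_product (g := fun (w : E) (p : E) => p - ε • w)
      (MeasurePreserving.id volume) ?_ ?_
    · fun_prop
    · exact Eventually.of_forall fun w => (measurePreserving_sub_right volume (ε • w)).map_eq
  have hint : Integrable (fun z : E × E => (ρ z.1 * f (z.2 - ε • z.1) : ℝ))
      (volume.prod volume) := by
    have h1 : Integrable (fun z : E × E => ρ z.1 * f z.2) (volume.prod volume) := hρi.mul_prod hfi
    exact hmp.integrable_comp_of_integrable h1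
  have hint2 : Integrable (fun z : E × E => ((ρ z.1 * f (z.2 - ε • z.1) : ℝ) : ℂ) *
      Complex.exp (-2 * Real.pi * Complex.I * ((inner ℝ z.2 ξ : ℝ) : ℂ))) (volume.prod volume) := by
    refine hint.ofReal.mul_bdd (c := 1) ?_ (Eventually.of_forall fun z => ?_)
    · fun_prop
    · rw [hex]
  calc ft (fun x => ∫ y, ρ y * f (x - ε • y)) ξ
      = ∫ x, ∫ y, ((ρ y * f (x - ε • y) : ℝ) : ℂ) *
          Complex.exp (-2 * Real.pi * Complex.I * ((inner ℝ x ξ : ℝ) : ℂ)) := by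
        unfold ft
        congr 1
        funext x
        rw [integral_mul_const, integral_complex_ofReal]
    _ = ∫ y, ∫ x, ((ρ y * f (x - ε • y) : ℝ) : ℂ) *
          Complex.exp (-2 * Real.pi * Complex.I * ((inner ℝ x ξ : ℝ) : ℂ)) := by
        rw [integral_integral_swap]
        exact hint2.swap
    _ = ∫ y, ((ρ y : ℂ) * Complex.exp (-2 * Real.pi * Complex.I * ((inner ℝ y (ε • ξ) : ℝ) : ℂ))) *
          ft f ξ := by
        congr 1
        funext y
        unfold ft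
        rw [← integral_sub_right_eq_self (fun x : E => (f x : ℂ) *
          Complex.exp (-2 * Real.pi * Complex.I * ((inner ℝ x ξ : ℝ) : ℂ))) (ε • y),
          ← integral_const_mul]
        congr 1
        funext x
        rw [inner_sub_left, real_inner_smul_left, real_inner_smul_right]
        have : Complex.exp (-2 * Real.pi * Complex.I * ((inner ℝ x ξ : ℝ) : ℂ)) =
            Complex.exp (-2 * Real.pi * Complex.I * ((ε * inner ℝ y ξ : ℝ) : ℂ)) *
            Complex.exp (-2 * Real.pi * Complex.I * ((inner ℝ x ξ - ε * inner ℝ y ξ : ℝ) : ℂ)) := by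
          rw [← Complex.exp_add]
          congr 1
          push_cast
          ring
        rw [this]
        push_cast
        ring
    _ = ft ρ (ε • ξ) * ft f ξ := by
        rw [integral_mul_const]
        rfl

/-- `|1 - cos t| ≤ 2 |t|^a` for `0 ≤ a ≤ 2`. -/
theorem one_sub_cos_le {a : ℝ} (ha0 : 0 ≤ a) (ha2 : a ≤ 2) (t : ℝ) : |1 - Real.cos t| ≤ 2 * |t| ^ a := by
  rcases le_total |t| 1 with h | h
  · have h1 : |1 - Real.cos t| ≤ t ^ 2 / 2 := by
      rw [abs_of_nonneg (by linarith [Real.cos_le_one t])]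
      linarith [Real.one_sub_sq_div_two_le_cos (x := t)]
    have h2 : |t| ^ (2 : ℝ) ≤ |t| ^ a := Real.rpow_le_rpow_of_exponent_ge' (abs_nonneg _) h ha0 ha2
    rw [Real.rpow_two, sq_abs] at h2
    have h4 : 0 ≤ |t| ^ a := Real.rpow_nonneg (abs_nonneg t) a
    linarith
  · have h1 : (1 : ℝ) ≤ |t| ^ a := Real.one_le_rpow h ha0
    have h2 : |1 - Real.cos t| ≤ 2 := by
      rw [abs_of_nonneg (by linarith [Real.cos_le_one t])]
      linarith [Real.neg_one_le_cos t]
    linarith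

/-- The multiplier bound. -/
theorem mult_bd {ρ : E → ℝ} (hρ : IsTest ρ) (h1 : ∫ x, ρ x = 1) (he : ∀ x, ρ (-x) = ρ x) {a : ℝ}
    (ha0 : 0 ≤ a) (ha2 : a ≤ 2) : ∃ C : ℝ, 0 < C ∧ ∀ η : E,
      ‖(1 : ℂ) - ft ρ η‖ ≤ C * (2 * Real.pi * ‖η‖) ^ a := by
  have hρi : Integrable ρ volume := hρ.1.continuous.integrable_of_hasCompactSupport hρ.2
  have hci : Integrable (fun x => |ρ x| * ‖x‖ ^ a) volume := by
    refine Continuous.integrable_of_hasCompactSupport ?_ ?_
    · exact hρ.1.continuous.abs.mul (continuous_norm.rpow_const fun x => Or.inr ha0)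
    · exact hρ.2.abs.mul_right
  refine ⟨2 * (∫ x, |ρ x| * ‖x‖ ^ a) + 1, ?_, fun η => ?_⟩
  · have : 0 ≤ ∫ x, |ρ x| * ‖x‖ ^ a := integral_nonneg fun x => by positivity
    positivity
  have hex : ∀ t : ℝ, ‖Complex.exp (-2 * Real.pi * Complex.I * (t : ℂ))‖ = 1 := by
    intro t
    rw [show (-2 * Real.pi * Complex.I * (t : ℂ) : ℂ) = ((-2 * Real.pi * t : ℝ) : ℂ) * Complex.I by
      push_cast; ring, Complex.norm_exp_ofReal_mul_I]
  have hei : ∀ η : E, Integrable (fun x => (ρ x : ℂ) *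
      Complex.exp (-2 * Real.pi * Complex.I * ((inner ℝ x η : ℝ) : ℂ))) volume := by
    intro η
    refine hρi.ofReal.mul_bdd (c := 1) (by fun_prop) (Eventually.of_forall fun x => ?_)
    rw [hex]
  have hneg : ft ρ η = ft ρ (-η) := by
    unfold ft
    rw [← integral_neg_eq_self]
    congr 1
    funext x
    rw [he, inner_neg_left, inner_neg_right]
  have hsum : ft ρ η + ft ρ (-η) = ∫ x, (((2 : ℝ) * (ρ x * Real.cos (2 * Real.pi * inner ℝ x η)) : ℝ) : ℂ) := by
    unfold ft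
    rw [← integral_add (hei η) (hei (-η))]
    congr 1
    funext x
    rw [inner_neg_right]
    push_cast
    rw [← mul_add]
    have h2 : Complex.exp (-2 * Real.pi * Complex.I * ((inner ℝ x η : ℝ) : ℂ)) +
        Complex.exp (-2 * Real.pi * Complex.I * (-((inner ℝ x η : ℝ) : ℂ))) =
        2 * Complex.cos (2 * Real.pi * ((inner ℝ x η : ℝ) : ℂ)) := by
      rw [Complex.cos]
      have e1 : -2 * (Real.pi : ℂ) * Complex.I * ((inner ℝ x η : ℝ) : ℂ) =
        -(2 * (Real.pi : ℂ) * ((inner ℝ x η : ℝ) : ℂ)) * Complex.I := by ring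
      have e2 : -2 * (Real.pi : ℂ) * Complex.I * (-((inner ℝ x η : ℝ) : ℂ)) =
        (2 * (Real.pi : ℂ) * ((inner ℝ x η : ℝ) : ℂ)) * Complex.I := by ring
      rw [e1, e2]
      ring
    rw [h2]; ring
  have hcosi : Integrable (fun x => ρ x * Real.cos (2 * Real.pi * inner ℝ x η)) volume := by
    refine hρi.mul_bdd (c := 1) ?_ (Eventually.of_forall fun x => ?_)
    · fun_prop
    · rw [Real.norm_eq_abs]; exact Real.abs_cos_le_one _
  have hft : ft ρ η = ((∫ x, ρ x * Real.cos (2 * Real.pi * inner ℝ x η) : ℝ) : ℂ) := by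
    have h3 : ft ρ η + ft ρ η = ((2 * ∫ x, ρ x * Real.cos (2 * Real.pi * inner ℝ x η) : ℝ) : ℂ) := by
      nth_rw 2 [hneg]
      rw [hsum, ← integral_const_mul, integral_complex_ofReal]
    have h4 : (2 : ℂ) * ft ρ η = 2 * ((∫ x, ρ x * Real.cos (2 * Real.pi * inner ℝ x η) : ℝ) : ℂ) := by
      rw [two_mul, h3]; push_cast; ring
    exact mul_left_cancel₀ two_ne_zero h4
  have hdiff : (1 : ℝ) - (∫ x, ρ x * Real.cos (2 * Real.pi * inner ℝ x η)) =
      ∫ x, ρ x * (1 - Real.cos (2 * Real.pi * inner ℝ x η)) := by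
    have h7 : (1 : ℝ) - (∫ x, ρ x * Real.cos (2 * Real.pi * inner ℝ x η)) =
        (∫ x, ρ x) - ∫ x, ρ x * Real.cos (2 * Real.pi * inner ℝ x η) := by rw [h1]
    rw [h7, ← integral_sub hρi hcosi]
    congr 1
    funext x
    ring
  have hle : |(1 : ℝ) - (∫ x, ρ x * Real.cos (2 * Real.pi * inner ℝ x η))| ≤
      (2 * ∫ x, |ρ x| * ‖x‖ ^ a) * (2 * Real.pi * ‖η‖) ^ a := by
    rw [hdiff]
    calc |∫ x, ρ x * (1 - Real.cos (2 * Real.pi * inner ℝ x η))|
        ≤ ∫ x, |ρ x * (1 - Real.cos (2 * Real.pi * inner ℝ x η))| := abs_integral_le_integral_abs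
      _ ≤ ∫ x, (2 * (2 * Real.pi * ‖η‖) ^ a) * (|ρ x| * ‖x‖ ^ a) := by
          refine integral_mono_of_nonneg (Eventually.of_forall fun x => abs_nonneg _)
            (hci.const_mul _) (Eventually.of_forall fun x => ?_)
          simp only []
          rw [abs_mul]
          have h5 := one_sub_cos_le ha0 ha2 (2 * Real.pi * inner ℝ x η)
          have h6 : |2 * Real.pi * inner ℝ x η| ^ a ≤ (2 * Real.pi * ‖η‖ * ‖x‖) ^ a := by
            refine Real.rpow_le_rpow (abs_nonneg _) ?_ ha0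
            rw [abs_mul, abs_of_pos (by positivity : (0 : ℝ) < 2 * Real.pi)]
            have := abs_real_inner_le_norm x η
            calc 2 * Real.pi * |inner ℝ x η| ≤ 2 * Real.pi * (‖x‖ * ‖η‖) := by gcongr
              _ = 2 * Real.pi * ‖η‖ * ‖x‖ := by ring
          rw [Real.mul_rpow (by positivity) (norm_nonneg _)] at h6
          calc |ρ x| * |1 - Real.cos (2 * Real.pi * inner ℝ x η)|
              ≤ |ρ x| * (2 * ((2 * Real.pi * ‖η‖) ^ a * ‖x‖ ^ a)) := by
                gcongr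
                exact h5.trans (by gcongr)
            _ = (2 * (2 * Real.pi * ‖η‖) ^ a) * (|ρ x| * ‖x‖ ^ a) := by ring
      _ = (2 * ∫ x, |ρ x| * ‖x‖ ^ a) * (2 * Real.pi * ‖η‖) ^ a := by
          rw [integral_const_mul]; ring
  have hn : ‖(1 : ℂ) - ft ρ η‖ = |(1 : ℝ) - (∫ x, ρ x * Real.cos (2 * Real.pi * inner ℝ x η))| := by
    rw [hft, ← Complex.ofReal_one, ← Complex.ofReal_sub, Complex.norm_real, Real.norm_eq_abs]
  rw [hn]
  refine hle.trans ?_
  have : 0 ≤ (2 * Real.pi * ‖η‖) ^ a := by positivity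
  nlinarith

/-- The error for test functions. -/
theorem test_err (hFt : St_Ft) (hHs : St_Hs) (hIso : St_IsoP) {s : ℝ} (hs2 : |s| < 1 / 2)
    {ρ : E → ℝ} (hρ : IsTest ρ) {C : ℝ} (hC : 0 < C)
    (hb : ∀ η : E, ‖(1 : ℂ) - ft ρ η‖ ≤ C * (2 * Real.pi * ‖η‖) ^ (1 / 2 + s)) {f : E → ℝ}
    (hf : IsTest f) {ε : ℝ} (hε : 0 < ε) :
    eLpNorm (fun x => f x - ∫ y, ρ y * f (x - ε • y)) 2 volume ≤
      ENNReal.ofReal (C * ε ^ (1 / 2 + s) * √(hs (1 / 2 + s) f)) := by
  have hs1 : 0 < 1 / 2 + s := by linarith [(abs_lt.1 hs2).1]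
  have hg : IsTest fun x => f x - ∫ y, ρ y * f (x - ε • y) := test_sub hf (test_mo hρ hf hε)
  have hfS : IsSch f := hFt.1 f hf
  have hgS : IsSch fun x => f x - ∫ y, ρ y * f (x - ε • y) := hFt.1 _ hg
  have hm := test_mo hρ hf hε
  have hex : ∀ t : ℝ, ‖Complex.exp (-2 * Real.pi * Complex.I * (t : ℂ))‖ = 1 := by
    intro t
    rw [show (-2 * Real.pi * Complex.I * (t : ℂ) : ℂ) = ((-2 * Real.pi * t : ℝ) : ℂ) * Complex.I by
      push_cast; ring, Complex.norm_exp_ofReal_mul_I]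
  have hei : ∀ (u : E → ℝ), IsTest u → ∀ η : E, Integrable (fun x => (u x : ℂ) *
      Complex.exp (-2 * Real.pi * Complex.I * ((inner ℝ x η : ℝ) : ℂ))) volume := by
    intro u hu η
    have hui : Integrable u volume := hu.1.continuous.integrable_of_hasCompactSupport hu.2
    refine hui.ofReal.mul_bdd (c := 1) (by fun_prop) (Eventually.of_forall fun x => ?_)
    rw [hex]
  have hft : ∀ ξ, ft (fun x => f x - ∫ y, ρ y * f (x - ε • y)) ξ = (1 - ft ρ (ε • ξ)) * ft f ξ := by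
    intro ξ
    rw [sub_mul, one_mul, ← ft_mo hρ hf hε ξ]
    unfold ft
    rw [← integral_sub (hei f hf ξ) (hei _ hm ξ)]
    congr 1
    funext x
    push_cast
    ring
  have hint : Integrable (fun ξ => (2 * Real.pi * ‖ξ‖) ^ (2 * (1 / 2 + s)) * ‖ft f ξ‖ ^ 2) volume :=
    (hIso s f f (by linarith) (abs_lt.1 hs2).2 hfS hfS).2.2.2.2.2.2.2.2.2 (1 / 2 + s) (by linarith)
  have h0 : ∫ x, (f x - ∫ y, ρ y * f (x - ε • y)) ^ 2 ≤ (C * ε ^ (1 / 2 + s)) ^ 2 * hs (1 / 2 + s) f := by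
    rw [← hHs.1 _ hgS, hs, hs, ← integral_const_mul]
    refine integral_mono_of_nonneg (Eventually.of_forall fun ξ => by positivity)
      (hint.const_mul _) (Eventually.of_forall fun ξ => ?_)
    simp only []
    rw [hft, mul_zero, Real.rpow_zero, one_mul, norm_mul, mul_pow]
    have h2 := hb (ε • ξ)
    rw [norm_smul, Real.norm_eq_abs, abs_of_pos hε] at h2
    have h3 : (2 * Real.pi * (ε * ‖ξ‖)) ^ (1 / 2 + s) = ε ^ (1 / 2 + s) * (2 * Real.pi * ‖ξ‖) ^ (1 / 2 + s) := by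
      rw [← Real.mul_rpow hε.le (by positivity)]
      congr 1
      ring
    rw [h3] at h2
    have h4 : (2 * Real.pi * ‖ξ‖) ^ (2 * (1 / 2 + s)) = ((2 * Real.pi * ‖ξ‖) ^ (1 / 2 + s)) ^ 2 := by
      rw [mul_comm 2 (1 / 2 + s), Real.rpow_mul (by positivity), Real.rpow_two]
    rw [h4]
    calc ‖1 - ft ρ (ε • ξ)‖ ^ 2 * ‖ft f ξ‖ ^ 2
        ≤ (C * (ε ^ (1 / 2 + s) * (2 * Real.pi * ‖ξ‖) ^ (1 / 2 + s))) ^ 2 * ‖ft f ξ‖ ^ 2 := by gcongr
      _ = (C * ε ^ (1 / 2 + s)) ^ 2 * (((2 * Real.pi * ‖ξ‖) ^ (1 / 2 + s)) ^ 2 * ‖ft f ξ‖ ^ 2) := by ring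
  have hmem : MemLp (fun x => f x - ∫ y, ρ y * f (x - ε • y)) 2 volume :=
    hg.1.continuous.memLp_of_hasCompactSupport hg.2
  rw [hmem.eLpNorm_eq_integral_rpow_norm two_ne_zero ENNReal.ofNat_ne_top]
  refine ENNReal.ofReal_le_ofReal ?_
  have e2 : (2 : ℝ≥0∞).toReal = 2 := by simp
  rw [e2]
  have e3 : ∀ x, ‖f x - ∫ y, ρ y * f (x - ε • y)‖ ^ (2 : ℝ) = (f x - ∫ y, ρ y * f (x - ε • y)) ^ 2 := by
    intro x
    rw [Real.rpow_two, Real.norm_eq_abs, sq_abs]
  simp only [e3]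
  have hnn : 0 ≤ hs (1 / 2 + s) f := integral_nonneg fun ξ => by positivity
  calc (∫ x, (f x - ∫ y, ρ y * f (x - ε • y)) ^ 2) ^ (2 : ℝ)⁻¹
      ≤ ((C * ε ^ (1 / 2 + s)) ^ 2 * hs (1 / 2 + s) f) ^ (2 : ℝ)⁻¹ := by
        refine Real.rpow_le_rpow (integral_nonneg fun x => by positivity) h0 (by norm_num)
    _ = C * ε ^ (1 / 2 + s) * √(hs (1 / 2 + s) f) := by
        rw [Real.sqrt_eq_rpow, Real.mul_rpow (by positivity) hnn, ← Real.rpow_natCast (C * ε ^ (1 / 2 + s)) 2,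
          ← Real.rpow_mul (by positivity)]
        norm_num

/-- Passage to the limit. -/
theorem lim_err {ρ : E → ℝ} {ε : ℝ} (hε : 0 < ε) {q : ℝ≥0∞} (hq : q ≠ 0) {F : E → ℝ}
    {Fn : ℕ → E → ℝ} {B : ℕ → ℝ} {B' : ℝ} (hρ : IsTest ρ) (hF : AEStronglyMeasurable F volume)
    (hFn : ∀ n, IsTest (Fn n)) (h1 : Tendsto (fun n => eLpNorm (Fn n - F) q volume) atTop (𝓝 0))
    (h2 : ∀ φ, IsTest φ → Tendsto (fun n => ∫ x, Fn n x * φ x) atTop (𝓝 (∫ x, F x * φ x)))
    (h3 : ∀ n, eLpNorm (fun x => Fn n x - ∫ y, ρ y * Fn n (x - ε • y)) 2 volume ≤ ENNReal.ofReal (B n))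
    (h4 : Tendsto B atTop (𝓝 B')) :
    eLpNorm (fun x => F x - ∫ y, ρ y * F (x - ε • y)) 2 volume ≤ ENNReal.ofReal B' := by
  obtain ⟨ns, hns, hae⟩ := (tendstoInMeasure_of_tendsto_eLpNorm hq
    (fun n => (hFn n).1.continuous.aestronglyMeasurable) hF h1).exists_seq_tendsto_ae
  have hlim : ∀ᵐ x : E, Tendsto (fun n => Fn (ns n) x - ∫ y, ρ y * Fn (ns n) (x - ε • y)) atTop
      (𝓝 (F x - ∫ y, ρ y * F (x - ε • y))) := by
    filter_upwards [hae] with x hx
    refine hx.sub ?_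
    simp only [mo_eq ρ _ hε x]
    exact (h2 _ (test_kr hρ hε x)).comp hns.tendsto_atTop
  refine (Lp.eLpNorm_lim_le_liminf_eLpNorm (fun n => ?_) _ hlim).trans ?_
  · exact (test_sub (hFn (ns n)) (test_mo hρ (hFn (ns n)) hε)).1.continuous.aestronglyMeasurable
  · have h5 : Tendsto (fun n => ENNReal.ofReal (B (ns n))) atTop (𝓝 (ENNReal.ofReal B')) :=
      ENNReal.tendsto_ofReal (h4.comp hns.tendsto_atTop)
    rw [← h5.liminf_eq]
    exact liminf_le_liminf (Eventually.of_forall fun n => h3 (ns n))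

theorem test_pd {f : E → ℝ} (hf : IsTest f) (i : Fin 4) : IsTest (pd i f) := by
  constructor
  · have h1 : ContDiff ℝ ∞ (fderiv ℝ f) := hf.1.fderiv_right (m := ∞) (by simp)
    exact h1.clm_apply contDiff_const
  · have h1 : HasCompactSupport (fderiv ℝ f) := hf.2.fderiv ℝ
    exact h1.comp_left (g := fun L : E →L[ℝ] ℝ => L (EuclideanSpace.single i (1 : ℝ))) (by simp)

end MolPx

open MolPx in
theorem thm_MolP (hFt : St_Ft) (hHs : St_Hs) (hIso : St_IsoP) (hDns : St_DnsP) (hFld : St_FldP) :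
    St_MolP := by
  intro s ρ hs2 hρ h1 he
  have hsl := abs_lt.1 hs2
  obtain ⟨C, hC, hb⟩ := mult_bd hρ h1 he (a := 1 / 2 + s) (by linarith) (by linarith)
  obtain ⟨CF, hCF, hfl, hlin, htest⟩ := hFld s hs2
  have hc0 : 0 < c0 := by
    rw [c0]; positivity
  refine ⟨C / √c0, by positivity, fun k ε hε => ?_⟩
  have hq : q1 s ≠ 0 := by
    rw [q1, Ne, ENNReal.ofReal_eq_zero, not_le]
    exact div_pos (by norm_num) (by linarith)
  -- approximation
  have happ : ∀ n : ℕ, ∃ f g : E → ℝ, IsTest f ∧ IsTest g ∧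
      ‖k - Theta s f g‖ < 1 / ((n : ℝ) + 1) := fun n =>
    (hDns s (by linarith) hsl.2).2.1 k (1 / ((n : ℝ) + 1)) (by positivity)
  choose f g hf hg hfg using happ
  have hk : Tendsto (fun n => Theta s (f n) (g n)) atTop (𝓝 k) := by
    rw [tendsto_iff_norm_sub_tendsto_zero]
    refine squeeze_zero (fun n => norm_nonneg _) (fun n => ?_)
      tendsto_one_div_add_atTop_nhds_zero_nat
    rw [norm_sub_rev]
    exact (hfg n).le
  have hkn : Tendsto (fun n => ‖Theta s (f n) (g n)‖) atTop (𝓝 ‖k‖) := hk.norm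
  have hkd : Tendsto (fun n => ENNReal.ofReal CF * ‖Theta s (f n) (g n) + (-1 : ℝ) • k‖ₑ) atTop
      (𝓝 0) := by
    have h5 : Tendsto (fun n => ‖Theta s (f n) (g n) + (-1 : ℝ) • k‖ₑ) atTop (𝓝 0) := by
      have h6 : Tendsto (fun n => Theta s (f n) (g n) + (-1 : ℝ) • k) atTop (𝓝 0) := by
        have h61 : Tendsto (fun n => Theta s (f n) (g n) + (-1 : ℝ) • k) atTop
            (𝓝 (k + (-1 : ℝ) • k)) := hk.add_const ((-1 : ℝ) • k)
        have h62 : k + (-1 : ℝ) • k = 0 := by rw [neg_one_smul, add_neg_cancel]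
        rwa [h62] at h61
      have h7 := h6.enorm
      rwa [enorm_zero] at h7
    have := ENNReal.Tendsto.const_mul h5 (Or.inr (ENNReal.ofReal_ne_top (r := CF)))
    rwa [mul_zero] at this
  have hBt : Tendsto (fun n => C * ε ^ (1 / 2 + s) * (‖Theta s (f n) (g n)‖ / √c0)) atTop
      (𝓝 (C * ε ^ (1 / 2 + s) * (‖k‖ / √c0))) :=
    (hkn.div_const _).const_mul _
  have hfin : ENNReal.ofReal (C * ε ^ (1 / 2 + s) * (‖k‖ / √c0)) =
      ENNReal.ofReal (C / √c0 * ε ^ (1 / 2 + s)) * ‖k‖ₑ := by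
    rw [← ofReal_norm, ← ENNReal.ofReal_mul (by positivity)]
    congr 1
    ring
  have hnn : ∀ (a : ℝ) (u : E → ℝ), 0 ≤ hs a u := fun a u => integral_nonneg fun ξ => by positivity
  have hnorm : ∀ n, ‖Theta s (f n) (g n)‖ ^ 2 = c0 * (hs (3 / 2 + s) (f n) + hs (1 / 2 + s) (g n)) := fun n =>
    (hIso s (f n) (g n) (by linarith) hsl.2 (hFt.1 _ (hf n)) (hFt.1 _ (hg n))).2.2.2.2.2.2.2.2.1
  have hsq : ∀ (n : ℕ) (X : ℝ), X ≤ hs (3 / 2 + s) (f n) + hs (1 / 2 + s) (g n) →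
      √X ≤ ‖Theta s (f n) (g n)‖ / √c0 := by
    intro n X hX
    rw [le_div_iff₀ (Real.sqrt_pos.2 hc0)]
    rcases le_or_gt X 0 with hX0 | hX0
    · rw [Real.sqrt_eq_zero_of_nonpos hX0, zero_mul]; exact norm_nonneg _
    rw [← Real.sqrt_mul hX0.le]
    refine Real.sqrt_le_iff.2 ⟨norm_nonneg _, ?_⟩
    rw [hnorm n, mul_comm]
    gcongr
  refine ⟨fun i => ?_, ?_⟩
  · rw [← hfin]
    refine lim_err (Fn := fun n => pd i (f n)) (q := q1 s) hε hq hρ
      ((hfl k).2.2.2.2.1 i).1.aestronglyMeasurable (fun n => test_pd (hf n) i) ?_ ?_ (fun n => ?_) hBt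
    · refine tendsto_of_tendsto_of_tendsto_of_le_of_le tendsto_const_nhds hkd
        (fun n => zero_le) (fun n => ?_)
      have h8 : (pd i (f n) - DU s k i) =ᵐ[volume] DU s (Theta s (f n) (g n) + (-1 : ℝ) • k) i := by
        filter_upwards [(hlin (-1) (Theta s (f n) (g n)) k).2.2 i, (htest _ _ (hf n) (hg n)).2.2 i]
          with x hx hx'
        rw [hx, hx', Pi.sub_apply]; ring
      rw [eLpNorm_congr_ae h8]
      exact ((hfl _).2.2.2.2.1 i).2.2
    · intro φ hφ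
      have hw : ∀ κ : K, ∫ x, DU s κ i x * φ x = - inner ℝ κ (Rs s (pd i φ)) := by
        intro κ
        have h9 := ((hfl κ).2.2.2.2.1 i).2.1 φ hφ
        have h10 := (hfl κ).1.2 (pd i φ) (test_pd hφ i)
        rw [← h10, h9, neg_neg]
      have h11 : ∀ n, ∫ x, pd i (f n) x * φ x = ∫ x, DU s (Theta s (f n) (g n)) i x * φ x := by
        intro n
        refine integral_congr_ae ?_
        filter_upwards [(htest _ _ (hf n) (hg n)).2.2 i] with x hx
        rw [hx]
      simp only [h11, hw]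
      exact (hk.inner tendsto_const_nhds).neg
    · refine (test_err hFt hHs hIso hs2 hρ hC hb (test_pd (hf n) i) hε).trans ?_
      refine ENNReal.ofReal_le_ofReal ?_
      have h12 : hs (1 / 2 + s) (pd i (f n)) ≤ hs (3 / 2 + s) (f n) := by
        have h13 := hHs.2.2.2.2.2.1 (1 / 2 + s) (f n) (by linarith) (hFt.1 _ (hf n))
        have h14 : (1 / 2 + s) + 1 = 3 / 2 + s := by ring
        rw [h14] at h13
        rw [← h13]
        exact Finset.single_le_sum (f := fun i => hs (1 / 2 + s) (pd i (f n)))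
          (fun j _ => hnn (1 / 2 + s) (pd j (f n))) (Finset.mem_univ i)
      have h15 := hsq n (hs (1 / 2 + s) (pd i (f n))) (h12.trans (le_add_of_nonneg_right (hnn _ _)))
      gcongr
  · rw [← hfin]
    refine lim_err (Fn := g) (q := q1 s) hε hq hρ
      (hfl k).2.2.1.1.aestronglyMeasurable hg ?_ ?_ (fun n => ?_) hBt
    · refine tendsto_of_tendsto_of_tendsto_of_le_of_le tendsto_const_nhds hkd
        (fun n => zero_le) (fun n => ?_)
      have h8 : (g n - V s k) =ᵐ[volume] V s (Theta s (f n) (g n) + (-1 : ℝ) • k) := by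
        filter_upwards [(hlin (-1) (Theta s (f n) (g n)) k).2.1, (htest _ _ (hf n) (hg n)).2.1]
          with x hx hx'
        rw [hx, hx', Pi.sub_apply]; ring
      rw [eLpNorm_congr_ae h8]
      exact (hfl _).2.2.2.1
    · intro φ hφ
      have hw : ∀ κ : K, ∫ x, V s κ x * φ x = inner ℝ κ (dRs s φ) := fun κ =>
        (hfl κ).2.2.1.2 φ hφ
      have h11 : ∀ n, ∫ x, g n x * φ x = ∫ x, V s (Theta s (f n) (g n)) x * φ x := by
        intro n
        refine integral_congr_ae ?_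
        filter_upwards [(htest _ _ (hf n) (hg n)).2.1] with x hx
        rw [hx]
      simp only [h11, hw]
      exact hk.inner tendsto_const_nhds
    · refine (test_err hFt hHs hIso hs2 hρ hC hb (hg n) hε).trans ?_
      refine ENNReal.ofReal_le_ofReal ?_
      have h15 := hsq n (hs (1 / 2 + s) (g n)) (le_add_of_nonneg_left (hnn _ _))
      gcongr

end Pool.Agent.QWF
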