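import Pool.Agent.QWF.StB2
import Pool.Agent.QWF.EnR

/-!
# QWF: the Morawetz form on the energy space (`MorF`, port of QWP.MorF)
-/

set_option autoImplicit false

open MeasureTheory Filter Topology Set
open scoped ENNReal NNReal RealInnerProductSpace ContDiff

namespace Pool.Agent.QWF

namespace MorFx

/-- The space. -/
noncomputable abbrev Hs := Lp ℝ 2 (volume : Measure E)

/-- The element given by a function. -/
noncomputable def toH (f : E → ℝ) : Hs := by
  classical exact if h : MemLp f 2 volume then h.toLp f else 0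

theorem toH_coe {f : E → ℝ} (h : MemLp f 2 volume) : (toH f : E → ℝ) =ᵐ[volume] f := by
  simp only [toH, dif_pos h]
  exact h.coeFn_toLp

theorem toH_eq {f : E → ℝ} (h : MemLp f 2 volume) : toH f = h.toLp f := by
  simp only [toH, dif_pos h]

theorem inner_toH {f g : E → ℝ} (hf : MemLp f 2 volume) (hg : MemLp g 2 volume) :
    inner ℝ (toH f) (toH g) = ∫ x, f x * g x := by
  rw [L2.inner_def]
  apply integral_congr_ae
  filter_upwards [toH_coe hf, toH_coe hg] with x h1 h2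
  rw [h1, h2]
  simp [mul_comm]

theorem inner_toH' (w : Hs) {g : E → ℝ} (hg : MemLp g 2 volume) :
    inner ℝ w (toH g) = ∫ x, w x * g x := by
  rw [L2.inner_def]
  apply integral_congr_ae
  filter_upwards [toH_coe hg] with x h2
  rw [h2]
  simp [mul_comm]

theorem toH_sub {f g : E → ℝ} (hf : MemLp f 2 volume) (hg : MemLp g 2 volume) :
    toH f - toH g = toH (fun x => f x - g x) := by
  have h : MemLp (fun x => f x - g x) 2 volume := hf.sub hg
  rw [toH_eq hf, toH_eq hg, toH_eq h, ← MemLp.toLp_sub]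
  rfl

theorem norm_toH {f : E → ℝ} (hf : MemLp f 2 volume) : ‖toH f‖ = (eLpNorm f 2 volume).toReal := by
  rw [toH_eq hf, Lp.norm_toLp]

theorem enorm_toH {f : E → ℝ} (hf : MemLp f 2 volume) : ‖toH f‖ₑ = eLpNorm f 2 volume := by
  rw [toH_eq hf, Lp.enorm_toLp]

theorem sq_toH {f : E → ℝ} (hf : MemLp f 2 volume) : ‖toH f‖ ^ 2 = ∫ x, f x ^ 2 := by
  rw [← real_inner_self_eq_norm_sq, inner_toH hf hf]
  apply integral_congr_ae
  filter_upwards with x
  ring

/-- the multiplier -/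
noncomputable def mult (u : E → ℝ) (G : Fin 4 → E → ℝ) (x : E) : ℝ :=
  (∑ i, x i * G i x) / √(1 + ‖x‖ ^ 2) + (1 / (√(1 + ‖x‖ ^ 2)) ^ 3 + 3 / √(1 + ‖x‖ ^ 2)) / 2 * u x

lemma mult_lin (u u' : E → ℝ) (G G' : Fin 4 → E → ℝ) (c : ℝ) (x : E) :
    mult (fun x => u x + c * u' x) (fun i x => G i x + c * G' i x) x =
      mult u G x + c * mult u' G' x := by
  unfold mult
  have h : ∑ i, x i * (G i x + c * G' i x) = (∑ i, x i * G i x) + c * ∑ i, x i * G' i x := by
    rw [Finset.mul_sum, ← Finset.sum_add_distrib]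
    refine Finset.sum_congr rfl fun i _ => ?_
    ring
  rw [h]
  ring

lemma mult_congr {u u' : E → ℝ} {G G' : Fin 4 → E → ℝ} (hu : u =ᵐ[volume] u')
    (hG : ∀ i, G i =ᵐ[volume] G' i) : mult u G =ᵐ[volume] mult u' G' := by
  have h : ∀ᵐ x, ∀ i, G i x = G' i x := ae_all_iff.2 hG
  filter_upwards [hu, h] with x h1 h2
  unfold mult
  rw [h1]
  simp only [h2]

lemma toH_congr {f g : E → ℝ} (hf : MemLp f 2 volume) (hg : MemLp g 2 volume)
    (h : f =ᵐ[volume] g) : toH f = toH g := by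
  rw [toH_eq hf, toH_eq hg]
  exact MemLp.toLp_congr hf hg h

lemma toH_lin {f g : E → ℝ} (hf : MemLp f 2 volume) (hg : MemLp g 2 volume) (c : ℝ) :
    toH (fun x => f x + c * g x) = toH f + c • toH g := by
  have h : MemLp (fun x => f x + c * g x) 2 volume := hf.add (hg.const_mul c)
  rw [toH_eq hf, toH_eq hg, toH_eq h, ← MemLp.toLp_const_smul, ← MemLp.toLp_add]
  rfl

/-! ### test functions -/

lemma test_pd (i : Fin 4) {φ : E → ℝ} (h : IsTest φ) : IsTest (pd i φ) := by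
  refine ⟨?_, h.2.fderiv_apply ℝ _⟩
  exact (h.1.fderiv_right (m := ∞) (by simp)).clm_apply contDiff_const

lemma tsupport_pd (i : Fin 4) (φ : E → ℝ) : tsupport (pd i φ) ⊆ tsupport φ :=
  tsupport_fderiv_apply_subset ℝ _

lemma lap_zero {φ : E → ℝ} {x : E} (h : x ∉ tsupport φ) : lap φ x = 0 := by
  refine Finset.sum_eq_zero fun i _ => ?_
  exact image_eq_zero_of_notMem_tsupport fun h2 => h (tsupport_pd i φ (tsupport_pd i _ h2))

lemma test_lap {φ : E → ℝ} (h : IsTest φ) : IsTest (lap φ) := by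
  refine ⟨?_, HasCompactSupport.intro h.2 fun x hx => lap_zero hx⟩
  exact ContDiff.sum fun i _ => (test_pd i (test_pd i h)).1

lemma sch {f : E → ℝ} (hf : IsTest f) : IsSch f :=
  ⟨hf.2.toSchwartzMap hf.1, fun _ => rfl⟩

lemma int_mul {f g : E → ℝ} (hf : IsTest f) (hg : IsTest g) :
    Integrable (fun x => f x * g x) (volume : Measure E) :=
  (hf.1.continuous.mul hg.1.continuous).integrable_of_hasCompactSupport hf.2.mul_right

lemma ibp (i : Fin 4) {f g : E → ℝ} (hf : IsTest f) (hg : IsTest g) :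
    ∫ x, f x * pd i g x = - ∫ x, pd i f x * g x := by
  have h := integral_mul_fderiv_eq_neg_fderiv_mul_of_integrable (μ := (volume : Measure E))
    (f := f) (g := g) (v := EuclideanSpace.single i (1 : ℝ))
    (int_mul (test_pd i hf) hg) (int_mul hf (test_pd i hg)) (int_mul hf hg)
    (fun x _ => (hf.1.differentiable (by simp)) x) (fun x _ => (hg.1.differentiable (by simp)) x)
  exact h

lemma ibp_lap {f g : E → ℝ} (hf : IsTest f) (hg : IsTest g) :
    ∫ x, f x * lap g x = ∫ x, lap f x * g x := by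
  have h1 : ∫ x, f x * lap g x = ∑ i, ∫ x, f x * pd i (pd i g) x := by
    rw [← integral_finsetSum _ fun i _ => int_mul hf (test_pd i (test_pd i hg))]
    refine integral_congr_ae (Eventually.of_forall fun x => ?_)
    simp only [lap, Finset.mul_sum]
  have h2 : ∫ x, lap f x * g x = ∑ i, ∫ x, pd i (pd i f) x * g x := by
    rw [← integral_finsetSum _ fun i _ => int_mul (test_pd i (test_pd i hf)) hg]
    refine integral_congr_ae (Eventually.of_forall fun x => ?_)
    simp only [lap, Finset.sum_mul]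
  rw [h1, h2]
  refine Finset.sum_congr rfl fun i _ => ?_
  rw [ibp i hf (test_pd i hg), ibp i (test_pd i hf) hg, neg_neg]

lemma memLp_test {f : E → ℝ} (hf : IsTest f) (p : ℝ≥0∞) : MemLp f p volume :=
  hf.1.continuous.memLp_of_hasCompactSupport hf.2

lemma FP_test {f g : E → ℝ} (hf : IsTest f) (hg : IsTest g) : FP f g (fun i => pd i f) :=
  ⟨memLp_test hf _, memLp_test hg _, fun i => ⟨memLp_test (test_pd i hf) _, fun _ hφ =>
    ibp i hf hφ⟩⟩

lemma test_sub {f g : E → ℝ} (hf : IsTest f) (hg : IsTest g) : IsTest fun x => f x - g x :=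
  ⟨hf.1.sub hg.1, hf.2.sub hg.2⟩

/-! ### uniqueness of the fields -/

lemma int_loc {f φ : E → ℝ} (hf : LocallyIntegrable f volume) (hφ : IsTest φ) :
    Integrable (fun x => f x * φ x) volume := by
  have h := hf.integrable_smul_left_of_hasCompactSupport hφ.1.continuous hφ.2
  refine h.congr (Eventually.of_forall fun x => ?_)
  simp only [smul_eq_mul]
  ring

lemma ae_of_test {f g : E → ℝ} (hf : LocallyIntegrable f volume) (hg : LocallyIntegrable g volume)
    (h : ∀ φ, IsTest φ → ∫ x, f x * φ x = ∫ x, g x * φ x) : f =ᵐ[volume] g := by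
  refine ae_eq_of_integral_contDiff_smul_eq hf hg fun φ h1 h2 => ?_
  have h3 := h φ ⟨h1, h2⟩
  simp only [smul_eq_mul]
  simp_rw [mul_comm (φ _)]
  exact h3

lemma loc4 {f : E → ℝ} (hf : MemLp f 4 volume) : LocallyIntegrable f volume :=
  hf.locallyIntegrable (by norm_num)

lemma loc2 {f : E → ℝ} (hf : MemLp f 2 volume) : LocallyIntegrable f volume :=
  hf.locallyIntegrable (by norm_num)

lemma uniq {e : K} {u v u' v' : E → ℝ} {G G' : Fin 4 → E → ℝ} (h : FP u v G) (h' : FP u' v' G')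
    (he : IsE e u v) (he' : IsE e u' v') :
    u =ᵐ[volume] u' ∧ v =ᵐ[volume] v' ∧ ∀ i, G i =ᵐ[volume] G' i := by
  have hu : u =ᵐ[volume] u' := ae_of_test (loc4 h.1) (loc4 h'.1) fun φ hφ => by
    have h1 := (he φ hφ).1
    have h2 := (he' φ hφ).1
    linarith
  refine ⟨hu, ?_, ?_⟩
  · refine ae_of_test (loc2 h.2.1) (loc2 h'.2.1) fun φ hφ => ?_
    have h1 := (he φ hφ).2
    have h2 := (he' φ hφ).2
    linarith
  · intro i
    refine ae_of_test (loc2 (h.2.2 i).1) (loc2 (h'.2.2 i).1) fun φ hφ => ?_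
    have h1 := (h.2.2 i).2 φ hφ
    have h2 := (h'.2.2 i).2 φ hφ
    have h3 : ∫ x, u x * pd i φ x = ∫ x, u' x * pd i φ x := by
      refine integral_congr_ae ?_
      filter_upwards [hu] with x hx
      rw [hx]
    linarith

lemma lin {e e' : K} {u v u' v' : E → ℝ} {G G' : Fin 4 → E → ℝ} (c : ℝ) (h : FP u v G)
    (h' : FP u' v' G') (he : IsE e u v) (he' : IsE e' u' v') :
    FP (fun x => u x + c * u' x) (fun x => v x + c * v' x) (fun i x => G i x + c * G' i x) ∧
      IsE (e + c • e') (fun x => u x + c * u' x) (fun x => v x + c * v' x) := by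
  have addint : ∀ {a b φ : E → ℝ}, LocallyIntegrable a volume → LocallyIntegrable b volume →
      IsTest φ → ∫ x, (a x + c * b x) * φ x = (∫ x, a x * φ x) + c * ∫ x, b x * φ x := by
    intro a b φ ha hb hφ
    rw [← integral_const_mul, ← integral_add (int_loc ha hφ) ((int_loc hb hφ).const_mul c)]
    refine integral_congr_ae (Eventually.of_forall fun x => ?_)
    ring
  refine ⟨⟨h.1.add (h'.1.const_mul c), h.2.1.add (h'.2.1.const_mul c), fun i =>
    ⟨(h.2.2 i).1.add ((h'.2.2 i).1.const_mul c), fun φ hφ => ?_⟩⟩, fun φ hφ => ⟨?_, ?_⟩⟩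
  · rw [addint (loc4 h.1) (loc4 h'.1) (test_pd i hφ),
      addint (loc2 (h.2.2 i).1) (loc2 (h'.2.2 i).1) hφ, (h.2.2 i).2 φ hφ, (h'.2.2 i).2 φ hφ]
    ring
  · rw [inner_add_left, real_inner_smul_left, (he φ hφ).1, (he' φ hφ).1,
      addint (loc4 h.1) (loc4 h'.1) hφ]
  · rw [inner_add_left, real_inner_smul_left, (he φ hφ).2, (he' φ hφ).2,
      addint (loc2 h.2.1) (loc2 h'.2.1) hφ]

/-! ### the form -/

/-- the data of the construction: fields of all elements -/
structure Dat where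
  u : K → E → ℝ
  v : K → E → ℝ
  G : K → Fin 4 → E → ℝ
  fp : ∀ e, FP (u e) (v e) (G e)
  ie : ∀ e, IsE e (u e) (v e)

lemma exDat (hR : St_EnR) : Nonempty Dat := by
  choose u v G h using hR.2.1
  exact ⟨⟨u, v, G, fun e => (h e).1, fun e => (h e).2⟩⟩

/-- the velocity as an element of `L²` -/
noncomputable def W (D : Dat) (e : K) : Hs := toH (D.v e)

/-- the multiplier as an element of `L²` -/
noncomputable def M (D : Dat) (e : K) : Hs := toH (mult (D.u e) (D.G e))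

lemma W_eq (D : Dat) {e : K} {u v : E → ℝ} {G : Fin 4 → E → ℝ} (h : FP u v G) (he : IsE e u v) :
    W D e = toH v :=
  toH_congr (D.fp e).2.1 h.2.1 (uniq (D.fp e) h (D.ie e) he).2.1

lemma M_eq (hM : ∀ (u v : E → ℝ) (G : Fin 4 → E → ℝ), FP u v G → MemLp (mult u G) 2 volume)
    (D : Dat) {e : K} {u v : E → ℝ} {G : Fin 4 → E → ℝ} (h : FP u v G) (he : IsE e u v) :
    M D e = toH (mult u G) := by
  have h1 := uniq (D.fp e) h (D.ie e) he
  exact toH_congr (hM _ _ _ (D.fp e)) (hM _ _ _ h) (mult_congr h1.1 h1.2.2)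

lemma W_lin (D : Dat) (e e' : K) (c : ℝ) : W D (e + c • e') = W D e + c • W D e' := by
  have h := lin c (D.fp e) (D.fp e') (D.ie e) (D.ie e')
  rw [W_eq D h.1 h.2, toH_lin (D.fp e).2.1 (D.fp e').2.1]
  rfl

lemma M_lin (hM : ∀ (u v : E → ℝ) (G : Fin 4 → E → ℝ), FP u v G → MemLp (mult u G) 2 volume)
    (D : Dat) (e e' : K) (c : ℝ) : M D (e + c • e') = M D e + c • M D e' := by
  have h := lin c (D.fp e) (D.fp e') (D.ie e) (D.ie e')
  have h2 : mult (fun x => D.u e x + c * D.u e' x) (fun i x => D.G e i x + c * D.G e' i x) =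
      fun x => mult (D.u e) (D.G e) x + c * mult (D.u e') (D.G e') x :=
    funext fun x => mult_lin _ _ _ _ _ _
  rw [M_eq hM D h.1 h.2, h2, toH_lin (hM _ _ _ (D.fp e)) (hM _ _ _ (D.fp e'))]
  rfl

lemma c0_pos : 0 < c0 := by
  rw [c0]; positivity

lemma norm_fields (hR : St_EnR) {e : K} {u v : E → ℝ} {G : Fin 4 → E → ℝ} (h : FP u v G)
    (he : IsE e u v) : ‖toH v‖ ≤ ‖e‖ / √c0 ∧ ∀ i, ‖toH (G i)‖ ≤ ‖e‖ / √c0 := by
  have h1 := hR.2.2.1 e e u v u v G G h h he he
  have h2 : ∀ i, ∫ x, G i x * G i x = ‖toH (G i)‖ ^ 2 := by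
    intro i
    rw [sq_toH (h.2.2 i).1]
    refine integral_congr_ae (Eventually.of_forall fun x => ?_)
    ring
  have h3 : ∫ x, v x * v x = ‖toH v‖ ^ 2 := by
    rw [sq_toH h.2.1]
    refine integral_congr_ae (Eventually.of_forall fun x => ?_)
    ring
  rw [real_inner_self_eq_norm_sq, h3] at h1
  simp_rw [h2] at h1
  have hc := c0_pos
  have h4 : 0 ≤ ∑ i, ‖toH (G i)‖ ^ 2 := Finset.sum_nonneg fun i _ => sq_nonneg _
  have key : ∀ a : ℝ, 0 ≤ a → c0 * a ^ 2 ≤ ‖e‖ ^ 2 → a ≤ ‖e‖ / √c0 := by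
    intro a ha hle
    rw [le_div_iff₀ (Real.sqrt_pos.2 hc)]
    have h5 : (a * √c0) ^ 2 ≤ ‖e‖ ^ 2 := by
      rw [mul_pow, Real.sq_sqrt hc.le]
      linarith
    exact le_of_sq_le_sq h5 (norm_nonneg _)
  refine ⟨key _ (norm_nonneg _) ?_, fun i => key _ (norm_nonneg _) ?_⟩
  · rw [h1]
    nlinarith
  · have h5 : ‖toH (G i)‖ ^ 2 ≤ ∑ i, ‖toH (G i)‖ ^ 2 :=
      Finset.single_le_sum (f := fun i => ‖toH (G i)‖ ^ 2) (fun j _ => sq_nonneg _)
        (Finset.mem_univ i)
    rw [h1]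
    have h6 : 0 ≤ ‖toH v‖ ^ 2 := sq_nonneg _
    nlinarith

lemma M_norm (hR : St_EnR) {C : ℝ} (hC : 0 < C)
    (hM : ∀ (u v : E → ℝ) (G : Fin 4 → E → ℝ), FP u v G → MemLp (mult u G) 2 volume ∧
      eLpNorm (mult u G) 2 volume ≤ ENNReal.ofReal C * ∑ i, eLpNorm (G i) 2 volume)
    {e : K} {u v : E → ℝ} {G : Fin 4 → E → ℝ} (h : FP u v G)
    (he : IsE e u v) : ‖toH (mult u G)‖ ≤ 4 * C / √c0 * ‖e‖ := by
  obtain ⟨h1, h2⟩ := hM u v G h
  have h3 := (norm_fields hR h he).2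
  have h4 : ‖toH (mult u G)‖ ≤ C * ∑ i, ‖toH (G i)‖ := by
    rw [norm_toH h1]
    have h5 : ∀ i, ‖toH (G i)‖ = (eLpNorm (G i) 2 volume).toReal := fun i => norm_toH (h.2.2 i).1
    simp_rw [h5]
    have h6 : ∀ i ∈ (Finset.univ : Finset (Fin 4)), eLpNorm (G i) 2 volume ≠ ⊤ :=
      fun i _ => (h.2.2 i).1.eLpNorm_ne_top
    rw [← ENNReal.toReal_sum h6]
    have h7 : ENNReal.ofReal C * ∑ i, eLpNorm (G i) 2 volume ≠ ⊤ :=
      ENNReal.mul_ne_top ENNReal.ofReal_ne_top (ENNReal.sum_ne_top.2 h6)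
    have h8 := ENNReal.toReal_mono h7 h2
    rwa [ENNReal.toReal_mul, ENNReal.toReal_ofReal hC.le] at h8
  refine h4.trans ?_
  have h9 : ∑ i, ‖toH (G i)‖ ≤ ∑ _i : Fin 4, ‖e‖ / √c0 := Finset.sum_le_sum fun i _ => h3 i
  simp only [Finset.sum_const, Finset.card_univ, Fintype.card_fin, nsmul_eq_mul, Nat.cast_ofNat] at h9
  calc C * ∑ i, ‖toH (G i)‖ ≤ C * (4 * (‖e‖ / √c0)) := mul_le_mul_of_nonneg_left h9 hC.le
    _ = 4 * C / √c0 * ‖e‖ := by ring

lemma exForm (hR : St_EnR) (hS : St_MorS) : ∃ Bf : K →L[ℝ] K →L[ℝ] ℝ, (∀ w w', Bf w w' = Bf w' w) ∧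
    ∀ (e e' : K) (u v u' v' : E → ℝ) (G G' : Fin 4 → E → ℝ), FP u v G → FP u' v' G' →
      IsE e u v → IsE e' u' v' →
      Bf e e' = ((∫ x, v x * mult u' G' x) + ∫ x, v' x * mult u G x) / 2 := by
  obtain ⟨C, hC, hS⟩ := hS
  have hM : ∀ (u v : E → ℝ) (G : Fin 4 → E → ℝ), FP u v G → MemLp (mult u G) 2 volume ∧
      eLpNorm (mult u G) 2 volume ≤ ENNReal.ofReal C * ∑ i, eLpNorm (G i) 2 volume :=
    fun u v G h => ⟨(hS u v G h).1, (hS u v G h).2.1⟩
  have hM1 : ∀ (u v : E → ℝ) (G : Fin 4 → E → ℝ), FP u v G → MemLp (mult u G) 2 volume :=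
    fun u v G h => (hM u v G h).1
  obtain ⟨D⟩ := exDat hR
  have hW0 : W D 0 = 0 := by
    have h := W_lin D 0 0 1
    rw [one_smul, add_zero, one_smul] at h
    exact left_eq_add.1 h
  have hM0 : M D 0 = 0 := by
    have h := M_lin hM1 D 0 0 1
    rw [one_smul, add_zero, one_smul] at h
    exact left_eq_add.1 h
  have hWa : ∀ e e', W D (e + e') = W D e + W D e' := fun e e' => by
    have h := W_lin D e e' 1
    rwa [one_smul, one_smul] at h
  have hMa : ∀ e e', M D (e + e') = M D e + M D e' := fun e e' => by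
    have h := M_lin hM1 D e e' 1
    rwa [one_smul, one_smul] at h
  have hWs : ∀ (c : ℝ) e, W D (c • e) = c • W D e := fun c e => by
    have h := W_lin D 0 e c
    rwa [zero_add, hW0, zero_add] at h
  have hMs : ∀ (c : ℝ) e, M D (c • e) = c • M D e := fun c e => by
    have h := M_lin hM1 D 0 e c
    rwa [zero_add, hM0, zero_add] at h
  have hWn : ∀ e, ‖W D e‖ ≤ 1 / √c0 * ‖e‖ := fun e => by
    have h := (norm_fields hR (D.fp e) (D.ie e)).1
    rw [div_eq_mul_one_div, mul_comm] at h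
    exact h
  have hMn : ∀ e, ‖M D e‖ ≤ 4 * C / √c0 * ‖e‖ := fun e => M_norm hR hC hM (D.fp e) (D.ie e)
  have hc : 0 < √c0 := Real.sqrt_pos.2 c0_pos
  let B0 : K →ₗ[ℝ] K →ₗ[ℝ] ℝ := LinearMap.mk₂ ℝ
    (fun e e' => ((inner ℝ (W D e) (M D e') : ℝ) + inner ℝ (W D e') (M D e)) / 2)
    (fun e1 e2 e' => by
      rw [hWa, hMa, inner_add_left, inner_add_right]; ring)
    (fun c e e' => by
      rw [hWs, hMs, real_inner_smul_left, real_inner_smul_right, smul_eq_mul]; ring)
    (fun e e1 e2 => by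
      rw [hWa, hMa, inner_add_left, inner_add_right]; ring)
    (fun c e e' => by
      rw [hWs, hMs, real_inner_smul_left, real_inner_smul_right, smul_eq_mul]; ring)
  have hB0 : ∀ e e', B0 e e' =
      ((inner ℝ (W D e) (M D e') : ℝ) + inner ℝ (W D e') (M D e)) / 2 := fun _ _ => rfl
  have hbd : ∀ e e', ‖B0 e e'‖ ≤ (1 / √c0 * (4 * C / √c0)) * ‖e‖ * ‖e'‖ := by
    intro e e'
    rw [hB0, Real.norm_eq_abs]
    have h1 : |(inner ℝ (W D e) (M D e') : ℝ)| ≤ (1 / √c0 * ‖e‖) * (4 * C / √c0 * ‖e'‖) :=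
      (abs_real_inner_le_norm _ _).trans (mul_le_mul (hWn e) (hMn e') (norm_nonneg _)
        (by positivity))
    have h2 : |(inner ℝ (W D e') (M D e) : ℝ)| ≤ (1 / √c0 * ‖e'‖) * (4 * C / √c0 * ‖e‖) :=
      (abs_real_inner_le_norm _ _).trans (mul_le_mul (hWn e') (hMn e) (norm_nonneg _)
        (by positivity))
    have h3 := abs_add_le (inner ℝ (W D e) (M D e') : ℝ) (inner ℝ (W D e') (M D e))
    rw [abs_div, abs_of_pos (by norm_num : (0 : ℝ) < 2)]
    have h4 : (1 / √c0 * ‖e‖) * (4 * C / √c0 * ‖e'‖) = (1 / √c0 * (4 * C / √c0)) * ‖e‖ * ‖e'‖ := by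
      ring
    have h5 : (1 / √c0 * ‖e'‖) * (4 * C / √c0 * ‖e‖) = (1 / √c0 * (4 * C / √c0)) * ‖e‖ * ‖e'‖ := by
      ring
    rw [h4] at h1
    rw [h5] at h2
    linarith
  refine ⟨LinearMap.mkContinuous₂ B0 _ hbd, fun w w' => ?_, ?_⟩
  · rw [LinearMap.mkContinuous₂_apply, LinearMap.mkContinuous₂_apply, hB0, hB0, add_comm]
  · intro e e' u v u' v' G G' h h' he he'
    rw [LinearMap.mkContinuous₂_apply, hB0, W_eq D h he, W_eq D h' he', M_eq hM1 D h he,
      M_eq hM1 D h' he', inner_toH h.2.1 (hM1 _ _ _ h'), inner_toH h'.2.1 (hM1 _ _ _ h)]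

/-! ### test states -/

lemma deriv_th (hGrp : St_Grp1) (hJ : St_JD) (hD : St_DrT) {f g : E → ℝ}
    (hf : IsTest f) (hg : IsTest g) :
    HasDerivAt (fun t => tau t (Theta (-1 / 2) f g)) (Theta (-1 / 2) g (lap f)) 0 := by
  have h1 := (hD (-1 / 2) g (by norm_num) (by norm_num) (sch hg) 0).2
  have h2 := (hD (-1 / 2) (lap f) (by norm_num) (by norm_num) (sch (test_lap hf)) 0).1
  rw [hGrp.2.1] at h1 h2
  have h3 := (h1.sub h2).const_smul c0
  have h4 : (c0 • ((fun t => tau t (dRs (-1 / 2) g)) - fun t => tau t (Rs (-1 / 2) (lap f)))) =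
      fun t => tau t (Theta (-1 / 2) f g) := by
    funext t
    simp only [Pi.smul_apply, Pi.sub_apply]
    rw [EnRx.theta_eq hJ (f := f) hg, map_smul, map_sub]
  rw [h4] at h3
  refine h3.congr_deriv ?_
  rw [EnRx.theta_eq hJ (f := g) (test_lap hf)]
  congr 1
  abel

end MorFx

open MorFx in
/-- **MorF** (the Morawetz form on the energy space decreases along the free flow). -/
theorem thm_MorF (hGrp : St_Grp1) (hJ : St_JD) (hX : St_FreX) (hD : St_DrT) (hR : St_EnR)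
    (hS : St_MorS) (hMT : St_MorT) : St_MorF := by
  obtain ⟨Bf, hsym, hform⟩ := exForm hR hS
  refine ⟨Bf, hsym, ?_, hform⟩
  have hie : ∀ {f g : E → ℝ}, IsTest f → IsTest g → IsE (Theta (-1 / 2) f g) f g := fun hf hg =>
    hR.2.2.2.1 _ _ hf hg
  -- derivative at test states
  have hder : ∀ (f g : E → ℝ), IsTest f → IsTest g → ∀ t : ℝ, ∃ d : ℝ, d ≤ 0 ∧
      HasDerivAt (fun t => Bf (tau t (Theta (-1 / 2) f g)) (tau t (Theta (-1 / 2) f g))) d t := by
    intro f g hf hg t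
    obtain ⟨f', g', hf', hg', hT', -⟩ := (hX f g f t hf hg hf).1
    have hT := hT' (-1 / 2) (by norm_num) (by norm_num)
    have h1 : HasDerivAt (fun h => tau h (Theta (-1 / 2) f' g')) (Theta (-1 / 2) g' (lap f')) (t - t) := by
      rw [sub_self]
      exact deriv_th hGrp hJ hD hf' hg'
    have h2 := h1.comp_sub_const t t
    have h3 : (fun s => tau (s - t) (Theta (-1 / 2) f' g')) = fun s => tau s (Theta (-1 / 2) f g) := by
      funext s
      rw [← hT, hGrp.1, sub_add_cancel]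
    rw [h3] at h2
    have h4 := (Bf.hasFDerivAt.comp_hasDerivAt t h2).clm_apply h2
    refine ⟨_, ?_, h4⟩
    have hlf := test_lap hf'
    have e1 := hform (Theta (-1 / 2) f' g') (Theta (-1 / 2) g' (lap f')) f' g' g' (lap f')
      (fun i => pd i f') (fun i => pd i g') (FP_test hf' hg') (FP_test hg' hlf) (hie hf' hg')
      (hie hg' hlf)
    have e2 : ∫ x, lap f' x * mult f' (fun i => pd i f') x ≤ 0 := (hMT f' g' hf' hg').1
    have e3 : ∫ x, g' x * mult g' (fun i => pd i g') x = 0 := (hMT f' g' hf' hg').2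
    rw [e3, zero_add] at e1
    simp only [Function.comp_apply]
    rw [hT, hsym (Theta (-1 / 2) g' (lap f')) (Theta (-1 / 2) f' g'), e1]
    linarith
  have htest : ∀ (f g : E → ℝ), IsTest f → IsTest g → ∀ t : ℝ, 0 ≤ t →
      Bf (tau t (Theta (-1 / 2) f g)) (tau t (Theta (-1 / 2) f g)) ≤
        Bf (Theta (-1 / 2) f g) (Theta (-1 / 2) f g) := by
    intro f g hf hg t ht
    choose d hd0 hd using hder f g hf hg
    have hanti := antitone_of_hasDerivAt_nonpos (f' := d) hd hd0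
    have h1 := hanti ht
    simp only at h1
    rwa [hGrp.2.1] at h1
  intro w t ht
  have hcl : IsClosed {w : K | Bf (tau t w) (tau t w) ≤ Bf w w} := by
    refine isClosed_le ?_ ?_
    · exact (Bf.continuous.comp (tau t).continuous).clm_apply (tau t).continuous
    · exact Bf.continuous.clm_apply continuous_id
  have hmem : w ∈ closure {w : K | Bf (tau t w) (tau t w) ≤ Bf w w} := by
    rw [Metric.mem_closure_iff]
    intro ε hε
    obtain ⟨f, g, hf, hg, hfg⟩ := hR.2.2.2.2 w ε hε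
    refine ⟨Theta (-1 / 2) f g, htest f g hf hg t ht, ?_⟩
    rw [dist_eq_norm]
    exact hfg
  rw [hcl.closure_eq] at hmem
  exact hmem

end Pool.Agent.QWF
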