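import Pool.Agent.QWF.MorU
import Pool.Agent.QWF.FPa

set_option autoImplicit false

/-!
# QWF, module MorS: static facts for the Morawetz multiplier (port of QWP.MorS)
-/

open MeasureTheory Filter Topology Set
open scoped ENNReal NNReal RealInnerProductSpace ContDiff Pointwise

namespace Pool.Agent.QWF

namespace MorSx

open MorTx (rr rr_pos rr_sq rr_smooth hd_rr hd_coord hd_of_diff eb
  pd_eq_of_hd int_pd norm_sq cont_coord supp_of mm S1 S1_smooth mm_cont mm_supp test_pd test_diff)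
open MorUx (l2_tendsto MM MM_bd MM_meas mm_eq memLp_test rr_meas rr_le_one m_eq test_meas)

lemma ht {p q r : ℝ≥0∞} (hp : p ≠ 0) (hq : q ≠ 0) (hr : r ≠ 0)
    (h : p.toReal⁻¹ + q.toReal⁻¹ = r.toReal⁻¹) : ENNReal.HolderTriple p q r := by
  refine ⟨?_⟩
  have h1 : p⁻¹ ≠ ⊤ := ENNReal.inv_ne_top.2 hp
  have h2 : q⁻¹ ≠ ⊤ := ENNReal.inv_ne_top.2 hq
  have h3 : r⁻¹ ≠ ⊤ := ENNReal.inv_ne_top.2 hr
  rw [← ENNReal.toReal_eq_toReal_iff' (ENNReal.add_ne_top.2 ⟨h1, h2⟩) h3,
    ENNReal.toReal_add h1 h2, ENNReal.toReal_inv, ENNReal.toReal_inv, ENNReal.toReal_inv]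
  exact h

lemma hoel (p q : ℝ≥0∞) {r : ℝ≥0∞} (h : ENNReal.HolderTriple p q r) {f g : E → ℝ}
    (hf : AEStronglyMeasurable f volume) (hg : AEStronglyMeasurable g volume) :
    eLpNorm (fun x => f x * g x) r volume ≤ eLpNorm f p volume * eLpNorm g q volume :=
  eLpNorm_smul_le_mul_eLpNorm (f := g) (φ := f) hg hf

/-- weak derivatives of a difference -/
lemma wd_sub {i : Fin 4} {f u g : E → ℝ} (hf : IsTest f) (hu : LocallyIntegrable u volume)
    (hg : LocallyIntegrable g volume) (h : WD i u g) :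
    WD i (fun x => f x - u x) (fun x => pd i f x - g x) := by
  intro φ hφ
  have hint : ∀ (w ψ : E → ℝ), LocallyIntegrable w volume → IsTest ψ →
      Integrable (fun x => w x * ψ x) volume := by
    intro w ψ hw hψ
    have h2 := (hw.integrable_smul_right_of_hasCompactSupport hψ.1.continuous hψ.2)
    simpa [mul_comm] using h2
  have hfl : LocallyIntegrable f volume := hf.1.continuous.locallyIntegrable
  have hfl' : LocallyIntegrable (pd i f) volume :=
    (test_pd hf i).1.continuous.locallyIntegrable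
  have i1 := hint f (pd i φ) hfl (test_pd hφ i)
  have i2 := hint u (pd i φ) hu (test_pd hφ i)
  have i3 := hint (pd i f) φ hfl' hφ
  have i4 := hint g φ hg hφ
  have e1 : ∫ x, (f x - u x) * pd i φ x = (∫ x, f x * pd i φ x) - ∫ x, u x * pd i φ x := by
    rw [← integral_sub i1 i2]
    refine integral_congr_ae (Eventually.of_forall fun x => ?_)
    simp only
    ring
  have e2 : ∫ x, (pd i f x - g x) * φ x = (∫ x, pd i f x * φ x) - ∫ x, g x * φ x := by
    rw [← integral_sub i3 i4]
    refine integral_congr_ae (Eventually.of_forall fun x => ?_)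
    simp only
    ring
  have e3 : (∫ x, pd i f x * φ x) + ∫ x, f x * pd i φ x = 0 := by
    rw [← integral_add i3 i1]
    have ht : IsTest (fun x => f x * φ x) := ⟨hf.1.mul hφ.1, hf.2.mul_right⟩
    have h5 := int_pd (F := fun x => f x * φ x) (ht.1.of_le (by exact_mod_cast le_top)) ht.2 i
    rw [← h5]
    refine integral_congr_ae (Eventually.of_forall fun x => ?_)
    simp only
    unfold pd
    rw [fderiv_fun_mul (test_diff hf x) (test_diff hφ x)]
    simp only [add_apply, smul_apply, smul_eq_mul]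
    ring
  have h6 := h φ hφ
  rw [e1, e2]
  linarith

/-! ### the nonlinearity -/

lemma abs_rpow_two {b : ℝ} (hb : 4 < b) (s : ℝ) : |s| ^ (b + 2) = Fn b s * s := by
  rw [Real.rpow_add_of_nonneg (abs_nonneg s) (by linarith) (by norm_num)]
  unfold Fn
  have h : |s| ^ (2 : ℝ) = s ^ 2 := by
    rw [show (2 : ℝ) = ((2 : ℕ) : ℝ) by norm_num, Real.rpow_natCast, sq_abs]
  rw [h]
  ring

lemma hd_pow {b : ℝ} (hb : 4 < b) (s : ℝ) :
    HasDerivAt (fun s : ℝ => |s| ^ (b + 2)) ((b + 2) * Fn b s) s := by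
  have h := hasDerivAt_abs_rpow s (p := b + 2) (by linarith)
  refine h.congr_deriv ?_
  unfold Fn
  rw [show b + 2 - 2 = b by ring]
  ring

lemma hd_Fn {b : ℝ} (hb : 4 < b) (s : ℝ) : HasDerivAt (Fn b) ((b + 1) * |s| ^ b) s := by
  have h := (hasDerivAt_abs_rpow s (p := b) (by linarith)).fun_mul (hasDerivAt_id s)
  refine HasDerivAt.congr_deriv (f := Fn b) h ?_
  have h1 : |s| ^ b = |s| ^ (b - 2) * s ^ 2 := by
    have h2 : |s| ^ (2 : ℝ) = s ^ 2 := by
      rw [show (2 : ℝ) = ((2 : ℕ) : ℝ) by norm_num, Real.rpow_natCast, sq_abs]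
    rw [← h2, ← Real.rpow_add_of_nonneg (abs_nonneg s) (by linarith) (by norm_num)]
    congr 1
    ring
  simp only [id]
  rw [h1]
  ring

lemma Fn_lip {b : ℝ} (hb : 4 < b) (s t : ℝ) :
    |Fn b s - Fn b t| ≤ (b + 1) * ((|s| + |t|) ^ b * |s - t|) := by
  have h := Convex.norm_image_sub_le_of_norm_hasDerivWithin_le (f := Fn b)
    (f' := fun r => (b + 1) * |r| ^ b) (s := Set.uIcc t s) (C := (b + 1) * (|s| + |t|) ^ b)
    (x := t) (y := s) (fun r _ => (hd_Fn hb r).hasDerivWithinAt) (fun r hr => ?_)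
    (convex_uIcc t s) Set.left_mem_uIcc Set.right_mem_uIcc
  · rw [Real.norm_eq_abs, Real.norm_eq_abs] at h
    linarith
  · have h1 : |r| ≤ |s| + |t| := by
      rcases Set.mem_uIcc.1 hr with ⟨h2, h3⟩ | ⟨h2, h3⟩
      · rw [abs_le]
        constructor
        · linarith [neg_abs_le t, abs_nonneg s]
        · linarith [le_abs_self s, abs_nonneg t]
      · rw [abs_le]
        constructor
        · linarith [neg_abs_le s, abs_nonneg t]
        · linarith [le_abs_self t, abs_nonneg s]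
    have h2 : 0 ≤ |r| ^ b := Real.rpow_nonneg (abs_nonneg r) b
    rw [Real.norm_eq_abs, abs_of_nonneg (mul_nonneg (by linarith) h2)]
    exact mul_le_mul_of_nonneg_left (Real.rpow_le_rpow (abs_nonneg r) h1 (by linarith))
      (by linarith)

lemma Fn_cont {b : ℝ} (hb : 4 < b) : Continuous (Fn b) :=
  continuous_iff_continuousAt.2 fun s => (hd_Fn hb s).continuousAt

lemma Fn_zero {b : ℝ} : Fn b 0 = 0 := by simp [Fn]

/-- the exponent `2 (b + 1)` -/
noncomputable def pp (b : ℝ) : ℝ≥0∞ := ENNReal.ofReal (2 * (b + 1))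

lemma pp_ge {b : ℝ} (hb : 4 < b) : 1 ≤ pp b := by
  unfold pp
  rw [← ENNReal.ofReal_one]
  exact ENNReal.ofReal_le_ofReal (by linarith)

lemma pp_top (b : ℝ) : pp b ≠ ⊤ := ENNReal.ofReal_ne_top

lemma mem_pp {b : ℝ} (hb : 4 < b) {u : E → ℝ} (hm : AEStronglyMeasurable u volume)
    (h : MemLp (fun x => Fn b (u x)) 2 volume) : MemLp u (pp b) volume := by
  refine ⟨hm, ?_⟩
  have h1 : eLpNorm (fun x => Fn b (u x)) 2 volume = eLpNorm (fun x => ‖u x‖ ^ (b + 1)) 2 volume := by
    refine eLpNorm_congr_norm_ae (Eventually.of_forall fun x => ?_)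
    unfold Fn
    rw [norm_mul, Real.norm_eq_abs, Real.norm_eq_abs, Real.norm_eq_abs,
      abs_of_nonneg (Real.rpow_nonneg (abs_nonneg _) b),
      abs_of_nonneg (Real.rpow_nonneg (abs_nonneg _) (b + 1)),
      Real.rpow_add_of_nonneg (abs_nonneg _) (by linarith) (by norm_num), Real.rpow_one]
  have h2 := h.2
  rw [h1, eLpNorm_norm_rpow u (by linarith : (0 : ℝ) < b + 1)] at h2
  have h3 : (2 : ℝ≥0∞) * ENNReal.ofReal (b + 1) = pp b := by
    unfold pp
    rw [ENNReal.ofReal_mul (by norm_num)]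
    norm_num
  rw [h3] at h2
  by_contra hn
  rw [not_lt, top_le_iff] at hn
  rw [hn, ENNReal.top_rpow_of_pos (by linarith)] at h2
  exact lt_irrefl _ h2

lemma Fn_bd {b : ℝ} (hb : 4 < b) {f u : E → ℝ} (hf : AEStronglyMeasurable f volume)
    (hu : AEStronglyMeasurable u volume) :
    eLpNorm (fun x => Fn b (f x) - Fn b (u x)) 2 volume ≤
      ENNReal.ofReal (b + 1) * ((eLpNorm f (pp b) volume + eLpNorm u (pp b) volume) ^ b *
        eLpNorm (fun x => f x - u x) (pp b) volume) := by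
  obtain ⟨w, hw⟩ : ∃ w : E → ℝ, w = fun x => |f x| + |u x| := ⟨_, rfl⟩
  have hwm : AEStronglyMeasurable w volume := by
    rw [hw]
    exact hf.norm.add hu.norm
  have hwb : AEStronglyMeasurable (fun x => ‖w x‖ ^ b) volume :=
    (hwm.norm.aemeasurable.pow_const b).aestronglyMeasurable
  have h1 : eLpNorm (fun x => Fn b (f x) - Fn b (u x)) 2 volume ≤
      ENNReal.ofReal (b + 1) * eLpNorm (fun x => ‖w x‖ ^ b * (f x - u x)) 2 volume := by
    refine eLpNorm_le_mul_eLpNorm_of_ae_le_mul (Eventually.of_forall fun x => ?_) 2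
    have h2 : ‖w x‖ = |f x| + |u x| := by
      rw [hw, Real.norm_eq_abs, abs_of_nonneg (by positivity)]
    have h3 : 0 ≤ (|f x| + |u x|) ^ b := Real.rpow_nonneg (by positivity) b
    rw [norm_mul, h2, Real.norm_eq_abs, Real.norm_eq_abs, Real.norm_eq_abs, abs_of_nonneg h3]
    exact Fn_lip hb _ _
  refine h1.trans ?_
  gcongr
  have hb0 : 0 < b := by linarith
  have hb1 : (0 : ℝ) < 2 * (b + 1) := by linarith
  have htr : ENNReal.HolderTriple (ENNReal.ofReal (2 * (b + 1) / b)) (pp b) 2 := by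
    unfold pp
    refine ht ?_ ?_ (by norm_num) ?_
    · exact (ENNReal.ofReal_pos.2 (by positivity)).ne'
    · exact (ENNReal.ofReal_pos.2 hb1).ne'
    · rw [ENNReal.toReal_ofReal (by positivity), ENNReal.toReal_ofReal hb1.le,
        ENNReal.toReal_ofNat]
      have : b + 1 ≠ 0 := by linarith
      field_simp
  refine (hoel _ _ htr hwb (hf.sub hu)).trans ?_
  refine mul_le_mul' ?_ le_rfl
  rw [eLpNorm_norm_rpow w hb0]
  have h4 : ENNReal.ofReal (2 * (b + 1) / b) * ENNReal.ofReal b = pp b := by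
    unfold pp
    rw [← ENNReal.ofReal_mul (by positivity)]
    congr 1
    field_simp
  rw [h4]
  refine ENNReal.rpow_le_rpow ?_ hb0.le
  have h6 := eLpNorm_add_le (p := pp b) (μ := (volume : Measure E)) hf.norm hu.norm (pp_ge hb)
  rw [eLpNorm_norm, eLpNorm_norm] at h6
  rw [hw]
  exact h6

/-! ### the inequality for test functions -/

/-- the vector field -/
noncomputable def Zb (b : ℝ) (f : E → ℝ) (j : Fin 4) (x : E) : ℝ :=
  x j * rr x * |f x| ^ (b + 2) / (b + 2)

lemma Zb_smooth {b : ℝ} (hb : 4 < b) {f : E → ℝ} (hf : IsTest f) (j : Fin 4) :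
    ContDiff ℝ 1 (Zb b f j) := by
  unfold Zb
  have h1 : ContDiff ℝ 1 (fun x : E => |f x| ^ (b + 2)) := by
    have h2 := (contDiff_norm_rpow (E := ℝ) (p := b + 2) (by linarith)).comp
      (hf.1.of_le (by exact_mod_cast le_top) : ContDiff ℝ 1 f)
    exact h2
  have h3 : ContDiff ℝ 1 (fun x : E => x j * rr x) :=
    ((cont_coord j).mul rr_smooth).of_le (by exact_mod_cast le_top)
  exact (h3.mul h1).div_const _

lemma Zb_supp {b : ℝ} (hb : 4 < b) {f : E → ℝ} (hf : IsTest f) (j : Fin 4) :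
    HasCompactSupport (Zb b f j) := by
  refine supp_of hf fun x h0 _ => ?_
  unfold Zb
  rw [h0, abs_zero, Real.zero_rpow (by linarith)]
  simp

lemma pd_Zb {b : ℝ} (hb : 4 < b) {f : E → ℝ} (hf : IsTest f) (j : Fin 4) (x : E) :
    pd j (Zb b f j) x = (rr x + x j * (- x j * rr x ^ 3)) * |f x| ^ (b + 2) / (b + 2) +
      x j * rr x * (Fn b (f x) * pd j f x) := by
  refine pd_eq_of_hd ((Zb_smooth hb hf j).differentiable (by norm_num)) j x _ ?_
  have hx0 : x + (0 : ℝ) • eb j = x := by rw [zero_smul, add_zero]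
  have h1 := hd_coord j j x
  have h2 := hd_rr j x
  have h3 := hd_of_diff (test_diff hf) j x
  have h4 : HasDerivAt (fun t : ℝ => |f (x + t • eb j)| ^ (b + 2))
      ((b + 2) * Fn b (f x) * pd j f x) 0 := by
    have h5 : HasDerivAt (fun s : ℝ => |s| ^ (b + 2)) ((b + 2) * Fn b (f x))
        (f (x + (0 : ℝ) • eb j)) := by
      rw [hx0]
      exact hd_pow hb (f x)
    exact h5.comp (0 : ℝ) h3
  have h6 := ((h1.fun_mul h2).fun_mul h4).div_const (b + 2)
  refine HasDerivAt.congr_deriv (f := fun t : ℝ => Zb b f j (x + t • eb j)) h6 ?_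
  rw [hx0]
  have hb2 : b + 2 ≠ 0 := by linarith
  simp only [if_true]
  field_simp

lemma pt_ineq {b : ℝ} (hb : 4 < b) {f : E → ℝ} (hf : IsTest f) (x : E) :
    ∑ j, pd j (Zb b f j) x ≤
      Fn b (f x) * mm f x - 3 * b / (2 * (b + 2)) * (Fn b (f x) * (rr x * f x)) := by
  have h0 := rr_sq x
  rw [norm_sq] at h0
  simp only [pd_Zb hb hf]
  have hF := abs_rpow_two hb (f x)
  have hp : 0 ≤ |f x| ^ (b + 2) := Real.rpow_nonneg (abs_nonneg _) _
  have hr := rr_pos x
  have hb2 : 0 < b + 2 := by linarith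
  rw [hF] at hp
  simp only [hF]
  unfold mm S1
  simp only [Fin.sum_univ_four] at h0 ⊢
  have key : Fn b (f x) * (rr x * (x 0 * pd 0 f x + x 1 * pd 1 f x + x 2 * pd 2 f x +
      x 3 * pd 3 f x) + (rr x ^ 3 + 3 * rr x) / 2 * f x) -
      3 * b / (2 * (b + 2)) * (Fn b (f x) * (rr x * f x)) -
      ((rr x + x 0 * (-x 0 * rr x ^ 3)) * (Fn b (f x) * f x) / (b + 2) +
        x 0 * rr x * (Fn b (f x) * pd 0 f x) +
      ((rr x + x 1 * (-x 1 * rr x ^ 3)) * (Fn b (f x) * f x) / (b + 2) +
        x 1 * rr x * (Fn b (f x) * pd 1 f x)) +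
      ((rr x + x 2 * (-x 2 * rr x ^ 3)) * (Fn b (f x) * f x) / (b + 2) +
        x 2 * rr x * (Fn b (f x) * pd 2 f x)) +
      ((rr x + x 3 * (-x 3 * rr x ^ 3)) * (Fn b (f x) * f x) / (b + 2) +
        x 3 * rr x * (Fn b (f x) * pd 3 f x))) =
      b / (2 * (b + 2)) * (rr x ^ 3 * (Fn b (f x) * f x)) := by
    field_simp
    linear_combination (2 * (Fn b (f x) * f x)) * h0
  have h7 : 0 ≤ b / (2 * (b + 2)) * (rr x ^ 3 * (Fn b (f x) * f x)) := by positivity
  linarith

lemma test_ineq {b : ℝ} (hb : 4 < b) {f : E → ℝ} (hf : IsTest f) :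
    3 * b / (2 * (b + 2)) * ∫ x, Fn b (f x) * (rr x * f x) ≤ ∫ x, Fn b (f x) * mm f x := by
  have cF : Continuous (fun x => Fn b (f x)) := (Fn_cont hb).comp hf.1.continuous
  have c1 : Integrable (fun x => Fn b (f x) * mm f x) volume := by
    refine (cF.mul (mm_cont hf)).integrable_of_hasCompactSupport ?_
    exact (mm_supp hf).mul_left
  have c2 : Integrable (fun x => Fn b (f x) * (rr x * f x)) volume := by
    refine (cF.mul (rr_smooth.continuous.mul hf.1.continuous)).integrable_of_hasCompactSupport ?_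
    exact (hf.2.mul_left).mul_left
  have c3 : ∀ j, Integrable (fun x => pd j (Zb b f j) x) volume := by
    intro j
    have hc : Continuous (fun x => pd j (Zb b f j) x) := by
      unfold pd
      exact ((Zb_smooth hb hf j).continuous_fderiv (by norm_num)).clm_apply continuous_const
    exact hc.integrable_of_hasCompactSupport ((Zb_supp hb hf j).fderiv_apply ℝ _)
  have h1 : ∫ x, ∑ j, pd j (Zb b f j) x = 0 := by
    rw [integral_finsetSum _ fun j _ => c3 j]
    exact Finset.sum_eq_zero fun j _ => int_pd (Zb_smooth hb hf j) (Zb_supp hb hf j) j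
  have h2 : ∫ x, ∑ j, pd j (Zb b f j) x ≤
      ∫ x, (Fn b (f x) * mm f x - 3 * b / (2 * (b + 2)) * (Fn b (f x) * (rr x * f x))) :=
    integral_mono (integrable_finsetSum _ fun j _ => c3 j) (c1.sub (c2.const_mul _))
      fun x => pt_ineq hb hf x
  rw [h1, integral_sub c1 (c2.const_mul _), integral_const_mul] at h2
  linarith

end MorSx

open MorSx MorTx MorUx in
/-- **MorS** (static facts for the Morawetz multiplier). -/
theorem thm_MorS (hFP : St_FPa) : St_MorS := by
  obtain ⟨C, hC, hFP⟩ := hFP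
  refine ⟨1 + 2 * C, by positivity, ?_⟩
  have hardy : ∀ {u : E → ℝ} {G : Fin 4 → E → ℝ}, MemLp u 4 volume →
      (∀ i, MemLp (G i) 2 volume ∧ WD i u (G i)) →
      eLpNorm (fun x => rr x * u x) 2 volume ≤ ENNReal.ofReal C * ∑ i, eLpNorm (G i) 2 volume := by
    intro u G hu hG
    have h := (hFP u (fun _ => 0) G ⟨hu, MemLp.zero', hG⟩).2.1
    rw [rr_div] at h
    exact h
  intro u v G hP
  obtain ⟨hu, hv, hG⟩ := hP
  have hH := hardy hu hG
  have hsum : ∑ i, eLpNorm (G i) 2 volume < ⊤ := by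
    rw [ENNReal.sum_lt_top]
    exact fun i _ => (hG i).1.2
  have hbd : eLpNorm (MM G u) 2 volume ≤ ENNReal.ofReal (1 + 2 * C) * ∑ i, eLpNorm (G i) 2 volume := by
    refine (MM_bd (fun i => (hG i).1.1) hu.1).trans ?_
    rw [ENNReal.ofReal_add (by norm_num) (by positivity), add_mul, ENNReal.ofReal_one, one_mul,
      ENNReal.ofReal_mul (by norm_num), mul_assoc]
    gcongr
  have hMM : MemLp (MM G u) 2 volume :=
    ⟨MM_meas (fun i => (hG i).1.1) hu.1,
      hbd.trans_lt (ENNReal.mul_lt_top ENNReal.ofReal_lt_top hsum)⟩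
  refine ⟨?_, ?_, ?_⟩
  · rw [m_eq]
    exact hMM
  · rw [m_eq]
    exact hbd
  intro b hb hF _
  obtain ⟨f, hf, z1, z0'⟩ := FPax.apx hu hG
  have hup := mem_pp hb hu.1 hF
  have zp := z0' (pp b) (pp_ge hb) (pp_top b) hup
  -- the multiplier
  have hul : LocallyIntegrable u volume := hu.locallyIntegrable (by norm_num)
  have hGl : ∀ i, LocallyIntegrable (G i) volume := fun i => (hG i).1.locallyIntegrable (by norm_num)
  have hDto : Tendsto (fun n => ∑ i, eLpNorm (fun x => pd i (f n) x - G i x) 2 volume) atTop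
      (𝓝 0) := by
    have h1 := tendsto_finsetSum (Finset.univ : Finset (Fin 4)) fun i _ => z1 i
    simpa using h1
  have hdH : ∀ n, eLpNorm (fun x => rr x * (f n x - u x)) 2 volume ≤
      ENNReal.ofReal C * ∑ i, eLpNorm (fun x => pd i (f n) x - G i x) 2 volume := fun n =>
    hardy ((memLp_test (hf n) _).sub hu) fun i =>
      ⟨(memLp_test (test_pd (hf n) i) 2).sub (hG i).1, wd_sub (hf n) hul (hGl i) (hG i).2⟩
  have hHto : Tendsto (fun n => eLpNorm (fun x => rr x * (f n x - u x)) 2 volume) atTop (𝓝 0) := by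
    have h1 := ENNReal.Tendsto.const_mul (a := ENNReal.ofReal C) hDto (Or.inr ENNReal.ofReal_ne_top)
    rw [mul_zero] at h1
    exact tendsto_of_tendsto_of_tendsto_of_le_of_le tendsto_const_nhds h1 (fun _ => zero_le) hdH
  have hMto : Tendsto (fun n => eLpNorm (fun x => mm (f n) x - MM G u x) 2 volume) atTop (𝓝 0) := by
    have h1 : ∀ n, eLpNorm (fun x => mm (f n) x - MM G u x) 2 volume ≤
        (∑ i, eLpNorm (fun x => pd i (f n) x - G i x) 2 volume) +
        ENNReal.ofReal 2 * eLpNorm (fun x => rr x * (f n x - u x)) 2 volume := by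
      intro n
      have h2 : (fun x => mm (f n) x - MM G u x) =
          MM (fun i x => pd i (f n) x - G i x) (fun x => f n x - u x) := by
        funext x
        rw [MorUx.mm_eq]
        unfold MM
        simp only [mul_sub, Finset.sum_sub_distrib]
        ring
      rw [h2]
      exact MM_bd (fun i => (memLp_test (test_pd (hf n) i) 2).1.sub (hG i).1.1)
        ((memLp_test (hf n) 2).1.sub hu.1)
    have h6 := ENNReal.Tendsto.const_mul (a := ENNReal.ofReal 2) hHto
      (Or.inr ENNReal.ofReal_ne_top)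
    rw [mul_zero] at h6
    have h7 := hDto.add h6
    rw [add_zero] at h7
    exact tendsto_of_tendsto_of_tendsto_of_le_of_le tendsto_const_nhds h7 (fun _ => zero_le) h1
  -- the nonlinearity
  have hFto : Tendsto (fun n => eLpNorm (fun x => Fn b (f n x) - Fn b (u x)) 2 volume) atTop
      (𝓝 0) := by
    have h1 : ∀ n, eLpNorm (fun x => Fn b (f n x) - Fn b (u x)) 2 volume ≤
        ENNReal.ofReal (b + 1) * (((eLpNorm (fun x => f n x - u x) (pp b) volume +
          eLpNorm u (pp b) volume) + eLpNorm u (pp b) volume) ^ b *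
          eLpNorm (fun x => f n x - u x) (pp b) volume) := by
      intro n
      refine (Fn_bd hb (test_meas (hf n)) hu.1).trans ?_
      gcongr
      have h3 : f n = (fun x => f n x - u x) + u := by
        funext x
        simp
      calc eLpNorm (f n) (pp b) volume = eLpNorm ((fun x => f n x - u x) + u) (pp b) volume := by
            rw [← h3]
        _ ≤ _ := eLpNorm_add_le ((test_meas (hf n)).sub hu.1) hu.1 (pp_ge hb)
    have h4 : Tendsto (fun n => ((eLpNorm (fun x => f n x - u x) (pp b) volume +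
          eLpNorm u (pp b) volume) + eLpNorm u (pp b) volume) ^ b) atTop
        (𝓝 (((0 + eLpNorm u (pp b) volume) + eLpNorm u (pp b) volume) ^ b)) :=
      ((zp.add tendsto_const_nhds).add tendsto_const_nhds).ennrpow_const b
    have h5 : ((0 + eLpNorm u (pp b) volume) + eLpNorm u (pp b) volume) ^ b ≠ ⊤ := by
      refine (ENNReal.rpow_lt_top_of_nonneg (by linarith) ?_).ne
      rw [zero_add]
      exact (ENNReal.add_lt_top.2 ⟨hup.2, hup.2⟩).ne
    have h6 := ENNReal.Tendsto.mul h4 (Or.inr ENNReal.zero_ne_top) zp (Or.inr h5)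
    rw [mul_zero] at h6
    have h7 := ENNReal.Tendsto.const_mul (a := ENNReal.ofReal (b + 1)) h6
      (Or.inr ENNReal.ofReal_ne_top)
    rw [mul_zero] at h7
    exact tendsto_of_tendsto_of_tendsto_of_le_of_le tendsto_const_nhds h7 (fun _ => zero_le) h1
  have mFf : ∀ n, MemLp (fun x => Fn b (f n x)) 2 volume := by
    intro n
    refine ((Fn_cont hb).comp (hf n).1.continuous).memLp_of_hasCompactSupport ?_
    exact (hf n).2.comp_left Fn_zero
  have mmf : ∀ n, MemLp (mm (f n)) 2 volume := fun n =>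
    (mm_cont (hf n)).memLp_of_hasCompactSupport (mm_supp (hf n))
  have mRf : ∀ n, MemLp (fun x => rr x * f n x) 2 volume := fun n =>
    (rr_smooth.continuous.mul (hf n).1.continuous).memLp_of_hasCompactSupport (hf n).2.mul_left
  have mR : MemLp (fun x => rr x * u x) 2 volume :=
    ⟨rr_meas.mul hu.1, hH.trans_lt (ENNReal.mul_lt_top ENNReal.ofReal_lt_top hsum)⟩
  have t1 := l2_tendsto mFf mmf hF hMM hFto hMto
  have t2 := l2_tendsto mFf mRf hF mR hFto (by
    refine hHto.congr fun n => ?_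
    congr 1
    funext x
    ring)
  have t3 := le_of_tendsto_of_tendsto' (t2.const_mul (3 * b / (2 * (b + 2)))) t1
    fun n => MorSx.test_ineq hb (hf n)
  have e1 : ∫ x, |u x| ^ (b + 2) / √(1 + ‖x‖ ^ 2) = ∫ x, Fn b (u x) * (rr x * u x) := by
    refine integral_congr_ae (Eventually.of_forall fun x => ?_)
    simp only
    rw [abs_rpow_two hb]
    unfold rr
    rw [div_eq_mul_inv]
    ring
  have e2 : ∫ x, Fn b (u x) * ((∑ i, x i * G i x) / √(1 + ‖x‖ ^ 2) +
        (1 / (√(1 + ‖x‖ ^ 2)) ^ 3 + 3 / √(1 + ‖x‖ ^ 2)) / 2 * u x) =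
      ∫ x, Fn b (u x) * MM G u x := by
    refine integral_congr_ae (Eventually.of_forall fun x => ?_)
    simp only
    rw [← congrFun (m_eq u G) x]
  rw [e1, e2]
  exact t3

end Pool.Agent.QWF
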