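import Pool.Agent.QWF.StB2

set_option autoImplicit false

/-!
# QWF, MorT: virial inequality and identity for test functions in `ℝ⁴` (port of QWE.MorI)
-/

open MeasureTheory Filter Topology Set
open scoped ENNReal NNReal RealInnerProductSpace Pointwise

namespace Pool.Agent.QWF

namespace MorTx

/-- the basis vectors. -/
noncomputable def eb (i : Fin 4) : E := EuclideanSpace.single i (1 : ℝ)

/-- `1 / √(1 + |x|²)`. -/
noncomputable def rr (x : E) : ℝ := (√(1 + ‖x‖ ^ 2))⁻¹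

lemma rr_pos (x : E) : 0 < rr x := by
  unfold rr
  positivity

lemma rr_sq (x : E) : rr x ^ 2 * (1 + ‖x‖ ^ 2) = 1 := by
  unfold rr
  rw [inv_pow, Real.sq_sqrt (by positivity)]
  exact inv_mul_cancel₀ (by positivity)

lemma norm_sq (x : E) : ‖x‖ ^ 2 = ∑ i, x i ^ 2 := EuclideanSpace.real_norm_sq_eq x

lemma rr_smooth : ContDiff ℝ ((⊤ : ℕ∞) : WithTop ℕ∞) rr := by
  unfold rr
  have h1 : ContDiff ℝ ((⊤ : ℕ∞) : WithTop ℕ∞) (fun x : E => 1 + ‖x‖ ^ 2) :=
    contDiff_const.add (contDiff_norm_sq ℝ)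
  have h2 : ContDiff ℝ ((⊤ : ℕ∞) : WithTop ℕ∞) (fun x : E => √(1 + ‖x‖ ^ 2)) :=
    h1.sqrt (fun x => by positivity)
  exact h2.inv (fun x => by positivity)

/-- derivative along a basis vector as a derivative in one variable. -/
lemma hd_of_diff {F : E → ℝ} (hF : Differentiable ℝ F) (j : Fin 4) (x : E) :
    HasDerivAt (fun t : ℝ => F (x + t • eb j)) (pd j F x) 0 := by
  have h1 : HasDerivAt (fun t : ℝ => x + t • eb j) (eb j) 0 := by
    have h2 := ((hasDerivAt_id (0 : ℝ)).smul_const (eb j)).const_add x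
    simpa using h2
  have h3 : HasFDerivAt F (fderiv ℝ F x) (x + (0 : ℝ) • eb j) := by
    rw [zero_smul, add_zero]
    exact (hF x).hasFDerivAt
  have h4 := h3.comp_hasDerivAt (0 : ℝ) h1
  exact h4

lemma pd_eq_of_hd {F : E → ℝ} (hF : Differentiable ℝ F) (j : Fin 4) (x : E) (c : ℝ)
    (h : HasDerivAt (fun t : ℝ => F (x + t • eb j)) c 0) : pd j F x = c :=
  (hd_of_diff hF j x).unique h

/-- coordinates. -/
lemma hd_coord (i j : Fin 4) (x : E) :
    HasDerivAt (fun t : ℝ => (x + t • eb j) i) (if i = j then 1 else 0) 0 := by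
  have h1 : (fun t : ℝ => (x + t • eb j) i) = fun t : ℝ => x i + t * (if i = j then 1 else 0) := by
    funext t
    simp [eb]
  rw [h1]
  have h2 := ((hasDerivAt_id (0 : ℝ)).mul_const (if i = j then (1 : ℝ) else 0)).const_add (x i)
  simpa using h2

lemma hd_rr (j : Fin 4) (x : E) :
    HasDerivAt (fun t : ℝ => rr (x + t • eb j)) (- x j * rr x ^ 3) 0 := by
  have h1 : (fun t : ℝ => rr (x + t • eb j)) =
      fun t : ℝ => (√(1 + ∑ i, ((x + t • eb j) i) ^ 2))⁻¹ := by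
    funext t
    unfold rr
    rw [norm_sq]
  rw [h1]
  have h2 : HasDerivAt (fun t : ℝ => ∑ i, ((x + t • eb j) i) ^ 2) (2 * x j) 0 := by
    have h3 : HasDerivAt (fun t : ℝ => ∑ i, ((x + t • eb j) i) ^ 2)
        (∑ i, 2 * ((x + (0 : ℝ) • eb j) i) * (if i = j then 1 else 0)) 0 := by
      refine HasDerivAt.fun_sum fun i _ => ?_
      have h4 := (hd_coord i j x).fun_pow 2
      refine h4.congr_deriv ?_
      norm_num
    refine h3.congr_deriv ?_
    simp
  have h5 : HasDerivAt (fun t : ℝ => 1 + ∑ i, ((x + t • eb j) i) ^ 2) (2 * x j) 0 :=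
    h2.const_add 1
  have h6 : (1 + ∑ i, ((x + (0 : ℝ) • eb j) i) ^ 2) = 1 + ‖x‖ ^ 2 := by
    rw [norm_sq, zero_smul, add_zero]
  have h7 : (1 + ∑ i, ((x + (0 : ℝ) • eb j) i) ^ 2) ≠ 0 := by
    rw [h6]
    positivity
  have h8 := (h5.sqrt h7)
  have h9 : √(1 + ∑ i, ((x + (0 : ℝ) • eb j) i) ^ 2) ≠ 0 := by
    rw [h6]
    positivity
  have h10 := h8.inv h9
  refine h10.congr_deriv ?_
  rw [h6]
  unfold rr
  have h11 : √(1 + ‖x‖ ^ 2) ≠ 0 := by positivity
  field_simp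

/-- the integral of a derivative. -/
lemma int_pd {F : E → ℝ} (hF : ContDiff ℝ 1 F) (hs : HasCompactSupport F) (j : Fin 4) :
    ∫ x, pd j F x = 0 := by
  have hd : Differentiable ℝ F := hF.differentiable (by norm_num)
  have h1 : Continuous (fun x => fderiv ℝ F x (eb j)) :=
    (hF.continuous_fderiv (by norm_num)).clm_apply continuous_const
  have h2 : HasCompactSupport (fun x => fderiv ℝ F x (eb j)) := hs.fderiv_apply ℝ (eb j)
  have h3 : Integrable (fun x => fderiv ℝ F x (eb j)) volume := h1.integrable_of_hasCompactSupport h2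
  have h4 : Integrable F volume := hF.continuous.integrable_of_hasCompactSupport hs
  have h5 := integral_mul_fderiv_eq_neg_fderiv_mul_of_integrable (𝕜 := ℝ) (μ := (volume : Measure E))
    (f := fun _ : E => (1 : ℝ)) (g := F) (v := eb j) (by simp) (by simpa using h3) (by simpa using h4)
    (fun _ _ => differentiableAt_const _) (fun x _ => hd x)
  simpa [pd, eb] using h5

/-- the polynomial identity behind the Morawetz identity. -/
lemma poly_id (x g : Fin 4 → ℝ) (H : Fin 4 → Fin 4 → ℝ) (hH : ∀ i j, H i j = H j i) (f r : ℝ)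
    (hr : r ^ 2 * (1 + ∑ i, x i ^ 2) = 1) :
    ∑ j, (H j j * (r * ∑ i, x i * g i) +
      g j * ((-x j * r ^ 3) * (∑ i, x i * g i) + r * (g j + ∑ i, x i * H i j)) -
      (r * (∑ i, g i ^ 2) / 2 + x j * (-x j * r ^ 3) * (∑ i, g i ^ 2) / 2 +
        x j * r * ∑ i, g i * H i j) +
      (3 * (-x j * r ^ 3) + 3 * r ^ 2 * (-x j * r ^ 3)) / 2 * (f * g j) +
      (3 * r + r ^ 3) / 2 * (g j ^ 2 + f * H j j) +
      ((3 * r ^ 3 + 3 * r ^ 5) + x j * (9 * r ^ 2 * (-x j * r ^ 3) + 15 * r ^ 4 * (-x j * r ^ 3))) / 4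
        * f ^ 2 +
      x j * (3 * r ^ 3 + 3 * r ^ 5) / 4 * (2 * f * g j)) =
    (∑ i, H i i) * (r * (∑ i, x i * g i) + (r ^ 3 + 3 * r) / 2 * f) +
      ((r * (∑ i, g i ^ 2) - r ^ 3 * (∑ i, x i * g i) ^ 2) +
        (3 * r ^ 3 + 6 * r ^ 5 + 15 * r ^ 7) / 4 * f ^ 2) := by
  simp only [Fin.sum_univ_four] at hr ⊢
  rw [hH 1 0, hH 2 0, hH 3 0, hH 2 1, hH 3 1, hH 3 2]
  linear_combination (r * (g 0 ^ 2 + g 1 ^ 2 + g 2 ^ 2 + g 3 ^ 2) / 2 -
    (9 * r ^ 3 + 15 * r ^ 5) / 4 * f ^ 2) * hr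

/-- the remainder is nonnegative. -/
lemma poly_pos (x g : Fin 4 → ℝ) (f r : ℝ) (hr0 : 0 ≤ r)
    (hr : r ^ 2 * (1 + ∑ i, x i ^ 2) = 1) :
    0 ≤ (r * (∑ i, g i ^ 2) - r ^ 3 * (∑ i, x i * g i) ^ 2) +
        (3 * r ^ 3 + 6 * r ^ 5 + 15 * r ^ 7) / 4 * f ^ 2 := by
  have h1 : (∑ i, x i * g i) ^ 2 ≤ (∑ i, x i ^ 2) * ∑ i, g i ^ 2 :=
    Finset.sum_mul_sq_le_sq_mul_sq _ _ _
  have h2 : 0 ≤ ∑ i, g i ^ 2 := Finset.sum_nonneg fun i _ => sq_nonneg _
  have h3 : r ^ 3 * (∑ i, x i * g i) ^ 2 ≤ r ^ 3 * ((∑ i, x i ^ 2) * ∑ i, g i ^ 2) :=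
    mul_le_mul_of_nonneg_left h1 (by positivity)
  have h4 : r ^ 3 * ((∑ i, x i ^ 2) * ∑ i, g i ^ 2) ≤ r * (∑ i, g i ^ 2) := by
    have h5 : r ^ 3 * ((∑ i, x i ^ 2) * ∑ i, g i ^ 2) =
        r * (∑ i, g i ^ 2) - r ^ 3 * (∑ i, g i ^ 2) := by
      linear_combination (r * ∑ i, g i ^ 2) * hr
    rw [h5]
    have h6 : 0 ≤ r ^ 3 * (∑ i, g i ^ 2) := by positivity
    linarith
  have h7 : 0 ≤ (3 * r ^ 3 + 6 * r ^ 5 + 15 * r ^ 7) / 4 * f ^ 2 := by positivity
  linarith

/-- `x · ∇f`. -/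
noncomputable def S1 (f : E → ℝ) (x : E) : ℝ := ∑ i, x i * pd i f x

/-- `|∇f|²`. -/
noncomputable def G2 (f : E → ℝ) (x : E) : ℝ := ∑ i, pd i f x ^ 2

/-- the Morawetz multiplier. -/
noncomputable def mm (f : E → ℝ) (x : E) : ℝ := rr x * S1 f x + (rr x ^ 3 + 3 * rr x) / 2 * f x

/-- the vector field. -/
noncomputable def Zf (f : E → ℝ) (j : Fin 4) (x : E) : ℝ :=
  pd j f x * (rr x * S1 f x) - x j * rr x * G2 f x / 2 +
    (3 * rr x + rr x ^ 3) / 2 * (f x * pd j f x) + x j * (3 * rr x ^ 3 + 3 * rr x ^ 5) / 4 * f x ^ 2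

lemma test_diff {f : E → ℝ} (hf : IsTest f) : Differentiable ℝ f :=
  hf.1.differentiable (by simp)

lemma test_pd {f : E → ℝ} (hf : IsTest f) (i : Fin 4) : IsTest (pd i f) := by
  refine ⟨?_, hf.2.fderiv_apply ℝ _⟩
  unfold pd
  exact (hf.1.fderiv_right (m := ((⊤ : ℕ∞) : WithTop ℕ∞)) (by simp)).clm_apply contDiff_const

lemma pd_symm {f : E → ℝ} (hf : IsTest f) (i j : Fin 4) (x : E) :
    pd j (pd i f) x = pd i (pd j f) x := by
  have h1 : ∀ a b : Fin 4, pd b (pd a f) x = fderiv ℝ (fderiv ℝ f) x (eb b) (eb a) := by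
    intro a b
    have h2 : DifferentiableAt ℝ (fderiv ℝ f) x :=
      ((hf.1.fderiv_right (m := ((⊤ : ℕ∞) : WithTop ℕ∞)) (by simp)).differentiable (by simp)) x
    have h3 : HasFDerivAt (pd a f) ((fderiv ℝ (fderiv ℝ f) x).flip (eb a)) x := by
      have h4 := h2.hasFDerivAt.clm_apply (hasFDerivAt_const (eb a) x)
      refine h4.congr_fderiv ?_
      ext v
      simp
    unfold pd at h3 ⊢
    rw [h3.fderiv]
    rfl
  rw [h1, h1]
  have h5 : IsSymmSndFDerivAt ℝ f x := by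
    refine ContDiffAt.isSymmSndFDerivAt (n := ((⊤ : ℕ∞) : WithTop ℕ∞)) hf.1.contDiffAt ?_
    rw [minSmoothness_of_isRCLikeNormedField]
    exact WithTop.coe_le_coe.2 (le_top : (2 : ℕ∞) ≤ ⊤)
  exact h5.eq (eb j) (eb i)

lemma hd_Zf {f : E → ℝ} (hf : IsTest f) (j : Fin 4) (x : E) :
    HasDerivAt (fun t : ℝ => Zf f j (x + t • eb j))
      (pd j (pd j f) x * (rr x * ∑ i, x i * pd i f x) +
      pd j f x * ((-x j * rr x ^ 3) * (∑ i, x i * pd i f x) +
        rr x * (pd j f x + ∑ i, x i * pd j (pd i f) x)) -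
      (rr x * (∑ i, pd i f x ^ 2) / 2 + x j * (-x j * rr x ^ 3) * (∑ i, pd i f x ^ 2) / 2 +
        x j * rr x * ∑ i, pd i f x * pd j (pd i f) x) +
      (3 * (-x j * rr x ^ 3) + 3 * rr x ^ 2 * (-x j * rr x ^ 3)) / 2 * (f x * pd j f x) +
      (3 * rr x + rr x ^ 3) / 2 * (pd j f x ^ 2 + f x * pd j (pd j f) x) +
      ((3 * rr x ^ 3 + 3 * rr x ^ 5) + x j * (9 * rr x ^ 2 * (-x j * rr x ^ 3) +
        15 * rr x ^ 4 * (-x j * rr x ^ 3))) / 4 * f x ^ 2 +
      x j * (3 * rr x ^ 3 + 3 * rr x ^ 5) / 4 * (2 * f x * pd j f x)) 0 := by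
  have hx0 : x + (0 : ℝ) • eb j = x := by rw [zero_smul, add_zero]
  have hfd := hd_of_diff (test_diff hf) j x
  have hgd : ∀ i, HasDerivAt (fun t : ℝ => pd i f (x + t • eb j)) (pd j (pd i f) x) 0 :=
    fun i => hd_of_diff (test_diff (test_pd hf i)) j x
  have hr := hd_rr j x
  have hxj : HasDerivAt (fun t : ℝ => (x + t • eb j) j) 1 0 := by
    have := hd_coord j j x
    simpa using this
  have hS : HasDerivAt (fun t : ℝ => S1 f (x + t • eb j)) (pd j f x + ∑ i, x i * pd j (pd i f) x) 0 := by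
    unfold S1
    have h1 : HasDerivAt (fun t : ℝ => ∑ i, (x + t • eb j) i * pd i f (x + t • eb j))
        (∑ i, ((if i = j then 1 else 0) * pd i f (x + (0 : ℝ) • eb j) +
          (x + (0 : ℝ) • eb j) i * pd j (pd i f) x)) 0 :=
      HasDerivAt.fun_sum fun i _ => (hd_coord i j x).fun_mul (hgd i)
    refine h1.congr_deriv ?_
    rw [hx0, Finset.sum_add_distrib]
    simp
  have hG : HasDerivAt (fun t : ℝ => G2 f (x + t • eb j)) (2 * ∑ i, pd i f x * pd j (pd i f) x) 0 := by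
    unfold G2
    have h1 : HasDerivAt (fun t : ℝ => ∑ i, pd i f (x + t • eb j) ^ 2)
        (∑ i, ((2 : ℕ) : ℝ) * pd i f (x + (0 : ℝ) • eb j) ^ (2 - 1) * pd j (pd i f) x) 0 :=
      HasDerivAt.fun_sum fun i _ => (hgd i).fun_pow 2
    refine h1.congr_deriv ?_
    rw [hx0, Finset.mul_sum]
    refine Finset.sum_congr rfl fun i _ => ?_
    norm_num
    ring
  have t1 := (hgd j).fun_mul (hr.fun_mul hS)
  have t2 := ((hxj.fun_mul hr).fun_mul hG).div_const 2
  have t3 := (((hr.const_mul 3).fun_add (hr.fun_pow 3)).div_const 2).fun_mul (hfd.fun_mul (hgd j))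
  have t4 := ((hxj.fun_mul (((hr.fun_pow 3).const_mul 3).fun_add
    ((hr.fun_pow 5).const_mul 3))).div_const 4).fun_mul (hfd.fun_pow 2)
  have t := ((t1.fun_sub t2).fun_add t3).fun_add t4
  refine HasDerivAt.congr_deriv (f := fun t : ℝ => Zf f j (x + t • eb j)) t ?_
  rw [hx0]
  unfold S1 G2
  norm_num
  ring

lemma cont_coord (j : Fin 4) : ContDiff ℝ ((⊤ : ℕ∞) : WithTop ℕ∞) (fun x : E => x j) :=
  (EuclideanSpace.proj (𝕜 := ℝ) j).contDiff

lemma S1_smooth {f : E → ℝ} (hf : IsTest f) : ContDiff ℝ ((⊤ : ℕ∞) : WithTop ℕ∞) (S1 f) := by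
  unfold S1
  exact ContDiff.sum fun i _ => (cont_coord i).mul (test_pd hf i).1

lemma G2_smooth {f : E → ℝ} (hf : IsTest f) : ContDiff ℝ ((⊤ : ℕ∞) : WithTop ℕ∞) (G2 f) := by
  unfold G2
  exact ContDiff.sum fun i _ => (test_pd hf i).1.pow 2

lemma Zf_smooth {f : E → ℝ} (hf : IsTest f) (j : Fin 4) :
    ContDiff ℝ ((⊤ : ℕ∞) : WithTop ℕ∞) (Zf f j) := by
  unfold Zf
  have h1 := rr_smooth
  have h2 := S1_smooth hf
  have h3 := G2_smooth hf
  have h4 := cont_coord j
  have h5 := (test_pd hf j).1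
  have h6 := hf.1
  exact ((((h5.mul (h1.mul h2)).sub (((h4.mul h1).mul h3).div_const 2)).add
    ((((contDiff_const.mul h1).add (h1.pow 3)).div_const 2).mul (h6.mul h5))).add
    (((h4.mul ((contDiff_const.mul (h1.pow 3)).add (contDiff_const.mul (h1.pow 5)))).div_const 4).mul
      (h6.pow 2)))

lemma Zf_zero {f : E → ℝ} (j : Fin 4) (x : E) (h0 : f x = 0) (h1 : ∀ i, pd i f x = 0) :
    Zf f j x = 0 := by
  unfold Zf S1 G2
  simp [h0, h1]

/-- a function which vanishes where `f` and its derivatives vanish has compact support. -/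
lemma supp_of {f g : E → ℝ} (hf : IsTest f)
    (hg : ∀ x, f x = 0 → (∀ i, pd i f x = 0) → g x = 0) : HasCompactSupport g := by
  refine HasCompactSupport.of_support_subset_isCompact hf.2 ?_
  intro x hx
  by_contra hn
  apply hx
  have h1 : f x = 0 := image_eq_zero_of_notMem_tsupport hn
  refine hg x h1 fun i => ?_
  have h2 : x ∉ tsupport (fderiv ℝ f) := fun h => hn (tsupport_fderiv_subset ℝ h)
  have h3 : fderiv ℝ f x = 0 := image_eq_zero_of_notMem_tsupport h2
  unfold pd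
  rw [h3]
  simp

lemma Zf_supp {f : E → ℝ} (hf : IsTest f) (j : Fin 4) : HasCompactSupport (Zf f j) :=
  supp_of hf fun x h0 h1 => Zf_zero j x h0 h1

lemma mm_cont {f : E → ℝ} (hf : IsTest f) : Continuous (mm f) := by
  unfold mm
  have h1 := rr_smooth.continuous
  have h2 := (S1_smooth hf).continuous
  have h3 := hf.1.continuous
  fun_prop

lemma mm_supp {f : E → ℝ} (hf : IsTest f) : HasCompactSupport (mm f) := by
  refine supp_of hf fun x h0 h1 => ?_
  unfold mm S1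
  simp [h0, h1]

lemma lap_cont {f : E → ℝ} (hf : IsTest f) : Continuous (lap f) := by
  unfold lap
  exact continuous_finsetSum _ fun i _ => (test_pd (test_pd hf i) i).1.continuous

/-- the inequality for test functions. -/
lemma test_ineq {f : E → ℝ} (hf : IsTest f) : ∫ x, lap f x * mm f x ≤ 0 := by
  have h1 : ∀ x, lap f x * mm f x ≤ ∑ j, pd j (Zf f j) x := by
    intro x
    have h2 : ∀ j, pd j (Zf f j) x = _ := fun j =>
      pd_eq_of_hd ((Zf_smooth hf j).differentiable (by simp)) j x _ (hd_Zf hf j x)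
    rw [Finset.sum_congr rfl fun j _ => h2 j]
    have h3 := poly_id (fun i => x i) (fun i => pd i f x) (fun i j => pd j (pd i f) x)
      (fun i j => pd_symm hf i j x) (f x) (rr x) (by rw [← norm_sq]; exact rr_sq x)
    have h4 := poly_pos (fun i => x i) (fun i => pd i f x) (f x) (rr x) (rr_pos x).le
      (by rw [← norm_sq]; exact rr_sq x)
    simp only at h3 h4
    rw [h3]
    unfold lap mm S1
    linarith
  have h5 : ∀ j, Integrable (fun x => pd j (Zf f j) x) volume := by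
    intro j
    have hc : Continuous (fun x => pd j (Zf f j) x) := by
      unfold pd
      exact ((Zf_smooth hf j).continuous_fderiv (by simp)).clm_apply continuous_const
    exact hc.integrable_of_hasCompactSupport ((Zf_supp hf j).fderiv_apply ℝ _)
  have h6 : Integrable (fun x => lap f x * mm f x) volume := by
    have c1 := lap_cont hf
    have c2 := mm_cont hf
    refine Continuous.integrable_of_hasCompactSupport (by fun_prop) ?_
    refine supp_of hf fun x h0 h1 => ?_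
    unfold mm S1
    simp [h0, h1]
  calc ∫ x, lap f x * mm f x ≤
      ∫ x, ∑ j, pd j (Zf f j) x := integral_mono h6 (integrable_finsetSum _ fun j _ => h5 j) h1
    _ = ∑ j, ∫ x, pd j (Zf f j) x := integral_finsetSum _ fun j _ => h5 j
    _ = 0 := by
      refine Finset.sum_eq_zero fun j _ => ?_
      exact int_pd ((Zf_smooth hf j).of_le (by simp)) (Zf_supp hf j) j

/-- the vector field `g² ∇a / 2`. -/
noncomputable def Wf (g : E → ℝ) (j : Fin 4) (x : E) : ℝ := x j * rr x * g x ^ 2 / 2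

lemma hd_Wf {g : E → ℝ} (hg : IsTest g) (j : Fin 4) (x : E) :
    HasDerivAt (fun t : ℝ => Wf g j (x + t • eb j))
      ((rr x + x j * (-x j * rr x ^ 3)) * g x ^ 2 / 2 + x j * rr x * (g x * pd j g x)) 0 := by
  have hx0 : x + (0 : ℝ) • eb j = x := by rw [zero_smul, add_zero]
  have hgd := hd_of_diff (test_diff hg) j x
  have hr := hd_rr j x
  have hxj : HasDerivAt (fun t : ℝ => (x + t • eb j) j) 1 0 := by
    have := hd_coord j j x
    simpa using this
  have t := ((hxj.fun_mul hr).fun_mul (hgd.fun_pow 2)).div_const 2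
  refine HasDerivAt.congr_deriv (f := fun t : ℝ => Wf g j (x + t • eb j)) t ?_
  rw [hx0]
  norm_num
  ring

lemma Wf_smooth {g : E → ℝ} (hg : IsTest g) (j : Fin 4) :
    ContDiff ℝ ((⊤ : ℕ∞) : WithTop ℕ∞) (Wf g j) := by
  unfold Wf
  exact (((cont_coord j).mul rr_smooth).mul (hg.1.pow 2)).div_const 2

lemma Wf_supp {g : E → ℝ} (hg : IsTest g) (j : Fin 4) : HasCompactSupport (Wf g j) :=
  supp_of hg fun x h0 h1 => by unfold Wf; simp [h0]

/-- the identity for test functions. -/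
lemma test_id {g : E → ℝ} (hg : IsTest g) : ∫ x, g x * mm g x = 0 := by
  have h1 : ∀ x, g x * mm g x = ∑ j, pd j (Wf g j) x := by
    intro x
    have h2 : ∀ j, pd j (Wf g j) x = _ := fun j =>
      pd_eq_of_hd ((Wf_smooth hg j).differentiable (by simp)) j x _ (hd_Wf hg j x)
    rw [Finset.sum_congr rfl fun j _ => h2 j]
    have hr := rr_sq x
    rw [norm_sq] at hr
    unfold mm S1
    simp only [Fin.sum_univ_four] at hr ⊢
    linear_combination (rr x * g x ^ 2 / 2) * hr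
  have h5 : ∀ j, Integrable (fun x => pd j (Wf g j) x) volume := by
    intro j
    have hc : Continuous (fun x => pd j (Wf g j) x) := by
      unfold pd
      exact ((Wf_smooth hg j).continuous_fderiv (by simp)).clm_apply continuous_const
    exact hc.integrable_of_hasCompactSupport ((Wf_supp hg j).fderiv_apply ℝ _)
  calc ∫ x, g x * mm g x = ∫ x, ∑ j, pd j (Wf g j) x := integral_congr_ae (Eventually.of_forall h1)
    _ = ∑ j, ∫ x, pd j (Wf g j) x := integral_finsetSum _ fun j _ => h5 j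
    _ = 0 := by
      refine Finset.sum_eq_zero fun j _ => ?_
      exact int_pd ((Wf_smooth hg j).of_le (by simp)) (Wf_supp hg j) j

lemma mm_eq (f : E → ℝ) (x : E) : (∑ i, x i * pd i f x) / √(1 + ‖x‖ ^ 2) +
    (1 / (√(1 + ‖x‖ ^ 2)) ^ 3 + 3 / √(1 + ‖x‖ ^ 2)) / 2 * f x = mm f x := by
  unfold mm S1 rr
  rw [inv_pow]
  ring

end MorTx

open MorTx in
theorem thm_MorT : St_MorT := by
  intro f g hf hg
  simp only [mm_eq]
  exact ⟨test_ineq hf, test_id hg⟩

end Pool.Agent.QWF
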