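import Pool.Agent.QWF.StA

set_option autoImplicit false

/-!
# QWF / MulB: bounded multiplication
-/

open MeasureTheory Filter Topology Set
open scoped ENNReal NNReal RealInnerProductSpace

namespace Pool.Agent.QWF

namespace MulBx

theorem zeta_data {ζ : ℝ → ℝ} (h1 : Sm ζ) (h2 : HasCompactSupport (deriv ζ)) :
    ∃ B C : ℝ, 0 ≤ B ∧ 0 ≤ C ∧ (∀ x, |ζ x| ≤ B) ∧ ∀ y v : ℝ, y ≠ 0 →
      (ζ (y + v) - ζ y) ^ 2 ≤ C * min 1 ((v / y) ^ 2) := by
  have hs : ContDiff ℝ ((⊤ : ℕ∞) : WithTop ℕ∞) ζ := h1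
  have hd : Differentiable ℝ ζ := hs.differentiable (by simp)
  obtain ⟨L, hL, hL2⟩ := h2.exists_pos_le_norm
  obtain ⟨D, hD⟩ := h2.exists_bound_of_continuous (hs.continuous_deriv (by simp))
  have hD0 : 0 ≤ D := (norm_nonneg _).trans (hD 0)
  have lip : ∀ x y, |ζ y - ζ x| ≤ D * |y - x| := fun x y =>
    Convex.norm_image_sub_le_of_norm_deriv_le (s := univ) (f := ζ) (fun x _ => hd x)
      (fun x _ => hD x) convex_univ (mem_univ x) (mem_univ y)
  have cp : ∀ x y, L ≤ x → L ≤ y → ζ y = ζ x := by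
    intro x y hx hy
    have h3 := Convex.norm_image_sub_le_of_norm_deriv_le (s := Ici L) (C := 0) (f := ζ)
      (fun x _ => hd x) (fun z hz => by
        rw [hL2 z (le_trans (mem_Ici.1 hz) (le_abs_self z)), norm_zero]) (convex_Ici L) hx hy
    rw [zero_mul] at h3
    exact sub_eq_zero.1 (norm_le_zero_iff.1 h3)
  have cn : ∀ x y, x ≤ -L → y ≤ -L → ζ y = ζ x := by
    intro x y hx hy
    have h3 := Convex.norm_image_sub_le_of_norm_deriv_le (s := Iic (-L)) (C := 0) (f := ζ)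
      (fun x _ => hd x) (fun z hz => by
        have h4 : z ≤ -L := hz
        rw [hL2 z (by rw [Real.norm_eq_abs, abs_of_nonpos (by linarith)]; linarith), norm_zero])
      (convex_Iic (-L)) hx hy
    rw [zero_mul] at h3
    exact sub_eq_zero.1 (norm_le_zero_iff.1 h3)
  have hB : ∀ x, |ζ x| ≤ |ζ 0| + D * L := by
    have h5 : ∀ x, |x| ≤ L → |ζ x| ≤ |ζ 0| + D * L := by
      intro x hx
      have h6 := lip 0 x
      rw [sub_zero] at h6
      have h7 : D * |x| ≤ D * L := mul_le_mul_of_nonneg_left hx hD0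
      have h8 : |ζ x| ≤ |ζ x - ζ 0| + |ζ 0| := by
        have := abs_add_le (ζ x - ζ 0) (ζ 0)
        rwa [sub_add_cancel] at this
      linarith
    intro x
    rcases le_total (|x|) L with h | h
    · exact h5 x h
    · rcases le_total 0 x with h0 | h0
      · rw [abs_of_nonneg h0] at h
        rw [cp L x le_rfl h]
        exact h5 L (by rw [abs_of_pos hL])
      · rw [abs_of_nonpos h0] at h
        rw [cn (-L) x le_rfl (by linarith)]
        exact h5 (-L) (by rw [abs_neg, abs_of_pos hL])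
  set B := |ζ 0| + D * L with hBdef
  have hB0 : 0 ≤ B := (abs_nonneg _).trans (hB 0)
  refine ⟨B, 16 * B ^ 2 + 4 * L ^ 2 * D ^ 2, hB0, by positivity, hB, ?_⟩
  intro y v hy
  have h4B : (ζ (y + v) - ζ y) ^ 2 ≤ 4 * B ^ 2 := by
    have h6 : |ζ (y + v) - ζ y| ≤ 2 * B := by
      have := abs_sub (ζ (y + v)) (ζ y)
      have h7 := hB (y + v)
      have h8 := hB y
      linarith
    rw [← sq_abs]
    calc |ζ (y + v) - ζ y| ^ 2 ≤ (2 * B) ^ 2 := by gcongr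
      _ = 4 * B ^ 2 := by ring
  rcases lt_or_ge (|y|) (2 * L) with hyL | hyL
  · have h6 : (ζ (y + v) - ζ y) ^ 2 ≤ 4 * L ^ 2 * D ^ 2 * (v / y) ^ 2 := by
      have h7 := lip y (y + v)
      rw [add_sub_cancel_left] at h7
      have h8 : v = (v / y) * y := by field_simp
      have h9 : y ^ 2 ≤ 4 * L ^ 2 := by
        rw [← sq_abs y]
        calc |y| ^ 2 ≤ (2 * L) ^ 2 := by gcongr
          _ = 4 * L ^ 2 := by ring
      calc (ζ (y + v) - ζ y) ^ 2 = |ζ (y + v) - ζ y| ^ 2 := (sq_abs _).symm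
        _ ≤ (D * |v|) ^ 2 := by gcongr
        _ = D ^ 2 * v ^ 2 := by rw [mul_pow, sq_abs]
        _ = D ^ 2 * (v / y) ^ 2 * y ^ 2 := by
          conv_lhs => rw [h8]
          ring
        _ ≤ D ^ 2 * (v / y) ^ 2 * (4 * L ^ 2) := by gcongr
        _ = 4 * L ^ 2 * D ^ 2 * (v / y) ^ 2 := by ring
    rcases le_total 1 ((v / y) ^ 2) with h10 | h10
    · rw [min_eq_left h10, mul_one]
      have : 0 ≤ 4 * L ^ 2 * D ^ 2 := by positivity
      nlinarith [sq_nonneg B]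
    · rw [min_eq_right h10]
      have : 0 ≤ 16 * B ^ 2 * (v / y) ^ 2 := by positivity
      nlinarith
  · rcases lt_or_ge (|v|) (|y| / 2) with hv | hv
    · have h6 : ζ (y + v) = ζ y := by
        rcases le_total 0 y with h0 | h0
        · rw [abs_of_nonneg h0] at hyL hv
          have h7 := neg_abs_le v
          exact cp y (y + v) (by linarith) (by linarith)
        · rw [abs_of_nonpos h0] at hyL hv
          have h7 := le_abs_self v
          exact cn y (y + v) (by linarith) (by linarith)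
      rw [h6, sub_self, zero_pow two_ne_zero]
      positivity
    · have h6 : 1 / 4 ≤ (v / y) ^ 2 := by
        rw [div_pow, ← sq_abs v, ← sq_abs y, le_div_iff₀ (by positivity)]
        have h7 : 0 ≤ |y| / 2 := by positivity
        calc 1 / 4 * |y| ^ 2 = (|y| / 2) ^ 2 := by ring
          _ ≤ |v| ^ 2 := by gcongr
      have h7 : 1 / 4 ≤ min 1 ((v / y) ^ 2) := le_min (by norm_num) h6
      have h8 : 0 ≤ 4 * L ^ 2 * D ^ 2 := by positivity
      have h9 : 0 ≤ 16 * B ^ 2 + 4 * L ^ 2 * D ^ 2 := by positivity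
      calc (ζ (y + v) - ζ y) ^ 2 ≤ 4 * B ^ 2 := h4B
        _ ≤ (16 * B ^ 2 + 4 * L ^ 2 * D ^ 2) * (1 / 4) := by linarith
        _ ≤ _ := by gcongr

theorem kern {τ : ℝ} (h0 : 0 < τ) (h1 : τ < 1 / 2) (v : ℝ) :
    |v| ^ (-1 - 2 * τ) * min 1 (v ^ 2) ≤ 2 ^ (1 + 2 * τ) * (1 + |v|) ^ (-(1 + 2 * τ)) := by
  rcases eq_or_ne v 0 with rfl | hv
  · have h2 : min 1 ((0 : ℝ) ^ 2) = 0 := by norm_num
    rw [h2, mul_zero]
    positivity
  have hv0 : 0 < |v| := abs_pos.2 hv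
  have e1 : (-1 - 2 * τ) = -(1 + 2 * τ) := by ring
  have h2 : (2 : ℝ) ^ (1 + 2 * τ) * 2 ^ (-(1 + 2 * τ)) = 1 := by
    rw [← Real.rpow_add two_pos, add_neg_cancel, Real.rpow_zero]
  rcases le_or_gt (|v|) 1 with h | h
  · calc |v| ^ (-1 - 2 * τ) * min 1 (v ^ 2) ≤ |v| ^ (-1 - 2 * τ) * v ^ 2 := by
          gcongr
          exact min_le_right _ _
      _ = |v| ^ (1 - 2 * τ) := by
          rw [← sq_abs v, ← Real.rpow_natCast (|v|) 2, ← Real.rpow_add hv0]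
          congr 1
          push_cast
          ring
      _ ≤ 1 := Real.rpow_le_one hv0.le h (by linarith)
      _ = 2 ^ (1 + 2 * τ) * 2 ^ (-(1 + 2 * τ)) := h2.symm
      _ ≤ 2 ^ (1 + 2 * τ) * (1 + |v|) ^ (-(1 + 2 * τ)) := by
          apply mul_le_mul_of_nonneg_left _ (by positivity)
          exact Real.rpow_le_rpow_of_nonpos (by positivity) (by linarith) (by linarith)
  · calc |v| ^ (-1 - 2 * τ) * min 1 (v ^ 2) ≤ |v| ^ (-1 - 2 * τ) * 1 := by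
          gcongr
          exact min_le_left _ _
      _ = |v| ^ (-(1 + 2 * τ)) := by rw [mul_one, e1]
      _ ≤ ((1 + |v|) / 2) ^ (-(1 + 2 * τ)) :=
          Real.rpow_le_rpow_of_nonpos (by positivity) (by linarith) (by linarith)
      _ = 2 ^ (1 + 2 * τ) * (1 + |v|) ^ (-(1 + 2 * τ)) := by
          rw [Real.div_rpow (by positivity) two_pos.le, div_eq_mul_inv, Real.rpow_neg two_pos.le (1 + 2 * τ),
            inv_inv, mul_comm]

/-- the constant of the kernel estimate -/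
noncomputable def kc (τ : ℝ) : ℝ := 2 ^ (1 + 2 * τ) * ∫ v : ℝ, (1 + |v|) ^ (-(1 + 2 * τ))

theorem kc_nonneg (τ : ℝ) : 0 ≤ kc τ := by
  unfold kc
  refine mul_nonneg (by positivity) (integral_nonneg fun v => ?_)
  exact Real.rpow_nonneg (by positivity) _

theorem kern2 {τ : ℝ} (h0 : 0 < τ) (h1 : τ < 1 / 2) (C : ℝ) (hC : 0 ≤ C) (Z : ℝ → ℝ) (p : ℝ)
    (hp : p ≠ 0) (hZ : ∀ u, (Z (p + u) - Z p) ^ 2 ≤ C * min 1 ((u / p) ^ 2)) :
    ∫⁻ u : ℝ, ENNReal.ofReal (|u| ^ (-1 - 2 * τ) * (Z (p + u) - Z p) ^ 2) ≤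
      ENNReal.ofReal (C * kc τ * |p| ^ (-2 * τ)) := by
  have hp0 : 0 < |p| := abs_pos.2 hp
  set G : ℝ → ℝ := fun v => (1 + |v|) ^ (-(1 + 2 * τ)) with hG
  have hGi : Integrable G := by
    have := integrable_one_add_norm (E := ℝ) (μ := volume) (r := 1 + 2 * τ) (by simp; linarith)
    simpa only [Real.norm_eq_abs] using this
  have hpt : ∀ u : ℝ, |u| ^ (-1 - 2 * τ) * (Z (p + u) - Z p) ^ 2 ≤
      C * (2 ^ (1 + 2 * τ) * |p| ^ (-1 - 2 * τ)) * G (u / p) := by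
    intro u
    have e1 : |u| = |p| * |u / p| := by
      rw [abs_div]
      field_simp
    calc |u| ^ (-1 - 2 * τ) * (Z (p + u) - Z p) ^ 2
        ≤ |u| ^ (-1 - 2 * τ) * (C * min 1 ((u / p) ^ 2)) := by
          gcongr
          exact hZ u
      _ = C * |p| ^ (-1 - 2 * τ) * (|u / p| ^ (-1 - 2 * τ) * min 1 ((u / p) ^ 2)) := by
          conv_lhs => rw [e1, Real.mul_rpow (abs_nonneg _) (abs_nonneg _)]
          ring
      _ ≤ C * |p| ^ (-1 - 2 * τ) * (2 ^ (1 + 2 * τ) * G (u / p)) := by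
          apply mul_le_mul_of_nonneg_left (kern h0 h1 (u / p)) (by positivity)
      _ = _ := by ring
  calc ∫⁻ u : ℝ, ENNReal.ofReal (|u| ^ (-1 - 2 * τ) * (Z (p + u) - Z p) ^ 2)
      ≤ ∫⁻ u : ℝ, ENNReal.ofReal (C * (2 ^ (1 + 2 * τ) * |p| ^ (-1 - 2 * τ)) * G (u / p)) :=
        lintegral_mono fun u => ENNReal.ofReal_le_ofReal (hpt u)
    _ = ENNReal.ofReal (∫ u : ℝ, C * (2 ^ (1 + 2 * τ) * |p| ^ (-1 - 2 * τ)) * G (u / p)) := by
        rw [ofReal_integral_eq_lintegral_ofReal]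
        · exact (hGi.comp_div hp).const_mul _
        · refine Eventually.of_forall fun u => ?_
          have : 0 ≤ G (u / p) := Real.rpow_nonneg (by positivity) _
          positivity
    _ = ENNReal.ofReal (C * kc τ * |p| ^ (-2 * τ)) := by
        congr 1
        rw [integral_const_mul, Measure.integral_comp_div, smul_eq_mul]
        have e2 : |p| ^ (-2 * τ) = |p| ^ (-1 - 2 * τ) * |p| := by
          rw [← Real.rpow_add_one hp0.ne']
          congr 1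
          ring
        rw [e2, kc]
        ring

theorem Nice_cont {h : S × ℝ → ℝ} (hh : Nice univ h) : Continuous h := by
  obtain ⟨g, h1, -, h3, -⟩ := hh
  have : h = fun z : S × ℝ => g ((z.1 : E), z.2) := funext h3
  rw [this]
  exact h1.continuous.comp (by fun_prop)

theorem Nice_mul {h : S × ℝ → ℝ} (hh : Nice univ h) {Z : ℝ → ℝ} (hZ : Sm Z) :
    Nice univ (fun z => Z z.2 * h z) := by
  obtain ⟨g, h1, ⟨M, h2⟩, h3, -⟩ := hh
  have hZ' : ContDiff ℝ ((⊤ : ℕ∞) : WithTop ℕ∞) Z := hZ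
  refine ⟨fun q => Z q.2 * g q, (hZ'.comp contDiff_snd).mul h1, ⟨M, ?_⟩, ?_, subset_univ _⟩
  · intro x p hp
    show Z p * g (x, p) = 0
    rw [h2 x p hp, mul_zero]
  · intro z
    show Z z.2 * h z = Z z.2 * g ((z.1 : E), z.2)
    rw [h3]

theorem Nice_shift {h : S × ℝ → ℝ} (hh : Nice univ h) (t : ℝ) :
    Nice univ (fun z => h (z.1, z.2 - t)) := by
  obtain ⟨g, h1, ⟨M, h2⟩, h3, -⟩ := hh
  refine ⟨fun q => g (q.1, q.2 - t), h1.comp (contDiff_fst.prodMk (contDiff_snd.sub contDiff_const)),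
    ⟨M + |t|, ?_⟩, ?_, subset_univ _⟩
  · intro x p hp
    show g (x, p - t) = 0
    apply h2
    have := abs_add_le (p - t) t
    rw [sub_add_cancel] at this
    linarith
  · intro z
    exact h3 (z.1, z.2 - t)

theorem ae_snd_ne : ∀ᵐ z : S × ℝ ∂mu, z.2 ≠ 0 := by
  have h1 : ∀ᵐ x : ℝ ∂volume, x ≠ 0 := Measure.ae_ne volume 0
  exact (Measure.quasiMeasurePreserving_snd (μ := sg) (ν := (volume : Measure ℝ))).ae h1

theorem neg_case {τ Cg Ch : ℝ} (h0 : 0 < τ) (h1 : τ < 1 / 2) (hCg : 0 < Cg)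
    (hCh : 0 < Ch) (hG : ∀ h : S × ℝ → ℝ, Nice univ h →
      ∫⁻ u : ℝ, ∫⁻ z : S × ℝ, ENNReal.ofReal (|u| ^ (-1 - 2 * τ) * (h (z.1, z.2 + u) - h z) ^ 2) ∂mu =
        ENNReal.ofReal (Cg * ‖JK (-τ) h‖ ^ 2))
    (hH : ∀ h : S × ℝ → ℝ, Nice univ h → ∫⁻ z : S × ℝ, ENNReal.ofReal (|z.2| ^ (-2 * τ) * h z ^ 2) ∂mu ≤
      ENNReal.ofReal (Ch * ‖JK (-τ) h‖ ^ 2)) (B C : ℝ) (hC : 0 ≤ C)
    (Z : ℝ → ℝ) (hZs : Sm Z) (hB : ∀ x, |Z x| ≤ B)
    (hZ : ∀ p u, p ≠ 0 → (Z (p + u) - Z p) ^ 2 ≤ C * min 1 ((u / p) ^ 2)) (h : S × ℝ → ℝ)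
    (hh : Nice univ h) :
    ‖JK (-τ) (fun z => Z z.2 * h z)‖ ^ 2 ≤
      ((2 * B ^ 2 * Cg + 2 * (C * kc τ) * Ch) / Cg) * ‖JK (-τ) h‖ ^ 2 := by
  have hZc : Continuous Z := (show ContDiff ℝ ((⊤ : ℕ∞) : WithTop ℕ∞) Z from hZs).continuous
  have hhc : Continuous h := Nice_cont hh
  have hkc := kc_nonneg τ
  have hZm : Measurable Z := hZc.measurable
  have hhm : Measurable h := hhc.measurable
  set a : ℝ := -1 - 2 * τ with ha
  have hpt : ∀ (u : ℝ) (z : S × ℝ),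
      ENNReal.ofReal (|u| ^ a * (Z (z.2 + u) * h (z.1, z.2 + u) - Z z.2 * h z) ^ 2) ≤
      ENNReal.ofReal (2 * B ^ 2) * ENNReal.ofReal (|u| ^ a * (h (z.1, z.2 + u) - h z) ^ 2) +
      ENNReal.ofReal (2 * h z ^ 2) * ENNReal.ofReal (|u| ^ a * (Z (z.2 + u) - Z z.2) ^ 2) := by
    intro u z
    have hu : 0 ≤ |u| ^ a := Real.rpow_nonneg (abs_nonneg _) _
    rw [← ENNReal.ofReal_mul (by positivity), ← ENNReal.ofReal_mul (by positivity),
      ← ENNReal.ofReal_add (by positivity) (by positivity)]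
    apply ENNReal.ofReal_le_ofReal
    have h2 : Z (z.2 + u) * h (z.1, z.2 + u) - Z z.2 * h z =
        Z (z.2 + u) * (h (z.1, z.2 + u) - h z) + h z * (Z (z.2 + u) - Z z.2) := by ring
    have h3 : (Z (z.2 + u) * h (z.1, z.2 + u) - Z z.2 * h z) ^ 2 ≤
        2 * (Z (z.2 + u) * (h (z.1, z.2 + u) - h z)) ^ 2 + 2 * (h z * (Z (z.2 + u) - Z z.2)) ^ 2 := by
      rw [h2]
      nlinarith [sq_nonneg (Z (z.2 + u) * (h (z.1, z.2 + u) - h z) - h z * (Z (z.2 + u) - Z z.2))]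
    have h4 : (Z (z.2 + u)) ^ 2 ≤ B ^ 2 := by
      rw [← sq_abs]
      exact pow_le_pow_left₀ (abs_nonneg _) (hB _) 2
    calc |u| ^ a * (Z (z.2 + u) * h (z.1, z.2 + u) - Z z.2 * h z) ^ 2
        ≤ |u| ^ a * (2 * (Z (z.2 + u) * (h (z.1, z.2 + u) - h z)) ^ 2 +
          2 * (h z * (Z (z.2 + u) - Z z.2)) ^ 2) := by gcongr
      _ = 2 * Z (z.2 + u) ^ 2 * (|u| ^ a * (h (z.1, z.2 + u) - h z) ^ 2) +
          2 * h z ^ 2 * (|u| ^ a * (Z (z.2 + u) - Z z.2) ^ 2) := by ring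
      _ ≤ 2 * B ^ 2 * (|u| ^ a * (h (z.1, z.2 + u) - h z) ^ 2) +
          2 * h z ^ 2 * (|u| ^ a * (Z (z.2 + u) - Z z.2) ^ 2) := by gcongr
  have m1 : Measurable fun q : ℝ × (S × ℝ) =>
      ENNReal.ofReal (2 * B ^ 2) * ENNReal.ofReal (|q.1| ^ a * (h (q.2.1, q.2.2 + q.1) - h q.2) ^ 2) := by
    fun_prop
  have m2 : Measurable fun q : ℝ × (S × ℝ) =>
      ENNReal.ofReal (2 * h q.2 ^ 2) * ENNReal.ofReal (|q.1| ^ a * (Z (q.2.2 + q.1) - Z q.2.2) ^ 2) := by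
    fun_prop
  have key : ENNReal.ofReal (Cg * ‖JK (-τ) (fun z => Z z.2 * h z)‖ ^ 2) ≤
      ENNReal.ofReal ((2 * B ^ 2 * Cg + 2 * (C * kc τ) * Ch) * ‖JK (-τ) h‖ ^ 2) := by
    rw [← hG _ (Nice_mul hh hZs)]
    calc ∫⁻ u : ℝ, ∫⁻ z : S × ℝ, ENNReal.ofReal
          (|u| ^ a * (Z (z.2 + u) * h (z.1, z.2 + u) - Z z.2 * h z) ^ 2) ∂mu
        ≤ ∫⁻ u : ℝ, ∫⁻ z : S × ℝ,
          (ENNReal.ofReal (2 * B ^ 2) * ENNReal.ofReal (|u| ^ a * (h (z.1, z.2 + u) - h z) ^ 2) +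
          ENNReal.ofReal (2 * h z ^ 2) * ENNReal.ofReal (|u| ^ a * (Z (z.2 + u) - Z z.2) ^ 2)) ∂mu :=
          lintegral_mono fun u => lintegral_mono fun z => hpt u z
      _ = ∫⁻ u : ℝ, ((∫⁻ z : S × ℝ, ENNReal.ofReal (2 * B ^ 2) *
            ENNReal.ofReal (|u| ^ a * (h (z.1, z.2 + u) - h z) ^ 2) ∂mu) +
          ∫⁻ z : S × ℝ, ENNReal.ofReal (2 * h z ^ 2) *
            ENNReal.ofReal (|u| ^ a * (Z (z.2 + u) - Z z.2) ^ 2) ∂mu) := by
          refine lintegral_congr fun u => ?_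
          exact lintegral_add_left (m1.comp (measurable_const.prodMk measurable_id)) _
      _ = (∫⁻ u : ℝ, ∫⁻ z : S × ℝ, ENNReal.ofReal (2 * B ^ 2) *
            ENNReal.ofReal (|u| ^ a * (h (z.1, z.2 + u) - h z) ^ 2) ∂mu) +
          ∫⁻ u : ℝ, ∫⁻ z : S × ℝ, ENNReal.ofReal (2 * h z ^ 2) *
            ENNReal.ofReal (|u| ^ a * (Z (z.2 + u) - Z z.2) ^ 2) ∂mu :=
          lintegral_add_left m1.lintegral_prod_right' _
      _ = ENNReal.ofReal (2 * B ^ 2) * ENNReal.ofReal (Cg * ‖JK (-τ) h‖ ^ 2) +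
          ∫⁻ z : S × ℝ, ENNReal.ofReal (2 * h z ^ 2) *
            (∫⁻ u : ℝ, ENNReal.ofReal (|u| ^ a * (Z (z.2 + u) - Z z.2) ^ 2)) ∂mu := by
          congr 1
          · rw [← hG h hh, ← lintegral_const_mul' _ _ ENNReal.ofReal_ne_top]
            refine lintegral_congr fun u => ?_
            rw [← lintegral_const_mul' _ _ ENNReal.ofReal_ne_top]
          · rw [lintegral_lintegral_swap m2.aemeasurable]
            refine lintegral_congr fun z => ?_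
            rw [← lintegral_const_mul' _ _ ENNReal.ofReal_ne_top]
      _ ≤ ENNReal.ofReal (2 * B ^ 2) * ENNReal.ofReal (Cg * ‖JK (-τ) h‖ ^ 2) +
          ∫⁻ z : S × ℝ, ENNReal.ofReal (2 * (C * kc τ)) *
            ENNReal.ofReal (|z.2| ^ (-2 * τ) * h z ^ 2) ∂mu := by
          refine add_le_add le_rfl (lintegral_mono_ae ?_)
          filter_upwards [ae_snd_ne] with z hz
          calc ENNReal.ofReal (2 * h z ^ 2) *
              (∫⁻ u : ℝ, ENNReal.ofReal (|u| ^ a * (Z (z.2 + u) - Z z.2) ^ 2))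
              ≤ ENNReal.ofReal (2 * h z ^ 2) * ENNReal.ofReal (C * kc τ * |z.2| ^ (-2 * τ)) := by
                gcongr
                exact kern2 h0 h1 C hC Z z.2 hz fun u => hZ z.2 u hz
            _ = ENNReal.ofReal (2 * (C * kc τ)) * ENNReal.ofReal (|z.2| ^ (-2 * τ) * h z ^ 2) := by
                rw [← ENNReal.ofReal_mul (by positivity), ← ENNReal.ofReal_mul (by positivity)]
                congr 1
                ring
      _ ≤ ENNReal.ofReal (2 * B ^ 2) * ENNReal.ofReal (Cg * ‖JK (-τ) h‖ ^ 2) +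
          ENNReal.ofReal (2 * (C * kc τ)) * ENNReal.ofReal (Ch * ‖JK (-τ) h‖ ^ 2) := by
          rw [lintegral_const_mul' _ _ ENNReal.ofReal_ne_top]
          gcongr
          exact hH h hh
      _ = ENNReal.ofReal ((2 * B ^ 2 * Cg + 2 * (C * kc τ) * Ch) * ‖JK (-τ) h‖ ^ 2) := by
          rw [← ENNReal.ofReal_mul (by positivity), ← ENNReal.ofReal_mul (by positivity),
            ← ENNReal.ofReal_add (by positivity) (by positivity)]
          congr 1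
          ring
  have h5 : Cg * ‖JK (-τ) (fun z => Z z.2 * h z)‖ ^ 2 ≤
      (2 * B ^ 2 * Cg + 2 * (C * kc τ) * Ch) * ‖JK (-τ) h‖ ^ 2 :=
    (ENNReal.ofReal_le_ofReal_iff (by positivity)).1 key
  rw [div_mul_eq_mul_div, le_div_iff₀ hCg]
  linarith

theorem scal {R : ℝ} (hR : 0 < R) {ζ : ℝ → ℝ} {C : ℝ}
    (hZ : ∀ y v : ℝ, y ≠ 0 → (ζ (y + v) - ζ y) ^ 2 ≤ C * min 1 ((v / y) ^ 2)) (p u : ℝ) (hp : p ≠ 0) :
    (ζ ((p + u) / R) - ζ (p / R)) ^ 2 ≤ C * min 1 ((u / p) ^ 2) := by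
  have h1 := hZ (p / R) (u / R) (div_ne_zero hp hR.ne')
  have h2 : u / R / (p / R) = u / p := by field_simp
  rwa [h2, ← add_div] at h1

theorem Sm_scal {ζ : ℝ → ℝ} (h : Sm ζ) (R c : ℝ) : Sm (fun p => ζ ((p - c) / R)) := by
  have h' : ContDiff ℝ ((⊤ : ℕ∞) : WithTop ℕ∞) ζ := h
  exact h'.comp ((contDiff_id.sub contDiff_const).div_const R)

theorem shift_case (hPJ : St_PJ) {s : ℝ} (hs : |s| < 1 / 2) {ζ : ℝ → ℝ} (hζ : Sm ζ) (A : ℝ)
    (hA : ∀ (R : ℝ) (h : S × ℝ → ℝ), 0 < R → Nice univ h →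
      ‖JK s (fun z => ζ (z.2 / R) * h z)‖ ≤ A * ‖JK s h‖) (R c : ℝ) (h : S × ℝ → ℝ) (hR : 0 < R)
    (hh : Nice univ h) : ‖JK s (fun z => ζ ((z.2 - c) / R) * h z)‖ ≤ A * ‖JK s h‖ := by
  obtain ⟨hJ, -⟩ := hPJ s hs
  have h1 := (hJ h hh).2.2.2.1 (-c)
  have h2 := (hJ _ (Nice_mul hh (Sm_scal hζ R c))).2.2.2.1 (-c)
  have h3 := hA R _ hR (Nice_shift hh (-c))
  rw [← h1, LinearIsometry.norm_map] at h3
  rw [← LinearIsometry.norm_map (tau (-c)), h2]
  refine le_trans (le_of_eq ?_) h3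
  congr 2
  funext z
  show ζ ((z.2 - -c - c) / R) * h (z.1, z.2 - -c) = ζ (z.2 / R) * h (z.1, z.2 - -c)
  congr 3
  ring

theorem dual_case (hPJ : St_PJ) (hD : St_DnsP) {s : ℝ} (hs : |s| < 1 / 2) (A : ℝ) (hA0 : 0 ≤ A) (Z : ℝ → ℝ)
    (hZ : Sm Z) (hA : ∀ h : S × ℝ → ℝ, Nice univ h → ‖JK (-s) (fun z => Z z.2 * h z)‖ ≤ A * ‖JK (-s) h‖)
    (h : S × ℝ → ℝ) (hh : Nice univ h) : ‖JK s (fun z => Z z.2 * h z)‖ ≤ A * ‖JK s h‖ := by
  obtain ⟨hJ, -⟩ := hPJ s hs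
  have hs' : |(-s)| < 1 / 2 := by rwa [abs_neg]
  obtain ⟨hJ', -⟩ := hPJ (-s) hs'
  obtain ⟨-, -, hT'⟩ := hD (-s) (by linarith [(abs_lt.1 hs').1]) (abs_lt.1 hs').2
  have hT := hT' hs'
  set x := JK s (fun z => Z z.2 * h z) with hx
  -- elements of the span
  have hspan : ∀ w ∈ Submodule.span ℝ {w : K | ∃ g, Nice univ g ∧ w = JK (-s) g},
      ∃ g, Nice univ g ∧ w = JK (-s) g := by
    intro w hw
    induction hw using Submodule.span_induction with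
    | mem w hw => exact hw
    | zero =>
      refine ⟨fun z => 0 * h z, ?_, ?_⟩
      · exact Nice_mul (Z := fun _ => 0) hh (show ContDiff ℝ _ _ from contDiff_const)
      · rw [(hJ' h hh).2.2.2.2.2.2.1 0, zero_smul]
    | add v w _ _ hv hw =>
      obtain ⟨g, hg, rfl⟩ := hv
      obtain ⟨g', hg', rfl⟩ := hw
      refine ⟨fun z => g z + g' z, ?_, ((hJ' g hg).2.2.2.2.2.2.2.1 g' hg').1.symm⟩
      obtain ⟨a, h1, ⟨M, h2⟩, h3, -⟩ := hg
      obtain ⟨a', h1', ⟨M', h2'⟩, h3', -⟩ := hg'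
      refine ⟨fun q => a q + a' q, h1.add h1', ⟨max M M', ?_⟩, ?_, subset_univ _⟩
      · intro x p hp
        show a (x, p) + a' (x, p) = 0
        rw [h2 x p ((le_max_left _ _).trans hp), h2' x p ((le_max_right _ _).trans hp), add_zero]
      · intro z
        show g z + g' z = _
        rw [h3, h3']
    | smul c w _ hw =>
      obtain ⟨g, hg, rfl⟩ := hw
      exact ⟨fun z => c * g z, Nice_mul (Z := fun _ => c) hg (show ContDiff ℝ _ _ from contDiff_const),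
        ((hJ' g hg).2.2.2.2.2.2.1 c).symm⟩
  have hin : ∀ w ∈ Submodule.span ℝ {w : K | ∃ g, Nice univ g ∧ w = JK (-s) g},
      inner ℝ x w ≤ A * ‖JK s h‖ * ‖w‖ := by
    intro w hw
    obtain ⟨g, hg, rfl⟩ := hspan w hw
    have e1 : inner ℝ x (JK (-s) g) = ∫ z, (Z z.2 * h z) * g z ∂mu :=
      ((hJ _ (Nice_mul hh hZ)).2.2.2.2.2.2.2.1 g hg).2.1
    have e2 : inner ℝ (JK s h) (JK (-s) (fun z => Z z.2 * g z)) = ∫ z, h z * (Z z.2 * g z) ∂mu :=
      ((hJ _ hh).2.2.2.2.2.2.2.1 _ (Nice_mul hg hZ)).2.1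
    have e3 : inner ℝ x (JK (-s) g) = inner ℝ (JK s h) (JK (-s) (fun z => Z z.2 * g z)) := by
      rw [e1, e2]
      congr 1
      funext z
      ring
    rw [e3]
    calc inner ℝ (JK s h) (JK (-s) (fun z => Z z.2 * g z))
        ≤ ‖JK s h‖ * ‖JK (-s) (fun z => Z z.2 * g z)‖ := real_inner_le_norm _ _
      _ ≤ ‖JK s h‖ * (A * ‖JK (-s) g‖) := by gcongr; exact hA g hg
      _ = A * ‖JK s h‖ * ‖JK (-s) g‖ := by ring
  have hcl : ∀ w : K, inner ℝ x w ≤ A * ‖JK s h‖ * ‖w‖ := by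
    intro w
    have h1 : w ∈ PS (-s) univ := by rw [hT]; trivial
    have h2 : IsClosed {w : K | inner ℝ x w ≤ A * ‖JK s h‖ * ‖w‖} :=
      isClosed_le (continuous_const.inner continuous_id) (continuous_const.mul continuous_norm)
    have h3 : w ∈ closure ((Submodule.span ℝ {w : K | ∃ g, Nice univ g ∧ w = JK (-s) g} : Submodule ℝ K) :
      Set K) := h1
    exact closure_minimal hin h2 h3
  have h4 := hcl x
  rw [real_inner_self_eq_norm_mul_norm] at h4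
  rcases eq_or_ne ‖x‖ 0 with h5 | h5
  · rw [h5]
    positivity
  · exact le_of_mul_le_mul_right h4 (lt_of_le_of_ne (norm_nonneg _) (Ne.symm h5))

end MulBx

open MulBx

theorem thm_MulB (hPJ : St_PJ) (hD : St_DnsP) (hG : St_Gag1) (hH : St_Hrd) : St_MulB := by
  intro s ζ hs h1 h2
  obtain ⟨B, C, hB0, hC0, hB, hZ⟩ := zeta_data h1 h2
  -- negative exponents
  have hneg : ∀ τ : ℝ, 0 < τ → τ < 1 / 2 → ∃ A : ℝ, 0 < A ∧ ∀ (R c : ℝ) (h : S × ℝ → ℝ), 0 < R →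
      Nice univ h → ‖JK (-τ) (fun z => ζ ((z.2 - c) / R) * h z)‖ ≤ A * ‖JK (-τ) h‖ := by
    intro τ ht0 ht1
    obtain ⟨Cg, hCg, hG'⟩ := hG τ ht0 ht1
    obtain ⟨Ch, hCh, hH'⟩ := hH τ ht0 ht1
    have hkc := kc_nonneg τ
    set A2 := (2 * B ^ 2 * Cg + 2 * (C * kc τ) * Ch) / Cg with hA2
    have hA20 : 0 ≤ A2 := by positivity
    refine ⟨√A2 + 1, by positivity, ?_⟩
    apply shift_case hPJ (by rw [abs_neg, abs_of_pos ht0]; exact ht1) h1
    intro R h hR hh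
    have e0 : ∀ p : ℝ, (p - 0) / R = p / R := fun p => by rw [sub_zero]
    have h3 := neg_case ht0 ht1 hCg hCh hG' hH' B C hC0 (fun p => ζ (p / R))
      (by simpa only [e0] using Sm_scal h1 R 0) (fun x => hB _) (fun p u hp => scal hR hZ p u hp) h hh
    rw [← hA2] at h3
    have h4 : ‖JK (-τ) (fun z => ζ (z.2 / R) * h z)‖ ≤ √A2 * ‖JK (-τ) h‖ := by
      rw [← Real.sqrt_sq (norm_nonneg (JK (-τ) h)), ← Real.sqrt_mul hA20]
      exact Real.le_sqrt_of_sq_le h3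
    refine h4.trans ?_
    have := norm_nonneg (JK (-τ) h)
    linarith
  rcases lt_trichotomy s 0 with h0 | h0 | h0
  · obtain ⟨A, hA, h3⟩ := hneg (-s) (by linarith) (by rw [abs_of_neg h0] at hs; exact hs)
    rw [neg_neg] at h3
    exact ⟨A, hA, h3⟩
  · subst h0
    refine ⟨B + 1, by positivity, ?_⟩
    intro R c h hR hh
    obtain ⟨hJ, -⟩ := hPJ 0 hs
    have hm := Nice_mul hh (Sm_scal h1 R c)
    have m1 := (hJ h hh).1
    have m2 := (hJ _ hm).1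
    rw [(hJ h hh).2.2.1, (hJ _ hm).2.2.1]
    apply Lp.norm_le_mul_norm_of_ae_le_mul
    filter_upwards [toK_coe m1, toK_coe m2] with z e1 e2
    rw [e1, e2, norm_mul]
    have := hB ((z.2 - c) / R)
    have h5 : ‖ζ ((z.2 - c) / R)‖ ≤ B + 1 := by
      rw [Real.norm_eq_abs]
      linarith
    gcongr
  · obtain ⟨A, hA, h3⟩ := hneg s h0 (by rw [abs_of_pos h0] at hs; exact hs)
    refine ⟨A, hA, ?_⟩
    intro R c h hR hh
    exact dual_case hPJ hD hs A hA.le (fun p => ζ ((p - c) / R)) (Sm_scal h1 R c)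
      (fun g hg => h3 R c g hR hg) h hh

end Pool.Agent.QWF
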