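import Pool.Agent.QWF.StA2

/-!
# QWF NF1P (MP_9ce95b_an): near field, unit scale, smooth sources (after QWP.NF1P of helper66)
-/

set_option autoImplicit false

open MeasureTheory Filter Topology Set
open scoped ENNReal NNReal RealInnerProductSpace

namespace Pool.Agent.QWF

namespace NF1Px

lemma exists_mol {r : ℝ} (hr : 0 < r) : ∃ φ : ℝ → ℝ, IsMol r φ := by
  let f : ContDiffBump (0 : ℝ) := ⟨r / 2, r, by positivity, by linarith⟩
  refine ⟨f.normed volume, ?_, fun p => f.nonneg_normed p, ?_, f.integral_normed⟩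
  · exact f.contDiff_normed
  · intro p hp
    have h1 : p ∉ Function.support (f.normed (volume : Measure ℝ)) := by
      rw [f.support_normed_eq]
      simpa [f] using hp
    simpa using h1

lemma mol_mono {r s : ℝ} (h : r ≤ s) {φ : ℝ → ℝ} (hφ : IsMol r φ) : IsMol s φ :=
  ⟨hφ.1, hφ.2.1, fun p hp => hφ.2.2.1 p (h.trans hp), hφ.2.2.2⟩

/-- the span which defines `TS s Ω` -/
noncomputable def sp (s : ℝ) (Ω : Set E) : Submodule ℝ K :=
  Submodule.span ℝ {w | ∃ φ, IsTest φ ∧ tsupport φ ⊆ Ω ∧ (w = Rs s φ ∨ w = dRs s φ)}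

lemma ex_le {s : ℝ} {Ω : Set E} {k : K} {c : ℝ} (hc : 0 ≤ c)
    (h : ∀ w ∈ sp s Ω, |inner ℝ k w| ≤ c * ‖w‖) : ex s Ω k ≤ c := by
  have h1 : ∀ w ∈ TS s Ω, |inner ℝ k w| ≤ c * ‖w‖ := by
    intro w hw
    have hcl : IsClosed {w : K | |inner ℝ k w| ≤ c * ‖w‖} :=
      isClosed_le (by fun_prop) (by fun_prop)
    have hsub : ((sp s Ω : Submodule ℝ K) : Set K) ⊆ {w : K | |inner ℝ k w| ≤ c * ‖w‖} :=
      fun w hw => h w hw
    exact hcl.closure_subset_iff.2 hsub hw
  have hmem : pr s Ω k ∈ TS s Ω := Submodule.starProjection_apply_mem _ _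
  have h2 := h1 _ hmem
  have h3 : inner ℝ (k - pr s Ω k) (pr s Ω k) = 0 :=
    Submodule.starProjection_inner_eq_zero _ _ hmem
  rw [inner_sub_left, real_inner_self_eq_norm_sq] at h3
  have h4 : ‖pr s Ω k‖ ^ 2 ≤ c * ‖pr s Ω k‖ := by
    have := le_abs_self (inner ℝ k (pr s Ω k))
    linarith
  unfold ex
  rcases (norm_nonneg (pr s Ω k)).eq_or_lt with h5 | h5
  · rw [← h5]
    exact hc
  · rw [sq] at h4
    exact le_of_mul_le_mul_right h4 h5

/-- uniform bound of the Fourier integrals -/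
lemma four_bd (hFt : St_Ft) {φ : E → ℝ} (hφ : IsSch φ) : ∃ B : ℝ, ∀ e : ℝ, 0 ≤ e → e ≤ 3 →
    ∀ w : S, ∫ r : ℝ, |2 * Real.pi * r| ^ e * ‖ft φ (r • (w : E))‖ ≤ B := by
  obtain ⟨C, hC⟩ := (hFt.2 φ hφ).2.1 5
  refine ⟨∫ r : ℝ, (2 * Real.pi) ^ 3 * C * (1 + r ^ 2)⁻¹, fun e he0 he3 w => ?_⟩
  have hC0 : 0 ≤ C := by
    have h := hC 0
    rw [norm_zero, add_zero, one_pow, div_one] at h
    exact (norm_nonneg _).trans h
  apply integral_mono_of_nonneg
  · exact Eventually.of_forall fun r => by positivity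
  · exact integrable_inv_one_add_sq.const_mul _
  · refine Eventually.of_forall fun r => ?_
    have hw : ‖(w : E)‖ = 1 := norm_eq_of_mem_sphere w
    have h1 := hC (r • (w : E))
    rw [norm_smul, hw, mul_one, Real.norm_eq_abs] at h1
    have hpi : (1 : ℝ) ≤ 2 * Real.pi := by linarith [Real.pi_gt_three]
    have h2 : |2 * Real.pi * r| ^ e ≤ (2 * Real.pi * (1 + |r|)) ^ 3 := by
      have h3 : |2 * Real.pi * r| ≤ 2 * Real.pi * (1 + |r|) := by
        rw [abs_mul, abs_of_pos (by positivity : (0 : ℝ) < 2 * Real.pi)]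
        nlinarith [abs_nonneg r]
      have h4 : 1 ≤ 2 * Real.pi * (1 + |r|) := by nlinarith [abs_nonneg r]
      calc |2 * Real.pi * r| ^ e ≤ (2 * Real.pi * (1 + |r|)) ^ e :=
            Real.rpow_le_rpow (abs_nonneg _) h3 he0
        _ ≤ (2 * Real.pi * (1 + |r|)) ^ (3 : ℝ) := Real.rpow_le_rpow_of_exponent_le h4 he3
        _ = (2 * Real.pi * (1 + |r|)) ^ 3 := by
            rw [← Real.rpow_natCast]
            norm_num
    have hr : 0 < 1 + |r| := by positivity
    have h5 : 1 + r ^ 2 ≤ (1 + |r|) ^ 2 := by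
      nlinarith [abs_nonneg r, sq_abs r]
    have h6 : ((1 + |r|) ^ 2)⁻¹ ≤ (1 + r ^ 2)⁻¹ := by
      apply inv_anti₀ (by positivity) h5
    calc |2 * Real.pi * r| ^ e * ‖ft φ (r • (w : E))‖
        ≤ (2 * Real.pi * (1 + |r|)) ^ 3 * (C / (1 + |r|) ^ 5) := by gcongr
      _ = (2 * Real.pi) ^ 3 * C * ((1 + |r|) ^ 2)⁻¹ := by
          field_simp
      _ ≤ (2 * Real.pi) ^ 3 * C * (1 + r ^ 2)⁻¹ := by gcongr

end NF1Px

open NF1Px in
/-- **NF1P**. -/
theorem thm_NF1P (hFt : St_Ft) (hPar : St_Par) (hJD : St_JD) (hPJ : St_PJ) (hT : St_NFt)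
    (hA : St_NFa) (hC : St_NFc) (hD : St_DyS) : St_NF1P := by
  intro s θ hs hθ hθ1 hθ0
  obtain ⟨C, hC0, hC1⟩ := hC θ hθ hθ1 hθ0
  obtain ⟨D, hD0, hD1⟩ := hD s hs
  refine ⟨D * C, mul_pos hD0 hC0, fun F σ hF hF0 hσ0 hσ1 => ?_⟩
  choose φ hφ using fun n : ℕ => exists_mol (r := 1 / (n + 100 : ℝ)) (by positivity)
  have hφ' : ∀ n, IsMol (1 / 100) (φ n) := fun n => mol_mono (by
    apply one_div_le_one_div_of_le (by norm_num)
    have : (0 : ℝ) ≤ n := Nat.cast_nonneg n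
    linarith) (hφ n)
  have hI : 0 ≤ ∫ x, |F x| := integral_nonneg fun _ => abs_nonneg _
  choose f g hf hg hfg hb using fun n => hC1 F σ (φ n) hF hF0 hσ0 hσ1 (hφ' n)
  choose W hW hWi using fun n => hD1 (f n) (g n) (C * ∫ x, |F x|) (hf n) (hg n)
    (mul_nonneg hC0.le hI) (hb n)
  obtain ⟨hN, hK⟩ := hT s σ θ F hs hθ hθ1 hθ0 hF
  have hlim' : ∀ w ∈ sp s (xt 0 1),
      Tendsto (fun n => inner ℝ (W n) w) atTop
        (𝓝 (inner ℝ (Mul s θ (tau (-σ) (Gam s F))) w)) := by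
    intro w hw
    unfold sp at hw
    induction hw using Submodule.span_induction with
    | mem w h =>
      obtain ⟨ψ, hψ, hψs, h1⟩ := h
      have hS : IsSch ψ := hFt.1 ψ hψ
      obtain ⟨B, hB⟩ := four_bd hFt hS
      have b0 : ∀ a : ℝ, a ≤ 0 → -3 ≤ a → ∀ z, |J0F a ψ z| ≤ B := fun a ha ha' z =>
        (((hJD a ψ hS).2.2.2.1 z).1 (by linarith)).trans (hB (-a) (by linarith) (by linarith) z.1)
      have b1 : ∀ a : ℝ, a ≤ 1 → -2 ≤ a → ∀ z, |J1F a ψ z| ≤ B := fun a ha ha' z =>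
        (((hJD a ψ hS).2.2.2.1 z).2 (by linarith)).trans
          (hB (1 - a) (by linarith) (by linarith) z.1)
      have c0' : ∀ a : ℝ, a < 1 / 2 → Continuous (J0F a ψ) := fun a ha =>
        ((hPar a 0 0 ψ ψ hS hS).1 ha).1
      have c1' : ∀ a : ℝ, a < 3 / 2 → Continuous (J1F a ψ) := fun a ha =>
        ((hPar a 0 0 ψ ψ hS hS).2.1 ha).1
      have d1 : ∀ (w : S) (p : ℝ), HasDerivAt (fun p => J1F 1 ψ (w, p)) (- J0F (-1) ψ (w, p)) p := by
        intro w p
        have h := (hJD 1 ψ hS).2.1 (by norm_num) w p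
        have e : (1 : ℝ) - 2 = -1 := by norm_num
        rwa [e] at h
      have d0 : ∀ (w : S) (p : ℝ), HasDerivAt (fun p => J0F (-1) ψ (w, p)) (J1F (-1) ψ (w, p)) p :=
        (hJD (-1) ψ hS).1 (by norm_num)
      have d2 : ∀ (w : S) (p : ℝ), HasDerivAt (fun p => J1F (-1) ψ (w, p))
          (- J0F (-3) ψ (w, p)) p := by
        intro w p
        have h := (hJD (-1) ψ hS).2.1 (by norm_num) w p
        have e : (-1 : ℝ) - 2 = -3 := by norm_num
        rwa [e] at h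
      have hP := ((hPJ s hs).1 _ hN).2.2.2.2.2.2.2.2 ψ hS
      rcases h1 with h1 | h1
      · have hl := hA θ F σ hθ hθ1 hθ0 hF hF0 φ hφ (fun z => - J1F 1 ψ z) (J0F (-1) ψ)
          (J1F (-1) ψ) (c1' 1 (by norm_num)).neg (c0' (-1) (by norm_num)) (c1' (-1) (by norm_num))
          ⟨B, fun z => ⟨by rw [abs_neg]; exact b1 1 le_rfl (by norm_num) z,
            b0 (-1) (by norm_num) (by norm_num) z, b1 (-1) (by norm_num) (by norm_num) z⟩⟩
          (fun w p => ⟨by
            have h := (d1 w p).fun_neg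
            rwa [neg_neg] at h, d0 w p⟩)
        have e1 : inner ℝ (Mul s θ (tau (-σ) (Gam s F))) w = -c0 * ∫ z, θ z.2 *
            Rad (lap F) (z.1, z.2 + σ) * (- J1F 1 ψ z) ∂mu := by
          rw [hK, h1, real_inner_smul_left, hP.2.2.1, ← integral_neg]
          simp only [mul_neg]
        rw [e1]
        refine hl.congr fun n => ?_
        rw [h1, (hWi n ψ hψ hψs).1, ((hfg n) ψ hψ).1, ← integral_neg]
        simp only [mul_neg]
      · have hl := hA θ F σ hθ hθ1 hθ0 hF hF0 φ hφ (J0F (-1) ψ) (J1F (-1) ψ)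
          (fun z => - J0F (-3) ψ z) (c0' (-1) (by norm_num)) (c1' (-1) (by norm_num))
          (c0' (-3) (by norm_num)).neg
          ⟨B, fun z => ⟨b0 (-1) (by norm_num) (by norm_num) z,
            b1 (-1) (by norm_num) (by norm_num) z,
            by rw [abs_neg]; exact b0 (-3) (by norm_num) le_rfl z⟩⟩
          (fun w p => ⟨d0 w p, d2 w p⟩)
        have e1 : inner ℝ (Mul s θ (tau (-σ) (Gam s F))) w = -c0 * ∫ z, θ z.2 *
            Rad (lap F) (z.1, z.2 + σ) * J0F (-1) ψ z ∂mu := by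
          rw [hK, h1, real_inner_smul_left, hP.2.2.2]
        rw [e1]
        refine hl.congr fun n => ?_
        rw [h1, (hWi n ψ hψ hψs).2, ((hfg n) ψ hψ).2]
    | zero =>
      simp only [inner_zero_right]
      exact tendsto_const_nhds
    | add x y _ _ hx hy =>
      simp only [inner_add_right]
      exact hx.add hy
    | smul a x _ hx =>
      simp only [inner_smul_right]
      exact hx.const_mul a
  refine ex_le (by positivity) fun w hw => ?_
  refine le_of_tendsto (hlim' w hw).abs (Eventually.of_forall fun n => ?_)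
  refine (abs_real_inner_le_norm _ _).trans ?_
  apply mul_le_mul_of_nonneg_right _ (norm_nonneg w)
  refine (hW n).trans (le_of_eq ?_)
  ring

end Pool.Agent.QWF
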