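import Pool.Agent.QWF.StA2
import Pool.Agent.QWF.HTb

/-!
# QWF, NFK: kernel bound for the near field
-/

set_option autoImplicit false

open MeasureTheory Filter Topology Set
open scoped ENNReal NNReal RealInnerProductSpace Pointwise

namespace Pool.Agent.QWF

namespace NFKx

open HTbx (sm_iter sm_deriv cs_iter sm_cont sm_diff)

/-- a smooth function which agrees with `√(1 - s²)` on `[-3/4, 3/4]` -/
lemma ex_q : ∃ q : ℝ → ℝ, Sm q ∧ ∀ s, |s| ≤ 3 / 4 → q s = √(1 - s ^ 2) := by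
  let χ : ContDiffBump (0 : ℝ) := ⟨3 / 4, 7 / 8, by norm_num, by norm_num⟩
  refine ⟨fun s => √(1 - χ s * s ^ 2), ?_, ?_⟩
  · have h1 : ContDiff ℝ ((⊤ : ℕ∞) : WithTop ℕ∞) (fun s : ℝ => 1 - χ s * s ^ 2) :=
      contDiff_const.sub (χ.contDiff.mul (contDiff_id.pow 2))
    refine h1.sqrt fun s => ?_
    by_cases hs : |s| < 7 / 8
    · have h2 : χ s ≤ 1 := χ.le_one
      have h3 : 0 ≤ χ s := χ.nonneg
      have h4 : s ^ 2 < 49 / 64 := by
        rw [← sq_abs]
        have := abs_nonneg s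
        nlinarith
      have h5 : χ s * s ^ 2 ≤ 1 * s ^ 2 := mul_le_mul_of_nonneg_right h2 (sq_nonneg s)
      intro h6
      linarith
    · have h2 : χ s = 0 := by
        apply χ.zero_of_le_dist
        rw [Real.dist_eq, sub_zero]
        exact not_lt.1 hs
      rw [h2]
      norm_num
  · intro s hs
    have h2 : χ s = 1 := by
      apply χ.one_of_mem_closedBall
      rw [Metric.mem_closedBall, Real.dist_eq, sub_zero]
      exact hs
    show √(1 - χ s * s ^ 2) = _
    rw [h2, one_mul]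

/-- cut-off -/
lemma ex_eta : ∃ η : ℝ → ℝ, Sm η ∧ (∀ s, |s| ≤ 1 / 2 → η s = 1) ∧ (∀ s, 3 / 4 ≤ |s| → η s = 0) ∧
    ∀ s, 0 ≤ η s ∧ η s ≤ 1 := by
  let χ : ContDiffBump (0 : ℝ) := ⟨1 / 2, 3 / 4, by norm_num, by norm_num⟩
  refine ⟨χ, χ.contDiff, fun s hs => ?_, fun s hs => ?_, fun s => ⟨χ.nonneg, χ.le_one⟩⟩
  · apply χ.one_of_mem_closedBall
    rw [Metric.mem_closedBall, Real.dist_eq, sub_zero]
    exact hs
  · apply χ.zero_of_le_dist
    rw [Real.dist_eq, sub_zero]
    exact hs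

lemma iter_zero {φ : ℝ → ℝ} {a : ℝ} (hz : ∀ p, a ≤ |p| → φ p = 0) (k : ℕ) {p : ℝ}
    (hp : a < |p|) : iteratedDeriv k φ p = 0 := by
  have h1 : φ =ᶠ[𝓝 p] fun _ => (0 : ℝ) := by
    have h2 : {x : ℝ | a < |x|} ∈ 𝓝 p :=
      (isOpen_lt continuous_const continuous_abs).mem_nhds hp
    filter_upwards [h2] with x hx
    exact hz x (le_of_lt hx)
  rw [h1.iteratedDeriv_eq]
  simp

/-- outside of `[-1/2, 1/2]` the argument is large -/
lemma arg_big {r σ s : ℝ} (hr : 5 / 12 ≤ r) (h0 : 0 ≤ σ) (h1 : σ ≤ 1 / 8) (hs : 1 / 2 ≤ |s|) :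
    r / 5 ≤ |r * s + σ| := by
  have h2 : |r * s| = r * |s| := by rw [abs_mul, abs_of_pos (by linarith)]
  have h3 : |r * s| - |σ| ≤ |r * s + σ| := by
    have := abs_sub_abs_le_abs_sub (r * s) (-σ)
    rw [abs_neg, sub_neg_eq_add] at this
    exact this
  rw [abs_of_nonneg h0, h2] at h3
  nlinarith

/-! ### The Hilbert transform off the support -/

lemma inv_deriv (q p : ℝ) (m : ℕ) (h : q - p ≠ 0) :
    HasDerivAt (fun p => ((q - p) ^ m)⁻¹) (m * ((q - p) ^ (m + 1))⁻¹) p := by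
  have h1 : HasDerivAt (fun p => q - p) (-1) p := by
    simpa using (hasDerivAt_id p).const_sub q
  have h2 : HasDerivAt (fun p => ((q - p) ^ m)⁻¹)
      (-(m * (q - p) ^ (m - 1) * -1) / ((q - p) ^ m) ^ 2) p :=
    (h1.pow m).inv (pow_ne_zero m h)
  refine h2.congr_deriv ?_
  rcases m with _ | m
  · simp
  · rw [Nat.add_sub_cancel]
    field_simp
    ring

lemma ne_of {q p : ℝ} (hq : 1 / 50 < |q|) (hp : p ∈ uIcc (-(1 / 50) : ℝ) (1 / 50)) : q - p ≠ 0 := by
  rw [uIcc_of_le (by norm_num)] at hp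
  intro h
  have h1 : q = p := by linarith
  rw [h1] at hq
  exact absurd (abs_le.2 hp) (not_le.2 hq)

lemma ibp0 (k : ℕ) : ∀ m : ℕ, ∃ c : ℝ, ∀ φ : ℝ → ℝ, Sm φ → (∀ p, 1 / 100 ≤ |p| → φ p = 0) →
    ∀ q : ℝ, 1 / 50 < |q| →
    ∫ p in (-(1 / 50) : ℝ)..(1 / 50), iteratedDeriv k φ p * ((q - p) ^ m)⁻¹ =
      c * ∫ p in (-(1 / 50) : ℝ)..(1 / 50), φ p * ((q - p) ^ (m + k))⁻¹ := by
  induction k with
  | zero =>
    intro m
    refine ⟨1, fun φ _ _ q _ => ?_⟩
    simp
  | succ k ih =>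
    intro m
    obtain ⟨c, hc⟩ := ih (m + 1)
    refine ⟨-m * c, fun φ hφ hz q hq => ?_⟩
    have hu : ∀ x ∈ uIcc (-(1 / 50) : ℝ) (1 / 50),
        HasDerivAt (fun p => ((q - p) ^ m)⁻¹) (m * ((q - x) ^ (m + 1))⁻¹) x :=
      fun x hx => inv_deriv q x m (ne_of hq hx)
    have hv : ∀ x ∈ uIcc (-(1 / 50) : ℝ) (1 / 50),
        HasDerivAt (iteratedDeriv k φ) (iteratedDeriv (k + 1) φ x) x := by
      intro x _
      rw [iteratedDeriv_succ]
      exact (sm_diff (sm_iter hφ k) x).hasDerivAt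
    have hc1 : ContinuousOn (fun x => (m : ℝ) * ((q - x) ^ (m + 1))⁻¹)
        (uIcc (-(1 / 50) : ℝ) (1 / 50)) := by
      refine continuousOn_const.mul (ContinuousOn.inv₀ (by fun_prop) fun x hx => ?_)
      exact pow_ne_zero _ (ne_of hq hx)
    have key := intervalIntegral.integral_mul_deriv_eq_deriv_mul hu hv
      hc1.intervalIntegrable ((sm_cont (sm_iter hφ (k + 1))).intervalIntegrable _ _)
    have z1 : iteratedDeriv k φ (1 / 50) = 0 :=
      iter_zero hz k (by rw [abs_of_pos (by norm_num)]; norm_num)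
    have z2 : iteratedDeriv k φ (-(1 / 50)) = 0 :=
      iter_zero hz k (by rw [abs_neg, abs_of_pos (by norm_num)]; norm_num)
    rw [z1, z2] at key
    have e5 : ∫ p in (-(1 / 50) : ℝ)..(1 / 50), iteratedDeriv (k + 1) φ p * ((q - p) ^ m)⁻¹ =
        ∫ p in (-(1 / 50) : ℝ)..(1 / 50), ((q - p) ^ m)⁻¹ * iteratedDeriv (k + 1) φ p :=
      intervalIntegral.integral_congr fun s _ => mul_comm _ _
    have e6 : ∫ p in (-(1 / 50) : ℝ)..(1 / 50), (m : ℝ) * ((q - p) ^ (m + 1))⁻¹ *
        iteratedDeriv k φ p = m * ∫ p in (-(1 / 50) : ℝ)..(1 / 50),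
          iteratedDeriv k φ p * ((q - p) ^ (m + 1))⁻¹ := by
      rw [← intervalIntegral.integral_const_mul]
      refine intervalIntegral.integral_congr fun s _ => ?_
      show (m : ℝ) * ((q - s) ^ (m + 1))⁻¹ * iteratedDeriv k φ s =
        m * (iteratedDeriv k φ s * ((q - s) ^ (m + 1))⁻¹)
      ring
    have e8 : m + 1 + k = m + (k + 1) := by omega
    rw [e5, key, e6, hc φ hφ hz q hq, e8]
    ring

/-- bound off the support -/
lemma off_le (n : ℕ) : ∃ C : ℝ, 0 ≤ C ∧ ∀ φ : ℝ → ℝ, IsMol (1 / 100) φ → ∀ q : ℝ, 1 / 50 < |q| →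
    |iteratedDeriv n (HT φ) q| ≤ C / (|q| - 1 / 100) ^ (n + 1) := by
  obtain ⟨c, hc⟩ := ibp0 n 1
  refine ⟨|c|, abs_nonneg _, ?_⟩
  rintro φ ⟨hφ, hφ0, hz, hi⟩ q hq
  have hcs : HasCompactSupport φ := by
    refine HasCompactSupport.intro (isCompact_Icc (a := -(1 / 100 : ℝ)) (b := 1 / 100)) ?_
    intro x hx
    apply hz
    by_contra h
    push Not at h
    exact hx (abs_le.1 h.le)
  have hint : Integrable φ := (sm_cont hφ).integrable_of_hasCompactSupport hcs
  have hzn : ∀ p, 1 / 50 ≤ |p| → iteratedDeriv n φ p = 0 := fun p hp =>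
    iter_zero hz n (lt_of_lt_of_le (by norm_num) hp)
  rw [HTbx.iter hφ hcs n, HTbx.off (sm_iter hφ n) (cs_iter hcs n) (1 / 50) q (by norm_num) hzn hq]
  have e1 : ∫ p, iteratedDeriv n φ p / (q - p) =
      ∫ p in (-(1 / 50) : ℝ)..(1 / 50), iteratedDeriv n φ p * ((q - p) ^ 1)⁻¹ := by
    rw [intervalIntegral.integral_of_le (by norm_num), ← integral_indicator measurableSet_Ioc]
    refine integral_congr_ae (Eventually.of_forall fun p => ?_)
    show iteratedDeriv n φ p / (q - p) = _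
    by_cases hp : p ∈ Ioc (-(1 / 50) : ℝ) (1 / 50)
    · rw [indicator_of_mem hp, pow_one, div_eq_mul_inv]
    · rw [indicator_of_notMem hp, hzn p, zero_div]
      by_contra h
      push Not at h
      have h5 := abs_lt.1 h
      exact hp ⟨h5.1, h5.2.le⟩
  have hd : 0 < |q| - 1 / 100 := by linarith
  have e2 : |∫ p in (-(1 / 50) : ℝ)..(1 / 50), φ p * ((q - p) ^ (1 + n))⁻¹| ≤
      1 / (|q| - 1 / 100) ^ (n + 1) := by
    have e3 : |∫ p in (-(1 / 50) : ℝ)..(1 / 50), φ p * ((q - p) ^ (1 + n))⁻¹| ≤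
        ∫ p in (-(1 / 50) : ℝ)..(1 / 50), φ p * (1 / (|q| - 1 / 100) ^ (n + 1)) := by
      have e2 := intervalIntegral.norm_integral_le_of_norm_le (μ := volume)
        (a := (-(1 / 50) : ℝ)) (b := 1 / 50)
        (f := fun p => φ p * ((q - p) ^ (1 + n))⁻¹)
        (g := fun p => φ p * (1 / (|q| - 1 / 100) ^ (n + 1)))
        (by norm_num) (Eventually.of_forall fun p _ => by
          rw [norm_mul, Real.norm_of_nonneg (hφ0 _), norm_inv, norm_pow, Real.norm_eq_abs]
          by_cases h : 1 / 100 ≤ |p|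
          · rw [hz p h, zero_mul, zero_mul]
          · refine mul_le_mul_of_nonneg_left ?_ (hφ0 p)
            rw [one_div, add_comm 1 n]
            refine inv_anti₀ (pow_pos hd _) (pow_le_pow_left₀ hd.le ?_ _)
            have := abs_sub_abs_le_abs_sub q p
            linarith [not_le.1 h])
        ((hint.mul_const _).intervalIntegrable)
      exact e2
    refine e3.trans ?_
    rw [intervalIntegral.integral_of_le (by norm_num), integral_mul_const]
    have e4 : ∫ p in Ioc (-(1 / 50) : ℝ) (1 / 50), φ p ≤ ∫ p, φ p :=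
      setIntegral_le_integral hint (Eventually.of_forall fun s => hφ0 _)
    rw [hi] at e4
    exact mul_le_of_le_one_left (by positivity) e4
  rw [e1, hc φ hφ hz q hq, abs_mul, abs_mul, abs_of_pos (by positivity : 0 < 1 / Real.pi)]
  have h5 : 1 / Real.pi ≤ 1 := by
    rw [div_le_one Real.pi_pos]
    linarith [Real.pi_gt_three]
  calc 1 / Real.pi * (|c| * |∫ p in (-(1 / 50) : ℝ)..(1 / 50), φ p * ((q - p) ^ (1 + n))⁻¹|) ≤
      1 * (|c| * (1 / (|q| - 1 / 100) ^ (n + 1))) :=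
        mul_le_mul h5 (mul_le_mul_of_nonneg_left e2 (abs_nonneg _)) (by positivity) zero_le_one
    _ = |c| / (|q| - 1 / 100) ^ (n + 1) := by ring

/-! ### One curve -/

/-- repeated integration by parts -/
lemma ibp {ψ : ℝ → ℝ} (hψ : Sm ψ) {r σ : ℝ} (hr0 : 0 < r) (k : ℕ) : ∀ h : ℝ → ℝ, Sm h →
    HasCompactSupport h → ∫ s, iteratedDeriv k ψ (r * s + σ) * h s =
      (-(1 / r)) ^ k * ∫ s, ψ (r * s + σ) * iteratedDeriv k h s := by
  induction k with
  | zero =>
    intro h _ _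
    simp
  | succ k ih =>
    intro h hh hhc
    have hu : ∀ x, HasDerivAt h (deriv h x) x := fun x => (sm_diff hh x).hasDerivAt
    have hv : ∀ x, HasDerivAt (fun s => iteratedDeriv k ψ (r * s + σ) / r)
          (iteratedDeriv (k + 1) ψ (r * x + σ)) x := by
      intro x
      have e1 : HasDerivAt (fun s : ℝ => r * s + σ) r x := by
        have := ((hasDerivAt_id x).const_mul r).add_const σ
        simpa using this
      have e2 : HasDerivAt (iteratedDeriv k ψ) (deriv (iteratedDeriv k ψ) (r * x + σ))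
          (r * x + σ) := (sm_diff (sm_iter hψ k) _).hasDerivAt
      have e3 := (e2.comp x e1).div_const r
      have e4 : deriv (iteratedDeriv k ψ) (r * x + σ) * r / r =
          iteratedDeriv (k + 1) ψ (r * x + σ) := by
        rw [iteratedDeriv_succ]
        field_simp
      rw [e4] at e3
      exact e3
    have hc0 : Continuous fun x => iteratedDeriv k ψ (r * x + σ) :=
      (sm_cont (sm_iter hψ k)).comp (by fun_prop)
    have hc2 : Continuous fun x => iteratedDeriv (k + 1) ψ (r * x + σ) :=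
      (sm_cont (sm_iter hψ (k + 1))).comp (by fun_prop)
    have key := integral_mul_deriv_eq_deriv_mul_of_integrable (u := h) (u' := deriv h)
      (v := fun s => iteratedDeriv k ψ (r * s + σ) / r)
      (v' := fun s => iteratedDeriv (k + 1) ψ (r * s + σ)) (fun x _ => hu x) (fun x _ => hv x)
      (((sm_cont hh).mul hc2).integrable_of_hasCompactSupport hhc.mul_right)
      (((sm_cont (sm_deriv hh)).mul (hc0.div_const r)).integrable_of_hasCompactSupport
        hhc.deriv.mul_right)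
      (((sm_cont hh).mul (hc0.div_const r)).integrable_of_hasCompactSupport hhc.mul_right)
    have e5 : ∫ s, iteratedDeriv (k + 1) ψ (r * s + σ) * h s =
        ∫ s, h s * iteratedDeriv (k + 1) ψ (r * s + σ) := by
      congr 1
      funext s
      exact mul_comm _ _
    have e6 : ∫ s, deriv h s * (iteratedDeriv k ψ (r * s + σ) / r) =
        (1 / r) * ∫ s, iteratedDeriv k ψ (r * s + σ) * deriv h s := by
      rw [← integral_const_mul]
      congr 1
      funext s
      ring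
    rw [e5, key, e6, ih (deriv h) (sm_deriv hh) hhc.deriv]
    have e7 : ∀ s, iteratedDeriv (k + 1) h s = iteratedDeriv k (deriv h) s := fun s => by
      rw [iteratedDeriv_succ']
    simp only [e7]
    ring

/-- the integral of the dilated bump -/
lemma int_le {φ : ℝ → ℝ} (hφ : Sm φ) (hz : ∀ p, 1 / 100 ≤ |p| → φ p = 0)
    (hi : ∫ p, φ p = 1) {r : ℝ} (hr : 0 < r) (σ : ℝ) :
    Integrable (fun s => φ (r * s + σ)) ∧ ∫ s, φ (r * s + σ) = 1 / r := by
  have hcs : HasCompactSupport φ := by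
    refine HasCompactSupport.intro (isCompact_Icc (a := -(1 / 100 : ℝ)) (b := 1 / 100)) ?_
    intro x hx
    apply hz
    by_contra h
    push Not at h
    exact hx (abs_le.1 h.le)
  have hint : Integrable φ := (ContDiff.continuous hφ).integrable_of_hasCompactSupport hcs
  constructor
  · exact (hint.comp_add_right σ).comp_mul_left' hr.ne'
  · have e1 := Measure.integral_comp_mul_left (fun x => φ (x + σ)) r
    have e2 : ∫ x, φ (x + σ) = ∫ x, φ x := integral_add_right_eq_self φ σ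
    rw [e2, hi, abs_of_pos (inv_pos.2 hr), smul_eq_mul, mul_one] at e1
    rw [e1, one_div]

/-- the estimate on one curve -/
lemma curve {φ : ℝ → ℝ} (hm : IsMol (1 / 100) φ) {r σ : ℝ} (hr : 5 / 12 ≤ r) (h0 : 0 ≤ σ)
    (h1 : σ ≤ 1 / 8) (n : ℕ) {h : ℝ → ℝ} (hh : Sm h) (hhz : ∀ s, 3 / 4 ≤ |s| → h s = 0) {C : ℝ}
    (hC : ∀ s, |iteratedDeriv n h s| ≤ C ∧ |iteratedDeriv (n + 1) h s| ≤ C) :
    |∫ s, iteratedDeriv n (HT φ) (r * s + σ) * h s| ≤ (4 * C) / r ^ (n + 1) := by
  obtain ⟨hφ, hφ0, hz, hi⟩ := hm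
  have hr0 : 0 < r := by linarith
  obtain ⟨i1, i2⟩ := int_le hφ hz hi hr0 σ
  have hC0 : 0 ≤ C := (abs_nonneg _).trans (hC 0).1
  have hcs : HasCompactSupport φ := by
    refine HasCompactSupport.intro (isCompact_Icc (a := -(1 / 100 : ℝ)) (b := 1 / 100)) ?_
    intro x hx
    apply hz
    by_contra h
    push Not at h
    exact hx (abs_le.1 h.le)
  have hhc : HasCompactSupport h := by
    refine HasCompactSupport.intro (isCompact_Icc (a := -(3 / 4 : ℝ)) (b := 3 / 4)) ?_
    intro x hx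
    apply hhz
    by_contra h
    push Not at h
    exact hx (abs_le.1 h.le)
  have hs1 : Sm fun p => φ (r * p + σ) :=
    ContDiff.comp hφ ((contDiff_const.mul contDiff_id).add contDiff_const)
  have hc1 : HasCompactSupport fun p => φ (r * p + σ) := by
    refine HasCompactSupport.intro (isCompact_Icc (a := -(1 : ℝ)) (b := 1)) ?_
    intro x hx
    apply hz
    have h3 : 1 < |x| := by
      by_contra h
      exact hx (abs_le.1 (not_lt.1 h))
    have h4 := arg_big hr h0 h1 (by linarith : 1 / 2 ≤ |x|)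
    linarith
  have hg : Sm (iteratedDeriv n h) := sm_iter hh n
  have hgc : HasCompactSupport (iteratedDeriv n h) := cs_iter hhc n
  rw [ibp (HTbx.smooth hφ hcs) hr0 n h hh hhc, abs_mul, abs_pow, abs_neg,
    abs_of_pos (by positivity)]
  have e0 : ∀ s, HT φ (r * s + σ) = HT (fun p => φ (r * p + σ)) s := fun s =>
    (HTbx.dil φ r σ s hr0).symm
  simp only [e0]
  rw [HTbx.anti hs1 hc1 hg hgc, abs_neg]
  have hHT : ∀ s, |HT (iteratedDeriv n h) s| ≤ 4 * C := by
    intro s
    have e1 := HTbx.bound hg hgc C s (fun p => by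
      have := (hC p).2
      rwa [iteratedDeriv_succ] at this)
    have e2 : ∫ p, |iteratedDeriv n h p| ≤ 2 * C := by
      have e3 : ∫ p, |iteratedDeriv n h p| ≤ ∫ p, (Icc (-1 : ℝ) 1).indicator (fun _ => C) p := by
        refine integral_mono ((sm_cont hg).integrable_of_hasCompactSupport hgc).abs ?_ ?_
        · rw [integrable_indicator_iff measurableSet_Icc]
          exact integrableOn_const (by simp)
        · intro p
          show |iteratedDeriv n h p| ≤ _
          by_cases hp : p ∈ Icc (-1 : ℝ) 1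
          · rw [indicator_of_mem hp]
            exact (hC p).1
          · rw [indicator_of_notMem hp, iter_zero hhz n, abs_zero]
            by_contra h
            push Not at h
            have := abs_le.1 (h.trans (by norm_num : (3 / 4 : ℝ) ≤ 1))
            exact hp this
      refine e3.trans (le_of_eq ?_)
      rw [integral_indicator measurableSet_Icc, setIntegral_const]
      simp
      norm_num
    linarith
  have e1 : |∫ s, φ (r * s + σ) * HT (iteratedDeriv n h) s| ≤ ∫ s, φ (r * s + σ) * (4 * C) := by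
    rw [← Real.norm_eq_abs]
    refine norm_integral_le_of_norm_le (i1.mul_const _) (Eventually.of_forall fun s => ?_)
    rw [norm_mul, Real.norm_of_nonneg (hφ0 _), Real.norm_eq_abs]
    exact mul_le_mul_of_nonneg_left (hHT s) (hφ0 _)
  rw [integral_mul_const, i2] at e1
  calc (1 / r) ^ n * |∫ s, φ (r * s + σ) * HT (iteratedDeriv n h) s|
      ≤ (1 / r) ^ n * (1 / r * (4 * C)) := mul_le_mul_of_nonneg_left e1 (by positivity)
    _ = 4 * C / r ^ (n + 1) := by
      rw [pow_succ, one_div, inv_pow]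
      field_simp

/-- the linear map `(a, b) ↦ a x + b y` -/
noncomputable def Lxy (x y : E) : (ℝ × ℝ) →L[ℝ] E :=
  (ContinuousLinearMap.fst ℝ ℝ ℝ).smulRight x + (ContinuousLinearMap.snd ℝ ℝ ℝ).smulRight y

lemma Lxy_apply (x y : E) (p : ℝ × ℝ) : Lxy x y p = p.1 • x + p.2 • y := rfl

lemma Lxy_norm {x y : E} (hx : ‖x‖ ≤ 1) (hy : ‖y‖ ≤ 1) : ‖Lxy x y‖ ≤ 2 := by
  refine ContinuousLinearMap.opNorm_le_bound _ (by norm_num) fun p => ?_
  rw [Lxy_apply]
  have h1 : ‖p.1‖ ≤ ‖p‖ := norm_fst_le p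
  have h2 : ‖p.2‖ ≤ ‖p‖ := norm_snd_le p
  calc ‖p.1 • x + p.2 • y‖ ≤ ‖p.1 • x‖ + ‖p.2 • y‖ := norm_add_le _ _
    _ = ‖p.1‖ * ‖x‖ + ‖p.2‖ * ‖y‖ := by rw [norm_smul, norm_smul]
    _ ≤ ‖p.1‖ * 1 + ‖p.2‖ * 1 := by gcongr
    _ ≤ 2 * ‖p‖ := by linarith

/-- bound for the derivatives of the functions on the curves -/
lemma bound (a q : ℝ → ℝ) (ha : Sm a) (hq : Sm q) (n : ℕ) (B : ℝ) : ∃ C : ℝ, ∀ b : E → ℝ, SmE b →
    (∀ j ≤ n, ∀ x : E, ‖x‖ ≤ 1 → ‖iteratedFDeriv ℝ j b x‖ ≤ B) → ∀ x y : E, ‖x‖ ≤ 1 → ‖y‖ ≤ 1 →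
    ∀ s : ℝ, |s| ≤ 3 / 4 → ‖s • x + q s • y‖ ≤ 1 →
      |iteratedDeriv n (fun s => a s * b (s • x + q s • y)) s| ≤ C := by
  -- constants
  have hγ : ContDiff ℝ ((⊤ : ℕ∞) : WithTop ℕ∞) (fun s : ℝ => (s, q s)) :=
    contDiff_id.prodMk hq
  have ha : ContDiff ℝ ((⊤ : ℕ∞) : WithTop ℕ∞) a := ha
  have hN : ∀ i : ℕ, (i : WithTop ℕ∞) ≤ ((⊤ : ℕ∞) : WithTop ℕ∞) := fun i => by
    exact_mod_cast (le_top : (i : ℕ∞) ≤ ⊤)
  have hM : ∀ i : ℕ, ∃ M : ℝ, ∀ s ∈ Icc (-(3 / 4) : ℝ) (3 / 4),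
      ‖iteratedFDeriv ℝ i (fun s : ℝ => (s, q s)) s‖ ≤ M := fun i =>
    isCompact_Icc.exists_bound_of_continuousOn
      (ContDiff.continuous_iteratedFDeriv (hN i) hγ).continuousOn
  have hM' : ∀ i : ℕ, ∃ M : ℝ, ∀ s ∈ Icc (-(3 / 4) : ℝ) (3 / 4),
      ‖iteratedFDeriv ℝ i a s‖ ≤ M := fun i =>
    isCompact_Icc.exists_bound_of_continuousOn
      (ContDiff.continuous_iteratedFDeriv (hN i) ha).continuousOn
  choose M hM using hM
  choose M' hM' using hM'
  obtain ⟨D, hD⟩ : ∃ D : ℝ, D = 1 + 2 * ∑ i ∈ Finset.range (n + 1), |M i| := ⟨_, rfl⟩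
  have hD1 : 1 ≤ D := by
    have : 0 ≤ ∑ i ∈ Finset.range (n + 1), |M i| := Finset.sum_nonneg fun i _ => abs_nonneg _
    rw [hD]
    linarith
  refine ⟨∑ i ∈ Finset.range (n + 1), (n.choose i : ℝ) * M' i *
    (((n - i).factorial : ℝ) * B * D ^ (n - i)), ?_⟩
  intro b hb hbB x y hx hy s hs hsn
  have hsI : s ∈ Icc (-(3 / 4) : ℝ) (3 / 4) := abs_le.1 hs
  have hcomp : ContDiff ℝ ((⊤ : ℕ∞) : WithTop ℕ∞) (fun s : ℝ => s • x + q s • y) := by
    have h1 : (fun s : ℝ => s • x + q s • y) = Lxy x y ∘ fun s : ℝ => (s, q s) := rfl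
    rw [h1]
    exact (Lxy x y).contDiff.comp hγ
  have hbc : ContDiff ℝ ((⊤ : ℕ∞) : WithTop ℕ∞) (b ∘ fun s : ℝ => s • x + q s • y) :=
    ContDiff.comp hb hcomp
  have hder : ∀ i ≤ n, ‖iteratedFDeriv ℝ i (b ∘ fun s : ℝ => s • x + q s • y) s‖ ≤
      (i.factorial : ℝ) * B * D ^ i := by
    intro i hi
    refine norm_iteratedFDeriv_comp_le hb hcomp (hN i) s (fun j hj => hbB j (hj.trans hi) _ hsn) ?_
    intro j hj1 hj
    have h1 : (fun s : ℝ => s • x + q s • y) = Lxy x y ∘ fun s : ℝ => (s, q s) := rfl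
    rw [h1]
    have h2 := (Lxy x y).norm_iteratedFDeriv_comp_left (f := fun s : ℝ => (s, q s)) (x := s)
      hγ.contDiffAt (hN j)
    refine h2.trans ?_
    have h3 : ‖iteratedFDeriv ℝ j (fun s : ℝ => (s, q s)) s‖ ≤
        ∑ i ∈ Finset.range (n + 1), |M i| :=
      ((hM j s hsI).trans (le_abs_self _)).trans
        (Finset.single_le_sum (f := fun i => |M i|) (fun i _ => abs_nonneg _)
          (Finset.mem_range.2 (by omega)))
    calc ‖Lxy x y‖ * ‖iteratedFDeriv ℝ j (fun s : ℝ => (s, q s)) s‖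
        ≤ 2 * ∑ i ∈ Finset.range (n + 1), |M i| :=
          mul_le_mul (Lxy_norm hx hy) h3 (norm_nonneg _) (by norm_num)
      _ ≤ D := by rw [hD]; linarith
      _ ≤ D ^ j := le_self_pow₀ hD1 (by omega)
  have h1 : |iteratedDeriv n (fun s => a s * b (s • x + q s • y)) s| =
      ‖iteratedFDeriv ℝ n (fun s => a s * (b ∘ fun s : ℝ => s • x + q s • y) s) s‖ := by
    rw [norm_iteratedFDeriv_eq_norm_iteratedDeriv]
    rfl
  rw [h1]
  refine (norm_iteratedFDeriv_mul_le ha hbc s (hN n)).trans ?_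
  refine Finset.sum_le_sum fun i hi => ?_
  have h2 := hM' i s hsI
  have h3 := hder (n - i) (by omega)
  have h4 : (0 : ℝ) ≤ M' i := (norm_nonneg _).trans h2
  refine mul_le_mul (mul_le_mul_of_nonneg_left h2 (Nat.cast_nonneg _)) h3 (norm_nonneg _) ?_
  positivity

/-- an isometry onto the orthogonal complement of a unit vector -/
lemma ex_O (e : S) : ∃ O : EuclideanSpace ℝ (Fin 3) →ₗᵢ[ℝ] E, ∀ v, inner ℝ (O v) (e : E) = 0 := by
  have he : (e : E) ≠ 0 := by
    intro h
    have h1 : ‖(e : E)‖ = 1 := by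
      have := e.2
      rwa [mem_sphere_zero_iff_norm] at this
    rw [h, norm_zero] at h1
    exact zero_ne_one h1
  have : Fact (Module.finrank ℝ E = 3 + 1) := ⟨by simp⟩
  let bs := OrthonormalBasis.fromOrthogonalSpanSingleton (𝕜 := ℝ) 3 he
  refine ⟨(Submodule.subtypeₗᵢ _).comp bs.repr.symm.toLinearIsometry, fun v => ?_⟩
  have h1 : ((bs.repr.symm v : (ℝ ∙ (e : E))ᗮ) : E) ∈ (ℝ ∙ (e : E))ᗮ := (bs.repr.symm v).2
  rw [real_inner_comm]
  exact (Submodule.mem_orthogonal_singleton_iff_inner_right.1 h1)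

end NFKx

open NFKx in
/-- **NFK** (kernel bound for the near field) -/
theorem thm_NFK (hSL : St_SL) : St_NFK := by
  intro n B
  obtain ⟨q, hq, hq2⟩ := ex_q
  obtain ⟨η, hη, hη1, hη0, hηb⟩ := ex_eta
  have ha : Sm fun s => η s * q s := ContDiff.mul hη hq
  obtain ⟨C₁, hC₁⟩ := bound (fun s => η s * q s) q ha hq n B
  obtain ⟨C₂, hC₂⟩ := bound (fun s => η s * q s) q ha hq (n + 1) B
  obtain ⟨C₃, hC₃0, hC₃⟩ := off_le n
  obtain ⟨ν, hν⟩ : ∃ ν : Measure (Metric.sphere (0 : EuclideanSpace ℝ (Fin 3)) 1),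
    ν = (volume : Measure (EuclideanSpace ℝ (Fin 3))).toSphere := ⟨_, rfl⟩
  have : IsFiniteMeasure ν := by rw [hν]; infer_instance
  refine ⟨(4 * max (max C₁ C₂) 0) * ν.real univ + (C₃ * 6 ^ (n + 1) * B * ν.real univ) * 2, ?_⟩
  intro b hb hbB φ hm z σ hz hσ0 hσ1
  have hm' := hm
  obtain ⟨hφ, hφ0, hφz, hφi⟩ := hm'
  have hcs : HasCompactSupport φ := by
    refine HasCompactSupport.intro (isCompact_Icc (a := -(1 / 100 : ℝ)) (b := 1 / 100)) ?_
    intro x hx
    apply hφz
    by_contra h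
    push Not at h
    exact hx (abs_le.1 h.le)
  obtain ⟨r, hr⟩ : ∃ r : ℝ, r = ‖z‖ := ⟨_, rfl⟩
  rw [← hr] at hz ⊢
  have hr0 : 0 < r := by linarith
  have hB0 : 0 ≤ B := (norm_nonneg _).trans (hbB 0 (Nat.zero_le _) 0 (by simp))
  have hzn : ‖(1 / r) • z‖ = 1 := by
    rw [norm_smul, Real.norm_of_nonneg (by positivity), ← hr]
    field_simp
  obtain ⟨e, he⟩ : ∃ e : S, (e : E) = (1 / r) • z :=
    ⟨⟨(1 / r) • z, by rw [mem_sphere_zero_iff_norm]; exact hzn⟩, rfl⟩
  have hen : ‖(e : E)‖ = 1 := by rw [he]; exact hzn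
  have hze : z = r • (e : E) := by
    rw [he, smul_smul]
    rw [mul_one_div_cancel hr0.ne', one_smul]
  obtain ⟨O, hO⟩ := ex_O e
  have hin : ∀ (s t : ℝ) (v : EuclideanSpace ℝ (Fin 3)),
      inner ℝ z (s • (e : E) + t • O v) = r * s := by
    intro s t v
    have h1 : inner ℝ (e : E) (O v) = 0 := by rw [real_inner_comm]; exact hO v
    rw [hze, inner_smul_left, inner_add_right, inner_smul_right, inner_smul_right, h1,
      real_inner_self_eq_norm_sq, hen]
    simp
  obtain ⟨ψ, hψe⟩ : ∃ ψ : ℝ → ℝ, ψ = iteratedDeriv n (HT φ) := ⟨_, rfl⟩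
  have hψc : Continuous ψ := by
    rw [hψe]
    exact HTbx.sm_cont (HTbx.sm_iter (HTbx.smooth hφ hcs) n)
  have hbc : Continuous b := ContDiff.continuous hb
  have hqc : Continuous q := ContDiff.continuous hq
  have hηc : Continuous η := ContDiff.continuous hη
  rw [← hψe]
  have hcont : Continuous (fun x : E => b x * ψ (inner ℝ z x + σ)) :=
    hbc.mul (hψc.comp (by fun_prop))
  have h1 := hSL e O hO (fun x => b x * ψ (inner ℝ z x + σ)) hcont
  rw [h1, ← hν]
  have hOn : ∀ v : Metric.sphere (0 : EuclideanSpace ℝ (Fin 3)) 1, ‖O v‖ = 1 := by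
    intro v
    rw [O.norm_map]
    have := v.2
    rwa [mem_sphere_zero_iff_norm] at this
  have hnorm1 : ∀ (s : ℝ) (v : Metric.sphere (0 : EuclideanSpace ℝ (Fin 3)) 1), |s| ≤ 1 →
      ‖s • (e : E) + √(1 - s ^ 2) • O v‖ ≤ 1 := by
    intro s v hs
    have h2 : ‖s • (e : E) + √(1 - s ^ 2) • O v‖ ^ 2 = 1 := by
      rw [← real_inner_self_eq_norm_sq, inner_add_left, inner_add_right, inner_add_right,
        inner_smul_left, inner_smul_right, inner_smul_left, inner_smul_right, inner_smul_left,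
        inner_smul_right, inner_smul_left, inner_smul_right, hO v, real_inner_comm (O v) (e : E),
        hO v, real_inner_self_eq_norm_sq, real_inner_self_eq_norm_sq, hen, hOn v]
      have h3 : 0 ≤ 1 - s ^ 2 := by
        rw [← sq_abs]
        have := abs_nonneg s
        nlinarith
      have h4 := Real.mul_self_sqrt h3
      simp only [conj_trivial]
      nlinarith
    nlinarith [norm_nonneg (s • (e : E) + √(1 - s ^ 2) • O v)]
  have hnorm : ∀ (s : ℝ) (v : Metric.sphere (0 : EuclideanSpace ℝ (Fin 3)) 1), |s| ≤ 3 / 4 →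
      ‖s • (e : E) + q s • O v‖ ≤ 1 := by
    intro s v hs
    rw [hq2 s hs]
    exact hnorm1 s v (by linarith)
  -- the inner integral
  obtain ⟨T, hT⟩ : ∃ T : ℝ → ℝ, T = fun s => √(1 - s ^ 2) *
      ∫ v : Metric.sphere (0 : EuclideanSpace ℝ (Fin 3)) 1,
        b (s • (e : E) + √(1 - s ^ 2) • O v) * ψ (r * s + σ) ∂ν := ⟨_, rfl⟩
  have hTc : Continuous T := by
    rw [hT]
    refine (by fun_prop : Continuous fun s : ℝ => √(1 - s ^ 2)).mul ?_
    have h2 : Continuous (Function.uncurry fun (s : ℝ)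
        (v : Metric.sphere (0 : EuclideanSpace ℝ (Fin 3)) 1) =>
        b (s • (e : E) + √(1 - s ^ 2) • O v) * ψ (r * s + σ)) := by
      refine (hbc.comp ?_).mul (hψc.comp (by fun_prop))
      refine (continuous_fst.smul continuous_const).add
        ((by fun_prop : Continuous fun p : ℝ × Metric.sphere (0 : EuclideanSpace ℝ (Fin 3)) 1 =>
          √(1 - p.1 ^ 2)).smul (O.continuous.comp ?_))
      exact continuous_subtype_val.comp continuous_snd
    have h3 := continuous_parametric_integral_of_continuous (μ := ν) h2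
      (s := (univ : Set (Metric.sphere (0 : EuclideanSpace ℝ (Fin 3)) 1))) isCompact_univ
    simpa only [Measure.restrict_univ] using h3
  have hTe : ∫ s in (-1 : ℝ)..1, √(1 - s ^ 2) *
      ∫ v : Metric.sphere (0 : EuclideanSpace ℝ (Fin 3)) 1,
        b (s • (e : E) + √(1 - s ^ 2) • O v) *
          ψ (inner ℝ z (s • (e : E) + √(1 - s ^ 2) • O v) + σ) ∂ν =
      (∫ s in (-1 : ℝ)..1, η s * T s) + ∫ s in (-1 : ℝ)..1, (1 - η s) * T s := by
    have i1 : IntervalIntegrable (fun s => η s * T s) volume (-1) 1 :=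
      (hηc.mul hTc).intervalIntegrable _ _
    have i2 : IntervalIntegrable (fun s => (1 - η s) * T s) volume (-1) 1 :=
      ((continuous_const.sub hηc).mul hTc).intervalIntegrable _ _
    rw [← intervalIntegral.integral_add i1 i2]
    refine intervalIntegral.integral_congr fun s _ => ?_
    show √(1 - s ^ 2) * ∫ v : Metric.sphere (0 : EuclideanSpace ℝ (Fin 3)) 1,
        b (s • (e : E) + √(1 - s ^ 2) • O v) *
          ψ (inner ℝ z (s • (e : E) + √(1 - s ^ 2) • O v) + σ) ∂ν =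
      η s * T s + (1 - η s) * T s
    simp only [hin]
    rw [hT]
    ring
  rw [hTe]
  -- the first part
  obtain ⟨G, hG⟩ : ∃ G : ℝ → Metric.sphere (0 : EuclideanSpace ℝ (Fin 3)) 1 → ℝ,
      G = fun (s : ℝ) (v : Metric.sphere (0 : EuclideanSpace ℝ (Fin 3)) 1) =>
        ψ (r * s + σ) * ((η s * q s) * b (s • (e : E) + q s • O v)) := ⟨_, rfl⟩
  have hG0 : ∀ s v, 3 / 4 ≤ |s| → G s v = 0 := by
    intro s v hs
    rw [hG]
    show ψ (r * s + σ) * ((η s * q s) * b (s • (e : E) + q s • O v)) = 0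
    rw [hη0 s hs]
    simp
  have hGc : Continuous (Function.uncurry G) := by
    rw [hG]
    have e1 : Continuous fun p : ℝ × Metric.sphere (0 : EuclideanSpace ℝ (Fin 3)) 1 =>
        p.1 • (e : E) + q p.1 • O p.2 := by
      refine (continuous_fst.smul continuous_const).add
        ((hqc.comp continuous_fst).smul (O.continuous.comp ?_))
      exact continuous_subtype_val.comp continuous_snd
    exact (hψc.comp (by fun_prop)).mul
      (((hηc.comp continuous_fst).mul (hqc.comp continuous_fst)).mul (hbc.comp e1))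
  have hp1 : ∫ s in (-1 : ℝ)..1, η s * T s = ∫ s in Ioc (-1 : ℝ) 1, ∫ v, G s v ∂ν := by
    rw [intervalIntegral.integral_of_le (by norm_num)]
    refine setIntegral_congr_fun measurableSet_Ioc fun s hs => ?_
    show η s * T s = ∫ v, G s v ∂ν
    by_cases hs' : |s| ≤ 3 / 4
    · rw [hT]
      show η s * (√(1 - s ^ 2) * ∫ v, _ ∂ν) = _
      rw [← mul_assoc, ← integral_const_mul]
      refine integral_congr_ae (Eventually.of_forall fun v => ?_)
      show η s * √(1 - s ^ 2) * (b (s • (e : E) + √(1 - s ^ 2) • O v) * ψ (r * s + σ)) = G s v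
      rw [hG]
      show _ = ψ (r * s + σ) * ((η s * q s) * b (s • (e : E) + q s • O v))
      rw [hq2 s hs']
      ring
    · have h3 := (not_le.1 hs').le
      simp only [hG0 s _ h3, integral_zero, hη0 s h3, zero_mul]
  have hbd : ∃ M : ℝ, ∀ p ∈ Icc (-1 : ℝ) 1 ×ˢ
      (univ : Set (Metric.sphere (0 : EuclideanSpace ℝ (Fin 3)) 1)), ‖Function.uncurry G p‖ ≤ M :=
    (isCompact_Icc.prod isCompact_univ).exists_bound_of_continuousOn hGc.continuousOn
  obtain ⟨M, hM⟩ := hbd
  have hint : Integrable (Function.uncurry G) ((volume.restrict (Ioc (-1 : ℝ) 1)).prod ν) := by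
    refine Integrable.of_bound hGc.aestronglyMeasurable M ?_
    have h0 : ∀ᵐ p : ℝ × Metric.sphere (0 : EuclideanSpace ℝ (Fin 3)) 1
        ∂((volume.restrict (Ioc (-1 : ℝ) 1)).prod ν), p.1 ∈ Ioc (-1 : ℝ) 1 := by
      have : ∀ᵐ p ∂(volume.restrict (Ioc (-1 : ℝ) 1)), p ∈ Ioc (-1 : ℝ) 1 :=
        ae_restrict_mem measurableSet_Ioc
      exact Measure.quasiMeasurePreserving_fst.ae this
    filter_upwards [h0] with p hp
    exact hM p ⟨⟨hp.1.le, hp.2⟩, mem_univ _⟩
  have hC0 : (0 : ℝ) ≤ max (max C₁ C₂) 0 := le_max_right _ _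
  have hI1 : |∫ s in (-1 : ℝ)..1, η s * T s| ≤
      4 * max (max C₁ C₂) 0 / r ^ (n + 1) * ν.real univ := by
    rw [hp1, integral_integral_swap hint]
    have hcur : ∀ v, ‖∫ s in Ioc (-1 : ℝ) 1, G s v‖ ≤ 4 * max (max C₁ C₂) 0 / r ^ (n + 1) := by
      intro v
      have hO1 : ‖O v‖ ≤ 1 := (hOn v).le
      obtain ⟨h, hh⟩ : ∃ h : ℝ → ℝ, h = fun s : ℝ => (η s * q s) * b (s • (e : E) + q s • O v) :=
        ⟨_, rfl⟩
      have hsm : Sm h := by
        rw [hh]
        have e1 : ContDiff ℝ ((⊤ : ℕ∞) : WithTop ℕ∞) (fun s : ℝ => s • (e : E) + q s • O v) :=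
          (contDiff_id.smul contDiff_const).add (ContDiff.smul hq contDiff_const)
        exact ContDiff.mul ha (ContDiff.comp hb e1)
      have hhz : ∀ s, 3 / 4 ≤ |s| → h s = 0 := by
        intro s hs
        rw [hh]
        show (η s * q s) * b (s • (e : E) + q s • O v) = 0
        rw [hη0 s hs]
        simp
      have hhb : ∀ s, |iteratedDeriv n h s| ≤ max (max C₁ C₂) 0 ∧
          |iteratedDeriv (n + 1) h s| ≤ max (max C₁ C₂) 0 := by
        intro s
        by_cases hs : |s| ≤ 3 / 4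
        · constructor
          · refine le_trans ?_ ((le_max_left C₁ C₂).trans (le_max_left _ _))
            rw [hh]
            exact hC₁ b hb (fun j hj => hbB j (by omega)) (e : E) (O v) hen.le hO1 s hs
              (hnorm s v hs)
          · refine le_trans ?_ ((le_max_right C₁ C₂).trans (le_max_left _ _))
            rw [hh]
            exact hC₂ b hb hbB (e : E) (O v) hen.le hO1 s hs (hnorm s v hs)
        · rw [iter_zero hhz n (not_le.1 hs), iter_zero hhz (n + 1) (not_le.1 hs), abs_zero]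
          exact ⟨hC0, hC0⟩
      have h5 := curve hm hz hσ0 hσ1 n hsm hhz hhb
      have h6 : ∫ s in Ioc (-1 : ℝ) 1, G s v = ∫ s, iteratedDeriv n (HT φ) (r * s + σ) * h s := by
        rw [← hψe]
        have h7 : ∀ s, ψ (r * s + σ) * h s = G s v := by
          intro s
          rw [hG, hh]
        simp only [h7]
        refine setIntegral_eq_integral_of_forall_compl_eq_zero fun s hs => hG0 s v ?_
        by_contra h8
        push Not at h8
        have h9 := abs_lt.1 h8
        exact hs ⟨by linarith [h9.1], by linarith [h9.2]⟩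
      rw [Real.norm_eq_abs, h6]
      exact h5
    have h5 := norm_integral_le_of_norm_le_const (μ := ν) (Eventually.of_forall hcur)
    rw [Real.norm_eq_abs] at h5
    exact h5
  -- the second part
  have hI2 : |∫ s in (-1 : ℝ)..1, (1 - η s) * T s| ≤
      (C₃ * 6 ^ (n + 1) * B * ν.real univ / r ^ (n + 1)) * 2 := by
    have h5 : ∀ s ∈ uIoc (-1 : ℝ) 1, ‖(1 - η s) * T s‖ ≤
        C₃ * 6 ^ (n + 1) * B * ν.real univ / r ^ (n + 1) := by
      intro s hs
      rw [uIoc_of_le (by norm_num)] at hs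
      have hs1 : |s| ≤ 1 := abs_le.2 ⟨hs.1.le, hs.2⟩
      have hν0 : 0 ≤ ν.real univ := measureReal_nonneg
      by_cases hs2 : |s| ≤ 1 / 2
      · rw [hη1 s hs2, sub_self, zero_mul, norm_zero]
        positivity
      · have hs3 := (not_le.1 hs2).le
        have hab := arg_big hz hσ0 hσ1 hs3
        have h6 : |ψ (r * s + σ)| ≤ C₃ * 6 ^ (n + 1) / r ^ (n + 1) := by
          rw [hψe]
          refine (hC₃ φ hm _ (by linarith)).trans ?_
          have h7 : r / 6 ≤ |r * s + σ| - 1 / 100 := by linarith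
          calc C₃ / (|r * s + σ| - 1 / 100) ^ (n + 1) ≤ C₃ / (r / 6) ^ (n + 1) :=
                div_le_div_of_nonneg_left hC₃0 (by positivity)
                  (pow_le_pow_left₀ (by positivity) h7 _)
            _ = C₃ * 6 ^ (n + 1) / r ^ (n + 1) := by
                rw [div_pow]
                field_simp
        have h8 : ‖∫ v : Metric.sphere (0 : EuclideanSpace ℝ (Fin 3)) 1,
            b (s • (e : E) + √(1 - s ^ 2) • O v) * ψ (r * s + σ) ∂ν‖ ≤
            B * (C₃ * 6 ^ (n + 1) / r ^ (n + 1)) * ν.real univ := by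
          refine norm_integral_le_of_norm_le_const (Eventually.of_forall fun v => ?_)
          rw [norm_mul]
          have h3 : ‖b (s • (e : E) + √(1 - s ^ 2) • O v)‖ ≤ B := by
            have := hbB 0 (Nat.zero_le _) _ (hnorm1 s v hs1)
            rwa [norm_iteratedFDeriv_zero] at this
          exact mul_le_mul h3 h6 (norm_nonneg _) hB0
        have h9 : ‖1 - η s‖ ≤ 1 := by
          rw [Real.norm_eq_abs, abs_le]
          have := hηb s
          constructor <;> linarith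
        have h10 : ‖√(1 - s ^ 2)‖ ≤ 1 := by
          rw [Real.norm_of_nonneg (Real.sqrt_nonneg _)]
          refine Real.sqrt_le_one.2 ?_
          nlinarith [sq_nonneg s]
        rw [hT]
        show ‖(1 - η s) * (√(1 - s ^ 2) *
          ∫ v : Metric.sphere (0 : EuclideanSpace ℝ (Fin 3)) 1,
            b (s • (e : E) + √(1 - s ^ 2) • O v) * ψ (r * s + σ) ∂ν)‖ ≤ _
        rw [norm_mul, norm_mul]
        calc ‖1 - η s‖ * (‖√(1 - s ^ 2)‖ * ‖∫ v : Metric.sphere (0 : EuclideanSpace ℝ (Fin 3)) 1,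
            b (s • (e : E) + √(1 - s ^ 2) • O v) * ψ (r * s + σ) ∂ν‖) ≤
            1 * (1 * (B * (C₃ * 6 ^ (n + 1) / r ^ (n + 1)) * ν.real univ)) :=
              mul_le_mul h9 (mul_le_mul h10 h8 (norm_nonneg _) zero_le_one) (by positivity)
                zero_le_one
          _ = C₃ * 6 ^ (n + 1) * B * ν.real univ / r ^ (n + 1) := by ring
    have h6 := intervalIntegral.norm_integral_le_of_norm_le_const h5
    rw [Real.norm_eq_abs] at h6
    refine h6.trans (le_of_eq ?_)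
    have : |(1 : ℝ) - -1| = 2 := by norm_num
    rw [this]
  refine (abs_add_le _ _).trans ((add_le_add hI1 hI2).trans (le_of_eq ?_))
  ring

end Pool.Agent.QWF
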