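import Pool.Agent.QWF.StA2

set_option autoImplicit false

/-!
# QWF, NFa: weak approximation of the near field

The regularised state `kap` is the mollification in `p` of `k0 = - c0 θ(p) Rad (lap F) (w, p + σ)`.
-/

open MeasureTheory Filter Topology Set
open scoped ENNReal NNReal RealInnerProductSpace ContDiff Pointwise

namespace Pool.Agent.QWF

namespace NFax

/-! ### test functions -/

private lemma test_pd (i : Fin 4) {φ : E → ℝ} (h : IsTest φ) : IsTest (pd i φ) := by
  refine ⟨?_, h.2.fderiv_apply ℝ _⟩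
  exact (h.1.fderiv_right (m := ∞) (by simp)).clm_apply contDiff_const

private lemma tsupport_pd (i : Fin 4) (φ : E → ℝ) : tsupport (pd i φ) ⊆ tsupport φ :=
  tsupport_fderiv_apply_subset ℝ _

private lemma lap_zero {φ : E → ℝ} {x : E} (h : x ∉ tsupport φ) : lap φ x = 0 := by
  refine Finset.sum_eq_zero fun i _ => ?_
  exact image_eq_zero_of_notMem_tsupport fun h2 => h (tsupport_pd i φ (tsupport_pd i _ h2))

private lemma test_lap {φ : E → ℝ} (h : IsTest φ) : IsTest (lap φ) := by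
  refine ⟨?_, HasCompactSupport.intro h.2 fun x hx => lap_zero hx⟩
  exact ContDiff.sum fun i _ => (test_pd i (test_pd i h)).1

/-! ### the continuous representative -/

/-- the representative of `θ tau (-σ) (Gam F)` -/
noncomputable def k0 (θ : ℝ → ℝ) (F : E → ℝ) (σ : ℝ) (z : S × ℝ) : ℝ :=
  -c0 * (θ z.2 * Rad (lap F) (z.1, z.2 + σ))

private lemma k0_cont (hR : St_RadT) {θ : ℝ → ℝ} {F : E → ℝ} (σ : ℝ) (hθ : Sm θ) (hF : IsTest F) :
    Continuous (k0 θ F σ) := by
  have h1 := (hR _ (test_lap hF)).1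
  have h2 : Continuous θ := hθ.continuous
  unfold k0
  exact continuous_const.mul ((h2.comp continuous_snd).mul (h1.comp (by fun_prop)))

private lemma k0_zero {θ : ℝ → ℝ} (F : E → ℝ) (σ : ℝ) (hθ : ∀ p, 1 / 12 ≤ |p| → θ p = 0)
    (z : S × ℝ) (hz : 1 / 12 ≤ |z.2|) : k0 θ F σ z = 0 := by
  unfold k0
  rw [hθ _ hz, zero_mul, mul_zero]

private lemma cs_of {κ : S × ℝ → ℝ} {M : ℝ} (h : ∀ z, M ≤ |z.2| → κ z = 0) :
    HasCompactSupport κ := by
  refine HasCompactSupport.intro (isCompact_univ.prod (isCompact_Icc (a := -M) (b := M)))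
    fun z hz => h z ?_
  by_contra h2
  exact hz ⟨mem_univ _, abs_le.1 (not_le.1 h2).le⟩

/-! ### integration by parts on the line -/

private lemma it_cs {H : ℝ → ℝ} (hc : HasCompactSupport H) (k : ℕ) :
    HasCompactSupport (iteratedDeriv k H) := by
  induction k with
  | zero => rwa [iteratedDeriv_zero]
  | succ k ih =>
    rw [iteratedDeriv_succ]
    exact ih.deriv

private lemma it_cont {H : ℝ → ℝ} (hH : Sm H) (k : ℕ) : Continuous (iteratedDeriv k H) :=
  hH.continuous_iteratedDeriv k (by exact_mod_cast le_top)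

private lemma it_der {H : ℝ → ℝ} (hH : Sm H) (k : ℕ) (q : ℝ) :
    HasDerivAt (iteratedDeriv k H) (iteratedDeriv (k + 1) H q) q := by
  have h1 : Differentiable ℝ (iteratedDeriv k H) :=
    hH.differentiable_iteratedDeriv k (by exact_mod_cast WithTop.coe_lt_top k)
  have h2 := (h1 q).hasDerivAt
  rwa [← iteratedDeriv_succ] at h2

private lemma ibp {u u' H : ℝ → ℝ} (hu : Continuous u) (hu' : Continuous u')
    (du : ∀ p, HasDerivAt u (u' p) p) (hH : Sm H) (hc : HasCompactSupport H) (k : ℕ) :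
    ∫ q, u q * iteratedDeriv (k + 1) H q = - ∫ q, u' q * iteratedDeriv k H q := by
  have hi : ∀ {a : ℝ → ℝ} (j : ℕ), Continuous a → Integrable (fun p : ℝ => a p * iteratedDeriv j H p) := by
    intro a j ha
    exact Continuous.integrable_of_hasCompactSupport (ha.mul (it_cont hH j)) (it_cs hc j).mul_left
  exact integral_mul_deriv_eq_deriv_mul_of_integrable (u := u) (u' := u') (v := iteratedDeriv k H)
    (v' := iteratedDeriv (k + 1) H) (fun p _ => du p) (fun p _ => it_der hH k p)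
    (hi (k + 1) hu) (hi k hu') (hi k hu)

/-- two integrations by parts -/
private lemma ibp2 (hR : St_RadT) {F : E → ℝ} (hF : IsTest F) {H : ℝ → ℝ} (hH : Sm H)
    (hc : HasCompactSupport H) (w : S) :
    ∫ q, Rad F (w, q) * iteratedDeriv 2 H q = ∫ q, Rad (lap F) (w, q) * H q := by
  obtain ⟨a1, a2, -, a4, -⟩ := hR F hF
  have b1 := (hR _ (test_lap hF)).1
  have c : ∀ {u : S × ℝ → ℝ}, Continuous u → Continuous fun q : ℝ => u (w, q) :=
    fun h => h.comp (by fun_prop)
  rw [ibp (c a1) (c a2) (fun p => (a4 w p).1) hH hc 1,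
    ibp (c a2) (c b1) (fun p => (a4 w p).2) hH hc 0, iteratedDeriv_zero, neg_neg]

/-! ### `kap` is a mollification -/

private lemma kap_eq (hR : St_RadT) {θ : ℝ → ℝ} {F : E → ℝ} (σ : ℝ) {φ : ℝ → ℝ} (hθ : Sm θ)
    (hθ0 : ∀ p, 1 / 12 ≤ |p| → θ p = 0) (hF : IsTest F) (hφ : Sm φ) (z : S × ℝ) :
    kap θ F σ φ z = ∫ s, k0 θ F σ (z.1, z.2 - s) * φ s := by
  obtain ⟨H, hHd⟩ : ∃ H : ℝ → ℝ, H = fun q => θ (q - σ) * φ (z.2 - (q - σ)) := ⟨_, rfl⟩
  have s1 : Sm fun q : ℝ => θ (q - σ) := hθ.comp (contDiff_id.sub contDiff_const)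
  have s2 : Sm fun q : ℝ => φ (z.2 + σ - q) := hφ.comp (contDiff_const.sub contDiff_id)
  have e0 : (fun q : ℝ => φ (z.2 - (q - σ))) = fun q => φ (z.2 + σ - q) := by
    funext q
    congr 1
    ring
  have s3 : Sm fun q : ℝ => φ (z.2 - (q - σ)) := by
    rw [e0]
    exact s2
  have hH : Sm H := by
    rw [hHd]
    exact s1.mul s3
  have hc : HasCompactSupport H := by
    refine HasCompactSupport.intro (isCompact_Icc (a := σ - 1 / 12) (b := σ + 1 / 12)) fun q hq => ?_
    rw [hHd]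
    change θ (q - σ) * _ = 0
    rw [hθ0 (q - σ), zero_mul]
    by_contra h2
    have h3 := abs_le.1 (not_le.1 h2).le
    exact hq ⟨by linarith [h3.1], by linarith [h3.2]⟩
  have leib : ∀ q, iteratedDeriv 2 H q = ∑ j ∈ Finset.range 3, (Nat.choose 2 j : ℝ) *
      (-1) ^ (2 - j) * iteratedDeriv j θ (q - σ) * iteratedDeriv (2 - j) φ (z.2 - (q - σ)) := by
    intro q
    have h1 : H = (fun q => θ (q - σ)) * fun q => φ (z.2 + σ - q) := by
      rw [hHd]
      funext q
      rw [Pi.mul_apply]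
      congr 2
      ring
    have t1 : ContDiffAt ℝ ((2 : ℕ) : WithTop ℕ∞) (fun q : ℝ => θ (q - σ)) q :=
      (contDiff_infty.1 s1 2).contDiffAt
    have t2 : ContDiffAt ℝ ((2 : ℕ) : WithTop ℕ∞) (fun q : ℝ => φ (z.2 + σ - q)) q :=
      (contDiff_infty.1 s2 2).contDiffAt
    rw [h1, iteratedDeriv_mul t1 t2]
    refine Finset.sum_congr rfl fun j _ => ?_
    rw [iteratedDeriv_comp_sub_const, iteratedDeriv_comp_const_sub]
    have e : z.2 - (q - σ) = z.2 + σ - q := by ring
    rw [e]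
    simp only [smul_eq_mul]
    ring
  unfold kap
  have h1 := (hR F hF).2.2.2.2 z.1 (iteratedDeriv 2 H) (it_cont hH 2)
  rw [ibp2 hR hF hH hc z.1] at h1
  have h2 : ∫ y : E, F y * ∑ j ∈ Finset.range 3, (Nat.choose 2 j : ℝ) * (-1) ^ (j + 1) *
      iteratedDeriv j θ (inner ℝ y (z.1 : E) - σ) *
      iteratedDeriv (2 - j) φ (z.2 - (inner ℝ y (z.1 : E) - σ)) =
      - ∫ x, F x * iteratedDeriv 2 H (inner ℝ x (z.1 : E)) := by
    rw [← integral_neg]
    refine integral_congr_ae (Eventually.of_forall fun y => ?_)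
    simp only [leib]
    rw [← mul_neg, ← Finset.sum_neg_distrib]
    congr 1
    refine Finset.sum_congr rfl fun j hj => ?_
    have hj2 : j ≤ 2 := Nat.lt_succ_iff.1 (Finset.mem_range.1 hj)
    have e : (-1 : ℝ) ^ (j + 1) = - (-1) ^ (2 - j) := by
      interval_cases j <;> norm_num
    rw [e]
    ring
  rw [h2, ← h1, ← integral_sub_left_eq_self (fun q => Rad (lap F) (z.1, q) * H q) volume (z.2 + σ),
    ← integral_neg, ← integral_const_mul]
  refine integral_congr_ae (Eventually.of_forall fun s => ?_)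
  have e1 : z.2 + σ - s - σ = z.2 - s := by ring
  have e2 : z.2 - s + σ = z.2 + σ - s := by ring
  have e3 : z.2 - (z.2 - s) = s := by ring
  simp only [hHd, k0, e1, e2, e3]
  ring

/-- mollification in `p` is continuous -/
private lemma cv_cont {κ : S × ℝ → ℝ} (hκ : Continuous κ) {φ : ℝ → ℝ} (hφ : Continuous φ) {r : ℝ}
    (hφ0 : ∀ p, r ≤ |p| → φ p = 0) : Continuous fun z : S × ℝ => ∫ s, κ (z.1, z.2 - s) * φ s := by
  have h1 : (fun z : S × ℝ => ∫ s, κ (z.1, z.2 - s) * φ s) =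
      fun z => ∫ s in Icc (-r) r, κ (z.1, z.2 - s) * φ s := by
    funext z
    refine (setIntegral_eq_integral_of_forall_compl_eq_zero fun s hs => ?_).symm
    rw [hφ0 s, mul_zero]
    by_contra h2
    exact hs (abs_le.1 (not_le.1 h2).le)
  rw [h1]
  have h2 : Continuous (Function.uncurry fun (z : S × ℝ) (s : ℝ) => κ (z.1, z.2 - s) * φ s) := by
    refine (hκ.comp ?_).mul (hφ.comp continuous_snd)
    fun_prop
  exact continuous_parametric_integral_of_continuous h2 isCompact_Icc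

private lemma mol_int {r : ℝ} {φ : ℝ → ℝ} (h : IsMol r φ) : Integrable φ := by
  refine h.1.continuous.integrable_of_hasCompactSupport ?_
  refine HasCompactSupport.intro (isCompact_Icc (a := -r) (b := r)) fun s hs => h.2.2.1 s ?_
  by_contra h2
  exact hs (abs_le.1 (not_le.1 h2).le)

/-- the mollified function is near the value of the function -/
private lemma cv_near {κ : S × ℝ → ℝ} (hκ : Continuous κ) {r : ℝ} {φ : ℝ → ℝ} (h : IsMol r φ)
    (z : S × ℝ) (c ε : ℝ) (hε : ∀ s, |s| < r → |κ (z.1, z.2 - s) - c| ≤ ε) :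
    |(∫ s, κ (z.1, z.2 - s) * φ s) - c| ≤ ε := by
  have i1 : Integrable fun s => κ (z.1, z.2 - s) * φ s := by
    refine Continuous.integrable_of_hasCompactSupport ?_ ?_
    · exact (hκ.comp (by fun_prop)).mul h.1.continuous
    · refine HasCompactSupport.intro (isCompact_Icc (a := -r) (b := r)) fun s hs => ?_
      rw [h.2.2.1 s, mul_zero]
      by_contra h2
      exact hs (abs_le.1 (not_le.1 h2).le)
  have i2 := mol_int h
  have e1 : (∫ s, κ (z.1, z.2 - s) * φ s) - c = ∫ s, (κ (z.1, z.2 - s) - c) * φ s := by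
    have e2 : (fun s => (κ (z.1, z.2 - s) - c) * φ s) =
        fun s => κ (z.1, z.2 - s) * φ s - c * φ s := by
      funext s
      ring
    rw [e2, integral_sub i1 (i2.const_mul c), integral_const_mul, h.2.2.2, mul_one]
  rw [e1]
  calc |∫ s, (κ (z.1, z.2 - s) - c) * φ s| ≤ ∫ s, |(κ (z.1, z.2 - s) - c) * φ s| :=
        abs_integral_le_integral_abs
    _ ≤ ∫ s, ε * φ s := by
        refine integral_mono_of_nonneg (Eventually.of_forall fun s => abs_nonneg _)
          (i2.const_mul ε) (Eventually.of_forall fun s => ?_)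
        change |(κ (z.1, z.2 - s) - c) * φ s| ≤ ε * φ s
        rw [abs_mul, abs_of_nonneg (h.2.1 s)]
        by_cases hs : r ≤ |s|
        · rw [h.2.2.1 s hs, mul_zero, mul_zero]
        · exact mul_le_mul_of_nonneg_right (hε s (not_le.1 hs)) (h.2.1 s)
    _ = ε := by rw [integral_const_mul, h.2.2.2, mul_one]

end NFax

open NFax in
theorem thm_NFa (hR : St_RadT) : St_NFa := by
  intro θ F σ hθ hθ1 hθ0 hF _ φ hφ Ψ0 Ψ1 Ψ2 c0' _ _ hB _
  have hκ := k0_cont hR σ hθ hF
  have hκ0 := k0_zero F σ hθ0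
  have hκc := cs_of hκ0
  obtain ⟨B, hB⟩ := hB
  obtain ⟨C, hC, hCn⟩ : ∃ C : ℝ, (∀ z, ‖k0 θ F σ z‖ ≤ C) ∧ 0 ≤ C := by
    obtain ⟨C, hC⟩ := hκ.bounded_above_of_compact_support hκc
    exact ⟨|C|, fun z => (hC z).trans (le_abs_self C), abs_nonneg C⟩
  have hkap : ∀ φ, Sm φ → kap θ F σ φ = fun z => ∫ s, k0 θ F σ (z.1, z.2 - s) * φ s := by
    intro φ hφ
    funext z
    exact kap_eq hR σ hθ hθ0 hF hφ z
  have hzero : ∀ φ r, IsMol r φ → ∀ z : S × ℝ, 1 / 12 + r ≤ |z.2| → kap θ F σ φ z = 0 := by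
    intro φ r h z hz
    rw [hkap φ h.1]
    have h1 : ∀ s, k0 θ F σ (z.1, z.2 - s) * φ s = 0 := by
      intro s
      by_cases hs : r ≤ |s|
      · rw [h.2.2.1 s hs, mul_zero]
      · rw [hκ0, zero_mul]
        change 1 / 12 ≤ |z.2 - s|
        have h2 := abs_sub_abs_le_abs_sub z.2 s
        linarith [not_le.1 hs]
    simp only [h1, integral_zero]
  have e2 : -c0 * ∫ z, θ z.2 * Rad (lap F) (z.1, z.2 + σ) * Ψ0 z ∂mu =
      ∫ z, k0 θ F σ z * Ψ0 z ∂mu := by
    rw [← integral_const_mul]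
    refine integral_congr_ae (Eventually.of_forall fun z => ?_)
    simp only [k0]
    ring
  rw [e2]
  have hr : ∀ n : ℕ, (1 / (n + 100 : ℝ)) ≤ 1 / 100 := by
    intro n
    refine one_div_le_one_div_of_le (by norm_num) ?_
    have : (0 : ℝ) ≤ n := Nat.cast_nonneg n
    linarith
  have hset : MeasurableSet ((univ : Set S) ×ˢ Icc (-1 : ℝ) 1) :=
    MeasurableSet.univ.prod measurableSet_Icc
  have hfin : mu ((univ : Set S) ×ˢ Icc (-1 : ℝ) 1) ≠ ⊤ :=
    (isCompact_univ.prod isCompact_Icc).measure_lt_top.ne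
  refine tendsto_integral_of_dominated_convergence
    (((univ : Set S) ×ˢ Icc (-1 : ℝ) 1).indicator (fun _ => C * |B|)) ?_ ?_ ?_ ?_
  · intro n
    refine Continuous.aestronglyMeasurable (Continuous.mul ?_ c0')
    rw [hkap _ (hφ n).1]
    exact cv_cont hκ (hφ n).1.continuous (hφ n).2.2.1
  · rw [integrable_indicator_iff hset]
    exact integrableOn_const hfin
  · intro n
    refine Eventually.of_forall fun z => ?_
    rw [norm_mul]
    by_cases hz : 1 ≤ |z.2|
    · have h1 := hzero _ _ (hφ n) z (by have := hr n; linarith)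
      rw [h1, norm_zero, zero_mul]
      exact indicator_nonneg (fun _ _ => mul_nonneg hCn (abs_nonneg B)) z
    · have h2 : z ∈ (univ : Set S) ×ˢ Icc (-1 : ℝ) 1 :=
        ⟨mem_univ _, abs_le.1 (not_le.1 hz).le⟩
      rw [indicator_of_mem h2]
      have h4 : ‖Ψ0 z‖ ≤ |B| := (hB z).1.trans (le_abs_self B)
      refine mul_le_mul ?_ h4 (norm_nonneg _) hCn
      rw [Real.norm_eq_abs, hkap _ (hφ n).1]
      have h3 := cv_near hκ (hφ n) z 0 C (fun s _ => by
        rw [sub_zero]
        exact hC _)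
      rw [sub_zero] at h3
      exact h3
  · refine Eventually.of_forall fun z => ?_
    refine Tendsto.mul ?_ tendsto_const_nhds
    rw [Metric.tendsto_atTop]
    intro ε hε
    have h1 : ContinuousAt (fun s : ℝ => k0 θ F σ (z.1, z.2 - s)) 0 :=
      (hκ.comp (by fun_prop)).continuousAt
    obtain ⟨δ, hδ, hδ2⟩ := Metric.continuousAt_iff.1 h1 (ε / 2) (by positivity)
    obtain ⟨N, hN⟩ := exists_nat_gt (1 / δ)
    refine ⟨N, fun n hn => ?_⟩
    rw [Real.dist_eq, hkap _ (hφ n).1]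
    have h2 := cv_near hκ (hφ n) z (k0 θ F σ z) (ε / 2) (fun s hs => by
      have h3 : |s| < δ := by
        refine hs.trans ?_
        rw [div_lt_comm₀ (by positivity) hδ]
        have : (N : ℝ) ≤ n := by exact_mod_cast hn
        linarith
      have h4 := hδ2 (x := s) (by rw [Real.dist_eq, sub_zero]; exact h3)
      rw [Real.dist_eq, sub_zero] at h4
      exact h4.le)
    exact h2.trans_lt (by linarith)

end Pool.Agent.QWF
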