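import Pool.Agent.QWF.StA2

set_option autoImplicit false

/-!
# QWF NFc (MP_9ce95b_an): pointwise bounds of the regularised near field
-/

open MeasureTheory Filter Topology Set
open scoped ENNReal NNReal RealInnerProductSpace

namespace Pool.Agent.QWF.NFcx

/-- the product measure on `S × E`. -/
noncomputable abbrev nu : Measure (S × E) := sg.prod (volume : Measure E)

/-- basic integrals. -/
noncomputable def GG (h : S × E → ℝ) (σ : ℝ) (ψ : ℝ → ℝ) (x : E) : ℝ :=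
  ∫ z : S × E, h z * ψ (inner ℝ (x - z.2) (z.1 : E) + σ) ∂nu

lemma bdd_of_cs {X : Type*} [TopologicalSpace X] {f : X → ℝ} (hf : Continuous f)
    (hc : HasCompactSupport f) : ∃ C : ℝ, 0 ≤ C ∧ ∀ x, |f x| ≤ C := by
  obtain ⟨C, hC⟩ := hf.bounded_above_of_compact_support hc
  refine ⟨|C|, abs_nonneg _, fun x => ?_⟩
  have := hC x
  rw [Real.norm_eq_abs] at this
  exact this.trans (le_abs_self _)

lemma sm_cont {ψ : ℝ → ℝ} (h : Sm ψ) : Continuous ψ := ContDiff.continuous h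

lemma sm_deriv {ψ : ℝ → ℝ} (h : Sm ψ) : Sm (deriv ψ) := by
  have h1 : ContDiff ℝ (((⊤ : ℕ∞) : WithTop ℕ∞) + 1) ψ := h
  exact (contDiff_succ_iff_deriv.1 h1).2.2

lemma sm_hasDerivAt {ψ : ℝ → ℝ} (h : Sm ψ) (t : ℝ) : HasDerivAt ψ (deriv ψ t) t := by
  have h1 : Differentiable ℝ ψ := ContDiff.differentiable h (by simp)
  exact (h1 t).hasDerivAt

lemma single_inner (w : E) (i : Fin 4) : inner ℝ w (EuclideanSpace.single i (1 : ℝ)) = w i := by
  simp [EuclideanSpace.inner_single_right]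

/-- all derivatives are bounded -/
def BD (ψ : ℝ → ℝ) : Prop := ∀ n : ℕ, ∃ C : ℝ, 0 ≤ C ∧ ∀ t, |iteratedDeriv n ψ t| ≤ C

lemma BD_deriv {ψ : ℝ → ℝ} (h : BD ψ) : BD (deriv ψ) := by
  intro n
  obtain ⟨C, hC0, hC⟩ := h (n + 1)
  refine ⟨C, hC0, fun t => ?_⟩
  rw [← iteratedDeriv_succ']
  exact hC t

lemma BD_iter {ψ : ℝ → ℝ} (h : BD ψ) (n : ℕ) : BD (iteratedDeriv n ψ) := by
  induction n with
  | zero => simpa [iteratedDeriv_zero] using h
  | succ n ih => rw [iteratedDeriv_succ]; exact BD_deriv ih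

lemma GG_hasFDerivAt (h : S × E → ℝ) (σ : ℝ) (ψ : ℝ → ℝ) (hh : Continuous h)
    (hhc : HasCompactSupport h) (hψ : Sm ψ) (hψc : BD ψ) (x : E) :
    HasFDerivAt (GG h σ ψ) (∑ i : Fin 4, GG (fun z => h z * (z.1 : E) i) σ (deriv ψ) x •
      (EuclideanSpace.proj i : E →L[ℝ] ℝ)) x := by
  obtain ⟨C, hC0, hC⟩ := hψc 1
  rw [iteratedDeriv_one] at hC
  have hint : Integrable h nu := hh.integrable_of_hasCompactSupport hhc
  have hψ1 : Continuous ψ := sm_cont hψ
  have hψ2 : Continuous (deriv ψ) := sm_cont (sm_deriv hψ)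
  have key := hasFDerivAt_integral_of_dominated_of_fderiv_le (𝕜 := ℝ) (μ := nu)
    (F := fun (x : E) (z : S × E) => h z * ψ (inner ℝ (x - z.2) (z.1 : E) + σ))
    (F' := fun (x : E) (z : S × E) =>
      (h z * deriv ψ (inner ℝ (x - z.2) (z.1 : E) + σ)) • innerSL ℝ (z.1 : E))
    (x₀ := x) (bound := fun z => |h z| * C) (s := univ) univ_mem
    (Eventually.of_forall fun x' => by
      apply Continuous.aestronglyMeasurable
      fun_prop)
    (by
      refine Continuous.integrable_of_hasCompactSupport (by fun_prop) ?_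
      exact hhc.mul_right)
    (by
      apply Continuous.aestronglyMeasurable
      fun_prop)
    (Eventually.of_forall fun z x' _ => by
      rw [norm_smul, innerSL_apply_norm, Real.norm_eq_abs, abs_mul]
      have hz : ‖(z.1 : E)‖ = 1 := by simp
      rw [hz, mul_one]
      exact mul_le_mul_of_nonneg_left (hC _) (abs_nonneg _))
    (hint.abs.mul_const C)
    (Eventually.of_forall fun z x' _ => by
      have h1 : HasFDerivAt (fun x' : E => inner ℝ (x' - z.2) (z.1 : E) + σ)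
          (innerSL ℝ (z.1 : E)) x' := by
        have h2 : (fun x' : E => inner ℝ (x' - z.2) (z.1 : E) + σ) =
            fun x' : E => innerSL ℝ (z.1 : E) x' + (- inner ℝ z.2 (z.1 : E) + σ) := by
          funext x'
          rw [inner_sub_left, innerSL_apply_apply, real_inner_comm x' (z.1 : E)]
          ring
        rw [h2]
        exact (innerSL ℝ (z.1 : E)).hasFDerivAt.add_const _
      have h3 := (sm_hasDerivAt hψ (inner ℝ (x' - z.2) (z.1 : E) + σ)).comp_hasFDerivAt x' h1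
      have h4 := h3.const_mul (h z)
      rw [smul_smul] at h4
      exact h4)
  have hint2 : Integrable (fun z : S × E =>
      (h z * deriv ψ (inner ℝ (x - z.2) (z.1 : E) + σ)) • innerSL ℝ (z.1 : E)) nu := by
    refine Continuous.integrable_of_hasCompactSupport (by fun_prop) ?_
    exact (hhc.mul_right).smul_right
  have he : (∑ i : Fin 4, GG (fun z => h z * (z.1 : E) i) σ (deriv ψ) x •
      (EuclideanSpace.proj i : E →L[ℝ] ℝ)) =
      ∫ z : S × E, (h z * deriv ψ (inner ℝ (x - z.2) (z.1 : E) + σ)) •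
        innerSL ℝ (z.1 : E) ∂nu := by
    ext v
    rw [ContinuousLinearMap.integral_apply hint2]
    simp only [_root_.sum_apply, _root_.smul_apply,
      innerSL_apply_apply, smul_eq_mul, GG]
    have h5 : ∀ z : S × E, h z * deriv ψ (inner ℝ (x - z.2) (z.1 : E) + σ) *
        inner ℝ (z.1 : E) v = ∑ i : Fin 4, (h z * (z.1 : E) i *
          deriv ψ (inner ℝ (x - z.2) (z.1 : E) + σ)) * v i := by
      intro z
      have h6 : inner ℝ (z.1 : E) v = ∑ i : Fin 4, (z.1 : E) i * v i := by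
        rw [PiLp.inner_apply]
        apply Finset.sum_congr rfl
        intro i _
        simp [mul_comm]
      rw [h6, Finset.mul_sum]
      apply Finset.sum_congr rfl
      intro i _
      ring
    simp_rw [h5]
    rw [integral_finsetSum]
    · apply Finset.sum_congr rfl
      intro i _
      rw [integral_mul_const]
      rfl
    · intro i _
      refine Integrable.mul_const ?_ _
      refine Continuous.integrable_of_hasCompactSupport (by fun_prop) ?_
      exact (hhc.mul_right).mul_right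
  rw [he]
  exact key

lemma GG_pd (h : S × E → ℝ) (σ : ℝ) (ψ : ℝ → ℝ) (hh : Continuous h)
    (hhc : HasCompactSupport h) (hψ : Sm ψ) (hψc : BD ψ) (i : Fin 4) (x : E) :
    pd i (GG h σ ψ) x = GG (fun z => h z * (z.1 : E) i) σ (deriv ψ) x := by
  rw [pd, (GG_hasFDerivAt h σ ψ hh hhc hψ hψc x).fderiv]
  simp only [_root_.sum_apply, _root_.smul_apply, smul_eq_mul]
  rw [Finset.sum_eq_single i]
  · simp
  · intro j _ hj
    have h1 : (EuclideanSpace.proj j : E →L[ℝ] ℝ) (EuclideanSpace.single i (1 : ℝ)) = 0 := by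
      simp [hj]
    rw [h1, mul_zero]
  · simp

lemma GG_contDiff_nat (n : ℕ) : ∀ (h : S × E → ℝ) (σ : ℝ) (ψ : ℝ → ℝ), Continuous h →
    HasCompactSupport h → Sm ψ → BD ψ → ContDiff ℝ n (GG h σ ψ) := by
  induction n with
  | zero =>
    intro h σ ψ hh hhc hψ hψc
    have h1 : Continuous (GG h σ ψ) := continuous_iff_continuousAt.2 fun x =>
      (GG_hasFDerivAt h σ ψ hh hhc hψ hψc x).continuousAt
    exact_mod_cast contDiff_zero.2 h1
  | succ n ih =>
    intro h σ ψ hh hhc hψ hψc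
    have h1 : ContDiff ℝ ((n : WithTop ℕ∞) + 1) (GG h σ ψ) := by
      rw [contDiff_succ_iff_fderiv]
      refine ⟨fun x => (GG_hasFDerivAt h σ ψ hh hhc hψ hψc x).differentiableAt, by simp, ?_⟩
      have h2 : fderiv ℝ (GG h σ ψ) = fun x => ∑ i : Fin 4,
          GG (fun z => h z * (z.1 : E) i) σ (deriv ψ) x •
          (EuclideanSpace.proj i : E →L[ℝ] ℝ) := by
        funext x
        exact (GG_hasFDerivAt h σ ψ hh hhc hψ hψc x).fderiv
      rw [h2]
      apply ContDiff.sum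
      intro i _
      exact (ih _ σ _ (by fun_prop) hhc.mul_right (sm_deriv hψ) (BD_deriv hψc)).smul contDiff_const
    exact_mod_cast h1

lemma GG_SmE (h : S × E → ℝ) (σ : ℝ) (ψ : ℝ → ℝ) (hh : Continuous h)
    (hhc : HasCompactSupport h) (hψ : Sm ψ) (hψc : BD ψ) : SmE (GG h σ ψ) :=
  contDiff_infty.2 fun n => GG_contDiff_nat n h σ ψ hh hhc hψ hψc

lemma sm_iter {ψ : ℝ → ℝ} (h : Sm ψ) (n : ℕ) : Sm (iteratedDeriv n ψ) := by
  induction n with
  | zero => simpa [iteratedDeriv_zero] using h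
  | succ n ih => rw [iteratedDeriv_succ]; exact sm_deriv ih

lemma cs_iter {ψ : ℝ → ℝ} (h : HasCompactSupport ψ) (n : ℕ) :
    HasCompactSupport (iteratedDeriv n ψ) := by
  induction n with
  | zero => simpa [iteratedDeriv_zero] using h
  | succ n ih => rw [iteratedDeriv_succ]; exact ih.deriv

lemma iter_deriv (ψ : ℝ → ℝ) (n : ℕ) : iteratedDeriv n (deriv ψ) = deriv (iteratedDeriv n ψ) := by
  rw [← iteratedDeriv_succ', iteratedDeriv_succ]

lemma cs_of_zero {ψ : ℝ → ℝ} (r : ℝ) (h : ∀ p, r ≤ |p| → ψ p = 0) : HasCompactSupport ψ := by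
  refine HasCompactSupport.intro (isCompact_Icc (a := -r) (b := r)) fun p hp => h p ?_
  by_contra h1
  push Not at h1
  exact hp ⟨(abs_lt.1 h1).1.le, (abs_lt.1 h1).2.le⟩

lemma cs_F {F : E → ℝ} (hF : HasCompactSupport F) :
    HasCompactSupport (fun z : S × E => F z.2) := by
  refine HasCompactSupport.intro (K := univ ×ˢ tsupport F) (isCompact_univ.prod hF)
    fun z hz => ?_
  apply image_eq_zero_of_notMem_tsupport
  intro h1
  exact hz ⟨mem_univ _, h1⟩

/-- coefficients. -/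
noncomputable def cf (j : ℕ) : ℝ := (Nat.choose 2 j : ℝ) * (-1) ^ (j + 1)

/-- the density for `GG`. -/
noncomputable def hj (a : E → ℝ) (θ : ℝ → ℝ) (F : E → ℝ) (σ : ℝ) (j : ℕ) (z : S × E) : ℝ :=
  a (z.1 : E) * (F z.2 * iteratedDeriv j θ (inner ℝ z.2 (z.1 : E) - σ))

lemma hj_cont {a : E → ℝ} {θ : ℝ → ℝ} {F : E → ℝ} (σ : ℝ) (j : ℕ) (ha : Continuous a)
    (hθ : Sm θ) (hF : Continuous F) : Continuous (hj a θ F σ j) := by
  unfold hj
  have h1 : Continuous (iteratedDeriv j θ) := sm_cont (sm_iter hθ j)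
  fun_prop

lemma hj_cs (a : E → ℝ) (θ : ℝ → ℝ) {F : E → ℝ} (σ : ℝ) (j : ℕ)
    (hF : HasCompactSupport F) : HasCompactSupport (hj a θ F σ j) := by
  unfold hj
  exact ((cs_F hF).mul_right).mul_left

/-! ### pointwise bounds -/

lemma iter_bdd_ball {a : E → ℝ} (ha : SmE a) (m : ℕ) :
    ∃ A : ℝ, 0 ≤ A ∧ ∀ ξ : E, ‖ξ‖ ≤ 1 → ‖iteratedFDeriv ℝ m a ξ‖ ≤ A := by
  have h1 : Continuous (fun ξ => ‖iteratedFDeriv ℝ m a ξ‖) :=
    (ContDiff.continuous_iteratedFDeriv (m := m) (by exact_mod_cast le_top) ha).norm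
  obtain ⟨A, hA⟩ := (isCompact_closedBall (0 : E) 1).bddAbove_image h1.continuousOn
  refine ⟨|A|, abs_nonneg _, fun ξ hξ => ?_⟩
  have h2 := hA (mem_image_of_mem _ (by simpa using hξ : ξ ∈ Metric.closedBall (0 : E) 1))
  exact h2.trans (le_abs_self _)

lemma iter_bdd_theta {θ : ℝ → ℝ} (hθ : Sm θ) (hθc : HasCompactSupport θ) (j m : ℕ) :
    ∃ A : ℝ, 0 ≤ A ∧ ∀ (y : E) (σ : ℝ), ‖y‖ ≤ 1 → ∀ ξ : E,
      ‖iteratedFDeriv ℝ m (fun ξ : E => iteratedDeriv j θ (inner ℝ y ξ - σ)) ξ‖ ≤ A := by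
  have h0 : Sm (iteratedDeriv j θ) := sm_iter hθ j
  have h1 : Continuous (fun s => ‖iteratedFDeriv ℝ m (iteratedDeriv j θ) s‖) :=
    (ContDiff.continuous_iteratedFDeriv (m := m) (by exact_mod_cast le_top) h0).norm
  have h2 : HasCompactSupport (fun s => ‖iteratedFDeriv ℝ m (iteratedDeriv j θ) s‖) :=
    ((cs_iter hθc j).iteratedFDeriv m).norm
  obtain ⟨A, hA0, hA⟩ := bdd_of_cs h1 h2
  refine ⟨A, hA0, fun y σ hy ξ => ?_⟩
  have h3 : (fun ξ : E => iteratedDeriv j θ (inner ℝ y ξ - σ)) =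
      (fun s => iteratedDeriv j θ (s - σ)) ∘ (innerSL ℝ y) := by
    funext ξ
    simp
  have h4 : ContDiff ℝ m (fun s => iteratedDeriv j θ (s - σ)) := by
    have h5 : ContDiff ℝ m (iteratedDeriv j θ) := ContDiff.of_le h0 (by exact_mod_cast le_top)
    exact h5.comp (contDiff_id.sub contDiff_const)
  rw [h3, ContinuousLinearMap.iteratedFDeriv_comp_right _ h4 _ le_rfl]
  refine (ContinuousMultilinearMap.norm_compContinuousLinearMap_le _ _).trans ?_
  have h6 : iteratedFDeriv ℝ m (fun s => iteratedDeriv j θ (s - σ)) (innerSL ℝ y ξ) =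
      iteratedFDeriv ℝ m (iteratedDeriv j θ) (innerSL ℝ y ξ - σ) := by
    rw [iteratedFDeriv_comp_sub]
  rw [h6]
  have h7 : ∏ _i : Fin m, ‖innerSL ℝ y‖ ≤ 1 := by
    rw [innerSL_apply_norm]
    exact Finset.prod_le_one (fun _ _ => norm_nonneg _) (fun _ _ => hy)
  have h8 := hA (innerSL ℝ y ξ - σ)
  rw [abs_of_nonneg (norm_nonneg _)] at h8
  calc _ ≤ A * 1 := by
        apply mul_le_mul h8 h7 (Finset.prod_nonneg fun _ _ => norm_nonneg _) hA0
    _ = A := mul_one _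

lemma bb_bound {a : E → ℝ} {θ : ℝ → ℝ} (ha : SmE a) (hθ : Sm θ) (hθc : HasCompactSupport θ)
    (j n : ℕ) : ∃ B : ℝ, ∀ (y : E) (σ : ℝ), ‖y‖ ≤ 1 → ∀ m ≤ n, ∀ ξ : E, ‖ξ‖ ≤ 1 →
      ‖iteratedFDeriv ℝ m (fun ξ : E => a ξ * iteratedDeriv j θ (inner ℝ y ξ - σ)) ξ‖ ≤ B := by
  choose A hA0 hA using fun m => iter_bdd_ball ha m
  choose D hD0 hD using fun m => iter_bdd_theta hθ hθc j m
  refine ⟨∑ m ∈ Finset.range (n + 1), ∑ i ∈ Finset.range (m + 1),
    (m.choose i : ℝ) * A i * D (m - i), fun y σ hy m hm ξ hξ => ?_⟩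
  have h1 : ContDiff ℝ m a := ContDiff.of_le ha (by exact_mod_cast le_top)
  have h2 : ContDiff ℝ m (fun ξ : E => iteratedDeriv j θ (inner ℝ y ξ - σ)) := by
    have h3 : ContDiff ℝ m (iteratedDeriv j θ) :=
      ContDiff.of_le (sm_iter hθ j) (by exact_mod_cast le_top)
    exact h3.comp ((contDiff_const.inner ℝ contDiff_id).sub contDiff_const)
  refine (norm_iteratedFDeriv_mul_le (n := m) h1 h2 ξ le_rfl).trans ?_
  have h4 : ∑ i ∈ Finset.range (m + 1), (m.choose i : ℝ) * ‖iteratedFDeriv ℝ i a ξ‖ *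
      ‖iteratedFDeriv ℝ (m - i) (fun ξ : E => iteratedDeriv j θ (inner ℝ y ξ - σ)) ξ‖ ≤
      ∑ i ∈ Finset.range (m + 1), (m.choose i : ℝ) * A i * D (m - i) := by
    apply Finset.sum_le_sum
    intro i _
    apply mul_le_mul _ (hD (m - i) y σ hy ξ) (norm_nonneg _)
      (mul_nonneg (Nat.cast_nonneg _) (hA0 i))
    exact mul_le_mul_of_nonneg_left (hA i ξ hξ) (Nat.cast_nonneg _)
  refine h4.trans ?_
  apply Finset.single_le_sum (f := fun m => ∑ i ∈ Finset.range (m + 1),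
    (m.choose i : ℝ) * A i * D (m - i)) _ (Finset.mem_range.2 (by omega))
  intro m' _
  apply Finset.sum_nonneg
  intro i _
  exact mul_nonneg (mul_nonneg (Nat.cast_nonneg _) (hA0 i)) (hD0 _)

/-- the bound of the basic integrals outside the ball. -/
lemma GG_bound (hN : St_NFK) (hT : ∀ φ : ℝ → ℝ, IsMol (1 / 100) φ → Sm (HT φ)) {a : E → ℝ} {θ : ℝ → ℝ} (ha : SmE a) (hθ : Sm θ)
    (hθc : HasCompactSupport θ) (j n : ℕ) :
    ∃ C : ℝ, 0 ≤ C ∧ ∀ (F : E → ℝ) (σ : ℝ) (φ : ℝ → ℝ), IsTest F →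
      (∀ x, 1 / 3 ≤ ‖x‖ → F x = 0) → 0 ≤ σ → σ ≤ 1 / 8 → IsMol (1 / 100) φ →
      ∀ x : E, 3 / 4 ≤ ‖x‖ →
        |GG (hj a θ F σ j) σ (iteratedDeriv n (HT φ)) x| ≤
          C * (∫ x, |F x|) / (1 + ‖x‖) ^ (n + 1) := by
  obtain ⟨B, hB⟩ := bb_bound ha hθ hθc j (n + 1)
  obtain ⟨C, hC⟩ := hN n B
  refine ⟨|C| * 5 ^ (n + 1), by positivity, fun F σ φ hF hF3 hσ0 hσ1 hφ x hx => ?_⟩
  have hΦ := hT φ hφ
  have hFc : Continuous F := hF.1.continuous
  have hcont : Continuous fun z : S × E => hj a θ F σ j z *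
      iteratedDeriv n (HT φ) (inner ℝ (x - z.2) (z.1 : E) + σ) := by
    have h1 := hj_cont (a := a) σ j (ContDiff.continuous ha) hθ hFc
    have h2 : Continuous (iteratedDeriv n (HT φ)) := sm_cont (sm_iter hΦ n)
    fun_prop
  have hcs : HasCompactSupport fun z : S × E => hj a θ F σ j z *
      iteratedDeriv n (HT φ) (inner ℝ (x - z.2) (z.1 : E) + σ) := (hj_cs a θ σ j hF.2).mul_right
  have hint := hcont.integrable_of_hasCompactSupport (μ := nu) hcs
  have h1 : GG (hj a θ F σ j) σ (iteratedDeriv n (HT φ)) x =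
      ∫ y : E, F y * ∫ w : S, (a w * iteratedDeriv j θ (inner ℝ y (w : E) - σ)) *
        iteratedDeriv n (HT φ) (inner ℝ (x - y) (w : E) + σ) ∂sg := by
    unfold GG
    rw [integral_prod_symm _ hint]
    apply integral_congr_ae
    refine Eventually.of_forall fun y => ?_
    simp only [hj]
    rw [← integral_const_mul]
    apply integral_congr_ae
    refine Eventually.of_forall fun w => ?_
    simp only
    ring
  have hx1 : 0 < (1 + ‖x‖) ^ (n + 1) := by positivity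
  have h2 : ∀ y : E, |F y * ∫ w : S, (a w * iteratedDeriv j θ (inner ℝ y (w : E) - σ)) *
        iteratedDeriv n (HT φ) (inner ℝ (x - y) (w : E) + σ) ∂sg| ≤
        |F y| * (|C| * 5 ^ (n + 1) / (1 + ‖x‖) ^ (n + 1)) := by
    intro y
    rw [abs_mul]
    by_cases hy : 1 / 3 ≤ ‖y‖
    · rw [hF3 y hy, abs_zero, zero_mul, zero_mul]
    · push Not at hy
      apply mul_le_mul_of_nonneg_left _ (abs_nonneg _)
      have h3 : ‖x‖ ≤ ‖x - y‖ + ‖y‖ := by
        calc ‖x‖ = ‖(x - y) + y‖ := by rw [sub_add_cancel]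
          _ ≤ _ := norm_add_le _ _
      have h4 : 5 / 12 ≤ ‖x - y‖ := by linarith
      have h5 : (1 + ‖x‖) / 5 ≤ ‖x - y‖ := by linarith
      have hb : SmE (fun ξ : E => a ξ * iteratedDeriv j θ (inner ℝ y ξ - σ)) := by
        have h6 : Sm (iteratedDeriv j θ) := sm_iter hθ j
        have h7 : ContDiff ℝ ((⊤ : ℕ∞) : WithTop ℕ∞)
            (fun ξ : E => iteratedDeriv j θ (inner ℝ y ξ - σ)) :=
          ContDiff.comp (g := iteratedDeriv j θ) h6
            ((contDiff_const.inner ℝ contDiff_id).sub contDiff_const)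
        exact ContDiff.mul ha h7
      have h8 := hC (fun ξ : E => a ξ * iteratedDeriv j θ (inner ℝ y ξ - σ)) hb
        (fun m hm ξ hξ => hB y σ (by linarith) m hm ξ hξ) φ hφ (x - y) σ h4
        hσ0 hσ1
      refine h8.trans ?_
      calc C / ‖x - y‖ ^ (n + 1) ≤ |C| / ‖x - y‖ ^ (n + 1) := by
            gcongr
            exact le_abs_self _
        _ ≤ |C| / ((1 + ‖x‖) / 5) ^ (n + 1) := by
            gcongr
        _ = |C| * 5 ^ (n + 1) / (1 + ‖x‖) ^ (n + 1) := by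
            rw [div_pow]
            field_simp
  rw [h1]
  have hFi : Integrable (fun y => |F y|) := (hFc.integrable_of_hasCompactSupport hF.2).abs
  rw [← Real.norm_eq_abs]
  calc ‖∫ y : E, F y * ∫ w : S, (a w * iteratedDeriv j θ (inner ℝ y (w : E) - σ)) *
        iteratedDeriv n (HT φ) (inner ℝ (x - y) (w : E) + σ) ∂sg‖
      ≤ ∫ y : E, |F y| * (|C| * 5 ^ (n + 1) / (1 + ‖x‖) ^ (n + 1)) := by
        apply norm_integral_le_of_norm_le (hFi.mul_const _)
        exact Eventually.of_forall fun y => by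
          rw [Real.norm_eq_abs]
          exact h2 y
    _ = |C| * 5 ^ (n + 1) * (∫ x, |F x|) / (1 + ‖x‖) ^ (n + 1) := by
        rw [integral_mul_const]
        ring

/-- combination of the basic integrals. -/
noncomputable def ua (θ : ℝ → ℝ) (F : E → ℝ) (σ : ℝ) (φ : ℝ → ℝ) (a : E → ℝ) (m : ℕ)
    (x : E) : ℝ :=
  ∑ j ∈ Finset.range 3, c0 * cf j * GG (hj a θ F σ j) σ (iteratedDeriv (2 - j + m) φ) x

lemma ua_SmE {θ : ℝ → ℝ} {F : E → ℝ} {φ : ℝ → ℝ} {a : E → ℝ} (σ : ℝ) (m : ℕ) (ha : Continuous a)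
    (hθ : Sm θ) (hF : Continuous F) (hFc : HasCompactSupport F) (hφ : Sm φ)
    (hφc : BD φ) : SmE (ua θ F σ φ a m) := by
  unfold ua SmE
  apply ContDiff.sum
  intro j _
  exact contDiff_const.mul (GG_SmE _ σ _ (hj_cont σ j ha hθ hF) (hj_cs a θ σ j hFc)
    (sm_iter hφ _) (BD_iter hφc _))

lemma ua_pd {θ : ℝ → ℝ} {F : E → ℝ} {φ : ℝ → ℝ} {a : E → ℝ} (σ : ℝ) (m : ℕ) (ha : Continuous a)
    (hθ : Sm θ) (hF : Continuous F) (hFc : HasCompactSupport F) (hφ : Sm φ)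
    (hφc : BD φ) (i : Fin 4) :
    pd i (ua θ F σ φ a m) = ua θ F σ φ (fun ξ => a ξ * ξ i) (m + 1) := by
  funext x
  have h1 : ∀ j ∈ Finset.range 3, HasFDerivAt (fun x => c0 * cf j *
      GG (hj a θ F σ j) σ (iteratedDeriv (2 - j + m) φ) x)
      ((c0 * cf j) • fderiv ℝ (GG (hj a θ F σ j) σ (iteratedDeriv (2 - j + m) φ)) x) x := by
    intro j _
    apply HasFDerivAt.const_mul
    exact (GG_hasFDerivAt _ σ _ (hj_cont σ j ha hθ hF) (hj_cs a θ σ j hFc) (sm_iter hφ _)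
      (BD_iter hφc _) x).differentiableAt.hasFDerivAt
  have h2 := HasFDerivAt.fun_sum h1
  have h3 : fderiv ℝ (ua θ F σ φ a m) x = ∑ j ∈ Finset.range 3, (c0 * cf j) •
      fderiv ℝ (GG (hj a θ F σ j) σ (iteratedDeriv (2 - j + m) φ)) x := h2.fderiv
  rw [pd, h3, _root_.sum_apply, ua]
  apply Finset.sum_congr rfl
  intro j _
  rw [_root_.smul_apply, smul_eq_mul]
  congr 1
  have h4 := GG_pd (hj a θ F σ j) σ (iteratedDeriv (2 - j + m) φ) (hj_cont σ j ha hθ hF)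
    (hj_cs a θ σ j hFc) (sm_iter hφ _) (BD_iter hφc _) i x
  rw [pd] at h4
  rw [h4, ← iteratedDeriv_succ]
  have h5 : (fun z : S × E => hj a θ F σ j z * (z.1 : E) i) =
      hj (fun ξ => a ξ * ξ i) θ F σ j := by
    funext z
    simp only [hj]
    ring
  rw [h5, add_assoc]

lemma ua_bound (hN : St_NFK) (hT : ∀ φ : ℝ → ℝ, IsMol (1 / 100) φ → Sm (HT φ)) {a : E → ℝ} {θ : ℝ → ℝ} (ha : SmE a) (hθ : Sm θ)
    (hθc : HasCompactSupport θ) (m : ℕ) :
    ∃ C : ℝ, 0 ≤ C ∧ ∀ (F : E → ℝ) (σ : ℝ) (φ : ℝ → ℝ), IsTest F →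
      (∀ x, 1 / 3 ≤ ‖x‖ → F x = 0) → 0 ≤ σ → σ ≤ 1 / 8 → IsMol (1 / 100) φ →
      ∀ x : E, 3 / 4 ≤ ‖x‖ →
        |ua θ F σ (HT φ) a m x| ≤ C * (∫ x, |F x|) / (1 + ‖x‖) ^ (m + 1) := by
  choose C hC0 hC using fun j => GG_bound hN hT ha hθ hθc j (2 - j + m)
  refine ⟨∑ j ∈ Finset.range 3, |c0 * cf j| * C j, Finset.sum_nonneg fun j _ =>
    mul_nonneg (abs_nonneg _) (hC0 j), fun F σ φ hF hF3 hσ0 hσ1 hφ x hx => ?_⟩
  have hF0 : 0 ≤ ∫ x, |F x| := integral_nonneg fun _ => abs_nonneg _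
  rw [ua]
  refine (Finset.abs_sum_le_sum_abs _ _).trans ?_
  rw [Finset.sum_mul, Finset.sum_div]
  apply Finset.sum_le_sum
  intro j _
  rw [abs_mul]
  have h1 := hC j F σ φ hF hF3 hσ0 hσ1 hφ x hx
  have h2 : C j * (∫ x, |F x|) / (1 + ‖x‖) ^ (2 - j + m + 1) ≤
      C j * (∫ x, |F x|) / (1 + ‖x‖) ^ (m + 1) := by
    apply div_le_div_of_nonneg_left (mul_nonneg (hC0 j) hF0) (by positivity)
    apply pow_le_pow_right₀ _ (by omega)
    have := norm_nonneg x
    linarith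
  calc |c0 * cf j| * |GG (hj a θ F σ j) σ (iteratedDeriv (2 - j + m) (HT φ)) x|
      ≤ |c0 * cf j| * (C j * (∫ x, |F x|) / (1 + ‖x‖) ^ (m + 1)) :=
        mul_le_mul_of_nonneg_left (h1.trans h2) (abs_nonneg _)
    _ = |c0 * cf j| * C j * (∫ x, |F x|) / (1 + ‖x‖) ^ (m + 1) := by ring

lemma coord_SmE (i : Fin 4) : SmE (fun ξ : E => ξ i) :=
  (EuclideanSpace.proj i : E →L[ℝ] ℝ).contDiff

lemma smE_diff {f : E → ℝ} (h : SmE f) (x : E) : DifferentiableAt ℝ f x :=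
  (ContDiff.differentiable h (by simp)) x

lemma smE_pd {f : E → ℝ} (h : SmE f) (i : Fin 4) : SmE (pd i f) := by
  have h1 : ContDiff ℝ ((⊤ : ℕ∞) : WithTop ℕ∞) (fderiv ℝ f) := (contDiff_infty_iff_fderiv.1 h).2
  exact h1.clm_apply contDiff_const

/-- multiples of the coordinate functionals -/
noncomputable def LL (i : Fin 4) : ℝ →L[ℝ] (E →L[ℝ] ℝ) :=
  ContinuousLinearMap.toSpanSingleton ℝ (EuclideanSpace.proj i : E →L[ℝ] ℝ)

lemma fderiv_eq_sum (f : E → ℝ) (y : E) :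
    fderiv ℝ f y = ∑ i : Fin 4, (LL i ∘ pd i f) y := by
  ext v
  have hv : v = ∑ i : Fin 4, v i • EuclideanSpace.single i (1 : ℝ) := by
    ext j
    simp [Fin.sum_univ_four]
    fin_cases j <;> simp
  rw [_root_.sum_apply]
  conv_lhs => rw [hv, map_sum]
  apply Finset.sum_congr rfl
  intro i _
  rw [map_smul]
  simp only [LL, Function.comp, ContinuousLinearMap.toSpanSingleton_apply, smul_eq_mul, pd,
    _root_.smul_apply]
  exact mul_comm _ _

lemma norm_proj_le (i : Fin 4) : ‖(EuclideanSpace.proj i : E →L[ℝ] ℝ)‖ ≤ 1 := by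
  refine ContinuousLinearMap.opNorm_le_bound _ zero_le_one fun x => ?_
  rw [one_mul]
  exact PiLp.norm_apply_le x i

lemma norm_LL_le (i : Fin 4) : ‖LL i‖ ≤ 1 := by
  unfold LL
  rw [ContinuousLinearMap.norm_toSpanSingleton]
  exact norm_proj_le i

lemma iter_succ_le {f : E → ℝ} (hf : SmE f) (n : ℕ) (x : E) :
    ‖iteratedFDeriv ℝ (n + 1) f x‖ ≤ ∑ i : Fin 4, ‖iteratedFDeriv ℝ n (pd i f) x‖ := by
  rw [← norm_iteratedFDeriv_fderiv]
  have h1 : fderiv ℝ f = fun y => ∑ i : Fin 4, (LL i ∘ pd i f) y := funext (fderiv_eq_sum f)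
  rw [h1, iteratedFDeriv_fun_sum_apply]
  · refine (norm_sum_le _ _).trans (Finset.sum_le_sum fun i _ => ?_)
    have h2 : ContDiffAt ℝ ((⊤ : ℕ∞) : WithTop ℕ∞) (pd i f) x := (smE_pd hf i).contDiffAt
    refine ((LL i).norm_iteratedFDeriv_comp_left h2 (n := n) (by exact_mod_cast le_top)).trans ?_
    calc ‖LL i‖ * ‖iteratedFDeriv ℝ n (pd i f) x‖ ≤ 1 * ‖iteratedFDeriv ℝ n (pd i f) x‖ :=
          mul_le_mul_of_nonneg_right (norm_LL_le i) (norm_nonneg _)
      _ = _ := one_mul _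
  · intro i _
    have h2 : ContDiff ℝ (n : WithTop ℕ∞) (pd i f) :=
      ContDiff.of_le (smE_pd hf i) (by exact_mod_cast le_top)
    exact ((LL i).contDiff.comp h2).contDiffAt

lemma ua_iter (hN : St_NFK) (hT : ∀ φ : ℝ → ℝ, IsMol (1 / 100) φ → Sm (HT φ))
    (hTb : ∀ φ : ℝ → ℝ, IsMol (1 / 100) φ → BD (HT φ)) {θ : ℝ → ℝ} (hθ : Sm θ) (hθc : HasCompactSupport θ)
    (n : ℕ) : ∀ (a : E → ℝ) (m : ℕ), SmE a →
    ∃ C : ℝ, 0 ≤ C ∧ ∀ (F : E → ℝ) (σ : ℝ) (φ : ℝ → ℝ), IsTest F →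
      (∀ x, 1 / 3 ≤ ‖x‖ → F x = 0) → 0 ≤ σ → σ ≤ 1 / 8 → IsMol (1 / 100) φ →
      ∀ x : E, 3 / 4 ≤ ‖x‖ →
        ‖iteratedFDeriv ℝ n (ua θ F σ (HT φ) a m) x‖ ≤ C * (∫ x, |F x|) / (1 + ‖x‖) ^ (m + n + 1) := by
  induction n with
  | zero =>
    intro a m ha
    obtain ⟨C, hC0, hC⟩ := ua_bound hN hT ha hθ hθc m
    refine ⟨C, hC0, fun F σ φ hF hF3 h0 h1 hφ x hx => ?_⟩
    rw [norm_iteratedFDeriv_zero, Real.norm_eq_abs]
    exact hC F σ φ hF hF3 h0 h1 hφ x hx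
  | succ n ih =>
    intro a m ha
    have hai : ∀ i : Fin 4, SmE (fun ξ : E => a ξ * ξ i) := fun i => ContDiff.mul ha (coord_SmE i)
    choose C hC0 hC using fun i : Fin 4 => ih (fun ξ => a ξ * ξ i) (m + 1) (hai i)
    refine ⟨∑ i, C i, Finset.sum_nonneg fun i _ => hC0 i, fun F σ φ hF hF3 h0 h1 hφ x hx => ?_⟩
    have hFc : Continuous F := hF.1.continuous
    refine (iter_succ_le (ua_SmE σ m (ContDiff.continuous ha) hθ hFc hF.2 (hT φ hφ) (hTb φ hφ)) n x).trans ?_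
    rw [Finset.sum_mul, Finset.sum_div]
    apply Finset.sum_le_sum
    intro i _
    rw [ua_pd σ m (ContDiff.continuous ha) hθ hFc hF.2 (hT φ hφ) (hTb φ hφ) i]
    have h2 := hC i F σ φ hF hF3 h0 h1 hφ x hx
    have h3 : m + 1 + n + 1 = m + (n + 1) + 1 := by ring
    rwa [h3] at h2


/-! ### duality -/

lemma pairG {h : S × E → ℝ} {σ : ℝ} {Φ φ : ℝ → ℝ} {Ψ : S × ℝ → ℝ} {ψ : E → ℝ}
    (hh : Continuous h) (hhc : HasCompactSupport h) (hΦ : Continuous Φ) (hφ : Continuous φ)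
    (hφc : HasCompactSupport φ) (hΨ : Continuous Ψ) (hψ : Continuous ψ)
    (hψc : HasCompactSupport ψ)
    (hid : ∀ (w : S) (a : ℝ), ∫ x, ψ x * Φ (inner ℝ x (w : E) - a) = ∫ p, φ (p - a) * Ψ (w, p)) :
    Integrable (fun z : S × ℝ =>
      (∫ y : E, h (z.1, y) * φ (z.2 - (inner ℝ y (z.1 : E) - σ))) * Ψ z) mu ∧
    ∫ x, GG h σ Φ x * ψ x =
      ∫ z : S × ℝ, (∫ y : E, h (z.1, y) * φ (z.2 - (inner ℝ y (z.1 : E) - σ))) * Ψ z ∂mu := by
  have hT1 : Continuous fun q : (S × ℝ) × E =>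
      h (q.1.1, q.2) * φ (q.1.2 - (inner ℝ q.2 (q.1.1 : E) - σ)) * Ψ q.1 := by fun_prop
  have hTc : HasCompactSupport fun q : (S × ℝ) × E =>
      h (q.1.1, q.2) * φ (q.1.2 - (inner ℝ q.2 (q.1.1 : E) - σ)) * Ψ q.1 := by
    refine HasCompactSupport.intro (K := (fun r : (S × E) × ℝ =>
      (((r.1.1, r.2 + (inner ℝ r.1.2 (r.1.1 : E) - σ)) : S × ℝ), r.1.2)) ''
        (tsupport h ×ˢ tsupport φ)) ((hhc.prod hφc).image (by fun_prop)) fun q hq => ?_
    by_cases h1 : (q.1.1, q.2) ∈ tsupport h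
    · by_cases h2 : q.1.2 - (inner ℝ q.2 (q.1.1 : E) - σ) ∈ tsupport φ
      · refine absurd ⟨((q.1.1, q.2), q.1.2 - (inner ℝ q.2 (q.1.1 : E) - σ)), ⟨h1, h2⟩, ?_⟩ hq
        simp
      · rw [image_eq_zero_of_notMem_tsupport h2]
        ring
    · rw [image_eq_zero_of_notMem_tsupport h1]
      ring
  have hTi := hT1.integrable_of_hasCompactSupport (μ := mu.prod (volume : Measure E)) hTc
  have hTy : ∀ y : E, Integrable (fun z : S × ℝ =>
      h (z.1, y) * φ (z.2 - (inner ℝ y (z.1 : E) - σ)) * Ψ z) mu := by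
    intro y
    refine Continuous.integrable_of_hasCompactSupport (by fun_prop) ?_
    refine HasCompactSupport.intro (K := (fun r : S × ℝ =>
      ((r.1, r.2 + (inner ℝ y (r.1 : E) - σ)) : S × ℝ)) ''
        (univ ×ˢ tsupport φ)) ((isCompact_univ.prod hφc).image (by fun_prop)) fun q hq => ?_
    by_cases h2 : q.2 - (inner ℝ y (q.1 : E) - σ) ∈ tsupport φ
    · refine absurd ⟨(q.1, q.2 - (inner ℝ y (q.1 : E) - σ)), ⟨mem_univ _, h2⟩, ?_⟩ hq
      simp
    · rw [image_eq_zero_of_notMem_tsupport h2]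
      ring
  have hR : (fun z : S × ℝ =>
      (∫ y : E, h (z.1, y) * φ (z.2 - (inner ℝ y (z.1 : E) - σ))) * Ψ z) =
      fun z : S × ℝ => ∫ y : E, h (z.1, y) * φ (z.2 - (inner ℝ y (z.1 : E) - σ)) * Ψ z := by
    funext z
    rw [integral_mul_const]
  rw [hR]
  refine ⟨hTi.integral_prod_left, ?_⟩
  -- the left side
  have hL1 : Continuous fun q : E × (S × E) =>
      h q.2 * Φ (inner ℝ (q.1 - q.2.2) (q.2.1 : E) + σ) * ψ q.1 := by fun_prop
  have hLc : HasCompactSupport fun q : E × (S × E) =>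
      h q.2 * Φ (inner ℝ (q.1 - q.2.2) (q.2.1 : E) + σ) * ψ q.1 := by
    refine HasCompactSupport.intro (K := tsupport ψ ×ˢ tsupport h) (hψc.prod hhc) fun q hq => ?_
    by_cases h1 : q.2 ∈ tsupport h
    · by_cases h2 : q.1 ∈ tsupport ψ
      · exact absurd ⟨h2, h1⟩ hq
      · rw [image_eq_zero_of_notMem_tsupport h2]
        ring
    · rw [image_eq_zero_of_notMem_tsupport h1]
      ring
  have hLi := hL1.integrable_of_hasCompactSupport (μ := (volume : Measure E).prod nu) hLc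
  have hin : ∀ z : S × E, ∫ x, h z * Φ (inner ℝ (x - z.2) (z.1 : E) + σ) * ψ x =
      h z * ∫ p, φ (p - (inner ℝ z.2 (z.1 : E) - σ)) * Ψ (z.1, p) := by
    intro z
    rw [← hid, ← integral_const_mul]
    apply integral_congr_ae
    refine Eventually.of_forall fun x => ?_
    have e : inner ℝ (x - z.2) (z.1 : E) + σ =
        inner ℝ x (z.1 : E) - (inner ℝ z.2 (z.1 : E) - σ) := by
      rw [inner_sub_left]
      ring
    simp only [e]
    ring
  have hnu : SFinite nu := Measure.prod.instSFinite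
  have hX : Integrable (fun z : S × E => h z *
      ∫ p, φ (p - (inner ℝ z.2 (z.1 : E) - σ)) * Ψ (z.1, p)) nu := by
    have h1 := hLi.integral_prod_right
    simp only [hin] at h1
    exact h1
  have e1 : ∫ x, GG h σ Φ x * ψ x = ∫ z : S × E, (h z *
      ∫ p, φ (p - (inner ℝ z.2 (z.1 : E) - σ)) * Ψ (z.1, p)) ∂nu := by
    have h1 : ∀ x, GG h σ Φ x * ψ x =
        ∫ z : S × E, h z * Φ (inner ℝ (x - z.2) (z.1 : E) + σ) * ψ x ∂nu := by
      intro x
      unfold GG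
      rw [integral_mul_const]
    simp_rw [h1]
    rw [integral_integral_swap (f := fun (x : E) (z : S × E) =>
      h z * Φ (inner ℝ (x - z.2) (z.1 : E) + σ) * ψ x) hLi]
    simp_rw [hin]
  have e2 : ∫ z : S × ℝ, (∫ y : E, h (z.1, y) * φ (z.2 - (inner ℝ y (z.1 : E) - σ)) * Ψ z) ∂mu =
      ∫ y : E, (∫ z : S × ℝ, h (z.1, y) * φ (z.2 - (inner ℝ y (z.1 : E) - σ)) * Ψ z ∂mu) :=
    integral_integral_swap (f := fun (z : S × ℝ) (y : E) =>
      h (z.1, y) * φ (z.2 - (inner ℝ y (z.1 : E) - σ)) * Ψ z) hTi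
  rw [e1, e2, integral_prod_symm _ hX]
  apply integral_congr_ae
  refine Eventually.of_forall fun y => ?_
  simp only
  rw [integral_prod _ (hTy y)]
  apply integral_congr_ae
  refine Eventually.of_forall fun w => ?_
  simp only
  rw [← integral_const_mul]
  apply integral_congr_ae
  refine Eventually.of_forall fun p => ?_
  simp only
  ring

/-- the field of the profile, tested -/
lemma pairU {θ : ℝ → ℝ} {F : E → ℝ} {Φ φ : ℝ → ℝ} {Ψ : S × ℝ → ℝ} {ψ : E → ℝ} (σ : ℝ) (m : ℕ)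
    (hθ : Sm θ) (hF : Continuous F) (hFc : HasCompactSupport F) (hΦ : Sm Φ) (hΦb : BD Φ) (hφ : Sm φ)
    (hφc : HasCompactSupport φ) (hΨ : Continuous Ψ) (hψ : Continuous ψ)
    (hψc : HasCompactSupport ψ)
    (hid : ∀ (k : ℕ) (w : S) (a : ℝ), ∫ x, ψ x * iteratedDeriv (k + m) Φ (inner ℝ x (w : E) - a) =
      ∫ p, iteratedDeriv k φ (p - a) * Ψ (w, p)) :
    ∫ x, ua θ F σ Φ (fun _ => 1) m x * ψ x = ∫ z, kap θ F σ φ z * Ψ z ∂mu := by
  have hk := fun j : ℕ => pairG (h := hj (fun _ => 1) θ F σ j) (σ := σ)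
    (Φ := iteratedDeriv (2 - j + m) Φ) (φ := iteratedDeriv (2 - j) φ) (Ψ := Ψ) (ψ := ψ)
    (hj_cont σ j continuous_const hθ hF) (hj_cs _ θ σ j hFc) (sm_cont (sm_iter hΦ _))
    (sm_cont (sm_iter hφ _)) (cs_iter hφc _) hΨ hψ hψc (hid (2 - j))
  have e1 : ∀ x, ua θ F σ Φ (fun _ => 1) m x * ψ x = ∑ j ∈ Finset.range 3, c0 * cf j *
      (GG (hj (fun _ => 1) θ F σ j) σ (iteratedDeriv (2 - j + m) Φ) x * ψ x) := by
    intro x
    rw [ua, Finset.sum_mul]
    apply Finset.sum_congr rfl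
    intro j _
    ring
  have e2 : ∀ z : S × ℝ, kap θ F σ φ z * Ψ z = ∑ j ∈ Finset.range 3, c0 * cf j *
      ((∫ y : E, hj (fun _ => 1) θ F σ j (z.1, y) *
        iteratedDeriv (2 - j) φ (z.2 - (inner ℝ y (z.1 : E) - σ))) * Ψ z) := by
    intro z
    have e3 : ∀ y : E, F y * ∑ j ∈ Finset.range 3, (Nat.choose 2 j : ℝ) * (-1) ^ (j + 1) *
        iteratedDeriv j θ (inner ℝ y (z.1 : E) - σ) *
        iteratedDeriv (2 - j) φ (z.2 - (inner ℝ y (z.1 : E) - σ)) =
        ∑ j ∈ Finset.range 3, cf j * (hj (fun _ => 1) θ F σ j (z.1, y) *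
        iteratedDeriv (2 - j) φ (z.2 - (inner ℝ y (z.1 : E) - σ))) := by
      intro y
      rw [Finset.mul_sum]
      apply Finset.sum_congr rfl
      intro j _
      simp only [hj, cf]
      ring
    rw [kap]
    simp_rw [e3]
    rw [integral_finsetSum]
    · rw [Finset.mul_sum, Finset.sum_mul]
      apply Finset.sum_congr rfl
      intro j _
      rw [integral_const_mul]
      ring
    · intro j _
      refine Integrable.const_mul ?_ _
      have h3 := hj_cont (a := fun _ => 1) σ j continuous_const hθ hF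
      have h4 : Continuous (iteratedDeriv (2 - j) φ) := sm_cont (sm_iter hφ (2 - j))
      refine Continuous.integrable_of_hasCompactSupport (by fun_prop) ?_
      refine HasCompactSupport.intro hFc fun y hy => ?_
      simp only [hj]
      rw [image_eq_zero_of_notMem_tsupport hy]
      ring
  simp_rw [e1, e2]
  rw [integral_finsetSum, integral_finsetSum]
  · apply Finset.sum_congr rfl
    intro j _
    rw [integral_const_mul, integral_const_mul, (hk j).2]
  · intro j _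
    exact (hk j).1.const_mul _
  · intro j _
    refine Integrable.const_mul ?_ _
    have h1 : Continuous (GG (hj (fun _ => 1) θ F σ j) σ (iteratedDeriv (2 - j + m) Φ)) :=
      ContDiff.continuous (GG_SmE _ σ _ (hj_cont σ j continuous_const hθ hF)
        (hj_cs _ θ σ j hFc) (sm_iter hΦ _) (BD_iter hΦb _))
    exact (h1.mul hψ).integrable_of_hasCompactSupport hψc.mul_left

/-! ### the Hilbert transform -/

lemma HT_iter (hT : St_HTb) (n : ℕ) : ∀ φ : ℝ → ℝ, Sm φ → HasCompactSupport φ →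
    iteratedDeriv n (HT φ) = HT (iteratedDeriv n φ) := by
  induction n with
  | zero =>
    intro φ _ _
    rw [iteratedDeriv_zero, iteratedDeriv_zero]
  | succ n ih =>
    intro φ h1 h2
    have h3 : deriv (HT φ) = HT (deriv φ) := funext (hT φ h1 h2).2.1
    rw [iteratedDeriv_succ', h3, ih (deriv φ) (sm_deriv h1) h2.deriv, iteratedDeriv_succ']

lemma HT_BD (hT : St_HTb) {φ : ℝ → ℝ} (h1 : Sm φ) (h2 : HasCompactSupport φ) : BD (HT φ) := by
  intro n
  rw [HT_iter hT n φ h1 h2]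
  obtain ⟨B, hB0, hB⟩ := bdd_of_cs (sm_cont (sm_iter h1 (n + 1))) (cs_iter h2 (n + 1))
  refine ⟨2 * B + ∫ p, |iteratedDeriv n φ p|, ?_, fun t => ?_⟩
  · have : 0 ≤ ∫ p, |iteratedDeriv n φ p| := integral_nonneg fun _ => abs_nonneg _
    linarith
  · refine (hT _ (sm_iter h1 n) (cs_iter h2 n)).2.2.1 B t fun p => ?_
    rw [← iteratedDeriv_succ]
    exact hB p

lemma HT_shift (hT : St_HTb) {φ : ℝ → ℝ} (h1 : Sm φ) (h2 : HasCompactSupport φ) (a q : ℝ) :
    HT (fun p => φ (p - a)) q = HT φ (q - a) := by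
  have h := (hT φ h1 h2).2.2.2.2.2 1 (-a) q one_pos
  simpa [one_mul, sub_eq_add_neg] using h

lemma sm_shift {φ : ℝ → ℝ} (h1 : Sm φ) (a : ℝ) : Sm (fun p => φ (p - a)) :=
  ContDiff.comp (g := φ) h1 (contDiff_id.sub contDiff_const)

lemma cs_shift {φ : ℝ → ℝ} (h1 : HasCompactSupport φ) (a : ℝ) :
    HasCompactSupport (fun p => φ (p - a)) :=
  h1.comp_homeomorph (Homeomorph.subRight a)

/-- tested against the Radon transform -/
lemma rad_pair (hT : St_HTb) (hTr : St_HTr) (hR : St_RadT) (hN : St_NcR) {φ : ℝ → ℝ} (h1 : Sm φ)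
    (h2 : HasCompactSupport φ) {ψ : E → ℝ} (hψ : IsTest ψ) (k : ℕ) (w : S) (a : ℝ) :
    ∫ x, ψ x * iteratedDeriv k (HT φ) (inner ℝ x (w : E) - a) =
      ∫ p, iteratedDeriv k φ (p - a) * J1F 1 ψ (w, p) := by
  obtain ⟨hR1, hR2, hR3, hR4, hR5⟩ := hR ψ hψ
  obtain ⟨ρ, hρ⟩ : ∃ ρ : ℝ, tsupport ψ ⊆ Metric.ball (0 : E) ρ := by
    obtain ⟨ρ, hρ⟩ := (hψ.2.isCompact.isBounded).subset_ball (0 : E)
    exact ⟨ρ, hρ⟩
  have hz : ∀ (p : ℝ), ρ ≤ |p| → Rad ψ (w, p) = 0 := by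
    intro p hp
    have := hR3 0 ρ (hρ.trans Metric.ball_subset_closedBall) (w, p)
    simpa using (this (by simpa using hp)).1
  have hRc : HasCompactSupport (fun p => Rad ψ (w, p)) := cs_of_zero ρ hz
  have hRs : Sm (fun p => Rad ψ (w, p)) := by
    obtain ⟨⟨g, hg, -, hg2, -⟩, -⟩ := hN ψ 0 ρ hψ hρ
    have e : (fun p => Rad ψ (w, p)) = fun p => g ((w : E), p) := funext fun p => hg2 (w, p)
    rw [e]
    exact ContDiff.comp (g := g) hg (contDiff_const.prodMk contDiff_id)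
  have hΦ : Sm (HT φ) := (hT φ h1 h2).1
  have s1 := sm_shift (sm_iter h1 k) a
  have s2 := cs_shift (cs_iter h2 k) a
  have e1 := hR5 w (fun p => iteratedDeriv k (HT φ) (p - a)) (sm_cont (sm_shift (sm_iter hΦ k) a))
  rw [← e1]
  have e2 : (fun p => Rad ψ (w, p) * iteratedDeriv k (HT φ) (p - a)) =
      fun q => HT (fun p => iteratedDeriv k φ (p - a)) q * Rad ψ (w, q) := by
    funext q
    rw [HT_shift hT (sm_iter h1 k) (cs_iter h2 k), HT_iter hT k φ h1 h2, mul_comm]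
  rw [e2, ((hT _ s1 s2).2.2.2.1 _ hRs hRc).2, ← integral_neg]
  apply integral_congr_ae
  refine Eventually.of_forall fun p => ?_
  simp only
  rw [(hTr ψ hψ w p).1]
  ring

/-- the same with one more derivative -/
lemma rad_pair1 (hT : St_HTb) (hTr : St_HTr) (hR : St_RadT) (hN : St_NcR) (hP : St_Par)
    (hJ : St_JD) (hF : St_Ft) {φ : ℝ → ℝ} (h1 : Sm φ)
    (h2 : HasCompactSupport φ) {ψ : E → ℝ} (hψ : IsTest ψ) (k : ℕ) (w : S) (a : ℝ) :
    ∫ x, ψ x * iteratedDeriv (k + 1) (HT φ) (inner ℝ x (w : E) - a) =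
      ∫ p, iteratedDeriv k φ (p - a) * J0F (-1) ψ (w, p) := by
  have hS := hF.1 ψ hψ
  rw [rad_pair hT hTr hR hN h1 h2 hψ (k + 1) w a]
  have c0 : Continuous (J0F (-1) ψ) := ((hP (-1) 0 0 ψ ψ hS hS).1 (by norm_num)).1
  have c1 : Continuous (J1F 1 ψ) := ((hP 1 0 0 ψ ψ hS hS).2.1 (by norm_num)).1
  have c0' : Continuous (fun p => J0F (-1) ψ (w, p)) := c0.comp (by fun_prop)
  have c1' : Continuous (fun p => J1F 1 ψ (w, p)) := c1.comp (by fun_prop)
  have d1 : ∀ p, HasDerivAt (fun p => J1F 1 ψ (w, p)) (- J0F (-1) ψ (w, p)) p := by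
    intro p
    have h := (hJ 1 ψ hS).2.1 (by norm_num) w p
    norm_num at h
    exact h
  have d2 : ∀ p, HasDerivAt (fun p => iteratedDeriv k φ (p - a))
      (iteratedDeriv (k + 1) φ (p - a)) p := by
    intro p
    have h3 : HasDerivAt (fun p : ℝ => p - a) 1 p := (hasDerivAt_id p).sub_const _
    have h4 := (sm_hasDerivAt (sm_iter h1 k) (p - a)).comp p h3
    rw [mul_one, ← iteratedDeriv_succ] at h4
    exact h4
  have k0 : Continuous (fun p => iteratedDeriv k φ (p - a)) := sm_cont (sm_shift (sm_iter h1 k) a)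
  have k1 : Continuous (fun p => iteratedDeriv (k + 1) φ (p - a)) :=
    sm_cont (sm_shift (sm_iter h1 (k + 1)) a)
  have z0 : HasCompactSupport (fun p => iteratedDeriv k φ (p - a)) := cs_shift (cs_iter h2 k) a
  have z1 : HasCompactSupport (fun p => iteratedDeriv (k + 1) φ (p - a)) :=
    cs_shift (cs_iter h2 (k + 1)) a
  have key := integral_mul_deriv_eq_deriv_mul_of_integrable
    (u := fun p => iteratedDeriv k φ (p - a)) (v := fun p => J1F 1 ψ (w, p))
    (u' := fun p => iteratedDeriv (k + 1) φ (p - a)) (v' := fun p => - J0F (-1) ψ (w, p))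
    (fun p _ => d2 p) (fun p _ => d1 p)
    ((k0.mul c0'.neg).integrable_of_hasCompactSupport z0.mul_right)
    ((k1.mul c1').integrable_of_hasCompactSupport z1.mul_right)
    ((k0.mul c1').integrable_of_hasCompactSupport z0.mul_right)
  have e3 : ∫ p, iteratedDeriv k φ (p - a) * - J0F (-1) ψ (w, p) =
      - ∫ p, iteratedDeriv k φ (p - a) * J0F (-1) ψ (w, p) := by
    rw [← integral_neg]
    apply integral_congr_ae
    refine Eventually.of_forall fun p => ?_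
    simp only
    ring
  rw [e3] at key
  linarith

end Pool.Agent.QWF.NFcx

namespace Pool.Agent.QWF

open NFcx

theorem thm_NFc (hR : St_RadT) (hF : St_Ft) (hP : St_Par) (hJ : St_JD) (hNc : St_NcR)
    (hT : St_HTb) (hTr : St_HTr) (hN : St_NFK) : St_NFc := by
  intro θ hθ hθ1 hθ0
  have hTs : ∀ φ : ℝ → ℝ, IsMol (1 / 100) φ → Sm (HT φ) := fun φ hφ =>
    (hT φ hφ.1 (cs_of_zero _ hφ.2.2.1)).1
  have hTb : ∀ φ : ℝ → ℝ, IsMol (1 / 100) φ → BD (HT φ) := fun φ hφ =>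
    HT_BD hT hφ.1 (cs_of_zero _ hφ.2.2.1)
  have hθc : HasCompactSupport θ := cs_of_zero _ hθ0
  choose A hA0 hA using fun n => ua_iter hN hTs hTb hθ hθc n (fun _ => 1) 0 contDiff_const
  choose B hB0 hB using fun n => ua_iter hN hTs hTb hθ hθc n (fun _ => 1) 1 contDiff_const
  have hAs : ∀ n ≤ 3, A n ≤ ∑ k ∈ Finset.range 4, A k := fun n hn =>
    Finset.single_le_sum (f := A) (fun k _ => hA0 k) (Finset.mem_range.2 (by omega))
  have hBs : ∀ n ≤ 3, B n ≤ ∑ k ∈ Finset.range 4, B k := fun n hn =>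
    Finset.single_le_sum (f := B) (fun k _ => hB0 k) (Finset.mem_range.2 (by omega))
  have hA' : 0 ≤ ∑ k ∈ Finset.range 4, A k := Finset.sum_nonneg fun k _ => hA0 k
  have hB' : 0 ≤ ∑ k ∈ Finset.range 4, B k := Finset.sum_nonneg fun k _ => hB0 k
  refine ⟨∑ k ∈ Finset.range 4, A k + ∑ k ∈ Finset.range 4, B k + 1, by positivity,
    fun F σ φ hFt hF3 hσ0 hσ1 hφ => ?_⟩
  have hF0 : 0 ≤ ∫ x, |F x| := integral_nonneg fun _ => abs_nonneg _
  have hφc : HasCompactSupport φ := cs_of_zero _ hφ.2.2.1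
  have hFc : Continuous F := hFt.1.continuous
  have s0 := ua_SmE (φ := HT φ) σ 0 (a := fun _ => 1) continuous_const hθ hFc hFt.2 (hTs φ hφ)
    (hTb φ hφ)
  have s1 := ua_SmE (φ := HT φ) σ 1 (a := fun _ => 1) continuous_const hθ hFc hFt.2 (hTs φ hφ)
    (hTb φ hφ)
  refine ⟨-ua θ F σ (HT φ) (fun _ => 1) 0, ua θ F σ (HT φ) (fun _ => 1) 1,
    ContDiff.neg s0, s1, fun ψ hψ => ⟨?_, ?_⟩, fun x hx n hn => ⟨?_, ?_⟩⟩
  · have hS := hF.1 ψ hψ
    have c1 : Continuous (J1F 1 ψ) := ((hP 1 0 0 ψ ψ hS hS).2.1 (by norm_num)).1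
    rw [← pairU σ 0 hθ hFc hFt.2 (hTs φ hφ) (hTb φ hφ) hφ.1 hφc c1 hψ.1.continuous hψ.2
      (fun k w a => rad_pair hT hTr hR hNc hφ.1 hφc hψ k w a), ← integral_neg]
    apply integral_congr_ae
    refine Eventually.of_forall fun x => ?_
    simp only [Pi.neg_apply]
    ring
  · have hS := hF.1 ψ hψ
    have c0 : Continuous (J0F (-1) ψ) := ((hP (-1) 0 0 ψ ψ hS hS).1 (by norm_num)).1
    exact pairU σ 1 hθ hFc hFt.2 (hTs φ hφ) (hTb φ hφ) hφ.1 hφc c0 hψ.1.continuous hψ.2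
      (fun k w a => rad_pair1 hT hTr hR hNc hP hJ hF hφ.1 hφc hψ k w a)
  · have hx0 : 0 < ‖x‖ := by linarith
    rw [iteratedFDeriv_neg_apply, norm_neg]
    refine (hA n F σ φ hFt hF3 hσ0 hσ1 hφ x hx).trans ?_
    have h2 : A n * (∫ x, |F x|) ≤
        (∑ k ∈ Finset.range 4, A k + ∑ k ∈ Finset.range 4, B k + 1) * ∫ x, |F x| :=
      mul_le_mul_of_nonneg_right (by linarith [hAs n hn]) hF0
    rw [zero_add]
    refine div_le_div₀ (by positivity) h2 (by positivity) ?_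
    exact pow_le_pow_left₀ hx0.le (by linarith) _
  · have hx0 : 0 < ‖x‖ := by linarith
    refine (hB n F σ φ hFt hF3 hσ0 hσ1 hφ x hx).trans ?_
    have h2 : B n * (∫ x, |F x|) ≤
        (∑ k ∈ Finset.range 4, A k + ∑ k ∈ Finset.range 4, B k + 1) * ∫ x, |F x| :=
      mul_le_mul_of_nonneg_right (by linarith [hBs n hn]) hF0
    have h3 : 1 + n + 1 = n + 2 := by ring
    rw [h3]
    refine div_le_div₀ (by positivity) h2 (by positivity) ?_
    exact pow_le_pow_left₀ hx0.le (by linarith) _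

end Pool.Agent.QWF
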