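import Pool.Agent.QWF.StA2

set_option autoImplicit false

/-!
# QWF, NFt: explicit form of the near field element
-/

open MeasureTheory Filter Topology Set
open scoped ENNReal NNReal RealInnerProductSpace Pointwise ContDiff

namespace Pool.Agent.QWF

namespace NFtx

theorem test_pd {φ : E → ℝ} (h : IsTest φ) (i : Fin 4) : IsTest (pd i φ) :=
  ⟨(h.1.fderiv_right (by simp)).clm_apply contDiff_const,
    (h.2.fderiv ℝ).comp_left (g := fun L : E →L[ℝ] ℝ => L (EuclideanSpace.single i (1 : ℝ))) (by simp)⟩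

theorem test_add {φ ψ : E → ℝ} (h : IsTest φ) (h' : IsTest ψ) : IsTest (fun x => φ x + ψ x) :=
  ⟨h.1.add h'.1, h.2.add h'.2⟩

theorem test_lap {φ : E → ℝ} (h : IsTest φ) : IsTest (lap φ) := by
  have e : lap φ = fun x => pd 0 (pd 0 φ) x + pd 1 (pd 1 φ) x + pd 2 (pd 2 φ) x + pd 3 (pd 3 φ) x := by
    ext x
    simp only [lap, Fin.sum_univ_four]
  rw [e]
  have t : ∀ i : Fin 4, IsTest (pd i (pd i φ)) := fun i => test_pd (test_pd h i) i
  exact test_add (test_add (test_add (t 0) (t 1)) (t 2)) (t 3)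

theorem test_zero : IsTest (fun _ : E => (0 : ℝ)) :=
  ⟨contDiff_const, HasCompactSupport.zero⟩

theorem nice_univ {A : Set (S × ℝ)} {h : S × ℝ → ℝ} (H : Nice A h) : Nice univ h := by
  obtain ⟨g, h1, h2, h3, -⟩ := H
  exact ⟨g, h1, h2, h3, subset_univ _⟩

theorem nice_mul {h : S × ℝ → ℝ} {η : ℝ → ℝ} (hη : Sm η) (H : Nice univ h) :
    Nice univ (fun z => η z.2 * h z) := by
  obtain ⟨g, hg, ⟨M, hM⟩, hh, -⟩ := H
  refine ⟨fun x => η x.2 * g x, ?_, ⟨M, fun x p hp => ?_⟩, fun z => ?_, subset_univ _⟩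
  · exact (ContDiff.comp (g := η) hη contDiff_snd).mul hg
  · change η p * g (x, p) = 0
    rw [hM x p hp, mul_zero]
  · change η z.2 * h z = η z.2 * g ((z.1 : E), z.2)
    rw [hh]

theorem nice_shift {h : S × ℝ → ℝ} (σ : ℝ) (H : Nice univ h) :
    Nice univ (fun z => h (z.1, z.2 + σ)) := by
  obtain ⟨g, hg, ⟨M, hM⟩, hh, -⟩ := H
  refine ⟨fun x => g (x.1, x.2 + σ), ?_, ⟨M + |σ|, fun x p hp => ?_⟩, fun z => ?_, subset_univ _⟩
  · exact hg.comp (contDiff_fst.prodMk (contDiff_snd.add contDiff_const))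
  · change g (x, p + σ) = 0
    refine hM x (p + σ) ?_
    have h1 := abs_sub_abs_le_abs_sub p (-σ)
    rw [abs_neg, sub_neg_eq_add] at h1
    linarith
  · change h (z.1, z.2 + σ) = g ((z.1 : E), z.2 + σ)
    rw [hh]

theorem nice_rad (hNcR : St_NcR) {φ : E → ℝ} (hφ : IsTest φ) : Nice univ (Rad φ) := by
  obtain ⟨ρ, hρ⟩ := hφ.2.isCompact.isBounded.subset_ball (0 : E)
  exact nice_univ (hNcR φ 0 ρ hφ hρ).1

theorem ext_JK {s : ℝ} (h1 : PS s univ = ⊤) {a b : K}
    (h : ∀ h, Nice univ h → inner ℝ a (JK s h) = inner ℝ b (JK s h)) : a = b := by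
  have h2 : Submodule.span ℝ {w : K | ∃ h, Nice univ h ∧ w = JK s h} ≤ (ℝ ∙ (a - b))ᗮ := by
    rw [Submodule.span_le]
    rintro w ⟨f, H, rfl⟩
    rw [SetLike.mem_coe, Submodule.mem_orthogonal_singleton_iff_inner_right, inner_sub_left,
      h f H, sub_self]
  have h3 : (⊤ : Submodule ℝ K) ≤ (ℝ ∙ (a - b))ᗮ := by
    rw [← h1]
    exact Submodule.topologicalClosure_minimal _ h2 (Submodule.isClosed_orthogonal _)
  have h4 : a - b ∈ (ℝ ∙ (a - b))ᗮ := h3 trivial
  rw [Submodule.mem_orthogonal_singleton_iff_inner_right] at h4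
  exact sub_eq_zero.1 (inner_self_eq_zero.1 h4)

theorem eq_zero_of_orth {s : ℝ} (hD : TS s univ = ⊤) (d : K)
    (h : ∀ φ, IsTest φ → inner ℝ d (Rs s φ) = 0 ∧ inner ℝ d (dRs s φ) = 0) : d = 0 := by
  have h1 : TS s univ ≤ (Submodule.span ℝ {d})ᗮ := by
    unfold TS
    apply Submodule.topologicalClosure_minimal
    · rw [Submodule.span_le]
      rintro w ⟨φ, hφ, -, rfl | rfl⟩
      · exact Submodule.mem_orthogonal_singleton_iff_inner_right.2 (h φ hφ).1
      · exact Submodule.mem_orthogonal_singleton_iff_inner_right.2 (h φ hφ).2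
    · exact Submodule.isClosed_orthogonal _
  have h2 : d ∈ (Submodule.span ℝ {d})ᗮ := h1 (by rw [hD]; trivial)
  exact inner_self_eq_zero.1 (Submodule.mem_orthogonal_singleton_iff_inner_right.1 h2)

theorem gam_eq {s : ℝ} (hD : TS s univ = ⊤) {F : E → ℝ} {w : K} (hw : IsGam s F w) :
    Gam s F = w := by
  have h : ∃ w, IsGam s F w := ⟨w, hw⟩
  have h1 : IsGam s F (Gam s F) := by
    rw [Gam, dif_pos h]; exact h.choose_spec
  have h2 : Gam s F - w = 0 := by
    apply eq_zero_of_orth hD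
    intro φ hφ
    rw [inner_sub_left, inner_sub_left, (h1 φ hφ).1, (h1 φ hφ).2, (hw φ hφ).1, (hw φ hφ).2]
    simp
  exact sub_eq_zero.1 h2

theorem lap_zero : lap (fun _ : E => (0 : ℝ)) = fun _ => 0 := by
  have h : ∀ i : Fin 4, pd i (fun _ : E => (0 : ℝ)) = fun _ => 0 := by
    intro i
    ext x
    simp [pd]
  ext x
  simp only [lap, h]
  simp

theorem toK_zero : toK (fun _ => 0) = 0 := by
  have h0 : MemLp (fun _ : S × ℝ => (0 : ℝ)) 2 mu := MemLp.zero
  apply Lp.ext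
  filter_upwards [toK_coe h0, Lp.coeFn_zero ℝ 2 mu] with z h1 h2
  rw [h1, h2]
  rfl

theorem J1_zero (a : ℝ) : J1 a (fun _ : E => (0 : ℝ)) = 0 := by
  have h : J1F a (fun _ : E => (0 : ℝ)) = fun _ => 0 := by
    ext z
    have hf : ∀ ξ, ft (fun _ : E => (0 : ℝ)) ξ = 0 := by
      intro ξ
      simp [ft]
    simp [J1F, hf]
  rw [J1, h, toK_zero]

end NFtx

open NFtx

theorem thm_NFt (hFt : St_Ft) (hPJ : St_PJ) (hNcR : St_NcR) (hIso : St_IsoP) (hDns : St_DnsP)
    (hMul : St_MulP) : St_NFt := by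
  intro s σ θ F hs hθ hθ1 hθ0 hF
  have hs' := abs_lt.1 hs
  have hsn : |(-s)| < 1 / 2 := by rwa [abs_neg]
  have hlo : -1 / 2 ≤ s := by linarith [hs'.1]
  obtain ⟨hTS, -, hPS⟩ := hDns s hlo hs'.2
  have hPS := hPS hs
  have hL : IsTest (lap F) := test_lap hF
  have hR : Nice univ (Rad (lap F)) := nice_rad hNcR hL
  have hR1 : Nice univ (fun z : S × ℝ => Rad (lap F) (z.1, z.2 + σ)) := nice_shift σ hR
  have hR2 : Nice univ (fun z : S × ℝ => θ z.2 * Rad (lap F) (z.1, z.2 + σ)) := nice_mul hθ hR1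
  refine ⟨hR2, ?_⟩
  -- the source element
  have hSF : IsSch F := hFt.1 F hF
  have hS0 : IsSch (fun _ : E => (0 : ℝ)) := hFt.1 _ test_zero
  have hG : Gam s F = Theta s (fun _ => 0) F := by
    refine gam_eq hTS ?_
    intro φ hφ
    have hSφ := hFt.1 φ hφ
    refine ⟨?_, ?_⟩
    · have h := ((hIso s (fun _ => 0) φ hlo hs'.2 hS0 hSφ).2.2.2.2.2.1 F hSF).1
      rw [h]
      simp
    · exact ((hIso s F φ hlo hs'.2 hSF hSφ).2.2.2.2.2.1 (fun _ => 0) hS0).2
  have hJ : J0 (-s) (lap F) = JK (-s) (Rad (lap F)) := ((hPJ (-s) hsn).2 (lap F) hL).1.symm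
  have hG2 : Gam s F = -c0 • JK (-s) (Rad (lap F)) := by
    rw [hG, Theta, lap_zero, J1_zero, zero_sub, hJ, smul_neg, neg_smul]
  have hτ : tau (-σ) (JK (-s) (Rad (lap F))) = JK (-s) (fun z => Rad (lap F) (z.1, z.2 + σ)) := by
    rw [((hPJ (-s) hsn).1 _ hR).2.2.2.1 (-σ)]
    simp only [sub_neg_eq_add]
  -- the multiplication operator
  have hc : HasCompactSupport (deriv θ) := by
    refine HasCompactSupport.deriv ?_
    refine HasCompactSupport.intro (isCompact_Icc (a := (-(1 / 12) : ℝ)) (b := 1 / 12)) ?_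
    intro p hp
    refine hθ0 p ?_
    by_contra hcon
    exact hp (abs_le.1 (not_le.1 hcon).le)
  have hIM : IsMul s θ (Mul s θ) := (hMul s θ hs hθ hc).2.1
  have hM : Mul s θ (JK (-s) (fun z => Rad (lap F) (z.1, z.2 + σ))) =
      JK (-s) (fun z => θ z.2 * Rad (lap F) (z.1, z.2 + σ)) := by
    refine ext_JK hPS ?_
    intro h hh
    have h1 := ((hPJ (-s) hsn).1 _ hR1).2.2.2.2.2.2.2.1 (fun z => θ z.2 * h z) (nice_mul hθ hh)
    have h2 := ((hPJ (-s) hsn).1 _ hR2).2.2.2.2.2.2.2.1 h hh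
    have h1 := h1.2.1
    have h2 := h2.2.1
    rw [neg_neg] at h1 h2
    rw [hIM _ h hh, h1, h2]
    refine integral_congr_ae (Eventually.of_forall fun z => ?_)
    simp only
    ring
  rw [hG2, map_smul, hτ, map_smul, hM]

end Pool.Agent.QWF
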