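import Pool.Agent.QWF.StM
import Pool.Agent.QWF.StB

set_option autoImplicit false

/-!
# QWF: module NLb (bounds for the nonlinearity, from NLd and NLg)
-/

open MeasureTheory Filter Topology Set
open scoped ENNReal NNReal RealInnerProductSpace

namespace Pool.Agent.QWF

theorem thm_NLb (hd : St_NLd) (hg : St_NLg) : St_NLb := by
  intro b hb
  obtain ⟨C, hC, h1, h2, h3, h4⟩ := hd b hb
  refine ⟨⟨C * (1 + C), by positivity, fun k => ?_, fun k k' hk hk' => ?_⟩, fun k hk =>
    ⟨(hg b k hb hk).1, (h4 k hk).1, (h4 k hk).2.1, (h4 k hk).2.2⟩⟩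
  · refine (h2 k).trans ?_
    gcongr
    nlinarith
  · refine (h3 k k' hk hk').trans ?_
    have e : ENNReal.ofReal (C * (1 + C)) = ENNReal.ofReal C * (1 + ENNReal.ofReal C) := by
      rw [ENNReal.ofReal_mul hC.le, ENNReal.ofReal_add zero_le_one hC.le, ENNReal.ofReal_one]
    rw [e, mul_assoc (ENNReal.ofReal C)]
    refine mul_le_mul' le_rfl ?_
    set X := (sn b k + sn b k') ^ (b - 1) * sn b (k - k') * (‖k‖ₑ + ‖k'‖ₑ) with hX
    set Y := (sn b k + sn b k') ^ b with hY
    calc X + Y * tn b (k - k') ≤ X + Y * (ENNReal.ofReal C * ‖k - k'‖ₑ) := by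
          gcongr
          exact h1 _
      _ ≤ X + Y * (ENNReal.ofReal C * ‖k - k'‖ₑ) + (Y * ‖k - k'‖ₑ + ENNReal.ofReal C * X) :=
          le_self_add
      _ = (1 + ENNReal.ofReal C) * (X + Y * ‖k - k'‖ₑ) := by ring

end Pool.Agent.QWF
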