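import Pool.Agent.QWF.StB

set_option autoImplicit false

/-!
# QWF, NLw: pairing of the nonlinearity with test states
-/

open MeasureTheory Filter Topology Set
open scoped ENNReal NNReal RealInnerProductSpace

namespace Pool.Agent.QWF

namespace NLwx

theorem hasDeriv {b : ℝ} (hb : 4 < b) (u : ℝ) : HasDerivAt (Fn b) ((b + 1) * |u| ^ b) u := by
  have h1 := (hasDerivAt_abs_rpow u (p := b) (by linarith)).mul (hasDerivAt_id u)
  have h2 : b * |u| ^ (b - 2) * u * id u + |u| ^ b * 1 = (b + 1) * |u| ^ b := by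
    rcases eq_or_ne u 0 with h | h
    · rw [h]
      simp only [id, mul_zero, zero_add, mul_one, abs_zero]
      rw [Real.zero_rpow (by linarith : b ≠ 0)]
      ring
    · have h3 : |u| ^ b = |u| ^ (b - 2) * u ^ 2 := by
        have h4 : 0 < |u| := abs_pos.2 h
        have h5 : |u| ^ b = |u| ^ (b - 2) * |u| ^ (2 : ℝ) := by
          rw [← Real.rpow_add h4]
          congr 1
          ring
        rw [h5, Real.rpow_two, sq_abs]
      rw [h3]
      simp only [id]
      ring
  rw [h2] at h1
  exact h1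

theorem diff {b : ℝ} (hb : 4 < b) (u w : ℝ) :
    |Fn b u - Fn b w| ≤ (b + 1) * ((|u| + |w|) ^ b * |u - w|) := by
  have h1 : ∀ x ∈ Set.uIcc w u, HasDerivWithinAt (Fn b) ((b + 1) * |x| ^ b) (Set.uIcc w u) x :=
    fun x _ => (hasDeriv hb x).hasDerivWithinAt
  have h2 : ∀ x ∈ Set.uIcc w u, ‖(b + 1) * |x| ^ b‖ ≤ (b + 1) * (|u| + |w|) ^ b := by
    intro x hx
    rw [Real.norm_of_nonneg (mul_nonneg (by linarith) (Real.rpow_nonneg (abs_nonneg x) _))]
    have h3 : |x| ≤ |u| + |w| := by
      rcases le_total w u with h | h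
      · rw [Set.uIcc_of_le h] at hx
        rw [abs_le]
        constructor
        · have := neg_abs_le w
          have := abs_nonneg u
          linarith [hx.1]
        · have := le_abs_self u
          have := abs_nonneg w
          linarith [hx.2]
      · rw [Set.uIcc_of_ge h] at hx
        rw [abs_le]
        constructor
        · have := neg_abs_le u
          have := abs_nonneg w
          linarith [hx.1]
        · have := le_abs_self w
          have := abs_nonneg u
          linarith [hx.2]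
    exact mul_le_mul_of_nonneg_left (Real.rpow_le_rpow (abs_nonneg x) h3 (by linarith))
      (by linarith)
  have h4 := (convex_uIcc w u).norm_image_sub_le_of_norm_hasDerivWithin_le h1 h2
    Set.left_mem_uIcc Set.right_mem_uIcc
  rw [Real.norm_eq_abs, Real.norm_eq_abs] at h4
  linarith

theorem cont_Fn {b : ℝ} (hb : 4 < b) : Continuous (Fn b) :=
  continuous_iff_continuousAt.2 fun u => (hasDeriv hb u).continuousAt

theorem holder {p q r : ℝ} (hp : 0 < p) (hq : 0 < q) (hr : 0 < r) (h : p⁻¹ + q⁻¹ = r⁻¹) :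
    ENNReal.HolderTriple (ENNReal.ofReal p) (ENNReal.ofReal q) (ENNReal.ofReal r) := by
  constructor
  rw [← ENNReal.ofReal_inv_of_pos hp, ← ENNReal.ofReal_inv_of_pos hq,
    ← ENNReal.ofReal_inv_of_pos hr, ← ENNReal.ofReal_add (inv_nonneg.2 hp.le) (inv_nonneg.2 hq.le),
    h]

theorem q0_eq {b : ℝ} (hb : 4 < b) : q0 (sig b) = ENNReal.ofReal (2 * b) := by
  unfold q0 sig
  congr 1
  have : b ≠ 0 := by linarith
  field_simp
  ring

/-- the main estimate -/
theorem est {b : ℝ} (hb : 4 < b) (u w φ : E → ℝ)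
    (hu : AEStronglyMeasurable u volume) (hw : AEStronglyMeasurable w volume)
    (hφ : AEStronglyMeasurable φ volume) :
    eLpNorm (fun x => (Fn b (u x) - Fn b (w x)) * φ x) 1 volume ≤
      ENNReal.ofReal (b + 1) *
        ((eLpNorm u (ENNReal.ofReal (2 * b)) volume +
            eLpNorm w (ENNReal.ofReal (2 * b)) volume) ^ b *
          (eLpNorm (fun x => u x - w x) (ENNReal.ofReal (2 * b)) volume *
            eLpNorm φ (ENNReal.ofReal (2 * b / (b - 1))) volume)) := by
  have hb0 : 0 < b := by linarith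
  have hb3 : 0 < b - 1 := by linarith
  have h1 : eLpNorm (fun x => (Fn b (u x) - Fn b (w x)) * φ x) 1 volume ≤
      ENNReal.ofReal (b + 1) *
        eLpNorm (fun x => (|u x| + |w x|) ^ b * ((u x - w x) * φ x)) 1 volume := by
    refine eLpNorm_le_mul_eLpNorm_of_ae_le_mul (Eventually.of_forall fun x => ?_) 1
    simp only [norm_mul, Real.norm_eq_abs]
    rw [abs_of_nonneg (Real.rpow_nonneg (add_nonneg (abs_nonneg (u x)) (abs_nonneg (w x))) b)]
    have h2 := diff hb (u x) (w x)
    calc |Fn b (u x) - Fn b (w x)| * |φ x| ≤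
        ((b + 1) * ((|u x| + |w x|) ^ b * |u x - w x|)) * |φ x| :=
          mul_le_mul_of_nonneg_right h2 (abs_nonneg _)
      _ = (b + 1) * ((|u x| + |w x|) ^ b * (|u x - w x| * |φ x|)) := by ring
  have ha : AEStronglyMeasurable (fun x => |u x| + |w x|) (volume : Measure E) := hu.norm.add hw.norm
  have hab : AEStronglyMeasurable (fun x => (|u x| + |w x|) ^ b) (volume : Measure E) :=
    (Real.continuous_rpow_const hb0.le).comp_aestronglyMeasurable ha
  have i1 : ENNReal.HolderTriple (ENNReal.ofReal 2) (ENNReal.ofReal 2)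
      (ENNReal.ofReal 1) := holder (by norm_num) (by norm_num) one_pos (by norm_num)
  have i2 : ENNReal.HolderTriple (ENNReal.ofReal (2 * b)) (ENNReal.ofReal (2 * b / (b - 1)))
      (ENNReal.ofReal 2) := by
    refine holder (by positivity) (by positivity) (by norm_num) ?_
    field_simp
    ring
  have h3 : eLpNorm (fun x => (|u x| + |w x|) ^ b * ((u x - w x) * φ x)) (ENNReal.ofReal 1)
      volume ≤ eLpNorm (fun x => (|u x| + |w x|) ^ b) (ENNReal.ofReal 2) volume *
        eLpNorm (fun x => (u x - w x) * φ x) (ENNReal.ofReal 2) volume :=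
    eLpNorm_smul_le_mul_eLpNorm (φ := fun x => (|u x| + |w x|) ^ b)
      (f := fun x => (u x - w x) * φ x) ((hu.sub hw).mul hφ) hab
  rw [ENNReal.ofReal_one] at h3
  have h4 : eLpNorm (fun x => (u x - w x) * φ x) (ENNReal.ofReal 2) volume ≤
      eLpNorm (fun x => u x - w x) (ENNReal.ofReal (2 * b)) volume *
        eLpNorm φ (ENNReal.ofReal (2 * b / (b - 1))) volume :=
    eLpNorm_smul_le_mul_eLpNorm (φ := fun x => u x - w x) (f := φ) hφ (hu.sub hw)
  have h5 : eLpNorm (fun x => (|u x| + |w x|) ^ b) (ENNReal.ofReal 2) volume =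
      eLpNorm (fun x => |u x| + |w x|) (ENNReal.ofReal (2 * b)) volume ^ b := by
    have h6 := eLpNorm_norm_rpow (μ := (volume : Measure E)) (p := ENNReal.ofReal 2) (q := b)
      (fun x => |u x| + |w x|) hb0
    have h7 : ENNReal.ofReal 2 * ENNReal.ofReal b = ENNReal.ofReal (2 * b) := by
      rw [← ENNReal.ofReal_mul (by norm_num)]
    rw [h7] at h6
    rw [← h6]
    congr 1
    funext x
    rw [Real.norm_of_nonneg (add_nonneg (abs_nonneg (u x)) (abs_nonneg (w x)))]
  have hq1 : 1 ≤ ENNReal.ofReal (2 * b) := by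
    rw [ENNReal.one_le_ofReal]
    linarith
  have h8 : eLpNorm (fun x => |u x| + |w x|) (ENNReal.ofReal (2 * b)) volume ≤
      eLpNorm u (ENNReal.ofReal (2 * b)) volume +
        eLpNorm w (ENNReal.ofReal (2 * b)) volume := by
    have h9 := eLpNorm_add_le (μ := (volume : Measure E)) (f := fun x => |u x|)
      (g := fun x => |w x|) hu.norm hw.norm hq1
    have h10 : eLpNorm (fun x => |u x|) (ENNReal.ofReal (2 * b)) (volume : Measure E) =
        eLpNorm u (ENNReal.ofReal (2 * b)) volume := eLpNorm_norm u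
    have h11 : eLpNorm (fun x => |w x|) (ENNReal.ofReal (2 * b)) (volume : Measure E) =
        eLpNorm w (ENNReal.ofReal (2 * b)) volume := eLpNorm_norm w
    rw [h10, h11] at h9
    exact h9
  refine h1.trans (mul_le_mul_right ?_ _)
  refine h3.trans (mul_le_mul' ?_ h4)
  rw [h5]
  exact ENNReal.rpow_le_rpow h8 hb0.le

/-- the constant -/
theorem est2 {b C : ℝ} (hb : 4 < b) (hC : 0 < C) {u w φ : E → ℝ} {A B D : ℝ} (hA : 0 ≤ A)
    (hB : 0 ≤ B) (hD : 0 ≤ D)
    (hu : AEStronglyMeasurable u volume) (hw : AEStronglyMeasurable w volume)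
    (hφ : MemLp φ (ENNReal.ofReal (2 * b / (b - 1))) volume)
    (h1 : eLpNorm u (ENNReal.ofReal (2 * b)) volume ≤ ENNReal.ofReal (C * A))
    (h2 : eLpNorm w (ENNReal.ofReal (2 * b)) volume ≤ ENNReal.ofReal (C * B))
    (h3 : eLpNorm (fun x => u x - w x) (ENNReal.ofReal (2 * b)) volume ≤
      ENNReal.ofReal (C * D)) :
    eLpNorm (fun x => (Fn b (u x) - Fn b (w x)) * φ x) 1 volume ≤
      ENNReal.ofReal ((b + 1) * ((C * A + C * B) ^ b * ((C * D) *
        (eLpNorm φ (ENNReal.ofReal (2 * b / (b - 1))) volume).toReal))) := by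
  refine (est hb u w φ hu hw hφ.1).trans ?_
  rw [ENNReal.ofReal_mul (by linarith : (0 : ℝ) ≤ b + 1),
    ENNReal.ofReal_mul (by positivity : 0 ≤ (C * A + C * B) ^ b),
    ENNReal.ofReal_mul (by positivity : 0 ≤ C * D), ENNReal.ofReal_toReal hφ.2.ne,
    ← ENNReal.ofReal_rpow_of_nonneg (by positivity) (by linarith),
    ENNReal.ofReal_add (by positivity : 0 ≤ C * A) (by positivity : 0 ≤ C * B)]
  refine mul_le_mul_right (mul_le_mul' ?_ (mul_le_mul_left h3 _)) _
  exact ENNReal.rpow_le_rpow (add_le_add h1 h2) (by linarith)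

end NLwx

open NLwx in
theorem thm_NLw (hNLb : St_NLb) (hFld : St_FldP) : St_NLw := by
  intro b hb φ hφ
  have hs : |sig b| < 1 / 2 := by
    unfold sig
    have h1 : 0 < 2 / b := by positivity
    have h2 : 2 / b < 1 := by
      rw [div_lt_one (by linarith)]
      linarith
    rw [abs_lt]
    constructor <;> linarith
  obtain ⟨C, hC, hF, hlin, -⟩ := hFld (sig b) hs
  have hφp : ∀ p : ℝ≥0∞, MemLp φ p volume := fun p =>
    hφ.1.continuous.memLp_of_hasCompactSupport hφ.2
  have hUm : ∀ k : K, AEStronglyMeasurable (U (sig b) k) volume := fun k => (hF k).1.1.1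
  have hUb : ∀ k : K, eLpNorm (U (sig b) k) (ENNReal.ofReal (2 * b)) volume ≤
      ENNReal.ofReal (C * ‖k‖) := by
    intro k
    have h1 := (hF k).2.1
    rw [q0_eq hb] at h1
    rwa [ENNReal.ofReal_mul hC.le, ofReal_norm]
  have hdiff : ∀ k k' : K, eLpNorm (fun x => U (sig b) k x - U (sig b) k' x)
      (ENNReal.ofReal (2 * b)) volume ≤ ENNReal.ofReal (C * ‖k - k'‖) := by
    intro k k'
    have h1 : (fun x => U (sig b) k x - U (sig b) k' x) =ᵐ[volume] U (sig b) (k - k') := by
      have h2 := (hlin (-1) k k').1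
      have h3 : k + (-1 : ℝ) • k' = k - k' := by
        rw [neg_one_smul, sub_eq_add_neg]
      rw [h3] at h2
      filter_upwards [h2] with x hx
      rw [hx]
      ring
    rw [eLpNorm_congr_ae h1]
    exact hUb _
  -- the constant
  obtain ⟨Φ, hΦ⟩ : ∃ Φ : ℝ, Φ = (eLpNorm φ (ENNReal.ofReal (2 * b / (b - 1))) volume).toReal :=
    ⟨_, rfl⟩
  have hΦ0 : 0 ≤ Φ := by
    rw [hΦ]
    exact ENNReal.toReal_nonneg
  -- differences
  have hE : ∀ k k' : K, eLpNorm (fun x => (Fn b (U (sig b) k x) - Fn b (U (sig b) k' x)) * φ x) 1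
      volume ≤ ENNReal.ofReal ((b + 1) * ((C * ‖k‖ + C * ‖k'‖) ^ b * ((C * ‖k - k'‖) * Φ))) := by
    intro k k'
    rw [hΦ]
    exact est2 hb hC (norm_nonneg k) (norm_nonneg k') (norm_nonneg _) (hUm k) (hUm k')
      (hφp _) (hUb k) (hUb k') (hdiff k k')
  -- one function
  have hFn0 : Fn b 0 = 0 := by
    unfold Fn
    rw [mul_zero]
  have hE1 : ∀ k : K, eLpNorm (fun x => Fn b (U (sig b) k x) * φ x) 1
      volume ≤ ENNReal.ofReal ((b + 1) * ((C * ‖k‖ + C * 0) ^ b * ((C * ‖k‖) * Φ))) := by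
    intro k
    rw [hΦ]
    have h1 := est2 (w := fun _ => (0 : ℝ)) hb hC (norm_nonneg k) le_rfl (norm_nonneg k) (hUm k)
      aestronglyMeasurable_const (hφp _) (hUb k)
      (by
        have : eLpNorm (fun _ : E => (0 : ℝ)) (ENNReal.ofReal (2 * b)) volume = 0 :=
          eLpNorm_zero
        rw [this]
        exact bot_le)
      (by
        simp only [sub_zero]
        exact hUb k)
    simp only [hFn0, sub_zero] at h1
    exact h1
  have hint : ∀ k : K, Integrable (fun x => Fn b (U (sig b) k x) * φ x) volume := by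
    intro k
    rw [← memLp_one_iff_integrable]
    refine ⟨?_, (hE1 k).trans_lt ENNReal.ofReal_lt_top⟩
    exact ((cont_Fn hb).comp_aestronglyMeasurable (hUm k)).mul (hφp 1).1
  have habs : ∀ (g : E → ℝ) (R : ℝ), 0 ≤ R → eLpNorm g 1 volume ≤ ENNReal.ofReal R →
      |∫ x, g x| ≤ R := by
    intro g R hR h
    have h1 : ‖∫ x, g x‖ₑ ≤ ENNReal.ofReal R := by
      refine (enorm_integral_le_lintegral_enorm g).trans ?_
      rw [← eLpNorm_one_eq_lintegral_enorm]
      exact h
    rw [Real.enorm_eq_ofReal_abs] at h1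
    exact (ENNReal.ofReal_le_ofReal_iff hR).1 h1
  have hI : ∀ k k' : K, |(∫ x, Fn b (U (sig b) k x) * φ x) - ∫ x, Fn b (U (sig b) k' x) * φ x| ≤
      (b + 1) * ((C * ‖k‖ + C * ‖k'‖) ^ b * ((C * ‖k - k'‖) * Φ)) := by
    intro k k'
    rw [← integral_sub (hint k) (hint k')]
    have h1 : (fun x => Fn b (U (sig b) k x) * φ x - Fn b (U (sig b) k' x) * φ x) =
        fun x => (Fn b (U (sig b) k x) - Fn b (U (sig b) k' x)) * φ x := by
      funext x
      ring
    rw [h1]
    exact habs _ _ (by positivity) (hE k k')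
  refine ⟨?_, hint, ?_, ?_⟩
  · intro k hk
    have hG := ((hNLb b hb).2 k hk).2.1
    exact hG φ hφ
  · rw [continuous_iff_continuousAt]
    intro k0
    rw [ContinuousAt, tendsto_iff_norm_sub_tendsto_zero]
    refine squeeze_zero (fun k => norm_nonneg _) (fun k => hI k k0) ?_
    have hc : Continuous fun k : K =>
        (b + 1) * ((C * ‖k‖ + C * ‖k0‖) ^ b * ((C * ‖k - k0‖) * Φ)) := by
      refine continuous_const.mul (Continuous.mul ?_ (by fun_prop))
      exact (Real.continuous_rpow_const (by linarith)).comp (by fun_prop)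
    have h1 := hc.tendsto k0
    rw [sub_self, norm_zero, mul_zero, zero_mul, mul_zero, mul_zero] at h1
    exact h1
  · refine ⟨(b + 1) * (C ^ b * (C * Φ)), fun k => ?_⟩
    refine (habs _ _ (by positivity) (hE1 k)).trans (le_of_eq ?_)
    rw [mul_zero, add_zero, Real.mul_rpow hC.le (norm_nonneg k),
      Real.rpow_add_one' (norm_nonneg k) (by linarith)]
    ring

end Pool.Agent.QWF
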