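import Pool.Agent.QWF.StG
import Pool.Agent.QWF.NLw

set_option autoImplicit false

/-!
# QWF / NLc: weak continuity of the nonlinearity (helper45)
-/

open MeasureTheory Filter Topology Set
open scoped ENNReal NNReal RealInnerProductSpace ContDiff Pointwise

namespace Pool.Agent.QWF

namespace NLcx

open NLwx

theorem sig_lt {b : ℝ} (hb : 4 < b) : |sig b| < 1 / 2 := by
  have h1 : 0 < 2 / b := by positivity
  have h2 : 2 / b < 1 := by rw [div_lt_one (by linarith)]; linarith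
  rw [abs_lt, sig]
  constructor <;> linarith

theorem wto_sub {k : ℕ → K} {k' : K} (h : WTo k k') : WTo (fun n => k n - k') 0 := by
  intro w
  have h1 := (h w).sub (tendsto_const_nhds (x := (inner ℝ k' w : ℝ)))
  rw [sub_self] at h1
  rw [inner_zero_left]
  exact h1.congr fun n => by rw [inner_sub_left]

theorem U_sub (hF : St_FldP) {s : ℝ} (hs : |s| < 1 / 2) (a b : K) :
    U s (a - b) =ᵐ[volume] fun x => U s a x - U s b x := by
  obtain ⟨C, -, -, hL, -⟩ := hF s hs
  have h := (hL (-1) a b).1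
  have e : a + (-1 : ℝ) • b = a - b := by rw [neg_smul, one_smul, sub_eq_add_neg]
  rw [e] at h
  filter_upwards [h] with x hx
  rw [hx]; ring

theorem U_meas (hF : St_FldP) {s : ℝ} (hs : |s| < 1 / 2) (a : K) :
    AEStronglyMeasurable (U s a) volume := by
  obtain ⟨C, -, hC, -⟩ := hF s hs
  exact (hC a).1.1.1

theorem conv_ball (hW : St_WkP) (hF : St_FldP) {s : ℝ} (hs : |s| < 1 / 2) {k : ℕ → K} {k' : K}
    (h : WTo k k') (M : ℝ) :
    Tendsto (fun n => eLpNorm ((Metric.ball (0 : E) M).indicator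
      (fun x => U s (k n) x - U s k' x)) 2 volume) atTop (𝓝 0) := by
  have h1 := (hW s _ M hs (wto_sub h)).1
  refine h1.congr fun n => eLpNorm_congr_ae ?_
  filter_upwards [U_sub hF hs (k n) k'] with x hx
  simp only [Set.indicator]
  split_ifs
  · exact hx
  · rfl

theorem part1_ball (hW : St_WkP) (hF : St_FldP) {b : ℝ} (hb : 4 < b) {k : ℕ → K} {k' : K}
    (h : WTo k k') {c : ℝ≥0∞} (hc : ∀ n, sn b (k n) ≤ c) (M : ℝ) :
    eLpNorm ((Metric.ball (0 : E) M).indicator (U (sig b) k')) (ENNReal.ofReal (4 * b)) volume ≤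
      c := by
  have hs := sig_lt hb
  have hm : ∀ w : K, AEStronglyMeasurable (U (sig b) w)
      (volume.restrict (Metric.ball (0 : E) M)) := fun w => (U_meas hF hs w).restrict
  have h1 := conv_ball hW hF hs h M
  simp only [eLpNorm_indicator_eq_eLpNorm_restrict measurableSet_ball] at h1 ⊢
  have h2 : TendstoInMeasure (volume.restrict (Metric.ball (0 : E) M))
      (fun n => U (sig b) (k n)) atTop (U (sig b) k') :=
    tendstoInMeasure_of_tendsto_eLpNorm (p := 2) (by norm_num) (fun n => hm (k n)) (hm k') h1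
  obtain ⟨ns, -, hns⟩ := h2.exists_seq_tendsto_ae
  refine Lp.eLpNorm_le_of_ae_tendsto (u := atTop) (f := fun i => U (sig b) (k (ns i)))
    (Eventually.of_forall fun i => ?_) (fun i => hm _) hns
  exact (eLpNorm_mono_measure _ Measure.restrict_le_self).trans (hc (ns i))

theorem part1 (hW : St_WkP) (hF : St_FldP) (hS : St_WkS) {b : ℝ} (hb : 4 < b)
    (k : ℕ → K) (k' : K) (h : WTo k k') : sn b k' ≤ liminf (fun n => sn b (k n)) atTop := by
  by_contra hcon
  rw [not_le] at hcon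
  obtain ⟨c, hc1, hc2⟩ := exists_between hcon
  have hfr : ∃ᶠ n in atTop, sn b (k n) < c := frequently_lt_of_liminf_lt (by isBoundedDefault) hc1
  obtain ⟨φ, hφ, hφc⟩ := extraction_of_frequently_atTop hfr
  have h1 : WTo (k ∘ φ) k' := hS.2.2.2.1 k k' φ h hφ
  have hm : AEStronglyMeasurable (U (sig b) k') volume := U_meas hF (sig_lt hb) k'
  have h2 : sn b k' ≤ c := by
    refine Lp.eLpNorm_le_of_ae_tendsto (u := atTop)
      (f := fun n : ℕ => (Metric.ball (0 : E) n).indicator (U (sig b) k'))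
      (Eventually.of_forall fun n => part1_ball hW hF hb h1 (fun i => (hφc i).le) n)
      (fun n => hm.indicator measurableSet_ball) (Eventually.of_forall fun x => ?_)
    refine tendsto_const_nhds.congr' ?_
    obtain ⟨N, hN⟩ := exists_nat_gt (dist x 0)
    filter_upwards [eventually_ge_atTop N] with n hn
    have : x ∈ Metric.ball (0 : E) n := by
      rw [Metric.mem_ball]
      exact hN.trans_le (by exact_mod_cast hn)
    rw [Set.indicator_of_mem this]
  exact absurd h2 (not_le.2 hc2)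

/-- the basic estimate of the difference -/
theorem diff_bd {b : ℝ} (hb : 4 < b) {u v φ : E → ℝ} {M : ℝ} (hu : AEStronglyMeasurable u volume)
    (hv : AEStronglyMeasurable v volume) (hφ : AEStronglyMeasurable φ volume)
    (hs : ∀ x, x ∉ Metric.ball (0 : E) M → φ x = 0) :
    eLpNorm (fun x => (Fn b (u x) - Fn b (v x)) * φ x) 1 volume ≤
      ENNReal.ofReal (b + 1) *
        (eLpNorm ((Metric.ball (0 : E) M).indicator (fun x => u x - v x)) 2 volume *
        ((eLpNorm u (ENNReal.ofReal (2 * b)) volume +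
          eLpNorm v (ENNReal.ofReal (2 * b)) volume) ^ b * eLpNorm φ ⊤ volume)) := by
  have hb0 : 0 < b := by linarith
  have m1 : AEStronglyMeasurable (fun x => |u x| + |v x|) (volume : Measure E) := by
    have a := hu.norm
    have b := hv.norm
    exact a.add b
  have m1b : AEStronglyMeasurable (fun x => (|u x| + |v x|) ^ b) (volume : Measure E) :=
    (Real.continuous_rpow_const hb0.le).comp_aestronglyMeasurable m1
  have m2 : AEStronglyMeasurable ((Metric.ball (0 : E) M).indicator (fun x => u x - v x))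
      (volume : Measure E) := (hu.sub hv).indicator measurableSet_ball
  have m3 : AEStronglyMeasurable (fun x => (|u x| + |v x|) ^ b * φ x)
      (volume : Measure E) := m1b.mul hφ
  have i2 : ENNReal.HolderTriple (ENNReal.ofReal 2) (ENNReal.ofReal 2)
      (ENNReal.ofReal 1) := holder (by norm_num) (by norm_num) (by norm_num) (by norm_num)
  have e2 : ENNReal.ofReal 2 = 2 := by norm_num
  have h1 : eLpNorm (fun x => (Fn b (u x) - Fn b (v x)) * φ x) 1 volume ≤
      ENNReal.ofReal (b + 1) * eLpNorm (fun x =>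
        (Metric.ball (0 : E) M).indicator (fun x => u x - v x) x *
          ((|u x| + |v x|) ^ b * φ x)) 1 volume := by
    refine eLpNorm_le_mul_eLpNorm_of_ae_le_mul (Eventually.of_forall fun x => ?_) 1
    by_cases hx : x ∈ Metric.ball (0 : E) M
    · rw [Set.indicator_of_mem hx]
      simp only [norm_mul, Real.norm_eq_abs]
      rw [abs_of_nonneg (Real.rpow_nonneg (add_nonneg (abs_nonneg (u x)) (abs_nonneg (v x))) b)]
      have h2 := NLwx.diff hb (u x) (v x)
      calc |Fn b (u x) - Fn b (v x)| * |φ x| ≤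
          ((b + 1) * ((|u x| + |v x|) ^ b * |u x - v x|)) * |φ x| :=
            mul_le_mul_of_nonneg_right h2 (abs_nonneg _)
        _ = (b + 1) * (|u x - v x| * ((|u x| + |v x|) ^ b * |φ x|)) := by ring
    · rw [hs x hx]; simp
  have h3 : eLpNorm (fun x => (Metric.ball (0 : E) M).indicator (fun x => u x - v x) x *
      ((|u x| + |v x|) ^ b * φ x)) (ENNReal.ofReal 1) volume ≤
      eLpNorm ((Metric.ball (0 : E) M).indicator (fun x => u x - v x)) (ENNReal.ofReal 2) volume *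
        eLpNorm (fun x => (|u x| + |v x|) ^ b * φ x) (ENNReal.ofReal 2) volume :=
    eLpNorm_smul_le_mul_eLpNorm
      (φ := (Metric.ball (0 : E) M).indicator (fun x => u x - v x))
      (f := fun x => (|u x| + |v x|) ^ b * φ x) m3 m2
  have h4 : eLpNorm (fun x => (|u x| + |v x|) ^ b * φ x) (ENNReal.ofReal 2) volume ≤
      eLpNorm (fun x => (|u x| + |v x|) ^ b) (ENNReal.ofReal 2) volume *
        eLpNorm φ ⊤ volume :=
    eLpNorm_smul_le_mul_eLpNorm (φ := fun x => (|u x| + |v x|) ^ b) (f := φ) hφ m1b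
  rw [ENNReal.ofReal_one] at h3
  have h5 : eLpNorm (fun x => (|u x| + |v x|) ^ b) (ENNReal.ofReal 2) volume =
      eLpNorm (fun x => |u x| + |v x|) (ENNReal.ofReal (2 * b)) volume ^ b := by
    have h6 := eLpNorm_norm_rpow (μ := (volume : Measure E)) (p := ENNReal.ofReal 2) (q := b)
      (fun x => |u x| + |v x|) hb0
    have h7 : ENNReal.ofReal 2 * ENNReal.ofReal b = ENNReal.ofReal (2 * b) := by
      rw [← ENNReal.ofReal_mul (by norm_num)]
    rw [h7] at h6
    rw [← h6]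
    congr 1
    funext x
    rw [Real.norm_of_nonneg (add_nonneg (abs_nonneg (u x)) (abs_nonneg (v x)))]
  have hq1 : 1 ≤ ENNReal.ofReal (2 * b) := by
    rw [ENNReal.one_le_ofReal]
    linarith
  have h8 : eLpNorm (fun x => |u x| + |v x|) (ENNReal.ofReal (2 * b)) volume ≤
      eLpNorm u (ENNReal.ofReal (2 * b)) volume +
        eLpNorm v (ENNReal.ofReal (2 * b)) volume := by
    have h9 := eLpNorm_add_le (μ := (volume : Measure E)) (f := fun x => |u x|)
      (g := fun x => |v x|) hu.norm hv.norm hq1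
    have h10 : eLpNorm (fun x => |u x|) (ENNReal.ofReal (2 * b)) (volume : Measure E) =
        eLpNorm u (ENNReal.ofReal (2 * b)) volume := eLpNorm_norm u
    have h11 : eLpNorm (fun x => |v x|) (ENNReal.ofReal (2 * b)) (volume : Measure E) =
        eLpNorm v (ENNReal.ofReal (2 * b)) volume := eLpNorm_norm v
    rw [h10, h11] at h9
    exact h9
  rw [e2] at h3 h4
  rw [e2] at h5
  rw [h5] at h4
  refine h1.trans (mul_le_mul_right (h3.trans (mul_le_mul_right (h4.trans ?_) _)) _)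
  exact mul_le_mul_left (ENNReal.rpow_le_rpow h8 hb0.le) _

/-- the pairing with a test state -/
theorem pair (hNw : St_NLw) {b : ℝ} (hb : 4 < b) (φ ψ : E → ℝ) (hφ : IsTest φ) (hψ : IsTest ψ)
    (w : K) (hw : sn b w < ⊤) : inner ℝ (NL b w) (Rs (sig b) φ + dRs (sig b) ψ) =
      ∫ x, Fn b (U (sig b) w x) * ψ x := by
  have h1 := ((hNw b hb _ hφ).1 w hw).1
  have h2 := ((hNw b hb _ hψ).1 w hw).2
  rw [inner_add_right, h1, h2, zero_add]

theorem part2 (hW : St_WkP) (hF : St_FldP) (hS : St_WkS) (hNw : St_NLw)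
    {b : ℝ} (hb : 4 < b) (k : ℕ → K) (k' : K) (φ ψ : E → ℝ) (hφ : IsTest φ) (hψ : IsTest ψ)
    (h : WTo k k') (hk : ∀ n, sn b (k n) < ⊤) (hk' : sn b k' < ⊤) :
    Tendsto (fun n => inner ℝ (NL b (k n)) (Rs (sig b) φ + dRs (sig b) ψ)) atTop
      (𝓝 (inner ℝ (NL b k') (Rs (sig b) φ + dRs (sig b) ψ))) := by
  have hs := sig_lt hb
  obtain ⟨CF, hCF, hF1, -, -⟩ := hF (sig b) hs
  rw [pair hNw hb φ ψ hφ hψ k' hk']
  simp only [fun n => pair hNw hb φ ψ hφ hψ (k n) (hk n)]
  obtain ⟨M, hM⟩ : ∃ M : ℝ, ∀ x, x ∉ Metric.ball (0 : E) M → ψ x = 0 := by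
    obtain ⟨M, hM⟩ := hψ.2.isCompact.isBounded.subset_ball 0
    exact ⟨M, fun x hx => image_eq_zero_of_notMem_tsupport fun h => hx (hM h)⟩
  obtain ⟨A, hA⟩ := hS.2.1 k k' h
  have hint : ∀ w : K, Integrable (fun x => Fn b (U (sig b) w x) * ψ x) volume :=
    (hNw b hb _ hψ).2.1
  set D : ℝ≥0∞ := (ENNReal.ofReal CF * ENNReal.ofReal A + ENNReal.ofReal CF * ‖k'‖ₑ) ^ b *
    eLpNorm ψ ⊤ volume with hD
  have hDfin : D ≠ ⊤ := by
    have h1 : eLpNorm ψ ⊤ (volume : Measure E) ≠ ⊤ :=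
      (hψ.1.continuous.memLp_of_hasCompactSupport (p := ⊤) hψ.2).2.ne
    rw [hD]
    refine ENNReal.mul_ne_top (ENNReal.rpow_ne_top_of_nonneg (by linarith) (by finiteness)) h1
  have hconv := conv_ball hW hF hs h M
  have hlim : Tendsto (fun n => ENNReal.ofReal (b + 1) *
      (eLpNorm ((Metric.ball (0 : E) M).indicator
      (fun x => U (sig b) (k n) x - U (sig b) k' x)) 2 volume * D)) atTop (𝓝 0) := by
    have h1 := ENNReal.Tendsto.mul_const (b := D) hconv (Or.inr hDfin)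
    rw [zero_mul] at h1
    have h2 := ENNReal.Tendsto.const_mul (a := ENNReal.ofReal (b + 1)) h1
      (Or.inr ENNReal.ofReal_ne_top)
    rwa [mul_zero] at h2
  rw [tendsto_iff_edist_tendsto_0]
  refine tendsto_of_tendsto_of_tendsto_of_le_of_le tendsto_const_nhds hlim (fun n => zero_le)
    (fun n => ?_)
  rw [edist_eq_enorm_sub, ← integral_sub (hint _) (hint _)]
  have e2 : (fun x => Fn b (U (sig b) (k n) x) * ψ x - Fn b (U (sig b) k' x) * ψ x) =
      fun x => (Fn b (U (sig b) (k n) x) - Fn b (U (sig b) k' x)) * ψ x := by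
    funext x; ring
  rw [e2]
  refine (enorm_integral_le_lintegral_enorm _).trans ?_
  rw [← eLpNorm_one_eq_lintegral_enorm]
  refine (diff_bd hb (hF1 (k n)).1.1.1 (hF1 k').1.1.1 hψ.1.continuous.aestronglyMeasurable hM).trans
    ?_
  rw [hD]
  have h1 := (hF1 (k n)).2.1
  have h2 := (hF1 k').2.1
  rw [q0_eq hb] at h1 h2
  have h3 : ‖k n‖ₑ ≤ ENNReal.ofReal A := by
    rw [← ofReal_norm]
    exact ENNReal.ofReal_le_ofReal (hA n)
  refine mul_le_mul_right (mul_le_mul_right (mul_le_mul_left ?_ _) _) _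
  refine ENNReal.rpow_le_rpow (add_le_add (h1.trans (mul_le_mul_right h3 _)) h2) (by linarith)

/-- bound for bounded test functions supported in a fixed ball -/
theorem bd3 (hF : St_FldP) {b : ℝ} (hb : 4 < b) (R Cd : ℝ) (hCd : 0 ≤ Cd) : ∃ X : ℝ, 0 ≤ X ∧
    ∀ (k : K) (h : E → ℝ), IsTest h → (∀ x, |h x| ≤ Cd) → (∀ x, R ≤ ‖x‖ → h x = 0) →
    |∫ x, Fn b (U (sig b) k x) * h x| ≤ X * ‖k‖ ^ (b + 1) := by
  have hs := sig_lt hb
  obtain ⟨CF, hCF, hF1, -, -⟩ := hF (sig b) hs
  have hb3 : 0 < b - 1 := by linarith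
  set B : Set E := Metric.closedBall (0 : E) R with hB
  set p : ℝ≥0∞ := ENNReal.ofReal (2 * b / (b - 1)) with hp
  set G : ℝ≥0∞ := ENNReal.ofReal Cd * volume B ^ (1 / p.toReal) with hG
  have hGfin : G ≠ ⊤ := by
    have h1 : volume B ≠ ⊤ := measure_closedBall_lt_top.ne
    rw [hG]
    refine ENNReal.mul_ne_top ENNReal.ofReal_ne_top (ENNReal.rpow_ne_top_of_nonneg ?_ h1)
    positivity
  set X : ℝ≥0∞ := ENNReal.ofReal (b + 1) *
    (ENNReal.ofReal CF ^ b * (ENNReal.ofReal CF * G)) with hX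
  have hXfin : X ≠ ⊤ := by
    rw [hX]
    refine ENNReal.mul_ne_top ENNReal.ofReal_ne_top (ENNReal.mul_ne_top
      (ENNReal.rpow_ne_top_of_nonneg (by linarith) ENNReal.ofReal_ne_top)
      (ENNReal.mul_ne_top ENNReal.ofReal_ne_top hGfin))
  refine ⟨X.toReal, ENNReal.toReal_nonneg, fun k h hh hle hsupp => ?_⟩
  have hG' : eLpNorm h p volume ≤ G := by
    have hz : ∀ x, x ∉ B → h x = 0 := by
      intro x hx
      refine hsupp x ?_
      rw [hB, Metric.mem_closedBall, not_le, dist_zero_right] at hx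
      exact hx.le
    have h1 : h = B.indicator h := by
      symm
      rw [Set.indicator_eq_self]
      intro x hx
      by_contra hcon
      exact hx (hz x hcon)
    have h2 : ∀ x, ‖B.indicator h x‖ ≤ ‖B.indicator (fun _ => Cd) x‖ := by
      intro x
      by_cases hx : x ∈ B
      · rw [Set.indicator_of_mem hx, Set.indicator_of_mem hx, Real.norm_eq_abs, Real.norm_eq_abs,
          abs_of_nonneg hCd]
        exact hle x
      · rw [Set.indicator_of_notMem hx, Set.indicator_of_notMem hx]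
    rw [h1]
    refine (eLpNorm_mono h2).trans ?_
    refine (eLpNorm_indicator_const_le _ _).trans (le_of_eq ?_)
    rw [hG, Real.enorm_eq_ofReal hCd]
  have hu := (hF1 k).2.1
  rw [q0_eq hb] at hu
  have hall : ‖∫ x, Fn b (U (sig b) k x) * h x‖ₑ ≤ X * ‖k‖ₑ ^ (b + 1) := by
    refine (enorm_integral_le_lintegral_enorm _).trans ?_
    rw [← eLpNorm_one_eq_lintegral_enorm]
    have h1 := est hb (U (sig b) k) (fun _ => (0 : ℝ)) h (hF1 k).1.1.1
      aestronglyMeasurable_const hh.1.continuous.aestronglyMeasurable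
    have hFn0 : Fn b 0 = 0 := by
      unfold Fn
      rw [mul_zero]
    have h0 : eLpNorm (fun _ : E => (0 : ℝ)) (ENNReal.ofReal (2 * b)) volume = 0 :=
      eLpNorm_zero
    simp only [hFn0, sub_zero, h0, add_zero] at h1
    refine h1.trans ?_
    have h2 : ‖k‖ₑ ^ (b + 1) = ‖k‖ₑ ^ b * ‖k‖ₑ := by
      rw [ENNReal.rpow_add_of_nonneg _ _ (by linarith) (by norm_num), ENNReal.rpow_one]
    have h3 : X * ‖k‖ₑ ^ (b + 1) = ENNReal.ofReal (b + 1) *
        ((ENNReal.ofReal CF * ‖k‖ₑ) ^ b * ((ENNReal.ofReal CF * ‖k‖ₑ) * G)) := by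
      rw [hX, h2, ENNReal.mul_rpow_of_nonneg _ _ (by linarith)]
      ring
    rw [h3]
    refine mul_le_mul_right (mul_le_mul' (ENNReal.rpow_le_rpow hu (by linarith))
      (mul_le_mul' hu hG')) _
  have h7 := ENNReal.toReal_mono (ENNReal.mul_ne_top hXfin
    (ENNReal.rpow_ne_top_of_nonneg (by linarith) enorm_ne_top)) hall
  rw [toReal_enorm, Real.norm_eq_abs, ENNReal.toReal_mul, ← ENNReal.toReal_rpow,
    toReal_enorm] at h7
  exact h7

theorem part3 (hF : St_FldP) (hNw : St_NLw) (hDec : St_Dcy) {b : ℝ} (hb : 4 < b)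
    (φ ψ : E → ℝ) (M : ℝ) (hφ : IsTest φ) (hψ : IsTest ψ) : ∃ C : ℝ, 0 < C ∧
    ∀ (r : ℝ) (k : K), |r| ≤ M → sn b k < ⊤ →
    |inner ℝ (NL b k) (tau r (Rs (sig b) φ + dRs (sig b) ψ))| ≤ C * ‖k‖ ^ (b + 1) := by
  obtain ⟨hs1, hs2⟩ := abs_lt.1 (sig_lt hb)
  obtain ⟨C1, M1, hC1, hM1, hd1⟩ := hDec φ hφ
  obtain ⟨C2, M2, hC2, hM2, hd2⟩ := hDec ψ hψ
  obtain ⟨X1, hX1, hb1⟩ := bd3 hF hb (M + M1) C1 hC1.le
  obtain ⟨X2, hX2, hb2⟩ := bd3 hF hb (M + M2) C2 hC2.le
  refine ⟨X1 + X2 + 1, by positivity, fun r k hr hk => ?_⟩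
  obtain ⟨f1, f2, hf1, hf2, ht1, hz1, hn1, -⟩ := hd1 r
  obtain ⟨g1, g2, hg1, hg2, ht2, hz2, hn2, -⟩ := hd2 r
  have hl : IsTest (lap g2) := by
    have hpd : ∀ (i : Fin 4) {φ : E → ℝ}, IsTest φ → IsTest (pd i φ) := by
      intro i φ h
      refine ⟨?_, h.2.fderiv_apply ℝ _⟩
      exact (h.1.fderiv_right (m := ∞) (by simp)).clm_apply contDiff_const
    refine ⟨ContDiff.sum fun i _ => (hpd i (hpd i hg2)).1, ?_⟩
    refine HasCompactSupport.intro hg2.2 fun x hx => ?_
    refine Finset.sum_eq_zero fun i _ => ?_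
    exact image_eq_zero_of_notMem_tsupport fun h2 =>
      hx (tsupport_fderiv_apply_subset ℝ _ (tsupport_fderiv_apply_subset ℝ _ h2))
  have e1 : tau r (Rs (sig b) φ + dRs (sig b) ψ) =
      (Rs (sig b) f1 + dRs (sig b) f2) + (Rs (sig b) (lap g2) + dRs (sig b) g1) := by
    rw [map_add, (ht1 (sig b) (by linarith) hs2).1, (ht2 (sig b) (by linarith) hs2).2.1]
  rw [e1, inner_add_right, pair hNw hb f1 f2 hf1 hf2 k hk, pair hNw hb (lap g2) g1 hl hg1 k hk]
  have hpow : ∀ C : ℝ, 0 < C → C / (1 + |r|) ^ (3 / 2 : ℝ) ≤ C := fun C hC => by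
    refine div_le_self hC.le (Real.one_le_rpow ?_ (by norm_num))
    linarith [abs_nonneg r]
  have h1 := hb1 k f2 hf2 (fun x => by
    have := (hn1 x 0 (by norm_num)).2
    rw [norm_iteratedFDeriv_zero, Real.norm_eq_abs] at this
    exact this.trans (hpow C1 hC1)) (fun x hx => (hz1 x (by linarith)).2)
  have h2 := hb2 k g1 hg1 (fun x => by
    have := (hn2 x 0 (by norm_num)).1
    rw [norm_iteratedFDeriv_zero, Real.norm_eq_abs] at this
    exact this.trans (hpow C2 hC2)) (fun x hx => (hz2 x (by linarith)).1)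
  have h3 : 0 ≤ ‖k‖ ^ (b + 1) := by positivity
  refine (abs_add_le _ _).trans ((add_le_add h1 h2).trans ?_)
  nlinarith

end NLcx

open NLcx in
/-- **NLc** (weak continuity of the nonlinearity) -/
theorem thm_NLc (hW : St_WkP) (hS : St_WkS) (hF : St_FldP) (hNw : St_NLw)
    (hDec : St_Dcy) : St_NLc := fun _ hb =>
  ⟨fun k k' h => part1 hW hF hS hb k k' h,
    fun k k' φ ψ hφ hψ h hk hk' => part2 hW hF hS hNw hb k k' φ ψ hφ hψ h hk hk',
    fun φ ψ M hφ hψ => part3 hF hNw hDec hb φ ψ M hφ hψ⟩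

end Pool.Agent.QWF
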