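import Pool.Agent.QWF.StE

/-!
# QWF (port by helper96), module NLi: integrability of the source along a solution (helper18)
-/

set_option autoImplicit false

open MeasureTheory Filter Topology Set
open scoped ENNReal NNReal RealInnerProductSpace

namespace Pool.Agent.QWF

namespace NLix

/-- an isometry commutes with the interval integral. -/
theorem iso_int (L : K →ₗᵢ[ℝ] K) (f : ℝ → K) (a b : ℝ) :
    L (∫ r in a..b, f r) = ∫ r in a..b, L (f r) := by
  unfold intervalIntegral
  rw [map_sub, ← LinearIsometry.integral_comp_comm, ← LinearIsometry.integral_comp_comm]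

/-- integrability of the source. -/
theorem source {β C B : ℝ} (hβ : 4 < β) (hM : St_Meas)
    (hN : ∀ k : K, ‖NL β k‖ₑ ≤ ENNReal.ofReal C * sn β k ^ β * ‖k‖ₑ) (k : ℝ → K) (J : Set ℝ)
    (hJ : MeasurableSet J) (hk : AEStronglyMeasurable k (volume.restrict J))
    (hkb : ∀ t ∈ J, ‖k t‖ ≤ B) (hS : SN β J k < ⊤) :
    IntegrableOn (fun t => NL β (k t)) J volume ∧ ∀ᵐ t ∂(volume.restrict J), sn β (k t) < ⊤ := by
  obtain ⟨hm, -, m2⟩ := hM β hβ k J hJ hk
  have hfin : ∀ᵐ r ∂(volume.restrict J), sn β (k r) < ⊤ := by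
    filter_upwards [ae_lt_top' (hm.pow_const β) hS.ne] with r hr
    by_contra hcon
    rw [not_lt, top_le_iff] at hcon
    rw [hcon, ENNReal.top_rpow_of_pos (by linarith)] at hr
    simp at hr
  have hNm := m2 hfin
  refine ⟨⟨hNm, ?_⟩, hfin⟩
  have hle : ∫⁻ t in J, ‖NL β (k t)‖ₑ ≤ (ENNReal.ofReal C * ENNReal.ofReal B) * SN β J k := by
    calc ∫⁻ t in J, ‖NL β (k t)‖ₑ
        ≤ ∫⁻ t in J, (ENNReal.ofReal C * ENNReal.ofReal B) * sn β (k t) ^ β := by
          refine setLIntegral_mono' hJ fun t ht => ?_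
          have h1 : ‖k t‖ₑ ≤ ENNReal.ofReal B := by
            rw [← ofReal_norm]
            exact ENNReal.ofReal_le_ofReal (hkb t ht)
          calc ‖NL β (k t)‖ₑ ≤ ENNReal.ofReal C * sn β (k t) ^ β * ‖k t‖ₑ := hN (k t)
            _ ≤ ENNReal.ofReal C * sn β (k t) ^ β * ENNReal.ofReal B := by gcongr
            _ = (ENNReal.ofReal C * ENNReal.ofReal B) * sn β (k t) ^ β := by ring
      _ = (ENNReal.ofReal C * ENNReal.ofReal B) * SN β J k :=
          lintegral_const_mul' _ _ (ENNReal.mul_ne_top ENNReal.ofReal_ne_top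
            ENNReal.ofReal_ne_top)
  refine lt_of_le_of_lt hle ?_
  exact ENNReal.mul_lt_top (ENNReal.mul_lt_top ENNReal.ofReal_lt_top ENNReal.ofReal_lt_top) hS

end NLix

open NLix

theorem thm_NLi (hG : St_Grp1) (hN : St_NLb) (hM : St_Meas) : St_NLi := by
  obtain ⟨g1, g2, -⟩ := hG
  intro β hβ I k hk
  obtain ⟨⟨C, hC, hN1, -⟩, -⟩ := hN β hβ
  obtain ⟨hI, hc, hS, hD⟩ := hk
  refine ⟨?_, ?_⟩
  · intro a ha b hb
    have hsub : Icc a b ⊆ I := hI.out ha hb
    have hc' : ContinuousOn k (Icc a b) := hc.mono hsub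
    obtain ⟨B, hB⟩ := isCompact_Icc.exists_bound_of_continuousOn hc'
    exact source hβ hM hN1 k (Icc a b) measurableSet_Icc
      (hc'.aestronglyMeasurable measurableSet_Icc) (fun t ht => hB t ht) (hS a ha b hb)
  · intro t0 ht0 t ht
    rw [hD t0 ht0 t ht, map_sub, iso_int, g1]
    have e1 : t0 - t + (t - t0) = 0 := by ring
    rw [e1, g2]
    congr 1
    refine intervalIntegral.integral_congr fun r _ => ?_
    change tau (t0 - t) (tau (t - r) (NL β (k r))) = tau (t0 - r) (NL β (k r))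
    rw [g1]
    congr 2
    ring

end Pool.Agent.QWF
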