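import Pool.Agent.QWF.StA

set_option autoImplicit false

/-!
# QWF / NaB: calculus of `na`
-/

open MeasureTheory Filter Topology Set
open scoped ENNReal NNReal RealInnerProductSpace

namespace Pool.Agent.QWF


namespace NaBx

theorem Nice_mono {A B : Set (S × ℝ)} (hAB : A ⊆ B) {h : S × ℝ → ℝ} (hh : Nice A h) : Nice B h := by
  obtain ⟨g, h1, h2, h3, h4⟩ := hh
  exact ⟨g, h1, h2, h3, h4.trans hAB⟩

theorem PS_mono {s : ℝ} {A B : Set (S × ℝ)} (hAB : A ⊆ B) : PS s A ≤ PS s B := by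
  refine Submodule.topologicalClosure_mono (Submodule.span_mono ?_)
  rintro w ⟨h, h1, h2⟩
  exact ⟨h, Nice_mono hAB h1, h2⟩

theorem gen_mem {s : ℝ} {A : Set (S × ℝ)} {h : S × ℝ → ℝ} (hh : Nice A h) : JK s h ∈ PS s A :=
  Submodule.le_topologicalClosure _ (Submodule.subset_span ⟨h, hh, rfl⟩)

theorem orth_iff {s : ℝ} {A : Set (S × ℝ)} {k : K} : k ∈ (PS s A)ᗮ ↔
    ∀ h, Nice A h → inner ℝ k (JK s h) = 0 := by
  constructor
  · intro h g hg
    exact Submodule.inner_left_of_mem_orthogonal (gen_mem hg) h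
  · intro h
    unfold PS
    rw [Submodule.orthogonal_closure, Submodule.mem_orthogonal']
    intro u hu
    induction hu using Submodule.span_induction with
    | mem x hx =>
      obtain ⟨g, h1, rfl⟩ := hx
      exact h g h1
    | zero => exact inner_zero_right _
    | add x y _ _ hx hy => rw [inner_add_right, hx, hy, add_zero]
    | smul c x _ hx => rw [inner_smul_right, hx, mul_zero]

theorem proj_conj (T : K →ₗᵢ[ℝ] K) (A B : Submodule ℝ K) [A.HasOrthogonalProjection]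
    [B.HasOrthogonalProjection] (h1 : ∀ w ∈ A, T w ∈ B) (h2 : ∀ w ∈ B, ∃ w' ∈ A, T w' = w) (k : K) :
    ‖B.starProjection (T k)‖ = ‖A.starProjection k‖ := by
  have h3 : B.starProjection (T k) = T (A.starProjection k) := by
    apply Submodule.eq_starProjection_of_mem_of_inner_eq_zero
    · exact h1 _ (Submodule.starProjection_apply_mem _ _)
    · intro w hw
      obtain ⟨w', hw', rfl⟩ := h2 w hw
      rw [← map_sub, LinearIsometry.inner_map_map]
      exact Submodule.starProjection_inner_eq_zero _ _ hw'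
  rw [h3, LinearIsometry.norm_map]

theorem map_PS (T : K →ₗᵢ[ℝ] K) (s : ℝ) (A B : Set (S × ℝ))
    (h : ∀ g, Nice A g → ∃ g', Nice B g' ∧ T (JK s g) = JK s g') :
    ∀ w ∈ PS s A, T w ∈ PS s B := by
  have h1 : PS s A ≤ (PS s B).comap T.toLinearMap := by
    unfold PS
    refine Submodule.topologicalClosure_minimal _ ?_ ?_
    · rw [Submodule.span_le]
      rintro w ⟨g, hg, rfl⟩
      obtain ⟨g', hg', hT⟩ := h g hg
      have h2 : T (JK s g) ∈ PS s B := by
        rw [hT]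
        exact gen_mem hg'
      exact h2
    · exact (Submodule.isClosed_topologicalClosure _).preimage T.continuous
  exact fun w hw => h1 hw

/-- transport of a nice function -/
theorem Nice_comp {A B : Set (S × ℝ)} {h : S × ℝ → ℝ} (hh : Nice A h) (T : S × ℝ → S × ℝ)
    (hT : Continuous T) (G : E × ℝ → E × ℝ) (hG : ContDiff ℝ ((⊤ : ℕ∞) : WithTop ℕ∞) G)
    (hGT : ∀ z : S × ℝ, G ((z.1 : E), z.2) = (((T z).1 : E), (T z).2)) (c : ℝ)
    (hp : ∀ (x : E) (p : ℝ), ‖x‖ ≤ 2 → |p| ≤ |(G (x, p)).2| + c) (hAB : ∀ z, T z ∈ A → z ∈ B) :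
    Nice B (fun z => h (T z)) := by
  obtain ⟨g, h1, ⟨M, h2⟩, h3, h4⟩ := hh
  let f : ContDiffBump (0 : E) := ⟨1, 2, one_pos, one_lt_two⟩
  refine ⟨fun q => f q.1 * g (G q), ?_, ⟨M + c, ?_⟩, ?_, ?_⟩
  · exact (f.contDiff.comp contDiff_fst).mul (h1.comp hG)
  · intro x p hM
    show f x * g (G (x, p)) = 0
    by_cases hx : ‖x‖ ≤ 2
    · have h5 := hp x p hx
      have h6 : g (G (x, p)) = 0 := h2 _ _ (by linarith)
      rw [h6, mul_zero]
    · have h5 : f x = 0 := f.zero_of_le_dist (by rw [dist_zero_right]; exact (not_le.1 hx).le)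
      rw [h5, zero_mul]
  · intro z
    have h5 : f (z.1 : E) = 1 := f.one_of_mem_closedBall (by
      rw [mem_closedBall_zero_iff, norm_eq_of_mem_sphere])
    show h (T z) = f (z.1 : E) * g (G ((z.1 : E), z.2))
    rw [h5, one_mul, hGT, h3]
  · intro z hz
    apply hAB
    apply h4
    exact (hT.closure_preimage_subset {z | h z ≠ 0}) hz

theorem Nice_tau {A B : Set (S × ℝ)} {h : S × ℝ → ℝ} (hh : Nice A h) (t : ℝ)
    (hAB : ∀ z : S × ℝ, (z.1, z.2 - t) ∈ A → z ∈ B) : Nice B (fun z => h (z.1, z.2 - t)) := by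
  refine Nice_comp hh (fun z => (z.1, z.2 - t)) (by fun_prop) (fun q => (q.1, q.2 - t))
    (contDiff_fst.prodMk (contDiff_snd.sub contDiff_const)) (fun z => rfl) |t| ?_ hAB
  intro x p _
  show |p| ≤ |p - t| + |t|
  have := abs_add_le (p - t) t
  rwa [sub_add_cancel] at this

theorem Nice_sh {A B : Set (S × ℝ)} {h : S × ℝ → ℝ} (hh : Nice A h) (y : E)
    (hAB : ∀ z : S × ℝ, (z.1, z.2 - inner ℝ y (z.1 : E)) ∈ A → z ∈ B) :
    Nice B (fun z => h (z.1, z.2 - inner ℝ y (z.1 : E))) := by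
  refine Nice_comp hh (fun z => (z.1, z.2 - inner ℝ y (z.1 : E))) (by fun_prop)
    (fun q => (q.1, q.2 - inner ℝ y q.1))
    (contDiff_fst.prodMk (contDiff_snd.sub (contDiff_const.inner ℝ contDiff_fst)))
    (fun z => rfl) (‖y‖ * 2) ?_ hAB
  intro x p hx
  show |p| ≤ |p - inner ℝ y x| + ‖y‖ * 2
  have h1 := abs_add_le (p - inner ℝ y x) (inner ℝ y x)
  rw [sub_add_cancel] at h1
  have h2 : |inner ℝ y x| ≤ ‖y‖ * ‖x‖ := abs_real_inner_le_norm y x
  have h3 : ‖y‖ * ‖x‖ ≤ ‖y‖ * 2 := mul_le_mul_of_nonneg_left hx (norm_nonneg _)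
  linarith

theorem Nice_rev {A B : Set (S × ℝ)} {h : S × ℝ → ℝ} (hh : Nice A h)
    (hAB : ∀ z : S × ℝ, (-z.1, -z.2) ∈ A → z ∈ B) : Nice B (fun z => h (-z.1, -z.2)) := by
  refine Nice_comp hh (fun z => (-z.1, -z.2)) (by fun_prop) (fun q => (-q.1, -q.2))
    (contDiff_fst.neg.prodMk contDiff_snd.neg) (fun z => rfl) 0 ?_ hAB
  intro x p _
  show |p| ≤ |(-p)| + 0
  rw [abs_neg, add_zero]

theorem Nice_cmul {A : Set (S × ℝ)} {h : S × ℝ → ℝ} (hh : Nice A h) (c : ℝ) :
    Nice A (fun z => c * h z) := by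
  obtain ⟨g, h1, ⟨M, h2⟩, h3, h4⟩ := hh
  refine ⟨fun q => c * g q, contDiff_const.mul h1, ⟨M, fun x p hp => ?_⟩, fun z => ?_, ?_⟩
  · show c * g (x, p) = 0
    rw [h2 x p hp, mul_zero]
  · show c * h z = c * g ((z.1 : E), z.2)
    rw [h3]
  · refine (closure_mono ?_).trans h4
    intro z hz
    have hz' : c * h z ≠ 0 := hz
    exact right_ne_zero_of_mul hz'

end NaBx

open NaBx

theorem thm_NaB (hPJ : St_PJ) (hG1 : St_Grp1) (hG2 : St_Grp2) :
    St_NaB := by
  intro s hs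
  obtain ⟨hJ, -⟩ := hPJ s hs
  have up : ∀ {A : Set (S × ℝ)} {h : S × ℝ → ℝ}, Nice A h → Nice univ h := fun hh =>
    Nice_mono (subset_univ _) hh
  refine ⟨?_, ?_, ?_, ?_, ?_, ?_, ?_⟩
  · intro A k k'
    constructor
    · refine (abs_norm_sub_norm_le _ _).trans ?_
      rw [← map_sub]
      exact Submodule.norm_starProjection_apply_le _ _
    · unfold na
      rw [map_add]
      exact norm_add_le _ _
  · exact fun A k => ⟨Submodule.norm_starProjection_apply_le _ _, norm_nonneg _⟩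
  · intro A A' k hAA
    unfold na
    have h1 := Submodule.starProjection_comp_starProjection_of_le (PS_mono (s := s) hAA)
    have h2 : (PS s A).starProjection ((PS s A').starProjection k) = (PS s A).starProjection k :=
      congrArg (fun T : K →L[ℝ] K => T k) h1
    rw [← h2]
    exact Submodule.norm_starProjection_apply_le _ _
  · intro A k
    rw [na, norm_eq_zero, Submodule.starProjection_apply_eq_zero_iff]
    exact orth_iff
  · intro A t k
    unfold na
    refine proj_conj (tau t) _ _ ?_ ?_ k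
    · refine map_PS (tau t) s _ _ fun g hg => ⟨fun z => g (z.1, z.2 - t), Nice_tau hg t ?_,
        (hJ g (up hg)).2.2.2.1 t⟩
      intro z hz
      have hz' : ((z.1, z.2 - t + t) : S × ℝ) ∈ A := hz
      rwa [sub_add_cancel] at hz'
    · intro w hw
      refine ⟨tau (-t) w, ?_, by rw [hG1.1, add_neg_cancel, hG1.2.1]⟩
      refine map_PS (tau (-t)) s A _ (fun g hg => ⟨fun z => g (z.1, z.2 - -t), Nice_tau hg (-t) ?_,
        (hJ g (up hg)).2.2.2.1 (-t)⟩) w hw
      intro z hz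
      rw [sub_neg_eq_add] at hz
      exact hz
  · intro A y k
    unfold na
    refine proj_conj (sh y) _ _ ?_ ?_ k
    · refine map_PS (sh y) s _ _ fun g hg => ⟨fun z => g (z.1, z.2 - inner ℝ y (z.1 : E)),
        Nice_sh hg y ?_, (hJ g (up hg)).2.2.2.2.1 y⟩
      intro z hz
      have hz' : ((z.1, z.2 - inner ℝ y (z.1 : E) + inner ℝ y (z.1 : E)) : S × ℝ) ∈ A := hz
      rwa [sub_add_cancel] at hz'
    · intro w hw
      refine ⟨sh (-y) w, ?_, by rw [hG1.2.2.1, add_neg_cancel, hG1.2.2.2.1]⟩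
      refine map_PS (sh (-y)) s A _ (fun g hg => ⟨fun z => g (z.1, z.2 - inner ℝ (-y) (z.1 : E)),
        Nice_sh hg (-y) ?_, (hJ g (up hg)).2.2.2.2.1 (-y)⟩) w hw
      intro z hz
      rw [inner_neg_left, sub_neg_eq_add] at hz
      exact hz
  · intro A k
    unfold na
    have key : ∀ A B : Set (S × ℝ), (∀ z : S × ℝ, (-z.1, -z.2) ∈ A → z ∈ B) →
        ∀ w ∈ PS s A, rev w ∈ PS s B := by
      intro A B hAB
      refine map_PS rev s A B fun g hg => ⟨fun z => -1 * g (-z.1, -z.2),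
        Nice_cmul (Nice_rev hg hAB) (-1), ?_⟩
      have hJ1 := (hJ _ (up (Nice_rev (B := B) hg hAB))).2.2.2.2.2.2.1 (-1)
      rw [hJ1, (hJ g (up hg)).2.2.2.2.2.1, neg_one_smul]
    refine proj_conj rev _ _ ?_ ?_ k
    · refine key _ _ ?_
      intro z hz
      have hz' : ((- -z.1, - -z.2) : S × ℝ) ∈ A := hz
      rwa [neg_neg, neg_neg] at hz'
    · intro w hw
      exact ⟨rev w, key _ _ (fun z hz => hz) w hw, hG2.2.2.1 w⟩

end Pool.Agent.QWF
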