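import Pool.Agent.QWF.StA

/-!
# QWF, NcR: Radon transforms of test functions are nice
-/

set_option autoImplicit false

open MeasureTheory Filter Topology Set
open scoped ENNReal NNReal RealInnerProductSpace ContDiff Convolution

namespace Pool.Agent.QWF

namespace NcRx

/-- the unit vector in the direction of `v` -/
noncomputable def hat (v : E) : E := ‖v‖⁻¹ • v

lemma norm_hat {v : E} (hv : v ≠ 0) : ‖hat v‖ = 1 := by
  unfold hat
  rw [norm_smul, norm_inv, norm_norm]
  exact inv_mul_cancel₀ (norm_ne_zero_iff.2 hv)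

lemma hat_of_norm {v : E} (hv : ‖v‖ = 1) : hat v = v := by
  unfold hat
  rw [hv, inv_one, one_smul]

lemma hat_contDiffOn : ContDiffOn ℝ ∞ hat {v : E | v ≠ 0} := by
  intro v hv
  have h1 : ContDiffAt ℝ ∞ (fun v : E => ‖v‖) v := contDiffAt_norm ℝ hv
  exact ((h1.inv (norm_ne_zero_iff.2 hv)).smul contDiffAt_id).contDiffWithinAt

/-- the Radon transform with the direction `hat v` -/
noncomputable def GF (φ : E → ℝ) (v : E) (p : ℝ) : ℝ :=
  ∫ x : E, {x : E | inner ℝ x (hat v) ≤ p}.indicator (fun x => fderiv ℝ φ x (hat v)) x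

lemma GF_rad (φ : E → ℝ) (w : S) (p : ℝ) : GF φ (w : E) p = Rad φ (w, p) := by
  have h : hat (w : E) = (w : E) := hat_of_norm (by simp)
  unfold GF Rad
  rw [h]

lemma GF_rad' (φ : E → ℝ) {v : E} (hv : v ≠ 0) (p : ℝ) :
    GF φ v p = Rad φ (⟨hat v, by simp [norm_hat hv]⟩, p) := rfl

/-- the reflection in the line through `u` -/
noncomputable def Lf (u : E) : E ≃ₗᵢ[ℝ] E := (Submodule.span ℝ {u}).reflection

lemma Lf_apply (u z : E) : Lf u z = (2 * (inner ℝ u z / ‖u‖ ^ 2)) • u - z := by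
  unfold Lf
  rw [Submodule.reflection_singleton_apply]
  simp only [RCLike.ofReal_real_eq_id, id_eq]
  congr 1
  rw [mul_smul, two_smul, two_smul]

lemma Lf_swap {e f : E} (he : ‖e‖ = 1) (hf : ‖f‖ = 1) (hne : e + f ≠ 0) : Lf (e + f) e = f := by
  rw [Lf_apply]
  have h1 : ‖e + f‖ ^ 2 = 2 * inner ℝ (e + f) e := by
    rw [norm_add_sq_real, inner_add_left, real_inner_self_eq_norm_sq, he, hf,
      real_inner_comm f e]
    ring
  have h2 : ‖e + f‖ ^ 2 ≠ 0 := pow_ne_zero 2 (norm_ne_zero_iff.2 hne)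
  have h3 : 2 * (inner ℝ (e + f) e / ‖e + f‖ ^ 2) = 1 := by
    rw [← mul_div_assoc, ← h1, div_self h2]
  rw [h3, one_smul]
  abel

lemma GF_eq (φ : E → ℝ) (v e : E) (p : ℝ) (hv : v ≠ 0) (he : ‖e‖ = 1) (hne : e + hat v ≠ 0) :
    GF φ v p = ∫ z : E, {z : E | inner ℝ z e ≤ 0}.indicator (fun _ => (1 : ℝ)) z *
      fderiv ℝ φ (Lf (e + hat v) z + p • hat v) (hat v) := by
  have hh := norm_hat hv
  unfold GF
  rw [← integral_add_right_eq_self _ (p • hat v),
    ← (Lf (e + hat v)).measurePreserving.integral_comp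
      (Lf (e + hat v)).toHomeomorph.measurableEmbedding]
  refine integral_congr_ae (Eventually.of_forall fun z => ?_)
  have h1 : inner ℝ (Lf (e + hat v) z + p • hat v) (hat v) = inner ℝ z e + p := by
    rw [inner_add_left, inner_smul_left, real_inner_self_eq_norm_sq, hh]
    have h2 : inner ℝ (Lf (e + hat v) z) (hat v) = inner ℝ z e := by
      have h3 := (Lf (e + hat v)).inner_map_map z e
      rw [Lf_swap he hh hne] at h3
      exact h3
    rw [h2]
    simp
  by_cases hz : inner ℝ z e ≤ 0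
  · have h4 : Lf (e + hat v) z + p • hat v ∈ {x : E | inner ℝ x (hat v) ≤ p} := by
      show inner ℝ (Lf (e + hat v) z + p • hat v) (hat v) ≤ p
      rw [h1]; linarith
    have h5 : z ∈ {z : E | inner ℝ z e ≤ 0} := hz
    simp only [indicator_of_mem h4, indicator_of_mem h5, one_mul]
  · have h4 : Lf (e + hat v) z + p • hat v ∉ {x : E | inner ℝ x (hat v) ≤ p} := by
      show ¬ inner ℝ (Lf (e + hat v) z + p • hat v) (hat v) ≤ p
      rw [h1]; intro h; apply hz; linarith
    have h5 : z ∉ {z : E | inner ℝ z e ≤ 0} := hz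
    simp only [indicator_of_notMem h4, indicator_of_notMem h5, zero_mul]

/-- the integrand -/
noncomputable def gg (φ : E → ℝ) (e : E) (q : E × ℝ) (t : E) : ℝ :=
  fderiv ℝ φ (Lf (e + hat q.1) (-t) + q.2 • hat q.1) (hat q.1)

/-- the domain of the parameters -/
def dom (e : E) (R : ℝ) : Set (E × ℝ) :=
  {q | q.1 ≠ 0 ∧ e + hat q.1 ≠ 0 ∧ |q.2| < R}

lemma dom_open (e : E) (R : ℝ) : IsOpen (dom e R) := by
  have h0 : IsOpen {q : E × ℝ | q.1 ≠ 0} := isOpen_ne.preimage continuous_fst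
  have h1 : ContinuousOn (fun q : E × ℝ => e + hat q.1) {q : E × ℝ | q.1 ≠ 0} :=
    continuousOn_const.add (hat_contDiffOn.continuousOn.comp continuous_fst.continuousOn
      (fun q hq => hq))
  have h2 := h1.isOpen_inter_preimage h0 (isOpen_compl_singleton (x := (0 : E)))
  have h3 : IsOpen {q : E × ℝ | |q.2| < R} :=
    isOpen_lt (continuous_abs.comp continuous_snd) continuous_const
  have h4 : dom e R = ({q : E × ℝ | q.1 ≠ 0} ∩ (fun q : E × ℝ => e + hat q.1) ⁻¹' {0}ᶜ) ∩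
      {q : E × ℝ | |q.2| < R} := by
    ext q
    constructor
    · rintro ⟨a, b, c⟩
      exact ⟨⟨a, b⟩, c⟩
    · rintro ⟨⟨a, b⟩, c⟩
      exact ⟨a, b, c⟩
  rw [h4]
  exact h2.inter h3

lemma gg_contDiffOn {φ : E → ℝ} (hφ : IsTest φ) (e : E) (R : ℝ) :
    ContDiffOn ℝ ∞ (Function.HasUncurry.uncurry (gg φ e)) (dom e R ×ˢ univ) := by
  have h1 : ContDiffOn ℝ ∞ (fun x : (E × ℝ) × E => hat x.1.1) (dom e R ×ˢ univ) :=
    hat_contDiffOn.comp (contDiff_fst.comp contDiff_fst).contDiffOn (fun x hx => hx.1.1)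
  have h2 : ContDiffOn ℝ ∞ (fun x : (E × ℝ) × E => e + hat x.1.1) (dom e R ×ˢ univ) :=
    contDiffOn_const.add h1
  have h3 : ContDiffOn ℝ ∞ (fun x : (E × ℝ) × E => -x.2) (dom e R ×ˢ univ) :=
    contDiff_snd.neg.contDiffOn
  have h4 : ContDiffOn ℝ ∞ (fun x : (E × ℝ) × E =>
      2 * (inner ℝ (e + hat x.1.1) (-x.2) / ‖e + hat x.1.1‖ ^ 2)) (dom e R ×ˢ univ) :=
    contDiffOn_const.mul ((h2.inner ℝ h3).div (h2.norm_sq ℝ)
      (fun x hx => pow_ne_zero 2 (norm_ne_zero_iff.2 hx.1.2.1)))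
  have h5 : ContDiffOn ℝ ∞ (fun x : (E × ℝ) × E =>
      ((2 * (inner ℝ (e + hat x.1.1) (-x.2) / ‖e + hat x.1.1‖ ^ 2)) • (e + hat x.1.1) - (-x.2)) +
        x.1.2 • hat x.1.1) (dom e R ×ˢ univ) :=
    ((h4.smul h2).sub h3).add ((contDiff_snd.comp contDiff_fst).contDiffOn.smul h1)
  have h6 : ContDiff ℝ ∞ (fderiv ℝ φ) := hφ.1.fderiv_right (m := ∞) (by norm_cast)
  have h7 := (h6.comp_contDiffOn h5).clm_apply h1
  refine h7.congr fun x _ => ?_
  show gg φ e x.1 x.2 = _
  unfold gg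
  rw [Lf_apply]
  rfl

lemma conv_contDiffOn {φ : E → ℝ} (hφ : IsTest φ) (e : E) (R : ℝ) :
    ContDiffOn ℝ ∞ (fun q : E × ℝ => ∫ z : E, {z : E | inner ℝ z e ≤ 0}.indicator
      (fun _ => (1 : ℝ)) z * fderiv ℝ φ (Lf (e + hat q.1) z + q.2 • hat q.1) (hat q.1))
      (dom e R) := by
  obtain ⟨M, hM⟩ := hφ.2.isCompact.isBounded.subset_closedBall (0 : E)
  have hm : MeasurableSet {z : E | inner ℝ z e ≤ 0} :=
    measurableSet_le (by fun_prop) measurable_const
  have hloc : LocallyIntegrable ({z : E | inner ℝ z e ≤ 0}.indicator (fun _ => (1 : ℝ)))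
      (volume : Measure E) := by
    exact (locallyIntegrable_const (1 : ℝ)).indicator hm
  have h := contDiffOn_convolution_right_with_param_comp (μ := (volume : Measure E)) (𝕜 := ℝ)
    (n := (⊤ : ℕ∞)) (ContinuousLinearMap.mul ℝ ℝ) (s := dom e R) (v := fun _ => (0 : E))
    contDiffOn_const (f := {z : E | inner ℝ z e ≤ 0}.indicator (fun _ => (1 : ℝ)))
    (g := gg φ e) (k := Metric.closedBall 0 (M + R)) (dom_open e R)
    (isCompact_closedBall _ _) ?_ hloc (gg_contDiffOn hφ e R)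
  · refine h.congr fun q _ => ?_
    rw [convolution_def]
    refine integral_congr_ae (Eventually.of_forall fun t => ?_)
    show _ = {z : E | inner ℝ z e ≤ 0}.indicator (fun _ => (1 : ℝ)) t * gg φ e q (0 - t)
    unfold gg
    rw [zero_sub, neg_neg]
  · intro q t hq ht
    unfold gg
    have h1 : Lf (e + hat q.1) (-t) + q.2 • hat q.1 ∉ tsupport φ := by
      intro hx
      have h2 := hM hx
      rw [mem_closedBall_zero_iff] at h2 ht
      apply ht
      have h3 : ‖Lf (e + hat q.1) (-t)‖ = ‖t‖ := by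
        rw [LinearIsometryEquiv.norm_map, norm_neg]
      have h4 : ‖q.2 • hat q.1‖ = |q.2| := by
        rw [norm_smul, norm_hat hq.1, mul_one, Real.norm_eq_abs]
      have h5 : ‖Lf (e + hat q.1) (-t)‖ ≤ ‖Lf (e + hat q.1) (-t) + q.2 • hat q.1‖ +
          ‖q.2 • hat q.1‖ := by
        have := norm_sub_le (Lf (e + hat q.1) (-t) + q.2 • hat q.1) (q.2 • hat q.1)
        rwa [add_sub_cancel_right] at this
      rw [h3, h4] at h5
      have h6 := hq.2.2
      linarith
    have h7 : fderiv ℝ φ (Lf (e + hat q.1) (-t) + q.2 • hat q.1) = 0 := by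
      by_contra hne
      exact h1 (support_fderiv_subset ℝ hne)
    rw [h7]
    rfl

lemma GF_contDiffAt {φ : E → ℝ} (hφ : IsTest φ) (q : E × ℝ) (hq : q.1 ≠ 0) :
    ContDiffAt ℝ ∞ (fun q : E × ℝ => GF φ q.1 q.2) q := by
  have he := norm_hat hq
  have hmem : q ∈ dom (hat q.1) (|q.2| + 1) := by
    refine ⟨hq, ?_, by linarith⟩
    intro h
    have h1 : (2 : ℝ) • hat q.1 = 0 := by rw [two_smul]; exact h
    have h2 := congrArg norm h1
    rw [norm_smul, he] at h2
    norm_num at h2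
  have hnhds := (dom_open (hat q.1) (|q.2| + 1)).mem_nhds hmem
  refine ((conv_contDiffOn hφ (hat q.1) (|q.2| + 1)).contDiffAt hnhds).congr_of_eventuallyEq ?_
  filter_upwards [hnhds] with r hr
  exact GF_eq φ r.1 (hat q.1) r.2 hr.1 he hr.2.1

/-- the cut-off function -/
noncomputable def bp : ContDiffBump (0 : E) := ⟨1 / 4, 1 / 2, by norm_num, by norm_num⟩

/-- the extension -/
noncomputable def gx (φ : E → ℝ) (q : E × ℝ) : ℝ := (1 - bp q.1) * GF φ q.1 q.2

lemma gx_contDiff {φ : E → ℝ} (hφ : IsTest φ) : ContDiff ℝ ∞ (gx φ) := by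
  rw [contDiff_iff_contDiffAt]
  intro q
  by_cases hq : q.1 = 0
  · have h1 : gx φ =ᶠ[𝓝 q] fun _ => 0 := by
      have h2 : Tendsto (fun r : E × ℝ => r.1) (𝓝 q) (𝓝 q.1) := continuous_fst.tendsto q
      rw [hq] at h2
      filter_upwards [h2 (Metric.closedBall_mem_nhds (0 : E) bp.rIn_pos)] with r hr
      unfold gx
      rw [bp.one_of_mem_closedBall hr]
      ring
    exact contDiffAt_const.congr_of_eventuallyEq h1
  · exact (contDiffAt_const.sub (bp.contDiff.contDiffAt.comp q contDiffAt_fst)).mul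
      (GF_contDiffAt hφ q hq)

lemma gx_sphere (φ : E → ℝ) (w : S) (p : ℝ) : gx φ ((w : E), p) = Rad φ (w, p) := by
  have h1 : bp (w : E) = 0 := by
    refine bp.zero_of_le_dist ?_
    have h2 : dist (w : E) 0 = 1 := by simp
    rw [h2]
    show (1 / 2 : ℝ) ≤ 1
    norm_num
  unfold gx
  simp only [h1, sub_zero, one_mul]
  exact GF_rad φ w p

end NcRx

open NcRx in
theorem thm_NcR (radT : St_RadT) : St_NcR := by
  intro φ y ρ hφ hsupp
  obtain ⟨-, -, hvan, hder, -⟩ := radT φ hφ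
  obtain ⟨M, hM⟩ := hφ.2.isCompact.isBounded.subset_closedBall (0 : E)
  have hzero : ∀ x p, M ≤ |p| → gx φ (x, p) = 0 := by
    intro x p hp
    by_cases hx : x = 0
    · unfold gx
      have h1 : bp x = 1 := by
        refine bp.one_of_mem_closedBall ?_
        rw [hx]
        exact Metric.mem_closedBall_self bp.rIn_pos.le
      simp only [h1, sub_self, zero_mul]
    · unfold gx
      have h1 : GF φ x p = 0 := by
        rw [GF_rad' φ hx p]
        refine (hvan 0 M hM _ ?_).1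
        simpa using hp
      simp only [h1, mul_zero]
  have hsph : ∀ z : S × ℝ, Rad φ z = gx φ ((z.1 : E), z.2) := fun z =>
    (gx_sphere φ z.1 z.2).symm
  have hcd := gx_contDiff hφ
  obtain ⟨ρ', hρ', hsupp'⟩ := exists_lt_subset_ball (isClosed_tsupport φ) hsupp
  have hclosed : IsClosed {z : S × ℝ | |z.2 - inner ℝ y (z.1 : E)| ≤ ρ'} :=
    isClosed_le (by fun_prop) continuous_const
  have hsub : {z : S × ℝ | |z.2 - inner ℝ y (z.1 : E)| ≤ ρ'} ⊆
      {z | |z.2 - inner ℝ y (z.1 : E)| < ρ} := fun z hz => lt_of_le_of_lt hz hρ'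
  have hv2 : ∀ z : S × ℝ, ¬ |z.2 - inner ℝ y (z.1 : E)| ≤ ρ' → Rad φ z = 0 ∧ dRad φ z = 0 := by
    intro z hz
    exact hvan y ρ' (hsupp'.trans Metric.ball_subset_closedBall) z (not_le.1 hz).le
  refine ⟨⟨gx φ, hcd, ⟨M, hzero⟩, hsph, ?_⟩, ?_⟩
  · refine (closure_minimal ?_ hclosed).trans hsub
    intro z hz
    by_contra h
    exact hz (hv2 z h).1
  · have hcd' : ContDiff ℝ ∞ (fun q : E × ℝ => fderiv ℝ (gx φ) q (0, 1)) :=
      (hcd.fderiv_right (m := ∞) (by norm_cast)).clm_apply contDiff_const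
    refine ⟨fun q => fderiv ℝ (gx φ) q (0, 1), hcd', ⟨M + 1, ?_⟩, ?_, ?_⟩
    · intro x p hp
      have h1 : gx φ =ᶠ[𝓝 (x, p)] fun _ => 0 := by
        have h2 : {q : E × ℝ | M < |q.2|} ∈ 𝓝 (x, p) := by
          refine (isOpen_lt continuous_const (continuous_abs.comp continuous_snd)).mem_nhds ?_
          show M < |p|
          linarith
        filter_upwards [h2] with q hq
        exact hzero q.1 q.2 (le_of_lt hq)
      show fderiv ℝ (gx φ) (x, p) (0, 1) = 0
      rw [h1.fderiv_eq]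
      simp
    · intro z
      have h1 : HasDerivAt (fun p => gx φ ((z.1 : E), p)) (fderiv ℝ (gx φ) ((z.1 : E), z.2) (0, 1))
          z.2 := by
        have h2 : HasFDerivAt (gx φ) (fderiv ℝ (gx φ) ((z.1 : E), z.2)) ((z.1 : E), z.2) :=
          ((hcd.differentiable (by simp)) _).hasFDerivAt
        have h3 : HasDerivAt (fun p : ℝ => ((z.1 : E), p)) ((0 : E), (1 : ℝ)) z.2 :=
          (hasDerivAt_const z.2 (z.1 : E)).prodMk (hasDerivAt_id z.2)
        exact h2.comp_hasDerivAt z.2 h3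
      have h4 : HasDerivAt (fun p => gx φ ((z.1 : E), p)) (dRad φ z) z.2 := by
        have h5 := (hder z.1 z.2).1
        have h6 : (fun p => gx φ ((z.1 : E), p)) = fun p => Rad φ (z.1, p) := by
          ext p; exact gx_sphere φ z.1 p
        rw [h6]
        exact h5
      exact h4.unique h1
    · refine (closure_minimal ?_ hclosed).trans hsub
      intro z hz
      by_contra h
      exact hz (hv2 z h).2

end Pool.Agent.QWF
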