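import Pool.Agent.QWF.StE
import Pool.Agent.QWF.StD

/-!
# QWF (port by helper96), module P1: the pointwise bound on each side
-/

set_option autoImplicit false

open MeasureTheory Filter Topology Set
open scoped ENNReal NNReal RealInnerProductSpace

namespace Pool.Agent.QWF

theorem thm_P1 (hNa : St_NaB) (hPSy : St_PSy) (hP1a : St_P1a) : St_P1 := by
  intro b hb
  obtain ⟨d, C, hd, hC, h⟩ := hP1a b hb
  refine ⟨d, C, hd, hC, ?_⟩
  intro κ A m k y hκ0 hκ1 hP hm t ρ hρ hex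
  have h1 := h κ A m k y hκ0 hκ1 hP hm t ρ hρ hex
  obtain ⟨hR1, hR2, _⟩ := hPSy b hb κ A m k y hP
  have e1 : ex (sig b) (xt (y t) ρ) (rev (k t)) = ex (sig b) (xt (y t) ρ) (k t) := by
    have := hR2 (-t) ρ
    rwa [neg_neg] at this
  have h2 := h κ A m (fun t => rev (k (-t))) (fun t => y (-t)) hκ0 hκ1 hR1 hm (-t) ρ hρ
  simp only [neg_neg] at h2
  rw [e1] at h2
  have h3 := h2 hex
  rw [(hNa (sig b) (abs_sig_lt hb)).2.2.2.2.2.2] at h3
  have e2 : {z : S × ℝ | (-z.1, -z.2) ∈ {z : S × ℝ | ρ < z.2 - inner ℝ (y t) (z.1 : E)}} =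
      {z : S × ℝ | ρ < -(z.2 - inner ℝ (y t) (z.1 : E))} := by
    ext z
    change ρ < -z.2 - inner ℝ (y t) ((-z.1 : S) : E) ↔ ρ < -(z.2 - inner ℝ (y t) (z.1 : E))
    have e3 : ((-z.1 : S) : E) = -(z.1 : E) := rfl
    rw [e3, inner_neg_right]
    have e4 : -z.2 - -(inner ℝ (y t) (z.1 : E)) = -(z.2 - inner ℝ (y t) (z.1 : E)) := by ring
    rw [e4]
  rw [e2] at h3
  exact ⟨h1, h3⟩

end Pool.Agent.QWF
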