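import Pool.Agent.QWF.StE

/-!
# QWF, module P3: the nonlinear recursion at time zero
-/

set_option autoImplicit false

open MeasureTheory Filter Topology Set
open scoped ENNReal NNReal RealInnerProductSpace

namespace Pool.Agent.QWF


namespace P3x

/-- the cut-off function -/
lemma cutoff {κ : ℝ} (hκ : 0 < κ) : ∃ θ : ℝ → ℝ, Sm θ ∧ (∀ p, 0 ≤ θ p ∧ θ p ≤ 1) ∧
    (∀ p, |p| ≤ κ / 24 → θ p = 1) ∧ ∀ p, κ / 12 ≤ |p| → θ p = 0 := by
  let f : ContDiffBump (0 : ℝ) := ⟨κ / 24, κ / 12, by positivity, by linarith⟩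
  refine ⟨f, f.contDiff, fun p => ⟨f.nonneg, f.le_one⟩, fun p hp => ?_, fun p hp => ?_⟩
  · refine f.one_of_mem_closedBall ?_
    rw [mem_closedBall_zero_iff, Real.norm_eq_abs]
    exact hp
  · refine f.zero_of_le_dist ?_
    rw [dist_zero_right, Real.norm_eq_abs]
    exact hp

/-- A function that is constant for `p > L` and for `p < -L` has a compactly supported derivative. -/
lemma dcs {f : ℝ → ℝ} (L c1 c2 : ℝ) (h1 : ∀ p, L < p → f p = c1) (h2 : ∀ p, p < -L → f p = c2) :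
    HasCompactSupport (deriv f) := by
  refine HasCompactSupport.intro (isCompact_Icc (a := -L) (b := L)) fun p hp => ?_
  rw [Set.mem_Icc, not_and_or, not_le, not_le] at hp
  rcases hp with hp | hp
  · have h3 : f =ᶠ[𝓝 p] fun _ => c2 := by
      filter_upwards [Iio_mem_nhds hp] with q hq using h2 q hq
    rw [h3.deriv_eq, deriv_const]
  · have h3 : f =ᶠ[𝓝 p] fun _ => c1 := by
      filter_upwards [Ioi_mem_nhds hp] with q hq using h1 q hq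
    rw [h3.deriv_eq, deriv_const]

lemma sm_scale {ζ : ℝ → ℝ} (h : Sm ζ) (R : ℝ) : Sm fun p => ζ (p / R) :=
  h.comp (contDiff_id.div_const R)

lemma abs_sig_lt {b : ℝ} (hb : 4 < b) : |sig b| < 1 / 2 := by
  have h0 : 0 < 2 / b := by positivity
  have h1 : 2 / b < 1 := by
    rw [div_lt_one (by linarith)]
    linarith
  unfold sig
  rw [abs_lt]
  constructor <;> linarith

lemma rp (s : ℝ) (n : ℕ) :
    ((2 : ℝ) ^ n) ^ (-(3 / 2 : ℝ) - s) = (2 : ℝ) ^ (-(3 / 2 + s) * n) := by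
  rw [← Real.rpow_natCast, ← Real.rpow_mul (by norm_num)]
  congr 1
  ring

end P3x

open P3x

theorem thm_P3 (hExB : St_ExBP) (hP3a : St_P3a) (hP3b : St_P3b) (hP3e : St_P3e)
    (hL5B : St_L5B) : St_P3 := by
  intro b hb κ A m hκ0 hκ1 hanti hlim
  obtain ⟨d1, hd1, h1'⟩ := hP3b b hb
  obtain ⟨d2, hd2, h2⟩ := hP3e b hb
  obtain ⟨θ, hθs, hθ1, hθ2, hθ3⟩ := cutoff hκ0
  obtain ⟨C1, hC1, h1⟩ := h1' κ θ hκ0 hκ1 hθs hθ1 hθ2 hθ3
  obtain ⟨C2, hC2, h3⟩ := h2 κ θ hκ0 hκ1 hθs hθ1 hθ3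
  obtain ⟨C3, hC3, h4⟩ := hL5B b hb
  obtain ⟨M, hM⟩ := exists_pow_lt_of_lt_one (show (0 : ℝ) < κ / 48 by positivity)
    (show (1 / 2 : ℝ) < 1 by norm_num)
  have hpow : Tendsto (fun n : ℕ => (2 : ℝ) ^ n) atTop atTop :=
    tendsto_pow_atTop_atTop_of_one_lt (by norm_num)
  obtain ⟨n1, hn1⟩ := eventually_atTop.mp
    ((hlim.comp hpow).eventually_le_const (lt_min hd1 hd2))
  obtain ⟨A5, hA5⟩ : ∃ A5 : ℝ, A5 = max (A ^ (b + 1)) 1 := ⟨_, rfl⟩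
  have hA51 : 1 ≤ A5 := by rw [hA5]; exact le_max_right _ _
  have hA5A : A ^ (b + 1) ≤ A5 := by rw [hA5]; exact le_max_left _ _
  refine ⟨2 * C1 + C2 + C2 * C3 * A5, M, n1 + M + 1, by omega, ?_⟩
  intro k y hP hy0 n hn
  obtain ⟨hsol, hkA, hy, hex⟩ := id hP
  have hm0 : ∀ ρ, 0 ≤ m ρ := fun ρ => le_trans (norm_nonneg _) (hex 0 ρ)
  have hmb0 : ∀ ρ, 0 ≤ m ρ ^ (b + 1) := fun ρ => Real.rpow_nonneg (hm0 ρ) _
  obtain ⟨R, hR⟩ : ∃ R : ℝ, R = 2 ^ n := ⟨_, rfl⟩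
  have hR0 : 0 < R := by rw [hR]; positivity
  have hRM : (2 : ℝ) ^ (n - M) ≤ κ / 48 * R := by
    have e1 : (2 : ℝ) ^ n = 2 ^ (n - M) * 2 ^ M := by
      rw [← pow_add]
      congr 1
      omega
    have e2 : (1 / 2 : ℝ) ^ M * 2 ^ M = 1 := by
      rw [← mul_pow]
      norm_num
    rw [hR, e1]
    have e3 : (2 : ℝ) ^ (n - M) = (1 / 2 : ℝ) ^ M * (2 ^ (n - M) * 2 ^ M) := by
      calc (2 : ℝ) ^ (n - M) = 2 ^ (n - M) * ((1 / 2 : ℝ) ^ M * 2 ^ M) := by rw [e2, mul_one]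
        _ = _ := by ring
    refine e3.trans_le (mul_le_mul_of_nonneg_right hM.le ?_)
    positivity
  have hm1 : m (κ / 48 * R) ≤ m (2 ^ (n - M)) := hanti hRM
  have hmd : m (2 ^ (n - M)) ≤ min d1 d2 := hn1 (n - M) (by omega)
  have hdt' : HasCompactSupport (deriv fun p => θ (p / R)) := dcs (κ / 12 * R) 0 0
    (fun p hp => by
      have h0 : κ / 12 < p / R := by rwa [lt_div_iff₀ hR0]
      have h0' : 0 < p / R := lt_trans (by positivity) h0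
      rw [hθ3 _ (by rw [abs_of_pos h0']; exact h0.le)])
    (fun p hp => by
      have h0 : p / R < -(κ / 12) := by rw [div_lt_iff₀ hR0]; linarith
      have h0' : p / R < 0 := lt_trans h0 (by linarith)
      rw [hθ3 _ (by rw [abs_of_neg h0']; linarith)])
  -- the three terms
  obtain ⟨b1, b2⟩ := h1 A m k y R hP hanti hlim hy0 hR0
    (hm1.trans (hmd.trans (min_le_left _ _)))
  obtain ⟨Sg, hSg⟩ : ∃ Sg : ℝ, Sg =
    ∑ j ∈ Finset.range (n + 1), (2 : ℝ) ^ ((3 / 2 + sig b) * j) * m (2 ^ j) ^ (b + 1) := ⟨_, rfl⟩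
  have hSg0 : 0 ≤ Sg := by
    rw [hSg]
    exact Finset.sum_nonneg fun j _ => mul_nonneg (Real.rpow_nonneg (by norm_num) _) (hmb0 _)
  have hB : ∀ t, ∫ x in Metric.ball (y t) R, |U (sig b) (k t) x| ^ (b + 1) ≤ C3 * (A5 + Sg) := by
    intro t
    have e1 := h4 (k t) (y t) m A (hkA t) (fun ρ => hex t ρ) (n - 1)
    rw [show n - 1 + 1 = n by omega, ← hR] at e1
    refine e1.trans (mul_le_mul_of_nonneg_left (add_le_add hA5A ?_) hC3.le)
    rw [hSg]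
    refine Finset.sum_le_sum_of_subset_of_nonneg (Finset.range_subset_range.mpr (by omega))
      fun j _ _ => mul_nonneg (Real.rpow_nonneg (by norm_num) _) (hmb0 _)
  have b3 := h3 A m k y R (C3 * (A5 + Sg)) hR0 hP hy0
    (hm1.trans (hmd.trans (min_le_right _ _))) hB
  obtain ⟨_, hdec⟩ := hP3a b hb k hsol (fun p => θ (p / R)) (sm_scale hθs R) hdt'
    (R / κ + R / 12) (by positivity)
  have hsum : ex (sig b) (xt 0 R) (k 0) ≤ ‖Mul (sig b) (fun p => 1 - θ (p / R)) (k 0)‖ +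
      ‖Mul (sig b) (fun p => θ (p / R)) (tau (-(R / κ + R / 12)) (k (R / κ + R / 12)))‖ +
      ex (sig b) (xt 0 R) (∫ s in (0 : ℝ)..(R / κ + R / 12),
        Mul (sig b) (fun p => θ (p / R)) (tau (-s) (NL b (k s)))) := by
    have e1 : ∀ v1 v2 v3 : K, k 0 = v1 + v2 + v3 →
        ex (sig b) (xt 0 R) (k 0) ≤ ‖v1‖ + ‖v2‖ + ex (sig b) (xt 0 R) v3 := by
      intro v1 v2 v3 hv
      rw [hv]
      unfold ex
      rw [map_add, map_add]
      refine (norm_add_le _ _).trans (add_le_add ((norm_add_le _ _).trans ?_) le_rfl)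
      exact add_le_add ((hExB (sig b) (abs_sig_lt hb)).2.1 _ v1)
        ((hExB (sig b) (abs_sig_lt hb)).2.1 _ v2)
    exact e1 _ _ _ hdec
  rw [← hR, ← hSg]
  obtain ⟨P, hPd⟩ : ∃ P : ℝ, P = m (2 ^ (n - M)) ^ (b + 1) := ⟨_, rfl⟩
  have hP0 : 0 ≤ P := by rw [hPd]; exact hmb0 _
  have c2 : m (κ / 48 * R) ^ (b + 1) ≤ P := by
    rw [hPd]
    exact Real.rpow_le_rpow (hm0 _) hm1 (by linarith)
  obtain ⟨W, hW⟩ : ∃ W : ℝ, W = (2 : ℝ) ^ (-(3 / 2 + sig b) * n) := ⟨_, rfl⟩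
  have hW0 : 0 ≤ W := by rw [hW]; exact Real.rpow_nonneg (by norm_num) _
  have hRW : R ^ (-(3 / 2 : ℝ) - sig b) = W := by rw [hR, hW]; exact rp (sig b) n
  rw [hRW] at b3
  rw [← hPd, ← hW]
  have c3 : C1 * m (κ / 48 * R) ^ (b + 1) ≤ C1 * P := mul_le_mul_of_nonneg_left c2 hC1.le
  have c4 : C2 * m (κ / 48 * R) ^ (b + 1) ≤ C2 * P := mul_le_mul_of_nonneg_left c2 hC2.le
  have c5 : C2 * W * (C3 * (A5 + Sg)) ≤ C2 * C3 * A5 * (W * (1 + Sg)) := by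
    have e1 : A5 + Sg ≤ A5 * (1 + Sg) := by
      have : 1 * Sg ≤ A5 * Sg := mul_le_mul_of_nonneg_right hA51 hSg0
      linarith
    have e2 : C2 * W * (C3 * (A5 + Sg)) ≤ C2 * W * (C3 * (A5 * (1 + Sg))) := by
      gcongr
    calc _ ≤ _ := e2
      _ = _ := by ring
  have c6 : 0 ≤ C2 * C3 * A5 * P := by positivity
  have c7 : 0 ≤ (2 * C1 + C2) * (W * (1 + Sg)) := by positivity
  have c8 : (2 * C1 + C2 + C2 * C3 * A5) * P + (2 * C1 + C2 + C2 * C3 * A5) * W * (1 + Sg) =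
      C1 * P + C1 * P + C2 * P + C2 * C3 * A5 * P + (2 * C1 + C2) * (W * (1 + Sg)) +
        C2 * C3 * A5 * (W * (1 + Sg)) := by ring
  rw [c8]
  linarith

end Pool.Agent.QWF
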