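import Pool.Agent.QWF.StE

/-!
# QWF, module P3a: decomposition at time zero
-/

set_option autoImplicit false

open MeasureTheory Filter Topology Set
open scoped ENNReal NNReal RealInnerProductSpace

namespace Pool.Agent.QWF

namespace P3ax

theorem sig_lt {b : ℝ} (hb : 4 < b) : |sig b| < 1 / 2 := by
  have h1 : 0 < 2 / b := by positivity
  have h2 : 2 / b < 1 := by rw [div_lt_one (by linarith)]; linarith
  rw [sig, abs_lt]
  constructor <;> linarith

/-- joint continuity of the flow -/
theorem tau_cont (hG : St_Grp1) : Continuous fun p : ℝ × K => tau p.1 p.2 := by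
  obtain ⟨-, -, -, -, -, -, -, hG8, -⟩ := hG
  rw [continuous_iff_continuousAt]
  rintro ⟨t0, k0⟩
  rw [Metric.continuousAt_iff]
  intro ε hε
  obtain ⟨δ, hδ, h1⟩ := Metric.continuousAt_iff.1 (hG8 k0).continuousAt (ε / 2) (by positivity)
  refine ⟨min δ (ε / 2), by positivity, fun {p} hp => ?_⟩
  have h2 : dist p.1 t0 < δ := ((le_max_left _ _).trans_lt hp).trans_le (min_le_left _ _)
  have h3 : dist p.2 k0 < ε / 2 := ((le_max_right _ _).trans_lt hp).trans_le (min_le_right _ _)
  have h4 : dist (tau p.1 p.2) (tau p.1 k0) < ε / 2 := by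
    rw [(tau p.1).dist_map]
    exact h3
  have h5 := dist_triangle (tau p.1 p.2) (tau p.1 k0) (tau t0 k0)
  have h6 := h1 h2
  change dist (tau p.1 p.2) (tau t0 k0) < ε
  linarith

theorem int_tau0 (hG : St_Grp1) {μ : Measure ℝ} {G : ℝ → K} (h : Integrable G μ) :
    Integrable (fun r => tau (-r) (G r)) μ := by
  have h1 : AEStronglyMeasurable (fun r => tau (-r) (G r)) μ := by
    have h2 : AEStronglyMeasurable (fun r : ℝ => ((-r, G r) : ℝ × K)) μ :=
      (by fun_prop : Continuous fun r : ℝ => -r).aestronglyMeasurable.prodMk h.1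
    have h3 := Continuous.comp_aestronglyMeasurable
      (g := fun p : ℝ × K => tau p.1 p.2) (f := fun r : ℝ => ((-r, G r) : ℝ × K))
      (tau_cont hG) h2
    exact h3
  rw [← integrable_norm_iff h1]
  have h2 : (fun r => ‖tau (-r) (G r)‖) = fun r => ‖G r‖ :=
    funext fun r => (tau (-r)).norm_map _
  rw [h2]
  exact h.norm

end P3ax

open P3ax in
theorem thm_P3a (hG : St_Grp1) (hN : St_NLi) (hM : St_MulP) : St_P3a := by
  intro b hb k hk ζ hζ hζ1 T hT
  obtain ⟨h1, h2⟩ := hN b hb univ k hk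
  have hint := (h1 0 (mem_univ _) T (mem_univ _)).1
  have hG0 : IntegrableOn (fun r => tau (-r) (NL b (k r))) (Icc 0 T) volume :=
    int_tau0 hG hint
  have hii : IntervalIntegrable (fun r => tau (-r) (NL b (k r))) volume 0 T := by
    rw [intervalIntegrable_iff_integrableOn_Icc_of_le hT]
    exact hG0
  have hii2 : IntervalIntegrable (fun r => Mul (sig b) ζ (tau (-r) (NL b (k r)))) volume 0 T := by
    constructor
    · exact (Mul (sig b) ζ).integrable_comp hii.1
    · exact (Mul (sig b) ζ).integrable_comp hii.2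
  refine ⟨hii2, ?_⟩
  have h3 := h2 0 (mem_univ _) T (mem_univ _)
  rw [zero_sub] at h3
  have h4 : (∫ r in (0 : ℝ)..T, tau (0 - r) (NL b (k r))) =
      ∫ r in (0 : ℝ)..T, tau (-r) (NL b (k r)) := by
    refine intervalIntegral.integral_congr fun r _ => ?_
    simp only [zero_sub]
  rw [h4] at h3
  have h5 : Mul (sig b) ζ (k 0) = Mul (sig b) ζ (tau (-T) (k T)) +
      ∫ r in (0 : ℝ)..T, Mul (sig b) ζ (tau (-r) (NL b (k r))) := by
    rw [h3, map_sub, ← ContinuousLinearMap.intervalIntegral_comp_comm _ hii, sub_add_cancel]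
  have h6 : k 0 = Mul (sig b) (fun p => 1 - ζ p) (k 0) + Mul (sig b) ζ (k 0) := by
    rw [(hM (sig b) ζ (sig_lt hb) hζ hζ1).2.2.2.1 (k 0), sub_add_cancel]
  rw [add_assoc, ← h5]
  exact h6

end Pool.Agent.QWF
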