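import Pool.Agent.QWF.StE

/-!
# QWF, module P3b: the first two terms
-/

set_option autoImplicit false

open MeasureTheory Filter Topology Set
open scoped ENNReal NNReal RealInnerProductSpace

namespace Pool.Agent.QWF

namespace P3bx

/-- A function that is constant for `p > L` and for `p < -L` has a compactly supported derivative. -/
lemma dcs {f : ℝ → ℝ} (L c1 c2 : ℝ) (h1 : ∀ p, L < p → f p = c1) (h2 : ∀ p, p < -L → f p = c2) :
    HasCompactSupport (deriv f) := by
  refine HasCompactSupport.intro (isCompact_Icc (a := -L) (b := L)) fun p hp => ?_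
  rw [Set.mem_Icc, not_and_or, not_le, not_le] at hp
  rcases hp with hp | hp
  · have h3 : f =ᶠ[𝓝 p] fun _ => c2 := by
      filter_upwards [Iio_mem_nhds hp] with q hq using h2 q hq
    rw [h3.deriv_eq, deriv_const]
  · have h3 : f =ᶠ[𝓝 p] fun _ => c1 := by
      filter_upwards [Ioi_mem_nhds hp] with q hq using h1 q hq
    rw [h3.deriv_eq, deriv_const]

/-- The part of `1 - θ` on the positive side. -/
noncomputable def tp (θ : ℝ → ℝ) (p : ℝ) : ℝ := if 0 < p then 1 - θ p else 0

/-- The part of `1 - θ` on the negative side. -/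
noncomputable def tm (θ : ℝ → ℝ) (p : ℝ) : ℝ := if p < 0 then 1 - θ p else 0

lemma tp_sm {θ : ℝ → ℝ} {c : ℝ} (hc : 0 < c) (hθ : Sm θ) (h : ∀ p, |p| ≤ c → θ p = 1) :
    Sm (tp θ) := by
  refine contDiff_iff_contDiffAt.2 fun p => ?_
  rcases lt_or_ge p c with hp | hp
  · have h1 : tp θ =ᶠ[𝓝 p] fun _ => (0 : ℝ) := by
      filter_upwards [Iio_mem_nhds hp] with q hq
      unfold tp
      split_ifs with h2
      · rw [h q (by rw [abs_of_pos h2]; exact le_of_lt hq), sub_self]
      · rfl
    exact (contDiffAt_const).congr_of_eventuallyEq h1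
  · have h1 : tp θ =ᶠ[𝓝 p] fun q => 1 - θ q := by
      filter_upwards [Ioi_mem_nhds (show (0 : ℝ) < p by linarith)] with q hq
      exact if_pos hq
    exact (contDiffAt_const.sub hθ.contDiffAt).congr_of_eventuallyEq h1

lemma tm_sm {θ : ℝ → ℝ} {c : ℝ} (hc : 0 < c) (hθ : Sm θ) (h : ∀ p, |p| ≤ c → θ p = 1) :
    Sm (tm θ) := by
  refine contDiff_iff_contDiffAt.2 fun p => ?_
  rcases lt_or_ge (-c) p with hp | hp
  · have h1 : tm θ =ᶠ[𝓝 p] fun _ => (0 : ℝ) := by
      filter_upwards [Ioi_mem_nhds hp] with q hq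
      rw [Set.mem_Ioi] at hq
      unfold tm
      split_ifs with h2
      · rw [h q (by rw [abs_of_neg h2]; linarith), sub_self]
      · rfl
    exact (contDiffAt_const).congr_of_eventuallyEq h1
  · have h1 : tm θ =ᶠ[𝓝 p] fun q => 1 - θ q := by
      filter_upwards [Iio_mem_nhds (show p < 0 by linarith)] with q hq
      exact if_pos hq
    exact (contDiffAt_const.sub hθ.contDiffAt).congr_of_eventuallyEq h1

lemma split {θ : ℝ → ℝ} (h0 : θ 0 = 1) (p : ℝ) : 1 - θ p = tp θ p + tm θ p := by
  unfold tp tm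
  rcases lt_trichotomy p 0 with h | h | h
  · rw [if_neg (by linarith), if_pos h, zero_add]
  · rw [if_neg (by linarith), if_neg (by linarith), h, h0]; norm_num
  · rw [if_pos h, if_neg (by linarith), add_zero]

lemma sm_scale {ζ : ℝ → ℝ} (h : Sm ζ) (R : ℝ) : Sm fun p => ζ (p / R) :=
  h.comp (contDiff_id.div_const R)

lemma inner_le (y : E) (w : S) : |inner ℝ y (w : E)| ≤ ‖y‖ := by
  have h := abs_real_inner_le_norm y (w : E)
  rwa [norm_eq_of_mem_sphere w, mul_one] at h

lemma sig_lt {b : ℝ} (hb : 4 < b) : |sig b| < 1 / 2 := by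
  unfold sig
  have h1 : 0 < 2 / b := by positivity
  have h2 : 2 / b < 1 / 2 := by rw [div_lt_div_iff₀ (by linarith) (by norm_num)]; linarith
  rw [abs_of_pos (by linarith)]
  linarith

end P3bx

open P3bx

theorem thm_P3b (hM : St_MulP) (hP1 : St_P1) : St_P3b := by
  intro b hb
  obtain ⟨d, C, hd, hC, h⟩ := hP1 b hb
  refine ⟨d, hd, ?_⟩
  intro κ θ hκ0 hκ1 hθ hθ1 hθ2 hθ3
  have hs := sig_lt hb
  have hκ24 : 0 < κ / 24 := by positivity
  have hθ0 : θ 0 = 1 := hθ2 0 (by rw [abs_zero]; positivity)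
  have hdθ : HasCompactSupport (deriv θ) := dcs (κ / 12) 0 0
    (fun p hp => hθ3 p (by rw [abs_of_pos (lt_trans (by positivity) hp)]; exact hp.le))
    (fun p hp => hθ3 p (by
      have : p < 0 := lt_trans hp (by linarith)
      rw [abs_of_neg this]; linarith))
  have hdp : HasCompactSupport (deriv (tp θ)) := dcs (κ / 12) 1 0
    (fun p hp => by
      have h0 : 0 < p := lt_trans (by positivity) hp
      rw [tp, if_pos h0, hθ3 p (by rw [abs_of_pos h0]; exact hp.le), sub_zero])
    (fun p hp => by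
      have h0 : p < 0 := lt_trans hp (by linarith)
      rw [tp, if_neg (by linarith)])
  have hdm : HasCompactSupport (deriv (tm θ)) := dcs (κ / 12) 0 1
    (fun p hp => by
      have h0 : 0 < p := lt_trans (by positivity) hp
      rw [tm, if_neg (by linarith)])
    (fun p hp => by
      have h0 : p < 0 := lt_trans hp (by linarith)
      rw [tm, if_pos h0, hθ3 p (by rw [abs_of_neg h0]; linarith), sub_zero])
  have hsp := tp_sm hκ24 hθ hθ2
  have hsm := tm_sm hκ24 hθ hθ2
  obtain ⟨Cp, hCp, hMp⟩ := (hM (sig b) _ hs hsp hdp).1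
  obtain ⟨Cm, hCm, hMm⟩ := (hM (sig b) _ hs hsm hdm).1
  obtain ⟨Ct, hCt, hMt⟩ := (hM (sig b) _ hs hθ hdθ).1
  refine ⟨(Cp + Cm + Ct) * C, by positivity, ?_⟩
  intro A m k y R hP hanti hm hy0 hR hmd
  obtain ⟨hsol, hkA, hy, hex⟩ := id hP
  have hm0 : 0 ≤ m (κ / 48 * R) := le_trans (norm_nonneg _) (hex 0 (κ / 48 * R))
  have hpow : 0 ≤ m (κ / 48 * R) ^ (b + 1) := Real.rpow_nonneg hm0 _
  constructor
  · obtain ⟨h1, h2⟩ := h κ A m k y hκ0 hκ1 hP hm 0 (κ / 48 * R) (by positivity)
      ((hex _ _).trans hmd)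
    rw [hy0] at h1 h2
    have h4 : ex (sig b) (xt 0 (κ / 48 * R)) (k 0) ≤ m (κ / 48 * R) := by
      have := hex 0 (κ / 48 * R)
      rwa [hy0] at this
    have h5 : 0 ≤ ex (sig b) (xt 0 (κ / 48 * R)) (k 0) := norm_nonneg _
    have h6 : ex (sig b) (xt 0 (κ / 48 * R)) (k 0) ^ (b + 1) ≤ m (κ / 48 * R) ^ (b + 1) :=
      Real.rpow_le_rpow h5 h4 (by linarith)
    have hsplit : (fun p => 1 - θ (p / R)) = fun p => tp θ (p / R) + tm θ (p / R) := by
      funext p
      exact split hθ0 (p / R)
    have hdp' : HasCompactSupport (deriv fun p => tp θ (p / R)) := dcs (κ / 12 * R) 1 0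
      (fun p hp => by
        have h0 : κ / 12 < p / R := by rwa [lt_div_iff₀ hR]
        have h0' : 0 < p / R := lt_trans (by positivity) h0
        rw [tp, if_pos h0', hθ3 _ (by rw [abs_of_pos h0']; exact h0.le), sub_zero])
      (fun p hp => by
        have h0 : p / R < -(κ / 12) := by rw [div_lt_iff₀ hR]; linarith
        rw [tp, if_neg (by linarith)])
    have hdm' : HasCompactSupport (deriv fun p => tm θ (p / R)) := dcs (κ / 12 * R) 0 1
      (fun p hp => by
        have h0 : κ / 12 < p / R := by rwa [lt_div_iff₀ hR]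
        have h0' : 0 < p / R := lt_trans (by positivity) h0
        rw [tm, if_neg (by linarith)])
      (fun p hp => by
        have h0 : p / R < -(κ / 12) := by rw [div_lt_iff₀ hR]; linarith
        have h0' : p / R < 0 := lt_trans h0 (by linarith)
        rw [tm, if_pos h0', hθ3 _ (by rw [abs_of_neg h0']; linarith), sub_zero])
    rw [hsplit, (hM (sig b) _ hs (sm_scale hsp R) hdp').2.2.2.2.2 _ (sm_scale hsm R) hdm' (k 0)]
    refine (norm_add_le _ _).trans ?_
    have e1 := ((hMp R 0 hR).2 (k 0)).2 {z : S × ℝ | κ / 48 * R < z.2 - inner ℝ (0 : E) (z.1 : E)} (by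
      refine (closure_minimal (t := {z : S × ℝ | κ / 24 * R ≤ z.2}) ?_
        (isClosed_le continuous_const continuous_snd)).trans ?_
      · intro z hz
        change κ / 24 * R ≤ z.2
        by_contra hcon
        rw [not_le] at hcon
        apply hz
        rw [sub_zero]
        unfold tp
        split_ifs with h7
        · have h8 : z.2 / R ≤ κ / 24 := by rw [div_le_iff₀ hR]; exact hcon.le
          rw [hθ2 _ (by rw [abs_of_pos h7]; exact h8), sub_self]
        · rfl
      · intro z hz
        change κ / 48 * R < z.2 - inner ℝ (0 : E) (z.1 : E)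
        rw [inner_zero_left, sub_zero]
        have hz' : κ / 24 * R ≤ z.2 := hz
        have : 0 < κ * R := by positivity
        nlinarith)
    have e2 := ((hMm R 0 hR).2 (k 0)).2 {z : S × ℝ | κ / 48 * R < -(z.2 - inner ℝ (0 : E) (z.1 : E))} (by
      refine (closure_minimal (t := {z : S × ℝ | z.2 ≤ -(κ / 24 * R)}) ?_
        (isClosed_le continuous_snd continuous_const)).trans ?_
      · intro z hz
        change z.2 ≤ -(κ / 24 * R)
        by_contra hcon
        rw [not_le] at hcon
        apply hz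
        rw [sub_zero]
        unfold tm
        split_ifs with h7
        · have h8 : -(κ / 24) ≤ z.2 / R := by rw [le_div_iff₀ hR]; linarith
          rw [hθ2 _ (by rw [abs_of_neg h7]; linarith), sub_self]
        · rfl
      · intro z hz
        change κ / 48 * R < -(z.2 - inner ℝ (0 : E) (z.1 : E))
        rw [inner_zero_left, sub_zero]
        have hz' : z.2 ≤ -(κ / 24 * R) := hz
        have : 0 < κ * R := by positivity
        nlinarith)
    simp only [sub_zero] at e1 e2
    have e3 : ‖Mul (sig b) (fun p => tp θ (p / R)) (k 0)‖ ≤ Cp * (C * m (κ / 48 * R) ^ (b + 1)) := by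
      refine e1.trans (mul_le_mul_of_nonneg_left (h1.trans ?_) hCp.le)
      gcongr
    have e4 : ‖Mul (sig b) (fun p => tm θ (p / R)) (k 0)‖ ≤ Cm * (C * m (κ / 48 * R) ^ (b + 1)) := by
      refine e2.trans (mul_le_mul_of_nonneg_left (h2.trans ?_) hCm.le)
      gcongr
    have e5 : 0 ≤ Ct * (C * m (κ / 48 * R) ^ (b + 1)) := by positivity
    calc _ ≤ _ := add_le_add e3 e4
      _ ≤ (Cp + Cm + Ct) * C * m (κ / 48 * R) ^ (b + 1) := by linarith
  · obtain ⟨T, hT⟩ : ∃ T : ℝ, T = R / κ + R / 12 := ⟨_, rfl⟩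
    rw [← hT]
    have hκT : κ * T = R + κ * R / 12 := by
      rw [hT]
      field_simp
    have hT0 : 0 < T := by rw [hT]; positivity
    have hmR : m (R / 2) ≤ m (κ / 48 * R) := hanti (by nlinarith)
    obtain ⟨h1, -⟩ := h κ A m k y hκ0 hκ1 hP hm T (R / 2) (by positivity)
      ((hex _ _).trans (hmR.trans hmd))
    have hdt' : HasCompactSupport (deriv fun p => θ (p / R)) := dcs (κ / 12 * R) 0 0
      (fun p hp => by
        have h0 : κ / 12 < p / R := by rwa [lt_div_iff₀ hR]
        have h0' : 0 < p / R := lt_trans (by positivity) h0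
        rw [hθ3 _ (by rw [abs_of_pos h0']; exact h0.le)])
      (fun p hp => by
        have h0 : p / R < -(κ / 12) := by rw [div_lt_iff₀ hR]; linarith
        have h0' : p / R < 0 := lt_trans h0 (by linarith)
        rw [hθ3 _ (by rw [abs_of_neg h0']; linarith)])
    rw [(hM (sig b) _ hs (sm_scale hθ R) hdt').2.2.1 (-T) (k T), (tau _).norm_map]
    have hyT : ‖y T‖ ≤ (1 - κ) * T := by
      have h3 := hy 0 T
      rw [hy0, dist_zero_right, sub_zero, abs_of_pos hT0] at h3
      exact h3
    have h2 := ((hMt R T hR).2 (k T)).2 {z : S × ℝ | R / 2 < z.2 - inner ℝ (y T) (z.1 : E)} (by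
      refine (closure_minimal (t := {z : S × ℝ | T - κ * R / 12 ≤ z.2}) ?_
        (isClosed_le continuous_const continuous_snd)).trans ?_
      · intro z hz
        change T - κ * R / 12 ≤ z.2
        by_contra hcon
        rw [not_le] at hcon
        apply hz
        apply hθ3
        have h7 : (z.2 - T) / R ≤ -(κ / 12) := by
          rw [div_le_iff₀ hR]
          linarith
        have h8 := neg_abs_le ((z.2 - T) / R)
        linarith
      · intro z hz
        change R / 2 < z.2 - inner ℝ (y T) (z.1 : E)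
        have hz' : T - κ * R / 12 ≤ z.2 := hz
        have h6 := (abs_le.mp (P3bx.inner_le (y T) z.1)).2
        nlinarith)
    have h3 : (fun p => θ ((p - T) / R)) = fun p => θ ((p + -T) / R) := by
      funext p
      rw [sub_eq_add_neg]
    rw [h3] at h2
    have h4 := (hex T (R / 2)).trans hmR
    have h5 : 0 ≤ ex (sig b) (xt (y T) (R / 2)) (k T) := norm_nonneg _
    have h6 : ex (sig b) (xt (y T) (R / 2)) (k T) ^ (b + 1) ≤ m (κ / 48 * R) ^ (b + 1) :=
      Real.rpow_le_rpow h5 h4 (by linarith)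
    refine h2.trans ?_
    calc _ ≤ Ct * (C * m (κ / 48 * R) ^ (b + 1)) := by
          refine mul_le_mul_of_nonneg_left (h1.trans ?_) hCt.le
          gcongr
      _ ≤ (Cp + Cm + Ct) * C * m (κ / 48 * R) ^ (b + 1) := by
          have : 0 ≤ (Cp + Cm) * (C * m (κ / 48 * R) ^ (b + 1)) := by positivity
          linarith

end Pool.Agent.QWF
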