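import Pool.Agent.QWF.StE

/-!
# QWF, module P3c: near field estimate of the core source (helper9)
-/

set_option autoImplicit false

open MeasureTheory Filter Topology Set
open scoped ENNReal NNReal RealInnerProductSpace

namespace Pool.Agent.QWF

namespace P3cx

lemma sig_lt {b : ℝ} (hb : 4 < b) : |sig b| < 1 / 2 := by
  have h0 : 0 < b := by linarith
  have h1 : 0 < 2 / b := by positivity
  have h2 : 2 / b < 1 / 2 := by
    rw [div_lt_div_iff₀ h0 two_pos]
    linarith
  unfold sig
  rw [abs_lt]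
  constructor <;> linarith

lemma inner_le (Y : E) (w : S) : inner ℝ Y (w : E) ≤ ‖Y‖ := by
  have h1 := real_inner_le_norm Y (w : E)
  have h2 : ‖(w : E)‖ = 1 := norm_eq_of_mem_sphere w
  rwa [h2, mul_one] at h1

lemma dcs {f : ℝ → ℝ} (L : ℝ) (h1 : ∀ p, L ≤ |p| → f p = 0) : HasCompactSupport (deriv f) :=
  (HasCompactSupport.intro (isCompact_Icc (a := -L) (b := L)) fun p hp => h1 p (by
    rw [Set.mem_Icc, not_and_or, not_le, not_le] at hp
    rcases hp with hp | hp
    · rw [le_abs]
      right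
      linarith
    · exact hp.le.trans (le_abs_self p))).deriv

/-- powers of the position field are integrable on balls -/
lemma intb (hF : St_FldP) {b : ℝ} (hb : 4 < b) (k : K) (Y : E) (R : ℝ) :
    IntegrableOn (fun x => |U (sig b) k x| ^ (b + 1)) (Metric.ball Y R) volume := by
  obtain ⟨C, hC, hF, -⟩ := hF (sig b) (sig_lt hb)
  have h1 : MemLp (U (sig b) k) (q0 (sig b)) (volume.restrict (Metric.ball Y R)) :=
    (hF k).1.1.restrict _
  have hfin : IsFiniteMeasure ((volume : Measure E).restrict (Metric.ball Y R)) :=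
    ⟨by rw [Measure.restrict_apply_univ]; exact measure_ball_lt_top⟩
  have h2 : MemLp (U (sig b) k) (ENNReal.ofReal (b + 1)) (volume.restrict (Metric.ball Y R)) := by
    refine h1.mono_exponent ?_
    unfold q0 sig
    refine ENNReal.ofReal_le_ofReal ?_
    have h3 : (1 : ℝ) - 2 * (1 / 2 - 2 / b) = 4 / b := by ring
    have h4 : (8 : ℝ) / (4 / b) = 2 * b := by
      have hb0 : b ≠ 0 := by linarith
      field_simp
      norm_num
    rw [h3, h4]
    linarith
  have h3 := h2.integrable_norm_rpow (by simp; linarith) ENNReal.ofReal_ne_top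
  rw [ENNReal.toReal_ofReal (by linarith)] at h3
  exact h3

end P3cx

open P3cx

theorem thm_P3c (hFld : St_FldP) (hNF : St_NFP) (hMul : St_MulP) (hNLo : St_NLoP)
    (hCore : St_Core) : St_P3c := by
  intro b hb κ θ hκ0 hκ1 hθs hθ01 hθ0
  have hs := sig_lt hb
  have hs' := abs_lt.1 hs
  obtain ⟨C1, hC1p, hC1⟩ := hNF (sig b) θ hs hθs (fun p => by
    rw [abs_le]
    constructor
    · linarith [(hθ01 p).1]
    · exact (hθ01 p).2) (fun p hp => hθ0 p (by linarith))
  obtain ⟨C2, hC2, hcore⟩ := hCore b hb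
  obtain ⟨⟨C3, hC3, hmul⟩, -, -, -, -, -⟩ := hMul (sig b) θ hs hθs (dcs (κ / 12) hθ0)
  obtain ⟨-, nlo⟩ := hNLo b hb
  have hCpos : 0 < C1 * (1 + C2) := by positivity
  refine ⟨C1 * (1 + C2), hCpos, ?_⟩
  intro R r k k' Y hR hr hY hk hk' hV
  have hc : 0 < κ / 24 * R := by positivity
  constructor
  · intro hsR
    have h1 := nlo Y (κ / 24 * R) k k' hc.le hk hk' hV
    have htau := (hMul (sig b) (fun p => θ (p / R)) hs (hθs.comp (contDiff_id.div_const R))
      (dcs (κ / 12 * R) fun p hp => hθ0 _ (by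
        rw [abs_div, abs_of_pos hR, le_div_iff₀ hR]
        exact hp))).2.2.1 (-r) (NL b k - NL b k')
    rw [htau]
    have h2 := (hmul R r hR).2 (NL b k - NL b k')
    have h3 := h2.2 {z | κ / 24 * R < |z.2 - inner ℝ Y (z.1 : E)|} ?_
    · rw [h1, mul_zero] at h3
      have h4 : (fun p => θ ((p + -r) / R)) = fun p => θ ((p - r) / R) := by
        funext p
        rw [← sub_eq_add_neg]
      rw [h4, norm_le_zero_iff.1 h3, map_zero]
    · have hcl : IsClosed {z : S × ℝ | |z.2 - r| ≤ κ / 12 * R} :=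
        isClosed_le (by fun_prop) (by fun_prop)
      have hsub : closure {z : S × ℝ | θ ((z.2 - r) / R) ≠ 0} ⊆
          {z : S × ℝ | |z.2 - r| ≤ κ / 12 * R} := by
        refine closure_minimal ?_ hcl
        intro z hz
        have h5 : |(z.2 - r) / R| < κ / 12 := by
          by_contra h
          exact hz (hθ0 _ (not_lt.1 h))
        rw [abs_div, abs_of_pos hR, div_lt_iff₀ hR] at h5
        exact h5.le
      refine hsub.trans ?_
      intro z hz
      have h6 : |z.2 - r| ≤ κ / 12 * R := hz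
      have h7 := (abs_le.1 h6).1
      have h8 := inner_le Y z.1
      have h9 : κ / 24 * R < z.2 - inner ℝ Y (z.1 : E) := by nlinarith
      exact h9.trans_le (le_abs_self _)
  · intro hsR
    obtain ⟨F, B, hB, hFB, hF0, hGam, hFi, hFb⟩ := hcore k k' Y (κ / 24 * R) hc hk hk' hV
    have h1 := hC1 R B F r hR hB hFi hFB (Eventually.of_forall fun x hx => by
      apply hF0
      have h2 : ‖x‖ - ‖Y‖ ≤ dist x Y := by
        rw [dist_eq_norm]
        exact norm_sub_norm_le x Y
      have h3 : (1 - κ) * r ≤ (1 - κ) * (R / 8) :=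
        mul_le_mul_of_nonneg_left hsR (by linarith)
      have h4 : 0 < κ * R := mul_pos hκ0 hR
      nlinarith) hr hsR
    rw [hGam]
    refine h1.trans ?_
    set I : ℝ := ∫ x in Metric.ball Y R, |U (sig b) k x| ^ (b + 1) with hI
    have hI0 : 0 ≤ I := setIntegral_nonneg measurableSet_ball fun x _ => by positivity
    have h2 : ∫ x in Metric.ball Y (κ / 24 * R), |U (sig b) k x| ^ (b + 1) ≤ I := by
      refine setIntegral_mono_set (intb hFld hb k Y R) (Eventually.of_forall fun x => by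
        simp only [Pi.zero_apply]; positivity) ?_
      refine (Metric.ball_subset_ball ?_).eventuallyLE
      nlinarith
    have h3 : (κ / 24 * R) ^ (3 / 2 + sig b) ≤ R ^ (3 / 2 + sig b) :=
      Real.rpow_le_rpow hc.le (by nlinarith) (by linarith)
    have h4 : ∫ x, |F x| ≤ I + C2 * (R ^ (3 / 2 + sig b) * ‖k'‖ ^ (b + 1)) := by
      refine hFb.trans (add_le_add h2 ?_)
      rw [mul_assoc]
      exact mul_le_mul_of_nonneg_left (mul_le_mul_of_nonneg_right h3 (by positivity)) hC2.le
    have hT0 : 0 ≤ R ^ (3 / 2 + sig b) * ‖k'‖ ^ (b + 1) := by positivity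
    have h5 : ∫ x, |F x| ≤ (1 + C2) * (I + R ^ (3 / 2 + sig b) * ‖k'‖ ^ (b + 1)) := by
      refine h4.trans ?_
      nlinarith [mul_nonneg hC2.le hI0]
    have hR7 : 0 ≤ R ^ (-(5 / 2 : ℝ) - sig b) := by positivity
    calc C1 * R ^ (-(5 / 2 : ℝ) - sig b) * ∫ x, |F x|
        ≤ C1 * R ^ (-(5 / 2 : ℝ) - sig b) *
          ((1 + C2) * (I + R ^ (3 / 2 + sig b) * ‖k'‖ ^ (b + 1))) :=
          mul_le_mul_of_nonneg_left h5 (mul_nonneg (by positivity) hR7)
      _ = C1 * (1 + C2) * R ^ (-(5 / 2 : ℝ) - sig b) *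
          (I + R ^ (3 / 2 + sig b) * ‖k'‖ ^ (b + 1)) := by ring

end Pool.Agent.QWF
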