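import Pool.Agent.QWF.StE

/-!
# QWF, module P3e: the Duhamel term
-/

set_option autoImplicit false

open MeasureTheory Filter Topology Set
open scoped ENNReal NNReal RealInnerProductSpace

namespace Pool.Agent.QWF

namespace P3ex

lemma abs_sig_lt {b : ℝ} (hb : 4 < b) : |sig b| < 1 / 2 := by
  unfold sig
  have h1 : 0 < 2 / b := by positivity
  have h2 : 2 / b < 1 / 2 := by
    rw [div_lt_iff₀ (by linarith)]
    linarith
  rw [abs_lt]
  constructor <;> linarith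

/-- A function that is constant for `p > L` and for `p < -L` has a compactly supported derivative. -/
lemma dcs {f : ℝ → ℝ} (L c1 c2 : ℝ) (h1 : ∀ p, L < p → f p = c1) (h2 : ∀ p, p < -L → f p = c2) :
    HasCompactSupport (deriv f) := by
  refine HasCompactSupport.intro (isCompact_Icc (a := -L) (b := L)) fun p hp => ?_
  rw [Set.mem_Icc, not_and_or, not_le, not_le] at hp
  rcases hp with hp | hp
  · have h3 : f =ᶠ[𝓝 p] fun _ => c2 := by
      filter_upwards [Iio_mem_nhds hp] with q hq using h2 q hq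
    rw [h3.deriv_eq, deriv_const]
  · have h3 : f =ᶠ[𝓝 p] fun _ => c1 := by
      filter_upwards [Ioi_mem_nhds hp] with q hq using h1 q hq
    rw [h3.deriv_eq, deriv_const]

lemma sm_scale {ζ : ℝ → ℝ} (h : Sm ζ) (R : ℝ) : Sm fun p => ζ (p / R) :=
  h.comp (contDiff_id.div_const R)

/-- choice of the short interval -/
lemma pick {κ R s : ℝ} {J : ℕ} (hκ : 0 < κ) (hR : 0 < R) (hJ : (1 / κ + 1 / 12) * (96 / κ) < J)
    (hs0 : 0 < s) (hs : s ≤ R / κ + R / 12) :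
    ∃ n : ℕ, n < J ∧ |s - n * (κ / 48 * R / 2)| ≤ κ / 48 * R / 2 := by
  obtain ⟨h, hh⟩ : ∃ h : ℝ, h = κ / 48 * R / 2 := ⟨_, rfl⟩
  have hh0 : 0 < h := by rw [hh]; positivity
  rw [← hh]
  have h1 : 0 ≤ s / h := by positivity
  have h2 := Nat.floor_le h1
  have h3 := Nat.lt_floor_add_one (s / h)
  rw [le_div_iff₀ hh0] at h2
  rw [div_lt_iff₀ hh0] at h3
  refine ⟨⌊s / h⌋₊, ?_, ?_⟩
  · rw [Nat.floor_lt h1, div_lt_iff₀ hh0]
    refine lt_of_le_of_lt hs ?_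
    have h4 : (1 / κ + 1 / 12) * (96 / κ) * h = R / κ + R / 12 := by
      rw [hh]
      field_simp
      ring
    rw [← h4]
    exact mul_lt_mul_of_pos_right hJ hh0
  · rw [abs_le]
    constructor
    · linarith
    · linarith

lemma rpow_aux {R : ℝ} (hR : 0 < R) (B b s : ℝ) :
    R * (R ^ (-(5 / 2 : ℝ) - s) * (B + R ^ (3 / 2 + s : ℝ) * b)) =
      R ^ (-(3 / 2 : ℝ) - s) * B + b := by
  have h1 : R * R ^ (-(5 / 2 : ℝ) - s) = R ^ (-(3 / 2 : ℝ) - s) := by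
    have h2 := Real.rpow_add hR 1 (-(5 / 2 : ℝ) - s)
    rw [Real.rpow_one] at h2
    rw [← h2]
    congr 1
    ring
  have h3 : R ^ (-(3 / 2 : ℝ) - s) * R ^ (3 / 2 + s : ℝ) = 1 := by
    rw [← Real.rpow_add hR]
    have : -(3 / 2 : ℝ) - s + (3 / 2 + s) = 0 := by ring
    rw [this, Real.rpow_zero]
  calc R * (R ^ (-(5 / 2 : ℝ) - s) * (B + R ^ (3 / 2 + s : ℝ) * b))
      = (R * R ^ (-(5 / 2 : ℝ) - s)) * (B + R ^ (3 / 2 + s : ℝ) * b) := by ring
    _ = R ^ (-(3 / 2 : ℝ) - s) * B + (R ^ (-(3 / 2 : ℝ) - s) * R ^ (3 / 2 + s : ℝ)) * b := by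
        rw [h1]
        ring
    _ = _ := by rw [h3, one_mul]

/-- the pointwise bound of the integrand -/
lemma bound (hExB : St_ExBP) {p κ C2 CM : ℝ} {θ : ℝ → ℝ} (hp : 4 < p)
    (h2 : ∀ (R r : ℝ) (k k' : K) (Y : E), 0 < R → 0 ≤ r →
      ‖Y‖ ≤ (1 - κ) * r → sn p k < ⊤ → sn p k' < ⊤ → Van (sig p) (xt Y (κ / 24 * R)) (k - k') →
      (R / 8 < r → Mul (sig p) (fun q => θ (q / R)) (tau (-r) (NL p k - NL p k')) = 0) ∧
      (r ≤ R / 8 → ex (sig p) (xt 0 R) (Mul (sig p) (fun q => θ (q / R)) (tau (-r) (NL p k - NL p k'))) ≤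
      C2 * R ^ (-(5 / 2 : ℝ) - sig p) * ((∫ x in Metric.ball Y R, |U (sig p) k x| ^ (p + 1)) +
        R ^ (3 / 2 + sig p) * ‖k'‖ ^ (p + 1))))
    (hC2 : 0 < C2) {R s b B : ℝ} {k k' : K} {Y : E} (hR : 0 < R) (hs : 0 < s)
    (hCM : ∀ w : K, ‖Mul (sig p) (fun q => θ (q / R)) w‖ ≤ CM * ‖w‖)
    (hY : ‖Y‖ ≤ (1 - κ) * s) (hk : sn p k < ⊤) (hk' : sn p k' < ⊤)
    (hV : Van (sig p) (xt Y (κ / 24 * R)) (k - k'))
    (hB : ∫ x in Metric.ball Y R, |U (sig p) k x| ^ (p + 1) ≤ B) (hB0 : 0 ≤ B) (hb : ‖k'‖ ≤ b) :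
    ‖pr (sig p) (xt 0 R) (Mul (sig p) (fun q => θ (q / R)) (tau (-s) (NL p k)))‖ ≤
      CM * ‖NL p k'‖ +
      (Ioc 0 (R / 8)).indicator (fun _ => C2 * (R ^ (-(5 / 2 : ℝ) - sig p) *
        (B + R ^ (3 / 2 + sig p) * b ^ (p + 1)))) s := by
  obtain ⟨h3, h4⟩ := h2 R s k k' Y hR hs.le hY hk hk' hV
  have hb0 : 0 ≤ b := (norm_nonneg _).trans hb
  have e1 : Mul (sig p) (fun q => θ (q / R)) (tau (-s) (NL p k)) =
      Mul (sig p) (fun q => θ (q / R)) (tau (-s) (NL p k')) +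
        Mul (sig p) (fun q => θ (q / R)) (tau (-s) (NL p k - NL p k')) := by
    rw [← map_add, ← map_add, add_sub_cancel]
  rw [e1, map_add]
  refine (norm_add_le _ _).trans (add_le_add ?_ ?_)
  · have h5 := (hExB (sig p) (abs_sig_lt hp)).2.1 (xt 0 R)
      (Mul (sig p) (fun q => θ (q / R)) (tau (-s) (NL p k')))
    have h6 := hCM (tau (-s) (NL p k'))
    rw [(tau (-s)).norm_map] at h6
    exact h5.trans h6
  · by_cases hsR : s ≤ R / 8
    · rw [indicator_of_mem (show s ∈ Ioc 0 (R / 8) from ⟨hs, hsR⟩)]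
      refine (h4 hsR).trans ?_
      rw [mul_assoc]
      have h7 : ‖k'‖ ^ (p + 1) ≤ b ^ (p + 1) :=
        Real.rpow_le_rpow (norm_nonneg _) hb (by linarith)
      have h8 : 0 ≤ R ^ (3 / 2 + sig p) := Real.rpow_nonneg hR.le _
      have h9 : 0 ≤ R ^ (-(5 / 2 : ℝ) - sig p) := Real.rpow_nonneg hR.le _
      refine mul_le_mul_of_nonneg_left (mul_le_mul_of_nonneg_left (add_le_add hB
        (mul_le_mul_of_nonneg_left h7 h8)) h9) hC2.le
    · rw [h3 (not_le.mp hsR), map_zero, norm_zero]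
      refine indicator_nonneg (fun _ _ => ?_) s
      have h8 : 0 ≤ R ^ (3 / 2 + sig p) := Real.rpow_nonneg hR.le _
      have h9 : 0 ≤ R ^ (-(5 / 2 : ℝ) - sig p) := Real.rpow_nonneg hR.le _
      have h10 : 0 ≤ b ^ (p + 1) := Real.rpow_nonneg hb0 _
      positivity

end P3ex

open P3ex

theorem thm_P3e (hExB : St_ExBP) (hM : St_MulP) (hNLi : St_NLi) (hP3a : St_P3a)
    (hP3c : St_P3c) (hP3d : St_P3d) : St_P3e := by
  intro b hb
  obtain ⟨d, C1, hd, hC1, h1⟩ := hP3d b hb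
  refine ⟨d, hd, ?_⟩
  intro κ θ hκ0 hκ1 hθ hθ1 hθ2
  have hs := abs_sig_lt hb
  have hdθ : HasCompactSupport (deriv θ) := dcs (κ / 12) 0 0
    (fun p hp => hθ2 p (by rw [abs_of_pos (lt_trans (by positivity) hp)]; exact hp.le))
    (fun p hp => hθ2 p (by
      have : p < 0 := lt_trans hp (by linarith)
      rw [abs_of_neg this]; linarith))
  obtain ⟨CM, hCM0, hCM⟩ := (hM (sig b) _ hs hθ hdθ).1
  obtain ⟨C2, hC2, h2⟩ := hP3c b hb κ θ hκ0 hκ1 hθ hθ1 hθ2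
  obtain ⟨J, hJ⟩ := exists_nat_gt ((1 / κ + 1 / 12) * (96 / κ))
  refine ⟨J * (CM * C1) + C2 * 2 ^ (b + 1) + C2, by positivity, ?_⟩
  intro A m k y R B hR hP hy0 hmd hB
  obtain ⟨hsol, hkA, hy, hex⟩ := id hP
  have hCM' : ∀ w : K, ‖Mul (sig b) (fun q => θ (q / R)) w‖ ≤ CM * ‖w‖ := by
    intro w
    have := ((hCM R 0 hR).2 w).1
    simpa only [sub_zero] using this
  have hdt' : HasCompactSupport (deriv fun p => θ (p / R)) := dcs (κ / 12 * R) 0 0
    (fun p hp => by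
      have h0 : κ / 12 < p / R := by rwa [lt_div_iff₀ hR]
      have h0' : 0 < p / R := lt_trans (by positivity) h0
      rw [hθ2 _ (by rw [abs_of_pos h0']; exact h0.le)])
    (fun p hp => by
      have h0 : p / R < -(κ / 12) := by rw [div_lt_iff₀ hR]; linarith
      have h0' : p / R < 0 := lt_trans h0 (by linarith)
      rw [hθ2 _ (by rw [abs_of_neg h0']; linarith)])
  obtain ⟨ρ, hρ⟩ : ∃ ρ : ℝ, ρ = κ / 48 * R := ⟨_, rfl⟩
  have hρ0 : 0 < ρ := by rw [hρ]; positivity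
  have hJ' := fun s hs0 hs => pick (s := s) hκ0 hR hJ hs0 hs
  rw [← hρ] at hmd hJ' ⊢
  have hm0 : 0 ≤ m ρ := le_trans (norm_nonneg _) (hex 0 ρ)
  have hB0 : 0 ≤ B := by
    refine le_trans ?_ (hB 0)
    exact integral_nonneg fun x => Real.rpow_nonneg (abs_nonneg _) _
  choose k' hk'sol hk'b hk'i hk'I hk'V using fun n : ℕ => h1 κ A m k y hκ0 hκ1 hP ρ
    (n * (ρ / 2)) hρ0 hmd
  obtain ⟨T, hT⟩ : ∃ T : ℝ, T = R / κ + R / 12 := ⟨_, rfl⟩
  rw [← hT] at hJ' ⊢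
  have hT0 : 0 ≤ T := by rw [hT]; positivity
  have hΦ := (hP3a b hb k hsol (fun p => θ (p / R)) (sm_scale hθ R) hdt' T hT0).1
  have h2m : 0 ≤ (2 * m ρ) ^ (b + 1) := Real.rpow_nonneg (by linarith) _
  obtain ⟨c3, hc3⟩ : ∃ c3 : ℝ, c3 = C2 * (R ^ (-(5 / 2 : ℝ) - sig b) *
        (B + R ^ (3 / 2 + sig b) * (2 * m ρ) ^ (b + 1))) := ⟨_, rfl⟩
  have hc30 : 0 ≤ c3 := by
    rw [hc3]
    have h8 : 0 ≤ R ^ (3 / 2 + sig b) := Real.rpow_nonneg hR.le _
    have h9 : 0 ≤ R ^ (-(5 / 2 : ℝ) - sig b) := Real.rpow_nonneg hR.le _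
    positivity
  obtain ⟨G, hG⟩ : ∃ G : ℝ → ℝ, G = fun s => ∑ n ∈ Finset.range J, CM * ‖NL b (k' n s)‖ +
    (Ioc 0 (R / 8)).indicator (fun _ => c3) s := ⟨_, rfl⟩
  have hind : Integrable ((Ioc 0 (R / 8)).indicator (fun _ : ℝ => c3)) volume := by
    rw [integrable_indicator_iff measurableSet_Ioc]
    exact integrableOn_const (by simp) (by simp)
  have hsumi : Integrable (fun s => ∑ n ∈ Finset.range J, CM * ‖NL b (k' n s)‖) volume :=
    integrable_finsetSum _ fun n _ => (hk'i n).norm.const_mul _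
  have hGi : Integrable G volume := by
    rw [hG]
    exact hsumi.add hind
  have hG0 : ∀ s, 0 ≤ G s := by
    intro s
    rw [hG]
    exact add_nonneg (Finset.sum_nonneg fun _ _ => mul_nonneg hCM0.le (norm_nonneg _))
      (indicator_nonneg (fun _ _ => hc30) s)
  have hae1 : ∀ᵐ s ∂(volume : Measure ℝ), s ∈ Icc 0 T → sn b (k s) < ⊤ := by
    have := ((hNLi b hb univ k hsol).1 0 (mem_univ _) T (mem_univ _)).2
    rwa [ae_restrict_iff' measurableSet_Icc] at this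
  have hae2 : ∀ᵐ s ∂(volume : Measure ℝ), ∀ n, s ∈ Icc 0 T → sn b (k' n s) < ⊤ := by
    rw [ae_all_iff]
    intro n
    have := ((hNLi b hb univ (k' n) (hk'sol n)).1 0 (mem_univ _) T (mem_univ _)).2
    rwa [ae_restrict_iff' measurableSet_Icc] at this
  have hle : ∀ᵐ s ∂(volume : Measure ℝ), s ∈ Ioc 0 T →
      ‖pr (sig b) (xt 0 R) (Mul (sig b) (fun q => θ (q / R)) (tau (-s) (NL b (k s))))‖ ≤ G s := by
    filter_upwards [hae1, hae2] with s e1 e2 hs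
    have hsI : s ∈ Icc 0 T := Ioc_subset_Icc_self hs
    obtain ⟨n, hnJ, hn⟩ := hJ' s hs.1 hs.2
    have hV := hk'V n s hn
    rw [show 2 * ρ = κ / 24 * R by rw [hρ]; ring] at hV
    have hYs : ‖y s‖ ≤ (1 - κ) * s := by
      have h3 := hy 0 s
      rw [hy0, dist_zero_right, sub_zero, abs_of_pos hs.1] at h3
      exact h3
    have h5 := bound hExB hb h2 hC2 hR hs.1 hCM' hYs (e1 hsI) (e2 n hsI) hV (hB s) hB0 (hk'b n s)
    rw [← hc3] at h5
    refine h5.trans ?_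
    rw [hG]
    refine add_le_add ?_ le_rfl
    exact Finset.single_le_sum (f := fun n => CM * ‖NL b (k' n s)‖)
      (fun _ _ => mul_nonneg hCM0.le (norm_nonneg _)) (Finset.mem_range.mpr hnJ)
  have h6 : ex (sig b) (xt 0 R) (∫ s in (0 : ℝ)..T, Mul (sig b) (fun q => θ (q / R))
      (tau (-s) (NL b (k s)))) ≤ ∫ s in (0 : ℝ)..T, G s := by
    unfold ex
    rw [← ContinuousLinearMap.intervalIntegral_comp_comm _ hΦ]
    exact intervalIntegral.norm_integral_le_of_norm_le hT0 hle hGi.intervalIntegrable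
  have h7 : ∫ s in (0 : ℝ)..T, G s ≤ ∫ s, G s := by
    rw [intervalIntegral.integral_of_le hT0]
    exact setIntegral_le_integral hGi (Eventually.of_forall hG0)
  have h8 : ∫ s, G s ≤ J * (CM * (C1 * m ρ ^ (b + 1))) + c3 * (R / 8) := by
    rw [hG, integral_add hsumi hind, integral_finsetSum _ fun n _ => (hk'i n).norm.const_mul _]
    refine add_le_add ?_ ?_
    · refine (Finset.sum_le_sum (g := fun _ => CM * (C1 * m ρ ^ (b + 1))) fun n _ => ?_).trans ?_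
      · rw [integral_const_mul]
        exact mul_le_mul_of_nonneg_left (hk'I n) hCM0.le
      · rw [Finset.sum_const, Finset.card_range, nsmul_eq_mul]
    · rw [integral_indicator measurableSet_Ioc, setIntegral_const, smul_eq_mul, mul_comm]
      refine mul_le_mul_of_nonneg_left ?_ hc30
      rw [measureReal_def, Real.volume_Ioc, sub_zero, ENNReal.toReal_ofReal (by positivity)]
  have h9 : c3 * (R / 8) = C2 / 8 * (R ^ (-(3 / 2 : ℝ) - sig b) * B) +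
      C2 / 8 * (2 ^ (b + 1) * m ρ ^ (b + 1)) := by
    have e1 := rpow_aux hR B ((2 * m ρ) ^ (b + 1)) (sig b)
    have e2 : c3 * (R / 8) = C2 / 8 * (R * (R ^ (-(5 / 2 : ℝ) - sig b) *
        (B + R ^ (3 / 2 + sig b) * (2 * m ρ) ^ (b + 1)))) := by
      rw [hc3]
      ring
    rw [e2, e1, Real.mul_rpow (by norm_num) hm0]
    ring
  have h10 : 0 ≤ R ^ (-(3 / 2 : ℝ) - sig b) * B := mul_nonneg (Real.rpow_nonneg hR.le _) hB0
  have hmb : 0 ≤ m ρ ^ (b + 1) := Real.rpow_nonneg hm0 _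
  have h2b : (0 : ℝ) ≤ 2 ^ (b + 1) := Real.rpow_nonneg (by norm_num) _
  have h11 : C2 / 8 * (R ^ (-(3 / 2 : ℝ) - sig b) * B) ≤
      (J * (CM * C1) + C2 * 2 ^ (b + 1) + C2) * (R ^ (-(3 / 2 : ℝ) - sig b) * B) := by
    refine mul_le_mul_of_nonneg_right ?_ h10
    have : 0 ≤ (J : ℝ) * (CM * C1) := by positivity
    have : 0 ≤ C2 * (2 : ℝ) ^ (b + 1) := by positivity
    linarith
  have h12 : (J * (CM * C1) + C2 * 2 ^ (b + 1) + C2) * R ^ (-(3 / 2 : ℝ) - sig b) * B =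
      (J * (CM * C1) + C2 * 2 ^ (b + 1) + C2) * (R ^ (-(3 / 2 : ℝ) - sig b) * B) := by ring
  rw [h12]
  have h13 : J * (CM * (C1 * m ρ ^ (b + 1))) + C2 / 8 * (2 ^ (b + 1) * m ρ ^ (b + 1)) ≤
      (J * (CM * C1) + C2 * 2 ^ (b + 1) + C2) * m ρ ^ (b + 1) := by
    have e1 : 0 ≤ C2 * m ρ ^ (b + 1) := by positivity
    have e2 : 0 ≤ C2 * (2 ^ (b + 1) * m ρ ^ (b + 1)) := by positivity
    nlinarith
  linarith

end Pool.Agent.QWF
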