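import Pool.Agent.QWF.StE

set_option autoImplicit false

/-!
# QWF, P4: decay of the exterior norm
-/

open MeasureTheory Filter Topology Set
open scoped ENNReal NNReal RealInnerProductSpace

namespace Pool.Agent.QWF

namespace P4x

lemma sig_lt {b : ℝ} (hb : 4 < b) : |sig b| < 1 / 2 := by
  have h0 : 0 < b := by linarith
  have h1 : 2 / b < 1 / 2 := by
    rw [div_lt_iff₀ h0]
    linarith
  have h2 : 0 < 2 / b := by positivity
  rw [sig, abs_lt]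
  constructor <;> linarith

lemma bdd {b : ℝ} (hb : 4 < b) (hExB : St_ExBP) {A : ℝ} {k : ℝ → K} (hA : ∀ t, ‖k t‖ ≤ A)
    (y : ℝ → E) (ρ : ℝ) : BddAbove (range fun t => ex (sig b) (xt (y t) ρ) (k t)) := by
  refine ⟨A, ?_⟩
  rintro _ ⟨t, rfl⟩
  exact ((hExB _ (sig_lt hb)).2.1 _ _).trans (hA t)

lemma le_epsb {b : ℝ} (hb : 4 < b) (hExB : St_ExBP) {A : ℝ} {k : ℝ → K} (hA : ∀ t, ‖k t‖ ≤ A)
    (y : ℝ → E) (ρ t : ℝ) : ex (sig b) (xt (y t) ρ) (k t) ≤ epsb b k y ρ :=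
  le_ciSup (bdd hb hExB hA y ρ) t

lemma epsb_nonneg (b : ℝ) (k : ℝ → K) (y : ℝ → E) (ρ : ℝ) : 0 ≤ epsb b k y ρ :=
  Real.iSup_nonneg fun _ => norm_nonneg _

lemma epsb_anti {b : ℝ} (hb : 4 < b) (hExB : St_ExBP) {A : ℝ} {k : ℝ → K}
    (hA : ∀ t, ‖k t‖ ≤ A) (y : ℝ → E) : Antitone (epsb b k y) := by
  intro ρ ρ' h
  refine ciSup_mono (bdd hb hExB hA y ρ) fun t => ?_
  refine (hExB _ (sig_lt hb)).2.2.1 _ _ _ fun x hx => ?_
  have hx' : ρ' < dist x (y t) := hx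
  exact lt_of_le_of_lt h hx'

end P4x

open P4x in
theorem thm_P4 (hExB : St_ExBP) (hPSy : St_PSy) (hP3 : St_P3) (hP4r : St_P4r) : St_P4 := by
  intro b hb κ A k y hκ0 hκ1 hP hlim
  have hA : ∀ t, ‖k t‖ ≤ A := hP.2.1
  obtain ⟨C, M, n0, hM, h⟩ := hP3 b hb κ A (epsb b k y) hκ0 hκ1 (epsb_anti hb hExB hA y) hlim
  have hpow : Tendsto (fun n : ℕ => (2 : ℝ) ^ n) atTop atTop :=
    tendsto_pow_atTop_atTop_of_one_lt (by norm_num)
  obtain ⟨D, hD, hDn⟩ := hP4r b (sig b) hb (sig_lt hb) (fun n => epsb b k y (2 ^ n)) C M n0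
    (fun n => epsb_nonneg b k y _) (hlim.comp hpow) hM (by
      intro n hn
      refine ciSup_le fun t0 => ?_
      obtain ⟨h1, h2⟩ := (hPSy b hb κ A (epsb b k y) k y hP).2.2 t0
      have h3 := h _ _ h1 (by simp) n hn
      simp only [add_zero] at h3
      rw [h2] at h3
      exact h3)
  refine ⟨D, hD, fun n t => ?_⟩
  exact (le_epsb hb hExB hA y (2 ^ n) t).trans (hDn n)

end Pool.Agent.QWF
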