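import Pool.Agent.QWF.StC0

/-!
# QWF, module P4r: a sequence lemma
-/

set_option autoImplicit false

open MeasureTheory Filter Topology Set
open scoped ENNReal NNReal RealInnerProductSpace

namespace Pool.Agent.QWF

namespace P4rx

lemma rt : ∃ r : ℝ, r = (2 : ℝ) ^ (1 / 2 : ℝ) ∧ 1 < r ∧ 4 / 3 ≤ r := by
  have h0 : (2 : ℝ) ^ (1 / 2 : ℝ) = √2 := by rw [Real.sqrt_eq_rpow]
  have h1 : (4 / 3 : ℝ) ≤ √2 := by
    apply Real.le_sqrt_of_sq_le
    norm_num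
  exact ⟨√2, h0.symm, by linarith, h1⟩

lemma geo (r : ℝ) (hr : 4 / 3 ≤ r) (n : ℕ) :
    ∑ j ∈ Finset.range (n + 1), r ^ j ≤ 4 * r ^ n := by
  induction n with
  | zero => simp
  | succ n ih =>
    rw [Finset.sum_range_succ]
    have h1 : 0 < r ^ n := pow_pos (by linarith) n
    have h2 : r ^ (n + 1) = r ^ n * r := pow_succ r n
    rw [h2]
    nlinarith

lemma rp (s q r : ℝ) (hq : q = (2 : ℝ) ^ (1 + s : ℝ)) (hr : r = (2 : ℝ) ^ (1 / 2 : ℝ)) (n : ℕ) :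
    (2 : ℝ) ^ ((3 / 2 + s : ℝ) * n) = (r * q) ^ n ∧
    (2 : ℝ) ^ (-(3 / 2 + s : ℝ) * n) = ((r * q) ^ n)⁻¹ ∧
    (2 : ℝ) ^ (-(1 + s : ℝ) * n) = (q ^ n)⁻¹ := by
  have h3 : (2 : ℝ) ^ ((1 + s : ℝ) * n) = q ^ n := by
    rw [hq, ← Real.rpow_natCast, ← Real.rpow_mul (by norm_num)]
  have h2 : r * q = (2 : ℝ) ^ (3 / 2 + s : ℝ) := by
    have h4 : (3 / 2 + s : ℝ) = 1 / 2 + (1 + s) := by ring
    rw [h4, Real.rpow_add (by norm_num), hq, hr]
  have h5 : (2 : ℝ) ^ ((3 / 2 + s : ℝ) * n) = (r * q) ^ n := by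
    rw [h2, ← Real.rpow_natCast, ← Real.rpow_mul (by norm_num)]
  refine ⟨h5, ?_, ?_⟩
  · rw [neg_mul, Real.rpow_neg (by norm_num), h5]
  · rw [neg_mul, Real.rpow_neg (by norm_num), h3]

/-- one step of the induction -/
lemma step (r : ℝ) (hr : 4 / 3 ≤ r) (q : ℝ) (hq1 : 1 ≤ q) (e : ℕ → ℝ) (C δ b : ℝ) (M n1 n : ℕ) (hb : 0 < b)
    (he : ∀ n, 0 ≤ e n) (hC : 0 ≤ C) (hδ : 0 ≤ δ) (hn1 : ∀ j, n1 ≤ j → e j ≤ δ)
    (hn : n1 + M ≤ n) (hsm : (C * q ^ M + 4 * C) * δ ^ b ≤ 1 / 2) (Z : ℝ)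
    (hZ : ∀ j, j ≤ n → q ^ j * e j ≤ Z)
    (h : e n ≤ C * e (n - M) ^ (b + 1) + C * ((r * q) ^ n)⁻¹ *
      (1 + ∑ j ∈ Finset.range (n + 1), (r * q) ^ j * e j ^ (b + 1))) :
    q ^ n * e n ≤ C * (1 + ∑ j ∈ Finset.range n1, (r * q) ^ j * e j ^ (b + 1)) + Z / 2 := by
  have hq0 : 0 < q := by linarith
  have hr0 : 0 < r := by linarith
  have hZ0 : 0 ≤ Z := le_trans (mul_nonneg (pow_nonneg hq0.le _) (he 0)) (hZ 0 (Nat.zero_le _))
  have hδb : 0 ≤ δ ^ b := Real.rpow_nonneg hδ _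
  have e5 : ∀ j, n1 ≤ j → e j ^ (b + 1) ≤ δ ^ b * e j := by
    intro j hj
    have h1 : e j ^ b ≤ δ ^ b := Real.rpow_le_rpow (he j) (hn1 j hj) hb.le
    have h2 := mul_le_mul_of_nonneg_right h1 (he j)
    calc e j ^ (b + 1) = e j ^ b * e j := Real.rpow_add_one' (he j) (by linarith)
      _ ≤ _ := h2
  -- first term
  have t1 : q ^ n * (C * e (n - M) ^ (b + 1)) ≤ C * q ^ M * δ ^ b * Z := by
    have h1 := e5 (n - M) (by omega)
    have h2 := hZ (n - M) (by omega)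
    have h3 : q ^ n = q ^ M * q ^ (n - M) := by
      rw [← pow_add]
      congr 1
      omega
    calc q ^ n * (C * e (n - M) ^ (b + 1)) ≤ q ^ n * (C * (δ ^ b * e (n - M))) := by
          gcongr
      _ = C * q ^ M * δ ^ b * (q ^ (n - M) * e (n - M)) := by
          rw [h3]
          ring
      _ ≤ _ := by gcongr
  -- the sum
  have t2 : ∑ j ∈ Finset.range (n + 1), (r * q) ^ j * e j ^ (b + 1) ≤
      ∑ j ∈ Finset.range n1, (r * q) ^ j * e j ^ (b + 1) + δ ^ b * Z * (4 * r ^ n) := by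
    rw [← Finset.sum_range_add_sum_Ico _ (show n1 ≤ n + 1 by omega)]
    refine add_le_add le_rfl ?_
    calc ∑ j ∈ Finset.Ico n1 (n + 1), (r * q) ^ j * e j ^ (b + 1)
        ≤ ∑ j ∈ Finset.Ico n1 (n + 1), δ ^ b * Z * r ^ j := by
          refine Finset.sum_le_sum fun j hj => ?_
          rw [Finset.mem_Ico] at hj
          calc (r * q) ^ j * e j ^ (b + 1) ≤ (r * q) ^ j * (δ ^ b * e j) := by
                have := e5 j hj.1
                gcongr
            _ = δ ^ b * r ^ j * (q ^ j * e j) := by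
                rw [mul_pow]
                ring
            _ ≤ δ ^ b * r ^ j * Z := by
                have := hZ j (by omega)
                gcongr
            _ = _ := by ring
      _ = δ ^ b * Z * ∑ j ∈ Finset.Ico n1 (n + 1), r ^ j := by rw [Finset.mul_sum]
      _ ≤ δ ^ b * Z * ∑ j ∈ Finset.range (n + 1), r ^ j := by
          refine mul_le_mul_of_nonneg_left ?_ (by positivity)
          refine Finset.sum_le_sum_of_subset_of_nonneg ?_ fun _ _ _ => by positivity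
          intro j hj
          rw [Finset.mem_Ico] at hj
          exact Finset.mem_range.mpr hj.2
      _ ≤ _ := mul_le_mul_of_nonneg_left (geo r hr n) (by positivity)
  obtain ⟨S1, hS1⟩ : ∃ S1, S1 = ∑ j ∈ Finset.range n1, (r * q) ^ j * e j ^ (b + 1) := ⟨_, rfl⟩
  have hS0 : 0 ≤ S1 := by
    rw [hS1]
    exact Finset.sum_nonneg fun j _ => mul_nonneg (by positivity) (Real.rpow_nonneg (he j) _)
  rw [← hS1] at t2 ⊢
  have t3 : q ^ n * ((r * q) ^ n)⁻¹ = (r ^ n)⁻¹ := by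
    rw [mul_pow]
    field_simp
  have h2n : (1 : ℝ) ≤ r ^ n := one_le_pow₀ (by linarith)
  have t4 : q ^ n * (C * ((r * q) ^ n)⁻¹ *
      (1 + ∑ j ∈ Finset.range (n + 1), (r * q) ^ j * e j ^ (b + 1))) ≤
      C * (1 + S1) + 4 * C * δ ^ b * Z := by
    calc q ^ n * (C * ((r * q) ^ n)⁻¹ *
          (1 + ∑ j ∈ Finset.range (n + 1), (r * q) ^ j * e j ^ (b + 1)))
        = C * (q ^ n * ((r * q) ^ n)⁻¹) *
          (1 + ∑ j ∈ Finset.range (n + 1), (r * q) ^ j * e j ^ (b + 1)) := by ring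
      _ ≤ C * (r ^ n)⁻¹ * (1 + (S1 + δ ^ b * Z * (4 * r ^ n))) := by
          rw [t3]
          gcongr
      _ = C * ((r ^ n)⁻¹ * (1 + S1)) + 4 * C * δ ^ b * Z := by
          field_simp
          ring
      _ ≤ C * (1 * (1 + S1)) + 4 * C * δ ^ b * Z := by
          have : (r ^ n)⁻¹ ≤ 1 := inv_le_one_of_one_le₀ h2n
          gcongr
      _ = _ := by ring
  have t5 := mul_le_mul_of_nonneg_left h (pow_nonneg hq0.le n)
  rw [mul_add] at t5
  have t6 := mul_le_mul_of_nonneg_right hsm hZ0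
  linarith

end P4rx

theorem thm_P4r : St_P4r := by
  intro b s hb hs e C0 M n0 he hlim hM h0
  have hs2 := (abs_lt.1 hs).1
  obtain ⟨q, hq⟩ : ∃ q : ℝ, q = (2 : ℝ) ^ (1 + s : ℝ) := ⟨_, rfl⟩
  obtain ⟨r, hr, hr1, hr2⟩ := P4rx.rt
  have hr0 : 0 < r := by linarith
  have hq1 : 1 ≤ q := by
    rw [hq]
    exact Real.one_le_rpow (by norm_num) (by linarith)
  have hq0 : 0 < q := by linarith
  have hb0 : 0 < b := by linarith
  obtain ⟨C, hC⟩ : ∃ C : ℝ, C = max C0 1 := ⟨_, rfl⟩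
  have hC1 : 1 ≤ C := by rw [hC]; exact le_max_right _ _
  have hC0 : C0 ≤ C := by rw [hC]; exact le_max_left _ _
  have h : ∀ n, n0 ≤ n → e n ≤ C * e (n - M) ^ (b + 1) + C * ((r * q) ^ n)⁻¹ *
      (1 + ∑ j ∈ Finset.range (n + 1), (r * q) ^ j * e j ^ (b + 1)) := by
    intro n hn
    have h1 := h0 n hn
    rw [(P4rx.rp s q r hq hr n).2.1, Finset.sum_congr rfl fun j _ => by
      rw [(P4rx.rp s q r hq hr j).1]] at h1
    have hs : 0 ≤ ∑ j ∈ Finset.range (n + 1), (r * q) ^ j * e j ^ (b + 1) :=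
      Finset.sum_nonneg fun j _ => mul_nonneg (by positivity) (Real.rpow_nonneg (he j) _)
    have h2 : C0 * e (n - M) ^ (b + 1) ≤ C * e (n - M) ^ (b + 1) :=
      mul_le_mul_of_nonneg_right hC0 (Real.rpow_nonneg (he _) _)
    have h3 : C0 * ((r * q) ^ n)⁻¹ * (1 + ∑ j ∈ Finset.range (n + 1), (r * q) ^ j * e j ^ (b + 1)) ≤
        C * ((r * q) ^ n)⁻¹ * (1 + ∑ j ∈ Finset.range (n + 1), (r * q) ^ j * e j ^ (b + 1)) := by
      gcongr
    linarith
  obtain ⟨A, hA⟩ : ∃ A : ℝ, A = C * q ^ M + 4 * C := ⟨_, rfl⟩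
  have hA0 : 0 < A := by rw [hA]; positivity
  obtain ⟨δ, hδ0, hδ⟩ : ∃ δ : ℝ, 0 < δ ∧ A * δ ^ b ≤ 1 / 2 := by
    refine ⟨min 1 (1 / (2 * A)), by positivity, ?_⟩
    have h1 : min 1 (1 / (2 * A)) ≤ 1 := min_le_left _ _
    have h2 : min 1 (1 / (2 * A)) ≤ 1 / (2 * A) := min_le_right _ _
    have h3 : 0 < min 1 (1 / (2 * A)) := by positivity
    have h4 : (min 1 (1 / (2 * A))) ^ b ≤ min 1 (1 / (2 * A)) := by
      calc (min 1 (1 / (2 * A))) ^ b ≤ (min 1 (1 / (2 * A))) ^ (1 : ℝ) :=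
            Real.rpow_le_rpow_of_exponent_ge h3 h1 (by linarith)
        _ = _ := Real.rpow_one _
    calc A * (min 1 (1 / (2 * A))) ^ b ≤ A * (1 / (2 * A)) := by
          have := h4.trans h2
          gcongr
      _ = 1 / 2 := by field_simp
  obtain ⟨n1, hn1⟩ := eventually_atTop.mp (hlim.eventually_le_const hδ0)
  obtain ⟨N, hN⟩ : ∃ N : ℕ, N = n0 + n1 + M := ⟨_, rfl⟩
  obtain ⟨c1, hc1⟩ : ∃ c1 : ℝ,
    c1 = C * (1 + ∑ j ∈ Finset.range n1, (r * q) ^ j * e j ^ (b + 1)) := ⟨_, rfl⟩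
  have hb0' : ∀ j, 0 ≤ q ^ j * e j := fun j => mul_nonneg (pow_nonneg hq0.le _) (he j)
  have hc10 : 0 ≤ c1 := by
    rw [hc1]
    have : 0 ≤ ∑ j ∈ Finset.range n1, (r * q) ^ j * e j ^ (b + 1) :=
      Finset.sum_nonneg fun j _ => mul_nonneg (by positivity) (Real.rpow_nonneg (he j) _)
    positivity
  obtain ⟨D, hD⟩ : ∃ D : ℝ,
    D = 2 * c1 + ∑ j ∈ Finset.range N, q ^ j * e j + 1 := ⟨_, rfl⟩
  have hsum0 : 0 ≤ ∑ j ∈ Finset.range N, q ^ j * e j := Finset.sum_nonneg fun j _ => hb0' j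
  have hD0 : 0 < D := by rw [hD]; linarith
  have key : ∀ n, q ^ n * e n ≤ D := by
    intro n
    induction n using Nat.strong_induction_on with
    | _ n ih =>
      by_cases hn : n < N
      · have h1 : q ^ n * e n ≤ ∑ j ∈ Finset.range N, q ^ j * e j :=
          Finset.single_le_sum (f := fun j => q ^ j * e j) (fun j _ => hb0' j)
            (Finset.mem_range.mpr hn)
        linarith
      · by_contra hcon
        rw [not_le] at hcon
        have h1 := P4rx.step r hr2 q hq1 e C δ b M n1 n hb0 he (by linarith) hδ0.le hn1 (by omega)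
          (by rw [← hA]; exact hδ) (q ^ n * e n) (fun j hj => by
            rcases Nat.lt_or_eq_of_le hj with hj | hj
            · exact (ih j hj).trans hcon.le
            · rw [hj]) (h n (by omega))
        rw [← hc1] at h1
        linarith
  refine ⟨D, hD0, fun n => ?_⟩
  rw [(P4rx.rp s q r hq hr n).2.2, ← div_eq_mul_inv, le_div_iff₀ (pow_pos hq0 _), mul_comm]
  exact key n

end Pool.Agent.QWF
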