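import Pool.Agent.QWF.StE
import Pool.Agent.QWF.StD

set_option autoImplicit false

/-!
# QWF, module PSy: symmetries of paths
-/

open MeasureTheory Filter Topology Set
open scoped ENNReal NNReal RealInnerProductSpace

namespace Pool.Agent.QWF


namespace PSyx

private lemma ex_sh (hGrp2 : St_Grp2) (hAct : St_ActP) {s : ℝ} (hs : |s| < 1 / 2) (y z : E) (ρ : ℝ) (k : K) :
    ex s (xt y ρ) (sh z k) = ex s (xt (y - z) ρ) k := by
  have h1 := (hAct s hs).2.2.1 (xt y ρ) z 0 k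
  rw [gr, hGrp2.2.1] at h1
  rw [h1]
  have h2 : {w : E | z + Real.exp (-0) • w ∈ xt y ρ} = xt (y - z) ρ := by
    refine Set.ext fun w => ?_
    change ρ < dist (z + Real.exp (-0) • w) y ↔ ρ < dist w (y - z)
    have h3 : z + Real.exp (-0) • w - y = w - (y - z) := by
      rw [neg_zero, Real.exp_zero, one_smul]
      abel
    rw [dist_eq_norm, dist_eq_norm, h3]
  rw [h2]

end PSyx

open PSyx in
/-- **PSy** (symmetries of paths) -/
theorem thm_PSy (hGrp2 : St_Grp2) (hAct : St_ActP) (hSym : St_Sym) :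
    St_PSy := by
  rintro p hp κ A m k y ⟨hk, hA, hy, hm⟩
  have hp' : |sig p| < 1 / 2 := abs_sig_lt hp
  have hs := (hSym p hp).2.2.2.2.2.2.1 univ k hk
  refine ⟨⟨?_, ?_, ?_, ?_⟩, ?_, fun t0 => ⟨⟨?_, ?_, ?_, ?_⟩, ?_⟩⟩
  · have h1 := hs.2.2.2
    have h2 : {t : ℝ | -t ∈ (univ : Set ℝ)} = univ := eq_univ_of_forall fun t => mem_univ _
    rwa [h2] at h1
  · intro t
    rw [LinearIsometry.norm_map]
    exact hA _
  · intro s t
    have h1 := hy (-s) (-t)
    rwa [neg_sub_neg, abs_sub_comm] at h1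
  · intro t ρ
    rw [(hAct (sig p) hp').2.2.2.1]
    exact hm _ _
  · intro t ρ
    exact (hAct (sig p) hp').2.2.2.1 _ _
  · have h1 := hs.1 t0
    have h2 : {t : ℝ | t + t0 ∈ (univ : Set ℝ)} = univ := eq_univ_of_forall fun t => mem_univ _
    rw [h2] at h1
    have h3 := ((hSym p hp).2.2.2.2.2.2.1 univ _ h1).2.1 (-(y t0))
    have h4 : (fun t => sh (-(y t0)) (k (t + t0))) = fun t => sh (-(y t0)) (k (t0 + t)) := by
      funext t
      rw [add_comm]
    rwa [h4] at h3
  · intro t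
    rw [LinearIsometry.norm_map]
    exact hA _
  · intro s t
    have h1 := hy (t0 + s) (t0 + t)
    rwa [add_sub_add_left_eq_sub, ← dist_sub_right _ _ (y t0)] at h1
  · intro t ρ
    rw [ex_sh hGrp2 hAct hp', sub_neg_eq_add, sub_add_cancel]
    exact hm _ _
  · intro ρ
    rw [ex_sh hGrp2 hAct hp', sub_neg_eq_add, zero_add]

end Pool.Agent.QWF
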