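import Pool.Agent.QWF.StA

set_option autoImplicit false

/-!
# QWF, Pol: polar coordinates
-/

open MeasureTheory Filter Topology Set
open scoped ENNReal NNReal RealInnerProductSpace

namespace Pool.Agent.QWF

namespace Polx

/-- Polar coordinates. -/
theorem polar {F : Type} [NormedAddCommGroup F] [NormedSpace ℝ F] [FiniteDimensional ℝ F]
    [MeasurableSpace F] [BorelSpace F] [Nontrivial F] (μ : Measure F) [μ.IsAddHaarMeasure]
    {h : F → ℝ≥0∞} (hh : Measurable h) :
    ∫⁻ x, h x ∂μ = ∫⁻ w : Metric.sphere (0 : F) 1, (∫⁻ r in Ioi (0 : ℝ),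
      ENNReal.ofReal (r ^ (Module.finrank ℝ F - 1)) * h (r • (w : F))) ∂μ.toSphere := by
  have h1 : ∫⁻ x, h x ∂μ = ∫⁻ x : ({0}ᶜ : Set F), h x ∂(μ.comap (↑)) := by
    rw [lintegral_subtype_comap (measurableSet_singleton _).compl h, restrict_compl_singleton]
  have h2 := μ.measurePreserving_homeomorphUnitSphereProd.lintegral_comp_emb
    (Homeomorph.measurableEmbedding _)
    (fun z : Metric.sphere (0 : F) 1 × Ioi (0 : ℝ) => h ((z.2 : ℝ) • (z.1 : F)))
  have h3 : ∀ x : ({0}ᶜ : Set F),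
      h (((homeomorphUnitSphereProd F x).2 : ℝ) • ((homeomorphUnitSphereProd F x).1 : F)) = h x := by
    intro x
    congr 1
    have hx : ‖(x : F)‖ ≠ 0 := norm_ne_zero_iff.2 x.2
    simp [smul_smul, mul_inv_cancel₀ hx]
  simp only [h3] at h2
  rw [h1, h2, lintegral_prod]
  swap
  · apply Measurable.aemeasurable
    exact hh.comp (by fun_prop)
  apply lintegral_congr
  intro w
  have hm : Measurable fun r : ℝ => h (r • (w : F)) := hh.comp (by fun_prop)
  rw [Measure.volumeIoiPow, lintegral_withDensity_eq_lintegral_mul]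
  · have h4 := lintegral_subtype_comap (μ := (volume : Measure ℝ)) (s := Ioi (0 : ℝ)) measurableSet_Ioi
      (fun r => ENNReal.ofReal (r ^ (Module.finrank ℝ F - 1)) * h (r • (w : F)))
    rw [← h4]
    rfl
  · fun_prop
  · exact hm.comp measurable_subtype_coe

/-- The parametrisation of `E` by lines through the origin. -/
noncomputable def Ph (z : S × ℝ) : E := z.2 • (z.1 : E)

theorem Ph_meas : Measurable Ph := by
  unfold Ph
  fun_prop

theorem half_line (f : E → ℝ≥0∞) (w : S) : ∫⁻ r in Iic (0 : ℝ), f (r • (w : E)) =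
    ∫⁻ r in Ioi (0 : ℝ), f (r • ((-w : S) : E)) := by
  have h1 := (Measure.measurePreserving_neg (volume : Measure ℝ)).setLIntegral_comp_preimage_emb
    (MeasurableEquiv.neg ℝ).measurableEmbedding (fun r => f (r • (w : E))) (Iic (0 : ℝ))
  have h2 : (fun x : ℝ => -x) ⁻¹' (Iic (0 : ℝ)) = Ici 0 := by
    ext x
    simp
  rw [← h1, h2, ← restrict_Ioi_eq_restrict_Ici]
  refine lintegral_congr fun r => ?_
  have h3 : (-r) • (w : E) = r • ((-w : S) : E) := by simp
  rw [h3]

theorem line_meas {f : E → ℝ≥0∞} (hf : Measurable f) (s : Set ℝ) :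
    Measurable fun w : S => ∫⁻ r in s, f (r • (w : E)) := by
  refine Measurable.lintegral_prod_right' (f := fun z : S × ℝ => f (z.2 • (z.1 : E))) ?_
  exact hf.comp (by fun_prop)

theorem lint {f : E → ℝ≥0∞} (hf : Measurable f) :
    ∫⁻ z : S × ℝ, f (Ph z) ∂mu = 2 * ∫⁻ ξ : E, ENNReal.ofReal (‖ξ‖ ^ (-3 : ℝ)) * f ξ := by
  have h1 : ∫⁻ z : S × ℝ, f (Ph z) ∂mu = ∫⁻ w : S, (∫⁻ r : ℝ, f (r • (w : E))) ∂sg := by
    exact lintegral_prod (fun z => f (Ph z)) (hf.comp Ph_meas).aemeasurable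
  have h2 : ∀ w : S, ∫⁻ r : ℝ, f (r • (w : E)) = (∫⁻ r in Ioi (0 : ℝ), f (r • (w : E))) +
      ∫⁻ r in Ioi (0 : ℝ), f (r • ((-w : S) : E)) := by
    intro w
    rw [← half_line f w, ← lintegral_add_compl (fun r : ℝ => f (r • (w : E))) measurableSet_Ioi,
      compl_Ioi]
  have h3 : ∫⁻ w : S, (∫⁻ r in Ioi (0 : ℝ), f (r • ((-w : S) : E))) ∂sg =
      ∫⁻ w : S, (∫⁻ r in Ioi (0 : ℝ), f (r • (w : E))) ∂sg :=
    mp_neg_sphere.lintegral_comp (line_meas hf (Ioi 0))
  rw [h1, lintegral_congr h2, lintegral_add_left (line_meas hf (Ioi 0)), h3, ← two_mul]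
  congr 1
  have h4 := polar (F := E) volume
    (h := fun ξ => ENNReal.ofReal (‖ξ‖ ^ (-3 : ℝ)) * f ξ) (by fun_prop)
  rw [h4]
  refine lintegral_congr fun w => ?_
  refine setLIntegral_congr_fun measurableSet_Ioi fun r hr => ?_
  have hr' : (0 : ℝ) < r := hr
  have hw : ‖r • (w : E)‖ = r := by
    rw [norm_smul, Real.norm_of_nonneg hr'.le]
    simp
  have hdim : Module.finrank ℝ E - 1 = 3 := by simp [E]
  rw [hw, hdim, ← mul_assoc, ← ENNReal.ofReal_mul (by positivity)]
  have h5 : r ^ 3 * r ^ (-3 : ℝ) = 1 := by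
    rw [← Real.rpow_natCast, ← Real.rpow_add hr']
    norm_num
  rw [h5, ENNReal.ofReal_one, one_mul]

theorem map_eq : mu.map Ph = (2 : ℝ≥0∞) • (volume : Measure E).withDensity
    (fun ξ => ENNReal.ofReal (‖ξ‖ ^ (-3 : ℝ))) := by
  ext A hA
  rw [Measure.map_apply Ph_meas hA, Measure.smul_apply, withDensity_apply _ hA,
    ← lintegral_indicator_one (Ph_meas hA)]
  have h1 := lint (f := A.indicator 1) (measurable_one.indicator hA)
  have h2 : ∫⁻ z : S × ℝ, (Ph ⁻¹' A).indicator 1 z ∂mu =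
      ∫⁻ z : S × ℝ, (A.indicator 1 : E → ℝ≥0∞) (Ph z) ∂mu := rfl
  rw [h2, h1, smul_eq_mul]
  congr 1
  rw [← lintegral_indicator hA]
  refine lintegral_congr fun ξ => ?_
  by_cases h : ξ ∈ A
  · rw [indicator_of_mem h, indicator_of_mem h, Pi.one_apply, mul_one]
  · rw [indicator_of_notMem h, indicator_of_notMem h, mul_zero]

end Polx

open Polx in
/-- **Pol**. -/
theorem thm_Pol : St_Pol := by
  intro H hH
  have hd : Measurable fun ξ : E => ENNReal.ofReal (‖ξ‖ ^ (-3 : ℝ)) := by fun_prop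
  have hlt : ∀ᵐ ξ : E ∂volume, ENNReal.ofReal (‖ξ‖ ^ (-3 : ℝ)) < ∞ :=
    Eventually.of_forall fun ξ => ENNReal.ofReal_lt_top
  have hac : mu.map Ph ≪ (volume : Measure E) := by
    rw [map_eq]
    exact Measure.smul_absolutelyContinuous.trans (withDensity_absolutelyContinuous _ _)
  have hm : AEStronglyMeasurable H (mu.map Ph) := hH.mono_ac hac
  have hsm : ∀ ξ : E, (ENNReal.ofReal (‖ξ‖ ^ (-3 : ℝ))).toReal • H ξ =
      ((‖ξ‖ ^ (-3 : ℝ) : ℝ) : ℂ) * H ξ := by
    intro ξ
    rw [ENNReal.toReal_ofReal (by positivity), Complex.real_smul]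
  constructor
  · have h1 : Integrable (fun z : S × ℝ => H (z.2 • (z.1 : E))) mu ↔
        Integrable H (mu.map Ph) := (integrable_map_measure hm Ph_meas.aemeasurable).symm
    rw [h1, map_eq, integrable_smul_measure (by norm_num) (by norm_num),
      integrable_withDensity_iff_integrable_smul' hd hlt]
    simp only [hsm]
  · have h1 : ∫ z : S × ℝ, H (z.2 • (z.1 : E)) ∂mu = ∫ ξ, H ξ ∂(mu.map Ph) :=
      (integral_map Ph_meas.aemeasurable hm).symm
    rw [h1, map_eq, integral_smul_measure,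
      integral_withDensity_eq_integral_toReal_smul hd hlt]
    simp only [hsm]
    rw [ENNReal.toReal_ofNat, Complex.real_smul]
    norm_num

end Pool.Agent.QWF
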