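import Pool.Agent.QWF.StB
import Pool.Agent.QWF.Moll

set_option autoImplicit false

/-!
# QWF, PotE: the potential energy along a solution with finite energy
-/

open MeasureTheory Filter Topology Set
open scoped ENNReal NNReal RealInnerProductSpace

namespace Pool.Agent.QWF

namespace PotEx

open Pool.Agent.QWF.Moll (mc mc_apply' mc_congr mc_smooth test_neg ph ph_test ph_nonneg ph_int
  mc_sub_le_aux mc_tendsto)

lemma sig_lt {b : ℝ} (hb : 4 < b) : |sig b| < 1 / 2 := by
  unfold sig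
  have h1 : 0 < 2 / b := by positivity
  have h2 : 2 / b < 1 := by
    rw [div_lt_one (by linarith)]
    linarith
  rw [abs_lt]
  constructor <;> linarith

/-- mollification is bounded -/
lemma mc_bd {p : ℝ≥0∞} (h1 : 1 ≤ p) (hp : p ≠ ⊤) (n : ℕ) {w : E → ℝ} (hw : MemLp w p volume) :
    eLpNorm (mc (ph n) w) p volume ≤ 3 * eLpNorm w p volume := by
  obtain ⟨w', hw', hww'⟩ := hw.1
  have hw2 : MemLp w' p volume := hw.ae_eq hww'
  rw [mc_congr hww', eLpNorm_congr_ae hww']
  have hl := hw2.locallyIntegrable h1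
  have h2 : eLpNorm (fun x => mc (ph n) w' x - w' x) p volume ≤ 2 * eLpNorm w' p volume := by
    refine mc_sub_le_aux h1 hp (ph_test n) (ph_nonneg n) (ph_int n) hw' hl fun y _ => ?_
    have h3 : MemLp (fun x => w' (x - y)) p volume :=
      hw2.comp_measurePreserving (measurePreserving_sub_right volume y)
    have h4 : eLpNorm (fun x => w' (x - y)) p volume = eLpNorm w' p volume :=
      eLpNorm_comp_measurePreserving hw2.1 (measurePreserving_sub_right volume y)
    calc eLpNorm (fun x => w' (x - y) - w' x) p volume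
        ≤ eLpNorm (fun x => w' (x - y)) p volume + eLpNorm w' p volume :=
          eLpNorm_sub_le h3.1 hw2.1 h1
      _ = 2 * eLpNorm w' p volume := by rw [h4, two_mul]
  have h5 : AEStronglyMeasurable (mc (ph n) w') volume :=
    (mc_smooth (ph_test n) hl).continuous.aestronglyMeasurable
  calc eLpNorm (mc (ph n) w') p volume
      = eLpNorm ((fun x => mc (ph n) w' x - w' x) + w') p volume := by
        congr 1
        funext x
        simp
    _ ≤ eLpNorm (fun x => mc (ph n) w' x - w' x) p volume + eLpNorm w' p volume :=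
        eLpNorm_add_le (h5.sub hw2.1) hw2.1 h1
    _ ≤ 2 * eLpNorm w' p volume + eLpNorm w' p volume := by gcongr
    _ = 3 * eLpNorm w' p volume := by ring

lemma mc_mem {p : ℝ≥0∞} (h1 : 1 ≤ p) (hp : p ≠ ⊤) (n : ℕ) {w : E → ℝ} (hw : MemLp w p volume) :
    MemLp (mc (ph n) w) p volume := by
  refine ⟨(mc_smooth (ph_test n) (hw.locallyIntegrable h1)).continuous.aestronglyMeasurable, ?_⟩
  exact (mc_bd h1 hp n hw).trans_lt (ENNReal.mul_lt_top (by simp) hw.2)

/-! ### The nonlinearity -/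

lemma Fn_norm {b : ℝ} (hb : 0 < b) (u : ℝ) : ‖Fn b u‖ = ‖u‖ ^ (b + 1) := by
  unfold Fn
  rw [norm_mul, Real.norm_eq_abs, Real.norm_eq_abs, abs_of_nonneg (by positivity),
    Real.rpow_add_one' (abs_nonneg u) (by linarith)]

lemma Fn_cont {b : ℝ} (hb : 0 < b) : Continuous (Fn b) :=
  (continuous_abs.rpow_const fun _ => Or.inr hb.le).mul continuous_id

lemma qq {b : ℝ} (_hb : 0 < b) : (2 : ℝ≥0∞) * ENNReal.ofReal (b + 1) = ENNReal.ofReal (2 * (b + 1)) := by
  rw [ENNReal.ofReal_mul (by norm_num)]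
  norm_num

lemma Fn_eLp {b : ℝ} (hb : 0 < b) (f : E → ℝ) : eLpNorm (fun x => Fn b (f x)) 2 volume =
    eLpNorm f (ENNReal.ofReal (2 * (b + 1))) volume ^ (b + 1) := by
  rw [← qq hb, ← eLpNorm_norm_rpow f (by linarith : 0 < b + 1)]
  refine eLpNorm_congr_norm_ae (Eventually.of_forall fun x => ?_)
  rw [Fn_norm hb, Real.norm_of_nonneg (Real.rpow_nonneg (norm_nonneg _) _)]

lemma abs_pow_aux {b : ℝ} (hb : 4 < b) (x : ℝ) : |x| ^ (b - 2) * x * x = |x| ^ b := by
  rcases eq_or_ne x 0 with rfl | hx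
  · rw [abs_zero, Real.zero_rpow (by linarith : b ≠ 0)]
    ring
  · have h0 : 0 < |x| := abs_pos.2 hx
    have h1 : |x| ^ b = |x| ^ (b - 2) * |x| ^ (2 : ℝ) := by
      rw [← Real.rpow_add h0]
      congr 1
      ring
    rw [h1, Real.rpow_two, sq_abs]
    ring

lemma Fn_deriv {b : ℝ} (hb : 4 < b) (x : ℝ) : HasDerivAt (Fn b) ((b + 1) * |x| ^ b) x := by
  have h1 := (hasDerivAt_abs_rpow x (by linarith : 1 < b)).mul (hasDerivAt_id x)
  have h2 : b * |x| ^ (b - 2) * x * id x + |x| ^ b * 1 = (b + 1) * |x| ^ b := by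
    have := abs_pow_aux hb x
    simp only [id]
    linear_combination b * this
  rw [h2] at h1
  exact h1

lemma Fn_sub {b : ℝ} (hb : 4 < b) (a c : ℝ) :
    ‖Fn b a - Fn b c‖ ≤ (b + 1) * (‖(|a| + |c|) ^ b‖ * ‖a - c‖) := by
  have h1 := Convex.norm_image_sub_le_of_norm_hasDerivWithin_le (f := Fn b)
    (f' := fun x => (b + 1) * |x| ^ b) (s := uIcc c a) (x := c) (y := a)
    (C := (b + 1) * (|a| + |c|) ^ b) (fun x _ => (Fn_deriv hb x).hasDerivWithinAt) (fun x hx => ?_)
    (convex_uIcc c a) left_mem_uIcc right_mem_uIcc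
  · rw [Real.norm_of_nonneg (by positivity : 0 ≤ (|a| + |c|) ^ b), ← mul_assoc]
    exact h1
  · have h2 : |x| ≤ |a| + |c| := by
      rcases mem_uIcc.1 hx with h | h
      · refine abs_le.2 ⟨?_, ?_⟩
        · linarith [neg_abs_le c, abs_nonneg a]
        · linarith [le_abs_self a, abs_nonneg c]
      · refine abs_le.2 ⟨?_, ?_⟩
        · linarith [neg_abs_le a, abs_nonneg c]
        · linarith [le_abs_self c, abs_nonneg a]
    rw [Real.norm_of_nonneg (by positivity)]
    gcongr

lemma holder {b : ℝ} (hb : 4 < b) :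
    ENNReal.HolderTriple (ENNReal.ofReal (2 * (b + 1) / b)) (ENNReal.ofReal (2 * (b + 1))) 2 := by
  constructor
  rw [← ENNReal.ofReal_inv_of_pos (by positivity), ← ENNReal.ofReal_inv_of_pos (by positivity),
    ← ENNReal.ofReal_add (by positivity) (by positivity)]
  have h1 : (2 * (b + 1) / b)⁻¹ + (2 * (b + 1))⁻¹ = 2⁻¹ := by
    field_simp
  rw [h1, ENNReal.ofReal_inv_of_pos (by norm_num)]
  norm_num

/-- difference of the nonlinearities in `L²` -/
lemma Fn_diff {b : ℝ} (hb : 4 < b) {w u : E → ℝ}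
    (hw : MemLp w (ENNReal.ofReal (2 * (b + 1))) volume)
    (hu : MemLp u (ENNReal.ofReal (2 * (b + 1))) volume) :
    eLpNorm (fun x => Fn b (w x) - Fn b (u x)) 2 volume ≤ ENNReal.ofReal (b + 1) *
      ((eLpNorm w (ENNReal.ofReal (2 * (b + 1))) volume +
        eLpNorm u (ENNReal.ofReal (2 * (b + 1))) volume) ^ b *
        eLpNorm (fun x => w x - u x) (ENNReal.ofReal (2 * (b + 1))) volume) := by
  have hq1 : (1 : ℝ≥0∞) ≤ ENNReal.ofReal (2 * (b + 1)) := by
    rw [ENNReal.one_le_ofReal]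
    linarith
  have h1 : eLpNorm (fun x => Fn b (w x) - Fn b (u x)) 2 volume ≤
      ENNReal.ofReal (b + 1) * eLpNorm ((fun x => (|w x| + |u x|) ^ b) • fun x => w x - u x) 2
        volume := by
    refine eLpNorm_le_mul_eLpNorm_of_ae_le_mul (Eventually.of_forall fun x => ?_) 2
    refine (Fn_sub hb (w x) (u x)).trans (le_of_eq ?_)
    rw [Pi.smul_apply', smul_eq_mul, norm_mul]
  refine h1.trans ?_
  gcongr
  have := holder hb
  have hm1 : AEStronglyMeasurable (fun x => (|w x| + |u x|) ^ b) volume := by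
    have h2 : AEMeasurable (fun x => |w x| + |u x|) volume :=
      (hw.1.aemeasurable.abs).add (hu.1.aemeasurable.abs)
    exact (h2.pow_const b).aestronglyMeasurable
  refine (eLpNorm_smul_le_mul_eLpNorm (p := ENNReal.ofReal (2 * (b + 1) / b))
    (q := ENNReal.ofReal (2 * (b + 1))) (r := 2) (hw.1.sub hu.1) hm1).trans ?_
  refine mul_le_mul_left ?_ _
  have h3 : eLpNorm (fun x => (|w x| + |u x|) ^ b) (ENNReal.ofReal (2 * (b + 1) / b)) volume =
      eLpNorm (fun x => |w x| + |u x|) (ENNReal.ofReal (2 * (b + 1))) volume ^ b := by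
    have h4 := eLpNorm_norm_rpow (p := ENNReal.ofReal (2 * (b + 1) / b)) (μ := volume)
      (fun x => |w x| + |u x|) (by linarith : 0 < b)
    have h5 : ENNReal.ofReal (2 * (b + 1) / b) * ENNReal.ofReal b = ENNReal.ofReal (2 * (b + 1)) := by
      rw [← ENNReal.ofReal_mul (by positivity)]
      congr 1
      field_simp
    rw [h5] at h4
    rw [← h4]
    congr 1
    funext x
    rw [Real.norm_of_nonneg (by positivity)]
  rw [h3]
  gcongr
  have h6 := eLpNorm_add_le (μ := volume) (p := ENNReal.ofReal (2 * (b + 1))) hw.1.norm hu.1.norm hq1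
  rw [eLpNorm_norm, eLpNorm_norm] at h6
  exact h6

/-- Cauchy and Schwarz -/
lemma cs {f g : E → ℝ} (hf : AEStronglyMeasurable f volume) (hg : AEStronglyMeasurable g volume) :
    ∫⁻ x, ‖f x * g x‖ₑ ≤ eLpNorm f 2 volume * eLpNorm g 2 volume := by
  have h1 := eLpNorm_smul_le_mul_eLpNorm (p := 2) (q := 2) (r := 1) hg hf
  rw [eLpNorm_one_eq_lintegral_enorm] at h1
  exact h1

lemma cs' {f g : E → ℝ} (hf : AEStronglyMeasurable f volume) (hg : AEStronglyMeasurable g volume) :
    ‖∫ x, f x * g x‖ₑ ≤ eLpNorm f 2 volume * eLpNorm g 2 volume :=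
  (enorm_integral_le_lintegral_enorm _).trans (cs hf hg)

lemma int_mul {f g : E → ℝ} (hf : MemLp f 2 volume) (hg : MemLp g 2 volume) :
    Integrable (fun x => f x * g x) volume :=
  ⟨hf.1.mul hg.1, (cs hf.1 hg.1).trans_lt (ENNReal.mul_lt_top hf.2 hg.2)⟩

/-- convergence of pairings -/
lemma pair_conv {f g : E → ℝ} {fn gn : ℕ → E → ℝ} (hf : MemLp f 2 volume) (hg : MemLp g 2 volume)
    (hfn : ∀ n, MemLp (fn n) 2 volume) (hgn : ∀ n, MemLp (gn n) 2 volume)
    (hb : ∀ n, eLpNorm (gn n) 2 volume ≤ 3 * eLpNorm g 2 volume)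
    (h1 : Tendsto (fun n => eLpNorm (fun x => fn n x - f x) 2 volume) atTop (𝓝 0))
    (h2 : Tendsto (fun n => eLpNorm (fun x => gn n x - g x) 2 volume) atTop (𝓝 0)) :
    Tendsto (fun n => ∫ x, fn n x * gn n x) atTop (𝓝 (∫ x, f x * g x)) := by
  rw [tendsto_iff_edist_tendsto_0]
  have key : ∀ n, edist (∫ x, fn n x * gn n x) (∫ x, f x * g x) ≤
      eLpNorm (fun x => fn n x - f x) 2 volume * (3 * eLpNorm g 2 volume) +
        eLpNorm f 2 volume * eLpNorm (fun x => gn n x - g x) 2 volume := by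
    intro n
    have e1 : (∫ x, fn n x * gn n x) - ∫ x, f x * g x =
        (∫ x, (fn n x - f x) * gn n x) + ∫ x, f x * (gn n x - g x) := by
      rw [← integral_sub (int_mul (hfn n) (hgn n)) (int_mul hf hg),
        ← integral_add (f := fun x => (fn n x - f x) * gn n x) (g := fun x => f x * (gn n x - g x))
          (int_mul ((hfn n).sub hf) (hgn n)) (int_mul hf ((hgn n).sub hg))]
      refine integral_congr_ae (Eventually.of_forall fun x => ?_)
      simp only
      ring
    rw [edist_eq_enorm_sub, e1]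
    refine (enorm_add_le _ _).trans (add_le_add ?_ ?_)
    · refine (cs' ((hfn n).1.sub hf.1) (hgn n).1).trans ?_
      exact mul_le_mul_right (hb n) _
    · exact cs' hf.1 ((hgn n).1.sub hg.1)
  refine tendsto_of_tendsto_of_tendsto_of_le_of_le tendsto_const_nhds ?_ (fun _ => zero_le) key
  have t1 : Tendsto (fun n => eLpNorm (fun x => fn n x - f x) 2 volume * (3 * eLpNorm g 2 volume))
      atTop (𝓝 (0 * (3 * eLpNorm g 2 volume))) :=
    ENNReal.Tendsto.mul_const h1 (Or.inr (ENNReal.mul_ne_top (by simp) hg.2.ne))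
  have t2 : Tendsto (fun n => eLpNorm f 2 volume * eLpNorm (fun x => gn n x - g x) 2 volume)
      atTop (𝓝 (eLpNorm f 2 volume * 0)) :=
    ENNReal.Tendsto.const_mul h2 (Or.inr hf.2.ne)
  have t3 := t1.add t2
  rw [zero_mul, mul_zero, add_zero] at t3
  exact t3

/-- convergence of the powers -/
lemma pow_conv {r : ℝ} (hr : 1 ≤ r) {u : E → ℝ} {w : ℕ → E → ℝ}
    (hu : MemLp u (ENNReal.ofReal r) volume) (hw : ∀ n, MemLp (w n) (ENNReal.ofReal r) volume)
    (h : Tendsto (fun n => eLpNorm (fun x => w n x - u x) (ENNReal.ofReal r) volume) atTop (𝓝 0)) :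
    Tendsto (fun n => ∫ x, |w n x| ^ r) atTop (𝓝 (∫ x, |u x| ^ r)) := by
  have hr0 : 0 < r := by linarith
  have h1 : (1 : ℝ≥0∞) ≤ ENNReal.ofReal r := ENNReal.one_le_ofReal.2 hr
  have key : ∀ f : E → ℝ, MemLp f (ENNReal.ofReal r) volume →
      ∫ x, |f x| ^ r = (eLpNorm f (ENNReal.ofReal r) volume).toReal ^ r := by
    intro f hf
    have h2 := hf.eLpNorm_eq_integral_rpow_norm (by positivity) ENNReal.ofReal_ne_top
    rw [ENNReal.toReal_ofReal hr0.le] at h2
    have h3 : 0 ≤ ∫ x, ‖f x‖ ^ r := integral_nonneg fun x => by positivity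
    rw [h2, ENNReal.toReal_ofReal (by positivity), ← Real.rpow_mul h3, inv_mul_cancel₀ hr0.ne',
      Real.rpow_one]
    rfl
  rw [key u hu]
  simp only [key _ (hw _)]
  refine (Real.continuousAt_rpow_const _ _ (Or.inr hr0.le)).tendsto.comp ?_
  have hE : Tendsto (fun n => (eLpNorm (fun x => w n x - u x) (ENNReal.ofReal r) volume).toReal)
      atTop (𝓝 0) := by
    have := (ENNReal.tendsto_toReal ENNReal.zero_ne_top).comp h
    rw [ENNReal.toReal_zero] at this
    exact this
  rw [tendsto_iff_dist_tendsto_zero]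
  refine squeeze_zero (fun _ => dist_nonneg) (fun n => ?_) hE
  have hd : MemLp (fun x => w n x - u x) (ENNReal.ofReal r) volume := (hw n).sub hu
  have e1 : eLpNorm (w n) (ENNReal.ofReal r) volume ≤ eLpNorm u (ENNReal.ofReal r) volume +
      eLpNorm (fun x => w n x - u x) (ENNReal.ofReal r) volume := by
    have h2 := eLpNorm_add_le hu.1 hd.1 h1
    have h3 : (u + fun x => w n x - u x) = w n := by
      funext x
      simp
    rwa [h3] at h2
  have e2 : eLpNorm u (ENNReal.ofReal r) volume ≤ eLpNorm (w n) (ENNReal.ofReal r) volume +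
      eLpNorm (fun x => w n x - u x) (ENNReal.ofReal r) volume := by
    have h2 := eLpNorm_sub_le (hw n).1 hd.1 h1
    have h3 : (w n - fun x => w n x - u x) = u := by
      funext x
      simp
    rwa [h3] at h2
  have a1 := ENNReal.toReal_mono (ENNReal.add_ne_top.2 ⟨hu.2.ne, hd.2.ne⟩) e1
  have a2 := ENNReal.toReal_mono (ENNReal.add_ne_top.2 ⟨(hw n).2.ne, hd.2.ne⟩) e2
  rw [ENNReal.toReal_add hu.2.ne hd.2.ne] at a1
  rw [ENNReal.toReal_add (hw n).2.ne hd.2.ne] at a2
  rw [Real.dist_eq]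
  refine abs_le.2 ⟨by linarith, by linarith⟩

/-! ### The core -/

lemma Fn_mem {b : ℝ} (hb : 4 < b) {f : E → ℝ} (hf : AEStronglyMeasurable f volume)
    (h : eLpNorm (fun x => Fn b (f x)) 2 volume < ⊤) :
    MemLp f (ENNReal.ofReal (2 * (b + 1))) volume := by
  refine ⟨hf, ?_⟩
  rw [Fn_eLp (by linarith)] at h
  by_contra hc
  rw [not_lt, top_le_iff] at hc
  rw [hc, ENNReal.top_rpow_of_pos (by linarith)] at h
  exact lt_irrefl _ h

lemma q1le {b : ℝ} (hb : 4 < b) : (1 : ℝ≥0∞) ≤ ENNReal.ofReal (2 * (b + 1)) := by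
  rw [ENNReal.one_le_ofReal]
  linarith

lemma Fn_mc {b : ℝ} (hb : 4 < b) (n : ℕ) {f : E → ℝ} (hf : AEStronglyMeasurable f volume) :
    eLpNorm (fun x => Fn b (mc (ph n) f x)) 2 volume ≤
      ENNReal.ofReal (3 ^ (b + 1)) * eLpNorm (fun x => Fn b (f x)) 2 volume := by
  have h3 : ENNReal.ofReal (3 ^ (b + 1)) ≠ 0 := by
    rw [Ne, ENNReal.ofReal_eq_zero, not_le]
    positivity
  rcases eq_or_ne (eLpNorm (fun x => Fn b (f x)) 2 volume) ⊤ with h | h
  · rw [h, ENNReal.mul_top h3]
    exact le_top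
  · have hm := Fn_mem hb hf (lt_top_iff_ne_top.2 h)
    rw [Fn_eLp (by linarith), Fn_eLp (by linarith)]
    have h1 := mc_bd (q1le hb) ENNReal.ofReal_ne_top n hm
    calc eLpNorm (mc (ph n) f) (ENNReal.ofReal (2 * (b + 1))) volume ^ (b + 1)
        ≤ (3 * eLpNorm f (ENNReal.ofReal (2 * (b + 1))) volume) ^ (b + 1) := by gcongr
      _ = ENNReal.ofReal (3 ^ (b + 1)) *
          eLpNorm f (ENNReal.ofReal (2 * (b + 1))) volume ^ (b + 1) := by
          rw [ENNReal.mul_rpow_of_nonneg _ _ (by linarith),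
            ← ENNReal.ofReal_rpow_of_pos (by norm_num)]
          norm_num

/-- the chain rule for one point -/
lemma chain {b x y : ℝ} (hb : 4 < b) (hxy : x ≤ y) {f g : ℝ → ℝ} (hf : Continuous f)
    (hg : Continuous g) (h : ∀ t ∈ Icc x y, f t - f x = ∫ r in x..t, g r) :
    |f y| ^ (b + 2) - |f x| ^ (b + 2) = ∫ r in x..y, (b + 2) * (Fn b (f r) * g r) := by
  have h1 : ∀ t ∈ Ioo x y, HasDerivAt f (g t) t := by
    intro t ht
    have h2 : HasDerivAt (fun t => f x + ∫ r in x..t, g r) (g t) t :=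
      (hg.integral_hasStrictDerivAt x t).hasDerivAt.const_add _
    refine h2.congr_of_eventuallyEq ?_
    filter_upwards [Ioo_mem_nhds ht.1 ht.2] with s hs
    rw [← h s (Ioo_subset_Icc_self hs)]
    ring
  have h3 := intervalIntegral.integral_eq_sub_of_hasDerivAt_of_le (f := fun t => |f t| ^ (b + 2))
    (f' := fun r => (b + 2) * (Fn b (f r) * g r)) hxy ?_ ?_ ?_
  · rw [h3]
  · exact (hf.abs.rpow_const fun _ => Or.inr (by linarith)).continuousOn
  · intro t ht
    have h4 := (hasDerivAt_abs_rpow (f t) (by linarith : 1 < b + 2)).comp t (h1 t ht)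
    have h5 : (b + 2) * |f t| ^ (b + 2 - 2) * f t * g t = (b + 2) * (Fn b (f t) * g t) := by
      unfold Fn
      rw [add_sub_cancel_right]
      ring
    rw [h5] at h4
    exact h4
  · exact (continuous_const.mul (((Fn_cont (by linarith)).comp hf).mul hg)).intervalIntegrable _ _

lemma core {b x y B : ℝ} (hb : 4 < b) (hxy : x ≤ y) {u v : ℝ → E → ℝ} {G : ℝ → ℝ≥0∞}
    (hu : ∀ r, MemLp (u r) (ENNReal.ofReal (b + 2)) volume)
    (hv : ∀ r, MemLp (v r) 2 volume) (hvB : ∀ r, eLpNorm (v r) 2 volume ≤ ENNReal.ofReal B)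
    (huc : ∀ n z, Continuous fun r => mc (ph n) (u r) z)
    (hvc : ∀ n z, Continuous fun r => mc (ph n) (v r) z)
    (heq : ∀ n z, ∀ t ∈ Icc x y,
      mc (ph n) (u t) z - mc (ph n) (u x) z = ∫ r in x..t, mc (ph n) (v r) z)
    (hG : Measurable G) (hFG : ∀ r, eLpNorm (fun z => Fn b (u r z)) 2 volume ≤ G r)
    (hGi : ∫⁻ r in Ioc x y, G r < ⊤) :
    IntegrableOn (fun r => ∫ z, Fn b (u r z) * v r z) (Ioc x y) volume ∧
    (∫ z, |u y z| ^ (b + 2)) - (∫ z, |u x z| ^ (b + 2)) =
      (b + 2) * ∫ r in x..y, ∫ z, Fn b (u r z) * v r z := by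
  have hb0 : 0 < b := by linarith
  have hp1 : (1 : ℝ≥0∞) ≤ ENNReal.ofReal (b + 2) := by
    rw [ENNReal.one_le_ofReal]
    linarith
  have hcu : ∀ n r, Continuous (mc (ph n) (u r)) := fun n r =>
    (mc_smooth (ph_test n) ((hu r).locallyIntegrable hp1)).continuous
  have hcv : ∀ n r, Continuous (mc (ph n) (v r)) := fun n r =>
    (mc_smooth (ph_test n) ((hv r).locallyIntegrable (by norm_num))).continuous
  have hgb : ∀ n r, eLpNorm (mc (ph n) (v r)) 2 volume ≤ 3 * eLpNorm (v r) 2 volume :=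
    fun n r => mc_bd (by norm_num) (by simp) n (hv r)
  have hgm : ∀ n r, MemLp (mc (ph n) (v r)) 2 volume := fun n r =>
    mc_mem (by norm_num) (by simp) n (hv r)
  have hfm : ∀ n r, MemLp (mc (ph n) (u r)) (ENNReal.ofReal (b + 2)) volume := fun n r =>
    mc_mem hp1 ENNReal.ofReal_ne_top n (hu r)
  have hFm : ∀ n r, Continuous (fun z => Fn b (mc (ph n) (u r) z)) := fun n r =>
    (Fn_cont hb0).comp (hcu n r)
  obtain ⟨C0, hC0⟩ : ∃ C0 : ℝ≥0∞, C0 = ENNReal.ofReal (3 ^ (b + 1)) * (3 * ENNReal.ofReal B) :=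
    ⟨_, rfl⟩
  have hC0t : C0 ≠ ⊤ := by
    rw [hC0]
    exact ENNReal.mul_ne_top ENNReal.ofReal_ne_top
      (ENNReal.mul_ne_top (by simp) ENNReal.ofReal_ne_top)
  have hbd : ∀ n r, ∫⁻ z, ‖Fn b (mc (ph n) (u r) z) * mc (ph n) (v r) z‖ₑ ≤ C0 * G r := by
    intro n r
    refine (cs (hFm n r).aestronglyMeasurable (hcv n r).aestronglyMeasurable).trans ?_
    calc eLpNorm (fun z => Fn b (mc (ph n) (u r) z)) 2 volume * eLpNorm (mc (ph n) (v r)) 2 volume
        ≤ (ENNReal.ofReal (3 ^ (b + 1)) * G r) * (3 * ENNReal.ofReal B) := by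
          refine mul_le_mul' ((Fn_mc hb n (hu r).1).trans (mul_le_mul_right (hFG r) _))
            ((hgb n r).trans (mul_le_mul_right (hvB r) _))
      _ = C0 * G r := by rw [hC0]; ring
  have hJ : ∀ n, StronglyMeasurable
      (fun q : ℝ × E => Fn b (mc (ph n) (u q.1) q.2) * mc (ph n) (v q.1) q.2) := by
    intro n
    have a1 : StronglyMeasurable (Function.uncurry fun (r : ℝ) (z : E) => mc (ph n) (u r) z) :=
      stronglyMeasurable_uncurry_of_continuous_of_stronglyMeasurable (fun z => huc n z)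
        fun r => (hcu n r).stronglyMeasurable
    have a2 : StronglyMeasurable (Function.uncurry fun (r : ℝ) (z : E) => mc (ph n) (v r) z) :=
      stronglyMeasurable_uncurry_of_continuous_of_stronglyMeasurable (fun z => hvc n z)
        fun r => (hcv n r).stronglyMeasurable
    exact ((Fn_cont hb0).comp_stronglyMeasurable a1).mul a2
  have hint : ∀ n, Integrable
      (Function.uncurry fun (r : ℝ) (z : E) => Fn b (mc (ph n) (u r) z) * mc (ph n) (v r) z)
      ((volume.restrict (Ioc x y)).prod volume) := by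
    intro n
    refine ⟨(hJ n).aestronglyMeasurable, ?_⟩
    have h1 := lintegral_prod (μ := volume.restrict (Ioc x y)) (ν := (volume : Measure E))
      (fun q : ℝ × E => ‖Fn b (mc (ph n) (u q.1) q.2) * mc (ph n) (v q.1) q.2‖ₑ)
      (hJ n).aestronglyMeasurable.enorm
    refine lt_of_eq_of_lt h1 ((lintegral_mono (fun r => hbd n r)).trans_lt ?_)
    rw [lintegral_const_mul _ hG]
    exact ENNReal.mul_lt_top hC0t.lt_top hGi
  -- the identity for the mollified functions
  have hpi : ∀ n r, Integrable (fun z => |mc (ph n) (u r) z| ^ (b + 2)) volume := by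
    intro n r
    have h1 := (hfm n r).integrable_norm_rpow (by simp; linarith) ENNReal.ofReal_ne_top
    rw [ENNReal.toReal_ofReal (by linarith)] at h1
    exact h1
  have hstep : ∀ n, (∫ z, |mc (ph n) (u y) z| ^ (b + 2)) - (∫ z, |mc (ph n) (u x) z| ^ (b + 2)) =
      (b + 2) * ∫ r in Ioc x y, ∫ z, Fn b (mc (ph n) (u r) z) * mc (ph n) (v r) z := by
    intro n
    rw [← integral_sub (hpi n y) (hpi n x)]
    have e1 : ∀ z, |mc (ph n) (u y) z| ^ (b + 2) - |mc (ph n) (u x) z| ^ (b + 2) =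
        (b + 2) * ∫ r in Ioc x y, Fn b (mc (ph n) (u r) z) * mc (ph n) (v r) z := by
      intro z
      rw [chain hb hxy (huc n z) (hvc n z) (heq n z), intervalIntegral.integral_const_mul,
        intervalIntegral.integral_of_le hxy]
    rw [integral_congr_ae (Eventually.of_forall e1), integral_const_mul,
      integral_integral_swap (hint n)]
  -- the limit on the left
  have hl : Tendsto (fun n => (∫ z, |mc (ph n) (u y) z| ^ (b + 2)) -
      (∫ z, |mc (ph n) (u x) z| ^ (b + 2))) atTop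
      (𝓝 ((∫ z, |u y z| ^ (b + 2)) - (∫ z, |u x z| ^ (b + 2)))) :=
    (pow_conv (by linarith) (hu y) (fun n => hfm n y)
      (mc_tendsto hp1 ENNReal.ofReal_ne_top (hu y))).sub
    (pow_conv (by linarith) (hu x) (fun n => hfm n x)
      (mc_tendsto hp1 ENNReal.ofReal_ne_top (hu x)))
  -- pointwise limit on the right
  have hGf : ∀ᵐ r ∂(volume.restrict (Ioc x y)), G r < ⊤ := ae_lt_top hG hGi.ne
  have hpt : ∀ r, G r < ⊤ → Tendsto (fun n => ∫ z, Fn b (mc (ph n) (u r) z) * mc (ph n) (v r) z)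
      atTop (𝓝 (∫ z, Fn b (u r z) * v r z)) := by
    intro r hr
    have hFr := (hFG r).trans_lt hr
    have hq := Fn_mem hb (hu r).1 hFr
    have hqn : ∀ n, MemLp (mc (ph n) (u r)) (ENNReal.ofReal (2 * (b + 1))) volume := fun n =>
      mc_mem (q1le hb) ENNReal.ofReal_ne_top n hq
    refine pair_conv (fn := fun n z => Fn b (mc (ph n) (u r) z)) (gn := fun n => mc (ph n) (v r))
      ⟨(Fn_cont hb0).comp_aestronglyMeasurable (hu r).1, hFr⟩ (hv r) (fun n => ?_)
      (fun n => hgm n r) (fun n => hgb n r) ?_ (mc_tendsto (by norm_num) (by simp) (hv r))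
    · refine ⟨(hFm n r).aestronglyMeasurable, (Fn_mc hb n (hu r).1).trans_lt ?_⟩
      exact ENNReal.mul_lt_top ENNReal.ofReal_lt_top hFr
    · have h1 : ∀ n, eLpNorm (fun z => Fn b (mc (ph n) (u r) z) - Fn b (u r z)) 2 volume ≤
          ENNReal.ofReal (b + 1) *
          ((3 * eLpNorm (u r) (ENNReal.ofReal (2 * (b + 1))) volume +
            eLpNorm (u r) (ENNReal.ofReal (2 * (b + 1))) volume) ^ b *
            eLpNorm (fun z => mc (ph n) (u r) z - u r z) (ENNReal.ofReal (2 * (b + 1))) volume) := by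
        intro n
        refine (Fn_diff hb (hqn n) hq).trans ?_
        have := mc_bd (q1le hb) ENNReal.ofReal_ne_top n hq
        gcongr
      have h2 : Tendsto (fun n => ENNReal.ofReal (b + 1) *
          ((3 * eLpNorm (u r) (ENNReal.ofReal (2 * (b + 1))) volume +
            eLpNorm (u r) (ENNReal.ofReal (2 * (b + 1))) volume) ^ b *
            eLpNorm (fun z => mc (ph n) (u r) z - u r z) (ENNReal.ofReal (2 * (b + 1))) volume))
          atTop (𝓝 (ENNReal.ofReal (b + 1) *
          ((3 * eLpNorm (u r) (ENNReal.ofReal (2 * (b + 1))) volume +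
            eLpNorm (u r) (ENNReal.ofReal (2 * (b + 1))) volume) ^ b * 0))) := by
        refine ENNReal.Tendsto.const_mul (ENNReal.Tendsto.const_mul
          (mc_tendsto (q1le hb) ENNReal.ofReal_ne_top hq) (Or.inr ?_))
          (Or.inr ENNReal.ofReal_ne_top)
        refine ENNReal.rpow_ne_top_of_nonneg hb0.le ?_
        exact ENNReal.add_ne_top.2 ⟨ENNReal.mul_ne_top (by simp) hq.2.ne, hq.2.ne⟩
      rw [mul_zero, mul_zero] at h2
      exact tendsto_of_tendsto_of_tendsto_of_le_of_le tendsto_const_nhds h2 (fun _ => zero_le) h1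
  have hbnd : Integrable (fun r => (C0 * G r).toReal) (volume.restrict (Ioc x y)) := by
    refine integrable_toReal_of_lintegral_ne_top (hG.const_mul C0).aemeasurable ?_
    rw [lintegral_const_mul _ hG]
    exact (ENNReal.mul_lt_top hC0t.lt_top hGi).ne
  have hFms : ∀ n, AEStronglyMeasurable
      (fun r => ∫ z, Fn b (mc (ph n) (u r) z) * mc (ph n) (v r) z)
      (volume.restrict (Ioc x y)) := fun n =>
    (hJ n).integral_prod_right.aestronglyMeasurable
  have hdom : ∀ n, ∀ᵐ r ∂(volume.restrict (Ioc x y)),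
      ‖∫ z, Fn b (mc (ph n) (u r) z) * mc (ph n) (v r) z‖ ≤ (C0 * G r).toReal := by
    intro n
    filter_upwards [hGf] with r hr
    rw [← toReal_enorm]
    refine ENNReal.toReal_mono (ENNReal.mul_lt_top hC0t.lt_top hr).ne ?_
    exact (enorm_integral_le_lintegral_enorm _).trans (hbd n r)
  have hptae : ∀ᵐ r ∂(volume.restrict (Ioc x y)),
      Tendsto (fun n => ∫ z, Fn b (mc (ph n) (u r) z) * mc (ph n) (v r) z)
      atTop (𝓝 (∫ z, Fn b (u r z) * v r z)) := by
    filter_upwards [hGf] with r hr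
    exact hpt r hr
  have hr := tendsto_integral_of_dominated_convergence _ hFms hbnd hdom hptae
  constructor
  · refine Integrable.mono' hbnd (aestronglyMeasurable_of_tendsto_ae atTop hFms hptae) ?_
    filter_upwards [hGf, hptae] with r hr1 hr2
    refine le_of_tendsto hr2.norm (Eventually.of_forall fun n => ?_)
    rw [← toReal_enorm]
    refine ENNReal.toReal_mono (ENNReal.mul_lt_top hC0t.lt_top hr1).ne ?_
    exact (enorm_integral_le_lintegral_enorm _).trans (hbd n r)
  · rw [intervalIntegral.integral_of_le hxy]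
    refine tendsto_nhds_unique hl ?_
    simp only [hstep]
    exact hr.const_mul _

end PotEx

open PotEx in
/-- **PotE** -/
theorem thm_PotE (hFld : St_FldP) (hW : St_WEq) (hE : St_EnS) (hSn : St_SnP) : St_PotE := by
  intro b hb x y B k hxy hk hEB
  have hb0 : 0 < b := by linarith
  obtain ⟨C, hC, hF, -, -⟩ := hFld (sig b) (sig_lt hb)
  obtain ⟨κ, hκ⟩ : ∃ κ : ℝ → K, κ = IccExtend hxy (fun t : Icc x y => k t) := ⟨_, rfl⟩
  have hκc : Continuous κ := by
    rw [hκ]
    exact (continuousOn_iff_continuous_domRestrict.1 hk.2.1).Icc_extend'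
  have hκe : ∀ t ∈ Icc x y, κ t = k t := by
    intro t ht
    rw [hκ, IccExtend_of_mem _ _ ht]
  have hκB : ∀ t, EB (sig b) B (κ t) := by
    intro t
    rw [hκ]
    exact hEB _ (projIcc x y hxy t).2
  have hxI : x ∈ Icc x y := left_mem_Icc.2 hxy
  have hyI : y ∈ Icc x y := right_mem_Icc.2 hxy
  have mcU : ∀ n (κ' : K) (z : E), Pool.Agent.QWF.Moll.mc (Pool.Agent.QWF.Moll.ph n) (U (sig b) κ') z =
      inner ℝ κ' (Rs (sig b) (fun w => Pool.Agent.QWF.Moll.ph n (z - w))) := by
    intro n κ' z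
    have ht := Pool.Agent.QWF.Moll.test_neg (Pool.Agent.QWF.Moll.ph_test n) z
    rw [← (hF κ').1.2 _ ht, Pool.Agent.QWF.Moll.mc_apply']
    refine integral_congr_ae (Eventually.of_forall fun w => ?_)
    simp only
    ring
  have mcV : ∀ n (κ' : K) (z : E), Pool.Agent.QWF.Moll.mc (Pool.Agent.QWF.Moll.ph n) (V (sig b) κ') z =
      inner ℝ κ' (dRs (sig b) (fun w => Pool.Agent.QWF.Moll.ph n (z - w))) := by
    intro n κ' z
    have ht := Pool.Agent.QWF.Moll.test_neg (Pool.Agent.QWF.Moll.ph_test n) z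
    rw [← (hF κ').2.2.1.2 _ ht, Pool.Agent.QWF.Moll.mc_apply']
    refine integral_congr_ae (Eventually.of_forall fun w => ?_)
    simp only
    ring
  have hS := (hE b hb).1
  have hlsc := (hSn b hb).2.2.2.2.2
  have hNm : Measurable (fun r => sn b (κ r) ^ b * ENNReal.ofReal B) := by
    have h1 : Measurable (fun r => sn b (κ r)) := by
      have h2 : LowerSemicontinuous (fun r => sn b (κ r)) := fun r => by
        exact (hlsc (κ r)).comp (hκc.continuousAt)
      exact h2.measurable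
    exact (h1.pow_const b).mul_const _
  have hcore := core (u := fun r => U (sig b) (κ r)) (v := fun r => V (sig b) (κ r))
    (G := fun r => sn b (κ r) ^ b * ENNReal.ofReal B) (B := B) hb hxy
    (fun r => (hS _ _ (hκB r)).2.1) (fun r => (hS _ _ (hκB r)).1.2.1) (fun r => (hκB r).2.1)
    (fun n z => ?_) (fun n z => ?_) (fun n z t ht => ?_) hNm (fun r => (hS _ _ (hκB r)).2.2) ?_
  · obtain ⟨h1, h2⟩ := hcore
    rw [hκe x hxI, hκe y hyI] at h2
    constructor
    · rw [intervalIntegrable_iff_integrableOn_Ioc_of_le hxy]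
      refine h1.congr_fun (fun r hr => ?_) measurableSet_Ioc
      simp only
      rw [hκe r (Ioc_subset_Icc_self hr)]
    · rw [h2]
      congr 1
      refine intervalIntegral.integral_congr fun r hr => ?_
      rw [uIcc_of_le hxy] at hr
      rw [hκe r hr]
  · simp only [mcU]
    exact hκc.inner continuous_const
  · simp only [mcV]
    exact hκc.inner continuous_const
  · have ht' := Pool.Agent.QWF.Moll.test_neg (Pool.Agent.QWF.Moll.ph_test n) z
    have h1 := (hW b hb (Icc x y) k hk x hxI t ht _ ht').1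
    rw [(hF (k t)).1.2 _ ht', (hF (k x)).1.2 _ ht'] at h1
    rw [mcU, mcU, hκe t ht, hκe x hxI, h1]
    refine intervalIntegral.integral_congr fun r hr => ?_
    rw [uIcc_of_le ht.1] at hr
    rw [mcV, hκe r ⟨hr.1, hr.2.trans ht.2⟩, (hF (k r)).2.2.1.2 _ ht']
  · have h1 : ∫⁻ r in Ioc x y, sn b (κ r) ^ b * ENNReal.ofReal B ≤
        ∫⁻ r in Icc x y, sn b (k r) ^ b * ENNReal.ofReal B := by
      refine (lintegral_mono_set Ioc_subset_Icc_self).trans (le_of_eq ?_)
      refine setLIntegral_congr_fun measurableSet_Icc fun r hr => ?_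
      rw [hκe r hr]
    refine h1.trans_lt ?_
    rw [lintegral_mul_const' _ _ ENNReal.ofReal_ne_top]
    exact ENNReal.mul_lt_top (hk.2.2.1 x hxI y hyI) ENNReal.ofReal_lt_top

end Pool.Agent.QWF
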