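import Pool.Agent.QWF.StG
import Pool.Agent.QWF.StB

set_option autoImplicit false

/-!
# QWF, PsiNZP: the bubble functionals separate points (all `s`)

The analytic part is `PsiNZPx.main`.
-/

open MeasureTheory Filter Topology Set
open scoped ENNReal NNReal RealInnerProductSpace

namespace Pool.Agent.QWF


namespace PsiNZPx

lemma hoel (p q : ℝ≥0∞) {r : ℝ≥0∞} (h : ENNReal.HolderTriple p q r) {f g : E → ℝ}
    (hf : AEStronglyMeasurable f volume) (hg : AEStronglyMeasurable g volume) :
    eLpNorm (fun x => f x * g x) r volume ≤ eLpNorm f p volume * eLpNorm g q volume :=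
  eLpNorm_smul_le_mul_eLpNorm (f := g) (φ := f) hg hf

lemma test_memLp {f : E → ℝ} (hf : IsTest f) (p : ℝ≥0∞) : MemLp f p volume :=
  hf.1.continuous.memLp_of_hasCompactSupport hf.2

lemma qmp_aff (y : E) {δ : ℝ} (hδ : 0 < δ) :
    Measure.QuasiMeasurePreserving (fun z : E => y + δ • z) volume volume := by
  have h1 : Measure.QuasiMeasurePreserving (fun z : E => δ • z) volume volume := by
    refine ⟨by fun_prop, ?_⟩
    rw [Measure.map_addHaar_smul _ hδ.ne']
    exact Measure.smul_absolutelyContinuous
  exact (measurePreserving_add_left volume y).quasiMeasurePreserving.comp h1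

/-- a function of `L^p` whose averages against all rescaled kernels vanish is zero -/
lemma main {ψ : E → ℝ} (hψ : Integrable ψ volume) (hψ1 : ∫ z, ψ z = 1) {g : E → ℝ} (p q : ℝ≥0∞)
    (t : ENNReal.HolderTriple p q 1) (hp : 1 ≤ p) (hg : MemLp g p volume)
    (h : ∀ (y : E) (δ : ℝ), 0 < δ → ∫ z, g (y + δ • z) * ψ z = 0) : g =ᵐ[volume] 0 := by
  -- a measurable representative
  obtain ⟨g', hg'm, hgg⟩ := hg.1
  have hg' : MemLp g' p volume := (memLp_congr_ae hgg).1 hg
  have h' : ∀ (y : E) (δ : ℝ), 0 < δ → ∫ z, g' (y + δ • z) * ψ z = 0 := by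
    intro y δ hδ
    rw [← h y δ hδ]
    refine integral_congr_ae ?_
    filter_upwards [(qmp_aff y hδ).ae hgg] with z hz
    rw [hz]
  have hloc : LocallyIntegrable g' volume := hg'.locallyIntegrable hp
  have hkey : ∀ φ : E → ℝ, IsTest φ → ∫ x, g' x * φ x = 0 := by
    intro φ hφ
    obtain ⟨H, hH⟩ : ∃ H : E → ℝ, H = fun w => ∫ x, g' (w + x) * φ x := ⟨_, rfl⟩
    -- continuity
    have hHc : Continuous H := by
      have h1 : HasCompactSupport (fun s : E => φ (-s)) :=
        hφ.2.comp_homeomorph (Homeomorph.neg E)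
      have h2 : Continuous (fun s : E => φ (-s)) := hφ.1.continuous.comp continuous_neg
      have h3 := h1.continuous_convolution_right (L := ContinuousLinearMap.mul ℝ ℝ) hloc h2
      have h4 : H = convolution g' (fun s : E => φ (-s)) (ContinuousLinearMap.mul ℝ ℝ) volume := by
        rw [hH]
        ext w
        rw [convolution_def]
        have h5 := integral_add_left_eq_self (μ := (volume : Measure E))
          (fun x => g' x * φ (x - w)) w
        simp only [add_sub_cancel_left] at h5
        rw [h5]
        refine integral_congr_ae (Eventually.of_forall fun x => ?_)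
        simp only [ContinuousLinearMap.mul_apply', neg_sub]
      rw [h4]
      exact h3
    have hφq : MemLp φ q volume := test_memLp hφ q
    have hCf : eLpNorm g' p volume * eLpNorm φ q volume ≠ ⊤ :=
      ENNReal.mul_ne_top hg'.2.ne hφq.2.ne
    obtain ⟨C, hC⟩ : ∃ C, C = eLpNorm g' p volume * eLpNorm φ q volume := ⟨_, rfl⟩
    rw [← hC] at hCf
    have hb : ∀ w, ∫⁻ x, ‖g' (w + x) * φ x‖ₑ ≤ C := by
      intro w
      have h1 := hoel p q t (f := fun x => g' (w + x)) (g := φ)
        (hg'm.comp_measurable (measurable_const_add w)).aestronglyMeasurable hφq.1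
      rw [eLpNorm_one_eq_lintegral_enorm] at h1
      have h2 : eLpNorm (fun x => g' (w + x)) p volume = eLpNorm g' p volume :=
        eLpNorm_comp_measurePreserving hg'.1 (measurePreserving_add_left volume w)
      rw [h2, ← hC] at h1
      exact h1
    have hHb : ∀ w, ‖H w‖ ≤ C.toReal := by
      intro w
      have h1 : ‖H w‖ₑ ≤ C := by
        rw [hH]
        exact (enorm_integral_le_lintegral_enorm _).trans (hb w)
      have h2 := ENNReal.toReal_mono hCf h1
      simpa using h2
    -- Fubini
    have hz : ∀ δ : ℝ, 0 < δ → ∫ z, H (δ • z) * ψ z = 0 := by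
      intro δ hδ
      have hm : AEStronglyMeasurable (fun r : E × E => g' (δ • r.1 + r.2) * φ r.2 * ψ r.1)
          (volume.prod volume) := by
        have m1 : AEStronglyMeasurable (fun r : E × E => g' (δ • r.1 + r.2))
            (volume.prod volume) :=
          (hg'm.comp_measurable (by fun_prop)).aestronglyMeasurable
        have m2 : AEStronglyMeasurable (fun r : E × E => φ r.2) (volume.prod volume) :=
          (hφ.1.continuous.comp continuous_snd).aestronglyMeasurable
        exact (m1.mul m2).mul hψ.1.comp_fst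
      have hint : Integrable (Function.uncurry fun z x : E => g' (δ • z + x) * φ x * ψ z)
          (volume.prod volume) := by
        refine ⟨hm, ?_⟩
        rw [hasFiniteIntegral_iff_enorm]
        have h1 := lintegral_prod (μ := (volume : Measure E)) (ν := (volume : Measure E))
          (fun r : E × E => ‖g' (δ • r.1 + r.2) * φ r.2 * ψ r.1‖ₑ) hm.enorm
        have h2 : (∫⁻ r : E × E, ‖Function.uncurry (fun z x : E => g' (δ • z + x) * φ x * ψ z) r‖ₑ
            ∂(volume.prod volume)) = ∫⁻ r : E × E, ‖g' (δ • r.1 + r.2) * φ r.2 * ψ r.1‖ₑ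
            ∂(volume.prod volume) := rfl
        rw [h2, h1]
        have h3 : ∀ z : E, ∫⁻ x, ‖g' (δ • z + x) * φ x * ψ z‖ₑ ≤ C * ‖ψ z‖ₑ := by
          intro z
          have h4 : (fun x => ‖g' (δ • z + x) * φ x * ψ z‖ₑ) =
              fun x => ‖g' (δ • z + x) * φ x‖ₑ * ‖ψ z‖ₑ := by
            ext x
            rw [enorm_mul]
          rw [h4, lintegral_mul_const' _ _ enorm_ne_top]
          exact mul_le_mul' (hb _) le_rfl
        refine (lintegral_mono h3).trans_lt ?_
        rw [lintegral_const_mul' _ _ hCf]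
        exact ENNReal.mul_lt_top (lt_top_iff_ne_top.2 hCf) (hasFiniteIntegral_iff_enorm.1 hψ.2)
      have hsw := integral_integral_swap hint
      have h5 : ∀ z, ∫ x, g' (δ • z + x) * φ x * ψ z = H (δ • z) * ψ z := by
        intro z
        rw [hH, integral_mul_const]
      have h6 : ∀ x, ∫ z, g' (δ • z + x) * φ x * ψ z = 0 := by
        intro x
        have h7 : (fun z => g' (δ • z + x) * φ x * ψ z) =
            fun z => φ x * (g' (x + δ • z) * ψ z) := by
          ext z
          rw [add_comm (δ • z) x]
          ring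
        rw [h7, integral_const_mul, h' x δ hδ, mul_zero]
      simp only [h5, h6, integral_zero] at hsw
      exact hsw
    -- limit
    have hlim : Tendsto (fun n : ℕ => ∫ z, H ((1 / ((n : ℝ) + 1)) • z) * ψ z) atTop
        (𝓝 (∫ z, H 0 * ψ z)) := by
      refine tendsto_integral_of_dominated_convergence (fun z => C.toReal * ‖ψ z‖) ?_
        (hψ.norm.const_mul _) ?_ ?_
      · intro n
        exact ((hHc.comp (continuous_const_smul _)).aestronglyMeasurable).mul hψ.1
      · intro n
        refine Eventually.of_forall fun z => ?_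
        rw [norm_mul]
        exact mul_le_mul_of_nonneg_right (hHb _) (norm_nonneg _)
      · refine Eventually.of_forall fun z => ?_
        have h1 : Tendsto (fun n : ℕ => (1 / ((n : ℝ) + 1)) • z) atTop (𝓝 ((0 : ℝ) • z)) :=
          tendsto_one_div_add_atTop_nhds_zero_nat.smul_const z
        rw [zero_smul] at h1
        exact ((hHc.tendsto 0).comp h1).mul_const _
    have h8 : (fun n : ℕ => ∫ z, H ((1 / ((n : ℝ) + 1)) • z) * ψ z) = fun _ => 0 := by
      ext n
      exact hz _ (by positivity)
    rw [h8, integral_const_mul, hψ1, mul_one] at hlim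
    have h9 : H 0 = 0 := tendsto_nhds_unique hlim tendsto_const_nhds
    rw [hH] at h9
    simpa using h9
  have hz : ∀ᵐ x : E, g' x = 0 := by
    refine ae_eq_zero_of_integral_contDiff_smul_eq_zero hloc fun φ h1 h2 => ?_
    have h3 := hkey φ ⟨h1, h2⟩
    rw [← h3]
    refine integral_congr_ae (Eventually.of_forall fun x => ?_)
    simp only [smul_eq_mul, mul_comm]
  filter_upwards [hgg, hz] with x h1 h2
  rw [h1, h2]
  rfl


lemma ht {a b : ℝ} (ha : 0 < a) (hb : 0 < b) (h : 1 / a + 1 / b = 1) :
    ENNReal.HolderTriple (ENNReal.ofReal a) (ENNReal.ofReal b) 1 := by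
  constructor
  rw [← ENNReal.ofReal_inv_of_pos ha, ← ENNReal.ofReal_inv_of_pos hb,
    ← ENNReal.ofReal_add (by positivity) (by positivity), ← one_div, ← one_div, h]
  simp

lemma ig_arg (y x : E) (a : ℝ) :
    Real.exp (-a) • (x - -(Real.exp a • y)) = y + Real.exp (-a) • x := by
  rw [sub_neg_eq_add, smul_add, smul_smul, ← Real.exp_add, neg_add_cancel, Real.exp_zero, one_smul,
    add_comm]

end PsiNZPx

open PsiNZPx in
theorem thm_PsiNZP (act : St_ActP) (fld : St_FldP) (dens : St_DnsP) (exb : St_ExBP) :
    St_PsiNZP := by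
  intro s ψ hs hψ k hk
  obtain ⟨C, hC, hfld, -, -⟩ := fld s hs
  have hs' := abs_lt.1 hs
  have hψi : Integrable ψ volume := by
    obtain ⟨f, hf⟩ := hψ.1
    have h1 : (f : E → ℝ) = ψ := funext hf
    rw [← h1]
    exact f.integrable
  have hψ1 : ∫ z, ψ z = 1 := by
    have h1 := hψ.2.2.1 0 (by simp)
    have h2 : ft ψ 0 = ((∫ z, ψ z : ℝ) : ℂ) := by
      rw [ft, ← integral_complex_ofReal]
      refine integral_congr_ae (Eventually.of_forall fun x => ?_)
      simp
    rw [h2] at h1
    exact_mod_cast h1
  have hU : U s k =ᵐ[volume] 0 := by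
    refine PsiNZPx.main hψi hψ1 (q0 s) (ENNReal.ofReal (8 / (7 + 2 * s)))
      (ht (div_pos (by norm_num) (by linarith)) (div_pos (by norm_num) (by linarith)) (by
        rw [one_div_div, one_div_div]; ring)) ?_ (hfld k).1.1 ?_
    · unfold q0
      rw [ENNReal.one_le_ofReal, le_div_iff₀ (by linarith)]
      linarith
    intro y δ hδ
    have h1 := (hk y (-Real.log δ)).1
    rw [← ((hfld _).2.2.2.2.2 ψ hψ.1).1] at h1
    have h2 : ∫ x, U s (ig y (-Real.log δ) k) x * ψ x =
        Real.exp ((1 / 2 - s) * -(-Real.log δ)) * ∫ z, U s k (y + δ • z) * ψ z := by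
      rw [← integral_const_mul]
      refine integral_congr_ae ?_
      filter_upwards [((act s hs).1 (-(Real.exp (-Real.log δ) • y)) (-(-Real.log δ)) k).1]
        with x hx
      change U s (gr (-(Real.exp (-Real.log δ) • y)) (-(-Real.log δ)) k) x * ψ x = _
      rw [hx, ig_arg, neg_neg, Real.exp_log hδ]
      ring
    rw [h2] at h1
    exact (mul_eq_zero.1 h1).resolve_left (Real.exp_pos _).ne'
  have hV : V s k =ᵐ[volume] 0 := by
    refine PsiNZPx.main hψi hψ1 (q1 s) (ENNReal.ofReal (8 / (5 + 2 * s)))
      (ht (div_pos (by norm_num) (by linarith)) (div_pos (by norm_num) (by linarith)) (by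
        rw [one_div_div, one_div_div]; ring)) ?_ (hfld k).2.2.1.1 ?_
    · unfold q1
      rw [ENNReal.one_le_ofReal, le_div_iff₀ (by linarith)]
      linarith
    intro y δ hδ
    have h1 := (hk y (-Real.log δ)).2
    rw [← ((hfld _).2.2.2.2.2 ψ hψ.1).2] at h1
    have h2 : ∫ x, V s (ig y (-Real.log δ) k) x * ψ x =
        Real.exp ((3 / 2 - s) * -(-Real.log δ)) * ∫ z, V s k (y + δ • z) * ψ z := by
      rw [← integral_const_mul]
      refine integral_congr_ae ?_
      filter_upwards [((act s hs).1 (-(Real.exp (-Real.log δ) • y)) (-(-Real.log δ)) k).2.1]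
        with x hx
      change V s (gr (-(Real.exp (-Real.log δ) • y)) (-(-Real.log δ)) k) x * ψ x = _
      rw [hx, ig_arg, neg_neg, Real.exp_log hδ]
      ring
    rw [h2] at h1
    exact (mul_eq_zero.1 h1).resolve_left (Real.exp_pos _).ne'
  have h1 : Van s univ k := by
    rw [(exb s hs).2.2.2.2.2.2.1 univ k isOpen_univ]
    constructor
    · filter_upwards [hU] with x hx _
      exact hx
    · filter_upwards [hV] with x hx _
      exact hx
  unfold Van at h1
  rw [(dens s (by linarith) hs'.2).1, Submodule.top_orthogonal_eq_bot, Submodule.mem_bot] at h1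
  exact h1

end Pool.Agent.QWF
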