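import Pool.Agent.QWF.StA

set_option autoImplicit false

/-!
# QWF, module RSob: refined Sobolev inequality (port of QWP.RSob of helper27)
-/

open MeasureTheory Filter Topology Set
open scoped ENNReal NNReal RealInnerProductSpace FourierTransform SchwartzMap

namespace Pool.Agent.QWF

namespace RSobx

/-- complexification -/
lemma exists_cx {φ : E → ℝ} (h : IsSch φ) : ∃ f : 𝓢(E, ℂ), ∀ x, f x = (φ x : ℂ) := by
  obtain ⟨f, hf⟩ := h
  refine ⟨f.postcompCLM Complex.ofRealCLM, fun x => ?_⟩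
  rw [SchwartzMap.postcompCLM_apply, hf x]
  rfl

lemma ft_eq {φ : E → ℝ} {F : 𝓢(E, ℂ)} (hF : ∀ x, F x = (φ x : ℂ)) (ξ : E) : ft φ ξ = (𝓕 F) ξ := by
  rw [SchwartzMap.fourier_coe, Real.fourier_eq']
  unfold ft
  refine integral_congr_ae (Eventually.of_forall fun x => ?_)
  simp only [smul_eq_mul, hF]
  rw [mul_comm]
  congr 2
  push_cast
  ring

/-- the localised function. -/
noncomputable def fl (f ψ : E → ℝ) (l : ℝ) (x : E) : ℝ := ∫ z, f (x + l⁻¹ • z) * ψ z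

/-- the Fourier transform of the difference. -/
lemma exists_G (F Ψ : 𝓢(E, ℂ)) {l : ℝ} (hl : 0 < l) :
    ∃ G : 𝓢(E, ℂ), ∀ ξ, G ξ = (𝓕 F) ξ * (1 - (𝓕 Ψ) (l⁻¹ • ξ)) := by
  let e : E ≃L[ℝ] E := ContinuousLinearEquiv.smulLeft (Units.mk0 l⁻¹ (by positivity))
  refine ⟨𝓕 F - SchwartzMap.pairing (ContinuousLinearMap.mul ℂ ℂ) (𝓕 F)
    (SchwartzMap.compCLMOfContinuousLinearEquiv ℂ e (𝓕 Ψ)), fun ξ => ?_⟩
  rw [sub_apply, SchwartzMap.pairing_apply_apply]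
  simp only [ContinuousLinearMap.mul_apply', SchwartzMap.compCLMOfContinuousLinearEquiv_apply,
    Function.comp_apply]
  have h1 : e ξ = l⁻¹ • ξ := rfl
  rw [h1]
  ring

/-- the Fourier transform of `ψ`, if it is real. -/
lemma ft_conj {ψ : E → ℝ} {Ψ : 𝓢(E, ℂ)} (hΨ : ∀ x, Ψ x = (ψ x : ℂ)) (hr : ∀ ξ, (ft ψ ξ).im = 0)
    (ξ : E) : (𝓕 Ψ) ξ = ∫ z, Complex.exp (((2 * Real.pi * (inner ℝ z ξ : ℝ) : ℝ) : ℂ) * Complex.I) *
      (ψ z : ℂ) := by
  have h1 : (𝓕 Ψ) ξ = (starRingEnd ℂ) ((𝓕 Ψ) ξ) := by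
    rw [← ft_eq hΨ]
    exact (Complex.conj_eq_iff_im.2 (hr ξ)).symm
  rw [h1, SchwartzMap.fourier_coe, Real.fourier_eq', ← integral_conj]
  refine integral_congr_ae (Eventually.of_forall fun z => ?_)
  simp only [smul_eq_mul, hΨ, map_mul, Complex.conj_ofReal]
  congr 1
  rw [← Complex.exp_conj]
  congr 1
  rw [map_mul, Complex.conj_I, Complex.conj_ofReal]
  push_cast
  ring

lemma inv_eq (F : 𝓢(E, ℂ)) (x : E) :
    F x = ∫ ξ, Complex.exp (((2 * Real.pi * (inner ℝ ξ x : ℝ) : ℝ) : ℂ) * Complex.I) * (𝓕 F) ξ := by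
  have h1 : F = 𝓕⁻ (𝓕 F) := by simp
  conv_lhs => rw [h1]
  rw [SchwartzMap.fourierInv_coe, Real.fourierInv_eq']
  rfl

lemma expn (t : ℝ) : ‖Complex.exp ((t : ℂ) * Complex.I)‖ = 1 := Complex.norm_exp_ofReal_mul_I t

/-- the localised function on the Fourier side. -/
lemma fl_eq {f ψ : E → ℝ} {F Ψ : 𝓢(E, ℂ)} (hF : ∀ x, F x = (f x : ℂ)) (hΨ : ∀ x, Ψ x = (ψ x : ℂ))
    (hr : ∀ ξ, (ft ψ ξ).im = 0) (l : ℝ) (x : E) :
    (fl f ψ l x : ℂ) = ∫ ξ, Complex.exp (((2 * Real.pi * (inner ℝ ξ x : ℝ) : ℝ) : ℂ) * Complex.I) *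
      ((𝓕 F) ξ * (𝓕 Ψ) (l⁻¹ • ξ)) := by
  have h1 : (fl f ψ l x : ℂ) = ∫ z, (∫ ξ, Complex.exp (((2 * Real.pi *
      (inner ℝ ξ (x + l⁻¹ • z) : ℝ) : ℝ) : ℂ) * Complex.I) * (𝓕 F) ξ) * (ψ z : ℂ) := by
    unfold fl
    rw [← integral_complex_ofReal]
    refine integral_congr_ae (Eventually.of_forall fun z => ?_)
    simp only
    rw [← inv_eq F, hF]
    push_cast
    rfl
  have h2 : ∀ ξ : E, (𝓕 Ψ) (l⁻¹ • ξ) = ∫ z, Complex.exp (((2 * Real.pi *
      (inner ℝ ξ (l⁻¹ • z) : ℝ) : ℝ) : ℂ) * Complex.I) * (ψ z : ℂ) := by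
    intro ξ
    rw [ft_conj hΨ hr]
    refine integral_congr_ae (Eventually.of_forall fun z => ?_)
    simp only
    rw [inner_smul_right, inner_smul_right, real_inner_comm]
  have hint : Integrable (Function.uncurry fun (z ξ : E) => Complex.exp (((2 * Real.pi *
      (inner ℝ ξ (x + l⁻¹ • z) : ℝ) : ℝ) : ℂ) * Complex.I) * (𝓕 F) ξ * (ψ z : ℂ))
      ((volume : Measure E).prod volume) := by
    have h3 : Integrable (fun p : E × E => Ψ p.1 * (𝓕 F) p.2) ((volume : Measure E).prod volume) :=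
      (Ψ.integrable (μ := volume)).mul_prod ((𝓕 F).integrable (μ := volume))
    refine h3.mono ?_ (Eventually.of_forall fun p => ?_)
    · have c1 : Continuous (fun p : E × E => (𝓕 F) p.2) := (𝓕 F).continuous.comp continuous_snd
      have c2 : Continuous (fun p : E × E => ((ψ p.1 : ℝ) : ℂ)) := by
        have : (fun p : E × E => ((ψ p.1 : ℝ) : ℂ)) = fun p : E × E => Ψ p.1 := by
          funext p
          exact (hΨ p.1).symm
        rw [this]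
        exact Ψ.continuous.comp continuous_fst
      have c3 : Continuous (fun p : E × E => Complex.exp (((2 * Real.pi *
          (inner ℝ p.2 (x + l⁻¹ • p.1) : ℝ) : ℝ) : ℂ) * Complex.I)) := by fun_prop
      exact ((c3.mul c1).mul c2).aestronglyMeasurable
    · simp only [Function.uncurry]
      rw [norm_mul, norm_mul, norm_mul, expn, one_mul, hΨ, mul_comm]
  rw [h1]
  have h4 : ∀ z : E, (∫ ξ, Complex.exp (((2 * Real.pi *
      (inner ℝ ξ (x + l⁻¹ • z) : ℝ) : ℝ) : ℂ) * Complex.I) * (𝓕 F) ξ) * (ψ z : ℂ) =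
      ∫ ξ, Complex.exp (((2 * Real.pi *
      (inner ℝ ξ (x + l⁻¹ • z) : ℝ) : ℝ) : ℂ) * Complex.I) * (𝓕 F) ξ * (ψ z : ℂ) := by
    intro z
    rw [integral_mul_const]
  simp only [h4]
  rw [integral_integral_swap hint]
  refine integral_congr_ae (Eventually.of_forall fun ξ => ?_)
  simp only
  rw [h2 ξ, ← integral_const_mul, ← integral_const_mul]
  refine integral_congr_ae (Eventually.of_forall fun z => ?_)
  simp only
  have h5 : Complex.exp (((2 * Real.pi * (inner ℝ ξ (x + l⁻¹ • z) : ℝ) : ℝ) : ℂ) * Complex.I) =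
      Complex.exp (((2 * Real.pi * (inner ℝ ξ x : ℝ) : ℝ) : ℂ) * Complex.I) *
      Complex.exp (((2 * Real.pi * (inner ℝ ξ (l⁻¹ • z) : ℝ) : ℝ) : ℂ) * Complex.I) := by
    rw [← Complex.exp_add, inner_add_right]
    congr 1
    push_cast
    ring
  rw [h5]
  ring

/-- Plancherel for the difference. -/
lemma diff_eq {f ψ : E → ℝ} {F Ψ G : 𝓢(E, ℂ)} (hF : ∀ x, F x = (f x : ℂ))
    (hΨ : ∀ x, Ψ x = (ψ x : ℂ)) (hr : ∀ ξ, (ft ψ ξ).im = 0) {l : ℝ}
    (hG : ∀ ξ, G ξ = (𝓕 F) ξ * (1 - (𝓕 Ψ) (l⁻¹ • ξ))) (x : E) :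
    ((f x - fl f ψ l x : ℝ) : ℂ) = (𝓕⁻ G) x := by
  rw [SchwartzMap.fourierInv_coe, Real.fourierInv_eq']
  have i1 : Integrable (fun ξ => Complex.exp (((2 * Real.pi * (inner ℝ ξ x : ℝ) : ℝ) : ℂ) *
      Complex.I) * (𝓕 F) ξ) := by
    refine ((𝓕 F).integrable (μ := volume)).mono ?_ (Eventually.of_forall fun ξ => ?_)
    · have c1 := (𝓕 F).continuous
      have c3 : Continuous (fun ξ : E => Complex.exp (((2 * Real.pi * (inner ℝ ξ x : ℝ) : ℝ) : ℂ) *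
        Complex.I)) := by fun_prop
      exact (c3.mul c1).aestronglyMeasurable
    · rw [norm_mul, expn, one_mul]
  have i2 : Integrable (fun ξ => Complex.exp (((2 * Real.pi * (inner ℝ ξ x : ℝ) : ℝ) : ℂ) *
      Complex.I) * G ξ) := by
    refine (G.integrable (μ := volume)).mono ?_ (Eventually.of_forall fun ξ => ?_)
    · have c1 := G.continuous
      have c3 : Continuous (fun ξ : E => Complex.exp (((2 * Real.pi * (inner ℝ ξ x : ℝ) : ℝ) : ℂ) *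
        Complex.I)) := by fun_prop
      exact (c3.mul c1).aestronglyMeasurable
    · rw [norm_mul, expn, one_mul]
  have h1 := fl_eq hF hΨ hr l x
  have h2 : (∫ ξ, Complex.exp (((2 * Real.pi * (inner ℝ ξ x : ℝ) : ℝ) : ℂ) * Complex.I) *
      ((𝓕 F) ξ * (𝓕 Ψ) (l⁻¹ • ξ))) =
      (∫ ξ, Complex.exp (((2 * Real.pi * (inner ℝ ξ x : ℝ) : ℝ) : ℂ) * Complex.I) * (𝓕 F) ξ) -
      ∫ ξ, Complex.exp (((2 * Real.pi * (inner ℝ ξ x : ℝ) : ℝ) : ℂ) * Complex.I) * G ξ := by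
    rw [← integral_sub i1 i2]
    refine integral_congr_ae (Eventually.of_forall fun ξ => ?_)
    simp only
    rw [hG]
    ring
  have h3 : (∫ v, Complex.exp (((2 * Real.pi * (inner ℝ v x : ℝ) : ℝ) : ℂ) * Complex.I) • G v) =
      ∫ ξ, Complex.exp (((2 * Real.pi * (inner ℝ ξ x : ℝ) : ℝ) : ℂ) * Complex.I) * G ξ := rfl
  rw [h3, Complex.ofReal_sub, h1, h2, ← inv_eq, hF]
  ring

/-! ### the weight -/

lemma w_int {f : E → ℝ} (hf : IsSch f) {a : ℝ} (ha : 0 < a) (ha2 : a < 2) :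
    Integrable (fun ξ => (2 * Real.pi * ‖ξ‖) ^ (2 * a) * ‖ft f ξ‖ ^ 2) volume := by
  obtain ⟨F, hF⟩ := exists_cx hf
  obtain ⟨C, hC⟩ : ∃ C, ∀ ξ, ‖(𝓕 F) ξ‖ ≤ C := by
    obtain ⟨C, _, hC⟩ := (𝓕 F).decay 0 0
    exact ⟨C, fun x => by simpa using hC x⟩
  have hC0 : 0 ≤ C := (norm_nonneg _).trans (hC 0)
  have h1 : Integrable (fun ξ => C * ((2 * Real.pi) ^ 4 * (‖ξ‖ ^ 4 * ‖(𝓕 F) ξ‖) +
      ‖ξ‖ ^ 0 * ‖(𝓕 F) ξ‖)) volume :=
    ((((𝓕 F).integrable_pow_mul volume 4).const_mul _).add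
      ((𝓕 F).integrable_pow_mul volume 0)).const_mul C
  have hm : Continuous (fun ξ : E => (2 * Real.pi * ‖ξ‖) ^ (2 * a) * ‖(𝓕 F) ξ‖ ^ 2) := by
    have c1 := (𝓕 F).continuous
    have c2 : Continuous (fun ξ : E => (2 * Real.pi * ‖ξ‖) ^ (2 * a)) :=
      (continuous_const.mul continuous_norm).rpow_const fun x => Or.inr (by positivity)
    exact c2.mul (c1.norm.pow 2)
  have he : (fun ξ => (2 * Real.pi * ‖ξ‖) ^ (2 * a) * ‖ft f ξ‖ ^ 2) =
      fun ξ : E => (2 * Real.pi * ‖ξ‖) ^ (2 * a) * ‖(𝓕 F) ξ‖ ^ 2 := by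
    funext ξ
    rw [ft_eq hF]
  rw [he]
  refine h1.mono' hm.aestronglyMeasurable (Eventually.of_forall fun ξ => ?_)
  rw [Real.norm_eq_abs, abs_of_nonneg (by positivity)]
  set t : ℝ := 2 * Real.pi * ‖ξ‖ with ht
  have ht0 : 0 ≤ t := by positivity
  have h2 : t ^ (2 * a) ≤ t ^ 4 + 1 := by
    rcases le_total t 1 with h | h
    · have h3 : t ^ (2 * a) ≤ 1 := Real.rpow_le_one ht0 h (by positivity)
      have h4 : 0 ≤ t ^ 4 := by positivity
      linarith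
    · have h3 : t ^ (2 * a) ≤ t ^ (4 : ℝ) := Real.rpow_le_rpow_of_exponent_le h (by linarith)
      have h4 : t ^ (4 : ℝ) = t ^ (4 : ℕ) := by
        rw [← Real.rpow_natCast t 4]
        norm_num
      rw [h4] at h3
      exact h3.trans (by linarith)
  have h5 : ‖(𝓕 F) ξ‖ ^ 2 ≤ C * ‖(𝓕 F) ξ‖ := by
    rw [sq]
    exact mul_le_mul_of_nonneg_right (hC ξ) (norm_nonneg _)
  calc t ^ (2 * a) * ‖(𝓕 F) ξ‖ ^ 2 ≤ (t ^ 4 + 1) * (C * ‖(𝓕 F) ξ‖) :=
        mul_le_mul h2 h5 (by positivity) (by positivity)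
    _ = C * ((2 * Real.pi) ^ 4 * (‖ξ‖ ^ 4 * ‖(𝓕 F) ξ‖) + ‖ξ‖ ^ 0 * ‖(𝓕 F) ξ‖) := by
        rw [ht]
        ring

lemma hs_lint {f : E → ℝ} (hf : IsSch f) {a : ℝ} (ha : 0 < a) (ha2 : a < 2) :
    ∫⁻ ξ, ENNReal.ofReal ((2 * Real.pi * ‖ξ‖) ^ (2 * a) * ‖ft f ξ‖ ^ 2) = ENNReal.ofReal (hs a f) := by
  unfold hs
  exact (ofReal_integral_eq_lintegral_ofReal (w_int hf ha ha2)
    (Eventually.of_forall fun ξ => by positivity)).symm

lemma ft_cont {f : E → ℝ} (hf : IsSch f) : Continuous (ft f) := by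
  obtain ⟨F, hF⟩ := exists_cx hf
  have he : ft f = fun ξ => (𝓕 F) ξ := by
    funext ξ
    rw [ft_eq hF]
  rw [he]
  exact (𝓕 F).continuous

/-! ### first part -/

lemma G_bound {f ψ : E → ℝ} {F Ψ G : 𝓢(E, ℂ)} (hF : ∀ x, F x = (f x : ℂ))
    (hΨ : ∀ x, Ψ x = (ψ x : ℂ))
    (h1 : ∀ ξ, 0 ≤ (ft ψ ξ).re ∧ (ft ψ ξ).re ≤ 1 ∧ (ft ψ ξ).im = 0)
    (h2 : ∀ ξ, ‖ξ‖ ≤ 1 → ft ψ ξ = 1) {l : ℝ} (hl : 0 < l)
    (hG : ∀ ξ, G ξ = (𝓕 F) ξ * (1 - (𝓕 Ψ) (l⁻¹ • ξ))) (ξ : E) :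
    ENNReal.ofReal (‖G ξ‖ ^ 2) ≤
      ({ξ : E | l ≤ ‖ξ‖}).indicator (fun ξ => ENNReal.ofReal (‖ft f ξ‖ ^ 2)) ξ := by
  by_cases hξ : l ≤ ‖ξ‖
  · rw [Set.indicator_of_mem (show ξ ∈ {ξ : E | l ≤ ‖ξ‖} from hξ)]
    refine ENNReal.ofReal_le_ofReal (pow_le_pow_left₀ (norm_nonneg _) ?_ 2)
    rw [hG, norm_mul, ft_eq hF]
    have h3 : ‖(1 : ℂ) - (𝓕 Ψ) (l⁻¹ • ξ)‖ ≤ 1 := by
      rw [← ft_eq hΨ]
      have h4 := h1 (l⁻¹ • ξ)
      have h5 : (1 - ft ψ (l⁻¹ • ξ)) = (((1 - (ft ψ (l⁻¹ • ξ)).re : ℝ)) : ℂ) := by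
        apply Complex.ext
        · simp
        · simp [h4.2.2]
      rw [h5, Complex.norm_real, Real.norm_eq_abs, abs_le]
      constructor <;> linarith [h4.1, h4.2.1]
    exact mul_le_of_le_one_right (norm_nonneg _) h3
  · rw [Set.indicator_of_notMem (show ξ ∉ {ξ : E | l ≤ ‖ξ‖} from hξ)]
    push Not at hξ
    have h3 : (𝓕 Ψ) (l⁻¹ • ξ) = 1 := by
      rw [← ft_eq hΨ]
      refine h2 _ ?_
      rw [norm_smul, Real.norm_eq_abs, abs_of_pos (by positivity), inv_mul_le_iff₀ hl, mul_one]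
      exact hξ.le
    rw [hG, h3, sub_self, mul_zero, norm_zero]
    simp

lemma planch (G : 𝓢(E, ℂ)) :
    ∫⁻ x, ENNReal.ofReal (‖(𝓕⁻ G) x‖ ^ 2) = ∫⁻ ξ, ENNReal.ofReal (‖G ξ‖ ^ 2) := by
  have i1 : Integrable (fun x => ‖(𝓕⁻ G) x‖ ^ 2) volume :=
    ((𝓕⁻ G).memLp 2).integrable_norm_pow (by norm_num)
  have i2 : Integrable (fun x => ‖G x‖ ^ 2) volume := (G.memLp 2).integrable_norm_pow (by norm_num)
  rw [← ofReal_integral_eq_lintegral_ofReal i1 (Eventually.of_forall fun x => by positivity),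
    ← ofReal_integral_eq_lintegral_ofReal i2 (Eventually.of_forall fun x => by positivity)]
  have h3 := SchwartzMap.integral_norm_sq_fourier (𝓕⁻ G)
  rw [FourierTransform.fourier_fourierInv_eq] at h3
  rw [h3]

lemma markov {u : E → ℝ} (hu : Continuous u) {m : ℝ} (hm : 0 < m) :
    volume {x : E | m ≤ u x} ≤ ENNReal.ofReal (1 / m) * ∫⁻ x, ENNReal.ofReal (u x) := by
  have hc : Continuous (fun x => ENNReal.ofReal (u x)) := ENNReal.continuous_ofReal.comp hu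
  have hmk := mul_meas_ge_le_lintegral (μ := (volume : Measure E)) hc.measurable (ENNReal.ofReal m)
  have hsub : {x : E | m ≤ u x} ⊆ {x : E | ENNReal.ofReal m ≤ ENNReal.ofReal (u x)} :=
    fun x hx => ENNReal.ofReal_le_ofReal hx
  have h4 : ENNReal.ofReal (1 / m) * ENNReal.ofReal m = 1 := by
    rw [← ENNReal.ofReal_mul (by positivity), one_div_mul_cancel hm.ne', ENNReal.ofReal_one]
  calc volume {x : E | m ≤ u x} =
      ENNReal.ofReal (1 / m) * (ENNReal.ofReal m * volume {x : E | m ≤ u x}) := by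
        rw [← mul_assoc, h4, one_mul]
    _ ≤ ENNReal.ofReal (1 / m) * (ENNReal.ofReal m *
          volume {x : E | ENNReal.ofReal m ≤ ENNReal.ofReal (u x)}) :=
        mul_le_mul_right (mul_le_mul_right (measure_mono hsub) _) _
    _ ≤ _ := mul_le_mul_right hmk _

/-- the level sets. -/
lemma level {f ψ : E → ℝ} (hf : IsSch f) (hψ : IsSch ψ)
    (h1 : ∀ ξ, 0 ≤ (ft ψ ξ).re ∧ (ft ψ ξ).re ≤ 1 ∧ (ft ψ ξ).im = 0)
    (h2 : ∀ ξ, ‖ξ‖ ≤ 1 → ft ψ ξ = 1) {l lam : ℝ} (hl : 0 < l) (hlam : 0 < lam)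
    (hb : ∀ x, |fl f ψ l x| ≤ lam / 2) :
    volume {x : E | lam < |f x|} ≤ ENNReal.ofReal (4 / lam ^ 2) *
      ∫⁻ ξ, ({ξ : E | l ≤ ‖ξ‖}).indicator (fun ξ => ENNReal.ofReal (‖ft f ξ‖ ^ 2)) ξ := by
  obtain ⟨F, hF⟩ := exists_cx hf
  obtain ⟨Ψ, hΨ⟩ := exists_cx hψ
  obtain ⟨G, hG⟩ := exists_G F Ψ hl
  have hD := diff_eq hF hΨ (fun ξ => (h1 ξ).2.2) hG
  have hsq : ∀ x, (f x - fl f ψ l x) ^ 2 = ‖(𝓕⁻ G) x‖ ^ 2 := by
    intro x
    rw [← hD x, Complex.norm_real, Real.norm_eq_abs, sq_abs]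
  have hsub : {x : E | lam < |f x|} ⊆ {x : E | (lam / 2) ^ 2 ≤ ‖(𝓕⁻ G) x‖ ^ 2} := by
    intro x hx
    have hx' : lam < |f x| := hx
    show (lam / 2) ^ 2 ≤ ‖(𝓕⁻ G) x‖ ^ 2
    rw [← hsq x, ← sq_abs (f x - fl f ψ l x)]
    refine pow_le_pow_left₀ (by positivity) ?_ 2
    have h3 := hb x
    have h4 := abs_sub_abs_le_abs_sub (f x) (fl f ψ l x)
    linarith
  have hmk := markov ((𝓕⁻ G).continuous.norm.pow 2) (m := (lam / 2) ^ 2) (by positivity)
  have h5 : 1 / (lam / 2) ^ 2 = 4 / lam ^ 2 := by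
    rw [div_pow, one_div_div]
    norm_num
  rw [h5] at hmk
  refine (measure_mono hsub).trans (hmk.trans (mul_le_mul_right ?_ _))
  have h6 := planch G
  have h7 : ∫⁻ x, ENNReal.ofReal (((fun x => ‖(𝓕⁻ G) x‖) ^ 2) x) =
      ∫⁻ x, ENNReal.ofReal (‖(𝓕⁻ G) x‖ ^ 2) := rfl
  exact (le_of_eq (h7.trans h6)).trans (lintegral_mono (G_bound hF hΨ h1 h2 hl hG))

/-! ### layer cake and Tonelli -/

lemma inner_t {q L : ℝ} (hq : 2 < q) (hL : 0 ≤ L) (w : ℝ≥0∞) :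
    ∫⁻ t in Ioi (0 : ℝ), (Iic L).indicator (fun t => ENNReal.ofReal (4 * t ^ (q - 3)) * w) t =
      ENNReal.ofReal (4 * L ^ (q - 2) / (q - 2)) * w := by
  rw [setLIntegral_indicator measurableSet_Iic]
  have h1 : Iic L ∩ Ioi (0 : ℝ) = Ioc 0 L := by
    ext t
    simp only [mem_inter_iff, mem_Iic, mem_Ioi, mem_Ioc]
    exact and_comm
  have hm : Measurable (fun t : ℝ => ENNReal.ofReal (4 * t ^ (q - 3))) := by fun_prop
  rw [h1, lintegral_mul_const _ hm]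
  congr 1
  have hi : IntervalIntegrable (fun t : ℝ => 4 * t ^ (q - 3)) volume 0 L :=
    (intervalIntegral.intervalIntegrable_rpow' (by linarith)).const_mul 4
  rw [← ofReal_integral_eq_lintegral_ofReal ((intervalIntegrable_iff_integrableOn_Ioc_of_le hL).1 hi)]
  · rw [← intervalIntegral.integral_of_le hL, intervalIntegral.integral_const_mul,
      integral_rpow (Or.inl (by linarith))]
    have h2 : q - 3 + 1 = q - 2 := by ring
    rw [h2, Real.zero_rpow (by linarith), sub_zero, mul_div_assoc]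
  · refine (ae_restrict_iff' measurableSet_Ioc).2 (Eventually.of_forall fun t ht => ?_)
    have ht' : 0 < t := ht.1
    show 0 ≤ 4 * t ^ (q - 3)
    positivity

lemma layer {W : E → ℝ≥0∞} (hW : Measurable W) {L : E → ℝ} (hL : Measurable L) (hL0 : ∀ ξ, 0 ≤ L ξ)
    {q : ℝ} (hq : 2 < q) :
    ∫⁻ t in Ioi (0 : ℝ), (ENNReal.ofReal (4 / t ^ 2) * ∫⁻ ξ, ({ξ : E | t ≤ L ξ}).indicator W ξ) *
      ENNReal.ofReal (t ^ (q - 1)) = ∫⁻ ξ, ENNReal.ofReal (4 * L ξ ^ (q - 2) / (q - 2)) * W ξ := by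
  have hset : MeasurableSet {p : ℝ × E | p.1 ≤ L p.2} :=
    measurableSet_le measurable_fst (hL.comp measurable_snd)
  have h1 : ∀ t ∈ Ioi (0 : ℝ), (ENNReal.ofReal (4 / t ^ 2) * ∫⁻ ξ, ({ξ : E | t ≤ L ξ}).indicator W ξ) *
      ENNReal.ofReal (t ^ (q - 1)) =
      ∫⁻ ξ, (Iic (L ξ)).indicator (fun t => ENNReal.ofReal (4 * t ^ (q - 3)) * W ξ) t := by
    intro t ht
    have ht' : 0 < t := ht
    have h2 : ENNReal.ofReal (4 / t ^ 2) * ENNReal.ofReal (t ^ (q - 1)) =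
        ENNReal.ofReal (4 * t ^ (q - 3)) := by
      rw [← ENNReal.ofReal_mul (by positivity)]
      congr 1
      have h3 : q - 1 = q - 3 + 2 := by ring
      rw [h3, Real.rpow_add ht', Real.rpow_two]
      field_simp
    have hm : Measurable (({ξ : E | t ≤ L ξ}).indicator W) :=
      hW.indicator (measurableSet_le measurable_const hL)
    rw [mul_right_comm, h2, ← lintegral_const_mul _ hm]
    refine lintegral_congr fun ξ => ?_
    by_cases hξ : t ≤ L ξ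
    · rw [Set.indicator_of_mem (show ξ ∈ {ξ : E | t ≤ L ξ} from hξ),
        Set.indicator_of_mem (show t ∈ Iic (L ξ) from hξ)]
    · rw [Set.indicator_of_notMem (show ξ ∉ {ξ : E | t ≤ L ξ} from hξ),
        Set.indicator_of_notMem (show t ∉ Iic (L ξ) from hξ), mul_zero]
  rw [setLIntegral_congr_fun measurableSet_Ioi h1]
  rw [lintegral_lintegral_swap]
  · refine lintegral_congr fun ξ => ?_
    exact inner_t hq (hL0 ξ) (W ξ)
  · have h4 : (Function.uncurry fun (t : ℝ) (ξ : E) =>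
        (Iic (L ξ)).indicator (fun t => ENNReal.ofReal (4 * t ^ (q - 3)) * W ξ) t) =
        ({p : ℝ × E | p.1 ≤ L p.2}).indicator
          (fun p => ENNReal.ofReal (4 * p.1 ^ (q - 3)) * W p.2) := by
      funext p
      obtain ⟨t, ξ⟩ := p
      simp only [Function.uncurry]
      by_cases hξ : t ≤ L ξ
      · rw [Set.indicator_of_mem (show (t, ξ) ∈ {p : ℝ × E | p.1 ≤ L p.2} from hξ),
          Set.indicator_of_mem (show t ∈ Iic (L ξ) from hξ)]
      · rw [Set.indicator_of_notMem (show (t, ξ) ∉ {p : ℝ × E | p.1 ≤ L p.2} from hξ),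
          Set.indicator_of_notMem (show t ∉ Iic (L ξ) from hξ)]
    rw [h4]
    have hm1 : Measurable (fun t : ℝ => ENNReal.ofReal (4 * t ^ (q - 3))) := by fun_prop
    have hm2 : Measurable (fun p : ℝ × E => ENNReal.ofReal (4 * p.1 ^ (q - 3)) * W p.2) :=
      (hm1.comp measurable_fst).mul (hW.comp measurable_snd)
    exact (hm2.indicator hset).aemeasurable

/-- first part for `B > 0`. -/
lemma part1 {f ψ : E → ℝ} (hf : IsSch f) (hψ : IsSch ψ)
    (h1 : ∀ ξ, 0 ≤ (ft ψ ξ).re ∧ (ft ψ ξ).re ≤ 1 ∧ (ft ψ ξ).im = 0)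
    (h2 : ∀ ξ, ‖ξ‖ ≤ 1 → ft ψ ξ = 1) {a B : ℝ} (ha : 0 < a) (ha2 : a < 2) (hB : 0 < B)
    (hb : ∀ (x : E) (l : ℝ), 0 < l → |fl f ψ l x| ≤ B * l ^ ((4 - 2 * a) / 2)) :
    ∫⁻ x, ENNReal.ofReal (|f x| ^ (8 / (4 - 2 * a))) ≤
      ENNReal.ofReal (8 / (4 - 2 * a)) * (ENNReal.ofReal (4 / (8 / (4 - 2 * a) - 2) *
        (2 * B) ^ (8 / (4 - 2 * a) - 2) * (2 * Real.pi) ^ (-(2 * a))) * ENNReal.ofReal (hs a f)) := by
  obtain ⟨F, hF⟩ := exists_cx hf
  have hfc : Continuous f := by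
    have : f = fun x => (F x).re := by
      funext x
      rw [hF, Complex.ofReal_re]
    rw [this]
    exact Complex.continuous_re.comp F.continuous
  set θ : ℝ := (4 - 2 * a) / 2 with hθ
  have hθ0 : 0 < θ := by rw [hθ]; linarith
  set q : ℝ := 8 / (4 - 2 * a) with hq
  have hqθ : q * θ = 4 := by
    rw [hq, hθ]
    have : (4 - 2 * a) ≠ 0 := by linarith
    field_simp
    norm_num
  have hq2 : 2 < q := by
    rw [hq, lt_div_iff₀ (by linarith)]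
    linarith
  rw [lintegral_rpow_eq_lintegral_meas_lt_mul volume (Eventually.of_forall fun x => abs_nonneg (f x))
    hfc.abs.aemeasurable (by linarith : 0 < q)]
  refine mul_le_mul_right ?_ _
  set W : E → ℝ≥0∞ := fun ξ => ENNReal.ofReal (‖ft f ξ‖ ^ 2) with hW
  have hWm : Measurable W := by
    rw [hW]
    exact (ENNReal.continuous_ofReal.comp ((ft_cont hf).norm.pow 2)).measurable
  set L : E → ℝ := fun ξ => 2 * B * ‖ξ‖ ^ θ with hL
  have hLm : Measurable L := by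
    rw [hL]
    exact (continuous_const.mul (continuous_norm.rpow_const fun x => Or.inr hθ0.le)).measurable
  have hL0 : ∀ ξ, 0 ≤ L ξ := fun ξ => by
    rw [hL]
    positivity
  have h3 : ∀ t ∈ Ioi (0 : ℝ), volume {x : E | t < |f x|} * ENNReal.ofReal (t ^ (q - 1)) ≤
      (ENNReal.ofReal (4 / t ^ 2) * ∫⁻ ξ, ({ξ : E | t ≤ L ξ}).indicator W ξ) *
      ENNReal.ofReal (t ^ (q - 1)) := by
    intro t ht
    have ht' : 0 < t := ht
    refine mul_le_mul_left ?_ _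
    set l : ℝ := (t / (2 * B)) ^ (1 / θ) with hl
    have hl0 : 0 < l := by rw [hl]; positivity
    have h4 : l ^ θ = t / (2 * B) := by
      rw [hl, ← Real.rpow_mul (by positivity), one_div_mul_cancel hθ0.ne', Real.rpow_one]
    have h5 : B * l ^ θ = t / 2 := by
      rw [h4]
      field_simp
    have h6 := level hf hψ h1 h2 hl0 ht' (fun x => (hb x l hl0).trans (le_of_eq h5))
    have h7 : {ξ : E | l ≤ ‖ξ‖} = {ξ : E | t ≤ L ξ} := by
      ext ξ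
      show l ≤ ‖ξ‖ ↔ t ≤ 2 * B * ‖ξ‖ ^ θ
      rw [← Real.rpow_le_rpow_iff hl0.le (norm_nonneg ξ) hθ0, h4, div_le_iff₀ (by positivity),
        mul_comm (‖ξ‖ ^ θ)]
    rw [h7] at h6
    exact h6
  refine (setLIntegral_mono' measurableSet_Ioi h3).trans ?_
  rw [layer hWm hLm hL0 hq2, ← hs_lint hf ha ha2, ← lintegral_const_mul]
  · refine lintegral_mono fun ξ => ?_
    rw [hW]
    simp only
    have hq3 : 0 < q - 2 := by linarith
    have hπ : 0 < Real.pi := Real.pi_pos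
    have hL1 : 0 ≤ L ξ := hL0 ξ
    rw [← ENNReal.ofReal_mul (by positivity), ← ENNReal.ofReal_mul (by positivity)]
    refine le_of_eq ?_
    congr 1
    have h8 : L ξ ^ (q - 2) = (2 * B) ^ (q - 2) * ‖ξ‖ ^ (2 * a) := by
      have h9 : θ * (q - 2) = 2 * a := by
        have : θ * (q - 2) = q * θ - 2 * θ := by ring
        rw [this, hqθ, hθ]
        ring
      rw [hL]
      simp only
      rw [Real.mul_rpow (by positivity) (by positivity), ← Real.rpow_mul (norm_nonneg ξ), h9]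
    have h10 : (2 * Real.pi * ‖ξ‖) ^ (2 * a) = (2 * Real.pi) ^ (2 * a) * ‖ξ‖ ^ (2 * a) :=
      Real.mul_rpow (by positivity) (by positivity)
    have h11 : (2 * Real.pi) ^ (-(2 * a)) * (2 * Real.pi) ^ (2 * a) = 1 := by
      rw [← Real.rpow_add (by positivity), neg_add_cancel, Real.rpow_zero]
    rw [h8, h10]
    calc 4 * ((2 * B) ^ (q - 2) * ‖ξ‖ ^ (2 * a)) / (q - 2) * ‖ft f ξ‖ ^ 2 =
        4 / (q - 2) * (2 * B) ^ (q - 2) * 1 * (‖ξ‖ ^ (2 * a) * ‖ft f ξ‖ ^ 2) := by ring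
      _ = 4 / (q - 2) * (2 * B) ^ (q - 2) * (2 * Real.pi) ^ (-(2 * a)) *
          ((2 * Real.pi) ^ (2 * a) * ‖ξ‖ ^ (2 * a) * ‖ft f ξ‖ ^ 2) := by
        rw [← h11]
        ring
  · have c1 : Continuous (fun ξ : E => (2 * Real.pi * ‖ξ‖) ^ (2 * a)) :=
      (continuous_const.mul continuous_norm).rpow_const fun x => Or.inr (by positivity)
    exact (ENNReal.continuous_ofReal.comp (c1.mul ((ft_cont hf).norm.pow 2))).measurable

/-- first part. -/
lemma part1' {f ψ : E → ℝ} (hf : IsSch f) (hψ : IsSch ψ)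
    (h1 : ∀ ξ, 0 ≤ (ft ψ ξ).re ∧ (ft ψ ξ).re ≤ 1 ∧ (ft ψ ξ).im = 0)
    (h2 : ∀ ξ, ‖ξ‖ ≤ 1 → ft ψ ξ = 1) {a B : ℝ} (ha : 0 < a) (ha2 : a < 2) (hB : 0 < B)
    (hb : ∀ (x : E) (l : ℝ), 0 < l → |fl f ψ l x| ≤ B * l ^ ((4 - 2 * a) / 2)) :
    ∫ x, |f x| ^ (8 / (4 - 2 * a)) ≤ (8 / (4 - 2 * a)) * (4 / (8 / (4 - 2 * a) - 2) *
        2 ^ (8 / (4 - 2 * a) - 2) * (2 * Real.pi) ^ (-(2 * a))) * B ^ (4 * a / (4 - 2 * a)) *
        hs a f := by
  have h5 : 0 < 4 - 2 * a := by linarith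
  have hfc : Continuous f := by
    obtain ⟨F, hF⟩ := exists_cx hf
    have : f = fun x => (F x).re := by
      funext x
      rw [hF, Complex.ofReal_re]
    rw [this]
    exact Complex.continuous_re.comp F.continuous
  have hhs : 0 ≤ hs a f := by
    unfold hs
    exact integral_nonneg fun ξ => by positivity
  have hq2 : 0 < 8 / (4 - 2 * a) - 2 := by
    rw [sub_pos, lt_div_iff₀ h5]
    linarith
  have h6 := part1 hf hψ h1 h2 ha ha2 hB hb
  have hm : Continuous (fun x => |f x| ^ (8 / (4 - 2 * a))) :=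
    hfc.abs.rpow_const fun x => Or.inr (by positivity)
  rw [integral_eq_lintegral_of_nonneg_ae (Eventually.of_forall fun x => by positivity)
    hm.aestronglyMeasurable]
  refine ENNReal.toReal_le_of_le_ofReal ?_ (h6.trans (le_of_eq ?_))
  · positivity
  · rw [← ENNReal.ofReal_mul (by positivity), ← ENNReal.ofReal_mul (by positivity)]
    congr 1
    have h7 : 8 / (4 - 2 * a) - 2 = 4 * a / (4 - 2 * a) := by
      field_simp
      ring
    rw [h7, Real.mul_rpow (by norm_num) hB.le]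
    ring

/-! ### second part -/

/-- the weight on a ball. -/
noncomputable def wt (a l : ℝ) (ξ : E) : ℝ :=
  ({ξ : E | ‖ξ‖ ≤ 2 * l}).indicator (fun ξ => (2 * Real.pi * ‖ξ‖) ^ (-(2 * a))) ξ

lemma wt_nonneg (a l : ℝ) (ξ : E) : 0 ≤ wt a l ξ := by
  unfold wt
  exact Set.indicator_nonneg (fun ξ _ => by positivity) ξ

lemma wt_int {a l : ℝ} (ha2 : a < 2) (hl : 0 < l) : Integrable (wt a l) volume := by
  have hms : MeasurableSet {ξ : E | ‖ξ‖ ≤ 2 * l} := measurableSet_le measurable_norm measurable_const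
  unfold wt
  refine (integrable_indicator_iff hms).2 ?_
  have hfr : Module.finrank ℝ E = 4 := by simp
  have h1 : IntegrableOn (fun ξ : E => (2 * Real.pi * ‖ξ‖) ^ (-(2 * a))) (Metric.ball 0 (3 * l))
      volume := by
    refine integrableOn_ball_of_norm_le_rpow (C := (2 * Real.pi) ^ (-(2 * a))) (α := 2 * a)
      (by rw [hfr]; norm_num) (by rw [hfr]; push_cast; linarith) (Eventually.of_forall fun x => ?_) ?_
    · rw [Real.norm_eq_abs, abs_of_nonneg (by positivity), Real.mul_rpow (by positivity)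
        (norm_nonneg x)]
    · have : Measurable (fun ξ : E => (2 * Real.pi * ‖ξ‖) ^ (-(2 * a))) := by fun_prop
      exact this.aestronglyMeasurable
  refine h1.mono_set fun ξ hξ => ?_
  have hξ' : ‖ξ‖ ≤ 2 * l := hξ
  rw [mem_ball_zero_iff]
  linarith

lemma wt_scale (a : ℝ) {l : ℝ} (hl : 0 < l) :
    ∫ ξ, wt a l ξ = l ^ (4 - 2 * a) * ∫ ξ, wt a 1 ξ := by
  have hfr : Module.finrank ℝ E = 4 := by simp
  have h1 := Measure.integral_comp_smul (volume : Measure E) (wt a l) l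
  have h2 : ∀ ξ : E, wt a l (l • ξ) = l ^ (-(2 * a)) * wt a 1 ξ := by
    intro ξ
    unfold wt
    have hn : ‖l • ξ‖ = l * ‖ξ‖ := by rw [norm_smul, Real.norm_eq_abs, abs_of_pos hl]
    by_cases hξ : ‖ξ‖ ≤ 2 * 1
    · rw [Set.indicator_of_mem (show ξ ∈ {ξ : E | ‖ξ‖ ≤ 2 * 1} from hξ), Set.indicator_of_mem, hn]
      · have h3 : 2 * Real.pi * (l * ‖ξ‖) = l * (2 * Real.pi * ‖ξ‖) := by ring
        rw [h3, Real.mul_rpow hl.le (by positivity)]
      · show ‖l • ξ‖ ≤ 2 * l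
        rw [hn]
        nlinarith
    · rw [Set.indicator_of_notMem (show ξ ∉ {ξ : E | ‖ξ‖ ≤ 2 * 1} from hξ),
        Set.indicator_of_notMem, mul_zero]
      intro h4
      have h5 : ‖l • ξ‖ ≤ 2 * l := h4
      rw [hn] at h5
      apply hξ
      have h6 : l * ‖ξ‖ ≤ l * (2 * 1) := by linarith
      exact le_of_mul_le_mul_left h6 hl
  simp only [h2] at h1
  rw [integral_const_mul, hfr, smul_eq_mul, abs_of_pos (by positivity)] at h1
  have h3 : ∫ ξ, wt a l ξ = l ^ 4 * ((l ^ 4)⁻¹ * ∫ ξ, wt a l ξ) := by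
    field_simp
  rw [h3, ← h1, ← mul_assoc]
  congr 1
  rw [← Real.rpow_natCast l 4, ← Real.rpow_add hl]
  congr 1

lemma part2 {f ψ : E → ℝ} (hf : IsSch f) (hψ : IsSch ψ)
    (h1 : ∀ ξ, 0 ≤ (ft ψ ξ).re ∧ (ft ψ ξ).re ≤ 1 ∧ (ft ψ ξ).im = 0)
    (h3 : ∀ ξ, 2 ≤ ‖ξ‖ → ft ψ ξ = 0) {a : ℝ} (ha : 0 < a) (ha2 : a < 2)
    (x : E) {l : ℝ} (hl : 0 < l) :
    |fl f ψ l x| ≤ (∫ ξ, wt a 1 ξ) ^ (1 / 2 : ℝ) * hs a f ^ (1 / 2 : ℝ) * l ^ ((4 - 2 * a) / 2) := by
  obtain ⟨F, hF⟩ := exists_cx hf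
  obtain ⟨Ψ, hΨ⟩ := exists_cx hψ
  have hK : 0 ≤ ∫ ξ, wt a 1 ξ := integral_nonneg (wt_nonneg a 1)
  have hhs : 0 ≤ hs a f := by
    unfold hs
    exact integral_nonneg fun ξ => by positivity
  set u : E → ℝ≥0∞ := fun ξ => ENNReal.ofReal (({ξ : E | ‖ξ‖ ≤ 2 * l}).indicator
    (fun ξ => (2 * Real.pi * ‖ξ‖) ^ (-a)) ξ) with hu
  set v : E → ℝ≥0∞ := fun ξ => ENNReal.ofReal ((2 * Real.pi * ‖ξ‖) ^ a * ‖ft f ξ‖) with hv
  have hms : MeasurableSet {ξ : E | ‖ξ‖ ≤ 2 * l} := measurableSet_le measurable_norm measurable_const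
  have hum : Measurable u := by
    have : Measurable (fun ξ : E => (2 * Real.pi * ‖ξ‖) ^ (-a)) := by fun_prop
    exact ENNReal.measurable_ofReal.comp (this.indicator hms)
  have hvm : Measurable v := by
    have c1 : Continuous (fun ξ : E => (2 * Real.pi * ‖ξ‖) ^ a) :=
      (continuous_const.mul continuous_norm).rpow_const fun x => Or.inr ha.le
    exact (ENNReal.continuous_ofReal.comp (c1.mul (ft_cont hf).norm)).measurable
  have hu2 : ∫⁻ ξ, u ξ ^ (2 : ℝ) = ENNReal.ofReal (∫ ξ, wt a l ξ) := by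
    rw [ofReal_integral_eq_lintegral_ofReal (wt_int ha2 hl) (Eventually.of_forall (wt_nonneg a l))]
    refine lintegral_congr fun ξ => ?_
    rw [hu]
    simp only
    unfold wt
    by_cases hξ : ‖ξ‖ ≤ 2 * l
    · rw [Set.indicator_of_mem (show ξ ∈ {ξ : E | ‖ξ‖ ≤ 2 * l} from hξ),
        Set.indicator_of_mem (show ξ ∈ {ξ : E | ‖ξ‖ ≤ 2 * l} from hξ),
        ENNReal.ofReal_rpow_of_nonneg (by positivity) (by norm_num), ← Real.rpow_mul (by positivity)]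
      congr 2
      ring
    · rw [Set.indicator_of_notMem (show ξ ∉ {ξ : E | ‖ξ‖ ≤ 2 * l} from hξ),
        Set.indicator_of_notMem (show ξ ∉ {ξ : E | ‖ξ‖ ≤ 2 * l} from hξ), ENNReal.ofReal_zero]
      simp
  have hv2 : ∫⁻ ξ, v ξ ^ (2 : ℝ) = ENNReal.ofReal (hs a f) := by
    rw [← hs_lint hf ha ha2]
    refine lintegral_congr fun ξ => ?_
    rw [hv]
    simp only
    rw [ENNReal.ofReal_rpow_of_nonneg (by positivity) (by norm_num),
      Real.mul_rpow (by positivity) (by positivity), ← Real.rpow_mul (by positivity), Real.rpow_two,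
      mul_comm a 2]
  have hae : ∀ᵐ ξ : E, ‖Complex.exp (((2 * Real.pi * (inner ℝ ξ x : ℝ) : ℝ) : ℂ) * Complex.I) *
      ((𝓕 F) ξ * (𝓕 Ψ) (l⁻¹ • ξ))‖ₑ ≤ (u * v) ξ := by
    have h0 : ∀ᵐ ξ : E, ξ ≠ 0 := by
      have := (measure_singleton (0 : E) : volume ({0} : Set E) = 0)
      exact compl_mem_ae_iff.2 this
    filter_upwards [h0] with ξ hξ0
    have hn : 0 < ‖ξ‖ := norm_pos_iff.2 hξ0
    rw [Pi.mul_apply, hu, hv]
    simp only
    by_cases hξ : ‖ξ‖ ≤ 2 * l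
    · rw [Set.indicator_of_mem (show ξ ∈ {ξ : E | ‖ξ‖ ≤ 2 * l} from hξ),
        ← ENNReal.ofReal_mul (by positivity),
        ← mul_assoc ((2 * Real.pi * ‖ξ‖) ^ (-a)), ← Real.rpow_add (by positivity),
        neg_add_cancel, Real.rpow_zero, one_mul, ← ofReal_norm]
      refine ENNReal.ofReal_le_ofReal ?_
      rw [norm_mul, expn, one_mul, norm_mul, ft_eq hF]
      refine mul_le_of_le_one_right (norm_nonneg _) ?_
      rw [← ft_eq hΨ]
      have h4 := h1 (l⁻¹ • ξ)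
      have h5 : ft ψ (l⁻¹ • ξ) = (((ft ψ (l⁻¹ • ξ)).re : ℝ) : ℂ) := by
        apply Complex.ext
        · simp
        · simp [h4.2.2]
      rw [h5, Complex.norm_real, Real.norm_eq_abs, abs_le]
      constructor <;> linarith [h4.1, h4.2.1]
    · push Not at hξ
      have h4 : (𝓕 Ψ) (l⁻¹ • ξ) = 0 := by
        rw [← ft_eq hΨ]
        refine h3 _ ?_
        rw [norm_smul, Real.norm_eq_abs, abs_of_pos (by positivity), le_inv_mul_iff₀ hl]
        linarith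
      rw [h4, mul_zero, mul_zero, enorm_zero]
      exact zero_le
  have h6 : ENNReal.ofReal |fl f ψ l x| ≤ ENNReal.ofReal (∫ ξ, wt a l ξ) ^ (1 / 2 : ℝ) *
      ENNReal.ofReal (hs a f) ^ (1 / 2 : ℝ) := by
    have h7 : ENNReal.ofReal |fl f ψ l x| = ‖(fl f ψ l x : ℂ)‖ₑ := by
      rw [← ofReal_norm, Complex.norm_real, Real.norm_eq_abs]
    rw [h7, fl_eq hF hΨ (fun ξ => (h1 ξ).2.2) l x]
    refine (enorm_integral_le_lintegral_enorm _).trans ((lintegral_mono_ae hae).trans ?_)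
    have h8 := ENNReal.lintegral_mul_le_Lp_mul_Lq (volume : Measure E) Real.HolderConjugate.two_two
      hum.aemeasurable hvm.aemeasurable
    rw [hu2, hv2] at h8
    exact h8
  have hKl : 0 ≤ ∫ ξ, wt a l ξ := integral_nonneg (wt_nonneg a l)
  rw [ENNReal.ofReal_rpow_of_nonneg hKl (by norm_num), ENNReal.ofReal_rpow_of_nonneg hhs
    (by norm_num), ← ENNReal.ofReal_mul (by positivity)] at h6
  have h9 := (ENNReal.ofReal_le_ofReal_iff (by positivity)).1 h6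
  refine h9.trans (le_of_eq ?_)
  rw [wt_scale a hl, Real.mul_rpow (by positivity) hK, ← Real.rpow_mul hl.le]
  have h10 : (4 - 2 * a) * (1 / 2) = (4 - 2 * a) / 2 := by ring
  rw [h10]
  ring

end RSobx

open RSobx in
theorem thm_RSob : St_RSob := by
  intro a ψ ha ha2 hψ h1 h2 h3
  have h5 : 0 < 4 - 2 * a := by linarith
  have hexp : (4 - 2 * a) / 2 = 2 - a := by ring
  have hq2 : 0 < 8 / (4 - 2 * a) - 2 := by
    rw [sub_pos, lt_div_iff₀ h5]
    linarith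
  have hK : 0 ≤ ∫ ξ, wt a 1 ξ := integral_nonneg (wt_nonneg a 1)
  set C1 : ℝ := (8 / (4 - 2 * a)) * (4 / (8 / (4 - 2 * a) - 2) *
        2 ^ (8 / (4 - 2 * a) - 2) * (2 * Real.pi) ^ (-(2 * a))) with hC1
  have hC10 : 0 ≤ C1 := by
    rw [hC1]
    positivity
  set C2 : ℝ := (∫ ξ, wt a 1 ξ) ^ (1 / 2 : ℝ) with hC2
  have hC20 : 0 ≤ C2 := by
    rw [hC2]
    positivity
  refine ⟨C1 + C2 + 1, by positivity, fun f hf => ?_⟩
  have hhs : 0 ≤ hs a f := by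
    unfold hs
    exact integral_nonneg fun ξ => by positivity
  refine ⟨fun B hB hb => ?_, fun x l hl => ?_⟩
  · have hpos : ∀ B' : ℝ, 0 < B' → B ≤ B' →
        ∫ x, |f x| ^ (8 / (4 - 2 * a)) ≤ C1 * B' ^ (4 * a / (4 - 2 * a)) * hs a f := by
      intro B' hB' hBB
      exact part1' hf hψ h1 h2 ha ha2 hB' fun x l hl => by
        rw [hexp]
        exact (hb x l hl).trans (mul_le_mul_of_nonneg_right hBB (by positivity))
    have hlim : Tendsto (fun n : ℕ => C1 * (B + 1 / ((n : ℝ) + 1)) ^ (4 * a / (4 - 2 * a)) * hs a f)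
        atTop (𝓝 (C1 * B ^ (4 * a / (4 - 2 * a)) * hs a f)) := by
      have t1 : Tendsto (fun n : ℕ => B + 1 / ((n : ℝ) + 1)) atTop (𝓝 (B + 0)) :=
        tendsto_const_nhds.add tendsto_one_div_add_atTop_nhds_zero_nat
      rw [add_zero] at t1
      have t2 := t1.rpow_const (p := 4 * a / (4 - 2 * a)) (Or.inr (by positivity))
      exact (t2.const_mul C1).mul_const _
    have h6 : ∫ x, |f x| ^ (8 / (4 - 2 * a)) ≤ C1 * B ^ (4 * a / (4 - 2 * a)) * hs a f := by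
      refine ge_of_tendsto' hlim fun n => ?_
      have hn : 0 < 1 / ((n : ℝ) + 1) := by positivity
      exact hpos _ (by positivity) (by linarith)
    refine h6.trans ?_
    refine mul_le_mul_of_nonneg_right (mul_le_mul_of_nonneg_right (by linarith) (by positivity)) hhs
  · rw [← hexp]
    refine (part2 hf hψ h1 h3 ha ha2 x hl).trans ?_
    refine mul_le_mul_of_nonneg_right (mul_le_mul_of_nonneg_right ?_ (by positivity)) (by positivity)
    linarith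

end Pool.Agent.QWF
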