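import Pool.Agent.QWF.RadS

set_option autoImplicit false

/-!
# QWF, RadT: the Radon transform of test functions (from the Schwartz case, file RadS)
-/

open MeasureTheory Filter Topology Set
open scoped ENNReal NNReal

namespace Pool.Agent.QWF.RadTx

open RadSx

lemma test_sch {φ : E → ℝ} (h : IsTest φ) : IsSch φ :=
  ⟨h.2.toSchwartzMap h.1, fun _ => rfl⟩

/-- Vanishing of half space integrals. -/
lemma van_gen {Ψ : E → ℝ} (w : S) (p : ℝ) {y : E} {ρ : ℝ} (h0 : ∫ x, Ψ x = 0)
    (hs : ∀ x, x ∉ Metric.closedBall y ρ → Ψ x = 0) (hp : ρ ≤ |p - inner ℝ y (w : E)|) :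
    ∫ x, {x : E | inner ℝ x (w : E) ≤ p}.indicator Ψ x = 0 := by
  have hin : ∀ x ∈ Metric.closedBall y ρ, |inner ℝ x (w : E) - inner ℝ y (w : E)| ≤ ρ := by
    intro x hx
    rw [← inner_sub_left]
    exact (inner_le (x - y) w).trans (mem_closedBall_iff_norm.1 hx)
  rcases le_or_gt 0 (p - inner ℝ y (w : E)) with h | h
  · rw [abs_of_nonneg h] at hp
    rw [← h0]
    refine integral_congr_ae (Eventually.of_forall fun x => ?_)
    by_cases hx : x ∈ Metric.closedBall y ρ
    · have h1 := (abs_le.1 (hin x hx)).2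
      rw [indicator_of_mem]
      change inner ℝ x (w : E) ≤ p
      linarith
    · rw [indicator_apply, hs x hx]
      simp
  · rw [abs_of_neg h] at hp
    rw [← integral_zero E ℝ]
    refine integral_congr_ae ?_
    filter_upwards [ae_ne_plane w p] with x hx
    by_cases hxb : x ∈ Metric.closedBall y ρ
    · have h1 := (abs_le.1 (hin x hxb)).1
      rw [indicator_of_notMem]
      intro h2
      have h3 : inner ℝ x (w : E) ≤ p := h2
      exact hx (le_antisymm h3 (by linarith))
    · rw [indicator_apply, hs x hxb]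
      simp

lemma D_supp (f : SchwartzMap E ℝ) (v : E) {x : E} (hx : x ∉ tsupport f) : D v f x = 0 := by
  rw [D_apply]
  have : fderiv ℝ f x = 0 := by
    by_contra h
    exact hx (support_fderiv_subset ℝ (Function.mem_support.2 h))
  rw [this]; rfl

end Pool.Agent.QWF.RadTx

namespace Pool.Agent.QWF

open RadSx RadTx

theorem thm_RadT : St_RadT := by
  intro φ hφ
  obtain ⟨f, hf⟩ := test_sch hφ
  obtain rfl : (f : E → ℝ) = φ := funext hf
  obtain ⟨h1, h2, -, h4, h5⟩ := thm_RadS f ⟨f, fun _ => rfl⟩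
  have hv : ∀ (y : E) (ρ : ℝ), tsupport f ⊆ Metric.closedBall y ρ →
      ∀ z : S × ℝ, ρ ≤ |z.2 - inner ℝ y (z.1 : E)| → Rad f z = 0 ∧ dRad f z = 0 := by
    intro y ρ hy z hz
    have hs1 : ∀ x, x ∉ Metric.closedBall y ρ → D (z.1 : E) f x = 0 := fun x hx =>
      D_supp f _ fun h => hx (hy h)
    have hs2 : ∀ x, x ∉ Metric.closedBall y ρ → D (z.1 : E) (D (z.1 : E) f) x = 0 := by
      intro x hx
      refine D_supp _ _ fun h => hx (hy ?_)
      refine closure_minimal ?_ (isClosed_tsupport f) h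
      intro x' hx'
      by_contra h'
      exact hx' (D_supp f _ h')
    exact ⟨van_gen z.1 z.2 (int_D f _) hs1 hz, van_gen z.1 z.2 (int_D (D (z.1 : E) f) _) hs2 hz⟩
  refine ⟨h1, h2, hv, h4, fun w g hg => ?_⟩
  obtain ⟨M, hM⟩ := hφ.2.isBounded.subset_closedBall 0
  set g' : ℝ → ℝ := fun p => g (max (-M) (min p M)) with hg'
  have hgc : Continuous g' := hg.comp (by fun_prop)
  have hgb : ∃ B, ∀ p, |g' p| ≤ B := by
    rcases le_or_gt (-M) M with hMM | hMM
    · obtain ⟨B, hB⟩ := (isCompact_Icc (a := -M) (b := M)).exists_bound_of_continuousOn hg.continuousOn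
      exact ⟨B, fun p => hB _ ⟨le_max_left _ _, max_le hMM (min_le_right _ _)⟩⟩
    · refine ⟨|g (-M)|, fun p => ?_⟩
      have : max (-M) (min p M) = -M := max_eq_left ((min_le_right _ _).trans hMM.le)
      rw [hg']
      simp only [this]
      exact le_refl _
  have hkey := h5 w g' hgc hgb
  have e1 : ∫ p, Rad f (w, p) * g' p = ∫ p, Rad f (w, p) * g p := by
    refine integral_congr_ae (Eventually.of_forall fun p => ?_)
    by_cases hp : M ≤ |p|
    · have := (hv 0 M hM (w, p) (by simpa using hp)).1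
      simp only [this, zero_mul]
    · have h3 := abs_lt.1 (not_le.1 hp)
      simp only [hg']
      rw [min_eq_left h3.2.le, max_eq_right h3.1.le]
  have e2 : ∫ x, f x * g' (inner ℝ x (w : E)) = ∫ x, f x * g (inner ℝ x (w : E)) := by
    refine integral_congr_ae (Eventually.of_forall fun x => ?_)
    by_cases hx : x ∈ tsupport f
    · have h3 : ‖x‖ ≤ M := by simpa using hM hx
      have h4 := abs_le.1 ((inner_le x w).trans h3)
      simp only [hg']
      rw [min_eq_left h4.2, max_eq_right h4.1]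
    · simp only [image_eq_zero_of_notMem_tsupport hx, zero_mul]
  rw [← e1, ← e2]
  exact hkey

end Pool.Agent.QWF
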