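import Pool.Agent.QWF.StG
import Pool.Agent.QWF.StC

set_option autoImplicit false

/-!
# QWF, ScM: rescaled solutions
-/

open MeasureTheory Filter Topology Set
open scoped ENNReal NNReal RealInnerProductSpace

namespace Pool.Agent.QWF


namespace ScMx

lemma set_eq (I : Set ℝ) (t0 b : ℝ) :
    {t : ℝ | Real.exp (-b) * t ∈ {s : ℝ | s + t0 ∈ I}} = {t | t0 + t * Real.exp (-b) ∈ I} := by
  ext t
  change Real.exp (-b) * t + t0 ∈ I ↔ t0 + t * Real.exp (-b) ∈ I
  rw [mul_comm, add_comm]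

lemma resc_eq (k : ℝ → K) (t0 : ℝ) (y : E) (b : ℝ) : resc k t0 y b =
    fun t => sh (-(Real.exp b • y)) (dl (-b) (k (Real.exp (-b) * t + t0))) := by
  funext t
  rw [mul_comm, add_comm]
  rfl


lemma sol (hS : St_Sym) {b : ℝ} (hb : 4 < b) {I : Set ℝ} {k : ℝ → K} (h : IsSol b I k) (t0 : ℝ) (y : E) (l : ℝ) :
    IsSol b {t | t0 + t * Real.exp (-l) ∈ I} (resc k t0 y l) := by
  have h7 := (hS b hb).2.2.2.2.2.2.1
  have h1 := (h7 I k h).1 t0
  have h2 := (h7 _ _ h1).2.2.1 (-l)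
  have h3 := (h7 _ _ h2).2.1 (-(Real.exp l • y))
  rw [set_eq] at h3
  rw [resc_eq]
  exact h3

lemma max (hS : St_Sym) (hG : Pool.Agent.QWF.St_GrA) {b : ℝ} (hb : 4 < b) {I : Set ℝ} {k : ℝ → K} (h : IsMax b I k) (t0 : ℝ) (y : E)
    (l : ℝ) : IsMax b {t | t0 + t * Real.exp (-l) ∈ I} (resc k t0 y l) := by
  have hexp : Real.exp l * Real.exp (-l) = 1 := by
    rw [← Real.exp_add, add_neg_cancel, Real.exp_zero]
  refine ⟨sol hS hb h.1 t0 y l, ?_, ?_, ?_⟩
  · exact h.2.1.preimage (f := fun t : ℝ => t0 + t * Real.exp (-l)) (by fun_prop)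
  · obtain ⟨x, hx⟩ := h.2.2.1
    refine ⟨(x - t0) * Real.exp l, ?_⟩
    change t0 + (x - t0) * Real.exp l * Real.exp (-l) ∈ I
    rw [mul_assoc, hexp, mul_one, add_sub_cancel]
    exact hx
  · intro J k' hJ hIJ hk
    have h1 := sol hS hb hJ (-(t0 * Real.exp l)) (-(Real.exp l • y)) (-l)
    rw [neg_neg] at h1
    have h2 : I ⊆ {t | -(t0 * Real.exp l) + t * Real.exp l ∈ J} := by
      intro t ht
      refine hIJ ?_
      change t0 + (-(t0 * Real.exp l) + t * Real.exp l) * Real.exp (-l) ∈ I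
      have e : t0 + (-(t0 * Real.exp l) + t * Real.exp l) * Real.exp (-l) =
          t0 + (t - t0) * (Real.exp l * Real.exp (-l)) := by ring
      rw [e, hexp, mul_one, add_sub_cancel]
      exact ht
    have h3 := h.2.2.2 _ _ h1 h2 (by
      intro t ht
      have e : t0 + (-(t0 * Real.exp l) + t * Real.exp l) * Real.exp (-l) = t := by
        have e' : t0 + (-(t0 * Real.exp l) + t * Real.exp l) * Real.exp (-l) =
            t0 + (t - t0) * (Real.exp l * Real.exp (-l)) := by ring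
        rw [e', hexp, mul_one, add_sub_cancel]
      have hs : -(t0 * Real.exp l) + t * Real.exp l ∈ {t | t0 + t * Real.exp (-l) ∈ I} := by
        change t0 + (-(t0 * Real.exp l) + t * Real.exp l) * Real.exp (-l) ∈ I
        rw [e]
        exact ht
      have e2 : ∀ w : K, ig (-(Real.exp l • y)) (-l) w = gr y l w := by
        intro w
        unfold Pool.Agent.QWF.ig
        rw [smul_neg, neg_neg, smul_smul, mul_comm (Real.exp (-l)), hexp, one_smul, neg_neg]
      unfold Pool.Agent.QWF.resc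
      rw [neg_neg, hk _ hs, e2]
      unfold Pool.Agent.QWF.resc
      rw [e]
      exact (hG.2.2.1 y l (k t)).1)
    intro s hs
    refine h3 ?_
    change -(t0 * Real.exp l) + (t0 + s * Real.exp (-l)) * Real.exp l ∈ J
    have e : -(t0 * Real.exp l) + (t0 + s * Real.exp (-l)) * Real.exp l =
        s * (Real.exp l * Real.exp (-l)) := by ring
    rw [e, hexp, mul_one]
    exact hs

end ScMx

theorem thm_ScM (hS : St_Sym) (hG : Pool.Agent.QWF.St_GrA) : St_ScM := by
  intro b hb I k t0 y l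
  refine ⟨fun h => ScMx.sol hS hb h t0 y l, fun h => ScMx.max hS hG hb h t0 y l, ?_, ?_⟩
  · intro hI
    have h8 := (hS b hb).2.2.2.2.2.2.2
    have m1 : MeasurableSet {s : ℝ | s + t0 ∈ I} := (measurable_add_const t0) hI
    have m2 : MeasurableSet {t : ℝ | Real.exp (-l) * t ∈ {s : ℝ | s + t0 ∈ I}} :=
      (measurable_const_mul (Real.exp (-l))) m1
    have h1 := (h8 I k hI).1 t0
    have h2 := (h8 _ (fun t => k (t + t0)) m1).2.2.1 (-l)
    have h3 := (h8 _ (fun t => dl (-l) (k (Real.exp (-l) * t + t0))) m2).2.1 (-(Real.exp l • y))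
    rw [← ScMx.set_eq, ScMx.resc_eq, h3, h2, h1]
  · intro t
    exact (hG.2.2.2.1 y l _).2

end Pool.Agent.QWF
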