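import Pool.Agent.QWF.StB

/-!
# QWF, module Small: small data (helper9)
-/

set_option autoImplicit false

open MeasureTheory Filter Topology Set
open scoped ENNReal NNReal RealInnerProductSpace Pointwise

namespace Pool.Agent.QWF


namespace Smallx

/-- the free evolution. -/
theorem free_le {b C : ℝ} (hC : 0 < C) (k : K)
    (h : ∫⁻ t, sn b (tau t k) ^ b ≤ (ENNReal.ofReal C * ‖k‖ₑ) ^ b)
    (t0 : ℝ) (J : Set ℝ) :
    SN b J (fun t => tau (t - t0) k) ≤ ENNReal.ofReal (C * ‖k‖) ^ b := by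
  have h1 : SN b J (fun t => tau (t - t0) k) ≤ ∫⁻ t, sn b (tau (t - t0) k) ^ b :=
    setLIntegral_le_lintegral J _
  have h2 : ∫⁻ t, sn b (tau (t - t0) k) ^ b = ∫⁻ t, sn b (tau t k) ^ b :=
    lintegral_sub_right_eq_self (fun t => sn b (tau t k) ^ b) t0
  rw [h2] at h1
  refine h1.trans (h.trans (le_of_eq ?_))
  rw [ENNReal.ofReal_mul hC.le, ofReal_norm]

/-- an interval around `t0`. -/
theorem cover (t0 : ℝ) : (⋃ n : ℕ, Icc (t0 - n) (t0 + n)) = (univ : Set ℝ) := by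
  refine eq_univ_of_forall fun t => ?_
  obtain ⟨n, hn⟩ := exists_nat_ge |t - t0|
  have h := abs_le.mp hn
  exact mem_iUnion.mpr ⟨n, by constructor <;> linarith [h.1, h.2]⟩

theorem SN_univ {b : ℝ} (t0 : ℝ) (k : ℝ → K) (B : ℝ≥0∞)
    (h : ∀ n : ℕ, SN b (Icc (t0 - n) (t0 + n)) k ≤ B) : SN b univ k ≤ B := by
  have h1 : SN b univ k = ⨆ n : ℕ, SN b (Icc (t0 - n) (t0 + n)) k := by
    unfold SN
    rw [← cover t0]
    refine setLIntegral_iUnion_of_directed _ ?_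
    refine Monotone.directed_le fun m n hmn => ?_
    have : (m : ℝ) ≤ n := by exact_mod_cast hmn
    exact Icc_subset_Icc (by linarith) (by linarith)
  rw [h1]
  exact iSup_le h

/-- the source. -/
theorem source {b C B d : ℝ} (hb2 : 4 < b) (hC : 0 < C) (hB : 0 ≤ B) (hd : 0 ≤ d) (hM : St_Meas)
    (hN : ∀ k : K, ‖NL b k‖ₑ ≤ ENNReal.ofReal C * sn b k ^ b * ‖k‖ₑ) (k : ℝ → K)
    (hk : Continuous k) (hkb : ∀ t, ‖k t‖ ≤ d) (hS : SN b univ k ≤ ENNReal.ofReal B) :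
    Integrable (fun t => NL b (k t)) volume ∧ ∫ t, ‖NL b (k t)‖ ≤ C * B * d := by
  have hb0 : 0 < b := by linarith
  obtain ⟨hm, -, m2⟩ := hM b hb2 k univ MeasurableSet.univ
    (by rw [Measure.restrict_univ]; exact hk.aestronglyMeasurable)
  rw [Measure.restrict_univ] at hm m2
  have hS' : ∫⁻ t, sn b (k t) ^ b ≤ ENNReal.ofReal B := by
    have h1 : SN b univ k = ∫⁻ t, sn b (k t) ^ b := by
      unfold SN
      rw [Measure.restrict_univ]
    rwa [h1] at hS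
  have hfin : ∀ᵐ r, sn b (k r) < ⊤ := by
    have h1 : ∫⁻ t, sn b (k t) ^ b ≠ ⊤ := ne_top_of_le_ne_top ENNReal.ofReal_ne_top hS'
    filter_upwards [ae_lt_top' (hm.pow_const b) h1] with r hr
    by_contra hcon
    rw [not_lt, top_le_iff] at hcon
    rw [hcon, ENNReal.top_rpow_of_pos hb0] at hr
    exact lt_irrefl _ hr
  have hNm := m2 hfin
  have hle : ∫⁻ t, ‖NL b (k t)‖ₑ ≤ ENNReal.ofReal (C * B * d) := by
    calc ∫⁻ t, ‖NL b (k t)‖ₑ ≤ ∫⁻ t, (ENNReal.ofReal C * ENNReal.ofReal d) * sn b (k t) ^ b := by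
          refine lintegral_mono fun t => ?_
          have h1 : ‖k t‖ₑ ≤ ENNReal.ofReal d := by
            rw [← ofReal_norm]
            exact ENNReal.ofReal_le_ofReal (hkb t)
          calc ‖NL b (k t)‖ₑ ≤ ENNReal.ofReal C * sn b (k t) ^ b * ‖k t‖ₑ := hN (k t)
            _ ≤ ENNReal.ofReal C * sn b (k t) ^ b * ENNReal.ofReal d := by gcongr
            _ = (ENNReal.ofReal C * ENNReal.ofReal d) * sn b (k t) ^ b := by ring
      _ = (ENNReal.ofReal C * ENNReal.ofReal d) * ∫⁻ t, sn b (k t) ^ b :=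
          lintegral_const_mul' _ _ (ENNReal.mul_ne_top ENNReal.ofReal_ne_top
            ENNReal.ofReal_ne_top)
      _ ≤ (ENNReal.ofReal C * ENNReal.ofReal d) * ENNReal.ofReal B := by gcongr
      _ = ENNReal.ofReal (C * B * d) := by
          rw [← ENNReal.ofReal_mul hC.le, ← ENNReal.ofReal_mul (by positivity)]
          congr 1
          ring
  refine ⟨⟨hNm, lt_of_le_of_lt hle ENNReal.ofReal_lt_top⟩, ?_⟩
  rw [integral_norm_eq_lintegral_enorm hNm]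
  exact ENNReal.toReal_le_of_le_ofReal (by positivity) hle

/-- the global solution with the bound of the Strichartz norm. -/
theorem glob {b : ℝ} (hb2 : 4 < b) (hMax : St_MaxE) {C1 η0 : ℝ} (hC1 : 0 < C1)
    (hStr : ∀ k : K, ∫⁻ t, sn b (tau t k) ^ b ≤ (ENNReal.ofReal C1 * ‖k‖ₑ) ^ b)
    (hLoc : ∀ (k0 : K) (x y t0 η : ℝ), ‖k0‖ ≤ 1 →
      x ≤ t0 → t0 ≤ y → 0 < η → η ≤ η0 →
      SN b (Icc x y) (fun t => tau (t - t0) k0) ≤ ENNReal.ofReal η ^ b →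
      ∃ k : ℝ → K, IsSol b (Icc x y) k ∧ k t0 = k0 ∧
        SN b (Icc x y) k ≤ ENNReal.ofReal (2 * η) ^ b ∧
        (∀ t ∈ Icc x y, ‖k t‖ ≤ 2 * 1) ∧
        ∀ t ∈ Icc x y, Tendsto (fun n => PicN b k0 t0 n t) atTop (𝓝 (k t)))
    (k0 : K) (t0 η : ℝ) (h1 : ‖k0‖ ≤ 1) (hη : 0 < η) (hη0 : η ≤ η0) (hη1 : C1 * ‖k0‖ ≤ η) :
    ∃ k : ℝ → K, IsMax b univ k ∧ k t0 = k0 ∧ SN b univ k ≤ ENNReal.ofReal (2 * η) ^ b := by
  have hb0 : 0 ≤ b := by linarith
  obtain ⟨I, k, hI, -, hk0, hmax⟩ := hMax b hb2 k0 t0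
  have key : ∀ n : ℕ, Icc (t0 - n) (t0 + n) ⊆ I ∧
      SN b (Icc (t0 - n) (t0 + n)) k ≤ ENNReal.ofReal (2 * η) ^ b := by
    intro n
    have hn : (0 : ℝ) ≤ n := Nat.cast_nonneg n
    have hf : SN b (Icc (t0 - n) (t0 + n)) (fun t => tau (t - t0) k0) ≤ ENNReal.ofReal η ^ b :=
      (free_le hC1 k0 (hStr k0) t0 _).trans
        (ENNReal.rpow_le_rpow (ENNReal.ofReal_le_ofReal hη1) hb0)
    obtain ⟨k', s1, s2, s3, -, -⟩ := hLoc k0 (t0 - n) (t0 + n) t0 η h1 (by linarith)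
      (by linarith) hη hη0 hf
    obtain ⟨j1, j2⟩ := hmax _ k' s1 ⟨by linarith, by linarith⟩ s2
    refine ⟨j1, le_trans (le_of_eq ?_) s3⟩
    unfold SN
    refine setLIntegral_congr_fun measurableSet_Icc fun t ht => ?_
    rw [j2 t ht]
  have hIu : I = univ := by
    refine eq_univ_of_univ_subset ?_
    rw [← cover t0]
    exact iUnion_subset fun n => (key n).1
  subst hIu
  exact ⟨k, hI, hk0, SN_univ t0 k _ fun n => (key n).2⟩

/-- the Strichartz bound with `η = C1 ‖k0‖`, also for `k0 = 0`. -/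
theorem glob' {b : ℝ} (hb2 : 4 < b) (hG : St_Gron) (hMax : St_MaxE) {C1 η0 : ℝ} (hC1 : 0 < C1)
    (hη0 : 0 < η0)
    (hStr : ∀ k : K, ∫⁻ t, sn b (tau t k) ^ b ≤ (ENNReal.ofReal C1 * ‖k‖ₑ) ^ b)
    (hLoc : ∀ (k0 : K) (x y t0 η : ℝ), ‖k0‖ ≤ 1 →
      x ≤ t0 → t0 ≤ y → 0 < η → η ≤ η0 →
      SN b (Icc x y) (fun t => tau (t - t0) k0) ≤ ENNReal.ofReal η ^ b →
      ∃ k : ℝ → K, IsSol b (Icc x y) k ∧ k t0 = k0 ∧
        SN b (Icc x y) k ≤ ENNReal.ofReal (2 * η) ^ b ∧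
        (∀ t ∈ Icc x y, ‖k t‖ ≤ 2 * 1) ∧
        ∀ t ∈ Icc x y, Tendsto (fun n => PicN b k0 t0 n t) atTop (𝓝 (k t)))
    (k0 : K) (t0 : ℝ) (h1 : ‖k0‖ ≤ 1) (h2 : C1 * ‖k0‖ ≤ η0) :
    ∃ k : ℝ → K, IsMax b univ k ∧ k t0 = k0 ∧
      SN b univ k ≤ ENNReal.ofReal (2 * C1 * ‖k0‖) ^ b := by
  have hb0 : 0 < b := by linarith
  rcases eq_or_ne k0 0 with h0 | h0
  · subst h0
    obtain ⟨k, a1, a2, a3⟩ := glob hb2 hMax hC1 hStr hLoc 0 t0 η0 h1 hη0 le_rfl h2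
    refine ⟨k, a1, a2, ?_⟩
    obtain ⟨C, -, hC⟩ := hG b hb2
    have hz : ∀ t, k t = 0 := by
      intro t
      have h3 := hC univ k a1.1 (lt_of_le_of_lt a3
        (ENNReal.rpow_lt_top_of_nonneg hb0.le ENNReal.ofReal_ne_top)) t0 (mem_univ _) t
        (mem_univ _)
      rw [a2, norm_zero, zero_mul] at h3
      exact norm_le_zero_iff.mp h3
    have h4 := hStr 0
    rw [enorm_zero, mul_zero] at h4
    have h5 : SN b univ k = ∫⁻ t, sn b (tau t (0 : K)) ^ b := by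
      unfold SN
      rw [Measure.restrict_univ]
      refine lintegral_congr fun t => ?_
      rw [hz t, map_zero]
    rw [h5]
    refine h4.trans ?_
    simp
  · have hpos : 0 < C1 * ‖k0‖ := mul_pos hC1 (norm_pos_iff.mpr h0)
    obtain ⟨k, a1, a2, a3⟩ := glob hb2 hMax hC1 hStr hLoc k0 t0 (C1 * ‖k0‖) h1 hpos h2 le_rfl
    refine ⟨k, a1, a2, ?_⟩
    rwa [← mul_assoc] at a3

end Smallx

open Smallx

theorem thm_Small (hStr : St_StrS) (hN : St_NLb) (hM : St_Meas) (hL : St_Loc) (hG : St_Gron)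
    (hMax : St_MaxE) (hBl : St_Blow) : St_Small := by
  intro b hb2
  have hb0 : 0 < b := by linarith
  obtain ⟨C1, hC1, hS⟩ := hStr b hb2
  obtain ⟨⟨C2, hC2, hN1, -⟩, -⟩ := hN b hb2
  obtain ⟨η0, hη0, hLoc⟩ := hL b hb2 1 one_pos
  obtain ⟨C3, hC3, hGr⟩ := id (hG b hb2)
  have hD : 0 < C3 * (2 * C1) ^ b := by positivity
  have hlog : 0 < Real.log 2 := Real.log_pos (by norm_num)
  refine ⟨min 1 (min (η0 / C1) (Real.log 2 / (C3 * (2 * C1) ^ b))),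
    2 * C1 + C2 * (2 * C1) ^ b * 2, by positivity, by positivity, ?_⟩
  intro k0 t0 hk
  have hk1 : ‖k0‖ ≤ 1 := hk.trans (min_le_left _ _)
  have hk2 : C1 * ‖k0‖ ≤ η0 := by
    have := hk.trans ((min_le_right _ _).trans (min_le_left _ _))
    rw [le_div_iff₀ hC1] at this
    linarith
  have hk3 : C3 * (2 * C1) ^ b * ‖k0‖ ≤ Real.log 2 := by
    have := hk.trans ((min_le_right _ _).trans (min_le_right _ _))
    rw [le_div_iff₀ hD] at this
    linarith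
  have hk0 : 0 ≤ ‖k0‖ := norm_nonneg _
  obtain ⟨k, a1, a2, a3⟩ := glob' hb2 hG hMax hC1 hη0 (fun k => (hS k).1) hLoc k0 t0 hk1 hk2
  have hsol := a1.1
  have hfin : SN b univ k < ⊤ := lt_of_le_of_lt a3
    (ENNReal.rpow_lt_top_of_nonneg hb0.le ENNReal.ofReal_ne_top)
  have hreal : (SN b univ k).toReal ≤ (2 * C1 * ‖k0‖) ^ b := by
    refine ENNReal.toReal_le_of_le_ofReal (by positivity) ?_
    rw [← ENNReal.ofReal_rpow_of_nonneg (by positivity) hb0.le]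
    exact a3
  have hb : ∀ t, ‖k t‖ ≤ 2 * ‖k0‖ := by
    intro t
    have h1 := hGr univ k hsol hfin t0 (mem_univ _) t (mem_univ _)
    rw [a2] at h1
    have h2 : C3 * (SN b univ k).toReal ≤ Real.log 2 := by
      have h3 : ‖k0‖ ^ b ≤ ‖k0‖ := by
        rcases eq_or_ne ‖k0‖ 0 with h0 | h0
        · rw [h0, Real.zero_rpow hb0.ne']
        · calc ‖k0‖ ^ b ≤ ‖k0‖ ^ (1 : ℝ) :=
                Real.rpow_le_rpow_of_exponent_ge (lt_of_le_of_ne hk0 (Ne.symm h0)) hk1 (by linarith)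
            _ = ‖k0‖ := Real.rpow_one _
      calc C3 * (SN b univ k).toReal ≤ C3 * (2 * C1 * ‖k0‖) ^ b := by gcongr
        _ = C3 * (2 * C1) ^ b * ‖k0‖ ^ b := by
            rw [Real.mul_rpow (by positivity) hk0]
            ring
        _ ≤ C3 * (2 * C1) ^ b * ‖k0‖ := by gcongr
        _ ≤ Real.log 2 := hk3
    have h4 : Real.exp (C3 * (SN b univ k).toReal) ≤ 2 := by
      calc Real.exp (C3 * (SN b univ k).toReal) ≤ Real.exp (Real.log 2) := Real.exp_le_exp.mpr h2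
        _ = 2 := Real.exp_log (by norm_num)
    calc ‖k t‖ ≤ ‖k0‖ * Real.exp (C3 * (SN b univ k).toReal) := h1
      _ ≤ ‖k0‖ * 2 := by gcongr
      _ = 2 * ‖k0‖ := by ring
  have hcont : Continuous k := by
    have := hsol.2.1
    rwa [continuousOn_univ] at this
  have hS2 : SN b univ k ≤ ENNReal.ofReal ((2 * C1 * ‖k0‖) ^ b) := by
    rw [← ENNReal.ofReal_rpow_of_nonneg (by positivity) hb0.le]
    exact a3
  obtain ⟨i1, i2⟩ := source hb2 hC2 (by positivity) (by positivity) hM hN1 k hcont hb hS2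
  obtain ⟨b1, b2⟩ := hBl b hb2 univ k t0 a1 (mem_univ _)
  refine ⟨k, hsol, a2, hb, ?_, i1, ?_, ?_, ?_⟩
  · refine a3.trans (ENNReal.rpow_le_rpow (ENNReal.ofReal_le_ofReal ?_) hb0.le)
    have : 0 ≤ C2 * (2 * C1) ^ b * 2 := by positivity
    gcongr
    linarith
  · refine i2.trans ?_
    have e1 : C2 * (2 * C1 * ‖k0‖) ^ b * (2 * ‖k0‖) = (C2 * (2 * C1) ^ b * 2) * ‖k0‖ ^ (b + 1) := by
      rw [Real.mul_rpow (by positivity) hk0, Real.rpow_add_one' hk0 (by linarith)]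
      ring
    rw [e1]
    gcongr
    linarith
  · exact (b1 (lt_of_le_of_lt (lintegral_mono_set (subset_univ _)) hfin)).2.2
  · exact (b2 (lt_of_le_of_lt (lintegral_mono_set (subset_univ _)) hfin)).2.2

end Pool.Agent.QWF
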