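import Pool.Agent.QWF.StM

set_option autoImplicit false

/-!
# QWF SoD: dual Sobolev bound for test sources
-/

open MeasureTheory Filter Topology Set
open scoped ENNReal NNReal RealInnerProductSpace

namespace Pool.Agent.QWF

namespace SoDx

theorem hs_nonneg (a : ℝ) (f : E → ℝ) : 0 ≤ hs a f :=
  integral_nonneg fun ξ => by positivity

/-- the square root is subadditive -/
theorem sqrt_sum {ι : Type} (s : Finset ι) (a : ι → ℝ) (ha : ∀ i, 0 ≤ a i) :
    ENNReal.ofReal ((∑ i ∈ s, a i) ^ (1 / 2 : ℝ)) ≤ ∑ i ∈ s, ENNReal.ofReal (a i ^ (1 / 2 : ℝ)) := by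
  classical
  induction s using Finset.induction_on with
  | empty => simp
  | insert i s hi ih =>
    rw [Finset.sum_insert hi, Finset.sum_insert hi]
    have h0 : 0 ≤ ∑ j ∈ s, a j := Finset.sum_nonneg fun j _ => ha j
    refine le_trans ?_ (add_le_add le_rfl ih)
    rw [← ENNReal.ofReal_rpow_of_nonneg (add_nonneg (ha i) h0) (by norm_num),
      ← ENNReal.ofReal_rpow_of_nonneg (ha i) (by norm_num),
      ← ENNReal.ofReal_rpow_of_nonneg h0 (by norm_num), ENNReal.ofReal_add (ha i) h0]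
    exact ENNReal.rpow_add_le_add_rpow _ _ (by norm_num) (by norm_num)

/-- the bound for one function -/
theorem one (hS : St_SobP) {s : ℝ} (hs1 : 0 < s) (hs2 : s < 1 / 2) :
    ∃ C : ℝ, 0 < C ∧ ∀ f : E → ℝ, IsSch f →
      ENNReal.ofReal ((hs (s - 1 / 2) f) ^ (1 / 2 : ℝ)) ≤ ENNReal.ofReal C * eLpNorm f (q2 s) volume := by
  obtain ⟨C, hC, h1⟩ := hS (1 / 2 - s) (by linarith) (by linarith)
  refine ⟨C, hC, fun f hf => ?_⟩
  have h2 := (h1 f hf).2
  rw [neg_sub, show 4 + 2 * (1 / 2 - s) = 5 - 2 * s by ring] at h2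
  exact h2

end SoDx

open SoDx

/-- **SoD** -/
theorem thm_SoD (hF : St_Ft) (hH : St_Hs) (hS : St_SobP) : St_SoD := by
  intro s hs1 hs2
  obtain ⟨C, hC, h1⟩ := one hS hs1 hs2
  refine ⟨C, hC, fun F hFt => ?_⟩
  have hF0 : IsSch F := hF.1 F hFt
  have hF1 : ∀ i, IsSch (pd i F) := (hF.2 F hF0).2.2.2.2.2.2.2.1
  have e1 : hs (1 / 2 + s) F = ∑ i, hs (s - 1 / 2) (pd i F) := by
    rw [hH.2.2.2.2.2.1 (s - 1 / 2) F (by linarith) hF0]
    congr 1
    ring
  rw [e1]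
  refine (sqrt_sum _ _ fun i => hs_nonneg _ _).trans ?_
  rw [Finset.mul_sum]
  exact Finset.sum_le_sum fun i _ => h1 _ (hF1 i)

end Pool.Agent.QWF
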