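import Pool.Agent.QWF.StA2

set_option autoImplicit false

/-!
# QWF: dual Radon transform of the shifted Radon transform (`St_Sph`)
-/

open MeasureTheory Filter Topology Set
open scoped ENNReal NNReal RealInnerProductSpace Pointwise ContDiff

namespace Pool.Agent.QWF.Sphx

private lemma sq_le_one (t : ℝ) (z : E) : √(max 0 (1 - t ^ 2 / ‖z‖ ^ 2)) ≤ 1 := by
  rw [Real.sqrt_le_one]
  refine max_le zero_le_one ?_
  have : 0 ≤ t ^ 2 / ‖z‖ ^ 2 := by positivity
  linarith

lemma Kc_nonneg (t : ℝ) (z : E) : 0 ≤ Kc t z := by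
  unfold Kc
  positivity

lemma Kc_le (t : ℝ) (z : E) : Kc t z ≤ 4 * Real.pi * (‖z‖⁻¹) ^ 1 := by
  unfold Kc
  calc 4 * Real.pi / ‖z‖ * √(max 0 (1 - t ^ 2 / ‖z‖ ^ 2)) ≤ 4 * Real.pi / ‖z‖ * 1 := by
        have := sq_le_one t z
        gcongr
    _ = 4 * Real.pi * (‖z‖⁻¹) ^ 1 := by rw [mul_one, pow_one, div_eq_mul_inv]

private lemma Kc_meas1 (t : ℝ) (x : E) : Measurable fun y : E => Kc t (x - y) := by
  unfold Kc
  fun_prop

private lemma Kc_meas2 (x : E) : Measurable fun q : ℝ × E => Kc q.1 (x - q.2) := by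
  unfold Kc
  fun_prop

private lemma Kc_cont (z : E) : Continuous fun t => Kc t z := by
  unfold Kc
  fun_prop

private lemma map_zonal (hSL1 : St_SL1) {z : E} (hz : z ≠ 0) :
    sg.map (fun w : S => inner ℝ z (w : E)) =
      (volume : Measure ℝ).withDensity (fun p => ENNReal.ofReal (Kc p z)) := by
  have hm : Measurable fun p => ENNReal.ofReal (Kc p z) := (Kc_cont z).measurable.ennreal_ofReal
  have hz0 : 0 < ‖z‖ := norm_pos_iff.2 hz
  refine Measure.ext_of_lintegral _ fun g hg => ?_
  rw [lintegral_map hg (by fun_prop), hSL1 z hz g hg,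
    lintegral_withDensity_eq_lintegral_mul _ hm hg, ← lintegral_indicator measurableSet_Icc]
  refine lintegral_congr fun p => ?_
  simp only [Pi.mul_apply]
  by_cases hp : p ∈ Icc (-‖z‖) ‖z‖
  · rw [indicator_of_mem hp]
    have h1 : p ^ 2 ≤ ‖z‖ ^ 2 := sq_le_sq' hp.1 hp.2
    have h2 : 0 ≤ 1 - p ^ 2 / ‖z‖ ^ 2 := by
      rw [sub_nonneg, div_le_one (by positivity)]
      exact h1
    unfold Kc
    rw [max_eq_right h2]
  · rw [indicator_of_notMem hp]
    have h1 : ‖z‖ ^ 2 ≤ p ^ 2 := by
      rw [sq_le_sq, abs_of_pos hz0]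
      by_contra h
      rw [not_le, abs_lt] at h
      exact hp ⟨h.1.le, h.2.le⟩
    have h2 : 1 - p ^ 2 / ‖z‖ ^ 2 ≤ 0 := by
      rw [sub_nonpos, one_le_div (by positivity)]
      exact h1
    unfold Kc
    rw [max_eq_left h2]
    simp

private lemma zonal (hSL1 : St_SL1) {z : E} (hz : z ≠ 0) {g : ℝ → ℝ} (hg : Continuous g) :
    ∫ w : S, g (inner ℝ z (w : E)) ∂sg = ∫ p, g p * Kc p z := by
  have hm : Measurable fun p => ENNReal.ofReal (Kc p z) := (Kc_cont z).measurable.ennreal_ofReal
  have h1 := integral_map (μ := sg) (φ := fun w : S => inner ℝ z (w : E)) (f := g)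
    (by fun_prop) hg.aestronglyMeasurable
  rw [← h1, map_zonal hSL1 hz, integral_withDensity_eq_integral_toReal_smul hm
    (Eventually.of_forall fun _ => ENNReal.ofReal_lt_top)]
  refine integral_congr_ae (Eventually.of_forall fun p => ?_)
  simp only [smul_eq_mul, ENNReal.toReal_ofReal (Kc_nonneg p z)]
  ring

private lemma int_pow {f : E → ℝ} (hf : Continuous f) (hc : HasCompactSupport f) (x : E) (k : ℕ)
    (hk : k ≤ 3) : Integrable (fun y => f y * (‖x - y‖⁻¹) ^ k) := by
  obtain ⟨B, hB⟩ := hc.exists_bound_of_continuous hf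
  obtain ⟨M, hM⟩ := hc.isCompact.isBounded.subset_closedBall x
  have hB0 : 0 ≤ B := (norm_nonneg _).trans (hB 0)
  set φ : ℝ → ℝ := (Icc 0 M).indicator (fun r => B * (r⁻¹) ^ k) with hφ
  have h1 : Integrable (fun z : E => φ ‖z‖) := by
    rw [integrable_fun_norm_addHaar]
    have h2 : IntegrableOn (fun r : ℝ => (Icc 0 M).indicator (fun r => B * r ^ (3 - k)) r)
        (Ioi 0) := by
      apply Integrable.integrableOn
      rw [integrable_indicator_iff measurableSet_Icc]
      exact ContinuousOn.integrableOn_compact isCompact_Icc (by fun_prop)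
    refine h2.congr_fun (fun r hr => ?_) measurableSet_Ioi
    have hr0 : (0 : ℝ) < r := hr
    have h3 : Module.finrank ℝ E - 1 = 3 := by simp
    simp only [h3, smul_eq_mul, hφ]
    by_cases hr1 : r ∈ Icc 0 M
    · rw [indicator_of_mem hr1, indicator_of_mem hr1]
      have h4 : r ^ 3 = r ^ (3 - k) * r ^ k := by
        rw [← pow_add]; congr 1; omega
      rw [h4]
      have h5 : r ^ k * (r⁻¹) ^ k = 1 := by
        rw [← mul_pow, mul_inv_cancel₀ hr0.ne', one_pow]
      calc B * r ^ (3 - k) = B * r ^ (3 - k) * (r ^ k * (r⁻¹) ^ k) := by rw [h5, mul_one]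
        _ = r ^ (3 - k) * r ^ k * (B * r⁻¹ ^ k) := by ring
    · rw [indicator_of_notMem hr1, indicator_of_notMem hr1, mul_zero]
  have h2 : Integrable (fun y : E => φ ‖x - y‖) := h1.comp_sub_left x
  refine h2.mono' ?_ (Eventually.of_forall fun y => ?_)
  · refine (hf.measurable.mul ?_).aestronglyMeasurable
    fun_prop
  · by_cases hy : ‖x - y‖ ∈ Icc 0 M
    · simp only [hφ]
      rw [indicator_of_mem hy, norm_mul]
      gcongr
      · exact hB y
      · rw [Real.norm_of_nonneg (by positivity)]
    · have h3 : f y = 0 := by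
        by_contra h
        have h4 := hM (subset_tsupport f h)
        rw [Metric.mem_closedBall, dist_comm, dist_eq_norm] at h4
        exact hy ⟨norm_nonneg _, h4⟩
      rw [h3, zero_mul, norm_zero]
      simp only [hφ]
      rw [indicator_of_notMem hy]

private lemma cont_ker {f : E → ℝ} (hf : Continuous f) (hc : HasCompactSupport f) (x : E) :
    Continuous fun t => ∫ y, f y * Kc t (x - y) := by
  refine continuous_of_dominated (bound := fun y => ‖f y * (‖x - y‖⁻¹) ^ 1‖ * (4 * Real.pi))
    ?_ ?_ ?_ ?_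
  · intro t
    exact (hf.measurable.mul (Kc_meas1 t x)).aestronglyMeasurable
  · intro t
    refine Eventually.of_forall fun y => ?_
    rw [norm_mul, norm_mul, Real.norm_of_nonneg (Kc_nonneg t (x - y)), mul_assoc,
      Real.norm_of_nonneg (by positivity : 0 ≤ (‖x - y‖⁻¹) ^ 1)]
    gcongr
    rw [mul_comm]
    exact Kc_le t (x - y)
  · exact (int_pow hf hc x 1 (by norm_num)).norm.mul_const _
  · exact Eventually.of_forall fun y => (Kc_cont (x - y)).const_mul _

private lemma ker_test (hSL1 : St_SL1) {f : E → ℝ} (hf : Continuous f) (hc : HasCompactSupport f)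
    (x : E) {g : ℝ → ℝ} (hg : Continuous g) (hgc : HasCompactSupport g) :
    ∫ t, g t * ∫ y, f y * Kc t (x - y) = ∫ y, f y * ∫ w : S, g (inner ℝ (x - y) (w : E)) ∂sg := by
  have hint : Integrable (fun q : ℝ × E => g q.1 * (f q.2 * Kc q.1 (x - q.2)))
      ((volume : Measure ℝ).prod (volume : Measure E)) := by
    have h1 : Integrable (fun q : ℝ × E => g q.1 * (f q.2 * (‖x - q.2‖⁻¹) ^ 1))
        ((volume : Measure ℝ).prod (volume : Measure E)) :=
      (hg.integrable_of_hasCompactSupport hgc).mul_prod (int_pow hf hc x 1 (by norm_num))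
    refine (h1.norm.mul_const (4 * Real.pi)).mono' ?_ (Eventually.of_forall fun q => ?_)
    · refine Measurable.aestronglyMeasurable ?_
      exact (hg.measurable.comp measurable_fst).mul
        ((hf.measurable.comp measurable_snd).mul (Kc_meas2 x))
    · simp only [norm_mul]
      rw [Real.norm_of_nonneg (Kc_nonneg q.1 (x - q.2)), mul_assoc, mul_assoc,
        Real.norm_of_nonneg (by positivity : 0 ≤ (‖x - q.2‖⁻¹) ^ 1)]
      gcongr
      rw [mul_comm]
      exact Kc_le q.1 (x - q.2)
  have h1 : ∫ t, g t * ∫ y, f y * Kc t (x - y) = ∫ t, ∫ y, g t * (f y * Kc t (x - y)) := by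
    refine integral_congr_ae (Eventually.of_forall fun t => ?_)
    simp only [integral_const_mul]
  rw [h1, integral_integral_swap hint]
  have h2 : ∀ᵐ y : E, y ≠ x := by
    rw [ae_iff]
    simp
  refine integral_congr_ae (h2.mono fun y hy => ?_)
  simp only
  have h3 : x - y ≠ 0 := sub_ne_zero.2 (Ne.symm hy)
  rw [zonal hSL1 h3 hg, ← integral_const_mul]
  refine integral_congr_ae (Eventually.of_forall fun t => ?_)
  simp only
  ring

private lemma rad_test (hRadT : St_RadT) {f : E → ℝ} (hf : IsTest f)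
    (x : E) {g : ℝ → ℝ} (hg : Continuous g) (hgc : HasCompactSupport g) :
    ∫ t, g t * ∫ w : S, Rad f (w, inner ℝ x (w : E) - t) ∂sg =
      ∫ y, f y * ∫ w : S, g (inner ℝ (x - y) (w : E)) ∂sg := by
  obtain ⟨hcR, -, -, -, hR⟩ := hRadT f hf
  have h1 : ∫ t, g t * ∫ w : S, Rad f (w, inner ℝ x (w : E) - t) ∂sg =
      ∫ t, ∫ w : S, g t * Rad f (w, inner ℝ x (w : E) - t) ∂sg := by
    refine integral_congr_ae (Eventually.of_forall fun t => ?_)
    simp only [integral_const_mul]
  have hi1 : Integrable (fun q : ℝ × S => g q.1 * Rad f (q.2, inner ℝ x (q.2 : E) - q.1))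
      ((volume : Measure ℝ).prod sg) := by
    refine Continuous.integrable_of_hasCompactSupport ?_ ?_
    · exact (hg.comp continuous_fst).mul (hcR.comp (by fun_prop))
    · refine HasCompactSupport.intro (hgc.isCompact.prod isCompact_univ) fun q hq => ?_
      have : q.1 ∉ tsupport g := fun h => hq ⟨h, mem_univ _⟩
      rw [image_eq_zero_of_notMem_tsupport this, zero_mul]
  rw [h1, integral_integral_swap hi1]
  have h2 : ∀ w : S, ∫ t, g t * Rad f (w, inner ℝ x (w : E) - t) =
      ∫ y, f y * g (inner ℝ (x - y) (w : E)) := by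
    intro w
    have h3 := integral_sub_left_eq_self
      (fun t : ℝ => g t * Rad f (w, inner ℝ x (w : E) - t)) volume (inner ℝ x (w : E))
    rw [← h3]
    simp only [sub_sub_cancel]
    have h4 := hR w (fun p => g (inner ℝ x (w : E) - p)) (by fun_prop)
    simp only [inner_sub_left]
    rw [← h4]
    refine integral_congr_ae (Eventually.of_forall fun t => ?_)
    simp only
    ring
  have hi2 : Integrable (fun q : S × E => f q.2 * g (inner ℝ (x - q.2) (q.1 : E)))
      (sg.prod (volume : Measure E)) := by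
    refine Continuous.integrable_of_hasCompactSupport ?_ ?_
    · exact (hf.1.continuous.comp continuous_snd).mul (hg.comp (by fun_prop))
    · refine HasCompactSupport.intro (isCompact_univ.prod hf.2.isCompact) fun q hq => ?_
      have : q.2 ∉ tsupport f := fun h => hq ⟨mem_univ _, h⟩
      rw [image_eq_zero_of_notMem_tsupport this, zero_mul]
  rw [integral_congr_ae (Eventually.of_forall h2), integral_integral_swap hi2]
  refine integral_congr_ae (Eventually.of_forall fun y => ?_)
  simp only [integral_const_mul]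

end Pool.Agent.QWF.Sphx

namespace Pool.Agent.QWF

open Sphx in
/-- **Sph** (dual transform of the shifted Radon transform). -/
theorem thm_Sph (hRadT : St_RadT) (hSL1 : St_SL1) : St_Sph := by
  intro f hf t x
  obtain ⟨hcR, -⟩ := hRadT f hf
  have hA : Continuous fun t => ∫ w : S, Rad f (w, inner ℝ x (w : E) - t) ∂sg := by
    have h1 : Continuous (Function.uncurry fun (t : ℝ) (w : S) =>
        Rad f (w, inner ℝ x (w : E) - t)) := hcR.comp (by fun_prop)
    have h2 := continuous_parametric_integral_of_continuous (μ := sg) h1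
      (isCompact_univ : IsCompact (univ : Set S))
    simpa only [Measure.restrict_univ] using h2
  have hB := cont_ker hf.1.continuous hf.2 x
  have h1 : ∀ᵐ t : ℝ, ∫ w : S, Rad f (w, inner ℝ x (w : E) - t) ∂sg =
      ∫ y, f y * Kc t (x - y) := by
    refine ae_eq_of_integral_contDiff_smul_eq hA.locallyIntegrable hB.locallyIntegrable
      fun g hg hgc => ?_
    simp only [smul_eq_mul]
    rw [rad_test hRadT hf x hg.continuous hgc, ker_test hSL1 hf.1.continuous hf.2 x hg.continuous hgc]
  exact congrFun ((Continuous.ae_eq_iff_eq volume hA hB).1 h1) t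

end Pool.Agent.QWF
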