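import Pool.Agent.QWF.StA2

set_option autoImplicit false

/-!
# QWF, module StrP: the Strichartz estimate for all states
-/

open MeasureTheory Filter Topology Set
open scoped ENNReal NNReal RealInnerProductSpace

namespace Pool.Agent.QWF

namespace StrPx

/-- Fatou's argument for the space time norm, in the abstract. -/
theorem fatou_step (G : K → ℝ≥0∞) (hG : LowerSemicontinuous G) (hT : ∀ k : K, Continuous fun t => tau t k)
    (q : ℝ) (hq : 0 < q) (C : ℝ≥0∞) (hC : C ≠ ⊤) (k : K) (kn : ℕ → K) (hk : Tendsto kn atTop (𝓝 k))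
    (hb : ∀ n, ∫⁻ t, G (tau t (kn n)) ^ q ≤ (C * ‖kn n‖ₑ) ^ q) :
    ∫⁻ t, G (tau t k) ^ q ≤ (C * ‖k‖ₑ) ^ q := by
  have hmeas : ∀ n, Measurable fun t : ℝ => G (tau t (kn n)) ^ q := by
    intro n
    have h1 : LowerSemicontinuous fun t : ℝ => G (tau t (kn n)) := hG.comp (hT (kn n))
    exact h1.measurable.pow_const q
  have hpt : ∀ t : ℝ, G (tau t k) ^ q ≤ liminf (fun n => G (tau t (kn n)) ^ q) atTop := by
    intro t
    have h1 : Tendsto (fun n => tau t (kn n)) atTop (𝓝 (tau t k)) :=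
      ((tau t).continuous.tendsto k).comp hk
    have h2 : G (tau t k) ≤ liminf (fun n => G (tau t (kn n))) atTop :=
      (hG.le_liminf (tau t k)).trans (by
        have := h1
        rw [liminf_eq, liminf_eq]
        refine sSup_le_sSup ?_
        intro a ha
        exact this.eventually ha)
    calc G (tau t k) ^ q ≤ (liminf (fun n => G (tau t (kn n))) atTop) ^ q :=
          ENNReal.rpow_le_rpow h2 hq.le
      _ = liminf (fun n => G (tau t (kn n)) ^ q) atTop := by
          have hmono : Monotone fun x : ℝ≥0∞ => x ^ q := ENNReal.monotone_rpow_of_nonneg hq.le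
          exact hmono.map_liminf_of_continuousAt _ (ENNReal.continuous_rpow_const.continuousAt)
  have hR : Tendsto (fun n => (C * ‖kn n‖ₑ) ^ q) atTop (𝓝 ((C * ‖k‖ₑ) ^ q)) := by
    have h1 : Tendsto (fun n => ‖kn n‖ₑ) atTop (𝓝 ‖k‖ₑ) := (continuous_enorm.tendsto k).comp hk
    have h2 : Tendsto (fun n => C * ‖kn n‖ₑ) atTop (𝓝 (C * ‖k‖ₑ)) :=
      ENNReal.Tendsto.const_mul h1 (Or.inr hC)
    exact (ENNReal.continuous_rpow_const.tendsto _).comp h2
  calc ∫⁻ t, G (tau t k) ^ q ≤ ∫⁻ t, liminf (fun n => G (tau t (kn n)) ^ q) atTop :=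
        lintegral_mono hpt
    _ ≤ liminf (fun n => ∫⁻ t, G (tau t (kn n)) ^ q) atTop := lintegral_liminf_le hmeas
    _ ≤ liminf (fun n => (C * ‖kn n‖ₑ) ^ q) atTop := liminf_le_liminf (Eventually.of_forall hb)
    _ = (C * ‖k‖ₑ) ^ q := hR.liminf_eq

end StrPx

open StrPx in
theorem thm_StrP (hT : St_StrT) (hD : St_DnsP) (hL : St_LscP) (hG : St_Grp1) : St_StrP := by
  intro s q r hs0 hs2 hq hr hqr
  obtain ⟨C, hC, hCb⟩ := hT s q r hs0 hs2 hq hr hqr
  refine ⟨C, hC, fun k => ?_⟩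
  have hs : |s| < 1 / 2 := abs_lt.2 ⟨by linarith, hs2⟩
  have hr5 : 1 ≤ r := by
    have h1 : 0 < 1 / q := by positivity
    have h2 : 4 / r < 1 := by linarith
    rw [div_lt_one hr] at h2
    linarith
  have hp : (1 : ℝ≥0∞) ≤ ENNReal.ofReal r := by
    rw [← ENNReal.ofReal_one]
    exact ENNReal.ofReal_le_ofReal hr5
  have hlsc : LowerSemicontinuous fun k : K => eLpNorm (U s k) (ENNReal.ofReal r) volume := by
    have := (hL s (ENNReal.ofReal r) univ hs hp MeasurableSet.univ).1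
    simpa only [indicator_univ] using this
  have happ : ∀ n : ℕ, ∃ κ : K, ‖k - κ‖ < 1 / ((n : ℝ) + 1) ∧
      ∫⁻ t, eLpNorm (U s (tau t κ)) (ENNReal.ofReal r) volume ^ q ≤ (ENNReal.ofReal C * ‖κ‖ₑ) ^ q := by
    intro n
    obtain ⟨f, g, hf, hg, hfg⟩ := (hD s (by linarith) hs2).2.1 k (1 / ((n : ℝ) + 1)) (by positivity)
    exact ⟨Theta s f g, hfg, hCb f g hf hg⟩
  choose kn hkn hb using happ
  have hk : Tendsto kn atTop (𝓝 k) := by
    rw [tendsto_iff_norm_sub_tendsto_zero]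
    refine squeeze_zero (fun _ => norm_nonneg _) (fun n => ?_) tendsto_one_div_add_atTop_nhds_zero_nat
    rw [norm_sub_rev]
    exact (hkn n).le
  exact fatou_step (fun κ => eLpNorm (U s κ) (ENNReal.ofReal r) volume) hlsc hG.2.2.2.2.2.2.2.1 q
    (by linarith) (ENNReal.ofReal C) ENNReal.ofReal_ne_top k kn hk hb

end Pool.Agent.QWF
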