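import Pool.Agent.QWF.StA2

/-!
# QWF StrT: Strichartz estimate for test states
-/

set_option autoImplicit false

open MeasureTheory Filter Topology Set
open scoped ENNReal NNReal RealInnerProductSpace

namespace Pool.Agent.QWF

namespace StrTx

theorem test_cont {φ : E → ℝ} (h : IsTest φ) : Continuous φ := h.1.continuous

theorem test_memLp {φ : E → ℝ} (h : IsTest φ) (p : ℝ≥0∞) : MemLp φ p volume :=
  h.1.continuous.memLp_of_hasCompactSupport h.2

theorem test_mul {φ : E → ℝ} (h : IsTest φ) (c : ℝ) : IsTest (fun x => c * φ x) :=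
  ⟨contDiff_const.mul h.1, h.2.mul_left⟩

theorem test_zero : IsTest (fun _ : E => (0 : ℝ)) :=
  ⟨contDiff_const, HasCompactSupport.zero⟩

/-- Hölder's inequality. -/
theorem hold {r : ℝ} (hr : 1 < r) {v w : E → ℝ} (hv : MemLp v (ENNReal.ofReal r) volume)
    (hw : MemLp w (ENNReal.ofReal (r / (r - 1))) volume) :
    |∫ x, v x * w x| ≤ (eLpNorm v (ENNReal.ofReal r) volume).toReal *
      (eLpNorm w (ENNReal.ofReal (r / (r - 1))) volume).toReal := by
  have hr0 : 0 < r := by linarith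
  have hr1 : 0 < r - 1 := by linarith
  have hconj : r.HolderConjugate (r / (r - 1)) := Real.HolderConjugate.conjExponent hr
  have hr' : 0 < r / (r - 1) := by positivity
  have h1 : ‖∫ x, v x * w x‖ₑ ≤ eLpNorm v (ENNReal.ofReal r) volume *
      eLpNorm w (ENNReal.ofReal (r / (r - 1))) volume := by
    calc ‖∫ x, v x * w x‖ₑ ≤ ∫⁻ x, ‖v x * w x‖ₑ := enorm_integral_le_lintegral_enorm _
      _ = ∫⁻ x, ((fun x => ‖v x‖ₑ) * fun x => ‖w x‖ₑ) x := by
          apply lintegral_congr
          intro x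
          rw [enorm_mul]
          rfl
      _ ≤ (∫⁻ x, ‖v x‖ₑ ^ r) ^ (1 / r) * (∫⁻ x, ‖w x‖ₑ ^ (r / (r - 1))) ^ (1 / (r / (r - 1))) :=
          ENNReal.lintegral_mul_le_Lp_mul_Lq volume hconj hv.1.enorm hw.1.enorm
      _ = _ := by
          rw [eLpNorm_eq_lintegral_rpow_enorm_toReal (by simpa using hr0) ENNReal.ofReal_ne_top,
            eLpNorm_eq_lintegral_rpow_enorm_toReal (by simpa using hr') ENNReal.ofReal_ne_top,
            ENNReal.toReal_ofReal hr0.le, ENNReal.toReal_ofReal hr'.le]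
  have h2 := ENNReal.toReal_mono (ENNReal.mul_ne_top hv.eLpNorm_ne_top hw.eLpNorm_ne_top) h1
  rwa [ENNReal.toReal_mul, toReal_enorm, Real.norm_eq_abs] at h2

/-- Duality. -/
theorem dual {r : ℝ} (hr : 2 < r) {v : E → ℝ} (hv : IsTest v) {ε : ℝ} (hε : 0 < ε) :
    ∃ φ : E → ℝ, IsTest φ ∧ (eLpNorm φ (ENNReal.ofReal (r / (r - 1))) volume).toReal ≤ 1 ∧
      (eLpNorm v (ENNReal.ofReal r) volume).toReal - ε ≤ ∫ x, v x * φ x := by
  have hr0 : 0 < r := by linarith
  have hr1 : 0 < r - 1 := by linarith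
  have hr' : 0 < r / (r - 1) := by positivity
  have hr'1 : 1 ≤ r / (r - 1) := by rw [le_div_iff₀ hr1]; linarith
  obtain ⟨A, hA⟩ : ∃ A : ℝ, A = (eLpNorm v (ENNReal.ofReal r) volume).toReal := ⟨_, rfl⟩
  rw [← hA]
  have hA0 : 0 ≤ A := by rw [hA]; exact ENNReal.toReal_nonneg
  rcases hA0.eq_or_lt with h0 | hApos
  · refine ⟨fun _ => 0, test_zero, ?_, ?_⟩
    · have : (fun _ : E => (0 : ℝ)) = 0 := rfl
      rw [this, eLpNorm_zero]
      simp
    · simp only [mul_zero, integral_zero]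
      linarith
  -- the extremal function
  have hvc := test_cont hv
  obtain ⟨ψ, hψ⟩ : ∃ ψ : E → ℝ, ψ = fun x => A ^ (1 - r) * (|v x| ^ (r - 2) * v x) := ⟨_, rfl⟩
  have hψc : Continuous ψ := by
    rw [hψ]
    refine continuous_const.mul (Continuous.mul ?_ hvc)
    exact (hvc.abs).rpow_const fun x => Or.inr (by linarith)
  have hψs : HasCompactSupport ψ := by
    rw [hψ]
    exact (hv.2.mul_left).mul_left
  have hψm : ∀ p, MemLp ψ p volume := fun p => hψc.memLp_of_hasCompactSupport hψs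
  have hvr : ∫ x, |v x| ^ r = A ^ r := by
    rw [hA]
    have h1 := MemLp.eLpNorm_eq_integral_rpow_norm (p := ENNReal.ofReal r) (f := v)
      (by simpa using hr0) ENNReal.ofReal_ne_top (test_memLp hv _)
    rw [ENNReal.toReal_ofReal hr0.le] at h1
    rw [h1, ENNReal.toReal_ofReal (by positivity), ← Real.rpow_mul (by positivity),
      inv_mul_cancel₀ hr0.ne', Real.rpow_one]
    simp only [Real.norm_eq_abs]
  have hvψ : ∫ x, v x * ψ x = A := by
    have h1 : (fun x => v x * ψ x) = fun x => A ^ (1 - r) * |v x| ^ r := by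
      ext x
      rw [hψ]
      dsimp only
      have h2 : |v x| ^ r = |v x| ^ (r - 2) * (v x * v x) := by
        rcases eq_or_ne (v x) 0 with h3 | h3
        · rw [h3, abs_zero, Real.zero_rpow hr0.ne']
          ring
        · have h4 : 0 < |v x| := abs_pos.2 h3
          have h5 : v x * v x = |v x| ^ (2 : ℝ) := by
            rw [Real.rpow_two, sq_abs, sq]
          rw [h5, ← Real.rpow_add h4]
          congr 1
          ring
      rw [h2]
      ring
    rw [h1, integral_const_mul, hvr, ← Real.rpow_add hApos]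
    have : 1 - r + r = 1 := by ring
    rw [this, Real.rpow_one]
  have hψn : (eLpNorm ψ (ENNReal.ofReal (r / (r - 1))) volume).toReal ≤ 1 := by
    have h1 := MemLp.eLpNorm_eq_integral_rpow_norm (p := ENNReal.ofReal (r / (r - 1))) (f := ψ)
      (by simpa using hr') ENNReal.ofReal_ne_top (hψm _)
    rw [ENNReal.toReal_ofReal hr'.le] at h1
    rw [h1, ENNReal.toReal_ofReal (by positivity)]
    have h2 : ∀ x, ‖ψ x‖ ^ (r / (r - 1)) = A ^ (-r) * |v x| ^ r := by
      intro x
      rw [hψ]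
      dsimp only
      rw [Real.norm_eq_abs, abs_mul, abs_mul, abs_of_nonneg (by positivity : 0 ≤ A ^ (1 - r)),
        abs_of_nonneg (by positivity : 0 ≤ |v x| ^ (r - 2)),
        Real.mul_rpow (by positivity) (by positivity), ← Real.rpow_mul hA0]
      have h3 : (1 - r) * (r / (r - 1)) = -r := by
        field_simp
        ring
      rw [h3]
      congr 1
      rcases eq_or_ne (v x) 0 with h4 | h4
      · rw [h4, abs_zero, Real.zero_rpow hr0.ne', mul_zero, Real.zero_rpow hr'.ne']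
      · have h5 : 0 < |v x| := abs_pos.2 h4
        have h6 : |v x| ^ (r - 2) * |v x| = |v x| ^ (r - 1) := by
          conv_lhs => rw [← Real.rpow_one (|v x|)]
          rw [← Real.rpow_mul h5.le, ← Real.rpow_add h5]
          congr 1
          ring
        rw [h6, ← Real.rpow_mul h5.le]
        congr 1
        field_simp
    simp only [h2]
    rw [integral_const_mul, hvr, ← Real.rpow_add hApos]
    simp
  -- approximation
  obtain ⟨δ, hδ⟩ : ∃ δ : ℝ, δ = ε / (2 * A) := ⟨_, rfl⟩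
  have hδ0 : 0 < δ := by rw [hδ]; positivity
  have hδA : 2 * A * δ = ε := by rw [hδ]; field_simp
  obtain ⟨φ, hφs, hφc, hφ⟩ := MemLp.exist_eLpNorm_sub_le (p := ENNReal.ofReal (r / (r - 1)))
    ENNReal.ofReal_ne_top (by rw [← ENNReal.ofReal_one]; exact ENNReal.ofReal_le_ofReal hr'1)
    (hψm (ENNReal.ofReal (r / (r - 1)))) hδ0
  have hφt : IsTest φ := ⟨hφc, hφs⟩
  have hφ' : (eLpNorm (ψ - φ) (ENNReal.ofReal (r / (r - 1))) volume).toReal ≤ δ := by
    have := ENNReal.toReal_mono ENNReal.ofReal_ne_top hφ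
    rwa [ENNReal.toReal_ofReal hδ0.le] at this
  have hφn : (eLpNorm φ (ENNReal.ofReal (r / (r - 1))) volume).toReal ≤ 1 + δ := by
    have h1 : eLpNorm φ (ENNReal.ofReal (r / (r - 1))) volume ≤
        eLpNorm ψ (ENNReal.ofReal (r / (r - 1))) volume +
        eLpNorm (ψ - φ) (ENNReal.ofReal (r / (r - 1))) volume := by
      have h2 : φ = ψ - (ψ - φ) := by simp
      conv_lhs => rw [h2]
      exact eLpNorm_sub_le (hψm 1).1 ((hψm 1).1.sub (test_memLp hφt 1).1)
        (by rw [← ENNReal.ofReal_one]; exact ENNReal.ofReal_le_ofReal hr'1)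
    have h3 := ENNReal.toReal_mono (ENNReal.add_ne_top.2 ⟨(hψm _).eLpNorm_ne_top,
      ((hψm _).sub (test_memLp hφt _)).eLpNorm_ne_top⟩) h1
    rw [ENNReal.toReal_add (hψm _).eLpNorm_ne_top
      ((hψm _).sub (test_memLp hφt _)).eLpNorm_ne_top] at h3
    linarith
  refine ⟨fun x => (1 + δ)⁻¹ * φ x, test_mul hφt _, ?_, ?_⟩
  · have h1 : (fun x => (1 + δ)⁻¹ * φ x) = (1 + δ)⁻¹ • φ := by
      ext x
      rfl
    rw [h1, eLpNorm_const_smul, ENNReal.toReal_mul, toReal_enorm, Real.norm_eq_abs,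
      abs_of_nonneg (by positivity)]
    rw [inv_mul_le_iff₀ (by positivity)]
    linarith
  · have h1 : ∫ x, v x * ((1 + δ)⁻¹ * φ x) = (1 + δ)⁻¹ * ∫ x, v x * φ x := by
      rw [← integral_const_mul]
      congr 1
      ext x
      ring
    have h2 : ∫ x, v x * φ x = A - ∫ x, v x * (ψ - φ) x := by
      rw [← hvψ, ← integral_sub]
      · congr 1
        ext x
        rw [Pi.sub_apply]
        ring
      · exact (hvc.mul hψc).integrable_of_hasCompactSupport hv.2.mul_right
      · exact (hvc.mul (hψc.sub hφc.continuous)).integrable_of_hasCompactSupport hv.2.mul_right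
    have h3 := hold (by linarith : 1 < r) (test_memLp hv (ENNReal.ofReal r))
      ((hψm (ENNReal.ofReal (r / (r - 1)))).sub (test_memLp hφt _))
    rw [← hA] at h3
    have h4 : |∫ x, v x * (ψ - φ) x| ≤ A * δ := h3.trans (mul_le_mul_of_nonneg_left hφ' hA0)
    have h5 : A * (1 - δ) ≤ ∫ x, v x * φ x := by
      rw [h2]
      have := (abs_le.1 h4).2
      linarith
    rw [h1]
    have h6 : (1 + δ)⁻¹ * (A * (1 - δ)) ≤ (1 + δ)⁻¹ * ∫ x, v x * φ x :=
      mul_le_mul_of_nonneg_left h5 (by positivity)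
    refine le_trans ?_ h6
    rw [← hδA, le_inv_mul_iff₀ (by positivity)]
    nlinarith [mul_pos hApos hδ0, mul_pos (mul_pos hApos hδ0) hδ0]

/-- The norm of the superposition. -/
theorem core {s q r : ℝ} (h1 : St_Grp1) {C1 : ℝ} {N : ℝ → E → ℝ}
    (hN1 : ∀ t z, z ≠ 0 → |N t z| ≤ C1 * (|t| + ‖z‖) ^ (-1 + 2 * s))
    (hN2 : ∀ (t : ℝ) (φ ψ : E → ℝ), IsTest φ → IsTest ψ →
      inner ℝ (tau t (Rs s φ)) (Rs s ψ) = ∫ x, ∫ y, φ x * ψ y * N t (x - y)) {C2 : ℝ}
    (hK : ∀ F : ℝ → E → ℝ≥0∞, Measurable (Function.uncurry F) →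
      ∫⁻ t, ∫⁻ t', ∫⁻ x, ∫⁻ y, F t x * F t' y * ENNReal.ofReal ((|t - t'| + ‖x - y‖) ^ (-1 + 2 * s)) ≤
      ENNReal.ofReal C2 * (∫⁻ t, (∫⁻ x, F t x ^ (r / (r - 1))) ^ ((r - 1) / r * (q / (q - 1)))) ^
        (2 * (q - 1) / q))
    (ϕ : ℝ → E → ℝ) (hϕ : ∀ t, IsTest (ϕ t)) (hϕm : Measurable (Function.uncurry ϕ))
    (hY : Integrable (fun t => tau (-t) (Rs s (ϕ t)))) :
    ‖∫ t, tau (-t) (Rs s (ϕ t))‖ₑ ^ 2 ≤ ENNReal.ofReal C1 * (ENNReal.ofReal C2 *
      (∫⁻ t, (∫⁻ x, ‖ϕ t x‖ₑ ^ (r / (r - 1))) ^ ((r - 1) / r * (q / (q - 1)))) ^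
        (2 * (q - 1) / q)) := by
  obtain ⟨X, hX⟩ : ∃ X : K, X = ∫ t, tau (-t) (Rs s (ϕ t)) := ⟨_, rfl⟩
  rw [← hX]
  have e1 : ∀ Z : K, inner ℝ X Z = ∫ t, inner ℝ (tau (-t) (Rs s (ϕ t))) Z := by
    intro Z
    rw [hX, real_inner_comm]
    rw [← integral_inner hY Z]
    congr 1
    ext t
    rw [real_inner_comm]
  have e2 : ∀ Z : K, inner ℝ Z X = ∫ t, inner ℝ Z (tau (-t) (Rs s (ϕ t))) := by
    intro Z
    rw [hX, ← integral_inner hY Z]
  have e3 : ‖X‖ₑ ^ 2 = ‖(inner ℝ X X : ℝ)‖ₑ := by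
    rw [real_inner_self_eq_norm_sq, ← enorm_norm X]
    simp
  rw [e3, e1 X]
  have e4 : ∀ t t', inner ℝ (tau (-t) (Rs s (ϕ t))) (tau (-t') (Rs s (ϕ t'))) =
      ∫ x, ∫ y, ϕ t x * ϕ t' y * N (t' - t) (x - y) := by
    intro t t'
    rw [← h1.2.2.2.2.2.1, h1.1, ← sub_eq_add_neg]
    exact hN2 _ _ _ (hϕ t) (hϕ t')
  have e5 : ∀ t t', ‖(inner ℝ (tau (-t) (Rs s (ϕ t))) (tau (-t') (Rs s (ϕ t'))) : ℝ)‖ₑ ≤
      ENNReal.ofReal C1 * ∫⁻ x, ∫⁻ y, ‖ϕ t x‖ₑ * ‖ϕ t' y‖ₑ *
        ENNReal.ofReal ((|t - t'| + ‖x - y‖) ^ (-1 + 2 * s)) := by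
    intro t t'
    rw [e4]
    rw [← lintegral_const_mul' _ _ ENNReal.ofReal_ne_top]
    refine (enorm_integral_le_lintegral_enorm _).trans (lintegral_mono fun x => ?_)
    rw [← lintegral_const_mul' _ _ ENNReal.ofReal_ne_top]
    refine (enorm_integral_le_lintegral_enorm _).trans (lintegral_mono_ae ?_)
    have hne : ∀ᵐ y : E, y ≠ x := by
      rw [ae_iff]
      have : {y : E | ¬ y ≠ x} = {x} := by
        ext y
        simp
      rw [this]
      exact measure_singleton x
    filter_upwards [hne] with y hy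
    have f1 := hN1 (t' - t) (x - y) (sub_ne_zero.2 (Ne.symm hy))
    rw [abs_sub_comm t' t] at f1
    rw [enorm_mul, enorm_mul]
    have f2 : ‖N (t' - t) (x - y)‖ₑ ≤ ENNReal.ofReal C1 *
        ENNReal.ofReal ((|t - t'| + ‖x - y‖) ^ (-1 + 2 * s)) := by
      rw [← ENNReal.ofReal_mul' (by positivity), Real.enorm_eq_ofReal_abs]
      exact ENNReal.ofReal_le_ofReal f1
    calc ‖ϕ t x‖ₑ * ‖ϕ t' y‖ₑ * ‖N (t' - t) (x - y)‖ₑ ≤ ‖ϕ t x‖ₑ * ‖ϕ t' y‖ₑ * (ENNReal.ofReal C1 *
        ENNReal.ofReal ((|t - t'| + ‖x - y‖) ^ (-1 + 2 * s))) := by gcongr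
      _ = _ := by ring
  calc ‖∫ t, (inner ℝ (tau (-t) (Rs s (ϕ t))) X : ℝ)‖ₑ
      ≤ ∫⁻ t, ‖(inner ℝ (tau (-t) (Rs s (ϕ t))) X : ℝ)‖ₑ := enorm_integral_le_lintegral_enorm _
    _ ≤ ∫⁻ t, ∫⁻ t', ENNReal.ofReal C1 * ∫⁻ x, ∫⁻ y, ‖ϕ t x‖ₑ * ‖ϕ t' y‖ₑ *
        ENNReal.ofReal ((|t - t'| + ‖x - y‖) ^ (-1 + 2 * s)) := by
        apply lintegral_mono
        intro t
        dsimp only
        rw [e2]
        exact (enorm_integral_le_lintegral_enorm _).trans (lintegral_mono fun t' => e5 t t')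
    _ = ENNReal.ofReal C1 * ∫⁻ t, ∫⁻ t', ∫⁻ x, ∫⁻ y, ‖ϕ t x‖ₑ * ‖ϕ t' y‖ₑ *
        ENNReal.ofReal ((|t - t'| + ‖x - y‖) ^ (-1 + 2 * s)) := by
        rw [← lintegral_const_mul' _ _ ENNReal.ofReal_ne_top]
        apply lintegral_congr
        intro t
        rw [← lintegral_const_mul' _ _ ENNReal.ofReal_ne_top]
    _ ≤ _ := by
        gcongr
        exact hK (fun t x => ‖ϕ t x‖ₑ) hϕm.enorm

theorem Rs_smul {s : ℝ} (hU : ∀ k : K, IsU s k (U s k)) (c : ℝ) {φ : E → ℝ} (hφ : IsTest φ) :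
    Rs s (fun x => c * φ x) = c • Rs s φ := by
  refine ext_inner_left ℝ fun k => ?_
  rw [inner_smul_right, ← (hU k).2 _ (test_mul hφ c), ← (hU k).2 _ hφ, ← integral_const_mul]
  congr 1
  ext x
  ring

theorem floor_meas (h : ℝ) : Measurable fun t : ℝ => ⌊t / h⌋ :=
  Int.measurable_floor.comp (measurable_id.div_const h)

theorem Z_meas (h1 : St_Grp1) (h : ℝ) (z : ℤ → K) :
    AEStronglyMeasurable (fun t : ℝ => tau (-t) (z ⌊t / h⌋)) volume := by
  have hcont : ∀ κ : K, Continuous fun t : ℝ => tau (-t) κ := fun κ =>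
    (h1.2.2.2.2.2.2.2.1 κ).comp continuous_neg
  have hun : (⋃ j : ℤ, {t : ℝ | ⌊t / h⌋ = j}) = univ := by
    ext t
    simp
  rw [← Measure.restrict_univ (μ := (volume : Measure ℝ)), ← hun, aestronglyMeasurable_iUnion_iff]
  intro j
  have hms : MeasurableSet {t : ℝ | ⌊t / h⌋ = j} := floor_meas h (measurableSet_singleton j)
  refine ((hcont (z j)).aestronglyMeasurable.restrict (s := {t : ℝ | ⌊t / h⌋ = j})).congr ?_
  filter_upwards [ae_restrict_mem hms] with t ht
  rw [show ⌊t / h⌋ = j from ht]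

/-- The estimate on a bounded interval, with a loss `ε`. -/
theorem eps_bound {s q r : ℝ} (h1 : St_Grp1) {C1 : ℝ} (hC1 : 0 < C1)
    {N : ℝ → E → ℝ}
    (hN1 : ∀ t z, z ≠ 0 → |N t z| ≤ C1 * (|t| + ‖z‖) ^ (-1 + 2 * s))
    (hN2 : ∀ (t : ℝ) (φ ψ : E → ℝ), IsTest φ → IsTest ψ →
      inner ℝ (tau t (Rs s φ)) (Rs s ψ) = ∫ x, ∫ y, φ x * ψ y * N t (x - y)) {C2 : ℝ} (hC2 : 0 < C2)
    (hK : ∀ F : ℝ → E → ℝ≥0∞, Measurable (Function.uncurry F) →
      ∫⁻ t, ∫⁻ t', ∫⁻ x, ∫⁻ y, F t x * F t' y * ENNReal.ofReal ((|t - t'| + ‖x - y‖) ^ (-1 + 2 * s)) ≤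
      ENNReal.ofReal C2 * (∫⁻ t, (∫⁻ x, F t x ^ (r / (r - 1))) ^ ((r - 1) / r * (q / (q - 1)))) ^
        (2 * (q - 1) / q))
    (hr : 2 < r) (hq : 2 < q) (hUs : ∀ k : K, IsU s k (U s k)) (k κ : K) (u : ℝ → E → ℝ)
    (hu : ∀ t, IsTest (u t)) (huk : ∀ t, U s (tau t k) =ᵐ[volume] u t) {C3 : ℝ} (_hC3 : 0 < C3)
    (hcont : ∀ t t', (eLpNorm (fun x => u t x - u t' x) (ENNReal.ofReal r) volume).toReal ≤
      C3 * ‖tau t κ - tau t' κ‖)
    (ha : Continuous fun t => (eLpNorm (u t) (ENNReal.ofReal r) volume).toReal) (T : ℝ) {ε : ℝ}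
    (hε : 0 < ε) :
    ∫ t in Icc (-T) T, (eLpNorm (u t) (ENNReal.ofReal r) volume).toReal ^ q ≤
      ‖k‖ * (√(C1 * C2) * (∫ t in Icc (-T) T,
        (eLpNorm (u t) (ENNReal.ofReal r) volume).toReal ^ q) ^ ((q - 1) / q)) +
      3 * ε * ∫ t in Icc (-T) T, (eLpNorm (u t) (ENNReal.ofReal r) volume).toReal ^ (q - 1) := by
  have hr0 : 0 < r := by linarith
  have hr1 : 0 < r - 1 := by linarith
  have hr' : 0 < r / (r - 1) := by positivity
  have hq0 : 0 < q := by linarith
  have hq1 : 0 < q - 1 := by linarith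
  obtain ⟨a, hadef⟩ : ∃ a : ℝ → ℝ, a = fun t => (eLpNorm (u t) (ENNReal.ofReal r) volume).toReal :=
    ⟨_, rfl⟩
  have haval : ∀ t, (eLpNorm (u t) (ENNReal.ofReal r) volume).toReal = a t := fun t => by rw [hadef]
  simp only [haval] at ha ⊢
  have ha0 : ∀ t, 0 ≤ a t := fun t => by rw [hadef]; exact ENNReal.toReal_nonneg
  have hacont : Continuous a := ha
  have haq : Continuous fun t => a t ^ q := hacont.rpow_const fun t => Or.inr hq0.le
  have haq1 : Continuous fun t => a t ^ (q - 1) := hacont.rpow_const fun t => Or.inr hq1.le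
  -- the mesh
  obtain ⟨h, hh0, hh⟩ : ∃ h : ℝ, 0 < h ∧ ∀ t t', |t - t'| ≤ h → C3 * ‖tau t κ - tau t' κ‖ ≤ ε := by
    have e1 : Continuous fun t => C3 * ‖tau t κ - κ‖ :=
      continuous_const.mul ((h1.2.2.2.2.2.2.2.1 κ).sub continuous_const).norm
    have e2 : Tendsto (fun t => C3 * ‖tau t κ - κ‖) (𝓝 0) (𝓝 0) := by
      have := e1.tendsto 0
      rwa [h1.2.1, sub_self, norm_zero, mul_zero] at this
    obtain ⟨δ, hδ0, hδ⟩ := Metric.tendsto_nhds_nhds.1 e2 ε hε
    refine ⟨δ / 2, by positivity, fun t t' htt => ?_⟩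
    have e3 : ‖tau t κ - tau t' κ‖ = ‖tau (t - t') κ - κ‖ := by
      have e4 : tau t κ = tau t' (tau (t - t') κ) := by
        rw [h1.1]
        congr 2
        ring
      rw [e4, ← map_sub, LinearIsometry.norm_map]
    rw [e3]
    have e5 := hδ (x := t - t') (by rw [dist_zero_right, Real.norm_eq_abs]; linarith)
    rw [dist_zero_right, Real.norm_eq_abs] at e5
    exact ((le_abs_self _).trans_lt e5).le
  choose φ hφt hφn hφd using fun j : ℤ => dual hr (hu (h * j)) hε
  obtain ⟨β, hβ⟩ : ∃ β : ℝ → ℝ, β = (Icc (-T) T).indicator fun t => a t ^ (q - 1) := ⟨_, rfl⟩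
  have hβm : Measurable β := by
    rw [hβ]
    exact haq1.measurable.indicator measurableSet_Icc
  have hβ0 : ∀ t, 0 ≤ β t := by
    intro t
    rw [hβ]
    exact indicator_nonneg (fun t _ => Real.rpow_nonneg (ha0 t) _) t
  obtain ⟨ϕ, hϕ⟩ : ∃ ϕ : ℝ → E → ℝ, ϕ = fun t x => β t * φ ⌊t / h⌋ x := ⟨_, rfl⟩
  have hϕt : ∀ t, IsTest (ϕ t) := by
    intro t
    rw [hϕ]
    exact test_mul (hφt _) _
  have hϕm : Measurable (Function.uncurry ϕ) := by
    rw [hϕ]
    have e1 : Measurable fun z : ℤ × E => φ z.1 z.2 :=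
      measurable_from_prod_countable_right fun j => (test_cont (hφt j)).measurable
    exact (hβm.comp measurable_fst).mul
      (e1.comp (f := fun z : ℝ × E => ((⌊z.1 / h⌋, z.2) : ℤ × E))
        (((floor_meas h).comp measurable_fst).prodMk measurable_snd))
  have hYe : ∀ t, tau (-t) (Rs s (ϕ t)) = β t • tau (-t) (Rs s (φ ⌊t / h⌋)) := by
    intro t
    rw [hϕ]
    dsimp only
    rw [Rs_smul hUs _ (hφt _), map_smul]
  have hY : Integrable (fun t => tau (-t) (Rs s (ϕ t))) := by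
    simp only [hYe]
    obtain ⟨A, hA⟩ := isCompact_Icc.exists_bound_of_continuousOn
      (s := Icc (-T) T) (f := fun t => a t ^ (q - 1)) haq1.continuousOn
    obtain ⟨B, hB⟩ : ∃ B : ℝ, B = ∑ j ∈ Finset.Icc ⌊-T / h⌋ ⌊T / h⌋, ‖Rs s (φ j)‖ := ⟨_, rfl⟩
    have hB0 : 0 ≤ B := by rw [hB]; exact Finset.sum_nonneg fun _ _ => norm_nonneg _
    have hbd : Integrable ((Icc (-T) T).indicator fun _ => A * B) volume := by
      rw [integrable_indicator_iff measurableSet_Icc]
      exact integrableOn_const (by simp)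
    refine hbd.mono' (hβm.aestronglyMeasurable.smul (Z_meas h1 h fun j => Rs s (φ j)))
      (Eventually.of_forall fun t => ?_)
    rw [norm_smul, LinearIsometry.norm_map]
    by_cases ht : t ∈ Icc (-T) T
    · rw [indicator_of_mem ht]
      have e1 : ‖β t‖ ≤ A := by
        rw [hβ, indicator_of_mem ht]
        exact hA t ht
      have e2 : ‖Rs s (φ ⌊t / h⌋)‖ ≤ B := by
        rw [hB]
        refine Finset.single_le_sum (f := fun j => ‖Rs s (φ j)‖) (fun _ _ => norm_nonneg _) ?_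
        rw [Finset.mem_Icc]
        exact ⟨Int.floor_le_floor (div_le_div_of_nonneg_right ht.1 hh0.le),
          Int.floor_le_floor (div_le_div_of_nonneg_right ht.2 hh0.le)⟩
      exact mul_le_mul e1 e2 (norm_nonneg _) ((norm_nonneg _).trans e1)
    · rw [indicator_of_notMem ht]
      have e1 : β t = 0 := by rw [hβ, indicator_of_notMem ht]
      rw [e1, norm_zero, zero_mul]
  obtain ⟨X, hX⟩ : ∃ X : K, X = ∫ t, tau (-t) (Rs s (ϕ t)) := ⟨_, rfl⟩
  -- lower bound
  have hlow : (∫ t in Icc (-T) T, a t ^ q) - 3 * ε * ∫ t in Icc (-T) T, a t ^ (q - 1) ≤ inner ℝ k X := by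
    have e1 : inner ℝ k X = ∫ t, inner ℝ k (tau (-t) (Rs s (ϕ t))) := by
      rw [hX, ← integral_inner hY k]
    have e2 : (∫ t in Icc (-T) T, a t ^ q) - 3 * ε * ∫ t in Icc (-T) T, a t ^ (q - 1) =
        ∫ t, (Icc (-T) T).indicator (fun t => a t ^ q - 3 * ε * a t ^ (q - 1)) t := by
      rw [integral_indicator measurableSet_Icc, integral_sub, integral_const_mul]
      · exact haq.continuousOn.integrableOn_compact isCompact_Icc
      · exact (haq1.continuousOn.integrableOn_compact isCompact_Icc).const_mul _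
    rw [e1, e2]
    apply integral_mono
    · rw [integrable_indicator_iff measurableSet_Icc]
      exact (haq.continuousOn.integrableOn_compact isCompact_Icc).sub
        ((haq1.continuousOn.integrableOn_compact isCompact_Icc).const_mul _)
    · exact hY.const_inner k
    · intro t
      dsimp only
      have e3 : inner ℝ k (tau (-t) (Rs s (ϕ t))) = β t * ∫ x, u t x * φ ⌊t / h⌋ x := by
        have f1 := h1.2.2.2.2.2.1 t k (Rs s (ϕ t))
        rw [← f1, ← (hUs (tau t k)).2 _ (hϕt t), ← integral_const_mul]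
        apply integral_congr_ae
        filter_upwards [huk t] with x hx
        rw [hx, hϕ]
        ring
      rw [e3]
      by_cases ht : t ∈ Icc (-T) T
      · rw [indicator_of_mem ht]
        have e4 : β t = a t ^ (q - 1) := by rw [hβ, indicator_of_mem ht]
        obtain ⟨j, hj⟩ : ∃ j : ℤ, j = ⌊t / h⌋ := ⟨_, rfl⟩
        rw [← hj]
        have hjt : |t - h * j| ≤ h := by
          have g1 := Int.floor_le (t / h)
          have g2 := Int.lt_floor_add_one (t / h)
          rw [← hj] at g1 g2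
          rw [le_div_iff₀ hh0] at g1
          rw [div_lt_iff₀ hh0] at g2
          rw [abs_le]
          constructor <;> linarith
        have hc := (hcont t (h * j)).trans (hh _ _ hjt)
        have hdiff : MemLp (fun x => u t x - u (h * j) x) (ENNReal.ofReal r) volume :=
          (test_memLp (hu t) _).sub (test_memLp (hu (h * j)) _)
        have e5 : |∫ x, (u t x - u (h * j) x) * φ j x| ≤ ε := by
          refine (hold (by linarith : 1 < r) hdiff (test_memLp (hφt j) _)).trans ?_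
          calc _ ≤ ε * 1 := mul_le_mul hc (hφn j) ENNReal.toReal_nonneg hε.le
            _ = ε := mul_one _
        have e6 : ∫ x, u t x * φ j x = (∫ x, u (h * j) x * φ j x) +
            ∫ x, (u t x - u (h * j) x) * φ j x := by
          rw [← integral_add]
          · congr 1
            ext x
            ring
          · exact ((test_cont (hu _)).mul (test_cont (hφt j))).integrable_of_hasCompactSupport
              (hφt j).2.mul_left
          · exact (((test_cont (hu _)).sub (test_cont (hu _))).mul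
              (test_cont (hφt j))).integrable_of_hasCompactSupport (hφt j).2.mul_left
        have e7 : a t ≤ a (h * j) + ε := by
          have g1 : eLpNorm (u t) (ENNReal.ofReal r) volume ≤
              eLpNorm (u (h * j)) (ENNReal.ofReal r) volume +
              eLpNorm (fun x => u t x - u (h * j) x) (ENNReal.ofReal r) volume := by
            have g2 : u t = u (h * j) + fun x => u t x - u (h * j) x := by
              ext x
              simp
            conv_lhs => rw [g2]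
            exact eLpNorm_add_le (test_cont (hu _)).aestronglyMeasurable
              ((test_cont (hu _)).sub (test_cont (hu _))).aestronglyMeasurable (by
                rw [← ENNReal.ofReal_one]; exact ENNReal.ofReal_le_ofReal (by linarith))
          have g3 := ENNReal.toReal_mono (ENNReal.add_ne_top.2
            ⟨(test_memLp (hu _) _).eLpNorm_ne_top, hdiff.eLpNorm_ne_top⟩) g1
          rw [ENNReal.toReal_add (test_memLp (hu _) _).eLpNorm_ne_top hdiff.eLpNorm_ne_top,
            haval, haval] at g3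
          linarith
        have e8 := hφd j
        rw [haval] at e8
        have e9 : a t - 3 * ε ≤ ∫ x, u t x * φ j x := by
          have := (abs_le.1 e5).1
          linarith
        have e10 : a t ^ q = a t ^ (q - 1) * a t := by
          rcases (ha0 t).eq_or_lt with g0 | g0
          · rw [← g0, Real.zero_rpow hq0.ne', mul_zero]
          · conv_rhs => rw [← Real.rpow_one (a t)]
            rw [← Real.rpow_mul g0.le, ← Real.rpow_add g0]
            congr 1
            ring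
        rw [e4, e10]
        have e11 := mul_le_mul_of_nonneg_left e9 (Real.rpow_nonneg (ha0 t) (q - 1))
        linarith
      · rw [indicator_of_notMem ht]
        have e4 : β t = 0 := by rw [hβ, indicator_of_notMem ht]
        rw [e4, zero_mul]
  -- upper bound
  obtain ⟨I, hI⟩ : ∃ I : ℝ, I = ∫ t in Icc (-T) T, a t ^ q := ⟨_, rfl⟩
  have hI0 : 0 ≤ I := by
    rw [hI]
    exact integral_nonneg fun t => Real.rpow_nonneg (ha0 t) _
  rw [← hI] at hlow ⊢
  have hup : ‖X‖ ≤ √(C1 * C2) * I ^ ((q - 1) / q) := by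
    have e1 := core h1 hN1 hN2 hK ϕ hϕt hϕm hY
    rw [← hX] at e1
    have e2 : ∫⁻ t, (∫⁻ x, ‖ϕ t x‖ₑ ^ (r / (r - 1))) ^ ((r - 1) / r * (q / (q - 1))) ≤
        ENNReal.ofReal I := by
      rw [hI, ofReal_integral_eq_lintegral_ofReal
        (haq.continuousOn.integrableOn_compact isCompact_Icc)
        (Eventually.of_forall fun t => Real.rpow_nonneg (ha0 t) _),
        ← lintegral_indicator measurableSet_Icc]
      apply lintegral_mono
      intro t
      dsimp only
      have e3 : (∫⁻ x, ‖ϕ t x‖ₑ ^ (r / (r - 1))) ^ ((r - 1) / r) ≤ ENNReal.ofReal (β t) := by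
        have e4 : (∫⁻ x, ‖ϕ t x‖ₑ ^ (r / (r - 1))) ^ ((r - 1) / r) =
            eLpNorm (ϕ t) (ENNReal.ofReal (r / (r - 1))) volume := by
          rw [eLpNorm_eq_lintegral_rpow_enorm_toReal (by simpa using hr') ENNReal.ofReal_ne_top,
            ENNReal.toReal_ofReal hr'.le]
          congr 1
          field_simp
        rw [e4]
        have e5 : ϕ t = β t • φ ⌊t / h⌋ := by
          rw [hϕ]
          ext x
          rfl
        rw [e5, eLpNorm_const_smul, Real.enorm_eq_ofReal (hβ0 t)]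
        have e6 : eLpNorm (φ ⌊t / h⌋) (ENNReal.ofReal (r / (r - 1))) volume ≤ 1 := by
          have := hφn ⌊t / h⌋
          rw [← ENNReal.toReal_one] at this
          exact (ENNReal.toReal_le_toReal (test_memLp (hφt _) _).eLpNorm_ne_top
            ENNReal.one_ne_top).1 this
        calc ENNReal.ofReal (β t) * eLpNorm (φ ⌊t / h⌋) (ENNReal.ofReal (r / (r - 1))) volume ≤
            ENNReal.ofReal (β t) * 1 := by gcongr
          _ = _ := mul_one _
      rw [ENNReal.rpow_mul]
      refine (ENNReal.rpow_le_rpow e3 (by positivity)).trans ?_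
      rw [ENNReal.ofReal_rpow_of_nonneg (hβ0 t) (by positivity)]
      by_cases ht : t ∈ Icc (-T) T
      · rw [indicator_of_mem ht]
        have e4 : β t = a t ^ (q - 1) := by rw [hβ, indicator_of_mem ht]
        rw [e4, ← Real.rpow_mul (ha0 t)]
        apply le_of_eq
        congr 2
        field_simp
      · rw [indicator_of_notMem ht]
        have e4 : β t = 0 := by rw [hβ, indicator_of_notMem ht]
        rw [e4, Real.zero_rpow (by positivity), ENNReal.ofReal_zero]
    have e7 : ‖X‖ₑ ^ 2 ≤ ENNReal.ofReal (C1 * (C2 * I ^ (2 * (q - 1) / q))) := by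
      refine e1.trans ?_
      rw [ENNReal.ofReal_mul hC1.le, ENNReal.ofReal_mul hC2.le,
        ← ENNReal.ofReal_rpow_of_nonneg hI0 (by positivity)]
      gcongr
    have e8 : ‖X‖ ^ 2 ≤ C1 * (C2 * I ^ (2 * (q - 1) / q)) := by
      have g1 : ‖X‖ₑ ^ 2 = ENNReal.ofReal (‖X‖ ^ 2) := by
        rw [ENNReal.ofReal_pow (norm_nonneg _), ofReal_norm]
      rw [g1] at e7
      exact (ENNReal.ofReal_le_ofReal_iff (by positivity)).1 e7
    have e9 : (√(C1 * C2) * I ^ ((q - 1) / q)) ^ 2 = C1 * (C2 * I ^ (2 * (q - 1) / q)) := by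
      rw [mul_pow, Real.sq_sqrt (by positivity), ← Real.rpow_natCast (I ^ ((q - 1) / q)) 2,
        ← Real.rpow_mul hI0]
      have g1 : (q - 1) / q * ((2 : ℕ) : ℝ) = 2 * (q - 1) / q := by
        push_cast
        ring
      rw [g1]
      ring
    rw [← e9] at e8
    exact (pow_le_pow_iff_left₀ (norm_nonneg _) (by positivity) two_ne_zero).1 e8
  have hCS : inner ℝ k X ≤ ‖k‖ * ‖X‖ := real_inner_le_norm k X
  have := mul_le_mul_of_nonneg_left hup (norm_nonneg k)
  linarith

end StrTx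

open StrTx

theorem thm_StrT (h1 : St_Grp1) (hF : St_FldP) (hD : St_DecayP) (hP : St_KerP)
    (hL : St_KerL) : St_StrT := by
  intro s q r hs0 hs2 hq hr hqr
  have hs : |s| < 1 / 2 := by
    rw [abs_of_pos hs0]; exact hs2
  obtain ⟨C1, N, hC1, hNm, hN1, hN2⟩ := hP s hs0 hs2
  obtain ⟨C2, hC2, hK⟩ := hL s q r hs0 hs2 hq hr hqr
  have hq0 : 0 < q := by linarith
  have hq1 : 0 < q - 1 := by linarith
  have hr5 : 4 < r := by
    have e1 : 4 / r < 1 := by
      have := (abs_lt.1 hs).1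
      have e2 : 0 < 1 / q := by positivity
      linarith
    rwa [div_lt_one hr] at e1
  refine ⟨√(C1 * C2), Real.sqrt_pos.2 (by positivity), fun f g hf hg => ?_⟩
  obtain ⟨C0, M0, -, -, hdec⟩ := hD f g hf hg
  choose u v hu hv huv _ _ using hdec
  obtain ⟨Cs, -, hfld, hlin, htest⟩ := hF s hs
  have hUs : ∀ k : K, IsU s k (U s k) := fun k => (hfld k).1
  have huk : ∀ t, U s (tau t (Theta s f g)) =ᵐ[volume] u t := by
    intro t
    rw [huv t s (by linarith) hs2]
    exact (htest (u t) (v t) (hu t) (hv t)).1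
  -- continuity
  obtain ⟨s1, hs1⟩ : ∃ s1 : ℝ, s1 = 1 / 2 - 4 / r := ⟨_, rfl⟩
  have hs1' : |s1| < 1 / 2 := by
    have e1 : 4 / r < 1 := (div_lt_one hr).2 hr5
    have e2 : 0 < 4 / r := by positivity
    rw [hs1, abs_lt]
    constructor <;> linarith
  have hq01 : q0 s1 = ENNReal.ofReal r := by
    unfold q0
    congr 1
    rw [hs1]
    field_simp
    ring
  obtain ⟨C3, hC3, hfld1, hlin1, htest1⟩ := hF s1 hs1'
  obtain ⟨κ, hκ⟩ : ∃ κ : K, κ = Theta s1 f g := ⟨_, rfl⟩
  have hcont' : ∀ t t', eLpNorm (fun x => u t x - u t' x) (ENNReal.ofReal r) volume ≤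
      ENNReal.ofReal (C3 * ‖tau t κ - tau t' κ‖) := by
    intro t t'
    have e1 : U s1 (tau t κ) =ᵐ[volume] u t := by
      rw [hκ, huv t s1 (by have := (abs_lt.1 hs1').1; linarith) (abs_lt.1 hs1').2]
      exact (htest1 (u t) (v t) (hu t) (hv t)).1
    have e2 : U s1 (tau t' κ) =ᵐ[volume] u t' := by
      rw [hκ, huv t' s1 (by have := (abs_lt.1 hs1').1; linarith) (abs_lt.1 hs1').2]
      exact (htest1 (u t') (v t') (hu t') (hv t')).1
    have e3 := (hlin1 (-1) (tau t κ) (tau t' κ)).1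
    have e4 : (fun x => u t x - u t' x) =ᵐ[volume] U s1 (tau t κ + (-1 : ℝ) • tau t' κ) := by
      filter_upwards [e1, e2, e3] with x f1 f2 f3
      rw [f3, f1, f2]
      ring
    rw [eLpNorm_congr_ae e4, ← hq01]
    have e5 := (hfld1 (tau t κ + (-1 : ℝ) • tau t' κ)).2.1
    refine e5.trans (le_of_eq ?_)
    rw [neg_one_smul, ← sub_eq_add_neg, ENNReal.ofReal_mul hC3.le, ofReal_norm]
  have hcont : ∀ t t', (eLpNorm (fun x => u t x - u t' x) (ENNReal.ofReal r) volume).toReal ≤
      C3 * ‖tau t κ - tau t' κ‖ := by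
    intro t t'
    have := ENNReal.toReal_mono ENNReal.ofReal_ne_top (hcont' t t')
    rwa [ENNReal.toReal_ofReal (by positivity)] at this
  have htri : ∀ t t', (eLpNorm (u t) (ENNReal.ofReal r) volume).toReal ≤
      (eLpNorm (u t') (ENNReal.ofReal r) volume).toReal + C3 * ‖tau t κ - tau t' κ‖ := by
    intro t t'
    have g1 : eLpNorm (u t) (ENNReal.ofReal r) volume ≤
        eLpNorm (u t') (ENNReal.ofReal r) volume +
        eLpNorm (fun x => u t x - u t' x) (ENNReal.ofReal r) volume := by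
      have g2 : u t = u t' + fun x => u t x - u t' x := by
        ext x
        simp
      conv_lhs => rw [g2]
      exact eLpNorm_add_le (test_cont (hu _)).aestronglyMeasurable
        ((test_cont (hu _)).sub (test_cont (hu _))).aestronglyMeasurable (by
          rw [← ENNReal.ofReal_one]; exact ENNReal.ofReal_le_ofReal (by linarith))
    have hdiff : MemLp (fun x => u t x - u t' x) (ENNReal.ofReal r) volume :=
      (test_memLp (hu t) _).sub (test_memLp (hu t') _)
    have g3 := ENNReal.toReal_mono (ENNReal.add_ne_top.2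
      ⟨(test_memLp (hu _) _).eLpNorm_ne_top, hdiff.eLpNorm_ne_top⟩) g1
    rw [ENNReal.toReal_add (test_memLp (hu _) _).eLpNorm_ne_top hdiff.eLpNorm_ne_top] at g3
    have g4 := hcont t t'
    linarith
  have ha : Continuous fun t => (eLpNorm (u t) (ENNReal.ofReal r) volume).toReal := by
    rw [continuous_iff_continuousAt]
    intro t0
    have e1 : Tendsto (fun t => C3 * ‖tau t κ - tau t0 κ‖) (𝓝 t0) (𝓝 0) := by
      have e2 : Continuous fun t => C3 * ‖tau t κ - tau t0 κ‖ :=
        continuous_const.mul ((h1.2.2.2.2.2.2.2.1 κ).sub continuous_const).norm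
      have := e2.tendsto t0
      rwa [sub_self, norm_zero, mul_zero] at this
    rw [ContinuousAt, tendsto_iff_dist_tendsto_zero]
    refine squeeze_zero (fun _ => dist_nonneg) (fun t => ?_) e1
    rw [Real.dist_eq, abs_le]
    have f1 := htri t t0
    have f2 := htri t0 t
    rw [norm_sub_rev] at f2
    constructor <;> linarith
  obtain ⟨a, hadef⟩ : ∃ a : ℝ → ℝ, a = fun t => (eLpNorm (u t) (ENNReal.ofReal r) volume).toReal :=
    ⟨_, rfl⟩
  have haval : ∀ t, (eLpNorm (u t) (ENNReal.ofReal r) volume).toReal = a t := fun t => by rw [hadef]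
  have ha0 : ∀ t, 0 ≤ a t := fun t => by rw [hadef]; exact ENNReal.toReal_nonneg
  have hacont : Continuous a := by rw [hadef]; exact ha
  have haq : Continuous fun t => a t ^ q := hacont.rpow_const fun t => Or.inr hq0.le
  -- the bound on bounded intervals
  have hT : ∀ T : ℝ, ∫ t in Icc (-T) T, a t ^ q ≤ (√(C1 * C2) * ‖Theta s f g‖) ^ q := by
    intro T
    obtain ⟨I, hI⟩ : ∃ I : ℝ, I = ∫ t in Icc (-T) T, a t ^ q := ⟨_, rfl⟩
    obtain ⟨J, hJ⟩ : ∃ J : ℝ, J = ∫ t in Icc (-T) T, a t ^ (q - 1) := ⟨_, rfl⟩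
    have hI0 : 0 ≤ I := by
      rw [hI]
      exact integral_nonneg fun t => Real.rpow_nonneg (ha0 t) _
    have hJ0 : 0 ≤ J := by
      rw [hJ]
      exact integral_nonneg fun t => Real.rpow_nonneg (ha0 t) _
    rw [← hI]
    have e1 : I ≤ ‖Theta s f g‖ * (√(C1 * C2) * I ^ ((q - 1) / q)) := by
      apply le_of_forall_pos_le_add
      intro ε hε
      have e2 := eps_bound h1 hC1 hN1 hN2 hC2 hK (by linarith : 2 < r) hq hUs (Theta s f g) κ u hu huk
        hC3 hcont ha T (ε := ε / (3 * (J + 1))) (by positivity)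
      simp only [haval] at e2
      rw [← hI, ← hJ] at e2
      refine e2.trans ?_
      have e3 : 3 * (ε / (3 * (J + 1))) * J ≤ ε := by
        have e4 : 3 * (ε / (3 * (J + 1))) * J = ε * (J / (J + 1)) := by
          field_simp
        rw [e4]
        have e5 : J / (J + 1) ≤ 1 := by
          rw [div_le_one (by linarith)]
          linarith
        calc ε * (J / (J + 1)) ≤ ε * 1 := mul_le_mul_of_nonneg_left e5 hε.le
          _ = ε := mul_one _
      linarith
    rcases hI0.eq_or_lt with h0 | h0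
    · rw [← h0]
      positivity
    · have e6 : I ^ (1 / q) ≤ √(C1 * C2) * ‖Theta s f g‖ := by
        have e7 : I = I ^ (1 / q) * I ^ ((q - 1) / q) := by
          rw [← Real.rpow_add h0]
          have : 1 / q + (q - 1) / q = 1 := by
            field_simp
            ring
          rw [this, Real.rpow_one]
        have e8 : 0 < I ^ ((q - 1) / q) := by positivity
        have e9 : I ^ (1 / q) * I ^ ((q - 1) / q) ≤
            (√(C1 * C2) * ‖Theta s f g‖) * I ^ ((q - 1) / q) := by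
          rw [← e7]
          linarith
        exact le_of_mul_le_mul_right e9 e8
      calc I = (I ^ (1 / q)) ^ q := by
            rw [← Real.rpow_mul hI0, one_div_mul_cancel hq0.ne', Real.rpow_one]
        _ ≤ _ := Real.rpow_le_rpow (by positivity) e6 hq0.le
  -- the conclusion
  have hfun : ∀ t, eLpNorm (U s (tau t (Theta s f g))) (ENNReal.ofReal r) volume ^ q =
      ENNReal.ofReal (a t ^ q) := by
    intro t
    rw [eLpNorm_congr_ae (huk t), ← ENNReal.ofReal_rpow_of_nonneg (ha0 t) hq0.le, ← haval,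
      ENNReal.ofReal_toReal (test_memLp (hu t) _).eLpNorm_ne_top]
  simp only [hfun]
  have hcov : AECover volume atTop fun n : ℕ => Icc (-(n : ℝ)) n :=
    aecover_Icc (tendsto_neg_atTop_atBot.comp tendsto_natCast_atTop_atTop) tendsto_natCast_atTop_atTop
  have hlim := hcov.lintegral_tendsto_of_countably_generated
    (f := fun t => ENNReal.ofReal (a t ^ q)) haq.measurable.ennreal_ofReal.aemeasurable
  refine le_of_tendsto' hlim fun n => ?_
  rw [← ofReal_integral_eq_lintegral_ofReal (haq.continuousOn.integrableOn_compact isCompact_Icc)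
    (Eventually.of_forall fun t => Real.rpow_nonneg (ha0 t) _)]
  have e1 : (ENNReal.ofReal √(C1 * C2) * ‖Theta s f g‖ₑ) ^ q =
      ENNReal.ofReal ((√(C1 * C2) * ‖Theta s f g‖) ^ q) := by
    rw [← ENNReal.ofReal_rpow_of_nonneg (by positivity) hq0.le, ENNReal.ofReal_mul (by positivity),
      ofReal_norm]
  rw [e1]
  exact ENNReal.ofReal_le_ofReal (hT n)

end Pool.Agent.QWF
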