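import Pool.Agent.QWF.StB

set_option autoImplicit false

/-!
# QWF, Sym: symmetries of the nonlinear equation `u_tt - Δu + |u|^b u = 0`
-/

open MeasureTheory Filter Topology Set
open scoped ENNReal NNReal RealInnerProductSpace

namespace Pool.Agent.QWF


namespace Symx

/-- the facts which are used, for a fixed exponent -/
structure Fct (b : ℝ) : Prop where
  b2 : 4 < b
  tot : TS (sig b) univ = ⊤
  intU : ∀ (w : K) (φ : E → ℝ), IsTest φ → ∫ x, U (sig b) w x * φ x = inner ℝ w (Rs (sig b) φ)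
  intV : ∀ (w : K) (φ : E → ℝ), IsTest φ → ∫ x, V (sig b) w x * φ x = inner ℝ w (dRs (sig b) φ)
  shU : ∀ (y : E) (k : K), U (sig b) (sh y k) =ᵐ[volume] fun x => U (sig b) k (x - y)
  shV : ∀ (y : E) (k : K), V (sig b) (sh y k) =ᵐ[volume] fun x => V (sig b) k (x - y)
  dlU : ∀ (a : ℝ) (k : K), U (sig b) (dl a k) =ᵐ[volume]
    fun x => Real.exp (2 / b * a) * U (sig b) k (Real.exp a • x)
  dlV : ∀ (a : ℝ) (k : K), V (sig b) (dl a k) =ᵐ[volume]
    fun x => Real.exp ((1 + 2 / b) * a) * V (sig b) k (Real.exp a • x)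
  revU : ∀ k : K, U (sig b) (rev k) =ᵐ[volume] U (sig b) k
  revV : ∀ k : K, V (sig b) (rev k) =ᵐ[volume] fun x => - V (sig b) k x
  snsh : ∀ (y : E) (k : K), sn b (sh y k) = sn b k
  sndl : ∀ (a : ℝ) (k : K), sn b (dl a k) = ENNReal.ofReal (Real.exp (a / b)) * sn b k
  snrev : ∀ k : K, sn b (rev k) = sn b k

lemma sig_lt {b : ℝ} (hb : 4 < b) : |sig b| < 1 / 2 := by
  have h0 : 0 < 2 / b := by positivity
  have h1 : 2 / b < 1 := by
    rw [div_lt_one (by linarith)]
    linarith
  unfold sig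
  rw [abs_lt]
  constructor <;> linarith

lemma fct (hG1 : St_Grp1) (hG2 : St_Grp2) (hD : St_DnsP) (hF : St_FldP)
    (hA : St_ActP) (hS : St_SnP) {b : ℝ} (hb : 4 < b) : Fct b := by
  have hs := sig_lt hb
  obtain ⟨C, -, hF1, -⟩ := hF (sig b) hs
  obtain ⟨hA1, hA2, -⟩ := hA (sig b) hs
  obtain ⟨-, -, hS1, hS2, -⟩ := hS b hb
  have gsh : ∀ (y : E) (k : K), gr y 0 k = sh y k := by
    intro y k
    change sh y (dl 0 k) = _
    rw [hG2.2.1]
  have gdl : ∀ (a : ℝ) (k : K), gr 0 a k = dl a k := by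
    intro a k
    change sh 0 (dl a k) = _
    rw [hG1.2.2.2.1]
  refine ⟨hb, (hD (sig b) (by linarith [(abs_lt.1 hs).1]) (abs_lt.1 hs).2).1, fun w φ hφ => (hF1 w).1.2 φ hφ, fun w φ hφ => (hF1 w).2.2.1.2 φ hφ,
    ?_, ?_, ?_, ?_, fun k => (hA2 k).1, fun k => (hA2 k).2, ?_, ?_, hS2⟩
  · intro y k
    have h := (hA1 y 0 k).1
    rw [gsh] at h
    simpa only [mul_zero, Real.exp_zero, one_mul, one_smul] using h
  · intro y k
    have h := (hA1 y 0 k).2.1
    rw [gsh] at h
    simpa only [mul_zero, Real.exp_zero, one_mul, one_smul] using h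
  · intro a k
    have h := (hA1 0 a k).1
    rw [gdl] at h
    have e : 1 / 2 - sig b = 2 / b := by
      unfold sig
      ring
    simpa only [sub_zero, e] using h
  · intro a k
    have h := (hA1 0 a k).2.1
    rw [gdl] at h
    have e : 3 / 2 - sig b = 1 + 2 / b := by
      unfold sig
      ring
    simpa only [sub_zero, e] using h
  · intro y k
    have h := hS1 y 0 k
    rw [gsh] at h
    simpa only [zero_div, Real.exp_zero, ENNReal.ofReal_one, one_mul] using h
  · intro a k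
    have h := hS1 0 a k
    rwa [gdl] at h

/-! ### Sources -/

lemma gam_unique {b : ℝ} (hb : Fct b) {F : E → ℝ} {w w' : K} (h : IsGam (sig b) F w)
    (h' : IsGam (sig b) F w') : w = w' := by
  have key : TS (sig b) univ ≤ (Submodule.span ℝ {w - w'})ᗮ := by
    refine Submodule.topologicalClosure_minimal _ (Submodule.span_le.2 ?_)
      (Submodule.isClosed_orthogonal _)
    rintro x ⟨φ, hφ, -, hx⟩
    rw [SetLike.mem_coe, Submodule.mem_orthogonal_singleton_iff_inner_right]
    rcases hx with rfl | rfl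
    · rw [inner_sub_left, (h φ hφ).1, (h' φ hφ).1, sub_zero]
    · rw [inner_sub_left, (h φ hφ).2, (h' φ hφ).2, sub_self]
  have h1 : w - w' ∈ (Submodule.span ℝ {w - w'})ᗮ := key (by rw [hb.tot]; trivial)
  rw [Submodule.mem_orthogonal_singleton_iff_inner_right] at h1
  exact sub_eq_zero.1 (inner_self_eq_zero.1 h1)

lemma gam_spec {s : ℝ} {F : E → ℝ} (h : ∃ w, IsGam s F w) : IsGam s F (Gam s F) := by
  unfold Gam
  rw [dif_pos h]
  exact h.choose_spec

lemma gam_not {s : ℝ} {F : E → ℝ} (h : ¬ ∃ w, IsGam s F w) : Gam s F = 0 := by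
  unfold Gam
  rw [dif_neg h]

lemma gam_map {b : ℝ} (hb : Fct b) {F F' : E → ℝ} (T : K → K) (T0 : T 0 = 0)
    (h1 : ∀ w, IsGam (sig b) F w → IsGam (sig b) F' (T w))
    (h2 : (∃ w, IsGam (sig b) F' w) → ∃ w, IsGam (sig b) F w) :
    Gam (sig b) F' = T (Gam (sig b) F) := by
  by_cases h : ∃ w, IsGam (sig b) F w
  · have h3 := h1 _ (gam_spec h)
    exact gam_unique hb (gam_spec ⟨_, h3⟩) h3
  · rw [gam_not h, gam_not (fun h' => h (h2 h')), T0]

lemma isGam_congr {s : ℝ} {F F' : E → ℝ} (hFF : F =ᵐ[volume] F') {w : K} (h : IsGam s F w) :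
    IsGam s F' w := by
  intro φ hφ
  refine ⟨(h φ hφ).1, (h φ hφ).2.trans (integral_congr_ae ?_)⟩
  filter_upwards [hFF] with x hx
  rw [hx]

lemma gam_congr {b : ℝ} (hb : Fct b) {F F' : E → ℝ} (hFF : F =ᵐ[volume] F') :
    Gam (sig b) F' = Gam (sig b) F :=
  gam_map hb id rfl (fun _ h => isGam_congr hFF h) fun ⟨w, h⟩ => ⟨w, isGam_congr hFF.symm h⟩

lemma isGam_iff {b : ℝ} (hb : Fct b) {F : E → ℝ} {w : K} :
    IsGam (sig b) F w ↔ ∀ φ, IsTest φ → ∫ x, U (sig b) w x * φ x = 0 ∧
      ∫ x, V (sig b) w x * φ x = ∫ x, F x * φ x := by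
  constructor
  · intro h φ hφ
    rw [hb.intU w φ hφ, hb.intV w φ hφ]
    exact h φ hφ
  · intro h φ hφ
    rw [← hb.intU w φ hφ, ← hb.intV w φ hφ]
    exact h φ hφ

lemma test_shift {φ : E → ℝ} (h : IsTest φ) (y : E) : IsTest fun x => φ (x + y) := by
  refine ⟨h.1.comp (contDiff_id.add contDiff_const), ?_⟩
  exact h.2.comp_homeomorph (Homeomorph.addRight y)

lemma test_scale {φ : E → ℝ} (h : IsTest φ) {c : ℝ} (hc : c ≠ 0) : IsTest fun x => φ (c • x) := by
  refine ⟨h.1.comp (contDiff_const_smul c), ?_⟩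
  exact h.2.comp_homeomorph (Homeomorph.smulOfNeZero c hc)

lemma isGam_sh {b : ℝ} (hb : Fct b) (y : E) {F : E → ℝ} {w : K}
    (h : IsGam (sig b) F w) : IsGam (sig b) (fun x => F (x - y)) (sh y w) := by
  rw [isGam_iff hb] at h ⊢
  intro φ hφ
  have h1 := h _ (test_shift hφ y)
  have e1 : ∫ x, U (sig b) (sh y w) x * φ x = ∫ x, U (sig b) w x * φ (x + y) := by
    refine (integral_congr_ae ?_).trans
      (integral_sub_right_eq_self (fun x => U (sig b) w x * φ (x + y)) y)
    filter_upwards [hb.shU y w] with x hx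
    rw [hx, sub_add_cancel]
  have e2 : ∫ x, V (sig b) (sh y w) x * φ x = ∫ x, V (sig b) w x * φ (x + y) := by
    refine (integral_congr_ae ?_).trans
      (integral_sub_right_eq_self (fun x => V (sig b) w x * φ (x + y)) y)
    filter_upwards [hb.shV y w] with x hx
    rw [hx, sub_add_cancel]
  have e3 : ∫ x, F (x - y) * φ x = ∫ x, F x * φ (x + y) := by
    refine (integral_congr_ae (Eventually.of_forall fun x => ?_)).trans
      (integral_sub_right_eq_self (fun x => F x * φ (x + y)) y)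
    simp only [sub_add_cancel]
  rw [e1, e2, e3]
  exact h1

lemma isGam_dl {b : ℝ} (hb : Fct b) (a : ℝ) {F : E → ℝ} {w : K} (h : IsGam (sig b) F w) :
    IsGam (sig b) (fun x => Real.exp ((1 + 2 / b) * a) * F (Real.exp a • x)) (dl a w) := by
  rw [isGam_iff hb] at h ⊢
  intro φ hφ
  have hc : (Real.exp a)⁻¹ ≠ 0 := inv_ne_zero (Real.exp_pos a).ne'
  have h1 := h _ (test_scale hφ hc)
  have hs : ∀ G : E → ℝ, ∫ x, G (Real.exp a • x) * φ x =
      |((Real.exp a) ^ (Module.finrank ℝ E))⁻¹| * ∫ x, G x * φ ((Real.exp a)⁻¹ • x) := by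
    intro G
    have h2 := Measure.integral_comp_smul (volume : Measure E)
      (fun x => G x * φ ((Real.exp a)⁻¹ • x)) (Real.exp a)
    rw [smul_eq_mul] at h2
    rw [← h2]
    refine integral_congr_ae (Eventually.of_forall fun x => ?_)
    simp only
    rw [smul_smul, inv_mul_cancel₀ (Real.exp_pos a).ne', one_smul]
  have e1 : ∫ x, U (sig b) (dl a w) x * φ x =
      Real.exp (2 / b * a) * ∫ x, U (sig b) w (Real.exp a • x) * φ x := by
    rw [← integral_const_mul]
    refine integral_congr_ae ?_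
    filter_upwards [hb.dlU a w] with x hx
    rw [hx, mul_assoc]
  have e2 : ∫ x, V (sig b) (dl a w) x * φ x =
      Real.exp ((1 + 2 / b) * a) * ∫ x, V (sig b) w (Real.exp a • x) * φ x := by
    rw [← integral_const_mul]
    refine integral_congr_ae ?_
    filter_upwards [hb.dlV a w] with x hx
    rw [hx, mul_assoc]
  have e3 : ∫ x, Real.exp ((1 + 2 / b) * a) * F (Real.exp a • x) * φ x =
      Real.exp ((1 + 2 / b) * a) * ∫ x, F (Real.exp a • x) * φ x := by
    rw [← integral_const_mul]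
    refine integral_congr_ae (Eventually.of_forall fun x => ?_)
    simp only
    rw [mul_assoc]
  rw [e1, e2, e3, hs, hs, hs, h1.1, h1.2, mul_zero, mul_zero]
  exact ⟨rfl, rfl⟩

lemma isGam_rev {b : ℝ} (hb : Fct b) {F : E → ℝ} {w : K}
    (h : IsGam (sig b) F w) : IsGam (sig b) (fun x => - F x) (rev w) := by
  rw [isGam_iff hb] at h ⊢
  intro φ hφ
  have e1 : ∫ x, U (sig b) (rev w) x * φ x = ∫ x, U (sig b) w x * φ x := by
    refine integral_congr_ae ?_
    filter_upwards [hb.revU w] with x hx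
    rw [hx]
  have e2 : ∫ x, V (sig b) (rev w) x * φ x = - ∫ x, V (sig b) w x * φ x := by
    rw [← integral_neg]
    refine integral_congr_ae ?_
    filter_upwards [hb.revV w] with x hx
    rw [hx, neg_mul]
  have e3 : ∫ x, - F x * φ x = - ∫ x, F x * φ x := by
    rw [← integral_neg]
    simp only [neg_mul]
  rw [e1, e2, e3, (h φ hφ).1, (h φ hφ).2]
  exact ⟨rfl, rfl⟩

lemma isGam_smul {s : ℝ} (c : ℝ) {F : E → ℝ} {w : K} (h : IsGam s F w) :
    IsGam s (fun x => c * F x) (c • w) := by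
  intro φ hφ
  rw [real_inner_smul_left, real_inner_smul_left, (h φ hφ).1, (h φ hφ).2, mul_zero,
    ← integral_const_mul]
  refine ⟨rfl, ?_⟩
  simp only [mul_assoc]

lemma NL_sh {b : ℝ} (hb : Fct b) (y : E) (k : K) :
    NL b (sh y k) = sh y (NL b k) := by
  have h1 : Gam (sig b) (fun x => Fn b (U (sig b) (sh y k) x)) =
      Gam (sig b) fun x => Fn b (U (sig b) k (x - y)) := by
    refine gam_congr hb ?_
    filter_upwards [hb.shU y k] with x hx
    rw [hx]
  unfold NL
  rw [h1]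
  refine gam_map hb (F := fun x => Fn b (U (sig b) k x)) (fun w => sh y w) (map_zero _)
    (fun w h => isGam_sh hb y h) ?_
  rintro ⟨w, h⟩
  refine ⟨sh (-y) w, ?_⟩
  have h2 := isGam_sh hb (-y) h
  simp only [sub_neg_eq_add, add_sub_cancel_right] at h2
  exact h2

lemma NL_rev {b : ℝ} (hb : Fct b) (k : K) : NL b (rev k) = - rev (NL b k) := by
  have h1 : Gam (sig b) (fun x => Fn b (U (sig b) (rev k) x)) =
      Gam (sig b) fun x => Fn b (U (sig b) k x) := by
    refine gam_congr hb ?_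
    filter_upwards [hb.revU k] with x hx
    rw [hx]
  unfold NL
  rw [h1]
  refine gam_map hb (F := fun x => Fn b (U (sig b) k x)) (fun w => - rev w) (by simp) ?_ (fun h => h)
  intro w h
  have h2 := isGam_smul (-1) (isGam_rev hb h)
  simp only [neg_mul, one_mul, neg_neg, neg_smul, one_smul] at h2
  exact h2

lemma Fn_scale {b : ℝ} (hb : 4 < b) (a u : ℝ) :
    Fn b (Real.exp (2 / b * a) * u) = Real.exp a * (Real.exp ((1 + 2 / b) * a) * Fn b u) := by
  unfold Fn
  rw [abs_mul, abs_of_pos (Real.exp_pos _), Real.mul_rpow (Real.exp_pos _).le (abs_nonneg _),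
    ← Real.exp_mul]
  have e : Real.exp (2 / b * a * b) * Real.exp (2 / b * a) =
      Real.exp a * Real.exp ((1 + 2 / b) * a) := by
    rw [← Real.exp_add, ← Real.exp_add]
    congr 1
    have hb0 : b ≠ 0 := by linarith
    field_simp
    ring
  linear_combination (|u| ^ b * u) * e

lemma NL_dl {b : ℝ} (hb : Fct b) (a : ℝ) (k : K) :
    NL b (dl a k) = Real.exp a • dl a (NL b k) := by
  have h1 : Gam (sig b) (fun x => Fn b (U (sig b) (dl a k) x)) =
      Gam (sig b) fun x => Real.exp a *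
        (Real.exp ((1 + 2 / b) * a) * Fn b (U (sig b) k (Real.exp a • x))) := by
    refine gam_congr hb ?_
    filter_upwards [hb.dlU a k] with x hx
    rw [hx, Fn_scale hb.b2]
  unfold NL
  rw [h1]
  refine gam_map hb (F := fun x => Fn b (U (sig b) k x)) (fun w => Real.exp a • dl a w) (by simp) ?_ ?_
  · intro w h
    exact isGam_smul (Real.exp a) (isGam_dl hb a h)
  · rintro ⟨w, h⟩
    refine ⟨_, isGam_congr (Eventually.of_forall fun x => ?_)
      (isGam_smul (Real.exp (-a)) (isGam_dl hb (-a) h))⟩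
    rw [smul_smul, ← Real.exp_add, add_neg_cancel, Real.exp_zero, one_smul]
    have e1 : Real.exp ((1 + 2 / b) * -a) * Real.exp ((1 + 2 / b) * a) = 1 := by
      rw [← Real.exp_add]
      have : (1 + 2 / b) * -a + (1 + 2 / b) * a = 0 := by ring
      rw [this, Real.exp_zero]
    have e2 : Real.exp (-a) * Real.exp a = 1 := by
      rw [← Real.exp_add, neg_add_cancel, Real.exp_zero]
    calc Real.exp (-a) * (Real.exp ((1 + 2 / b) * -a) *
          (Real.exp a * (Real.exp ((1 + 2 / b) * a) * Fn b (U (sig b) k x))))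
        = (Real.exp (-a) * Real.exp a) * (Real.exp ((1 + 2 / b) * -a) * Real.exp ((1 + 2 / b) * a)) *
          Fn b (U (sig b) k x) := by ring
      _ = Fn b (U (sig b) k x) := by rw [e1, e2, one_mul, one_mul]

/-! ### The Strichartz norm -/

lemma SN_shift (b : ℝ) (k : ℝ → K) (J : Set ℝ) (c : ℝ) :
    SN b {t | t + c ∈ J} (fun t => k (t + c)) = SN b J k := by
  unfold SN
  exact (measurePreserving_add_right volume c).setLIntegral_comp_preimage_emb
    (Homeomorph.addRight c).measurableEmbedding (fun t => sn b (k t) ^ b) J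

lemma SN_rev {b : ℝ} (hb : Fct b) (k : ℝ → K) (J : Set ℝ) :
    SN b {t | -t ∈ J} (fun t => rev (k (-t))) = SN b J k := by
  unfold SN
  simp only [hb.snrev]
  exact (Measure.measurePreserving_neg volume).setLIntegral_comp_preimage_emb
    (Homeomorph.neg ℝ).measurableEmbedding (fun t => sn b (k t) ^ b) J

lemma SN_dl {b : ℝ} (hb : Fct b) (k : ℝ → K) (J : Set ℝ) (a : ℝ) :
    SN b {t | Real.exp a * t ∈ J} (fun t => dl a (k (Real.exp a * t))) = SN b J k := by
  have hb0 : 0 < b := by linarith [hb.b2]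
  unfold SN
  simp only [hb.sndl, ENNReal.mul_rpow_of_nonneg _ _ hb0.le]
  have h1 : ENNReal.ofReal (Real.exp (a / b)) ^ b = ENNReal.ofReal (Real.exp a) := by
    rw [ENNReal.ofReal_rpow_of_pos (Real.exp_pos _), ← Real.exp_mul, div_mul_cancel₀ _ hb0.ne']
  rw [h1, lintegral_const_mul' _ _ ENNReal.ofReal_ne_top]
  have hemb : MeasurableEmbedding (fun t : ℝ => Real.exp a * t) :=
    (Homeomorph.mulLeft₀ (Real.exp a) (Real.exp_pos a).ne').measurableEmbedding
  have h2 : ∫⁻ t in {t | Real.exp a * t ∈ J}, sn b (k (Real.exp a * t)) ^ b =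
      ∫⁻ t in J, sn b (k t) ^ b ∂(Measure.map (fun t : ℝ => Real.exp a * t) volume) := by
    rw [hemb.restrict_map, hemb.lintegral_map]
    rfl
  rw [h2, Real.map_volume_mul_left (Real.exp_pos a).ne', Measure.restrict_smul,
    lintegral_smul_measure, abs_of_pos (inv_pos.2 (Real.exp_pos a)), smul_eq_mul, ← mul_assoc,
    ← ENNReal.ofReal_mul (Real.exp_pos a).le, mul_inv_cancel₀ (Real.exp_pos a).ne',
    ENNReal.ofReal_one, one_mul]

/-! ### Solutions -/

lemma sol_shift {b : ℝ} {I : Set ℝ} {k : ℝ → K} (h : IsSol b I k) (c : ℝ) :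
    IsSol b {t | t + c ∈ I} (fun t => k (t + c)) := by
  refine ⟨?_, ?_, ?_, ?_⟩
  · refine ⟨fun x hx y hy z hz => ?_⟩
    exact h.1.out hx hy ⟨add_le_add_left hz.1 c, add_le_add_left hz.2 c⟩
  · exact h.2.1.comp (by fun_prop) fun t ht => ht
  · intro x hx y hy
    have h1 := h.2.2.1 _ hx _ hy
    rw [← SN_shift b k (Icc (x + c) (y + c)) c] at h1
    have h2 : {t : ℝ | t + c ∈ Icc (x + c) (y + c)} = Icc x y := by
      ext t
      simp
    rw [h2] at h1
    exact h1
  · intro s hs t ht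
    have h1 := h.2.2.2 _ hs _ ht
    have h2 : ∫ r in s..t, tau (t - r) (NL b (k (r + c))) =
        ∫ r in (s + c)..(t + c), tau (t + c - r) (NL b (k r)) := by
      rw [← intervalIntegral.integral_comp_add_right]
      simp only [add_sub_add_right_eq_sub]
    simp only
    rw [h2, h1, add_sub_add_right_eq_sub]

lemma iint_comp (L : K →ₗᵢ[ℝ] K) (f : ℝ → K) (s t : ℝ) :
    L (∫ r in s..t, f r) = ∫ r in s..t, L (f r) := by
  simp only [intervalIntegral, map_sub, LinearIsometry.integral_comp_comm]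

lemma sol_sh (hG1 : St_Grp1) {b : ℝ} (hb : Fct b)
    {I : Set ℝ} {k : ℝ → K} (h : IsSol b I k) (y : E) : IsSol b I (fun t => sh y (k t)) := by
  refine ⟨h.1, ?_, ?_, ?_⟩
  · exact (sh y).continuous.comp_continuousOn h.2.1
  · intro x hx x' hx'
    unfold SN
    simp only [hb.snsh]
    exact h.2.2.1 x hx x' hx'
  · intro s hs t ht
    simp only
    rw [h.2.2.2 s hs t ht, map_sub, iint_comp, hG1.2.2.2.2.1]
    congr 1
    refine intervalIntegral.integral_congr fun r _ => ?_
    rw [NL_sh hb, hG1.2.2.2.2.1]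

lemma sol_dl (hG2 : St_Grp2) {b : ℝ} (hb : Fct b)
    {I : Set ℝ} {k : ℝ → K} (h : IsSol b I k) (a : ℝ) :
    IsSol b {t | Real.exp a * t ∈ I} (fun t => dl a (k (Real.exp a * t))) := by
  have hc := Real.exp_pos a
  refine ⟨?_, ?_, ?_, ?_⟩
  · refine ⟨fun x hx y hy z hz => ?_⟩
    exact h.1.out hx hy ⟨mul_le_mul_of_nonneg_left hz.1 hc.le, mul_le_mul_of_nonneg_left hz.2 hc.le⟩
  · exact (dl a).continuous.comp_continuousOn (h.2.1.comp (by fun_prop) fun t ht => ht)
  · intro x hx y hy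
    have h1 := h.2.2.1 _ hx _ hy
    rw [← SN_dl hb k (Icc (Real.exp a * x) (Real.exp a * y)) a] at h1
    have h2 : {t : ℝ | Real.exp a * t ∈ Icc (Real.exp a * x) (Real.exp a * y)} = Icc x y := by
      ext t
      simp only [mem_ofPred_eq, mem_Icc, mul_le_mul_iff_right₀ hc]
    rw [h2] at h1
    exact h1
  · intro s hs t ht
    have h1 := h.2.2.2 _ hs _ ht
    have h2 : ∫ r in (Real.exp a * s)..(Real.exp a * t), dl a (tau (Real.exp a * t - r) (NL b (k r))) =
        ∫ r in s..t, tau (t - r) (NL b (dl a (k (Real.exp a * r)))) := by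
      have h3 := intervalIntegral.smul_integral_comp_mul_left
        (f := fun r => dl a (tau (Real.exp a * t - r) (NL b (k r)))) (a := s) (b := t) (Real.exp a)
      rw [← h3, ← intervalIntegral.integral_smul]
      refine intervalIntegral.integral_congr fun r _ => ?_
      rw [NL_dl hb, map_smul, hG2.2.2.2.1, mul_sub]
    simp only
    rw [h1, map_sub, iint_comp, h2, hG2.2.2.2.1, mul_sub]

lemma sol_rev (hG2 : St_Grp2) {b : ℝ} (hb : Fct b)
    {I : Set ℝ} {k : ℝ → K} (h : IsSol b I k) :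
    IsSol b {t | -t ∈ I} (fun t => rev (k (-t))) := by
  refine ⟨?_, ?_, ?_, ?_⟩
  · refine ⟨fun x hx y hy z hz => ?_⟩
    exact h.1.out hy hx ⟨neg_le_neg hz.2, neg_le_neg hz.1⟩
  · exact rev.continuous.comp_continuousOn (h.2.1.comp (by fun_prop) fun t ht => ht)
  · intro x hx y hy
    have h1 := h.2.2.1 _ hy _ hx
    rw [← SN_rev hb k (Icc (-y) (-x))] at h1
    have h2 : {t : ℝ | -t ∈ Icc (-y) (-x)} = Icc x y := by
      ext t
      simp only [mem_ofPred_eq, mem_Icc, neg_le_neg_iff]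
      exact and_comm
    rw [h2] at h1
    exact h1
  · intro s hs t ht
    have h1 := h.2.2.2 _ hs _ ht
    have h2 : ∫ r in (-s)..(-t), rev (tau (-t - r) (NL b (k r))) =
        ∫ r in s..t, tau (t - r) (NL b (rev (k (-r)))) := by
      have h3 := intervalIntegral.integral_comp_neg
        (f := fun r => rev (tau (-t - r) (NL b (k r)))) (a := s) (b := t)
      rw [intervalIntegral.integral_symm, ← h3, ← intervalIntegral.integral_neg]
      refine intervalIntegral.integral_congr fun r _ => ?_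
      rw [NL_rev hb, map_neg, hG2.2.2.2.2.2.1]
      congr 3
      ring
    simp only
    rw [h1, map_sub, iint_comp, h2, hG2.2.2.2.2.2.1]
    congr 3
    ring

end Symx

open Symx

theorem thm_Sym (hG1 : St_Grp1) (hG2 : St_Grp2) (hD : St_DnsP)
    (hF : St_FldP) (hA : St_ActP) (hS : St_SnP) : St_Sym := by
  intro b hb2
  have hb := fct hG1 hG2 hD hF hA hS hb2
  refine ⟨hb.snsh, hb.sndl, hb.snrev, NL_sh hb, NL_dl hb, NL_rev hb, ?_, ?_⟩
  · intro I k h
    exact ⟨sol_shift h, sol_sh hG1 hb h, sol_dl hG2 hb h, sol_rev hG2 hb h⟩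
  · intro J k _
    refine ⟨SN_shift b k J, ?_, SN_dl hb k J, SN_rev hb k J⟩
    intro y
    unfold SN
    simp only [hb.snsh]

end Pool.Agent.QWF
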