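import Pool.Agent.QWF.StE

set_option autoImplicit false

/-!
# QWF, UV0: the position cannot vanish on a time interval
-/

open MeasureTheory Filter Topology Set
open scoped ENNReal NNReal RealInnerProductSpace

namespace Pool.Agent.QWF

namespace UV0x

theorem sch {f : E → ℝ} (hf : IsTest f) : IsSch f :=
  ⟨hf.2.toSchwartzMap hf.1, fun _ => rfl⟩

theorem sig_lt {b : ℝ} (hb : 4 < b) : |sig b| < 1 / 2 := by
  have h0 : 0 < b := by linarith
  have h1 : 2 / b < 1 / 2 := by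
    rw [div_lt_iff₀ h0]
    linarith
  have h2 : 0 < 2 / b := by positivity
  rw [sig, abs_lt]
  constructor <;> linarith

/-- a continuous function which vanishes almost everywhere on `[0,1]` vanishes on `[0,1]` -/
theorem zero_of_ae {F : ℝ → ℝ} (hF : Continuous F)
    (h : ∀ᵐ s ∂(volume.restrict (Icc (0 : ℝ) 1)), F s = 0) : ∀ t ∈ Icc (0 : ℝ) 1, F t = 0 := by
  have h1 : (F =ᵐ[volume.restrict (Ioo (0 : ℝ) 1)] fun _ => 0) :=
    ae_restrict_of_ae_restrict_of_subset Ioo_subset_Icc_self h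
  have h2 : EqOn F (fun _ => 0) (Ioo (0 : ℝ) 1) :=
    Measure.eqOn_open_of_ae_eq h1 isOpen_Ioo hF.continuousOn continuousOn_const
  have h3 : EqOn F (fun _ => 0) (closure (Ioo (0 : ℝ) 1)) :=
    h2.closure hF continuous_const
  rw [closure_Ioo (by norm_num)] at h3
  exact h3

/-- a continuous function with zero integrals over `[0,t]`, `t ≤ 1`, vanishes at `0` -/
theorem zero_of_integral {F : ℝ → ℝ} (hF : Continuous F)
    (h : ∀ t ∈ Icc (0 : ℝ) 1, ∫ r in (0 : ℝ)..t, F r = 0) : F 0 = 0 := by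
  have h1 : HasDerivAt (fun t => ∫ r in (0 : ℝ)..t, F r) (F 0) 0 :=
    intervalIntegral.integral_hasDerivAt_right (hF.intervalIntegrable _ _)
      (hF.stronglyMeasurableAtFilter _ _) hF.continuousAt
  have h2 : HasDerivWithinAt (fun t => ∫ r in (0 : ℝ)..t, F r) (F 0) (Icc 0 1) 0 :=
    h1.hasDerivWithinAt
  have h3 : HasDerivWithinAt (fun _ : ℝ => (0 : ℝ)) 0 (Icc (0 : ℝ) 1) 0 :=
    hasDerivWithinAt_const _ _ _
  have h4 : HasDerivWithinAt (fun t => ∫ r in (0 : ℝ)..t, F r) 0 (Icc 0 1) 0 :=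
    h3.congr h (h 0 ⟨le_rfl, by norm_num⟩)
  exact (uniqueDiffOn_Icc (by norm_num) (0 : ℝ) ⟨le_rfl, by norm_num⟩).eq_deriv _ h2 h4

end UV0x

open UV0x in
theorem thm_UV0 (hW : St_WEq) (hF : St_FldP) (hD : St_DnsP) : St_UV0 := by
  intro b hb k hk h0
  have hs := sig_lt hb
  obtain ⟨_, _, hfld, _, _⟩ := hF (sig b) hs
  have hcont : Continuous k := continuousOn_univ.mp hk.2.1
  have hUφ : ∀ (k : K) (φ : E → ℝ), IsSch φ →
      ∫ x, U (sig b) k x * φ x = inner ℝ k (Rs (sig b) φ) :=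
    fun k φ hφ => ((hfld k).2.2.2.2.2 φ hφ).1
  have hVφ : ∀ (k : K) (φ : E → ℝ), IsSch φ →
      ∫ x, V (sig b) k x * φ x = inner ℝ k (dRs (sig b) φ) :=
    fun k φ hφ => ((hfld k).2.2.2.2.2 φ hφ).2
  have key : ∀ φ : E → ℝ, IsTest φ →
      inner ℝ (k 0) (Rs (sig b) φ) = (0 : ℝ) ∧ inner ℝ (k 0) (dRs (sig b) φ) = (0 : ℝ) := by
    intro φ hφ
    have hF1 : Continuous fun s => (inner ℝ (k s) (Rs (sig b) φ) : ℝ) := hcont.inner continuous_const
    have hG : Continuous fun s => (inner ℝ (k s) (dRs (sig b) φ) : ℝ) := hcont.inner continuous_const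
    have h1 : ∀ t ∈ Icc (0 : ℝ) 1, (inner ℝ (k t) (Rs (sig b) φ) : ℝ) = 0 := by
      refine zero_of_ae hF1 ?_
      filter_upwards [h0] with s hs
      rw [← hUφ (k s) φ (sch hφ)]
      have h2 : (fun x => U (sig b) (k s) x * φ x) =ᵐ[volume] fun _ => (0 : ℝ) := by
        filter_upwards [hs] with x hx
        rw [hx, Pi.zero_apply, zero_mul]
      rw [integral_congr_ae h2, integral_zero]
    refine ⟨h1 0 ⟨le_rfl, by norm_num⟩, zero_of_integral hG fun t ht => ?_⟩
    have h3 := (hW b hb univ k hk 0 (mem_univ _) t (mem_univ _) φ hφ).1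
    rw [hUφ _ φ (sch hφ), hUφ _ φ (sch hφ), h1 t ht, h1 0 ⟨le_rfl, by norm_num⟩, sub_zero] at h3
    refine Eq.trans (intervalIntegral.integral_congr fun r _ => ?_) h3.symm
    exact (hVφ (k r) φ (sch hφ)).symm
  have hmem : k 0 ∈ (TS (sig b) univ)ᗮ := by
    rw [TS, Submodule.orthogonal_closure]
    rw [Submodule.mem_orthogonal]
    intro w hw
    refine Submodule.span_induction (p := fun w _ => (inner ℝ w (k 0) : ℝ) = 0) ?_ ?_ ?_ ?_ hw
    · rintro w ⟨φ, hφ, _, rfl | rfl⟩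
      · rw [real_inner_comm]
        exact (key φ hφ).1
      · rw [real_inner_comm]
        exact (key φ hφ).2
    · exact inner_zero_left _
    · intro a a' _ _ ha hb
      rw [inner_add_left, ha, hb, add_zero]
    · intro c a _ ha
      rw [inner_smul_left, ha, mul_zero]
  rw [(hD (sig b) (by linarith [(abs_lt.1 hs).1]) (abs_lt.1 hs).2).1, Submodule.top_orthogonal_eq_bot] at hmem
  exact (Submodule.mem_bot ℝ).mp hmem

end Pool.Agent.QWF
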