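import Pool.Agent.QWF.StB
import Pool.Agent.QWE.WEq

/-!
# QWF WEq: the equation in the sense of distributions
-/

set_option autoImplicit false

open MeasureTheory Filter Topology Set
open scoped ENNReal NNReal RealInnerProductSpace ContDiff

namespace Pool.Agent.QWF

namespace WEqx

lemma sig_lt {b : ℝ} (hb : 4 < b) : |sig b| < 1 / 2 := by
  have h1 : 0 < 2 / b := by positivity
  have h2 : 2 / b < 1 := by rw [div_lt_one (by linarith)]; linarith
  unfold sig
  rw [abs_lt]
  constructor <;> linarith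

lemma one_le_q0 {s : ℝ} (hs : |s| < 1 / 2) : 1 ≤ q0 s := by
  have h1 := abs_lt.1 hs
  unfold q0
  rw [← ENNReal.ofReal_one]
  apply ENNReal.ofReal_le_ofReal
  rw [le_div_iff₀ (by linarith)]
  linarith

lemma one_le_q1 {s : ℝ} (hs : |s| < 1 / 2) : 1 ≤ q1 s := by
  have h1 := abs_lt.1 hs
  unfold q1
  rw [← ENNReal.ofReal_one]
  apply ENNReal.ofReal_le_ofReal
  rw [le_div_iff₀ (by linarith)]
  linarith

/-! ### test functions -/

lemma test_pd {φ : E → ℝ} (h : IsTest φ) (i : Fin 4) : IsTest (pd i φ) := by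
  refine ⟨?_, ?_⟩
  · unfold pd
    exact (h.1.fderiv_right (m := ∞) (by norm_num)).clm_apply contDiff_const
  · unfold pd
    exact h.2.fderiv_apply ℝ _

lemma test_lap {φ : E → ℝ} (h : IsTest φ) : IsTest (lap φ) := by
  refine ⟨?_, ?_⟩
  · unfold lap
    exact ContDiff.sum fun i _ => (test_pd (test_pd h i) i).1
  · have h1 : ∀ x, x ∉ tsupport φ → lap φ x = 0 := by
      intro x hx
      unfold lap
      refine Finset.sum_eq_zero fun i _ => ?_
      have h2 : tsupport (pd i φ) ⊆ tsupport φ := tsupport_fderiv_apply_subset ℝ _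
      have h3 : fderiv ℝ (pd i φ) x = 0 := fderiv_of_notMem_tsupport ℝ fun h => hx (h2 h)
      show fderiv ℝ (pd i φ) x _ = 0
      rw [h3]
      rfl
    exact HasCompactSupport.intro h.2 h1

lemma int_test {f φ : E → ℝ} {p : ℝ≥0∞} (hp : 1 ≤ p) (hf : MemLp f p volume) (h : IsTest φ) :
    Integrable (fun x => f x * φ x) volume := by
  have h1 := (hf.locallyIntegrable hp).integrable_smul_right_of_hasCompactSupport
    h.1.continuous h.2
  exact h1

lemma duh (hGrp : St_Grp1) {k N : ℝ → K} {s t : ℝ} (hst : s ≤ t)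
    (hN : IntegrableOn N (Icc s t) volume)
    (hk : ∀ r ∈ Icc s t, k r = tau (r - s) (k s) - ∫ q in s..r, tau (r - q) (N q))
    (hkc : ContinuousOn k (Icc s t)) {w w' : K}
    (hw : ∀ r, HasDerivAt (fun r => tau (-r) w) (tau (-r) w') r) :
    (inner ℝ (k t) w : ℝ) - inner ℝ (k s) w =
      ∫ r in s..t, ((inner ℝ (k r) w' : ℝ) - inner ℝ (N r) w) := by
  obtain ⟨hadd, h0, _, _, _, _, _, hcont, _⟩ := hGrp
  set M : ℝ → K := fun q => tau (-q) (N q) with hMdef
  set Z : K := tau (-s) (k s) with hZ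
  have hjc : Continuous fun z : ℝ × K => tau (-z.1) z.2 := by
    rw [continuous_iff_continuousAt]
    rintro ⟨a, x⟩
    have h1 : Tendsto (fun z : ℝ × K => tau (-z.1) x) (𝓝 (a, x)) (𝓝 (tau (-a) x)) :=
      ((hcont x).comp (continuous_neg.comp continuous_fst)).tendsto (a, x)
    have h2 : Tendsto (fun z : ℝ × K => tau (-z.1) (z.2 - x)) (𝓝 (a, x)) (𝓝 0) := by
      rw [tendsto_zero_iff_norm_tendsto_zero]
      simp only [LinearIsometry.norm_map]
      have h3 : Continuous fun z : ℝ × K => ‖z.2 - x‖ := by fun_prop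
      have h4 := h3.tendsto (a, x)
      simpa using h4
    have h3 := h1.add h2
    rw [add_zero] at h3
    refine h3.congr fun z => ?_
    rw [← map_add, add_sub_cancel]
  have hMint : IntegrableOn M (Icc s t) volume := by
    have hm1 : AEStronglyMeasurable (fun q : ℝ => (q, N q)) (volume.restrict (Icc s t)) :=
      aestronglyMeasurable_id.prodMk hN.aestronglyMeasurable
    have hm2 : AEStronglyMeasurable (fun q : ℝ => tau (-(q, N q).1) (q, N q).2)
        (volume.restrict (Icc s t)) :=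
      Continuous.comp_aestronglyMeasurable (g := fun z : ℝ × K => tau (-z.1) z.2) hjc hm1
    have hm3 : Integrable M (volume.restrict (Icc s t)) := by
      refine Integrable.mono (hN : Integrable N (volume.restrict (Icc s t))) hm2 ?_
      exact Eventually.of_forall fun q => (LinearIsometry.norm_map (tau (-q)) (N q)).le
    exact hm3
  have hMint' : IntegrableOn M (Ioc s t) volume := hMint.mono_set Ioc_subset_Icc_self
  have hback : ∀ r ∈ Icc s t, tau (-r) (k r) = Z - ∫ q in s..r, M q := by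
    intro r hr
    rw [hk r hr, map_sub, hadd, intervalIntegral.integral_of_le hr.1,
      intervalIntegral.integral_of_le hr.1, ← LinearIsometry.integral_comp_comm]
    congr 1
    · rw [hZ]
      congr 2
      ring
    · refine integral_congr_ae (Eventually.of_forall fun q => ?_)
      show tau (-r) (tau (r - q) (N q)) = tau (-q) (N q)
      rw [hadd]
      congr 2
      ring
  have hC : ∀ r, ‖tau (-r) w'‖ ≤ ‖w‖ + ‖w'‖ := fun r => by
    rw [LinearIsometry.norm_map]
    linarith [norm_nonneg w]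
  have hC' : ∀ r, ‖tau (-r) w‖ ≤ ‖w‖ + ‖w'‖ := fun r => by
    rw [LinearIsometry.norm_map]
    linarith [norm_nonneg w']
  have hψ'c : Continuous fun r => tau (-r) w' := (hcont w').comp continuous_neg
  have hψc : Continuous fun r => tau (-r) w := (hcont w).comp continuous_neg
  have hibp := Pool.Agent.QWE.WEqx.ibp hst hMint' hw hψ'c hC hC'
  have hkw : ∀ r, (inner ℝ (k r) w' : ℝ) = inner ℝ (tau (-r) (k r)) (tau (-r) w') := fun r => by
    rw [LinearIsometry.inner_map_map]
  have hNw : ∀ r, (inner ℝ (N r) w : ℝ) = inner ℝ (M r) (tau (-r) w) := fun r => by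
    rw [hMdef, LinearIsometry.inner_map_map]
  have hi1 : IntervalIntegrable (fun r => (inner ℝ (k r) w' : ℝ)) volume s t := by
    refine ContinuousOn.intervalIntegrable ?_
    rw [uIcc_of_le hst]
    exact hkc.inner continuousOn_const
  have hi2 : IntervalIntegrable (fun r => (inner ℝ (N r) w : ℝ)) volume s t := by
    rw [intervalIntegrable_iff_integrableOn_Icc_of_le hst]
    exact hN.inner_const w
  have hYc : ContinuousOn (fun r => ∫ q in s..r, M q) (Icc s t) := by
    have h1 := intervalIntegral.continuousOn_primitive_interval (μ := volume) (f := M) (a := s)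
      (b := t) (by rw [uIcc_of_le hst]; exact hMint)
    rwa [uIcc_of_le hst] at h1
  have hi3 : IntervalIntegrable (fun r => (inner ℝ (∫ q in s..r, M q) (tau (-r) w') : ℝ))
      volume s t := by
    refine ContinuousOn.intervalIntegrable ?_
    rw [uIcc_of_le hst]
    exact hYc.inner hψ'c.continuousOn
  have hi4 : IntervalIntegrable (fun r => (inner ℝ Z (tau (-r) w') : ℝ)) volume s t :=
    (continuous_const.inner hψ'c).intervalIntegrable _ _
  rw [intervalIntegral.integral_sub hi1 hi2]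
  have e1 : ∫ r in s..t, (inner ℝ (k r) w' : ℝ) =
      ∫ r in s..t, ((inner ℝ Z (tau (-r) w') : ℝ) -
        inner ℝ (∫ q in s..r, M q) (tau (-r) w')) := by
    refine intervalIntegral.integral_congr fun r hr => ?_
    rw [uIcc_of_le hst] at hr
    show (inner ℝ (k r) w' : ℝ) = _
    rw [hkw, hback r hr, inner_sub_left]
  have e2 : ∫ r in s..t, (inner ℝ Z (tau (-r) w') : ℝ) =
      inner ℝ Z (tau (-t) w) - inner ℝ Z (tau (-s) w) := by
    refine intervalIntegral.integral_eq_sub_of_hasDerivAt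
      (f := fun r => inner ℝ Z (tau (-r) w)) ?_ hi4
    intro r _
    exact (innerSL ℝ Z).hasFDerivAt.comp_hasDerivAt r (hw r)
  have e3 : ∫ r in s..t, (inner ℝ (N r) w : ℝ) = ∫ r in s..t, (inner ℝ (M r) (tau (-r) w) : ℝ) :=
    intervalIntegral.integral_congr fun r _ => hNw r
  have e4 : (inner ℝ (k t) w : ℝ) = inner ℝ Z (tau (-t) w) -
      inner ℝ (∫ q in s..t, M q) (tau (-t) w) := by
    rw [← inner_sub_left, ← hback t ⟨hst, le_rfl⟩, LinearIsometry.inner_map_map]
  have e5 : (inner ℝ (k s) w : ℝ) = inner ℝ Z (tau (-s) w) := by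
    rw [hZ, LinearIsometry.inner_map_map]
  rw [e1, intervalIntegral.integral_sub hi4 hi3, e2, hibp, e3, e4, e5]
  ring

/-! ### the nonlinearity along a solution -/

/-- Derivatives of the translates of test states. -/
lemma deriv_test (hDr : St_DrT) {s : ℝ} (hs : |s| < 1 / 2) {φ : E → ℝ} (h : IsTest φ) :
    (∀ r, HasDerivAt (fun r => tau (-r) (Rs s φ)) (tau (-r) (dRs s φ)) r) ∧
    (∀ r, HasDerivAt (fun r => tau (-r) (dRs s φ)) (tau (-r) (Rs s (lap φ))) r) := by
  have h0 := abs_lt.1 hs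
  have hsc : IsSch φ := ⟨h.2.toSchwartzMap h.1, fun _ => rfl⟩
  have hd := hDr s φ (by linarith) h0.2 hsc
  have hn : ∀ r : ℝ, HasDerivAt (fun r : ℝ => -r) (-1) r := fun r => hasDerivAt_neg r
  constructor
  · intro r
    have h1 := (hd (-r)).1.scomp r (hn r)
    refine HasDerivAt.congr_deriv (f := fun r => tau (-r) (Rs s φ)) h1 ?_
    rw [neg_smul, one_smul, neg_neg]
  · intro r
    have h1 := (hd (-r)).2.scomp r (hn r)
    refine HasDerivAt.congr_deriv (f := fun r => tau (-r) (dRs s φ)) h1 ?_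
    rw [neg_smul, one_smul, neg_neg]

lemma NL_int (hNLb : St_NLb) (hMeas : St_Meas) {b : ℝ} (hb : 4 < b) {I : Set ℝ} {k : ℝ → K}
    (hk : IsSol b I k) {x t : ℝ} (hs : x ∈ I) (ht : t ∈ I) :
    (∀ᵐ r ∂(volume.restrict (Icc x t)), sn b (k r) < ⊤) ∧
      IntegrableOn (fun r => NL b (k r)) (Icc x t) volume := by
  obtain ⟨hoc, hcont, hSN, _⟩ := hk
  have hb0 : 0 < b := by linarith
  have hsub : Icc x t ⊆ I := hoc.out hs ht
  have hc : ContinuousOn k (Icc x t) := hcont.mono hsub
  have hkm : AEStronglyMeasurable k (volume.restrict (Icc x t)) :=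
    hc.aestronglyMeasurable measurableSet_Icc
  obtain ⟨hsm, -, h2⟩ := hMeas b hb k (Icc x t) measurableSet_Icc hkm
  have hfin := hSN x hs t ht
  have h3 : ∀ᵐ r ∂(volume.restrict (Icc x t)), sn b (k r) ^ b < ⊤ :=
    ae_lt_top' (hsm.pow_const b) hfin.ne
  have h4 : ∀ᵐ r ∂(volume.restrict (Icc x t)), sn b (k r) < ⊤ := by
    filter_upwards [h3] with r hr
    by_contra hcon
    rw [not_lt, top_le_iff] at hcon
    rw [hcon, ENNReal.top_rpow_of_pos hb0] at hr
    exact lt_irrefl _ hr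
  refine ⟨h4, h2 h4, ?_⟩
  obtain ⟨⟨C, _, hbd, _⟩, _⟩ := hNLb b hb
  obtain ⟨B, hB⟩ := isCompact_Icc.exists_bound_of_continuousOn hc
  have h5 : ∫⁻ r in Icc x t, ‖NL b (k r)‖ₑ ≤
      ∫⁻ r in Icc x t, ENNReal.ofReal C * ENNReal.ofReal B * sn b (k r) ^ b := by
    refine setLIntegral_mono' measurableSet_Icc fun r hr => ?_
    refine (hbd (k r)).trans ?_
    have h6 : ‖k r‖ₑ ≤ ENNReal.ofReal B := by
      rw [← ofReal_norm]
      exact ENNReal.ofReal_le_ofReal (hB r hr)
    calc ENNReal.ofReal C * sn b (k r) ^ b * ‖k r‖ₑ ≤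
        ENNReal.ofReal C * sn b (k r) ^ b * ENNReal.ofReal B := by gcongr
      _ = ENNReal.ofReal C * ENNReal.ofReal B * sn b (k r) ^ b := by ring
  refine lt_of_le_of_lt h5 ?_
  rw [lintegral_const_mul' _ _ (ENNReal.mul_ne_top ENNReal.ofReal_ne_top ENNReal.ofReal_ne_top)]
  exact ENNReal.mul_lt_top (ENNReal.mul_lt_top ENNReal.ofReal_lt_top ENNReal.ofReal_lt_top) hfin

lemma main_le (hGrp : St_Grp1) (hDr : St_DrT) (hFld : St_FldP) (hNLb : St_NLb) (hMeas : St_Meas)
    {b : ℝ} (hb : 4 < b) {I : Set ℝ} {k : ℝ → K} (hk : IsSol b I k)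
    {x t : ℝ} (hs : x ∈ I) (ht : t ∈ I) (hst : x ≤ t) {φ : E → ℝ} (h : IsTest φ) :
    (∫ z, U (sig b) (k t) z * φ z) - (∫ z, U (sig b) (k x) z * φ z) =
      ∫ r in x..t, ∫ z, V (sig b) (k r) z * φ z ∧
    (∫ z, V (sig b) (k t) z * φ z) - (∫ z, V (sig b) (k x) z * φ z) =
      ∫ r in x..t, ∫ z, (U (sig b) (k r) z * lap φ z - Fn b (U (sig b) (k r) z) * φ z) := by
  obtain ⟨haefin, hNint⟩ := NL_int hNLb hMeas hb hk hs ht
  obtain ⟨hoc, hcont, _, hD⟩ := hk
  have hsig := sig_lt hb
  have hsub : Icc x t ⊆ I := hoc.out hs ht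
  have hc : ContinuousOn k (Icc x t) := hcont.mono hsub
  have hkd : ∀ r ∈ Icc x t, k r = tau (r - x) (k x) - ∫ q in x..r, tau (r - q) (NL b (k q)) :=
    fun r hr => hD x hs r (hsub hr)
  have hl := test_lap h
  obtain ⟨hw1, hw2⟩ := deriv_test hDr hsig h
  have hd1 := duh hGrp hst hNint hkd hc hw1
  have hd2 := duh hGrp hst hNint hkd hc hw2
  obtain ⟨C, _, hfld, _, _⟩ := hFld (sig b) hsig
  have hU : ∀ r (ψ : E → ℝ), IsTest ψ → ∫ z, U (sig b) (k r) z * ψ z = inner ℝ (k r) (Rs (sig b) ψ) :=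
    fun r ψ hψ => (hfld (k r)).1.2 ψ hψ
  have hV : ∀ r, ∫ z, V (sig b) (k r) z * φ z = inner ℝ (k r) (dRs (sig b) φ) := fun r =>
    (hfld (k r)).2.2.1.2 φ h
  have hae : ∀ᵐ r ∂(volume.restrict (Ioc x t)), sn b (k r) < ⊤ :=
    ae_restrict_of_ae_restrict_of_subset Ioc_subset_Icc_self haefin
  obtain ⟨-, hN2⟩ := hNLb b hb
  refine ⟨?_, ?_⟩
  · rw [hU _ _ h, hU _ _ h, hd1, intervalIntegral.integral_of_le hst,
      intervalIntegral.integral_of_le hst]
    refine integral_congr_ae ?_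
    filter_upwards [hae] with r hr
    have h1 := ((hN2 (k r) hr).2.1 φ h).1
    show (inner ℝ (k r) (dRs (sig b) φ) : ℝ) - inner ℝ (NL b (k r)) (Rs (sig b) φ) =
      ∫ z, V (sig b) (k r) z * φ z
    rw [h1, sub_zero, hV]
  · rw [hV, hV, hd2, intervalIntegral.integral_of_le hst, intervalIntegral.integral_of_le hst]
    refine integral_congr_ae ?_
    filter_upwards [hae] with r hr
    have h2 := hN2 (k r) hr
    have h1 := (h2.2.1 φ h).2
    show (inner ℝ (k r) (Rs (sig b) (lap φ)) : ℝ) - inner ℝ (NL b (k r)) (dRs (sig b) φ) =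
      ∫ z, (U (sig b) (k r) z * lap φ z - Fn b (U (sig b) (k r) z) * φ z)
    rw [h1, ← hU r _ hl, ← integral_sub
      (int_test (one_le_q0 hsig) (hfld (k r)).1.1 hl)
      (int_test (one_le_q1 hsig) h2.1 h)]

end WEqx

theorem thm_WEq (hGrp : St_Grp1) (hDr : St_DrT) (hFld : St_FldP) (hNLb : St_NLb)
    (hMeas : St_Meas) : St_WEq := by
  intro b hb I k hk x hx t ht φ h
  rcases le_total x t with hst | hst
  · exact WEqx.main_le hGrp hDr hFld hNLb hMeas hb hk hx ht hst h
  · have h1 := WEqx.main_le hGrp hDr hFld hNLb hMeas hb hk ht hx hst h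
    rw [intervalIntegral.integral_symm t x, intervalIntegral.integral_symm t x, ← h1.1, ← h1.2]
    exact ⟨by ring, by ring⟩

end Pool.Agent.QWF
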