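import Pool.Agent.QWF.StA

set_option autoImplicit false

/-!
# QWF, WvA: smooth solutions of the linear wave equation by Fourier transform
-/

open MeasureTheory Filter Topology Set
open scoped ENNReal NNReal RealInnerProductSpace FourierTransform

namespace Pool.Agent.QWF

namespace WvAx

/-- Measurable, all moments integrable. -/
def Mom (A : E → ℂ) : Prop :=
  Measurable A ∧ ∀ n : ℕ, Integrable (fun ξ : E => ‖ξ‖ ^ n * ‖A ξ‖) volume

lemma Mom.int {A : E → ℂ} (h : Mom A) : Integrable A volume := by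
  have h1 := h.2 0
  simp only [pow_zero, one_mul] at h1
  exact (integrable_norm_iff h.1.aestronglyMeasurable).1 h1

lemma Mom.mul {A : E → ℂ} (h : Mom A) {m : E → ℂ} (hm : Measurable m) (C : ℝ) (k : ℕ)
    (hle : ∀ ξ, ‖m ξ‖ ≤ C * ‖ξ‖ ^ k) : Mom (fun ξ => m ξ * A ξ) := by
  refine ⟨hm.mul h.1, fun n => ?_⟩
  refine ((h.2 (n + k)).const_mul C).mono' ?_ (Eventually.of_forall fun ξ => ?_)
  · exact ((by fun_prop : Measurable fun ξ : E => ‖ξ‖ ^ n).mul (hm.mul h.1).norm).aestronglyMeasurable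
  · rw [Real.norm_of_nonneg (by positivity), norm_mul]
    calc ‖ξ‖ ^ n * (‖m ξ‖ * ‖A ξ‖) ≤ ‖ξ‖ ^ n * (C * ‖ξ‖ ^ k * ‖A ξ‖) := by
          gcongr
          exact hle ξ
      _ = C * (‖ξ‖ ^ (n + k) * ‖A ξ‖) := by rw [pow_add]; ring

lemma Mom.add {A B : E → ℂ} (h : Mom A) (h' : Mom B) : Mom (fun ξ => A ξ + B ξ) := by
  refine ⟨h.1.add h'.1, fun n => ?_⟩
  refine ((h.2 n).add (h'.2 n)).mono' ?_ (Eventually.of_forall fun ξ => ?_)
  · exact ((by fun_prop : Measurable fun ξ : E => ‖ξ‖ ^ n).mul (h.1.add h'.1).norm).aestronglyMeasurable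
  · rw [Real.norm_of_nonneg (by positivity), Pi.add_apply, ← mul_add]
    gcongr
    exact norm_add_le _ _

/-- multiplication by the symbol of the time derivative -/
noncomputable def T (c : ℝ) (A : E → ℂ) (ξ : E) : ℂ :=
  (2 * Real.pi * Complex.I * ((c * ‖ξ‖ : ℝ) : ℂ)) * A ξ

/-- multiplication by the symbol of a space derivative -/
noncomputable def X (i : Fin 4) (A : E → ℂ) (ξ : E) : ℂ :=
  (2 * Real.pi * Complex.I * ((ξ i : ℝ) : ℂ)) * A ξ

lemma norm_tp (x : ℝ) : ‖2 * (Real.pi : ℂ) * Complex.I * (x : ℂ)‖ = 2 * Real.pi * |x| := by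
  simp [abs_of_pos Real.pi_pos]

lemma Mom.T {A : E → ℂ} (h : Mom A) (c : ℝ) : Mom (T c A) := by
  refine h.mul (by fun_prop) (2 * Real.pi * |c|) 1 fun ξ => ?_
  rw [norm_tp, abs_mul, abs_norm, pow_one]
  exact (mul_assoc _ _ _).symm.le

lemma Mom.X {A : E → ℂ} (h : Mom A) (i : Fin 4) : Mom (X i A) := by
  refine h.mul (by fun_prop) (2 * Real.pi) 1 fun ξ => ?_
  rw [norm_tp, pow_one]
  have h1 : |ξ i| ≤ ‖ξ‖ := by
    rw [← Real.norm_eq_abs]
    exact PiLp.norm_apply_le ξ i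
  have := Real.pi_pos
  gcongr

/-- Superposition of plane waves. -/
noncomputable def W (c : ℝ) (A : E → ℂ) (z : ℝ × E) : ℂ :=
  ∫ ξ, A ξ * Complex.exp (2 * Real.pi * Complex.I * ((inner ℝ z.2 ξ + z.1 * (c * ‖ξ‖) : ℝ) : ℂ))

lemma norm_char (x : ℝ) : ‖Complex.exp (2 * Real.pi * Complex.I * (x : ℂ))‖ = 1 := by
  have : 2 * Real.pi * Complex.I * (x : ℂ) = ((2 * Real.pi * x : ℝ) : ℂ) * Complex.I := by
    push_cast; ring
  rw [this, Complex.norm_exp_ofReal_mul_I]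

/-- The inner product. -/
noncomputable def I0 : E →L[ℝ] E →L[ℝ] ℝ := innerSL ℝ

/-- The bilinear form. -/
noncomputable def L : (E × ℝ) →L[ℝ] (ℝ × E) →L[ℝ] ℝ :=
  -(I0.bilinearComp (ContinuousLinearMap.fst ℝ E ℝ)
      (ContinuousLinearMap.snd ℝ ℝ E) +
    (ContinuousLinearMap.mul ℝ ℝ).bilinearComp (ContinuousLinearMap.snd ℝ E ℝ)
      (ContinuousLinearMap.fst ℝ ℝ E))

lemma L_apply (v : E × ℝ) (w : ℝ × E) : L v w = -(inner ℝ v.1 w.2 + v.2 * w.1) := rfl

lemma W_smooth (c : ℝ) {A : E → ℂ} (h : Mom A) : ContDiff ℝ ((⊤ : ℕ∞) : WithTop ℕ∞) (W c A) := by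
  set g : E → E × ℝ := fun ξ => (ξ, c * ‖ξ‖) with hg
  have hgm : Measurable g := by fun_prop
  have h1 : ContDiff ℝ ((⊤ : ℕ∞) : WithTop ℕ∞) (VectorFourier.fourierIntegral 𝐞 (Measure.map g volume)
      L.toLinearMap₁₂ (fun v : E × ℝ => A v.1)) := by
    refine VectorFourier.contDiff_fourierIntegral L fun n _ => ?_
    have hm : Measurable fun v : E × ℝ => ‖v‖ ^ n * ‖A v.1‖ :=
      (measurable_norm.pow_const n).mul (h.1.comp measurable_fst).norm
    refine (integrable_map_measure hm.aestronglyMeasurable hgm.aemeasurable).2 ?_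
    refine ((h.2 n).const_mul ((1 + |c|) ^ n)).mono' (hm.comp hgm).aestronglyMeasurable
      (Eventually.of_forall fun ξ => ?_)
    rw [Function.comp_apply, Real.norm_of_nonneg (by positivity)]
    have h2 : ‖g ξ‖ ≤ (1 + |c|) * ‖ξ‖ := by
      rw [hg]
      refine (Prod.norm_def _).trans_le (max_le ?_ ?_)
      · have := mul_nonneg (abs_nonneg c) (norm_nonneg ξ)
        simp only
        nlinarith
      · simp only
        rw [Real.norm_eq_abs, abs_mul, abs_norm]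
        have := norm_nonneg ξ
        nlinarith
    calc ‖g ξ‖ ^ n * ‖A (g ξ).1‖ ≤ ((1 + |c|) * ‖ξ‖) ^ n * ‖A ξ‖ := by
          gcongr
      _ = (1 + |c|) ^ n * (‖ξ‖ ^ n * ‖A ξ‖) := by rw [mul_pow]; ring
  have h2 : VectorFourier.fourierIntegral 𝐞 (Measure.map g volume)
      L.toLinearMap₁₂ (fun v : E × ℝ => A v.1) = W c A := by
    funext w
    rw [VectorFourier.fourierIntegral, integral_map hgm.aemeasurable]
    · unfold W
      refine integral_congr_ae (Eventually.of_forall fun ξ => ?_)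
      simp only [hg]
      rw [Circle.smul_def, Real.fourierChar_apply, smul_eq_mul, mul_comm]
      congr 2
      rw [show (L.toLinearMap₁₂ (ξ, c * ‖ξ‖)) w = L (ξ, c * ‖ξ‖) w from rfl, L_apply, neg_neg,
        real_inner_comm]
      push_cast
      ring
    · have hcont : Continuous fun v : E × ℝ => 𝐞 (-(L v w)) :=
        Real.continuous_fourierChar.comp (L.flip w).continuous.neg
      exact hcont.aestronglyMeasurable.smul (h.1.comp measurable_fst).aestronglyMeasurable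
  rwa [h2] at h1

/-- Real part. -/
noncomputable def R (c : ℝ) (A : E → ℂ) (z : ℝ × E) : ℝ := (W c A z).re

lemma R_smooth (c : ℝ) {A : E → ℂ} (h : Mom A) : ContDiff ℝ ((⊤ : ℕ∞) : WithTop ℕ∞) (R c A) :=
  Complex.reCLM.contDiff.comp (W_smooth c h)

/-- Differentiation under the integral. -/
lemma der {A : E → ℂ} {θ κ : E → ℝ} (hA : Integrable A volume) (hθ : Measurable θ) (hκ : Measurable κ)
    (hκA : Integrable (fun ξ => (2 * Real.pi * Complex.I * ((κ ξ : ℝ) : ℂ)) * A ξ) volume) (s : ℝ) :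
    HasDerivAt (fun s : ℝ => (∫ ξ, A ξ *
      Complex.exp (2 * Real.pi * Complex.I * ((θ ξ + s * κ ξ : ℝ) : ℂ))).re)
      (∫ ξ, (2 * Real.pi * Complex.I * ((κ ξ : ℝ) : ℂ)) * A ξ *
        Complex.exp (2 * Real.pi * Complex.I * ((θ ξ + s * κ ξ : ℝ) : ℂ))).re s := by
  have hm : ∀ q : ℝ, AEStronglyMeasurable (fun ξ : E =>
      Complex.exp (2 * Real.pi * Complex.I * ((θ ξ + q * κ ξ : ℝ) : ℂ))) volume := by
    intro q
    exact Measurable.aestronglyMeasurable (by fun_prop)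
  have h3 := hasDerivAt_integral_of_dominated_loc_of_deriv_le (μ := (volume : Measure E))
    (F := fun (q : ℝ) (ξ : E) => A ξ * Complex.exp (2 * Real.pi * Complex.I * ((θ ξ + q * κ ξ : ℝ) : ℂ)))
    (F' := fun (q : ℝ) (ξ : E) => (2 * Real.pi * Complex.I * ((κ ξ : ℝ) : ℂ)) * A ξ *
      Complex.exp (2 * Real.pi * Complex.I * ((θ ξ + q * κ ξ : ℝ) : ℂ)))
    (x₀ := s) (s := univ) (bound := fun ξ => ‖(2 * Real.pi * Complex.I * ((κ ξ : ℝ) : ℂ)) * A ξ‖)
    univ_mem (Eventually.of_forall fun q => hA.aestronglyMeasurable.mul (hm q)) ?_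
    (hκA.aestronglyMeasurable.mul (hm s)) ?_ hκA.norm ?_
  · exact Complex.reCLM.hasFDerivAt.comp_hasDerivAt s h3.2
  · refine hA.mono (hA.aestronglyMeasurable.mul (hm s)) (Eventually.of_forall fun r => ?_)
    rw [norm_mul, norm_char, mul_one]
  · refine Eventually.of_forall fun r q _ => ?_
    rw [norm_mul, norm_char, mul_one]
  · refine Eventually.of_forall fun ξ q _ => ?_
    have e1 : HasDerivAt (fun q : ℝ => 2 * Real.pi * Complex.I * ((θ ξ + q * κ ξ : ℝ) : ℂ))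
        (2 * Real.pi * Complex.I * ((κ ξ : ℝ) : ℂ)) q := by
      have e2 : HasDerivAt (fun q : ℝ => ((θ ξ + q * κ ξ : ℝ) : ℂ)) ((1 * κ ξ : ℝ) : ℂ) q :=
        (((hasDerivAt_id q).mul_const (κ ξ)).const_add (θ ξ)).ofReal_comp
      rw [one_mul] at e2
      exact e2.const_mul _
    have e3 := (e1.cexp).const_mul (A ξ)
    exact e3.congr_deriv (by ring)

lemma R_time (c : ℝ) {A : E → ℂ} (h : Mom A) (t : ℝ) (x : E) :
    HasDerivAt (fun t => R c A (t, x)) (R c (T c A) (t, x)) t :=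
  der h.int (θ := fun ξ => inner ℝ x ξ) (κ := fun ξ => c * ‖ξ‖) (by fun_prop) (by fun_prop)
    (h.T c).int t

lemma R_line (c : ℝ) {A : E → ℂ} (h : Mom A) (t : ℝ) (x : E) (i : Fin 4) :
    HasDerivAt (fun s : ℝ => R c A (t, x + s • EuclideanSpace.single i (1 : ℝ))) (R c (X i A) (t, x)) 0 := by
  have h1 := der h.int (θ := fun ξ => inner ℝ x ξ + t * (c * ‖ξ‖)) (κ := fun ξ => ξ i)
    (by fun_prop) (by fun_prop) (h.X i).int 0
  have e1 : (fun s : ℝ => R c A (t, x + s • EuclideanSpace.single i (1 : ℝ))) = fun s : ℝ => (∫ ξ : E, A ξ *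
      Complex.exp (2 * Real.pi * Complex.I * ((inner ℝ x ξ + t * (c * ‖ξ‖) + s * ξ i : ℝ) : ℂ))).re := by
    funext s
    unfold R W
    congr 1
    refine integral_congr_ae (Eventually.of_forall fun ξ => ?_)
    simp only
    congr 3
    rw [inner_add_left, inner_smul_left, EuclideanSpace.inner_single_left]
    simp
    ring
  rw [e1]
  refine h1.congr_deriv ?_
  unfold R W X
  congr 1
  refine integral_congr_ae (Eventually.of_forall fun ξ => ?_)
  simp only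
  rw [zero_mul, add_zero]

lemma slice_diff {u : ℝ × E → ℝ} (hu : ContDiff ℝ ((⊤ : ℕ∞) : WithTop ℕ∞) u) (t : ℝ) :
    Differentiable ℝ fun y => u (t, y) :=
  (hu.differentiable (by simp)).comp (by fun_prop)

lemma pd_eq {φ : E → ℝ} (hφ : Differentiable ℝ φ) (i : Fin 4) (x : E) {d : ℝ}
    (h : HasDerivAt (fun s : ℝ => φ (x + s • EuclideanSpace.single i (1 : ℝ))) d 0) : pd i φ x = d := by
  have h1 : HasDerivAt (fun s : ℝ => x + s • EuclideanSpace.single i (1 : ℝ))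
      (EuclideanSpace.single i (1 : ℝ)) 0 := by
    have := ((hasDerivAt_id (0 : ℝ)).smul_const (EuclideanSpace.single i (1 : ℝ))).const_add x
    simpa using this
  have h2 : HasFDerivAt φ (fderiv ℝ φ x) (x + (0 : ℝ) • EuclideanSpace.single i (1 : ℝ)) := by
    rw [zero_smul, add_zero]
    exact (hφ x).hasFDerivAt
  exact (h2.comp_hasDerivAt 0 h1).unique h

lemma pd_RR {A B : E → ℂ} (hA : Mom A) (hB : Mom B) (i : Fin 4) (t : ℝ) :
    pd i (fun y => R 1 A (t, y) + R (-1) B (t, y)) =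
      fun x => R 1 (X i A) (t, x) + R (-1) (X i B) (t, x) := by
  funext x
  refine pd_eq ((slice_diff (R_smooth 1 hA) t).add (slice_diff (R_smooth (-1) hB) t)) i x ?_
  exact (R_line 1 hA t x i).add (R_line (-1) hB t x i)

lemma int_exp {A : E → ℂ} (hA : Integrable A volume) (θ : E → ℝ) (hθ : Measurable θ) :
    Integrable (fun ξ => A ξ * Complex.exp (2 * Real.pi * Complex.I * ((θ ξ : ℝ) : ℂ))) volume := by
  refine hA.mono (hA.aestronglyMeasurable.mul (Measurable.aestronglyMeasurable (by fun_prop)))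
    (Eventually.of_forall fun r => ?_)
  rw [norm_mul, norm_char, mul_one]

lemma sum_XX (c : ℝ) (hc : c ^ 2 = 1) {A : E → ℂ} (h : Mom A) (z : ℝ × E) :
    ∑ i, R c (X i (X i A)) z = R c (T c (T c A)) z := by
  unfold R W
  rw [← Complex.re_sum, ← integral_finsetSum _ fun i _ => int_exp ((h.X i).X i).int _ (by fun_prop)]
  congr 1
  refine integral_congr_ae (Eventually.of_forall fun ξ => ?_)
  simp only
  rw [← Finset.sum_mul]
  congr 1
  unfold X T
  have h1 : ∑ i, ((ξ i : ℝ) : ℂ) ^ 2 = ((‖ξ‖ : ℝ) : ℂ) ^ 2 := by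
    have h2 : ‖ξ‖ ^ 2 = ∑ i, ξ i ^ 2 := by
      rw [EuclideanSpace.norm_sq_eq]
      simp
    rw [← Complex.ofReal_pow, h2]
    push_cast
    rfl
  have h3 : ((c : ℝ) : ℂ) ^ 2 = 1 := by rw [← Complex.ofReal_pow, hc, Complex.ofReal_one]
  have h4 : ∀ i, 2 * (Real.pi : ℂ) * Complex.I * ((ξ i : ℝ) : ℂ) *
      (2 * Real.pi * Complex.I * ((ξ i : ℝ) : ℂ) * A ξ) =
      (2 * Real.pi * Complex.I) ^ 2 * A ξ * ((ξ i : ℝ) : ℂ) ^ 2 := fun i => by ring
  rw [Finset.sum_congr rfl fun i _ => h4 i, ← Finset.mul_sum, h1]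
  push_cast
  linear_combination (-((2 * Real.pi * Complex.I) ^ 2 * A ξ * ((‖ξ‖ : ℝ) : ℂ) ^ 2)) * h3

/-! ### Amplitudes -/

lemma int_pow (n : ℕ) {f : E → ℂ} (hc : Continuous f) (hb : ∀ N : ℕ, ∃ C : ℝ, ∀ ξ, ‖f ξ‖ ≤ C / (1 + ‖ξ‖) ^ N) :
    Integrable (fun ξ : E => ‖ξ‖ ^ n * ‖f ξ‖) volume := by
  obtain ⟨C, hC⟩ := hb (n + 5)
  have h1 : Integrable (fun ξ : E => (1 + ‖ξ‖) ^ (-(5 : ℝ))) volume :=
    integrable_one_add_norm (by rw [finrank_euclideanSpace_fin]; norm_num)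
  refine (h1.const_mul C).mono' (((by fun_prop : Continuous fun ξ : E => ‖ξ‖ ^ n).mul
    hc.norm).aestronglyMeasurable) (Eventually.of_forall fun ξ => ?_)
  rw [Real.norm_of_nonneg (by positivity), Real.rpow_neg (by positivity)]
  have h2 : (1 + ‖ξ‖) ^ (5 : ℝ) = (1 + ‖ξ‖) ^ (5 : ℕ) := by
    rw [← Real.rpow_natCast]
    norm_num
  have h0 : 0 ≤ C := by
    have h4 : 0 ≤ C / (1 + ‖(0 : E)‖) ^ (n + 5) := (norm_nonneg _).trans (hC 0)
    simpa using h4
  rw [h2]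
  calc ‖ξ‖ ^ n * ‖f ξ‖ ≤ (1 + ‖ξ‖) ^ n * (C / (1 + ‖ξ‖) ^ (n + 5)) := by
        gcongr
        · linarith [norm_nonneg ξ]
        · exact hC ξ
    _ = C * ((1 + ‖ξ‖) ^ 5)⁻¹ := by
        have : (1 + ‖ξ‖) ≠ 0 := by positivity
        rw [pow_add]
        field_simp

lemma mom_ft (hFt : St_Ft) {φ : E → ℝ} (hφ : IsSch φ) : Mom (ft φ) :=
  ⟨(hFt.2 φ hφ).1.measurable, fun n => int_pow n (hFt.2 φ hφ).1 (hFt.2 φ hφ).2.1⟩

lemma int_inv : Integrable (fun ξ : E => ‖ξ‖⁻¹ * (1 + ‖ξ‖) ^ (-(5 : ℝ))) volume := by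
  have h := (integrable_fun_norm_addHaar (volume : Measure E)
    (f := fun y : ℝ => y⁻¹ * (1 + y) ^ (-(5 : ℝ)))).2 ?_
  · exact h
  · rw [finrank_euclideanSpace_fin]
    have h1 : Integrable (fun y : ℝ => (1 + ‖y‖) ^ (-(3 : ℝ))) volume :=
      integrable_one_add_norm (by rw [Module.finrank_self]; norm_num)
    refine h1.integrableOn.mono' (Measurable.aestronglyMeasurable (by fun_prop)) ?_
    refine (ae_restrict_iff' measurableSet_Ioi).2 (Eventually.of_forall fun y hy => ?_)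
    have hy0 : (0 : ℝ) < y := hy
    have h2 : (1 + y) ^ (-(3 : ℝ)) = (1 + y) ^ (2 : ℕ) * (1 + y) ^ (-(5 : ℝ)) := by
      rw [← Real.rpow_natCast, ← Real.rpow_add (by linarith)]
      norm_num
    have h3 : 0 ≤ (1 + y) ^ (-(5 : ℝ)) := Real.rpow_nonneg (by linarith) _
    rw [Real.norm_of_nonneg hy0.le, h2, smul_eq_mul, Real.norm_of_nonneg (by positivity)]
    have h4 : y ^ (4 - 1) * (y⁻¹ * (1 + y) ^ (-(5 : ℝ))) = y ^ 2 * (1 + y) ^ (-(5 : ℝ)) := by
      field_simp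
    rw [h4]
    gcongr
    linarith

/-- division by `‖ξ‖` -/
lemma mom_div (hFt : St_Ft) {φ : E → ℝ} (hφ : IsSch φ) : Mom (fun ξ => ((‖ξ‖⁻¹ : ℝ) : ℂ) * ft φ ξ) := by
  have hc := (hFt.2 φ hφ).1
  have hm : Measurable fun ξ : E => ((‖ξ‖⁻¹ : ℝ) : ℂ) * ft φ ξ :=
    Measurable.mul (by fun_prop) hc.measurable
  refine ⟨hm, fun n => ?_⟩
  have hm' : ∀ n : ℕ, AEStronglyMeasurable (fun ξ : E => ‖ξ‖ ^ n * ‖((‖ξ‖⁻¹ : ℝ) : ℂ) * ft φ ξ‖) volume :=
    fun n => ((by fun_prop : Measurable fun ξ : E => ‖ξ‖ ^ n).mul hm.norm).aestronglyMeasurable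
  rcases n with _ | n
  · obtain ⟨C, hC⟩ := (hFt.2 φ hφ).2.1 5
    refine (int_inv.const_mul C).mono' (hm' 0) (Eventually.of_forall fun ξ => ?_)
    have h2 : (1 + ‖ξ‖) ^ (-(5 : ℝ)) = ((1 + ‖ξ‖) ^ (5 : ℕ))⁻¹ := by
      rw [Real.rpow_neg (by positivity), ← Real.rpow_natCast]
      norm_num
    rw [Real.norm_of_nonneg (by positivity), pow_zero, one_mul, norm_mul, Complex.norm_real,
      Real.norm_of_nonneg (by positivity), h2]
    calc ‖ξ‖⁻¹ * ‖ft φ ξ‖ ≤ ‖ξ‖⁻¹ * (C / (1 + ‖ξ‖) ^ 5) := by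
          gcongr
          exact hC ξ
      _ = C * (‖ξ‖⁻¹ * ((1 + ‖ξ‖) ^ 5)⁻¹) := by rw [div_eq_mul_inv]; ring
  · refine (int_pow n hc (hFt.2 φ hφ).2.1).mono' (hm' (n + 1)) (Eventually.of_forall fun ξ => ?_)
    rw [Real.norm_of_nonneg (by positivity), norm_mul, Complex.norm_real,
      Real.norm_of_nonneg (by positivity)]
    rcases eq_or_ne ξ 0 with rfl | h0
    · rw [norm_zero, inv_zero, zero_mul, mul_zero]
      positivity
    · have h1 : ‖ξ‖ ≠ 0 := norm_ne_zero_iff.2 h0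
      have h2 : ‖ξ‖ ^ (n + 1) * (‖ξ‖⁻¹ * ‖ft φ ξ‖) = ‖ξ‖ ^ n * ‖ft φ ξ‖ := by
        rw [pow_succ]
        field_simp
      exact h2.le

lemma Mom.const {A : E → ℂ} (h : Mom A) (c : ℂ) : Mom (fun ξ => c * A ξ) :=
  h.mul (m := fun _ => c) measurable_const ‖c‖ 0 (fun ξ => by rw [pow_zero, mul_one])

/-- Fourier inversion. -/
lemma inv {φ : E → ℝ} (hFt : St_Ft) (hφ : IsTest φ) (x : E) :
    ∫ ξ, ft φ ξ * Complex.exp (2 * Real.pi * Complex.I * ((inner ℝ x ξ : ℝ) : ℂ)) = (φ x : ℂ) := by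
  have h1 : (𝓕 (fun x : E => (φ x : ℂ)) : E → ℂ) = ft φ := by
    funext ξ
    rw [Real.fourier_eq', ft]
    refine integral_congr_ae (Eventually.of_forall fun x => ?_)
    simp only [smul_eq_mul]
    rw [mul_comm]
    congr 2
    push_cast
    ring
  have hc : Continuous fun x : E => (φ x : ℂ) := Complex.continuous_ofReal.comp hφ.1.continuous
  have h2 : Integrable (fun x : E => (φ x : ℂ)) volume :=
    hc.integrable_of_hasCompactSupport (hφ.2.comp_left Complex.ofReal_zero)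
  have h3 : Integrable (𝓕 (fun x : E => (φ x : ℂ)) : E → ℂ) volume := by
    rw [h1]
    exact (mom_ft hFt (hFt.1 φ hφ)).int
  have h4 := h2.fourierInv_fourier_eq h3 (v := x) hc.continuousAt
  rw [h1, Real.fourierInv_eq'] at h4
  rw [← h4]
  refine integral_congr_ae (Eventually.of_forall fun ξ => ?_)
  simp only [smul_eq_mul]
  rw [mul_comm, real_inner_comm]
  congr 2
  push_cast
  ring

lemma mul_sinc (x : ℝ) : x * Real.sinc x = Real.sin x := by
  rcases eq_or_ne x 0 with rfl | h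
  · simp
  · rw [Real.sinc_of_ne_zero h]
    field_simp

/-- hermitian amplitudes give real integrals -/
lemma real_of_herm {M : E → ℂ} (h : ∀ ξ, M (-ξ) = (starRingEnd ℂ) (M ξ)) (x : E) :
    (((∫ ξ, M ξ * Complex.exp (2 * Real.pi * Complex.I * ((inner ℝ x ξ : ℝ) : ℂ))).re : ℝ) : ℂ) =
      ∫ ξ, M ξ * Complex.exp (2 * Real.pi * Complex.I * ((inner ℝ x ξ : ℝ) : ℂ)) := by
  rw [← Complex.conj_eq_iff_re, ← integral_conj, ← integral_neg_eq_self]
  refine integral_congr_ae (Eventually.of_forall fun ξ => ?_)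
  simp only [map_mul, h, Complex.conj_conj, ← Complex.exp_conj, Complex.conj_ofReal,
    Complex.conj_I, map_ofNat, inner_neg_right]
  congr 2
  push_cast
  ring

lemma ae_ne : ∀ᵐ ξ : E ∂volume, ξ ≠ 0 := by
  rw [ae_iff]
  simp

end WvAx

open WvAx in
theorem thm_WvA (hFt : St_Ft) : St_WvA := by
  intro f g hf hg
  have hFs := hFt.1 f hf
  have hGs := hFt.1 g hg
  have hF := mom_ft hFt hFs
  have hG := mom_ft hFt hGs
  have hG' := mom_div hFt hGs
  have nF : ∀ ξ : E, ft f (-ξ) = (starRingEnd ℂ) (ft f ξ) := (hFt.2 f hFs).2.2.2.2.2.1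
  have nG : ∀ ξ : E, ft g (-ξ) = (starRingEnd ℂ) (ft g ξ) := (hFt.2 g hGs).2.2.2.2.2.1
  have cF : Continuous (ft f) := (hFt.2 f hFs).1
  have cG : Continuous (ft g) := (hFt.2 g hGs).1
  -- amplitudes
  set A : E → ℂ := fun ξ => (1 / 2 : ℂ) * ft f ξ +
    (1 / (4 * Real.pi * Complex.I) : ℂ) * (((‖ξ‖⁻¹ : ℝ) : ℂ) * ft g ξ) with hA
  set B : E → ℂ := fun ξ => (1 / 2 : ℂ) * ft f ξ +
    (-(1 / (4 * Real.pi * Complex.I)) : ℂ) * (((‖ξ‖⁻¹ : ℝ) : ℂ) * ft g ξ) with hB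
  have mA : Mom A := (hF.const _).add (hG'.const _)
  have mB : Mom B := (hF.const _).add (hG'.const _)
  -- the Fourier transforms
  set M : ℝ → E → ℂ := fun t ξ => ((Real.cos (2 * Real.pi * t * ‖ξ‖) : ℝ) : ℂ) * ft f ξ +
    ((t * Real.sinc (2 * Real.pi * t * ‖ξ‖) : ℝ) : ℂ) * ft g ξ with hM
  set N : ℝ → E → ℂ := fun t ξ => -((2 * Real.pi * ‖ξ‖ * Real.sin (2 * Real.pi * t * ‖ξ‖) : ℝ) : ℂ) * ft f ξ +
      ((Real.cos (2 * Real.pi * t * ‖ξ‖) : ℝ) : ℂ) * ft g ξ with hN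
  have hpi : (Real.pi : ℂ) ≠ 0 := Complex.ofReal_ne_zero.2 Real.pi_ne_zero
  -- exponentials
  have hexp : ∀ (x ξ : E) (t c : ℝ), Complex.exp (2 * Real.pi * Complex.I *
      ((inner ℝ x ξ + t * (c * ‖ξ‖) : ℝ) : ℂ)) =
      Complex.exp (2 * Real.pi * Complex.I * ((inner ℝ x ξ : ℝ) : ℂ)) *
        Complex.exp (((c * (2 * Real.pi * t * ‖ξ‖) : ℝ) : ℂ) * Complex.I) := by
    intro x ξ t c
    rw [← Complex.exp_add]
    congr 1
    push_cast
    ring
  have hc1 : ∀ θ : ℝ, Complex.exp (((1 * θ : ℝ) : ℂ) * Complex.I) =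
      ((Real.cos θ : ℝ) : ℂ) + ((Real.sin θ : ℝ) : ℂ) * Complex.I := by
    intro θ
    rw [one_mul, Complex.exp_mul_I, Complex.ofReal_cos, Complex.ofReal_sin]
  have hc2 : ∀ θ : ℝ, Complex.exp (((-1 * θ : ℝ) : ℂ) * Complex.I) =
      ((Real.cos θ : ℝ) : ℂ) - ((Real.sin θ : ℝ) : ℂ) * Complex.I := by
    intro θ
    rw [Complex.exp_mul_I, ← Complex.ofReal_cos, ← Complex.ofReal_sin]
    rw [neg_one_mul, Real.cos_neg, Real.sin_neg]
    push_cast
    ring
  have keyM : ∀ (t : ℝ) (x : E), W 1 A (t, x) + W (-1) B (t, x) =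
      ∫ ξ, M t ξ * Complex.exp (2 * Real.pi * Complex.I * ((inner ℝ x ξ : ℝ) : ℂ)) := by
    intro t x
    unfold W
    rw [← integral_add (int_exp mA.int _ (by fun_prop)) (int_exp mB.int _ (by fun_prop))]
    refine integral_congr_ae ?_
    filter_upwards [ae_ne] with ξ hξ
    simp only [hexp, hc1, hc2]
    have hn : ((‖ξ‖ : ℝ) : ℂ) ≠ 0 := Complex.ofReal_ne_zero.2 (norm_ne_zero_iff.2 hξ)
    have hs : ((t * Real.sinc (2 * Real.pi * t * ‖ξ‖) : ℝ) : ℂ) * (2 * Real.pi * ((‖ξ‖ : ℝ) : ℂ)) =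
        ((Real.sin (2 * Real.pi * t * ‖ξ‖) : ℝ) : ℂ) := by
      rw [← mul_sinc (2 * Real.pi * t * ‖ξ‖)]
      push_cast
      ring
    have hs' : ((t * Real.sinc (2 * Real.pi * t * ‖ξ‖) : ℝ) : ℂ) =
        ((Real.sin (2 * Real.pi * t * ‖ξ‖) : ℝ) : ℂ) / (2 * Real.pi * ((‖ξ‖ : ℝ) : ℂ)) := by
      rw [← hs]
      field_simp
    simp only [hA, hB, hM, hs']
    push_cast
    field_simp
    ring
  have keyN : ∀ (t : ℝ) (x : E), W 1 (T 1 A) (t, x) + W (-1) (T (-1) B) (t, x) =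
      ∫ ξ, N t ξ * Complex.exp (2 * Real.pi * Complex.I * ((inner ℝ x ξ : ℝ) : ℂ)) := by
    intro t x
    unfold W
    rw [← integral_add (int_exp (mA.T 1).int _ (by fun_prop)) (int_exp (mB.T (-1)).int _ (by fun_prop))]
    refine integral_congr_ae ?_
    filter_upwards [ae_ne] with ξ hξ
    have hn : ((‖ξ‖ : ℝ) : ℂ) ≠ 0 := Complex.ofReal_ne_zero.2 (norm_ne_zero_iff.2 hξ)
    have tA : T 1 A ξ = Real.pi * Complex.I * ((‖ξ‖ : ℝ) : ℂ) * ft f ξ + ft g ξ / 2 := by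
      simp only [T, hA]
      push_cast
      field_simp
      ring
    have tB : T (-1) B ξ = -(Real.pi * Complex.I * ((‖ξ‖ : ℝ) : ℂ) * ft f ξ) + ft g ξ / 2 := by
      simp only [T, hB]
      push_cast
      field_simp
      ring
    simp only [hexp, hc1, hc2, tA, tB, hN]
    push_cast
    linear_combination (2 * Real.pi * ((‖ξ‖ : ℝ) : ℂ) * ft f ξ *
      Complex.exp (2 * Real.pi * Complex.I * ((inner ℝ x ξ : ℝ) : ℂ)) *
      Complex.sin (2 * Real.pi * t * ((‖ξ‖ : ℝ) : ℂ))) * Complex.I_sq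
  have hermM : ∀ t ξ, M t (-ξ) = (starRingEnd ℂ) (M t ξ) := by
    intro t ξ
    simp only [hM, norm_neg, nF, nG, map_add, map_mul, Complex.conj_ofReal]
  have hermN : ∀ t ξ, N t (-ξ) = (starRingEnd ℂ) (N t ξ) := by
    intro t ξ
    simp only [hN, norm_neg, nF, nG, map_add, map_mul, map_neg, Complex.conj_ofReal]
  have uM : ∀ (t : ℝ) (x : E), ((R 1 A (t, x) + R (-1) B (t, x) : ℝ) : ℂ) =
      ∫ ξ, M t ξ * Complex.exp (2 * Real.pi * Complex.I * ((inner ℝ x ξ : ℝ) : ℂ)) := by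
    intro t x
    rw [← real_of_herm (hermM t), ← keyM, Complex.add_re]
    rfl
  have vN : ∀ (t : ℝ) (x : E), ((R 1 (T 1 A) (t, x) + R (-1) (T (-1) B) (t, x) : ℝ) : ℂ) =
      ∫ ξ, N t ξ * Complex.exp (2 * Real.pi * Complex.I * ((inner ℝ x ξ : ℝ) : ℂ)) := by
    intro t x
    rw [← real_of_herm (hermN t), ← keyN, Complex.add_re]
    rfl
  refine ⟨fun z => R 1 A z + R (-1) B z, fun z => R 1 (T 1 A) z + R (-1) (T (-1) B) z,
    (R_smooth 1 mA).add (R_smooth (-1) mB), (R_smooth 1 (mA.T 1)).add (R_smooth (-1) (mB.T (-1))),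
    ?_, ?_, ?_⟩
  · intro x
    constructor
    · have h1 := uM 0 x
      have h2 : M 0 = ft f := by
        funext ξ
        simp [hM]
      rw [h2, inv hFt hf] at h1
      exact_mod_cast h1
    · have h1 := vN 0 x
      have h2 : N 0 = ft g := by
        funext ξ
        simp [hN]
      rw [h2, inv hFt hg] at h1
      exact_mod_cast h1
  · intro t x
    refine ⟨(R_time 1 mA t x).add (R_time (-1) mB t x), ?_⟩
    refine ((R_time 1 (mA.T 1) t x).add (R_time (-1) (mB.T (-1)) t x)).congr_deriv ?_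
    unfold lap
    have h1 : ∀ i, pd i (pd i fun y => R 1 A (t, y) + R (-1) B (t, y)) x =
        R 1 (X i (X i A)) (t, x) + R (-1) (X i (X i B)) (t, x) := by
      intro i
      rw [pd_RR mA mB, pd_RR (mA.X i) (mB.X i)]
    rw [Finset.sum_congr rfl fun i _ => h1 i, Finset.sum_add_distrib, sum_XX 1 (by norm_num) mA,
      sum_XX (-1) (by norm_num) mB]
  · intro t
    refine ⟨M t, N t, ?_, ?_, ?_, ?_, ?_, fun ξ => rfl, fun x => ⟨uM t x, vN t x⟩⟩
    · exact (Continuous.mul (by fun_prop) cF).add (Continuous.mul (Complex.continuous_ofReal.comp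
        (continuous_const.mul (Real.continuous_sinc.comp (by fun_prop)))) cG)
    · exact (Continuous.mul (by fun_prop) cF).add (Continuous.mul (by fun_prop) cG)
    · refine Integrable.add ?_ ?_
      · refine hF.int.mono (Measurable.aestronglyMeasurable (Measurable.mul (by fun_prop) cF.measurable))
          (Eventually.of_forall fun ξ => ?_)
        rw [norm_mul, Complex.norm_real]
        exact mul_le_of_le_one_left (norm_nonneg _) (Real.abs_cos_le_one _)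
      · refine (hG.int.const_mul (t : ℂ)).mono (Continuous.aestronglyMeasurable (Continuous.mul
          (Complex.continuous_ofReal.comp
        (continuous_const.mul (Real.continuous_sinc.comp (by fun_prop)))) cG))
          (Eventually.of_forall fun ξ => ?_)
        rw [norm_mul, norm_mul, Complex.norm_real, Complex.norm_real, norm_mul]
        gcongr
        exact mul_le_of_le_one_right (norm_nonneg _) (Real.abs_sinc_le_one _)
    · refine Integrable.add ?_ ?_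
      · refine (hF.T 1).int.mono (Measurable.aestronglyMeasurable (Measurable.mul (by fun_prop) cF.measurable))
          (Eventually.of_forall fun ξ => ?_)
        have h1 : ‖T 1 (ft f) ξ‖ = 2 * Real.pi * ‖ξ‖ * ‖ft f ξ‖ := by
          unfold T
          rw [norm_mul, norm_tp, one_mul, abs_norm]
        have h2 := Real.abs_sin_le_one (2 * Real.pi * t * ‖ξ‖)
        have h3 := Real.pi_pos
        rw [h1, norm_mul, norm_neg, Complex.norm_real, Real.norm_eq_abs, abs_mul,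
          abs_of_nonneg (by positivity : 0 ≤ 2 * Real.pi * ‖ξ‖)]
        exact mul_le_mul_of_nonneg_right (mul_le_of_le_one_right (by positivity) h2) (norm_nonneg _)
      · refine hG.int.mono (Measurable.aestronglyMeasurable (Measurable.mul (by fun_prop) cG.measurable))
          (Eventually.of_forall fun ξ => ?_)
        rw [norm_mul, Complex.norm_real]
        exact mul_le_of_le_one_left (norm_nonneg _) (Real.abs_cos_le_one _)
    · intro ξ
      have hs : ((t * Real.sinc (2 * Real.pi * t * ‖ξ‖) : ℝ) : ℂ) * (2 * Real.pi * ((‖ξ‖ : ℝ) : ℂ)) =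
          ((Real.sin (2 * Real.pi * t * ‖ξ‖) : ℝ) : ℂ) := by
        rw [← mul_sinc (2 * Real.pi * t * ‖ξ‖)]
        push_cast
        ring
      simp only [hM]
      rw [← hs]
      push_cast
      ring

end Pool.Agent.QWF
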