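import Pool.Agent.QWF.StA

/-!
# QWF, module WvB: domain of dependence by the weighted energy method (helper91)
-/

set_option autoImplicit false

open MeasureTheory Filter Topology Set
open scoped ENNReal NNReal RealInnerProductSpace ContDiff Pointwise

namespace Pool.Agent.QWF

namespace WvBx

/-- smooth functions on space time -/
abbrev SmX (f : ℝ × E → ℝ) : Prop := ContDiff ℝ ((⊤ : ℕ∞) : WithTop ℕ∞) f

/-- spatial derivative -/
noncomputable def Di (i : Fin 4) (f : ℝ × E → ℝ) (z : ℝ × E) : ℝ :=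
  fderiv ℝ f z ((0 : ℝ), EuclideanSpace.single i (1 : ℝ))

/-- time derivative -/
noncomputable def Dt (f : ℝ × E → ℝ) (z : ℝ × E) : ℝ := fderiv ℝ f z ((1 : ℝ), (0 : E))

lemma sm_D {f : ℝ × E → ℝ} (hf : SmX f) (v : ℝ × E) : SmX (fun z => fderiv ℝ f z v) := by
  have h1 : ContDiff ℝ ((⊤ : ℕ∞) : WithTop ℕ∞) (fderiv ℝ f) := hf.fderiv_right (by norm_cast)
  exact h1.clm_apply contDiff_const

lemma sm_Di {f : ℝ × E → ℝ} (hf : SmX f) (i : Fin 4) : SmX (Di i f) := sm_D hf _

lemma sm_Dt {f : ℝ × E → ℝ} (hf : SmX f) : SmX (Dt f) := sm_D hf _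

lemma sm_diff {f : ℝ × E → ℝ} (hf : SmX f) (z : ℝ × E) : DifferentiableAt ℝ f z :=
  hf.differentiable (by simp) z

lemma has_t {f : ℝ × E → ℝ} (hf : SmX f) (t : ℝ) (x : E) :
    HasDerivAt (fun t => f (t, x)) (Dt f (t, x)) t := by
  have h1 : HasFDerivAt f (fderiv ℝ f (t, x)) (t, x) := (sm_diff hf (t, x)).hasFDerivAt
  have h2 : HasDerivAt (fun t : ℝ => ((t, x) : ℝ × E)) ((1 : ℝ), (0 : E)) t :=
    (hasDerivAt_id t).prodMk (hasDerivAt_const t x)
  exact h1.comp_hasDerivAt t h2

lemma fd_slice {f : ℝ × E → ℝ} (hf : SmX f) (t : ℝ) (x v : E) :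
    fderiv ℝ (fun y => f (t, y)) x v = fderiv ℝ f (t, x) ((0 : ℝ), v) := by
  have h1 : HasFDerivAt f (fderiv ℝ f (t, x)) (t, x) := (sm_diff hf (t, x)).hasFDerivAt
  have h2 : HasFDerivAt (fun y : E => ((t, y) : ℝ × E))
      ((0 : E →L[ℝ] ℝ).prod (ContinuousLinearMap.id ℝ E)) x :=
    (hasFDerivAt_const t x).prodMk (hasFDerivAt_id x)
  have h3 := (h1.comp x h2).fderiv
  have h4 : (f ∘ fun y : E => ((t, y) : ℝ × E)) = fun y => f (t, y) := rfl
  rw [h4] at h3
  rw [h3]
  rfl

lemma pd_slice {f : ℝ × E → ℝ} (hf : SmX f) (i : Fin 4) (t : ℝ) (x : E) :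
    pd i (fun y => f (t, y)) x = Di i f (t, x) := fd_slice hf t x _

lemma sm_slice {f : ℝ × E → ℝ} (hf : SmX f) (t : ℝ) :
    ContDiff ℝ ((⊤ : ℕ∞) : WithTop ℕ∞) (fun y => f (t, y)) :=
  hf.comp (contDiff_const.prodMk contDiff_id)

lemma symm {f : ℝ × E → ℝ} (hf : SmX f) (v w z : ℝ × E) :
    fderiv ℝ (fun z => fderiv ℝ f z v) z w = fderiv ℝ (fun z => fderiv ℝ f z w) z v := by
  have h1 : ContDiff ℝ ((⊤ : ℕ∞) : WithTop ℕ∞) (fderiv ℝ f) := hf.fderiv_right (by norm_cast)
  have hd : DifferentiableAt ℝ (fderiv ℝ f) z := h1.differentiable (by simp) z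
  have e : ∀ a b : ℝ × E, fderiv ℝ (fun z => fderiv ℝ f z a) z b =
      fderiv ℝ (fderiv ℝ f) z b a := by
    intro a b
    have h2 := (hd.hasFDerivAt.clm_apply (hasFDerivAt_const a z)).fderiv
    rw [h2]
    simp
  rw [e, e]
  have hs : IsSymmSndFDerivAt ℝ f z := by
    refine ContDiffAt.isSymmSndFDerivAt (n := ((⊤ : ℕ∞) : WithTop ℕ∞)) hf.contDiffAt ?_
    rw [minSmoothness_of_isRCLikeNormedField]
    exact WithTop.coe_le_coe.2 (le_top : (2 : ℕ∞) ≤ ⊤)
  exact hs w v

lemma Dt_Di {f : ℝ × E → ℝ} (hf : SmX f) (i : Fin 4) (z : ℝ × E) :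
    Dt (Di i f) z = Di i (Dt f) z := symm hf _ _ z

lemma lap_slice {f : ℝ × E → ℝ} (hf : SmX f) (t : ℝ) (x : E) :
    lap (fun y => f (t, y)) x = ∑ i, Di i (Di i f) (t, x) := by
  unfold lap
  refine Finset.sum_congr rfl fun i _ => ?_
  have h1 : pd i (fun y => f (t, y)) = fun y => Di i f (t, y) := by
    ext y
    exact pd_slice hf i t y
  rw [h1]
  exact pd_slice (sm_Di hf i) i t x

/-- the weight -/
noncomputable def qq (T : ℝ) (x : E) (z : ℝ × E) : ℝ := (T - z.1) ^ 2 - ‖z.2 - x‖ ^ 2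

noncomputable def ww (T : ℝ) (x : E) (z : ℝ × E) : ℝ := expNegInvGlue (qq T x z)

lemma sm_qq (T : ℝ) (x : E) : SmX (qq T x) := by
  unfold qq
  exact ((contDiff_const.sub contDiff_fst).pow 2).sub ((contDiff_snd.sub contDiff_const).norm_sq ℝ)

lemma sm_chi : ContDiff ℝ ((⊤ : ℕ∞) : WithTop ℕ∞) expNegInvGlue := expNegInvGlue.contDiff

lemma sm_ww (T : ℝ) (x : E) : SmX (ww T x) := sm_chi.comp (sm_qq T x)

lemma dchi (s : ℝ) : HasDerivAt expNegInvGlue (deriv expNegInvGlue s) s :=
  (sm_chi.differentiable (by simp) s).hasDerivAt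

lemma dchi_nonneg (s : ℝ) : 0 ≤ deriv expNegInvGlue s := expNegInvGlue.monotone.deriv_nonneg

lemma dchi_neg {s : ℝ} (hs : s < 0) : deriv expNegInvGlue s = 0 := by
  have h1 : expNegInvGlue =ᶠ[𝓝 s] fun _ => 0 := by
    filter_upwards [Iio_mem_nhds hs] with r hr
    exact expNegInvGlue.zero_of_nonpos (le_of_lt hr)
  rw [h1.deriv_eq, deriv_const]

lemma fd_qq (T : ℝ) (x : E) (z h : ℝ × E) :
    fderiv ℝ (qq T x) z h = -(2 * (T - z.1) * h.1) - 2 * inner ℝ (z.2 - x) h.2 := by
  have h1 : HasFDerivAt (fun z : ℝ × E => (T - z.1) ^ 2)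
      ((2 * (T - z.1)) • -(ContinuousLinearMap.fst ℝ ℝ E)) z := by
    have h0 : HasFDerivAt (fun z : ℝ × E => T - z.1) (-(ContinuousLinearMap.fst ℝ ℝ E)) z :=
      (hasFDerivAt_fst).const_sub T
    have := h0.pow 2
    simpa [pow_one, nsmul_eq_mul, smul_smul] using this
  have h2 : HasFDerivAt (fun z : ℝ × E => ‖z.2 - x‖ ^ 2)
      (2 • ((innerSL ℝ (z.2 - x)).comp (ContinuousLinearMap.snd ℝ ℝ E - 0))) z := by
    have h0 : HasFDerivAt (fun z : ℝ × E => z.2 - x) (ContinuousLinearMap.snd ℝ ℝ E - 0) z :=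
      (hasFDerivAt_snd).sub (hasFDerivAt_const x z)
    exact h0.norm_sq
  have h3 := (h1.sub h2).fderiv
  have h4 : ((fun z : ℝ × E => (T - z.1) ^ 2) - fun z : ℝ × E => ‖z.2 - x‖ ^ 2) = qq T x := by
    ext z
    rfl
  rw [h4] at h3
  rw [h3]
  have e1 : ((2 * (T - z.1)) • -(ContinuousLinearMap.fst ℝ ℝ E)) h = -(2 * (T - z.1) * h.1) := by
    show 2 * (T - z.1) * -h.1 = _
    ring
  have e2 : (2 • ((innerSL ℝ (z.2 - x)).comp (ContinuousLinearMap.snd ℝ ℝ E - 0))) h =
      2 * inner ℝ (z.2 - x) h.2 := by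
    rw [sub_zero, two_smul, two_mul]
    rfl
  show ((2 * (T - z.1)) • -(ContinuousLinearMap.fst ℝ ℝ E)) h -
    (2 • ((innerSL ℝ (z.2 - x)).comp (ContinuousLinearMap.snd ℝ ℝ E - 0))) h = _
  rw [e1, e2]

lemma fd_ww (T : ℝ) (x : E) (z h : ℝ × E) :
    fderiv ℝ (ww T x) z h = deriv expNegInvGlue (qq T x z) *
      (-(2 * (T - z.1) * h.1) - 2 * inner ℝ (z.2 - x) h.2) := by
  have h1 : HasFDerivAt (qq T x) (fderiv ℝ (qq T x) z) z :=
    (sm_diff (sm_qq T x) z).hasFDerivAt
  have h2 := ((dchi (qq T x z)).comp_hasFDerivAt z h1).fderiv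
  have h3 : (expNegInvGlue ∘ qq T x) = ww T x := rfl
  rw [h3] at h2
  rw [h2, smul_apply, fd_qq, smul_eq_mul]

lemma Dt_ww (T : ℝ) (x : E) (z : ℝ × E) :
    Dt (ww T x) z = deriv expNegInvGlue (qq T x z) * (-(2 * (T - z.1))) := by
  unfold Dt
  rw [fd_ww]
  simp

lemma Di_ww (T : ℝ) (x : E) (i : Fin 4) (z : ℝ × E) :
    Di i (ww T x) z = deriv expNegInvGlue (qq T x z) * (-(2 * (z.2 - x) i)) := by
  unfold Di
  rw [fd_ww]
  simp [EuclideanSpace.inner_single_right]

lemma qq_neg {T : ℝ} {x : E} {r : ℝ} {y : E} {M : ℝ} (hr : |T - r| ≤ M)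
    (hy : y ∉ Metric.closedBall x M) : qq T x (r, y) < 0 := by
  rw [Metric.mem_closedBall, dist_eq_norm, not_le] at hy
  unfold qq
  have h1 : (T - r) ^ 2 ≤ M ^ 2 := by
    rw [← sq_abs]
    have := abs_nonneg (T - r)
    gcongr
  have h2 : M ^ 2 < ‖y - x‖ ^ 2 := by
    have h3 : 0 ≤ M := (abs_nonneg _).trans hr
    gcongr
  show (T - r) ^ 2 - ‖y - x‖ ^ 2 < 0
  linarith

lemma int_of_zero {g : E → ℝ} (hg : Continuous g) (x : E) (M : ℝ)
    (h0 : ∀ y, y ∉ Metric.closedBall x M → g y = 0) : Integrable g volume :=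
  hg.integrable_of_hasCompactSupport (HasCompactSupport.intro (isCompact_closedBall x M) h0)

/-- the algebraic inequality -/
lemma alg {R v : ℝ} (p a : Fin 4 → ℝ) (hR : 0 ≤ R) (ha : ∑ i, a i ^ 2 ≤ R ^ 2) :
    -(2 * R) * (∑ i, p i ^ 2 + v ^ 2) - 2 * ∑ i, (-(2 * a i)) * (v * p i) ≤ 0 := by
  have e1 : 2 * ∑ i, (-(2 * a i)) * (v * p i) = -(4 * (v * ∑ i, a i * p i)) := by
    rw [Finset.mul_sum, Finset.mul_sum, Finset.mul_sum, ← Finset.sum_neg_distrib]
    refine Finset.sum_congr rfl fun i _ => ?_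
    ring
  rw [e1]
  rcases hR.eq_or_lt with h | h
  · have h0 : ∀ i, a i = 0 := by
      have h1 : ∑ i, a i ^ 2 = 0 := by
        refine le_antisymm ?_ (Finset.sum_nonneg fun i _ => sq_nonneg _)
        rw [← h] at ha
        simpa using ha
      intro i
      have h2 := (Finset.sum_eq_zero_iff_of_nonneg fun i _ => sq_nonneg (a i)).1 h1 i
        (Finset.mem_univ i)
      exact pow_eq_zero_iff (two_ne_zero) |>.1 h2
    simp only [h0, zero_mul, Finset.sum_const_zero, mul_zero, neg_zero, sub_zero, ← h]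
    simp
  · have h1 : 0 ≤ ∑ i, (R * p i - a i * v) ^ 2 := Finset.sum_nonneg fun i _ => sq_nonneg _
    have h2 : ∑ i, (R * p i - a i * v) ^ 2 =
        R ^ 2 * ∑ i, p i ^ 2 - 2 * R * (v * ∑ i, a i * p i) + v ^ 2 * ∑ i, a i ^ 2 := by
      rw [Finset.mul_sum, Finset.mul_sum, Finset.mul_sum, Finset.mul_sum, ← Finset.sum_sub_distrib,
        ← Finset.sum_add_distrib]
      refine Finset.sum_congr rfl fun i _ => ?_
      ring
    have h3 : v ^ 2 * ∑ i, a i ^ 2 ≤ v ^ 2 * R ^ 2 := by gcongr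
    have h4 : 0 ≤ R * (R * (∑ i, p i ^ 2 + v ^ 2) - 2 * (v * ∑ i, a i * p i)) := by
      nlinarith
    have h5 : 0 ≤ R * (∑ i, p i ^ 2 + v ^ 2) - 2 * (v * ∑ i, a i * p i) :=
      nonneg_of_mul_nonneg_right h4 h
    linarith

end WvBx

open WvBx

/-- the case of positive times -/
theorem WvBx.pos {u v : ℝ × E → ℝ} (hu : SmX u) (hv : SmX v)
    (hw : ∀ t x, HasDerivAt (fun t => u (t, x)) (v (t, x)) t ∧
      HasDerivAt (fun t => v (t, x)) (lap (fun y => u (t, y)) x) t)
    {T : ℝ} (hT : 0 < T) (x : E) (h0 : ∀ y, dist y x ≤ T → u (0, y) = 0 ∧ v (0, y) = 0) :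
    u (T, x) = 0 ∧ v (T, x) = 0 := by
  have hut : Dt u = v := by
    ext ⟨t, y⟩
    exact (has_t hu t y).unique (hw t y).1
  have hvt : ∀ z, Dt v z = ∑ i, Di i (Di i u) z := by
    rintro ⟨t, y⟩
    rw [← lap_slice hu t y]
    exact (has_t hv t y).unique (hw t y).2
  have smw := sm_ww T x
  set e : ℝ × E → ℝ := fun z => ∑ i, Di i u z ^ 2 + v z ^ 2 with he
  have sme : SmX e := by
    refine ContDiff.add ?_ (hv.pow 2)
    exact ContDiff.sum fun i _ => (sm_Di hu i).pow 2
  set G : Fin 4 → ℝ × E → ℝ := fun i z => v z * Di i u z with hG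
  have smG : ∀ i, SmX (G i) := fun i => hv.mul (sm_Di hu i)
  have DG : ∀ i z, Di i (G i) z = v z * Di i (Di i u) z + Di i u z * Di i v z := by
    intro i z
    have h1 := ((sm_diff hv z).hasFDerivAt.mul (sm_diff (sm_Di hu i) z).hasFDerivAt).fderiv
    have h2 : Di i (G i) z = fderiv ℝ (fun z => v z * Di i u z) z
      ((0 : ℝ), EuclideanSpace.single i (1 : ℝ)) := rfl
    have h3 : (v * Di i u) = fun z => v z * Di i u z := rfl
    rw [h3] at h1
    rw [h2, h1]
    simp only [add_apply, smul_apply, smul_eq_mul]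
    rfl
  set F : ℝ × E → ℝ := fun z => ww T x z * e z with hF
  set F' : ℝ × E → ℝ := fun z => Dt (ww T x) z * e z + 2 * ∑ i, ww T x z * Di i (G i) z with hF'
  have smF' : SmX F' := by
    refine ((sm_Dt smw).mul sme).add (contDiff_const.mul ?_)
    exact ContDiff.sum fun i _ => smw.mul (sm_Di (smG i) i)
  have hderF : ∀ r y, HasDerivAt (fun r => F (r, y)) (F' (r, y)) r := by
    intro r y
    have h1 : HasDerivAt (fun r => e (r, y))
        (∑ i, 2 * Di i u (r, y) * Dt (Di i u) (r, y) + 2 * v (r, y) * Dt v (r, y)) r := by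
      have a1 : ∀ i ∈ (Finset.univ : Finset (Fin 4)), HasDerivAt (fun r => Di i u (r, y) ^ 2)
          (2 * Di i u (r, y) * Dt (Di i u) (r, y)) r := by
        intro i _
        have := (has_t (sm_Di hu i) r y).fun_pow 2
        simpa using this
      have a2 : HasDerivAt (fun r => v (r, y) ^ 2) (2 * v (r, y) * Dt v (r, y)) r := by
        have := (has_t hv r y).fun_pow 2
        simpa using this
      have a3 := (HasDerivAt.fun_sum a1).add a2
      exact a3
    have h2 := (has_t smw r y).mul h1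
    refine h2.congr_deriv ?_
    simp only [hF']
    congr 1
    rw [hvt]
    simp only [DG, Dt_Di hu, hut]
    rw [Finset.mul_sum, Finset.mul_sum, ← Finset.sum_add_distrib, Finset.mul_sum]
    refine Finset.sum_congr rfl fun i _ => ?_
    ring
  have zw : ∀ {r : ℝ} {y : E}, qq T x (r, y) < 0 → ww T x (r, y) = 0 := fun h =>
    expNegInvGlue.zero_of_nonpos h.le
  have zDt : ∀ {r : ℝ} {y : E}, qq T x (r, y) < 0 → Dt (ww T x) (r, y) = 0 := fun h => by
    rw [Dt_ww, dchi_neg h, zero_mul]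
  have zDi : ∀ {r : ℝ} {y : E} (i : Fin 4), qq T x (r, y) < 0 → Di i (ww T x) (r, y) = 0 :=
    fun i h => by rw [Di_ww, dchi_neg h, zero_mul]
  have zF : ∀ {r : ℝ} {y : E}, qq T x (r, y) < 0 → F (r, y) = 0 := fun h => by
    simp only [hF, zw h, zero_mul]
  have zF' : ∀ {r : ℝ} {y : E}, qq T x (r, y) < 0 → F' (r, y) = 0 := fun h => by
    simp only [hF', zw h, zDt h, zero_mul, Finset.sum_const_zero, mul_zero, add_zero]
  have csl : ∀ {f : ℝ × E → ℝ}, SmX f → ∀ r, Continuous fun y => f (r, y) := fun hf r =>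
    hf.continuous.comp (by fun_prop)
  have smF : SmX F := smw.mul sme
  -- the energy
  set I : ℝ → ℝ := fun r => ∫ y, F (r, y) with hI
  have hderI : ∀ r, HasDerivAt I (∫ y, F' (r, y)) r := by
    intro r
    set M : ℝ := |T - r| + 1 with hM
    obtain ⟨B, hB⟩ := ((isCompact_closedBall r 1).prod (isCompact_closedBall x M)).exists_bound_of_continuousOn
      smF'.continuous.continuousOn
    have hrM : ∀ s ∈ Metric.ball r 1, |T - s| ≤ M := by
      intro s hs
      rw [Metric.mem_ball, dist_comm, Real.dist_eq] at hs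
      have : T - s = (T - r) + (r - s) := by ring
      rw [this]
      refine (abs_add_le _ _).trans ?_
      rw [hM]
      linarith
    refine (hasDerivAt_integral_of_dominated_loc_of_deriv_le
      (bound := (Metric.closedBall x M).indicator fun _ => B)
      (Metric.ball_mem_nhds r one_pos) (Eventually.of_forall fun s =>
        (csl smF s).aestronglyMeasurable)
      (int_of_zero (csl smF r) x |T - r| fun y hy => zF (qq_neg le_rfl hy))
      (F' := fun s y => F' (s, y)) (csl smF' r).aestronglyMeasurable ?_ ?_ ?_).2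
    · refine Eventually.of_forall fun y s hs => ?_
      by_cases hy : y ∈ Metric.closedBall x M
      · rw [indicator_of_mem hy]
        exact hB (s, y) ⟨Metric.ball_subset_closedBall hs, hy⟩
      · rw [indicator_of_notMem hy, zF' (qq_neg (hrM s hs) hy), norm_zero]
    · rw [integrable_indicator_iff Metric.isClosed_closedBall.measurableSet]
      exact integrableOn_const (measure_closedBall_lt_top).ne
    · exact Eventually.of_forall fun y s _ => hderF s y
  have hneg : ∀ r, r ≤ T → ∫ y, F' (r, y) ≤ 0 := by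
    intro r hr
    have i1 : Integrable (fun y => Dt (ww T x) (r, y) * e (r, y)) volume :=
      int_of_zero ((csl (sm_Dt smw) r).mul (csl sme r)) x |T - r| fun y hy => by
        rw [zDt (qq_neg le_rfl hy), zero_mul]
    have i2 : ∀ i, Integrable (fun y => ww T x (r, y) * Di i (G i) (r, y)) volume := fun i =>
      int_of_zero ((csl smw r).mul (csl (sm_Di (smG i) i) r)) x |T - r| fun y hy => by
        rw [zw (qq_neg le_rfl hy), zero_mul]
    have i3 : ∀ i, Integrable (fun y => Di i (ww T x) (r, y) * G i (r, y)) volume := fun i =>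
      int_of_zero ((csl (sm_Di smw i) r).mul (csl (smG i) r)) x |T - r| fun y hy => by
        rw [zDi i (qq_neg le_rfl hy), zero_mul]
    have i4 : ∀ i, Integrable (fun y => ww T x (r, y) * G i (r, y)) volume := fun i =>
      int_of_zero ((csl smw r).mul (csl (smG i) r)) x |T - r| fun y hy => by
        rw [zw (qq_neg le_rfl hy), zero_mul]
    have ibp : ∀ i, ∫ y, ww T x (r, y) * Di i (G i) (r, y) =
        - ∫ y, Di i (ww T x) (r, y) * G i (r, y) := by
      intro i
      have e1 : ∀ y, Di i (G i) (r, y) =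
          fderiv ℝ (fun y => G i (r, y)) y (EuclideanSpace.single i (1 : ℝ)) := fun y =>
        (fd_slice (smG i) r y _).symm
      have e2 : ∀ y, Di i (ww T x) (r, y) =
          fderiv ℝ (fun y => ww T x (r, y)) y (EuclideanSpace.single i (1 : ℝ)) := fun y =>
        (fd_slice smw r y _).symm
      have j2 := i2 i
      have j3 := i3 i
      simp only [e1] at j2 ⊢
      simp only [e2] at j3 ⊢
      exact integral_mul_fderiv_eq_neg_fderiv_mul_of_integrable j3 j2 (i4 i)
        (fun y _ => (sm_slice smw r).differentiable (by simp) y)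
        (fun y _ => (sm_slice (smG i) r).differentiable (by simp) y)
    have e3 : ∫ y, F' (r, y) = ∫ y, (Dt (ww T x) (r, y) * e (r, y) -
        2 * ∑ i, Di i (ww T x) (r, y) * G i (r, y)) := by
      simp only [hF']
      rw [integral_add i1 ((integrable_finsetSum _ fun i _ => i2 i).const_mul 2),
        integral_sub i1 ((integrable_finsetSum _ fun i _ => i3 i).const_mul 2),
        integral_const_mul, integral_const_mul, integral_finsetSum _ fun i _ => i2 i,
        integral_finsetSum _ fun i _ => i3 i]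
      simp only [ibp]
      rw [Finset.sum_neg_distrib]
      ring
    rw [e3]
    refine integral_nonpos fun y => ?_
    show Dt (ww T x) (r, y) * e (r, y) - 2 * ∑ i, Di i (ww T x) (r, y) * G i (r, y) ≤ 0
    rcases lt_or_ge (qq T x (r, y)) 0 with hq | hq
    · rw [zDt hq]
      simp only [zDi _ hq, zero_mul, Finset.sum_const_zero, mul_zero, sub_zero, le_refl]
    · have hR : 0 ≤ T - r := by linarith
      have hn : ∑ i, (y - x) i ^ 2 ≤ (T - r) ^ 2 := by
        have h1 : ‖y - x‖ ^ 2 = ∑ i, (y - x) i ^ 2 := by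
          rw [EuclideanSpace.norm_sq_eq]
          simp only [Real.norm_eq_abs, sq_abs]
        rw [← h1]
        have h2 : qq T x (r, y) = (T - r) ^ 2 - ‖y - x‖ ^ 2 := rfl
        rw [h2] at hq
        linarith
      have h3 := alg (v := v (r, y)) (fun i => Di i u (r, y)) (fun i => (y - x) i) hR hn
      have h4 : Dt (ww T x) (r, y) * e (r, y) - 2 * ∑ i, Di i (ww T x) (r, y) * G i (r, y) =
          deriv expNegInvGlue (qq T x (r, y)) *
          (-(2 * (T - r)) * (∑ i, Di i u (r, y) ^ 2 + v (r, y) ^ 2) -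
            2 * ∑ i, (-(2 * (y - x) i)) * (v (r, y) * Di i u (r, y))) := by
        rw [Dt_ww]
        simp only [Di_ww, he, hG]
        have e4 : ∑ i, deriv expNegInvGlue (qq T x (r, y)) * (-(2 * (y - x) i)) *
            (v (r, y) * Di i u (r, y)) = deriv expNegInvGlue (qq T x (r, y)) *
            ∑ i, (-(2 * (y - x) i)) * (v (r, y) * Di i u (r, y)) := by
          rw [Finset.mul_sum]
          refine Finset.sum_congr rfl fun i _ => ?_
          ring
        rw [e4]
        ring
      rw [h4]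
      exact mul_nonpos_of_nonneg_of_nonpos (dchi_nonneg _) h3
  have hanti : AntitoneOn I (Icc 0 T) := by
    refine antitoneOn_of_deriv_nonpos (convex_Icc 0 T)
      (fun r _ => (hderI r).continuousAt.continuousWithinAt)
      (fun r _ => (hderI r).differentiableAt.differentiableWithinAt) fun r hr => ?_
    rw [(hderI r).deriv]
    rw [interior_Icc] at hr
    exact hneg r hr.2.le
  have hI0 : I 0 = 0 := by
    have : ∀ y, F (0, y) = 0 := by
      intro y
      rcases le_or_gt (qq T x (0, y)) 0 with hq | hq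
      · simp only [hF, ww, expNegInvGlue.zero_of_nonpos hq, zero_mul]
      · have hy : ‖y - x‖ < T := by
          have h2 : qq T x (0, y) = (T - 0) ^ 2 - ‖y - x‖ ^ 2 := rfl
          rw [h2, sub_zero] at hq
          exact lt_of_pow_lt_pow_left₀ 2 hT.le (by linarith)
        have hev : (fun y => u (0, y)) =ᶠ[𝓝 y] fun _ => 0 := by
          have : Metric.ball x T ∈ 𝓝 y := by
            refine Metric.isOpen_ball.mem_nhds ?_
            rw [Metric.mem_ball, dist_eq_norm]
            exact hy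
          filter_upwards [this] with y' hy'
          exact (h0 y' (Metric.mem_ball.1 hy').le).1
        have hd : ∀ i, Di i u (0, y) = 0 := by
          intro i
          rw [← pd_slice hu i 0 y]
          unfold pd
          rw [hev.fderiv_eq]
          simp
        have hvv : v (0, y) = 0 := (h0 y (by rw [dist_eq_norm]; exact hy.le)).2
        simp only [hF, he, hd, hvv]
        simp
    simp only [hI, this, integral_zero]
  have hFnn : ∀ r y, 0 ≤ F (r, y) := fun r y =>
    mul_nonneg (expNegInvGlue.nonneg _)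
      (add_nonneg (Finset.sum_nonneg fun i _ => sq_nonneg _) (sq_nonneg _))
  have hvr : ∀ r, 0 ≤ r → r < T → v (r, x) = 0 := by
    intro r hr0 hrT
    have h1 : I r ≤ 0 := by
      rw [← hI0]
      exact hanti ⟨le_rfl, hT.le⟩ ⟨hr0, hrT.le⟩ hr0
    have h2 : I r = 0 := le_antisymm h1 (integral_nonneg fun y => hFnn r y)
    have hint : Integrable (fun y => F (r, y)) volume :=
      int_of_zero (csl smF r) x |T - r| fun y hy => zF (qq_neg le_rfl hy)
    have h3 : (fun y => F (r, y)) =ᵐ[volume] 0 :=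
      (integral_eq_zero_iff_of_nonneg (fun y => hFnn r y) hint).1 h2
    have h4 : (fun y => F (r, y)) = 0 :=
      ((csl smF r).ae_eq_iff_eq volume continuous_zero).1 h3
    have h5 : F (r, x) = 0 := congrFun h4 x
    have h6 : 0 < ww T x (r, x) := by
      apply expNegInvGlue.pos_of_pos
      show 0 < (T - r) ^ 2 - ‖x - x‖ ^ 2
      rw [sub_self, norm_zero]
      have h61 : 0 < T - r := by linarith
      have h62 : 0 < (T - r) ^ 2 := by positivity
      simpa using h62
    have h7 : e (r, x) = 0 := by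
      rcases mul_eq_zero.1 h5 with h | h
      · exact absurd h h6.ne'
      · exact h
    have h8 : v (r, x) ^ 2 ≤ 0 := by
      have h9 : 0 ≤ ∑ i, Di i u (r, x) ^ 2 := Finset.sum_nonneg fun i _ => sq_nonneg _
      have h10 : ∑ i, Di i u (r, x) ^ 2 + v (r, x) ^ 2 = 0 := h7
      linarith
    exact pow_eq_zero_iff (two_ne_zero) |>.1 (le_antisymm h8 (sq_nonneg _))
  have hv0 : ∀ r ∈ Icc 0 T, v (r, x) = 0 := by
    have hc : Continuous fun r => v (r, x) := hv.continuous.comp (by fun_prop)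
    have hcl : IsClosed {r : ℝ | v (r, x) = 0} := isClosed_singleton.preimage hc
    have h1 : closure (Ico 0 T) ⊆ {r : ℝ | v (r, x) = 0} :=
      closure_minimal (fun r hr => hvr r hr.1 hr.2) hcl
    rw [closure_Ico hT.ne] at h1
    exact fun r hr => h1 hr
  have hu0 : u (T, x) = u (0, x) := by
    have h1 : ∀ r ∈ Ico (0 : ℝ) T, HasDerivWithinAt (fun r => u (r, x)) 0 (Ici r) r := by
      intro r hr
      have := (hw r x).1
      rw [hv0 r ⟨hr.1, hr.2.le⟩] at this
      exact this.hasDerivWithinAt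
    have hc : ContinuousOn (fun r => u (r, x)) (Icc 0 T) :=
      (hu.continuous.comp (by fun_prop)).continuousOn
    exact constant_of_has_deriv_right_zero hc h1 T ⟨hT.le, le_rfl⟩
  refine ⟨?_, hv0 T ⟨hT.le, le_rfl⟩⟩
  rw [hu0]
  exact (h0 x (by rw [dist_self]; exact hT.le)).1

theorem thm_WvB : St_WvB := by
  intro u v hu hv hw t x h0
  rcases lt_trichotomy t 0 with ht | rfl | ht
  · rw [abs_of_neg ht] at h0
    have hneg : ContDiff ℝ ((⊤ : ℕ∞) : WithTop ℕ∞) fun z : ℝ × E => ((-z.1, z.2) : ℝ × E) :=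
      contDiff_fst.neg.prodMk contDiff_snd
    have hu' : SmX fun z => u (-z.1, z.2) := hu.comp hneg
    have hv' : SmX fun z => - v (-z.1, z.2) := (hv.comp hneg).neg
    have h := WvBx.pos hu' hv' (fun s y => ?_) (T := -t) (by linarith) x (fun y hy => ?_)
    · simp only [neg_neg] at h
      exact ⟨h.1, neg_eq_zero.1 h.2⟩
    · have h1 := (hw (-s) y).1
      have h2 := (hw (-s) y).2
      have h3 : HasDerivAt (fun s : ℝ => -s) (-1) s := hasDerivAt_neg s
      constructor
      · have := HasDerivAt.comp s h1 h3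
        rw [mul_neg_one] at this
        exact this
      · have := (HasDerivAt.comp s h2 h3).neg
        rw [mul_neg_one, neg_neg] at this
        exact this
    · have := h0 y hy
      simp only [neg_zero]
      exact ⟨this.1, by rw [this.2, neg_zero]⟩
  · exact h0 x (by simp)
  · rw [abs_of_pos ht] at h0
    exact WvBx.pos hu hv hw ht x h0

end Pool.Agent.QWF
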