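import Pool.Agent.QWF.StA

set_option autoImplicit false

/-!
# QWF, WvS: solutions of the wave equation with test data
-/

open MeasureTheory Filter Topology Set
open scoped ENNReal NNReal RealInnerProductSpace FourierTransform

namespace Pool.Agent.QWF

namespace WvSx

/-- Fourier inversion -/
theorem inv {w : E → ℝ} {M : E → ℂ} (hw : IsTest w) (hM : Continuous M)
    (hMi : Integrable M volume) (h : ∀ x : E, (w x : ℂ) =
      ∫ ξ, M ξ * Complex.exp (2 * Real.pi * Complex.I * ((inner ℝ x ξ : ℝ) : ℂ))) (ξ : E) :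
    ft w ξ = M ξ := by
  have h1 : 𝓕⁻ M = fun x => (w x : ℂ) := by
    funext x
    rw [Real.fourierInv_eq', h x]
    refine integral_congr_ae (Eventually.of_forall fun y => ?_)
    simp only [smul_eq_mul]
    rw [mul_comm, real_inner_comm]
    congr 2
    push_cast
    ring
  have hwi : Integrable (fun x => (w x : ℂ)) volume :=
    (hw.1.continuous.integrable_of_hasCompactSupport hw.2).ofReal
  have h3 : 𝓕 M = fun x => ((w (-x) : ℝ) : ℂ) := by
    funext x
    have h4 := congrFun h1 (-x)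
    rw [Real.fourierInv_eq_fourier_neg, neg_neg] at h4
    exact h4
  have h2 : 𝓕 (𝓕⁻ M) = M := hM.fourier_fourierInv_eq hMi (by rw [h3]; exact hwi.comp_neg)
  rw [← congrFun h2 ξ, h1, Real.fourier_eq', ft]
  refine integral_congr_ae (Eventually.of_forall fun x => ?_)
  simp only [smul_eq_mul]
  rw [mul_comm]
  congr 2
  push_cast
  ring

/-- compact support -/
theorem supp {f g w : E → ℝ} {t : ℝ} (hf : IsTest f) (hg : IsTest g)
    (hw : ∀ x, (∀ y, dist y x ≤ |t| → f y = 0 ∧ g y = 0) → w x = 0) : HasCompactSupport w := by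
  obtain ⟨R, hR⟩ := (hf.2.isCompact.isBounded.union hg.2.isCompact.isBounded).subset_closedBall 0
  refine HasCompactSupport.of_support_subset_isCompact (isCompact_closedBall (0 : E) (R + |t|)) ?_
  intro x hx
  by_contra hx'
  refine hx (hw x fun y hy => ?_)
  have h1 : ¬ y ∈ Metric.closedBall (0 : E) R := by
    intro hy'
    apply hx'
    rw [Metric.mem_closedBall] at hy' ⊢
    calc dist x 0 ≤ dist x y + dist y 0 := dist_triangle _ _ _
      _ ≤ |t| + R := by
        rw [dist_comm x y]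
        exact add_le_add hy hy'
      _ = R + |t| := add_comm _ _
  have h2 : y ∉ tsupport f ∪ tsupport g := fun h => h1 (hR h)
  exact ⟨image_eq_zero_of_notMem_tsupport fun h => h2 (Or.inl h),
    image_eq_zero_of_notMem_tsupport fun h => h2 (Or.inr h)⟩

end WvSx

theorem thm_WvS (hA : St_WvA) (hB : St_WvB) : St_WvS := by
  intro f g hf hg
  obtain ⟨u, v, hu, hv, h0, hd, hF⟩ := hA f g hf hg
  have hdom : ∀ t x, (∀ y, dist y x ≤ |t| → f y = 0 ∧ g y = 0) → u (t, x) = 0 ∧ v (t, x) = 0 :=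
    fun t x h => hB u v hu hv hd t x fun y hy => by
      rw [(h0 y).1, (h0 y).2]
      exact h y hy
  have hsm : ∀ (w : ℝ × E → ℝ), ContDiff ℝ ((⊤ : ℕ∞) : WithTop ℕ∞) w → ∀ t : ℝ,
      ContDiff ℝ ((⊤ : ℕ∞) : WithTop ℕ∞) fun x : E => w (t, x) := fun w hw t =>
    hw.comp (contDiff_const.prodMk contDiff_id)
  have hut : ∀ t, IsTest fun x => u (t, x) := fun t =>
    ⟨hsm u hu t, WvSx.supp hf hg fun x h => (hdom t x h).1⟩
  have hvt : ∀ t, IsTest fun x => v (t, x) := fun t =>
    ⟨hsm v hv t, WvSx.supp hf hg fun x h => (hdom t x h).2⟩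
  refine ⟨u, v, hu, hv, h0, hd, hdom, fun t => ⟨hut t, hvt t, ?_⟩⟩
  obtain ⟨M, N, hM, hN, hMi, hNi, hMe, hNe, hI⟩ := hF t
  refine ⟨fun ξ => ?_, fun ξ => ?_⟩
  · rw [WvSx.inv (hut t) hM hMi (fun x => (hI x).1) ξ]
    exact hMe ξ
  · rw [WvSx.inv (hvt t) hN hNi (fun x => (hI x).2) ξ]
    exact hNe ξ

end Pool.Agent.QWF
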