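import Pool.Agent.QWF.StB

/-!
# QWF, module Z1: energy zero
-/

set_option autoImplicit false

open MeasureTheory Filter Topology Set
open scoped ENNReal NNReal RealInnerProductSpace

namespace Pool.Agent.QWF

namespace Z1x

private lemma abs_sig {b : ℝ} (hb : 4 < b) : |sig b| < 1 / 2 := by
  have h0 : 0 < b := by linarith
  have h1 : 0 < 2 / b := by positivity
  have h2 : 2 / b < 1 := by rw [div_lt_one h0]; linarith
  unfold sig
  rw [abs_lt]
  constructor <;> linarith

private lemma ae_zero {f : E → ℝ} {p : ℝ} (hp : 0 < p)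
    (hf : MemLp f (ENNReal.ofReal p) volume) (h : ∫ x, |f x| ^ p = 0) : f =ᵐ[volume] 0 := by
  have h0 : ∀ x, 0 ≤ |f x| ^ p := fun x => Real.rpow_nonneg (abs_nonneg _) _
  have hi : Integrable (fun x => |f x| ^ p) volume := by
    have h1 := hf.integrable_norm_rpow (ENNReal.ofReal_pos.2 hp).ne' ENNReal.ofReal_ne_top
    rw [ENNReal.toReal_ofReal hp.le] at h1
    exact h1
  have h2 := (integral_eq_zero_iff_of_nonneg h0 hi).1 h
  filter_upwards [h2] with x hx
  have h3 : |f x| ^ p = 0 := hx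
  rw [Real.rpow_eq_zero (abs_nonneg _) hp.ne'] at h3
  exact abs_eq_zero.1 h3

private lemma orth (s : ℝ) (k : K) (hU : ∀ φ, IsTest φ → inner ℝ k (Rs s φ) = 0)
    (hV : ∀ φ, IsTest φ → inner ℝ k (dRs s φ) = 0) (hT : TS s univ = ⊤) : k = 0 := by
  have hk : k ∈ TS s univ := by
    rw [hT]
    exact Submodule.mem_top
  have h1 : ∀ w ∈ Submodule.span ℝ {w : K | ∃ φ, IsTest φ ∧ tsupport φ ⊆ univ ∧
      (w = Rs s φ ∨ w = dRs s φ)}, inner ℝ k w = 0 := by
    intro w hw
    induction hw using Submodule.span_induction with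
    | mem w hw =>
      obtain ⟨φ, hφ, -, h | h⟩ := hw
      · rw [h]
        exact hU φ hφ
      · rw [h]
        exact hV φ hφ
    | zero => exact inner_zero_right _
    | add x y _ _ hx hy => rw [inner_add_right, hx, hy, add_zero]
    | smul c x _ hx => rw [inner_smul_right, hx, mul_zero]
  have h2 : closure ((Submodule.span ℝ {w : K | ∃ φ, IsTest φ ∧ tsupport φ ⊆ univ ∧
      (w = Rs s φ ∨ w = dRs s φ)} : Submodule ℝ K) : Set K) ⊆ {w : K | inner ℝ k w = 0} := by
    refine closure_minimal (fun w hw => h1 w hw) ?_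
    exact isClosed_eq (by fun_prop) continuous_const
  have h3 : inner ℝ k k = 0 := by
    have h4 : k ∈ closure ((Submodule.span ℝ {w : K | ∃ φ, IsTest φ ∧ tsupport φ ⊆ univ ∧
      (w = Rs s φ ∨ w = dRs s φ)} : Submodule ℝ K) : Set K) := by
      rw [← Submodule.topologicalClosure_coe]
      exact hk
    exact h2 h4
  exact inner_self_eq_zero.1 h3

end Z1x

open Z1x

/-- **Z1**: energy zero -/
theorem thm_Z1 (hDns : St_DnsP) (hFld : St_FldP) (hEnS : St_EnS) : St_Z1 := by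
  intro b hb k B hEB
  have hs := abs_sig hb
  have hb2 : 0 < b + 2 := by linarith
  have n1 : 0 ≤ ∑ i, ∫ x, DU (sig b) k i x ^ 2 :=
    Finset.sum_nonneg fun i _ => integral_nonneg fun x => sq_nonneg _
  have n2 : 0 ≤ ∫ x, V (sig b) k x ^ 2 := integral_nonneg fun x => sq_nonneg _
  have n3 : 0 ≤ ∫ x, |U (sig b) k x| ^ (b + 2) :=
    integral_nonneg fun x => Real.rpow_nonneg (abs_nonneg _) _
  have n4 : 0 ≤ (∫ x, |U (sig b) k x| ^ (b + 2)) / (b + 2) := div_nonneg n3 hb2.le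
  have hE : En b k = (∑ i, ∫ x, DU (sig b) k i x ^ 2) / 2 + (∫ x, V (sig b) k x ^ 2) / 2 +
    (∫ x, |U (sig b) k x| ^ (b + 2)) / (b + 2) := rfl
  refine ⟨by rw [hE]; positivity, fun h0 => ?_⟩
  rw [hE] at h0
  obtain ⟨C, -, hF, -⟩ := hFld (sig b) hs
  obtain ⟨⟨-, hUφ⟩, -, ⟨hVm, hVφ⟩, -⟩ := hF k
  have hV2 : MemLp (V (sig b) k) (ENNReal.ofReal 2) volume :=
    ⟨hVm.1, by
      have h1 := hEB.2.1.trans_lt ENNReal.ofReal_lt_top
      rw [show ENNReal.ofReal 2 = (2 : ℝ≥0∞) by norm_num]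
      exact h1⟩
  have hV0 : V (sig b) k =ᵐ[volume] 0 := by
    refine ae_zero (p := 2) two_pos hV2 ?_
    have h1 : ∫ x, |V (sig b) k x| ^ (2 : ℝ) = ∫ x, V (sig b) k x ^ 2 := by
      refine integral_congr_ae (Eventually.of_forall fun x => ?_)
      show |V (sig b) k x| ^ (2 : ℝ) = V (sig b) k x ^ 2
      rw [Real.rpow_two, sq_abs]
    rw [h1]
    linarith
  have hU0 : U (sig b) k =ᵐ[volume] 0 := by
    refine ae_zero hb2 ((hEnS b hb).1 k B hEB).2.1 ?_
    have h1 : (∫ x, |U (sig b) k x| ^ (b + 2)) / (b + 2) = 0 := by linarith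
    rcases div_eq_zero_iff.1 h1 with h | h
    · exact h
    · exact absurd h hb2.ne'
  refine orth (sig b) k ?_ ?_ (hDns (sig b) (by linarith [(abs_lt.1 hs).1]) (abs_lt.1 hs).2).1
  · intro φ hφ
    rw [← hUφ φ hφ]
    have : (fun x => U (sig b) k x * φ x) =ᵐ[volume] fun _ => (0 : ℝ) := by
      filter_upwards [hU0] with x hx
      rw [hx]
      simp
    rw [integral_congr_ae this]
    simp
  · intro φ hφ
    rw [← hVφ φ hφ]
    have : (fun x => V (sig b) k x * φ x) =ᵐ[volume] fun _ => (0 : ℝ) := by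
      filter_upwards [hV0] with x hx
      rw [hx]
      simp
    rw [integral_congr_ae this]
    simp

end Pool.Agent.QWF
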