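import Pool.Agent.QWF.ABd
import Pool.Agent.QWF.ACq
import Pool.Agent.QWF.ActP
import Pool.Agent.QWF.ApW
import Pool.Agent.QWF.ApxP
import Pool.Agent.QWF.Blow
import Pool.Agent.QWF.Br1
import Pool.Agent.QWF.Br2
import Pool.Agent.QWF.Br3
import Pool.Agent.QWF.C0
import Pool.Agent.QWF.C1
import Pool.Agent.QWF.C1a
import Pool.Agent.QWF.C2
import Pool.Agent.QWF.C2a
import Pool.Agent.QWF.C2b
import Pool.Agent.QWF.C3
import Pool.Agent.QWF.C4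
import Pool.Agent.QWF.C5
import Pool.Agent.QWF.C6
import Pool.Agent.QWF.CSy
import Pool.Agent.QWF.Core
import Pool.Agent.QWF.CutM
import Pool.Agent.QWF.CutP
import Pool.Agent.QWF.D1P
import Pool.Agent.QWF.D2
import Pool.Agent.QWF.D3
import Pool.Agent.QWF.D4
import Pool.Agent.QWF.D5
import Pool.Agent.QWF.Dcy
import Pool.Agent.QWF.Dec
import Pool.Agent.QWF.DecX
import Pool.Agent.QWF.DecayP
import Pool.Agent.QWF.DenX
import Pool.Agent.QWF.Dns0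
import Pool.Agent.QWF.Dns2
import Pool.Agent.QWF.DnsP
import Pool.Agent.QWF.DrT
import Pool.Agent.QWF.DuhI
import Pool.Agent.QWF.Duh
import Pool.Agent.QWF.DyS
import Pool.Agent.QWF.E1
import Pool.Agent.QWF.E3
import Pool.Agent.QWF.E3a
import Pool.Agent.QWF.E4
import Pool.Agent.QWF.E4a
import Pool.Agent.QWF.En
import Pool.Agent.QWF.EnD
import Pool.Agent.QWF.EnG
import Pool.Agent.QWF.EnR
import Pool.Agent.QWF.EnS
import Pool.Agent.QWF.EnU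
import Pool.Agent.QWF.ExBP
import Pool.Agent.QWF.ExFP
import Pool.Agent.QWF.Ext
import Pool.Agent.QWF.FPa
import Pool.Agent.QWF.FSPP
import Pool.Agent.QWF.FSl
import Pool.Agent.QWF.FbPP
import Pool.Agent.QWF.FldP
import Pool.Agent.QWF.FreX
import Pool.Agent.QWF.Ft
import Pool.Agent.QWF.FtI
import Pool.Agent.QWF.G0
import Pool.Agent.QWF.G0a
import Pool.Agent.QWF.G10
import Pool.Agent.QWF.G11
import Pool.Agent.QWF.G12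
import Pool.Agent.QWF.G13
import Pool.Agent.QWF.G13a
import Pool.Agent.QWF.G14
import Pool.Agent.QWF.G15
import Pool.Agent.QWF.G16
import Pool.Agent.QWF.G2
import Pool.Agent.QWF.G5
import Pool.Agent.QWF.G7
import Pool.Agent.QWF.G8
import Pool.Agent.QWF.G9
import Pool.Agent.QWF.GBd
import Pool.Agent.QWF.GLim
import Pool.Agent.QWF.GStab
import Pool.Agent.QWF.Gag1
import Pool.Agent.QWF.GamP
import Pool.Agent.QWF.GamQ
import Pool.Agent.QWF.Glue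
import Pool.Agent.QWF.GrA
import Pool.Agent.QWF.GrP
import Pool.Agent.QWF.Gron
import Pool.Agent.QWF.Grp1
import Pool.Agent.QWF.Grp2
import Pool.Agent.QWF.HBP
import Pool.Agent.QWF.HDl
import Pool.Agent.QWF.HTb
import Pool.Agent.QWF.HTr
import Pool.Agent.QWF.HcpP
import Pool.Agent.QWF.Hrd
import Pool.Agent.QWF.Hs
import Pool.Agent.QWF.HscP
import Pool.Agent.QWF.Intp
import Pool.Agent.QWF.IsoP
import Pool.Agent.QWF.JD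
import Pool.Agent.QWF.KerB
import Pool.Agent.QWF.KerL
import Pool.Agent.QWF.KerP
import Pool.Agent.QWF.L5B
import Pool.Agent.QWF.L8P
import Pool.Agent.QWF.LAf
import Pool.Agent.QWF.LinJ
import Pool.Agent.QWF.Loc
import Pool.Agent.QWF.LocC
import Pool.Agent.QWF.LocI
import Pool.Agent.QWF.LscP
import Pool.Agent.QWF.MaxE
import Pool.Agent.QWF.Meas
import Pool.Agent.QWF.MolK
import Pool.Agent.QWF.MolP
import Pool.Agent.QWF.Mor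
import Pool.Agent.QWF.MorF
import Pool.Agent.QWF.MorS
import Pool.Agent.QWF.MorT
import Pool.Agent.QWF.MulB
import Pool.Agent.QWF.MulP
import Pool.Agent.QWF.NF1P
import Pool.Agent.QWF.NFK
import Pool.Agent.QWF.NFP
import Pool.Agent.QWF.NFSP
import Pool.Agent.QWF.NFa
import Pool.Agent.QWF.NFc
import Pool.Agent.QWF.NFt
import Pool.Agent.QWF.NLb
import Pool.Agent.QWF.NLc
import Pool.Agent.QWF.NLd
import Pool.Agent.QWF.NLg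
import Pool.Agent.QWF.NLi
import Pool.Agent.QWF.NLoP
import Pool.Agent.QWF.NLw
import Pool.Agent.QWF.NPth
import Pool.Agent.QWF.NaB
import Pool.Agent.QWF.NcR
import Pool.Agent.QWF.P1
import Pool.Agent.QWF.P1a
import Pool.Agent.QWF.P3
import Pool.Agent.QWF.P3a
import Pool.Agent.QWF.P3b
import Pool.Agent.QWF.P3c
import Pool.Agent.QWF.P3d
import Pool.Agent.QWF.P3e
import Pool.Agent.QWF.P4
import Pool.Agent.QWF.P4r
import Pool.Agent.QWF.PJ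
import Pool.Agent.QWF.PSy
import Pool.Agent.QWF.Par
import Pool.Agent.QWF.Pert
import Pool.Agent.QWF.Pol
import Pool.Agent.QWF.PotE
import Pool.Agent.QWF.Psi
import Pool.Agent.QWF.PsiNZP
import Pool.Agent.QWF.Qst
import Pool.Agent.QWF.R
import Pool.Agent.QWF.RSob
import Pool.Agent.QWF.RSobK
import Pool.Agent.QWF.RadS
import Pool.Agent.QWF.RadT
import Pool.Agent.QWF.SL
import Pool.Agent.QWF.SL1
import Pool.Agent.QWF.SNc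
import Pool.Agent.QWF.SNt
import Pool.Agent.QWF.ScM
import Pool.Agent.QWF.Small
import Pool.Agent.QWF.SnP
import Pool.Agent.QWF.SoD
import Pool.Agent.QWF.SobP
import Pool.Agent.QWF.Sph
import Pool.Agent.QWF.Stab
import Pool.Agent.QWF.StrP
import Pool.Agent.QWF.StrS
import Pool.Agent.QWF.StrT
import Pool.Agent.QWF.Sym
import Pool.Agent.QWF.Tga
import Pool.Agent.QWF.Tgt
import Pool.Agent.QWF.UV0
import Pool.Agent.QWF.Uniq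
import Pool.Agent.QWF.WEq
import Pool.Agent.QWF.WkC
import Pool.Agent.QWF.WkP
import Pool.Agent.QWF.WkS
import Pool.Agent.QWF.WvA
import Pool.Agent.QWF.WvB
import Pool.Agent.QWF.WvS
import Pool.Agent.QWF.Z1
import Pool.Agent.QWP.HLSP
import Pool.Agent.QWP.Npq
import Pool.Agent.QWP.Rsz

set_option autoImplicit false

/-! # QWF: assembly. The critical norm conjecture on `ℝ^4` for every `p > 5` -/

namespace Pool.Agent.QWF.Asm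

theorem f_FtI : Pool.Agent.QWF.St_FtI := Pool.Agent.QWF.thm_FtI

theorem f_Psi : Pool.Agent.QWF.St_Psi := Pool.Agent.QWF.thm_Psi f_FtI

theorem f_RSob : Pool.Agent.QWF.St_RSob := Pool.Agent.QWF.thm_RSob

theorem f_Ft : Pool.Agent.QWF.St_Ft := Pool.Agent.QWF.thm_Ft

theorem f_RadS : Pool.Agent.QWF.St_RadS := Pool.Agent.QWF.thm_RadS

theorem f_FSl : Pool.Agent.QWF.St_FSl := Pool.Agent.QWF.thm_FSl f_RadS

theorem f_PJ : Pool.Agent.QWF.St_PJ := Pool.Agent.QWF.thm_PJ f_Ft f_RadS f_FSl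

theorem f_RadT : Pool.Agent.QWF.St_RadT := Pool.Agent.QWF.thm_RadT

theorem f_NcR : Pool.Agent.QWF.St_NcR := Pool.Agent.QWF.thm_NcR f_RadT

theorem f_Grp1 : Pool.Agent.QWF.St_Grp1 := Pool.Agent.QWF.thm_Grp1

theorem f_Pol : Pool.Agent.QWF.St_Pol := Pool.Agent.QWF.thm_Pol

theorem f_Par : Pool.Agent.QWF.St_Par := Pool.Agent.QWF.thm_Par f_Ft

theorem f_JD : Pool.Agent.QWF.St_JD := Pool.Agent.QWF.thm_JD f_Ft

theorem f_IsoP : Pool.Agent.QWF.St_IsoP := Pool.Agent.QWF.thm_IsoP f_Grp1 f_Ft f_Pol f_Par f_JD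

theorem f_LinJ : Pool.Agent.QWF.St_LinJ := Pool.Agent.QWF.thm_LinJ f_Ft f_Par

theorem f_Hs : Pool.Agent.QWF.St_Hs := Pool.Agent.QWF.thm_Hs f_Ft f_IsoP

theorem f_SobP : Pool.Agent.QWF.St_SobP := Pool.Agent.QWF.thm_SobP f_Ft f_FtI f_IsoP f_RSob f_Psi

theorem f_Dns0 : Pool.Agent.QWF.St_Dns0 := Pool.Agent.QWF.thm_Dns0 f_FtI f_Par

theorem f_DnsP : Pool.Agent.QWF.St_DnsP := Pool.Agent.QWF.thm_DnsP f_Ft f_FtI f_PJ f_NcR f_IsoP f_LinJ f_Hs f_SobP f_Dns0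

theorem f_FldP : Pool.Agent.QWF.St_FldP := Pool.Agent.QWF.thm_FldP f_IsoP f_Hs f_SobP f_DnsP

theorem f_Grp2 : Pool.Agent.QWF.St_Grp2 := Pool.Agent.QWF.thm_Grp2

theorem f_ActP : Pool.Agent.QWF.St_ActP := Pool.Agent.QWF.thm_ActP f_Grp1 f_Grp2 f_Ft f_Par f_FldP

theorem f_RSobK : Pool.Agent.QWF.St_RSobK := Pool.Agent.QWF.thm_RSobK f_RSob f_DnsP f_FldP f_ActP f_IsoP

theorem f_SL : Pool.Agent.QWF.St_SL := Pool.Agent.QWF.thm_SL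

theorem f_SL1 : Pool.Agent.QWF.St_SL1 := Pool.Agent.QWF.thm_SL1 f_SL

theorem f_WvA : Pool.Agent.QWF.St_WvA := Pool.Agent.QWF.thm_WvA f_Ft

theorem f_WvB : Pool.Agent.QWF.St_WvB := Pool.Agent.QWF.thm_WvB

theorem f_WvS : Pool.Agent.QWF.St_WvS := Pool.Agent.QWF.thm_WvS f_WvA f_WvB

theorem f_FreX : Pool.Agent.QWF.St_FreX := Pool.Agent.QWF.thm_FreX f_Ft f_Par f_JD f_WvS

theorem f_DecayP : Pool.Agent.QWF.St_DecayP := Pool.Agent.QWF.thm_DecayP f_Grp1 f_SL1 f_Ft f_Pol f_IsoP f_WvS f_FreX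

theorem f_KerB : Pool.Agent.QWF.St_KerB := Pool.Agent.QWF.thm_KerB

theorem p_Rsz : Pool.Agent.QWP.St_Rsz := Pool.Agent.QWP.thm_Rsz

theorem f_Sph : Pool.Agent.QWF.St_Sph := Pool.Agent.QWF.thm_Sph f_RadT f_SL1

theorem f_KerP : Pool.Agent.QWF.St_KerP := Pool.Agent.QWF.thm_KerP f_Ft f_Par f_PJ f_NcR f_KerB p_Rsz f_RadT f_Sph

theorem p_HLSP : Pool.Agent.QWP.St_HLSP := Pool.Agent.QWP.thm_HLSP

theorem f_KerL : Pool.Agent.QWF.St_KerL := Pool.Agent.QWF.thm_KerL p_HLSP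

theorem f_StrT : Pool.Agent.QWF.St_StrT := Pool.Agent.QWF.thm_StrT f_Grp1 f_FldP f_DecayP f_KerP f_KerL

theorem f_LscP : Pool.Agent.QWF.St_LscP := Pool.Agent.QWF.thm_LscP f_FldP

theorem f_StrP : Pool.Agent.QWF.St_StrP := Pool.Agent.QWF.thm_StrP f_StrT f_DnsP f_LscP f_Grp1

theorem f_StrS : Pool.Agent.QWF.St_StrS := Pool.Agent.QWF.thm_StrS f_StrP

theorem f_DuhI : Pool.Agent.QWF.St_DuhI := Pool.Agent.QWF.thm_DuhI f_Grp1 f_FldP f_LscP f_StrS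

theorem p_Npq : Pool.Agent.QWP.St_Npq := Pool.Agent.QWP.thm_Npq

theorem f_GamP : Pool.Agent.QWF.St_GamP := Pool.Agent.QWF.thm_GamP f_LinJ f_IsoP f_DnsP f_FldP

theorem f_SoD : Pool.Agent.QWF.St_SoD := Pool.Agent.QWF.thm_SoD f_Ft f_Hs f_SobP

theorem f_ApW : Pool.Agent.QWF.St_ApW := Pool.Agent.QWF.thm_ApW

theorem f_GamQ : Pool.Agent.QWF.St_GamQ := Pool.Agent.QWF.thm_GamQ f_Ft f_Hs f_GamP f_SoD f_ApW

theorem f_NLg : Pool.Agent.QWF.St_NLg := Pool.Agent.QWF.thm_NLg p_Npq f_FldP f_DnsP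

theorem f_NLd : Pool.Agent.QWF.St_NLd := Pool.Agent.QWF.thm_NLd f_FldP f_DnsP p_Npq f_GamQ f_NLg

theorem f_NLb : Pool.Agent.QWF.St_NLb := Pool.Agent.QWF.thm_NLb f_NLd f_NLg

theorem f_SnP : Pool.Agent.QWF.St_SnP := Pool.Agent.QWF.thm_SnP f_FldP f_ActP f_LscP

theorem f_NLw : Pool.Agent.QWF.St_NLw := Pool.Agent.QWF.thm_NLw f_NLb f_FldP

theorem f_Meas : Pool.Agent.QWF.St_Meas := Pool.Agent.QWF.thm_Meas f_DnsP f_LscP f_SnP f_NLw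

theorem f_G2 : Pool.Agent.QWF.St_G2 := Pool.Agent.QWF.thm_G2 f_RSobK f_StrS f_DuhI f_NLb f_Meas f_FldP f_Grp1

theorem f_WkS : Pool.Agent.QWF.St_WkS := Pool.Agent.QWF.thm_WkS

theorem f_CutM : Pool.Agent.QWF.St_CutM := Pool.Agent.QWF.thm_CutM f_Ft f_IsoP f_Hs f_Psi

theorem f_CutP : Pool.Agent.QWF.St_CutP := Pool.Agent.QWF.thm_CutP f_IsoP f_DnsP f_FldP f_CutM

theorem f_DenX : Pool.Agent.QWF.St_DenX := Pool.Agent.QWF.thm_DenX f_Grp1 f_Grp2 f_DnsP f_FldP f_ActP f_CutP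

theorem f_SNt : Pool.Agent.QWF.St_SNt := Pool.Agent.QWF.thm_SNt f_FldP f_Meas

theorem f_Loc : Pool.Agent.QWF.St_Loc := Pool.Agent.QWF.thm_Loc f_Grp1 f_SnP f_NLb f_Meas f_DuhI f_SNt

theorem f_Uniq : Pool.Agent.QWF.St_Uniq := Pool.Agent.QWF.thm_Uniq f_NLb f_Meas f_DuhI

theorem f_Glue : Pool.Agent.QWF.St_Glue := Pool.Agent.QWF.thm_Glue f_Grp1 f_NLb f_Meas f_Uniq

theorem f_MaxE : Pool.Agent.QWF.St_MaxE := Pool.Agent.QWF.thm_MaxE f_StrS f_Loc f_Uniq f_Glue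

theorem f_Gron : Pool.Agent.QWF.St_Gron := Pool.Agent.QWF.thm_Gron f_Meas f_NLb

theorem f_Blow : Pool.Agent.QWF.St_Blow := Pool.Agent.QWF.thm_Blow f_Grp1 f_StrS f_NLb f_Meas f_Loc f_Glue f_Gron

theorem f_G10 : Pool.Agent.QWF.St_G10 := Pool.Agent.QWF.thm_G10 f_DecayP f_DnsP f_FldP f_NLd f_Grp1

theorem f_MolK : Pool.Agent.QWF.St_MolK := Pool.Agent.QWF.thm_MolK f_Grp1 f_Grp2 f_FldP f_ActP

theorem f_ApxP : Pool.Agent.QWF.St_ApxP := Pool.Agent.QWF.thm_ApxP f_IsoP f_SnP f_DenX f_NLd f_Meas f_MaxE f_Blow f_G10 f_MolK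

theorem f_LocI : Pool.Agent.QWF.St_LocI := Pool.Agent.QWF.thm_LocI

theorem f_MolP : Pool.Agent.QWF.St_MolP := Pool.Agent.QWF.thm_MolP f_Ft f_Hs f_IsoP f_DnsP f_FldP

theorem f_WkP : Pool.Agent.QWF.St_WkP := Pool.Agent.QWF.thm_WkP f_DnsP f_FldP f_MolP

theorem f_LocC : Pool.Agent.QWF.St_LocC := Pool.Agent.QWF.thm_LocC f_FldP f_WkP

theorem f_Qst : Pool.Agent.QWF.St_Qst := Pool.Agent.QWF.thm_Qst f_FldP f_DnsP p_Npq f_GamQ f_NLg f_NLd f_LocI f_LocC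

theorem f_WkC : Pool.Agent.QWF.St_WkC := Pool.Agent.QWF.thm_WkC f_WkS

theorem f_Dcy : Pool.Agent.QWF.St_Dcy := Pool.Agent.QWF.thm_Dcy f_Grp1 f_Ft f_IsoP f_Hs f_FreX f_DecayP

theorem f_NLc : Pool.Agent.QWF.St_NLc := Pool.Agent.QWF.thm_NLc f_WkP f_WkS f_FldP f_NLw f_Dcy

theorem f_Dns2 : Pool.Agent.QWF.St_Dns2 := Pool.Agent.QWF.thm_Dns2 f_Ft f_FtI f_IsoP f_LinJ f_Hs f_Dns0 f_DnsP

theorem f_G5 : Pool.Agent.QWF.St_G5 := Pool.Agent.QWF.thm_G5 f_WkS f_WkC f_NLc f_NLb f_Meas f_Uniq f_DuhI f_FreX f_LinJ f_Ft f_Dns2 f_Grp1 f_SnP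

theorem f_G9 : Pool.Agent.QWF.St_G9 := Pool.Agent.QWF.thm_G9 f_G5 f_LocC

theorem f_G11 : Pool.Agent.QWF.St_G11 := Pool.Agent.QWF.thm_G11 f_ApxP f_Qst f_NLd f_G9 f_LocC f_Gron f_SnP f_Meas

theorem f_G7 : Pool.Agent.QWF.St_G7 := Pool.Agent.QWF.thm_G7 f_Dcy f_NLg f_NLw f_FldP

theorem f_G8 : Pool.Agent.QWF.St_G8 := Pool.Agent.QWF.thm_G8 f_G5 f_G7 f_NLc f_NLb f_Meas f_SnP f_FreX f_LinJ f_Ft f_Dns2 f_Grp1

theorem f_Pert : Pool.Agent.QWF.St_Pert := Pool.Agent.QWF.thm_Pert f_Grp1 f_StrS f_NLb f_Meas f_DuhI f_SNt f_Loc f_Glue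

theorem f_Dec : Pool.Agent.QWF.St_Dec := Pool.Agent.QWF.thm_Dec f_G11 f_G8 f_Pert f_Uniq f_Gron f_SNt f_Meas f_NLb f_Blow f_MaxE f_Grp1

theorem f_SNc : Pool.Agent.QWF.St_SNc := Pool.Agent.QWF.thm_SNc f_SnP f_NLb f_Uniq

theorem f_Small : Pool.Agent.QWF.St_Small := Pool.Agent.QWF.thm_Small f_StrS f_NLb f_Meas f_Loc f_Gron f_MaxE f_Blow

theorem f_G12 : Pool.Agent.QWF.St_G12 := Pool.Agent.QWF.thm_G12 f_Dec f_SNc f_MaxE f_Blow f_Uniq f_Small f_Gron f_WkS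

theorem f_Sym : Pool.Agent.QWF.St_Sym := Pool.Agent.QWF.thm_Sym f_Grp1 f_Grp2 f_DnsP f_FldP f_ActP f_SnP

theorem f_Stab : Pool.Agent.QWF.St_Stab := Pool.Agent.QWF.thm_Stab f_Grp2 f_Glue f_Pert f_Sym

theorem f_GStab : Pool.Agent.QWF.St_GStab := Pool.Agent.QWF.thm_GStab f_SNt f_Uniq f_Gron f_Pert

theorem f_G13a : Pool.Agent.QWF.St_G13a := Pool.Agent.QWF.thm_G13a f_Stab f_GStab f_Blow f_MaxE f_Uniq f_SNt f_SNc

theorem f_GrA : Pool.Agent.QWF.St_GrA := Pool.Agent.QWF.thm_GrA f_Grp1 f_Grp2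

theorem f_ScM : Pool.Agent.QWF.St_ScM := Pool.Agent.QWF.thm_ScM f_Sym f_GrA

theorem f_G13 : Pool.Agent.QWF.St_G13 := Pool.Agent.QWF.thm_G13 f_Psi f_G2 f_WkS f_G12 f_G13a f_ScM f_SNc

theorem f_G14 : Pool.Agent.QWF.St_G14 := Pool.Agent.QWF.thm_G14 f_Psi f_G2 f_WkS f_G12 f_G13a f_ScM f_SNc f_SNt

theorem f_ExBP : Pool.Agent.QWF.St_ExBP := Pool.Agent.QWF.thm_ExBP f_DnsP f_FldP

theorem f_PsiNZP : Pool.Agent.QWF.St_PsiNZP := Pool.Agent.QWF.thm_PsiNZP f_ActP f_FldP f_DnsP f_ExBP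

theorem f_FbPP : Pool.Agent.QWF.St_FbPP := Pool.Agent.QWF.thm_FbPP f_PsiNZP f_GrA

theorem f_G0a : Pool.Agent.QWF.St_G0a := Pool.Agent.QWF.thm_G0a f_Grp1 f_Grp2 f_SL1

theorem f_G0 : Pool.Agent.QWF.St_G0 := Pool.Agent.QWF.thm_G0 f_G0a

theorem f_GBd : Pool.Agent.QWF.St_GBd := Pool.Agent.QWF.thm_GBd f_G0

theorem f_G15 : Pool.Agent.QWF.St_G15 := Pool.Agent.QWF.thm_G15 f_G14 f_FbPP f_Psi f_GBd f_GrA f_SNc f_WkS f_SnP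

theorem f_GLim : Pool.Agent.QWF.St_GLim := Pool.Agent.QWF.thm_GLim f_GBd f_GrA

theorem f_C1a : Pool.Agent.QWF.St_C1a := Pool.Agent.QWF.thm_C1a f_Grp1 f_StrS f_SNt f_Loc

theorem f_G16 : Pool.Agent.QWF.St_G16 := Pool.Agent.QWF.thm_G16 f_G15 f_GLim f_GBd f_C1a f_Stab f_MaxE f_ScM f_SNc f_WkS f_GrA

theorem f_C0 : Pool.Agent.QWF.St_C0 := Pool.Agent.QWF.thm_C0 f_Uniq f_Small

theorem f_FSPP : Pool.Agent.QWF.St_FSPP := Pool.Agent.QWF.thm_FSPP f_Grp1 f_ExBP f_FreX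

theorem f_DecX : Pool.Agent.QWF.St_DecX := Pool.Agent.QWF.thm_DecX f_RadT f_SL1

theorem f_L8P : Pool.Agent.QWF.St_L8P := Pool.Agent.QWF.thm_L8P f_PJ f_DnsP f_FldP f_ExBP f_DecX

theorem f_ExFP : Pool.Agent.QWF.St_ExFP := Pool.Agent.QWF.thm_ExFP f_FldP f_ExBP

theorem f_NLoP : Pool.Agent.QWF.St_NLoP := Pool.Agent.QWF.thm_NLoP f_FldP f_ExBP f_L8P f_ExFP f_NLb

theorem f_NFSP : Pool.Agent.QWF.St_NFSP := Pool.Agent.QWF.thm_NFSP f_ExBP f_ActP f_Grp1 f_FSPP f_StrS f_NLoP f_NLb f_Meas f_DuhI f_SNt f_Loc f_Uniq f_Sym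

theorem f_Ext : Pool.Agent.QWF.St_Ext := Pool.Agent.QWF.thm_Ext f_ExBP f_Small f_NFSP

theorem f_GrP : Pool.Agent.QWF.St_GrP := Pool.Agent.QWF.thm_GrP f_ActP

theorem f_Tga : Pool.Agent.QWF.St_Tga := Pool.Agent.QWF.thm_Tga f_ExBP

theorem f_CSy : Pool.Agent.QWF.St_CSy := Pool.Agent.QWF.thm_CSy f_Grp2 f_GrA f_Sym

theorem f_C1 : Pool.Agent.QWF.St_C1 := Pool.Agent.QWF.thm_C1 f_C1a f_CSy f_MaxE f_GrA

theorem f_C2a : Pool.Agent.QWF.St_C2a := Pool.Agent.QWF.thm_C2a f_ExBP f_Ext f_GrA f_GrP f_Tga f_C1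

theorem f_C2b : Pool.Agent.QWF.St_C2b := Pool.Agent.QWF.thm_C2b f_FldP f_ExFP

theorem f_EnU : Pool.Agent.QWF.St_EnU := Pool.Agent.QWF.thm_EnU f_DnsP

theorem f_FPa : Pool.Agent.QWF.St_FPa := Pool.Agent.QWF.thm_FPa

theorem f_EnR : Pool.Agent.QWF.St_EnR := Pool.Agent.QWF.thm_EnR f_IsoP f_JD f_DnsP f_EnU f_FPa

theorem f_EnS : Pool.Agent.QWF.St_EnS := Pool.Agent.QWF.thm_EnS f_FldP f_FreX f_Grp1

theorem f_EnG : Pool.Agent.QWF.St_EnG := Pool.Agent.QWF.thm_EnG f_NLw f_Meas f_EnS f_EnR f_EnU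

theorem f_EnD : Pool.Agent.QWF.St_EnD := Pool.Agent.QWF.thm_EnD f_Grp1 f_FldP f_NLb f_Meas f_DuhI f_FreX f_EnU

theorem f_ACq : Pool.Agent.QWF.St_ACq := Pool.Agent.QWF.thm_ACq

theorem f_DrT : Pool.Agent.QWF.St_DrT := Pool.Agent.QWF.thm_DrT f_Grp1 f_Par f_JD

theorem f_WEq : Pool.Agent.QWF.St_WEq := Pool.Agent.QWF.thm_WEq f_Grp1 f_DrT f_FldP f_NLb f_Meas

theorem f_PotE : Pool.Agent.QWF.St_PotE := Pool.Agent.QWF.thm_PotE f_FldP f_WEq f_EnS f_SnP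

theorem f_En : Pool.Agent.QWF.St_En := Pool.Agent.QWF.thm_En f_EnR f_EnS f_EnG f_EnD f_ACq f_PotE

theorem f_Z1 : Pool.Agent.QWF.St_Z1 := Pool.Agent.QWF.thm_Z1 f_DnsP f_FldP f_EnS

theorem f_C2 : Pool.Agent.QWF.St_C2 := Pool.Agent.QWF.thm_C2 f_C2a f_C2b f_En f_Z1 f_CSy f_GrA

theorem f_C3 : Pool.Agent.QWF.St_C3 := Pool.Agent.QWF.thm_C3 f_GrA f_GLim f_CSy f_C2 f_MaxE f_Stab f_Uniq f_Small

theorem f_C4 : Pool.Agent.QWF.St_C4 := Pool.Agent.QWF.thm_C4 f_GrA f_G0 f_C3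

theorem f_C5 : Pool.Agent.QWF.St_C5 := Pool.Agent.QWF.thm_C5

theorem f_C6 : Pool.Agent.QWF.St_C6 := Pool.Agent.QWF.thm_C6 f_C4 f_C3 f_C5

theorem f_D1P : Pool.Agent.QWF.St_D1P := Pool.Agent.QWF.thm_D1P f_Ft f_Hs f_IsoP f_DnsP f_FldP f_ExBP f_DecayP

theorem f_HBP : Pool.Agent.QWF.St_HBP := Pool.Agent.QWF.thm_HBP f_ActP f_ExBP f_Grp2

theorem f_D2 : Pool.Agent.QWF.St_D2 := Pool.Agent.QWF.thm_D2 f_Ext f_D1P f_ExBP f_HBP f_Grp1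

theorem f_HcpP : Pool.Agent.QWF.St_HcpP := Pool.Agent.QWF.thm_HcpP f_ExBP f_HBP

theorem f_HscP : Pool.Agent.QWF.St_HscP := Pool.Agent.QWF.thm_HscP f_ExBP f_CutP f_HBP

theorem f_D3 : Pool.Agent.QWF.St_D3 := Pool.Agent.QWF.thm_D3 f_D2 f_HBP f_HcpP f_HscP f_C3 f_GrA f_CSy f_Grp1

theorem f_ABd : Pool.Agent.QWF.St_ABd := Pool.Agent.QWF.thm_ABd f_GBd

theorem f_D4 : Pool.Agent.QWF.St_D4 := Pool.Agent.QWF.thm_D4 f_D2 f_D3 f_HBP f_HcpP f_ABd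

theorem f_Intp : Pool.Agent.QWF.St_Intp := Pool.Agent.QWF.thm_Intp

theorem f_D5 : Pool.Agent.QWF.St_D5 := Pool.Agent.QWF.thm_D5 f_D4 f_Intp

theorem f_Tgt : Pool.Agent.QWF.St_Tgt := Pool.Agent.QWF.thm_Tgt f_Tga f_GrP

theorem f_NPth : Pool.Agent.QWF.St_NPth := Pool.Agent.QWF.thm_NPth f_ExBP f_GrA f_Tgt

theorem f_PSy : Pool.Agent.QWF.St_PSy := Pool.Agent.QWF.thm_PSy f_Grp2 f_ActP f_Sym

theorem f_NLi : Pool.Agent.QWF.St_NLi := Pool.Agent.QWF.thm_NLi f_Grp1 f_NLb f_Meas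

theorem f_Gag1 : Pool.Agent.QWF.St_Gag1 := Pool.Agent.QWF.thm_Gag1 f_PJ

theorem f_Hrd : Pool.Agent.QWF.St_Hrd := Pool.Agent.QWF.thm_Hrd f_Gag1

theorem f_MulB : Pool.Agent.QWF.St_MulB := Pool.Agent.QWF.thm_MulB f_PJ f_DnsP f_Gag1 f_Hrd

theorem f_MulP : Pool.Agent.QWF.St_MulP := Pool.Agent.QWF.thm_MulP f_PJ f_DnsP f_MulB

theorem f_P3a : Pool.Agent.QWF.St_P3a := Pool.Agent.QWF.thm_P3a f_Grp1 f_NLi f_MulP

theorem f_NaB : Pool.Agent.QWF.St_NaB := Pool.Agent.QWF.thm_NaB f_PJ f_Grp1 f_Grp2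

theorem f_P1a : Pool.Agent.QWF.St_P1a := Pool.Agent.QWF.thm_P1a f_NaB f_NLoP f_NLi f_ExBP f_L8P f_Ext

theorem f_P1 : Pool.Agent.QWF.St_P1 := Pool.Agent.QWF.thm_P1 f_NaB f_PSy f_P1a

theorem f_P3b : Pool.Agent.QWF.St_P3b := Pool.Agent.QWF.thm_P3b f_MulP f_P1

theorem f_NFt : Pool.Agent.QWF.St_NFt := Pool.Agent.QWF.thm_NFt f_Ft f_PJ f_NcR f_IsoP f_DnsP f_MulP

theorem f_NFa : Pool.Agent.QWF.St_NFa := Pool.Agent.QWF.thm_NFa f_RadT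

theorem f_HTb : Pool.Agent.QWF.St_HTb := Pool.Agent.QWF.thm_HTb

theorem f_HTr : Pool.Agent.QWF.St_HTr := Pool.Agent.QWF.thm_HTr f_RadT f_FSl f_Ft

theorem f_NFK : Pool.Agent.QWF.St_NFK := Pool.Agent.QWF.thm_NFK f_SL

theorem f_NFc : Pool.Agent.QWF.St_NFc := Pool.Agent.QWF.thm_NFc f_RadT f_Ft f_Par f_JD f_NcR f_HTb f_HTr f_NFK

theorem f_DyS : Pool.Agent.QWF.St_DyS := Pool.Agent.QWF.thm_DyS f_Hs f_IsoP

theorem f_NF1P : Pool.Agent.QWF.St_NF1P := Pool.Agent.QWF.thm_NF1P f_Ft f_Par f_JD f_PJ f_NFt f_NFa f_NFc f_DyS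

theorem f_NFP : Pool.Agent.QWF.St_NFP := Pool.Agent.QWF.thm_NFP f_Grp1 f_Grp2 f_PJ f_DnsP f_FldP f_ActP f_MulP f_GamP f_NF1P

theorem f_Core : Pool.Agent.QWF.St_Core := Pool.Agent.QWF.thm_Core f_IsoP f_FldP f_ExFP f_GamP f_NLb

theorem f_P3c : Pool.Agent.QWF.St_P3c := Pool.Agent.QWF.thm_P3c f_FldP f_NFP f_MulP f_NLoP f_Core

theorem f_P3d : Pool.Agent.QWF.St_P3d := Pool.Agent.QWF.thm_P3d f_Ext

theorem f_P3e : Pool.Agent.QWF.St_P3e := Pool.Agent.QWF.thm_P3e f_ExBP f_MulP f_NLi f_P3a f_P3c f_P3d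

theorem f_L5B : Pool.Agent.QWF.St_L5B := Pool.Agent.QWF.thm_L5B f_FldP f_ExFP

theorem f_P3 : Pool.Agent.QWF.St_P3 := Pool.Agent.QWF.thm_P3 f_ExBP f_P3a f_P3b f_P3e f_L5B

theorem f_P4r : Pool.Agent.QWF.St_P4r := Pool.Agent.QWF.thm_P4r

theorem f_P4 : Pool.Agent.QWF.St_P4 := Pool.Agent.QWF.thm_P4 f_ExBP f_PSy f_P3 f_P4r

theorem f_E1 : Pool.Agent.QWF.St_E1 := Pool.Agent.QWF.thm_E1 f_FldP f_ExFP

theorem f_MorS : Pool.Agent.QWF.St_MorS := Pool.Agent.QWF.thm_MorS f_FPa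

theorem f_MorT : Pool.Agent.QWF.St_MorT := Pool.Agent.QWF.thm_MorT

theorem f_MorF : Pool.Agent.QWF.St_MorF := Pool.Agent.QWF.thm_MorF f_Grp1 f_JD f_FreX f_DrT f_EnR f_MorS f_MorT

theorem f_Mor : Pool.Agent.QWF.St_Mor := Pool.Agent.QWF.thm_Mor f_EnR f_EnS f_EnG f_EnD f_ACq f_En f_MorS f_MorF

theorem f_UV0 : Pool.Agent.QWF.St_UV0 := Pool.Agent.QWF.thm_UV0 f_WEq f_FldP f_DnsP

theorem f_E3a : Pool.Agent.QWF.St_E3a := Pool.Agent.QWF.thm_E3a f_FldP f_C3 f_LscP f_UV0 f_ActP f_GrA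

theorem f_E3 : Pool.Agent.QWF.St_E3 := Pool.Agent.QWF.thm_E3 f_E3a

theorem f_E4a : Pool.Agent.QWF.St_E4a := Pool.Agent.QWF.thm_E4a f_FldP f_ExFP f_EnS

theorem f_E4 : Pool.Agent.QWF.St_E4 := Pool.Agent.QWF.thm_E4 f_GrA f_GrP f_Tga f_En f_Z1 f_E1 f_E4a

theorem f_R : Pool.Agent.QWF.St_R := Pool.Agent.QWF.thm_R f_C0 f_C2 f_C6 f_D5 f_NPth f_P4 f_E1 f_Mor f_E3 f_E4

theorem f_LA : Pool.Agent.QWF.St_LA := Pool.Agent.QWF.thm_LA f_G13 f_G16 f_R f_GrA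

theorem f_HDl : Pool.Agent.QWF.St_HDl := Pool.Agent.QWF.thm_HDl

theorem f_Br1 : Pool.Agent.QWF.St_Br1 := Pool.Agent.QWF.thm_Br1 f_LinJ f_IsoP f_DnsP f_FldP f_HDl

theorem f_Br2 : Pool.Agent.QWF.St_Br2 := Pool.Agent.QWF.thm_Br2 f_Grp1 f_Ft f_DrT f_DnsP f_FldP f_FreX f_NLb f_Meas f_Br1

theorem f_Br3 : Pool.Agent.QWF.St_Br3 := Pool.Agent.QWF.thm_Br3 f_Grp1 f_Ft f_DrT f_FldP f_WEq f_Br1

/-- The critical norm conjecture on `ℝ^4` for every `p > 5` (`b = p - 1 > 4`). -/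
theorem finalD : ∀ b : ℝ, 4 < b → Pool.Agent.QWF.FinalD b :=
  Pool.Agent.QWF.thm_FinalD f_Grp1 f_Ft f_FreX f_FldP f_Meas f_NLb f_DnsP f_DrT f_MaxE f_Blow f_Br1 f_Br2 f_Br3 f_LA

/-- The same for the literal definitions of `QWL`. -/
theorem final4 : ∀ p : ℝ, 5 < p → Pool.Agent.QWL.Final 4 p :=
  Pool.Agent.QWF.thm_Final4 finalD

end Pool.Agent.QWF.Asm
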