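import Mathlib

set_option autoImplicit false

/-!
# QWF: the wave equation `u_tt - Δu + |u|^b u = 0` in `ℝ⁴`, `b = p - 1 > 4` (problem MP_9ce95b_an, `d = 4`, all `p > 5`)

Definitions. Design: `/team-store/R4_plan.md`; paper for `d = 5`, `p = 5`: `/team-store/R5_paper.md`; `d = 5`, all `p > 3`:
`Pool/Agent/QWP`. Critical space `Ḣ^{3/2+s} × Ḣ^{1/2+s}`, `s = sig b = 1/2 - 2/b ∈ (0, 1/2)`.

`K = L²(S³ × ℝ)` is the translation representation space; the free wave flow is the translation `tau t` in the second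
variable. The element with fields `(f, g)` is `Theta s f g = c0 (|∂_p|^s ∂_p³ R f - |∂_p|^s ∂_p² R g)`; the test states
`Rs s φ`, `dRs s φ` (`∫ f φ`, `∫ g φ` as inner products) carry the Hilbert transform in `p`.
-/

open MeasureTheory Filter Topology Set
open scoped ENNReal NNReal RealInnerProductSpace ContDiff Pointwise

namespace Pool.Agent.QWF

/-- `ℝ⁴`. -/
abbrev E := EuclideanSpace ℝ (Fin 4)

/-- The unit sphere of `ℝ⁴`. -/
abbrev S := Metric.sphere (0 : E) 1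

/-- Surface measure on the unit sphere (total mass `2 π²`). -/
noncomputable abbrev sg : Measure S := (volume : Measure E).toSphere

/-- The measure `dω dp` on `S³ × ℝ`. -/
noncomputable abbrev mu : Measure (S × ℝ) := sg.prod (volume : Measure ℝ)

/-- The translation representation space `L²(S³ × ℝ)` (real Hilbert space). -/
noncomputable abbrev K := Lp ℝ 2 mu

/-- The element of `K` given by a function (zero if it is not square integrable). -/
noncomputable def toK (f : S × ℝ → ℝ) : K := by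
  classical exact if h : MemLp f 2 mu then h.toLp f else 0

lemma toK_coe {f : S × ℝ → ℝ} (h : MemLp f 2 mu) : (toK f : S × ℝ → ℝ) =ᵐ[mu] f := by
  simp only [toK, dif_pos h]; exact h.coeFn_toLp

/-! ### The isometries of `K` -/

lemma mp_shift {g : S → ℝ} (hg : Measurable g) :
    MeasurePreserving (fun z : S × ℝ => (z.1, z.2 - g z.1)) mu mu := by
  refine MeasurePreserving.skew_product (g := fun (w : S) (p : ℝ) => p - g w)
    (MeasurePreserving.id sg) ?_ ?_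
  · exact measurable_snd.sub (hg.comp measurable_fst)
  · exact Eventually.of_forall fun w => (measurePreserving_sub_right volume (g w)).map_eq

/-- Free wave flow: `(tau t k)(ω, p) = k(ω, p - t)`. -/
noncomputable def tau (t : ℝ) : K →ₗᵢ[ℝ] K :=
  Lp.compMeasurePreservingₗᵢ ℝ (fun z : S × ℝ => (z.1, z.2 - t))
    (mp_shift (g := fun _ => t) measurable_const)

/-- Space translation: `(sh y k)(ω, p) = k(ω, p - ⟪y, ω⟫)`; `U (sh y k) x = U k (x - y)`. -/
noncomputable def sh (y : E) : K →ₗᵢ[ℝ] K :=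
  Lp.compMeasurePreservingₗᵢ ℝ (fun z : S × ℝ => (z.1, z.2 - inner ℝ y (z.1 : E)))
    (mp_shift (g := fun w : S => inner ℝ y (w : E)) (by fun_prop))

lemma tau_coe (t : ℝ) (k : K) : (tau t k : S × ℝ → ℝ) =ᵐ[mu] fun z => k (z.1, z.2 - t) :=
  Lp.coeFn_compMeasurePreserving k _

lemma sh_coe (y : E) (k : K) :
    (sh y k : S × ℝ → ℝ) =ᵐ[mu] fun z => k (z.1, z.2 - inner ℝ y (z.1 : E)) :=
  Lp.coeFn_compMeasurePreserving k _

/-- The measure on `S³ × ℝ` scales under `(ω, p) ↦ (ω, c p)`. -/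
lemma map_scale {c : ℝ} (hc : 0 < c) :
    mu.map (fun z : S × ℝ => (z.1, c * z.2)) = ENNReal.ofReal c⁻¹ • mu := by
  have h1 : (fun z : S × ℝ => (z.1, c * z.2)) = Prod.map id (fun p : ℝ => c * p) := rfl
  rw [h1, ← Measure.map_prod_map _ _ measurable_id (by fun_prop), Measure.map_id]
  have h2 : Measure.map (fun p : ℝ => c * p) volume = ENNReal.ofReal c⁻¹ • (volume : Measure ℝ) := by
    rw [Real.map_volume_mul_left hc.ne', abs_of_pos (inv_pos.2 hc)]
  rw [h2, Measure.prod_smul_right]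

lemma qmp_scale {c : ℝ} (hc : 0 < c) :
    Measure.QuasiMeasurePreserving (fun z : S × ℝ => (z.1, c * z.2)) mu mu := by
  refine ⟨by fun_prop, ?_⟩
  rw [map_scale hc]
  exact Measure.smul_absolutelyContinuous

lemma eLpNorm_scale (a : ℝ) (f : S × ℝ → ℝ) (hf : AEStronglyMeasurable f mu) :
    eLpNorm (fun z : S × ℝ => Real.exp (a / 2) * f (z.1, Real.exp a * z.2)) 2 mu =
      eLpNorm f 2 mu := by
  have hc := Real.exp_pos a
  have h1 : eLpNorm (fun z : S × ℝ => f (z.1, Real.exp a * z.2)) 2 mu =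
      ENNReal.ofReal (Real.exp (-a / 2)) * eLpNorm f 2 mu := by
    have h2 : eLpNorm (f ∘ fun z : S × ℝ => (z.1, Real.exp a * z.2)) 2 mu =
        eLpNorm f 2 (mu.map fun z : S × ℝ => (z.1, Real.exp a * z.2)) := by
      rw [eLpNorm_map_measure _ (by fun_prop)]
      rw [map_scale hc]
      exact hf.mono_ac Measure.smul_absolutelyContinuous
    have h3 : (fun z : S × ℝ => f (z.1, Real.exp a * z.2)) =
        f ∘ fun z : S × ℝ => (z.1, Real.exp a * z.2) := rfl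
    rw [h3, h2, map_scale hc, eLpNorm_smul_measure_of_ne_top (by norm_num)]
    simp only [smul_eq_mul]
    congr 1
    rw [ENNReal.ofReal_rpow_of_pos (inv_pos.2 hc), ← Real.exp_neg, ← Real.exp_mul]
    congr 2
    norm_num
    ring
  have h4 : (fun z : S × ℝ => Real.exp (a / 2) * f (z.1, Real.exp a * z.2)) =
      Real.exp (a / 2) • fun z : S × ℝ => f (z.1, Real.exp a * z.2) := rfl
  rw [h4, eLpNorm_const_smul, h1, ← mul_assoc, Real.enorm_eq_ofReal (Real.exp_pos _).le,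
    ← ENNReal.ofReal_mul (Real.exp_pos _).le, ← Real.exp_add]
  have h5 : a / 2 + -a / 2 = 0 := by ring
  rw [h5]; simp

lemma memLp_dl (a : ℝ) (k : K) :
    MemLp (fun z : S × ℝ => Real.exp (a / 2) * k (z.1, Real.exp a * z.2)) 2 mu := by
  refine ⟨((Lp.aestronglyMeasurable k).comp_quasiMeasurePreserving
      (qmp_scale (Real.exp_pos a))).const_mul _, ?_⟩
  rw [eLpNorm_scale a k (Lp.aestronglyMeasurable k)]
  exact Lp.eLpNorm_lt_top k

/-- Auxiliary: the dilated element. -/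
noncomputable def dlAux (a : ℝ) (k : K) : K := (memLp_dl a k).toLp _

lemma dlAux_coe (a : ℝ) (k : K) :
    (dlAux a k : S × ℝ → ℝ) =ᵐ[mu] fun z => Real.exp (a / 2) * k (z.1, Real.exp a * z.2) :=
  MemLp.coeFn_toLp _

/-- Dilation by `e^a`: `(dl a k)(ω, p) = e^{a/2} k(ω, e^a p)`; `U (dl a k) x = e^{a/2} U k (e^a x)`,
`V (dl a k) x = e^{3a/2} V k (e^a x)`. -/
noncomputable def dl (a : ℝ) : K →ₗᵢ[ℝ] K where
  toFun := dlAux a
  map_add' k k' := by
    apply Lp.ext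
    have h := (qmp_scale (Real.exp_pos a)).ae (Lp.coeFn_add k k')
    filter_upwards [dlAux_coe a (k + k'), dlAux_coe a k, dlAux_coe a k',
      Lp.coeFn_add (dlAux a k) (dlAux a k'), h] with z h1 h2 h3 h4 h5
    rw [h1, h4, Pi.add_apply, h2, h3, h5, Pi.add_apply]; ring
  map_smul' c k := by
    apply Lp.ext
    have h := (qmp_scale (Real.exp_pos a)).ae (Lp.coeFn_smul c k)
    filter_upwards [dlAux_coe a (c • k), dlAux_coe a k, Lp.coeFn_smul c (dlAux a k), h]
      with z h1 h2 h3 h4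
    rw [h1, RingHom.id_apply, h3, Pi.smul_apply, h2, h4, Pi.smul_apply, smul_eq_mul, smul_eq_mul]
    ring
  norm_map' k := by
    change ‖dlAux a k‖ = ‖k‖
    rw [dlAux, Lp.norm_toLp, eLpNorm_scale a k (Lp.aestronglyMeasurable k), Lp.norm_def]

lemma dl_coe (a : ℝ) (k : K) :
    (dl a k : S × ℝ → ℝ) =ᵐ[mu] fun z => Real.exp (a / 2) * k (z.1, Real.exp a * z.2) :=
  dlAux_coe a k

lemma mp_neg_sphere : MeasurePreserving (fun w : S => -w) sg sg := by
  refine ⟨continuous_neg.measurable, ?_⟩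
  ext s hs
  rw [Measure.map_apply continuous_neg.measurable hs, Measure.toSphere_apply' _ hs,
    Measure.toSphere_apply' _ (continuous_neg.measurable hs)]
  congr 1
  have h : Ioo (0 : ℝ) 1 • ((↑) '' ((fun w : S => -w) ⁻¹' s) : Set E) =
      -(Ioo (0 : ℝ) 1 • ((↑) '' s : Set E)) := by
    ext x
    simp only [Set.mem_smul, Set.mem_image, Set.mem_preimage, Set.mem_neg]
    constructor
    · rintro ⟨r, hr, _, ⟨w, hw, rfl⟩, rfl⟩
      exact ⟨r, hr, ((-w : S) : E), ⟨-w, hw, rfl⟩, by simp⟩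
    · rintro ⟨r, hr, _, ⟨w, hw, rfl⟩, hx⟩
      refine ⟨r, hr, ((-w : S) : E), ⟨-w, by simpa using hw, rfl⟩, ?_⟩
      have : x = -(r • (w : E)) := by rw [hx, neg_neg]
      rw [this]; simp
  rw [h, Measure.measure_neg]

lemma mp_rev : MeasurePreserving (fun z : S × ℝ => (-z.1, -z.2)) mu mu :=
  mp_neg_sphere.prod (Measure.measurePreserving_neg volume)

/-- Time reversal: `(rev k)(ω, p) = - k(-ω, -p)` (note the sign); `U (rev k) = U k`, `V (rev k) = - V k`. -/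
noncomputable def rev : K →ₗᵢ[ℝ] K :=
  (LinearIsometryEquiv.neg ℝ : K ≃ₗᵢ[ℝ] K).toLinearIsometry.comp
    (Lp.compMeasurePreservingₗᵢ ℝ (fun z : S × ℝ => (-z.1, -z.2)) mp_rev)

lemma rev_coe (k : K) : (rev k : S × ℝ → ℝ) =ᵐ[mu] fun z => - k (-z.1, -z.2) := by
  have h : rev k = - (Lp.compMeasurePreservingₗᵢ ℝ (fun z : S × ℝ => (-z.1, -z.2)) mp_rev k) := rfl
  rw [h]
  filter_upwards [Lp.coeFn_neg (Lp.compMeasurePreservingₗᵢ ℝ (fun z : S × ℝ => (-z.1, -z.2)) mp_rev k),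
    Lp.coeFn_compMeasurePreserving k mp_rev] with z h1 h2
  rw [h1, Pi.neg_apply]
  exact congrArg Neg.neg h2

/-! ### Test functions, Radon transform -/

/-- Test functions on `ℝ⁴`. -/
def IsTest (φ : E → ℝ) : Prop := ContDiff ℝ ∞ φ ∧ HasCompactSupport φ

/-- Derivative in the `i`-th coordinate direction. -/
noncomputable def pd (i : Fin 4) (φ : E → ℝ) (x : E) : ℝ :=
  fderiv ℝ φ x (EuclideanSpace.single i (1 : ℝ))

/-- Laplacian. -/
noncomputable def lap (φ : E → ℝ) (x : E) : ℝ := ∑ i, pd i (pd i φ) x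

/-- Radon transform: the integral of `φ` over the hyperplane `⟪x, ω⟫ = p`, written as the integral
of `ω · ∇ φ` over the half space `⟪x, ω⟫ ≤ p`. -/
noncomputable def Rad (φ : E → ℝ) (z : S × ℝ) : ℝ :=
  ∫ x : E, {x : E | inner ℝ x (z.1 : E) ≤ z.2}.indicator (fun x => fderiv ℝ φ x (z.1 : E)) x

/-- `∂_p` of the Radon transform (`∂_p R φ = R (ω · ∇ φ)`). -/
noncomputable def dRad (φ : E → ℝ) (z : S × ℝ) : ℝ :=
  Rad (fun x => fderiv ℝ φ x (z.1 : E)) z

/-- The constant `1 / (2 (2π)³)`. -/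
noncomputable def c0 : ℝ := 1 / (16 * Real.pi ^ 3)

/-- Smooth functions of one variable. -/
def Sm (θ : ℝ → ℝ) : Prop := ContDiff ℝ ((⊤ : ℕ∞) : WithTop ℕ∞) θ

/-- Smooth functions on `E`. -/
def SmE (b : E → ℝ) : Prop := ContDiff ℝ ((⊤ : ℕ∞) : WithTop ℕ∞) b

/-- Schwartz functions (as plain functions). -/
def IsSch (φ : E → ℝ) : Prop := ∃ f : SchwartzMap E ℝ, ∀ x, f x = φ x

/-- `g` is the `i`-th weak derivative of `f`. -/
def WD (i : Fin 4) (f g : E → ℝ) : Prop :=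
  ∀ φ, IsTest φ → ∫ x, f x * pd i φ x = - ∫ x, g x * φ x

/-- Exterior of a ball. -/
def xt (y : E) (ρ : ℝ) : Set E := {x | ρ < dist x y}

/-- Half space. -/
def half (e : E) (c : ℝ) : Set E := {x | c < inner ℝ x e}

/-- Points of `Ω` whose closed ball of radius `a` is contained in `Ω`. -/
def shr (Ω : Set E) (a : ℝ) : Set E := {x | ∃ b, a < b ∧ Metric.ball x b ⊆ Ω}

/-- Weak convergence in `K`. -/
def WTo (k : ℕ → K) (k' : K) : Prop :=
  ∀ w : K, Tendsto (fun n => inner ℝ (k n) w) atTop (𝓝 (inner ℝ k' w))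

/-- Space translation by `y` and dilation by `e^a`. -/
noncomputable def gr (y : E) (a : ℝ) (k : K) : K := sh y (dl a k)

/-- Inverse of `gr y a`: `ig y a (gr y a k) = k` (statement GrA). -/
noncomputable def ig (y : E) (a : ℝ) (k : K) : K := gr (-(Real.exp a • y)) (-a) k

/-! ### Fourier side, test states -/

/-- Fourier transform of a real function on `ℝ⁴`. -/
noncomputable def ft (φ : E → ℝ) (ξ : E) : ℂ :=
  ∫ x, (φ x : ℂ) * Complex.exp (-2 * Real.pi * Complex.I * ((inner ℝ x ξ : ℝ) : ℂ))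

/-- Fourier transform in `p` of a function on `S × ℝ`. -/
noncomputable def ftp (h : S × ℝ → ℝ) (w : S) (r : ℝ) : ℂ :=
  ∫ p, (h (w, p) : ℂ) * Complex.exp (-2 * Real.pi * Complex.I * ((r * p : ℝ) : ℂ))

/-- Square of the homogeneous Sobolev norm `|φ|²` in `Ḣ^a` (for Schwartz `φ`, `a > -2`). -/
noncomputable def hs (a : ℝ) (φ : E → ℝ) : ℝ :=
  ∫ ξ, (2 * Real.pi * ‖ξ‖) ^ (2 * a) * ‖ft φ ξ‖ ^ 2

/-- `|∂_p|^{-a}` of the Radon transform of `φ` (even under `(ω, p) ↦ (-ω, -p)`): inverse Fourier transform of `|2πr|^{-a} φ^(r w)`. -/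
noncomputable def J0F (a : ℝ) (φ : E → ℝ) (z : S × ℝ) : ℝ :=
  (∫ r : ℝ, ((|2 * Real.pi * r| ^ (-a) : ℝ) : ℂ) * ft φ (r • (z.1 : E)) *
    Complex.exp (2 * Real.pi * Complex.I * ((r * z.2 : ℝ) : ℂ))).re

/-- `∂_p |∂_p|^{-a}` of the Radon transform of `φ` (odd under `(ω, p) ↦ (-ω, -p)`). -/
noncomputable def J1F (a : ℝ) (φ : E → ℝ) (z : S × ℝ) : ℝ :=
  (∫ r : ℝ, ((|2 * Real.pi * r| ^ (-a) : ℝ) : ℂ) * (2 * Real.pi * Complex.I * (r : ℂ)) *
    ft φ (r • (z.1 : E)) * Complex.exp (2 * Real.pi * Complex.I * ((r * z.2 : ℝ) : ℂ))).re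

/-- `|∂_p|^{-a} R φ` in `K`. -/
noncomputable def J0 (a : ℝ) (φ : E → ℝ) : K := toK (J0F a φ)

/-- `∂_p |∂_p|^{-a} R φ` in `K`. -/
noncomputable def J1 (a : ℝ) (φ : E → ℝ) : K := toK (J1F a φ)

/-- Test state for the position field: `|∂_p|^{-s} H R φ`, `H` the Hilbert transform (symbol `- i sgn r`). -/
noncomputable def Rs (s : ℝ) (φ : E → ℝ) : K := - J1 (1 + s) φ

/-- Test state for the velocity field: `∂_p |∂_p|^{-s} H R φ = |∂_p|^{1-s} R φ`. -/
noncomputable def dRs (s : ℝ) (φ : E → ℝ) : K := J0 (s - 1) φ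

/-- The element of `K` with position field `f` and velocity field `g`. -/
noncomputable def Theta (s : ℝ) (f g : E → ℝ) : K := c0 • (J1 (-s) (lap f) - J0 (-s) (lap g))

/-- `|∂_p|^{-s} h` for a nice function `h` on `S × ℝ`, as a function. -/
noncomputable def JF (s : ℝ) (h : S × ℝ → ℝ) (z : S × ℝ) : ℝ :=
  (∫ r : ℝ, ((|2 * Real.pi * r| ^ (-s) : ℝ) : ℂ) * ftp h z.1 r *
    Complex.exp (2 * Real.pi * Complex.I * ((r * z.2 : ℝ) : ℂ))).re

/-- `|∂_p|^{-s} h` as an element of `K`. -/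
noncomputable def JK (s : ℝ) (h : S × ℝ → ℝ) : K := toK (JF s h)

/-- `h` is the restriction of a smooth function on `ℝ⁴ × ℝ`, compactly supported in `p`, and its support is contained
in `A`. -/
def Nice (A : Set (S × ℝ)) (h : S × ℝ → ℝ) : Prop :=
  ∃ g : E × ℝ → ℝ, ContDiff ℝ ((⊤ : ℕ∞) : WithTop ℕ∞) g ∧ (∃ M : ℝ, ∀ x p, M ≤ |p| → g (x, p) = 0) ∧
    (∀ z : S × ℝ, h z = g ((z.1 : E), z.2)) ∧ closure {z | h z ≠ 0} ⊆ A

/-! ### Fields -/

/-- Exponent of the position field: `1/q0 = 1/2 - (3/2+s)/4`. -/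
noncomputable def q0 (s : ℝ) : ℝ≥0∞ := ENNReal.ofReal (8 / (1 - 2 * s))

/-- Exponent of the velocity field: `1/q1 = 1/2 - (1/2+s)/4`. -/
noncomputable def q1 (s : ℝ) : ℝ≥0∞ := ENNReal.ofReal (8 / (3 - 2 * s))

/-- `g` is the position field of `k`. -/
def IsU (s : ℝ) (k : K) (g : E → ℝ) : Prop :=
  MemLp g (q0 s) volume ∧ ∀ φ, IsTest φ → ∫ x, g x * φ x = inner ℝ k (Rs s φ)

/-- `g` is the velocity field of `k`. -/
def IsV (s : ℝ) (k : K) (g : E → ℝ) : Prop :=
  MemLp g (q1 s) volume ∧ ∀ φ, IsTest φ → ∫ x, g x * φ x = inner ℝ k (dRs s φ)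

/-- Position field. -/
noncomputable def U (s : ℝ) (k : K) : E → ℝ := by
  classical exact if h : ∃ g, IsU s k g then h.choose else 0

/-- Velocity field. -/
noncomputable def V (s : ℝ) (k : K) : E → ℝ := by
  classical exact if h : ∃ g, IsV s k g then h.choose else 0

/-- `i`-th weak derivative of the position field (in `L^{q1}`). -/
noncomputable def DU (s : ℝ) (k : K) (i : Fin 4) : E → ℝ := by
  classical exact if h : ∃ g : E → ℝ, MemLp g (q1 s) volume ∧ WD i (U s k) g then h.choose else 0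

/-! ### Exterior seminorms -/

/-- Closed span of the test states of test functions supported in `Ω`. -/
noncomputable def TS (s : ℝ) (Ω : Set E) : Submodule ℝ K :=
  (Submodule.span ℝ {w | ∃ φ, IsTest φ ∧ tsupport φ ⊆ Ω ∧ (w = Rs s φ ∨ w = dRs s φ)}).topologicalClosure

instance instProjTS (s : ℝ) (Ω : Set E) : (TS s Ω).HasOrthogonalProjection := by
  have : CompleteSpace (TS s Ω) :=
    (Submodule.isClosed_topologicalClosure _).completeSpace_coe
  infer_instance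

/-- The fields of `k` vanish on `Ω`. -/
def Van (s : ℝ) (Ω : Set E) (k : K) : Prop := k ∈ (TS s Ω)ᗮ

/-- Minimal element with the same fields as `k` on `Ω`. -/
noncomputable def pr (s : ℝ) (Ω : Set E) : K →L[ℝ] K := (TS s Ω).starProjection

/-- Norm of `k` on `Ω` (quotient norm). -/
noncomputable def ex (s : ℝ) (Ω : Set E) (k : K) : ℝ := ‖pr s Ω k‖

/-- Closed span of `|∂_p|^{-s} h`, `h` nice with support in `A ⊆ S × ℝ`. -/
noncomputable def PS (s : ℝ) (A : Set (S × ℝ)) : Submodule ℝ K :=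
  (Submodule.span ℝ {w | ∃ h, Nice A h ∧ w = JK s h}).topologicalClosure

instance instProjPS (s : ℝ) (A : Set (S × ℝ)) : (PS s A).HasOrthogonalProjection := by
  have : CompleteSpace (PS s A) :=
    (Submodule.isClosed_topologicalClosure _).completeSpace_coe
  infer_instance

/-- Norm of `k` on `A ⊆ S × ℝ` (quotient norm; replaces the norm of the restriction of `k` to `A`). -/
noncomputable def na (s : ℝ) (A : Set (S × ℝ)) (k : K) : ℝ := ‖(PS s A).starProjection k‖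

/-- `M` is the operator of multiplication by the function `ζ(p)` on the level of `|∂_p|^{-s} K`. -/
def IsMul (s : ℝ) (ζ : ℝ → ℝ) (M : K →L[ℝ] K) : Prop :=
  ∀ (k : K) (h : S × ℝ → ℝ), Nice univ h →
    inner ℝ (M k) (JK s h) = inner ℝ k (JK s (fun z => ζ z.2 * h z))

/-- Multiplication operator by `ζ(p)` (zero if there is none). -/
noncomputable def Mul (s : ℝ) (ζ : ℝ → ℝ) : K →L[ℝ] K := by
  classical exact if h : ∃ M, IsMul s ζ M then h.choose else 0

/-! ### Sources, differences -/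

/-- `w` is the source element with velocity `F`. -/
def IsGam (s : ℝ) (F : E → ℝ) (w : K) : Prop :=
  ∀ φ, IsTest φ → inner ℝ w (Rs s φ) = 0 ∧ inner ℝ w (dRs s φ) = ∫ x, F x * φ x

/-- The source element (position `0`, velocity `F`). -/
noncomputable def Gam (s : ℝ) (F : E → ℝ) : K := by
  classical exact if h : ∃ w, IsGam s F w then h.choose else 0

/-! ### The nonlinear equation -/

/-- `s = 1/2 - 2/b`. -/
noncomputable def sig (b : ℝ) : ℝ := 1 / 2 - 2 / b

/-- The nonlinearity `|u|^b u`. -/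
noncomputable def Fn (b : ℝ) (u : ℝ) : ℝ := |u| ^ b * u

/-- `N(k) = Γ(|u|^b u)`, `u = U k`. -/
noncomputable def NL (b : ℝ) (k : K) : K := Gam (sig b) fun x => Fn b (U (sig b) k x)

/-- Strichartz size of a state: `‖u‖_{L^{4b}}`. -/
noncomputable def sn (b : ℝ) (k : K) : ℝ≥0∞ := eLpNorm (U (sig b) k) (ENNReal.ofReal (4 * b)) volume

/-- `b`-th power of the Strichartz norm `‖u‖_{L^b(J; L^{4b})}`. -/
noncomputable def SN (b : ℝ) (J : Set ℝ) (k : ℝ → K) : ℝ≥0∞ := ∫⁻ t in J, sn b (k t) ^ b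

/-- `k` is a solution on the interval `I`. -/
def IsSol (b : ℝ) (I : Set ℝ) (k : ℝ → K) : Prop :=
  I.OrdConnected ∧ ContinuousOn k I ∧ (∀ x ∈ I, ∀ y ∈ I, SN b (Icc x y) k < ⊤) ∧
    ∀ x ∈ I, ∀ t ∈ I, k t = tau (t - x) (k x) - ∫ r in x..t, tau (t - r) (NL b (k r))

/-- Maximal solution. -/
def IsMax (b : ℝ) (I : Set ℝ) (k : ℝ → K) : Prop :=
  IsSol b I k ∧ IsOpen I ∧ I.Nonempty ∧
    ∀ J k', IsSol b J k' → I ⊆ J → (∀ t ∈ I, k' t = k t) → J ⊆ I

/-- Finite energy. -/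
def FE (s : ℝ) (k : K) : Prop := (∀ i, MemLp (DU s k i) 2 volume) ∧ MemLp (V s k) 2 volume

/-- Energy. -/
noncomputable def En (b : ℝ) (k : K) : ℝ :=
  (∑ i, ∫ x, DU (sig b) k i x ^ 2) / 2 + (∫ x, V (sig b) k x ^ 2) / 2 +
    (∫ x, |U (sig b) k x| ^ (b + 2)) / (b + 2)

/-- Compact solution. -/
def CSol (b : ℝ) (Q : Set K) (I : Set ℝ) (k : ℝ → K) (x : ℝ → E) (a : ℝ → ℝ) : Prop :=
  IsCompact Q ∧ (0 : K) ∉ Q ∧ IsMax b I k ∧ ∀ t ∈ I, ∃ κ ∈ Q, k t = gr (x t) (a t) κ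

/-- Normalised compact solution. -/
def NSol (b : ℝ) (Q : Set K) (k : ℝ → K) (x : ℝ → E) (a : ℝ → ℝ) : Prop :=
  CSol b Q univ k x a ∧ ∀ t, -Real.log 2 ≤ a t

/-- Path data (Sections 5, 6). -/
def Pth (b κ A : ℝ) (m : ℝ → ℝ) (k : ℝ → K) (y : ℝ → E) : Prop :=
  IsSol b univ k ∧ (∀ t, ‖k t‖ ≤ A) ∧ (∀ s t, dist (y t) (y s) ≤ (1 - κ) * |t - s|) ∧
    ∀ t ρ, ex (sig b) (xt (y t) ρ) (k t) ≤ m ρ

/-- `sup_t ‖k(t)‖_{|x - y(t)| > ρ}`. -/
noncomputable def epsb (b : ℝ) (k : ℝ → K) (y : ℝ → E) (ρ : ℝ) : ℝ :=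
  ⨆ t, ex (sig b) (xt (y t) ρ) (k t)

end Pool.Agent.QWF
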