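import Pool.Agent.QWF.StA2

set_option autoImplicit false

/-!
# QWF: exponents of the product block, local size (`d = 4`, `b > 4`)

`s = sig b = 1/2 - 2/b ∈ (0, 1/2)`. `1/q0 = 1/(2b)`, `1/q1 = 1/4 + 1/(2b)`, `1/q2 = 1/2 + 1/(2b)`.
-/

open MeasureTheory Filter Topology Set
open scoped ENNReal NNReal RealInnerProductSpace

namespace Pool.Agent.QWF

/-- `1/q2 = (5 - 2s)/8`: `L^{q2} ⊆ Ḣ^{s-1/2}`. -/
noncomputable def q2 (s : ℝ) : ℝ≥0∞ := ENNReal.ofReal (8 / (5 - 2 * s))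

/-- Norm of the top derivatives used in the product estimates: `∇ U k` in `L^{q1}`. -/
noncomputable def tn (b : ℝ) (k : K) : ℝ≥0∞ :=
  ∑ i, eLpNorm (DU (sig b) k i) (q1 (sig b)) volume

end Pool.Agent.QWF
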