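import Pool.Agent.QWF.StA

set_option autoImplicit false

/-!
# QWF / Dns0: total sets of states with Fourier support away from `0` and infinity

The functions `(w, p) ↦ a(w) Re (𝓕⁻ B) (p)`, `a` smooth, `B` Schwartz with compact support in `(0, ∞)`, are sums
`J0F a0 ψ0 + J1F a1 ψ1`; they are total in `K` (as QWE.Dens).
-/

open MeasureTheory Filter Topology Set
open scoped ENNReal NNReal RealInnerProductSpace FourierTransform SchwartzMap ContDiff Manifold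

namespace Pool.Agent.QWF

namespace Dns0x

/-- Schwartz functions on the line with compact support in the open right half line -/
def OneS (B : 𝓢(ℝ, ℂ)) : Prop :=
  ∃ δ R : ℝ, 0 < δ ∧ (∀ r, r ≤ δ → B r = 0) ∧ ∀ r, R ≤ r → B r = 0

/-! ### Functions on the sphere -/

/-- restrictions of smooth functions to the sphere -/
noncomputable def smS : Subalgebra ℝ C(S, ℝ) where
  carrier := {A | ∃ a : E → ℝ, SmE a ∧ ∀ w : S, A w = a w}
  mul_mem' := by
    rintro A A' ⟨a, ha, hA⟩ ⟨a', ha', hA'⟩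
    refine ⟨fun x => a x * a' x, ContDiff.mul ha ha', fun w => ?_⟩
    rw [ContinuousMap.mul_apply, hA, hA']
  add_mem' := by
    rintro A A' ⟨a, ha, hA⟩ ⟨a', ha', hA'⟩
    refine ⟨fun x => a x + a' x, ContDiff.add ha ha', fun w => ?_⟩
    rw [ContinuousMap.add_apply, hA, hA']
  algebraMap_mem' := by
    intro r
    exact ⟨fun _ => r, contDiff_const, fun w => rfl⟩

theorem smS_sep : smS.SeparatesPoints := by
  intro w w' hww
  have hc : Continuous fun v : S => inner ℝ (v : E) (w : E) := by fun_prop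
  refine ⟨fun v : S => inner ℝ (v : E) (w : E), ⟨⟨_, hc⟩, ⟨fun x => inner ℝ x (w : E), ?_,
    fun v => rfl⟩, rfl⟩, ?_⟩
  · exact contDiff_id.inner ℝ contDiff_const
  · intro h
    have hw : ‖(w : E)‖ = 1 := by simp
    have hw' : ‖(w' : E)‖ = 1 := by simp
    have h1 : inner ℝ (w : E) (w : E) = (1 : ℝ) := (inner_eq_one_iff_of_norm_eq_one hw hw).2 rfl
    have h2 : inner ℝ (w' : E) (w : E) = (1 : ℝ) := h.symm.trans h1
    have h3 := (inner_eq_one_iff_of_norm_eq_one hw' hw).1 h2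
    exact hww (Subtype.ext h3.symm)

theorem sphere_cont {F : S → ℝ} (hF : Integrable F sg)
    (h : ∀ a : E → ℝ, SmE a → ∫ w : S, a w * F w ∂sg = 0) {A : S → ℝ} (hA : Continuous A) :
    ∫ w, A w * F w ∂sg = 0 := by
  obtain ⟨MA, hMA⟩ : ∃ M, ∀ w, ‖A w‖ ≤ M := by
    obtain ⟨M, hM⟩ := isCompact_univ.exists_bound_of_continuousOn hA.continuousOn
    exact ⟨M, fun w => hM w (mem_univ w)⟩
  have hAF : Integrable (fun w => A w * F w) sg :=
    hF.bdd_mul hA.aestronglyMeasurable (Eventually.of_forall hMA)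
  have key : ∀ ε : ℝ, 0 < ε → |∫ w, A w * F w ∂sg| ≤ ε * ∫ w, |F w| ∂sg := by
    intro ε hε
    obtain ⟨⟨a0, a, ha, haA⟩, hg⟩ :=
      ContinuousMap.exists_mem_subalgebra_near_continuous_of_separatesPoints smS smS_sep A hA ε hε
    have hg' : ∀ w : S, ‖a w - A w‖ < ε := by
      intro w
      rw [← haA w]
      exact hg w
    have hca : Continuous fun w : S => a w := (ContDiff.continuous ha).comp continuous_subtype_val
    obtain ⟨Ma, hMa⟩ : ∃ M, ∀ w : S, ‖a w‖ ≤ M := by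
      obtain ⟨M, hM⟩ := isCompact_univ.exists_bound_of_continuousOn hca.continuousOn
      exact ⟨M, fun w => hM w (mem_univ w)⟩
    have haF : Integrable (fun w : S => a w * F w) sg :=
      hF.bdd_mul hca.aestronglyMeasurable (Eventually.of_forall hMa)
    have h1 : ∫ w, A w * F w ∂sg = ∫ w : S, (A w * F w - a w * F w) ∂sg := by
      rw [integral_sub hAF haF, h a ha, sub_zero]
    rw [h1, ← Real.norm_eq_abs]
    refine (norm_integral_le_integral_norm _).trans ?_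
    rw [← integral_const_mul]
    refine integral_mono (hAF.sub haF).norm (hF.abs.const_mul ε) fun w => ?_
    show ‖A w * F w - a w * F w‖ ≤ ε * |F w|
    rw [← sub_mul, norm_mul, Real.norm_eq_abs (F w), norm_sub_rev]
    exact mul_le_mul_of_nonneg_right (hg' w).le (abs_nonneg _)
  have hI : 0 ≤ ∫ w, |F w| ∂sg := integral_nonneg fun w => abs_nonneg _
  have h0 : |∫ w, A w * F w ∂sg| ≤ 0 := by
    refine le_of_forall_pos_le_add fun ε hε => ?_
    have h2 := key (ε / (∫ w, |F w| ∂sg + 1)) (by positivity)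
    refine h2.trans ?_
    rw [zero_add, div_mul_eq_mul_div, div_le_iff₀ (by positivity)]
    nlinarith
  exact abs_nonpos_iff.1 h0

theorem sphere_zero {F : S → ℝ} (hF : Integrable F sg)
    (h : ∀ a : E → ℝ, SmE a → ∫ w : S, a w * F w ∂sg = 0) : ∀ᵐ w ∂sg, F w = 0 := by
  have : Fact (Module.finrank ℝ E = 3 + 1) := ⟨by simp [E]⟩
  refine ae_eq_zero_of_integral_contMDiff_smul_eq_zero (𝓡 3) (M := S) hF.locallyIntegrable
    fun g hg _ => ?_
  exact sphere_cont hF h hg.continuous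

/-! ### Functions on the line -/

theorem ones_smul {B : 𝓢(ℝ, ℂ)} (hB : OneS B) (c : ℂ) : OneS (c • B) := by
  obtain ⟨δ, R, hδ, h1, h2⟩ := hB
  refine ⟨δ, R, hδ, fun r hr => ?_, fun r hr => ?_⟩
  · show c * B r = 0
    rw [h1 r hr, mul_zero]
  · show c * B r = 0
    rw [h2 r hr, mul_zero]

theorem mul_parts (x : ℝ) (z : ℂ) :
    (x : ℂ) * z = ((x * z.re : ℝ) : ℂ) + ((x * z.im : ℝ) : ℂ) * Complex.I := by
  apply Complex.ext <;> simp

theorem mul_parts' (x : ℝ) (z : ℂ) : (x : ℂ) * (starRingEnd ℂ) z =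
    ((x * z.re : ℝ) : ℂ) + ((x * z.im : ℝ) : ℂ) * (-Complex.I) := by
  apply Complex.ext <;> simp

theorem line_c {g : ℝ → ℝ} (hg : MemLp g 2 volume)
    (h : ∀ B : 𝓢(ℝ, ℂ), OneS B → ∫ p, g p * ((𝓕⁻ B) p).re = 0) {B : 𝓢(ℝ, ℂ)} (hB : OneS B) :
    ∫ p, (g p : ℂ) * (𝓕⁻ B) p = 0 ∧ ∫ p, (g p : ℂ) * (starRingEnd ℂ) ((𝓕⁻ B) p) = 0 := by
  have h1 := h B hB
  have h2 : ∫ p, g p * ((𝓕⁻ B) p).im = 0 := by
    have h3 := h (Complex.I • B) (ones_smul hB _)
    have h4 : ∀ p, g p * ((𝓕⁻ (Complex.I • B)) p).re = -(g p * ((𝓕⁻ B) p).im) := by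
      intro p
      rw [FourierTransform.fourierInv_smul]
      show g p * (Complex.I * (𝓕⁻ B) p).re = _
      rw [Complex.I_mul_re, mul_neg]
    rw [integral_congr_ae (Eventually.of_forall h4), integral_neg, neg_eq_zero] at h3
    exact h3
  have hb : MemLp (⇑(𝓕⁻ B : 𝓢(ℝ, ℂ))) 2 volume := SchwartzMap.memLp _ 2 volume
  have i1 : Integrable fun p => g p * ((𝓕⁻ B) p).re := hg.integrable_mul hb.re
  have i2 : Integrable fun p => g p * ((𝓕⁻ B) p).im := hg.integrable_mul hb.im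
  constructor
  · have h5 : ∀ p, (g p : ℂ) * (𝓕⁻ B) p =
        ((g p * ((𝓕⁻ B) p).re : ℝ) : ℂ) + ((g p * ((𝓕⁻ B) p).im : ℝ) : ℂ) * Complex.I := by
      intro p
      exact mul_parts _ _
    rw [integral_congr_ae (Eventually.of_forall h5), integral_add i1.ofReal
      (i2.ofReal.mul_const _), integral_mul_const, integral_complex_ofReal, integral_complex_ofReal,
      h1, h2]
    simp
  · have h5 : ∀ p, (g p : ℂ) * (starRingEnd ℂ) ((𝓕⁻ B) p) =
        ((g p * ((𝓕⁻ B) p).re : ℝ) : ℂ) + ((g p * ((𝓕⁻ B) p).im : ℝ) : ℂ) * (-Complex.I) := by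
      intro p
      exact mul_parts' _ _
    rw [integral_congr_ae (Eventually.of_forall h5), integral_add i1.ofReal
      (i2.ofReal.mul_const _), integral_mul_const, integral_complex_ofReal, integral_complex_ofReal,
      h1, h2]
    simp

/-- a smooth function with compact support in the open right half line as a Schwartz function -/
theorem exists_ones {φ : ℝ → ℝ} (h1 : ContDiff ℝ ∞ φ) (h2 : HasCompactSupport φ)
    (h3 : tsupport φ ⊆ Ioi 0) : ∃ B : 𝓢(ℝ, ℂ), OneS B ∧ ∀ r, B r = (φ r : ℂ) := by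
  have hc : HasCompactSupport fun r => (φ r : ℂ) := h2.comp_left (g := fun x : ℝ => (x : ℂ)) rfl
  have hs : ContDiff ℝ ∞ fun r => (φ r : ℂ) := Complex.ofRealCLM.contDiff.comp h1
  refine ⟨hc.toSchwartzMap hs, ?_, fun _ => rfl⟩
  have h4 : (tsupport φ)ᶜ ∈ 𝓝 (0 : ℝ) :=
    (isClosed_tsupport φ).isOpen_compl.mem_nhds fun h => absurd (mem_Ioi.1 (h3 h)) (lt_irrefl _)
  obtain ⟨ε, hε, hball⟩ := Metric.mem_nhds_iff.1 h4
  obtain ⟨R, hR⟩ := h2.isBounded.subset_closedBall (0 : ℝ)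
  refine ⟨ε / 2, R + 1, by positivity, fun r hr => ?_, fun r hr => ?_⟩
  · show (φ r : ℂ) = 0
    have h5 : r ∉ tsupport φ := by
      rcases le_or_gt r 0 with h6 | h6
      · intro h7
        exact absurd (h3 h7) (not_lt.2 h6)
      · refine hball ?_
        rw [mem_ball_zero_iff, Real.norm_eq_abs, abs_of_pos h6]
        linarith
    rw [image_eq_zero_of_notMem_tsupport h5, Complex.ofReal_zero]
  · show (φ r : ℂ) = 0
    have h5 : r ∉ tsupport φ := by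
      intro h7
      have h8 := hR h7
      rw [mem_closedBall_zero_iff, Real.norm_eq_abs] at h8
      have := le_abs_self r
      linarith
    rw [image_eq_zero_of_notMem_tsupport h5, Complex.ofReal_zero]

theorem line_zero {g : ℝ → ℝ} (hg : MemLp g 2 volume)
    (h : ∀ B : 𝓢(ℝ, ℂ), OneS B → ∫ p, g p * ((𝓕⁻ B) p).re = 0) : ∀ᵐ p, g p = 0 := by
  have hgC : MemLp (fun p => (g p : ℂ)) 2 volume := hg.ofReal
  set γ : Lp ℂ 2 (volume : Measure ℝ) := hgC.toLp _ with hγ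
  have hγe : (γ : ℝ → ℂ) =ᵐ[volume] fun p => (g p : ℂ) := hgC.coeFn_toLp
  set η : Lp ℂ 2 (volume : Measure ℝ) := 𝓕 γ with hη
  -- duality
  have hdual : ∀ Ψ : 𝓢(ℝ, ℂ), ∫ r, (starRingEnd ℂ) (Ψ r) * η r =
      ∫ p, (g p : ℂ) * (starRingEnd ℂ) ((𝓕⁻ Ψ) p) := by
    intro Ψ
    have e1 : (inner ℂ (Ψ.toLp 2 volume) η : ℂ) = ∫ r, (starRingEnd ℂ) (Ψ r) * η r := by
      rw [L2.inner_def]
      refine integral_congr_ae ?_
      filter_upwards [Ψ.coeFn_toLp 2 volume] with r hr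
      rw [hr, RCLike.inner_apply, mul_comm]
    have e2 : (inner ℂ ((𝓕⁻ Ψ).toLp 2 volume) γ : ℂ) =
        ∫ p, (g p : ℂ) * (starRingEnd ℂ) ((𝓕⁻ Ψ) p) := by
      rw [L2.inner_def]
      refine integral_congr_ae ?_
      filter_upwards [(𝓕⁻ Ψ).coeFn_toLp 2 volume, hγe] with r hr hr2
      rw [hr, hr2, RCLike.inner_apply]
    have e3 : (inner ℂ (𝓕 ((𝓕⁻ Ψ).toLp 2 volume)) (𝓕 γ) : ℂ) =
        inner ℂ ((𝓕⁻ Ψ).toLp 2 volume) γ := Lp.inner_fourier_eq _ _
    rw [SchwartzMap.toLp_fourier_eq, FourierTransform.fourier_fourierInv_eq] at e3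
    rw [← e1, ← e2, ← e3]
  have hloc : LocallyIntegrable (η : ℝ → ℂ) volume :=
    (Lp.memLp η).locallyIntegrable (by norm_num)
  -- right half line
  have hpos : ∀ᵐ r : ℝ, r ∈ Ioi (0 : ℝ) → η r = 0 := by
    refine isOpen_Ioi.ae_eq_zero_of_integral_contDiff_smul_eq_zero (hloc.locallyIntegrableOn _)
      fun φ h1 h2 h3 => ?_
    obtain ⟨B, hB, hBφ⟩ := exists_ones h1 h2 h3
    have h4 := (line_c hg h hB).2
    rw [← hdual B] at h4
    rw [← h4]
    refine integral_congr_ae (Eventually.of_forall fun r => ?_)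
    simp only
    rw [hBφ, Complex.conj_ofReal, Complex.real_smul]
  -- left half line
  have hneg : ∀ᵐ r : ℝ, r ∈ Iio (0 : ℝ) → η r = 0 := by
    refine isOpen_Iio.ae_eq_zero_of_integral_contDiff_smul_eq_zero (hloc.locallyIntegrableOn _)
      fun φ h1 h2 h3 => ?_
    have h1' : ContDiff ℝ ∞ fun r => φ (-r) := h1.comp contDiff_neg
    have h2' : HasCompactSupport fun r => φ (-r) := h2.comp_homeomorph (Homeomorph.neg ℝ)
    have h3' : tsupport (fun r => φ (-r)) ⊆ Ioi 0 := by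
      intro r hr
      have h5 : tsupport (fun r => φ (-r)) = (Homeomorph.neg ℝ) ⁻¹' tsupport φ :=
        tsupport_comp_eq_preimage φ (Homeomorph.neg ℝ)
      rw [h5] at hr
      have h6 : -r < 0 := h3 hr
      exact neg_lt_zero.1 h6
    obtain ⟨B, hB, hBφ⟩ := exists_ones h1' h2' h3'
    have hc : HasCompactSupport fun r => (φ r : ℂ) := h2.comp_left (g := fun x : ℝ => (x : ℂ)) rfl
    have hs : ContDiff ℝ ∞ fun r => (φ r : ℂ) := Complex.ofRealCLM.contDiff.comp h1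
    set B' : 𝓢(ℝ, ℂ) := hc.toSchwartzMap hs with hB'
    have hB'φ : ∀ r, B' r = (φ r : ℂ) := fun _ => rfl
    have h4 := (line_c hg h hB).1
    have h6 : ∀ p, (starRingEnd ℂ) ((𝓕⁻ B') p) = (𝓕⁻ B) p := by
      intro p
      rw [SchwartzMap.fourierInv_coe, SchwartzMap.fourierInv_coe, Real.fourierInv_eq',
        Real.fourierInv_eq', ← integral_conj, ← integral_neg_eq_self]
      refine integral_congr_ae (Eventually.of_forall fun r => ?_)
      simp only [smul_eq_mul, map_mul]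
      rw [hB'φ, hBφ, Complex.conj_ofReal, ← Complex.exp_conj, map_mul, Complex.conj_I,
        Complex.conj_ofReal]
      congr 2
      · rw [inner_neg_left]
        push_cast
        ring
    rw [← integral_congr_ae (Eventually.of_forall fun p => by
      show (g p : ℂ) * (starRingEnd ℂ) ((𝓕⁻ B') p) = (g p : ℂ) * (𝓕⁻ B) p
      rw [h6 p]), ← hdual B'] at h4
    rw [← h4]
    refine integral_congr_ae (Eventually.of_forall fun r => ?_)
    simp only
    rw [hB'φ, Complex.conj_ofReal, Complex.real_smul]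
  have hη0 : η = 0 := by
    rw [Lp.eq_zero_iff_ae_eq_zero]
    have hne : ∀ᵐ r : ℝ, r ≠ 0 := by
      rw [ae_iff]
      simp
    filter_upwards [hpos, hneg, hne] with r h1 h2 h3
    rcases lt_or_gt_of_ne h3 with h4 | h4
    · exact h2 h4
    · exact h1 h4
  have hγ0 : γ = 0 := by
    have h1 : ‖η‖ = ‖γ‖ := Lp.norm_fourier_eq γ
    rw [hη0, norm_zero] at h1
    exact norm_eq_zero.1 h1.symm
  have h7 : (γ : ℝ → ℂ) =ᵐ[volume] 0 := by
    rw [hγ0]
    exact Lp.coeFn_zero _ _ _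
  filter_upwards [hγe, h7] with p h8 h9
  rw [h9, Pi.zero_apply] at h8
  exact_mod_cast h8.symm

/-! ### Product profiles -/

/-- the transforms of the two Schwartz functions -/
noncomputable def gg (a : E → ℝ) (B : 𝓢(ℝ, ℂ)) (e σ : ℝ) (c : ℂ) (ξ : E) : ℂ :=
  c * (((2 * Real.pi * ‖ξ‖) ^ e : ℝ) : ℂ) * (((a (‖ξ‖⁻¹ • ξ) : ℝ) : ℂ) * B ‖ξ‖ +
    (σ : ℂ) * (((a (-(‖ξ‖⁻¹ • ξ)) : ℝ) : ℂ) * (starRingEnd ℂ) (B ‖ξ‖)))

theorem gg_smooth {a : E → ℝ} (ha : SmE a) {B : 𝓢(ℝ, ℂ)} (hB : OneS B) (e σ : ℝ) (c : ℂ) :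
    ContDiff ℝ ((⊤ : ℕ∞) : WithTop ℕ∞) (gg a B e σ c) ∧ HasCompactSupport (gg a B e σ c) ∧
      ∀ᶠ ξ in 𝓝 (0 : E), gg a B e σ c ξ = 0 := by
  obtain ⟨δ, R, hδ, h1, h2⟩ := hB
  have hz : ∀ ξ : E, B ‖ξ‖ = 0 → gg a B e σ c ξ = 0 := by
    intro ξ h
    unfold gg
    rw [h, map_zero]
    simp
  refine ⟨?_, ?_, ?_⟩
  · rw [contDiff_iff_contDiffAt]
    intro ξ
    by_cases hξ : ‖ξ‖ < δ
    · have h3 : gg a B e σ c =ᶠ[𝓝 ξ] fun _ => 0 := by
        have h4 : ∀ᶠ y : E in 𝓝 ξ, ‖y‖ < δ := continuous_norm.continuousAt.eventually_lt_const hξ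
        filter_upwards [h4] with y hy
        exact hz y (h1 _ hy.le)
      exact contDiffAt_const.congr_of_eventuallyEq h3
    · have hξ0 : ξ ≠ 0 := by
        intro h0
        rw [h0, norm_zero] at hξ
        exact hξ hδ
      have hn : ContDiffAt ℝ ∞ (fun ξ : E => ‖ξ‖) ξ := contDiffAt_norm ℝ hξ0
      have hi : ContDiffAt ℝ ∞ (fun ξ : E => ‖ξ‖⁻¹) ξ := hn.inv (norm_ne_zero_iff.2 hξ0)
      have h3 : ContDiffAt ℝ ∞ (fun ξ : E => a (‖ξ‖⁻¹ • ξ)) ξ :=
        (ha.contDiffAt).comp ξ (hi.smul contDiffAt_id)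
      have h3' : ContDiffAt ℝ ∞ (fun ξ : E => a (-(‖ξ‖⁻¹ • ξ))) ξ :=
        (ha.contDiffAt).comp ξ (hi.smul contDiffAt_id).neg
      have h4 : ContDiffAt ℝ ∞ (fun ξ : E => ((a (‖ξ‖⁻¹ • ξ) : ℝ) : ℂ)) ξ :=
        Complex.ofRealCLM.contDiff.contDiffAt.comp ξ h3
      have h4' : ContDiffAt ℝ ∞ (fun ξ : E => ((a (-(‖ξ‖⁻¹ • ξ)) : ℝ) : ℂ)) ξ :=
        Complex.ofRealCLM.contDiff.contDiffAt.comp ξ h3'
      have h5 : ContDiffAt ℝ ∞ (fun ξ : E => B ‖ξ‖) ξ :=
        ((B.smooth ⊤).contDiffAt).comp ξ hn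
      have h5' : ContDiffAt ℝ ∞ (fun ξ : E => (starRingEnd ℂ) (B ‖ξ‖)) ξ :=
        Complex.conjCLE.contDiff.contDiffAt.comp ξ h5
      have h6 : ContDiffAt ℝ ∞ (fun ξ : E => (((2 * Real.pi * ‖ξ‖) ^ e : ℝ) : ℂ)) ξ := by
        refine Complex.ofRealCLM.contDiff.contDiffAt.comp ξ ?_
        refine ContDiffAt.rpow_const_of_ne (contDiffAt_const.mul hn) ?_
        have := norm_pos_iff.2 hξ0
        positivity
      exact (contDiffAt_const.mul h6).mul ((h4.mul h5).add (contDiffAt_const.mul (h4'.mul h5')))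
  · refine HasCompactSupport.intro (isCompact_closedBall (0 : E) R) fun x hx => ?_
    rw [mem_closedBall_zero_iff, not_le] at hx
    exact hz x (h2 _ hx.le)
  · have h4 : ∀ᶠ y : E in 𝓝 (0 : E), ‖y‖ < δ :=
      continuous_norm.continuousAt.eventually_lt_const (by simpa using hδ)
    filter_upwards [h4] with y hy
    exact hz y (h1 _ hy.le)

theorem gg_pos {a : E → ℝ} {B : 𝓢(ℝ, ℂ)} (e σ : ℝ) (c : ℂ) (w : S) {r : ℝ} (hr : 0 < r) :
    gg a B e σ c (r • (w : E)) = c * (((2 * Real.pi * r) ^ e : ℝ) : ℂ) * (((a w : ℝ) : ℂ) * B r +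
      (σ : ℂ) * (((a (-w) : ℝ) : ℂ) * (starRingEnd ℂ) (B r))) := by
  have hw : ‖(w : E)‖ = 1 := norm_eq_of_mem_sphere w
  have h1 : ‖r • (w : E)‖ = r := by rw [norm_smul, hw, mul_one, Real.norm_eq_abs, abs_of_pos hr]
  have h2 : r⁻¹ • r • (w : E) = w := by rw [smul_smul, inv_mul_cancel₀ hr.ne', one_smul]
  unfold gg
  rw [h1, h2]

theorem gg_neg {a : E → ℝ} {B : 𝓢(ℝ, ℂ)} (e σ : ℝ) (c : ℂ) (w : S) {r : ℝ} (hr : r < 0) :
    gg a B e σ c (r • (w : E)) = c * (((2 * Real.pi * (-r)) ^ e : ℝ) : ℂ) *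
      (((a (-w) : ℝ) : ℂ) * B (-r) +
      (σ : ℂ) * (((a w : ℝ) : ℂ) * (starRingEnd ℂ) (B (-r)))) := by
  have hw : ‖(w : E)‖ = 1 := norm_eq_of_mem_sphere w
  have h1 : ‖r • (w : E)‖ = -r := by rw [norm_smul, hw, mul_one, Real.norm_eq_abs, abs_of_neg hr]
  have h2 : (-r)⁻¹ • r • (w : E) = -w := by
    rw [smul_smul, inv_neg, neg_mul, inv_mul_cancel₀ hr.ne, neg_smul, one_smul]
  unfold gg
  rw [h1, h2, neg_neg]

theorem gg_herm {a : E → ℝ} {B : 𝓢(ℝ, ℂ)} (e σ : ℝ) (hσ : σ ^ 2 = 1) (c : ℂ)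
    (hc : (starRingEnd ℂ) c = σ * c) (ξ : E) :
    gg a B e σ c (-ξ) = (starRingEnd ℂ) (gg a B e σ c ξ) := by
  unfold gg
  rw [norm_neg, smul_neg, neg_neg]
  simp only [map_mul, map_add, Complex.conj_ofReal, Complex.conj_conj, hc]
  have h1 : (σ : ℂ) ^ 2 = 1 := by exact_mod_cast hσ
  linear_combination (c * (((2 * Real.pi * ‖ξ‖) ^ e : ℝ) : ℂ) * ((a (-(‖ξ‖⁻¹ • ξ)) : ℝ) : ℂ) * B ‖ξ‖) * (-h1)

/-! ### The states with these transforms -/

theorem ee_norm (p r : ℝ) : ‖Complex.exp (2 * Real.pi * Complex.I * ((r * p : ℝ) : ℂ))‖ = 1 := by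
  have h : (2 * Real.pi * Complex.I * ((r * p : ℝ) : ℂ) : ℂ) = ((2 * Real.pi * (r * p) : ℝ) : ℂ) * Complex.I := by
    push_cast
    ring
  rw [h, Complex.norm_exp_ofReal_mul_I]

theorem ee_int {f : ℝ → ℂ} (hf : Integrable f) (p : ℝ) :
    Integrable fun r => f r * Complex.exp (2 * Real.pi * Complex.I * ((r * p : ℝ) : ℂ)) := by
  refine hf.mul_bdd (c := 1) ?_ (Eventually.of_forall fun r => (ee_norm p r).le)
  exact Continuous.aestronglyMeasurable (by fun_prop)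

theorem int_X1 (B : 𝓢(ℝ, ℂ)) (p : ℝ) :
    ∫ r, B r * Complex.exp (2 * Real.pi * Complex.I * ((r * p : ℝ) : ℂ)) = (𝓕⁻ B) p := by
  rw [SchwartzMap.fourierInv_coe, Real.fourierInv_eq']
  refine integral_congr_ae (Eventually.of_forall fun r => ?_)
  simp only [smul_eq_mul]
  rw [mul_comm]
  congr 2
  have h : inner ℝ r p = r * p := by
    rw [real_inner_comm]
    rfl
  rw [h]
  push_cast
  ring

theorem int_X4 (B : 𝓢(ℝ, ℂ)) (p : ℝ) :
    ∫ r, (starRingEnd ℂ) (B (-r)) * Complex.exp (2 * Real.pi * Complex.I * ((r * p : ℝ) : ℂ)) =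
      (starRingEnd ℂ) ((𝓕⁻ B) p) := by
  rw [← int_X1, ← integral_conj, ← integral_neg_eq_self]
  refine integral_congr_ae (Eventually.of_forall fun r => ?_)
  simp only [map_mul]
  rw [neg_neg, ← Complex.exp_conj]
  congr 2
  simp only [map_mul, Complex.conj_I, Complex.conj_ofReal]
  rw [Complex.conj_ofNat]
  push_cast
  ring

theorem F0_eq {a : E → ℝ} {B : 𝓢(ℝ, ℂ)} (hB : OneS B) (e : ℝ) (w : S) (p r : ℝ) :
    ((|2 * Real.pi * r| ^ (-e) : ℝ) : ℂ) * gg a B e 1 (1 / 4) (r • (w : E)) *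
      Complex.exp (2 * Real.pi * Complex.I * ((r * p : ℝ) : ℂ)) =
    (1 / 4) * (((a w : ℝ) : ℂ) * (B r * Complex.exp (2 * Real.pi * Complex.I * ((r * p : ℝ) : ℂ))) +
      ((a (-w) : ℝ) : ℂ) * ((starRingEnd ℂ) (B r) * Complex.exp (2 * Real.pi * Complex.I * ((r * p : ℝ) : ℂ))) +
      ((a (-w) : ℝ) : ℂ) * (B (-r) * Complex.exp (2 * Real.pi * Complex.I * ((r * p : ℝ) : ℂ))) +
      ((a w : ℝ) : ℂ) * ((starRingEnd ℂ) (B (-r)) * Complex.exp (2 * Real.pi * Complex.I * ((r * p : ℝ) : ℂ)))) := by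
  obtain ⟨δ, R, hδ, h1, h2⟩ := hB
  rcases lt_trichotomy r 0 with hr | hr | hr
  · have h3 : B r = 0 := h1 r (by linarith)
    have h4 : |2 * Real.pi * r| = 2 * Real.pi * (-r) := by
      rw [abs_of_neg (by nlinarith [Real.pi_pos]), mul_neg]
    have h5 : 0 < 2 * Real.pi * (-r) := by nlinarith [Real.pi_pos]
    have h6 : (2 * Real.pi * (-r)) ^ (-e) * (2 * Real.pi * (-r)) ^ e = 1 := by
      rw [← Real.rpow_add h5, neg_add_cancel, Real.rpow_zero]
    have h7 : (((2 * Real.pi * (-r)) ^ (-e) : ℝ) : ℂ) * (((2 * Real.pi * (-r)) ^ e : ℝ) : ℂ) = 1 := by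
      rw [← Complex.ofReal_mul, h6, Complex.ofReal_one]
    rw [h3, map_zero, h4, gg_neg e 1 _ w hr]
    generalize (((2 * Real.pi * (-r)) ^ (-e) : ℝ) : ℂ) = X at *
    generalize (((2 * Real.pi * (-r)) ^ e : ℝ) : ℂ) = Y at *
    push_cast
    linear_combination (1 / 4 * (((a (-w) : ℝ) : ℂ) * B (-r) + (((a w : ℝ) : ℂ) * (starRingEnd ℂ) (B (-r)))) *
      Complex.exp (2 * Real.pi * Complex.I * (r * p))) * h7
  · subst hr
    have h3 : B 0 = 0 := h1 0 hδ.le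
    have h4 : gg a B e 1 (1 / 4) ((0 : ℝ) • (w : E)) = 0 := by
      unfold gg
      rw [zero_smul, norm_zero, h3, map_zero]
      simp
    rw [h4, neg_zero, h3, map_zero]
    simp
  · have h3 : B (-r) = 0 := h1 (-r) (by linarith)
    have h5 : 0 < 2 * Real.pi * r := by positivity
    have h4 : |2 * Real.pi * r| = 2 * Real.pi * r := abs_of_pos h5
    have h6 : (2 * Real.pi * r) ^ (-e) * (2 * Real.pi * r) ^ e = 1 := by
      rw [← Real.rpow_add h5, neg_add_cancel, Real.rpow_zero]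
    have h7 : (((2 * Real.pi * r) ^ (-e) : ℝ) : ℂ) * (((2 * Real.pi * r) ^ e : ℝ) : ℂ) = 1 := by
      rw [← Complex.ofReal_mul, h6, Complex.ofReal_one]
    rw [h3, map_zero, h4, gg_pos e 1 _ w hr]
    generalize (((2 * Real.pi * r) ^ (-e) : ℝ) : ℂ) = X at *
    generalize (((2 * Real.pi * r) ^ e : ℝ) : ℂ) = Y at *
    push_cast
    linear_combination (1 / 4 * (((a w : ℝ) : ℂ) * B r + (((a (-w) : ℝ) : ℂ) * (starRingEnd ℂ) (B r))) *
      Complex.exp (2 * Real.pi * Complex.I * (r * p))) * h7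

theorem F1_eq {a : E → ℝ} {B : 𝓢(ℝ, ℂ)} (hB : OneS B) (e : ℝ) (w : S) (p r : ℝ) :
    ((|2 * Real.pi * r| ^ (-e) : ℝ) : ℂ) * (2 * Real.pi * Complex.I * (r : ℂ)) *
      gg a B (e - 1) (-1) (-Complex.I / 4) (r • (w : E)) *
      Complex.exp (2 * Real.pi * Complex.I * ((r * p : ℝ) : ℂ)) =
    (1 / 4) * (((a w : ℝ) : ℂ) * (B r * Complex.exp (2 * Real.pi * Complex.I * ((r * p : ℝ) : ℂ))) -
      ((a (-w) : ℝ) : ℂ) * ((starRingEnd ℂ) (B r) * Complex.exp (2 * Real.pi * Complex.I * ((r * p : ℝ) : ℂ))) -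
      ((a (-w) : ℝ) : ℂ) * (B (-r) * Complex.exp (2 * Real.pi * Complex.I * ((r * p : ℝ) : ℂ))) +
      ((a w : ℝ) : ℂ) * ((starRingEnd ℂ) (B (-r)) * Complex.exp (2 * Real.pi * Complex.I * ((r * p : ℝ) : ℂ)))) := by
  obtain ⟨δ, R, hδ, h1, h2⟩ := hB
  have hI : Complex.I * Complex.I = -1 := Complex.I_mul_I
  rcases lt_trichotomy r 0 with hr | hr | hr
  · have h3 : B r = 0 := h1 r (by linarith)
    have h4 : |2 * Real.pi * r| = 2 * Real.pi * (-r) := by
      rw [abs_of_neg (by nlinarith [Real.pi_pos]), mul_neg]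
    have h5 : 0 < 2 * Real.pi * (-r) := by nlinarith [Real.pi_pos]
    have h6 : (2 * Real.pi * (-r)) ^ (-e) * ((2 * Real.pi * (-r)) ^ (e - 1) * (2 * Real.pi * (-r))) = 1 := by
      have h8 : (2 * Real.pi * (-r)) ^ (e - 1) * (2 * Real.pi * (-r)) = (2 * Real.pi * (-r)) ^ e := by
        rw [← Real.rpow_add_one h5.ne']
        congr 1
        ring
      rw [h8, ← Real.rpow_add h5, neg_add_cancel, Real.rpow_zero]
    have h7 : (((2 * Real.pi * (-r)) ^ (-e) : ℝ) : ℂ) * ((((2 * Real.pi * (-r)) ^ (e - 1) : ℝ) : ℂ) *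
        (2 * Real.pi * (-(r : ℂ)))) = 1 := by
      have h8 := congrArg (fun x : ℝ => (x : ℂ)) h6
      simp only [Complex.ofReal_mul, Complex.ofReal_one, Complex.ofReal_neg, Complex.ofReal_ofNat] at h8
      exact h8
    rw [h3, map_zero, h4, gg_neg (e - 1) (-1) _ w hr]
    generalize (((2 * Real.pi * (-r)) ^ (-e) : ℝ) : ℂ) = X at *
    generalize (((2 * Real.pi * (-r)) ^ (e - 1) : ℝ) : ℂ) = Y at *
    push_cast
    generalize Complex.exp (2 * Real.pi * Complex.I * (r * p)) = Z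
    generalize B (-r) = b1
    generalize (starRingEnd ℂ) b1 = b2
    linear_combination (-(1 / 4) * (((a (-w) : ℝ) : ℂ) * b1 - (((a w : ℝ) : ℂ) * b2)) * Z) * h7 +
      (X * (2 * Real.pi * (r : ℂ)) * (-(1 / 4) * Y) * (((a (-w) : ℝ) : ℂ) * b1 - (((a w : ℝ) : ℂ) * b2)) * Z) * hI
  · subst hr
    have h3 : B 0 = 0 := h1 0 hδ.le
    rw [neg_zero, h3, map_zero]
    simp
  · have h3 : B (-r) = 0 := h1 (-r) (by linarith)
    have h5 : 0 < 2 * Real.pi * r := by positivity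
    have h4 : |2 * Real.pi * r| = 2 * Real.pi * r := abs_of_pos h5
    have h6 : (2 * Real.pi * r) ^ (-e) * ((2 * Real.pi * r) ^ (e - 1) * (2 * Real.pi * r)) = 1 := by
      have h8 : (2 * Real.pi * r) ^ (e - 1) * (2 * Real.pi * r) = (2 * Real.pi * r) ^ e := by
        rw [← Real.rpow_add_one h5.ne']
        congr 1
        ring
      rw [h8, ← Real.rpow_add h5, neg_add_cancel, Real.rpow_zero]
    have h7 : (((2 * Real.pi * r) ^ (-e) : ℝ) : ℂ) * ((((2 * Real.pi * r) ^ (e - 1) : ℝ) : ℂ) *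
        (2 * Real.pi * (r : ℂ))) = 1 := by
      have h8 := congrArg (fun x : ℝ => (x : ℂ)) h6
      simp only [Complex.ofReal_mul, Complex.ofReal_one, Complex.ofReal_ofNat] at h8
      exact h8
    rw [h3, map_zero, h4, gg_pos (e - 1) (-1) _ w hr]
    generalize (((2 * Real.pi * r) ^ (-e) : ℝ) : ℂ) = X at *
    generalize (((2 * Real.pi * r) ^ (e - 1) : ℝ) : ℂ) = Y at *
    push_cast
    generalize Complex.exp (2 * Real.pi * Complex.I * (r * p)) = Z
    generalize B r = b1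
    generalize (starRingEnd ℂ) b1 = b2
    linear_combination ((1 / 4) * (((a w : ℝ) : ℂ) * b1 - (((a (-w) : ℝ) : ℂ) * b2)) * Z) * h7 +
      (X * (2 * Real.pi * (r : ℂ)) * (-(1 / 4) * Y) * (((a w : ℝ) : ℂ) * b1 - (((a (-w) : ℝ) : ℂ) * b2)) * Z) * hI

theorem int4 {x1 x2 x3 x4 : ℝ → ℂ} (i1 : Integrable x1) (i2 : Integrable x2) (i3 : Integrable x3)
    (i4 : Integrable x4) (c1 c2 : ℂ) :
    (∫ r, (1 / 4 : ℂ) * (c1 * x1 r + c2 * x2 r + c2 * x3 r + c1 * x4 r)) +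
      (∫ r, (1 / 4 : ℂ) * (c1 * x1 r - c2 * x2 r - c2 * x3 r + c1 * x4 r)) =
      (1 / 2) * (c1 * ((∫ r, x1 r) + ∫ r, x4 r)) := by
  have j1 : Integrable fun r => (1 / 4 : ℂ) * (c1 * x1 r + c2 * x2 r + c2 * x3 r + c1 * x4 r) :=
    ((((i1.const_mul c1).add (i2.const_mul c2)).add (i3.const_mul c2)).add (i4.const_mul c1)).const_mul _
  have j2 : Integrable fun r => (1 / 4 : ℂ) * (c1 * x1 r - c2 * x2 r - c2 * x3 r + c1 * x4 r) :=
    ((((i1.const_mul c1).sub (i2.const_mul c2)).sub (i3.const_mul c2)).add (i4.const_mul c1)).const_mul _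
  rw [← integral_add j1 j2, ← integral_add i1 i4, ← integral_const_mul, ← integral_const_mul]
  refine integral_congr_ae (Eventually.of_forall fun r => ?_)
  simp only
  ring

/-- states whose translation representation is `a(w) Re (𝓕⁻ B) (p)` -/
theorem prof (hI : St_FtI) {a : E → ℝ} (ha : SmE a) {B : 𝓢(ℝ, ℂ)} (hB : OneS B) (a0 a1 : ℝ) :
    ∃ f g : E → ℝ, (IsSch f ∧ HasCompactSupport (ft f) ∧ (∀ᶠ ξ in 𝓝 (0 : E), ft f ξ = 0)) ∧
      (IsSch g ∧ HasCompactSupport (ft g) ∧ (∀ᶠ ξ in 𝓝 (0 : E), ft g ξ = 0)) ∧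
      ∀ (w : S) (p : ℝ), J0F a0 f (w, p) + J1F a1 g (w, p) = a w * ((𝓕⁻ B) p).re := by
  obtain ⟨u1, u2, u3⟩ := gg_smooth ha hB a0 1 (1 / 4)
  obtain ⟨v1, v2, v3⟩ := gg_smooth ha hB (a1 - 1) (-1) (-Complex.I / 4)
  obtain ⟨f, hf, hf2⟩ := hI _ u1 u2 (gg_herm a0 1 (by norm_num) _ (by
    rw [map_div₀, map_one, Complex.conj_ofNat]
    simp))
  obtain ⟨g, hg, hg2⟩ := hI _ v1 v2 (gg_herm (a1 - 1) (-1) (by norm_num) _ (by
    rw [map_div₀, map_neg, Complex.conj_I, Complex.conj_ofNat]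
    push_cast
    ring))
  have ef : ft f = gg a B a0 1 (1 / 4) := funext hf2
  have eg : ft g = gg a B (a1 - 1) (-1) (-Complex.I / 4) := funext hg2
  refine ⟨f, g, ⟨hf, by rw [ef]; exact u2, by rw [ef]; exact u3⟩,
    ⟨hg, by rw [eg]; exact v2, by rw [eg]; exact v3⟩, fun w p => ?_⟩
  have i1 := ee_int B.integrable p
  have i2 : Integrable fun r => (starRingEnd ℂ) (B r) * Complex.exp (2 * Real.pi * Complex.I * ((r * p : ℝ) : ℂ)) := by
    refine ee_int ?_ p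
    exact (Complex.conjCLE.toContinuousLinearMap.integrable_comp B.integrable)
  have i3 : Integrable fun r => B (-r) * Complex.exp (2 * Real.pi * Complex.I * ((r * p : ℝ) : ℂ)) :=
    ee_int B.integrable.comp_neg p
  have i4 : Integrable fun r => (starRingEnd ℂ) (B (-r)) *
      Complex.exp (2 * Real.pi * Complex.I * ((r * p : ℝ) : ℂ)) := by
    refine ee_int ?_ p
    exact (Complex.conjCLE.toContinuousLinearMap.integrable_comp B.integrable.comp_neg)
  unfold J0F J1F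
  rw [ef, eg, ← Complex.add_re]
  rw [integral_congr_ae (Eventually.of_forall fun r => F0_eq (a := a) hB a0 w p r),
    integral_congr_ae (Eventually.of_forall fun r => F1_eq (a := a) hB a1 w p r)]
  rw [int4 i1 i2 i3 i4, int_X1, int_X4, Complex.add_conj]
  have h2 : (1 / 2 : ℂ) * (((a w : ℝ) : ℂ) * ((2 * ((𝓕⁻ B) p).re : ℝ) : ℂ)) =
      ((a w * ((𝓕⁻ B) p).re : ℝ) : ℂ) := by
    push_cast
    ring
  rw [h2, Complex.ofReal_re]

/-! ### Orthogonality -/

theorem inner_K {u v : K} {f g : S × ℝ → ℝ} (hu : (u : S × ℝ → ℝ) =ᵐ[mu] f)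
    (hv : (v : S × ℝ → ℝ) =ᵐ[mu] g) : (inner ℝ u v : ℝ) = ∫ z, f z * g z ∂mu := by
  rw [L2.inner_def]
  refine integral_congr_ae ?_
  filter_upwards [hu, hv] with z h1 h2
  rw [h1, h2]
  simp [mul_comm]

/-- admissible functions -/
def Adm (ψ : E → ℝ) : Prop := IsSch ψ ∧ HasCompactSupport (ft ψ) ∧ ∀ᶠ ξ in 𝓝 (0 : E), ft ψ ξ = 0

theorem orth_zero (hI : St_FtI) (hP : St_Par) {a0 a1 : ℝ} (ha0 : a0 < 1 / 2) (ha1 : a1 < 3 / 2) (κ : K)
    (hκ : ∀ ψ : E → ℝ, Adm ψ → inner ℝ κ (J0 a0 ψ) = (0 : ℝ) ∧ inner ℝ κ (J1 a1 ψ) = (0 : ℝ)) : κ = 0 := by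
  -- the product formula
  have hprod : ∀ (a : E → ℝ) (B : 𝓢(ℝ, ℂ)), SmE a → OneS B →
      Integrable (fun z : S × ℝ => κ z * (a z.1 * ((𝓕⁻ B) z.2).re)) mu ∧
        ∫ z : S × ℝ, κ z * (a z.1 * ((𝓕⁻ B) z.2).re) ∂mu = 0 := by
    intro a B ha hB
    obtain ⟨f, g, hf, hg, hfg⟩ := prof hI ha hB a0 a1
    have m0 := ((hP a0 a0 0 f f hf.1 hf.1).1 ha0).2
    have m1 := ((hP a1 a1 0 g g hg.1 hg.1).2.1 ha1).2
    have h1 : ((J0 a0 f + J1 a1 g : K) : S × ℝ → ℝ) =ᵐ[mu]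
        fun z => a z.1 * ((𝓕⁻ B) z.2).re := by
      filter_upwards [Lp.coeFn_add (J0 a0 f) (J1 a1 g), toK_coe m0, toK_coe m1] with z e1 e2 e3
      rw [e1, Pi.add_apply]
      unfold J0 J1
      rw [e2, e3]
      exact hfg z.1 z.2
    constructor
    · have h2 : Integrable (fun z => κ z * (J0 a0 f + J1 a1 g : K) z) mu :=
        (Lp.memLp κ).integrable_mul (Lp.memLp _)
      refine h2.congr ?_
      filter_upwards [h1] with z hz
      rw [hz]
    · rw [← inner_K (Filter.EventuallyEq.refl _ _) h1, inner_add_right, (hκ f hf).1, (hκ g hg).2,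
        add_zero]
  -- slices
  have hslice : ∀ B : 𝓢(ℝ, ℂ), OneS B → ∀ᵐ w ∂sg, ∫ p, κ (w, p) * ((𝓕⁻ B) p).re = 0 := by
    intro B hB
    have h1 := (hprod (fun _ => 1) B contDiff_const hB).1
    simp only [one_mul] at h1
    refine sphere_zero h1.integral_prod_left fun a ha => ?_
    obtain ⟨h2, h3⟩ := hprod a B ha hB
    rw [integral_prod _ h2] at h3
    rw [← h3]
    refine integral_congr_ae (Eventually.of_forall fun w => ?_)
    simp only
    rw [← integral_const_mul]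
    refine integral_congr_ae (Eventually.of_forall fun p => ?_)
    simp only
    ring
  -- a countable family
  set D : Set (Lp ℝ 2 (volume : Measure ℝ)) :=
    {β | ∃ B : 𝓢(ℝ, ℂ), OneS B ∧ (β : ℝ → ℝ) =ᵐ[volume] fun p => ((𝓕⁻ B) p).re} with hD
  have : Fact ((2 : ℝ≥0∞) ≠ ⊤) := ⟨by norm_num⟩
  have : SecondCountableTopology (Lp ℝ 2 (volume : Measure ℝ)) := inferInstance
  obtain ⟨t, htD, htc, hDt⟩ :=
    (TopologicalSpace.IsSeparable.of_separableSpace D).exists_countable_dense_subset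
  have h1 : ∀ᵐ w ∂sg, ∀ β ∈ t, ∫ p, κ (w, p) * β p = 0 := by
    rw [ae_ball_iff htc]
    intro β hβ
    obtain ⟨B, hB, hβB⟩ := htD hβ
    filter_upwards [hslice B hB] with w hw
    rw [← hw]
    refine integral_congr_ae ?_
    filter_upwards [hβB] with p hp
    rw [hp]
  have hmeas : StronglyMeasurable (κ : S × ℝ → ℝ) := Lp.stronglyMeasurable κ
  have h2 : ∀ᵐ w ∂sg, Integrable (fun p => κ (w, p) ^ 2) volume :=
    (Lp.memLp κ).integrable_sq.prod_right_ae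
  have h3 : ∀ᵐ w ∂sg, ∀ᵐ p, κ (w, p) = 0 := by
    filter_upwards [h1, h2] with w hw1 hw2
    have hsm : StronglyMeasurable fun p => κ (w, p) := hmeas.comp_measurable measurable_prodMk_left
    have hm : MemLp (fun p => κ (w, p)) 2 volume :=
      (memLp_two_iff_integrable_sq hsm.aestronglyMeasurable).2 hw2
    refine line_zero hm fun B hB => ?_
    have hbm : MemLp (fun p => ((𝓕⁻ B) p).re) 2 volume := ((𝓕⁻ B).memLp 2 volume).re
    set κw : Lp ℝ 2 (volume : Measure ℝ) := hm.toLp _ with hκw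
    have hinner : ∀ β : Lp ℝ 2 (volume : Measure ℝ),
        (inner ℝ κw β : ℝ) = ∫ p, κ (w, p) * β p := by
      intro β
      rw [L2.inner_def]
      refine integral_congr_ae ?_
      filter_upwards [hm.coeFn_toLp] with p hp
      rw [hκw, hp]
      simp [mul_comm]
    have hcl : closure t ⊆ {β | (inner ℝ κw β : ℝ) = 0} := by
      refine closure_minimal (fun β hβ => ?_) ?_
      · show (inner ℝ κw β : ℝ) = 0
        rw [hinner]
        exact hw1 β hβ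
      · exact isClosed_eq (continuous_const.inner continuous_id) continuous_const
    have hmem : hbm.toLp _ ∈ D := ⟨B, hB, hbm.coeFn_toLp⟩
    have h4 : (inner ℝ κw (hbm.toLp _) : ℝ) = 0 := hcl (hDt hmem)
    rw [hinner] at h4
    rw [← h4]
    refine integral_congr_ae ?_
    filter_upwards [hbm.coeFn_toLp] with p hp
    rw [hp]
  have h4 : ∀ᵐ z ∂mu, κ z = 0 := by
    have hms : MeasurableSet {z : S × ℝ | κ z = 0} :=
      hmeas.measurable (measurableSet_singleton 0)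
    exact (Measure.ae_prod_iff_ae_ae hms).2 h3
  exact (Lp.eq_zero_iff_ae_eq_zero).2 h4

theorem top (hI : St_FtI) (hP : St_Par) {a0 a1 : ℝ} (ha0 : a0 < 1 / 2) (ha1 : a1 < 3 / 2) (T : Submodule ℝ K)
    (hT : ∀ ψ : E → ℝ, Adm ψ → J0 a0 ψ ∈ T ∧ J1 a1 ψ ∈ T) : T.topologicalClosure = ⊤ := by
  rw [Submodule.topologicalClosure_eq_top_iff, Submodule.eq_bot_iff]
  intro κ hκ
  rw [Submodule.mem_orthogonal'] at hκ
  exact orth_zero hI hP ha0 ha1 κ fun ψ h => ⟨hκ _ (hT ψ h).1, hκ _ (hT ψ h).2⟩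

end Dns0x

open Dns0x in
/-- **Dns0** -/
theorem thm_Dns0 (hI : St_FtI) (hP : St_Par) : St_Dns0 := by
  intro s hs hs2
  constructor
  · refine top hI hP (a0 := s - 1) (a1 := 1 + s) (by linarith) (by linarith) _ fun ψ h => ⟨?_, ?_⟩
    · exact Submodule.subset_span ⟨ψ, h.1, h.2.1, h.2.2, Or.inr rfl⟩
    · have h1 : Rs s ψ ∈ Submodule.span ℝ {w : K | ∃ ψ : E → ℝ, IsSch ψ ∧ HasCompactSupport (ft ψ) ∧
          (∀ᶠ ξ in 𝓝 (0 : E), ft ψ ξ = 0) ∧ (w = Rs s ψ ∨ w = dRs s ψ)} :=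
        Submodule.subset_span ⟨ψ, h.1, h.2.1, h.2.2, Or.inl rfl⟩
      have h2 := Submodule.neg_mem _ h1
      unfold Rs at h2
      rwa [neg_neg] at h2
  · refine top hI hP (a0 := s) (a1 := s) (by linarith) (by linarith) _ fun ψ h => ⟨?_, ?_⟩
    · exact Submodule.subset_span ⟨ψ, h.1, h.2.1, h.2.2, Or.inl rfl⟩
    · exact Submodule.subset_span ⟨ψ, h.1, h.2.1, h.2.2, Or.inr rfl⟩

end Pool.Agent.QWF
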