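import Pool.Agent.QWF.StB

set_option autoImplicit false

/-!
# QWF, EnU: uniqueness in the energy space (the test states at `s = -1/2` are total)
-/

open MeasureTheory Filter Topology Set
open scoped ENNReal NNReal RealInnerProductSpace

namespace Pool.Agent.QWF

theorem thm_EnU (hD : St_DnsP) : St_EnU := by
  intro e h
  have hT := (hD (-1 / 2) le_rfl (by norm_num)).1
  have h1 : e ∈ (TS (-1 / 2) univ)ᗮ := by
    rw [TS, Submodule.orthogonal_closure, Submodule.mem_orthogonal]
    intro u hu
    induction hu using Submodule.span_induction with
    | mem x hx =>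
      obtain ⟨φ, hφ, -, rfl | rfl⟩ := hx
      · rw [real_inner_comm]; exact (h φ hφ).1
      · rw [real_inner_comm]; exact (h φ hφ).2
    | zero => exact inner_zero_left _
    | add x y _ _ hx hy => rw [inner_add_left, hx, hy, add_zero]
    | smul c x _ hx => rw [inner_smul_left, hx, mul_zero]
  rw [hT, Submodule.top_orthogonal_eq_bot, Submodule.mem_bot] at h1
  exact h1

end Pool.Agent.QWF
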