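import Pool.Agent.QWF.StF
import Pool.Agent.QWF.StB

/-!
# QWF, FinalOf: the final theorem from the space-time bound (port of QWP/FinalOf.lean)
-/

set_option autoImplicit false

open MeasureTheory Filter Topology Set
open scoped ENNReal NNReal RealInnerProductSpace Pointwise

namespace Pool.Agent.QWF

namespace FinalOfx

private lemma sig_abs {b : ℝ} (hb : 4 < b) : |sig b| < 1 / 2 := by
  unfold sig
  have h0 : 0 < b := by linarith
  have h1 : 0 < 2 / b := by positivity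
  have h2 : 2 / b < 1 / 2 := by
    rw [div_lt_iff₀ h0]
    linarith
  rw [abs_lt]
  constructor <;> linarith

private lemma U_sub (hF : St_FldP) {s : ℝ} (hs : |s| < 1 / 2) (k k' : K) :
    (U s (k - k') =ᵐ[volume] fun x => U s k x - U s k' x) ∧
      (V s (k - k') =ᵐ[volume] fun x => V s k x - V s k' x) := by
  obtain ⟨C, -, -, hlin, -⟩ := hF s hs
  have h := hlin (-1) k k'
  rw [neg_one_smul, ← sub_eq_add_neg] at h
  refine ⟨h.1.trans (Eventually.of_forall fun x => ?_), h.2.1.trans (Eventually.of_forall fun x => ?_)⟩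
  · change U s k x + -1 * U s k' x = U s k x - U s k' x
    ring
  · change V s k x + -1 * V s k' x = V s k x - V s k' x
    ring

private lemma norm_bd {c : ℝ} (hc : 0 < c) {A : ℝ≥0} {k : K} {r : ℝ≥0∞}
    (h1 : ENNReal.ofReal c * ‖k‖ₑ ≤ r) (h2 : r ≤ A) : ‖k‖ ≤ (A : ℝ) / c := by
  have h3 := ENNReal.toReal_mono ENNReal.coe_ne_top (h1.trans h2)
  rw [ENNReal.toReal_mul, ENNReal.toReal_ofReal hc.le, toReal_enorm, ENNReal.coe_toReal] at h3
  rw [le_div_iff₀ hc]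
  linarith

private lemma SN_eq {b : ℝ} {I : Set ℝ} (hI : I.OrdConnected) {u : ℝ → E → ℝ} {k : ℝ → K}
    (h : ∀ t ∈ I, U (sig b) (k t) =ᵐ[volume] u t) :
    ∫⁻ t in I, eLpNorm (u t) (ENNReal.ofReal (4 * b)) volume ^ b = SN b I k := by
  unfold SN sn
  refine setLIntegral_congr_fun hI.measurableSet fun t ht => ?_
  change eLpNorm (u t) (ENNReal.ofReal (4 * b)) volume ^ b =
    eLpNorm (U (sig b) (k t)) (ENNReal.ofReal (4 * b)) volume ^ b
  rw [eLpNorm_congr_ae (h t ht)]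

private lemma scat (hGrp : St_Grp1) (hF : St_FldP) {b C : ℝ} (hb : 4 < b)
    (hC : ∀ (f g : E → ℝ) (k : K), (U (sig b) k =ᵐ[volume] f) → (V (sig b) k =ᵐ[volume] g) →
      HN b f g ≤ ENNReal.ofReal C * ‖k‖ₑ) {u v : ℝ → E → ℝ} {k : ℝ → K}
    (hk : ∀ t, (U (sig b) (k t) =ᵐ[volume] u t) ∧ (V (sig b) (k t) =ᵐ[volume] v t))
    (l : Filter ℝ) (kp : K)
    (h : Tendsto (fun t => tau (-t) (k t)) l (𝓝 kp)) :
    Tendsto (fun t => HN b (fun x => u t x - U (sig b) (tau t kp) x)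
      (fun x => v t x - V (sig b) (tau t kp) x)) l (𝓝 0) := by
  have h1 : ∀ t, ‖k t - tau t kp‖ = ‖tau (-t) (k t) - kp‖ := by
    intro t
    have h2 : tau (-t) (k t) - kp = tau (-t) (k t - tau t kp) := by
      rw [map_sub, hGrp.1, neg_add_cancel, hGrp.2.1]
    rw [h2, LinearIsometry.norm_map]
  have h3 : Tendsto (fun t => ‖k t - tau t kp‖) l (𝓝 0) := by
    simp only [h1]
    exact tendsto_iff_norm_sub_tendsto_zero.1 h
  have h4 : Tendsto (fun t => ENNReal.ofReal C * ‖k t - tau t kp‖ₑ) l (𝓝 0) := by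
    have h5 : Tendsto (fun t => ‖k t - tau t kp‖ₑ) l (𝓝 0) := by
      have h6 := ENNReal.tendsto_ofReal h3
      rw [ENNReal.ofReal_zero] at h6
      simpa only [ofReal_norm] using h6
    have h7 := ENNReal.Tendsto.const_mul (a := ENNReal.ofReal C) h5 (Or.inr ENNReal.ofReal_ne_top)
    rwa [mul_zero] at h7
  refine tendsto_of_tendsto_of_tendsto_of_le_of_le tendsto_const_nhds h4 (fun t => zero_le)
    fun t => ?_
  have h8 := U_sub hF (sig_abs hb) (k t) (tau t kp)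
  refine hC _ _ (k t - tau t kp) (h8.1.trans ?_) (h8.2.trans ?_)
  · filter_upwards [(hk t).1] with x hx
    rw [hx]
  · filter_upwards [(hk t).2] with x hx
    rw [hx]

end FinalOfx

open FinalOfx in
/-- **Final** from `LA` -/
theorem thm_FinalOf (hGrp : St_Grp1) (hF : St_FldP) (hMax : St_MaxE)
    (hBlow : St_Blow) (hBr1 : St_Br1) (hBr2 : St_Br2) (hBr3 : St_Br3) : St_FinalOf := by
  intro hLA b hb
  obtain ⟨c, C, hc, hC, -, hHN, -⟩ := hBr1 b hb
  refine ⟨?_, ?_⟩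
  · rintro I u v ⟨hsol, ⟨t0, ht0⟩, hmaxi⟩ ⟨A, hA⟩
    obtain ⟨k, hk, hkf⟩ := hBr2 b hb I u v hsol
    obtain ⟨L, hL⟩ := hLA b hb ((A : ℝ) / c)
    have hbd : ∀ t ∈ I, ‖k t‖ ≤ (A : ℝ) / c := fun t ht =>
      norm_bd hc (hHN _ _ (k t) (hkf t ht).1 (hkf t ht).2).2 (hA t ht)
    have hSN := hL I k hk hbd
    obtain ⟨J, k', hJ, htJ, hk0, hmax⟩ := hMax b hb (k t0) t0
    obtain ⟨hIJ, hkk⟩ := hmax I k hk ht0 rfl
    have hJI : J ⊆ I := hmaxi J _ _ ((hBr3 b hb).1 J k' hJ.1) hIJ fun t ht => by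
      change (U (sig b) (k' t) =ᵐ[volume] u t) ∧ (V (sig b) (k' t) =ᵐ[volume] v t)
      rw [← hkk t ht]
      exact hkf t ht
    obtain rfl : I = J := Subset.antisymm hIJ hJI
    have hSN' : SN b I k' < ⊤ := by
      have h1 : SN b I k' = SN b I k := by
        unfold SN
        refine setLIntegral_congr_fun hsol.1.measurableSet fun t ht => ?_
        rw [hkk t ht]
      rw [h1]
      exact hSN.trans_lt ENNReal.ofReal_lt_top
    have hS1 : SN b (I ∩ Ici t0) k' < ⊤ :=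
      (lintegral_mono_set inter_subset_left).trans_lt hSN'
    have hS2 : SN b (I ∩ Iic t0) k' < ⊤ :=
      (lintegral_mono_set inter_subset_left).trans_lt hSN'
    obtain ⟨hI1, -, kp, hkp⟩ := (hBlow b hb I k' t0 hJ ht0).1 hS1
    obtain ⟨hI2, -, km, hkm⟩ := (hBlow b hb I k' t0 hJ ht0).2 hS2
    have hU : I = univ := by
      refine eq_univ_of_forall fun t => ?_
      rcases le_total t0 t with h | h
      · exact hI1 h
      · exact hI2 h
    subst hU
    have hf : ∀ t, (U (sig b) (k' t) =ᵐ[volume] u t) ∧ (V (sig b) (k' t) =ᵐ[volume] v t) :=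
      fun t => by
        rw [← hkk t (mem_univ t)]
        exact hkf t (mem_univ t)
    have hC1 : ∀ (f g : E → ℝ) (k : K), (U (sig b) k =ᵐ[volume] f) →
        (V (sig b) k =ᵐ[volume] g) → HN b f g ≤ ENNReal.ofReal C * ‖k‖ₑ :=
      fun f g k h1 h2 => (hHN f g k h1 h2).1
    exact ⟨rfl, ⟨_, _, (hBr3 b hb).2 kp, scat hGrp hF hb hC1 hf atTop kp hkp⟩,
      ⟨_, _, (hBr3 b hb).2 km, scat hGrp hF hb hC1 hf atBot km hkm⟩⟩
  · intro A
    obtain ⟨L, hL⟩ := hLA b hb ((A : ℝ) / c)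
    refine ⟨L.toNNReal, fun I u v hsol hA => ?_⟩
    obtain ⟨k, hk, hkf⟩ := hBr2 b hb I u v hsol
    rw [SN_eq hsol.1 fun t ht => (hkf t ht).1]
    exact hL I k hk fun t ht =>
      norm_bd hc (hHN _ _ (k t) (hkf t ht).1 (hkf t ht).2).2 (hA t ht)

end Pool.Agent.QWF
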