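import Pool.Agent.QWF.StB

set_option autoImplicit false

/-!
# QWF, Glue: gluing of solutions (port of QWP/Glue by helper81)
-/

open MeasureTheory Filter Topology Set
open scoped ENNReal NNReal RealInnerProductSpace

namespace Pool.Agent.QWF


namespace Gluex

/-! ### the group -/

private lemma joint (hG : St_Grp1) : Continuous fun p : ℝ × K => tau p.1 p.2 := by
  rw [continuous_iff_continuousAt]
  rintro ⟨s0, k0⟩
  rw [ContinuousAt, tendsto_iff_norm_sub_tendsto_zero]
  have h1 : Tendsto (fun p : ℝ × K => ‖p.2 - k0‖ + ‖tau p.1 k0 - tau s0 k0‖) (𝓝 (s0, k0)) (𝓝 0) := by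
    have a1 : Continuous fun p : ℝ × K => ‖p.2 - k0‖ + ‖tau p.1 k0 - tau s0 k0‖ := by
      refine (continuous_snd.sub continuous_const).norm.add ?_
      exact ((hG.2.2.2.2.2.2.2.1 k0).comp continuous_fst |>.sub continuous_const).norm
    have a2 := a1.tendsto (s0, k0)
    simpa using a2
  refine squeeze_zero (fun _ => norm_nonneg _) (fun p => ?_) h1
  have e : tau p.1 p.2 - tau s0 k0 = tau p.1 (p.2 - k0) + (tau p.1 k0 - tau s0 k0) := by
    rw [map_sub]
    abel
  rw [e]
  refine (norm_add_le _ _).trans_eq ?_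
  rw [LinearIsometry.norm_map]

private lemma ii_tau (hG : St_Grp1) {G : ℝ → K} {x y : ℝ}
    (h : IntervalIntegrable G volume x y) (t : ℝ) :
    IntervalIntegrable (fun r => tau (t - r) (G r)) volume x y := by
  rw [intervalIntegrable_iff] at h ⊢
  refine Integrable.mono h ?_ (Eventually.of_forall fun r => by rw [LinearIsometry.norm_map])
  have h1 : AEStronglyMeasurable (fun r : ℝ => ((t - r, G r) : ℝ × K)) (volume.restrict (uIoc x y)) :=
    ((continuous_const.sub continuous_id).aestronglyMeasurable).prodMk h.1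
  have h2 := Continuous.comp_aestronglyMeasurable (g := fun p : ℝ × K => tau p.1 p.2) (joint hG) h1
  exact h2

/-- the Duhamel formula from `x` to `t` -/
private def D (b : ℝ) (k : ℝ → K) (x t : ℝ) : Prop :=
  k t = tau (t - x) (k x) - ∫ r in x..t, tau (t - r) (NL b (k r))

private lemma chain (hG : St_Grp1) {b : ℝ} {k : ℝ → K} {x m t : ℝ}
    (h1 : D b k x m) (h2 : D b k m t) (i1 : IntervalIntegrable (fun r => NL b (k r)) volume x m)
    (i2 : IntervalIntegrable (fun r => NL b (k r)) volume m t) : D b k x t := by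
  unfold D at *
  have e1 : tau (t - m) (∫ r in x..m, tau (m - r) (NL b (k r))) =
      ∫ r in x..m, tau (t - r) (NL b (k r)) := by
    have h := (tau (t - m)).toContinuousLinearMap.intervalIntegral_comp_comm (ii_tau hG i1 m)
    change _ = (tau (t - m)).toContinuousLinearMap (∫ r in x..m, tau (m - r) (NL b (k r))) at h
    have h' : (tau (t - m)).toContinuousLinearMap (∫ r in x..m, tau (m - r) (NL b (k r))) =
        tau (t - m) (∫ r in x..m, tau (m - r) (NL b (k r))) := rfl
    rw [← h', ← h]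
    refine intervalIntegral.integral_congr fun r _ => ?_
    change tau (t - m) (tau (m - r) (NL b (k r))) = tau (t - r) (NL b (k r))
    rw [hG.1]
    congr 2
    ring
  have e2 : tau (t - m) (tau (m - x) (k x)) = tau (t - x) (k x) := by
    rw [hG.1]
    congr 2
    ring
  rw [h2, h1, map_sub, e1, e2, sub_sub,
    intervalIntegral.integral_add_adjacent_intervals (ii_tau hG i1 t) (ii_tau hG i2 t)]

/-! ### integrability of the nonlinearity -/

private lemma intNL (hN : St_NLb) (hM : St_Meas) {b : ℝ} (hb : 4 < b) {I : Set ℝ} {k : ℝ → K}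
    (hk : IsSol b I k) {x y : ℝ} (hx : x ∈ I) (hy : y ∈ I) :
    IntegrableOn (fun r => NL b (k r)) (Icc x y) volume := by
  obtain ⟨h1, h2, h3, -⟩ := hk
  obtain ⟨⟨C, hC, hNb, -⟩, -⟩ := hN b hb
  have hsub : Icc x y ⊆ I := h1.out hx hy
  have hkc : ContinuousOn k (Icc x y) := h2.mono hsub
  have hkm : AEStronglyMeasurable k (volume.restrict (Icc x y)) :=
    hkc.aestronglyMeasurable measurableSet_Icc
  obtain ⟨m1, -, m2⟩ := hM b hb k (Icc x y) measurableSet_Icc hkm
  have hfin : ∀ᵐ r ∂(volume.restrict (Icc x y)), sn b (k r) < ⊤ := by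
    have := ae_lt_top' (m1.pow_const b) (h3 x hx y hy).ne
    filter_upwards [this] with r hr
    rw [lt_top_iff_ne_top] at hr ⊢
    intro h
    rw [h, ENNReal.top_rpow_of_pos (by linarith)] at hr
    exact hr rfl
  obtain ⟨B, hB⟩ := isCompact_Icc.exists_bound_of_continuousOn hkc
  refine ⟨m2 hfin, ?_⟩
  rw [HasFiniteIntegral]
  have e1 : ∫⁻ r in Icc x y, ‖NL b (k r)‖ₑ ≤
      ∫⁻ r in Icc x y, (ENNReal.ofReal C * ENNReal.ofReal B) * sn b (k r) ^ b := by
    refine setLIntegral_mono' measurableSet_Icc fun r hr => ?_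
    refine (hNb (k r)).trans ?_
    have h4 : ‖k r‖ₑ ≤ ENNReal.ofReal B := by
      rw [← ofReal_norm]
      exact ENNReal.ofReal_le_ofReal (hB r hr)
    calc ENNReal.ofReal C * sn b (k r) ^ b * ‖k r‖ₑ ≤
        ENNReal.ofReal C * sn b (k r) ^ b * ENNReal.ofReal B := by gcongr
      _ = (ENNReal.ofReal C * ENNReal.ofReal B) * sn b (k r) ^ b := by ring
  refine e1.trans_lt ?_
  rw [lintegral_const_mul' _ _ (ENNReal.mul_ne_top ENNReal.ofReal_ne_top ENNReal.ofReal_ne_top)]
  exact ENNReal.mul_lt_top (ENNReal.mul_lt_top ENNReal.ofReal_lt_top ENNReal.ofReal_lt_top)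
    (h3 x hx y hy)

private lemma iiNL (hN : St_NLb) (hM : St_Meas) {b : ℝ} (hb : 4 < b) {I : Set ℝ} {k : ℝ → K}
    (hk : IsSol b I k) {x y : ℝ} (hx : x ∈ I) (hy : y ∈ I) :
    IntervalIntegrable (fun r => NL b (k r)) volume x y := by
  rw [intervalIntegrable_iff]
  have h1 : min x y ∈ I := by rcases min_choice x y with h | h <;> rw [h] <;> assumption
  have h2 : max x y ∈ I := by rcases max_choice x y with h | h <;> rw [h] <;> assumption
  exact (intNL hN hM hb hk h1 h2).mono_set Ioc_subset_Icc_self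

/-! ### intervals with a common point -/

private lemma comp_up {I J : Set ℝ} (hI : I.OrdConnected) (hJ : J.OrdConnected) {t0 : ℝ}
    (h1 : t0 ∈ I) (h2 : t0 ∈ J) : (I ∪ J) ∩ Ici t0 ⊆ I ∨ (I ∪ J) ∩ Ici t0 ⊆ J := by
  by_cases h : J ∩ Ici t0 ⊆ I
  · left
    rintro r ⟨h3 | h3, h4⟩
    · exact h3
    · exact h ⟨h3, h4⟩
  · right
    obtain ⟨j, ⟨hj1, hj2⟩, hj3⟩ := not_subset.1 h
    rintro r ⟨h3 | h3, h4⟩
    · have h5 : r < j := by
        by_contra h6
        exact hj3 (hI.out h1 h3 ⟨hj2, not_lt.1 h6⟩)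
      exact hJ.out h2 hj1 ⟨h4, h5.le⟩
    · exact h3

private lemma comp_dn {I J : Set ℝ} (hI : I.OrdConnected) (hJ : J.OrdConnected) {t0 : ℝ}
    (h1 : t0 ∈ I) (h2 : t0 ∈ J) : (I ∪ J) ∩ Iic t0 ⊆ I ∨ (I ∪ J) ∩ Iic t0 ⊆ J := by
  by_cases h : J ∩ Iic t0 ⊆ I
  · left
    rintro r ⟨h3 | h3, h4⟩
    · exact h3
    · exact h ⟨h3, h4⟩
  · right
    obtain ⟨j, ⟨hj1, hj2⟩, hj3⟩ := not_subset.1 h
    rintro r ⟨h3 | h3, h4⟩
    · have h5 : j < r := by
        by_contra h6
        exact hj3 (hI.out h3 h1 ⟨not_lt.1 h6, hj2⟩)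
      exact hJ.out hj1 h2 ⟨h5.le, h4⟩
    · exact h3

private lemma ord_union {I J : Set ℝ} (hI : I.OrdConnected) (hJ : J.OrdConnected) {t0 : ℝ}
    (h1 : t0 ∈ I) (h2 : t0 ∈ J) : (I ∪ J).OrdConnected := by
  rw [← isPreconnected_iff_ordConnected] at *
  exact IsPreconnected.union t0 h1 h2 hI hJ

end Gluex

open Gluex in
theorem thm_Glue (hG : St_Grp1) (hN : St_NLb) (hM : St_Meas) (hU : St_Uniq) :
    St_Glue := by
  intro b hb I J k k' t0 hk hk' hI hJ h0
  classical
  have hag := hU b hb I J k k' t0 hk hk' hI hJ h0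
  let κ : ℝ → K := fun t => if t ∈ I then k t else k' t
  have e1 : ∀ t ∈ I, κ t = k t := fun t ht => if_pos ht
  have e2 : ∀ t ∈ J, κ t = k' t := by
    intro t ht
    by_cases h : t ∈ I
    · rw [e1 t h]
      exact hag t h ht
    · exact if_neg h
  -- pieces
  have piece : ∀ (A : Set ℝ) (f : ℝ → K), IsSol b A f → (∀ t ∈ A, κ t = f t) → ∀ x ∈ A, ∀ y ∈ A,
      D b κ x y ∧ IntervalIntegrable (fun r => NL b (κ r)) volume x y ∧
        SN b (Icc x y) κ < ⊤ := by
    intro A f hf hA x hx y hy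
    have hsub : ∀ r ∈ uIcc x y, κ r = f r := fun r hr => hA r (hf.1.uIcc_subset hx hy hr)
    refine ⟨?_, ?_, ?_⟩
    · have h1 := hf.2.2.2 x hx y hy
      unfold D
      rw [hA y hy, hA x hx, h1]
      congr 1
      refine intervalIntegral.integral_congr fun r hr => ?_
      simp only [hsub r hr]
    · refine (iiNL hN hM hb hf hx hy).congr fun r hr => ?_
      simp only [hsub r (uIoc_subset_uIcc hr)]
    · have h1 := hf.2.2.1 x hx y hy
      refine lt_of_eq_of_lt ?_ h1
      unfold SN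
      refine setLIntegral_congr_fun measurableSet_Icc fun r hr => ?_
      simp only [hsub r (Icc_subset_uIcc hr)]
  have toT : ∀ x ∈ I ∪ J, (D b κ x t0 ∧ IntervalIntegrable (fun r => NL b (κ r)) volume x t0 ∧
      SN b (Icc x t0) κ < ⊤) ∧ (D b κ t0 x ∧
      IntervalIntegrable (fun r => NL b (κ r)) volume t0 x ∧ SN b (Icc t0 x) κ < ⊤) := by
    rintro x (hx | hx)
    · exact ⟨piece I k hk e1 x hx t0 hI, piece I k hk e1 t0 hI x hx⟩
    · exact ⟨piece J k' hk' e2 x hx t0 hJ, piece J k' hk' e2 t0 hJ x hx⟩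
  have cI : ContinuousOn κ I := hk.2.1.congr e1
  have cJ : ContinuousOn κ J := hk'.2.1.congr e2
  have cu : ContinuousOn κ ((I ∪ J) ∩ Ici t0) := by
    rcases comp_up hk.1 hk'.1 hI hJ with h | h
    · exact cI.mono h
    · exact cJ.mono h
  have cd : ContinuousOn κ ((I ∪ J) ∩ Iic t0) := by
    rcases comp_dn hk.1 hk'.1 hI hJ with h | h
    · exact cI.mono h
    · exact cJ.mono h
  refine ⟨κ, ⟨ord_union hk.1 hk'.1 hI hJ, ?_, ?_, ?_⟩, e1, e2⟩
  · intro t ht
    have hun : I ∪ J = ((I ∪ J) ∩ Ici t0) ∪ ((I ∪ J) ∩ Iic t0) := by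
      rw [← inter_union_distrib_left, union_comm (Ici t0), Iic_union_Ici, inter_univ]
    rw [hun]
    refine ContinuousWithinAt.union ?_ ?_
    · by_cases h : t0 ≤ t
      · exact cu t ⟨ht, h⟩
      · refine continuousWithinAt_of_notMem_closure fun h2 => h ?_
        have h3 : closure ((I ∪ J) ∩ Ici t0) ⊆ Ici t0 := isClosed_Ici.closure_subset_iff.2 inter_subset_right
        exact h3 h2
    · by_cases h : t ≤ t0
      · exact cd t ⟨ht, h⟩
      · refine continuousWithinAt_of_notMem_closure fun h2 => h ?_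
        have h3 : closure ((I ∪ J) ∩ Iic t0) ⊆ Iic t0 := isClosed_Iic.closure_subset_iff.2 inter_subset_right
        exact h3 h2
  · intro x hx y hy
    have hsub : Icc x y ⊆ Icc x t0 ∪ Icc t0 y := by
      intro r hr
      rcases le_total r t0 with h | h
      · exact Or.inl ⟨hr.1, h⟩
      · exact Or.inr ⟨h, hr.2⟩
    refine (lintegral_mono_set hsub).trans_lt ((lintegral_union_le _ _ _).trans_lt ?_)
    exact ENNReal.add_lt_top.2 ⟨(toT x hx).1.2.2, (toT y hy).2.2.2⟩
  · intro x hx y hy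
    exact chain hG (toT x hx).1.1 (toT y hy).2.1 (toT x hx).1.2.1 (toT y hy).2.2.1

end Pool.Agent.QWF
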