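import Pool.Agent.QWF.StA

set_option autoImplicit false

/-!
# QWF, JD: derivatives in `p` of the Fourier integrals `J0F`, `J1F`, comparison of exponents
-/

open MeasureTheory Filter Topology Set
open scoped ENNReal NNReal RealInnerProductSpace

namespace Pool.Agent.QWF

namespace JDx

lemma int_aux {c N : ℝ} (h1 : -1 < c) (h0 : 0 ≤ N) (h2 : c - N < -1) :
    Integrable (fun r : ℝ => |r| ^ c * (1 + |r|) ^ (-N)) := by
  have h := (integrable_fun_norm_addHaar (volume : Measure ℝ)
    (f := fun y : ℝ => y ^ c * (1 + y) ^ (-N))).2 ?_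
  · simpa [Real.norm_eq_abs] using h
  · simp only [Module.finrank_self, Nat.sub_self, pow_zero, one_smul]
    rw [← Ioc_union_Ioi_eq_Ioi zero_le_one, integrableOn_union]
    constructor
    · have h3 : IntegrableOn (fun y : ℝ => y ^ c) (Ioc 0 1) :=
        (intervalIntegrable_iff_integrableOn_Ioc_of_le zero_le_one).1
          (intervalIntegral.intervalIntegrable_rpow' h1)
      refine h3.mono' (by fun_prop) ?_
      refine (ae_restrict_iff' measurableSet_Ioc).2 (Eventually.of_forall fun y hy => ?_)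
      have h4 : (1 + y) ^ (-N) ≤ 1 :=
        Real.rpow_le_one_of_one_le_of_nonpos (by linarith [hy.1]) (by linarith)
      have h5 : 0 ≤ y ^ c := Real.rpow_nonneg hy.1.le _
      have h6 : 0 ≤ (1 + y) ^ (-N) := Real.rpow_nonneg (by linarith [hy.1]) _
      rw [Real.norm_eq_abs, abs_of_nonneg (mul_nonneg h5 h6)]
      nlinarith
    · have h3 : IntegrableOn (fun y : ℝ => y ^ (c - N)) (Ioi 1) :=
        integrableOn_Ioi_rpow_of_lt (by linarith) zero_lt_one
      refine h3.mono' (by fun_prop) ?_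
      refine (ae_restrict_iff' measurableSet_Ioi).2 (Eventually.of_forall fun y hy => ?_)
      have hy0 : (0 : ℝ) < y := lt_trans zero_lt_one hy
      have h4 : (1 + y) ^ (-N) ≤ y ^ (-N) :=
        Real.rpow_le_rpow_of_nonpos hy0 (by linarith) (by linarith)
      have h5 : 0 ≤ y ^ c := Real.rpow_nonneg hy0.le _
      have h6 : 0 ≤ (1 + y) ^ (-N) := Real.rpow_nonneg (by linarith) _
      rw [Real.norm_eq_abs, abs_of_nonneg (mul_nonneg h5 h6)]
      calc y ^ c * (1 + y) ^ (-N) ≤ y ^ c * y ^ (-N) := by gcongr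
        _ = y ^ (c - N) := by rw [← Real.rpow_add hy0]; ring_nf

lemma norm_pt (w : S) (r : ℝ) : ‖r • (w : E)‖ = |r| := by
  rw [norm_smul, norm_eq_of_mem_sphere w, mul_one, Real.norm_eq_abs]

/-- Continuous and rapidly decreasing. -/
def Rap (f : E → ℂ) : Prop :=
  Continuous f ∧ ∀ N : ℕ, ∃ C : ℝ, ∀ ξ, ‖f ξ‖ ≤ C / (1 + ‖ξ‖) ^ N

lemma rap_ft (hFt : St_Ft) {φ : E → ℝ} (hφ : IsSch φ) : Rap (ft φ) :=
  ⟨(hFt.2 φ hφ).1, (hFt.2 φ hφ).2.1⟩

lemma amp_int {f : E → ℂ} (hf : Rap f) (w : S) {c : ℝ} (h : -1 < c) :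
    Integrable (fun r : ℝ => ((|2 * Real.pi * r| ^ c : ℝ) : ℂ) * f (r • (w : E))) := by
  obtain ⟨N, hN⟩ := exists_nat_gt (c + 1)
  obtain ⟨C, hC⟩ := hf.2 N
  refine ((int_aux (N := (N : ℝ)) h (by positivity) (by linarith)).const_mul
    ((2 * Real.pi) ^ c * C)).mono' ?_ (Eventually.of_forall fun r => ?_)
  · refine AEStronglyMeasurable.mul (Measurable.aestronglyMeasurable (by fun_prop)) ?_
    exact (hf.1.comp (by fun_prop)).aestronglyMeasurable
  · have h1 := hC (r • (w : E))
    rw [norm_pt] at h1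
    have h2 : 0 ≤ |r| ^ c := Real.rpow_nonneg (abs_nonneg _) _
    rw [norm_mul, Complex.norm_real, Real.norm_eq_abs, abs_mul, abs_of_pos Real.two_pi_pos,
      Real.mul_rpow Real.two_pi_pos.le (abs_nonneg _), Real.rpow_neg (by positivity),
      Real.rpow_natCast, abs_of_nonneg (by positivity)]
    calc (2 * Real.pi) ^ c * |r| ^ c * ‖f (r • (w : E))‖
        ≤ (2 * Real.pi) ^ c * |r| ^ c * (C / (1 + |r|) ^ N) := by gcongr
      _ = _ := by rw [div_eq_mul_inv]; ring

lemma norm_I (r : ℝ) : ‖2 * (Real.pi : ℂ) * Complex.I * (r : ℂ)‖ = |2 * Real.pi * r| := by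
  simp [abs_mul, abs_of_pos Real.pi_pos]

lemma rpow_one_mul (x c : ℝ) : |x| ^ (-c) * |x| ≤ |x| ^ (1 - c) := by
  rcases eq_or_ne x 0 with rfl | hx
  · rw [abs_zero, mul_zero]
    exact Real.rpow_nonneg le_rfl _
  · have h1 : |x| ^ (1 - c) = |x| ^ (-c) * |x| := by
      rw [← Real.rpow_add_one (abs_pos.2 hx).ne']
      ring_nf
    rw [h1]

lemma amp_int1 {f : E → ℂ} (hf : Rap f) (w : S) {c : ℝ} (h : c < 2) :
    Integrable (fun r : ℝ => ((|2 * Real.pi * r| ^ (-c) : ℝ) : ℂ) *
      (2 * Real.pi * Complex.I * (r : ℂ)) * f (r • (w : E))) := by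
  refine (amp_int hf w (c := 1 - c) (by linarith)).norm.mono' ?_ (Eventually.of_forall fun r => ?_)
  · refine AEStronglyMeasurable.mul (Measurable.aestronglyMeasurable (by fun_prop)) ?_
    exact (hf.1.comp (by fun_prop)).aestronglyMeasurable
  · rw [norm_mul, norm_mul, norm_I, norm_mul, Complex.norm_real, Complex.norm_real,
      Real.norm_of_nonneg (Real.rpow_nonneg (abs_nonneg _) _),
      Real.norm_of_nonneg (Real.rpow_nonneg (abs_nonneg _) _)]
    exact mul_le_mul_of_nonneg_right (rpow_one_mul _ _) (norm_nonneg _)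

lemma norm_char (x : ℝ) : ‖Complex.exp (2 * Real.pi * Complex.I * (x : ℂ))‖ = 1 := by
  have : 2 * Real.pi * Complex.I * (x : ℂ) = ((2 * Real.pi * x : ℝ) : ℂ) * Complex.I := by
    push_cast; ring
  rw [this, Complex.norm_exp_ofReal_mul_I]

/-- Differentiation under the Fourier integral. -/
lemma der {G : ℝ → ℂ} (h1 : Integrable G)
    (h2 : Integrable (fun r => G r * (2 * Real.pi * Complex.I * (r : ℂ)))) (p : ℝ) :
    HasDerivAt (fun p : ℝ => (∫ r, G r * Complex.exp (2 * Real.pi * Complex.I * ((r * p : ℝ) : ℂ))).re)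
      (∫ r, G r * (2 * Real.pi * Complex.I * (r : ℂ)) *
        Complex.exp (2 * Real.pi * Complex.I * ((r * p : ℝ) : ℂ))).re p := by
  have hm : ∀ q : ℝ, AEStronglyMeasurable (fun r : ℝ =>
      Complex.exp (2 * Real.pi * Complex.I * ((r * q : ℝ) : ℂ))) volume := by
    intro q
    exact Continuous.aestronglyMeasurable (by fun_prop)
  have h3 := hasDerivAt_integral_of_dominated_loc_of_deriv_le (μ := (volume : Measure ℝ))
    (F := fun (q : ℝ) (r : ℝ) => G r * Complex.exp (2 * Real.pi * Complex.I * ((r * q : ℝ) : ℂ)))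
    (F' := fun (q : ℝ) (r : ℝ) => G r * (2 * Real.pi * Complex.I * (r : ℂ)) *
      Complex.exp (2 * Real.pi * Complex.I * ((r * q : ℝ) : ℂ)))
    (x₀ := p) (s := univ) (bound := fun r => ‖G r * (2 * Real.pi * Complex.I * (r : ℂ))‖)
    univ_mem (Eventually.of_forall fun q => h1.aestronglyMeasurable.mul (hm q)) ?_
    (h2.aestronglyMeasurable.mul (hm p)) ?_ h2.norm ?_
  · exact Complex.reCLM.hasFDerivAt.comp_hasDerivAt p h3.2
  · refine h1.mono (h1.aestronglyMeasurable.mul (hm p)) (Eventually.of_forall fun r => ?_)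
    rw [norm_mul, norm_char, mul_one]
  · refine Eventually.of_forall fun r q _ => ?_
    rw [norm_mul, norm_char, mul_one]
  · refine Eventually.of_forall fun r q _ => ?_
    have e1 : HasDerivAt (fun q : ℝ => 2 * Real.pi * Complex.I * ((r * q : ℝ) : ℂ))
        (2 * Real.pi * Complex.I * (r : ℂ)) q := by
      have e2 : HasDerivAt (fun q : ℝ => ((r * q : ℝ) : ℂ)) ((r * 1 : ℝ) : ℂ) q :=
        ((hasDerivAt_id q).const_mul r).ofReal_comp
      rw [mul_one] at e2
      exact e2.const_mul _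
    have e3 := (e1.cexp).const_mul (G r)
    exact e3.congr_deriv (by ring)

lemma ae_ne : ∀ᵐ r : ℝ, r ≠ 0 := by
  rw [ae_iff]
  simp

lemma rpow_two_mul {x : ℝ} (hx : x ≠ 0) (c : ℝ) : |x| ^ (-(c - 2)) = |x| ^ (-c) * x ^ 2 := by
  have h1 : -(c - 2) = -c + 2 := by ring
  rw [h1, Real.rpow_add (abs_pos.2 hx), Real.rpow_two, sq_abs]

lemma toK_neg {f g : S × ℝ → ℝ} (h : ∀ z, f z = - g z) : toK f = - toK g := by
  have h0 : f = -g := funext h
  subst h0
  by_cases hg : MemLp g 2 mu
  · apply Lp.ext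
    filter_upwards [toK_coe hg.neg, toK_coe hg, Lp.coeFn_neg (toK g)] with z h1 h2 h3
    rw [h1, h3, Pi.neg_apply, Pi.neg_apply, h2]
  · have hn : ¬ MemLp (-g) 2 mu := fun h => hg (by simpa using h.neg)
    simp only [toK, dif_neg hg, dif_neg hn, neg_zero]

end JDx

open JDx in
theorem thm_JD (hFt : St_Ft) : St_JD := by
  intro a φ hφ
  have hr := rap_ft hFt hφ
  have hlap : ∀ ξ : E, ft (lap φ) ξ = -(((2 * Real.pi * ‖ξ‖) ^ 2 : ℝ) : ℂ) * ft φ ξ :=
    (hFt.2 φ hφ).2.2.2.2.1
  have hlap' : ∀ (w : S) (r : ℝ), ft (lap φ) (r • (w : E)) =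
      -(((2 * Real.pi * r) ^ 2 : ℝ) : ℂ) * ft φ (r • (w : E)) := by
    intro w r
    rw [hlap, norm_pt, mul_pow, mul_pow, sq_abs, ← mul_pow, ← mul_pow, mul_pow _ r, ← mul_pow]
  have hL : ∀ z, J0F a (lap φ) z = - J0F (a - 2) φ z ∧ J1F a (lap φ) z = - J1F (a - 2) φ z := by
    intro z
    refine ⟨?_, ?_⟩
    · unfold J0F
      rw [← Complex.neg_re, ← integral_neg]
      congr 1
      refine integral_congr_ae ?_
      filter_upwards [ae_ne] with r hr0
      rw [hlap', rpow_two_mul (mul_ne_zero Real.two_pi_pos.ne' hr0)]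
      push_cast
      ring
    · unfold J1F
      rw [← Complex.neg_re, ← integral_neg]
      congr 1
      refine integral_congr_ae ?_
      filter_upwards [ae_ne] with r hr0
      rw [hlap', rpow_two_mul (mul_ne_zero Real.two_pi_pos.ne' hr0)]
      push_cast
      ring
  refine ⟨?_, ?_, hL, ?_, toK_neg fun z => (hL z).1, toK_neg fun z => (hL z).2⟩
  · intro ha w p
    have h1 := amp_int hr w (c := -a) (by linarith)
    have h2 := amp_int1 hr w (c := a) (by linarith)
    have h3 := der h1 (h2.congr (Eventually.of_forall fun r => by simp only; ring)) p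
    refine h3.congr_deriv ?_
    unfold J1F
    congr 1
    refine integral_congr_ae (Eventually.of_forall fun r => ?_)
    simp only
    ring
  · intro ha w p
    have h1 := amp_int1 hr w (c := a) (by linarith)
    have h2 := amp_int hr w (c := -(a - 2)) (by linarith)
    have h4 : (fun r : ℝ => -(((|2 * Real.pi * r| ^ (-(a - 2)) : ℝ) : ℂ) * ft φ (r • (w : E)))) =ᵐ[volume]
        fun r : ℝ => ((|2 * Real.pi * r| ^ (-a) : ℝ) : ℂ) *
      (2 * Real.pi * Complex.I * (r : ℂ)) * ft φ (r • (w : E)) * (2 * Real.pi * Complex.I * (r : ℂ)) := by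
      filter_upwards [ae_ne] with r hr0
      rw [rpow_two_mul (mul_ne_zero Real.two_pi_pos.ne' hr0)]
      push_cast
      linear_combination (-((|2 * Real.pi * r| ^ (-a) : ℝ) : ℂ) * (2 * Real.pi * r) ^ 2 *
        ft φ (r • (w : E))) * Complex.I_sq
    have h3 := der h1 (h2.neg.congr h4) p
    refine h3.congr_deriv ?_
    unfold J0F
    rw [← Complex.neg_re, ← integral_neg]
    congr 1
    refine integral_congr_ae ?_
    filter_upwards [h4] with r h5
    rw [← h5]
    ring
  · intro z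
    refine ⟨fun ha => ?_, fun ha => ?_⟩
    · unfold J0F
      refine (Complex.abs_re_le_norm _).trans ((norm_integral_le_integral_norm _).trans_eq ?_)
      refine integral_congr_ae (Eventually.of_forall fun r => ?_)
      simp only
      rw [norm_mul, norm_mul, norm_char, mul_one, Complex.norm_real,
        Real.norm_of_nonneg (Real.rpow_nonneg (abs_nonneg _) _)]
    · unfold J1F
      refine (Complex.abs_re_le_norm _).trans ((norm_integral_le_integral_norm _).trans_eq ?_)
      refine integral_congr_ae ?_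
      filter_upwards [ae_ne] with r hr0
      rw [norm_mul, norm_mul, norm_mul, norm_char, mul_one, Complex.norm_real, norm_I,
        Real.norm_of_nonneg (Real.rpow_nonneg (abs_nonneg _) _)]
      have h1 : |2 * Real.pi * r| ^ (1 - a) = |2 * Real.pi * r| ^ (-a) * |2 * Real.pi * r| := by
        rw [← Real.rpow_add_one (abs_pos.2 (mul_ne_zero Real.two_pi_pos.ne' hr0)).ne']
        ring_nf
      rw [h1]

end Pool.Agent.QWF
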