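import Pool.Agent.QWF.MorT

set_option autoImplicit false

/-!
# QWF: helper lemmas for MorS, MorF (the Morawetz multiplier of general functions)
-/

open MeasureTheory Filter Topology Set
open scoped ENNReal NNReal RealInnerProductSpace ContDiff Pointwise

namespace Pool.Agent.QWF

namespace MorUx

open MorTx (rr rr_pos rr_sq rr_smooth norm_sq cont_coord mm S1)

lemma l2_tendsto {an bn : ℕ → E → ℝ} {a b : E → ℝ} (han : ∀ n, MemLp (an n) 2 volume)
    (hbn : ∀ n, MemLp (bn n) 2 volume) (ha : MemLp a 2 volume) (hb : MemLp b 2 volume)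
    (h1 : Tendsto (fun n => eLpNorm (fun x => an n x - a x) 2 volume) atTop (𝓝 0))
    (h2 : Tendsto (fun n => eLpNorm (fun x => bn n x - b x) 2 volume) atTop (𝓝 0)) :
    Tendsto (fun n => ∫ x, an n x * bn n x) atTop (𝓝 (∫ x, a x * b x)) := by
  have key : ∀ (f g : E → ℝ) (hf : MemLp f 2 volume) (hg : MemLp g 2 volume),
      inner ℝ (hf.toLp f) (hg.toLp g) = ∫ x, f x * g x := by
    intro f g hf hg
    rw [L2.inner_def]
    refine integral_congr_ae ?_
    filter_upwards [hf.coeFn_toLp, hg.coeFn_toLp] with x h3 h4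
    rw [h3, h4]
    simp [mul_comm]
  have t1 := (Lp.tendsto_Lp_iff_tendsto_eLpNorm'' an han a ha).2 h1
  have t2 := (Lp.tendsto_Lp_iff_tendsto_eLpNorm'' bn hbn b hb).2 h2
  have t3 := t1.inner t2 (𝕜 := ℝ)
  simp only [key] at t3
  exact t3

/-- the multiplier for general functions. -/
noncomputable def MM (D : Fin 4 → E → ℝ) (u : E → ℝ) (x : E) : ℝ :=
  rr x * (∑ i, x i * D i x) + (rr x ^ 3 + 3 * rr x) / 2 * u x

lemma rr_le_one (x : E) : rr x ≤ 1 := by
  have h1 := rr_sq x
  have h2 := rr_pos x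
  by_contra hn
  push Not at hn
  have h3 : 1 < rr x ^ 2 := by nlinarith
  nlinarith [sq_nonneg ‖x‖]

lemma rr_coord (x : E) (i : Fin 4) : rr x * |x i| ≤ 1 := by
  have h1 := rr_sq x
  have h2 := rr_pos x
  have h3 : x i ^ 2 ≤ ‖x‖ ^ 2 := by
    rw [norm_sq]
    exact Finset.single_le_sum (f := fun i => x i ^ 2) (fun i _ => sq_nonneg _) (Finset.mem_univ i)
  have h4 : (rr x * |x i|) ^ 2 ≤ 1 ^ 2 := by
    rw [mul_pow, sq_abs, one_pow]
    nlinarith [sq_nonneg (rr x)]
  exact (sq_le_sq₀ (by positivity) (by norm_num)).1 h4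

lemma rr_meas : AEStronglyMeasurable rr (volume : Measure E) :=
  rr_smooth.continuous.aestronglyMeasurable

lemma cc_meas : AEStronglyMeasurable (fun x : E => (rr x ^ 2 + 3) / 2) (volume : Measure E) := by
  have h := rr_smooth.continuous
  have h2 : Continuous (fun x : E => (rr x ^ 2 + 3) / 2) := by fun_prop
  exact h2.aestronglyMeasurable

lemma coord_meas (i : Fin 4) : AEStronglyMeasurable (fun x : E => x i) (volume : Measure E) :=
  (cont_coord i).continuous.aestronglyMeasurable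

lemma MM_eq (D : Fin 4 → E → ℝ) (u : E → ℝ) :
    MM D u = (∑ i, fun x : E => rr x * x i * D i x) + fun x => (rr x ^ 2 + 3) / 2 * (rr x * u x) := by
  funext x
  unfold MM
  rw [Pi.add_apply, Finset.sum_apply, Finset.mul_sum]
  congr 1
  · refine Finset.sum_congr rfl fun i _ => ?_
    ring
  · ring

lemma MM_meas {D : Fin 4 → E → ℝ} {u : E → ℝ} (hD : ∀ i, AEStronglyMeasurable (D i) volume)
    (hu : AEStronglyMeasurable u volume) : AEStronglyMeasurable (MM D u) volume := by
  rw [MM_eq]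
  refine AEStronglyMeasurable.add ?_ ?_
  · exact Finset.aestronglyMeasurable_sum _ fun i _ => (rr_meas.mul (coord_meas i)).mul (hD i)
  · exact cc_meas.mul (rr_meas.mul hu)

lemma MM_bd {D : Fin 4 → E → ℝ} {u : E → ℝ} (hD : ∀ i, AEStronglyMeasurable (D i) volume)
    (hu : AEStronglyMeasurable u volume) :
    eLpNorm (MM D u) 2 volume ≤ (∑ i, eLpNorm (D i) 2 volume) +
      ENNReal.ofReal 2 * eLpNorm (fun x => rr x * u x) 2 volume := by
  rw [MM_eq]
  have m1 : ∀ i ∈ (Finset.univ : Finset (Fin 4)),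
      AEStronglyMeasurable (fun x : E => rr x * x i * D i x) volume :=
    fun i _ => (rr_meas.mul (coord_meas i)).mul (hD i)
  have m2 : AEStronglyMeasurable (fun x : E => (rr x ^ 2 + 3) / 2 * (rr x * u x)) volume :=
    cc_meas.mul (rr_meas.mul hu)
  refine (eLpNorm_add_le (Finset.aestronglyMeasurable_sum _ m1) m2 (by norm_num)).trans ?_
  refine add_le_add ((eLpNorm_sum_le m1 (by norm_num)).trans (Finset.sum_le_sum fun i _ => ?_)) ?_
  · refine eLpNorm_mono fun x => ?_
    rw [norm_mul, norm_mul, Real.norm_eq_abs, Real.norm_eq_abs, abs_of_pos (rr_pos x)]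
    calc rr x * |x i| * ‖D i x‖ ≤ 1 * ‖D i x‖ :=
          mul_le_mul_of_nonneg_right (rr_coord x i) (norm_nonneg _)
      _ = ‖D i x‖ := one_mul _
  · refine eLpNorm_le_mul_eLpNorm_of_ae_le_mul (Eventually.of_forall fun x => ?_) 2
    rw [norm_mul]
    refine mul_le_mul_of_nonneg_right ?_ (norm_nonneg _)
    have h1 := rr_le_one x
    have h2 := rr_pos x
    rw [Real.norm_eq_abs, abs_of_pos (by positivity)]
    nlinarith

lemma mm_eq (f : E → ℝ) : mm f = MM (fun i => pd i f) f := rfl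

lemma rr_div (u : E → ℝ) : (fun x => u x / √(1 + ‖x‖ ^ 2)) = fun x => rr x * u x := by
  funext x
  unfold rr
  rw [div_eq_inv_mul]

lemma memLp_test {f : E → ℝ} (hf : IsTest f) (p : ℝ≥0∞) : MemLp f p volume :=
  hf.1.continuous.memLp_of_hasCompactSupport hf.2

lemma test_meas {f : E → ℝ} (hf : IsTest f) : AEStronglyMeasurable f (volume : Measure E) :=
  hf.1.continuous.aestronglyMeasurable

lemma m_eq (u : E → ℝ) (G : Fin 4 → E → ℝ) : (fun x => (∑ i, x i * G i x) / √(1 + ‖x‖ ^ 2) +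
      (1 / (√(1 + ‖x‖ ^ 2)) ^ 3 + 3 / √(1 + ‖x‖ ^ 2)) / 2 * u x) = MM G u := by
  funext x
  unfold MM rr
  have h : √(1 + ‖x‖ ^ 2) ≠ 0 := by positivity
  field_simp

end MorUx

end Pool.Agent.QWF
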