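import Pool.Agent.QWF.StA

set_option autoImplicit false

/-!
# QWF, PJ: Parseval for nice functions on `S × ℝ`
-/

open MeasureTheory Filter Topology Set FourierTransform
open scoped ENNReal NNReal RealInnerProductSpace

namespace Pool.Agent.QWF

namespace PJx


/-! ### One dimensional Parseval for functions in `L¹ ∩ L²` -/

section OneD

open scoped FourierTransform SchwartzMap ContDiff

lemma continuous_fourier {g : ℝ → ℂ} (h1 : Integrable g) : Continuous (𝓕 g : ℝ → ℂ) :=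
  VectorFourier.fourierIntegral_continuous (L := innerₗ ℝ) Real.continuous_fourierChar
    continuous_inner h1

lemma self_adjoint (Φ : 𝓢(ℝ, ℂ)) {g : ℝ → ℂ} (h1 : Integrable g) :
    ∫ ξ, (𝓕 Φ : 𝓢(ℝ, ℂ)) ξ • g ξ = ∫ x, Φ x • (𝓕 g : ℝ → ℂ) x := by
  have h := VectorFourier.integral_fourierIntegral_smul_eq_flip (L := innerₗ ℝ)
    (f := (Φ : ℝ → ℂ)) (g := g) (μ := (volume : Measure ℝ)) (ν := (volume : Measure ℝ))
    Real.continuous_fourierChar continuous_inner (Φ.integrable (μ := (volume : Measure ℝ))) h1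
  simpa using! h

lemma fourier_ae_eq {g : ℝ → ℂ} (h1 : Integrable g) (h2 : MemLp g 2 volume) :
    (𝓕 g : ℝ → ℂ) =ᵐ[volume] (𝓕 (h2.toLp g) : Lp ℂ 2 (volume : Measure ℝ)) := by
  apply ae_eq_of_integral_contDiff_smul_eq
  · exact (continuous_fourier h1).locallyIntegrable
  · exact (Lp.memLp _).locallyIntegrable (by norm_num)
  · intro φ hφ hc
    have hg₁ : HasCompactSupport (Complex.ofRealCLM ∘ φ) := hc.comp_left rfl
    have hg₂ : ContDiff ℝ ∞ (Complex.ofRealCLM ∘ φ) := by fun_prop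
    set Φ : 𝓢(ℝ, ℂ) := hg₁.toSchwartzMap hg₂ with hΦ
    have e1 : ∀ x, Φ x = (φ x : ℂ) := fun x => by simp [hΦ]
    have e2 : ∀ (x : ℝ) (y : ℂ), φ x • y = Φ x • y := by
      intro x y
      rw [e1]
      exact (Complex.coe_smul (φ x) y).symm
    simp only [e2]
    rw [← self_adjoint Φ h1]
    have e3 := Lp.fourier_toTemperedDistribution_eq (h2.toLp g)
    have e4 := DFunLike.congr_fun e3 Φ
    rw [TemperedDistribution.fourier_apply, Lp.toTemperedDistribution_apply,
      Lp.toTemperedDistribution_apply] at e4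
    rw [← e4]
    apply integral_congr_ae
    filter_upwards [h2.coeFn_toLp] with x hx
    rw [hx]

/-- The inverse Fourier integral in one variable. -/
noncomputable def inv1 (a : ℝ → ℂ) (p : ℝ) : ℂ :=
  ∫ r : ℝ, a r * Complex.exp (2 * Real.pi * Complex.I * ((r * p : ℝ) : ℂ))

lemma inv1_eq (a : ℝ → ℂ) (p : ℝ) : inv1 a p = (𝓕 a : ℝ → ℂ) (-p) := by
  rw [Real.fourier_real_eq_integral_exp_smul, inv1]
  refine integral_congr_ae (Eventually.of_forall fun r => ?_)
  simp only [smul_eq_mul]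
  rw [mul_comm]
  congr 2
  push_cast
  ring

lemma inv1_cont {a : ℝ → ℂ} (h1 : Integrable a) : Continuous (inv1 a) := by
  have : inv1 a = fun p => (𝓕 a : ℝ → ℂ) (-p) := funext (inv1_eq a)
  rw [this]
  exact (continuous_fourier h1).comp continuous_neg

lemma memLp_fourier {a : ℝ → ℂ} (h1 : Integrable a) (h2 : MemLp a 2 volume) :
    MemLp (𝓕 a : ℝ → ℂ) 2 volume :=
  (memLp_congr_ae (fourier_ae_eq h1 h2)).2 (Lp.memLp _)

lemma eLp_fourier {a : ℝ → ℂ} (h1 : Integrable a) (h2 : MemLp a 2 volume) :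
    eLpNorm (𝓕 a : ℝ → ℂ) 2 volume = eLpNorm a 2 volume := by
  rw [eLpNorm_congr_ae (fourier_ae_eq h1 h2), ← eLpNorm_congr_ae h2.coeFn_toLp]
  have h3 := Lp.norm_fourier_eq (h2.toLp a)
  rw [Lp.norm_def, Lp.norm_def] at h3
  exact (ENNReal.toReal_eq_toReal_iff' (Lp.eLpNorm_ne_top _) (Lp.eLpNorm_ne_top _)).1 h3

lemma inv1_memLp {a : ℝ → ℂ} (h1 : Integrable a) (h2 : MemLp a 2 volume) :
    MemLp (inv1 a) 2 volume := by
  have : inv1 a = fun p => (𝓕 a : ℝ → ℂ) (-p) := funext (inv1_eq a)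
  rw [this]
  exact (memLp_fourier h1 h2).comp_measurePreserving (Measure.measurePreserving_neg volume)

lemma inv1_eLp {a : ℝ → ℂ} (h1 : Integrable a) (h2 : MemLp a 2 volume) :
    eLpNorm (inv1 a) 2 volume = eLpNorm a 2 volume := by
  have : inv1 a = (𝓕 a : ℝ → ℂ) ∘ fun p => -p := funext (inv1_eq a)
  rw [this, eLpNorm_comp_measurePreserving (memLp_fourier h1 h2).1
    (Measure.measurePreserving_neg volume), eLp_fourier h1 h2]

lemma parseval1 {a b : ℝ → ℂ} (h1 : Integrable a) (h2 : MemLp a 2 volume) (h3 : Integrable b)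
    (h4 : MemLp b 2 volume) :
    ∫ p, inv1 a p * (starRingEnd ℂ) (inv1 b p) = ∫ r, a r * (starRingEnd ℂ) (b r) := by
  simp only [inv1_eq]
  rw [integral_neg_eq_self (fun p : ℝ => (𝓕 a : ℝ → ℂ) p * (starRingEnd ℂ) ((𝓕 b : ℝ → ℂ) p)) volume]
  have e := Lp.inner_fourier_eq (h4.toLp b) (h2.toLp a)
  rw [L2.inner_def, L2.inner_def] at e
  have e1 : ∫ x, inner ℂ ((𝓕 (h4.toLp b) : Lp ℂ 2 (volume : Measure ℝ)) x)
      ((𝓕 (h2.toLp a) : Lp ℂ 2 (volume : Measure ℝ)) x) =
      ∫ p : ℝ, (𝓕 a : ℝ → ℂ) p * (starRingEnd ℂ) ((𝓕 b : ℝ → ℂ) p) := by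
    refine integral_congr_ae ?_
    filter_upwards [fourier_ae_eq h1 h2, fourier_ae_eq h3 h4] with x hx hy
    rw [hx, hy, RCLike.inner_apply]
  have e2 : ∫ x, inner ℂ ((h4.toLp b : Lp ℂ 2 (volume : Measure ℝ)) x)
      ((h2.toLp a : Lp ℂ 2 (volume : Measure ℝ)) x) =
      ∫ r, a r * (starRingEnd ℂ) (b r) := by
    refine integral_congr_ae ?_
    filter_upwards [h2.coeFn_toLp, h4.coeFn_toLp] with x hx hy
    rw [hx, hy, RCLike.inner_apply]
  rw [← e1, ← e2]
  exact e

end OneD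

/-! ### Functions on `S × ℝ` -/

/-- Inverse Fourier integral in the second variable. -/
noncomputable def IF (A : S × ℝ → ℂ) (z : S × ℝ) : ℂ :=
  ∫ r : ℝ, A (z.1, r) * Complex.exp (2 * Real.pi * Complex.I * ((r * z.2 : ℝ) : ℂ))

/-- Admissible amplitudes. -/
structure Good (A : S × ℝ → ℂ) (a : ℝ → ℝ) : Prop where
  meas : Measurable A
  le : ∀ w r, ‖A (w, r)‖ ≤ a r
  int : Integrable a
  sq : MemLp a 2 volume
  cont : ∀ r, Continuous fun w : S => A (w, r)
  herm : ∀ w r, A (w, -r) = (starRingEnd ℂ) (A (w, r))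

variable {A B : S × ℝ → ℂ} {a b : ℝ → ℝ}

lemma Good.meas1 (h : Good A a) (w : S) : Measurable fun r => A (w, r) :=
  h.meas.comp measurable_prodMk_left

lemma Good.int1 (h : Good A a) (w : S) : Integrable fun r => A (w, r) :=
  h.int.mono' (h.meas1 w).aestronglyMeasurable (Eventually.of_forall fun r => h.le w r)

lemma Good.nonneg (h : Good A a) (r : ℝ) : 0 ≤ a r := by
  have w : S := ⟨EuclideanSpace.single 0 1, by simp⟩
  exact (norm_nonneg _).trans (h.le w r)

lemma Good.sq1 (h : Good A a) (w : S) : MemLp (fun r => A (w, r)) 2 volume :=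
  h.sq.mono (h.meas1 w).aestronglyMeasurable (Eventually.of_forall fun r => by
    rw [Real.norm_eq_abs, abs_of_nonneg (h.nonneg r)]; exact h.le w r)

lemma IF_eq (A : S × ℝ → ℂ) (w : S) (p : ℝ) : IF A (w, p) = inv1 (fun r => A (w, r)) p := rfl

lemma norm_char (x : ℝ) : ‖Complex.exp (2 * Real.pi * Complex.I * (x : ℂ))‖ = 1 := by
  have : 2 * Real.pi * Complex.I * (x : ℂ) = ((2 * Real.pi * x : ℝ) : ℂ) * Complex.I := by
    push_cast; ring
  rw [this, Complex.norm_exp_ofReal_mul_I]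

lemma norm_char' (x : ℝ) : ‖Complex.exp (-2 * Real.pi * Complex.I * (x : ℂ))‖ = 1 := by
  have : -2 * Real.pi * Complex.I * (x : ℂ) = ((-2 * Real.pi * x : ℝ) : ℂ) * Complex.I := by
    push_cast; ring
  rw [this, Complex.norm_exp_ofReal_mul_I]

lemma Good.cont_IF (h : Good A a) : Continuous (IF A) := by
  unfold IF
  refine continuous_of_dominated (bound := a) ?_ ?_ h.int ?_
  · intro z
    refine ((h.meas1 z.1).aestronglyMeasurable).mul (Continuous.aestronglyMeasurable ?_)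
    fun_prop
  · intro z
    refine Eventually.of_forall fun r => ?_
    rw [norm_mul, norm_char, mul_one]
    exact h.le z.1 r
  · refine Eventually.of_forall fun r => ?_
    refine ((h.cont r).comp continuous_fst).mul ?_
    fun_prop

lemma Good.real (h : Good A a) (z : S × ℝ) : (((IF A z).re : ℝ) : ℂ) = IF A z := by
  rw [← Complex.conj_eq_iff_re]
  unfold IF
  rw [← integral_conj, ← integral_neg_eq_self]
  refine integral_congr_ae (Eventually.of_forall fun r => ?_)
  simp only [map_mul, h.herm, Complex.conj_conj, ← Complex.exp_conj, Complex.conj_ofReal,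
    Complex.conj_I, map_ofNat]
  congr 2
  push_cast
  ring

lemma lin_sq {α : Type*} [MeasurableSpace α] {μ : Measure α} (f : α → ℂ) :
    ∫⁻ x, ‖f x‖ₑ ^ 2 ∂μ = eLpNorm f 2 μ ^ 2 := by
  have h := eLpNorm_nnreal_pow_eq_lintegral (f := f) (μ := μ) (p := 2) (by norm_num)
  have c1 : ((2 : ℝ≥0) : ℝ≥0∞) = 2 := by norm_num
  have c2 : ((2 : ℝ≥0) : ℝ) = 2 := by norm_num
  rw [c1, c2] at h
  simp only [ENNReal.rpow_two] at h
  exact h.symm

lemma Good.memLp_IF (h : Good A a) : MemLp (IF A) 2 mu := by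
  refine ⟨h.cont_IF.aestronglyMeasurable, ?_⟩
  have h1 : eLpNorm (IF A) 2 mu ^ 2 < ⊤ := by
    rw [← lin_sq, lintegral_prod _ (by
      exact (h.cont_IF.measurable.enorm.pow_const 2).aemeasurable)]
    have h2 : ∀ w : S, ∫⁻ p, ‖IF A (w, p)‖ₑ ^ 2 ≤ eLpNorm a 2 volume ^ 2 := by
      intro w
      have : (fun p => ‖IF A (w, p)‖ₑ ^ 2) = fun p => ‖inv1 (fun r => A (w, r)) p‖ₑ ^ 2 := rfl
      rw [this, lin_sq, inv1_eLp (h.int1 w) (h.sq1 w)]
      gcongr
      refine eLpNorm_mono fun r => ?_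
      rw [Real.norm_eq_abs, abs_of_nonneg (h.nonneg r)]
      exact h.le w r
    calc ∫⁻ w, ∫⁻ p, ‖IF A (w, p)‖ₑ ^ 2 ∂volume ∂sg ≤ ∫⁻ _ : S, eLpNorm a 2 volume ^ 2 ∂sg :=
          lintegral_mono h2
      _ = eLpNorm a 2 volume ^ 2 * sg univ := lintegral_const _
      _ < ⊤ := ENNReal.mul_lt_top (ENNReal.pow_lt_top h.sq.2) (measure_lt_top _ _)
  exact (ENNReal.pow_lt_top_iff.1 h1).resolve_right (by norm_num)

lemma Good.tr (h : Good A a) (t : ℝ) : Good (fun z => A z *
    Complex.exp (-2 * Real.pi * Complex.I * ((z.2 * t : ℝ) : ℂ))) a where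
  meas := h.meas.mul (by fun_prop)
  le w r := by
    rw [norm_mul, norm_char', mul_one]
    exact h.le w r
  int := h.int
  sq := h.sq
  cont r := (h.cont r).mul (by fun_prop)
  herm w r := by
    simp only [map_mul, h.herm, ← Complex.exp_conj, Complex.conj_ofReal,
      Complex.conj_I, map_ofNat, map_neg]
    congr 2
    push_cast
    ring

lemma IF_tr (A : S × ℝ → ℂ) (t : ℝ) (z : S × ℝ) : IF (fun z => A z *
    Complex.exp (-2 * Real.pi * Complex.I * ((z.2 * t : ℝ) : ℂ))) z = IF A (z.1, z.2 - t) := by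
  unfold IF
  refine integral_congr_ae (Eventually.of_forall fun r => ?_)
  simp only
  rw [mul_assoc, ← Complex.exp_add]
  congr 2
  push_cast
  ring

lemma Good.int_mul (h : Good A a) (h' : Good B b) :
    Integrable (fun z => A z * (starRingEnd ℂ) (B z)) mu := by
  have h1 : Integrable (fun r => a r * b r) volume := h.sq.integrable_mul h'.sq
  have h2 : Integrable (fun z : S × ℝ => a z.2 * b z.2) mu := h1.comp_snd sg
  refine h2.mono' ?_ ?_
  · exact (h.meas.mul (Complex.continuous_conj.measurable.comp h'.meas)).aestronglyMeasurable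
  · refine Eventually.of_forall fun z => ?_
    rw [norm_mul, RCLike.norm_conj]
    exact mul_le_mul (h.le z.1 z.2) (h'.le z.1 z.2) (norm_nonneg _) (h.nonneg _)

lemma memLp_conj {α : Type*} [MeasurableSpace α] {μ : Measure α} {f : α → ℂ} {p : ℝ≥0∞}
    (h : MemLp f p μ) : MemLp (fun x => (starRingEnd ℂ) (f x)) p μ :=
  h.of_le (Complex.continuous_conj.comp_aestronglyMeasurable h.1)
    (Eventually.of_forall fun x => by rw [RCLike.norm_conj])

/-- Parseval on `S × ℝ`. -/
lemma Good.parseval (h : Good A a) (h' : Good B b) :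
    ∫ z, IF A z * (starRingEnd ℂ) (IF B z) ∂mu = ∫ z, A z * (starRingEnd ℂ) (B z) ∂mu := by
  have h1 : Integrable (fun z => IF A z * (starRingEnd ℂ) (IF B z)) mu :=
    h.memLp_IF.integrable_mul (memLp_conj h'.memLp_IF)
  rw [integral_prod _ h1, integral_prod _ (h.int_mul h')]
  refine integral_congr_ae (Eventually.of_forall fun w => ?_)
  exact parseval1 (h.int1 w) (h.sq1 w) (h'.int1 w) (h'.sq1 w)

/-- The real function. -/
noncomputable def RF (A : S × ℝ → ℂ) (z : S × ℝ) : ℝ := (IF A z).re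

lemma Good.cont_RF (h : Good A a) : Continuous (RF A) := Complex.continuous_re.comp h.cont_IF

lemma Good.memLp_RF (h : Good A a) : MemLp (RF A) 2 mu :=
  h.memLp_IF.of_le h.cont_RF.aestronglyMeasurable
    (Eventually.of_forall fun z => by
      rw [Real.norm_eq_abs]
      exact Complex.abs_re_le_norm _)

lemma inner_K {k k' : K} {f g : S × ℝ → ℝ} (hk : (k : S × ℝ → ℝ) =ᵐ[mu] f)
    (hk' : (k' : S × ℝ → ℝ) =ᵐ[mu] g) : inner ℝ k k' = ∫ z, f z * g z ∂mu := by
  rw [L2.inner_def]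
  refine integral_congr_ae ?_
  filter_upwards [hk, hk'] with z h1 h2
  rw [h1, h2]
  simp [mul_comm]

/-- Pairing of states given by amplitudes. -/
theorem pair (h : Good A a) (h' : Good B b) (t : ℝ) :
    inner ℝ (tau t (toK (RF A))) (toK (RF B)) =
      (∫ z : S × ℝ, A z * Complex.exp (-2 * Real.pi * Complex.I * ((z.2 * t : ℝ) : ℂ)) *
        (starRingEnd ℂ) (B z) ∂mu).re := by
  have e1 : (tau t (toK (RF A)) : S × ℝ → ℝ) =ᵐ[mu] fun z => RF A (z.1, z.2 - t) := by
    have h1 := (mp_shift (g := fun _ => t) measurable_const).quasiMeasurePreserving.ae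
      (toK_coe h.memLp_RF)
    filter_upwards [tau_coe t (toK (RF A)), h1] with z h2 h3
    rw [h2, h3]
  have h1 : Integrable (fun z => IF (fun z => A z *
      Complex.exp (-2 * Real.pi * Complex.I * ((z.2 * t : ℝ) : ℂ))) z * (starRingEnd ℂ) (IF B z)) mu :=
    (h.tr t).memLp_IF.integrable_mul (memLp_conj h'.memLp_IF)
  rw [inner_K e1 (toK_coe h'.memLp_RF), ← (h.tr t).parseval h',
    ← RCLike.re_eq_complex_re, ← integral_re h1]
  refine integral_congr_ae (Eventually.of_forall fun z => ?_)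
  simp only [IF_tr]
  rw [← h.real, ← h'.real, Complex.conj_ofReal, ← Complex.ofReal_mul, RCLike.re_eq_complex_re,
    Complex.ofReal_re]
  rfl

/-! ### The amplitudes of the test states -/

/-- The dominating function. -/
noncomputable def dom (s C : ℝ) (r : ℝ) : ℝ := C * (|2 * Real.pi * r| ^ (-s) * (1 + |r|) ^ (-(4 : ℝ)))

lemma int_aux {c : ℝ} (h1 : -1 < c) (h2 : c < 3) :
    Integrable (fun r : ℝ => |r| ^ c * (1 + |r|) ^ (-(4 : ℝ))) := by
  have h := (integrable_fun_norm_addHaar (volume : Measure ℝ)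
    (f := fun y : ℝ => y ^ c * (1 + y) ^ (-(4 : ℝ)))).2 ?_
  · simpa [Real.norm_eq_abs] using h
  · simp only [Module.finrank_self, Nat.sub_self, pow_zero, one_smul]
    rw [← Ioc_union_Ioi_eq_Ioi zero_le_one, integrableOn_union]
    constructor
    · have h3 : IntegrableOn (fun y : ℝ => y ^ c) (Ioc 0 1) :=
        (intervalIntegrable_iff_integrableOn_Ioc_of_le zero_le_one).1
          (intervalIntegral.intervalIntegrable_rpow' h1)
      refine h3.mono' (by fun_prop) ?_
      refine (ae_restrict_iff' measurableSet_Ioc).2 (Eventually.of_forall fun y hy => ?_)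
      have h4 : (1 + y) ^ (-(4 : ℝ)) ≤ 1 :=
        Real.rpow_le_one_of_one_le_of_nonpos (by linarith [hy.1]) (by norm_num)
      have h5 : 0 ≤ y ^ c := Real.rpow_nonneg hy.1.le _
      have h6 : 0 ≤ (1 + y) ^ (-(4 : ℝ)) := Real.rpow_nonneg (by linarith [hy.1]) _
      rw [Real.norm_eq_abs, abs_of_nonneg (mul_nonneg h5 h6)]
      nlinarith
    · have h3 : IntegrableOn (fun y : ℝ => y ^ (c - 4)) (Ioi 1) :=
        integrableOn_Ioi_rpow_of_lt (by linarith) zero_lt_one
      refine h3.mono' (by fun_prop) ?_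
      refine (ae_restrict_iff' measurableSet_Ioi).2 (Eventually.of_forall fun y hy => ?_)
      have hy0 : (0 : ℝ) < y := lt_trans zero_lt_one hy
      have h4 : (1 + y) ^ (-(4 : ℝ)) ≤ y ^ (-(4 : ℝ)) :=
        Real.rpow_le_rpow_of_nonpos hy0 (by linarith) (by norm_num)
      have h5 : 0 ≤ y ^ c := Real.rpow_nonneg hy0.le _
      have h6 : 0 ≤ (1 + y) ^ (-(4 : ℝ)) := Real.rpow_nonneg (by linarith) _
      rw [Real.norm_eq_abs, abs_of_nonneg (mul_nonneg h5 h6)]
      calc y ^ c * (1 + y) ^ (-(4 : ℝ)) ≤ y ^ c * y ^ (-(4 : ℝ)) := by gcongr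
        _ = y ^ (c - 4) := by rw [← Real.rpow_add hy0]; ring_nf

lemma dom_meas (s C : ℝ) : Measurable (dom s C) := by
  unfold dom
  fun_prop

lemma dom_eq (s C : ℝ) : dom s C = fun r => (C * (2 * Real.pi) ^ (-s)) * (|r| ^ (-s) * (1 + |r|) ^ (-(4 : ℝ))) := by
  funext r
  unfold dom
  rw [abs_mul, abs_of_pos Real.two_pi_pos, Real.mul_rpow Real.two_pi_pos.le (abs_nonneg _)]
  ring

lemma dom_int {s : ℝ} (hs : -3 / 2 < s) (hs2 : s < 1 / 2) (C : ℝ) : Integrable (dom s C) := by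
  rw [dom_eq]
  exact (int_aux (by linarith) (by linarith)).const_mul _

lemma dom_sq {s : ℝ} (hs : -3 / 2 < s) (hs2 : s < 1 / 2) (C : ℝ) : MemLp (dom s C) 2 volume := by
  rw [memLp_two_iff_integrable_sq (dom_meas s C).aestronglyMeasurable, dom_eq]
  have h1 := (int_aux (c := -2 * s) (by linarith) (by linarith)).const_mul
    ((C * (2 * Real.pi) ^ (-s)) ^ 2)
  refine h1.mono' (by fun_prop) (Eventually.of_forall fun r => ?_)
  have h2 : (|r| ^ (-s)) ^ 2 = |r| ^ (-2 * s) := by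
    rw [← Real.rpow_natCast, ← Real.rpow_mul (abs_nonneg _)]
    norm_num
    ring_nf
  have h3 : (1 + |r|) ^ (-(4 : ℝ)) ≤ 1 :=
    Real.rpow_le_one_of_one_le_of_nonpos (by linarith [abs_nonneg r]) (by norm_num)
  have h4 : 0 ≤ (1 + |r|) ^ (-(4 : ℝ)) := Real.rpow_nonneg (by linarith [abs_nonneg r]) _
  rw [Real.norm_eq_abs, abs_of_nonneg (sq_nonneg _), mul_pow, mul_pow (|r| ^ (-s)), h2]
  have h5 : 0 ≤ |r| ^ (-2 * s) := Real.rpow_nonneg (abs_nonneg _) _
  have h6 : ((1 + |r|) ^ (-(4 : ℝ))) ^ 2 ≤ (1 + |r|) ^ (-(4 : ℝ)) := by nlinarith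
  gcongr

/-- Amplitude of `J0F a φ`. -/
noncomputable def am (s : ℝ) (φ : E → ℝ) (z : S × ℝ) : ℂ :=
  ((|2 * Real.pi * z.2| ^ (-s) : ℝ) : ℂ) * ft φ (z.2 • (z.1 : E))

/-- Amplitude of `J1F a φ`. -/
noncomputable def dam (s : ℝ) (φ : E → ℝ) (z : S × ℝ) : ℂ :=
  ((|2 * Real.pi * z.2| ^ (-s) : ℝ) : ℂ) * (2 * Real.pi * Complex.I * (z.2 : ℂ)) *
    ft φ (z.2 • (z.1 : E))

lemma J0F_eq (s : ℝ) (φ : E → ℝ) : J0F s φ = RF (am s φ) := rfl

lemma J1F_eq (s : ℝ) (φ : E → ℝ) : J1F s φ = RF (dam s φ) := rfl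

lemma norm_pt (w : S) (r : ℝ) : ‖r • (w : E)‖ = |r| := by
  rw [norm_smul, norm_eq_of_mem_sphere w, mul_one, Real.norm_eq_abs]

lemma am_good (hFt : St_Ft) {s : ℝ} (hs : -3 / 2 < s) (hs' : s < 1 / 2) {φ : E → ℝ}
    (hφ : IsSch φ) : ∃ a, Good (am s φ) a := by
  obtain ⟨hc, hb, -, -, -, hn, -⟩ := hFt.2 φ hφ
  obtain ⟨C, hC⟩ := hb 4
  refine ⟨dom s C, ?_, ?_, dom_int hs hs' C, dom_sq hs hs' C, ?_, ?_⟩
  · unfold am
    refine Measurable.mul (by fun_prop) ?_
    exact (hc.comp (continuous_snd.smul (continuous_subtype_val.comp continuous_fst))).measurable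
  · intro w r
    have h1 := hC (r • (w : E))
    rw [norm_pt] at h1
    have h2 : 0 ≤ |2 * Real.pi * r| ^ (-s) := Real.rpow_nonneg (abs_nonneg _) _
    simp only [am, dom]
    rw [norm_mul, Complex.norm_real, Real.norm_eq_abs, abs_of_nonneg h2]
    have h3 : (1 + |r|) ^ (-(4 : ℝ)) = ((1 + |r|) ^ 4)⁻¹ := by
      rw [Real.rpow_neg (by positivity)]
      norm_cast
    rw [h3]
    calc |2 * Real.pi * r| ^ (-s) * ‖ft φ (r • (w : E))‖ ≤ |2 * Real.pi * r| ^ (-s) * (C / (1 + |r|) ^ 4) := by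
          gcongr
      _ = C * (|2 * Real.pi * r| ^ (-s) * ((1 + |r|) ^ 4)⁻¹) := by
          rw [div_eq_mul_inv]; ring
  · intro r
    simp only [am]
    exact continuous_const.mul (hc.comp (continuous_subtype_val.const_smul r))
  · intro w r
    simp only [am]
    rw [mul_neg, abs_neg, neg_smul, hn, map_mul, Complex.conj_ofReal]

lemma dam_good (hFt : St_Ft) {s : ℝ} (hs : -1 / 2 < s) (hs' : s < 3 / 2) {φ : E → ℝ}
    (hφ : IsSch φ) : ∃ a, Good (dam s φ) a := by
  obtain ⟨hc, hb, -, -, -, hn, -⟩ := hFt.2 φ hφ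
  obtain ⟨C, hC⟩ := hb 4
  refine ⟨dom (s - 1) C, ?_, ?_, dom_int (by linarith) (by linarith) _,
    dom_sq (by linarith) (by linarith) _, ?_, ?_⟩
  · unfold dam
    refine Measurable.mul (by fun_prop) ?_
    exact (hc.comp (continuous_snd.smul (continuous_subtype_val.comp continuous_fst))).measurable
  · intro w r
    have h1 := hC (r • (w : E))
    rw [norm_pt] at h1
    have h2 : 0 ≤ |2 * Real.pi * r| ^ (-s) := Real.rpow_nonneg (abs_nonneg _) _
    have h2' : 0 ≤ |2 * Real.pi * r| ^ (-(s - 1)) := Real.rpow_nonneg (abs_nonneg _) _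
    simp only [dam, dom]
    rw [norm_mul, norm_mul, Complex.norm_real, Real.norm_eq_abs, abs_of_nonneg h2]
    have h3 : (1 + |r|) ^ (-(4 : ℝ)) = ((1 + |r|) ^ 4)⁻¹ := by
      rw [Real.rpow_neg (by positivity)]
      norm_cast
    have h5 : ‖2 * (Real.pi : ℂ) * Complex.I * (r : ℂ)‖ = |2 * Real.pi * r| := by
      rw [abs_mul, abs_of_pos Real.two_pi_pos]
      simp [abs_of_pos Real.pi_pos]
    rw [h3, h5]
    have h6 : |2 * Real.pi * r| ^ (-s) * |2 * Real.pi * r| ≤ |2 * Real.pi * r| ^ (-(s - 1)) := by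
      rcases eq_or_ne (2 * Real.pi * r) 0 with h | h
      · rw [h, abs_zero, mul_zero]
        exact Real.rpow_nonneg le_rfl _
      · have h7 : |2 * Real.pi * r| ^ (-(s - 1)) =
            |2 * Real.pi * r| ^ (-s) * |2 * Real.pi * r| ^ (1 : ℝ) := by
          rw [← Real.rpow_add (abs_pos.2 h)]
          congr 1
          ring
        rw [h7, Real.rpow_one]
    calc |2 * Real.pi * r| ^ (-s) * |2 * Real.pi * r| * ‖ft φ (r • (w : E))‖
        ≤ |2 * Real.pi * r| ^ (-(s - 1)) * (C / (1 + |r|) ^ 4) := by gcongr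
      _ = C * (|2 * Real.pi * r| ^ (-(s - 1)) * ((1 + |r|) ^ 4)⁻¹) := by
          rw [div_eq_mul_inv]; ring
  · intro r
    simp only [dam]
    exact continuous_const.mul (hc.comp (continuous_subtype_val.const_smul r))
  · intro w r
    simp only [dam]
    rw [mul_neg, abs_neg, neg_smul, hn, map_mul, map_mul, Complex.conj_ofReal]
    congr 2
    simp only [map_mul, Complex.conj_ofReal, Complex.conj_I, map_ofNat]
    push_cast
    ring

lemma ae_ne : ∀ᵐ z : S × ℝ ∂mu, z.2 ≠ 0 := by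
  have h : ∀ᵐ r : ℝ, r ≠ 0 := by
    rw [ae_iff]
    simp
  exact (Measure.quasiMeasurePreserving_snd (μ := sg) (ν := (volume : Measure ℝ))).ae h

lemma rpow_mul_rpow {x : ℝ} (hx : x ≠ 0) (a b : ℝ) : |x| ^ a * |x| ^ b = |x| ^ (a + b) :=
  (Real.rpow_add (abs_pos.2 hx) a b).symm



theorem sphere_norm (w : S) : ‖(w : E)‖ = 1 := by
  have := w.2
  rwa [mem_sphere_zero_iff_norm] at this

theorem int_of_bound {g : ℝ → ℂ} (hg : Continuous g) {C : ℝ} (h : ∀ r : ℝ, ‖g r‖ ≤ C / (1 + |r|) ^ 2) :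
    Integrable g volume := by
  have hC : 0 ≤ C := by
    have := (norm_nonneg _).trans (h 0)
    simpa using this
  refine Integrable.mono' (g := fun r : ℝ => C * (1 + r ^ 2)⁻¹)
    (integrable_inv_one_add_sq.const_mul C) hg.aestronglyMeasurable (Eventually.of_forall fun r => ?_)
  refine (h r).trans ?_
  rw [div_eq_mul_inv]
  refine mul_le_mul_of_nonneg_left ?_ hC
  apply inv_anti₀ (by positivity)
  have h1 : (1 + |r|) ^ 2 = 1 + 2 * |r| + r ^ 2 := by
    rw [← sq_abs r]
    ring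
  rw [h1]
  have := abs_nonneg r
  linarith

theorem ft_slice (hFSl : St_FSl) {φ : E → ℝ} (hφ : IsSch φ) (w : S) (r : ℝ) :
    𝓕 (fun p : ℝ => (Rad φ (w, p) : ℂ)) r = ft φ (r • (w : E)) := by
  rw [Real.fourier_real_eq_integral_exp_smul]
  have h := hFSl φ hφ w r
  have h1 : ∀ p : ℝ, Complex.exp (((-2 * Real.pi * p * r : ℝ) : ℂ) * Complex.I) • (Rad φ (w, p) : ℂ) =
      (Rad φ (w, p) : ℂ) * Complex.exp (-2 * Real.pi * Complex.I * r * p) := by
    intro p
    rw [smul_eq_mul, mul_comm]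
    congr 2
    push_cast
    ring
  rw [integral_congr_ae (Eventually.of_forall h1), h]
  unfold ft
  refine integral_congr_ae (Eventually.of_forall fun x => ?_)
  simp only
  rw [real_inner_smul_right]
  congr 2
  push_cast
  ring

theorem rad_props (hRadS : St_RadS) {φ : E → ℝ} (hφ : IsSch φ) (w : S) :
    Continuous (fun p : ℝ => (Rad φ (w, p) : ℂ)) ∧ Integrable (fun p : ℝ => (Rad φ (w, p) : ℂ)) volume ∧
    Continuous (fun p : ℝ => (dRad φ (w, p) : ℂ)) ∧ Integrable (fun p : ℝ => (dRad φ (w, p) : ℂ)) volume ∧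
    ∀ p : ℝ, HasDerivAt (fun p : ℝ => (Rad φ (w, p) : ℂ)) (dRad φ (w, p) : ℂ) p := by
  obtain ⟨hc1, hc2, ⟨C, hC⟩, hd, -⟩ := hRadS φ hφ
  have c1 : Continuous (fun p : ℝ => (Rad φ (w, p) : ℂ)) :=
    Complex.continuous_ofReal.comp (hc1.comp (by fun_prop))
  have c2 : Continuous (fun p : ℝ => (dRad φ (w, p) : ℂ)) :=
    Complex.continuous_ofReal.comp (hc2.comp (by fun_prop))
  refine ⟨c1, ?_, c2, ?_, fun p => (hd w p).1.ofReal_comp⟩
  · refine Integrable.mono' (g := fun p : ℝ => C * (1 + p ^ 2)⁻¹)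
      (integrable_inv_one_add_sq.const_mul C) c1.aestronglyMeasurable (Eventually.of_forall fun p => ?_)
    rw [Complex.norm_real, Real.norm_eq_abs]
    have h1 := (hC (w, p)).1
    rw [div_eq_mul_inv] at h1
    exact h1
  · refine Integrable.mono' (g := fun p : ℝ => C * (1 + p ^ 2)⁻¹)
      (integrable_inv_one_add_sq.const_mul C) c2.aestronglyMeasurable (Eventually.of_forall fun p => ?_)
    rw [Complex.norm_real, Real.norm_eq_abs]
    have h1 := (hC (w, p)).2
    rw [div_eq_mul_inv] at h1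
    exact h1

theorem inv_eq {f : ℝ → ℂ} (hf : Continuous f) (hi : Integrable f volume) (hF : Integrable (𝓕 f) volume) (p : ℝ) :
    ∫ r : ℝ, 𝓕 f r * Complex.exp (2 * Real.pi * Complex.I * ((r * p : ℝ) : ℂ)) = f p := by
  have h := congrFun (hf.fourierInv_fourier_eq hi hF) p
  rw [Real.fourierInv_eq'] at h
  rw [← h]
  refine integral_congr_ae (Eventually.of_forall fun r => ?_)
  simp only [smul_eq_mul]
  rw [mul_comm]
  congr 2
  have h2 : (inner ℝ r p : ℝ) = r * p := by
    simp [mul_comm]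
  rw [h2]
  push_cast
  ring



theorem J0F_zero (h1 : St_Ft) (h2 : St_RadS) (h3 : St_FSl) {φ : E → ℝ}
    (hφ : IsSch φ) : J0F 0 φ = Rad φ := by
  funext z
  obtain ⟨w, p⟩ := z
  obtain ⟨c1, i1, -, -, -⟩ := rad_props h2 hφ w
  obtain ⟨fc, fb, -⟩ := h1.2 φ hφ
  obtain ⟨C, hC⟩ := fb 2
  have hF : 𝓕 (fun p : ℝ => (Rad φ (w, p) : ℂ)) = fun r : ℝ => ft φ (r • (w : E)) :=
    funext fun r => ft_slice h3 hφ w r
  have hFi : Integrable (𝓕 (fun p : ℝ => (Rad φ (w, p) : ℂ))) volume := by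
    rw [hF]
    refine int_of_bound (C := C) (fc.comp (by fun_prop)) fun r => ?_
    have := hC (r • (w : E))
    rwa [norm_smul, sphere_norm, mul_one, Real.norm_eq_abs] at this
  have h := inv_eq c1 i1 hFi p
  rw [hF] at h
  unfold J0F
  simp only [neg_zero, Real.rpow_zero, Complex.ofReal_one, one_mul]
  rw [h, Complex.ofReal_re]

theorem J1F_zero (h1 : St_Ft) (h2 : St_RadS) (h3 : St_FSl) {φ : E → ℝ}
    (hφ : IsSch φ) : J1F 0 φ = dRad φ := by
  funext z
  obtain ⟨w, p⟩ := z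
  obtain ⟨c1, i1, c2, i2, hd⟩ := rad_props h2 hφ w
  obtain ⟨fc, fb, -⟩ := h1.2 φ hφ
  obtain ⟨C, hC⟩ := fb 3
  have hder : deriv (fun p : ℝ => (Rad φ (w, p) : ℂ)) = fun p : ℝ => (dRad φ (w, p) : ℂ) :=
    funext fun p => (hd p).deriv
  have hF : 𝓕 (fun p : ℝ => (dRad φ (w, p) : ℂ)) =
      fun r : ℝ => (2 * Real.pi * Complex.I * (r : ℂ)) * ft φ (r • (w : E)) := by
    rw [← hder, Real.fourier_deriv i1 (fun p => (hd p).differentiableAt) (by rw [hder]; exact i2)]
    funext r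
    rw [ft_slice h3 hφ w r, smul_eq_mul]
  have hFi : Integrable (𝓕 (fun p : ℝ => (dRad φ (w, p) : ℂ))) volume := by
    rw [hF]
    refine int_of_bound (C := 2 * Real.pi * C)
      ((by fun_prop : Continuous fun r : ℝ => (2 * Real.pi * Complex.I * (r : ℂ))).mul (fc.comp (by fun_prop)))
      fun r => ?_
    have h4 := hC (r • (w : E))
    rw [norm_smul, sphere_norm, mul_one, Real.norm_eq_abs] at h4
    have h5 : ‖(2 * Real.pi * Complex.I * (r : ℂ))‖ = 2 * Real.pi * |r| := by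
      rw [norm_mul, norm_mul, norm_mul, Complex.norm_I, Complex.norm_real, Complex.norm_real, Real.norm_eq_abs,
        Real.norm_eq_abs, abs_of_pos Real.pi_pos]
      simp
    rw [norm_mul, h5]
    have hr := abs_nonneg r
    have hpos : 0 < (1 + |r|) := by linarith
    have hC0 : 0 ≤ C := by
      have := (norm_nonneg _).trans h4
      by_contra hneg
      push Not at hneg
      have h6 : C / (1 + |r|) ^ 3 < 0 := div_neg_of_neg_of_pos hneg (by positivity)
      linarith
    calc 2 * Real.pi * |r| * ‖ft φ (r • (w : E))‖ ≤ 2 * Real.pi * |r| * (C / (1 + |r|) ^ 3) :=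
          mul_le_mul_of_nonneg_left h4 (by positivity)
      _ ≤ 2 * Real.pi * (1 + |r|) * (C / (1 + |r|) ^ 3) := by
          apply mul_le_mul_of_nonneg_right _ (by positivity)
          have := Real.pi_pos
          nlinarith
      _ = 2 * Real.pi * C / (1 + |r|) ^ 2 := by
          field_simp
  have h := inv_eq c2 i2 hFi p
  rw [hF] at h
  unfold J1F
  simp only [neg_zero, Real.rpow_zero, Complex.ofReal_one, one_mul]
  rw [h, Complex.ofReal_re]

/-- Amplitude of `JK s h`. -/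
noncomputable def jm (s : ℝ) (h : S × ℝ → ℝ) (z : S × ℝ) : ℂ :=
  ((|2 * Real.pi * z.2| ^ (-s) : ℝ) : ℂ) * ftp h z.1 z.2

lemma JF_eq (s : ℝ) (h : S × ℝ → ℝ) : JF s h = RF (jm s h) := rfl

/-! ### Rules for `ftp` -/

lemma ftp_eq (h : S × ℝ → ℝ) (w : S) (r : ℝ) :
    ftp h w r = (𝓕 (fun p : ℝ => (h (w, p) : ℂ)) : ℝ → ℂ) r := by
  rw [Real.fourier_real_eq_integral_exp_smul, ftp]
  refine integral_congr_ae (Eventually.of_forall fun p => ?_)
  simp only [smul_eq_mul]
  rw [mul_comm]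
  congr 2
  push_cast
  ring

lemma ftp_neg (h : S × ℝ → ℝ) (w : S) (r : ℝ) : ftp h w (-r) = (starRingEnd ℂ) (ftp h w r) := by
  unfold ftp
  rw [← integral_conj]
  refine integral_congr_ae (Eventually.of_forall fun p => ?_)
  simp only [map_mul, ← Complex.exp_conj, Complex.conj_ofReal, Complex.conj_I, map_ofNat, map_neg]
  congr 2
  push_cast
  ring

lemma ftp_shift (h : S × ℝ → ℝ) (c : S → ℝ) (w : S) (r : ℝ) :
    ftp (fun z => h (z.1, z.2 - c z.1)) w r =
      Complex.exp (-2 * Real.pi * Complex.I * ((r * c w : ℝ) : ℂ)) * ftp h w r := by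
  unfold ftp
  rw [← integral_const_mul, ← integral_sub_right_eq_self (fun p : ℝ =>
    Complex.exp (-2 * Real.pi * Complex.I * ((r * c w : ℝ) : ℂ)) *
      ((h (w, p) : ℂ) * Complex.exp (-2 * Real.pi * Complex.I * ((r * p : ℝ) : ℂ)))) (c w)]
  refine integral_congr_ae (Eventually.of_forall fun p => ?_)
  simp only
  have e : Complex.exp (-2 * Real.pi * Complex.I * ((r * p : ℝ) : ℂ)) =
      Complex.exp (-2 * Real.pi * Complex.I * ((r * c w : ℝ) : ℂ)) *
        Complex.exp (-2 * Real.pi * Complex.I * ((r * (p - c w) : ℝ) : ℂ)) := by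
    rw [← Complex.exp_add]
    congr 1
    push_cast
    ring
  rw [e]
  ring

lemma JF_shift (s : ℝ) (h : S × ℝ → ℝ) (c : S → ℝ) (z : S × ℝ) :
    JF s (fun z => h (z.1, z.2 - c z.1)) z = JF s h (z.1, z.2 - c z.1) := by
  unfold JF
  congr 1
  refine integral_congr_ae (Eventually.of_forall fun r => ?_)
  simp only [ftp_shift]
  have e : Complex.exp (2 * Real.pi * Complex.I * ((r * (z.2 - c z.1) : ℝ) : ℂ)) =
      Complex.exp (-2 * Real.pi * Complex.I * ((r * c z.1 : ℝ) : ℂ)) *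
        Complex.exp (2 * Real.pi * Complex.I * ((r * z.2 : ℝ) : ℂ)) := by
    rw [← Complex.exp_add]
    congr 1
    push_cast
    ring
  rw [e]
  ring

lemma ftp_rev (h : S × ℝ → ℝ) (w : S) (r : ℝ) :
    ftp (fun z => h (-z.1, -z.2)) w r = ftp h (-w) (-r) := by
  unfold ftp
  rw [← integral_neg_eq_self (fun p : ℝ => (h (-w, p) : ℂ) *
    Complex.exp (-2 * Real.pi * Complex.I * ((-r * p : ℝ) : ℂ))) volume]
  refine integral_congr_ae (Eventually.of_forall fun p => ?_)
  simp only [neg_mul_neg]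

lemma JF_rev (s : ℝ) (h : S × ℝ → ℝ) (z : S × ℝ) :
    JF s (fun z => h (-z.1, -z.2)) z = JF s h (-z.1, -z.2) := by
  unfold JF
  congr 1
  rw [← integral_neg_eq_self (fun r : ℝ => ((|2 * Real.pi * r| ^ (-s) : ℝ) : ℂ) *
    ftp h (-z.1, -z.2).1 r * Complex.exp (2 * Real.pi * Complex.I * ((r * (-z.1, -z.2).2 : ℝ) : ℂ))) volume]
  refine integral_congr_ae (Eventually.of_forall fun r => ?_)
  simp only [ftp_rev, mul_neg, abs_neg]
  rw [neg_mul, neg_neg]

lemma ftp_smul (h : S × ℝ → ℝ) (c : ℝ) (w : S) (r : ℝ) :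
    ftp (fun z => c * h z) w r = (c : ℂ) * ftp h w r := by
  unfold ftp
  rw [← integral_const_mul]
  refine integral_congr_ae (Eventually.of_forall fun p => ?_)
  simp only
  push_cast
  ring

lemma JF_smul (s : ℝ) (h : S × ℝ → ℝ) (c : ℝ) (z : S × ℝ) :
    JF s (fun z => c * h z) z = c * JF s h z := by
  unfold JF
  rw [← Complex.re_ofReal_mul, ← integral_const_mul]
  congr 1
  refine integral_congr_ae (Eventually.of_forall fun r => ?_)
  simp only [ftp_smul]
  ring

/-! ### Smooth functions on `E × ℝ` with compact support in the second variable -/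

/-- Smooth, compactly supported in the second variable. -/
def Cp (g : E × ℝ → ℝ) : Prop :=
  ContDiff ℝ ((⊤ : ℕ∞) : WithTop ℕ∞) g ∧ ∃ M : ℝ, ∀ x p, M ≤ |p| → g (x, p) = 0

/-- Restriction to `S × ℝ`. -/
def rs (g : E × ℝ → ℝ) (z : S × ℝ) : ℝ := g ((z.1 : E), z.2)

/-- Derivative in the second variable. -/
noncomputable def Dg (g : E × ℝ → ℝ) (q : E × ℝ) : ℝ := fderiv ℝ g q (0, 1)

variable {g : E × ℝ → ℝ}

lemma Cp.D (h : Cp g) : Cp (Dg g) := by
  obtain ⟨hg, M, hM⟩ := h
  refine ⟨(hg.fderiv_right (m := ((⊤ : ℕ∞) : WithTop ℕ∞)) (by norm_cast)).clm_apply contDiff_const,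
    M + 1, fun x p hp => ?_⟩
  have h1 : g =ᶠ[𝓝 (x, p)] fun _ => 0 := by
    have h2 : {q : E × ℝ | M < |q.2|} ∈ 𝓝 (x, p) := by
      refine (isOpen_lt continuous_const (continuous_abs.comp continuous_snd)).mem_nhds ?_
      show M < |p|
      linarith
    filter_upwards [h2] with q hq
    exact hM q.1 q.2 (le_of_lt hq)
  show fderiv ℝ g (x, p) (0, 1) = 0
  rw [h1.fderiv_eq]
  simp

lemma Cp.der (h : Cp g) (x : E) (p : ℝ) : HasDerivAt (fun p => g (x, p)) (Dg g (x, p)) p := by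
  have h2 : HasFDerivAt g (fderiv ℝ g (x, p)) (x, p) :=
    ((h.1.differentiable (by simp)) _).hasFDerivAt
  have h3 : HasDerivAt (fun p : ℝ => (x, p)) ((0 : E), (1 : ℝ)) p :=
    (hasDerivAt_const p x).prodMk (hasDerivAt_id p)
  exact h2.comp_hasDerivAt p h3

lemma Cp.cont (h : Cp g) : Continuous (rs g) :=
  h.1.continuous.comp ((continuous_subtype_val.comp continuous_fst).prodMk continuous_snd)

lemma Cp.bd (h : Cp g) : ∃ C M : ℝ, ∀ (w : S) (p : ℝ),
    |rs g (w, p)| ≤ (Icc (-M) M).indicator (fun _ => C) p := by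
  have hc := h.cont
  obtain ⟨hg, M, hM⟩ := h
  have hk : IsCompact ((univ : Set S) ×ˢ Icc (-M) M) := isCompact_univ.prod isCompact_Icc
  obtain ⟨C, hC⟩ := hk.exists_bound_of_continuousOn hc.continuousOn
  refine ⟨C, M, fun w p => ?_⟩
  by_cases hp : p ∈ Icc (-M) M
  · rw [indicator_of_mem hp]
    exact hC (w, p) ⟨mem_univ _, hp⟩
  · rw [indicator_of_notMem hp]
    have h1 : M ≤ |p| := by
      by_contra h2
      push Not at h2
      exact hp ⟨(abs_lt.1 h2).1.le, (abs_lt.1 h2).2.le⟩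
    have h2 : rs g (w, p) = 0 := hM _ _ h1
    rw [h2, abs_zero]

lemma ind_int (C M : ℝ) : Integrable ((Icc (-M) M).indicator (fun _ : ℝ => C)) volume :=
  (integrable_indicator_iff measurableSet_Icc).2 (integrableOn_const (by simp))

lemma Cp.int (h : Cp g) (w : S) : Integrable (fun p : ℝ => (rs g (w, p) : ℂ)) volume := by
  obtain ⟨C, M, hb⟩ := h.bd
  refine (ind_int C M).mono' ?_ (Eventually.of_forall fun p => ?_)
  · exact (Complex.continuous_ofReal.comp (h.cont.comp (by fun_prop))).aestronglyMeasurable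
  · rw [Complex.norm_real, Real.norm_eq_abs]
    exact hb w p

lemma Cp.fcont (h : Cp g) : Continuous fun z : S × ℝ => ftp (rs g) z.1 z.2 := by
  obtain ⟨C, M, hb⟩ := h.bd
  unfold ftp
  refine continuous_of_dominated (bound := (Icc (-M) M).indicator (fun _ => C)) ?_ ?_ (ind_int C M) ?_
  · intro z
    exact ((Complex.continuous_ofReal.comp (h.cont.comp (by fun_prop))).mul
      (by fun_prop)).aestronglyMeasurable
  · intro z
    refine Eventually.of_forall fun p => ?_
    rw [norm_mul, norm_char', mul_one, Complex.norm_real, Real.norm_eq_abs]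
    exact hb z.1 p
  · refine Eventually.of_forall fun p => ?_
    exact (Complex.continuous_ofReal.comp (h.cont.comp (by fun_prop))).mul (by fun_prop)

lemma Cp.fD (h : Cp g) (w : S) (r : ℝ) :
    ftp (rs (Dg g)) w r = (2 * Real.pi * Complex.I * (r : ℂ)) * ftp (rs g) w r := by
  have hd : ∀ p : ℝ, HasDerivAt (fun p : ℝ => (rs g (w, p) : ℂ)) (rs (Dg g) (w, p) : ℂ) p :=
    fun p => (h.der (w : E) p).ofReal_comp
  have hder : deriv (fun p : ℝ => (rs g (w, p) : ℂ)) = fun p : ℝ => (rs (Dg g) (w, p) : ℂ) :=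
    funext fun p => (hd p).deriv
  rw [ftp_eq, ftp_eq, ← hder, Real.fourier_deriv (h.int w) (fun p => (hd p).differentiableAt)
    (by rw [hder]; exact h.D.int w)]
  simp only [smul_eq_mul]

lemma Cp.pow (n : ℕ) : ∀ {g : E × ℝ → ℝ}, Cp g → ∃ C : ℝ, ∀ (w : S) (r : ℝ),
    |r| ^ n * ‖ftp (rs g) w r‖ ≤ C := by
  induction n with
  | zero =>
    intro g h
    obtain ⟨C, M, hb⟩ := h.bd
    refine ⟨∫ p, (Icc (-M) M).indicator (fun _ => C) p, fun w r => ?_⟩
    rw [pow_zero, one_mul]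
    refine norm_integral_le_of_norm_le (ind_int C M) (Eventually.of_forall fun p => ?_)
    rw [norm_mul, norm_char', mul_one, Complex.norm_real, Real.norm_eq_abs]
    exact hb w p
  | succ n ih =>
    intro g h
    obtain ⟨C, hC⟩ := ih h.D
    refine ⟨C / (2 * Real.pi), fun w r => ?_⟩
    have h1 := hC w r
    rw [h.fD, norm_mul] at h1
    have h5 : ‖2 * (Real.pi : ℂ) * Complex.I * (r : ℂ)‖ = 2 * Real.pi * |r| := by
      simp [abs_of_pos Real.pi_pos]
    rw [h5] at h1
    rw [le_div_iff₀ (by positivity)]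
    calc |r| ^ (n + 1) * ‖ftp (rs g) w r‖ * (2 * Real.pi) =
          |r| ^ n * (2 * Real.pi * |r| * ‖ftp (rs g) w r‖) := by ring
      _ ≤ C := h1

lemma Cp.dec (h : Cp g) : ∃ C : ℝ, ∀ (w : S) (r : ℝ), ‖ftp (rs g) w r‖ ≤ C / (1 + |r|) ^ 4 := by
  obtain ⟨C0, h0⟩ := Cp.pow 0 h
  obtain ⟨C4, h4⟩ := Cp.pow 4 h
  refine ⟨8 * (C0 + C4), fun w r => ?_⟩
  have a0 := h0 w r
  have a4 := h4 w r
  rw [pow_zero, one_mul] at a0
  rw [le_div_iff₀ (by positivity)]
  have hr := abs_nonneg r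
  have e : (1 + |r|) ^ 4 ≤ 8 * (1 + |r| ^ 4) := by
    nlinarith [sq_nonneg (|r| - 1), sq_nonneg (|r| ^ 2 - 1), sq_nonneg (|r| ^ 2 - |r|), sq_nonneg (|r| + 1),
      mul_nonneg hr (sq_nonneg (|r| - 1)), mul_nonneg (sq_nonneg |r|) (sq_nonneg (|r| - 1))]
  calc ‖ftp (rs g) w r‖ * (1 + |r|) ^ 4 ≤ ‖ftp (rs g) w r‖ * (8 * (1 + |r| ^ 4)) := by gcongr
    _ = 8 * (‖ftp (rs g) w r‖ + |r| ^ 4 * ‖ftp (rs g) w r‖) := by ring
    _ ≤ 8 * (C0 + C4) := by gcongr

lemma Cp.good (h : Cp g) {s : ℝ} (hs : |s| < 1 / 2) : ∃ a, Good (jm s (rs g)) a := by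
  obtain ⟨C, hC⟩ := h.dec
  have hc := h.fcont
  have hs1 := abs_lt.1 hs
  refine ⟨dom s C, ?_, ?_, dom_int (by linarith [hs1.1]) (by linarith [hs1.2]) C,
    dom_sq (by linarith [hs1.1]) (by linarith [hs1.2]) C, ?_, ?_⟩
  · unfold jm
    exact Measurable.mul (by fun_prop) hc.measurable
  · intro w r
    have h1 := hC w r
    have h2 : 0 ≤ |2 * Real.pi * r| ^ (-s) := Real.rpow_nonneg (abs_nonneg _) _
    simp only [jm, dom]
    rw [norm_mul, Complex.norm_real, Real.norm_eq_abs, abs_of_nonneg h2]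
    have h3 : (1 + |r|) ^ (-(4 : ℝ)) = ((1 + |r|) ^ 4)⁻¹ := by
      rw [Real.rpow_neg (by positivity)]
      norm_cast
    rw [h3]
    calc |2 * Real.pi * r| ^ (-s) * ‖ftp (rs g) w r‖ ≤ |2 * Real.pi * r| ^ (-s) * (C / (1 + |r|) ^ 4) := by
          gcongr
      _ = C * (|2 * Real.pi * r| ^ (-s) * ((1 + |r|) ^ 4)⁻¹) := by
          rw [div_eq_mul_inv]; ring
  · intro r
    simp only [jm]
    exact continuous_const.mul (hc.comp (by fun_prop : Continuous fun w : S => (w, r)))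
  · intro w r
    simp only [jm]
    rw [mul_neg, abs_neg, ftp_neg, map_mul, Complex.conj_ofReal]

/-- Fourier inversion. -/
lemma Cp.inv (h : Cp g) : JF 0 (rs g) = rs g := by
  funext z
  obtain ⟨w, p⟩ := z
  obtain ⟨a, ha⟩ := h.good (s := 0) (by norm_num)
  have c1 : Continuous (fun p : ℝ => (rs g (w, p) : ℂ)) :=
    Complex.continuous_ofReal.comp (h.cont.comp (by fun_prop))
  have hF : 𝓕 (fun p : ℝ => (rs g (w, p) : ℂ)) = fun r : ℝ => ftp (rs g) w r :=
    funext fun r => (ftp_eq (rs g) w r).symm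
  have hFi : Integrable (𝓕 (fun p : ℝ => (rs g (w, p) : ℂ))) volume := by
    rw [hF]
    have := ha.int1 w
    refine this.congr (Eventually.of_forall fun r => ?_)
    simp [jm]
  have h1 := inv_eq c1 (h.int w) hFi p
  rw [hF] at h1
  unfold JF
  simp only [neg_zero, Real.rpow_zero, Complex.ofReal_one, one_mul]
  rw [h1, Complex.ofReal_re]

lemma JF_add (s : ℝ) (hs : |s| < 1 / 2) {g g' : E × ℝ → ℝ} (h : Cp g) (h' : Cp g') (z : S × ℝ) :
    JF s (fun z => rs g z + rs g' z) z = JF s (rs g) z + JF s (rs g') z := by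
  obtain ⟨a, ha⟩ := h.good hs
  obtain ⟨a', ha'⟩ := h'.good hs
  have i1 : Integrable (fun r : ℝ => jm s (rs g) (z.1, r) *
      Complex.exp (2 * Real.pi * Complex.I * ((r * z.2 : ℝ) : ℂ))) volume := by
    refine (ha.int1 z.1).mono ?_ (Eventually.of_forall fun r => ?_)
    · exact (ha.meas1 z.1).aestronglyMeasurable.mul (Continuous.aestronglyMeasurable (by fun_prop))
    · rw [norm_mul, norm_char, mul_one]
  have i2 : Integrable (fun r : ℝ => jm s (rs g') (z.1, r) *
      Complex.exp (2 * Real.pi * Complex.I * ((r * z.2 : ℝ) : ℂ))) volume := by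
    refine (ha'.int1 z.1).mono ?_ (Eventually.of_forall fun r => ?_)
    · exact (ha'.meas1 z.1).aestronglyMeasurable.mul (Continuous.aestronglyMeasurable (by fun_prop))
    · rw [norm_mul, norm_char, mul_one]
  have e : ∀ r, ftp (fun z => rs g z + rs g' z) z.1 r = ftp (rs g) z.1 r + ftp (rs g') z.1 r := by
    intro r
    unfold ftp
    rw [← integral_add]
    · refine integral_congr_ae (Eventually.of_forall fun p => ?_)
      simp only
      push_cast
      ring
    · refine (h.int z.1).mono ?_ (Eventually.of_forall fun p => ?_)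
      · exact (h.int z.1).1.mul (Continuous.aestronglyMeasurable (by fun_prop))
      · rw [norm_mul, norm_char', mul_one]
    · refine (h'.int z.1).mono ?_ (Eventually.of_forall fun p => ?_)
      · exact (h'.int z.1).1.mul (Continuous.aestronglyMeasurable (by fun_prop))
      · rw [norm_mul, norm_char', mul_one]
  unfold JF
  rw [← Complex.add_re]
  congr 1
  refine Eq.trans ?_ (integral_add i1 i2)
  refine integral_congr_ae (Eventually.of_forall fun r => ?_)
  simp only
  rw [e]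
  ring

/-! ### States -/

lemma toK_add {f f' : S × ℝ → ℝ} (h : MemLp f 2 mu) (h' : MemLp f' 2 mu) :
    toK (fun z => f z + f' z) = toK f + toK f' := by
  apply Lp.ext
  filter_upwards [toK_coe (h.add h'), toK_coe h, toK_coe h',
    Lp.coeFn_add (toK f) (toK f')] with z h1 h2 h3 h4
  rw [h4, Pi.add_apply, h2, h3]
  exact h1

lemma toK_smul {f : S × ℝ → ℝ} (h : MemLp f 2 mu) (c : ℝ) :
    toK (fun z => c * f z) = c • toK f := by
  apply Lp.ext
  filter_upwards [toK_coe (h.const_mul c), toK_coe h,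
    Lp.coeFn_smul c (toK f)] with z h1 h2 h3
  rw [h3, Pi.smul_apply, h2, smul_eq_mul]
  exact h1

lemma toK_comp {f : S × ℝ → ℝ} (h : MemLp f 2 mu) {T : S × ℝ → S × ℝ} (hT : MeasurePreserving T mu mu)
    {k : K} (hk : (k : S × ℝ → ℝ) =ᵐ[mu] fun z => (toK f : S × ℝ → ℝ) (T z)) :
    k = toK (fun z => f (T z)) := by
  apply Lp.ext
  have h1 := hT.quasiMeasurePreserving.ae (toK_coe h)
  filter_upwards [hk, h1, toK_coe (h.comp_measurePreserving hT)] with z h2 h3 h4
  rw [h2, h3]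
  exact h4.symm

lemma tau_zero (k : K) : tau 0 k = k := by
  apply Lp.ext
  filter_upwards [tau_coe 0 k] with z h1
  rw [h1]
  simp

lemma pair0 {A B : S × ℝ → ℂ} {a b : ℝ → ℝ} (h : Good A a) (h' : Good B b) :
    inner ℝ (toK (RF A)) (toK (RF B)) = (∫ z : S × ℝ, A z * (starRingEnd ℂ) (B z) ∂mu).re := by
  have h1 := pair h h' 0
  rw [tau_zero] at h1
  rw [h1]
  congr 1
  refine integral_congr_ae (Eventually.of_forall fun z => ?_)
  simp

lemma inner_toK {f f' : S × ℝ → ℝ} (h : MemLp f 2 mu) (h' : MemLp f' 2 mu) :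
    inner ℝ (toK f) (toK f') = ∫ z, f z * f' z ∂mu :=
  inner_K (toK_coe h) (toK_coe h')

end PJx

open PJx in
theorem thm_PJ (hFt : St_Ft) (hRadS : St_RadS) (hFSl : St_FSl) : St_PJ := by
  intro s hs
  have hs' : |-s| < 1 / 2 := by rwa [abs_neg]
  have h0 : |(0 : ℝ)| < 1 / 2 := by norm_num
  refine ⟨?_, ?_⟩
  · intro h hn
    obtain ⟨g, hg, hM, hh, -⟩ := hn
    have hg1 : Cp g := ⟨hg, hM⟩
    obtain rfl : h = rs g := funext hh
    obtain ⟨a, ha⟩ := hg1.good hs
    obtain ⟨b, hb⟩ := hg1.good h0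
    have m0 : MemLp (rs g) 2 mu := by
      have := hb.memLp_RF
      rwa [← JF_eq, hg1.inv] at this
    have m1 : MemLp (JF s (rs g)) 2 mu := ha.memLp_RF
    refine ⟨m0, m1, ?_, ?_, ?_, ?_, ?_, ?_, ?_⟩
    · unfold JK
      rw [hg1.inv]
    · intro t
      have e := toK_comp m1 (mp_shift (g := fun _ => t) measurable_const)
        (tau_coe t (toK (JF s (rs g))))
      unfold JK
      rw [e]
      congr 1
      funext z
      exact (JF_shift s (rs g) (fun _ => t) z).symm
    · intro y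
      have e := toK_comp m1 (mp_shift (g := fun w : S => inner ℝ y (w : E)) (by fun_prop))
        (sh_coe y (toK (JF s (rs g))))
      unfold JK
      rw [e]
      congr 1
      funext z
      exact (JF_shift s (rs g) (fun w : S => inner ℝ y (w : E)) z).symm
    · have e0 : (-(rev (toK (JF s (rs g)))) : K) =ᵐ[mu]
          fun z => (toK (JF s (rs g)) : S × ℝ → ℝ) (-z.1, -z.2) := by
        filter_upwards [Lp.coeFn_neg (rev (toK (JF s (rs g)))), rev_coe (toK (JF s (rs g)))] with z h1 h2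
        rw [h1, Pi.neg_apply, h2, neg_neg]
      have e := toK_comp m1 mp_rev e0
      unfold JK
      rw [← neg_eq_iff_eq_neg, e]
      congr 1
      funext z
      exact (JF_rev s (rs g) z).symm
    · intro c
      unfold JK
      rw [← toK_smul m1]
      congr 1
      funext z
      exact JF_smul s (rs g) c z
    · intro h' hn'
      obtain ⟨g', hg', hM', hh', -⟩ := hn'
      have hg1' : Cp g' := ⟨hg', hM'⟩
      obtain rfl : h' = rs g' := funext hh'
      obtain ⟨a1, ha1⟩ := hg1'.good hs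
      obtain ⟨a2, ha2⟩ := hg1'.good hs'
      obtain ⟨b1, hb1⟩ := hg1'.good h0
      have m0' : MemLp (rs g') 2 mu := by
        have := hb1.memLp_RF
        rwa [← JF_eq, hg1'.inv] at this
      have m1' : MemLp (JF s (rs g')) 2 mu := ha1.memLp_RF
      refine ⟨?_, ?_, ?_⟩
      · unfold JK
        rw [← toK_add m1 m1']
        congr 1
        funext z
        exact JF_add s hs hg1 hg1' z
      · have r1 : toK (rs g) = toK (RF (jm 0 (rs g))) := by rw [← JF_eq, hg1.inv]
        have r2 : toK (rs g') = toK (RF (jm 0 (rs g'))) := by rw [← JF_eq, hg1'.inv]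
        rw [← inner_toK m0 m0', r1, r2]
        unfold JK
        rw [JF_eq, JF_eq, pair0 ha ha2, pair0 hb hb1]
        congr 1
        refine integral_congr_ae ?_
        filter_upwards [ae_ne] with z hz
        have hx : 2 * Real.pi * z.2 ≠ 0 := mul_ne_zero Real.two_pi_pos.ne' hz
        simp only [jm, map_mul, Complex.conj_ofReal, neg_zero, Real.rpow_zero, Complex.ofReal_one, one_mul,
          neg_neg]
        have e : |2 * Real.pi * z.2| ^ (-s) * |2 * Real.pi * z.2| ^ s = 1 := by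
          rw [rpow_mul_rpow hx, neg_add_cancel, Real.rpow_zero]
        have e' : ((|2 * Real.pi * z.2| ^ (-s) : ℝ) : ℂ) * ((|2 * Real.pi * z.2| ^ s : ℝ) : ℂ) = 1 := by
          rw [← Complex.ofReal_mul, e, Complex.ofReal_one]
        linear_combination (ftp (rs g) z.1 z.2 * (starRingEnd ℂ) (ftp (rs g') z.1 z.2)) * e'
      · unfold JK
        rw [JF_eq, JF_eq, pair0 ha ha1]
        congr 1
        refine integral_congr_ae ?_
        filter_upwards [ae_ne] with z hz
        have hx : 2 * Real.pi * z.2 ≠ 0 := mul_ne_zero Real.two_pi_pos.ne' hz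
        simp only [jm, map_mul, Complex.conj_ofReal]
        have e : -2 * s = -s + -s := by ring
        rw [e, ← rpow_mul_rpow hx]
        push_cast
        ring
    · intro φ hφ
      have hs1 := abs_lt.1 hs
      obtain ⟨a1, ha1⟩ := am_good hFt (s := -s) (by linarith [hs1.1]) (by linarith [hs1.1]) hφ
      obtain ⟨b1, hb1⟩ := am_good hFt (s := 0) (by norm_num) (by norm_num) hφ
      obtain ⟨a2, ha2⟩ := dam_good hFt (s := -s) (by linarith [hs1.2]) (by linarith [hs1.1]) hφ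
      obtain ⟨b2, hb2⟩ := dam_good hFt (s := 0) (by norm_num) (by norm_num) hφ
      obtain ⟨a3, ha3⟩ := dam_good hFt (s := 1 + s) (by linarith [hs1.1]) (by linarith [hs1.2]) hφ
      obtain ⟨b3, hb3⟩ := dam_good hFt (s := 1) (by norm_num) (by norm_num) hφ
      obtain ⟨a4, ha4⟩ := am_good hFt (s := s - 1) (by linarith [hs1.1]) (by linarith [hs1.2]) hφ
      obtain ⟨b4, hb4⟩ := am_good hFt (s := -1) (by norm_num) (by norm_num) hφ
      obtain ⟨c, hc⟩ := hg1.good hs'
      have n1 : MemLp (Rad φ) 2 mu := by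
        have := hb1.memLp_RF
        rwa [← J0F_eq, J0F_zero hFt hRadS hFSl hφ] at this
      have n2 : MemLp (dRad φ) 2 mu := by
        have := hb2.memLp_RF
        rwa [← J1F_eq, J1F_zero hFt hRadS hFSl hφ] at this
      have n3 : MemLp (J1F 1 φ) 2 mu := hb3.memLp_RF
      have n4 : MemLp (J0F (-1) φ) 2 mu := hb4.memLp_RF
      have r1 : toK (rs g) = toK (RF (jm 0 (rs g))) := by rw [← JF_eq, hg1.inv]
      have ex : ∀ (α β γ : ℝ), α + β = γ → ∀ z : S × ℝ, z.2 ≠ 0 →
          ((|2 * Real.pi * z.2| ^ α : ℝ) : ℂ) * ((|2 * Real.pi * z.2| ^ β : ℝ) : ℂ) =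
            ((|2 * Real.pi * z.2| ^ γ : ℝ) : ℂ) := by
        intro α β γ hαβ z hz
        have hx : 2 * Real.pi * z.2 ≠ 0 := mul_ne_zero Real.two_pi_pos.ne' hz
        rw [← Complex.ofReal_mul, rpow_mul_rpow hx, hαβ]
      refine ⟨?_, ?_, ?_, ?_⟩
      · have r2 : toK (Rad φ) = toK (RF (am 0 φ)) := by
          rw [← J0F_eq, J0F_zero hFt hRadS hFSl hφ]
        rw [← inner_toK m0 n1, r1, r2]
        unfold JK J0
        rw [JF_eq, J0F_eq, pair0 ha ha1, pair0 hb hb1]
        congr 1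
        refine integral_congr_ae ?_
        filter_upwards [ae_ne] with z hz
        have e := ex (-s) s 0 (by ring) z hz
        simp only [jm, am, map_mul, Complex.conj_ofReal, neg_zero, Real.rpow_zero, Complex.ofReal_one,
          one_mul, neg_neg] at e ⊢
        linear_combination (ftp (rs g) z.1 z.2 * (starRingEnd ℂ) (ft φ (z.2 • (z.1 : E)))) * e
      · have r2 : toK (dRad φ) = toK (RF (dam 0 φ)) := by
          rw [← J1F_eq, J1F_zero hFt hRadS hFSl hφ]
        rw [← inner_toK m0 n2, r1, r2]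
        unfold JK J1
        rw [JF_eq, J1F_eq, pair0 ha ha2, pair0 hb hb2]
        congr 1
        refine integral_congr_ae ?_
        filter_upwards [ae_ne] with z hz
        have e := ex (-s) s 0 (by ring) z hz
        simp only [jm, dam, map_mul, Complex.conj_ofReal, neg_zero, Real.rpow_zero, Complex.ofReal_one,
          one_mul, neg_neg] at e ⊢
        linear_combination (ftp (rs g) z.1 z.2 * (((starRingEnd ℂ) 2 * Real.pi * (starRingEnd ℂ) Complex.I *
          z.2) * (starRingEnd ℂ) (ft φ (z.2 • (z.1 : E))))) * e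
      · have r2 : toK (J1F 1 φ) = toK (RF (dam 1 φ)) := rfl
        rw [← inner_toK m0 n3, r1, r2]
        unfold JK Rs J1
        rw [JF_eq, J1F_eq, inner_neg_right, pair0 hc ha3, pair0 hb hb3]
        congr 2
        refine integral_congr_ae ?_
        filter_upwards [ae_ne] with z hz
        have e := ex s (-(1 + s)) (-1) (by ring) z hz
        simp only [jm, dam, map_mul, Complex.conj_ofReal, neg_zero, Real.rpow_zero, Complex.ofReal_one,
          one_mul, neg_neg] at e ⊢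
        linear_combination (ftp (rs g) z.1 z.2 * (((starRingEnd ℂ) 2 * Real.pi * (starRingEnd ℂ) Complex.I *
          z.2) * (starRingEnd ℂ) (ft φ (z.2 • (z.1 : E))))) * e
      · have r2 : toK (J0F (-1) φ) = toK (RF (am (-1) φ)) := rfl
        rw [← inner_toK m0 n4, r1, r2]
        unfold JK dRs J0
        rw [JF_eq, J0F_eq, pair0 hc ha4, pair0 hb hb4]
        congr 1
        refine integral_congr_ae ?_
        filter_upwards [ae_ne] with z hz
        have e := ex s (-(s - 1)) 1 (by ring) z hz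
        simp only [jm, am, map_mul, Complex.conj_ofReal, neg_zero, Real.rpow_zero, Complex.ofReal_one,
          one_mul, neg_neg] at e ⊢
        linear_combination (ftp (rs g) z.1 z.2 * (starRingEnd ℂ) (ft φ (z.2 • (z.1 : E)))) * e
  · intro φ hφ
    have hφ' : IsSch φ := hFt.1 φ hφ
    have e1 : ∀ (w : S) (r : ℝ), ftp (Rad φ) w r = ft φ (r • (w : E)) := fun w r => by
      rw [ftp_eq, ft_slice hFSl hφ' w r]
    have e2 : ∀ (w : S) (r : ℝ), ftp (dRad φ) w r =
        (2 * Real.pi * Complex.I * (r : ℂ)) * ft φ (r • (w : E)) := fun w r => by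
      obtain ⟨c1, i1, c2, i2, hd⟩ := rad_props hRadS hφ' w
      have hder : deriv (fun p : ℝ => (Rad φ (w, p) : ℂ)) = fun p : ℝ => (dRad φ (w, p) : ℂ) :=
        funext fun p => (hd p).deriv
      rw [ftp_eq, ← hder, Real.fourier_deriv i1 (fun p => (hd p).differentiableAt) (by rw [hder]; exact i2)]
      simp only [smul_eq_mul]
      rw [ft_slice hFSl hφ' w r]
    refine ⟨?_, ?_⟩
    · unfold JK J0
      congr 1
      funext z
      unfold JF J0F
      simp only [e1]
    · unfold JK J1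
      congr 1
      funext z
      unfold JF J1F
      simp only [e2, mul_assoc]

end Pool.Agent.QWF
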