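import Pool.Agent.QWF.Defs
import Pool.Agent.QWP.StA2

set_option autoImplicit false

/-!
# QWF, block A: linear theory in `ℝ⁴`, factor `|∂_p|^{-s}` and Hilbert transform

Every `St_X` is to be proved as `theorem thm_X : St_X` (possibly with other statements of QWF as hypotheses) in
`Pool/Agent/QWF/X.lean`. Where the docstring says `as QWP.X` or `as QWE.X`, copy that file and adapt (`Fin 5` becomes `Fin 4`, namespace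
`Pool.Agent.QWF`, other constants and exponents). Design: `/team-store/R4_plan.md`. Reminder: `Rs s φ = - J1 (1+s) φ` has the `p`-Fourier transform
`(- i sgn r) |2πr|^{-s} φ^(r w)`, `dRs s φ = J0 (s-1) φ` has `|2πr|^{1-s} φ^(r w)`, `Theta s f g = c0 (J1 (-s) (lap f) - J0 (-s) (lap g))`, `c0 = 1/(2 (2π)³)`;
`∂_p (Rs s φ) = dRs s φ`, `∂_p (dRs s φ) = Rs s (lap φ)`, `J1 a φ` is odd, `J0 a φ` is even, `rev k (w,p) = - k(-w,-p)`.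
-/

open MeasureTheory Filter Topology Set
open scoped ENNReal NNReal RealInnerProductSpace

namespace Pool.Agent.QWF

/-! ### Groups, Radon transform -/

/-- **Grp1** (translations). As QWE.Grp1. Proof: `Lp.compMeasurePreserving` of compositions; a.e. formulas `tau_coe`,
`sh_coe` composed with measure preserving maps. Adjoint: `tau (-t)` is the inverse of the isometry
`tau t`, same for `sh`. Continuity in the parameter: for `k` continuous with compact support (dense,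
`MemLp.exists_hasCompactSupport_eLpNorm_sub_le`) uniform continuity, then `‖tau t k‖ = ‖k‖` and an
`ε/3` argument. -/
def St_Grp1 : Prop :=
  (∀ s t k, tau s (tau t k) = tau (s + t) k) ∧ (∀ k, tau 0 k = k) ∧
  (∀ y z k, sh y (sh z k) = sh (y + z) k) ∧ (∀ k, sh 0 k = k) ∧
  (∀ t y k, tau t (sh y k) = sh y (tau t k)) ∧
  (∀ t (k k' : K), inner ℝ (tau t k) k' = inner ℝ k (tau (-t) k')) ∧
  (∀ y (k k' : K), inner ℝ (sh y k) k' = inner ℝ k (sh (-y) k')) ∧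
  (∀ k, Continuous fun t => tau t k) ∧ (∀ k, Continuous fun y => sh y k)

/-- **Grp2** (dilations, reversal). As QWE.Grp2 (`rev` has an additional minus sign). Proof: a.e. formulas `dl_coe`, `rev_coe` composed with quasi measure
preserving maps (`qmp_scale`, `mp_rev`); `inner ℝ (dl a k) k' = inner ℝ k (dl (-a) k')` because `dl (-a)`
is the inverse of the isometry `dl a`. Continuity as in Grp1. -/
def St_Grp2 : Prop :=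
  (∀ a b k, dl a (dl b k) = dl (a + b) k) ∧ (∀ k, dl 0 k = k) ∧ (∀ k, rev (rev k) = k) ∧
  (∀ a t k, tau t (dl a k) = dl a (tau (Real.exp a * t) k)) ∧
  (∀ a y k, sh y (dl a k) = dl a (sh (Real.exp a • y) k)) ∧
  (∀ t k, rev (tau t k) = tau (-t) (rev k)) ∧ (∀ y k, rev (sh y k) = sh y (rev k)) ∧
  (∀ a k, rev (dl a k) = dl a (rev k)) ∧
  (∀ a (k k' : K), inner ℝ (dl a k) k' = inner ℝ k (dl (-a) k')) ∧
  (∀ k, Continuous fun a => dl a k)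

/-- **SL** (slices of the sphere). As QWE.SL. Coordinates `x = s' e + O y`, `y = ρ v`, `v ∈ S²` (polar coordinates in `ℝ³`), then `s' = r s`, `ρ = r √(1-s²)`:
`dx = ρ² dρ dv ds' = r³ √(1-s²) dr ds dv`. -/
def St_SL : Prop := ∀ (e : S) (O : EuclideanSpace ℝ (Fin 3) →ₗᵢ[ℝ] E),
  (∀ v, inner ℝ (O v) (e : E) = 0) → ∀ b : E → ℝ, Continuous b →
  ∫ w : S, b w ∂sg = ∫ s in (-1 : ℝ)..1, √(1 - s ^ 2) *
    ∫ v : Metric.sphere (0 : EuclideanSpace ℝ (Fin 3)) 1, b (s • (e : E) + √(1 - s ^ 2) • O v)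
      ∂((volume : Measure (EuclideanSpace ℝ (Fin 3))).toSphere)

/-- **SL1** (zonal functions): `∫_S g(z·w) dw = (4π/|z|) ∫_{|p| ≤ |z|} √(1 - p²/|z|²) g(p) dp`. As QWE.SL1, `|S²| = 4π`. -/
def St_SL1 : Prop := ∀ (z : E), z ≠ 0 → ∀ g : ℝ → ℝ≥0∞, Measurable g →
  ∫⁻ w : S, g (inner ℝ z (w : E)) ∂sg =
    ∫⁻ p in Icc (-‖z‖) ‖z‖, ENNReal.ofReal (4 * Real.pi / ‖z‖ * √(1 - p ^ 2 / ‖z‖ ^ 2)) * g p

/-- **RadT** (Radon transform of test functions). As QWE.RadT (orthonormal basis `e_1, …, e_4`). -/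
def St_RadT : Prop := ∀ φ : E → ℝ, IsTest φ →
  Continuous (Rad φ) ∧ Continuous (dRad φ) ∧
  (∀ (y : E) (ρ : ℝ), tsupport φ ⊆ Metric.closedBall y ρ →
    ∀ z : S × ℝ, ρ ≤ |z.2 - inner ℝ y (z.1 : E)| → Rad φ z = 0 ∧ dRad φ z = 0) ∧
  (∀ (w : S) (p : ℝ), HasDerivAt (fun p => Rad φ (w, p)) (dRad φ (w, p)) p ∧
    HasDerivAt (fun p => dRad φ (w, p)) (Rad (lap φ) (w, p)) p) ∧
  (∀ (w : S) (g : ℝ → ℝ), Continuous g →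
    ∫ p, Rad φ (w, p) * g p = ∫ x, φ x * g (inner ℝ x (w : E)))

/-- **RadS** (Radon transform of Schwartz functions). As QWE.RadS. -/
def St_RadS : Prop := ∀ φ : E → ℝ, IsSch φ →
  Continuous (Rad φ) ∧ Continuous (dRad φ) ∧
  (∃ C, ∀ z : S × ℝ, |Rad φ z| ≤ C / (1 + z.2 ^ 2) ∧ |dRad φ z| ≤ C / (1 + z.2 ^ 2)) ∧
  (∀ (w : S) (p : ℝ), HasDerivAt (fun p => Rad φ (w, p)) (dRad φ (w, p)) p ∧
    HasDerivAt (fun p => dRad φ (w, p)) (Rad (lap φ) (w, p)) p) ∧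
  (∀ (w : S) (g : ℝ → ℝ), Continuous g → (∃ B, ∀ p, |g p| ≤ B) →
    ∫ p, Rad φ (w, p) * g p = ∫ x, φ x * g (inner ℝ x (w : E)))

/-- **FSl** (Fourier slice theorem). As QWE.FSl. -/
def St_FSl : Prop := ∀ φ : E → ℝ, IsSch φ → ∀ (w : S) (r : ℝ),
  ∫ p, (Rad φ (w, p) : ℂ) * Complex.exp (-2 * Real.pi * Complex.I * r * p) =
    ∫ x, (φ x : ℂ) * Complex.exp (-2 * Real.pi * Complex.I * r * inner ℝ x (w : E))

/-! ### Fourier transform and test states -/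

/-- **Ft** (Fourier transform of Schwartz functions). As QWP.Ft. Proof: `ft φ` is the Fourier transform of the Schwartz function
`x ↦ (φ x : ℂ)` in Mathlib (`SchwartzMap.fourierTransformCLM`, Plancherel, derivative rules); `φ` real gives the
symmetry; translation by substitution. A smooth compactly supported function is Schwartz
(`HasCompactSupport.toSchwartzMap`). -/
def St_Ft : Prop :=
  (∀ φ : E → ℝ, IsTest φ → IsSch φ) ∧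
  ∀ φ : E → ℝ, IsSch φ →
    Continuous (ft φ) ∧ (∀ N : ℕ, ∃ C : ℝ, ∀ ξ, ‖ft φ ξ‖ ≤ C / (1 + ‖ξ‖) ^ N) ∧
    (∀ ψ : E → ℝ, IsSch ψ → ∫ x, φ x * ψ x = (∫ ξ, ft φ ξ * (starRingEnd ℂ) (ft ψ ξ)).re) ∧
    (∀ (i : Fin 4) (ξ : E), ft (pd i φ) ξ = 2 * Real.pi * Complex.I * ((ξ i : ℝ) : ℂ) * ft φ ξ) ∧
    (∀ ξ : E, ft (lap φ) ξ = -(((2 * Real.pi * ‖ξ‖) ^ 2 : ℝ) : ℂ) * ft φ ξ) ∧
    (∀ ξ : E, ft φ (-ξ) = (starRingEnd ℂ) (ft φ ξ)) ∧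
    (∀ y ξ : E, ft (fun x => φ (x - y)) ξ =
      Complex.exp (-2 * Real.pi * Complex.I * ((inner ℝ y ξ : ℝ) : ℂ)) * ft φ ξ) ∧
    (∀ i, IsSch (pd i φ)) ∧ IsSch (lap φ) ∧ ∀ y, IsSch fun x => φ (x - y)

/-- **FtI** (inversion). As QWP.FtI. Proof: the inverse Fourier transform of the Schwartz function `g`; it is real because of the
symmetry of `g`. -/
def St_FtI : Prop := ∀ g : E → ℂ, ContDiff ℝ ((⊤ : ℕ∞) : WithTop ℕ∞) g → HasCompactSupport g →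
  (∀ ξ, g (-ξ) = (starRingEnd ℂ) (g ξ)) → ∃ φ : E → ℝ, IsSch φ ∧ ∀ ξ, ft φ ξ = g ξ

/-- **Pol** (polar coordinates). As QWP.Pol: `∫_S ∫_0^∞ H(r w) dr dw = ∫_E |ξ|^{-3} H(ξ) dξ`, and `r < 0` gives the same. -/
def St_Pol : Prop := ∀ H : E → ℂ, AEStronglyMeasurable H volume →
  (Integrable (fun ξ => ((‖ξ‖ ^ (-3 : ℝ) : ℝ) : ℂ) * H ξ) volume ↔
    Integrable (fun z : S × ℝ => H (z.2 • (z.1 : E))) mu) ∧
  ∫ z : S × ℝ, H (z.2 • (z.1 : E)) ∂mu = 2 * ∫ ξ, ((‖ξ‖ ^ (-3 : ℝ) : ℝ) : ℂ) * H ξ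

/-- **Par** (Parseval for the states). As QWP.Par: the functions `J0F a φ (w,·)`, `J1F a φ (w,·)` are the inverse Fourier transforms of `|2πr|^{-a} φ^(r w)` (in `L¹ ∩ L²` for `a < 1/2`), `|2πr|^{-a} 2πi r φ^(r w)`
(in `L¹ ∩ L²` for `a < 3/2`), hermitian in `r`, rapidly decreasing at infinity; one dimensional Plancherel and Parseval, uniformly in `w`; `conj (2πi r) = -2πi r`. -/
def St_Par : Prop := ∀ (a a' t : ℝ) (φ ψ : E → ℝ), IsSch φ → IsSch ψ →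
  (a < 1 / 2 → Continuous (J0F a φ) ∧ MemLp (J0F a φ) 2 mu) ∧
  (a < 3 / 2 → Continuous (J1F a φ) ∧ MemLp (J1F a φ) 2 mu) ∧
  (a < 1 / 2 → a' < 1 / 2 → inner ℝ (tau t (J0 a φ)) (J0 a' ψ) =
    (∫ z : S × ℝ, ((|2 * Real.pi * z.2| ^ (-a - a') : ℝ) : ℂ) *
    Complex.exp (-2 * Real.pi * Complex.I * ((z.2 * t : ℝ) : ℂ)) * ft φ (z.2 • (z.1 : E)) *
      (starRingEnd ℂ) (ft ψ (z.2 • (z.1 : E))) ∂mu).re) ∧
  (a < 3 / 2 → a' < 3 / 2 → inner ℝ (tau t (J1 a φ)) (J1 a' ψ) =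
    (∫ z : S × ℝ, ((|2 * Real.pi * z.2| ^ (2 - a - a') : ℝ) : ℂ) *
    Complex.exp (-2 * Real.pi * Complex.I * ((z.2 * t : ℝ) : ℂ)) * ft φ (z.2 • (z.1 : E)) *
      (starRingEnd ℂ) (ft ψ (z.2 • (z.1 : E))) ∂mu).re) ∧
  (a < 1 / 2 → a' < 3 / 2 → inner ℝ (tau t (J0 a φ)) (J1 a' ψ) =
    (∫ z : S × ℝ, ((|2 * Real.pi * z.2| ^ (-a - a') : ℝ) : ℂ) *
    (-2 * Real.pi * Complex.I * (z.2 : ℂ)) *
    Complex.exp (-2 * Real.pi * Complex.I * ((z.2 * t : ℝ) : ℂ)) * ft φ (z.2 • (z.1 : E)) *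
      (starRingEnd ℂ) (ft ψ (z.2 • (z.1 : E))) ∂mu).re)

/-- **JD** (derivatives in `p`, comparison of the states). Proof: differentiate under the Fourier integral; `(2πi r)² = -(2πr)²`, `ft (lap φ) = -(2π|ξ|)² ft φ` (Ft). The identities of functions give the identities in `K`. -/
def St_JD : Prop := ∀ (a : ℝ) (φ : E → ℝ), IsSch φ →
  (a < 1 / 2 → ∀ (w : S) (p : ℝ), HasDerivAt (fun p => J0F a φ (w, p)) (J1F a φ (w, p)) p) ∧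
  (a < 3 / 2 → ∀ (w : S) (p : ℝ), HasDerivAt (fun p => J1F a φ (w, p)) (- J0F (a - 2) φ (w, p)) p) ∧
  (∀ z, J0F a (lap φ) z = - J0F (a - 2) φ z ∧ J1F a (lap φ) z = - J1F (a - 2) φ z) ∧
  (∀ z, (a < 1 / 2 → |J0F a φ z| ≤ ∫ r, |2 * Real.pi * r| ^ (-a) * ‖ft φ (r • (z.1 : E))‖) ∧
    (a < 3 / 2 → |J1F a φ z| ≤ ∫ r, |2 * Real.pi * r| ^ (1 - a) * ‖ft φ (r • (z.1 : E))‖)) ∧
  J0 a (lap φ) = - J0 (a - 2) φ ∧ J1 a (lap φ) = - J1 (a - 2) φ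

/-- **PJ** (nice functions on `S × ℝ`). As QWP.PJ (`ftp h w r` is rapidly decreasing in `r`, uniformly in `w`); `ftp (Rad φ) w r = ft φ (r w)` (FSl), `ftp (dRad φ) w r = 2πi r ft φ (r w)`. Note the sign in `rev`. The pairing with `Rs s φ`, `dRs s φ`: Parseval,
`J1F 1 φ`, `J0F (-1) φ` have the transforms `|2πr|^{-1} 2πi r φ^`, `|2πr| φ^`. -/
def St_PJ : Prop := ∀ s : ℝ, |s| < 1 / 2 →
  (∀ h : S × ℝ → ℝ, Nice univ h → MemLp h 2 mu ∧ MemLp (JF s h) 2 mu ∧ JK 0 h = toK h ∧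
    (∀ (t : ℝ), tau t (JK s h) = JK s (fun z => h (z.1, z.2 - t))) ∧
    (∀ (y : E), sh y (JK s h) = JK s (fun z => h (z.1, z.2 - inner ℝ y (z.1 : E)))) ∧
    rev (JK s h) = - JK s (fun z => h (-z.1, -z.2)) ∧
    (∀ c : ℝ, JK s (fun z => c * h z) = c • JK s h) ∧
    (∀ h' : S × ℝ → ℝ, Nice univ h' → JK s (fun z => h z + h' z) = JK s h + JK s h' ∧
      inner ℝ (JK s h) (JK (-s) h') = ∫ z, h z * h' z ∂mu ∧
      inner ℝ (JK s h) (JK s h') = ((∫ z : S × ℝ, ((|2 * Real.pi * z.2| ^ (-2 * s) : ℝ) : ℂ) * ftp h z.1 z.2 *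
        (starRingEnd ℂ) (ftp h' z.1 z.2) ∂mu)).re) ∧
    (∀ φ, IsSch φ → inner ℝ (JK s h) (J0 (-s) φ) = ∫ z, h z * Rad φ z ∂mu ∧
      inner ℝ (JK s h) (J1 (-s) φ) = ∫ z, h z * dRad φ z ∂mu ∧
      inner ℝ (JK (-s) h) (Rs s φ) = - ∫ z, h z * J1F 1 φ z ∂mu ∧
      inner ℝ (JK (-s) h) (dRs s φ) = ∫ z, h z * J0F (-1) φ z ∂mu)) ∧
  ∀ φ : E → ℝ, IsTest φ → JK s (Rad φ) = J0 s φ ∧ JK s (dRad φ) = J1 s φ

/-- **NcR** (Radon transforms of test functions are nice). As QWP.NcR. Proof: by Fourier inversion `Rad φ (w,p) = ∫ ft φ (r w) e^{2πi r p} dr`; the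
function `g(v,p) = χ(v) Re ∫ ft φ (r v) e^{2πi r p} dr`, `χ` smooth, `= 1` for `|v| = 1`, supported in `1/2 < |v| < 2`, is smooth on `E × ℝ`
(differentiate under the integral, `ft φ` is Schwartz), and vanishes for `|p| ≥ 2M` if `φ` vanishes for `|x| ≥ M`, since
`∫ ft φ (r v) e^{2πi r p} dr = |v|⁻¹ Rad φ (v/|v|, p/|v|)`. Support of `Rad φ`, `dRad φ`: RadT. -/
def St_NcR : Prop := ∀ (φ : E → ℝ) (y : E) (ρ : ℝ), IsTest φ → tsupport φ ⊆ Metric.ball y ρ →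
  Nice {z | |z.2 - inner ℝ y (z.1 : E)| < ρ} (Rad φ) ∧ Nice {z | |z.2 - inner ℝ y (z.1 : E)| < ρ} (dRad φ)

/-- **IsoP** (the isometry), `-1/2 ≤ s < 1/2`. Proof from Par (`t = 0`), Pol, Ft: `∫_S ∫_ℝ |2πr|^{2a+3} f^ conj φ^ dr dw = 2 (2π)³ ∫ (2π|ξ|)^{2a} f^ conj φ^ dξ` and `1/c0 = 2 (2π)³`. `⟨J1 (-s) (lap f), Rs s φ⟩`: integrand `(2πi r)(-(2πr)²) f^ (i sgn r) conj φ^ = |2πr|³ f^ conj φ^`;
`⟨J0 (-s) (lap g), dRs s φ⟩`: `- |2πr|³ g^ conj φ^`. The mixed products are odd under `(w,r) → (-w,-r)`, or use the parities. -/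
def St_IsoP : Prop := ∀ (s : ℝ) (f φ : E → ℝ), -1 / 2 ≤ s → s < 1 / 2 → IsSch f → IsSch φ →
  c0 * inner ℝ (J1 (-s) (lap f)) (Rs s φ) = ∫ x, f x * φ x ∧
  c0 * inner ℝ (J0 (-s) (lap f)) (dRs s φ) = - ∫ x, f x * φ x ∧
  inner ℝ (J0 (-s) (lap f)) (Rs s φ) = 0 ∧ inner ℝ (J1 (-s) (lap f)) (dRs s φ) = 0 ∧
  inner ℝ (Rs s f) (dRs s φ) = 0 ∧
  (∀ g, IsSch g → inner ℝ (Theta s f g) (Rs s φ) = ∫ x, f x * φ x ∧
    inner ℝ (Theta s g f) (dRs s φ) = ∫ x, f x * φ x) ∧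
  c0 * ‖Rs s φ‖ ^ 2 = hs (-3 / 2 - s) φ ∧ c0 * ‖dRs s φ‖ ^ 2 = hs (-1 / 2 - s) φ ∧
  ‖Theta s f φ‖ ^ 2 = c0 * (hs (3 / 2 + s) f + hs (1 / 2 + s) φ) ∧
  (∀ a : ℝ, -2 < a → Integrable (fun ξ => (2 * Real.pi * ‖ξ‖) ^ (2 * a) * ‖ft φ ξ‖ ^ 2) volume)

/-- **LinJ** (linearity of the states). Proof: linearity of `ft` and of the Fourier integrals, `toK` of square integrable functions. -/
def St_LinJ : Prop := ∀ (a c : ℝ) (φ ψ : E → ℝ), IsSch φ → IsSch ψ →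
  (a < 1 / 2 → J0 a (fun x => φ x + c * ψ x) = J0 a φ + c • J0 a ψ) ∧
  (a < 3 / 2 → J1 a (fun x => φ x + c * ψ x) = J1 a φ + c • J1 a ψ) ∧
  (∀ s : ℝ, -1 / 2 ≤ s → s < 1 / 2 → Rs s (fun x => φ x + c * ψ x) = Rs s φ + c • Rs s ψ ∧
    dRs s (fun x => φ x + c * ψ x) = dRs s φ + c • dRs s ψ ∧
    ∀ f g : E → ℝ, IsSch f → IsSch g → Theta s (fun x => φ x + c * f x) (fun x => ψ x + c * g x) =
      Theta s φ ψ + c • Theta s f g)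

/-- **Hs** (calculus of `hs`). As QWP.Hs (scaling exponent `2a - 4`). -/
def St_Hs : Prop :=
  (∀ f, IsSch f → hs 0 f = ∫ x, f x ^ 2) ∧
  (∀ f, IsSch f → hs 1 f = ∑ i, ∫ x, pd i f x ^ 2) ∧
  (∀ f, IsSch f → hs 2 f = ∫ x, lap f x ^ 2) ∧
  (∀ f, IsSch f → hs 3 f = ∑ i, ∑ j, ∑ l, ∫ x, pd l (pd j (pd i f)) x ^ 2) ∧
  (∀ (n : ℕ) (a : ℝ) (f : E → ℝ), 0 < n → 0 ≤ a → a ≤ n → IsSch f →
    hs a f ≤ hs 0 f ^ (1 - a / n) * hs n f ^ (a / n)) ∧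
  (∀ (a : ℝ) (f : E → ℝ), -1 < a → IsSch f → ∑ i, hs a (pd i f) = hs (a + 1) f) ∧
  (∀ (a l : ℝ) (f : E → ℝ), -2 < a → 0 < l → IsSch f →
    hs a (fun x => f (l • x)) = l ^ (2 * a - 4) * hs a f) ∧
  (∀ (a : ℝ) (f g : E → ℝ), -2 < a → IsSch f → IsSch g →
    hs a (fun x => f x + g x) ^ (1 / 2 : ℝ) ≤ hs a f ^ (1 / 2 : ℝ) + hs a g ^ (1 / 2 : ℝ)) ∧
  (∀ (a : ℝ) (f g : E → ℝ), -2 < a → a < 2 → IsSch f → IsSch g →
    |∫ x, f x * g x| ≤ hs a f ^ (1 / 2 : ℝ) * hs (-a) g ^ (1 / 2 : ℝ))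

/-- **RSob** (refined Sobolev inequality). As QWP.RSob, `0 < a < 2`, `q = 8/(4-2a)`, `4/q = 2 - a`, `(4/q)(q-2) = 2a`, `f_l := l⁴ ψ(l·) * f`. -/
def St_RSob : Prop := ∀ (a : ℝ) (ψ : E → ℝ), 0 < a → a < 2 → IsSch ψ →
  (∀ ξ, 0 ≤ (ft ψ ξ).re ∧ (ft ψ ξ).re ≤ 1 ∧ (ft ψ ξ).im = 0) → (∀ ξ, ‖ξ‖ ≤ 1 → ft ψ ξ = 1) →
  (∀ ξ, 2 ≤ ‖ξ‖ → ft ψ ξ = 0) → ∃ C : ℝ, 0 < C ∧ ∀ f : E → ℝ, IsSch f →
  (∀ B : ℝ, 0 ≤ B → (∀ (x : E) (l : ℝ), 0 < l → |∫ z, f (x + l⁻¹ • z) * ψ z| ≤ B * l ^ (2 - a)) →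
    ∫ x, |f x| ^ (8 / (4 - 2 * a)) ≤ C * B ^ (4 * a / (4 - 2 * a)) * hs a f) ∧
  ∀ (x : E) (l : ℝ), 0 < l →
    |∫ z, f (x + l⁻¹ • z) * ψ z| ≤ C * (hs a f) ^ (1 / 2 : ℝ) * l ^ (2 - a)

/-- **Psi** (the cut-off function of RSob exists). As QWP.Psi. Proof: FtI with `g` a smooth radial bump. -/
def St_Psi : Prop := ∃ ψ : E → ℝ, IsSch ψ ∧
  (∀ ξ, 0 ≤ (ft ψ ξ).re ∧ (ft ψ ξ).re ≤ 1 ∧ (ft ψ ξ).im = 0) ∧ (∀ ξ, ‖ξ‖ ≤ 1 → ft ψ ξ = 1) ∧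
  (∀ ξ, 2 ≤ ‖ξ‖ → ft ψ ξ = 0) ∧ ∀ x, ψ (-x) = ψ x

/-- **SobP** (Sobolev inequality and its dual). As QWP.SobP, `0 < a < 2`. -/
def St_SobP : Prop := ∀ a : ℝ, 0 < a → a < 2 → ∃ C : ℝ, 0 < C ∧ ∀ f : E → ℝ, IsSch f →
  eLpNorm f (ENNReal.ofReal (8 / (4 - 2 * a))) volume ≤ ENNReal.ofReal (C * (hs a f) ^ (1 / 2 : ℝ)) ∧
  ENNReal.ofReal ((hs (-a) f) ^ (1 / 2 : ℝ)) ≤
    ENNReal.ofReal C * eLpNorm f (ENNReal.ofReal (8 / (4 + 2 * a))) volume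

/-- **Dns0** (density of states with Fourier support away from `0` and `∞`). Proof. For Schwartz `ψ` with `ft ψ ∈ C_c^∞(E ∖ 0)` there is for every `c` a Schwartz `ψ1` with `ft ψ1 = ± (2π|ξ|)^c ft ψ` (FtI), so `Rs s ψ = - J1 (1+s) ψ`, `J1 a ψ` are all of the form `J1 0 ψ1` and
`dRs s ψ = J0 (s-1) ψ`, `J0 a ψ` are of the form `J0 0 ψ1` (equality of the Fourier integrands): both spans are equal to the span of the `J0 0 ψ`, `J1 0 ψ`. Totality: as QWE.Dens (a): let `κ ∈ K` be orthogonal to all of them; split it in its even and odd part under `(w,p) → (-w,-p)`. With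
`h(ξ) = κ_even^(ξ/|ξ|, |ξ|)` (Fourier transform in `p`, `∫ |h|² |ξ|^{-3} < ∞`) one gets `∫ conj h(ξ) |ξ|^{-3} ft ψ(ξ) dξ = 0` for all such `ψ` (Pol), so `h = 0` a.e. (`κ` and `ψ` are real: real and imaginary part, hermitian symmetrization); the odd part in the same way with `J1`. -/
def St_Dns0 : Prop := ∀ s : ℝ, -1 / 2 ≤ s → s < 1 / 2 →
  (Submodule.span ℝ {w : K | ∃ ψ : E → ℝ, IsSch ψ ∧ HasCompactSupport (ft ψ) ∧ (∀ᶠ ξ in 𝓝 (0 : E), ft ψ ξ = 0) ∧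
    (w = Rs s ψ ∨ w = dRs s ψ)}).topologicalClosure = ⊤ ∧
  (Submodule.span ℝ {w : K | ∃ ψ : E → ℝ, IsSch ψ ∧ HasCompactSupport (ft ψ) ∧ (∀ᶠ ξ in 𝓝 (0 : E), ft ψ ξ = 0) ∧
    (w = J0 s ψ ∨ w = J1 s ψ)}).topologicalClosure = ⊤

/-- **DnsP** (density of test states). Proof as QWP.DnsP. (a) `‖Rs s (ψ - χ_n ψ)‖ ≤ C ‖ψ - χ_n ψ‖_{L^{8/(7+2s)}} → 0` (IsoP, SobP with `a = 3/2 + s`), `‖dRs s (..)‖ ≤ C ‖..‖_{L^{8/(5+2s)}}` (`a = 1/2 + s`; for `s = -1/2` it is `hs 0`, the `L²` norm). (b) The closure of the `Theta s f g`, `f, g` test, contains those with `f, g` Schwartz (`hs (3/2+s) (f - χ_n f) → 0`, `hs (1/2+s) (g - χ_n g) → 0` by Hs, interpolation, `n = 3`; `1/2 + s ≥ 0`), hence all `J1 (-s) (lap f)`, `J0 (-s) (lap g)`, in particular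
`J1 (-s) ψ`, `J0 (-s) ψ` with `ft ψ ∈ C_c^∞(E∖0)`, which are total (as in Dns0; the exponent plays no role). (c) The `JK s h`, `h` nice, contain the `J0 s φ`, `J1 s φ`, `φ` test (PJ, NcR); `J0 s (ψ - χ_n ψ)`, `J1 s (..)` `→ 0` (for `ψ` as in Dns0; norms `hs (-3/2-s)`, `hs (-1/2-s)`). -/
def St_DnsP : Prop := ∀ s : ℝ, -1 / 2 ≤ s → s < 1 / 2 → TS s univ = ⊤ ∧
  (∀ (k : K) (ε : ℝ), 0 < ε → ∃ f g : E → ℝ, IsTest f ∧ IsTest g ∧ ‖k - Theta s f g‖ < ε) ∧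
  (|s| < 1 / 2 → PS s univ = ⊤)

/-! ### Free evolution -/

/-- **WvA** (smooth solutions by Fourier transform). Proof. `M_t(ξ) = cos(2πt|ξ|) ft f + (sin(2πt|ξ|)/(2π|ξ|)) ft g` (value `t` of the quotient at `0`), `N_t(ξ) = -2π|ξ| sin(2πt|ξ|) ft f + cos(2πt|ξ|) ft g`, continuous and rapidly decreasing, hermitian in `ξ`.
`u(t,x) = (∫ M_t(ξ) e^{2πi x·ξ} dξ).re`, `v` with `N_t`. Smoothness in `(t,x)`: differentiate under the integral (all `(t,x)`-derivatives of the integrand are bounded by polynomials in `|ξ|` times `|ft f| + |ft g|`), or `VectorFourier.contDiff_fourierIntegral` for the pushforward of the measures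
`ft f dξ` under `ξ ↦ (ξ, ± |ξ|) ∈ E × ℝ` (`sin(2πt|ξ|)/(2π|ξ|) = ∫_0^t cos(2πr|ξ|) dr`). `∂_t M = N`, `∂_t N = -(2π|ξ|)² M`. At `t = 0` Fourier inversion. -/
def St_WvA : Prop := ∀ f g : E → ℝ, IsTest f → IsTest g → ∃ u v : ℝ × E → ℝ,
  ContDiff ℝ ((⊤ : ℕ∞) : WithTop ℕ∞) u ∧ ContDiff ℝ ((⊤ : ℕ∞) : WithTop ℕ∞) v ∧
  (∀ x, u (0, x) = f x ∧ v (0, x) = g x) ∧
  (∀ t x, HasDerivAt (fun t => u (t, x)) (v (t, x)) t ∧
    HasDerivAt (fun t => v (t, x)) (lap (fun y => u (t, y)) x) t) ∧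
  ∀ t, ∃ M N : E → ℂ, Continuous M ∧ Continuous N ∧ Integrable M volume ∧ Integrable N volume ∧
    (∀ ξ, ((2 * Real.pi * ‖ξ‖ : ℝ) : ℂ) * M ξ = ((2 * Real.pi * ‖ξ‖ * Real.cos (2 * Real.pi * t * ‖ξ‖) : ℝ) : ℂ) * ft f ξ +
      ((Real.sin (2 * Real.pi * t * ‖ξ‖) : ℝ) : ℂ) * ft g ξ) ∧
    (∀ ξ, N ξ = -((2 * Real.pi * ‖ξ‖ * Real.sin (2 * Real.pi * t * ‖ξ‖) : ℝ) : ℂ) * ft f ξ +
      ((Real.cos (2 * Real.pi * t * ‖ξ‖) : ℝ) : ℂ) * ft g ξ) ∧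
    ∀ x : E, (u (t, x) : ℂ) = ∫ ξ, M ξ * Complex.exp (2 * Real.pi * Complex.I * ((inner ℝ x ξ : ℝ) : ℂ)) ∧
      (v (t, x) : ℂ) = ∫ ξ, N ξ * Complex.exp (2 * Real.pi * Complex.I * ((inner ℝ x ξ : ℝ) : ℂ))

/-- **WvB** (domain of dependence, energy method). Proof. WLOG `t > 0` (replace `u(t,x)`, `v(t,x)` by `u(-t,x)`, `-v(-t,x)`). Let `T = t`, `0 < ε < T`, `χ : ℝ → ℝ` smooth, non-decreasing, `χ = 0` on `(-∞,0]`, `χ > 0` on `(0,∞)` (`Real.smoothTransition`), `N(y) = √(ε² + |y - x|²)` (smooth, `|∇N| ≤ 1`) and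
`I(r) = ∫ χ(T - r - N(y)) (|∇u|² + v²)(r,y) dy`, `0 ≤ r ≤ T` (the weight has compact support `|y - x| ≤ T`). Differentiate under the integral and integrate by parts: `I' = - ∫ χ' (|∇u|² + v²) + 2 ∫ χ (∇u·∇v + v Δu) = - ∫ χ' (|∇u|² + v²) + 2 ∫ χ' v ∇N·∇u ≤ 0`. `I(0) = 0` because `u(0,·) = v(0,·) = 0` on the
closed ball of radius `T` (so `∇u(0,·) = 0` in the open ball). So `I = 0` and, `v` being continuous, `v(r,x) = 0` for `T - r - ε > 0`. For `ε → 0`: `v(r,x) = 0` for `0 ≤ r < T`, so `u(r,x) = u(0,x) = 0` there; continuity at `T`. -/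
def St_WvB : Prop := ∀ u v : ℝ × E → ℝ, ContDiff ℝ ((⊤ : ℕ∞) : WithTop ℕ∞) u →
  ContDiff ℝ ((⊤ : ℕ∞) : WithTop ℕ∞) v →
  (∀ t x, HasDerivAt (fun t => u (t, x)) (v (t, x)) t ∧
    HasDerivAt (fun t => v (t, x)) (lap (fun y => u (t, y)) x) t) →
  ∀ (t : ℝ) (x : E), (∀ y, dist y x ≤ |t| → u (0, y) = 0 ∧ v (0, y) = 0) → u (t, x) = 0 ∧ v (t, x) = 0

/-- **WvS** (solutions with test data). Proof from WvA, WvB: `u(t,·)`, `v(t,·)` are smooth with compact support (in the `|t|`-neighbourhood of the supports), and `ft u(t,·) = M_t` by Fourier inversion (`M_t` is continuous and integrable, its inverse transform `u(t,·)` is integrable). -/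
def St_WvS : Prop := ∀ f g : E → ℝ, IsTest f → IsTest g → ∃ u v : ℝ × E → ℝ,
  ContDiff ℝ ((⊤ : ℕ∞) : WithTop ℕ∞) u ∧ ContDiff ℝ ((⊤ : ℕ∞) : WithTop ℕ∞) v ∧
  (∀ x, u (0, x) = f x ∧ v (0, x) = g x) ∧
  (∀ t x, HasDerivAt (fun t => u (t, x)) (v (t, x)) t ∧
    HasDerivAt (fun t => v (t, x)) (lap (fun y => u (t, y)) x) t) ∧
  (∀ t x, (∀ y, dist y x ≤ |t| → f y = 0 ∧ g y = 0) → u (t, x) = 0 ∧ v (t, x) = 0) ∧
  ∀ t, IsTest (fun x => u (t, x)) ∧ IsTest (fun x => v (t, x)) ∧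
    (∀ ξ, ((2 * Real.pi * ‖ξ‖ : ℝ) : ℂ) * ft (fun x => u (t, x)) ξ =
      ((2 * Real.pi * ‖ξ‖ * Real.cos (2 * Real.pi * t * ‖ξ‖) : ℝ) : ℂ) * ft f ξ +
      ((Real.sin (2 * Real.pi * t * ‖ξ‖) : ℝ) : ℂ) * ft g ξ) ∧
    ∀ ξ, ft (fun x => v (t, x)) ξ = -((2 * Real.pi * ‖ξ‖ * Real.sin (2 * Real.pi * t * ‖ξ‖) : ℝ) : ℂ) * ft f ξ +
      ((Real.cos (2 * Real.pi * t * ‖ξ‖) : ℝ) : ℂ) * ft g ξ

/-- **FreX** (free evolution of the states), `-1/2 ≤ s < 1/2`. Proof. `(f', g') = (u(t,·), v(t,·))` of WvS for the data `(f, g)`; `f1 = u(t,·)` for the data `(φ, 0)`, `f2 = - u(t,·)` for the data `(0, φ)`, i.e. `ft f1 = cos(2πt|ξ|) ft φ`, `(2π|ξ|) ft f2 = - sin(2πt|ξ|) ft φ`. On the `p`-Fourier side `tau t` is multiplication by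
`e^{-2πi r t}`: the identities are `e^{-2πi r t} ((2πi r) f^ - g^) = (2πi r) f'^ - g'^`, `(-i sgn r) e^{-2πi r t} = (-i sgn r) cos(2πrt) - sin(2πt|r|)`, `|2πr| e^{-2πi r t} = (-i sgn r)(2π|r|) sin(2πt|r|) + |2πr| cos(2πrt)` at `ξ = r w`. In `K`: test both sides with the total set of Dns0 and use Par
(or compare the Fourier integrals pointwise in `(w,p)`: `J0F a φ (w, p - t)` is the integral with the extra factor `e^{-2πi r t}`). Supports: WvS. -/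
def St_FreX : Prop := ∀ (f g φ : E → ℝ) (t : ℝ), IsTest f → IsTest g → IsTest φ →
  (∃ f' g' : E → ℝ, IsTest f' ∧ IsTest g' ∧
    (∀ s : ℝ, -1 / 2 ≤ s → s < 1 / 2 → tau t (Theta s f g) = Theta s f' g') ∧
    ∀ x, (∀ y, dist y x ≤ |t| → f y = 0 ∧ g y = 0) → f' x = 0 ∧ g' x = 0) ∧
  ∃ f1 f2 : E → ℝ, IsTest f1 ∧ IsTest f2 ∧
    (∀ s : ℝ, -1 / 2 ≤ s → s < 1 / 2 → tau t (Rs s φ) = Rs s f1 + dRs s f2 ∧
      tau t (dRs s φ) = Rs s (lap f2) + dRs s f1) ∧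
    (∀ x, (∀ y, dist y x ≤ |t| → φ y = 0) → f1 x = 0 ∧ f2 x = 0) ∧
    (∀ ξ, ft f1 ξ = ((Real.cos (2 * Real.pi * t * ‖ξ‖) : ℝ) : ℂ) * ft φ ξ) ∧
    ∀ ξ, ((2 * Real.pi * ‖ξ‖ : ℝ) : ℂ) * ft f2 ξ = -((Real.sin (2 * Real.pi * t * ‖ξ‖) : ℝ) : ℂ) * ft φ ξ

/-- **DrT** (derivative of the test states along the flow), `-1/2 ≤ s < 1/2`. Proof: on the Fourier side `(e^{-2πi r h} - 1)/h → - 2πi r`, dominated by `|2πr|`; `∂_p Rs = dRs`, `∂_p dRs s φ = Rs s (lap φ)` (Par, JD). -/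
def St_DrT : Prop := ∀ (s : ℝ) (φ : E → ℝ), -1 / 2 ≤ s → s < 1 / 2 → IsSch φ → ∀ t : ℝ,
  HasDerivAt (fun t => tau t (Rs s φ)) (- tau t (dRs s φ)) t ∧
  HasDerivAt (fun t => tau t (dRs s φ)) (- tau t (Rs s (lap φ))) t

/-! ### Fields, exterior seminorms -/

/-- **FldP** (fields). As QWP.FldP. For test `f, g`, `k = Theta s f g`: `f` is the position field and `g` the velocity field (IsoP); SobP with `a = 3/2+s`
(for `f`), `a = 1/2+s` (for `∂_i f`, `g`, Hs: `Σ hs (1/2+s) (∂_i f) = hs (3/2+s) f`) and IsoP bound the norms by `C ‖k‖`. General `k`: approximate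
(DnsP); `f_n`, `g_n`, `∂_i f_n` are Cauchy in `L^{q0}, L^{q1}, L^{q1}`. Uniqueness a.e. by test functions. The identities for Schwartz `φ`: `φ ∈ L^{q0'} ∩ L^{q1'}`, `χ_n φ → φ`
there, and `Rs s (χ_n φ) → Rs s φ` (proof of DnsP). -/
def St_FldP : Prop := ∀ s : ℝ, |s| < 1 / 2 → ∃ C : ℝ, 0 < C ∧
  (∀ k : K, IsU s k (U s k) ∧ eLpNorm (U s k) (q0 s) volume ≤ ENNReal.ofReal C * ‖k‖ₑ ∧
    IsV s k (V s k) ∧ eLpNorm (V s k) (q1 s) volume ≤ ENNReal.ofReal C * ‖k‖ₑ ∧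
    (∀ i, MemLp (DU s k i) (q1 s) volume ∧ WD i (U s k) (DU s k i) ∧
      eLpNorm (DU s k i) (q1 s) volume ≤ ENNReal.ofReal C * ‖k‖ₑ) ∧
    ∀ φ, IsSch φ → ∫ x, U s k x * φ x = inner ℝ k (Rs s φ) ∧ ∫ x, V s k x * φ x = inner ℝ k (dRs s φ)) ∧
  (∀ (c : ℝ) (k k' : K), (U s (k + c • k') =ᵐ[volume] fun x => U s k x + c * U s k' x) ∧
    (V s (k + c • k') =ᵐ[volume] fun x => V s k x + c * V s k' x) ∧
    ∀ i, DU s (k + c • k') i =ᵐ[volume] fun x => DU s k i x + c * DU s k' i x) ∧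
  ∀ f g : E → ℝ, IsTest f → IsTest g → (U s (Theta s f g) =ᵐ[volume] f) ∧ (V s (Theta s f g) =ᵐ[volume] g) ∧
    ∀ i, DU s (Theta s f g) i =ᵐ[volume] pd i f

/-- **ActP** (symmetries). As QWP.ActP: `sh y (Rs s φ) = Rs s (φ(· - y))`, `dl a (Rs s φ) = e^{(7/2+s)a} Rs s (φ(e^a ·))`,
`dl a (dRs s φ) = e^{(5/2+s)a} dRs s (φ(e^a ·))` (`ft (φ(e^a ·)) ξ = e^{-4a} ft φ (e^{-a} ξ)`), `rev (Rs s φ) = Rs s φ`, `rev (dRs s φ) = - dRs s φ` (substitution in the Fourier integrals). -/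
def St_ActP : Prop := ∀ s : ℝ, |s| < 1 / 2 →
  (∀ (y : E) (a : ℝ) (k : K),
    (U s (gr y a k) =ᵐ[volume] fun x => Real.exp ((1 / 2 - s) * a) * U s k (Real.exp a • (x - y))) ∧
    (V s (gr y a k) =ᵐ[volume] fun x => Real.exp ((3 / 2 - s) * a) * V s k (Real.exp a • (x - y))) ∧
    ∀ i, DU s (gr y a k) i =ᵐ[volume] fun x => Real.exp ((3 / 2 - s) * a) * DU s k i (Real.exp a • (x - y))) ∧
  (∀ k : K, (U s (rev k) =ᵐ[volume] U s k) ∧ (V s (rev k) =ᵐ[volume] fun x => - V s k x)) ∧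
  (∀ (Ω : Set E) (y : E) (a : ℝ) (k : K),
    ex s Ω (gr y a k) = ex s {z | y + Real.exp (-a) • z ∈ Ω} k) ∧
  (∀ (Ω : Set E) (k : K), ex s Ω (rev k) = ex s Ω k) ∧
  ∀ (y : E) (a : ℝ) (f g : E → ℝ), IsTest f → IsTest g → gr y a (Theta s f g) =
    Theta s (fun x => Real.exp ((1 / 2 - s) * a) * f (Real.exp a • (x - y)))
      (fun x => Real.exp ((3 / 2 - s) * a) * g (Real.exp a • (x - y)))

/-- **ExBP** (exterior seminorms). As QWP.ExBP (Hilbert space arguments, FldP for `Van` in terms of the fields, DnsP). -/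
def St_ExBP : Prop := ∀ s : ℝ, |s| < 1 / 2 →
  (∀ Ω (k k' : K), |ex s Ω k - ex s Ω k'| ≤ ‖k - k'‖) ∧ (∀ Ω (k : K), ex s Ω k ≤ ‖k‖) ∧
  (∀ Ω Ω' (k : K), Ω ⊆ Ω' → ex s Ω k ≤ ex s Ω' k) ∧
  (∀ Ω (k : K), Van s Ω k ↔ ex s Ω k = 0) ∧ (∀ Ω (k : K), Van s Ω (k - pr s Ω k)) ∧
  (∀ Ω (k k' : K), Van s Ω (k - k') → ex s Ω k ≤ ‖k'‖ ∧ ex s Ω k = ex s Ω k') ∧
  (∀ Ω (k : K), IsOpen Ω → (Van s Ω k ↔ (∀ᵐ x, x ∈ Ω → U s k x = 0) ∧ ∀ᵐ x, x ∈ Ω → V s k x = 0)) ∧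
  (∀ Ω (k : ℕ → K) (k' : K) (r : ℝ), WTo k k' → (∀ n, ex s Ω (k n) ≤ r) → ex s Ω k' ≤ r) ∧
  (∀ (Ω : ℕ → Set E) (k : K), Monotone Ω → (∀ n, IsOpen (Ω n)) →
    Tendsto (fun n => ex s (Ω n) k) atTop (𝓝 (ex s (⋃ n, Ω n) k))) ∧
  (∀ k : K, Tendsto (fun R : ℝ => ex s (xt 0 R) k) atTop (𝓝 0)) ∧
  (∀ k : K, Tendsto (fun R : ℝ => ex s (Metric.ball 0 R) k) atTop (𝓝 ‖k‖))

/-- **ExFP** (fields on an open set). As QWP.ExFP from ExBP, FldP. -/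
def St_ExFP : Prop := ∀ s : ℝ, |s| < 1 / 2 → ∃ C : ℝ, 0 < C ∧ ∀ (k : K) (Ω : Set E), IsOpen Ω →
  eLpNorm (Ω.indicator (U s k)) (q0 s) volume ≤ ENNReal.ofReal (C * ex s Ω k) ∧
  (∀ i, eLpNorm (Ω.indicator (DU s k i)) (q1 s) volume ≤ ENNReal.ofReal (C * ex s Ω k)) ∧
  eLpNorm (Ω.indicator (V s k)) (q1 s) volume ≤ ENNReal.ofReal (C * ex s Ω k) ∧
  (∀ k' : K, Van s Ω (k - k') → ∀ᵐ x, x ∈ Ω → U s k x = U s k' x ∧ V s k x = V s k' x ∧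
    ∀ i, DU s k i x = DU s k' i x)

/-! ### Locality in `p`, multiplication operators -/

/-- **NaB** (calculus of `na`). As QWP.NaB. Proof: orthogonal projections; `PS s A ≤ PS s A'` for `A ⊆ A'`; by PJ `tau t`, `sh y`, `rev` map `JK s h` to `JK s` of the transported
function, whose support is the transported set, so they map `PS s A` onto `PS s` of the transported set and intertwine the projections. -/
def St_NaB : Prop := ∀ s : ℝ, |s| < 1 / 2 →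
  (∀ A (k k' : K), |na s A k - na s A k'| ≤ ‖k - k'‖ ∧ na s A (k + k') ≤ na s A k + na s A k') ∧
  (∀ A (k : K), na s A k ≤ ‖k‖ ∧ 0 ≤ na s A k) ∧ (∀ A A' (k : K), A ⊆ A' → na s A k ≤ na s A' k) ∧
  (∀ A (k : K), na s A k = 0 ↔ ∀ h, Nice A h → inner ℝ k (JK s h) = 0) ∧
  (∀ A (t : ℝ) (k : K), na s A (tau t k) = na s {z | (z.1, z.2 + t) ∈ A} k) ∧
  (∀ A (y : E) (k : K), na s A (sh y k) = na s {z | (z.1, z.2 + inner ℝ y (z.1 : E)) ∈ A} k) ∧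
  ∀ A (k : K), na s A (rev k) = na s {z | (-z.1, -z.2) ∈ A} k

/-- **DecX** (fields of a nice function decay). `f(x) = ∫_S h(w, x·w) dw`, `g(x) = - ∫_S ∂_p h(w, x·w) dw`. As QWP.DecX (that file uses the divergence theorem on the sphere; the density of `x·w` is now `(4π/|x|) √(1 - p²/|x|²)`, smooth for `|p| ≤ |x|/2`). Every `∂_{x_i}` gives a factor `w_i` and one `∂_p`, every `∂_p` gains `1/|x|`. -/
def St_DecX : Prop := ∀ h : S × ℝ → ℝ, Nice univ h → ∃ f g : E → ℝ, SmE f ∧ SmE g ∧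
  (∃ C : ℝ, ∀ n ≤ 4, ∀ x, ‖iteratedFDeriv ℝ n f x‖ ≤ C / (1 + ‖x‖) ^ (n + 1) ∧
    ‖iteratedFDeriv ℝ n g x‖ ≤ C / (1 + ‖x‖) ^ (n + 2)) ∧
  (∀ φ, IsTest φ → ∫ x, f x * φ x = ∫ z, h z * Rad φ z ∂mu ∧ ∫ x, g x * φ x = ∫ z, h z * dRad φ z ∂mu) ∧
  (∀ (y : E) (ρ : ℝ), (∀ z : S × ℝ, |z.2 - inner ℝ y (z.1 : E)| < ρ → h z = 0) →
    ∀ x, dist x y < ρ → f x = 0 ∧ g x = 0) ∧
  ∀ x, f x = ∫ w : S, h (w, inner ℝ x (w : E)) ∂sg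

/-- **L8P** (exterior locality). As QWP.L8P. `h` nice with support in `{ρ < |q|}`; it vanishes for `|q| < ρ'`, some `ρ' > ρ` (compactness). `f, g` of DecX vanish on `B(y,ρ')`. `φ1 = c0 Δg = O(|x|^{-4})`, `φ2 = - c0 Δf = O(|x|^{-3})` are in `L^{8/(7+2s)}`, `L^{8/(5+2s)}` (`32/(7+2s) > 4`, `24/(5+2s) > 4`). `φ_{i,n} = χ_n φ_i` are
test functions supported in `xt y ρ`, and `Rs s φ_{1,n} + dRs s φ_{2,n}` is Cauchy (IsoP, SobP dual) with a limit `w ∈ TS s (xt y ρ)`. For test `a, b`: `⟨Theta s a b, w⟩ = ∫ a φ1 + ∫ b φ2` (IsoP) `= c0 (∫ g Δa - ∫ f Δb) = c0 (∫ h dRad(Δa) - ∫ h Rad(Δb)) = ⟨Theta s a b, JK s h⟩` (DecX, PJ). Density of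
the `Theta s a b`: `JK s h = w`. So `PS s {ρ<|q|} ≤ TS s (xt y ρ)`. -/
def St_L8P : Prop := ∀ (s : ℝ) (y : E) (ρ : ℝ) (k : K), |s| < 1 / 2 → 0 ≤ ρ →
  na s {z | ρ < |z.2 - inner ℝ y (z.1 : E)|} k ≤ ex s (xt y ρ) k ∧
  (Van s (xt y ρ) k → na s {z | ρ < |z.2 - inner ℝ y (z.1 : E)|} k = 0)

/-- **Gag1** [as QWP.Gag1] (one dimensional Gagliardo formula), `0 < τ < 1/2`. Proof: Plancherel in `p` for `h(·+u) - h`, and `∫ |u|^{-1-2τ} |e^{2πi r u} - 1|² du = C |2πr|^{2τ}` (scaling, the integral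
converges, `0 < 2τ < 2`). -/
def St_Gag1 : Prop := ∀ τ : ℝ, 0 < τ → τ < 1 / 2 → ∃ C : ℝ, 0 < C ∧ ∀ h : S × ℝ → ℝ, Nice univ h →
  ∫⁻ u : ℝ, ∫⁻ z : S × ℝ, ENNReal.ofReal (|u| ^ (-1 - 2 * τ) * (h (z.1, z.2 + u) - h z) ^ 2) ∂mu =
    ENNReal.ofReal (C * ‖JK (-τ) h‖ ^ 2)

/-- **Hrd** [as QWP.Hrd] (one dimensional fractional Hardy inequality), `0 < τ < 1/2`. Proof. `‖h‖_W² := ∫∫ |h|² |p|^{-2τ}`, finite (`2τ < 1`). For `λ ∈ [1,2]` let `h_λ(w,p) = h(w,λp)`: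
`‖h_λ‖_W = λ^{-(1-2τ)/2} ‖h‖_W`, so `(1 - λ^{-(1-2τ)/2}) ‖h‖_W ≤ ‖h - h_λ‖_W`. Square and integrate over `λ ∈ [1,2]`: `c ‖h‖_W² ≤ ∫_1^2 ∫∫ |h(w,p) - h(w,λp)|² |p|^{-2τ}`; substitute
`u = (λ-1) p`, `du = |p| dλ`, `|u| ≤ |p|`: `≤ ∫∫∫ |h(w,p) - h(w,p+u)|² |p|^{-1-2τ} 1_{|u| ≤ |p|} ≤ ∫∫∫ .. |u|^{-1-2τ}`; Gag1. -/
def St_Hrd : Prop := ∀ τ : ℝ, 0 < τ → τ < 1 / 2 → ∃ C : ℝ, 0 < C ∧ ∀ h : S × ℝ → ℝ, Nice univ h →
  ∫⁻ z : S × ℝ, ENNReal.ofReal (|z.2| ^ (-2 * τ) * h z ^ 2) ∂mu ≤ ENNReal.ofReal (C * ‖JK (-τ) h‖ ^ 2)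

/-- **MulB** [as QWP.MulB] (bounded multiplication), `ζ` smooth, `ζ'` with compact support. Proof. Translation and dilation (PJ for `tau`; `JK s` and `dl` commute up to a factor) reduce to `R = 1`, `c = 0`. `s < 0`,
`τ = -s`: by Gag1 for `ζh`, `|ζ(x)h(x) - ζ(y)h(y)|² ≤ 2 ‖ζ‖_∞² |h(x)-h(y)|² + 2 |h(y)|² |ζ(x)-ζ(y)|²` and `∫ |ζ(x)-ζ(y)|² |x-y|^{-1-2τ} dx ≤ C |y|^{-2τ}` (`ζ' = 0` off `[-L,L]`: for `|y| ≥ 2L` the integrand vanishes unless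
`|x-y| ≥ |y|/2`; for `|y| < 2L` bound by `min(C|x-y|², C)`), then Hrd. `s = 0`: trivial. `s > 0`: duality, `⟨JK s (ζh), JK (-s) h'⟩ = ∫ ζ h h' = ⟨JK s h, JK (-s) (ζh')⟩` (PJ), and the `JK (-s) h'` are dense (DnsP). -/
def St_MulB : Prop := ∀ (s : ℝ) (ζ : ℝ → ℝ), |s| < 1 / 2 → Sm ζ → HasCompactSupport (deriv ζ) →
  ∃ C : ℝ, 0 < C ∧ ∀ (R c : ℝ) (h : S × ℝ → ℝ), 0 < R → Nice univ h →
    ‖JK s (fun z => ζ ((z.2 - c) / R) * h z)‖ ≤ C * ‖JK s h‖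

/-- **MulP** [as QWP.MulP] (the multiplication operators). Proof: by MulB `JK s h ↦ JK s (ζh)` is well defined and bounded on a dense subspace (DnsP: `PS s univ = ⊤`; linear by PJ), extend it to a bounded operator
`T` and let `M = T*` (adjoint); uniqueness of `M` by density, so `Mul s ζ` has `IsMul`. Bound by `na`: `k' = proj_{PS s A} k`, `⟨Mul s ζ (k - k'), JK s h⟩ = ⟨k - k', JK s (ζh)⟩ = 0` since `ζh` is nice with support in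
`A`; so `Mul s ζ k = Mul s ζ k'`. `tau`: PJ. Linear in `ζ`: uniqueness. -/
def St_MulP : Prop := ∀ (s : ℝ) (ζ : ℝ → ℝ), |s| < 1 / 2 → Sm ζ → HasCompactSupport (deriv ζ) →
  (∃ C : ℝ, 0 < C ∧ ∀ (R c : ℝ), 0 < R → IsMul s (fun p => ζ ((p - c) / R)) (Mul s (fun p => ζ ((p - c) / R))) ∧
    ∀ (k : K), ‖Mul s (fun p => ζ ((p - c) / R)) k‖ ≤ C * ‖k‖ ∧
      ∀ A : Set (S × ℝ), closure {z : S × ℝ | ζ ((z.2 - c) / R) ≠ 0} ⊆ A →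
        ‖Mul s (fun p => ζ ((p - c) / R)) k‖ ≤ C * na s A k) ∧
  IsMul s ζ (Mul s ζ) ∧
  (∀ (t : ℝ) (k : K), Mul s ζ (tau t k) = tau t (Mul s (fun p => ζ (p + t)) k)) ∧
  (∀ k : K, Mul s (fun p => 1 - ζ p) k = k - Mul s ζ k) ∧
  (∀ k : K, Mul s (fun _ => 1) k = k) ∧
  ∀ ζ' : ℝ → ℝ, Sm ζ' → HasCompactSupport (deriv ζ') → ∀ k : K,
    Mul s (fun p => ζ p + ζ' p) k = Mul s ζ k + Mul s ζ' k

/-- **CutM** (multiplication by a test function in `Ḣ^a`, `0 ≤ a < 2`). As QWP.CutM (`2a < 4`). -/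
def St_CutM : Prop := ∀ (a : ℝ) (χ : E → ℝ), 0 ≤ a → a < 2 → IsTest χ → ∃ C : ℝ, 0 < C ∧
  ∀ (M : ℝ) (f : E → ℝ), 0 < M → IsSch f → hs a (fun x => χ (M⁻¹ • x) * f x) ≤ C * hs a f

/-- **CutP** (cut-off operators). As QWP.CutP. Proof: `χ` smooth, `= 1` on `B(0,1)`, `= 0` off `B(0,2)`. `Theta s f g ↦ Theta s (χ_M f) (χ_M g)`, `χ_M = χ(·/(M+1))`, is bounded uniformly in `M` (CutM with `a = 3/2+s`, `1/2+s`; IsoP) on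
the dense space of test states (well defined: `Theta s` is injective, FldP), and equals the identity on a given test state for large `M`. `Van`: fields (ExBP). -/
def St_CutP : Prop := ∀ s : ℝ, |s| < 1 / 2 → ∃ (C : ℝ) (X : ℕ → K →L[ℝ] K),
  (∀ (M : ℕ) (k : K), ‖X M k‖ ≤ C * ‖k‖) ∧
  (∀ (M : ℕ) (k : K), Van s (xt 0 (2 * (M : ℝ) + 2)) (X M k)) ∧
  (∀ (M : ℕ) (k : K) (Ω : Set E), IsOpen Ω → Van s Ω k → Van s Ω (X M k)) ∧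
  (∀ k : K, Tendsto (fun M => X M k) atTop (𝓝 k)) ∧
  (∀ M : ℕ, ∃ χ : E → ℝ, IsTest χ ∧ (∀ x, 0 ≤ χ x ∧ χ x ≤ 1) ∧ (∀ x, ‖x‖ ≤ M + 1 → χ x = 1) ∧
    ∀ k : K, (U s (X M k) =ᵐ[volume] fun x => χ x * U s k x) ∧ (V s (X M k) =ᵐ[volume] fun x => χ x * V s k x))

/-- **FSPP** (finite speed of propagation). As QWP.FSPP, with FreX. -/
def St_FSPP : Prop := ∀ (s : ℝ) (Ω : Set E) (t : ℝ) (k : K), |s| < 1 / 2 → IsOpen Ω →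
  (Van s Ω k → Van s (shr Ω |t|) (tau t k)) ∧ ex s (shr Ω |t|) (tau t k) ≤ ex s Ω k

/-- **DecayP** (decay of test states, derivatives up to order 3). Proof. By Fourier inversion and Pol the functions `f' = u(t,·)`, `g' = v(t,·)` of WvS are `f'(x) = ∫_S k(w, x·w - t) dw`, `g'(x) = - ∫_S ∂_p k(w, x·w - t) dw`, `k = c0 (J0F (-3) f + J1F (-1) g)`: indeed `∫ M_t e^{2πi x·ξ} dξ =
(1/2) ∫_S ∫_ℝ |r|³ M_t(r w) e^{2πi r x·w} dr dw` and `|2πr|³ M_t(r w)` may be replaced by `e^{-2πi r t} (|2πr|³ f^(r w) + |2πr| (2πi r) g^(r w))` (the difference is odd under `(w,r) → (-w,-r)`). Every derivative in `x` gives a factor `w_i` and one more `∂_p`. All functions `∂_p^n k` are bounded by `C/(1+p²)` (integrate by parts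
twice in `r`: the symbols `|r|³ r^n f^(r w)`, `|r| r^{n+1} g^(r w)` are `C^1` with absolutely integrable second derivative). So for `|x| ≤ |t|/2` everything is `≤ C/(1+t²)`. For `|t| ≥ 1` and `|t|/2 ≤ |x| ≤ |t| + M0` (larger `|x|`: `f' = g' = 0`), `t > 0`: SL1, `1 - p²/|x|² ≤ 2(|x| - p)/|x| ≤ 2(M0 + |t-p|)/|x|`:
`∫_S dw/(1 + (x·w - t)²) ≤ (4π/|x|) ∫ (2(M0+|t-p|)/|x|)^{1/2} dp/(1+(p-t)²) ≤ C |x|^{-3/2}`. -/
def St_DecayP : Prop := ∀ f g : E → ℝ, IsTest f → IsTest g → ∃ C M0 : ℝ, 0 < C ∧ 1 ≤ M0 ∧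
  ∀ t : ℝ, ∃ f' g' : E → ℝ, IsTest f' ∧ IsTest g' ∧
    (∀ s : ℝ, -1 / 2 ≤ s → s < 1 / 2 → tau t (Theta s f g) = Theta s f' g') ∧
    (∀ x, |t| + M0 ≤ ‖x‖ → f' x = 0 ∧ g' x = 0) ∧
    ∀ x, ∀ n ≤ 3, ‖iteratedFDeriv ℝ n f' x‖ ≤ C / (1 + |t|) ^ (3 / 2 : ℝ) ∧
      ‖iteratedFDeriv ℝ n g' x‖ ≤ C / (1 + |t|) ^ (3 / 2 : ℝ)

/-- **D1P** (a free wave leaves every half space that moves with speed one). As QWP.D1P: `k = Theta s f g`, `W = Theta s (χ1 f') (χ1 g')`, `‖W‖² = c0 (hs (3/2+s) .. + hs (1/2+s) ..)`, by Hs (interpolation with `n = 3`) bounded by products of `L²` norms of derivatives of order `0` and `3`. The region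
`{x·e ≥ t+c-1, |x| ≤ t+M0}` has volume `≤ C t^{3/2}` (`x·e` in an interval of fixed length, distance to the axis `≤ C t^{1/2}`, in three dimensions), so these are `≤ C t^{-3/2} t^{3/4}`. -/
def St_D1P : Prop := ∀ (s : ℝ) (k : K) (e : E) (c : ℝ), |s| < 1 / 2 → ‖e‖ = 1 →
  Tendsto (fun t : ℝ => ex s (half e (c + t)) (tau t k)) atTop (𝓝 0)

/-- **GamP** (sources). As QWP.GamP (`c0 ‖dRs s φ‖² = hs (-1/2-s) φ`). -/
def St_GamP : Prop := ∀ (s : ℝ) (F : E → ℝ) (B : ℝ), |s| < 1 / 2 → 0 ≤ B → LocallyIntegrable F volume →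
  (∀ φ, IsTest φ → |∫ x, F x * φ x| ≤ B * (hs (-1 / 2 - s) φ) ^ (1 / 2 : ℝ)) →
  IsGam s F (Gam s F) ∧ ‖Gam s F‖ ≤ √c0 * B ∧ (U s (Gam s F) =ᵐ[volume] 0) ∧ (V s (Gam s F) =ᵐ[volume] F) ∧
  ∀ w, IsGam s F w → w = Gam s F

end Pool.Agent.QWF
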