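import Pool.Agent.QWF.StA

set_option autoImplicit false

/-!
# QWF, block A, part 2: Strichartz estimates, lower semicontinuity, near field, compactness

Every `St_X` is to be proved as `theorem thm_X : St_X` (possibly with other statements of QWF as hypotheses, also
`Pool.Agent.QWP.St_HLSP`, `Pool.Agent.QWP.St_Rsz`, which are about the line only) in `Pool/Agent/QWF/X.lean`.
-/

open MeasureTheory Filter Topology Set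
open scoped ENNReal NNReal RealInnerProductSpace

namespace Pool.Agent.QWF

/-! ### Strichartz estimates -/

/-- The kernel `4π |z|⁻¹ √(1 - t²/|z|²)` (zero for `|t| ≥ |z|`). -/
noncomputable def Kc (t : ℝ) (z : E) : ℝ := 4 * Real.pi / ‖z‖ * √(max 0 (1 - t ^ 2 / ‖z‖ ^ 2))

/-- **Sph** (dual Radon transform of a Radon transform). Proof: SL1 (zonal functions) and RadT: for a bounded continuous `g` of one variable `∫ g(t) ∫_S Rad f (w, x·w - t) dw dt = ∫_S ∫_y f(y) g((x-y)·w) dy dw = ∫_y f(y) ∫ g(t) Kc t (x-y) dt dy`; both sides are continuous in `t`. (As the second clause of QWE.Sph.) -/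
def St_Sph : Prop := ∀ f : E → ℝ, IsTest f → ∀ (t : ℝ) (x : E),
  ∫ w : S, Rad f (w, inner ℝ x (w : E) - t) ∂sg = ∫ y, f y * Kc t (x - y)

/-- **KerB** (one dimensional profile). Proof: `P(t) = √(max 0 (1 - t²)) ≤ 1`, supported in `[-1,1]`: for `|t| ≤ 2` the integral of `|t-t'|^{α-1}` over `[-1,1]` is bounded; for `|t| > 2` it is `≤ C |t|^{α-1}`. -/
def St_KerB : Prop := ∀ α : ℝ, 0 < α → α < 1 → ∃ C : ℝ, 0 < C ∧ ∀ t : ℝ,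
  Integrable (fun t' => √(max 0 (1 - t' ^ 2)) * |t - t'| ^ (α - 1)) volume ∧
    |∫ t' : ℝ, √(max 0 (1 - t' ^ 2)) * |t - t'| ^ (α - 1)| ≤ C * (1 + |t|) ^ (α - 1)

/-- **KerP** (the kernel of `T T*`), `0 < s < 1/2`. As QWP.KerP, case `s > 0`. `A(t) := ⟨tau t (J0 0 φ), J0 0 ψ⟩ = ∫∫ φ(x) ψ(y) Kc t (x-y)` (PJ, RadT, Sph) `= ∫ e^{-2πirt} G(r) dr`, `G(r) = ∫_S ft φ (r w) conj (ft ψ (r w)) dw` (hermitian part), compactly supported in `t`;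
`B(t) := ⟨tau t (Rs s φ), Rs s ψ⟩ = ∫ |2πr|^{-2s} e^{-2πirt} G(r) dr` (Par: the Hilbert transforms cancel). QWP.Rsz (ii) with `α = 2s`, Fubini: `N t z = C2 ∫ Kc t' z |t-t'|^{α-1} dt'`; `Kc t z = 4π |z|^{-1} P(t/|z|)`, scaling and KerB: `|N t z| ≤ C |z|^{-1+2s} (1 + |t|/|z|)^{-1+2s}`. -/
def St_KerP : Prop := ∀ s : ℝ, 0 < s → s < 1 / 2 → ∃ (C : ℝ) (N : ℝ → E → ℝ), 0 < C ∧ Measurable (Function.uncurry N) ∧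
  (∀ t z, z ≠ 0 → |N t z| ≤ C * (|t| + ‖z‖) ^ (-1 + 2 * s)) ∧
  ∀ (t : ℝ) (φ ψ : E → ℝ), IsTest φ → IsTest ψ →
    inner ℝ (tau t (Rs s φ)) (Rs s ψ) = ∫ x, ∫ y, φ x * ψ y * N t (x - y)

/-- **KerL** (the kernel in mixed norms). `1/q + 4/r = 1/2 - s`, `2 < q`. As QWP.KerL: `‖(|t| + |·|)^{-1+2s}‖_{L^{r/2}(ℝ⁴)} = C |t|^{-(1-2s) + 8/r} = C |t|^{-2/q}` (`(1-2s) r/2 > 4`), Young, QWP.HLSP with `γ = 2/q`. -/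
def St_KerL : Prop := ∀ (s q r : ℝ), 0 < s → s < 1 / 2 → 2 < q → 0 < r → 1 / q + 4 / r = 1 / 2 - s → ∃ C : ℝ, 0 < C ∧
  ∀ F : ℝ → E → ℝ≥0∞, Measurable (Function.uncurry F) →
  ∫⁻ t, ∫⁻ t', ∫⁻ x, ∫⁻ y, F t x * F t' y * ENNReal.ofReal ((|t - t'| + ‖x - y‖) ^ (-1 + 2 * s)) ≤
    ENNReal.ofReal C * (∫⁻ t, (∫⁻ x, F t x ^ (r / (r - 1))) ^ ((r - 1) / r * (q / (q - 1)))) ^ (2 * (q - 1) / q)

/-- **StrT** (Strichartz estimate for test states). As QWP.StrT: `r > 8` (`4/r < 1/2`), `r = 8/(1-2s1)` for some `s1 ∈ (-1/2,1/2)`, the position `f'` of `tau t (Theta s f g)` (FreX, DecayP) is also the position field of `tau t (Theta s1 f g)`, so `t ↦ f'(t)` is continuous with values in `L^r` (FldP). -/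
def St_StrT : Prop := ∀ (s q r : ℝ), 0 < s → s < 1 / 2 → 2 < q → 0 < r → 1 / q + 4 / r = 1 / 2 - s → ∃ C : ℝ, 0 < C ∧
  ∀ f g : E → ℝ, IsTest f → IsTest g →
  ∫⁻ t, eLpNorm (U s (tau t (Theta s f g))) (ENNReal.ofReal r) volume ^ q ≤
    (ENNReal.ofReal C * ‖Theta s f g‖ₑ) ^ q

/-- **LscP** (lower semicontinuity). As QWP.LscP. -/
def St_LscP : Prop := ∀ (s : ℝ) (p : ℝ≥0∞) (B : Set E), |s| < 1 / 2 → 1 ≤ p → MeasurableSet B →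
  LowerSemicontinuous (fun k : K => eLpNorm (B.indicator (U s k)) p volume) ∧
  (∀ i, LowerSemicontinuous (fun k : K => eLpNorm (B.indicator (DU s k i)) p volume)) ∧
  LowerSemicontinuous (fun k : K => eLpNorm (B.indicator (V s k)) p volume)

/-- **StrP** (Strichartz estimate). As QWP.StrP. -/
def St_StrP : Prop := ∀ (s q r : ℝ), 0 < s → s < 1 / 2 → 2 < q → 0 < r → 1 / q + 4 / r = 1 / 2 - s → ∃ C : ℝ, 0 < C ∧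
  ∀ k : K, ∫⁻ t, eLpNorm (U s (tau t k)) (ENNReal.ofReal r) volume ^ q ≤ (ENNReal.ofReal C * ‖k‖ₑ) ^ q

/-- **StrS** (the Strichartz estimate in the norm of the local theory, and a second pair). `b > 4`, `s = sig b`: `1/2 - s = 2/b`. StrP with `q = b`, `r = 4b` (`1/b + 4/(4b) = 2/b`), and with `q = (b + 2)/2`, `r = b(b+2)` (`2/(b+2) + 4/(b(b+2)) = 2/b`). -/
def St_StrS : Prop := ∀ b : ℝ, 4 < b → ∃ C : ℝ, 0 < C ∧ ∀ k : K,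
  ∫⁻ t, sn b (tau t k) ^ b ≤ (ENNReal.ofReal C * ‖k‖ₑ) ^ b ∧
  ∫⁻ t, eLpNorm (U (sig b) (tau t k)) (ENNReal.ofReal (b * (b + 2))) volume ^ ((b + 2) / 2) ≤
    (ENNReal.ofReal C * ‖k‖ₑ) ^ ((b + 2) / 2)

/-- **SnP** (the size `sn b`). As QWP.SnP (scaling: `e^{(1/2-s)a} e^{-4a/(4b)} = e^{a/b}`). -/
def St_SnP : Prop := ∀ b : ℝ, 4 < b →
  (∀ k k' : K, sn b (k + k') ≤ sn b k + sn b k') ∧ (∀ (c : ℝ) (k : K), sn b (c • k) = ‖c‖ₑ * sn b k) ∧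
  (∀ (y : E) (a : ℝ) (k : K), sn b (gr y a k) = ENNReal.ofReal (Real.exp (a / b)) * sn b k) ∧
  (∀ k : K, sn b (rev k) = sn b k) ∧ sn b 0 = 0 ∧ LowerSemicontinuous (fun k : K => sn b k)

/-! ### Hilbert transform on the line -/

/-- Hilbert transform (absolutely convergent for `C¹` functions with compact support). -/
noncomputable def HT (φ : ℝ → ℝ) (q : ℝ) : ℝ := (1 / Real.pi) * ∫ p in Ioi (0 : ℝ), (φ (q - p) - φ (q + p)) / p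

/-- **HTb** (calculus). Proof. `|φ(q-p) - φ(q+p)| ≤ 2 p sup |φ'|`: the integral over `(0,1]` is `≤ 2 sup |φ'|`, over `(1,∞)` it is `≤ ∫ |φ|`. Smoothness: differentiate under the integral (same bounds for `φ'`). Antisymmetry: Fubini on `p > ε`, `∫∫_{p>ε} (φ(q-p) - φ(q+p)) g(q)/p dq dp = -∫∫_{p>ε} φ(q) (g(q-p) - g(q+p))/p`, `ε → 0`.
Off the support: `∫_{p>0} (φ(q-p) - φ(q+p))/p dp = ∫ φ(p') /(q - p') dp'` (substitute `p' = q - p`, resp. `p' = q + p`). Dilation: substitution. -/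
def St_HTb : Prop :=
  (∀ φ : ℝ → ℝ, Sm φ → HasCompactSupport φ → Sm (HT φ) ∧ (∀ q, deriv (HT φ) q = HT (deriv φ) q) ∧
    (∀ B q, (∀ p, |deriv φ p| ≤ B) → |HT φ q| ≤ 2 * B + ∫ p, |φ p|) ∧
    (∀ g : ℝ → ℝ, Sm g → HasCompactSupport g → Integrable (fun q => HT φ q * g q) volume ∧
      ∫ q, HT φ q * g q = - ∫ q, φ q * HT g q) ∧
    (∀ r q, 0 < r → (∀ p, r ≤ |p| → φ p = 0) → r < |q| → HT φ q = (1 / Real.pi) * ∫ p, φ p / (q - p)) ∧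
    ∀ l c q : ℝ, 0 < l → HT (fun p => φ (l * p + c)) q = HT φ (l * q + c))

/-- **HTr** (the Hilbert transform of Radon transforms). Proof: let `φ` be one of the functions `Rad ψ (w,·)`, `dRad ψ (w,·)` (smooth, compactly supported, RadT), `φ^` its Fourier transform (`= ft ψ (r w)`, resp. `2πi r ft ψ (r w)`, FSl). For `ε > 0`: `∫ (- i sgn r) e^{-ε|r|} φ^(r) e^{2πi r q} dr = ∫ φ(q-p) Q_ε(p) dp =
∫_{p>0} (φ(q-p) - φ(q+p)) Q_ε(p) dp`, `Q_ε(p) = ∫ (- i sgn r) e^{-ε|r|} e^{2πi r p} dr = 4πp/(ε² + 4π²p²)` (Fubini; `φ` is the inverse transform of `φ^`, or compute with the transform of `Q_ε`), and `0 ≤ Q_ε(p) ≤ 1/(πp)`, `Q_ε(p) → 1/(πp)`: dominated convergence on both sides. `(- i sgn r) = - 2πi r/|2πr|`. -/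
def St_HTr : Prop := ∀ ψ : E → ℝ, IsTest ψ → ∀ (w : S) (p : ℝ),
  HT (fun p => Rad ψ (w, p)) p = - J1F 1 ψ (w, p) ∧ HT (fun p => dRad ψ (w, p)) p = J0F (-1) ψ (w, p)

/-! ### Near field -/

/-- Mollifiers on the line with support in `(-r, r)`. -/
def IsMol (r : ℝ) (φ : ℝ → ℝ) : Prop := Sm φ ∧ (∀ p, 0 ≤ φ p) ∧ (∀ p, r ≤ |p| → φ p = 0) ∧ ∫ p, φ p = 1

/-- **NFK** (kernel bound for the near field). Proof: slices SL along `e = z/|z|`: the integral is `∫_{-1}^{1} (HT φ)^{(n)}(|z| s + σ) B(s) ds`, `B(s) = √(1-s²) ∫_{S²} b(s e + √(1-s²) O v) dv`. Let `η` be smooth, `η = 1` for `|s| ≤ 1/2`, `η = 0` for `|s| ≥ 3/4`. (1) Part `1 - η`: `|s| ≥ 1/2`, so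
`||z| s + σ| ≥ |z|/2 - 1/8 ≥ |z|/5`, and there (HTb, derivatives of `1/(q-p)`, `|p| < 1/100`) `|(HT φ)^{(n)}(q)| ≤ n!/(π (|q| - 1/100)^{n+1}) ≤ C |z|^{-n-1}`. (2) Part `η`: `(HT φ)^{(n)}(|z| s + σ) = |z|^{-n} (d/ds)^n (HT φ)(|z| s + σ)`, integrate by parts `n` times; `g = (ηB)^{(n)}` is smooth with compact support
(`η B` is smooth: `√(1-s²)` is smooth for `|s| ≤ 3/4`), `∫ (HT φ)(|z| s + σ) g(s) ds = |z|^{-1} ∫ (HT φ)(q) g((q-σ)/|z|) dq = -|z|^{-1} ∫ φ(q) (HT g)((q - σ)/|z|) dq` (HTb), `|HT g| ≤ 2 sup |g'| + ∫ |g| ≤ C(n, B)`. -/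
def St_NFK : Prop := ∀ (n : ℕ) (B : ℝ), ∃ C : ℝ, ∀ (b : E → ℝ), SmE b →
  (∀ j ≤ n + 1, ∀ x : E, ‖x‖ ≤ 1 → ‖iteratedFDeriv ℝ j b x‖ ≤ B) →
  ∀ (φ : ℝ → ℝ), IsMol (1 / 100) φ →
  ∀ (z : E) (σ : ℝ), 5 / 12 ≤ ‖z‖ → 0 ≤ σ → σ ≤ 1 / 8 →
  |∫ w : S, b w * iteratedDeriv n (HT φ) (inner ℝ z (w : E) + σ) ∂sg| ≤ C / ‖z‖ ^ (n + 1)

/-- The regularised near field state `κ^ε` (on the level of `G = |∂_p|^{-s} k`). -/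
noncomputable def kap (θ : ℝ → ℝ) (F : E → ℝ) (σ : ℝ) (φ : ℝ → ℝ) (z : S × ℝ) : ℝ :=
  c0 * ∫ y : E, F y * ∑ j ∈ Finset.range 3, (Nat.choose 2 j : ℝ) * (-1) ^ (j + 1) *
    iteratedDeriv j θ (inner ℝ y (z.1 : E) - σ) *
    iteratedDeriv (2 - j) φ (z.2 - (inner ℝ y (z.1 : E) - σ))

/-- **NFt** (explicit form of the near field element). Proof: `Gam s F = Theta s 0 F = - c0 J0 (-s) (lap F) = - c0 JK (-s) (Rad (lap F))` (IsoP, GamP; PJ, NcR), `tau` on `JK` (PJ), and `Mul s θ (JK (-s) h') = JK (-s) (θ h')` for nice `h'`: test with `JK s h` (IsMul from MulP, PJ: both are `∫ θ h' h`), density of the `JK s h` (DnsP). -/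
def St_NFt : Prop := ∀ (s σ : ℝ) (θ : ℝ → ℝ) (F : E → ℝ), |s| < 1 / 2 → Sm θ → (∀ p, |θ p| ≤ 1) →
  (∀ p, 1 / 12 ≤ |p| → θ p = 0) → IsTest F →
  Nice univ (fun z => θ z.2 * Rad (lap F) (z.1, z.2 + σ)) ∧
  Mul s θ (tau (-σ) (Gam s F)) = -c0 • JK (-s) (fun z => θ z.2 * Rad (lap F) (z.1, z.2 + σ))

/-- **NFa** (weak approximation). As QWE.NFa: let `Ψ0, Ψ1, Ψ2` be continuous bounded functions on `S × ℝ`, `∂_p Ψ0 = Ψ1`, `∂_p Ψ1 = Ψ2`. With `a = y·w - σ`: `∫ θ(p) (∂_p² Rad F)(w, p + σ) Ψ0(w,p) dp = ∫ F(y) ∂_p²(θ Ψ0)(w, a) dy` (RadT formula and two integrations by parts; `Rad (lap F) = ∂_p² Rad F`), and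
`∫ φ_n^{(2-j)}(p - a) Ψ0(w,p) dp = (-1)^{2-j} ∫ φ_n(p - a) Ψ_{2-j}(w,p) dp → (-1)^j Ψ_{2-j}(w,a)`; Leibniz: `-(θ Ψ0)'' = Σ_j binom(2,j) (-1)^{j+1} (-1)^j θ^{(j)} Ψ_{2-j}`. `kap` is bounded with compact support in `p`. -/
def St_NFa : Prop := ∀ (θ : ℝ → ℝ) (F : E → ℝ) (σ : ℝ), Sm θ → (∀ p, |θ p| ≤ 1) → (∀ p, 1 / 12 ≤ |p| → θ p = 0) →
  IsTest F → (∀ x, 1 / 3 ≤ ‖x‖ → F x = 0) →
  ∀ φ : ℕ → ℝ → ℝ, (∀ n : ℕ, IsMol (1 / (n + 100 : ℝ)) (φ n)) →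
  ∀ Ψ0 Ψ1 Ψ2 : S × ℝ → ℝ, Continuous Ψ0 → Continuous Ψ1 → Continuous Ψ2 →
    (∃ B, ∀ z, |Ψ0 z| ≤ B ∧ |Ψ1 z| ≤ B ∧ |Ψ2 z| ≤ B) →
    (∀ w p, HasDerivAt (fun p => Ψ0 (w, p)) (Ψ1 (w, p)) p ∧ HasDerivAt (fun p => Ψ1 (w, p)) (Ψ2 (w, p)) p) →
    Tendsto (fun n => ∫ z, kap θ F σ (φ n) z * Ψ0 z ∂mu) atTop
      (𝓝 (-c0 * ∫ z, θ z.2 * Rad (lap F) (z.1, z.2 + σ) * Ψ0 z ∂mu))

/-- **NFc** (pointwise bounds of the regularised near field, up to order 3). Proof. `f(x) = - ∫_S (H kap)(w, x·w) dw`, `g(x) = ∫_S ∂_p (H kap)(w, x·w) dw`, `H` the Hilbert transform in `p`: explicitly `f(x) = c0 ∫ F(y) Σ_j binom(2,j) (-1)^j ∫_S θ^{(j)}(y·w - σ) (HT φ)^{(2-j)}((x-y)·w + σ) dw dy`, `g` the same with the opposite sign and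
`(HT φ)^{(3-j)}`. Every `∂_{x_i}` gives a factor `w_i` and one more derivative of `HT φ` (HTb). For `|x| ≥ 3/4`, `|y| < 1/3`: `|x - y| ≥ 5/12`, NFK with `b(w) = θ^{(j)}(y·w - σ) w^α` (cut off smoothly for large `|w|`). Duality: `∫ f ψ = - ∫_S ∫_p HT(kap(w,·)) Rad ψ dp dw = ∫_S ∫_p kap HT(Rad ψ (w,·)) = - ∫ kap J1F 1 ψ`
(RadT formula, HTb, HTr); `∫ g ψ = ∫_S ∫ ∂_p HT(kap) Rad ψ = - ∫_S ∫ HT(kap) dRad ψ = ∫ kap HT(dRad ψ) = ∫ kap J0F (-1) ψ`. -/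
def St_NFc : Prop := ∀ θ : ℝ → ℝ, Sm θ → (∀ p, |θ p| ≤ 1) → (∀ p, 1 / 12 ≤ |p| → θ p = 0) →
  ∃ C : ℝ, 0 < C ∧ ∀ (F : E → ℝ) (σ : ℝ) (φ : ℝ → ℝ), IsTest F → (∀ x, 1 / 3 ≤ ‖x‖ → F x = 0) → 0 ≤ σ → σ ≤ 1 / 8 →
    IsMol (1 / 100) φ → ∃ f g : E → ℝ, SmE f ∧ SmE g ∧
    (∀ ψ, IsTest ψ → ∫ x, f x * ψ x = - ∫ z, kap θ F σ φ z * J1F 1 ψ z ∂mu ∧
      ∫ x, g x * ψ x = ∫ z, kap θ F σ φ z * J0F (-1) ψ z ∂mu) ∧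
    ∀ x, 3 / 4 ≤ ‖x‖ → ∀ n ≤ 3, ‖iteratedFDeriv ℝ n f x‖ ≤ C * (∫ y, |F y|) / ‖x‖ ^ (n + 1) ∧
      ‖iteratedFDeriv ℝ n g x‖ ≤ C * (∫ y, |F y|) / ‖x‖ ^ (n + 2)

/-- **DyS** (states from decaying functions; dyadic decomposition). As QWP.DyS: `‖∂^α f_j‖_2 ≤ C B 2^{-(1+|α|) j} 2^{2j}`, `‖∂^α g_j‖_2 ≤ C B 2^{-(2+|α|)j} 2^{2j}` (`|α| ≤ 3`), by Hs (interpolation, `n = 3`) `hs (3/2+s) f_j ≤ C B² 2^{-(1+2s) j}`, `hs (1/2+s) g_j ≤ C B² 2^{-(1+2s) j}`. -/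
def St_DyS : Prop := ∀ s : ℝ, |s| < 1 / 2 → ∃ C : ℝ, 0 < C ∧ ∀ (f g : E → ℝ) (B : ℝ), SmE f → SmE g → 0 ≤ B →
  (∀ x, 3 / 4 ≤ ‖x‖ → ∀ n ≤ 3, ‖iteratedFDeriv ℝ n f x‖ ≤ B / ‖x‖ ^ (n + 1) ∧
    ‖iteratedFDeriv ℝ n g x‖ ≤ B / ‖x‖ ^ (n + 2)) →
  ∃ W : K, ‖W‖ ≤ C * B ∧ ∀ ψ, IsTest ψ → tsupport ψ ⊆ xt 0 1 →
    inner ℝ W (Rs s ψ) = ∫ x, f x * ψ x ∧ inner ℝ W (dRs s ψ) = ∫ x, g x * ψ x

/-- **NF1P** (near field, unit scale, smooth sources). As QWP.NF1P: `κ = Mul s θ (tau (-σ) (Gam s F))`, `φ_n` mollifiers with support in `(-1/(n+100), 1/(n+100))`, `W_n` from NFc and DyS with `B = C ‖F‖_1`. For `w = Rs s ψ1 + dRs s ψ2`, `ψ1, ψ2` test functions supported in `xt 0 1`: by NFt and PJ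
`⟨κ, w⟩ = -c0 (- ∫ G J1F 1 ψ1 + ∫ G J0F (-1) ψ2)`, `G = θ(z.2) Rad (lap F) (z.1, z.2+σ)`, which by NFa (with `Ψ0 = - J1F 1 ψ1`, `Ψ1 = J0F (-1) ψ1`, `Ψ2 = J1F (-1) ψ1`, resp. `Ψ0 = J0F (-1) ψ2`, `Ψ1 = J1F (-1) ψ2`, `Ψ2 = - J0F (-3) ψ2`; JD) is `lim ⟨W_n, w⟩ ≤ C ‖F‖_1 ‖w‖`. Such `w` are dense in `TS s (xt 0 1)`. -/
def St_NF1P : Prop := ∀ (s : ℝ) (θ : ℝ → ℝ), |s| < 1 / 2 → Sm θ → (∀ p, |θ p| ≤ 1) → (∀ p, 1 / 12 ≤ |p| → θ p = 0) →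
  ∃ C : ℝ, 0 < C ∧ ∀ (F : E → ℝ) (σ : ℝ), IsTest F → (∀ x, 1 / 3 ≤ ‖x‖ → F x = 0) → 0 ≤ σ → σ ≤ 1 / 8 →
  ex s (xt 0 1) (Mul s θ (tau (-σ) (Gam s F))) ≤ C * ∫ x, |F x|

/-- **NFP** (near field). As QWP.NFP: `Gam s F = R^{3/2-s} gr 0 (-log R) (Gam s F1)`, `F1(x) = F(Rx)`, `‖F1‖_1 = R^{-4} ‖F‖_1`. -/
def St_NFP : Prop := ∀ (s : ℝ) (θ : ℝ → ℝ), |s| < 1 / 2 → Sm θ → (∀ p, |θ p| ≤ 1) → (∀ p, 1 / 12 ≤ |p| → θ p = 0) →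
  ∃ C : ℝ, 0 < C ∧ ∀ (R B : ℝ) (F : E → ℝ) (σ : ℝ), 0 < R → 0 ≤ B → Integrable F volume →
    (∀ φ, IsTest φ → |∫ x, F x * φ x| ≤ B * (hs (-1 / 2 - s) φ) ^ (1 / 2 : ℝ)) →
    (∀ᵐ x, R / 4 < ‖x‖ → F x = 0) → 0 ≤ σ → σ ≤ R / 8 →
    ex s (xt 0 R) (Mul s (fun p => θ (p / R)) (tau (-σ) (Gam s F))) ≤ C * R ^ (-(5 / 2 : ℝ) - s) * ∫ x, |F x|

/-! ### Compactness -/

/-- **MolP** (mollification error). As QWP.MolP with `|1 - ρ^(η)| ≤ C |η|^{1/2+s}` and `hs (1/2+s) (∂_i f) ≤ ‖k‖²/c0`. -/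
def St_MolP : Prop := ∀ (s : ℝ) (ρ : E → ℝ), |s| < 1 / 2 → IsTest ρ → ∫ x, ρ x = 1 → (∀ x, ρ (-x) = ρ x) →
  ∃ C : ℝ, 0 < C ∧ ∀ (k : K) (ε : ℝ), 0 < ε →
  (∀ i, eLpNorm (fun x => DU s k i x - ∫ y, ρ y * DU s k i (x - ε • y)) 2 volume ≤
    ENNReal.ofReal (C * ε ^ (1 / 2 + s)) * ‖k‖ₑ) ∧
  eLpNorm (fun x => V s k x - ∫ y, ρ y * V s k (x - ε • y)) 2 volume ≤
    ENNReal.ofReal (C * ε ^ (1 / 2 + s)) * ‖k‖ₑ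

/-- **WkP** (local compactness). As QWP.WkP. -/
def St_WkP : Prop := ∀ (s : ℝ) (k : ℕ → K) (M : ℝ), |s| < 1 / 2 → WTo k 0 →
  Tendsto (fun n => eLpNorm ((Metric.ball (0 : E) M).indicator (U s (k n))) 2 volume) atTop (𝓝 0) ∧
  (∀ i, Tendsto (fun n => eLpNorm ((Metric.ball (0 : E) M).indicator (DU s (k n) i)) 2 volume) atTop (𝓝 0)) ∧
  Tendsto (fun n => eLpNorm ((Metric.ball (0 : E) M).indicator (V s (k n))) 2 volume) atTop (𝓝 0)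

end Pool.Agent.QWF
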