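import Pool.Agent.QWF.StB

set_option autoImplicit false

/-!
# QWF, block B, part 2: two auxiliary statements for the energy part (used by EnR, MorS, MorF)

Real-variable facts in `ℝ⁴`; no state space. The corresponding facts in `ℝ⁵` are in the files QWE/Moll.lean, QWE/FEd.lean (namespace FEdx), QWE/MorI.lean (namespace MorIx),
QWP/MorS.lean and QWP/EnR.lean (lemma dense). The Morawetz multiplier is `m(u,G) = (x·G)/⟨x⟩ + (1/2)(⟨x⟩⁻³ + 3⟨x⟩⁻¹) u`, `⟨x⟩ = √(1+|x|²)`.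
-/

open MeasureTheory Filter Topology Set
open scoped ENNReal NNReal RealInnerProductSpace

namespace Pool.Agent.QWF

/-- **FPa** (approximation of finite energy pairs, Sobolev, Hardy). Proof. As QWP.EnR (lemma dense) and QWP.MorS. Cut off with `χ(·/M)`: `‖u ∂_i χ_M‖_2 ≤ ‖∂_i χ_M‖_4 ‖u‖_{L⁴(M ≤ |x| ≤ 2M)} → 0` (`‖∂_i χ_M‖_4` is bounded uniformly in `M`), then mollify: `f_n = ρ_ε * (χ_M u)`, `pd i f_n = ρ_ε * (G i χ_M + u ∂_i χ_M)`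
(`WD i u (G i)`, product rule), `g_n = ρ_ε * (χ_M v)`. Sobolev for test functions: Mathlib `MeasureTheory.eLpNorm_le_eLpNorm_fderiv_of_eq` (`n = 4`, `p = 2`, `p' = 4`), or SobP with `a = 1` and Hs; in the limit for `u`. Hardy for test functions: `div(x/⟨x⟩²) = 4/⟨x⟩² - 2|x|²/⟨x⟩⁴ ≥ 2/⟨x⟩²`, so
`2 ∫ f²/⟨x⟩² ≤ - 2 ∫ f (x·∇f)/⟨x⟩² ≤ 2 ‖f/⟨x⟩‖_2 ‖∇f‖_2`; in the limit for `u` (`f_n → u` a.e. along a subsequence and Fatou, or `‖w/⟨x⟩‖_{L²(|x|<R)} ≤ C_R ‖w‖_4`). -/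
def St_FPa : Prop := ∃ C : ℝ, 0 < C ∧ ∀ (u v : E → ℝ) (G : Fin 4 → E → ℝ), FP u v G →
  eLpNorm u 4 volume ≤ ENNReal.ofReal C * ∑ i, eLpNorm (G i) 2 volume ∧
  eLpNorm (fun x => u x / √(1 + ‖x‖ ^ 2)) 2 volume ≤ ENNReal.ofReal C * ∑ i, eLpNorm (G i) 2 volume ∧
  ∃ f g : ℕ → E → ℝ, (∀ n, IsTest (f n) ∧ IsTest (g n)) ∧
    Tendsto (fun n => eLpNorm (fun x => f n x - u x) 4 volume) atTop (𝓝 0) ∧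
    (∀ i, Tendsto (fun n => eLpNorm (fun x => pd i (f n) x - G i x) 2 volume) atTop (𝓝 0)) ∧
    Tendsto (fun n => eLpNorm (fun x => g n x - v x) 2 volume) atTop (𝓝 0)

/-- **MorT** (virial inequality and identity for test functions). Proof as in QWE/MorI.lean (lemma test_ineq) and QWP/MorF.lean, with `a = ⟨x⟩`, `∇a = x/⟨x⟩`, `Δa = 3/⟨x⟩ + 1/⟨x⟩³`: `∫ Δf m(f) = - ∫ D²a(∇f,∇f) + (1/4) ∫ Δ²a f²`, `D²a(ξ,ξ) = |ξ|²/⟨x⟩ - (x·ξ)²/⟨x⟩³ ≥ 0`, `Δ²a = -3⟨x⟩⁻⁷(8 + 4|x|² + |x|⁴) ≤ 0`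
(`Δ⟨x⟩^{-1} = -⟨x⟩⁻⁵(4 + |x|²)`, `Δ⟨x⟩^{-3} = ⟨x⟩⁻⁷(3|x|² - 12)`). Second part: `g (∇a·∇g) + (1/2) Δa g² = (1/2) div(g² ∇a)`. -/
def St_MorT : Prop := ∀ f g : E → ℝ, IsTest f → IsTest g →
  (∫ x, lap f x * ((∑ i, x i * pd i f x) / √(1 + ‖x‖ ^ 2) +
    (1 / (√(1 + ‖x‖ ^ 2)) ^ 3 + 3 / √(1 + ‖x‖ ^ 2)) / 2 * f x)) ≤ 0 ∧
  ∫ x, g x * ((∑ i, x i * pd i g x) / √(1 + ‖x‖ ^ 2) +
    (1 / (√(1 + ‖x‖ ^ 2)) ^ 3 + 3 / √(1 + ‖x‖ ^ 2)) / 2 * g x) = 0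

end Pool.Agent.QWF
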