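import Pool.Agent.QWF.StB
import Pool.Agent.QWF.Grp1

/-!
# QWF, module Uniq: uniqueness (port of QWP/Uniq)
-/

set_option autoImplicit false

open MeasureTheory Filter Topology Set
open scoped ENNReal NNReal RealInnerProductSpace

namespace Pool.Agent.QWF


namespace Uniqx

lemma joint : Continuous fun z : ℝ × K => tau z.1 z.2 := by
  obtain ⟨_, _, _, _, _, _, _, hcont, _⟩ := thm_Grp1
  rw [continuous_iff_continuousAt]
  rintro ⟨a, x⟩
  have h1 : Tendsto (fun z : ℝ × K => tau z.1 x) (𝓝 (a, x)) (𝓝 (tau a x)) :=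
    ((hcont x).comp continuous_fst).tendsto (a, x)
  have h2 : Tendsto (fun z : ℝ × K => tau z.1 (z.2 - x)) (𝓝 (a, x)) (𝓝 0) := by
    rw [tendsto_zero_iff_norm_tendsto_zero]
    simp only [LinearIsometry.norm_map]
    have h3 : Continuous fun z : ℝ × K => ‖z.2 - x‖ := by fun_prop
    have h4 := h3.tendsto (a, x)
    simpa using h4
  have h3 := h1.add h2
  rw [add_zero] at h3
  refine h3.congr fun z => ?_
  rw [← map_add, add_sub_cancel]

lemma tau_int {N : ℝ → K} {s : Set ℝ} (hN : IntegrableOn N s volume) (t : ℝ) :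
    IntegrableOn (fun r => tau (t - r) (N r)) s volume := by
  have hm1 : AEStronglyMeasurable (fun q : ℝ => (t - q, N q)) (volume.restrict s) :=
    (Continuous.aestronglyMeasurable (by fun_prop)).prodMk hN.aestronglyMeasurable
  have hm2 : AEStronglyMeasurable (fun q : ℝ => tau (t - q, N q).1 (t - q, N q).2)
      (volume.restrict s) :=
    Continuous.comp_aestronglyMeasurable (g := fun z : ℝ × K => tau z.1 z.2) joint hm1
  have hm3 : Integrable (fun r => tau (t - r) (N r)) (volume.restrict s) := by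
    refine Integrable.mono (hN : Integrable N (volume.restrict s)) hm2 ?_
    exact Eventually.of_forall fun q => (LinearIsometry.norm_map (tau (t - q)) (N q)).le
  exact hm3

lemma NL_int {b : ℝ} (hb : 4 < b) (hNLb : St_NLb) (hMeas : St_Meas) {I : Set ℝ} {k : ℝ → K}
    (hk : IsSol b I k) {x y : ℝ} (hx : x ∈ I) (hy : y ∈ I) :
    (∀ᵐ r ∂(volume.restrict (Icc x y)), sn b (k r) < ⊤) ∧
      AEMeasurable (fun r => sn b (k r)) (volume.restrict (Icc x y)) ∧
      IntegrableOn (fun r => NL b (k r)) (Icc x y) volume := by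
  obtain ⟨hoc, hcont, hSN, _⟩ := hk
  have hsub : Icc x y ⊆ I := hoc.out hx hy
  have hc : ContinuousOn k (Icc x y) := hcont.mono hsub
  have hkm : AEStronglyMeasurable k (volume.restrict (Icc x y)) :=
    hc.aestronglyMeasurable measurableSet_Icc
  obtain ⟨hsm, _, h2⟩ := hMeas b hb k (Icc x y) measurableSet_Icc hkm
  have hfin := hSN x hx y hy
  have h3 : ∀ᵐ r ∂(volume.restrict (Icc x y)), sn b (k r) ^ b < ⊤ :=
    ae_lt_top' (hsm.pow_const b) hfin.ne
  have h4 : ∀ᵐ r ∂(volume.restrict (Icc x y)), sn b (k r) < ⊤ := by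
    filter_upwards [h3] with r hr
    by_contra hcon
    rw [not_lt, top_le_iff] at hcon
    rw [hcon, ENNReal.top_rpow_of_pos (by linarith)] at hr
    exact lt_irrefl _ hr
  refine ⟨h4, hsm, h2 h4, ?_⟩
  obtain ⟨⟨C, _, hbd, _⟩, _⟩ := hNLb b hb
  obtain ⟨B, hB⟩ := isCompact_Icc.exists_bound_of_continuousOn hc
  have h5 : ∫⁻ r in Icc x y, ‖NL b (k r)‖ₑ ≤
      ∫⁻ r in Icc x y, ENNReal.ofReal C * ENNReal.ofReal B * sn b (k r) ^ b := by
    refine setLIntegral_mono' measurableSet_Icc fun r hr => ?_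
    refine (hbd (k r)).trans ?_
    have h6 : ‖k r‖ₑ ≤ ENNReal.ofReal B := by
      rw [← ofReal_norm]
      exact ENNReal.ofReal_le_ofReal (hB r hr)
    calc ENNReal.ofReal C * sn b (k r) ^ b * ‖k r‖ₑ ≤
        ENNReal.ofReal C * sn b (k r) ^ b * ENNReal.ofReal B := by gcongr
      _ = ENNReal.ofReal C * ENNReal.ofReal B * sn b (k r) ^ b := by ring
  refine lt_of_le_of_lt h5 ?_
  rw [lintegral_const_mul' _ _ (ENNReal.mul_ne_top ENNReal.ofReal_ne_top ENNReal.ofReal_ne_top)]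
  exact ENNReal.mul_lt_top (ENNReal.mul_lt_top ENNReal.ofReal_lt_top ENNReal.ofReal_lt_top) hfin

/-- a small number -/
lemma small {b : ℝ} (hb : 4 < b) (C1 C2 B : ℝ) : ∃ η : ℝ, 0 < η ∧
    C1 * (η ^ ((b - 1) / b) * C2 * (2 * B) + η) ≤ 1 / 2 := by
  have hθ : 0 < (b - 1) / b := div_pos (by linarith) (by linarith)
  have hc : Continuous fun η : ℝ => C1 * (η ^ ((b - 1) / b) * C2 * (2 * B) + η) := by
    have h1 : Continuous fun η : ℝ => η ^ ((b - 1) / b) := Real.continuous_rpow_const hθ.le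
    fun_prop
  have h0 := hc.tendsto 0
  simp only [Real.zero_rpow hθ.ne', zero_mul, add_zero, mul_zero] at h0
  obtain ⟨δ, hδ, h1⟩ := Metric.tendsto_nhds_nhds.1 h0 (1 / 2) (by norm_num)
  have h2 := h1 (x := δ / 2) (by
    rw [Real.dist_eq, sub_zero, abs_of_pos (by linarith)]
    linarith)
  rw [Real.dist_eq, sub_zero] at h2
  exact ⟨δ / 2, by linarith, (le_abs_self _).trans h2.le⟩

/-- the estimate on a short interval -/
lemma est {b : ℝ} (hb : 4 < b) {C1 C2 B η : ℝ} (hC1 : 0 ≤ C1) (hC2 : 0 ≤ C2) (hB : 0 ≤ B)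
    (hη : 0 ≤ η) (hs : C1 * (η ^ ((b - 1) / b) * C2 * (2 * B) + η) ≤ 1 / 2)
    {A : Set ℝ} (hA : MeasurableSet A) {G k k' : ℝ → K}
    (hsm : AEMeasurable (fun r => sn b (k r)) (volume.restrict A))
    (hsm' : AEMeasurable (fun r => sn b (k' r)) (volume.restrict A))
    (hdm : AEMeasurable (fun r => sn b (k r - k' r)) (volume.restrict A))
    (hG : ∀ᵐ q ∂(volume.restrict A), ‖G q‖ₑ ≤ ENNReal.ofReal C1 *
      ((sn b (k q) + sn b (k' q)) ^ (b - 1) * sn b (k q - k' q) * (‖k q‖ₑ + ‖k' q‖ₑ) +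
        (sn b (k q) + sn b (k' q)) ^ b * ‖k q - k' q‖ₑ))
    (hk : ∀ q ∈ A, ‖k q‖ₑ ≤ ENNReal.ofReal B) (hk' : ∀ q ∈ A, ‖k' q‖ₑ ≤ ENNReal.ofReal B)
    (hS : ∫⁻ q in A, (sn b (k q) + sn b (k' q)) ^ b ≤ ENNReal.ofReal η)
    (hsup : ∀ q ∈ A, ‖k q - k' q‖ₑ ≤ ∫⁻ r in A, ‖G r‖ₑ)
    (hSN : ∫⁻ q in A, sn b (k q - k' q) ^ b ≤
      (ENNReal.ofReal C2 * ∫⁻ r in A, ‖G r‖ₑ) ^ b)
    (hfin : ∫⁻ r in A, ‖G r‖ₑ ≠ ⊤) : ∫⁻ r in A, ‖G r‖ₑ = 0 := by
  have hb0 : 0 < b := by linarith
  have hb1 : 0 < b - 1 := by linarith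
  set D := ∫⁻ r in A, ‖G r‖ₑ with hD
  have hbm : AEMeasurable (fun q => sn b (k q) + sn b (k' q)) (volume.restrict A) :=
    hsm.add hsm'
  have hH : ∫⁻ q in A, (sn b (k q) + sn b (k' q)) ^ (b - 1) * sn b (k q - k' q) ≤
      ENNReal.ofReal η ^ ((b - 1) / b) * (ENNReal.ofReal C2 * D) := by
    have hpq : (b / (b - 1)).HolderConjugate b := by
      rw [Real.holderConjugate_iff]
      refine ⟨?_, ?_⟩
      · rw [lt_div_iff₀ hb1]; linarith
      · field_simp
        ring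
    have h1 := ENNReal.lintegral_mul_le_Lp_mul_Lq (volume.restrict A) hpq
      (hbm.pow_const (b - 1)) hdm
    refine h1.trans ?_
    refine mul_le_mul' ?_ ?_
    · have h2 : ∀ q, ((sn b (k q) + sn b (k' q)) ^ (b - 1)) ^ (b / (b - 1)) =
          (sn b (k q) + sn b (k' q)) ^ b := by
        intro q
        rw [← ENNReal.rpow_mul]
        congr 1
        field_simp
      simp_rw [h2]
      have h3 : 1 / (b / (b - 1)) = (b - 1) / b := by
        field_simp
      rw [h3]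
      exact ENNReal.rpow_le_rpow hS (div_pos hb1 hb0).le
    · have h2 := ENNReal.rpow_le_rpow hSN (z := 1 / b) (by positivity)
      rwa [← ENNReal.rpow_mul, mul_one_div_cancel hb0.ne', ENNReal.rpow_one] at h2
  have h1 : D ≤ ∫⁻ q in A, ENNReal.ofReal C1 *
      ((sn b (k q) + sn b (k' q)) ^ (b - 1) * sn b (k q - k' q) * (2 * ENNReal.ofReal B) +
        (sn b (k q) + sn b (k' q)) ^ b * D) := by
    refine lintegral_mono_ae ?_
    filter_upwards [hG, ae_restrict_mem hA] with q h2 hq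
    refine h2.trans ?_
    have h3 : ‖k q‖ₑ + ‖k' q‖ₑ ≤ 2 * ENNReal.ofReal B := by
      rw [two_mul]
      exact add_le_add (hk q hq) (hk' q hq)
    have h4 := hsup q hq
    gcongr
  have h2 : ∫⁻ q in A, ENNReal.ofReal C1 *
      ((sn b (k q) + sn b (k' q)) ^ (b - 1) * sn b (k q - k' q) * (2 * ENNReal.ofReal B) +
        (sn b (k q) + sn b (k' q)) ^ b * D) =
      ENNReal.ofReal C1 * ((∫⁻ q in A, (sn b (k q) + sn b (k' q)) ^ (b - 1) *
        sn b (k q - k' q)) * (2 * ENNReal.ofReal B) +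
        (∫⁻ q in A, (sn b (k q) + sn b (k' q)) ^ b) * D) := by
    have hm1 : AEMeasurable (fun q => (sn b (k q) + sn b (k' q)) ^ (b - 1) *
        sn b (k q - k' q) * (2 * ENNReal.ofReal B)) (volume.restrict A) :=
      ((hbm.pow_const (b - 1)).mul hdm).mul_const _
    rw [lintegral_const_mul' _ _ ENNReal.ofReal_ne_top, lintegral_add_left' hm1,
      lintegral_mul_const' _ _ (ENNReal.mul_ne_top (by norm_num) ENNReal.ofReal_ne_top),
      lintegral_mul_const' _ _ hfin]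
  have h3 : D ≤ ENNReal.ofReal C1 * (ENNReal.ofReal η ^ ((b - 1) / b) *
      (ENNReal.ofReal C2 * D) * (2 * ENNReal.ofReal B) + ENNReal.ofReal η * D) := by
    refine h1.trans (h2.le.trans ?_)
    gcongr
  have h4 : ENNReal.ofReal C1 * (ENNReal.ofReal η ^ ((b - 1) / b) *
      (ENNReal.ofReal C2 * D) * (2 * ENNReal.ofReal B) + ENNReal.ofReal η * D) =
      ENNReal.ofReal (C1 * (η ^ ((b - 1) / b) * C2 * (2 * B) + η)) * D := by
    have e0 : 0 ≤ η ^ ((b - 1) / b) := Real.rpow_nonneg hη _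
    rw [ENNReal.ofReal_rpow_of_nonneg hη (div_pos hb1 hb0).le, ENNReal.ofReal_mul hC1,
      ENNReal.ofReal_add (by positivity) hη, ENNReal.ofReal_mul (by positivity),
      ENNReal.ofReal_mul (by positivity), ENNReal.ofReal_mul (by norm_num : (0 : ℝ) ≤ 2)]
    have e1 : ENNReal.ofReal 2 = 2 := by norm_num
    rw [e1]
    ring
  rw [h4] at h3
  have h5 : D ≤ ENNReal.ofReal (1 / 2) * D := h3.trans (by gcongr)
  by_contra h0
  have h6 : ENNReal.ofReal (1 / 2) * D < 1 * D := by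
    refine ENNReal.mul_lt_mul_left h0 hfin ?_
    rw [← ENNReal.ofReal_one]
    exact (ENNReal.ofReal_lt_ofReal_iff one_pos).2 (by norm_num)
  rw [one_mul] at h6
  exact absurd h5 (not_le.2 h6)

/-- local uniqueness -/
lemma loc {b : ℝ} (hb : 4 < b) (hNLb : St_NLb) (hMeas : St_Meas) (hD : St_DuhI) {I J : Set ℝ}
    {k k' : ℝ → K} (hk : IsSol b I k) (hk' : IsSol b J k') {a c : ℝ} (ha : a ∈ I) (hc : c ∈ I)
    (ha' : a ∈ J) (hc' : c ∈ J) {t1 : ℝ} (ht1 : t1 ∈ Icc a c) (heq : k t1 = k' t1) :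
    ∃ ε : ℝ, 0 < ε ∧ ∀ r ∈ Icc a c, |r - t1| < ε → k r = k' r := by
  obtain ⟨hfin, hsm, hint⟩ := NL_int hb hNLb hMeas hk ha hc
  obtain ⟨hfin', hsm', hint'⟩ := NL_int hb hNLb hMeas hk' ha' hc'
  obtain ⟨hoc, hcont, hSN, hduh⟩ := hk
  obtain ⟨hoc', hcont', hSN', hduh'⟩ := hk'
  have hsub : Icc a c ⊆ I := hoc.out ha hc
  have hsub' : Icc a c ⊆ J := hoc'.out ha' hc'
  have hck : ContinuousOn k (Icc a c) := hcont.mono hsub
  have hck' : ContinuousOn k' (Icc a c) := hcont'.mono hsub'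
  have hdm : AEMeasurable (fun r => sn b (k r - k' r)) (volume.restrict (Icc a c)) :=
    (hMeas b hb (fun r => k r - k' r) (Icc a c) measurableSet_Icc
      ((hck.sub hck').aestronglyMeasurable measurableSet_Icc)).1
  obtain ⟨⟨C1, hC1, _, hdiff⟩, _⟩ := hNLb b hb
  obtain ⟨C2, hC2, hDI⟩ := hD b hb
  obtain ⟨B1, hB1⟩ := isCompact_Icc.exists_bound_of_continuousOn hck
  obtain ⟨B2, hB2⟩ := isCompact_Icc.exists_bound_of_continuousOn hck'
  have hB0 : 0 ≤ max B1 B2 := (norm_nonneg _).trans ((hB1 t1 ht1).trans (le_max_left _ _))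
  obtain ⟨η, hη, hηs⟩ := small hb C1 C2 (max B1 B2)
  have hb0 : 0 < b := by linarith
  -- the weight is integrable
  have hmfin : ∫⁻ r, (sn b (k r) + sn b (k' r)) ^ b ∂(volume.restrict (Icc a c)) ≠ ⊤ := by
    have h1 : ∫⁻ r, (sn b (k r) + sn b (k' r)) ^ b ∂(volume.restrict (Icc a c)) ≤
        ∫⁻ r, (2 : ℝ≥0∞) ^ (b - 1) * (sn b (k r) ^ b + sn b (k' r) ^ b)
          ∂(volume.restrict (Icc a c)) :=
      lintegral_mono fun r => ENNReal.rpow_add_le_mul_rpow_add_rpow _ _ (by linarith)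
    refine ne_top_of_le_ne_top ?_ h1
    have h2 : (2 : ℝ≥0∞) ^ (b - 1) ≠ ⊤ := by
      exact ENNReal.rpow_ne_top_of_nonneg (by linarith) (by norm_num)
    rw [lintegral_const_mul' _ _ h2, lintegral_add_left' (hsm.pow_const b)]
    exact ENNReal.mul_ne_top h2 (ENNReal.add_ne_top.2
      ⟨(hSN a ha c hc).ne, (hSN' a ha' c hc').ne⟩)
  obtain ⟨δ, hδ, hδs⟩ := exists_pos_setLIntegral_lt_of_measure_lt hmfin
    (ε := ENNReal.ofReal η) (by rw [Ne, ENNReal.ofReal_eq_zero, not_le]; exact hη)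
  obtain ⟨δ', hδ'0, hδ'⟩ := exists_between hδ
  have hδ't : δ' ≠ ⊤ := (lt_of_lt_of_le hδ' le_top).ne
  have hε : 0 < δ'.toReal / 2 := by
    have := ENNReal.toReal_pos hδ'0.ne' hδ't
    linarith
  set ε := δ'.toReal / 2 with hεd
  refine ⟨ε, hε, ?_⟩
  set x := max a (t1 - ε) with hx
  set y := min c (t1 + ε) with hy
  have hxt : x ≤ t1 := max_le ht1.1 (by linarith)
  have hty : t1 ≤ y := le_min ht1.2 (by linarith)
  have hxy : Icc x y ⊆ Icc a c := Icc_subset_Icc (le_max_left _ _) (min_le_left _ _)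
  have hxy2 : Icc x y ⊆ Icc (t1 - ε) (t1 + ε) :=
    Icc_subset_Icc (le_max_right _ _) (min_le_right _ _)
  have hS : ∫⁻ q in Icc x y, (sn b (k q) + sn b (k' q)) ^ b ≤ ENNReal.ofReal η := by
    have h1 := hδs (Icc (t1 - ε) (t1 + ε)) (by
      refine lt_of_le_of_lt (Measure.restrict_apply_le _ _) ?_
      rw [Real.volume_Icc]
      have h2 : t1 + ε - (t1 - ε) = δ'.toReal := by rw [hεd]; ring
      rw [h2, ENNReal.ofReal_toReal hδ't]
      exact hδ')
    rw [Measure.restrict_restrict measurableSet_Icc] at h1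
    exact (lintegral_mono_set (subset_inter hxy2 hxy)).trans h1.le
  let G : ℝ → K := fun q => NL b (k' q) - NL b (k q)
  have hGint : IntegrableOn G (Icc x y) volume :=
    (hint'.mono_set hxy).sub (hint.mono_set hxy)
  obtain ⟨_, hsup, hSNd, _⟩ := hDI x y t1 G hxt hty hGint
  have hd : ∀ t ∈ Icc x y, k t - k' t = ∫ r in t1..t, tau (t - r) (G r) := by
    intro t ht
    have htI := hxy ht
    have e1 := hduh t1 (hsub ht1) t (hsub htI)
    have e2 := hduh' t1 (hsub' ht1) t (hsub' htI)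
    have hui : uIcc t1 t ⊆ Icc a c := uIcc_subset_Icc ht1 htI
    have i1 : IntervalIntegrable (fun r => tau (t - r) (NL b (k r))) volume t1 t := by
      rw [intervalIntegrable_iff]
      exact (tau_int hint t).mono_set (uIoc_subset_uIcc.trans hui)
    have i2 : IntervalIntegrable (fun r => tau (t - r) (NL b (k' r))) volume t1 t := by
      rw [intervalIntegrable_iff]
      exact (tau_int hint' t).mono_set (uIoc_subset_uIcc.trans hui)
    have e3 : ∫ r in t1..t, tau (t - r) (G r) =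
        (∫ r in t1..t, tau (t - r) (NL b (k' r))) - ∫ r in t1..t, tau (t - r) (NL b (k r)) := by
      rw [← intervalIntegral.integral_sub i2 i1]
      refine intervalIntegral.integral_congr fun r _ => ?_
      exact map_sub _ _ _
    rw [e3]
    calc k t - k' t = (tau (t - t1) (k t1) - ∫ r in t1..t, tau (t - r) (NL b (k r))) -
          (tau (t - t1) (k' t1) - ∫ r in t1..t, tau (t - r) (NL b (k' r))) := by
            rw [← e1, ← e2]
      _ = _ := by rw [heq]; abel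
  have hDfin : ∫⁻ r in Icc x y, ‖G r‖ₑ ≠ ⊤ := hGint.2.ne
  have hDn : ∫ r in Icc x y, ‖G r‖ = (∫⁻ r in Icc x y, ‖G r‖ₑ).toReal :=
    integral_norm_eq_lintegral_enorm hGint.aestronglyMeasurable
  have hsup' : ∀ q ∈ Icc x y, ‖k q - k' q‖ₑ ≤ ∫⁻ r in Icc x y, ‖G r‖ₑ := by
    intro q hq
    rw [hd q hq, ← ofReal_norm]
    refine (ENNReal.ofReal_le_ofReal (hsup q hq)).trans ?_
    rw [hDn, ENNReal.ofReal_toReal hDfin]
  have hSN2 : ∫⁻ q in Icc x y, sn b (k q - k' q) ^ b ≤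
      (ENNReal.ofReal C2 * ∫⁻ r in Icc x y, ‖G r‖ₑ) ^ b := by
    have h1 : ∫⁻ q in Icc x y, sn b (k q - k' q) ^ b =
        SN b (Icc x y) fun t => ∫ r in t1..t, tau (t - r) (G r) := by
      unfold SN
      refine setLIntegral_congr_fun measurableSet_Icc fun q hq => ?_
      show sn b (k q - k' q) ^ b = sn b (∫ r in t1..q, tau (q - r) (G r)) ^ b
      rw [hd q hq]
    rw [h1]
    refine hSNd.trans (le_of_eq ?_)
    rw [hDn, ENNReal.ofReal_mul hC2.le, ENNReal.ofReal_toReal hDfin]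
  have hzero := est hb hC1.le hC2.le hB0 hη.le hηs (measurableSet_Icc (a := x) (b := y))
    (G := G) (k := k) (k' := k')
    (hsm.mono_measure (Measure.restrict_mono_set _ hxy))
    (hsm'.mono_measure (Measure.restrict_mono_set _ hxy))
    (hdm.mono_measure (Measure.restrict_mono_set _ hxy))
    (by
      filter_upwards [ae_restrict_of_ae_restrict_of_subset hxy hfin,
        ae_restrict_of_ae_restrict_of_subset hxy hfin'] with q h1 h2
      show ‖NL b (k' q) - NL b (k q)‖ₑ ≤ _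
      rw [← enorm_neg, neg_sub]
      exact hdiff (k q) (k' q) h1 h2)
    (fun q hq => by
      rw [← ofReal_norm]
      exact ENNReal.ofReal_le_ofReal ((hB1 q (hxy hq)).trans (le_max_left _ _)))
    (fun q hq => by
      rw [← ofReal_norm]
      exact ENNReal.ofReal_le_ofReal ((hB2 q (hxy hq)).trans (le_max_right _ _)))
    hS hsup' hSN2 hDfin
  intro r hr hrt
  rw [abs_lt] at hrt
  have hrx : r ∈ Icc x y := ⟨max_le hr.1 (by linarith), le_min hr.2 (by linarith)⟩
  have h1 := hsup' r hrx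
  rw [hzero, nonpos_iff_eq_zero, enorm_eq_zero, sub_eq_zero] at h1
  exact h1

end Uniqx

open Uniqx in
theorem thm_Uniq (hNLb : St_NLb) (hMeas : St_Meas) (hD : St_DuhI) : St_Uniq := by
  intro b hb I J k k' t0 hk hk' h0 h0' heq t ht ht'
  set a := min t0 t with ha
  set c := max t0 t with hc
  have haI : a ∈ I := by rcases min_choice t0 t with h | h <;> rw [ha, h] <;> assumption
  have haJ : a ∈ J := by rcases min_choice t0 t with h | h <;> rw [ha, h] <;> assumption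
  have hcI : c ∈ I := by rcases max_choice t0 t with h | h <;> rw [hc, h] <;> assumption
  have hcJ : c ∈ J := by rcases max_choice t0 t with h | h <;> rw [hc, h] <;> assumption
  have ht0m : t0 ∈ Icc a c := ⟨min_le_left _ _, le_max_left _ _⟩
  have htm : t ∈ Icc a c := ⟨min_le_right _ _, le_max_right _ _⟩
  have hck : ContinuousOn k (Icc a c) := hk.2.1.mono (hk.1.out haI hcI)
  have hck' : ContinuousOn k' (Icc a c) := hk'.2.1.mono (hk'.1.out haJ hcJ)
  let s : Set (Icc a c) := {r | k r = k' r}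
  have hcl : IsClosed s := isClosed_eq hck.domRestrict hck'.domRestrict
  have hop : IsOpen s := by
    rw [Metric.isOpen_iff]
    intro r hr
    obtain ⟨ε, hε, h1⟩ := loc hb hNLb hMeas hD hk hk' haI hcI haJ hcJ r.2 hr
    refine ⟨ε, hε, ?_⟩
    intro q hq
    rw [Metric.mem_ball, Subtype.dist_eq, Real.dist_eq] at hq
    exact h1 q q.2 hq
  have hpre : PreconnectedSpace (Icc a c) := Subtype.preconnectedSpace isPreconnected_Icc
  have huniv : s = univ := IsClopen.eq_univ ⟨hcl, hop⟩ ⟨⟨t0, ht0m⟩, heq⟩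
  have h1 : (⟨t, htm⟩ : Icc a c) ∈ s := by rw [huniv]; exact mem_univ _
  exact h1

end Pool.Agent.QWF
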